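import Pool.Agent.GK.MDefs

/-! # Module Extract: from metrics on `M(𝔅)` to local data near the special points -/

open scoped ContDiff Topology ComplexOrder
open MeasureTheory

namespace GK

noncomputable section

/-- compatibility for arbitrary lifts -/
theorem Pres.Metric.compat_lift {n : ℕ} {P : Pres n} (G : P.Metric) {i j : P.ι} {z : V n}
    (hz : z ∈ P.U i) {h : V n → V n} (hh : AnalyticAt ℂ h z) (hj : h z ∈ P.U j)
    (h1 : ∀ᶠ z' in 𝓝 z, P.π j (h z') = P.π i z') : G.g i z = pull (jac h z) (G.g j (h z)) := by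
  obtain ⟨k, k1, k2, k3, k4⟩ := G.compat i j z (h z) hz hj h1.self_of_nhds.symm
  have e : k =ᶠ[𝓝 z] h :=
    P.lift_unique hz k1.continuousAt hh.continuousAt (by rw [k2]; exact hj) k2 k3 h1
  rw [k4, jac_congr e]

theorem Pres.ofMetric_toMetric {n : ℕ} {P : Pres n} (G : P.Metric) {i : P.ι} {z : V n}
    (hz : z ∈ P.U i) : (P.ofMetric G.toMetric).g i z = G.g i z := by
  obtain ⟨e, he, h1, h2, h3⟩ := P.exists_chart i hz
  rw [P.ofMetric_g G.toMetric he h2 h3 h1, G.toMetric_g he h2 h3 h1]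

variable {B : BaseCurve}

theorem ex_pull_one {n : ℕ} (g : Matrix (Fin n) (Fin n) ℂ) : pull 1 g = g := by
  unfold pull
  simp [Matrix.transpose_one]

/-! ### lifts of the elementary moves -/

theorem ex_compat_move1 (G : (presM B).Metric) {i j : B.κ} {γ : Gam} {h : ℂ → ℂ} {y : V 4}
    (hy : y ∈ chU (Sum.inl i : Ix B)) (hy' : move1 B.N γ h y ∈ chU (Sum.inl j : Ix B))
    (hh : AnalyticAt ℂ h (y 2)) (he : ∀ᶠ x in 𝓝 (y 2), B.p j (h x) = B.s^[γ.k] (B.p i x)) :
    G.g (Sum.inl i : Ix B) y =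
      pull (jac (move1 B.N γ h) y) (G.g (Sum.inl j : Ix B) (move1 B.N γ h y)) := by
  refine G.compat_lift (i := (Sum.inl i : Ix B)) (j := (Sum.inl j : Ix B)) hy
    (analyticAt_move1 hh) hy' ?_
  have e1 : ∀ᶠ z' in 𝓝 y, z' ∈ chU (Sum.inl i : Ix B) := (isOpen_chU _).mem_nhds hy
  have e2 : ∀ᶠ z' in 𝓝 y, move1 B.N γ h z' ∈ chU (Sum.inl j : Ix B) :=
    (analyticAt_move1 hh).continuousAt.eventually ((isOpen_chU _).mem_nhds hy')
  filter_upwards [e1, e2, move1_chπ hh.continuousAt he] with z' a1 a2 a3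
  exact (proj_eq_iff a2 a1).2 a3

theorem ex_compat_move2 (G : (presM B).Metric) {q : Qt B} (hq : Spec q) {j : Fin 3} {y : V 4}
    (hy : (y - cen q) j.castSucc ≠ 0) (hE : E3 (y - cen q) < 1 / 64) :
    G.g (Sum.inl (B.ch q.2.2) : Ix B) y =
      pull (jac (move2 q j) y) (G.g (Sum.inr (q, j) : Ix B) (move2 q j y)) := by
  obtain ⟨m1, m2, _⟩ := move2_mem hq hy hE
  refine G.compat_lift (i := (Sum.inl (B.ch q.2.2) : Ix B)) (j := (Sum.inr (q, j) : Ix B)) m2
    (analyticAt_move2 hy) m1 ?_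
  have c0 : Continuous fun y' : V 4 => (y' - cen q) j.castSucc := by fun_prop
  have c1 : Continuous fun y' : V 4 => E3 (y' - cen q) := by
    simp only [E3_eq, Complex.normSq_apply]
    fun_prop
  have e0 : ∀ᶠ y' in 𝓝 y, (y' - cen q) j.castSucc ≠ 0 := c0.continuousAt.eventually_ne hy
  have e1 : ∀ᶠ y' in 𝓝 y, E3 (y' - cen q) < 1 / 64 :=
    c1.continuousAt.eventually_lt continuousAt_const hE
  filter_upwards [e0, e1] with y' a0 a1
  obtain ⟨b1, b2, b3⟩ := move2_mem hq a0 a1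
  exact (proj_eq_iff b1 b2).2 b3

/-! ### Jacobians -/

theorem ex_jac_move1 {N : ℕ} {γ : Gam} {h : ℂ → ℂ} {y : V 4} {d : ℂ}
    (hh : HasDerivAt h d (y 2)) :
    jac (move1 N γ h) y = Matrix.diagonal ![mult N γ.k γ.a, mult N γ.k γ.b, d, 1] := by
  have hp : ∀ i : Fin 4, HasFDerivAt (fun z : V 4 => z i)
      (ContinuousLinearMap.proj (R := ℂ) (φ := fun _ : Fin 4 => ℂ) i) y := fun i =>
    (ContinuousLinearMap.proj (R := ℂ) (φ := fun _ : Fin 4 => ℂ) i).hasFDerivAt
  have h0 : HasFDerivAt (fun z : V 4 => mult N γ.k γ.a * z 0 + γ.l0)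
      (mult N γ.k γ.a • ContinuousLinearMap.proj (R := ℂ) (φ := fun _ : Fin 4 => ℂ) 0) y :=
    ((hp 0).const_mul _).add_const _
  have h1 : HasFDerivAt (fun z : V 4 => mult N γ.k γ.b * z 1 + γ.l1)
      (mult N γ.k γ.b • ContinuousLinearMap.proj (R := ℂ) (φ := fun _ : Fin 4 => ℂ) 1) y :=
    ((hp 1).const_mul _).add_const _
  have h2 : HasFDerivAt (fun z : V 4 => h (z 2))
      (d • ContinuousLinearMap.proj (R := ℂ) (φ := fun _ : Fin 4 => ℂ) 2) y :=
    hh.comp_hasFDerivAt y (hp 2)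
  have h3 : HasFDerivAt (fun z : V 4 => z 3 + γ.tr)
      (ContinuousLinearMap.proj (R := ℂ) (φ := fun _ : Fin 4 => ℂ) 3) y :=
    (hp 3).add_const _
  have hall : HasFDerivAt (move1 N γ h) (ContinuousLinearMap.pi
      ![mult N γ.k γ.a • ContinuousLinearMap.proj (R := ℂ) (φ := fun _ : Fin 4 => ℂ) 0,
        mult N γ.k γ.b • ContinuousLinearMap.proj (R := ℂ) (φ := fun _ : Fin 4 => ℂ) 1,
        d • ContinuousLinearMap.proj (R := ℂ) (φ := fun _ : Fin 4 => ℂ) 2,
        ContinuousLinearMap.proj (R := ℂ) (φ := fun _ : Fin 4 => ℂ) 3]) y := by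
    rw [hasFDerivAt_pi]
    intro i
    fin_cases i
    · exact h0
    · exact h1
    · exact h2
    · exact h3
  ext a j
  rw [jac_apply, hall.fderiv]
  fin_cases a <;> fin_cases j <;> simp

theorem ex_jac_sub {h : V 4 → V 4} (c y : V 4) :
    jac (fun z => h (z - c)) (c + y) = jac h y := by
  ext a j
  rw [jac_apply, jac_apply]
  have : fderiv ℂ (fun z => h (z - c)) (c + y) = fderiv ℂ h (c + y - c) :=
    fderiv_comp_sub (f := h) c
  rw [this, add_sub_cancel_left]

/-! ### membership -/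

theorem ex_posA (q : Qt B) (y : V 4) : posA (B.ch q.2.2) (cen q + y) = posq q y := by
  rw [st_posA_eq, add_sub_cancel_left]

theorem ex_cen_two (q : Qt B) (y : V 4) : (cen q + y) 2 = y 2 := by
  simp [cen]

theorem ex_mem {q : Qt B} (hq : Spec q) {y : V 4} (h0 : 0 < E3 y) (h1 : E3 y < 1 / 64) :
    cen q + y ∈ chU (Sum.inl (B.ch q.2.2) : Ix B) := by
  refine ⟨?_, ?_⟩
  · rw [B.D_ch, mem_ball_zero_iff, ex_cen_two]
    have h2 : ‖y 2‖ < 1 / 8 := norm_lt_eighth h1 2
    linarith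
  · rw [ex_posA, specA_posq hq h1]
    exact h0.ne'

theorem ex_mem_R (q : Qt B) {y : V 4} (h0 : 0 < ‖y 2‖) (h1 : ‖y 2‖ < 1 / 2) :
    cen q + y ∈ chU (Sum.inl (B.ch q.2.2) : Ix B) := by
  have hb : y 2 ∈ Metric.ball (0 : ℂ) (1 / 2) := by rw [mem_ball_zero_iff]; exact h1
  refine ⟨?_, ?_⟩
  · rw [B.D_ch, ex_cen_two]; exact hb
  · rw [ex_posA]
    rintro ⟨τ, h2, _⟩
    obtain ⟨_, h3⟩ := p_ch_inj hb zero_mem_half h2
    rw [h3, norm_zero] at h0
    exact lt_irrefl _ h0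

theorem ex_mem_fib {q : Qt B} (hq : Spec q) {y : V 4} (hy : y ∈ fibDom (1 / 2) (1 / 64)) :
    cen q + y ∈ chU (Sum.inl (B.ch q.2.2) : Ix B) := by
  rcases hy with ⟨h0, h1⟩ | ⟨h0, h1⟩
  · exact ex_mem_R q h0 h1
  · exact ex_mem hq h0 h1

theorem ex_linV_two (N : ℕ) (γ : Gam) (y : V 4) : linV N γ y 2 = zetaN N ^ γ.k * y 2 := rfl

theorem ex_mem_act (q : Qt B) (γ : Gam) {y : V 4}
    (hy : cen q + y ∈ chU (Sum.inl (B.ch q.2.2) : Ix B)) :
    cen (actQ γ q) + linV B.N γ y ∈ chU (Sum.inl (B.ch (actQ γ q).2.2) : Ix B) := by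
  obtain ⟨h1, h2⟩ := hy
  rw [B.D_ch, ex_cen_two] at h1
  rw [ex_posA] at h2
  refine ⟨?_, ?_⟩
  · rw [B.D_ch, ex_cen_two, ex_linV_two, mem_ball_zero_iff, norm_mul, norm_pow, norm_zetaN,
      one_pow, one_mul]
    exact mem_ball_zero_iff.1 h1
  · rw [ex_posA, ← actA_posq γ q h1]
    intro h3
    exact h2 ((specA_iff_of_RA ⟨γ, rfl⟩).2 h3)

/-! ### the action of the covering group -/

theorem ext_move1_cen (q : Qt B) (γ : Gam) (y : V 4) :
    move1 B.N γ (fun w => zetaN B.N ^ γ.k * w) (cen q + y) =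
      cen (actQ γ q) + linV B.N γ y := by
  ext i
  fin_cases i
  · simp [move1, cen, actQ, linV]; ring
  · simp [move1, cen, actQ, linV]; ring
  · simp [move1, cen, linV]
  · simp [move1, cen, linV]

theorem ex_act (G : (presM B).Metric) (q : Qt B) (γ : Gam) {y : V 4}
    (hy : cen q + y ∈ chU (Sum.inl (B.ch q.2.2) : Ix B)) :
    G.g (Sum.inl (B.ch q.2.2) : Ix B) (cen q + y) =
      pull (Matrix.diagonal ![mult B.N γ.k γ.a, mult B.N γ.k γ.b, zetaN B.N ^ γ.k, 1])
        (G.g (Sum.inl (B.ch (actQ γ q).2.2) : Ix B) (cen (actQ γ q) + linV B.N γ y)) := by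
  have hy' := ex_mem_act q γ hy
  have hd : HasDerivAt (fun w : ℂ => zetaN B.N ^ γ.k * w) (zetaN B.N ^ γ.k) ((cen q + y) 2) := by
    simpa using (hasDerivAt_id ((cen q + y) 2)).const_mul (zetaN B.N ^ γ.k)
  have h := ex_compat_move1 G (i := B.ch q.2.2) (j := B.ch (actQ γ q).2.2) (γ := γ)
    (h := fun w => zetaN B.N ^ γ.k * w) hy (by rw [ext_move1_cen]; exact hy')
    (analyticAt_const.mul analyticAt_id) (by
      have hb : (cen q + y) 2 ∈ Metric.ball (0 : ℂ) (1 / 2) := by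
        have := hy.1
        rwa [B.D_ch] at this
      filter_upwards [Metric.isOpen_ball.mem_nhds hb] with x hx
      rw [s_iter_ch _ _ hx]
      rfl)
  rw [ex_jac_move1 hd, ext_move1_cen] at h
  exact h

theorem ex_locG_act (g : HermitianMetric 4 (presM B).Mfd) {q : Qt B} {γ : Gam}
    (hγ : actQ γ q = q) {y : V 4} (hy : cen q + y ∈ chU (Sum.inl (B.ch q.2.2) : Ix B)) :
    locG g q y = pull (Matrix.diagonal ![mult B.N γ.k γ.a, mult B.N γ.k γ.b, zetaN B.N ^ γ.k, 1])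
      (locG g q (linV B.N γ y)) := by
  have h := ex_act ((presM B).ofMetric g) q γ hy
  rw [hγ] at h
  exact h

/-- rotation invariance near the special points -/
theorem locG_rot (g : HermitianMetric 4 (presM B).Mfd) {q : Qt B} (hq : Spec q) {k : ℕ}
    (hk : Stab q k) {y : V 4} (h0 : 0 < E3 y) (h1 : E3 y < 1 / 64) :
    locG g q y = pull (scaleMat (zetaN B.N ^ k)) (locG g q (scale (zetaN B.N ^ k) y)) := by
  obtain ⟨γ, g1, g2, g3, g4⟩ := exists_gam_stab q hk
  have h := ex_locG_act g g4 (ex_mem hq h0 h1)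
  have e1 : linV B.N γ y = scale (zetaN B.N ^ k) y := by
    ext i
    fin_cases i <;> simp [linV, scale, mult, Gam.tr, g1, g2, g3]
  rw [e1, g1, g2, g3] at h
  rw [h]
  simp [scaleMat, mult]

theorem ro_ne_three_TS {q : Qt B} (hq : Spec q) (h : ro q ≠ 3) : TS q := by
  have two_mul_mem : ∀ z : ℂ, z ∈ Eis → 2 * z ∈ Eis := fun z hz => by
    rw [two_mul]; exact Eis.add_mem hz hz
  rcases (spec_iff q).1 hq with ⟨_, h1, h2⟩ | h1
  · exact ⟨two_mul_mem _ h1, two_mul_mem _ h2⟩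
  obtain ⟨_, s1, s2⟩ := stab_k0 q
  have hp := primitive_k0 q
  have hd : ro q ∣ 6 := (Dvd.intro_left _ (k0_mul_ro q)).trans B.N_dvd
  have hle : ro q ≤ 6 := Nat.le_of_dvd (by norm_num) hd
  have hc : zetaN B.N ^ k0 q ∈ Eis := zetaN_pow_mem B.N_pos B.N_dvd _
  generalize zetaN B.N ^ k0 q = c at s1 s2 hp hc
  generalize ro q = r at h h1 hd hle hp
  have hr : r = 2 ∨ r = 6 := by
    interval_cases r <;> omega
  rcases hr with rfl | rfl
  · have hc2 : c = -1 := hp.eq_neg_one_of_two_right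
    subst hc2
    have e : ∀ z : ℂ, (-1 - 1) * z ∈ Eis → 2 * z ∈ Eis := fun z hz => by
      have := Eis.neg_mem hz
      have e1 : -((-1 - 1) * z) = 2 * z := by ring
      rwa [e1] at this
    exact ⟨e _ s1, e _ s2⟩
  · have h3 : c ^ 3 = -1 :=
      (hp.pow (by norm_num) (show 6 = 3 * 2 by norm_num)).eq_neg_one_of_two_right
    have h4 : c + 1 ≠ 0 := by
      intro h4
      have h5 : c = -1 := by linear_combination h4
      have h6 : c ^ 2 = 1 := by rw [h5]; norm_num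
      have := hp.dvd_of_pow_eq_one 2 h6
      omega
    have h5 : c ^ 2 = c - 1 := by
      have : (c + 1) * (c ^ 2 - (c - 1)) = 0 := by linear_combination h3
      rcases mul_eq_zero.1 this with h6 | h6
      · exact absurd h6 h4
      · linear_combination h6
    have e : ∀ z : ℂ, (c - 1) * z ∈ Eis → 2 * z ∈ Eis := fun z hz => by
      apply two_mul_mem
      have h7 := Eis.neg_mem (Eis_mul hc hz)
      have e1 : -(c * ((c - 1) * z)) = z := by
        rw [← h5]; linear_combination (-z) * h3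
      rwa [e1] at h7
    exact ⟨e _ s1, e _ s2⟩

theorem ex_translate {g : V 4 → Matrix (Fin 4) (Fin 4) ℂ} {Ω Ω' : Set (V 4)} (hΩ : IsOpen Ω)
    (hg : KForm g Ω) (hΩ' : IsOpen Ω') (c : V 4) (hm : ∀ y ∈ Ω', c + y ∈ Ω) :
    KForm (fun y => g (c + y)) Ω' := by
  have h := hg.pullback hΩ (h := fun y => c + y) hΩ'
    (fun y _ => analyticAt_const.add analyticAt_id) hm
  have e : (fun z => pull (jac (fun y : V 4 => c + y) z) (g (c + z))) = fun y => g (c + y) := by
    funext z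
    have e1 : jac (fun y : V 4 => c + y) z = 1 := by
      have : fderiv ℂ (fun y : V 4 => c + y) z = fderiv ℂ (fun y : V 4 => y) z := by
        rw [fderiv_const_add]
      rw [← jac_id z]
      ext a j
      rw [jac_apply, jac_apply, this]
    rw [e1, ex_pull_one]
  rw [e] at h
  exact h

theorem ex_continuous_E3 : Continuous E3 := by
  unfold E3
  fun_prop

theorem ex_isOpen_shell (ρ : ℝ) : IsOpen {y : V 4 | 0 < E3 y ∧ E3 y < ρ} :=
  (isOpen_lt continuous_const ex_continuous_E3).inter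
    (isOpen_lt ex_continuous_E3 continuous_const)

theorem ex_isOpen_fib (R ρ : ℝ) : IsOpen (fibDom R ρ) := by
  have h2 : Continuous fun y : V 4 => ‖y 2‖ := (continuous_apply 2).norm
  exact ((isOpen_lt continuous_const h2).inter (isOpen_lt h2 continuous_const)).union
    (ex_isOpen_shell ρ)

theorem ex_two_mul {z : ℂ} (hz : 2 * z ∈ Eis) (a : ℤ) : z - (-1) ^ a * z ∈ Eis := by
  rcases Int.even_or_odd a with h | h
  · rw [h.neg_one_zpow, one_mul, sub_self]
    exact Eis.zero_mem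
  · rw [h.neg_one_zpow]
    have : z - -1 * z = 2 * z := by ring
    rw [this]
    exact hz

theorem ex_twist (g : HermitianMetric 4 (presM B).Mfd) {q : Qt B} (h2 : TS q) (a b : ℤ) {y : V 4}
    (hy : cen q + y ∈ chU (Sum.inl (B.ch q.2.2) : Ix B)) :
    locG g q y = pull (twistMat a b) (locG g q (twist a b y)) := by
  have hγ : actQ (B := B) ⟨0, a, b, q.1 - (-1) ^ a * q.1, q.2.1 - (-1) ^ b * q.2.1,
      ex_two_mul h2.1 a, ex_two_mul h2.2 b⟩ q = q := by
    obtain ⟨z0, z1, σ⟩ := q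
    simp [actQ, mult]
  have h := ex_locG_act g hγ hy
  have e1 : linV B.N ⟨0, a, b, q.1 - (-1) ^ a * q.1, q.2.1 - (-1) ^ b * q.2.1,
      ex_two_mul h2.1 a, ex_two_mul h2.2 b⟩ y = twist a b y := by
    ext i
    fin_cases i <;> simp [linV, twist, mult, Gam.tr, add_assoc]
  rw [e1] at h
  rw [h]
  simp [twistMat, mult]

theorem localExc {g : HermitianMetric 4 (presM B).Mfd} (hg : g.IsKahler) {q : Qt B}
    (hq : Spec q) (h2 : TS q) : LocalExc (ro q) (1 / 64) (locG g q) (locX g q) where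
  r_pos := ro_pos q
  ρ_pos := by norm_num
  kform := ex_translate (isOpen_chU (Sum.inl (B.ch q.2.2) : Ix B))
    ((presM B).ofMetric_kform hg (Sum.inl (B.ch q.2.2) : Ix B)) (ex_isOpen_shell _) (cen q)
    fun y hy => ex_mem hq hy.1 hy.2
  pos y h0 h1 := ((presM B).ofMetric g).posDef (Sum.inl (B.ch q.2.2) : Ix B) _ (ex_mem hq h0 h1)
  kformx j := by
    have h := (presM B).ofMetric_kform hg (Sum.inr (q, j) : Ix B)
    have e : (presM B).U (Sum.inr (q, j) : Ix B) = excDom (ro q) (1 / 64) j := by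
      ext u
      exact ⟨fun hu => hu.2, fun hu => ⟨hq, hu⟩⟩
    rw [e] at h
    exact h
  posx j u hu := ((presM B).ofMetric g).posDef (Sum.inr (q, j) : Ix B) u ⟨hq, hu⟩
  rel j y h1 h0 := by
    have e : cen q + y - cen q = y := add_sub_cancel_left _ _
    have h := ex_compat_move2 ((presM B).ofMetric g) hq (j := j) (y := cen q + y)
      (by rw [e]; exact h0) (by rw [e]; exact h1)
    have e1 : jac (move2 q j) (cen q + y) = jac (excMap (ro q) j) y :=
      ex_jac_sub (h := excMap (ro q) j) (cen q) y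
    have e2 : move2 q j (cen q + y) = excMap (ro q) j y := by rw [move2, e]
    rw [e1, e2] at h
    exact h
  twist a b y h0 h1 := ex_twist g h2 a b (ex_mem hq h0 h1)

theorem localKahler {g : HermitianMetric 4 (presM B).Mfd} (hg : g.IsKahler) {σ : B.Sp}
    (hq : Spec ((0, 0, σ) : Qt B)) :
    LocalKahler (ro ((0, 0, σ) : Qt B)) (1 / 2) (1 / 64) (locG g (0, 0, σ)) (locX g (0, 0, σ)) := by
  have hTS : TS ((0, 0, σ) : Qt B) := by
    refine ⟨?_, ?_⟩ <;> simp
  have hper : ∀ (γ : Gam) (y : V 4), 0 < ‖y 2‖ → ‖y 2‖ < 1 / 2 → γ.k = 0 → γ.a = 0 → γ.b = 0 →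
      locG g ((0, 0, σ) : Qt B) (y + ![γ.l0, γ.l1, 0, 0]) = locG g (0, 0, σ) y := by
    intro γ y h0 h1 k1 k2 k3
    have h := ex_act ((presM B).ofMetric g) (0, 0, σ) γ (ex_mem_R (0, 0, σ) h0 h1)
    have e1 : actQ γ ((0, 0, σ) : Qt B) = (γ.l0, γ.l1, σ) := by
      simp [actQ, k1]
    have e2 : cen ((γ.l0, γ.l1, σ) : Qt B) + linV B.N γ y =
        cen ((0, 0, σ) : Qt B) + (y + ![γ.l0, γ.l1, 0, 0]) := by
      ext i
      fin_cases i
      · show γ.l0 + mult B.N γ.k γ.a * y 0 = 0 + (y 0 + γ.l0)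
        rw [k1, k2, mult_zero]; ring
      · show γ.l1 + mult B.N γ.k γ.b * y 1 = 0 + (y 1 + γ.l1)
        rw [k1, k3, mult_zero]; ring
      · show 0 + zetaN B.N ^ γ.k * y 2 = 0 + (y 2 + 0)
        rw [k1]; ring
      · show 0 + (y 3 + γ.tr) = 0 + (y 3 + 0)
        simp [Gam.tr, k2, k3]
    have e3 : Matrix.diagonal ![mult B.N γ.k γ.a, mult B.N γ.k γ.b, zetaN B.N ^ γ.k, 1] =
        (1 : Matrix (Fin 4) (Fin 4) ℂ) := by
      rw [k1, k2, k3]
      ext a b
      fin_cases a <;> fin_cases b <;> simp [mult]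
    rw [e1, e2, e3, ex_pull_one] at h
    exact h.symm
  exact
    { localExc hg hq hTS with
      R_pos := by norm_num
      kformR := ex_translate (isOpen_chU (Sum.inl (B.ch σ) : Ix B))
        ((presM B).ofMetric_kform hg (Sum.inl (B.ch σ) : Ix B)) (ex_isOpen_fib _ _) (cen (0, 0, σ))
        fun y hy => ex_mem_fib hq hy
      posR := fun y hy => ((presM B).ofMetric g).posDef (Sum.inl (B.ch σ) : Ix B) _
        (ex_mem_fib hq hy)
      per0 := by
        intro l hl y h0 h1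
        have h := hper ⟨0, 0, 0, l, 0, hl, Eis.zero_mem⟩ y h0 h1 rfl rfl rfl
        have e : (![l, 0, 0, 0] : V 4) = Pi.single 0 l := by
          ext i
          fin_cases i <;> simp
        rw [← e]
        exact h
      per1 := by
        intro l hl y h0 h1
        have h := hper ⟨0, 0, 0, 0, l, Eis.zero_mem, hl⟩ y h0 h1 rfl rfl rfl
        have e : (![0, l, 0, 0] : V 4) = Pi.single 1 l := by
          ext i
          fin_cases i <;> simp
        rw [← e]
        exact h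
      twistR := fun a b y hy => ex_twist g hTS a b (ex_mem_fib hq hy) }

end

end GK
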