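import Pool.Agent.GK.Pieces
import Pool.Agent.GK.Extract

/-! # Module AnnBall: contributions of the annuli and of the special points -/

open scoped ContDiff Topology ComplexOrder
open MeasureTheory

namespace GK

noncomputable section

variable {B : BaseCurve}

/-! ### algebra -/

theorem ab_adj_eq {A : Matrix (Fin 4) (Fin 4) ℂ} (h : IsUnit A.det) :
    A.adjugate = A.det • A⁻¹ := by
  rw [Matrix.inv_def, smul_smul, Ring.mul_inverse_cancel _ h, one_smul]

/-- traces against the adjugate after a pull back -/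
theorem ab_adj_pull (J g L : Matrix (Fin 4) (Fin 4) ℂ) (hJ : IsUnit J.det) (hg : IsUnit g.det) :
    ∑ j, ∑ k, (pull J g).adjugate k j * (pull J L) j k =
      Complex.normSq J.det * ∑ j, ∑ k, g.adjugate k j * L j k := by
  have h1 : (pull J g).det = Complex.normSq J.det * g.det := det_pull J g
  have h2 : IsUnit (pull J g).det := by
    rw [h1, isUnit_iff_ne_zero]
    refine mul_ne_zero ?_ hg.ne_zero
    exact_mod_cast (Complex.normSq_pos.2 hJ.ne_zero).ne'
  have h3 := trace_pull J g L hJ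
  rw [ab_adj_eq h2, ab_adj_eq hg, h1]
  simp only [Matrix.smul_apply, smul_eq_mul, mul_assoc]
  simp only [← Finset.mul_sum]
  rw [h3]

/-! ### translations -/

theorem ab_fderiv_sub (f : V 4 → ℂ) (c z : V 4) :
    fderiv ℝ (fun w => f (w - c)) z = fderiv ℝ f (z - c) := by
  rw [fderiv_comp_sub]

theorem ab_levi_sub (f : V 4 → ℂ) (c x : V 4) :
    levi (fun w => f (w - c)) (c + x) = levi f x := by
  ext j k
  simp only [levi, Matrix.of_apply]
  have h1 : (fun w => dB k (fun w' => f (w' - c)) w) = fun w => dB k f (w - c) := by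
    funext w
    simp only [dB, ab_fderiv_sub]
  rw [h1]
  simp only [dZ, ab_fderiv_sub (fun w => dB k f w) c]
  rw [add_sub_cancel_left]

/-! ### radial functions -/

theorem ab_cont_E3 : Continuous E3 := by
  unfold E3
  fun_prop

theorem ab_smooth_E3 (y : V 4) {N : ℕ∞ω} : ContDiffAt ℝ N E3 y := by
  unfold E3
  have h : ∀ i : Fin 4, ContDiffAt ℝ N (fun z : V 4 => z i) y := fun i =>
    contDiffAt_of_analyticAt (st_apply_analyticAt i y)
  exact ((contDiffAt_normSq (h 0)).add (contDiffAt_normSq (h 1))).add (contDiffAt_normSq (h 2))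

theorem ab_smooth_F {f : ℝ → ℝ} (hf : ContDiff ℝ ∞ f) {y : V 4} (hy : 0 < E3 y) :
    ContDiffAt ℝ 2 (fun w => ((f (Real.log (E3 w)) : ℝ) : ℂ)) y := by
  apply contDiffAt_ofReal
  have h1 : ContDiffAt ℝ 2 (fun w : V 4 => Real.log (E3 w)) y :=
    (ab_smooth_E3 y).log hy.ne'
  exact (hf.contDiffAt.of_le two_le_infty).comp y h1

/-- the Levi form vanishes far from the special point -/
theorem ab_levi_far {f : ℝ → ℝ} (hf : IsCut f (1 / 64)) {y : V 4} (hy : 1 / 64 ≤ E3 y) :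
    levi (fun w => ((f (Real.log (E3 w)) : ℝ) : ℂ)) y = 0 := by
  obtain ⟨L, hL, hL'⟩ := hf.right
  have h0 : 0 < E3 y := lt_of_lt_of_le (by norm_num) hy
  have h1 : L < Real.log (E3 y) := lt_of_lt_of_le hL (Real.log_le_log (by norm_num) hy)
  have h2 : ContinuousAt (fun w : V 4 => Real.log (E3 w)) y :=
    ab_cont_E3.continuousAt.log h0.ne'
  have h3 : (fun w : V 4 => ((f (Real.log (E3 w)) : ℝ) : ℂ)) =ᶠ[𝓝 y] fun _ => (0 : ℂ) := by
    filter_upwards [h2.eventually (Ioi_mem_nhds h1)] with w hw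
    rw [hL' _ hw]; simp
  rw [levi_congr h3]
  ext j k
  simp only [levi, Matrix.of_apply, dB_const, dZ_const, Matrix.zero_apply]

/-! ### scaling -/

theorem ab_scale_linear (c : ℂ) : ∃ L : V 4 →L[ℂ] V 4, (∀ y, L y = scale c y) ∧
    ∀ j a, L (Pi.single j 1) a = scaleMat c a j := by
  let L0 : V 4 →ₗ[ℂ] V 4 := Matrix.toLin' (scaleMat c)
  refine ⟨LinearMap.toContinuousLinearMap L0, ?_, ?_⟩
  · intro y
    show L0 y = _
    rw [Matrix.toLin'_apply]
    ext i
    rw [scaleMat, Matrix.mulVec_diagonal]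
    fin_cases i <;> simp [scale]
  · intro j a
    show L0 (Pi.single j 1) a = _
    rw [Matrix.toLin'_apply, Matrix.mulVec_single_one]
    rfl

theorem ab_scale_analytic (c : ℂ) (y : V 4) : AnalyticAt ℂ (scale c) y := by
  obtain ⟨L, hL, _⟩ := ab_scale_linear c
  have : scale c = fun y => L y := by funext y; exact (hL y).symm
  rw [this]
  exact L.analyticAt y

theorem ab_jac_scale (c : ℂ) (y : V 4) : jac (scale c) y = scaleMat c := by
  obtain ⟨L, hL, hL'⟩ := ab_scale_linear c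
  have : scale c = fun y => L y := by funext y; exact (hL y).symm
  ext a j
  rw [jac_apply, this, L.fderiv, hL']

theorem ab_det_scaleMat (c : ℂ) : (scaleMat c).det = c ^ 3 := by
  rw [scaleMat, Matrix.det_diagonal, Fin.prod_univ_four]
  simp
  ring

theorem ab_E3_scale {c : ℂ} (hc : Complex.normSq c = 1) (y : V 4) : E3 (scale c y) = E3 y := by
  show Complex.normSq (c * y 0) + Complex.normSq (c * y 1) + Complex.normSq (c * y 2) = _
  simp only [Complex.normSq_mul, hc, one_mul]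
  rfl

theorem ab_scale_three (c : ℂ) (y : V 4) : scale c y 3 = y 3 := rfl

theorem ab_scale_two (c : ℂ) (y : V 4) : scale c y 2 = c * y 2 := rfl

/-! ### functions of one coordinate -/

theorem ab_fderiv_slot {u : ℂ → ℝ} {y : V 4} (hu : DifferentiableAt ℝ u (y 2)) (v : V 4) :
    fderiv ℝ (fun w : V 4 => ((u (w 2) : ℝ) : ℂ)) y v = ((fderiv ℝ u (y 2) (v 2) : ℝ) : ℂ) := by
  have h1 : HasFDerivAt (fun w : V 4 => w 2)
      (ContinuousLinearMap.proj (R := ℝ) (φ := fun _ : Fin 4 => ℂ) 2) y :=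
    (ContinuousLinearMap.proj (R := ℝ) (φ := fun _ : Fin 4 => ℂ) 2).hasFDerivAt
  have h2 := (hu.hasFDerivAt.comp y h1)
  have h3 := Complex.ofRealCLM.hasFDerivAt.comp y h2
  have h4 := h3.fderiv
  have h5 : (fun w : V 4 => ((u (w 2) : ℝ) : ℂ)) =
      (Complex.ofRealCLM ∘ (u ∘ fun w : V 4 => w 2)) := rfl
  rw [h5, h4]
  rfl

theorem ab_fderiv_slotC {u : ℂ → ℂ} {y : V 4} (hu : DifferentiableAt ℝ u (y 2)) (v : V 4) :
    fderiv ℝ (fun w : V 4 => u (w 2)) y v = fderiv ℝ u (y 2) (v 2) := by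
  have h1 : HasFDerivAt (fun w : V 4 => w 2)
      (ContinuousLinearMap.proj (R := ℝ) (φ := fun _ : Fin 4 => ℂ) 2) y :=
    (ContinuousLinearMap.proj (R := ℝ) (φ := fun _ : Fin 4 => ℂ) 2).hasFDerivAt
  have h2 := (hu.hasFDerivAt.comp y h1)
  have h4 := h2.fderiv
  have h5 : (fun w : V 4 => u (w 2)) = (u ∘ fun w : V 4 => w 2) := rfl
  rw [h5, h4]
  rfl

theorem ab_lap_facts {u : ℂ → ℝ} {w : ℂ} (hu : ContDiffAt ℝ 2 u w) :
    (∀ᶠ x in 𝓝 w, DifferentiableAt ℝ u x) ∧
    (∀ v, DifferentiableAt ℝ (fun x => fderiv ℝ u x v) w) ∧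
    fderiv ℝ (fun x => fderiv ℝ u x 1) w Complex.I =
      fderiv ℝ (fun x => fderiv ℝ u x Complex.I) w 1 := by
  have h1 : ∀ᶠ x in 𝓝 w, ContDiffAt ℝ 2 u x := hu.eventually (by simp)
  have h2 : DifferentiableAt ℝ (fderiv ℝ u) w :=
    (hu.fderiv_right (m := 1) (by norm_num)).differentiableAt (by norm_num)
  have h3 : ∀ v x, fderiv ℝ (fun x => fderiv ℝ u x v) w x = fderiv ℝ (fderiv ℝ u) w x v := by
    intro v x
    rw [fderiv_clm_apply h2 (differentiableAt_const _)]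
    simp
  refine ⟨h1.mono fun x hx => hx.differentiableAt (by norm_num), fun v => ?_, ?_⟩
  · exact h2.clm_apply (differentiableAt_const _)
  · rw [h3, h3]
    exact (hu.isSymmSndFDerivAt (by simp)).eq _ _

theorem ab_levi_slot {u : ℂ → ℝ} {y : V 4} (hu : ContDiffAt ℝ 2 u (y 2)) (j k : Fin 4) :
    levi (fun w : V 4 => ((u (w 2) : ℝ) : ℂ)) y j k =
      if j = 2 ∧ k = 2 then ((lap u (y 2) : ℝ) : ℂ) else 0 := by
  obtain ⟨h1, h2, h3⟩ := ab_lap_facts hu
  have h1' : ∀ᶠ w : V 4 in 𝓝 y, DifferentiableAt ℝ u (w 2) :=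
    (continuous_apply (2 : Fin 4)).continuousAt.eventually h1
  by_cases hk : k = 2
  · subst hk
    have e1 : (fun w : V 4 => dB 2 (fun w' : V 4 => ((u (w' 2) : ℝ) : ℂ)) w) =ᶠ[𝓝 y]
        fun w : V 4 => (fun x : ℂ => (((fderiv ℝ u x 1 : ℝ) : ℂ) +
          Complex.I * ((fderiv ℝ u x Complex.I : ℝ) : ℂ)) / 2) (w 2) := by
      filter_upwards [h1'] with w hw
      simp only [dB, ab_fderiv_slot hw, Pi.single_eq_same]
    have e2 : levi (fun w : V 4 => ((u (w 2) : ℝ) : ℂ)) y j 2 =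
        dZ j (fun w : V 4 => (fun x : ℂ => (((fderiv ℝ u x 1 : ℝ) : ℂ) +
          Complex.I * ((fderiv ℝ u x Complex.I : ℝ) : ℂ)) / 2) (w 2)) y := dZ_congr e1 j
    have d1 : HasFDerivAt (fun x => ((fderiv ℝ u x 1 : ℝ) : ℂ))
        (Complex.ofRealCLM.comp (fderiv ℝ (fun x => fderiv ℝ u x 1) (y 2))) (y 2) :=
      Complex.ofRealCLM.hasFDerivAt.comp (y 2) (h2 1).hasFDerivAt
    have d2 : HasFDerivAt (fun x => ((fderiv ℝ u x Complex.I : ℝ) : ℂ))
        (Complex.ofRealCLM.comp (fderiv ℝ (fun x => fderiv ℝ u x Complex.I) (y 2))) (y 2) :=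
      Complex.ofRealCLM.hasFDerivAt.comp (y 2) (h2 Complex.I).hasFDerivAt
    have d3 := (d1.add (d2.const_smul Complex.I)).const_smul (2⁻¹ : ℂ)
    have d5 : (fun x : ℂ => (((fderiv ℝ u x 1 : ℝ) : ℂ) +
          Complex.I * ((fderiv ℝ u x Complex.I : ℝ) : ℂ)) / 2) =
        ((2⁻¹ : ℂ) • ((fun x => ((fderiv ℝ u x 1 : ℝ) : ℂ)) +
          Complex.I • fun x => ((fderiv ℝ u x Complex.I : ℝ) : ℂ))) := by
      funext x
      simp only [Pi.smul_apply, Pi.add_apply, smul_eq_mul]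
      ring
    have d4 := d3
    rw [← d5] at d4
    have e3 : ∀ v : V 4, fderiv ℝ (fun w : V 4 => (fun x : ℂ => (((fderiv ℝ u x 1 : ℝ) : ℂ) +
          Complex.I * ((fderiv ℝ u x Complex.I : ℝ) : ℂ)) / 2) (w 2)) y v =
        (((fderiv ℝ (fun x => fderiv ℝ u x 1) (y 2) (v 2) : ℝ) : ℂ) +
          Complex.I * ((fderiv ℝ (fun x => fderiv ℝ u x Complex.I) (y 2) (v 2) : ℝ) : ℂ)) / 2 := by
      intro v
      rw [ab_fderiv_slotC d4.differentiableAt, d4.fderiv]
      simp [div_eq_mul_inv]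
      ring
    rw [e2]
    by_cases hj : j = 2
    · subst hj
      simp only [dZ, e3, Pi.single_eq_same, and_self, if_true, lap]
      rw [h3]
      push_cast
      linear_combination (-((fderiv ℝ (fun x => fderiv ℝ u x Complex.I) (y 2) Complex.I : ℝ) : ℂ) / 4) *
        Complex.I_sq
    · have z1 : ∀ c : ℂ, (Pi.single j c : V 4) 2 = 0 := fun c => by
        rw [Pi.single_eq_of_ne (Ne.symm hj)]
      simp only [dZ, e3, z1, map_zero, hj, false_and, if_false]
      simp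
  · have e1 : (fun w : V 4 => dB k (fun w' : V 4 => ((u (w' 2) : ℝ) : ℂ)) w) =ᶠ[𝓝 y]
        fun _ => (0 : ℂ) := by
      filter_upwards [h1'] with w hw
      have z1 : ∀ c : ℂ, (Pi.single k c : V 4) 2 = 0 := fun c => by
        rw [Pi.single_eq_of_ne (Ne.symm hk)]
      simp only [dB, ab_fderiv_slot hw, z1, map_zero]
      simp
    have e2 : levi (fun w : V 4 => ((u (w 2) : ℝ) : ℂ)) y j k =
        dZ j (fun _ : V 4 => (0 : ℂ)) y := dZ_congr e1 j
    rw [e2, dZ_const, if_neg (fun h => hk h.2)]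

/-! ### special points -/

theorem ab_mem_chU {q : Qt B} (hq : Spec q) {x : V 4} (h0 : 0 < E3 x) (h1 : E3 x < 1 / 64) :
    cen q + x ∈ chU (Sum.inl (B.ch q.2.2) : Ix B) := by
  have e1 : posA (B.ch q.2.2) (cen q + x) = posq q x := by
    rw [st_posA_eq, add_sub_cancel_left]
  refine ⟨?_, ?_⟩
  · have n2 : ‖x 2‖ < 1 / 8 := norm_lt_eighth h1 2
    have e2 : (cen q + x) 2 = x 2 := by simp [cen]
    rw [e2, B.D_ch, mem_ball_zero_iff]
    linarith
  · rw [e1, specA_posq hq h1]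
    exact h0.ne'

theorem ab_locG_posDef (g : HermitianMetric 4 (presM B).Mfd) {q : Qt B} (hq : Spec q) {x : V 4}
    (h0 : 0 < E3 x) (h1 : E3 x < 1 / 64) : (locG g q x).PosDef :=
  ((presM B).ofMetric g).posDef _ _ (ab_mem_chU hq h0 h1)

/-- the integrand near a special point -/
def abT (g : HermitianMetric 4 (presM B).Mfd) (q : Qt B) (f : ℝ → ℝ) (x : V 4) : ℝ :=
  (∑ j, ∑ k, (locG g q x).adjugate k j *
    levi (fun w => ((f (Real.log (E3 w)) : ℝ) : ℂ)) x j k).re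

theorem ab_normSq_zeta (N k : ℕ) : Complex.normSq (zetaN N ^ k) = 1 := by
  rw [Complex.normSq_eq_norm_sq, norm_pow, norm_zetaN]; norm_num

theorem ab_T_rot (g : HermitianMetric 4 (presM B).Mfd) {q : Qt B} (hq : Spec q) {f : ℝ → ℝ}
    (hf : IsCut f (1 / 64)) {x : V 4} (h0 : 0 < E3 x) (h1 : E3 x < 1 / 64) :
    abT g q f (scale (zetaN B.N ^ k0 q) x) = abT g q f x := by
  obtain ⟨μ, hμ'⟩ : ∃ μ, μ = zetaN B.N ^ k0 q := ⟨_, rfl⟩
  have hμ : Complex.normSq μ = 1 := by rw [hμ']; exact ab_normSq_zeta _ _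
  have hG : locG g q x = pull (scaleMat μ) (locG g q (scale μ x)) := by
    rw [hμ']; exact locG_rot g hq (stab_k0 q) h0 h1
  have hE : E3 (scale μ x) = E3 x := ab_E3_scale hμ x
  have hL : levi (fun w : V 4 => ((f (Real.log (E3 w)) : ℝ) : ℂ)) x =
      pull (scaleMat μ) (levi (fun w : V 4 => ((f (Real.log (E3 w)) : ℝ) : ℂ)) (scale μ x)) := by
    have h2 := levi_comp (h := scale μ) (f := fun w : V 4 => ((f (Real.log (E3 w)) : ℝ) : ℂ))
      (ab_scale_analytic μ x) (ab_smooth_F hf.smooth (by rw [hE]; exact h0))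
    rw [ab_jac_scale] at h2
    rw [← h2]
    congr 1
    funext w
    rw [ab_E3_scale hμ]
  have hJ : (scaleMat μ).det = μ ^ 3 := ab_det_scaleMat μ
  have hμ0 : μ ≠ 0 := by
    intro h
    rw [h] at hμ
    simp at hμ
  have hP := ab_locG_posDef g hq (x := scale μ x) (by rw [hE]; exact h0) (by rw [hE]; exact h1)
  have h3 := ab_adj_pull (scaleMat μ) (locG g q (scale μ x))
    (levi (fun w : V 4 => ((f (Real.log (E3 w)) : ℝ) : ℂ)) (scale μ x))
    (by rw [hJ, isUnit_iff_ne_zero]; exact pow_ne_zero _ hμ0)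
    (isUnit_iff_ne_zero.2 hP.det_pos.ne')
  have h4 : ((Complex.normSq (scaleMat μ).det : ℝ) : ℂ) = 1 := by
    rw [hJ, map_pow, hμ]; simp
  rw [← hG, ← hL, h4, one_mul] at h3
  unfold abT
  rw [← hμ', h3]

theorem ab_meas_box : MeasurableSet (box 1) := by
  unfold box
  exact (measurableSet_Ico.preimage Complex.measurable_re).inter
    (measurableSet_Ico.preimage Complex.measurable_im)

/-- the contribution of a special point -/
theorem ball_integral (g : HermitianMetric 4 (presM B).Mfd) {q : Qt B} (hq : Spec q)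
    {f : ℝ → ℝ} (hf : IsCut f (1 / 64)) :
    ∫ y in pB q, (∑ j, ∑ k, (((presM B).ofMetric g).g (Sum.inl (B.ch q.2.2)) y).adjugate k j *
      levi (fun w => ((f (Real.log (E3 (w - cen q))) : ℝ) : ℂ)) y j k).re =
      -(flux f (locG g q)) / ro q := by
  have hbox : MeasurableSet {x : V 4 | x 3 ∈ box 1} :=
    ab_meas_box.preimage (measurable_pi_apply 3)
  have hE0 : MeasurableSet {x : V 4 | 0 < E3 x} :=
    (isOpen_lt continuous_const ab_cont_E3).measurableSet
  have hE1 : MeasurableSet {x : V 4 | E3 x < 1 / 64} :=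
    (isOpen_lt ab_cont_E3 continuous_const).measurableSet
  have hA : MeasurableSet ({x : V 4 | 0 < E3 x} ∩ {x : V 4 | E3 x < 1 / 64} ∩
    {x : V 4 | x 3 ∈ box 1}) := (hE0.inter hE1).inter hbox
  have hC : MeasurableSet {x : V 4 | 0 < E3 x ∧ x 3 ∈ box 1} := hE0.inter hbox
  -- translation
  rw [← (measurePreserving_add_left volume (cen q)).setIntegral_preimage_emb
    (measurableEmbedding_addLeft (cen q))]
  have e1 : ∀ x : V 4, (∑ j, ∑ k, (((presM B).ofMetric g).g (Sum.inl (B.ch q.2.2))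
      (cen q + x)).adjugate k j * levi (fun w => ((f (Real.log (E3 (w - cen q))) : ℝ) : ℂ))
        (cen q + x) j k).re = abT g q f x := by
    intro x
    rw [ab_levi_sub (fun w : V 4 => ((f (Real.log (E3 w)) : ℝ) : ℂ)) (cen q) x]
    rfl
  simp only [e1]
  have e2 : ((fun x => cen q + x) ⁻¹' pB q) = {x : V 4 | x 2 ∈ sec (ro q)} ∩
      ({x : V 4 | 0 < E3 x} ∩ {x : V 4 | E3 x < 1 / 64} ∩ {x : V 4 | x 3 ∈ box 1}) := by
    ext x
    have a2 : (cen q + x) 2 = x 2 := by simp [cen]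
    have a3 : (cen q + x) 3 = x 3 := by simp [cen]
    simp only [Set.mem_preimage, pB, Set.mem_ofPred_eq, Set.mem_inter_iff, add_sub_cancel_left,
      a2, a3]
    constructor
    · rintro ⟨b1, b2, b3⟩
      refine ⟨b2, ⟨?_, b1⟩, b3⟩
      have b4 : 0 < Complex.normSq (x 2) := Complex.normSq_pos.2 b2.1
      have a0 := Complex.normSq_nonneg (x 0)
      have a1 := Complex.normSq_nonneg (x 1)
      unfold E3
      linarith
    · rintro ⟨b2, ⟨_, b1⟩, b3⟩
      exact ⟨b1, b2, b3⟩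
  rw [e2, ← setIntegral_indicator hA]
  rw [integral_sec4 (ro_pos q) (primitive_k0 q)]
  · rw [integral_indicator hA]
    have e3 : ∫ x in {x : V 4 | 0 < E3 x ∧ x 3 ∈ box 1}, abT g q f x =
        ∫ x in ({x : V 4 | 0 < E3 x} ∩ {x : V 4 | E3 x < 1 / 64} ∩ {x : V 4 | x 3 ∈ box 1}),
          abT g q f x := by
      apply setIntegral_eq_of_subset_of_forall_sdiff_eq_zero hC
      · rintro x ⟨⟨b1, _⟩, b3⟩
        exact ⟨b1, b3⟩
      · rintro x ⟨⟨b1, b3⟩, b4⟩
        have b5 : 1 / 64 ≤ E3 x := by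
          by_contra h
          exact b4 ⟨⟨b1, not_le.1 h⟩, b3⟩
        unfold abT
        rw [ab_levi_far hf b5]
        simp
    rw [← e3]
    unfold flux abT
    rw [neg_neg]
    ring
  · intro x
    have hμ := ab_normSq_zeta B.N (k0 q)
    by_cases hx : x ∈ ({x : V 4 | 0 < E3 x} ∩ {x : V 4 | E3 x < 1 / 64} ∩
      {x : V 4 | x 3 ∈ box 1})
    · have hx' : scale (zetaN B.N ^ k0 q) x ∈ ({x : V 4 | 0 < E3 x} ∩
          {x : V 4 | E3 x < 1 / 64} ∩ {x : V 4 | x 3 ∈ box 1}) := by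
        simp only [Set.mem_inter_iff, Set.mem_ofPred_eq, ab_E3_scale hμ, ab_scale_three] at hx ⊢
        exact hx
      rw [Set.indicator_of_mem hx, Set.indicator_of_mem hx']
      exact ab_T_rot g hq hf hx.1.1 hx.1.2
    · have hx' : scale (zetaN B.N ^ k0 q) x ∉ ({x : V 4 | 0 < E3 x} ∩
          {x : V 4 | E3 x < 1 / 64} ∩ {x : V 4 | x 3 ∈ box 1}) := by
        simp only [Set.mem_inter_iff, Set.mem_ofPred_eq, ab_E3_scale hμ, ab_scale_three] at hx ⊢
        exact hx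
      rw [Set.indicator_of_notMem hx, Set.indicator_of_notMem hx']

/-! ### annuli -/

/-- logarithm of the metric in the chart of a special point -/
def abU (D : MetricData B) (σ : B.Sp) (w : ℂ) : ℝ := Real.log (D.H (B.ch σ) w)

theorem ab_U_smooth (D : MetricData B) (σ : B.Sp) :
    ContDiffOn ℝ ∞ (abU D σ) (Metric.ball 0 (1 / 2)) := by
  have h1 := D.H_smooth (B.ch σ)
  have h2 := D.H_pos (B.ch σ)
  rw [B.D_ch] at h1 h2
  exact h1.log fun w hw => (h2 w hw).ne'

theorem ab_U_at (D : MetricData B) (σ : B.Sp) {w : ℂ} (hw : ‖w‖ < 1 / 2) :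
    ContDiffAt ℝ 2 (abU D σ) w :=
  ((ab_U_smooth D σ).contDiffAt (Metric.isOpen_ball.mem_nhds
    (mem_ball_zero_iff.2 hw))).of_le two_le_infty

theorem ab_lap_cont (D : MetricData B) (σ : B.Sp) :
    ContinuousOn (lap (abU D σ)) (Metric.ball 0 (1 / 2)) := by
  have hO : IsOpen (Metric.ball (0 : ℂ) (1 / 2)) := Metric.isOpen_ball
  have h1 : ∀ f : ℂ → ℝ, ContDiffOn ℝ ∞ f (Metric.ball 0 (1 / 2)) → ∀ v : ℂ,
      ContDiffOn ℝ ∞ (fun x => fderiv ℝ f x v) (Metric.ball 0 (1 / 2)) := fun f hf v =>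
    (hf.fderiv_of_isOpen hO (m := ∞) (by simp)).clm_apply contDiffOn_const
  have h2 := h1 _ (h1 _ (ab_U_smooth D σ) 1) 1
  have h3 := h1 _ (h1 _ (ab_U_smooth D σ) Complex.I) Complex.I
  exact (h2.continuousOn.add h3.continuousOn).div_const 4

theorem ab_U_rot (D : MetricData B) (σ : B.Sp) {w : ℂ} (hw : ‖w‖ < 1 / 2) :
    abU D σ (zetaN B.N ^ k0 ((0, 0, σ) : Qt B) * w) = abU D σ w := by
  obtain ⟨μ, hμ'⟩ : ∃ μ, μ = zetaN B.N ^ k0 ((0, 0, σ) : Qt B) := ⟨_, rfl⟩
  have hst : B.sσ^[k0 ((0, 0, σ) : Qt B)] σ = σ := (stab_k0 ((0, 0, σ) : Qt B)).1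
  have hμ : Complex.normSq μ = 1 := by rw [hμ']; exact ab_normSq_zeta _ _
  have hμn : ‖μ‖ = 1 := by rw [hμ', norm_pow, norm_zetaN, one_pow]
  have hb : w ∈ Metric.ball (0 : ℂ) (1 / 2) := mem_ball_zero_iff.2 hw
  have hb' : μ * w ∈ Metric.ball (0 : ℂ) (1 / 2) := by
    rw [mem_ball_zero_iff, norm_mul, hμn, one_mul]; exact hw
  have hp : ∀ x ∈ Metric.ball (0 : ℂ) (1 / 2), B.p (B.ch σ) (μ * x) =
      B.s^[k0 ((0, 0, σ) : Qt B)] (B.p (B.ch σ) x) := by
    intro x hx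
    rw [s_iter_ch _ _ hx, hst, hμ']
  have h1 := D.H_trans (B.ch σ) (B.ch σ) (k0 ((0, 0, σ) : Qt B)) w (μ * w)
    (by rw [B.D_ch]; exact hb) (by rw [B.D_ch]; exact hb') (hp w hb) (fun x => μ * x)
    (analyticAt_const.mul analyticAt_id) rfl
    (by filter_upwards [Metric.isOpen_ball.mem_nhds hb] with x hx using hp x hx)
  have h2 : deriv (fun x : ℂ => μ * x) w = μ := by
    rw [deriv_const_mul_field, deriv_id'', mul_one]
  rw [h2, hμ, one_mul] at h1
  unfold abU
  rw [← hμ', h1]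

theorem ab_lap_rot (D : MetricData B) (σ : B.Sp) {w : ℂ} (hw : ‖w‖ < 1 / 2) :
    lap (abU D σ) (zetaN B.N ^ k0 ((0, 0, σ) : Qt B) * w) = lap (abU D σ) w := by
  obtain ⟨μ, hμ'⟩ : ∃ μ, μ = zetaN B.N ^ k0 ((0, 0, σ) : Qt B) := ⟨_, rfl⟩
  have hμ : Complex.normSq μ = 1 := by rw [hμ']; exact ab_normSq_zeta _ _
  have hμn : ‖μ‖ = 1 := by rw [hμ', norm_pow, norm_zetaN, one_pow]
  rw [← hμ']
  obtain ⟨y, hy⟩ : ∃ y : V 4, y = ![0, 0, w, 0] := ⟨_, rfl⟩
  have y2 : y 2 = w := by rw [hy]; rfl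
  have sy2 : scale μ y 2 = μ * w := by rw [ab_scale_two, y2]
  have hw' : ‖μ * w‖ < 1 / 2 := by rw [norm_mul, hμn, one_mul]; exact hw
  have c1 : ContDiffAt ℝ 2 (abU D σ) (y 2) := by rw [y2]; exact ab_U_at D σ hw
  have c2 : ContDiffAt ℝ 2 (abU D σ) (scale μ y 2) := by rw [sy2]; exact ab_U_at D σ hw'
  have c3 : ContDiffAt ℝ 2 (fun v : V 4 => ((abU D σ (v 2) : ℝ) : ℂ)) (scale μ y) := by
    apply contDiffAt_ofReal
    exact ContDiffAt.comp (g := abU D σ) (f := fun v : V 4 => v 2) (scale μ y) c2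
      (contDiffAt_of_analyticAt (st_apply_analyticAt 2 (scale μ y)))
  have h1 := levi_comp (h := scale μ) (f := fun v : V 4 => ((abU D σ (v 2) : ℝ) : ℂ))
      (ab_scale_analytic μ y) c3
  have h2 : (fun v : V 4 => ((abU D σ (scale μ v 2) : ℝ) : ℂ)) =ᶠ[𝓝 y]
      fun v : V 4 => ((abU D σ (v 2) : ℝ) : ℂ) := by
    have h3 : ∀ᶠ v : V 4 in 𝓝 y, v 2 ∈ Metric.ball (0 : ℂ) (1 / 2) := by
      apply (continuous_apply (2 : Fin 4)).continuousAt.eventually
      apply Metric.isOpen_ball.mem_nhds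
      show y 2 ∈ _
      rw [y2]
      exact mem_ball_zero_iff.2 hw
    filter_upwards [h3] with v hv
    rw [ab_scale_two, hμ', ab_U_rot D σ (mem_ball_zero_iff.1 hv)]
  rw [levi_congr h2, ab_jac_scale] at h1
  have h4 := congrFun (congrFun h1 2) 2
  rw [ab_levi_slot c1, pull_apply] at h4
  simp only [ab_levi_slot c2] at h4
  rw [y2, sy2] at h4
  have h5 : (scaleMat μ) 2 2 = μ := by simp [scaleMat]
  rw [Finset.sum_eq_single 2, Finset.sum_eq_single 2, h5] at h4
  · simp only [and_self, if_true] at h4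
    have h6 : μ * ((lap (abU D σ) (μ * w) : ℝ) : ℂ) * star μ =
        ((lap (abU D σ) (μ * w) : ℝ) : ℂ) := by
      have h7 : μ * star μ = 1 := by
        have := Complex.mul_conj μ
        rw [hμ] at this
        simpa using this
      linear_combination ((lap (abU D σ) (μ * w) : ℝ) : ℂ) * h7
    rw [h6] at h4
    exact_mod_cast h4.symm
  · intro a _ ha
    rw [if_neg (fun h => ha h.1)]; simp
  · simp
  · intro b _ hb
    apply Finset.sum_eq_zero
    intro a _
    rw [if_neg (fun h => hb h.2)]; simp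
  · simp

theorem ab_lap_center (D : MetricData B) (σ : B.Sp) {w : ℂ} (hw : ‖w‖ < 1 / 8) :
    lap (abU D σ) w = 0 := by
  have h1 : ∀ᶠ x in 𝓝 w, x ∈ Metric.ball (0 : ℂ) (1 / 7) :=
    Metric.isOpen_ball.mem_nhds (mem_ball_zero_iff.2 (by linarith))
  have hz : ∀ x ∈ Metric.ball (0 : ℂ) (1 / 7), abU D σ x = 0 := by
    intro x hx
    unfold abU
    rw [D.H_center σ x (mem_ball_zero_iff.1 hx), Real.log_one]
  have h2 : ∀ v, (fun x => fderiv ℝ (abU D σ) x v) =ᶠ[𝓝 w] fun _ => 0 := by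
    intro v
    filter_upwards [h1] with x hx
    have h3 : abU D σ =ᶠ[𝓝 x] fun _ => 0 := by
      filter_upwards [Metric.isOpen_ball.mem_nhds hx] with x' hx' using hz x' hx'
    rw [h3.fderiv_eq]; simp
  unfold lap
  rw [(h2 1).fderiv_eq, (h2 Complex.I).fderiv_eq]
  simp

theorem ab_lap_outer (D : MetricData B) (σ : B.Sp) {w : ℂ} (h1 : 1 / 4 < ‖w‖)
    (h2 : ‖w‖ < 1 / 2) : lap (abU D σ) w = 0 := D.H_flat' σ w h1 h2

/-- the annulus supporting the curvature -/
def abK : Set ℂ := {w | 1 / 8 ≤ ‖w‖ ∧ ‖w‖ ≤ 1 / 4}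

theorem ab_K_compact : IsCompact abK := by
  have h : abK = Metric.closedBall (0 : ℂ) (1 / 4) ∩ {w | 1 / 8 ≤ ‖w‖} := by
    ext w
    simp only [abK, Set.mem_ofPred_eq, Set.mem_inter_iff, mem_closedBall_zero_iff]
    tauto
  rw [h]
  exact (isCompact_closedBall _ _).inter_right (isClosed_le continuous_const continuous_norm)

theorem ab_K_sub : abK ⊆ Metric.ball (0 : ℂ) (1 / 2) := by
  intro w hw
  rw [mem_ball_zero_iff]
  linarith [hw.2]

/-- coordinates `(w, z₀, z₁, t)` -/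
def abE : (ℂ × ℂ × ℂ × ℂ) ≃ᵐ V 4 :=
  ((MeasurableEquiv.refl ℂ).prodCongr
    (((MeasurableEquiv.refl ℂ).prodCongr (MeasurableEquiv.finTwoArrow (α := ℂ)).symm).trans
    (MeasurableEquiv.piFinSuccAbove (fun _ : Fin 3 => ℂ) 0).symm)).trans
    (MeasurableEquiv.piFinSuccAbove (fun _ : Fin 4 => ℂ) 2).symm

theorem abE_apply (z : ℂ × ℂ × ℂ × ℂ) : abE z = ![z.2.1, z.2.2.1, z.1, z.2.2.2] := by
  ext j
  fin_cases j <;> rfl

theorem mp_abE : MeasurePreserving abE volume volume := by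
  have h1 : MeasurePreserving (MeasurableEquiv.finTwoArrow (α := ℂ)).symm volume volume :=
    (volume_preserving_finTwoArrow ℂ).symm _
  have h2 : MeasurePreserving ((MeasurableEquiv.refl ℂ).prodCongr
      (MeasurableEquiv.finTwoArrow (α := ℂ)).symm) volume volume :=
    (MeasurePreserving.id volume).prod h1
  have h3 : MeasurePreserving (MeasurableEquiv.piFinSuccAbove (fun _ : Fin 3 => ℂ) 0).symm
      volume volume := (volume_preserving_piFinSuccAbove (fun _ : Fin 3 => ℂ) 0).symm _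
  have h4 : MeasurePreserving (MeasurableEquiv.piFinSuccAbove (fun _ : Fin 4 => ℂ) 2).symm
      volume volume := (volume_preserving_piFinSuccAbove (fun _ : Fin 4 => ℂ) 2).symm _
  exact h4.comp ((MeasurePreserving.id volume).prod (h3.comp h2))

theorem ab_meas_fundE : MeasurableSet fundE := by
  have h3 : (0 : ℝ) < Real.sqrt 3 / 2 := by positivity
  have h : fundE = {z : ℂ | z.re - z.im / (Real.sqrt 3 / 2) / 2 ∈ Set.Ico (0 : ℝ) 1} ∩
      {z : ℂ | z.im / (Real.sqrt 3 / 2) ∈ Set.Ico (0 : ℝ) 1} := by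
    ext z
    constructor
    · rintro ⟨a, b, ha, hb, rfl⟩
      have e1 : ((a : ℂ) + b * xi).re = a + b / 2 := by
        simp [Complex.add_re, Complex.mul_re, xi_re, xi_im]; ring
      have e2 : ((a : ℂ) + b * xi).im = b * (Real.sqrt 3 / 2) := by
        simp [Complex.add_im, Complex.mul_im, xi_re, xi_im]
      have e3 : ((a : ℂ) + b * xi).im / (Real.sqrt 3 / 2) = b := by
        rw [e2, mul_div_assoc, div_self h3.ne', mul_one]
      refine ⟨?_, ?_⟩
      · show ((a : ℂ) + b * xi).re - ((a : ℂ) + b * xi).im / (Real.sqrt 3 / 2) / 2 ∈ Set.Ico (0 : ℝ) 1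
        rw [e3, e1, add_sub_cancel_right]
        exact ha
      · show ((a : ℂ) + b * xi).im / (Real.sqrt 3 / 2) ∈ Set.Ico (0 : ℝ) 1
        rw [e3]
        exact hb
    · rintro ⟨h1, h2⟩
      refine ⟨_, _, h1, h2, ?_⟩
      apply Complex.ext
      · simp only [Complex.add_re, Complex.mul_re, xi_re, xi_im, Complex.ofReal_re,
          Complex.ofReal_im]
        ring
      · simp only [Complex.add_im, Complex.mul_im, xi_re, xi_im, Complex.ofReal_re,
          Complex.ofReal_im]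
        rw [zero_add, zero_mul, add_zero, div_mul_cancel₀ _ h3.ne']
  rw [h]
  have m1 : Measurable fun z : ℂ => z.re - z.im / (Real.sqrt 3 / 2) / 2 :=
    Complex.measurable_re.sub ((Complex.measurable_im.div_const _).div_const _)
  have m2 : Measurable fun z : ℂ => z.im / (Real.sqrt 3 / 2) := Complex.measurable_im.div_const _
  exact (measurableSet_Ico.preimage m1).inter (measurableSet_Ico.preimage m2)

theorem ab_fundE_sub : fundE ⊆ Metric.closedBall (0 : ℂ) 3 := by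
  rintro z ⟨a, b, ha, hb, rfl⟩
  rw [mem_closedBall_zero_iff]
  have hx : ‖xi‖ = 1 := by
    unfold xi
    rw [show (Real.pi * Complex.I / 3 : ℂ) = ((Real.pi / 3 : ℝ) : ℂ) * Complex.I by
      push_cast; ring]
    exact Complex.norm_exp_ofReal_mul_I _
  calc ‖(a : ℂ) + b * xi‖ ≤ ‖(a : ℂ)‖ + ‖(b : ℂ) * xi‖ := norm_add_le _ _
    _ ≤ 1 + 1 := by
        rw [norm_mul, hx, mul_one, Complex.norm_real, Complex.norm_real, Real.norm_eq_abs,
          Real.norm_eq_abs, abs_of_nonneg ha.1, abs_of_nonneg hb.1]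
        exact add_le_add ha.2.le hb.2.le
    _ ≤ 3 := by norm_num

theorem ab_box_sub : box 1 ⊆ Metric.closedBall (0 : ℂ) 3 := by
  rintro z ⟨h1, h2⟩
  rw [mem_closedBall_zero_iff]
  have h3 := Complex.norm_le_abs_re_add_abs_im z
  rw [abs_of_nonneg h1.1, abs_of_nonneg h2.1] at h3
  linarith [h1.2, h2.2]

/-- points over the annulus are regular -/
theorem ab_ann_chU (σ : B.Sp) {y : V 4} (h0 : y 2 ≠ 0) (h1 : ‖y 2‖ < 1 / 2) :
    y ∈ chU (Sum.inl (B.ch σ) : Ix B) := by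
  refine ⟨by rw [B.D_ch, mem_ball_zero_iff]; exact h1, ?_⟩
  rintro ⟨τ, h2, _⟩
  exact h0 (p_ch_inj (mem_ball_zero_iff.2 h1) zero_mem_half h2).2

/-- the contribution of an annulus -/
theorem ann_integral (D : MetricData B) (g : HermitianMetric 4 (presM B).Mfd) (σ : B.Sp) {W : ℝ}
    (hW : ∀ w : ℂ, 1 / 8 ≤ ‖w‖ → ‖w‖ < 1 / 2 → fibVol (locG g (0, 0, σ)) w = W) :
    ∫ y in pA σ, (∑ j, ∑ k, (((presM B).ofMetric g).g (Sum.inl (B.ch σ)) y).adjugate k j *
      levi (fun w => ((Real.log (D.H (B.ch σ) (w 2)) : ℝ) : ℂ)) y j k).re =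
      W / ro ((0, 0, σ) : Qt B) *
        ∫ w in Metric.ball (0 : ℂ) (1 / 2), lap (fun u => Real.log (D.H (B.ch σ) u)) w := by
  obtain ⟨r, hr⟩ : ∃ r, r = ro ((0, 0, σ) : Qt B) := ⟨_, rfl⟩
  have hrpos : 0 < r := by rw [hr]; exact ro_pos _
  have hroot : IsPrimitiveRoot (zetaN B.N ^ k0 ((0, 0, σ) : Qt B)) r := by
    rw [hr]; exact primitive_k0 _
  obtain ⟨G, hG⟩ : ∃ G : V 4 → ℂ, G = fun y =>
    (((presM B).ofMetric g).g (Sum.inl (B.ch σ)) y).adjugate 2 2 := ⟨_, rfl⟩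
  have hGc : ContinuousOn G (chU (Sum.inl (B.ch σ) : Ix B)) := by
    rw [hG]
    exact (piola_contDiffOn_adj (((presM B).ofMetric g).smooth (Sum.inl (B.ch σ))) 2 2).continuousOn
  -- the integrand
  have e1 : ∀ y ∈ pA σ, (∑ j, ∑ k, (((presM B).ofMetric g).g (Sum.inl (B.ch σ)) y).adjugate k j *
      levi (fun w => ((Real.log (D.H (B.ch σ) (w 2)) : ℝ) : ℂ)) y j k).re =
      (G y).re * lap (abU D σ) (y 2) := by
    rintro y ⟨_, _, _, _, h5, _⟩
    have h6 := fun j k => ab_levi_slot (ab_U_at D σ h5) (y := y) j k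
    have h7 : (∑ j, ∑ k, (((presM B).ofMetric g).g (Sum.inl (B.ch σ)) y).adjugate k j *
      levi (fun w => ((Real.log (D.H (B.ch σ) (w 2)) : ℝ) : ℂ)) y j k) =
      G y * ((lap (abU D σ) (y 2) : ℝ) : ℂ) := by
      have h8 : ∀ j k, levi (fun w : V 4 => ((Real.log (D.H (B.ch σ) (w 2)) : ℝ) : ℂ)) y j k =
        if j = 2 ∧ k = 2 then ((lap (abU D σ) (y 2) : ℝ) : ℂ) else 0 := h6
      simp only [h8]
      rw [Finset.sum_eq_single 2, Finset.sum_eq_single 2]
      · simp only [and_self, if_true, hG]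
      · intro a _ ha
        rw [if_neg (fun h => ha h.2)]; simp
      · simp
      · intro b _ hb
        apply Finset.sum_eq_zero
        intro a _
        rw [if_neg (fun h => hb h.1)]; simp
      · simp
    rw [h7, Complex.re_mul_ofReal]
  have hbox : MeasurableSet {x : V 4 | x 3 ∈ box 1} :=
    ab_meas_box.preimage (measurable_pi_apply 3)
  have hf0 : MeasurableSet {x : V 4 | x 0 ∈ fundE} := ab_meas_fundE.preimage (measurable_pi_apply 0)
  have hf1 : MeasurableSet {x : V 4 | x 1 ∈ fundE} := ab_meas_fundE.preimage (measurable_pi_apply 1)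
  have hs2 : MeasurableSet {x : V 4 | x 2 ∈ sec r} :=
    (measurableSet_sec r).preimage (measurable_pi_apply 2)
  have hn : Continuous fun x : V 4 => ‖x 2‖ := (continuous_apply 2).norm
  have hn1 : MeasurableSet {x : V 4 | 1 / 8 ≤ ‖x 2‖} :=
    (isClosed_le continuous_const hn).measurableSet
  have hn2 : MeasurableSet {x : V 4 | ‖x 2‖ < 1 / 2} :=
    (isOpen_lt hn continuous_const).measurableSet
  have hmeas : MeasurableSet (pA σ) := by
    have h : pA σ = {x : V 4 | x 0 ∈ fundE} ∩ ({x : V 4 | x 1 ∈ fundE} ∩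
        ({x : V 4 | x 2 ∈ sec r} ∩ ({x : V 4 | 1 / 8 ≤ ‖x 2‖} ∩ ({x : V 4 | ‖x 2‖ < 1 / 2} ∩
        {x : V 4 | x 3 ∈ box 1})))) := by
      rw [hr]
      rfl
    rw [h]
    exact hf0.inter (hf1.inter (hs2.inter (hn1.inter (hn2.inter hbox))))
  rw [setIntegral_congr_fun hmeas e1]
  -- restriction to the support
  obtain ⟨A', hA'⟩ : ∃ A' : Set (V 4), A' = {y | y 0 ∈ fundE ∧ y 1 ∈ fundE ∧
    y 2 ∈ sec r ∩ abK ∧ y 3 ∈ box 1} := ⟨_, rfl⟩
  have hsub : A' ⊆ pA σ := by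
    rw [hA']
    rintro y ⟨h1, h2, h3, h4⟩
    refine ⟨h1, h2, hr ▸ h3.1, h3.2.1, ?_, h4⟩
    linarith [h3.2.2]
  have e0 : ∫ y in pA σ, (G y).re * lap (abU D σ) (y 2) =
      ∫ y in A', (G y).re * lap (abU D σ) (y 2) := by
    apply setIntegral_eq_of_subset_of_forall_sdiff_eq_zero hmeas hsub
    rintro y ⟨⟨h1, h2, h3, h4, h5, h6⟩, h7⟩
    have h8 : 1 / 4 < ‖y 2‖ := by
      by_contra h
      apply h7
      rw [hA']
      exact ⟨h1, h2, ⟨hr ▸ h3, h4, not_lt.1 h⟩, h6⟩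
    rw [ab_lap_outer D σ h8 h5, mul_zero]
  rw [e0]
  -- Fubini
  rw [← mp_abE.setIntegral_preimage_emb abE.measurableEmbedding]
  have e2 : abE ⁻¹' A' = (sec r ∩ abK) ×ˢ (fundE ×ˢ fundE ×ˢ box 1) := by
    ext p
    rw [Set.mem_preimage, hA', abE_apply]
    simp only [Set.mem_ofPred_eq, Set.mem_prod]
    constructor
    · rintro ⟨h1, h2, h3, h4⟩
      exact ⟨h3, h1, h2, h4⟩
    · rintro ⟨h3, h1, h2, h4⟩
      exact ⟨h1, h2, h3, h4⟩
  have e3 : ∀ p : ℂ × ℂ × ℂ × ℂ, (G (abE p)).re * lap (abU D σ) (abE p 2) =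
      (G ![p.2.1, p.2.2.1, p.1, p.2.2.2]).re * lap (abU D σ) p.1 := by
    intro p
    rw [abE_apply]
    rfl
  simp only [e3]
  rw [e2, Measure.volume_eq_prod]
  have hK : IsCompact (abK ×ˢ Metric.closedBall (0 : ℂ) 3 ×ˢ Metric.closedBall (0 : ℂ) 3 ×ˢ
      Metric.closedBall (0 : ℂ) 3) :=
    ab_K_compact.prod ((isCompact_closedBall _ _).prod ((isCompact_closedBall _ _).prod
      (isCompact_closedBall _ _)))
  have hvec : Continuous fun p : ℂ × ℂ × ℂ × ℂ => (![p.2.1, p.2.2.1, p.1, p.2.2.2] : V 4) := by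
    refine continuous_pi fun j => ?_
    fin_cases j
    · exact continuous_snd.fst
    · exact continuous_snd.snd.fst
    · exact continuous_fst
    · exact continuous_snd.snd.snd
  have hcont : ContinuousOn (fun p : ℂ × ℂ × ℂ × ℂ =>
      (G ![p.2.1, p.2.2.1, p.1, p.2.2.2]).re * lap (abU D σ) p.1)
      (abK ×ˢ Metric.closedBall (0 : ℂ) 3 ×ˢ Metric.closedBall (0 : ℂ) 3 ×ˢ
      Metric.closedBall (0 : ℂ) 3) := by
    apply ContinuousOn.mul
    · apply Complex.continuous_re.comp_continuousOn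
      apply hGc.comp hvec.continuousOn
      rintro p ⟨hp, _⟩
      apply ab_ann_chU σ
      · show p.1 ≠ 0
        intro h
        have := hp.1
        rw [h, norm_zero] at this
        linarith
      · show ‖p.1‖ < 1 / 2
        linarith [hp.2]
    · exact (ab_lap_cont D σ).comp continuous_fst.continuousOn fun p hp => ab_K_sub hp.1
  have hint : IntegrableOn (fun p : ℂ × ℂ × ℂ × ℂ =>
      (G ![p.2.1, p.2.2.1, p.1, p.2.2.2]).re * lap (abU D σ) p.1)
      ((sec r ∩ abK) ×ˢ (fundE ×ˢ fundE ×ˢ box 1)) (volume.prod volume) := by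
    rw [← Measure.volume_eq_prod]
    exact (hcont.integrableOn_compact hK).mono_set (Set.prod_mono Set.inter_subset_right
      (Set.prod_mono ab_fundE_sub (Set.prod_mono ab_fundE_sub ab_box_sub)))
  rw [setIntegral_prod _ hint]
  have hmS : MeasurableSet (sec r ∩ abK) :=
    (measurableSet_sec r).inter ab_K_compact.isClosed.measurableSet
  have e4 : ∀ w ∈ sec r ∩ abK, ∫ z in fundE ×ˢ fundE ×ˢ box 1,
      (G ![z.1, z.2.1, w, z.2.2]).re * lap (abU D σ) w = W * lap (abU D σ) w := by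
    rintro w ⟨_, h1, h2⟩
    rw [integral_mul_const]
    congr 1
    rw [← hW w h1 (by linarith)]
    unfold fibVol
    congr 1
    funext z
    rw [hG]
    unfold locG
    have hc : cen ((0, 0, σ) : Qt B) = 0 := by
      ext i
      fin_cases i <;> rfl
    rw [hc, zero_add]
  have e5 : ∫ w in sec r ∩ abK, ∫ z in fundE ×ˢ fundE ×ˢ box 1,
      (G ![z.1, z.2.1, w, z.2.2]).re * lap (abU D σ) w =
      ∫ w in sec r ∩ abK, W * lap (abU D σ) w := setIntegral_congr_fun hmS e4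
  show ∫ w in sec r ∩ abK, ∫ z in fundE ×ˢ fundE ×ˢ box 1,
      (G ![z.1, z.2.1, w, z.2.2]).re * lap (abU D σ) w = _
  rw [e5, integral_const_mul]
  have hKm : MeasurableSet abK := ab_K_compact.isClosed.measurableSet
  rw [← setIntegral_indicator hKm]
  have hci : IntegrableOn (lap (abU D σ)) abK :=
    ((ab_lap_cont D σ).mono ab_K_sub).integrableOn_compact ab_K_compact
  rw [integral_sec hrpos hroot]
  · rw [integral_indicator hKm]
    have e6 : ∫ w in Metric.ball (0 : ℂ) (1 / 2), lap (abU D σ) w = ∫ w in abK, lap (abU D σ) w := by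
      apply setIntegral_eq_of_subset_of_forall_sdiff_eq_zero measurableSet_ball ab_K_sub
      rintro w ⟨h1, h2⟩
      rw [mem_ball_zero_iff] at h1
      rcases lt_or_ge ‖w‖ (1 / 8) with h | h
      · exact ab_lap_center D σ h
      · apply ab_lap_outer D σ _ h1
        by_contra h'
        exact h2 ⟨h, not_lt.1 h'⟩
    show _ = W / (ro ((0, 0, σ) : Qt B) : ℝ) * ∫ w in Metric.ball (0 : ℂ) (1 / 2), lap (abU D σ) w
    rw [e6, ← hr]
    ring
  · intro w
    have hnorm : ‖zetaN B.N ^ k0 ((0, 0, σ) : Qt B) * w‖ = ‖w‖ := by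
      rw [norm_mul, norm_pow, norm_zetaN, one_pow, one_mul]
    by_cases h : w ∈ abK
    · have h' : zetaN B.N ^ k0 ((0, 0, σ) : Qt B) * w ∈ abK := by
        unfold abK at h ⊢
        rw [Set.mem_ofPred_eq] at h ⊢
        rw [hnorm]
        exact h
      rw [Set.indicator_of_mem h, Set.indicator_of_mem h']
      exact ab_lap_rot D σ (by linarith [h.2])
    · have h' : zetaN B.N ^ k0 ((0, 0, σ) : Qt B) * w ∉ abK := by
        unfold abK at h ⊢
        rw [Set.mem_ofPred_eq] at h ⊢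
        rw [hnorm]
        exact h
      rw [Set.indicator_of_notMem h, Set.indicator_of_notMem h']
  · exact (integrable_indicator_iff hKm).2 hci

end

end GK
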