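import Pool.Agent.GK.Defs

/-!
# Data of the base curve

`C` is a compact Riemann surface with an automorphism `s` of order `N` (`N = 1` or `6`), given by
finitely many injective parametrisations `p i : D i → C`.  Around the special points
`p (ch σ) 0` the automorphism acts by multiplication by `ζ = exp (2πi/N)`.
-/

open scoped ContDiff Topology
open MeasureTheory

namespace GK

noncomputable section

/-- `exp (2πi/N)` -/
def zetaN (N : ℕ) : ℂ := Complex.exp (2 * Real.pi * Complex.I / N)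

/-- `∂²f/∂w∂w̄` for functions of one complex variable (a quarter of the Laplacian). -/
def lap (f : ℂ → ℝ) (w : ℂ) : ℝ :=
  (fderiv ℝ (fun u => fderiv ℝ f u 1) w 1 +
    fderiv ℝ (fun u => fderiv ℝ f u Complex.I) w Complex.I) / 4

/-- Curve with automorphism and special points. -/
structure BaseCurve where
  N : ℕ
  N_pos : 0 < N
  N_dvd : N ∣ 6
  C : Type
  [top : TopologicalSpace C]
  [t2 : T2Space C]
  [comp : CompactSpace C]
  [conn : ConnectedSpace C]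
  κ : Type
  D : κ → Set ℂ
  isOpen_D : ∀ i, IsOpen (D i)
  p : κ → ℂ → C
  p_cont : ∀ i, ContinuousOn (p i) (D i)
  p_inj : ∀ i, Set.InjOn (p i) (D i)
  p_open : ∀ i, ∀ W : Set ℂ, IsOpen W → W ⊆ D i → IsOpen (p i '' W)
  p_surj : ∀ c, ∃ i, ∃ w ∈ D i, p i w = c
  s : C → C
  s_cont : Continuous s
  s_iter : s^[N] = id
  /-- the change of parameters, composed with any power of `s`, is holomorphic -/
  hol : ∀ i j (k : ℕ) w w', w ∈ D i → w' ∈ D j → p j w' = s^[k] (p i w) →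
    ∃ h : ℂ → ℂ, AnalyticAt ℂ h w ∧ h w = w' ∧ ∀ᶠ x in 𝓝 w, p j (h x) = s^[k] (p i x)
  /-- index set of the special points -/
  Sp : Type
  [fin : Fintype Sp]
  ch : Sp → κ
  D_ch : ∀ σ, D (ch σ) = Metric.ball 0 (1 / 2)
  sσ : Sp → Sp
  s_ch : ∀ σ, ∀ w ∈ Metric.ball (0 : ℂ) (1 / 2), s (p (ch σ) w) = p (ch (sσ σ)) (zetaN N * w)
  disj : ∀ σ τ, σ ≠ τ →
    Disjoint (p (ch σ) '' Metric.ball 0 (1 / 2)) (p (ch τ) '' Metric.ball 0 (1 / 2))
  free : ∀ c (k : ℕ), s^[k] c = c → ¬ N ∣ k → ∃ σ, c = p (ch σ) 0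
  main : Sp → Prop
  main_fix : ∀ σ, main σ → sσ σ = σ
  exists_main : ∃ σ, main σ

attribute [instance] BaseCurve.top BaseCurve.t2 BaseCurve.comp BaseCurve.conn BaseCurve.fin

/-- Raw metric data on a base curve: `E i = |η_i|²` for a meromorphic one-form `η` without zeros
and poles outside the main special points (defined up to a unimodular constant), and a positive
density `K`. -/
structure RawData (B : BaseCurve) where
  /-- order of the one-form at the main special points -/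
  ord : ℤ
  E : B.κ → ℂ → ℝ
  E_smooth : ∀ i, ∀ w ∈ B.D i, (∀ σ, B.main σ → B.p i w ≠ B.p (B.ch σ) 0) →
    ContDiffAt ℝ ∞ (E i) w ∧ 0 < E i w ∧ lap (fun u => Real.log (E i u)) w = 0
  E_trans : ∀ i j (k : ℕ) w w', w ∈ B.D i → w' ∈ B.D j → B.p j w' = B.s^[k] (B.p i w) →
    ∀ h : ℂ → ℂ, AnalyticAt ℂ h w → h w = w' → (∀ᶠ x in 𝓝 w, B.p j (h x) = B.s^[k] (B.p i x)) →
    (∀ σ, B.main σ → B.p i w ≠ B.p (B.ch σ) 0) →
    E i w = Complex.normSq (deriv h w) * E j w'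
  E_main : ∀ σ, B.main σ → ∃ u : ℂ → ℝ, (∀ w ∈ Metric.ball (0 : ℂ) (1 / 2), ContDiffAt ℝ ∞ u w ∧
    0 < u w ∧ lap (fun x => Real.log (u x)) w = 0) ∧
    ∀ w ∈ Metric.ball (0 : ℂ) (1 / 2), w ≠ 0 → E (B.ch σ) w = Complex.normSq w ^ ord * u w
  K : B.κ → ℂ → ℝ
  K_smooth : ∀ i, ContDiffOn ℝ ∞ (K i) (B.D i)
  K_pos : ∀ i, ∀ w ∈ B.D i, 0 < K i w
  K_trans : ∀ i j (k : ℕ) w w', w ∈ B.D i → w' ∈ B.D j → B.p j w' = B.s^[k] (B.p i w) →
    ∀ h : ℂ → ℂ, AnalyticAt ℂ h w → h w = w' → (∀ᶠ x in 𝓝 w, B.p j (h x) = B.s^[k] (B.p i x)) →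
    K i w = Complex.normSq (deriv h w) * K j w'

/-- Metric data normalised near the special points. `H` is a metric on the anticanonical bundle
of `C` with curvature supported near the special points, `K` a Kähler metric on `C` that is flat
near the special points. -/
structure MetricData (B : BaseCurve) where
  ord : ℤ
  H : B.κ → ℂ → ℝ
  H_smooth : ∀ i, ContDiffOn ℝ ∞ (H i) (B.D i)
  H_pos : ∀ i, ∀ w ∈ B.D i, 0 < H i w
  H_trans : ∀ i j (k : ℕ) w w', w ∈ B.D i → w' ∈ B.D j → B.p j w' = B.s^[k] (B.p i w) →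
    ∀ h : ℂ → ℂ, AnalyticAt ℂ h w → h w = w' → (∀ᶠ x in 𝓝 w, B.p j (h x) = B.s^[k] (B.p i x)) →
    H i w = Complex.normSq (deriv h w) * H j w'
  H_center : ∀ σ, ∀ w : ℂ, ‖w‖ < 1 / 7 → H (B.ch σ) w = 1
  H_flat : ∀ i, ∀ w ∈ B.D i, (∀ σ, B.p i w ∉ B.p (B.ch σ) '' Metric.closedBall 0 (1 / 4)) →
    lap (fun u => Real.log (H i u)) w = 0
  H_flat' : ∀ σ, ∀ w : ℂ, 1 / 4 < ‖w‖ → ‖w‖ < 1 / 2 →
    lap (fun u => Real.log (H (B.ch σ) u)) w = 0
  H_mass_main : ∀ σ, B.main σ →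
    ∫ w in Metric.ball (0 : ℂ) (1 / 2), lap (fun u => Real.log (H (B.ch σ) u)) w = Real.pi * ord
  H_mass : ∀ σ, ¬ B.main σ →
    ∫ w in Metric.ball (0 : ℂ) (1 / 2), lap (fun u => Real.log (H (B.ch σ) u)) w = 0
  K : B.κ → ℂ → ℝ
  K_smooth : ∀ i, ContDiffOn ℝ ∞ (K i) (B.D i)
  K_pos : ∀ i, ∀ w ∈ B.D i, 0 < K i w
  K_trans : ∀ i j (k : ℕ) w w', w ∈ B.D i → w' ∈ B.D j → B.p j w' = B.s^[k] (B.p i w) →
    ∀ h : ℂ → ℂ, AnalyticAt ℂ h w → h w = w' → (∀ᶠ x in 𝓝 w, B.p j (h x) = B.s^[k] (B.p i x)) →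
    K i w = Complex.normSq (deriv h w) * K j w'
  K_center : ∀ σ, ∀ w : ℂ, ‖w‖ < 1 / 7 → K (B.ch σ) w = 1

end

end GK
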