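import Pool.Agent.GK.Base

/-! # Module BaseC6: the curve `x³ = y⁶ + z⁶` in `P(2,1,1)`, `N = 6`, `s : y ↦ ζ y`,
main special points: the 3 points `y = 0`; other special points: the 3 points `z = 0`;
one-form `y² dy / x²`.

The curve is realised as a compact subset of `ℝ × ℂ³`, with coordinates
`(r, q, u, v) = (|z|², y z̄, x z̄², x ȳ²)` for `|y|² + |z|² = 1`.  The map `swap` exchanges `y` and `z`;
all charts are `(y, x) = (λ w, μ (1 + w⁶)^{1/3})` or `(y, x) = (λ i (1 - w³)^{1/6}, μ w)`, possibly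
composed with `swap`. -/

open scoped ContDiff Topology ComplexConjugate
open MeasureTheory

namespace GK

noncomputable section

namespace C6

/-- the curve, embedded in `ℝ × ℂ³` -/
def carrier : Set (ℝ × ℂ × ℂ × ℂ) :=
  {p | p.2.1 * conj p.2.1 = ((p.1 * (1 - p.1) : ℝ) : ℂ) ∧
    p.2.2.1 ^ 3 = p.2.1 ^ 6 + (p.1 : ℂ) ^ 6 ∧
    p.2.2.2 ^ 3 = (1 - (p.1 : ℂ)) ^ 6 + conj p.2.1 ^ 6 ∧
    p.2.2.1 * conj p.2.1 ^ 2 = p.2.2.2 * (p.1 : ℂ) ^ 2 ∧
    p.2.2.2 * p.2.1 ^ 2 = p.2.2.1 * (1 - (p.1 : ℂ)) ^ 2}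

def C : Type := carrier

instance : TopologicalSpace C := inferInstanceAs (TopologicalSpace carrier)
instance : T2Space C := inferInstanceAs (T2Space carrier)

theorem ind : @Topology.IsInducing C (ℝ × ℂ × ℂ × ℂ) _ _ (fun c => c.1) :=
  Topology.IsInducing.subtypeVal

def r (c : C) : ℝ := c.1.1
def q (c : C) : ℂ := c.1.2.1
def u (c : C) : ℂ := c.1.2.2.1
def v (c : C) : ℂ := c.1.2.2.2

theorem cont_r : Continuous r := continuous_fst.comp continuous_subtype_val
theorem cont_q : Continuous q := (continuous_fst.comp continuous_snd).comp continuous_subtype_val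
theorem cont_u : Continuous u :=
  (continuous_fst.comp (continuous_snd.comp continuous_snd)).comp continuous_subtype_val
theorem cont_v : Continuous v :=
  (continuous_snd.comp (continuous_snd.comp continuous_snd)).comp continuous_subtype_val

theorem ext' {c d : C} (h1 : r c = r d) (h2 : q c = q d) (h3 : u c = u d) (h4 : v c = v d) :
    c = d := by
  apply Subtype.ext
  exact Prod.ext h1 (Prod.ext h2 (Prod.ext h3 h4))

theorem e1 (c : C) : q c * conj (q c) = ((r c * (1 - r c) : ℝ) : ℂ) := c.2.1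
theorem e2 (c : C) : u c ^ 3 = q c ^ 6 + (r c : ℂ) ^ 6 := c.2.2.1
theorem e3 (c : C) : v c ^ 3 = (1 - (r c : ℂ)) ^ 6 + conj (q c) ^ 6 := c.2.2.2.1
theorem e4 (c : C) : u c * conj (q c) ^ 2 = v c * (r c : ℂ) ^ 2 := c.2.2.2.2.1
theorem e5 (c : C) : v c * q c ^ 2 = u c * (1 - (r c : ℂ)) ^ 2 := c.2.2.2.2.2

theorem normSq_q (c : C) : Complex.normSq (q c) = r c * (1 - r c) := by
  have := e1 c
  rw [Complex.mul_conj] at this
  exact_mod_cast this

theorem r_nonneg (c : C) : 0 ≤ r c := by
  have h := normSq_q c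
  have h' := Complex.normSq_nonneg (q c)
  by_contra hc
  push Not at hc
  nlinarith

theorem r_le_one (c : C) : r c ≤ 1 := by
  have h := normSq_q c
  have h' := Complex.normSq_nonneg (q c)
  by_contra hc
  push Not at hc
  nlinarith

instance : CompactSpace C := by
  apply isCompact_iff_compactSpace.mp
  apply Metric.isCompact_of_isClosed_isBounded
  · unfold carrier
    refine IsClosed.inter (isClosed_eq (by fun_prop) (by fun_prop)) ?_
    refine IsClosed.inter (isClosed_eq (by fun_prop) (by fun_prop)) ?_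
    refine IsClosed.inter (isClosed_eq (by fun_prop) (by fun_prop)) ?_
    exact IsClosed.inter (isClosed_eq (by fun_prop) (by fun_prop))
      (isClosed_eq (by fun_prop) (by fun_prop))
  · rw [isBounded_iff_forall_norm_le]
    refine ⟨2, ?_⟩
    intro p hp
    set c : C := ⟨p, hp⟩
    have h0 := r_nonneg c
    have h1 := r_le_one c
    have hq : ‖q c‖ ≤ 1 := by
      have := normSq_q c
      rw [Complex.normSq_eq_norm_sq] at this
      have : ‖q c‖ ^ 2 ≤ 1 := by nlinarith
      nlinarith [norm_nonneg (q c)]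
    have hr : ‖(r c : ℂ)‖ ≤ 1 := by
      rw [Complex.norm_real, Real.norm_eq_abs, abs_of_nonneg h0]; exact h1
    have hr' : ‖1 - (r c : ℂ)‖ ≤ 1 := by
      have : (1 - (r c : ℂ)) = ((1 - r c : ℝ) : ℂ) := by push_cast; ring
      rw [this, Complex.norm_real, Real.norm_eq_abs, abs_of_nonneg (by linarith)]; linarith
    have hcube : ∀ t : ℝ, 0 ≤ t → t ^ 3 ≤ 2 → t ≤ 2 := by
      intro t ht h
      by_contra hc
      push Not at hc
      have : (2:ℝ) ^ 3 < t ^ 3 := by gcongr
      linarith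
    have hu : ‖u c‖ ≤ 2 := by
      apply hcube _ (norm_nonneg _)
      rw [← norm_pow, e2 c]
      refine (norm_add_le _ _).trans ?_
      rw [norm_pow, norm_pow]
      have a1 : ‖q c‖ ^ 6 ≤ 1 := pow_le_one₀ (norm_nonneg _) hq
      have a2 : ‖(r c : ℂ)‖ ^ 6 ≤ 1 := pow_le_one₀ (norm_nonneg _) hr
      linarith
    have hv : ‖v c‖ ≤ 2 := by
      apply hcube _ (norm_nonneg _)
      rw [← norm_pow, e3 c]
      refine (norm_add_le _ _).trans ?_
      rw [norm_pow, norm_pow]
      have a1 : ‖conj (q c)‖ ^ 6 ≤ 1 := pow_le_one₀ (norm_nonneg _) (by rwa [RCLike.norm_conj])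
      have a2 : ‖1 - (r c : ℂ)‖ ^ 6 ≤ 1 := pow_le_one₀ (norm_nonneg _) hr'
      linarith
    have hr2 : ‖p.1‖ ≤ 2 := by
      show ‖r c‖ ≤ 2
      rw [Real.norm_eq_abs, abs_of_nonneg h0]; linarith
    exact max_le hr2 (max_le (hq.trans (by norm_num)) (max_le hu hv))

/-- `1 + |y|²` as a complex number -/
theorem den_ne (y : ℂ) : (1 + y * conj y) ≠ 0 := by
  rw [Complex.mul_conj]
  intro h
  have : (1 + Complex.normSq y : ℝ) = 0 := by exact_mod_cast h
  have := Complex.normSq_nonneg y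
  linarith

theorem conj_den (y : ℂ) : conj (1 + y * conj y) = 1 + y * conj y := by
  simp [mul_comm]

theorem inv_den (y : ℂ) : (((1 + Complex.normSq y)⁻¹ : ℝ) : ℂ) = (1 + y * conj y)⁻¹ := by
  rw [Complex.mul_conj]; push_cast; rfl

theorem one_sub_inv_den (y : ℂ) :
    1 - (1 + y * conj y)⁻¹ = y * conj y / (1 + y * conj y) := by
  have hN := den_ne y
  field_simp
  ring

theorem pt_mem {y x : ℂ} (h : x ^ 3 = 1 + y ^ 6) :
    (((1 + Complex.normSq y)⁻¹, y / (1 + y * conj y), x / (1 + y * conj y) ^ 2,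
    x * conj y ^ 2 / (1 + y * conj y) ^ 2) : ℝ × ℂ × ℂ × ℂ) ∈ carrier := by
  have hN := den_ne y
  have hc := conj_den y
  have hr := inv_den y
  have hr' := one_sub_inv_den y
  refine ⟨?_, ?_, ?_, ?_, ?_⟩
  · rw [Complex.ofReal_mul, Complex.ofReal_sub, Complex.ofReal_one]
    simp only [hr, hr', map_div₀, hc]
    field_simp
  · simp only [hr]
    field_simp
    rw [h]
    ring
  · simp only [hr, map_div₀, hc, hr']
    field_simp
    rw [h]
    ring
  · simp only [hr, map_div₀, hc]
    field_simp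
  · simp only [hr, hr']
    field_simp

/-- the point `(y, x)` -/
def pt (y x : ℂ) (h : x ^ 3 = 1 + y ^ 6) : C := ⟨_, pt_mem h⟩

/-- exchange of `y` and `z` -/
def swap (c : C) : C := ⟨(1 - r c, conj (q c), v c, u c), by
  refine ⟨?_, ?_, ?_, ?_, ?_⟩
  · simp only [Complex.conj_conj]
    rw [mul_comm, e1 c]
    push_cast
    ring
  · simp only
    rw [e3 c]
    push_cast
    ring
  · simp only [Complex.conj_conj]
    rw [e2 c]
    push_cast
    ring
  · simp only [Complex.conj_conj]
    rw [e5 c]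
    push_cast
    ring
  · simp only
    rw [e4 c]
    push_cast
    ring⟩

theorem r_swap (c : C) : r (swap c) = 1 - r c := rfl
theorem q_swap (c : C) : q (swap c) = conj (q c) := rfl
theorem u_swap (c : C) : u (swap c) = v c := rfl
theorem v_swap (c : C) : v (swap c) = u c := rfl

theorem swap_swap (c : C) : swap (swap c) = c := by
  apply ext'
  · simp [r_swap]
  · simp [q_swap]
  · simp [u_swap, v_swap]
  · simp [u_swap, v_swap]

theorem cont_swap : Continuous swap := by
  apply Continuous.subtype_mk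
  exact (continuous_const.sub cont_r).prodMk
    ((Complex.continuous_conj.comp cont_q).prodMk (cont_v.prodMk cont_u))

/-- the automorphism `y ↦ t y` -/
def rot (t : ℂ) (ht : t ^ 6 = 1) (c : C) : C := ⟨(r c, t * q c, u c, conj t ^ 2 * v c), by
  have hn : t * conj t = 1 := by
    rw [Complex.mul_conj]
    have : ‖t‖ = 1 := Complex.norm_eq_one_of_pow_eq_one ht (by norm_num)
    rw [Complex.normSq_eq_norm_sq, this]; norm_num
  have ht' : conj t ^ 6 = 1 := by rw [← map_pow, ht, map_one]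
  refine ⟨?_, ?_, ?_, ?_, ?_⟩
  · simp only [map_mul]
    rw [← e1 c]
    linear_combination (q c * conj (q c)) * hn
  · simp only
    rw [mul_pow, ht, e2 c, one_mul]
  · simp only [map_mul]
    rw [mul_pow, mul_pow, ht', ← pow_mul, e3 c]
    norm_num [ht']
  · simp only [map_mul]
    linear_combination conj t ^ 2 * e4 c
  · simp only
    linear_combination e5 c + (t * conj t + 1) * (v c * q c ^ 2) * hn⟩

theorem r_rot {t : ℂ} (ht : t ^ 6 = 1) (c : C) : r (rot t ht c) = r c := rfl
theorem q_rot {t : ℂ} (ht : t ^ 6 = 1) (c : C) : q (rot t ht c) = t * q c := rfl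
theorem u_rot {t : ℂ} (ht : t ^ 6 = 1) (c : C) : u (rot t ht c) = u c := rfl
theorem v_rot {t : ℂ} (ht : t ^ 6 = 1) (c : C) : v (rot t ht c) = conj t ^ 2 * v c := rfl

theorem cont_rot {t : ℂ} (ht : t ^ 6 = 1) : Continuous (rot t ht) := by
  apply Continuous.subtype_mk
  exact cont_r.prodMk ((continuous_const.mul cont_q).prodMk
    (cont_u.prodMk (continuous_const.mul cont_v)))

theorem rot_rot {t t' : ℂ} (ht : t ^ 6 = 1) (ht' : t' ^ 6 = 1) (c : C) :
    rot t ht (rot t' ht' c) = rot (t * t') (by rw [mul_pow, ht, ht', one_mul]) c := by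
  apply ext'
  · rfl
  · simp only [q_rot]; ring
  · rfl
  · simp only [v_rot, map_mul]; ring

theorem rot_one (c : C) : rot 1 (by norm_num) c = c := by
  apply ext'
  · rfl
  · simp [q_rot]
  · rfl
  · simp [v_rot]

/-- the coordinate functions -/
def Fy (c : C) : ℂ := q c / r c
def Fx (c : C) : ℂ := u c / (r c : ℂ) ^ 2

theorem rel {c : C} (h : r c ≠ 0) : Fx c ^ 3 = 1 + Fy c ^ 6 := by
  have h' : (r c : ℂ) ≠ 0 := by exact_mod_cast h
  unfold Fx Fy
  field_simp
  rw [e2 c]
  ring

theorem r_pt {y x : ℂ} (h : x ^ 3 = 1 + y ^ 6) : r (pt y x h) = (1 + Complex.normSq y)⁻¹ := rfl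
theorem q_pt {y x : ℂ} (h : x ^ 3 = 1 + y ^ 6) : q (pt y x h) = y / (1 + y * conj y) := rfl
theorem u_pt {y x : ℂ} (h : x ^ 3 = 1 + y ^ 6) : u (pt y x h) = x / (1 + y * conj y) ^ 2 := rfl
theorem v_pt {y x : ℂ} (h : x ^ 3 = 1 + y ^ 6) :
    v (pt y x h) = x * conj y ^ 2 / (1 + y * conj y) ^ 2 := rfl

theorem r_pt_pos {y x : ℂ} (h : x ^ 3 = 1 + y ^ 6) : 0 < r (pt y x h) := by
  rw [r_pt]
  have := Complex.normSq_nonneg y
  positivity

theorem Fy_pt {y x : ℂ} (h : x ^ 3 = 1 + y ^ 6) : Fy (pt y x h) = y := by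
  have hN := den_ne y
  unfold Fy
  rw [r_pt, q_pt, inv_den]
  field_simp

theorem Fx_pt {y x : ℂ} (h : x ^ 3 = 1 + y ^ 6) : Fx (pt y x h) = x := by
  have hN := den_ne y
  unfold Fx
  rw [r_pt, u_pt, inv_den]
  field_simp

theorem Fy_swap_pt {y x : ℂ} (h : x ^ 3 = 1 + y ^ 6) : Fy (swap (pt y x h)) = y⁻¹ := by
  have hN := den_ne y
  have hc := conj_den y
  unfold Fy
  rw [r_swap, q_swap, r_pt, q_pt, Complex.ofReal_sub, Complex.ofReal_one, inv_den,
    one_sub_inv_den, map_div₀, hc]
  rcases eq_or_ne y 0 with rfl | hy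
  · simp
  · have hy' : conj y ≠ 0 := by simpa using hy
    have hN' : 1 + conj y * y ≠ 0 := by rwa [mul_comm] at hN
    field_simp

theorem Fx_swap_pt {y x : ℂ} (h : x ^ 3 = 1 + y ^ 6) : Fx (swap (pt y x h)) = x / y ^ 2 := by
  have hN := den_ne y
  have hc := conj_den y
  unfold Fx
  rw [r_swap, u_swap, r_pt, v_pt, Complex.ofReal_sub, Complex.ofReal_one, inv_den,
    one_sub_inv_den]
  rcases eq_or_ne y 0 with rfl | hy
  · simp
  · have hy' : conj y ≠ 0 := by simpa using hy
    have hN' : 1 + conj y * y ≠ 0 := by rwa [mul_comm] at hN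
    field_simp

theorem Fy_rot {t : ℂ} (ht : t ^ 6 = 1) (c : C) : Fy (rot t ht c) = t * Fy c := by
  unfold Fy; rw [q_rot, r_rot]; ring

theorem Fx_rot {t : ℂ} (ht : t ^ 6 = 1) (c : C) : Fx (rot t ht c) = Fx c := rfl

theorem Fy_swap_rot {t : ℂ} (ht : t ^ 6 = 1) (c : C) :
    Fy (swap (rot t ht c)) = conj t * Fy (swap c) := by
  unfold Fy; rw [q_swap, r_swap, r_rot, q_rot, q_swap, r_swap, map_mul]; ring

theorem Fx_swap_rot {t : ℂ} (ht : t ^ 6 = 1) (c : C) :
    Fx (swap (rot t ht c)) = conj t ^ 2 * Fx (swap c) := by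
  unfold Fx; rw [u_swap, r_swap, r_rot, v_rot, u_swap, r_swap]; ring

theorem eq_pt {c : C} (h : r c ≠ 0) : pt (Fy c) (Fx c) (rel h) = c := by
  have h' : (r c : ℂ) ≠ 0 := by exact_mod_cast h
  have hden : 1 + Fy c * conj (Fy c) = (r c : ℂ)⁻¹ := by
    unfold Fy
    rw [map_div₀, Complex.conj_ofReal]
    have := e1 c
    push_cast at this
    field_simp
    rw [this]
    ring
  apply ext'
  · have : ((r (pt (Fy c) (Fx c) (rel h)) : ℝ) : ℂ) = (r c : ℂ) := by
      rw [r_pt, inv_den, hden, inv_inv]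
    exact_mod_cast this
  · rw [q_pt, hden]; unfold Fy; field_simp
  · rw [u_pt, hden]; unfold Fx; field_simp
  · rw [v_pt, hden]; unfold Fx Fy
    rw [map_div₀, Complex.conj_ofReal]
    have := e4 c
    field_simp
    linear_combination this

theorem exists_pt {c : C} (h : r c ≠ 0) : ∃ y x, ∃ h : x ^ 3 = 1 + y ^ 6, c = pt y x h :=
  ⟨_, _, _, (eq_pt h).symm⟩

theorem pt_congr {y x y' x' : ℂ} (h : x ^ 3 = 1 + y ^ 6) (h' : x' ^ 3 = 1 + y' ^ 6)
    (hy : y = y') (hx : x = x') : pt y x h = pt y' x' h' := by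
  subst hy hx; rfl

theorem rot_pt {t : ℂ} (ht : t ^ 6 = 1) {y x : ℂ} (h : x ^ 3 = 1 + y ^ 6) :
    rot t ht (pt y x h) = pt (t * y) x (by rw [h, mul_pow, ht, one_mul]) := by
  have h0 : r (rot t ht (pt y x h)) ≠ 0 := by rw [r_rot]; exact (r_pt_pos h).ne'
  rw [← eq_pt h0]
  apply pt_congr
  · rw [Fy_rot, Fy_pt]
  · rw [Fx_rot, Fx_pt]


/-! ### roots -/

theorem ev_eq_one (n : ℕ) (hn : n ≠ 0) : ∀ᶠ z in 𝓝 (1 : ℂ), z ^ n = 1 → z = 1 := by
  have hc : ContinuousAt (fun z : ℂ => ∑ i ∈ Finset.range n, z ^ i) 1 := by fun_prop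
  have h1 : (∑ i ∈ Finset.range n, (1 : ℂ) ^ i) ≠ 0 := by simp [hn]
  filter_upwards [hc.eventually_ne h1] with z hz h
  have h2 := mul_geom_sum z n
  rw [h, sub_self, mul_eq_zero] at h2
  rcases h2 with h2 | h2
  · linear_combination h2
  · exact absurd h2 hz

def r3 (z : ℂ) : ℂ := z ^ ((3 : ℕ) : ℂ)⁻¹
def r6 (z : ℂ) : ℂ := z ^ ((6 : ℕ) : ℂ)⁻¹

theorem r3_pow (z : ℂ) : r3 z ^ 3 = z := Complex.cpow_nat_inv_pow z (by norm_num)
theorem r6_pow (z : ℂ) : r6 z ^ 6 = z := Complex.cpow_nat_inv_pow z (by norm_num)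

theorem analyticAt_r3 {z : ℂ} (hz : z ∈ Complex.slitPlane) : AnalyticAt ℂ r3 z :=
  analyticAt_id.cpow analyticAt_const hz
theorem analyticAt_r6 {z : ℂ} (hz : z ∈ Complex.slitPlane) : AnalyticAt ℂ r6 z :=
  analyticAt_id.cpow analyticAt_const hz

theorem r3_ne {z : ℂ} (hz : z ≠ 0) : r3 z ≠ 0 := by
  intro h
  have := r3_pow z
  rw [h] at this
  exact hz (by rw [← this]; norm_num)
theorem r6_ne {z : ℂ} (hz : z ≠ 0) : r6 z ≠ 0 := by
  intro h
  have := r6_pow z
  rw [h] at this
  exact hz (by rw [← this]; norm_num)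

theorem one_add_mem_slit {z : ℂ} (hz : ‖z‖ < 1) : 1 + z ∈ Complex.slitPlane := by
  left
  have := Complex.abs_re_le_norm z
  have := abs_lt.mp (lt_of_le_of_lt this hz)
  simp; linarith

/-! ### charts -/

structure Idx where
  side : Bool
  kind : Bool
  restr : Bool
  lam : ℂ
  lam6 : lam ^ 6 = 1
  mu : ℂ
  mu3 : mu ^ 3 = 1

namespace Idx

variable (i : Idx)

def D : Set ℂ :=
  match i.kind, i.restr with
  | true, _ => Metric.ball 0 1
  | false, true => Metric.ball 0 (1 / 2)
  | false, false => {w | 1 + w ^ 6 ∈ Complex.slitPlane}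

def f (w : ℂ) : ℂ := if i.kind then i.lam * (Complex.I * r6 (1 - w ^ 3)) else i.lam * w
def g (w : ℂ) : ℂ := if i.kind then i.mu * w else i.mu * r3 (1 + w ^ 6)

theorem lam_ne : i.lam ≠ 0 := by
  intro h
  have := i.lam6
  rw [h] at this
  norm_num at this

theorem mu_ne : i.mu ≠ 0 := by
  intro h
  have := i.mu3
  rw [h] at this
  norm_num at this

theorem norm_lam : ‖i.lam‖ = 1 := Complex.norm_eq_one_of_pow_eq_one i.lam6 (by norm_num)
theorem norm_mu : ‖i.mu‖ = 1 := Complex.norm_eq_one_of_pow_eq_one i.mu3 (by norm_num)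

theorem isOpen_D : IsOpen i.D := by
  unfold D
  rcases i.kind <;> rcases i.restr <;> simp only
  · exact Complex.isOpen_slitPlane.preimage (by fun_prop)
  · exact Metric.isOpen_ball
  · exact Metric.isOpen_ball
  · exact Metric.isOpen_ball

theorem rel (w : ℂ) : i.g w ^ 3 = 1 + i.f w ^ 6 := by
  unfold f g
  split_ifs
  · have : Complex.I ^ 6 = -1 := by
      rw [show (6 : ℕ) = 4 + 2 by norm_num, pow_add, Complex.I_pow_four, Complex.I_sq, one_mul]
    rw [mul_pow, mul_pow, mul_pow, i.mu3, i.lam6, r6_pow, this]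
    ring
  · rw [mul_pow, mul_pow, i.mu3, i.lam6, r3_pow]
    ring

theorem slit_of_kind_false {w : ℂ} (hw : w ∈ i.D) (hk : i.kind = false) :
    1 + w ^ 6 ∈ Complex.slitPlane := by
  unfold D at hw
  rw [hk] at hw
  rcases h : i.restr
  · rw [h] at hw
    exact hw
  · rw [h] at hw
    simp only [Metric.mem_ball, dist_zero_right] at hw
    apply one_add_mem_slit
    rw [norm_pow]
    exact pow_lt_one₀ (norm_nonneg _) (by linarith) (by norm_num)

theorem slit_of_kind_true {w : ℂ} (hw : w ∈ i.D) (hk : i.kind = true) :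
    1 - w ^ 3 ∈ Complex.slitPlane := by
  unfold D at hw
  rw [hk] at hw
  simp only [Metric.mem_ball, dist_zero_right] at hw
  rw [sub_eq_add_neg]
  apply one_add_mem_slit
  rw [norm_neg, norm_pow]
  exact pow_lt_one₀ (norm_nonneg _) (by linarith) (by norm_num)

theorem analyticAt_f {w : ℂ} (hw : w ∈ i.D) : AnalyticAt ℂ i.f w := by
  unfold f
  rcases hk : i.kind
  · simp only [Bool.false_eq_true, if_false]
    fun_prop
  · simp only [if_true]
    have h : AnalyticAt ℂ (fun w : ℂ => r6 (1 - w ^ 3)) w :=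
      AnalyticAt.fun_comp (g := r6) (f := fun w : ℂ => 1 - w ^ 3)
        (analyticAt_r6 (i.slit_of_kind_true hw hk)) (by fun_prop)
    fun_prop

theorem analyticAt_g {w : ℂ} (hw : w ∈ i.D) : AnalyticAt ℂ i.g w := by
  unfold g
  rcases hk : i.kind
  · simp only [Bool.false_eq_true, if_false]
    have h : AnalyticAt ℂ (fun w : ℂ => r3 (1 + w ^ 6)) w :=
      AnalyticAt.fun_comp (g := r3) (f := fun w : ℂ => 1 + w ^ 6)
        (analyticAt_r3 (i.slit_of_kind_false hw hk)) (by fun_prop)
    fun_prop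
  · simp only [if_true]
    fun_prop

theorem g_ne {w : ℂ} (hw : w ∈ i.D) (hk : i.kind = false) : i.g w ≠ 0 := by
  unfold g
  rw [hk]
  simp only [Bool.false_eq_true, if_false]
  exact mul_ne_zero i.mu_ne (r3_ne (Complex.slitPlane_ne_zero (i.slit_of_kind_false hw hk)))

theorem f_ne {w : ℂ} (hw : w ∈ i.D) (hk : i.kind = true) : i.f w ≠ 0 := by
  unfold f
  rw [hk]
  simp only [if_true]
  exact mul_ne_zero i.lam_ne (mul_ne_zero Complex.I_ne_zero
    (r6_ne (Complex.slitPlane_ne_zero (i.slit_of_kind_true hw hk))))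

/-- parametrisation on the side `z ≠ 0` -/
def p0 (w : ℂ) : C := pt (i.f w) (i.g w) (i.rel w)

def t0 (c : C) : ℂ := if i.kind then Fx c / i.mu else Fy c / i.lam

theorem t0_p0 (w : ℂ) : i.t0 (i.p0 w) = w := by
  have h1 := i.lam_ne
  have h2 := i.mu_ne
  unfold t0 p0
  rw [Fx_pt, Fy_pt]
  unfold f g
  split_ifs <;> field_simp

end Idx

theorem continuousAt_pt {α : Type*} [TopologicalSpace α] {f g : α → ℂ}
    (rel : ∀ w, g w ^ 3 = 1 + f w ^ 6) {w : α} (hf : ContinuousAt f w) (hg : ContinuousAt g w) :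
    ContinuousAt (fun w => pt (f w) (g w) (rel w)) w := by
  have hconj : ContinuousAt (fun w => conj (f w)) w :=
    Complex.continuous_conj.continuousAt.comp hf
  have hns : ContinuousAt (fun w => Complex.normSq (f w)) w :=
    Complex.continuous_normSq.continuousAt.comp hf
  have hne : 1 + Complex.normSq (f w) ≠ 0 := by
    have := Complex.normSq_nonneg (f w)
    positivity
  have hden : ContinuousAt (fun w => 1 + f w * conj (f w)) w := by fun_prop
  rw [ind.continuousAt_iff]
  refine ContinuousAt.prodMk ?_ (ContinuousAt.prodMk ?_ (ContinuousAt.prodMk ?_ ?_))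
  · exact (continuousAt_const.add hns).inv₀ hne
  · exact hf.div hden (den_ne _)
  · exact hg.div (hden.pow 2) (pow_ne_zero _ (den_ne _))
  · exact (hg.mul (hconj.pow 2)).div (hden.pow 2) (pow_ne_zero _ (den_ne _))

theorem continuousAt_Fy {c : C} (h : r c ≠ 0) : ContinuousAt Fy c := by
  have h' : (r c : ℂ) ≠ 0 := by exact_mod_cast h
  exact cont_q.continuousAt.div (Complex.continuous_ofReal.comp cont_r).continuousAt h'

theorem continuousAt_Fx {c : C} (h : r c ≠ 0) : ContinuousAt Fx c := by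
  have h' : (r c : ℂ) ≠ 0 := by exact_mod_cast h
  exact cont_u.continuousAt.div ((Complex.continuous_ofReal.comp cont_r).continuousAt.pow 2)
    (pow_ne_zero _ h')

namespace Idx

variable (i : Idx)

theorem r_p0_ne (w : ℂ) : r (i.p0 w) ≠ 0 := (r_pt_pos _).ne'

theorem continuousAt_p0 {w : ℂ} (hw : w ∈ i.D) : ContinuousAt i.p0 w :=
  continuousAt_pt _ (i.analyticAt_f hw).continuousAt (i.analyticAt_g hw).continuousAt

theorem continuousAt_t0 {c : C} (h : r c ≠ 0) : ContinuousAt i.t0 c := by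
  unfold t0
  rcases i.kind
  · simp only [Bool.false_eq_true, if_false]
    exact (continuousAt_Fy h).div_const _
  · simp only [if_true]
    exact (continuousAt_Fx h).div_const _

theorem ev_p0_t0 {w : ℂ} (hw : w ∈ i.D) :
    ∀ᶠ c in 𝓝 (i.p0 w), i.t0 c ∈ i.D ∧ i.p0 (i.t0 c) = c := by
  have hr : ∀ᶠ c in 𝓝 (i.p0 w), r c ≠ 0 := cont_r.continuousAt.eventually_ne (i.r_p0_ne w)
  have ht : ContinuousAt i.t0 (i.p0 w) := i.continuousAt_t0 (i.r_p0_ne w)
  have ht' : ∀ᶠ c in 𝓝 (i.p0 w), i.t0 c ∈ i.D :=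
    ht.eventually_mem (by rw [i.t0_p0]; exact i.isOpen_D.mem_nhds hw)
  rcases hk : i.kind
  · -- `t0 = Fy / lam`
    have hG : ContinuousAt (fun c => Fx c / i.g (i.t0 c)) (i.p0 w) := by
      have h1 : ContinuousAt (fun c => i.g (i.t0 c)) (i.p0 w) :=
        ContinuousAt.comp' (g := i.g) (by rw [i.t0_p0]; exact (i.analyticAt_g hw).continuousAt) ht
      exact (continuousAt_Fx (i.r_p0_ne w)).div h1 (by rw [i.t0_p0]; exact i.g_ne hw hk)
    have hG1 : Fx (i.p0 w) / i.g (i.t0 (i.p0 w)) = 1 := by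
      rw [i.t0_p0]
      unfold p0
      rw [Fx_pt, div_self (i.g_ne hw hk)]
    have h2 : ∀ᶠ c in 𝓝 (i.p0 w), (Fx c / i.g (i.t0 c)) ^ 3 = 1 → Fx c / i.g (i.t0 c) = 1 := by
      have := ev_eq_one 3 (by norm_num)
      rw [← hG1] at this
      have := hG.eventually this
      rw [hG1] at this
      exact this
    filter_upwards [hr, ht', h2] with c h3 h4 h5
    refine ⟨h4, ?_⟩
    have hf : i.f (i.t0 c) = Fy c := by
      unfold f t0
      rw [hk]
      simp only [Bool.false_eq_true, if_false]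
      have := i.lam_ne
      field_simp
    have hgne := i.g_ne h4 hk
    have h6 := h5 (by
      rw [div_pow, i.rel, C6.rel h3, hf]
      apply div_self
      rw [← hf, ← i.rel]
      exact pow_ne_zero _ hgne)
    rw [div_eq_one_iff_eq hgne] at h6
    conv_rhs => rw [← eq_pt h3]
    exact pt_congr _ _ hf h6.symm
  · -- `t0 = Fx / mu`
    have hG : ContinuousAt (fun c => Fy c / i.f (i.t0 c)) (i.p0 w) := by
      have h1 : ContinuousAt (fun c => i.f (i.t0 c)) (i.p0 w) :=
        ContinuousAt.comp' (g := i.f) (by rw [i.t0_p0]; exact (i.analyticAt_f hw).continuousAt) ht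
      exact (continuousAt_Fy (i.r_p0_ne w)).div h1 (by rw [i.t0_p0]; exact i.f_ne hw hk)
    have hG1 : Fy (i.p0 w) / i.f (i.t0 (i.p0 w)) = 1 := by
      rw [i.t0_p0]
      unfold p0
      rw [Fy_pt, div_self (i.f_ne hw hk)]
    have h2 : ∀ᶠ c in 𝓝 (i.p0 w), (Fy c / i.f (i.t0 c)) ^ 6 = 1 → Fy c / i.f (i.t0 c) = 1 := by
      have := ev_eq_one 6 (by norm_num)
      rw [← hG1] at this
      have := hG.eventually this
      rw [hG1] at this
      exact this
    filter_upwards [hr, ht', h2] with c h3 h4 h5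
    refine ⟨h4, ?_⟩
    have hg : i.g (i.t0 c) = Fx c := by
      unfold g t0
      rw [hk]
      simp only [if_true]
      have := i.mu_ne
      field_simp
    have hfne := i.f_ne h4 hk
    have h6 := h5 (by
      have e1 : Fy c ^ 6 = Fx c ^ 3 - 1 := by rw [C6.rel h3]; ring
      have e2 : i.f (i.t0 c) ^ 6 = Fx c ^ 3 - 1 := by rw [← hg, i.rel]; ring
      rw [div_pow, e1, ← e2]
      exact div_self (pow_ne_zero _ hfne))
    rw [div_eq_one_iff_eq hfne] at h6
    conv_rhs => rw [← eq_pt h3]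
    exact pt_congr _ _ h6.symm hg

end Idx

/-- `swap` or identity -/
def sg (b : Bool) (c : C) : C := if b then swap c else c

theorem sg_sg (b : Bool) (c : C) : sg b (sg b c) = c := by
  unfold sg
  rcases b
  · rfl
  · exact swap_swap c

theorem cont_sg (b : Bool) : Continuous (sg b) := by
  unfold sg
  rcases b
  · exact continuous_id
  · exact cont_swap

namespace Idx

variable (i : Idx)

def p (w : ℂ) : C := sg i.side (i.p0 w)
def t (c : C) : ℂ := i.t0 (sg i.side c)

theorem t_p (w : ℂ) : i.t (i.p w) = w := by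
  unfold t p; rw [sg_sg, i.t0_p0]

theorem continuousAt_p {w : ℂ} (hw : w ∈ i.D) : ContinuousAt i.p w :=
  ContinuousAt.comp' (g := sg i.side) (cont_sg _).continuousAt (i.continuousAt_p0 hw)

theorem continuousAt_t (w : ℂ) : ContinuousAt i.t (i.p w) := by
  apply ContinuousAt.comp' (g := i.t0) _ (cont_sg _).continuousAt
  unfold p
  rw [sg_sg]
  exact i.continuousAt_t0 (i.r_p0_ne w)

theorem ev_p_t {w : ℂ} (hw : w ∈ i.D) :
    ∀ᶠ c in 𝓝 (i.p w), i.t c ∈ i.D ∧ i.p (i.t c) = c := by
  have h1 : Filter.Tendsto (sg i.side) (𝓝 (i.p w)) (𝓝 (i.p0 w)) := by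
    have := (cont_sg i.side).tendsto (i.p w)
    unfold p at this ⊢
    rwa [sg_sg] at this
  filter_upwards [h1.eventually (i.ev_p0_t0 hw)] with c hc
  refine ⟨hc.1, ?_⟩
  unfold p t
  rw [hc.2, sg_sg]

theorem p_inj : Function.Injective i.p := Function.LeftInverse.injective i.t_p

theorem p_open {W : Set ℂ} (hW : IsOpen W) (hWD : W ⊆ i.D) : IsOpen (i.p '' W) := by
  rw [isOpen_iff_mem_nhds]
  rintro _ ⟨w, hw, rfl⟩
  have h1 : ∀ᶠ c in 𝓝 (i.p w), i.t c ∈ W :=
    (i.continuousAt_t w).eventually_mem (by rw [i.t_p]; exact hW.mem_nhds hw)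
  filter_upwards [h1, i.ev_p_t (hWD hw)] with c h2 h3
  exact ⟨i.t c, h2, h3.2⟩

end Idx


/-! ### transitions -/

theorem sg_comp (b b' : Bool) (c : C) : sg b (sg b' c) = sg (xor b b') c := by
  unfold sg
  rcases b <;> rcases b' <;> simp [swap_swap]

/-- first coordinate in the same or in the opposite affine part -/
def FF (b : Bool) (y : ℂ) : ℂ := if b then y⁻¹ else y
/-- second coordinate in the same or in the opposite affine part -/
def GG (b : Bool) (y x : ℂ) : ℂ := if b then x / y ^ 2 else x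

theorem Fy_sg_pt (b : Bool) {y x : ℂ} (h : x ^ 3 = 1 + y ^ 6) :
    Fy (sg b (pt y x h)) = FF b y := by
  unfold sg FF
  rcases b
  · simpa using Fy_pt h
  · simpa using Fy_swap_pt h

theorem Fx_sg_pt (b : Bool) {y x : ℂ} (h : x ^ 3 = 1 + y ^ 6) :
    Fx (sg b (pt y x h)) = GG b y x := by
  unfold sg GG
  rcases b
  · simpa using Fx_pt h
  · simpa using Fx_swap_pt h

def c1 (b : Bool) (t : ℂ) : ℂ := if b then conj t else t
def c2 (b : Bool) (t : ℂ) : ℂ := if b then conj t ^ 2 else 1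

theorem norm_c1 (b : Bool) {t : ℂ} (ht : t ^ 6 = 1) : ‖c1 b t‖ = 1 := by
  unfold c1
  have := Complex.norm_eq_one_of_pow_eq_one ht (by norm_num)
  rcases b <;> simp [this]

theorem norm_c2 (b : Bool) {t : ℂ} (ht : t ^ 6 = 1) : ‖c2 b t‖ = 1 := by
  unfold c2
  have := Complex.norm_eq_one_of_pow_eq_one ht (by norm_num)
  rcases b <;> simp [this]

theorem Fy_sg_rot (b : Bool) {t : ℂ} (ht : t ^ 6 = 1) (c : C) :
    Fy (sg b (rot t ht c)) = c1 b t * Fy (sg b c) := by
  unfold sg c1
  rcases b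
  · simpa using Fy_rot ht c
  · simpa using Fy_swap_rot ht c

theorem Fx_sg_rot (b : Bool) {t : ℂ} (ht : t ^ 6 = 1) (c : C) :
    Fx (sg b (rot t ht c)) = c2 b t * Fx (sg b c) := by
  unfold sg c2
  rcases b
  · simpa using Fx_rot ht c
  · simpa using Fx_swap_rot ht c

theorem r_swap_pt_ne {y x : ℂ} (h : x ^ 3 = 1 + y ^ 6) (hr : r (swap (pt y x h)) ≠ 0) :
    y ≠ 0 := by
  rintro rfl
  apply hr
  rw [r_swap, r_pt]
  simp

theorem r_sg_rot (b : Bool) {t : ℂ} (ht : t ^ 6 = 1) (c : C) :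
    r (sg b (rot t ht c)) = r (sg b c) := by
  unfold sg
  rcases b <;> rfl

namespace Idx

variable (i j : Idx)

theorem trans_rel {t : ℂ} (ht : t ^ 6 = 1) {w w' : ℂ} (h : j.p w' = rot t ht (i.p w)) :
    j.f w' = c1 j.side t * FF (xor j.side i.side) (i.f w) ∧
    j.g w' = c2 j.side t * GG (xor j.side i.side) (i.f w) (i.g w) ∧
    (xor j.side i.side = true → i.f w ≠ 0) := by
  have h0 : j.p0 w' = sg j.side (j.p w') := by unfold p; rw [sg_sg]
  have h1 : sg j.side (i.p w) = sg (xor j.side i.side) (i.p0 w) := by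
    unfold p; rw [sg_comp]
  refine ⟨?_, ?_, ?_⟩
  · have : j.f w' = Fy (j.p0 w') := by unfold p0; rw [Fy_pt]
    rw [this, h0, h, Fy_sg_rot, h1]
    unfold p0
    rw [Fy_sg_pt]
  · have : j.g w' = Fx (j.p0 w') := by unfold p0; rw [Fx_pt]
    rw [this, h0, h, Fx_sg_rot, h1]
    unfold p0
    rw [Fx_sg_pt]
  · intro hb
    have h2 := j.r_p0_ne w'
    rw [h0, h, r_sg_rot, h1, hb] at h2
    exact r_swap_pt_ne _ h2

theorem t_rot {t : ℂ} (ht : t ^ 6 = 1) (x : ℂ) :
    j.t (rot t ht (i.p x)) = if j.kind then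
      c2 j.side t * GG (xor j.side i.side) (i.f x) (i.g x) / j.mu
      else c1 j.side t * FF (xor j.side i.side) (i.f x) / j.lam := by
  have h1 : sg j.side (i.p x) = sg (xor j.side i.side) (i.p0 x) := by
    unfold p; rw [sg_comp]
  unfold Idx.t t0
  split_ifs
  · rw [Fx_sg_rot, h1]
    unfold p0
    rw [Fx_sg_pt]
  · rw [Fy_sg_rot, h1]
    unfold p0
    rw [Fy_sg_pt]

theorem analyticAt_FF {b : Bool} {w : ℂ} (hw : w ∈ i.D) (hb : b = true → i.f w ≠ 0) :
    AnalyticAt ℂ (fun x => FF b (i.f x)) w := by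
  unfold FF
  rcases b
  · simpa using i.analyticAt_f hw
  · simp only [if_true]
    exact (i.analyticAt_f hw).inv (hb rfl)

theorem analyticAt_GG {b : Bool} {w : ℂ} (hw : w ∈ i.D) (hb : b = true → i.f w ≠ 0) :
    AnalyticAt ℂ (fun x => GG b (i.f x) (i.g x)) w := by
  unfold GG
  rcases b
  · simpa using i.analyticAt_g hw
  · simp only [if_true]
    exact (i.analyticAt_g hw).div ((i.analyticAt_f hw).pow 2) (pow_ne_zero 2 (hb rfl))

theorem hol {t : ℂ} (ht : t ^ 6 = 1) {w w' : ℂ} (hw : w ∈ i.D) (hw' : w' ∈ j.D)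
    (h : j.p w' = rot t ht (i.p w)) :
    ∃ h : ℂ → ℂ, AnalyticAt ℂ h w ∧ h w = w' ∧ ∀ᶠ x in 𝓝 w, j.p (h x) = rot t ht (i.p x) := by
  refine ⟨fun x => j.t (rot t ht (i.p x)), ?_, ?_, ?_⟩
  · have hb := (trans_rel i j ht h).2.2
    have h1 := i.analyticAt_FF hw hb
    have h2 := i.analyticAt_GG hw hb
    simp_rw [t_rot]
    split_ifs
    · exact (analyticAt_const.mul h2).div_const
    · exact (analyticAt_const.mul h1).div_const
  · simp only
    rw [← h, j.t_p]
  · have h1 : Filter.Tendsto (fun x => rot t ht (i.p x)) (𝓝 w) (𝓝 (j.p w')) := by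
      rw [h]
      exact ContinuousAt.comp' (g := rot t ht) (cont_rot ht).continuousAt (i.continuousAt_p hw)
    filter_upwards [h1.eventually (j.ev_p_t hw')] with x hx
    exact hx.2

/-! ### forms -/

/-- the coefficient of the residue form -/
def om (w : ℂ) : ℂ := if i.kind then (2 * i.f w ^ 5)⁻¹ else (i.g w ^ 2)⁻¹

theorem om_ne {w : ℂ} (hw : w ∈ i.D) : i.om w ≠ 0 := by
  unfold om
  rcases hk : i.kind
  · simpa using i.g_ne hw hk
  · simpa using i.f_ne hw hk

theorem analyticAt_om {w : ℂ} (hw : w ∈ i.D) : AnalyticAt ℂ i.om w := by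
  unfold om
  rcases hk : i.kind
  · simp only [Bool.false_eq_true, if_false]
    exact ((i.analyticAt_g hw).pow 2).inv (pow_ne_zero _ (i.g_ne hw hk))
  · simp only [if_true]
    exact (analyticAt_const.mul ((i.analyticAt_f hw).pow 5)).inv
      (mul_ne_zero two_ne_zero (pow_ne_zero _ (i.f_ne hw hk)))

theorem deriv_rel {w : ℂ} (hw : w ∈ i.D) :
    i.g w ^ 2 * deriv i.g w = 2 * i.f w ^ 5 * deriv i.f w := by
  have hf := (i.analyticAt_f hw).differentiableAt.hasDerivAt
  have hg := (i.analyticAt_g hw).differentiableAt.hasDerivAt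
  have h1 := hg.fun_pow 3
  have h2 := (hf.fun_pow 6).const_add 1
  have h3 : (fun x => i.g x ^ 3) = fun x => 1 + i.f x ^ 6 := funext i.rel
  rw [h3] at h1
  have := h1.unique h2
  norm_num at this
  linear_combination this / 3

theorem deriv_f_eq {w : ℂ} (hw : w ∈ i.D) :
    ‖deriv i.f w‖ = ‖i.om w‖ * ‖i.g w‖ ^ 2 := by
  unfold om
  rcases hk : i.kind
  · have h1 : deriv i.f w = i.lam := by
      have : i.f = fun x => i.lam * x := by
        funext x; unfold f; rw [hk]; simp
      rw [this]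
      simp
    have h2 : ‖i.g w‖ ≠ 0 := norm_ne_zero_iff.mpr (i.g_ne hw hk)
    simp only [Bool.false_eq_true, if_false]
    rw [h1, i.norm_lam, norm_inv, norm_pow]
    field_simp
  · have h2 : ‖i.f w‖ ≠ 0 := norm_ne_zero_iff.mpr (i.f_ne hw hk)
    have h3 := i.deriv_rel hw
    have h1 : deriv i.g w = i.mu := by
      have : i.g = fun x => i.mu * x := by
        funext x; unfold g; rw [hk]; simp
      rw [this]
      simp
    have h4 := congrArg norm h3
    simp only [norm_mul, norm_pow, h1, i.norm_mu, mul_one, RCLike.norm_ofNat] at h4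
    simp only [if_true]
    rw [norm_inv, norm_mul, norm_pow, RCLike.norm_ofNat, h4]
    field_simp

theorem deriv_g_eq {w : ℂ} (hw : w ∈ i.D) :
    ‖deriv i.g w‖ = ‖i.om w‖ * (2 * ‖i.f w‖ ^ 5) := by
  unfold om
  rcases hk : i.kind
  · have h2 : ‖i.g w‖ ≠ 0 := norm_ne_zero_iff.mpr (i.g_ne hw hk)
    have h3 := i.deriv_rel hw
    have h1 : deriv i.f w = i.lam := by
      have : i.f = fun x => i.lam * x := by
        funext x; unfold f; rw [hk]; simp
      rw [this]
      simp
    have h4 := congrArg norm h3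
    simp only [norm_mul, norm_pow, h1, i.norm_lam, mul_one, RCLike.norm_ofNat] at h4
    simp only [Bool.false_eq_true, if_false]
    rw [norm_inv, norm_pow, ← h4]
    field_simp
  · have h2 : ‖i.f w‖ ≠ 0 := norm_ne_zero_iff.mpr (i.f_ne hw hk)
    have h1 : deriv i.g w = i.mu := by
      have : i.g = fun x => i.mu * x := by
        funext x; unfold g; rw [hk]; simp
      rw [this]
      simp
    simp only [if_true]
    rw [h1, i.norm_mu, norm_inv, norm_mul, norm_pow, RCLike.norm_ofNat]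
    field_simp

/-- transformation of the residue form -/
theorem om_trans {t : ℂ} (ht : t ^ 6 = 1) {w w' : ℂ} (hw : w ∈ i.D) (hw' : w' ∈ j.D)
    (h : j.p w' = rot t ht (i.p w)) {k : ℂ → ℂ} (hk : AnalyticAt ℂ k w) (hkw : k w = w')
    (he : ∀ᶠ x in 𝓝 w, j.p (k x) = rot t ht (i.p x)) :
    ‖i.om w‖ * (if xor j.side i.side then ‖i.f w‖ ^ 2 else 1) = ‖deriv k w‖ * ‖j.om w'‖ := by
  obtain ⟨hf, hg, hb⟩ := trans_rel i j ht h
  have ef : (fun x => j.f (k x)) =ᶠ[𝓝 w] fun x => c1 j.side t * FF (xor j.side i.side) (i.f x) := by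
    filter_upwards [he] with x hx using (trans_rel i j ht hx).1
  have eg : (fun x => j.g (k x)) =ᶠ[𝓝 w]
      fun x => c2 j.side t * GG (xor j.side i.side) (i.f x) (i.g x) := by
    filter_upwards [he] with x hx using (trans_rel i j ht hx).2.1
  have hkd := hk.differentiableAt.hasDerivAt
  have hjf : HasDerivAt j.f (deriv j.f w') (k w) := by
    rw [hkw]; exact (j.analyticAt_f hw').differentiableAt.hasDerivAt
  have hjg : HasDerivAt j.g (deriv j.g w') (k w) := by
    rw [hkw]; exact (j.analyticAt_g hw').differentiableAt.hasDerivAt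
  have hif := (i.analyticAt_f hw).differentiableAt.hasDerivAt
  have hig := (i.analyticAt_g hw).differentiableAt.hasDerivAt
  have d1 : HasDerivAt (fun x => j.f (k x)) (deriv j.f w' * deriv k w) w := hjf.comp w hkd
  have d2 : HasDerivAt (fun x => j.g (k x)) (deriv j.g w' * deriv k w) w := hjg.comp w hkd
  have n1 := norm_c1 j.side ht
  have n2 := norm_c2 j.side ht
  have F1 := i.deriv_f_eq hw
  have F2 := j.deriv_f_eq hw'
  have G1 := i.deriv_g_eq hw
  have G2 := j.deriv_g_eq hw'
  rcases hxor : (xor j.side i.side)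
  · -- same side
    rw [hxor] at hf hg ef eg
    simp only [FF, GG, Bool.false_eq_true, if_false] at hf hg ef eg
    have nf : ‖j.f w'‖ = ‖i.f w‖ := by rw [hf, norm_mul, n1, one_mul]
    have ng : ‖j.g w'‖ = ‖i.g w‖ := by rw [hg, norm_mul, n2, one_mul]
    have D1 : deriv j.f w' * deriv k w = c1 j.side t * deriv i.f w :=
      d1.unique ((hif.const_mul _).congr_of_eventuallyEq ef)
    have D2 : deriv j.g w' * deriv k w = c2 j.side t * deriv i.g w :=
      d2.unique ((hig.const_mul _).congr_of_eventuallyEq eg)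
    have N1 := congrArg norm D1
    have N2 := congrArg norm D2
    rw [norm_mul, norm_mul, n1, one_mul, F1, F2, ng] at N1
    rw [norm_mul, norm_mul, n2, one_mul, G1, G2, nf] at N2
    simp only [Bool.false_eq_true, if_false, mul_one]
    by_cases hg0 : i.g w = 0
    · have hf0 : ‖i.f w‖ ≠ 0 := by
        rw [norm_ne_zero_iff]
        intro hf0
        have := i.rel w
        rw [hg0, hf0] at this
        norm_num at this
      have : 2 * ‖i.f w‖ ^ 5 ≠ 0 := by positivity
      apply mul_right_cancel₀ this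
      linear_combination -N2
    · have hg1 : ‖i.g w‖ ^ 2 ≠ 0 := pow_ne_zero _ (norm_ne_zero_iff.mpr hg0)
      apply mul_right_cancel₀ hg1
      linear_combination -N1
  · -- opposite side
    rw [hxor] at hf hg ef eg
    simp only [FF, GG, if_true] at hf hg ef eg
    have hf0 := hb hxor
    have hf1 : ‖i.f w‖ ≠ 0 := norm_ne_zero_iff.mpr hf0
    have nf : ‖j.f w'‖ = ‖i.f w‖⁻¹ := by rw [hf, norm_mul, n1, one_mul, norm_inv]
    have ng : ‖j.g w'‖ = ‖i.g w‖ / ‖i.f w‖ ^ 2 := by
      rw [hg, norm_mul, n2, one_mul, norm_div, norm_pow]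
    have D1 : deriv j.f w' * deriv k w = c1 j.side t * (-deriv i.f w / i.f w ^ 2) :=
      d1.unique (((hif.fun_inv hf0).const_mul _).congr_of_eventuallyEq ef)
    have D2 : deriv j.g w' * deriv k w = c2 j.side t *
        ((deriv i.g w * i.f w ^ 2 - i.g w * (2 * i.f w * deriv i.f w)) / (i.f w ^ 2) ^ 2) := by
      have := (hig.fun_div (hif.fun_pow 2) (pow_ne_zero 2 hf0)).const_mul (c2 j.side t)
      refine d2.unique ((this.congr_of_eventuallyEq eg).congr_deriv ?_)
      norm_num
    have N1 := congrArg norm D1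
    have N2 := congrArg norm D2
    rw [norm_mul, norm_mul, n1, one_mul, norm_div, norm_neg, norm_pow, F1, F2, ng] at N1
    simp only [if_true]
    by_cases hg0 : i.g w = 0
    · have hf6 : ‖i.f w‖ = 1 := by
        have h6 := i.rel w
        rw [hg0] at h6
        have h7 : i.f w ^ 6 = -1 := by linear_combination -h6
        have h8 := congrArg norm h7
        rw [norm_pow, norm_neg, norm_one] at h8
        exact (pow_eq_one_iff_of_nonneg (norm_nonneg _) (by norm_num)).mp h8
      rw [hg0, zero_mul, sub_zero, norm_mul, norm_mul, n2, one_mul, norm_div, norm_mul, norm_pow,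
        norm_pow, G1, G2, nf, norm_pow, hf6] at N2
      rw [hf6]
      norm_num at N2 ⊢
      linear_combination -N2 / 2
    · have hg1 : ‖i.g w‖ ≠ 0 := norm_ne_zero_iff.mpr hg0
      field_simp at N1
      linear_combination -N1

end Idx


/-! ### harmonicity -/

theorem lap_log_normSq {φ : ℂ → ℂ} {w : ℂ} (hφ : AnalyticAt ℂ φ w) (h0 : φ w ≠ 0) :
    lap (fun u => Real.log (Complex.normSq (φ u))) w = 0 := by
  have h1 : InnerProductSpace.HarmonicAt (fun u => Real.log (Complex.normSq (φ u))) w := by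
    have h2 := (hφ.harmonicAt_log_norm h0).const_smul (c := (2 : ℝ))
    have h3 : ((2 : ℝ) • fun u => Real.log ‖φ u‖) =
        fun u => Real.log (Complex.normSq (φ u)) := by
      funext u
      simp only [Pi.smul_apply, smul_eq_mul]
      rw [Complex.normSq_eq_norm_sq, Real.log_pow]
      norm_num
    rw [h3] at h2
    exact h2
  obtain ⟨h2, h3⟩ := h1
  have h4 := h3.self_of_nhds
  rw [InnerProductSpace.laplacian_eq_iteratedFDeriv_complexPlane] at h4
  simp only [iteratedFDeriv_two_apply, Pi.zero_apply] at h4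
  have hd : DifferentiableAt ℝ (fderiv ℝ fun u => Real.log (Complex.normSq (φ u))) w :=
    (h2.fderiv_right (m := 1) (by norm_num)).differentiableAt (by norm_num)
  have e : ∀ v : ℂ, fderiv ℝ (fun u => fderiv ℝ (fun u => Real.log (Complex.normSq (φ u))) u v) w v
      = fderiv ℝ (fderiv ℝ fun u => Real.log (Complex.normSq (φ u))) w v v := by
    intro v
    rw [fderiv_clm_apply hd (differentiableAt_const v)]
    simp
  unfold lap
  rw [e, e]
  simpa using h4

theorem contDiffAt_normSq {φ : ℂ → ℂ} {w : ℂ} (hφ : AnalyticAt ℂ φ w) :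
    ContDiffAt ℝ ∞ (fun u => Complex.normSq (φ u)) w := by
  have h1 : ContDiffAt ℝ ∞ φ w := (hφ.contDiffAt (n := ∞)).restrict_scalars ℝ
  have h2 : ContDiff ℝ ∞ fun z : ℂ => Complex.normSq z := by
    have : (fun z : ℂ => Complex.normSq z) = fun z => Complex.reCLM z * Complex.reCLM z +
        Complex.imCLM z * Complex.imCLM z := by
      funext z; simp [Complex.normSq_apply]
    rw [this]
    fun_prop
  exact h2.contDiffAt.comp w h1

/-! ### connectedness -/

theorem joined_pt {f g : unitInterval → ℂ} (rel : ∀ w, g w ^ 3 = 1 + f w ^ 6)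
    (hf : Continuous f) (hg : Continuous g) :
    Joined (pt (f 0) (g 0) (rel 0)) (pt (f 1) (g 1) (rel 1)) :=
  ⟨⟨⟨fun w => pt (f w) (g w) (rel w), continuous_iff_continuousAt.mpr fun _ =>
    continuousAt_pt rel hf.continuousAt hg.continuousAt⟩, rfl, rfl⟩⟩

theorem continuousAt_r3 {z : ℂ} (hz : 0 ≤ z.re ∨ z.im ≠ 0) : ContinuousAt r3 z :=
  Complex.continuousAt_cpow_const_of_re_pos hz (by
    rw [← Complex.ofReal_natCast, ← Complex.ofReal_inv, Complex.ofReal_re]; norm_num)

theorem continuousAt_r6 {z : ℂ} (hz : 0 ≤ z.re ∨ z.im ≠ 0) : ContinuousAt r6 z :=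
  Complex.continuousAt_cpow_const_of_re_pos hz (by
    rw [← Complex.ofReal_natCast, ← Complex.ofReal_inv, Complex.ofReal_re]; norm_num)

theorem r3_one : r3 1 = 1 := by unfold r3; simp
theorem r6_one : r6 1 = 1 := by unfold r6; simp

theorem r3_zero : r3 0 = 0 := by
  unfold r3; rw [Complex.zero_cpow]; norm_num

/-- sheets -/
theorem joined_sheet {y mu : ℂ} (hmu : mu ^ 3 = 1) (hy : 0 ≤ (1 + y ^ 6).re ∨ (1 + y ^ 6).im ≠ 0)
    (h0 : mu ^ 3 = 1 + 0 ^ 6) (h1 : (mu * r3 (1 + y ^ 6)) ^ 3 = 1 + y ^ 6) :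
    Joined (pt 0 mu h0) (pt y (mu * r3 (1 + y ^ 6)) h1) := by
  have key := joined_pt (f := fun t : unitInterval => ((t : ℝ) : ℂ) * y)
    (g := fun t : unitInterval => mu * r3 (1 + (((t : ℝ) : ℂ) * y) ^ 6)) (by
      intro w
      rw [mul_pow, hmu, r3_pow, one_mul]) (by fun_prop) (by
      rw [continuous_iff_continuousAt]
      intro t
      refine continuousAt_const.mul ?_
      refine ContinuousAt.comp' (g := r3) (continuousAt_r3 ?_) (by fun_prop)
      have e : 1 + (((t : ℝ) : ℂ) * y) ^ 6 = ((1 - (t : ℝ) ^ 6 : ℝ) : ℂ) +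
        (((t : ℝ) ^ 6 : ℝ) : ℂ) * (1 + y ^ 6) := by push_cast; ring
      have ht0 : (0 : ℝ) ≤ (t : ℝ) := t.2.1
      have ht1 : (t : ℝ) ≤ 1 := t.2.2
      have ht6 : (t : ℝ) ^ 6 ≤ 1 := pow_le_one₀ ht0 ht1
      rw [e]
      rcases hy with hy | hy
      · left
        simp only [Complex.add_re, Complex.ofReal_re, Complex.re_ofReal_mul]
        have : 0 ≤ (t : ℝ) ^ 6 * (1 + y ^ 6).re := by positivity
        simp only [Complex.add_re] at this
        linarith
      · rcases ht0.eq_or_lt with h | h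
        · left
          rw [← h]
          simp
        · right
          simp only [Complex.add_im, Complex.ofReal_im, Complex.im_ofReal_mul, zero_add]
          simp only [Complex.add_im] at hy
          positivity)
  convert key using 2
  · simp
  · simp [r3_one]
  · simp
  · simp

theorem pt_surj_sheet {y x : ℂ} (h : x ^ 3 = 1 + y ^ 6) (hy : 1 + y ^ 6 ≠ 0) :
    ∃ mu : ℂ, mu ^ 3 = 1 ∧ x = mu * r3 (1 + y ^ 6) := by
  have h3 := r3_ne hy
  refine ⟨x / r3 (1 + y ^ 6), ?_, by field_simp⟩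
  rw [div_pow, r3_pow, h, div_self hy]

theorem one_rel : (1 : ℂ) ^ 3 = 1 + 0 ^ 6 := by norm_num

/-- the points over `y = 0` are joined -/
theorem joined_zero {mu : ℂ} (hmu : mu ^ 3 = 1) (h0 : mu ^ 3 = 1 + 0 ^ 6) :
    Joined (pt 0 mu h0) (pt 0 1 one_rel) := by
  have hI : 1 + Complex.I ^ 6 = 0 := by
    rw [show (6 : ℕ) = 4 + 2 by norm_num, pow_add, Complex.I_pow_four, Complex.I_sq]
    norm_num
  have key : ∀ nu : ℂ, nu ^ 3 = 1 → ∀ h0 : nu ^ 3 = 1 + 0 ^ 6,
      Joined (pt 0 nu h0) (pt Complex.I 0 (by rw [hI]; norm_num)) := by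
    intro nu hnu h0
    have h1 : (nu * r3 (1 + Complex.I ^ 6)) ^ 3 = 1 + Complex.I ^ 6 := by
      rw [mul_pow, hnu, r3_pow, one_mul]
    have := joined_sheet hnu (y := Complex.I) (by rw [hI]; left; simp) h0 h1
    convert this using 2
    rw [hI, r3_zero, mul_zero]
  exact (key mu hmu h0).trans (key 1 (by norm_num) one_rel).symm

theorem joined_good {y x : ℂ} (h : x ^ 3 = 1 + y ^ 6)
    (hy : 0 ≤ (1 + y ^ 6).re ∨ (1 + y ^ 6).im ≠ 0) :
    Joined (pt y x h) (pt 0 1 one_rel) := by
  obtain ⟨mu, hmu, hx⟩ : ∃ mu : ℂ, mu ^ 3 = 1 ∧ x = mu * r3 (1 + y ^ 6) := by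
    by_cases h0 : 1 + y ^ 6 = 0
    · refine ⟨1, by norm_num, ?_⟩
      rw [h0, r3_zero, mul_zero]
      rw [h0] at h
      simpa using h
    · exact pt_surj_sheet h h0
  subst hx
  have h0 : mu ^ 3 = 1 + 0 ^ 6 := by rw [hmu]; norm_num
  exact (joined_sheet hmu hy h0 h).symm.trans (joined_zero hmu h0)

theorem joined_base {y x : ℂ} (h : x ^ 3 = 1 + y ^ 6) :
    Joined (pt y x h) (pt 0 1 one_rel) := by
  by_cases hy : 0 ≤ (1 + y ^ 6).re ∨ (1 + y ^ 6).im ≠ 0
  · exact joined_good h hy
  · push Not at hy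
    obtain ⟨hre, him⟩ := hy
    set s : ℝ := -(1 + y ^ 6).re with hs
    have hs0 : 0 < s := by rw [hs]; linarith
    have hys : 1 + y ^ 6 = -(s : ℂ) := by
      apply Complex.ext
      · rw [Complex.neg_re, Complex.ofReal_re, hs]; ring
      · rw [Complex.neg_im, Complex.ofReal_im, him]; ring
    have hs1 : ((1 + s : ℝ) : ℂ) ≠ 0 := by
      have : (1 + s : ℝ) ≠ 0 := by positivity
      exact_mod_cast this
    have rel : ∀ t : unitInterval, (x * r3 (((t : ℝ) : ℂ))) ^ 3 =
        1 + (y * r6 (((1 + (t : ℝ) * s) / (1 + s) : ℝ) : ℂ)) ^ 6 := by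
      intro t
      rw [mul_pow, mul_pow, r3_pow, r6_pow, h]
      have hy6 : y ^ 6 = -((1 + s : ℝ) : ℂ) := by
        push_cast
        linear_combination hys
      rw [hys, hy6]
      push_cast at hs1 ⊢
      field_simp
      ring
    have key := joined_pt (f := fun t : unitInterval => y * r6 (((1 + (t : ℝ) * s) / (1 + s) : ℝ) : ℂ))
      (g := fun t : unitInterval => x * r3 (((t : ℝ) : ℂ))) rel (by
        rw [continuous_iff_continuousAt]
        intro t
        refine continuousAt_const.mul ?_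
        refine ContinuousAt.comp' (g := r6) (continuousAt_r6 (Or.inl ?_)) ?_
        · rw [Complex.ofReal_re]
          have := t.2.1
          positivity
        · exact (Complex.continuous_ofReal.comp (by fun_prop)).continuousAt) (by
        rw [continuous_iff_continuousAt]
        intro t
        refine continuousAt_const.mul ?_
        refine ContinuousAt.comp' (g := r3) (continuousAt_r3 (Or.inl ?_)) ?_
        · rw [Complex.ofReal_re]
          exact t.2.1
        · exact (Complex.continuous_ofReal.comp continuous_subtype_val).continuousAt)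
    have k1 : Joined (pt y x h)
        (pt (y * r6 (((1 + ((0 : unitInterval) : ℝ) * s) / (1 + s) : ℝ) : ℂ))
          (x * r3 ((((0 : unitInterval) : ℝ) : ℂ))) (rel 0)) := by
      convert key.symm using 2
      · simp only [Set.Icc.coe_one, one_mul]
        rw [div_self (by positivity), Complex.ofReal_one, r6_one, mul_one]
      · simp [r3_one]
    refine k1.trans (joined_good _ (Or.inl ?_))
    have := rel 0
    simp only [Set.Icc.coe_zero, Complex.ofReal_zero, r3_zero, mul_zero] at this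
    simp only [Set.Icc.coe_zero]
    rw [← this]
    simp

theorem joined_all (c : C) : Joined c (pt 0 1 one_rel) := by
  by_cases hr : r c = 0
  · have hr' : r (swap c) ≠ 0 := by rw [r_swap, hr]; norm_num
    have hq : q c = 0 := by
      have := normSq_q c
      rw [hr, zero_mul] at this
      exact Complex.normSq_eq_zero.mp this
    have hy : Fy (swap c) = 0 := by
      unfold Fy; rw [q_swap, hq, map_zero, zero_div]
    set b := Fx (swap c) with hb
    have hb3 : b ^ 3 = 1 + 0 ^ 6 := by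
      have := rel hr'
      rwa [hy] at this
    have e0 : swap c = pt 0 b hb3 := by
      conv_lhs => rw [← eq_pt hr']
      exact pt_congr _ _ hy rfl
    have h1 : (b * r3 (1 + (1 : ℂ) ^ 6)) ^ 3 = 1 + 1 ^ 6 := by
      rw [mul_pow, hb3, r3_pow]; norm_num
    have key := joined_sheet (y := 1) (mu := b) (by rw [hb3]; norm_num)
      (Or.inl (by norm_num)) hb3 h1
    have key2 := key.map cont_swap
    rw [← e0, swap_swap] at key2
    refine key2.trans ?_
    have hr2 : r (swap (pt 1 (b * r3 (1 + (1 : ℂ) ^ 6)) h1)) ≠ 0 := by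
      rw [r_swap, r_pt]; simp; norm_num
    rw [← eq_pt hr2]
    exact joined_base _
  · rw [← eq_pt hr]
    exact joined_base _

instance : PathConnectedSpace C where
  nonempty := ⟨pt 0 1 one_rel⟩
  joined x y := (joined_all x).trans (joined_all y).symm


/-! ### the base curve -/

theorem iter_rot {t : ℂ} (ht : t ^ 6 = 1) (k : ℕ) (c : C) :
    (rot t ht)^[k] c = rot (t ^ k) (by rw [← pow_mul, mul_comm, pow_mul, ht, one_pow]) c := by
  induction k with
  | zero =>
    simp only [Function.iterate_zero, id_eq, pow_zero]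
    exact (rot_one c).symm
  | succ k ih =>
    rw [Function.iterate_succ_apply', ih, rot_rot]
    congr 1
    rw [pow_succ']

theorem zeta6 : (zetaN 6) ^ 6 = 1 := by
  unfold zetaN
  rw [← Complex.exp_nat_mul]
  have : ((6 : ℕ) : ℂ) * (2 * Real.pi * Complex.I / (6 : ℕ)) = 2 * Real.pi * Complex.I := by
    push_cast; ring
  rw [this, Complex.exp_two_pi_mul_I]

theorem zeta_prim : IsPrimitiveRoot (zetaN 6) 6 := by
  have := Complex.isPrimitiveRoot_exp 6 (by norm_num)
  exact this

abbrev M3 := {z : ℂ // z ∈ Polynomial.nthRootsFinset 3 (1 : ℂ)}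

theorem M3.pow (m : M3) : (m : ℂ) ^ 3 = 1 := (Polynomial.mem_nthRootsFinset (by norm_num) 1).mp m.2

def M3.mk' (z : ℂ) (h : z ^ 3 = 1) : M3 := ⟨z, (Polynomial.mem_nthRootsFinset (by norm_num) 1).mpr h⟩

/-- the index of a special chart -/
def ch (σ : Bool × M3) : Idx where
  side := σ.1
  kind := false
  restr := true
  lam := if σ.1 then σ.2 else 1
  lam6 := by
    split_ifs
    · rw [show (6 : ℕ) = 3 * 2 by norm_num, pow_mul, M3.pow]; norm_num
    · norm_num
  mu := σ.2
  mu3 := σ.2.pow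

theorem conj_zeta3 (m : M3) : (conj (zetaN 6) ^ 2 * (m : ℂ)) ^ 3 = 1 := by
  rw [mul_pow, ← pow_mul, M3.pow, ← map_pow, zeta6]; simp

def sσ (σ : Bool × M3) : Bool × M3 :=
  (σ.1, if σ.1 then M3.mk' (conj (zetaN 6) ^ 2 * (σ.2 : ℂ)) (conj_zeta3 _) else σ.2)

theorem f_ch (σ : Bool × M3) (w : ℂ) : (ch σ).f w = (if σ.1 then (σ.2 : ℂ) else 1) * w := rfl
theorem g_ch (σ : Bool × M3) (w : ℂ) : (ch σ).g w = (σ.2 : ℂ) * r3 (1 + w ^ 6) := rfl

theorem rot_swap_pt {t : ℂ} (ht : t ^ 6 = 1) {y x : ℂ} (h : x ^ 3 = 1 + y ^ 6) :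
    rot t ht (swap (pt y x h)) = swap (pt (conj t * y) (conj t ^ 2 * x) (by
      have : conj t ^ 6 = 1 := by rw [← map_pow, ht, map_one]
      rw [mul_pow, mul_pow, ← pow_mul, h, this]; norm_num [this])) := by
  have h0 : r (swap (rot t ht (swap (pt y x h)))) ≠ 0 := by
    rw [r_swap, r_rot, r_swap]
    have := (r_pt_pos h).ne'
    intro h'
    apply this
    linarith
  rw [← swap_swap (rot t ht (swap (pt y x h)))]
  congr 1
  rw [← eq_pt h0]
  apply pt_congr
  · rw [Fy_swap_rot, swap_swap, Fy_pt]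
  · rw [Fx_swap_rot, swap_swap, Fx_pt]

theorem zeta_conj : conj (zetaN 6) * zetaN 6 = 1 := by
  rw [mul_comm, Complex.mul_conj, Complex.normSq_eq_norm_sq,
    Complex.norm_eq_one_of_pow_eq_one zeta6 (by norm_num)]
  norm_num

theorem s_ch (σ : Bool × M3) (w : ℂ) :
    rot (zetaN 6) zeta6 ((ch σ).p w) = (ch (sσ σ)).p (zetaN 6 * w) := by
  obtain ⟨b, m⟩ := σ
  have h6 : (zetaN 6 * w) ^ 6 = w ^ 6 := by rw [mul_pow, zeta6, one_mul]
  rcases b
  · show rot (zetaN 6) zeta6 ((ch (false, m)).p0 w) = (ch (sσ (false, m))).p0 (zetaN 6 * w)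
    unfold Idx.p0
    rw [rot_pt]
    refine pt_congr _ _ ?_ ?_
    · simp only [f_ch, sσ]; simp
    · simp only [g_ch, sσ, h6]; simp
  · show rot (zetaN 6) zeta6 (swap ((ch (true, m)).p0 w)) =
      swap ((ch (sσ (true, m))).p0 (zetaN 6 * w))
    unfold Idx.p0
    rw [rot_swap_pt]
    congr 1
    refine pt_congr _ _ ?_ ?_
    · simp only [f_ch, sσ, if_true, M3.mk']
      linear_combination (-conj (zetaN 6) * (m : ℂ) * w) * zeta_conj
    · simp only [g_ch, sσ, h6, if_true, M3.mk']
      ring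

theorem r_p0_ch_ge (σ : Bool × M3) {w : ℂ} (hw : w ∈ Metric.ball (0 : ℂ) (1 / 2)) :
    4 / 5 < r ((ch σ).p0 w) := by
  show 4 / 5 < r (pt _ _ _)
  rw [r_pt, Complex.normSq_eq_norm_sq]
  have h1 : ‖(ch σ).f w‖ = ‖w‖ := by
    show ‖(ch σ).lam * w‖ = ‖w‖
    rw [norm_mul, (ch σ).norm_lam, one_mul]
  rw [h1]
  rw [Metric.mem_ball, dist_zero_right] at hw
  have h0 := norm_nonneg w
  rw [lt_inv_comm₀ (by norm_num) (by positivity)]
  nlinarith

theorem disj_ch (σ τ : Bool × M3) (h : σ ≠ τ) :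
    Disjoint ((ch σ).p '' Metric.ball 0 (1 / 2)) ((ch τ).p '' Metric.ball 0 (1 / 2)) := by
  rw [Set.disjoint_left]
  rintro c ⟨w, hw, rfl⟩ ⟨w', hw', h'⟩
  apply h
  obtain ⟨b, m⟩ := σ
  obtain ⟨b', m'⟩ := τ
  have hside : b = b' := by
    by_contra hb
    have h1 := r_p0_ch_ge (b, m) hw
    have h2 := r_p0_ch_ge (b', m') hw'
    have h3 : sg b' ((ch (b', m')).p0 w') = sg b ((ch (b, m)).p0 w) := h'
    have h4 := congrArg (sg b') h3
    rw [sg_sg, sg_comp] at h4
    have h5 : xor b' b = true := by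
      rcases b <;> rcases b' <;> simp_all
    rw [h5] at h4
    rw [h4] at h2
    have : r (sg true ((ch (b, m)).p0 w)) = 1 - r ((ch (b, m)).p0 w) := rfl
    rw [this] at h2
    linarith
  subst hside
  have h4 : (ch (b, m')).p0 w' = (ch (b, m)).p0 w := by
    have := congrArg (sg b) h'
    change sg b (sg b _) = sg b (sg b _) at this
    rwa [sg_sg, sg_sg] at this
  have hf : (ch (b, m')).f w' = (ch (b, m)).f w := by
    have := congrArg Fy h4
    unfold Idx.p0 at this
    rwa [Fy_pt, Fy_pt] at this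
  have hg : (ch (b, m')).g w' = (ch (b, m)).g w := by
    have := congrArg Fx h4
    unfold Idx.p0 at this
    rwa [Fx_pt, Fx_pt] at this
  have hw6 : w' ^ 6 = w ^ 6 := by
    have h1 : ((ch (b, m')).f w') ^ 6 = w' ^ 6 := by
      show ((ch (b, m')).lam * w') ^ 6 = _
      rw [mul_pow, (ch (b, m')).lam6, one_mul]
    have h2 : ((ch (b, m)).f w) ^ 6 = w ^ 6 := by
      show ((ch (b, m)).lam * w) ^ 6 = _
      rw [mul_pow, (ch (b, m)).lam6, one_mul]
    rw [← h1, ← h2, hf]
  have hne : r3 (1 + w ^ 6) ≠ 0 := by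
    apply r3_ne
    apply Complex.slitPlane_ne_zero
    apply one_add_mem_slit
    rw [Metric.mem_ball, dist_zero_right] at hw
    rw [norm_pow]
    exact pow_lt_one₀ (norm_nonneg _) (by linarith) (by norm_num)
  rw [g_ch, g_ch, hw6] at hg
  have hm : m' = m := Subtype.ext (mul_right_cancel₀ hne hg)
  rw [hm]

theorem eq_pt_of_r_one {c : C} (h : r c = 1) : ∃ m : M3, c = (ch (false, m)).p0 0 := by
  have hr : r c ≠ 0 := by rw [h]; norm_num
  have hq : q c = 0 := by
    have := normSq_q c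
    rw [h] at this
    simpa using this
  have hy : Fy c = 0 := by unfold Fy; rw [hq, zero_div]
  have hx : Fx c ^ 3 = 1 := by rw [rel hr, hy]; norm_num
  refine ⟨M3.mk' (Fx c) hx, ?_⟩
  conv_lhs => rw [← eq_pt hr]
  apply pt_congr
  · rw [hy, f_ch]; simp
  · rw [g_ch]; simp [M3.mk', r3_one]

theorem p0_ch_zero (b : Bool) (m : M3) : (ch (false, m)).p0 0 = (ch (b, m)).p0 0 := by
  apply pt_congr
  · rw [f_ch, f_ch, mul_zero, mul_zero]
  · rw [g_ch, g_ch]

theorem free {c : C} {k : ℕ} (h : (rot (zetaN 6) zeta6)^[k] c = c) (hk : ¬ 6 ∣ k) :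
    ∃ σ : Bool × M3, c = (ch σ).p 0 := by
  rw [iter_rot] at h
  have hq : q c = 0 := by
    have h1 := congrArg q h
    rw [q_rot] at h1
    have h2 : (zetaN 6 ^ k - 1) * q c = 0 := by linear_combination h1
    rcases mul_eq_zero.mp h2 with h3 | h3
    · exact absurd (zeta_prim.dvd_of_pow_eq_one k (by linear_combination h3)) hk
    · exact h3
  have hn := normSq_q c
  rw [hq, map_zero] at hn
  rcases mul_eq_zero.mp hn.symm with h1 | h1
  · have h2 : r (swap c) = 1 := by rw [r_swap, h1]; norm_num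
    obtain ⟨m, hm⟩ := eq_pt_of_r_one h2
    refine ⟨(true, m), ?_⟩
    rw [← swap_swap c, hm, p0_ch_zero true m]
    rfl
  · obtain ⟨m, hm⟩ := eq_pt_of_r_one (c := c) (by linarith)
    exact ⟨(false, m), hm⟩

/-- every point is in some chart -/
theorem surj (c : C) : ∃ i : Idx, ∃ w ∈ i.D, i.p w = c := by
  by_cases hr : r c = 0
  · have h2 : r (swap c) = 1 := by rw [r_swap, hr]; norm_num
    obtain ⟨m, hm⟩ := eq_pt_of_r_one h2
    refine ⟨ch (true, m), 0, by simp [Idx.D, ch], ?_⟩
    rw [← swap_swap c, hm, p0_ch_zero true m]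
    rfl
  · -- affine points
    have hrel := rel hr
    by_cases h1 : 1 + Fy c ^ 6 ∈ Complex.slitPlane
    · obtain ⟨mu, hmu, hx⟩ := pt_surj_sheet hrel (Complex.slitPlane_ne_zero h1)
      refine ⟨⟨false, false, false, 1, by norm_num, mu, hmu⟩, Fy c, h1, ?_⟩
      conv_rhs => rw [← eq_pt hr]
      refine pt_congr (Idx.rel _ _) _ ?_ ?_
      · simp [Idx.f]
      · simp only [Idx.g, Bool.false_eq_true, if_false]
        exact hx.symm
    · by_cases h2 : Fx c = 0
      · -- branch point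
        rw [h2] at hrel
        have h3 : (Fy c / Complex.I) ^ 6 = 1 := by
          have : Complex.I ^ 6 = -1 := by
            rw [show (6 : ℕ) = 4 + 2 by norm_num, pow_add, Complex.I_pow_four, Complex.I_sq,
              one_mul]
          rw [div_pow, this]
          linear_combination hrel
        refine ⟨⟨false, true, false, Fy c / Complex.I, h3, 1, by norm_num⟩, 0,
          by simp [Idx.D], ?_⟩
        conv_rhs => rw [← eq_pt hr]
        refine pt_congr (Idx.rel _ _) _ ?_ ?_
        · simp only [Idx.f, if_true]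
          have := Complex.I_ne_zero
          rw [zero_pow (by norm_num), sub_zero, r6_one]
          field_simp
        · simp only [Idx.g, if_true]
          rw [h2]; simp
      · -- `1 + y⁶` is real and negative
        have h3 : 1 + Fy c ^ 6 ≠ 0 := by
          rw [← hrel]; exact pow_ne_zero _ h2
        have hy0 : Fy c ≠ 0 := by
          intro h0
          apply h1
          rw [h0]
          simp
        rw [Complex.mem_slitPlane_iff] at h1
        push Not at h1
        obtain ⟨hre, him⟩ := h1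
        set s : ℝ := -(1 + Fy c ^ 6).re with hs
        have hys : 1 + Fy c ^ 6 = -(s : ℂ) := by
          apply Complex.ext
          · rw [Complex.neg_re, Complex.ofReal_re, hs]; ring
          · rw [Complex.neg_im, Complex.ofReal_im, him]; ring
        have hs0 : 0 < s := by
          rcases (show 0 ≤ s by rw [hs]; linarith).eq_or_lt with h | h
          · exfalso
            apply h3
            rw [hys, ← h]; simp
          · exact h
        have hy6 : Fy c ^ 6 = -((1 + s : ℝ) : ℂ) := by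
          push_cast
          linear_combination hys
        set a := (Fy c)⁻¹ with ha
        have hslit : 1 + a ^ 6 ∈ Complex.slitPlane := by
          have : 1 + a ^ 6 = ((s / (1 + s) : ℝ) : ℂ) := by
            have hs1 : ((1 + s : ℝ) : ℂ) ≠ 0 := by
              have : (1 + s : ℝ) ≠ 0 := by positivity
              exact_mod_cast this
            rw [ha, inv_pow, hy6]
            push_cast at hs1 ⊢
            field_simp
            ring
          rw [this, Complex.ofReal_mem_slitPlane]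
          positivity
        have hrs : r (swap c) ≠ 0 := by
          have e : c = pt (Fy c) (Fx c) hrel := (eq_pt hr).symm
          rw [e, r_swap, r_pt]
          have h5 : 0 < Complex.normSq (Fy c) := Complex.normSq_pos.mpr hy0
          have h6 : (1 + Complex.normSq (Fy c))⁻¹ < 1 := inv_lt_one_of_one_lt₀ (by linarith)
          linarith
        have hFy : Fy (swap c) = a := by
          conv_lhs => rw [← eq_pt hr, Fy_swap_pt]
        have hrel2 := rel hrs
        rw [hFy] at hrel2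
        obtain ⟨mu, hmu, hx⟩ := pt_surj_sheet hrel2 (Complex.slitPlane_ne_zero hslit)
        refine ⟨⟨true, false, false, 1, by norm_num, mu, hmu⟩, a, hslit, ?_⟩
        rw [← swap_swap c]
        show swap _ = _
        congr 1
        conv_rhs => rw [← eq_pt hrs]
        refine pt_congr (Idx.rel _ _) _ ?_ ?_
        · rw [hFy]; simp [Idx.f]
        · simp only [Idx.g, Bool.false_eq_true, if_false]
          exact hx.symm

/-- The base curve. -/
def base : BaseCurve where
  N := 6
  N_pos := by norm_num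
  N_dvd := dvd_refl 6
  C := C
  conn := inferInstance
  κ := Idx
  D := Idx.D
  isOpen_D := Idx.isOpen_D
  p := Idx.p
  p_cont i := fun w hw => (i.continuousAt_p hw).continuousWithinAt
  p_inj i := i.p_inj.injOn
  p_open i W hW hWD := i.p_open hW hWD
  p_surj := surj
  s := rot (zetaN 6) zeta6
  s_cont := cont_rot _
  s_iter := by
    funext c
    rw [iter_rot]
    have : rot (zetaN 6 ^ 6) (by rw [zeta6]; norm_num) c = rot 1 (by norm_num) c := by
      congr 1
      exact zeta6
    exact this.trans (rot_one c)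
  hol i j k w w' hw hw' h := by
    rw [iter_rot] at h
    simp_rw [iter_rot]
    exact Idx.hol i j _ hw hw' h
  Sp := Bool × M3
  ch := ch
  D_ch σ := rfl
  sσ := sσ
  s_ch σ w _ := s_ch σ w
  disj := disj_ch
  free c k h hk := free h hk
  main σ := σ.1 = false
  main_fix σ h := by
    obtain ⟨b, m⟩ := σ
    simp only at h
    subst h
    rfl
  exists_main := ⟨(false, M3.mk' 1 (by norm_num)), rfl⟩


/-- coefficient of the one-form `y² dy / x²` -/
def eta (i : Idx) (w : ℂ) : ℂ := (if i.side then 1 else i.f w ^ 2) * i.om w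

def Edat (i : Idx) (w : ℂ) : ℝ := Complex.normSq (eta i w)

def Kdat (i : Idx) (w : ℂ) : ℝ := (1 + Complex.normSq (i.f w)) ^ 2 * Complex.normSq (i.om w)

theorem analyticAt_eta (i : Idx) {w : ℂ} (hw : w ∈ i.D) : AnalyticAt ℂ (eta i) w := by
  unfold eta
  rcases hs : i.side
  · simp only [Bool.false_eq_true, if_false]
    exact ((i.analyticAt_f hw).pow 2).mul (i.analyticAt_om hw)
  · simp only [if_true, one_mul]
    exact i.analyticAt_om hw

theorem smooth_pos_harm {φ : ℂ → ℂ} {w : ℂ} (hφ : AnalyticAt ℂ φ w) (h0 : φ w ≠ 0) :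
    ContDiffAt ℝ ∞ (fun u => Complex.normSq (φ u)) w ∧ 0 < Complex.normSq (φ w) ∧
      lap (fun u => Real.log (Complex.normSq (φ u))) w = 0 :=
  ⟨contDiffAt_normSq hφ, Complex.normSq_pos.mpr h0, lap_log_normSq hφ h0⟩

theorem main_point {i : Idx} {w : ℂ} (hs : i.side = false) (hf : i.f w = 0) :
    ∃ m : M3, i.p w = (ch (false, m)).p 0 := by
  have h1 : r (i.p w) = 1 := by
    have h2 : i.p w = i.p0 w := by
      show sg i.side (i.p0 w) = i.p0 w
      rw [hs]
      rfl
    rw [h2]
    unfold Idx.p0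
    rw [r_pt, hf]
    simp
  obtain ⟨m, hm⟩ := eq_pt_of_r_one h1
  exact ⟨m, hm⟩

theorem om_trans_sq (i j : Idx) {t : ℂ} (ht : t ^ 6 = 1) {w w' : ℂ} (hw : w ∈ i.D)
    (hw' : w' ∈ j.D) (h : j.p w' = rot t ht (i.p w)) {k : ℂ → ℂ} (hk : AnalyticAt ℂ k w)
    (hkw : k w = w') (he : ∀ᶠ x in 𝓝 w, j.p (k x) = rot t ht (i.p x)) :
    Complex.normSq (i.om w) * (if xor j.side i.side then Complex.normSq (i.f w) ^ 2 else 1) =
      Complex.normSq (deriv k w) * Complex.normSq (j.om w') := by
  have h1 := Idx.om_trans i j ht hw hw' h hk hkw he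
  simp only [Complex.normSq_eq_norm_sq]
  have h2 := congrArg (fun x => x ^ 2) h1
  simp only [mul_pow] at h2
  rw [← h2]
  rcases (xor j.side i.side)
  · simp
  · simp only [if_true]

theorem normSq_f_trans (i j : Idx) {t : ℂ} (ht : t ^ 6 = 1) {w w' : ℂ}
    (h : j.p w' = rot t ht (i.p w)) :
    Complex.normSq (j.f w') = if xor j.side i.side then (Complex.normSq (i.f w))⁻¹
      else Complex.normSq (i.f w) := by
  have h1 := (Idx.trans_rel i j ht h).1
  rw [h1, map_mul, Complex.normSq_eq_norm_sq (c1 _ _), norm_c1 _ ht]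
  unfold FF
  rcases (xor j.side i.side)
  · simp
  · simp

theorem E_trans (i j : Idx) {t : ℂ} (ht : t ^ 6 = 1) {w w' : ℂ} (hw : w ∈ i.D)
    (hw' : w' ∈ j.D) (h : j.p w' = rot t ht (i.p w)) {k : ℂ → ℂ} (hk : AnalyticAt ℂ k w)
    (hkw : k w = w') (he : ∀ᶠ x in 𝓝 w, j.p (k x) = rot t ht (i.p x)) :
    Edat i w = Complex.normSq (deriv k w) * Edat j w' := by
  have h1 := om_trans_sq i j ht hw hw' h hk hkw he
  have h2 := normSq_f_trans i j ht h
  have h3 := (Idx.trans_rel i j ht h).2.2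
  unfold Edat eta
  rcases hi : i.side <;> rcases hj : j.side <;> rw [hi, hj] at h1 h2 h3 <;>
    simp only [Bool.xor_false, Bool.xor_true, Bool.not_false, Bool.false_eq_true, if_true, if_false, one_mul, mul_one, map_mul, map_pow,
      Bool.xor_self] at h1 h2 h3 ⊢
  · rw [h2, h1]; ring
  · rw [← h1]; ring
  · have h4 : Complex.normSq (i.f w) ≠ 0 := by
      rw [Ne, Complex.normSq_eq_zero]
      exact h3 trivial
    rw [h2]
    have : Complex.normSq (deriv k w) * ((Complex.normSq (i.f w))⁻¹ ^ 2 * Complex.normSq (j.om w'))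
      = (Complex.normSq (i.f w))⁻¹ ^ 2 * (Complex.normSq (deriv k w) *
        Complex.normSq (j.om w')) := by ring
    rw [this, ← h1]
    field_simp
  · exact h1

theorem K_trans (i j : Idx) {t : ℂ} (ht : t ^ 6 = 1) {w w' : ℂ} (hw : w ∈ i.D)
    (hw' : w' ∈ j.D) (h : j.p w' = rot t ht (i.p w)) {k : ℂ → ℂ} (hk : AnalyticAt ℂ k w)
    (hkw : k w = w') (he : ∀ᶠ x in 𝓝 w, j.p (k x) = rot t ht (i.p x)) :
    Kdat i w = Complex.normSq (deriv k w) * Kdat j w' := by
  have h1 := om_trans_sq i j ht hw hw' h hk hkw he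
  have h2 := normSq_f_trans i j ht h
  have h3 := (Idx.trans_rel i j ht h).2.2
  unfold Kdat
  have e : Complex.normSq (deriv k w) * ((1 + Complex.normSq (j.f w')) ^ 2 *
      Complex.normSq (j.om w')) = (1 + Complex.normSq (j.f w')) ^ 2 *
      (Complex.normSq (deriv k w) * Complex.normSq (j.om w')) := by ring
  rw [e, ← h1, h2]
  rcases hx : (xor j.side i.side)
  · simp
  · have h4 : Complex.normSq (i.f w) ≠ 0 := by
      rw [Ne, Complex.normSq_eq_zero]
      exact h3 hx
    simp only [if_true]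
    field_simp
    ring

def raw : RawData base where
  ord := 2
  E := Edat
  E_smooth i w hw hm := by
    have hw' : w ∈ Idx.D i := hw
    have h0 : eta i w ≠ 0 := by
      unfold eta
      apply mul_ne_zero _ (i.om_ne hw')
      rcases hs : i.side
      · simp only [Bool.false_eq_true, if_false]
        apply pow_ne_zero
        intro hf
        obtain ⟨m, hm'⟩ := main_point hs hf
        exact hm (false, m) rfl hm'
      · simp
    exact smooth_pos_harm (analyticAt_eta i hw') h0
  E_trans i j k w w' hw hw' h k' hk hkw he _ := by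
    change _ = (rot (zetaN 6) zeta6)^[k] _ at h
    change ∀ᶠ x in 𝓝 w, _ = (rot (zetaN 6) zeta6)^[k] _ at he
    rw [iter_rot] at h
    simp_rw [iter_rot] at he
    exact E_trans i j _ hw hw' h hk hkw he
  E_main σ hσ := by
    obtain ⟨b, m⟩ := σ
    change b = false at hσ
    subst hσ
    refine ⟨fun w => Complex.normSq ((ch (false, m)).om w), ?_, ?_⟩
    · intro w hw
      have hw' : w ∈ (ch (false, m)).D := hw
      exact smooth_pos_harm ((ch (false, m)).analyticAt_om hw') ((ch (false, m)).om_ne hw')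
    · intro w hw _
      show Edat (ch (false, m)) w = _
      unfold Edat eta
      rw [f_ch]
      simp only [map_mul, Bool.false_eq_true, if_false, one_mul]
      have : (ch (false, m)).side = false := rfl
      rw [this]
      simp only [Bool.false_eq_true, if_false, map_pow]
      norm_cast
  K := Kdat
  K_smooth i := by
    intro w hw
    have hw' : w ∈ Idx.D i := hw
    have h1 := contDiffAt_normSq (i.analyticAt_f hw')
    have h2 := contDiffAt_normSq (i.analyticAt_om hw')
    have : ContDiffAt ℝ ∞ (Kdat i) w := by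
      unfold Kdat
      exact ((contDiffAt_const.add h1).pow 2).mul h2
    exact this.contDiffWithinAt
  K_pos i w hw := by
    have hw' : w ∈ Idx.D i := hw
    have h1 := Complex.normSq_pos.mpr (i.om_ne hw')
    have h2 := Complex.normSq_nonneg (i.f w)
    show 0 < Kdat i w
    unfold Kdat
    positivity
  K_trans i j k w w' hw hw' h k' hk hkw he := by
    change _ = (rot (zetaN 6) zeta6)^[k] _ at h
    change ∀ᶠ x in 𝓝 w, _ = (rot (zetaN 6) zeta6)^[k] _ at he
    rw [iter_rot] at h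
    simp_rw [iter_rot] at he
    exact K_trans i j _ hw hw' h hk hkw he

theorem sσ_true (m : M3) : (sσ (true, m)).1 = true ∧
    ((sσ (true, m)).2 : ℂ) = conj (zetaN 6) ^ 2 * (m : ℂ) := ⟨rfl, rfl⟩

theorem non_main (σ : Bool × M3) (h : ¬ σ.1 = false) :
    sσ σ ≠ σ ∧ ∃ k, ¬ 6 ∣ k ∧ sσ^[k] σ = σ := by
  obtain ⟨b, m⟩ := σ
  have hb : b = true := by simpa using h
  subst hb
  have hm : (m : ℂ) ≠ 0 := by
    intro h0
    have := m.pow
    rw [h0] at this
    norm_num at this
  constructor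
  · intro he
    have h1 : ((sσ (true, m)).2 : ℂ) = (m : ℂ) := by rw [he]
    rw [(sσ_true m).2] at h1
    have h2 : conj (zetaN 6) ^ 2 = 1 := mul_right_cancel₀ hm (by rw [h1, one_mul])
    have h3 : zetaN 6 ^ 2 = 1 := by
      have := congrArg conj h2
      rwa [map_pow, Complex.conj_conj, map_one] at this
    have h4 := zeta_prim.dvd_of_pow_eq_one 2 h3
    norm_num at h4
  · refine ⟨3, by norm_num, ?_⟩
    have h6 : conj (zetaN 6) ^ 6 = 1 := by rw [← map_pow, zeta6, map_one]
    show sσ (sσ (sσ (true, m))) = (true, m)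
    refine Prod.ext rfl (Subtype.ext ?_)
    show conj (zetaN 6) ^ 2 * (conj (zetaN 6) ^ 2 * (conj (zetaN 6) ^ 2 * (m : ℂ))) = (m : ℂ)
    linear_combination (m : ℂ) * h6

end C6

theorem exists_base_C6 : ∃ (B : BaseCurve) (R : RawData B), B.N = 6 ∧ R.ord = 2 ∧
    (∀ σ, ¬ B.main σ → B.sσ σ ≠ σ ∧ ∃ k, ¬ B.N ∣ k ∧ B.sσ^[k] σ = σ) :=
  ⟨C6.base, C6.raw, rfl, rfl, C6.non_main⟩

end

end GK
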