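import Pool.Agent.GK.Base

/-! # Module BaseNormalise -/

open scoped ContDiff Topology
open MeasureTheory

namespace GK

noncomputable section

namespace BaseNorm

/-- one variable cut off: `1` for `t ≤ 1/49`, `0` for `t ≥ 1/16` -/
def chi0 (t : ℝ) : ℝ := 1 - Real.smoothTransition ((t - 1 / 49) / (1 / 16 - 1 / 49))

lemma chi0_smooth : ContDiff ℝ ∞ chi0 := by
  unfold chi0
  exact contDiff_const.sub (Real.smoothTransition.contDiff.comp
    ((contDiff_id.sub contDiff_const).div_const _))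

lemma chi0_one {t : ℝ} (ht : t ≤ 1 / 49) : chi0 t = 1 := by
  unfold chi0
  rw [Real.smoothTransition.zero_of_nonpos, sub_zero]
  exact div_nonpos_of_nonpos_of_nonneg (by linarith) (by norm_num)

lemma chi0_zero {t : ℝ} (ht : 1 / 16 ≤ t) : chi0 t = 0 := by
  unfold chi0
  rw [Real.smoothTransition.one_of_one_le, sub_self]
  rw [le_div_iff₀ (by norm_num)]
  linarith

/-- the cut off in the plane -/
def chi (w : ℂ) : ℝ := chi0 (Complex.normSq w)

lemma normSq_smooth : ContDiff ℝ ∞ (fun w : ℂ => Complex.normSq w) := by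
  have : (fun w : ℂ => Complex.normSq w) = fun w => ‖w‖ ^ 2 := by
    funext w
    rw [Complex.normSq_eq_norm_sq]
  rw [this]
  exact contDiff_norm_sq ℝ

lemma chi_smooth : ContDiff ℝ ∞ chi := chi0_smooth.comp normSq_smooth

lemma chi_one {w : ℂ} (hw : ‖w‖ ≤ 1 / 7) : chi w = 1 := by
  apply chi0_one
  rw [Complex.normSq_eq_norm_sq]
  nlinarith [norm_nonneg w]

lemma chi_zero {w : ℂ} (hw : 1 / 4 ≤ ‖w‖) : chi w = 0 := by
  apply chi0_zero
  rw [Complex.normSq_eq_norm_sq]
  nlinarith [norm_nonneg w]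

lemma chi_rot {z w : ℂ} (hz : Complex.normSq z = 1) : chi (z * w) = chi w := by
  unfold chi
  rw [Complex.normSq_mul, hz, one_mul]

/-! ### calculus of `lap` -/

lemma lap_congr {f g : ℂ → ℝ} {w : ℂ} (h : f =ᶠ[𝓝 w] g) : lap f w = lap g w := by
  unfold lap
  have h1 : (fun u => fderiv ℝ f u 1) =ᶠ[𝓝 w] fun u => fderiv ℝ g u 1 := by
    filter_upwards [h.fderiv (𝕜 := ℝ)] with u hu
    rw [hu]
  have h2 : (fun u => fderiv ℝ f u Complex.I) =ᶠ[𝓝 w] fun u => fderiv ℝ g u Complex.I := by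
    filter_upwards [h.fderiv (𝕜 := ℝ)] with u hu
    rw [hu]
  rw [h1.fderiv_eq, h2.fderiv_eq]

lemma diff_fderiv_apply {f : ℂ → ℝ} {w : ℂ} (hf : ContDiffAt ℝ ∞ f w) (v : ℂ) :
    DifferentiableAt ℝ (fun u => fderiv ℝ f u v) w := by
  have h1 : ContDiffAt ℝ 1 (fderiv ℝ f) w :=
    hf.fderiv_right (m := 1) (by
      rw [show ((1 : WithTop ℕ∞) + 1) = ((2 : ℕ∞) : WithTop ℕ∞) by norm_num]
      exact_mod_cast le_top)
  exact (h1.differentiableAt (by norm_num)).clm_apply (differentiableAt_const _)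

lemma ev_contDiffAt {f : ℂ → ℝ} {w : ℂ} (hf : ContDiffAt ℝ ∞ f w) :
    ∀ᶠ u in 𝓝 w, DifferentiableAt ℝ f u := by
  have h1 : ContDiffAt ℝ 1 f w := hf.of_le (by exact_mod_cast le_top)
  filter_upwards [h1.eventually (by simp)] with u hu
  exact hu.differentiableAt (by norm_num)

lemma lap_add {f g : ℂ → ℝ} {w : ℂ} (hf : ContDiffAt ℝ ∞ f w) (hg : ContDiffAt ℝ ∞ g w) :
    lap (fun u => f u + g u) w = lap f w + lap g w := by
  unfold lap
  have h : ∀ v : ℂ, (fun u => fderiv ℝ (fun u => f u + g u) u v) =ᶠ[𝓝 w]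
      fun u => fderiv ℝ f u v + fderiv ℝ g u v := by
    intro v
    filter_upwards [ev_contDiffAt hf, ev_contDiffAt hg] with u h1 h2
    rw [fderiv_fun_add h1 h2]
    rfl
  rw [(h 1).fderiv_eq, (h Complex.I).fderiv_eq,
    fderiv_fun_add (diff_fderiv_apply hf 1) (diff_fderiv_apply hg 1),
    fderiv_fun_add (diff_fderiv_apply hf Complex.I) (diff_fderiv_apply hg Complex.I)]
  simp only [add_apply]
  ring

lemma lap_mul_const {f : ℂ → ℝ} {w : ℂ} (c : ℝ) (hf : ContDiffAt ℝ ∞ f w) :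
    lap (fun u => c * f u) w = c * lap f w := by
  unfold lap
  have h : ∀ v : ℂ, (fun u => fderiv ℝ (fun u => c * f u) u v) =ᶠ[𝓝 w]
      fun u => c * fderiv ℝ f u v := by
    intro v
    filter_upwards [ev_contDiffAt hf] with u h1
    rw [fderiv_const_mul h1]
    rfl
  rw [(h 1).fderiv_eq, (h Complex.I).fderiv_eq,
    fderiv_const_mul (diff_fderiv_apply hf 1), fderiv_const_mul (diff_fderiv_apply hf Complex.I)]
  simp only [smul_apply, smul_eq_mul]
  ring

lemma lap_continuous {f : ℂ → ℝ} (hf : ContDiff ℝ ∞ f) : Continuous (lap f) := by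
  unfold lap
  have h : ∀ v : ℂ, Continuous fun w => fderiv ℝ (fun u => fderiv ℝ f u v) w v := by
    intro v
    have h1 : ContDiff ℝ ∞ (fun u => fderiv ℝ f u v) :=
      (hf.fderiv_right (m := ∞) (by simp)).clm_apply contDiff_const
    exact (h1.continuous_fderiv (by simp)).clm_apply continuous_const
  exact ((h 1).add (h Complex.I)).div_const _

/-- radial functions -/
lemma hasFDerivAt_normSq (w : ℂ) : HasFDerivAt (fun u : ℂ => Complex.normSq u)
    ((2 * w.re) • Complex.reCLM + (2 * w.im) • Complex.imCLM : ℂ →L[ℝ] ℝ) w := by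
  have h1 : HasFDerivAt (fun u : ℂ => u.re) Complex.reCLM w := Complex.reCLM.hasFDerivAt
  have h2 : HasFDerivAt (fun u : ℂ => u.im) Complex.imCLM w := Complex.imCLM.hasFDerivAt
  have h3 := (h1.fun_mul h1).fun_add (h2.fun_mul h2)
  have h4 : (fun u : ℂ => Complex.normSq u) = fun u => u.re * u.re + u.im * u.im := by
    funext u
    exact Complex.normSq_apply u
  rw [h4]
  refine h3.congr_fderiv ?_
  ext
  · simp
    ring

lemma fderiv_radial {φ : ℝ → ℝ} {w : ℂ} (hφ : DifferentiableAt ℝ φ (Complex.normSq w)) (v : ℂ) :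
    fderiv ℝ (fun u : ℂ => φ (Complex.normSq u)) w v =
      deriv φ (Complex.normSq w) * (2 * (w.re * v.re + w.im * v.im)) := by
  have h1 := (hφ.hasDerivAt.comp_hasFDerivAt w (hasFDerivAt_normSq w)).fderiv
  have h2 : fderiv ℝ (fun u : ℂ => φ (Complex.normSq u)) w =
      deriv φ (Complex.normSq w) •
        ((2 * w.re) • Complex.reCLM + (2 * w.im) • Complex.imCLM : ℂ →L[ℝ] ℝ) := h1
  rw [h2]
  simp
  ring

lemma lap_radial {φ : ℝ → ℝ} (hφ : ContDiff ℝ ∞ φ) (w : ℂ) :
    lap (fun u => φ (Complex.normSq u)) w =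
      deriv φ (Complex.normSq w) + Complex.normSq w * deriv (deriv φ) (Complex.normSq w) := by
  have hd : Differentiable ℝ φ := hφ.differentiable (by simp)
  have hφ' : ContDiff ℝ ∞ (deriv φ) := by
    exact (contDiff_infty_iff_deriv.1 hφ).2
  have hd' : Differentiable ℝ (deriv φ) := hφ'.differentiable (by simp)
  have hA : ∀ v : ℂ, (fun u => fderiv ℝ (fun u : ℂ => φ (Complex.normSq u)) u v) =
      fun u => deriv φ (Complex.normSq u) * (2 * (u.re * v.re + u.im * v.im)) := by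
    intro v
    funext u
    exact fderiv_radial (hd _) v
  have hB : ∀ v : ℂ, fderiv ℝ (fun u => fderiv ℝ (fun u : ℂ => φ (Complex.normSq u)) u v) w v =
      deriv (deriv φ) (Complex.normSq w) * (2 * (w.re * v.re + w.im * v.im)) ^ 2 +
        deriv φ (Complex.normSq w) * (2 * (v.re * v.re + v.im * v.im)) := by
    intro v
    rw [hA v]
    have h1 : HasFDerivAt (fun u : ℂ => deriv φ (Complex.normSq u))
        (deriv (deriv φ) (Complex.normSq w) •
        ((2 * w.re) • Complex.reCLM + (2 * w.im) • Complex.imCLM : ℂ →L[ℝ] ℝ)) w :=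
      (hd' _).hasDerivAt.comp_hasFDerivAt w (hasFDerivAt_normSq w)
    have h2 : HasFDerivAt (fun u : ℂ => 2 * (u.re * v.re + u.im * v.im))
        ((2 * v.re) • Complex.reCLM + (2 * v.im) • Complex.imCLM : ℂ →L[ℝ] ℝ) w := by
      have h3 : (fun u : ℂ => 2 * (u.re * v.re + u.im * v.im)) =
          ((2 * v.re) • Complex.reCLM + (2 * v.im) • Complex.imCLM : ℂ →L[ℝ] ℝ) := by
        funext u
        simp
        ring
      rw [h3]
      exact ContinuousLinearMap.hasFDerivAt _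
    rw [(h1.fun_mul h2).fderiv]
    simp
    ring
  unfold lap
  rw [hB 1, hB Complex.I]
  simp [Complex.normSq_apply]
  ring

/-! ### integrals -/

lemma integral_fderiv_zero {g : ℂ → ℝ} (hg : ContDiff ℝ ∞ g) (hs : HasCompactSupport g) (v : ℂ) :
    ∫ w, fderiv ℝ g w v = 0 := by
  have hc : Continuous fun w => fderiv ℝ g w v :=
    (hg.continuous_fderiv (by simp)).clm_apply continuous_const
  have hi : Integrable fun w => fderiv ℝ g w v :=
    hc.integrable_of_hasCompactSupport (hs.fderiv_apply ℝ v)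
  have hig : Integrable g := hg.continuous.integrable_of_hasCompactSupport hs
  have h := integral_mul_fderiv_eq_neg_fderiv_mul_of_integrable (𝕜 := ℝ) (μ := volume)
    (f := fun _ : ℂ => (1 : ℝ)) (g := g) (v := v) (by simp) (by simpa using hi)
    (by simpa using hig) (fun x _ => differentiableAt_const _)
    (fun x _ => (hg.differentiable (by simp)) x)
  simpa using h

lemma integral_lap_zero {f : ℂ → ℝ} (hf : ContDiff ℝ ∞ f) (hs : HasCompactSupport f) :
    ∫ w, lap f w = 0 := by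
  have h1 : ∀ v : ℂ, ContDiff ℝ ∞ (fun u => fderiv ℝ f u v) := fun v =>
    (hf.fderiv_right (m := ∞) (by simp)).clm_apply contDiff_const
  have h2 : ∀ v : ℂ, HasCompactSupport (fun u => fderiv ℝ f u v) := fun v =>
    hs.fderiv_apply ℝ v
  have h3 : ∀ v : ℂ, Integrable fun w => fderiv ℝ (fun u => fderiv ℝ f u v) w v := fun v =>
    (((h1 v).continuous_fderiv (by simp)).clm_apply
      continuous_const).integrable_of_hasCompactSupport ((h2 v).fderiv_apply ℝ v)
  unfold lap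
  rw [integral_div, integral_add (h3 1) (h3 Complex.I), integral_fderiv_zero (h1 1) (h2 1),
    integral_fderiv_zero (h1 Complex.I) (h2 Complex.I)]
  simp

/-- `(1 - chi0 t) log t` -/
def phi (t : ℝ) : ℝ := (1 - chi0 t) * Real.log t

lemma phi_smooth : ContDiff ℝ ∞ phi := by
  rw [contDiff_iff_contDiffAt]
  intro t
  by_cases ht : t < 1 / 49
  · have : phi =ᶠ[𝓝 t] fun _ => 0 := by
      filter_upwards [gt_mem_nhds ht] with x hx
      unfold phi
      rw [chi0_one hx.le]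
      simp
    exact contDiffAt_const.congr_of_eventuallyEq this
  · unfold phi
    exact (contDiffAt_const.sub chi0_smooth.contDiffAt).mul
      (Real.contDiffAt_log.2 (by intro h; rw [h] at ht; norm_num at ht))

lemma integral_lap_phi :
    ∫ w in Metric.ball (0 : ℂ) (1 / 2), lap (fun u => phi (Complex.normSq u)) w = Real.pi := by
  set ψ : ℝ → ℝ := fun t => deriv phi t + t * deriv (deriv phi) t with hψ
  set g : ℝ → ℝ := fun r => if r < 1 / 2 then ψ (r ^ 2) else 0 with hg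
  have hφ' : ContDiff ℝ ∞ (deriv phi) := (contDiff_infty_iff_deriv.1 phi_smooth).2
  have hφ'' : ContDiff ℝ ∞ (deriv (deriv phi)) := (contDiff_infty_iff_deriv.1 hφ').2
  have hψc : Continuous ψ := by
    rw [hψ]
    exact hφ'.continuous.add (continuous_id.mul hφ''.continuous)
  have e1 : ∫ w in Metric.ball (0 : ℂ) (1 / 2), lap (fun u => phi (Complex.normSq u)) w =
      ∫ w : ℂ, g ‖w‖ := by
    rw [← integral_indicator measurableSet_ball]
    congr 1
    funext w
    rw [hg]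
    simp only [Set.indicator, Metric.mem_ball, dist_zero_right]
    split_ifs with h
    · rw [lap_radial phi_smooth, hψ, Complex.normSq_eq_norm_sq]
    · rfl
  rw [e1, integral_fun_norm_addHaar volume g]
  have e2 : (volume : Measure ℂ).real (Metric.ball 0 1) = Real.pi := by
    rw [Measure.real, Complex.volume_ball]
    simp
  rw [e2, Complex.finrank_real_complex]
  have e3 : ∫ y in Set.Ioi (0 : ℝ), y ^ (2 - 1) • g y = 1 / 2 := by
    have e4 : ∫ y in Set.Ioi (0 : ℝ), y ^ (2 - 1) • g y =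
        ∫ y in Set.Ioo (0 : ℝ) (1 / 2), y * ψ (y ^ 2) := by
      rw [← integral_indicator measurableSet_Ioi, ← integral_indicator measurableSet_Ioo]
      congr 1
      funext y
      rw [hg]
      simp only [Set.indicator, Set.mem_Ioi, Set.mem_Ioo, smul_eq_mul]
      by_cases h1 : 0 < y
      · by_cases h2 : y < 1 / 2
        · simp [h1]
        · simp [h1]
      · simp [h1]
    rw [e4, ← integral_Ioc_eq_integral_Ioo, ← intervalIntegral.integral_of_le (by norm_num)]
    have e5 : ∀ y ∈ Set.uIcc (0 : ℝ) (1 / 2), HasDerivAt (fun y : ℝ => y ^ 2 * deriv phi (y ^ 2) / 2)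
        (y * ψ (y ^ 2)) y := by
      intro y _
      have h1 : HasDerivAt (fun y : ℝ => y ^ 2) (2 * y) y := by
        simpa using hasDerivAt_pow 2 y
      have h2 : HasDerivAt (fun y : ℝ => deriv phi (y ^ 2)) (deriv (deriv phi) (y ^ 2) * (2 * y)) y :=
        HasDerivAt.comp (h₂ := deriv phi) (h := fun y : ℝ => y ^ 2) y
          ((hφ'.differentiable (by simp)) (y ^ 2)).hasDerivAt h1
      refine ((h1.fun_mul h2).div_const 2).congr_deriv ?_
      rw [hψ]
      ring
    rw [intervalIntegral.integral_eq_sub_of_hasDerivAt e5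
      ((continuous_id.mul (hψc.comp (continuous_pow 2))).intervalIntegrable _ _)]
    have e6 : deriv phi ((1 / 2 : ℝ) ^ 2) = 4 := by
      have : phi =ᶠ[𝓝 ((1 / 2 : ℝ) ^ 2)] Real.log := by
        filter_upwards [lt_mem_nhds (show (1 / 16 : ℝ) < (1 / 2) ^ 2 by norm_num)] with x hx
        unfold phi
        rw [chi0_zero hx.le]
        simp
      rw [this.deriv_eq, Real.deriv_log]
      norm_num
    rw [e6]
    norm_num
  rw [e3]
  simp
  ring

theorem mass (k : ℤ) (u H : ℂ → ℝ)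
    (hu : ∀ w ∈ Metric.ball (0 : ℂ) (1 / 2), ContDiffAt ℝ ∞ u w ∧ 0 < u w ∧
      lap (fun x => Real.log (u x)) w = 0)
    (hH0 : ∀ w : ℂ, ‖w‖ < 1 / 7 → H w = 1)
    (hH : ∀ w ∈ Metric.ball (0 : ℂ) (1 / 2), w ≠ 0 → Real.log (H w) =
      (1 - chi w) * (k * Real.log (Complex.normSq w) + Real.log (u w))) :
    ∫ w in Metric.ball (0 : ℂ) (1 / 2), lap (fun x => Real.log (H x)) w = Real.pi * k := by
  set f1 : ℂ → ℝ := fun x => phi (Complex.normSq x) with hf1
  set f2 : ℂ → ℝ := fun x => Real.log (u x) with hf2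
  set f3 : ℂ → ℝ := fun x => chi x * Real.log (u x) with hf3
  have s1 : ContDiff ℝ ∞ f1 := phi_smooth.comp normSq_smooth
  have s2 : ∀ w ∈ Metric.ball (0 : ℂ) (1 / 2), ContDiffAt ℝ ∞ f2 w := fun w hw =>
    (hu w hw).1.log (hu w hw).2.1.ne'
  have s3 : ContDiff ℝ ∞ f3 := by
    rw [contDiff_iff_contDiffAt]
    intro w
    by_cases hw : ‖w‖ < 1 / 2
    · exact chi_smooth.contDiffAt.mul (s2 w (by simpa using hw))
    · have : f3 =ᶠ[𝓝 w] fun _ => 0 := by
        have hn : ∀ᶠ x : ℂ in 𝓝 w, 1 / 4 < ‖x‖ :=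
          continuous_norm.continuousAt.eventually (lt_mem_nhds (by linarith))
        filter_upwards [hn] with x hx
        rw [hf3]
        simp only
        rw [chi_zero hx.le, zero_mul]
      exact contDiffAt_const.congr_of_eventuallyEq this
  have c3 : ∀ w : ℂ, 1 / 4 < ‖w‖ → f3 w = 0 := by
    intro w hw
    rw [hf3]
    simp only
    rw [chi_zero hw.le, zero_mul]
  have hs3 : HasCompactSupport f3 := by
    refine HasCompactSupport.intro (isCompact_closedBall (0 : ℂ) (1 / 4)) ?_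
    intro w hw
    apply c3
    simpa using hw
  have key : ∀ w ∈ Metric.ball (0 : ℂ) (1 / 2), lap (fun x => Real.log (H x)) w =
      k * lap f1 w + -lap f3 w := by
    intro w hw
    have h1 : (fun x => Real.log (H x)) =ᶠ[𝓝 w] fun x => ((k : ℝ) * f1 x + f2 x) + (-1) * f3 x := by
      filter_upwards [Metric.isOpen_ball.mem_nhds hw] with x hx
      by_cases h0 : x = 0
      · subst h0
        rw [hH0 0 (by simp), hf1, hf2, hf3]
        simp only [Real.log_one, map_zero]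
        rw [chi_one (by simp)]
        simp [phi]
      · rw [hH x hx h0, hf1, hf2, hf3]
        simp only [phi, chi]
        ring
    rw [lap_congr h1, lap_add ((contDiffAt_const.mul s1.contDiffAt).add (s2 w hw))
      (contDiffAt_const.mul s3.contDiffAt), lap_add (contDiffAt_const.mul s1.contDiffAt) (s2 w hw),
      lap_mul_const _ s1.contDiffAt, lap_mul_const _ s3.contDiffAt, (hu w hw).2.2]
    ring
  rw [setIntegral_congr_fun measurableSet_ball key]
  have i1 : IntegrableOn (fun w => k * lap f1 w) (Metric.ball (0 : ℂ) (1 / 2)) :=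
    ((continuous_const.mul (lap_continuous s1)).continuousOn.integrableOn_compact
      (isCompact_closedBall (0 : ℂ) (1 / 2))).mono_set Metric.ball_subset_closedBall
  have i3 : IntegrableOn (fun w => -lap f3 w) (Metric.ball (0 : ℂ) (1 / 2)) :=
    ((lap_continuous s3).neg.continuousOn.integrableOn_compact
      (isCompact_closedBall (0 : ℂ) (1 / 2))).mono_set Metric.ball_subset_closedBall
  rw [integral_add i1 i3, integral_const_mul, integral_lap_phi, integral_neg]
  have z3 : ∫ w in Metric.ball (0 : ℂ) (1 / 2), lap f3 w = 0 := by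
    rw [setIntegral_eq_integral_of_forall_compl_eq_zero, integral_lap_zero s3 hs3]
    intro w hw
    have : f3 =ᶠ[𝓝 w] fun _ => (0 : ℝ) := by
      have hn : ∀ᶠ x : ℂ in 𝓝 w, 1 / 4 < ‖x‖ :=
        continuous_norm.continuousAt.eventually (lt_mem_nhds (by
          have : ¬ ‖w‖ < 1 / 2 := by simpa using hw
          linarith))
      filter_upwards [hn] with x hx
      exact c3 x hx
    rw [lap_congr this]
    simp [lap]
  rw [z3]
  ring

/-! ### the curve -/

section Curve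

variable (B : BaseCurve)

lemma s_left (c : B.C) : B.s^[B.N - 1] (B.s c) = c := by
  have h := congrFun B.s_iter c
  rw [← Nat.sub_add_cancel B.N_pos, Function.iterate_succ] at h
  simpa using h

lemma s_inj : Function.Injective B.s := fun a b h => by
  rw [← s_left B a, ← s_left B b, h]

lemma ball_D {σ : B.Sp} {w : ℂ} (hw : w ∈ Metric.ball (0 : ℂ) (1 / 2)) : w ∈ B.D (B.ch σ) := by
  rw [B.D_ch σ]
  exact hw

lemma disc_eq {σ τ : B.Sp} {w v : ℂ} (hw : w ∈ Metric.ball (0 : ℂ) (1 / 2))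
    (hv : v ∈ Metric.ball (0 : ℂ) (1 / 2)) (h : B.p (B.ch σ) w = B.p (B.ch τ) v) :
    σ = τ ∧ w = v := by
  have h1 : σ = τ := by
    by_contra hne
    exact Set.disjoint_left.1 (B.disj σ τ hne) ⟨w, hw, rfl⟩ ⟨v, hv, h.symm⟩
  subst h1
  exact ⟨rfl, B.p_inj _ (ball_D B hw) (ball_D B hv) h⟩

lemma p_cont_at {i : B.κ} {w : ℂ} (hw : w ∈ B.D i) : ContinuousAt (B.p i) w :=
  (B.p_cont i).continuousAt ((B.isOpen_D i).mem_nhds hw)

/-- the image of the closed disc is closed -/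
lemma isClosed_disc (σ : B.Sp) : IsClosed (B.p (B.ch σ) '' Metric.closedBall (0 : ℂ) (1 / 4)) := by
  refine ((isCompact_closedBall (0 : ℂ) (1 / 4)).image_of_continuousOn ?_).isClosed
  refine (B.p_cont (B.ch σ)).mono ?_
  rw [B.D_ch σ]
  exact Metric.closedBall_subset_ball (by norm_num)

/-- in the union of the open discs -/
def InDisc (c : B.C) : Prop := ∃ σ, ∃ w ∈ Metric.ball (0 : ℂ) (1 / 2), B.p (B.ch σ) w = c

lemma zeta_normSq : Complex.normSq (zetaN B.N) = 1 := by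
  unfold zetaN
  rw [Complex.normSq_eq_norm_sq, Complex.norm_exp]
  have : ((2 * Real.pi * Complex.I / B.N : ℂ)).re = 0 := by
    rw [show (2 * Real.pi * Complex.I / B.N : ℂ) = ((2 * Real.pi / B.N : ℝ) : ℂ) * Complex.I by
      push_cast; ring]
    simp
  rw [this]
  simp

lemma zeta_ball {w : ℂ} (hw : w ∈ Metric.ball (0 : ℂ) (1 / 2)) :
    zetaN B.N * w ∈ Metric.ball (0 : ℂ) (1 / 2) := by
  have h : ‖zetaN B.N‖ = 1 := by
    have := zeta_normSq B
    rw [Complex.normSq_eq_norm_sq] at this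
    nlinarith [norm_nonneg (zetaN B.N)]
  simpa [h] using hw

lemma inDisc_s {c : B.C} (h : InDisc B c) : InDisc B (B.s c) := by
  obtain ⟨σ, w, hw, rfl⟩ := h
  exact ⟨B.sσ σ, _, zeta_ball B hw, (B.s_ch σ w hw).symm⟩

lemma inDisc_iter {c : B.C} (k : ℕ) (h : InDisc B c) : InDisc B (B.s^[k] c) := by
  induction k with
  | zero => exact h
  | succ k ih =>
    rw [Function.iterate_succ', Function.comp_apply]
    exact inDisc_s B ih

lemma inDisc_s_iff {c : B.C} : InDisc B (B.s c) ↔ InDisc B c := by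
  refine ⟨fun h => ?_, inDisc_s B⟩
  have := inDisc_iter B (B.N - 1) h
  rwa [s_left] at this

variable (E : B.κ → ℂ → ℝ)

open Classical in
/-- the logarithm of the correction factor -/
def lam (c : B.C) : ℝ :=
  if h : InDisc B c then
    chi h.choose_spec.choose * Real.log (E (B.ch h.choose) h.choose_spec.choose) else 0

lemma lam_eval {σ : B.Sp} {w : ℂ} (hw : w ∈ Metric.ball (0 : ℂ) (1 / 2)) :
    lam B E (B.p (B.ch σ) w) = chi w * Real.log (E (B.ch σ) w) := by
  have h : InDisc B (B.p (B.ch σ) w) := ⟨σ, w, hw, rfl⟩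
  unfold lam
  rw [dif_pos h]
  have h1 := h.choose_spec.choose_spec
  obtain ⟨h2, h3⟩ := disc_eq B h1.1 hw h1.2
  have key : ∀ (a : B.Sp) (b : ℂ), a = σ → b = w →
      chi b * Real.log (E (B.ch a) b) = chi w * Real.log (E (B.ch σ) w) := by
    rintro a b rfl rfl
    rfl
  exact key _ _ h2 h3

lemma lam_zero {c : B.C} (hc : ∀ σ, c ∉ B.p (B.ch σ) '' Metric.closedBall (0 : ℂ) (1 / 4)) :
    lam B E c = 0 := by
  by_cases h : InDisc B c
  · obtain ⟨σ, w, hw, rfl⟩ := h
    rw [lam_eval B E hw, chi_zero, zero_mul]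
    by_contra hlt
    exact hc σ ⟨w, by simpa using (not_le.1 hlt).le, rfl⟩
  · unfold lam
    rw [dif_neg h]

/-- uncorrected function times correction factor -/
def F (i : B.κ) (w : ℂ) : ℝ := E i w * Real.exp (-lam B E (B.p i w))

variable (Z : Set B.C)

/-- the hypotheses on `E` -/
structure Good : Prop where
  hZ : ∀ c ∈ Z, ∃ σ, B.main σ ∧ c = B.p (B.ch σ) 0
  hE : ∀ i, ∀ w ∈ B.D i, B.p i w ∉ Z → ContDiffAt ℝ ∞ (E i) w ∧ 0 < E i w
  hT : ∀ i j (k : ℕ) w w', w ∈ B.D i → w' ∈ B.D j → B.p j w' = B.s^[k] (B.p i w) →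
      ∀ h : ℂ → ℂ, AnalyticAt ℂ h w → h w = w' → (∀ᶠ x in 𝓝 w, B.p j (h x) = B.s^[k] (B.p i x)) →
      B.p i w ∉ Z → E i w = Complex.normSq (deriv h w) * E j w'
  hD : ∀ i j (k : ℕ) w w', w ∈ B.D i → w' ∈ B.D j → B.p j w' = B.s^[k] (B.p i w) →
      ∀ h : ℂ → ℂ, AnalyticAt ℂ h w → h w = w' → (∀ᶠ x in 𝓝 w, B.p j (h x) = B.s^[k] (B.p i x)) →
      0 < Complex.normSq (deriv h w)

variable {B E Z}

lemma Good.s_fix (hG : Good B E Z) {c : B.C} (hc : c ∈ Z) : B.s c = c := by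
  obtain ⟨σ, hσ, rfl⟩ := hG.hZ c hc
  rw [B.s_ch σ 0 (by simp), B.main_fix σ hσ, mul_zero]

lemma Good.s_iter_fix (hG : Good B E Z) {c : B.C} (hc : c ∈ Z) (k : ℕ) : B.s^[k] c = c :=
  Function.iterate_fixed (hG.s_fix hc) k

lemma Good.iter_mem (hG : Good B E Z) {c : B.C} (k : ℕ) : B.s^[k] c ∈ Z ↔ c ∈ Z := by
  constructor
  · intro h
    have h1 := hG.s_iter_fix h k
    have h2 : B.s^[k] c = c := (s_inj B).iterate k h1
    rwa [h2] at h
  · intro h
    rwa [hG.s_iter_fix h k]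

lemma Good.lam_s (hG : Good B E Z) (c : B.C) : lam B E (B.s c) = lam B E c := by
  by_cases hc : InDisc B c
  · by_cases hz : c ∈ Z
    · rw [hG.s_fix hz]
    · obtain ⟨σ, w, hw, rfl⟩ := hc
      rw [B.s_ch σ w hw, lam_eval B E (zeta_ball B hw), lam_eval B E hw,
        chi_rot (zeta_normSq B)]
      have h := hG.hT (B.ch σ) (B.ch (B.sσ σ)) 1 w (zetaN B.N * w) (ball_D B hw)
        (ball_D B (zeta_ball B hw)) (B.s_ch σ w hw).symm (fun x => zetaN B.N * x)
        (analyticAt_const.mul analyticAt_id) rfl (by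
          filter_upwards [Metric.isOpen_ball.mem_nhds hw] with x hx
          exact (B.s_ch σ x hx).symm) hz
      have hd : deriv (fun x => zetaN B.N * x) w = zetaN B.N := by
        simp
      rw [hd, zeta_normSq, one_mul] at h
      rw [h]
  · have h2 : ¬ InDisc B (B.s c) := fun h => hc ((inDisc_s_iff B).1 h)
    unfold lam
    rw [dif_neg hc, dif_neg h2]

lemma Good.lam_iter (hG : Good B E Z) (k : ℕ) (c : B.C) : lam B E (B.s^[k] c) = lam B E c := by
  induction k with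
  | zero => rfl
  | succ k ih =>
    rw [Function.iterate_succ', Function.comp_apply, hG.lam_s, ih]

/-- local form of the transformation rule of `F` -/
lemma Good.F_trans (hG : Good B E Z) {i j : B.κ} {k : ℕ} {w w' : ℂ} (hw : w ∈ B.D i)
    (hw' : w' ∈ B.D j) (hww : B.p j w' = B.s^[k] (B.p i w)) {h : ℂ → ℂ} (hh : AnalyticAt ℂ h w)
    (hhw : h w = w') (hev : ∀ᶠ x in 𝓝 w, B.p j (h x) = B.s^[k] (B.p i x)) (hz : B.p i w ∉ Z) :
    F B E i w = Complex.normSq (deriv h w) * F B E j w' := by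
  unfold F
  rw [hww, hG.lam_iter, hG.hT i j k w w' hw hw' hww h hh hhw hev hz]
  ring

lemma Good.closed (hG : Good B E Z) : IsClosed Z := by
  refine (Set.Finite.subset (Set.finite_range (fun σ => B.p (B.ch σ) 0)) ?_).isClosed
  intro c hc
  obtain ⟨σ, -, rfl⟩ := hG.hZ c hc
  exact ⟨σ, rfl⟩

/-- near any point (the point itself excluded) we are outside `Z` -/
lemma Good.ev_notMem (hG : Good B E Z) {i : B.κ} {w : ℂ} (hw : w ∈ B.D i) :
    ∀ᶠ x in 𝓝[≠] w, x ∈ B.D i ∧ B.p i x ∉ Z := by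
  have hfin : (Z \ {B.p i w}).Finite := by
    refine Set.Finite.subset (Set.finite_range (fun σ => B.p (B.ch σ) 0)) ?_
    intro c hc
    obtain ⟨σ, -, rfl⟩ := hG.hZ c hc.1
    exact ⟨σ, rfl⟩
  have h1 : ∀ᶠ x in 𝓝 w, B.p i x ∉ Z \ {B.p i w} :=
    (p_cont_at B hw).eventually (hfin.isClosed.isOpen_compl.mem_nhds (by simp))
  filter_upwards [nhdsWithin_le_nhds h1, nhdsWithin_le_nhds ((B.isOpen_D i).mem_nhds hw),
    self_mem_nhdsWithin] with x hx hxD hne
  refine ⟨hxD, fun hz => hx ⟨hz, ?_⟩⟩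
  intro he
  exact hne (B.p_inj i hxD hw he)

/-- local smooth extension of `F` -/
lemma Good.local_ext (hG : Good B E Z) {i : B.κ} {w : ℂ} (hw : w ∈ B.D i) :
    ∃ g : ℂ → ℝ, ContDiffAt ℝ ∞ g w ∧ 0 < g w ∧ (∀ᶠ x in 𝓝[≠] w, F B E i x = g x) ∧
      (B.p i w ∉ Z → F B E i w = g w) := by
  by_cases hc : ∀ σ, B.p i w ∉ B.p (B.ch σ) '' Metric.closedBall (0 : ℂ) (1 / 4)
  · have hz : B.p i w ∉ Z := by
      intro hz
      obtain ⟨σ, -, h2⟩ := hG.hZ _ hz
      exact hc σ ⟨0, by simp, h2.symm⟩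
    have hev : ∀ᶠ x in 𝓝 w, F B E i x = E i x := by
      have h1 : ∀ᶠ x in 𝓝 w, ∀ σ, B.p i x ∉ B.p (B.ch σ) '' Metric.closedBall (0 : ℂ) (1 / 4) :=
        Filter.eventually_all.2 fun σ =>
          (p_cont_at B hw).eventually ((isClosed_disc B σ).isOpen_compl.mem_nhds (hc σ))
      filter_upwards [h1] with x hx
      unfold F
      rw [lam_zero B E hx]
      simp
    exact ⟨E i, (hG.hE i w hw hz).1, (hG.hE i w hw hz).2, nhdsWithin_le_nhds hev,
      fun _ => hev.self_of_nhds⟩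
  · push Not at hc
    obtain ⟨σ, w', hw'4, hww⟩ := hc
    have hw' : w' ∈ Metric.ball (0 : ℂ) (1 / 2) :=
      Metric.closedBall_subset_ball (by norm_num) hw'4
    obtain ⟨h, hh, hhw, hev⟩ := B.hol i (B.ch σ) 0 w w' hw (ball_D B hw') hww
    have hpos := hG.hD i (B.ch σ) 0 w w' hw (ball_D B hw') hww h hh hhw hev
    -- the factor
    have hsm : ContDiffAt ℝ ∞ (fun x => Complex.normSq (deriv h x)) w := by
      have h1 : ContDiffAt ℂ ∞ (deriv h) w := hh.deriv.contDiffAt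
      exact (normSq_smooth.contDiffAt (x := deriv h w)).comp w (h1.restrict_scalars ℝ)
    have hhc : ContinuousAt h w := hh.continuousAt
    have hball : ∀ᶠ x in 𝓝 w, h x ∈ Metric.ball (0 : ℂ) (1 / 2) :=
      hhc.eventually (Metric.isOpen_ball.mem_nhds (by rw [hhw]; exact hw'))
    have hev2 : ∀ᶠ x in 𝓝 w, x ∈ B.D i → B.p i x ∉ Z → F B E i x = Complex.normSq (deriv h x) *
        (E (B.ch σ) (h x) * Real.exp (-(chi (h x) * Real.log (E (B.ch σ) (h x))))) := by
      filter_upwards [eventually_eventually_nhds.2 hev, hball, hh.eventually_analyticAt] with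
        x hx hxb hxa hxD hxZ
      have := hG.F_trans (i := i) (j := B.ch σ) (k := 0) (w := x) (w' := h x) hxD (ball_D B hxb)
        hx.self_of_nhds hxa rfl hx hxZ
      rw [this]
      unfold F
      rw [lam_eval B E hxb]
    by_cases hz : B.p i w ∈ Z
    · -- centre
      obtain ⟨τ, hτ, hτw⟩ := hG.hZ _ hz
      obtain ⟨rfl, rfl⟩ := disc_eq B hw' (show (0 : ℂ) ∈ Metric.ball (0 : ℂ) (1 / 2) by simp)
        (hww.trans hτw)
      refine ⟨fun x => Complex.normSq (deriv h x), hsm, hpos, ?_, fun hn => absurd hz hn⟩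
      have hb7 : ∀ᶠ x in 𝓝 w, h x ∈ Metric.ball (0 : ℂ) (1 / 7) :=
        hhc.eventually (Metric.isOpen_ball.mem_nhds (by rw [hhw]; simp))
      filter_upwards [hG.ev_notMem hw, nhdsWithin_le_nhds hev2, nhdsWithin_le_nhds hb7,
        nhdsWithin_le_nhds hev, nhdsWithin_le_nhds hball] with x hx hx2 hx7 hxe hxb
      rw [hx2 hx.1 hx.2, chi_one (by simpa using (Metric.mem_ball.1 hx7).le), one_mul]
      have hpx : 0 < E (B.ch σ) (h x) := by
        refine (hG.hE (B.ch σ) (h x) (ball_D B hxb) ?_).2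
        rw [hxe]
        exact hx.2
      rw [Real.exp_neg, Real.exp_log hpx, mul_inv_cancel₀ hpx.ne', mul_one]
    · have hz' : B.p (B.ch σ) w' ∉ Z := by rwa [hww]
      obtain ⟨hs1, hp1⟩ := hG.hE (B.ch σ) w' (ball_D B hw') hz'
      subst hhw
      refine ⟨fun x => Complex.normSq (deriv h x) *
        (E (B.ch σ) (h x) * Real.exp (-(chi (h x) * Real.log (E (B.ch σ) (h x))))), ?_, ?_, ?_, ?_⟩
      · have hhs : ContDiffAt ℝ ∞ h w := (hh.contDiffAt (n := ∞)).restrict_scalars ℝ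
        have hEs : ContDiffAt ℝ ∞ (fun x => E (B.ch σ) (h x)) w := hs1.comp w hhs
        have hcs : ContDiffAt ℝ ∞ (fun x => chi (h x)) w :=
          (chi_smooth.contDiffAt (x := h w)).comp w hhs
        exact hsm.mul (hEs.mul ((hcs.mul (hEs.log hp1.ne')).neg.exp))
      · exact mul_pos hpos (mul_pos hp1 (Real.exp_pos _))
      · filter_upwards [hG.ev_notMem hw, nhdsWithin_le_nhds hev2] with x hx hx2
        exact hx2 hx.1 hx.2
      · intro _
        exact hev2.self_of_nhds hw hz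

/-- the normalised function -/
def Hn (B : BaseCurve) (E : B.κ → ℂ → ℝ) (i : B.κ) (w : ℂ) : ℝ :=
  Filter.limUnder (𝓝[≠] w) (F B E i)

lemma Hn_eq {i : B.κ} {w : ℂ} {g : ℂ → ℝ} (hg : ContinuousAt g w)
    (h : ∀ᶠ x in 𝓝[≠] w, F B E i x = g x) : Hn B E i w = g w := by
  unfold Hn
  refine Filter.Tendsto.limUnder_eq ?_
  exact (hg.mono_left nhdsWithin_le_nhds).congr' (by
    filter_upwards [h] with x hx
    exact hx.symm)

lemma Hn_eventuallyEq {i : B.κ} {w : ℂ} {g : ℂ → ℝ} (hg : ContDiffAt ℝ ∞ g w)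
    (h : ∀ᶠ x in 𝓝[≠] w, F B E i x = g x) : Hn B E i =ᶠ[𝓝 w] g := by
  have h1 : ∀ᶠ x in 𝓝[≠] w, ∀ᶠ y in 𝓝[≠] x, F B E i y = g y := by
    have := eventually_eventually_nhdsWithin.2 h
    filter_upwards [this, self_mem_nhdsWithin] with x hx hne
    have hx' : ∀ᶠ y in 𝓝 x, y ∈ ({w}ᶜ : Set ℂ) → F B E i y = g y :=
      eventually_nhdsWithin_iff.1 hx
    have ho : ∀ᶠ y in 𝓝 x, y ∈ ({w}ᶜ : Set ℂ) := isOpen_compl_singleton.mem_nhds hne
    refine nhdsWithin_le_nhds ?_
    filter_upwards [hx', ho] with y h1 h2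
    exact h1 h2
  have h2 : ∀ᶠ x in 𝓝 w, ContinuousAt g x := by
    have h3 : ContDiffAt ℝ 1 g w := hg.of_le (by exact_mod_cast le_top)
    filter_upwards [h3.eventually (by simp)] with x hx
    exact hx.continuousAt
  have h4 : ∀ᶠ x in 𝓝[≠] w, Hn B E i x = g x := by
    filter_upwards [h1, nhdsWithin_le_nhds h2] with x hx hx2
    exact Hn_eq hx2 hx
  have h5 : Hn B E i w = g w := Hn_eq hg.continuousAt h
  rw [eventually_nhdsWithin_iff] at h4
  filter_upwards [h4] with x hx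
  by_cases hxw : x = w
  · rw [hxw, h5]
  · exact hx hxw

lemma Good.Hn_smooth (hG : Good B E Z) {i : B.κ} {w : ℂ} (hw : w ∈ B.D i) :
    ContDiffAt ℝ ∞ (Hn B E i) w ∧ 0 < Hn B E i w := by
  obtain ⟨g, hg, hp, he, -⟩ := hG.local_ext hw
  have h := Hn_eventuallyEq hg he
  exact ⟨hg.congr_of_eventuallyEq h, by rw [h.self_of_nhds]; exact hp⟩

lemma Good.Hn_F (hG : Good B E Z) {i : B.κ} {w : ℂ} (hw : w ∈ B.D i) (hz : B.p i w ∉ Z) :
    Hn B E i w = F B E i w := by
  obtain ⟨g, hg, hp, he, hF⟩ := hG.local_ext hw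
  rw [hF hz]
  exact Hn_eq hg.continuousAt he

lemma Good.Hn_trans (hG : Good B E Z) {i j : B.κ} {k : ℕ} {w w' : ℂ} (hw : w ∈ B.D i)
    (hw' : w' ∈ B.D j) (hww : B.p j w' = B.s^[k] (B.p i w)) {h : ℂ → ℂ} (hh : AnalyticAt ℂ h w)
    (hhw : h w = w') (hev : ∀ᶠ x in 𝓝 w, B.p j (h x) = B.s^[k] (B.p i x)) :
    Hn B E i w = Complex.normSq (deriv h w) * Hn B E j w' := by
  subst hhw
  have hL : ContinuousAt (Hn B E i) w := (hG.Hn_smooth hw).1.continuousAt
  have hR : ContinuousAt (fun x => Complex.normSq (deriv h x) * Hn B E j (h x)) w := by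
    refine ContinuousAt.mul ?_ ?_
    · exact (normSq_smooth.continuous.continuousAt).comp hh.deriv.continuousAt
    · exact ContinuousAt.comp (g := Hn B E j) (hG.Hn_smooth hw').1.continuousAt hh.continuousAt
  have he : ∀ᶠ x in 𝓝[≠] w, Hn B E i x = Complex.normSq (deriv h x) * Hn B E j (h x) := by
    have hD : ∀ᶠ x in 𝓝 w, h x ∈ B.D j :=
      hh.continuousAt.eventually ((B.isOpen_D j).mem_nhds hw')
    filter_upwards [hG.ev_notMem hw, nhdsWithin_le_nhds (eventually_eventually_nhds.2 hev),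
      nhdsWithin_le_nhds hh.eventually_analyticAt, nhdsWithin_le_nhds hD] with x hx hxe hxa hxD
    rw [hG.Hn_F hx.1 hx.2, hG.Hn_F hxD (by
      rw [hxe.self_of_nhds, hG.iter_mem]
      exact hx.2)]
    exact hG.F_trans hx.1 hxD hxe.self_of_nhds hxa rfl hxe hx.2
  have h1 : Filter.Tendsto (Hn B E i) (𝓝[≠] w) (𝓝 (Hn B E i w)) :=
    hL.mono_left nhdsWithin_le_nhds
  have h2 : Filter.Tendsto (Hn B E i) (𝓝[≠] w)
      (𝓝 (Complex.normSq (deriv h w) * Hn B E j (h w))) :=
    (hR.mono_left nhdsWithin_le_nhds).congr' (by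
      filter_upwards [he] with x hx
      exact hx.symm)
  exact tendsto_nhds_unique h1 h2

lemma Good.Hn_flat (hG : Good B E Z) {i : B.κ} {w : ℂ} (hw : w ∈ B.D i)
    (hc : ∀ σ, B.p i w ∉ B.p (B.ch σ) '' Metric.closedBall (0 : ℂ) (1 / 4)) :
    Hn B E i =ᶠ[𝓝 w] E i := by
  have hz : ∀ c : B.C, (∀ σ, c ∉ B.p (B.ch σ) '' Metric.closedBall (0 : ℂ) (1 / 4)) → c ∉ Z := by
    intro c hc hz
    obtain ⟨σ, -, h2⟩ := hG.hZ _ hz
    exact hc σ ⟨0, by simp, h2.symm⟩
  have h1 : ∀ᶠ x in 𝓝 w, ∀ σ, B.p i x ∉ B.p (B.ch σ) '' Metric.closedBall (0 : ℂ) (1 / 4) :=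
    Filter.eventually_all.2 fun σ =>
      (p_cont_at B hw).eventually ((isClosed_disc B σ).isOpen_compl.mem_nhds (hc σ))
  filter_upwards [h1, (B.isOpen_D i).mem_nhds hw] with x hx hxD
  rw [hG.Hn_F hxD (hz _ hx)]
  unfold F
  rw [lam_zero B E hx]
  simp

lemma Good.Hn_disc (hG : Good B E Z) {σ : B.Sp} {w : ℂ} (hw : w ∈ Metric.ball (0 : ℂ) (1 / 2))
    (hz : B.p (B.ch σ) w ∉ Z) :
    Hn B E (B.ch σ) w =
      E (B.ch σ) w * Real.exp (-(chi w * Real.log (E (B.ch σ) w))) := by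
  rw [hG.Hn_F (ball_D B hw) hz]
  unfold F
  rw [lam_eval B E hw]

lemma Good.Hn_log (hG : Good B E Z) {σ : B.Sp} {w : ℂ} (hw : w ∈ Metric.ball (0 : ℂ) (1 / 2))
    (hz : B.p (B.ch σ) w ∉ Z) :
    Real.log (Hn B E (B.ch σ) w) = (1 - chi w) * Real.log (E (B.ch σ) w) := by
  have hp := (hG.hE (B.ch σ) w (ball_D B hw) hz).2
  rw [hG.Hn_disc hw hz, Real.log_mul hp.ne' (Real.exp_pos _).ne', Real.log_exp]
  ring

lemma Good.Hn_center (hG : Good B E Z) (σ : B.Sp) {w : ℂ} (hw : ‖w‖ < 1 / 7) :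
    Hn B E (B.ch σ) w = 1 := by
  have hwb : w ∈ Metric.ball (0 : ℂ) (1 / 2) := by
    simp
    linarith
  refine Hn_eq (g := fun _ => 1) continuousAt_const ?_
  have h7 : ∀ᶠ x : ℂ in 𝓝 w, ‖x‖ < 1 / 7 := continuous_norm.continuousAt.eventually (gt_mem_nhds hw)
  filter_upwards [hG.ev_notMem (ball_D B hwb), nhdsWithin_le_nhds h7] with x hx hx7
  have hxb : x ∈ Metric.ball (0 : ℂ) (1 / 2) := by
    simp
    linarith
  have hp := (hG.hE (B.ch σ) x (ball_D B hxb) hx.2).2
  unfold F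
  rw [lam_eval B E hxb, chi_one hx7.le, one_mul, Real.exp_neg, Real.exp_log hp,
    mul_inv_cancel₀ hp.ne']

end Curve

end BaseNorm

theorem RawData.exists_metricData {B : BaseCurve} (R : RawData B) :
    ∃ D : MetricData B, D.ord = R.ord := by
  have hD : ∀ i j (k : ℕ) w w', w ∈ B.D i → w' ∈ B.D j → B.p j w' = B.s^[k] (B.p i w) →
      ∀ h : ℂ → ℂ, AnalyticAt ℂ h w → h w = w' → (∀ᶠ x in 𝓝 w, B.p j (h x) = B.s^[k] (B.p i x)) →
      0 < Complex.normSq (deriv h w) := by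
    intro i j k w w' hw hw' hww h hh hhw hev
    have h1 := R.K_trans i j k w w' hw hw' hww h hh hhw hev
    have h2 := R.K_pos i w hw
    refine lt_of_le_of_ne (Complex.normSq_nonneg _) fun h3 => ?_
    rw [h1, ← h3, zero_mul] at h2
    exact lt_irrefl _ h2
  have hK : BaseNorm.Good B R.K ∅ :=
    { hZ := fun c hc => absurd hc (Set.notMem_empty c)
      hE := fun i w hw _ => ⟨(R.K_smooth i).contDiffAt ((B.isOpen_D i).mem_nhds hw),
        R.K_pos i w hw⟩
      hT := fun i j k w w' hw hw' hww h hh hhw hev _ =>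
        R.K_trans i j k w w' hw hw' hww h hh hhw hev
      hD := hD }
  set Z : Set B.C := {c | ∃ σ, B.main σ ∧ c = B.p (B.ch σ) 0} with hZdef
  have hnot : ∀ c, c ∉ Z → ∀ σ, B.main σ → c ≠ B.p (B.ch σ) 0 := fun c hc σ hσ he =>
    hc ⟨σ, hσ, he⟩
  have hH : BaseNorm.Good B R.E Z :=
    { hZ := fun c hc => hc
      hE := fun i w hw hz => ⟨(R.E_smooth i w hw (hnot _ hz)).1,
        (R.E_smooth i w hw (hnot _ hz)).2.1⟩
      hT := fun i j k w w' hw hw' hww h hh hhw hev hz =>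
        R.E_trans i j k w w' hw hw' hww h hh hhw hev (hnot _ hz)
      hD := hD }
  have hflat : ∀ i, ∀ w ∈ B.D i, (∀ σ, B.p i w ∉ B.p (B.ch σ) '' Metric.closedBall 0 (1 / 4)) →
      lap (fun u => Real.log (BaseNorm.Hn B R.E i u)) w = 0 := by
    intro i w hw hc
    have h1 := hH.Hn_flat hw hc
    have h2 : (fun u => Real.log (BaseNorm.Hn B R.E i u)) =ᶠ[𝓝 w] fun u => Real.log (R.E i u) := by
      filter_upwards [h1] with x hx
      rw [hx]
    rw [BaseNorm.lap_congr h2]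
    refine (R.E_smooth i w hw ?_).2.2
    intro σ _ he
    exact hc σ ⟨0, by simp, he.symm⟩
  refine ⟨{
    ord := R.ord
    H := BaseNorm.Hn B R.E
    H_smooth := fun i w hw => (hH.Hn_smooth hw).1.contDiffWithinAt
    H_pos := fun i w hw => (hH.Hn_smooth hw).2
    H_trans := fun i j k w w' hw hw' hww h hh hhw hev => hH.Hn_trans hw hw' hww hh hhw hev
    H_center := fun σ w hw => hH.Hn_center σ hw
    H_flat := hflat
    H_flat' := ?_
    H_mass_main := ?_
    H_mass := ?_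
    K := BaseNorm.Hn B R.K
    K_smooth := fun i w hw => (hK.Hn_smooth hw).1.contDiffWithinAt
    K_pos := fun i w hw => (hK.Hn_smooth hw).2
    K_trans := fun i j k w w' hw hw' hww h hh hhw hev => hK.Hn_trans hw hw' hww hh hhw hev
    K_center := fun σ w hw => hK.Hn_center σ hw }, rfl⟩
  · intro σ w h1 h2
    have hwb : w ∈ Metric.ball (0 : ℂ) (1 / 2) := by simpa using h2
    refine hflat (B.ch σ) w (BaseNorm.ball_D B hwb) ?_
    rintro τ ⟨v, hv, he⟩
    have hvb : v ∈ Metric.ball (0 : ℂ) (1 / 2) := Metric.closedBall_subset_ball (by norm_num) hv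
    obtain ⟨-, rfl⟩ := BaseNorm.disc_eq B hvb hwb he
    have : ‖v‖ ≤ 1 / 4 := by simpa using hv
    linarith
  · intro σ hσ
    obtain ⟨u, hu1, hu2⟩ := R.E_main σ hσ
    refine BaseNorm.mass R.ord u _ hu1 (fun w hw => hH.Hn_center σ hw) ?_
    intro w hw hw0
    have hz : B.p (B.ch σ) w ∉ Z := by
      rintro ⟨τ, -, he⟩
      exact hw0 (BaseNorm.disc_eq B hw (by simp) he).2
    rw [hH.Hn_log hw hz, hu2 w hw hw0, Real.log_mul _ (hu1 w hw).2.1.ne', Real.log_zpow]
    exact (zpow_pos (Complex.normSq_pos.2 hw0) _).ne'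
  · intro σ hσ
    have hz : ∀ w ∈ Metric.ball (0 : ℂ) (1 / 2), B.p (B.ch σ) w ∉ Z := by
      rintro w hw ⟨τ, hτ, he⟩
      obtain ⟨rfl, -⟩ := BaseNorm.disc_eq B hw (by simp) he
      exact hσ hτ
    have h := BaseNorm.mass 0 (R.E (B.ch σ)) (BaseNorm.Hn B R.E (B.ch σ)) (fun w hw =>
      R.E_smooth _ w (BaseNorm.ball_D B hw) (hnot _ (hz w hw))) (fun w hw => hH.Hn_center σ hw) (by
        intro w hw _
        rw [hH.Hn_log hw (hz w hw)]
        simp)
    simpa using h

end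

end GK
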