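import Pool.Agent.GK.Base

/-! # Module BaseP1: the projective line, `N = 1`, special points `0, ∞` (both main),
one-form `dw/w` -/

open scoped ContDiff Topology
open MeasureTheory Filter

namespace GK

noncomputable section

namespace P1

/-- inversion on the Riemann sphere -/
def J : OnePoint ℂ → OnePoint ℂ
  | none => ((0 : ℂ) : OnePoint ℂ)
  | some w => if w = 0 then OnePoint.infty else ((w⁻¹ : ℂ) : OnePoint ℂ)

lemma J_infty : J OnePoint.infty = ((0 : ℂ) : OnePoint ℂ) := rfl

lemma J_coe (w : ℂ) : J (w : OnePoint ℂ) =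
    if w = 0 then OnePoint.infty else ((w⁻¹ : ℂ) : OnePoint ℂ) := rfl

lemma J_J (x : OnePoint ℂ) : J (J x) = x := by
  induction x using OnePoint.rec with
  | infty => rw [J_infty, J_coe, if_pos rfl]
  | coe w =>
    rw [J_coe]
    split_ifs with h
    · rw [J_infty, h]
    · rw [J_coe, if_neg (inv_ne_zero h), inv_inv]

lemma J_cont : Continuous J := by
  rw [continuous_iff_continuousAt]
  intro x
  induction x using OnePoint.rec with
  | infty =>
    rw [OnePoint.continuousAt_infty']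
    have h1 : Tendsto (fun w : ℂ => ((w⁻¹ : ℂ) : OnePoint ℂ)) (coclosedCompact ℂ)
        (𝓝 ((0 : ℂ) : OnePoint ℂ)) := by
      refine (OnePoint.continuous_coe.tendsto (0 : ℂ)).comp ?_
      rw [coclosedCompact_eq_cocompact, ← Metric.cobounded_eq_cocompact]
      exact tendsto_inv₀_cobounded
    refine h1.congr' ?_
    have h2 : ∀ᶠ w : ℂ in coclosedCompact ℂ, w ≠ 0 := by
      rw [coclosedCompact_eq_cocompact]
      exact (isCompact_singleton (x := (0 : ℂ))).compl_mem_cocompact
    filter_upwards [h2] with w hw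
    simp [J_coe, hw]
  | coe w =>
    rw [OnePoint.continuousAt_coe]
    by_cases hw : w = 0
    · subst hw
      have h0 : (J ∘ fun x : ℂ => (x : OnePoint ℂ)) 0 = OnePoint.infty := by simp [J_coe]
      rw [ContinuousAt, h0, ← nhdsNE_sup_pure, tendsto_sup]
      constructor
      · have h1 : Tendsto (fun w : ℂ => ((w⁻¹ : ℂ) : OnePoint ℂ)) (𝓝[≠] 0)
            (𝓝 (OnePoint.infty : OnePoint ℂ)) := by
          refine (OnePoint.tendsto_coe_infty (X := ℂ)).comp ?_
          rw [coclosedCompact_eq_cocompact, ← Metric.cobounded_eq_cocompact]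
          exact tendsto_inv₀_nhdsNE_zero
        refine h1.congr' ?_
        filter_upwards [self_mem_nhdsWithin] with x hx
        have hx' : x ≠ 0 := hx
        simp [J_coe, hx']
      · rw [tendsto_pure_left]
        intro s hs
        rw [h0]
        exact mem_of_mem_nhds hs
    · have h1 : ContinuousAt (fun w : ℂ => ((w⁻¹ : ℂ) : OnePoint ℂ)) w :=
        (OnePoint.continuous_coe.continuousAt).comp (continuousAt_inv₀ hw)
      refine h1.congr ?_
      filter_upwards [isOpen_ne.mem_nhds hw] with x hx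
      have hx' : x ≠ 0 := hx
      simp [J_coe, hx']

lemma J_open {W : Set (OnePoint ℂ)} (hW : IsOpen W) : IsOpen (J '' W) := by
  have : J '' W = J ⁻¹' W := by
    ext x
    constructor
    · rintro ⟨y, hy, rfl⟩
      show J (J y) ∈ W
      rw [J_J]; exact hy
    · intro hx
      exact ⟨J x, hx, J_J x⟩
  rw [this]
  exact hW.preimage J_cont

lemma J_inj : Function.Injective J := fun x y h => by
  rw [← J_J x, ← J_J y, h]

/-- the two affine charts -/
def P (b : Bool) (w : ℂ) : OnePoint ℂ := if b then J (w : OnePoint ℂ) else (w : OnePoint ℂ)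

lemma P_cont (b : Bool) : Continuous (P b) := by
  cases b
  · exact OnePoint.continuous_coe
  · exact J_cont.comp OnePoint.continuous_coe

lemma P_inj (b : Bool) : Function.Injective (P b) := by
  cases b
  · exact OnePoint.coe_injective
  · exact J_inj.comp OnePoint.coe_injective

lemma P_open (b : Bool) {W : Set ℂ} (hW : IsOpen W) : IsOpen (P b '' W) := by
  have h1 : IsOpen ((fun w : ℂ => (w : OnePoint ℂ)) '' W) := by
    exact OnePoint.isOpen_image_coe.2 hW
  cases b
  · exact h1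
  · have h2 : P true '' W = J '' ((fun w : ℂ => (w : OnePoint ℂ)) '' W) := by
      rw [Set.image_image]; rfl
    rw [h2]
    exact J_open h1

lemma P_surj (c : OnePoint ℂ) : ∃ b w, P b w = c := by
  induction c using OnePoint.rec with
  | infty => exact ⟨true, 0, by simp [P, J_coe]⟩
  | coe w => exact ⟨false, w, rfl⟩

lemma P_ne {b b' : Bool} (hb : b ≠ b') {w w' : ℂ} : P b w = P b' w' ↔ w ≠ 0 ∧ w' = w⁻¹ := by
  have key : ∀ w w' : ℂ, J (w : OnePoint ℂ) = (w' : OnePoint ℂ) ↔ w ≠ 0 ∧ w' = w⁻¹ := by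
    intro w w'
    rw [J_coe]
    split_ifs with h
    · simp [h, OnePoint.infty_ne_coe]
    · simp only [OnePoint.coe_eq_coe, ne_eq, h, not_false_eq_true, true_and]
      exact eq_comm
  cases b <;> cases b'
  · exact absurd rfl hb
  · show (w : OnePoint ℂ) = J (w' : OnePoint ℂ) ↔ _
    rw [eq_comm, key]
    constructor
    · rintro ⟨h1, h2⟩
      rw [h2]
      exact ⟨inv_ne_zero h1, by rw [inv_inv]⟩
    · rintro ⟨h1, h2⟩
      rw [h2]
      exact ⟨inv_ne_zero h1, by rw [inv_inv]⟩
  · exact key w w'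
  · exact absurd rfl hb

/-- the change of parameters -/
lemma hol_aux (b b' : Bool) {w w' : ℂ} (h : P b' w' = P b w) :
    ∃ g : ℂ → ℂ, AnalyticAt ℂ g w ∧ g w = w' ∧ ∀ᶠ x in 𝓝 w, P b' (g x) = P b x := by
  by_cases hb : b' = b
  · subst hb
    exact ⟨fun x => x, analyticAt_id, (P_inj b' h).symm, Eventually.of_forall fun _ => rfl⟩
  · obtain ⟨h1, h2⟩ := (P_ne hb).1 h
    have hw : w ≠ 0 := by rw [h2]; exact inv_ne_zero h1
    refine ⟨fun x => x⁻¹, analyticAt_inv hw, ?_, ?_⟩
    · show w⁻¹ = w'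
      rw [h2, inv_inv]
    · filter_upwards [isOpen_ne.mem_nhds hw] with x hx
      have hx' : x ≠ 0 := hx
      exact (P_ne hb).2 ⟨inv_ne_zero hx', by rw [inv_inv]⟩

/-- derivative of the change of parameters -/
lemma deriv_aux (b b' : Bool) {w : ℂ} {g : ℂ → ℂ} (hg : ∀ᶠ x in 𝓝 w, P b' (g x) = P b x) :
    (b' = b ∧ g w = w ∧ deriv g w = 1) ∨ (w ≠ 0 ∧ g w = w⁻¹ ∧ deriv g w = -(w ^ 2)⁻¹) := by
  by_cases hb : b' = b
  · subst hb
    left
    have h1 : g =ᶠ[𝓝 w] fun x => x := by
      filter_upwards [hg] with x hx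
      exact P_inj b' hx
    refine ⟨rfl, h1.self_of_nhds, ?_⟩
    rw [h1.deriv_eq]
    simp
  · right
    have h1 : g =ᶠ[𝓝 w] fun x => x⁻¹ := by
      filter_upwards [hg] with x hx
      obtain ⟨_, h4⟩ := (P_ne hb).1 hx
      have h5 : x⁻¹ = g x := by
        have := congrArg (fun t => t⁻¹) h4
        simpa using this
      exact h5.symm
    have h2 := (P_ne hb).1 hg.self_of_nhds
    have hw : w ≠ 0 := by rw [h2.2]; exact inv_ne_zero h2.1
    refine ⟨hw, h1.self_of_nhds, ?_⟩
    rw [h1.deriv_eq]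
    exact deriv_inv

/-- the curve -/
def B : BaseCurve where
  N := 1
  N_pos := one_pos
  N_dvd := one_dvd _
  C := OnePoint ℂ
  κ := Bool × Bool
  D i := if i.2 then Metric.ball 0 (1 / 2) else Set.univ
  isOpen_D i := by
    split_ifs
    · exact Metric.isOpen_ball
    · exact isOpen_univ
  p i := P i.1
  p_cont i := (P_cont i.1).continuousOn
  p_inj i := (P_inj i.1).injOn
  p_open i W hW _ := P_open i.1 hW
  p_surj c := by
    obtain ⟨b, w, h⟩ := P_surj c
    exact ⟨(b, false), w, by simp, h⟩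
  s := id
  s_cont := continuous_id
  s_iter := by simp
  hol i j k w w' _ _ h := by
    simp only [Function.iterate_id, id_eq] at h ⊢
    exact hol_aux i.1 j.1 h
  Sp := Bool
  ch σ := (σ, true)
  D_ch σ := by simp
  sσ := id
  s_ch σ w _ := by
    simp [zetaN]
  disj σ τ hστ := by
    rw [Set.disjoint_left]
    rintro _ ⟨w, hw, rfl⟩ ⟨w', hw', h⟩
    obtain ⟨h1, h2⟩ := (P_ne hστ.symm).1 h
    rw [Metric.mem_ball, dist_zero_right] at hw hw'
    rw [h2, norm_inv] at hw
    have h3 : 0 < ‖w'‖ := norm_pos_iff.2 h1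
    have h4 : ‖w'‖⁻¹ * ‖w'‖ = 1 := inv_mul_cancel₀ h3.ne'
    nlinarith [inv_pos.2 h3]
  free c k _ hk := absurd (one_dvd k) hk
  main _ := True
  main_fix _ _ := rfl
  exists_main := ⟨true, trivial⟩

lemma hasFDerivAt_normSq (w : ℂ) : HasFDerivAt (fun u : ℂ => Complex.normSq u)
    ((2 * w.re) • Complex.reCLM + (2 * w.im) • Complex.imCLM) w := by
  have h1 : (fun u : ℂ => Complex.normSq u) = fun u => u.re * u.re + u.im * u.im := by
    ext u; exact Complex.normSq_apply u
  rw [h1]
  have h2 : HasFDerivAt (fun u : ℂ => u.re) Complex.reCLM w := Complex.reCLM.hasFDerivAt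
  have h3 : HasFDerivAt (fun u : ℂ => u.im) Complex.imCLM w := Complex.imCLM.hasFDerivAt
  refine ((h2.mul h2).add (h3.mul h3)).congr_fderiv ?_
  ext v
  simp
  ring

lemma contDiffAt_normSq (w : ℂ) : ContDiffAt ℝ ∞ (fun u : ℂ => Complex.normSq u) w := by
  have h1 : (fun u : ℂ => Complex.normSq u) = fun u => u.re * u.re + u.im * u.im := by
    ext u; exact Complex.normSq_apply u
  rw [h1]
  have h2 : ContDiffAt ℝ ∞ (fun u : ℂ => u.re) w := Complex.reCLM.contDiff.contDiffAt
  have h3 : ContDiffAt ℝ ∞ (fun u : ℂ => u.im) w := Complex.imCLM.contDiff.contDiffAt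
  exact (h2.mul h2).add (h3.mul h3)

lemma fderiv_log {u : ℂ} (hu : u ≠ 0) (v : ℂ) :
    fderiv ℝ (fun u : ℂ => Real.log (Complex.normSq u)⁻¹) u v =
      -(2 * u.re * v.re + 2 * u.im * v.im) / Complex.normSq u := by
  have h0 : Complex.normSq u ≠ 0 := by simpa using hu
  have h1 : HasFDerivAt (fun u : ℂ => Real.log (Complex.normSq u)⁻¹)
      (-((Complex.normSq u)⁻¹ • ((2 * u.re) • Complex.reCLM + (2 * u.im) • Complex.imCLM))) u := by
    have h2 := ((hasFDerivAt_normSq u).log h0).neg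
    refine h2.congr_of_eventuallyEq (Eventually.of_forall fun x => ?_)
    show Real.log (Complex.normSq x)⁻¹ = -Real.log (Complex.normSq x)
    rw [Real.log_inv]
  rw [h1.fderiv]
  simp
  field_simp

lemma lap_log {w : ℂ} (hw : w ≠ 0) :
    lap (fun u => Real.log (Complex.normSq u)⁻¹) w = 0 := by
  unfold lap
  have h0 : Complex.normSq w ≠ 0 := by simpa using hw
  have hre : HasFDerivAt (fun u : ℂ => u.re) Complex.reCLM w := Complex.reCLM.hasFDerivAt
  have him : HasFDerivAt (fun u : ℂ => u.im) Complex.imCLM w := Complex.imCLM.hasFDerivAt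
  have e1 : (fun u : ℂ => fderiv ℝ (fun u : ℂ => Real.log (Complex.normSq u)⁻¹) u 1) =ᶠ[𝓝 w]
      fun u => -2 * (u.re * (Complex.normSq u)⁻¹) := by
    filter_upwards [isOpen_ne.mem_nhds hw] with u hu
    rw [fderiv_log hu]
    simp; ring
  have e2 : (fun u : ℂ => fderiv ℝ (fun u : ℂ => Real.log (Complex.normSq u)⁻¹) u Complex.I)
      =ᶠ[𝓝 w] fun u => -2 * (u.im * (Complex.normSq u)⁻¹) := by
    filter_upwards [isOpen_ne.mem_nhds hw] with u hu
    rw [fderiv_log hu]
    simp; ring
  have hinv : HasFDerivAt (fun u : ℂ => (Complex.normSq u)⁻¹)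
      ((-(Complex.normSq w ^ 2)⁻¹) •
        ((2 * w.re) • Complex.reCLM + (2 * w.im) • Complex.imCLM)) w :=
    (hasDerivAt_inv h0).comp_hasFDerivAt w (hasFDerivAt_normSq w)
  have d1 : fderiv ℝ (fun u : ℂ => -2 * (u.re * (Complex.normSq u)⁻¹)) w = _ :=
    ((hre.mul hinv).const_mul (-2)).fderiv
  have d2 : fderiv ℝ (fun u : ℂ => -2 * (u.im * (Complex.normSq u)⁻¹)) w = _ :=
    ((him.mul hinv).const_mul (-2)).fderiv
  rw [e1.fderiv_eq, e2.fderiv_eq, d1, d2]
  have hn : Complex.normSq w = w.re * w.re + w.im * w.im := Complex.normSq_apply w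
  simp
  field_simp
  rw [hn]
  ring

/-- the data -/
def R : RawData B where
  ord := -1
  E _ w := (Complex.normSq w)⁻¹
  E_smooth i w _ h := by
    have hw : w ≠ 0 := by
      rintro rfl
      exact h i.1 trivial rfl
    have h0 : Complex.normSq w ≠ 0 := by simpa using hw
    exact ⟨(contDiffAt_normSq w).inv h0, inv_pos.2 (Complex.normSq_pos.2 hw), lap_log hw⟩
  E_trans i j k w w' _ _ h g hg hgw hev _ := by
    have hev' : ∀ᶠ x in 𝓝 w, P j.1 (g x) = P i.1 x := by
      filter_upwards [hev] with x hx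
      have hx' : P j.1 (g x) = id^[k] (P i.1 x) := hx
      rwa [Function.iterate_id] at hx'
    rcases deriv_aux i.1 j.1 hev' with ⟨_, h1, h2⟩ | ⟨h0, h1, h2⟩
    · rw [h2, ← hgw, h1]; simp
    · rw [h2, ← hgw, h1]
      have h3 : Complex.normSq w ≠ 0 := by simpa using h0
      simp
      field_simp
  E_main σ _ := by
    refine ⟨fun _ => 1, fun w _ => ⟨contDiffAt_const, one_pos, ?_⟩, fun w _ hw => ?_⟩
    · simp [lap]
    · simp
  K _ w := ((1 + Complex.normSq w) ^ 2)⁻¹
  K_smooth i w _ := by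
    have h0 : (1 + Complex.normSq w) ^ 2 ≠ 0 := by
      have := Complex.normSq_nonneg w
      positivity
    exact (((contDiffAt_const.add (contDiffAt_normSq w)).pow 2).inv h0).contDiffWithinAt
  K_pos i w _ := by
    have := Complex.normSq_nonneg w
    positivity
  K_trans i j k w w' _ _ h g hg hgw hev := by
    have hev' : ∀ᶠ x in 𝓝 w, P j.1 (g x) = P i.1 x := by
      filter_upwards [hev] with x hx
      have hx' : P j.1 (g x) = id^[k] (P i.1 x) := hx
      rwa [Function.iterate_id] at hx'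
    rcases deriv_aux i.1 j.1 hev' with ⟨_, h1, h2⟩ | ⟨h0, h1, h2⟩
    · rw [h2, ← hgw, h1]; simp
    · rw [h2, ← hgw, h1]
      have h3 : 0 < Complex.normSq w := Complex.normSq_pos.2 h0
      simp
      field_simp
      ring

end P1

theorem exists_base_P1 : ∃ (B : BaseCurve) (R : RawData B), B.N = 1 ∧ R.ord = -1 ∧
    (∀ σ, B.main σ) ∧ Nonempty B.Sp :=
  ⟨P1.B, P1.R, rfl, rfl, fun _ => trivial, ⟨true⟩⟩

end

end GK
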