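import Pool.Agent.GK.Defs

/-! Module Calc: Wirtinger calculus -/

open scoped ContDiff Manifold Topology ComplexOrder
open MeasureTheory

namespace GK

noncomputable section

variable {n m l : ℕ}

/-- `g` is a smooth Hermitian `(1,1)`-form on `Ω`, with `dω = 0`. -/
structure KForm (g : V n → Matrix (Fin n) (Fin n) ℂ) (Ω : Set (V n)) : Prop where
  smooth : ∀ j k, ContDiffOn ℝ ∞ (fun z => g z j k) Ω
  herm : ∀ z ∈ Ω, (g z).IsHermitian
  closed : ∀ z ∈ Ω, ∀ i j k : Fin n, dZ i (fun w => g w j k) z = dZ j (fun w => g w i k) z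

theorem dZ_congr {f f' : V n → ℂ} {z : V n} (h : f =ᶠ[𝓝 z] f') (j : Fin n) :
    dZ j f z = dZ j f' z := by
  simp only [dZ, h.fderiv_eq]

theorem dB_congr {f f' : V n → ℂ} {z : V n} (h : f =ᶠ[𝓝 z] f') (j : Fin n) :
    dB j f z = dB j f' z := by
  simp only [dB, h.fderiv_eq]

theorem dZ_congr' {f f' : V n → ℂ} {z : V n} (h : f =ᶠ[𝓝 z] f') (j : Fin n) :
    (fun w => dZ j f w) =ᶠ[𝓝 z] (fun w => dZ j f' w) :=
  h.eventuallyEq_nhds.mono fun _ hw => dZ_congr hw j

theorem dB_congr' {f f' : V n → ℂ} {z : V n} (h : f =ᶠ[𝓝 z] f') (j : Fin n) :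
    (fun w => dB j f w) =ᶠ[𝓝 z] (fun w => dB j f' w) :=
  h.eventuallyEq_nhds.mono fun _ hw => dB_congr hw j

theorem levi_congr {f f' : V n → ℂ} {z : V n} (h : f =ᶠ[𝓝 z] f') :
    levi f z = levi f' z := by
  ext j k
  simp only [levi, Matrix.of_apply]
  exact dZ_congr (dB_congr' h k) j

theorem dZ_add {f f' : V n → ℂ} {z : V n} (hf : DifferentiableAt ℝ f z)
    (hf' : DifferentiableAt ℝ f' z) (j : Fin n) :
    dZ j (fun w => f w + f' w) z = dZ j f z + dZ j f' z := by
  simp only [dZ, fderiv_fun_add hf hf', add_apply]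
  ring

theorem dB_add {f f' : V n → ℂ} {z : V n} (hf : DifferentiableAt ℝ f z)
    (hf' : DifferentiableAt ℝ f' z) (j : Fin n) :
    dB j (fun w => f w + f' w) z = dB j f z + dB j f' z := by
  simp only [dB, fderiv_fun_add hf hf', add_apply]
  ring

theorem dZ_const (c : ℂ) (z : V n) (j : Fin n) : dZ j (fun _ => c) z = 0 := by
  simp [dZ]

theorem dB_const (c : ℂ) (z : V n) (j : Fin n) : dB j (fun _ => c) z = 0 := by
  simp [dB]

theorem dZ_sum {ι : Type*} (s : Finset ι) {f : ι → V n → ℂ} {z : V n}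
    (hf : ∀ i ∈ s, DifferentiableAt ℝ (f i) z) (j : Fin n) :
    dZ j (fun w => ∑ i ∈ s, f i w) z = ∑ i ∈ s, dZ j (f i) z := by
  simp only [dZ, fderiv_fun_sum hf, sum_apply, Finset.mul_sum,
    ← Finset.sum_sub_distrib, Finset.sum_div]

theorem dB_sum {ι : Type*} (s : Finset ι) {f : ι → V n → ℂ} {z : V n}
    (hf : ∀ i ∈ s, DifferentiableAt ℝ (f i) z) (j : Fin n) :
    dB j (fun w => ∑ i ∈ s, f i w) z = ∑ i ∈ s, dB j (f i) z := by
  simp only [dB, fderiv_fun_sum hf, sum_apply, Finset.mul_sum,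
    ← Finset.sum_add_distrib, Finset.sum_div]

theorem dZ_mul {f f' : V n → ℂ} {z : V n} (hf : DifferentiableAt ℝ f z)
    (hf' : DifferentiableAt ℝ f' z) (j : Fin n) :
    dZ j (fun w => f w * f' w) z = dZ j f z * f' z + f z * dZ j f' z := by
  simp only [dZ, fderiv_fun_mul hf hf', add_apply,
    smul_apply, smul_eq_mul]
  ring

theorem dB_mul {f f' : V n → ℂ} {z : V n} (hf : DifferentiableAt ℝ f z)
    (hf' : DifferentiableAt ℝ f' z) (j : Fin n) :
    dB j (fun w => f w * f' w) z = dB j f z * f' z + f z * dB j f' z := by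
  simp only [dB, fderiv_fun_mul hf hf', add_apply,
    smul_apply, smul_eq_mul]
  ring

theorem fderiv_star_apply {f : V n → ℂ} {z : V n} (hf : DifferentiableAt ℝ f z) (v : V n) :
    fderiv ℝ (fun w => star (f w)) z v = star (fderiv ℝ f z v) := by
  rw [hf.hasFDerivAt.star.fderiv]
  simp

/-- conjugation exchanges `∂` and `∂̄` -/
theorem dZ_star {f : V n → ℂ} {z : V n} (hf : DifferentiableAt ℝ f z) (j : Fin n) :
    dZ j (fun w => star (f w)) z = star (dB j f z) := by
  simp only [dZ, dB, fderiv_star_apply hf]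
  simp only [Complex.star_def, map_div₀, map_add, map_mul, Complex.conj_I, map_ofNat]
  ring

theorem dB_star {f : V n → ℂ} {z : V n} (hf : DifferentiableAt ℝ f z) (j : Fin n) :
    dB j (fun w => star (f w)) z = star (dZ j f z) := by
  simp only [dZ, dB, fderiv_star_apply hf]
  simp only [Complex.star_def, map_div₀, map_sub, map_mul, Complex.conj_I, map_ofNat]
  ring

theorem contDiffOn_fderiv_apply {f : V n → ℂ} {Ω : Set (V n)} (hΩ : IsOpen Ω)
    (hf : ContDiffOn ℝ ∞ f Ω) (v : V n) : ContDiffOn ℝ ∞ (fun z => fderiv ℝ f z v) Ω :=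
  (hf.fderiv_of_isOpen hΩ (by simp)).clm_apply contDiffOn_const

theorem contDiffOn_dZ {f : V n → ℂ} {Ω : Set (V n)} (hΩ : IsOpen Ω) (hf : ContDiffOn ℝ ∞ f Ω)
    (j : Fin n) : ContDiffOn ℝ ∞ (fun z => dZ j f z) Ω := by
  simp only [dZ]
  exact ((contDiffOn_fderiv_apply hΩ hf _).sub
    (contDiffOn_const.mul (contDiffOn_fderiv_apply hΩ hf _))).div_const _

theorem contDiffOn_dB {f : V n → ℂ} {Ω : Set (V n)} (hΩ : IsOpen Ω) (hf : ContDiffOn ℝ ∞ f Ω)
    (j : Fin n) : ContDiffOn ℝ ∞ (fun z => dB j f z) Ω := by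
  simp only [dB]
  exact ((contDiffOn_fderiv_apply hΩ hf _).add
    (contDiffOn_const.mul (contDiffOn_fderiv_apply hΩ hf _))).div_const _

theorem hasFDerivAt_fderiv_apply {f : V n → ℂ} {z : V n} (hf : ContDiffAt ℝ 2 f z) (v : V n) :
    HasFDerivAt (fun w => fderiv ℝ f w v)
      ((ContinuousLinearMap.apply ℝ ℂ v).comp (fderiv ℝ (fderiv ℝ f) z)) z := by
  have h1 : DifferentiableAt ℝ (fderiv ℝ f) z :=
    (hf.fderiv_right (m := 1) (by norm_num)).differentiableAt (by norm_num)
  exact (ContinuousLinearMap.apply ℝ ℂ v).hasFDerivAt.comp z h1.hasFDerivAt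

theorem fderiv_fderiv_apply {f : V n → ℂ} {z : V n} (hf : ContDiffAt ℝ 2 f z) (u v : V n) :
    fderiv ℝ (fun w => fderiv ℝ f w v) z u = fderiv ℝ (fderiv ℝ f) z u v := by
  rw [(hasFDerivAt_fderiv_apply hf v).fderiv]
  rfl

theorem fderiv_dZ {f : V n → ℂ} {z : V n} (hf : ContDiffAt ℝ 2 f z) (j : Fin n) (u : V n) :
    fderiv ℝ (fun w => dZ j f w) z u = (fderiv ℝ (fderiv ℝ f) z u (Pi.single j 1) -
      Complex.I * fderiv ℝ (fderiv ℝ f) z u (Pi.single j Complex.I)) / 2 := by
  have h1 := hasFDerivAt_fderiv_apply hf (Pi.single j 1)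
  have h2 := hasFDerivAt_fderiv_apply hf (Pi.single j Complex.I)
  have h3 := (h1.fun_sub (h2.const_mul Complex.I)).mul_const (2⁻¹ : ℂ)
  have h4 : (fun w => dZ j f w) = fun w => (fderiv ℝ f w (Pi.single j 1) -
      Complex.I * fderiv ℝ f w (Pi.single j Complex.I)) * 2⁻¹ := by
    funext w
    simp only [dZ, div_eq_mul_inv]
  rw [h4, h3.fderiv]
  simp
  ring

theorem fderiv_dB {f : V n → ℂ} {z : V n} (hf : ContDiffAt ℝ 2 f z) (j : Fin n) (u : V n) :
    fderiv ℝ (fun w => dB j f w) z u = (fderiv ℝ (fderiv ℝ f) z u (Pi.single j 1) +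
      Complex.I * fderiv ℝ (fderiv ℝ f) z u (Pi.single j Complex.I)) / 2 := by
  have h1 := hasFDerivAt_fderiv_apply hf (Pi.single j 1)
  have h2 := hasFDerivAt_fderiv_apply hf (Pi.single j Complex.I)
  have h3 := (h1.fun_add (h2.const_mul Complex.I)).mul_const (2⁻¹ : ℂ)
  have h4 : (fun w => dB j f w) = fun w => (fderiv ℝ f w (Pi.single j 1) +
      Complex.I * fderiv ℝ f w (Pi.single j Complex.I)) * 2⁻¹ := by
    funext w
    simp only [dB, div_eq_mul_inv]
  rw [h4, h3.fderiv]
  simp
  ring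

theorem snd_symm {f : V n → ℂ} {z : V n} (hf : ContDiffAt ℝ 2 f z) (u v : V n) :
    fderiv ℝ (fderiv ℝ f) z u v = fderiv ℝ (fderiv ℝ f) z v u :=
  hf.isSymmSndFDerivAt (by simp) u v

theorem dZ_dB_comm {f : V n → ℂ} {z : V n} (hf : ContDiffAt ℝ 2 f z) (j k : Fin n) :
    dZ j (fun w => dB k f w) z = dB k (fun w => dZ j f w) z := by
  rw [dZ, dB, fderiv_dB hf, fderiv_dB hf, fderiv_dZ hf, fderiv_dZ hf,
    snd_symm hf (Pi.single k 1) (Pi.single j 1),
    snd_symm hf (Pi.single k 1) (Pi.single j Complex.I),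
    snd_symm hf (Pi.single k Complex.I) (Pi.single j 1),
    snd_symm hf (Pi.single k Complex.I) (Pi.single j Complex.I)]
  ring

theorem dZ_dZ_comm {f : V n → ℂ} {z : V n} (hf : ContDiffAt ℝ 2 f z) (j k : Fin n) :
    dZ j (fun w => dZ k f w) z = dZ k (fun w => dZ j f w) z := by
  rw [dZ, dZ, fderiv_dZ hf, fderiv_dZ hf, fderiv_dZ hf, fderiv_dZ hf,
    snd_symm hf (Pi.single k 1) (Pi.single j 1),
    snd_symm hf (Pi.single k 1) (Pi.single j Complex.I),
    snd_symm hf (Pi.single k Complex.I) (Pi.single j 1),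
    snd_symm hf (Pi.single k Complex.I) (Pi.single j Complex.I)]
  ring

theorem dB_dB_comm {f : V n → ℂ} {z : V n} (hf : ContDiffAt ℝ 2 f z) (j k : Fin n) :
    dB j (fun w => dB k f w) z = dB k (fun w => dB j f w) z := by
  rw [dB, dB, fderiv_dB hf, fderiv_dB hf, fderiv_dB hf, fderiv_dB hf,
    snd_symm hf (Pi.single k 1) (Pi.single j 1),
    snd_symm hf (Pi.single k 1) (Pi.single j Complex.I),
    snd_symm hf (Pi.single k Complex.I) (Pi.single j 1),
    snd_symm hf (Pi.single k Complex.I) (Pi.single j Complex.I)]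
  ring

theorem single_I (j : Fin n) : (Pi.single j Complex.I : V n) =
    Complex.I • (Pi.single j 1 : V n) := by
  rw [← Pi.single_smul, smul_eq_mul, mul_one]

/-- holomorphic functions -/
theorem dB_of_holo {f : V n → ℂ} {z : V n} (hf : DifferentiableAt ℂ f z) (j : Fin n) :
    dB j f z = 0 := by
  rw [dB, hf.fderiv_restrictScalars ℝ]
  simp only [ContinuousLinearMap.coe_restrictScalars', single_I, map_smul, smul_eq_mul]
  rw [← mul_assoc, Complex.I_mul_I]
  ring

theorem dZ_of_holo {f : V n → ℂ} {z : V n} (hf : DifferentiableAt ℂ f z) (j : Fin n) :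
    dZ j f z = fderiv ℂ f z (Pi.single j 1) := by
  rw [dZ, hf.fderiv_restrictScalars ℝ]
  simp only [ContinuousLinearMap.coe_restrictScalars', single_I, map_smul, smul_eq_mul]
  rw [← mul_assoc, Complex.I_mul_I]
  ring

/-- a real linear form in terms of its Wirtinger components -/
theorem fderiv_eq_dZ_dB (f : V n → ℂ) (z v : V n) :
    fderiv ℝ f z v = ∑ a, (v a * dZ a f z + star (v a) * dB a f z) := by
  have h1 : v = ∑ a, ((v a).re • (Pi.single a 1 : V n) + (v a).im • (Pi.single a Complex.I : V n))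
      := by
    funext b
    rw [Finset.sum_apply, Finset.sum_eq_single b]
    · simp
    · intro a _ hab
      simp [Pi.single_eq_of_ne (Ne.symm hab)]
    · simp
  conv_lhs => rw [h1]
  rw [map_sum]
  refine Finset.sum_congr rfl ?_
  intro a _
  rw [map_add, map_smul, map_smul]
  simp only [dZ, dB, Complex.real_smul]
  have h2 : v a = (v a).re + (v a).im * Complex.I := (Complex.re_add_im _).symm
  have h3 : star (v a) = (v a).re - (v a).im * Complex.I := by
    apply Complex.ext <;> simp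
  rw [h3]
  conv_rhs => rw [h2]
  simp only [Complex.add_re, Complex.ofReal_re, Complex.mul_re, Complex.I_re, mul_zero,
    Complex.ofReal_im, Complex.I_im, mul_one, sub_self, add_zero, Complex.add_im, Complex.mul_im,
    zero_add]
  have h4 := Complex.I_mul_I
  linear_combination ((v a).im * fderiv ℝ f z (Pi.single a Complex.I) : ℂ) * h4

theorem jac_apply (h : V n → V m) (z : V n) (a : Fin m) (j : Fin n) :
    jac h z a j = fderiv ℂ h z (Pi.single j 1) a := rfl

theorem fderiv_comp_holo {h : V n → V m} {f : V m → ℂ} {z : V n} (hh : DifferentiableAt ℂ h z)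
    (hf : DifferentiableAt ℝ f (h z)) (v : V n) :
    fderiv ℝ (fun w => f (h w)) z v = fderiv ℝ f (h z) (fderiv ℂ h z v) := by
  have h1 : HasFDerivAt h ((fderiv ℂ h z).restrictScalars ℝ) z :=
    hh.hasFDerivAt.restrictScalars ℝ
  have h2 := hf.hasFDerivAt.comp z h1
  have h3 : (fun w => f (h w)) = f ∘ h := rfl
  rw [h3, h2.fderiv]
  rfl

/-- chain rule for composition with a holomorphic map -/
theorem dZ_comp {h : V n → V m} {f : V m → ℂ} {z : V n} (hh : DifferentiableAt ℂ h z)
    (hf : DifferentiableAt ℝ f (h z)) (j : Fin n) :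
    dZ j (fun w => f (h w)) z = ∑ a, jac h z a j * dZ a f (h z) := by
  rw [dZ, fderiv_comp_holo hh hf, fderiv_comp_holo hh hf, single_I, map_smul,
    fderiv_eq_dZ_dB, fderiv_eq_dZ_dB, Finset.mul_sum, ← Finset.sum_sub_distrib, Finset.sum_div]
  refine Finset.sum_congr rfl ?_
  intro a _
  rw [jac_apply]
  simp only [Pi.smul_apply, smul_eq_mul, star_mul', Complex.star_def, Complex.conj_I]
  have h4 := Complex.I_mul_I
  linear_combination (-(fderiv ℂ h z (Pi.single j 1) a) * dZ a f (h z) / 2 +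
    (starRingEnd ℂ) (fderiv ℂ h z (Pi.single j 1) a) * dB a f (h z) / 2) * h4

theorem dB_comp {h : V n → V m} {f : V m → ℂ} {z : V n} (hh : DifferentiableAt ℂ h z)
    (hf : DifferentiableAt ℝ f (h z)) (j : Fin n) :
    dB j (fun w => f (h w)) z = ∑ a, star (jac h z a j) * dB a f (h z) := by
  rw [dB, fderiv_comp_holo hh hf, fderiv_comp_holo hh hf, single_I, map_smul,
    fderiv_eq_dZ_dB, fderiv_eq_dZ_dB, Finset.mul_sum, ← Finset.sum_add_distrib, Finset.sum_div]
  refine Finset.sum_congr rfl ?_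
  intro a _
  rw [jac_apply]
  simp only [Pi.smul_apply, smul_eq_mul, star_mul', Complex.star_def, Complex.conj_I]
  have h4 := Complex.I_mul_I
  linear_combination ((fderiv ℂ h z (Pi.single j 1) a) * dZ a f (h z) / 2 -
    (starRingEnd ℂ) (fderiv ℂ h z (Pi.single j 1) a) * dB a f (h z) / 2) * h4

theorem differentiableAt_dZ {f : V n → ℂ} {z : V n} (hf : ContDiffAt ℝ 2 f z) (j : Fin n) :
    DifferentiableAt ℝ (fun w => dZ j f w) z := by
  simp only [dZ, div_eq_mul_inv]
  exact ((hasFDerivAt_fderiv_apply hf _).differentiableAt.fun_sub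
    ((hasFDerivAt_fderiv_apply hf _).differentiableAt.const_mul _)).mul_const _

theorem differentiableAt_dB {f : V n → ℂ} {z : V n} (hf : ContDiffAt ℝ 2 f z) (j : Fin n) :
    DifferentiableAt ℝ (fun w => dB j f w) z := by
  simp only [dB, div_eq_mul_inv]
  exact ((hasFDerivAt_fderiv_apply hf _).differentiableAt.fun_add
    ((hasFDerivAt_fderiv_apply hf _).differentiableAt.const_mul _)).mul_const _

theorem eventually_differentiableAt {E F : Type*} [NormedAddCommGroup E] [NormedSpace ℝ E]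
    [NormedAddCommGroup F] [NormedSpace ℝ F] {f : E → F} {z : E} {N : ℕ} (hN : N ≠ 0)
    (hf : ContDiffAt ℝ N f z) : ∀ᶠ w in 𝓝 z, DifferentiableAt ℝ f w :=
  (hf.eventually (by simp)).mono fun _ hw => hw.differentiableAt (by exact_mod_cast hN)

theorem analyticAt_jac {h : V n → V m} {z : V n} (hh : AnalyticAt ℂ h z) (a : Fin m)
    (j : Fin n) : AnalyticAt ℂ (fun w => jac h w a j) z := by
  have h1 : AnalyticAt ℂ (fun w => fderiv ℂ h w) z := hh.fderiv
  have h2 : AnalyticAt ℂ (fun w => fderiv ℂ h w (Pi.single j 1)) z :=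
    ((ContinuousLinearMap.apply ℂ (V m) (Pi.single j 1 : V n)).analyticAt (fderiv ℂ h z)).comp h1
  exact ((ContinuousLinearMap.proj (R := ℂ) (φ := fun _ : Fin m => ℂ) a).analyticAt _).comp h2

theorem levi_comp {h : V n → V m} {f : V m → ℂ} {z : V n} (hh : AnalyticAt ℂ h z)
    (hf : ContDiffAt ℝ 2 f (h z)) :
    levi (fun w => f (h w)) z = pull (jac h z) (levi f (h z)) := by
  ext j k
  have hev : ∀ᶠ w in 𝓝 z, dB k (fun w => f (h w)) w =
      ∑ a, star (jac h w a k) * dB a f (h w) := by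
    have h1 : ∀ᶠ w in 𝓝 z, AnalyticAt ℂ h w := hh.eventually_analyticAt
    have h2 : ∀ᶠ y in 𝓝 (h z), DifferentiableAt ℝ f y :=
      eventually_differentiableAt (N := 2) (by norm_num) hf
    have h3 := hh.continuousAt.eventually h2
    filter_upwards [h1, h3] with w hw1 hw2
    exact dB_comp hw1.differentiableAt hw2 k
  have hd1 : ∀ a, DifferentiableAt ℝ (fun w => jac h w a k) z := fun a =>
    ((analyticAt_jac hh a k).differentiableAt).restrictScalars ℝ
  have hd2 : ∀ a, DifferentiableAt ℝ (fun w => star (jac h w a k)) z := fun a =>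
    (hd1 a).star
  have hd3 : ∀ a, DifferentiableAt ℝ (fun w => dB a f (h w)) z := fun a =>
    (differentiableAt_dB hf a).comp z (hh.differentiableAt.restrictScalars ℝ)
  have e1 : levi (fun w => f (h w)) z j k = ∑ a, ∑ b,
      star (jac h z a k) * (jac h z b j * levi f (h z) b a) := by
    rw [levi, Matrix.of_apply, dZ_congr hev j,
      dZ_sum _ (fun a _ => (hd2 a).fun_mul (hd3 a))]
    refine Finset.sum_congr rfl ?_
    intro a _
    rw [dZ_mul (hd2 a) (hd3 a), dZ_star (hd1 a), dB_of_holo (analyticAt_jac hh a k).differentiableAt,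
      star_zero, zero_mul, zero_add, dZ_comp hh.differentiableAt (differentiableAt_dB hf a),
      Finset.mul_sum]
    rfl
  rw [e1, pull]
  simp only [Matrix.mul_apply, Matrix.transpose_apply, Matrix.map_apply, Finset.sum_mul]
  refine Finset.sum_congr rfl ?_
  intro a _
  refine Finset.sum_congr rfl ?_
  intro b _
  ring

/-- derivative of a composition with a function of one real variable -/
theorem fderiv_real_comp {F : ℝ → ℝ} {f : V n → ℝ} {z : V n} (hF : DifferentiableAt ℝ F (f z))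
    (hf : DifferentiableAt ℝ f z) (v : V n) :
    fderiv ℝ (fun w => ((F (f w) : ℝ) : ℂ)) z v =
      (deriv F (f z) : ℝ) * fderiv ℝ (fun w => ((f w : ℝ) : ℂ)) z v := by
  have h1 : HasFDerivAt (fun w => F (f w)) (deriv F (f z) • fderiv ℝ f z) z :=
    hF.hasDerivAt.comp_hasFDerivAt z hf.hasFDerivAt
  have h2 := (Complex.ofRealCLM.hasFDerivAt).comp z h1
  have h3 := (Complex.ofRealCLM.hasFDerivAt).comp z hf.hasFDerivAt
  have e2 : (fun w => ((F (f w) : ℝ) : ℂ)) = (⇑Complex.ofRealCLM ∘ fun w => F (f w)) := rfl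
  have e3 : (fun w => ((f w : ℝ) : ℂ)) = (⇑Complex.ofRealCLM ∘ f) := rfl
  rw [e2, e3, h2.fderiv, h3.fderiv]
  simp

theorem dZ_real_comp {F : ℝ → ℝ} {f : V n → ℝ} {z : V n} (hF : DifferentiableAt ℝ F (f z))
    (hf : DifferentiableAt ℝ f z) (j : Fin n) :
    dZ j (fun w => ((F (f w) : ℝ) : ℂ)) z =
      (deriv F (f z) : ℝ) * dZ j (fun w => ((f w : ℝ) : ℂ)) z := by
  simp only [dZ, fderiv_real_comp hF hf]
  ring

theorem dB_real_comp {F : ℝ → ℝ} {f : V n → ℝ} {z : V n} (hF : DifferentiableAt ℝ F (f z))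
    (hf : DifferentiableAt ℝ f z) (j : Fin n) :
    dB j (fun w => ((F (f w) : ℝ) : ℂ)) z =
      (deriv F (f z) : ℝ) * dB j (fun w => ((f w : ℝ) : ℂ)) z := by
  simp only [dB, fderiv_real_comp hF hf]
  ring

theorem contDiffAt_ofReal {f : V n → ℝ} {z : V n} {N : ℕ∞ω} (hf : ContDiffAt ℝ N f z) :
    ContDiffAt ℝ N (fun w => ((f w : ℝ) : ℂ)) z :=
  Complex.ofRealCLM.contDiff.contDiffAt.comp z hf

/-- chain rule for composition of a real function with a function of one real variable -/
theorem levi_real_comp {F : ℝ → ℝ} {f : V n → ℝ} {z : V n} (hF : ContDiffAt ℝ 2 F (f z))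
    (hf : ContDiffAt ℝ 2 f z) (j k : Fin n) :
    levi (fun w => ((F (f w) : ℝ) : ℂ)) z j k =
      (deriv F (f z) : ℝ) * levi (fun w => ((f w : ℝ) : ℂ)) z j k +
      (deriv (deriv F) (f z) : ℝ) * (dZ j (fun w => ((f w : ℝ) : ℂ)) z *
        dB k (fun w => ((f w : ℝ) : ℂ)) z) := by
  have hev : ∀ᶠ w in 𝓝 z, dB k (fun w => ((F (f w) : ℝ) : ℂ)) w =
      ((deriv F (f w) : ℝ) : ℂ) * dB k (fun w => ((f w : ℝ) : ℂ)) w := by
    have h1 : ∀ᶠ y in 𝓝 (f z), DifferentiableAt ℝ F y :=
      eventually_differentiableAt (N := 2) (by norm_num) hF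
    have h2 := hf.continuousAt.eventually h1
    have h3 : ∀ᶠ w in 𝓝 z, DifferentiableAt ℝ f w :=
      eventually_differentiableAt (N := 2) (by norm_num) hf
    filter_upwards [h2, h3] with w hw1 hw2
    exact dB_real_comp hw1 hw2 k
  have hF' : DifferentiableAt ℝ (deriv F) (f z) := by
    have h4 : DifferentiableAt ℝ (fderiv ℝ F) (f z) :=
      (hF.fderiv_right (m := 1) (by norm_num)).differentiableAt (by norm_num)
    have h5 : deriv F = fun y => fderiv ℝ F y 1 := by
      funext y
      rw [fderiv_apply_one_eq_deriv]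
    rw [h5]
    exact h4.clm_apply (differentiableAt_const _)
  have hfd : DifferentiableAt ℝ f z := hf.differentiableAt (by norm_num)
  have hd1 : DifferentiableAt ℝ (fun w => ((deriv F (f w) : ℝ) : ℂ)) z :=
    Complex.ofRealCLM.differentiableAt.comp z (hF'.comp z hfd)
  have hd2 := differentiableAt_dB (contDiffAt_ofReal hf) k
  rw [levi, Matrix.of_apply, dZ_congr hev j, dZ_mul hd1 hd2, dZ_real_comp hF' hfd]
  simp only [levi, Matrix.of_apply]
  ring

theorem contDiffAt_normSq {f : V n → ℂ} {z : V n} {N : ℕ∞ω} (hf : ContDiffAt ℝ N f z) :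
    ContDiffAt ℝ N (fun w => Complex.normSq (f w)) z := by
  have h1 : ContDiffAt ℝ N (fun w => (f w).re) z :=
    Complex.reCLM.contDiff.contDiffAt.comp z hf
  have h2 : ContDiffAt ℝ N (fun w => (f w).im) z :=
    Complex.imCLM.contDiff.contDiffAt.comp z hf
  have h3 : (fun w => Complex.normSq (f w)) = fun w => (f w).re * (f w).re +
      (f w).im * (f w).im := by
    funext w
    exact Complex.normSq_apply _
  rw [h3]
  exact (h1.mul h1).add (h2.mul h2)

theorem contDiffAt_of_analyticAt {f : V n → ℂ} {z : V n} (hf : AnalyticAt ℂ f z) {N : ℕ∞ω} :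
    ContDiffAt ℝ N f z := hf.contDiffAt.restrict_scalars ℝ

theorem contDiffAt_of_analyticAt' {h : V n → V m} {z : V n} (hf : AnalyticAt ℂ h z) {N : ℕ∞ω} :
    ContDiffAt ℝ N h z := hf.contDiffAt.restrict_scalars ℝ

theorem levi_log_normSq {f : V n → ℂ} {z : V n} (hf : AnalyticAt ℂ f z) (h0 : f z ≠ 0) :
    levi (fun w => ((Real.log (Complex.normSq (f w)) : ℝ) : ℂ)) z = 0 := by
  ext j k
  have hev : ∀ᶠ w in 𝓝 z, dB k (fun w => ((Real.log (Complex.normSq (f w)) : ℝ) : ℂ)) w =
      star (dZ k f w * (f w)⁻¹) := by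
    have h1 : ∀ᶠ w in 𝓝 z, AnalyticAt ℂ f w := hf.eventually_analyticAt
    have h2 : ∀ᶠ w in 𝓝 z, f w ≠ 0 := hf.continuousAt.eventually_ne h0
    filter_upwards [h1, h2] with w hw1 hw2
    have h3 : Complex.normSq (f w) ≠ 0 := by simpa using hw2
    have hd : DifferentiableAt ℝ f w := hw1.differentiableAt.restrictScalars ℝ
    have h4 : DifferentiableAt ℝ (fun w => Complex.normSq (f w)) w :=
      (contDiffAt_normSq (N := 1) (contDiffAt_of_analyticAt hw1)).differentiableAt (by norm_num)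
    rw [dB_real_comp (F := Real.log) (f := fun w => Complex.normSq (f w))
      (Real.differentiableAt_log h3) h4 k]
    have h5 : (fun w => ((Complex.normSq (f w) : ℝ) : ℂ)) = fun w => f w * star (f w) := by
      funext w
      exact (Complex.mul_conj (f w)).symm
    rw [h5, dB_mul hd hd.star, dB_star hd, dB_of_holo hw1.differentiableAt, Real.deriv_log]
    have h6 : ((Complex.normSq (f w) : ℝ) : ℂ) = f w * star (f w) :=
      (Complex.mul_conj (f w)).symm
    have h7 : star (f w) ≠ 0 := by simpa using hw2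
    rw [Complex.ofReal_inv, h6, star_mul', star_inv₀]
    field_simp
    ring
  have hdz : AnalyticAt ℂ (fun w => dZ k f w * (f w)⁻¹) z := by
    have h1 : (fun w => dZ k f w) =ᶠ[𝓝 z] fun w => fderiv ℂ f w (Pi.single k 1) := by
      filter_upwards [hf.eventually_analyticAt] with w hw
      exact dZ_of_holo hw.differentiableAt k
    have h2 : AnalyticAt ℂ (fun w => fderiv ℂ f w (Pi.single k 1)) z :=
      ((ContinuousLinearMap.apply ℂ ℂ (Pi.single k 1 : V n)).analyticAt (fderiv ℂ f z)).comp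
        hf.fderiv
    exact (h2.congr h1.symm).mul (hf.inv h0)
  rw [levi, Matrix.of_apply, dZ_congr hev j,
    dZ_star (hdz.differentiableAt.restrictScalars ℝ), dB_of_holo hdz.differentiableAt, star_zero]
  rfl

theorem map_star_mul (A : Matrix (Fin l) (Fin m) ℂ) (B : Matrix (Fin m) (Fin n) ℂ) :
    (A * B).map star = A.map star * B.map star := by
  ext i j
  simp [Matrix.mul_apply]

theorem pull_pull {g : Matrix (Fin l) (Fin l) ℂ} (A : Matrix (Fin l) (Fin m) ℂ)
    (B : Matrix (Fin m) (Fin n) ℂ) : pull B (pull A g) = pull (A * B) g := by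
  simp only [pull, map_star_mul, Matrix.transpose_mul, Matrix.mul_assoc]

theorem pull_add (J : Matrix (Fin m) (Fin n) ℂ) (g g' : Matrix (Fin m) (Fin m) ℂ) :
    pull J (g + g') = pull J g + pull J g' := by
  simp only [pull, Matrix.mul_add, Matrix.add_mul]

theorem pull_apply (J : Matrix (Fin m) (Fin n) ℂ) (g : Matrix (Fin m) (Fin m) ℂ) (j k : Fin n) :
    pull J g j k = ∑ b, ∑ a, J a j * g a b * star (J b k) := by
  simp only [pull, Matrix.mul_apply, Matrix.transpose_apply, Matrix.map_apply, Finset.sum_mul]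

theorem vec_eq_sum (v : V n) : v = ∑ b, v b • (Pi.single b 1 : V n) := by
  funext a
  rw [Finset.sum_apply, Finset.sum_eq_single a]
  · simp
  · intro b _ hb
    simp [Pi.single_eq_of_ne (Ne.symm hb)]
  · simp

theorem fderiv_apply_eq_jac (k : V m → V l) (y : V m) (v : V m) (a : Fin l) :
    fderiv ℂ k y v a = ∑ b, jac k y a b * v b := by
  conv_lhs => rw [vec_eq_sum v]
  rw [map_sum, Finset.sum_apply]
  refine Finset.sum_congr rfl ?_
  intro b _
  rw [map_smul, Pi.smul_apply, smul_eq_mul, jac_apply]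
  ring

theorem jac_comp {k : V m → V l} {h : V n → V m} {z : V n} (hk : DifferentiableAt ℂ k (h z))
    (hh : DifferentiableAt ℂ h z) : jac (fun w => k (h w)) z = jac k (h z) * jac h z := by
  ext a j
  have h1 : (fun w => k (h w)) = k ∘ h := rfl
  rw [jac_apply, h1, fderiv_comp z hk hh, ContinuousLinearMap.comp_apply, fderiv_apply_eq_jac,
    Matrix.mul_apply]
  rfl

theorem jac_congr {h h' : V n → V m} {z : V n} (hh : h =ᶠ[𝓝 z] h') : jac h z = jac h' z := by
  simp only [jac, hh.fderiv_eq]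

theorem jac_id (z : V n) : jac (fun w : V n => w) z = 1 := by
  ext a j
  rw [jac_apply, fderiv_fun_id, ContinuousLinearMap.id_apply, Matrix.one_apply, Pi.single_apply]

theorem det_map_star (J : Matrix (Fin n) (Fin n) ℂ) : (J.map star).det = star J.det :=
  (RingHom.map_det (starRingEnd ℂ) J).symm

theorem det_pull (J g : Matrix (Fin n) (Fin n) ℂ) :
    (pull J g).det = Complex.normSq J.det * g.det := by
  rw [pull, Matrix.det_mul, Matrix.det_mul, Matrix.det_transpose, det_map_star,
    ← Complex.mul_conj, Complex.star_def]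
  ring

theorem trace_pull (J g L : Matrix (Fin n) (Fin n) ℂ) (hJ : IsUnit J.det) :
    (∑ j, ∑ k, (pull J g)⁻¹ k j * (pull J L) j k) = ∑ j, ∑ k, g⁻¹ k j * L j k := by
  have key : ∀ X Y : Matrix (Fin n) (Fin n) ℂ,
      (∑ j, ∑ k, X k j * Y j k) = Matrix.trace (X * Y) := by
    intro X Y
    rw [Finset.sum_comm]
    simp [Matrix.trace, Matrix.mul_apply]
  rw [key, key]
  have hJt : IsUnit (J.transpose).det := by rwa [Matrix.det_transpose]
  have hJs : IsUnit (J.map star).det := by
    rw [det_map_star]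
    exact hJ.star
  rw [pull, pull, Matrix.mul_inv_rev, Matrix.mul_inv_rev]
  have e1 : (J.map star)⁻¹ * (g⁻¹ * (J.transpose)⁻¹) * (J.transpose * L * J.map star) =
      (J.map star)⁻¹ * ((g⁻¹ * (((J.transpose)⁻¹ * J.transpose) * L)) * J.map star) := by
    simp only [Matrix.mul_assoc]
  rw [e1, Matrix.nonsing_inv_mul _ hJt, Matrix.one_mul, Matrix.trace_mul_comm, Matrix.mul_assoc,
    Matrix.mul_nonsing_inv _ hJs, Matrix.mul_one]

theorem pull_eq_conj (J g : Matrix (Fin n) (Fin n) ℂ) :
    pull J g = (J.map star).conjTranspose * g * J.map star := by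
  have : (J.map star).conjTranspose = J.transpose := by
    ext i j
    simp [Matrix.conjTranspose_apply]
  rw [pull, this]

theorem posDef_pull {J g : Matrix (Fin n) (Fin n) ℂ} (hJ : IsUnit J.det) (hg : g.PosDef) :
    (pull J g).PosDef := by
  rw [pull_eq_conj]
  apply hg.conjTranspose_mul_mul_same
  apply Matrix.mulVec_injective_of_isUnit
  rw [Matrix.isUnit_iff_isUnit_det, det_map_star]
  exact hJ.star

theorem isHermitian_pull {J : Matrix (Fin m) (Fin n) ℂ} {g : Matrix (Fin m) (Fin m) ℂ}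
    (hg : g.IsHermitian) : (pull J g).IsHermitian := by
  have : J.transpose = (J.map star).conjTranspose := by
    ext i j
    simp [Matrix.conjTranspose_apply]
  rw [pull, this]
  exact Matrix.isHermitian_conjTranspose_mul_mul _ hg

theorem contDiffOn_star {f : V n → ℂ} {Ω : Set (V n)} {N : ℕ∞ω} (hf : ContDiffOn ℝ N f Ω) :
    ContDiffOn ℝ N (fun w => star (f w)) Ω :=
  Complex.conjCLE.contDiff.comp_contDiffOn hf

theorem contDiffOn_jac {h : V n → V m} {Ω : Set (V n)} (hh : AnalyticOnNhd ℂ h Ω) (a : Fin m)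
    (j : Fin n) : ContDiffOn ℝ ∞ (fun z => jac h z a j) Ω := fun z hz =>
  (contDiffAt_of_analyticAt (analyticAt_jac (hh z hz) a j)).contDiffWithinAt

theorem dZ_jac_symm {h : V n → V m} {z : V n} (hh : AnalyticAt ℂ h z) (a : Fin m)
    (i j : Fin n) : dZ i (fun w => jac h w a j) z = dZ j (fun w => jac h w a i) z := by
  have key : ∀ u v : V n, fderiv ℂ (fun w => fderiv ℂ h w v a) z u =
      fderiv ℂ (fderiv ℂ h) z u v a := by
    intro u v
    have h1 : HasFDerivAt (fderiv ℂ h) (fderiv ℂ (fderiv ℂ h) z) z :=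
      hh.fderiv.differentiableAt.hasFDerivAt
    have h2 := (ContinuousLinearMap.apply ℂ (V m) v).hasFDerivAt.comp z h1
    have h3 := (ContinuousLinearMap.proj (R := ℂ) (φ := fun _ : Fin m => ℂ) a).hasFDerivAt.comp z h2
    have h4 : (fun w => fderiv ℂ h w v a) =
      (⇑(ContinuousLinearMap.proj (R := ℂ) (φ := fun _ : Fin m => ℂ) a) ∘
        (⇑(ContinuousLinearMap.apply ℂ (V m) v) ∘ fderiv ℂ h)) := rfl
    rw [h4, h3.fderiv]
    rfl
  rw [dZ_of_holo (analyticAt_jac hh a j).differentiableAt,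
    dZ_of_holo (analyticAt_jac hh a i).differentiableAt]
  show fderiv ℂ (fun w => fderiv ℂ h w (Pi.single j 1) a) z (Pi.single i 1) =
    fderiv ℂ (fun w => fderiv ℂ h w (Pi.single i 1) a) z (Pi.single j 1)
  rw [key, key]
  have h5 : IsSymmSndFDerivAt ℂ h z :=
    ContDiffAt.isSymmSndFDerivAt (n := 2) hh.contDiffAt (by simp)
  rw [h5 (Pi.single i 1) (Pi.single j 1)]

/-- pull-back of a closed form by a holomorphic map is closed -/
theorem KForm.pullback {g : V m → Matrix (Fin m) (Fin m) ℂ} {Ω : Set (V m)} (hΩ : IsOpen Ω)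
    (hg : KForm g Ω) {h : V n → V m} {Ω' : Set (V n)} (hΩ' : IsOpen Ω')
    (hh : AnalyticOnNhd ℂ h Ω') (hm : Set.MapsTo h Ω' Ω) :
    KForm (fun z => pull (jac h z) (g (h z))) Ω' where
  smooth := by
    intro j k
    have hs : ContDiffOn ℝ ∞ h Ω' := fun z hz => (contDiffAt_of_analyticAt' (hh z hz)).contDiffWithinAt
    simp only [pull_apply]
    refine ContDiffOn.sum fun b _ => ContDiffOn.sum fun a _ => ?_
    exact ((contDiffOn_jac hh a j).mul ((hg.smooth a b).comp hs hm)).mul
      (contDiffOn_star (contDiffOn_jac hh b k))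
  herm := fun z hz => isHermitian_pull (hg.herm _ (hm hz))
  closed := by
    have key : ∀ z ∈ Ω', ∀ i j k : Fin n,
        dZ i (fun w => pull (jac h w) (g (h w)) j k) z = ∑ b, ((∑ a,
          dZ i (fun w => jac h w a j) z * g (h z) a b * star (jac h z b k)) +
          ∑ a, ∑ c, jac h z a j * jac h z c i * dZ c (fun y => g y a b) (h z) *
            star (jac h z b k)) := by
      intro z hz i j k
      have hJ : ∀ a j, DifferentiableAt ℝ (fun w => jac h w a j) z := fun a j =>
        (analyticAt_jac (hh z hz) a j).differentiableAt.restrictScalars ℝ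
      have hgd : ∀ a b, DifferentiableAt ℝ (fun y => g y a b) (h z) := fun a b =>
        ((hg.smooth a b).contDiffAt (hΩ.mem_nhds (hm hz))).differentiableAt (by simp)
      have hgh : ∀ a b, DifferentiableAt ℝ (fun w => g (h w) a b) z := fun a b =>
        (hgd a b).comp z ((hh z hz).differentiableAt.restrictScalars ℝ)
      simp only [pull_apply]
      rw [dZ_sum _ fun b _ => DifferentiableAt.fun_sum fun a _ =>
        ((hJ a j).fun_mul (hgh a b)).fun_mul (hJ b k).star]
      refine Finset.sum_congr rfl ?_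
      intro b _
      rw [dZ_sum _ fun a _ => ((hJ a j).fun_mul (hgh a b)).fun_mul (hJ b k).star,
        ← Finset.sum_add_distrib]
      refine Finset.sum_congr rfl ?_
      intro a _
      rw [dZ_mul ((hJ a j).fun_mul (hgh a b)) (hJ b k).star, dZ_mul (hJ a j) (hgh a b),
        dZ_star (hJ b k), dB_of_holo (analyticAt_jac (hh z hz) b k).differentiableAt, star_zero,
        mul_zero, add_zero, dZ_comp (hh z hz).differentiableAt (hgd a b), Finset.mul_sum,
        add_mul, Finset.sum_mul]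
      congr 1
      refine Finset.sum_congr rfl ?_
      intro c _
      ring
    intro z hz i j k
    rw [key z hz i j k, key z hz j i k]
    refine Finset.sum_congr rfl ?_
    intro b _
    congr 1
    · refine Finset.sum_congr rfl ?_
      intro a _
      rw [dZ_jac_symm (hh z hz) a i j]
    · rw [Finset.sum_comm]
      refine Finset.sum_congr rfl ?_
      intro a _
      refine Finset.sum_congr rfl ?_
      intro c _
      rw [hg.closed (h z) (hm hz) a c b]
      ring

theorem two_le_infty : (2 : ℕ∞ω) ≤ ∞ := by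
  have : ((2 : ℕ∞) : ℕ∞ω) ≤ ((⊤ : ℕ∞) : ℕ∞ω) := by exact_mod_cast (le_top : (2 : ℕ∞) ≤ ⊤)
  exact this

theorem KForm.levi {f : V n → ℝ} {Ω : Set (V n)} (hΩ : IsOpen Ω) (hf : ContDiffOn ℝ ∞ f Ω) :
    KForm (levi (fun z => ((f z : ℝ) : ℂ))) Ω := by
  have hf' : ContDiffOn ℝ ∞ (fun z => ((f z : ℝ) : ℂ)) Ω :=
    Complex.ofRealCLM.contDiff.comp_contDiffOn hf
  have h2 : ∀ z ∈ Ω, ContDiffAt ℝ 2 (fun z => ((f z : ℝ) : ℂ)) z := fun z hz =>
    (hf'.contDiffAt (hΩ.mem_nhds hz)).of_le two_le_infty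
  have hB2 : ∀ k, ∀ z ∈ Ω, ContDiffAt ℝ 2 (fun w => dB k (fun z => ((f z : ℝ) : ℂ)) w) z :=
    fun k z hz => ((contDiffOn_dB hΩ hf' k).contDiffAt (hΩ.mem_nhds hz)).of_le two_le_infty
  refine ⟨?_, ?_, ?_⟩
  · intro j k
    exact contDiffOn_dZ hΩ (contDiffOn_dB hΩ hf' k) j
  · intro z hz
    ext j k
    rw [Matrix.conjTranspose_apply]
    simp only [GK.levi, Matrix.of_apply]
    rw [← dB_star (differentiableAt_dB (h2 z hz) j)]
    have hev : (fun w => star (dB j (fun z => ((f z : ℝ) : ℂ)) w)) =ᶠ[𝓝 z]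
        fun w => dZ j (fun z => ((f z : ℝ) : ℂ)) w := by
      filter_upwards [hΩ.mem_nhds hz] with w hw
      rw [← dZ_star ((h2 w hw).differentiableAt (by norm_num))]
      congr 1
      funext y
      simp
    rw [dB_congr hev, dZ_dB_comm (h2 z hz)]
  · intro z hz i j k
    simp only [GK.levi, Matrix.of_apply]
    exact dZ_dZ_comm (hB2 k z hz) i j

theorem KForm.add {g g' : V n → Matrix (Fin n) (Fin n) ℂ} {Ω : Set (V n)} (hΩ : IsOpen Ω)
    (hg : KForm g Ω) (hg' : KForm g' Ω) : KForm (fun z => g z + g' z) Ω where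
  smooth := fun j k => (hg.smooth j k).add (hg'.smooth j k)
  herm := fun z hz => (hg.herm z hz).add (hg'.herm z hz)
  closed := by
    intro z hz i j k
    have hd : ∀ (g : V n → Matrix (Fin n) (Fin n) ℂ) (_ : KForm g Ω) (j k : Fin n),
        DifferentiableAt ℝ (fun w => g w j k) z := fun g hg j k =>
      ((hg.smooth j k).contDiffAt (hΩ.mem_nhds hz)).differentiableAt (by simp)
    simp only [Matrix.add_apply]
    rw [dZ_add (hd g hg j k) (hd g' hg' j k), dZ_add (hd g hg i k) (hd g' hg' i k),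
      hg.closed z hz i j k, hg'.closed z hz i j k]

theorem KForm.smul {g : V n → Matrix (Fin n) (Fin n) ℂ} {Ω : Set (V n)} (hΩ : IsOpen Ω)
    (hg : KForm g Ω) (c : ℝ) : KForm (fun z => (c : ℂ) • g z) Ω where
  smooth := fun j k => contDiffOn_const.mul (hg.smooth j k)
  herm := by
    intro z hz
    ext j k
    have h1 := congrFun (congrFun (hg.herm z hz) j) k
    rw [Matrix.conjTranspose_apply] at h1 ⊢
    rw [Matrix.smul_apply, Matrix.smul_apply, smul_eq_mul, smul_eq_mul, star_mul', h1]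
    simp
  closed := by
    intro z hz i j k
    have hd : ∀ (j k : Fin n), DifferentiableAt ℝ (fun w => g w j k) z := fun j k =>
      ((hg.smooth j k).contDiffAt (hΩ.mem_nhds hz)).differentiableAt (by simp)
    simp only [Matrix.smul_apply, smul_eq_mul]
    rw [dZ_mul (differentiableAt_const _) (hd j k), dZ_mul (differentiableAt_const _) (hd i k),
      dZ_const, dZ_const, hg.closed z hz i j k, zero_mul, zero_mul]

theorem levi_add {f f' : V n → ℂ} {z : V n} (hf : ContDiffAt ℝ 2 f z)
    (hf' : ContDiffAt ℝ 2 f' z) : levi (fun w => f w + f' w) z = levi f z + levi f' z := by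
  ext j k
  have hev : ∀ᶠ w in 𝓝 z, dB k (fun w => f w + f' w) w = dB k f w + dB k f' w := by
    have h1 : ∀ᶠ w in 𝓝 z, DifferentiableAt ℝ f w :=
      eventually_differentiableAt (N := 2) (by norm_num) hf
    have h2 : ∀ᶠ w in 𝓝 z, DifferentiableAt ℝ f' w :=
      eventually_differentiableAt (N := 2) (by norm_num) hf'
    filter_upwards [h1, h2] with w hw1 hw2
    exact dB_add hw1 hw2 k
  rw [levi, Matrix.of_apply, dZ_congr hev j,
    dZ_add (differentiableAt_dB hf k) (differentiableAt_dB hf' k)]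
  rfl

theorem analyticAt_det_jac {h : V m → V m} {z : V m} (hh : AnalyticAt ℂ h z) :
    AnalyticAt ℂ (fun w => (jac h w).det) z := by
  simp only [Matrix.det_apply']
  refine Finset.analyticAt_fun_sum _ fun σ _ => analyticAt_const.mul ?_
  exact Finset.analyticAt_fun_prod _ fun i _ => analyticAt_jac hh _ _

theorem contDiffAt_det {g : V m → Matrix (Fin m) (Fin m) ℂ} {z : V m} {N : ℕ∞ω}
    (hg : ∀ j k, ContDiffAt ℝ N (fun w => g w j k) z) :
    ContDiffAt ℝ N (fun w => (g w).det) z := by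
  simp only [Matrix.det_apply']
  refine ContDiffAt.sum fun σ _ => contDiffAt_const.mul ?_
  exact contDiffAt_prod fun i _ => hg _ _

/-- invariance of the Chern scalar curvature -/
theorem chernScal_pull {g : V m → Matrix (Fin m) (Fin m) ℂ} {h : V m → V m} {z : V m}
    (hh : AnalyticAt ℂ h z) (hJ : IsUnit (jac h z).det)
    (hg : ∀ j k, ContDiffAt ℝ ∞ (fun w => g w j k) (h z)) (hp : ∀ᶠ w in 𝓝 (h z), (g w).PosDef) :
    chernScal (fun w => pull (jac h w) (g (h w))) z = chernScal g (h z) := by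
  have hJ0 : (jac h z).det ≠ 0 := hJ.ne_zero
  have hev : (fun w => ((Real.log (pull (jac h w) (g (h w))).det.re : ℝ) : ℂ)) =ᶠ[𝓝 z]
      fun w => ((Real.log (Complex.normSq (jac h w).det) : ℝ) : ℂ) +
        ((Real.log (g (h w)).det.re : ℝ) : ℂ) := by
    have h1 : ∀ᶠ w in 𝓝 z, (jac h w).det ≠ 0 :=
      (analyticAt_det_jac hh).continuousAt.eventually_ne hJ0
    have h2 := hh.continuousAt.eventually hp
    filter_upwards [h1, h2] with w hw1 hw2
    have h3 : 0 < (g (h w)).det.re := by
      have := hw2.det_pos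
      exact (Complex.pos_iff.mp this).1
    have h4 : Complex.normSq (jac h w).det ≠ 0 := by simpa using hw1
    rw [det_pull, Complex.re_ofReal_mul, Real.log_mul h4 h3.ne', Complex.ofReal_add]
  have hgz : (g (h z)).PosDef := hp.self_of_nhds
  have hpos : 0 < (g (h z)).det.re := (Complex.pos_iff.mp hgz.det_pos).1
  have hg2 : ∀ j k, ContDiffAt ℝ 2 (fun w => g w j k) (h z) := fun j k =>
    (hg j k).of_le two_le_infty
  have hlog : ContDiffAt ℝ 2 (fun y => ((Real.log (g y).det.re : ℝ) : ℂ)) (h z) := by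
    apply contDiffAt_ofReal
    exact ContDiffAt.log (f := fun y => (g y).det.re)
      (Complex.reCLM.contDiff.contDiffAt.comp (h z) (contDiffAt_det hg2)) hpos.ne'
  have hlogh : ContDiffAt ℝ 2 (fun w => ((Real.log (g (h w)).det.re : ℝ) : ℂ)) z :=
    hlog.comp z (contDiffAt_of_analyticAt' hh)
  have hlogJ : ContDiffAt ℝ 2 (fun w => ((Real.log (Complex.normSq (jac h w).det) : ℝ) : ℂ)) z := by
    apply contDiffAt_ofReal
    exact ContDiffAt.log (f := fun w => Complex.normSq (jac h w).det)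
      (contDiffAt_normSq (contDiffAt_of_analyticAt (analyticAt_det_jac hh)))
      (by simpa using hJ0)
  have hlevi : levi (fun w => ((Real.log (pull (jac h w) (g (h w))).det.re : ℝ) : ℂ)) z =
      pull (jac h z) (levi (fun y => ((Real.log (g y).det.re : ℝ) : ℂ)) (h z)) := by
    rw [levi_congr hev, levi_add hlogJ hlogh, levi_log_normSq (analyticAt_det_jac hh) hJ0,
      zero_add, levi_comp (f := fun y => ((Real.log (g y).det.re : ℝ) : ℂ)) hh hlog]
  rw [chernScal, chernScal, hlevi, trace_pull _ _ _ hJ]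

theorem integral_fderiv_apply_eq_zero {f : V n → ℂ} (hf : ContDiff ℝ 1 f)
    (hc : HasCompactSupport f) (v : V n) : ∫ z, fderiv ℝ f z v = 0 := by
  have hcont : Continuous fun z => fderiv ℝ f z v :=
    (hf.continuous_fderiv (by norm_num)).clm_apply continuous_const
  have hcs : HasCompactSupport fun z => fderiv ℝ f z v := by
    have h1 := hc.fderiv (𝕜 := ℝ)
    exact h1.comp_left (g := fun L : V n →L[ℝ] ℂ => L v) (by simp)
  have h := integral_mul_fderiv_eq_neg_fderiv_mul_of_integrable (μ := volume)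
    (f := fun _ : V n => (1 : ℂ)) (g := f) (v := v) (by simp)
    (by simpa using hcont.integrable_of_hasCompactSupport hcs)
    (by simpa using hf.continuous.integrable_of_hasCompactSupport hc)
    (fun _ _ => differentiableAt_const _)
    (fun x _ => hf.differentiable (by norm_num) x)
  simpa using h

theorem integrable_fderiv_apply {f : V n → ℂ} (hf : ContDiff ℝ 1 f)
    (hc : HasCompactSupport f) (v : V n) : Integrable fun z => fderiv ℝ f z v := by
  have hcont : Continuous fun z => fderiv ℝ f z v :=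
    (hf.continuous_fderiv (by norm_num)).clm_apply continuous_const
  have hcs : HasCompactSupport fun z => fderiv ℝ f z v := by
    have h1 := hc.fderiv (𝕜 := ℝ)
    exact h1.comp_left (g := fun L : V n →L[ℝ] ℂ => L v) (by simp)
  exact hcont.integrable_of_hasCompactSupport hcs

/-- integration by parts -/
theorem integral_dZ_eq_zero {f : V n → ℂ} (hf : ContDiff ℝ 1 f) (hc : HasCompactSupport f)
    (j : Fin n) : ∫ z, dZ j f z = 0 := by
  simp only [dZ]
  rw [integral_div, integral_sub (integrable_fderiv_apply hf hc _)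
    ((integrable_fderiv_apply hf hc _).const_mul _), integral_const_mul,
    integral_fderiv_apply_eq_zero hf hc, integral_fderiv_apply_eq_zero hf hc]
  simp

theorem integral_dB_eq_zero {f : V n → ℂ} (hf : ContDiff ℝ 1 f) (hc : HasCompactSupport f)
    (j : Fin n) : ∫ z, dB j f z = 0 := by
  simp only [dB]
  rw [integral_div, integral_add (integrable_fderiv_apply hf hc _)
    ((integrable_fderiv_apply hf hc _).const_mul _), integral_const_mul,
    integral_fderiv_apply_eq_zero hf hc, integral_fderiv_apply_eq_zero hf hc]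
  simp

end

end GK
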