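import Pool.Agent.GK.Space

/-!
# The charts of `M(𝔅)`
-/

open scoped ContDiff Topology
open MeasureTheory

namespace GK

noncomputable section

/-- a presentation whose underlying set may be too big: the manifold consists of the points that
are hit -/
structure PrePres (n : ℕ) where
  M : Type
  ι : Type
  U : ι → Set (V n)
  isOpen_U : ∀ i, IsOpen (U i)
  π : ι → V n → M
  ne : ∃ i, (U i).Nonempty
  trans : ∀ i j z w, z ∈ U i → w ∈ U j → π i z = π j w →
    ∃ h : V n → V n, AnalyticAt ℂ h z ∧ h z = w ∧ ∀ᶠ z' in 𝓝 z, π j (h z') = π i z'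
  locinj : ∀ i z, z ∈ U i → ∃ W ∈ 𝓝 z, Set.InjOn (π i) W
  sep : ∀ i j z w, z ∈ U i → w ∈ U j → π i z ≠ π j w →
    ∃ A ∈ 𝓝 z, ∃ B ∈ 𝓝 w, ∀ a ∈ A, ∀ b ∈ B, π i a ≠ π j b
  cpt : ∃ (F : Finset ι) (K : ι → Set (V n)), (∀ i, IsCompact (K i) ∧ K i ⊆ U i) ∧
    ∀ j, ∀ w ∈ U j, ∃ i ∈ F, ∃ z ∈ K i, π i z = π j w

namespace PrePres

variable {n : ℕ} (P : PrePres n)

/-- the set of points that are hit -/
def pts : Type := {p : P.M // ∃ i, ∃ z ∈ P.U i, P.π i z = p}

instance : Nonempty P.pts := by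
  obtain ⟨i, z, hz⟩ := P.ne
  exact ⟨⟨P.π i z, i, z, hz, rfl⟩⟩

open Classical in
def pt (i : P.ι) (z : V n) : P.pts :=
  if h : z ∈ P.U i then ⟨P.π i z, i, z, h, rfl⟩ else Classical.arbitrary _

theorem pt_eq_iff {i j : P.ι} {z w : V n} (hz : z ∈ P.U i) (hw : w ∈ P.U j) :
    P.pt i z = P.pt j w ↔ P.π i z = P.π j w := by
  unfold pt
  rw [dif_pos hz, dif_pos hw]
  exact Subtype.mk_eq_mk

/-- the associated presentation -/
def toPres : Pres n where
  M := P.pts
  ι := P.ι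
  U := P.U
  isOpen_U := P.isOpen_U
  π := P.pt
  surj := by
    rintro ⟨p, i, z, hz, rfl⟩
    refine ⟨i, z, hz, ?_⟩
    unfold pt
    rw [dif_pos hz]
  trans := by
    intro i j z w hz hw h
    rw [P.pt_eq_iff hz hw] at h
    obtain ⟨k, k1, k2, k3⟩ := P.trans i j z w hz hw h
    refine ⟨k, k1, k2, ?_⟩
    have e1 : ∀ᶠ z' in 𝓝 z, z' ∈ P.U i := (P.isOpen_U i).mem_nhds hz
    have e2 : ∀ᶠ z' in 𝓝 z, k z' ∈ P.U j :=
      k1.continuousAt.eventually (by rw [k2]; exact (P.isOpen_U j).mem_nhds hw)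
    filter_upwards [k3, e1, e2] with z' a1 a2 a3
    rw [P.pt_eq_iff a3 a2]
    exact a1
  locinj := by
    intro i z hz
    obtain ⟨W, hW, hinj⟩ := P.locinj i z hz
    refine ⟨W ∩ P.U i, Filter.inter_mem hW ((P.isOpen_U i).mem_nhds hz), ?_⟩
    intro a ha b hb hab
    rw [P.pt_eq_iff ha.2 hb.2] at hab
    exact hinj ha.1 hb.1 hab
  sep := by
    intro i j z w hz hw h
    rw [ne_eq, P.pt_eq_iff hz hw] at h
    obtain ⟨A, hA, B, hB, hAB⟩ := P.sep i j z w hz hw h
    refine ⟨A ∩ P.U i, Filter.inter_mem hA ((P.isOpen_U i).mem_nhds hz), B ∩ P.U j,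
      Filter.inter_mem hB ((P.isOpen_U j).mem_nhds hw), ?_⟩
    intro a ha b hb
    rw [ne_eq, P.pt_eq_iff ha.2 hb.2]
    exact hAB a ha.1 b hb.1
  cpt := by
    obtain ⟨F, K, hK, hF⟩ := P.cpt
    refine ⟨F, K, hK, ?_⟩
    rintro ⟨p, j, w, hw, rfl⟩
    obtain ⟨i, hi, z, hz, h⟩ := hF j w hw
    refine ⟨i, hi, z, hz, ?_⟩
    unfold pt
    rw [dif_pos ((hK i).2 hz)]
    exact Subtype.ext h

theorem proj_eq_iff {i j : P.ι} {z w : V n} (hz : z ∈ P.U i) (hw : w ∈ P.U j) :
    P.toPres.proj i z = P.toPres.proj j w ↔ P.π i z = P.π j w := P.pt_eq_iff hz hw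

end PrePres

variable {B : BaseCurve}

/-- direction of the exceptional point `u` in the chart `j` -/
def dir (j : Fin 3) (u : V 4) : Fin 3 → ℂ := fun i => if i = j then 1 else u i.castSucc

/-- a (discontinuous) section of `excMap` -/
def liftx (r : ℕ) (j : Fin 3) (u : V 4) : V 4 := fun i =>
  if i = 3 then u 3 else if i = j.castSucc then u j.castSucc ^ (1 / (r : ℂ)) else
    u j.castSucc ^ (1 / (r : ℂ)) * u i

/-- the point with coordinates `y` in the regular chart `i` -/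
def posA (i : B.κ) (y : V 4) : XA B := (y 0, y 1, B.p i (y 2), y 3)

variable (B) in
/-- index set of the charts -/
abbrev Ix : Type := B.κ ⊕ (Qt B × Fin 3)

/-- domains of the charts -/
def chU : Ix B → Set (V 4)
  | Sum.inl i => {y | y 2 ∈ B.D i ∧ ¬ SpecA (posA i y)}
  | Sum.inr (q, j) => {u | Spec q ∧ u ∈ excDom (ro q) (1 / 64) j}

open Classical in
/-- the charts -/
def chπ : Ix B → V 4 → Pt B
  | Sum.inl i => fun y => ptA (posA i y)
  | Sum.inr (q, j) => fun u => if u j.castSucc = 0 then ptB (q, dir j u, u 3) else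
      ptA (posq q (liftx (ro q) j u))

theorem chπ_inl (i : B.κ) (y : V 4) : chπ (Sum.inl i) y = ptA (posA i y) := rfl

theorem chπ_exc0 (q : Qt B) (j : Fin 3) {u : V 4} (hu : u j.castSucc = 0) :
    chπ (Sum.inr (q, j)) u = ptB (q, dir j u, u 3) := by
  simp [chπ, hu]

theorem chπ_exc (q : Qt B) (j : Fin 3) {u : V 4} (hu : u j.castSucc ≠ 0) :
    chπ (Sum.inr (q, j)) u = ptA (posq q (liftx (ro q) j u)) := by
  simp [chπ, hu]

theorem mem_chU_inl {i : B.κ} {y : V 4} : y ∈ chU (Sum.inl i) ↔ y 2 ∈ B.D i ∧ ¬ SpecA (posA i y) :=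
  Iff.rfl

theorem mem_chU_inr {q : Qt B} {j : Fin 3} {u : V 4} :
    u ∈ chU (Sum.inr (q, j)) ↔ Spec q ∧ u ∈ excDom (ro q) (1 / 64) j := Iff.rfl

theorem castSucc_ne_three (j : Fin 3) : j.castSucc ≠ (3 : Fin 4) := by
  fin_cases j <;> decide

theorem liftx_j (r : ℕ) (j : Fin 3) (u : V 4) :
    liftx r j u j.castSucc = u j.castSucc ^ (1 / (r : ℂ)) := by
  simp [liftx, castSucc_ne_three]

theorem liftx_three (r : ℕ) (j : Fin 3) (u : V 4) : liftx r j u 3 = u 3 := by
  simp [liftx]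

theorem liftx_castSucc (r : ℕ) (j : Fin 3) (u : V 4) (i : Fin 3) :
    liftx r j u i.castSucc = u j.castSucc ^ (1 / (r : ℂ)) * dir j u i := by
  by_cases h : i = j
  · subst h; simp [liftx, castSucc_ne_three, dir]
  · have : i.castSucc ≠ j.castSucc := fun h' => h (Fin.castSucc_injective _ h')
    simp [liftx, castSucc_ne_three, dir, h]

theorem root_pow {r : ℕ} (hr : 0 < r) (v : ℂ) : (v ^ (1 / (r : ℂ))) ^ r = v := by
  rw [one_div]
  exact Complex.cpow_nat_inv_pow v hr.ne'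

theorem excNorm_eq (j : Fin 3) (u : V 4) : excNorm j u = ∑ i, Complex.normSq (dir j u i) := by
  unfold excNorm dir
  fin_cases j <;> simp [Fin.sum_univ_three] <;> ring

theorem excNorm_pos (j : Fin 3) (u : V 4) : 0 < excNorm j u := by
  unfold excNorm
  have : 0 ≤ ∑ i : Fin 3, if i = j then 0 else Complex.normSq (u i.castSucc) :=
    Finset.sum_nonneg fun i _ => by split_ifs; exacts [le_rfl, Complex.normSq_nonneg _]
  linarith

theorem one_le_excNorm (j : Fin 3) (u : V 4) : 1 ≤ excNorm j u := by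
  unfold excNorm
  have : 0 ≤ ∑ i : Fin 3, if i = j then 0 else Complex.normSq (u i.castSucc) :=
    Finset.sum_nonneg fun i _ => by split_ifs; exacts [le_rfl, Complex.normSq_nonneg _]
  linarith

theorem E3_eq (y : V 4) : E3 y = ∑ i : Fin 3, Complex.normSq (y i.castSucc) := by
  rw [Fin.sum_univ_three]; rfl

theorem E3_liftx (r : ℕ) (j : Fin 3) (u : V 4) :
    E3 (liftx r j u) = Complex.normSq (u j.castSucc ^ (1 / (r : ℂ))) * excNorm j u := by
  rw [E3_eq, excNorm_eq, Finset.mul_sum]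
  apply Finset.sum_congr rfl
  intro i _
  rw [liftx_castSucc, Complex.normSq_mul]

theorem E3_liftx_pow {r : ℕ} (hr : 0 < r) (j : Fin 3) (u : V 4) :
    E3 (liftx r j u) ^ r = Complex.normSq (u j.castSucc) * excNorm j u ^ r := by
  rw [E3_liftx, mul_pow, ← map_pow, root_pow hr]

theorem E3_nonneg (y : V 4) : 0 ≤ E3 y := by
  rw [E3_eq]; exact Finset.sum_nonneg fun i _ => Complex.normSq_nonneg _

theorem E3_liftx_lt {r : ℕ} (hr : 0 < r) {ρ : ℝ} (hρ : 0 ≤ ρ) {j : Fin 3} {u : V 4}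
    (hu : u ∈ excDom r ρ j) : E3 (liftx r j u) < ρ := by
  have : E3 (liftx r j u) ^ r < ρ ^ r := by rw [E3_liftx_pow hr]; exact hu
  exact lt_of_pow_lt_pow_left₀ r hρ this

theorem root_eq_zero {r : ℕ} (hr : 0 < r) {v : ℂ} : v ^ (1 / (r : ℂ)) = 0 ↔ v = 0 := by
  constructor
  · intro h
    have := root_pow hr v
    rw [h, zero_pow hr.ne'] at this
    exact this.symm
  · rintro rfl
    have : (1 / (r : ℂ)) ≠ 0 := by
      rw [one_div]; exact inv_ne_zero (by exact_mod_cast hr.ne')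
    exact Complex.zero_cpow this

theorem E3_liftx_eq_zero {r : ℕ} (hr : 0 < r) {j : Fin 3} {u : V 4} :
    E3 (liftx r j u) = 0 ↔ u j.castSucc = 0 := by
  rw [E3_liftx, mul_eq_zero, or_iff_left (excNorm_pos j u).ne', Complex.normSq_eq_zero,
    root_eq_zero hr]

/-- `excMap` is a left inverse of `liftx` -/
theorem excMap_liftx {r : ℕ} (hr : 0 < r) {j : Fin 3} {u : V 4} (hu : u j.castSucc ≠ 0) :
    excMap r j (liftx r j u) = u := by
  have h0 : u j.castSucc ^ (1 / (r : ℂ)) ≠ 0 := fun h => hu ((root_eq_zero hr).1 h)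
  ext i
  unfold excMap
  by_cases hi : i = j.castSucc
  · subst hi
    rw [if_pos rfl, liftx_j, root_pow hr]
  · rw [if_neg hi]
    by_cases h3 : i = 3
    · subst h3; rw [if_pos rfl, liftx_three]
    · rw [if_neg h3, liftx_j]
      simp only [liftx, if_neg h3, if_neg hi]
      field_simp

/-- `E3` and the coordinates of `excMap` -/
theorem excMap_mem {r : ℕ} (hr : 0 < r) {ρ : ℝ} {j : Fin 3} {y : V 4} (hy : y j.castSucc ≠ 0)
    (h : E3 y < ρ) : excMap r j y ∈ excDom r ρ j := by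
  have h1 : E3 y = Complex.normSq (y j.castSucc) * excNorm j (excMap r j y) := by
    rw [E3_eq, excNorm_eq, Finset.mul_sum]
    apply Finset.sum_congr rfl
    intro i _
    rw [← Complex.normSq_mul]
    congr 1
    unfold dir excMap
    by_cases hi : i = j
    · subst hi; simp
    · have : i.castSucc ≠ j.castSucc := fun h' => hi (Fin.castSucc_injective _ h')
      simp only [if_neg hi, if_neg this, if_neg (castSucc_ne_three i)]
      field_simp
  have h2 : Complex.normSq (excMap r j y j.castSucc) = Complex.normSq (y j.castSucc) ^ r := by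
    simp [excMap]
  unfold excDom
  rw [Set.mem_setOf_eq, h2, ← mul_pow, ← h1]
  exact pow_lt_pow_left₀ h (E3_nonneg y) hr.ne'

/-- elements of the stabiliser -/
theorem exists_gam_stab (q : Qt B) {k : ℕ} (h : Stab q k) :
    ∃ γ : Gam, γ.k = k ∧ γ.a = 0 ∧ γ.b = 0 ∧ actQ γ q = q := by
  obtain ⟨h1, h2, h3⟩ := h
  refine ⟨⟨k, 0, 0, -((zetaN B.N ^ k - 1) * q.1), -((zetaN B.N ^ k - 1) * q.2.1),
    Eis.neg_mem h2, Eis.neg_mem h3⟩, rfl, rfl, rfl, ?_⟩
  obtain ⟨z0, z1, σ⟩ := q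
  simp only [actQ, mult, zpow_zero, one_mul, Prod.mk.injEq]
  exact ⟨by ring, by ring, h1⟩

/-- the chart at the image of a point -/
theorem chπ_excMap {q : Qt B} {j : Fin 3} {y : V 4} (hy : y j.castSucc ≠ 0) (hE : E3 y < 1 / 64) :
    chπ (Sum.inr (q, j)) (excMap (ro q) j y) = ptA (posq q y) := by
  have hr := ro_pos q
  have h0 : excMap (ro q) j y j.castSucc = y j.castSucc ^ ro q := by simp [excMap]
  have h1 : excMap (ro q) j y j.castSucc ≠ 0 := by rw [h0]; exact pow_ne_zero _ hy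
  rw [chπ_exc q j h1, ptA_eq]
  apply RA.equiv.symm
  set w := excMap (ro q) j y j.castSucc ^ (1 / (ro q : ℂ)) with hw
  have h2 : w ^ ro q = y j.castSucc ^ ro q := by rw [hw, root_pow hr, h0]
  have h3 : (w / y j.castSucc) ^ ro q = 1 := by
    rw [div_pow, h2, div_self (pow_ne_zero _ hy)]
  haveI : NeZero (ro q) := ⟨hr.ne'⟩
  obtain ⟨m, _, hm⟩ := (primitive_k0 q).eq_pow_of_pow_eq_one h3
  have h4 : w = zetaN B.N ^ (k0 q * m) * y j.castSucc := by
    rw [pow_mul, hm]; field_simp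
  obtain ⟨γ, g1, g2, g3, g4⟩ := exists_gam_stab q (stab_mul q (stab_k0 q) m)
  refine ⟨γ, ?_⟩
  have n2 := norm_lt_eighth hE 2
  have b2 : y 2 ∈ Metric.ball (0 : ℂ) (1 / 2) := by
    rw [mem_ball_zero_iff]
    have : ‖y 2‖ < 1 / 8 := n2
    linarith
  rw [actA_posq γ q b2, g4]
  congr 1
  have h5 : ∀ i : Fin 3, liftx (ro q) j (excMap (ro q) j y) i.castSucc =
      zetaN B.N ^ (k0 q * m) * y i.castSucc := by
    intro i
    rw [liftx_castSucc, ← hw, h4]
    unfold dir excMap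
    by_cases hi : i = j
    · subst hi; simp
    · have : i.castSucc ≠ j.castSucc := fun h' => hi (Fin.castSucc_injective _ h')
      simp only [if_neg hi, if_neg this, if_neg (castSucc_ne_three i)]
      field_simp
  ext i
  fin_cases i
  · have := h5 0
    show mult B.N γ.k γ.a * y 0 = liftx (ro q) j (excMap (ro q) j y) 0
    rw [g1, g2]
    simpa [mult] using this.symm
  · have := h5 1
    show mult B.N γ.k γ.b * y 1 = liftx (ro q) j (excMap (ro q) j y) 1
    rw [g1, g3]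
    simpa [mult] using this.symm
  · have := h5 2
    show zetaN B.N ^ γ.k * y 2 = liftx (ro q) j (excMap (ro q) j y) 2
    rw [g1]
    exact this.symm
  · show y 3 + γ.tr = liftx (ro q) j (excMap (ro q) j y) 3
    rw [liftx_three]
    simp [Gam.tr, g2, g3, excMap, (castSucc_ne_three j).symm]

end

end GK
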