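import Pool.Agent.GK.GenCompat

/-! # Module Extend: extension of objects from the regular charts to the exceptional charts -/

open scoped ContDiff Topology ComplexOrder
open MeasureTheory

namespace GK

noncomputable section

variable {B : BaseCurve}

/-- the inverse of the Jacobian matrix of `excMap` -/
theorem ex_jac_inv {r : ℕ} (hr : 0 < r) {j : Fin 3} {u : V 4} (hu : u j.castSucc ≠ 0) :
    jac (excMap r j) (liftx r j u) * jac (st_inv r j (u j.castSucc)) u = 1 := by
  have h0 : liftx r j u j.castSucc ≠ 0 := by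
    rw [liftx_j]
    exact fun h => hu ((root_eq_zero hr).1 h)
  have e1 : (fun z => excMap r j (st_inv r j (u j.castSucc) z)) =ᶠ[𝓝 u] fun z => z := by
    have h1 : ∀ᶠ z : V 4 in 𝓝 u, z j.castSucc ≠ 0 :=
      (continuous_apply j.castSucc).continuousAt.eventually (isOpen_ne.mem_nhds hu)
    filter_upwards [h1] with z hz
    exact (st_excMap_inv hr hu hz).2
  have e2 := jac_congr e1
  rw [jac_comp ?_ (st_inv_analyticAt hu).differentiableAt, jac_id, st_inv_self hu] at e2
  · exact e2
  · rw [st_inv_self hu]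
    exact (st_excMap_analyticAt h0).differentiableAt

/-- `liftx ∘ excMap` is a rotation in the stabiliser -/
theorem ex_exists_rot (q : Qt B) (j : Fin 3) {y : V 4} (hy : y j.castSucc ≠ 0) :
    ∃ γ : Gam, γ.a = 0 ∧ γ.b = 0 ∧ actQ γ q = q ∧ (zetaN B.N ^ γ.k) ^ ro q = 1 ∧
      liftx (ro q) j (excMap (ro q) j y) = linV B.N γ y := by
  have hr := ro_pos q
  have h0 : excMap (ro q) j y j.castSucc = y j.castSucc ^ ro q := by simp [excMap]
  set w := excMap (ro q) j y j.castSucc ^ (1 / (ro q : ℂ)) with hw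
  have h2 : w ^ ro q = y j.castSucc ^ ro q := by rw [hw, root_pow hr, h0]
  have h3 : (w / y j.castSucc) ^ ro q = 1 := by
    rw [div_pow, h2, div_self (pow_ne_zero _ hy)]
  have : NeZero (ro q) := ⟨hr.ne'⟩
  obtain ⟨m, _, hm⟩ := (primitive_k0 q).eq_pow_of_pow_eq_one h3
  have h4 : w = zetaN B.N ^ (k0 q * m) * y j.castSucc := by
    rw [pow_mul, hm]; field_simp
  obtain ⟨γ, g1, g2, g3, g4⟩ := exists_gam_stab q (stab_mul q (stab_k0 q) m)
  refine ⟨γ, g2, g3, g4, ?_, ?_⟩
  · rw [g1, pow_mul, ← pow_mul, mul_comm m, pow_mul, (primitive_k0 q).pow_eq_one, one_pow]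
  have h5 : ∀ i : Fin 3, liftx (ro q) j (excMap (ro q) j y) i.castSucc =
      zetaN B.N ^ (k0 q * m) * y i.castSucc := by
    intro i
    rw [liftx_castSucc, ← hw, h4]
    unfold dir excMap
    by_cases hi : i = j
    · subst hi; simp
    · have : i.castSucc ≠ j.castSucc := fun h' => hi (Fin.castSucc_injective _ h')
      simp only [if_neg hi, if_neg this, if_neg (castSucc_ne_three i)]
      field_simp
  ext i
  fin_cases i
  · have := h5 0
    show liftx (ro q) j (excMap (ro q) j y) 0 = mult B.N γ.k γ.a * y 0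
    rw [g1, g2]
    simpa [mult] using this
  · have := h5 1
    show liftx (ro q) j (excMap (ro q) j y) 1 = mult B.N γ.k γ.b * y 1
    rw [g1, g3]
    simpa [mult] using this
  · have := h5 2
    show liftx (ro q) j (excMap (ro q) j y) 2 = zetaN B.N ^ γ.k * y 2
    rw [g1]
    exact this
  · show liftx (ro q) j (excMap (ro q) j y) 3 = y 3 + γ.tr
    rw [liftx_three]
    simp [Gam.tr, g2, g3, excMap, (castSucc_ne_three j).symm]

/-- `move1` of a stabiliser element is a rotation about the special point -/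
theorem ex_move1_cen {q : Qt B} {γ : Gam} (hq : actQ γ q = q) (y : V 4) :
    move1 B.N γ (fun w => zetaN B.N ^ γ.k * w) y = cen q + linV B.N γ (y - cen q) := by
  obtain ⟨q0, q1, σ⟩ := q
  simp only [actQ, Prod.mk.injEq] at hq
  obtain ⟨h0, h1, _⟩ := hq
  ext i
  fin_cases i
  · show mult B.N γ.k γ.a * y 0 + γ.l0 = q0 + mult B.N γ.k γ.a * (y 0 - q0)
    linear_combination h0
  · show mult B.N γ.k γ.b * y 1 + γ.l1 = q1 + mult B.N γ.k γ.b * (y 1 - q1)
    linear_combination h1
  · show zetaN B.N ^ γ.k * y 2 = 0 + zetaN B.N ^ γ.k * (y 2 - 0)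
    ring
  · show y 3 + γ.tr = 0 + (y 3 - 0 + γ.tr)
    ring

theorem ex_excMap_rot {N r : ℕ} {γ : Gam} (ha : γ.a = 0) (hb : γ.b = 0)
    (hz : (zetaN N ^ γ.k) ^ r = 1) (j : Fin 3) (y : V 4) :
    excMap r j (linV N γ y) = excMap r j y := by
  have h0 : zetaN N ^ γ.k ≠ 0 := pow_ne_zero _ (zetaN_ne_zero N)
  have h1 : ∀ i : Fin 3, linV N γ y i.castSucc = zetaN N ^ γ.k * y i.castSucc := by
    intro i
    fin_cases i
    · show mult N γ.k γ.a * y 0 = zetaN N ^ γ.k * y 0
      rw [ha]; simp [mult]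
    · show mult N γ.k γ.b * y 1 = zetaN N ^ γ.k * y 1
      rw [hb]; simp [mult]
    · rfl
  have h3 : linV N γ y 3 = y 3 := by
    show y 3 + γ.tr = y 3
    simp [Gam.tr, ha, hb]
  ext i
  by_cases hi : i = j.castSucc
  · subst hi
    simp only [excMap, if_true]
    rw [h1, mul_pow, hz, one_mul]
  · by_cases hi3 : i = 3
    · subst hi3
      simp only [excMap, if_neg hi, if_true]
      exact h3
    · simp only [excMap, if_neg hi, if_neg hi3]
      obtain ⟨m, rfl⟩ : ∃ m : Fin 3, m.castSucc = i := by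
        refine ⟨⟨i.1, ?_⟩, rfl⟩
        rcases Nat.lt_or_ge i.1 3 with h | h
        · exact h
        · exact absurd (Fin.ext (by have := i.2; show i.1 = 3; omega)) hi3
      rw [h1, h1]
      exact mul_div_mul_left _ _ h0

/-- comparison of the two coordinate changes at a generic point -/
theorem ex_rot {q : Qt B} {j : Fin 3} {y : V 4} (hy : (y - cen q) j.castSucc ≠ 0)
    (hE : E3 (y - cen q) < 1 / 64) :
    ∃ γ : Gam, move1 B.N γ (fun w => zetaN B.N ^ γ.k * w) y =
        cen q + liftx (ro q) j (move2 q j y) ∧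
      (∀ᶠ x in 𝓝 (y 2), B.p (B.ch q.2.2) (zetaN B.N ^ γ.k * x) =
        B.s^[γ.k] (B.p (B.ch q.2.2) x)) ∧
      jac (move1 B.N γ (fun w => zetaN B.N ^ γ.k * w)) y =
        jac (st_inv (ro q) j (move2 q j y j.castSucc)) (move2 q j y) * jac (move2 q j) y := by
  obtain ⟨γ, g1, g2, g3, g4, g5⟩ := ex_exists_rot q j hy
  have hu : move2 q j y j.castSucc ≠ 0 := by
    have : move2 q j y j.castSucc = (y - cen q) j.castSucc ^ ro q := by simp [move2, excMap]
    rw [this]
    exact pow_ne_zero _ hy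
  have e0 : move1 B.N γ (fun w => zetaN B.N ^ γ.k * w) y =
      cen q + liftx (ro q) j (move2 q j y) := by
    rw [ex_move1_cen g3, move2, g5]
  refine ⟨γ, e0, ?_, ?_⟩
  · have hb : y 2 ∈ Metric.ball (0 : ℂ) (1 / 2) := by
      have h2 := norm_lt_eighth hE 2
      have h3 : (y - cen q) (Fin.castSucc 2) = y 2 := by
        simp [cen]
      rw [h3] at h2
      rw [mem_ball_zero_iff]
      linarith
    filter_upwards [Metric.isOpen_ball.mem_nhds hb] with x hx
    rw [s_iter_ch _ _ hx]
    have : B.sσ^[γ.k] q.2.2 = q.2.2 := congrArg (fun q : Qt B => q.2.2) g3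
    rw [this]
  · have hA1 : AnalyticAt ℂ (move1 B.N γ (fun w => zetaN B.N ^ γ.k * w)) y :=
      analyticAt_move1 (analyticAt_const.mul analyticAt_id)
    have h0 : liftx (ro q) j (move2 q j y) j.castSucc ≠ 0 := by
      rw [liftx_j]
      exact fun h => hu ((root_eq_zero (ro_pos q)).1 h)
    have hM := ex_jac_inv (ro_pos q) hu
    have hM' := mul_eq_one_comm.1 hM
    have e1 : (fun z => excMap (ro q) j
        (move1 B.N γ (fun w => zetaN B.N ^ γ.k * w) z - cen q)) = move2 q j := by
      funext z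
      rw [ex_move1_cen g3, add_sub_cancel_left, ex_excMap_rot g1 g2 g4, move2]
    have e2 : jac (fun z => excMap (ro q) j
        (move1 B.N γ (fun w => zetaN B.N ^ γ.k * w) z - cen q)) y =
        jac (excMap (ro q) j) (liftx (ro q) j (move2 q j y)) *
          jac (move1 B.N γ (fun w => zetaN B.N ^ γ.k * w)) y := by
      have e3 : move1 B.N γ (fun w => zetaN B.N ^ γ.k * w) y - cen q =
          liftx (ro q) j (move2 q j y) := by
        rw [e0, add_sub_cancel_left]
      have e4 : jac (fun z => move1 B.N γ (fun w => zetaN B.N ^ γ.k * w) z - cen q) y =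
          jac (move1 B.N γ (fun w => zetaN B.N ^ γ.k * w)) y := by
        ext a b
        rw [jac_apply, jac_apply, fderiv_sub_const]
      rw [jac_comp (k := excMap (ro q) j)
        (h := fun z => move1 B.N γ (fun w => zetaN B.N ^ γ.k * w) z - cen q) ?_ ?_, e3, e4]
      · rw [e3]
        exact (st_excMap_analyticAt h0).differentiableAt
      · exact (hA1.sub analyticAt_const).differentiableAt
    rw [e1] at e2
    rw [e2, ← mul_assoc, hM', one_mul]

theorem ex_mem_excDom_iff {r : ℕ} (hr : 0 < r) {ρ : ℝ} (hρ : 0 ≤ ρ) {j : Fin 3} {y : V 4}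
    (hy : y j.castSucc ≠ 0) : excMap r j y ∈ excDom r ρ j ↔ E3 y < ρ := by
  constructor
  · intro h
    have h1 : E3 y = Complex.normSq (y j.castSucc) * excNorm j (excMap r j y) := by
      rw [E3_eq, excNorm_eq, Finset.mul_sum]
      apply Finset.sum_congr rfl
      intro i _
      rw [← Complex.normSq_mul]
      congr 1
      unfold dir excMap
      by_cases hi : i = j
      · subst hi; simp
      · have : i.castSucc ≠ j.castSucc := fun h' => hi (Fin.castSucc_injective _ h')
        simp only [if_neg hi, if_neg this, if_neg (castSucc_ne_three i)]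
        field_simp
    have h2 : Complex.normSq (excMap r j y j.castSucc) = Complex.normSq (y j.castSucc) ^ r := by
      simp [excMap]
    unfold excDom at h
    rw [Set.mem_ofPred_eq, h2, ← mul_pow, ← h1] at h
    exact lt_of_pow_lt_pow_left₀ r hρ h
  · exact excMap_mem hr hy

theorem exists_extend {X : Type} [TopologicalSpace X] [T2Space X]
    (P : Matrix (Fin 4) (Fin 4) ℂ → X → X) (hP1 : ∀ x, P 1 x = x)
    (hPm : ∀ J K x, P (J * K) x = P K (P J x))
    (hPc : Continuous fun a : Matrix (Fin 4) (Fin 4) ℂ × X => P a.1 a.2)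
    (gR : B.κ → V 4 → X) (gN : Qt B → Fin 3 → V 4 → X) (qs : Qt B → ℝ)
    (hqs : ∀ q, Spec q → 0 < qs q)
    (hRc : ∀ i, ContinuousOn (gR i) (chU (Sum.inl i : Ix B)))
    (hNc : ∀ q j, Spec q → ContinuousOn (gN q j) (excDom (ro q) (qs q) j))
    (h1 : ∀ (i j : B.κ) (γ : Gam) (h : ℂ → ℂ) (y : V 4), y ∈ chU (Sum.inl i : Ix B) →
      move1 B.N γ h y ∈ chU (Sum.inl j : Ix B) → AnalyticAt ℂ h (y 2) →
      (∀ᶠ x in 𝓝 (y 2), B.p j (h x) = B.s^[γ.k] (B.p i x)) →
      gR i y = P (jac (move1 B.N γ h) y) (gR j (move1 B.N γ h y)))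
    (h2 : ∀ (q : Qt B) (j : Fin 3) (y : V 4), Spec q → E3 (y - cen q) < 1 / 64 →
      E3 (y - cen q) < qs q → (y - cen q) j.castSucc ≠ 0 →
      gR (B.ch q.2.2) y = P (jac (move2 q j) y) (gN q j (move2 q j y))) :
    ∃ g : Ix B → V 4 → X, (∀ i, g (Sum.inl i) = gR i) ∧
      (∀ q j, Spec q → ∀ u ∈ excDom (ro q) (qs q) j, u ∈ excDom (ro q) (1 / 64) j →
        g (Sum.inr (q, j)) u = gN q j u) ∧
      (∀ q j, Spec q → ∀ u ∈ chU (Sum.inr (q, j) : Ix B), u j.castSucc ≠ 0 →
        ∃ Y : V 4 → V 4, AnalyticAt ℂ Y u ∧ Y u ∈ chU (Sum.inl (B.ch q.2.2) : Ix B) ∧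
          IsUnit (jac Y u).det ∧
          ∀ᶠ u' in 𝓝 u, g (Sum.inr (q, j)) u' = P (jac Y u') (gR (B.ch q.2.2) (Y u'))) ∧
      (∀ (i j : Ix B) (z w : V 4), z ∈ chU i → w ∈ chU j → chπ i z = chπ j w →
        ∃ h : V 4 → V 4, AnalyticAt ℂ h z ∧ h z = w ∧ (∀ᶠ z' in 𝓝 z, chπ j (h z') = chπ i z') ∧
          g i z = P (jac h z) (g j w)) := by
  classical
  let g : Ix B → V 4 → X := fun i => match i with
    | Sum.inl i => gR i
    | Sum.inr (q, j) => fun u => if u ∈ excDom (ro q) (qs q) j then gN q j u else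
        P (jac (st_inv (ro q) j (u j.castSucc)) u) (gR (B.ch q.2.2) (cen q + liftx (ro q) j u))
  have gl : ∀ i, g (Sum.inl i) = gR i := fun _ => rfl
  have gr1 : ∀ q j u, u ∈ excDom (ro q) (qs q) j → g (Sum.inr (q, j)) u = gN q j u :=
    fun q j u hu => if_pos hu
  have gr2 : ∀ q j u, u ∉ excDom (ro q) (qs q) j → g (Sum.inr (q, j)) u =
      P (jac (st_inv (ro q) j (u j.castSucc)) u) (gR (B.ch q.2.2) (cen q + liftx (ro q) j u)) :=
    fun q j u hu => if_neg hu
  -- compatibility with `move2`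
  have H2 : ∀ (q : Qt B) (j : Fin 3) (y : V 4), Spec q → E3 (y - cen q) < 1 / 64 →
      (y - cen q) j.castSucc ≠ 0 →
      gR (B.ch q.2.2) y = P (jac (move2 q j) y) (g (Sum.inr (q, j)) (move2 q j y)) := by
    intro q j y hq hE hy
    by_cases hs : E3 (y - cen q) < qs q
    · rw [gr1 q j (move2 q j y) (excMap_mem (ro_pos q) hy hs)]
      exact h2 q j y hq hE hs hy
    · rw [gr2 q j (move2 q j y) (fun h => hs ((ex_mem_excDom_iff (ro_pos q) (hqs q hq).le hy).1 h))]
      obtain ⟨γ, g1, g2, g3⟩ := ex_rot hy hE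
      rw [← hPm, ← g3, ← g1]
      have hmem := move2_mem hq hy hE
      have hr := ro_pos q
      have hu : move2 q j y j.castSucc ≠ 0 := by
        have : move2 q j y j.castSucc = (y - cen q) j.castSucc ^ ro q := by simp [move2, excMap]
        rw [this]
        exact pow_ne_zero _ hy
      apply h1 _ _ γ (fun w => zetaN B.N ^ γ.k * w) y hmem.2.1 _
        (analyticAt_const.mul analyticAt_id) g2
      rw [g1]
      refine (move2_mem hq (j := j) ?_ ?_).2.1
      · rw [add_sub_cancel_left, liftx_j]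
        exact fun h => hu ((root_eq_zero hr).1 h)
      · rw [add_sub_cancel_left]
        exact E3_liftx_lt hr (by norm_num) hmem.1.2
  -- local expression
  have H3 : ∀ q j, Spec q → ∀ u ∈ chU (Sum.inr (q, j) : Ix B), u j.castSucc ≠ 0 →
      ∃ Y : V 4 → V 4, AnalyticAt ℂ Y u ∧ Y u ∈ chU (Sum.inl (B.ch q.2.2) : Ix B) ∧
        IsUnit (jac Y u).det ∧
        ∀ᶠ u' in 𝓝 u, g (Sum.inr (q, j)) u' = P (jac Y u') (gR (B.ch q.2.2) (Y u')) := by
    intro q j hq u hu hj
    have hr := ro_pos q
    have hA := st_inv_analyticAt (r := ro q) hj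
    have hcE : Continuous E3 := by
      unfold E3
      fun_prop
    have hE0 : E3 (st_inv (ro q) j (u j.castSucc) u) < 1 / 64 := by
      rw [st_inv_self hj]; exact E3_liftx_lt hr (by norm_num) hu.2
    have hE : ∀ᶠ z in 𝓝 u, E3 (st_inv (ro q) j (u j.castSucc) z) < 1 / 64 :=
      (hcE.continuousAt.comp (f := st_inv (ro q) j (u j.castSucc)) hA.continuousAt).eventually
        (Iio_mem_nhds hE0)
    have h0 : ∀ᶠ z : V 4 in 𝓝 u, z j.castSucc ≠ 0 :=
      (continuous_apply j.castSucc).continuousAt.eventually (isOpen_ne.mem_nhds hj)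
    have hY : AnalyticAt ℂ (fun z => cen q + st_inv (ro q) j (u j.castSucc) z) u :=
      analyticAt_const.add hA
    have hYu : AnalyticAt ℂ (move2 q j) (cen q + st_inv (ro q) j (u j.castSucc) u) := by
      apply analyticAt_move2
      rw [add_sub_cancel_left]
      exact (st_excMap_inv hr hj hj).1
    have hid : ∀ᶠ z in 𝓝 u, move2 q j (cen q + st_inv (ro q) j (u j.castSucc) z) = z := by
      filter_upwards [h0] with z a2
      rw [move2, add_sub_cancel_left]
      exact (st_excMap_inv hr hj a2).2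
    have hjac : ∀ᶠ z in 𝓝 u, jac (move2 q j) (cen q + st_inv (ro q) j (u j.castSucc) z) *
        jac (fun z => cen q + st_inv (ro q) j (u j.castSucc) z) z = 1 := by
      filter_upwards [hid.eventually_nhds, hY.eventually_analyticAt, h0] with z a1 a2 a3
      have e1 : (fun z => move2 q j (cen q + st_inv (ro q) j (u j.castSucc) z)) =ᶠ[𝓝 z]
          fun z => z := a1
      have e2 := jac_congr e1
      rw [jac_id, jac_comp (k := move2 q j)
        (h := fun z => cen q + st_inv (ro q) j (u j.castSucc) z) ?_ a2.differentiableAt] at e2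
      · exact e2
      · apply AnalyticAt.differentiableAt
        apply analyticAt_move2
        rw [add_sub_cancel_left]
        exact (st_excMap_inv hr hj a3).1
    refine ⟨fun z => cen q + st_inv (ro q) j (u j.castSucc) z, hY, ?_, ?_, ?_⟩
    · refine (move2_mem hq (j := j) ?_ ?_).2.1
      · rw [add_sub_cancel_left]
        exact (st_excMap_inv hr hj hj).1
      · rw [add_sub_cancel_left]
        exact hE0
    · have := congrArg Matrix.det hjac.self_of_nhds
      rw [Matrix.det_mul, Matrix.det_one] at this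
      exact IsUnit.of_mul_eq_one_right _ this
    · filter_upwards [hE, h0, hid, hjac] with z a1 a2 a3 a4
      have a5 := H2 q j (cen q + st_inv (ro q) j (u j.castSucc) z) hq
        (by rw [add_sub_cancel_left]; exact a1)
        (by rw [add_sub_cancel_left]; exact (st_excMap_inv hr hj a2).1)
      rw [a3] at a5
      rw [a5, ← hPm, a4, hP1]
  refine ⟨g, gl, fun q j _ u hu _ => gr1 q j u hu, H3, ?_⟩
  intro i j z w hz hw h
  refine gen_compat P hP1 hPm hPc g ?_ h1 H2 i j z w hz hw h
  rintro (i | ⟨q, j⟩)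
  · exact hRc i
  · intro u hu
    apply ContinuousAt.continuousWithinAt
    by_cases hs : u ∈ excDom (ro q) (qs q) j
    · have ho := (st_isOpen_excDom (ro q) (qs q) j).mem_nhds hs
      have hc := (hNc q j hu.1).continuousAt ho
      refine hc.congr ?_
      filter_upwards [ho] with u' hu'
      exact (gr1 q j u' hu').symm
    · have hj : u j.castSucc ≠ 0 := by
        intro h0
        apply hs
        unfold excDom
        rw [Set.mem_ofPred_eq, h0, map_zero, zero_mul]
        exact pow_pos (hqs q hu.1) _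
      obtain ⟨Y, y1, y2, _, y4⟩ := H3 q j hu.1 u hu hj
      have hc : ContinuousAt (fun u' => P (jac Y u') (gR (B.ch q.2.2) (Y u'))) u := by
        have d1 : ContinuousAt (gR (B.ch q.2.2)) (Y u) :=
          (hRc _).continuousAt ((isOpen_chU _).mem_nhds y2)
        have d2 : ContinuousAt (fun z' => gR (B.ch q.2.2) (Y z')) u :=
          ContinuousAt.comp d1 y1.continuousAt
        have d3 : ContinuousAt (fun z' => (jac Y z', gR (B.ch q.2.2) (Y z'))) u :=
          (continuousAt_jac y1).prodMk d2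
        exact ContinuousAt.comp (f := fun z' => (jac Y z', gR (B.ch q.2.2) (Y z')))
          (g := fun a : Matrix (Fin 4) (Fin 4) ℂ × X => P a.1 a.2) hPc.continuousAt d3
      exact hc.congr (y4.mono fun _ h => h.symm)

end

end GK
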