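import Pool.Agent.GK.MDefs

/-! # Module SFun: functions supported near the special points -/

open scoped ContDiff Topology ComplexOrder
open MeasureTheory

namespace GK

noncomputable section

variable {B : BaseCurve}

theorem posq_unique {q q' : Qt B} (hq : Spec q) (hq' : Spec q') {x x' : V 4}
    (hx : E3 x < 1 / 64) (hx' : E3 x' < 1 / 64) (h : posq q x = posq q' x') :
    q = q' ∧ x = x' := by
  have h1 := RA_posq hq hq' hx hx' Gam.one (by rw [actA_one]; exact h)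
  rw [actQ_one] at h1
  refine ⟨h1.1, ?_⟩
  rw [← h1.2]
  ext i
  fin_cases i <;> simp [linV, Gam.one, mult_zero, Gam.tr]

theorem SF_posq (ψ : Qt B → ℝ → ℝ) {q : Qt B} (hq : Spec q) {x : V 4} (hx : E3 x < 1 / 64) :
    SF ψ (posq q x) = ψ q (E3 x) := by
  have h : ∃ p : Qt B × V 4, Spec p.1 ∧ E3 p.2 < 1 / 64 ∧ posq p.1 p.2 = posq q x :=
    ⟨(q, x), hq, hx, rfl⟩
  unfold SF
  rw [dif_pos h]
  obtain ⟨h1, h2, h3⟩ := h.choose_spec
  obtain ⟨e1, e2⟩ := posq_unique h1 hq h2 hx h3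
  rw [e1, e2]

theorem SF_of_not (ψ : Qt B → ℝ → ℝ) {x : XA B}
    (h : ∀ (q : Qt B) (y : V 4), Spec q → E3 y < 1 / 64 → posq q y ≠ x) : SF ψ x = 0 := by
  unfold SF
  rw [dif_neg]
  rintro ⟨p, h1, h2, h3⟩
  exact h p.1 p.2 h1 h2 h3

theorem sf_mem_ball {x : V 4} (hx : E3 x < 1 / 64) : x 2 ∈ Metric.ball (0 : ℂ) (1 / 2) := by
  rw [mem_ball_zero_iff]
  have : ‖x 2‖ < 1 / 8 := norm_lt_eighth hx 2
  linarith

theorem SF_act {ψ : Qt B → ℝ → ℝ} (hψ : ∀ (γ : Gam) (q : Qt B), ψ (actQ γ q) = ψ q) (γ : Gam)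
    (x : XA B) : SF ψ (actA γ x) = SF ψ x := by
  by_cases h : ∃ p : Qt B × V 4, Spec p.1 ∧ E3 p.2 < 1 / 64 ∧ posq p.1 p.2 = x
  · obtain ⟨⟨q, y⟩, h1, h2, rfl⟩ := h
    dsimp only at h1 h2 ⊢
    rw [actA_posq γ q (sf_mem_ball h2), SF_posq ψ h1 h2,
      SF_posq ψ (spec_act γ h1) (by rw [st_E3_linV]; exact h2), st_E3_linV, hψ]
  · rw [SF_of_not, SF_of_not]
    · intro q y h1 h2 h3
      exact h ⟨(q, y), h1, h2, h3⟩
    · intro q y h1 h2 h3
      apply h
      refine ⟨(actQ (Gam.inv B γ) q, linV B.N (Gam.inv B γ) y), spec_act _ h1, ?_, ?_⟩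
      · rw [st_E3_linV]; exact h2
      · dsimp only
        rw [← actA_posq _ q (sf_mem_ball h2), h3, actA_inv]

/-- the closed balls around the special points form a closed set -/
theorem isClosed_balls {P : ℝ} (hP : P < 1 / 64) :
    IsClosed {x : XA B | ∃ (q : Qt B) (y : V 4), Spec q ∧ E3 y ≤ P ∧ posq q y = x} := by
  -- the compact piece of the chart
  set K : Set ℂ := Metric.closedBall (0 : ℂ) (1 / 8) with hK
  have : CompactSpace K := isCompact_iff_compactSpace.mp (isCompact_closedBall 0 (1 / 8))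
  have hKsub : ∀ σ : B.Sp, K ⊆ B.D (B.ch σ) := by
    intro σ w hw
    rw [B.D_ch, mem_ball_zero_iff]
    rw [hK, mem_closedBall_zero_iff] at hw
    linarith
  have hfc : ∀ σ : B.Sp, Continuous (fun w : K => B.p (B.ch σ) w) := by
    intro σ
    exact (B.p_cont (B.ch σ)).comp_continuous continuous_subtype_val (fun w => hKsub σ w.2)
  let G : B.Sp → ℂ × ℂ × K × ℂ → XA B := fun σ x => (x.1, x.2.1, B.p (B.ch σ) x.2.2.1, x.2.2.2)
  have hG : ∀ σ, IsClosedMap (G σ) := by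
    intro σ
    have h1 : IsProperMap (fun w : K => B.p (B.ch σ) w) := (hfc σ).isProperMap
    have h2 : IsProperMap (Prod.map (id : ℂ → ℂ) (Prod.map (id : ℂ → ℂ)
        (Prod.map (fun w : K => B.p (B.ch σ) w) (id : ℂ → ℂ)))) :=
      isProperMap_id.prodMap (isProperMap_id.prodMap (h1.prodMap isProperMap_id))
    exact h2.isClosedMap
  let F : (σ : B.Sp) → {z : ℂ × ℂ // Spec ((z.1, z.2, σ) : Qt B)} → Set (ℂ × ℂ × K × ℂ) :=
    fun σ z => {x | Complex.normSq (x.1 - z.1.1) + Complex.normSq (x.2.1 - z.1.2) +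
      Complex.normSq (x.2.2.1 : ℂ) ≤ P}
  have hFc : ∀ σ z, IsClosed (F σ z) := by
    intro σ z
    apply isClosed_le _ continuous_const
    refine Continuous.add (Continuous.add ?_ ?_) ?_
    · exact Complex.continuous_normSq.comp (by fun_prop)
    · exact Complex.continuous_normSq.comp (by fun_prop)
    · exact Complex.continuous_normSq.comp (by fun_prop)
  have hs8 : Real.sqrt P < 1 / 8 := by
    rw [Real.sqrt_lt' (by norm_num)]
    calc P < 1 / 64 := hP
      _ = (1 / 8) ^ 2 := by norm_num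
  have hnorm : ∀ a b c : ℂ, Complex.normSq a + Complex.normSq b + Complex.normSq c ≤ P →
      ‖a‖ ≤ Real.sqrt P ∧ ‖b‖ ≤ Real.sqrt P := by
    intro a b c h
    have h1 := Complex.normSq_nonneg a
    have h2 := Complex.normSq_nonneg b
    have h3 := Complex.normSq_nonneg c
    constructor
    · apply Real.le_sqrt_of_sq_le
      rw [← Complex.normSq_eq_norm_sq]; linarith
    · apply Real.le_sqrt_of_sq_le
      rw [← Complex.normSq_eq_norm_sq]; linarith
  have hF : ∀ σ, LocallyFinite (F σ) := by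
    intro σ x
    set δ := (1 / 8 - Real.sqrt P) / 2 with hδ
    have hδ0 : 0 < δ := by rw [hδ]; linarith
    refine ⟨{x' | ‖x'.1 - x.1‖ < δ ∧ ‖x'.2.1 - x.2.1‖ < δ}, ?_, ?_⟩
    · have ho : IsOpen {x' : ℂ × ℂ × K × ℂ | ‖x'.1 - x.1‖ < δ ∧ ‖x'.2.1 - x.2.1‖ < δ} := by
        apply IsOpen.and
        · exact isOpen_lt (by fun_prop) continuous_const
        · exact isOpen_lt (by fun_prop) continuous_const
      apply ho.mem_nhds
      simp only [Set.mem_ofPred_eq, sub_self, norm_zero]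
      exact ⟨hδ0, hδ0⟩
    · apply Set.Subsingleton.finite
      rintro z ⟨x1, hx1, hx1'⟩ z' ⟨x2, hx2, hx2'⟩
      have n1 := hnorm _ _ _ hx1
      have n2 := hnorm _ _ _ hx2
      have key : ∀ a a' c u u' : ℂ, ‖u - a‖ ≤ Real.sqrt P → ‖u' - a'‖ ≤ Real.sqrt P →
          ‖u - c‖ < δ → ‖u' - c‖ < δ → ‖a - a'‖ < 1 / 4 := by
        intro a a' c u u' h1 h2 h3 h4
        have e : a - a' = (u' - a') - (u - a) + ((u - c) - (u' - c)) := by ring
        rw [e]
        calc ‖(u' - a') - (u - a) + ((u - c) - (u' - c))‖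
            ≤ ‖(u' - a') - (u - a)‖ + ‖(u - c) - (u' - c)‖ := norm_add_le _ _
          _ ≤ (‖u' - a'‖ + ‖u - a‖) + (‖u - c‖ + ‖u' - c‖) :=
              add_le_add (norm_sub_le _ _) (norm_sub_le _ _)
          _ < 1 / 4 := by rw [hδ] at h3 h4; linarith
      have s1 := z.2.special
      have s2 := z'.2.special
      apply Subtype.ext
      apply Prod.ext
      · exact special_sep s1.1 s2.1 (key _ _ x.1 _ _ n1.1 n2.1 hx1'.1 hx2'.1)
      · exact special_sep s1.2 s2.2 (key _ _ x.2.1 _ _ n1.2 n2.2 hx1'.2 hx2'.2)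
  have hset : {x : XA B | ∃ (q : Qt B) (y : V 4), Spec q ∧ E3 y ≤ P ∧ posq q y = x} =
      ⋃ σ, G σ '' (⋃ z, F σ z) := by
    ext x
    simp only [Set.mem_ofPred_eq, Set.mem_iUnion, Set.mem_image]
    constructor
    · rintro ⟨⟨z0, z1, σ⟩, y, hq, hy, rfl⟩
      have hy2 : y 2 ∈ K := by
        rw [hK, mem_closedBall_zero_iff]
        have : ‖y 2‖ < 1 / 8 := norm_lt_eighth (lt_of_le_of_lt hy hP) 2
        exact this.le
      refine ⟨σ, (z0 + y 0, z1 + y 1, ⟨y 2, hy2⟩, y 3), ⟨⟨(z0, z1), hq⟩, ?_⟩, rfl⟩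
      show Complex.normSq (z0 + y 0 - z0) + Complex.normSq (z1 + y 1 - z1) +
        Complex.normSq (y 2) ≤ P
      rw [add_sub_cancel_left, add_sub_cancel_left]
      exact hy
    · rintro ⟨σ, x', ⟨z, hz⟩, rfl⟩
      refine ⟨(z.1.1, z.1.2, σ), ![x'.1 - z.1.1, x'.2.1 - z.1.2, x'.2.2.1, x'.2.2.2], z.2, hz, ?_⟩
      show (z.1.1 + (x'.1 - z.1.1), z.1.2 + (x'.2.1 - z.1.2), B.p (B.ch σ) x'.2.2.1, x'.2.2.2) =
        (x'.1, x'.2.1, B.p (B.ch σ) x'.2.2.1, x'.2.2.2)
      rw [add_sub_cancel, add_sub_cancel]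
  rw [hset]
  exact isClosed_iUnion_of_finite fun σ => hG σ _ ((hF σ).isClosed_iUnion (hFc σ))

theorem SF_eventually_zero {ψ : Qt B → ℝ → ℝ} {P : ℝ} (hP : P < 1 / 64)
    (hψ : ∀ q, Spec q → ∀ x, P ≤ x → ψ q x = 0) {x : XA B}
    (h : ∀ (q : Qt B) (y : V 4), Spec q → E3 y ≤ P → posq q y ≠ x) :
    ∀ᶠ x' in 𝓝 x, SF ψ x' = 0 := by
  have h1 : {x : XA B | ∃ (q : Qt B) (y : V 4), Spec q ∧ E3 y ≤ P ∧ posq q y = x}ᶜ ∈ 𝓝 x := by
    apply (isClosed_balls hP).isOpen_compl.mem_nhds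
    rintro ⟨q, y, h1, h2, h3⟩
    exact h q y h1 h2 h3
  filter_upwards [h1] with x' hx'
  by_cases h2 : ∃ p : Qt B × V 4, Spec p.1 ∧ E3 p.2 < 1 / 64 ∧ posq p.1 p.2 = x'
  · obtain ⟨⟨q, y⟩, h3, h4, rfl⟩ := h2
    dsimp only at h3 h4 ⊢
    rw [SF_posq ψ h3 h4]
    apply hψ q h3
    by_contra h5
    exact hx' ⟨q, y, h3, (not_le.mp h5).le, rfl⟩
  · apply SF_of_not
    intro q y h3 h4 h5
    exact h2 ⟨(q, y), h3, h4, h5⟩

/-- the coordinate change between a chart and the coordinates near a special point -/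
def sf_loc (q : Qt B) (h : ℂ → ℂ) (y : V 4) : V 4 := ![y 0 - q.1, y 1 - q.2.1, h (y 2), y 3]

/-- the inverse coordinate change -/
def sf_loc' (q : Qt B) (h : ℂ → ℂ) (y : V 4) : V 4 := ![y 0 + q.1, y 1 + q.2.1, h (y 2), y 3]

theorem sf_loc_analyticAt (q : Qt B) {h : ℂ → ℂ} {y : V 4} (hh : AnalyticAt ℂ h (y 2)) :
    AnalyticAt ℂ (sf_loc q h) y := by
  apply AnalyticAt.pi
  intro i
  fin_cases i
  · exact (st_apply_analyticAt 0 y).sub analyticAt_const
  · exact (st_apply_analyticAt 1 y).sub analyticAt_const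
  · exact AnalyticAt.fun_comp (g := h) (f := fun z : V 4 => z 2) hh (st_apply_analyticAt 2 y)
  · exact st_apply_analyticAt 3 y

theorem sf_loc'_analyticAt (q : Qt B) {h : ℂ → ℂ} {y : V 4} (hh : AnalyticAt ℂ h (y 2)) :
    AnalyticAt ℂ (sf_loc' q h) y := by
  apply AnalyticAt.pi
  intro i
  fin_cases i
  · exact (st_apply_analyticAt 0 y).add analyticAt_const
  · exact (st_apply_analyticAt 1 y).add analyticAt_const
  · exact AnalyticAt.fun_comp (g := h) (f := fun z : V 4 => z 2) hh (st_apply_analyticAt 2 y)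
  · exact st_apply_analyticAt 3 y

/-- local coordinates near a special point in any chart -/
theorem exists_local {i : B.κ} {y : V 4} (hy : y ∈ chU (Sum.inl i : Ix B)) {q : Qt B}
    (hq : Spec q) {x : V 4} (hx : E3 x < 1 / 64) (h : posA i y = posq q x) :
    ∃ k : V 4 → V 4, AnalyticAt ℂ k y ∧ k y = x ∧ IsUnit (jac k y).det ∧
      ∀ᶠ y' in 𝓝 y, posA i y' = posq q (k y') := by
  simp only [posA, posq, Prod.mk.injEq] at h
  obtain ⟨h0, h1, h2, h3⟩ := h
  have hyD : y 2 ∈ B.D i := hy.1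
  have hxD : x 2 ∈ B.D (B.ch q.2.2) := by rw [B.D_ch]; exact sf_mem_ball hx
  obtain ⟨g, g1, g2, g3⟩ := B.hol i (B.ch q.2.2) 0 (y 2) (x 2) hyD hxD (by
    rw [Function.iterate_zero, id]; exact h2.symm)
  obtain ⟨g', g1', g2', g3'⟩ := B.hol (B.ch q.2.2) i 0 (x 2) (y 2) hxD hyD (by
    rw [Function.iterate_zero, id]; exact h2)
  simp only [Function.iterate_zero, id] at g3 g3'
  have hky : sf_loc q g y = x := by
    ext l
    fin_cases l
    · show y 0 - q.1 = x 0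
      rw [h0]; ring
    · show y 1 - q.2.1 = x 1
      rw [h1]; ring
    · exact g2
    · exact h3
  have hka : AnalyticAt ℂ (sf_loc q g) y := sf_loc_analyticAt q g1
  have hka' : AnalyticAt ℂ (sf_loc' q g') (sf_loc q g y) := by
    rw [hky]
    exact sf_loc'_analyticAt q g1'
  have hinv : ∀ᶠ u in 𝓝 (y 2), g' (g u) = u := by
    have e1 : ∀ᶠ u in 𝓝 (y 2), B.p i (g' (g u)) = B.p (B.ch q.2.2) (g u) :=
      g1.continuousAt.eventually (by rw [g2]; exact g3')
    have e2 : ∀ᶠ u in 𝓝 (y 2), u ∈ B.D i := (B.isOpen_D i).mem_nhds hyD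
    have e3 : ∀ᶠ u in 𝓝 (y 2), g' (g u) ∈ B.D i := by
      have hc : ContinuousAt (fun u => g' (g u)) (y 2) := by
        apply ContinuousAt.comp (g := g') (f := g) _ g1.continuousAt
        rw [g2]; exact g1'.continuousAt
      apply hc.eventually
      have : g' (g (y 2)) = y 2 := by rw [g2, g2']
      show ∀ᶠ v in 𝓝 (g' (g (y 2))), v ∈ B.D i
      rw [this]
      exact (B.isOpen_D i).mem_nhds hyD
    filter_upwards [e1, e2, e3, g3] with u a1 a2 a3 a4
    apply B.p_inj i a3 a2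
    rw [a1, a4]
  have hinv' : (fun u => sf_loc' q g' (sf_loc q g u)) =ᶠ[𝓝 y] fun u => u := by
    have e1 : ∀ᶠ u : V 4 in 𝓝 y, g' (g (u 2)) = u 2 :=
      (continuous_apply (2 : Fin 4)).continuousAt.eventually hinv
    filter_upwards [e1] with u hu
    ext l
    fin_cases l
    · show u 0 - q.1 + q.1 = u 0
      ring
    · show u 1 - q.2.1 + q.2.1 = u 1
      ring
    · exact hu
    · rfl
  refine ⟨sf_loc q g, hka, hky, ?_, ?_⟩
  · have e1 := jac_comp (k := sf_loc' q g') (h := sf_loc q g) (z := y) hka'.differentiableAt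
      hka.differentiableAt
    rw [jac_congr hinv', jac_id] at e1
    have e2 := congrArg Matrix.det e1
    rw [Matrix.det_one, Matrix.det_mul] at e2
    exact IsUnit.of_mul_eq_one _ (by rw [mul_comm]; exact e2.symm)
  · have e1 : ∀ᶠ u : V 4 in 𝓝 y, B.p (B.ch q.2.2) (g (u 2)) = B.p i (u 2) :=
      (continuous_apply (2 : Fin 4)).continuousAt.eventually g3
    filter_upwards [e1] with u hu
    show (u 0, u 1, B.p i (u 2), u 3) =
      (q.1 + (u 0 - q.1), q.2.1 + (u 1 - q.2.1), B.p (B.ch q.2.2) (g (u 2)), u 3)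
    rw [hu, add_sub_cancel, add_sub_cancel]

theorem sf_contDiff_E3 : ContDiff ℝ ∞ E3 := by
  unfold E3
  refine ContDiff.add (ContDiff.add ?_ ?_) ?_
  · exact contDiff_iff_contDiffAt.2 fun y => contDiffAt_normSq (contDiffAt_apply ℝ ℂ 0 y)
  · exact contDiff_iff_contDiffAt.2 fun y => contDiffAt_normSq (contDiffAt_apply ℝ ℂ 1 y)
  · exact contDiff_iff_contDiffAt.2 fun y => contDiffAt_normSq (contDiffAt_apply ℝ ℂ 2 y)

theorem sf_continuousAt_posA {i : B.κ} {y : V 4} (hy : y 2 ∈ B.D i) :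
    ContinuousAt (posA i) y := by
  unfold posA
  have h1 : ContinuousAt (fun u : V 4 => B.p i (u 2)) y := by
    apply ContinuousAt.comp (g := B.p i) (f := fun u : V 4 => u 2) _
      (continuous_apply (2 : Fin 4)).continuousAt
    exact (B.p_cont i).continuousAt ((B.isOpen_D i).mem_nhds hy)
  exact (continuous_apply (0 : Fin 4)).continuousAt.prodMk
    ((continuous_apply (1 : Fin 4)).continuousAt.prodMk
      (h1.prodMk (continuous_apply (3 : Fin 4)).continuousAt))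

theorem contDiffOn_SF {ψ : Qt B → ℝ → ℝ} {P : ℝ} (hP : P < 1 / 64)
    (hψ : ∀ q, Spec q → ∀ x, P ≤ x → ψ q x = 0)
    (hs : ∀ q, Spec q → ContDiffOn ℝ ∞ (ψ q) (Set.Ioi 0)) (i : B.κ) :
    ContDiffOn ℝ ∞ (fun y => SF ψ (posA i y)) (chU (Sum.inl i : Ix B)) := by
  intro y hy
  apply ContDiffAt.contDiffWithinAt
  by_cases h : ∃ p : Qt B × V 4, Spec p.1 ∧ E3 p.2 < 1 / 64 ∧ posq p.1 p.2 = posA i y
  · obtain ⟨⟨q, x⟩, h1, h2, h3⟩ := h
    dsimp only at h1 h2 h3
    obtain ⟨k, k1, k2, _, k4⟩ := exists_local hy h1 h2 h3.symm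
    have hE0 : 0 < E3 x := by
      rcases (E3_nonneg x).lt_or_eq with h4 | h4
      · exact h4
      · exfalso
        apply hy.2
        rw [← h3, specA_posq h1 h2]
        exact h4.symm
    have e1 : ∀ᶠ y' in 𝓝 y, E3 (k y') < 1 / 64 := by
      have hc : ContinuousAt (fun y' => E3 (k y')) y :=
        sf_contDiff_E3.continuous.continuousAt.comp k1.continuousAt
      apply hc.eventually_lt continuousAt_const
      rw [k2]; exact h2
    have e2 : (fun y' => SF ψ (posA i y')) =ᶠ[𝓝 y] fun y' => ψ q (E3 (k y')) := by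
      filter_upwards [e1, k4] with y' a1 a2
      rw [a2, SF_posq ψ h1 a1]
    refine ContDiffAt.congr_of_eventuallyEq ?_ e2
    have a1 : ContDiffAt ℝ ∞ (ψ q) (E3 (k y)) := by
      rw [k2]
      exact (hs q h1).contDiffAt (Ioi_mem_nhds hE0)
    have a2 : ContDiffAt ℝ ∞ (fun y' => E3 (k y')) y :=
      sf_contDiff_E3.contDiffAt.comp y (contDiffAt_of_analyticAt' k1)
    exact a1.comp y a2
  · have e0 : ∀ᶠ x' in 𝓝 (posA i y), SF ψ x' = 0 := by
      apply SF_eventually_zero hP hψ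
      intro q x h1 h2 h3
      exact h ⟨(q, x), h1, lt_of_le_of_lt h2 hP, h3⟩
    have e1 : (fun y' => SF ψ (posA i y')) =ᶠ[𝓝 y] fun _ => (0 : ℝ) :=
      (sf_continuousAt_posA hy.1).eventually e0
    exact contDiffAt_const.congr_of_eventuallyEq e1

end

end GK
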