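import Pool.Agent.GK.MDefs
import Pool.Agent.GK.SFun
import Pool.Agent.GK.Extend

/-! # Module ConfH: the metric on the anticanonical bundle of `M(𝔅)` -/

open scoped ContDiff Topology ComplexOrder
open MeasureTheory

namespace GK

noncomputable section

variable {B : BaseCurve}

namespace ConfAux

/-! ### Jacobian matrices of the elementary moves -/

/-- the coordinate functionals -/
def pr (i : Fin 4) : V 4 →L[ℂ] ℂ := ContinuousLinearMap.proj (R := ℂ) (φ := fun _ : Fin 4 => ℂ) i

theorem hasFDerivAt_pr (i : Fin 4) (y : V 4) : HasFDerivAt (fun z : V 4 => z i) (pr i) y :=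
  (pr i).hasFDerivAt

theorem pr_single (i b : Fin 4) : pr i (Pi.single b 1) = if b = i then 1 else 0 := by
  show (Pi.single b (1 : ℂ) : V 4) i = _
  rw [Pi.single_apply]
  simp only [eq_comm]

/-- the Jacobian matrix from the derivatives of the components -/
theorem jac_of_components {h : V 4 → V 4} {y : V 4} (L : Fin 4 → V 4 →L[ℂ] ℂ)
    (hL : ∀ a, HasFDerivAt (fun z => h z a) (L a) y) (a b : Fin 4) :
    jac h y a b = L a (Pi.single b 1) := by
  have h1 : HasFDerivAt h (ContinuousLinearMap.pi L) y := hasFDerivAt_pi'.2 hL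
  rw [jac_apply, h1.fderiv]
  rfl

theorem jac_move1 {N : ℕ} {γ : Gam} {h : ℂ → ℂ} {y : V 4} (hh : DifferentiableAt ℂ h (y 2)) :
    jac (move1 N γ h) y = Matrix.diagonal
      ![mult N γ.k γ.a, mult N γ.k γ.b, deriv h (y 2), 1] := by
  have hL : ∀ a, HasFDerivAt (fun z => move1 N γ h z a)
      ((![mult N γ.k γ.a • pr 0, mult N γ.k γ.b • pr 1, deriv h (y 2) • pr 2, pr 3] :
        Fin 4 → V 4 →L[ℂ] ℂ) a) y := by
    intro a
    fin_cases a
    · exact ((hasFDerivAt_pr 0 y).const_smul (mult N γ.k γ.a)).add_const γ.l0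
    · exact ((hasFDerivAt_pr 1 y).const_smul (mult N γ.k γ.b)).add_const γ.l1
    · exact hh.hasDerivAt.comp_hasFDerivAt (f := fun z : V 4 => z 2) y (hasFDerivAt_pr 2 y)
    · exact (hasFDerivAt_pr 3 y).add_const γ.tr
  ext a b
  rw [jac_of_components _ hL]
  fin_cases a <;> fin_cases b <;> simp [pr_single, Matrix.diagonal]

theorem normSq_det_move1 {N : ℕ} {γ : Gam} {h : ℂ → ℂ} {y : V 4}
    (hh : DifferentiableAt ℂ h (y 2)) :
    Complex.normSq (jac (move1 N γ h) y).det = Complex.normSq (deriv h (y 2)) := by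
  have hm : ∀ a, Complex.normSq (mult N γ.k a) = 1 := by
    intro a
    rw [Complex.normSq_eq_norm_sq, norm_mult, one_pow]
  rw [jac_move1 hh, Matrix.det_diagonal, Fin.prod_univ_four]
  simp [hm]

/-- the derivative of `excMap` -/
def excL (r : ℕ) (j : Fin 3) (y : V 4) (a : Fin 4) : V 4 →L[ℂ] ℂ :=
  if a = j.castSucc then ((r : ℂ) * y j.castSucc ^ (r - 1)) • pr j.castSucc else
    if a = 3 then pr 3 else
      (y j.castSucc)⁻¹ • pr a - (y a / y j.castSucc ^ 2) • pr j.castSucc

theorem jac_excMap (r : ℕ) {j : Fin 3} {y : V 4} (hy : y j.castSucc ≠ 0) (a b : Fin 4) :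
    jac (excMap r j) y a b = excL r j y a (Pi.single b 1) := by
  apply jac_of_components
  intro a
  by_cases h1 : a = j.castSucc
  · simp only [excMap, excL, if_pos h1]
    have h2 : HasDerivAt (fun w : ℂ => w ^ r) ((r : ℂ) * y j.castSucc ^ (r - 1))
        (y j.castSucc) := hasDerivAt_pow r _
    exact h2.comp_hasFDerivAt (f := fun z : V 4 => z j.castSucc) y (hasFDerivAt_pr _ y)
  · by_cases h3 : a = 3
    · simp only [excMap, excL, if_neg h1, if_pos h3]
      exact hasFDerivAt_pr 3 y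
    · simp only [excMap, excL, if_neg h1, if_neg h3]
      have h2 := (hasDerivAt_inv hy).comp_hasFDerivAt (f := fun z : V 4 => z j.castSucc) y
        (hasFDerivAt_pr _ y)
      have h4 := (hasFDerivAt_pr a y).mul h2
      convert! h4 using 1
      ext z
      simp only [_root_.sub_apply, _root_.add_apply, _root_.smul_apply, smul_eq_mul,
        Function.comp_apply]
      field_simp
      ring

theorem normSq_det_excMap {r : ℕ} (hr : 0 < r) {j : Fin 3} {y : V 4} (hy : y j.castSucc ≠ 0) :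
    Complex.normSq (jac (excMap r j) y).det =
      (r : ℝ) ^ 2 * Real.exp (((r : ℝ) - 3) * Real.log (Complex.normSq (y j.castSucc))) := by
  have h1 : (jac (excMap r j) y).det = (r : ℂ) * y j.castSucc ^ (r - 1) / y j.castSucc ^ 2 := by
    have h2 : jac (excMap r j) y = Matrix.of fun a b => excL r j y a (Pi.single b 1) := by
      ext a b
      exact jac_excMap r hy a b
    rw [h2]
    fin_cases j <;>
    · simp [Matrix.det_succ_row_zero, Fin.sum_univ_succ, excL, pr_single]
      field_simp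
  have h3 : 0 < Complex.normSq (y j.castSucc) := Complex.normSq_pos.2 hy
  have h4 : Real.exp (((r : ℝ) - 3) * Real.log (Complex.normSq (y j.castSucc))) =
      Complex.normSq (y j.castSucc) ^ r / Complex.normSq (y j.castSucc) ^ 3 := by
    rw [sub_mul, Real.exp_sub]
    congr 1
    · rw [mul_comm, Real.exp_mul, Real.exp_log h3, Real.rpow_natCast]
    · have : (3 : ℝ) * Real.log (Complex.normSq (y j.castSucc)) =
          Real.log (Complex.normSq (y j.castSucc)) * ((3 : ℕ) : ℝ) := by
        push_cast; ring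
      rw [this, Real.exp_mul, Real.exp_log h3, Real.rpow_natCast]
  obtain ⟨s, rfl⟩ := Nat.exists_eq_succ_of_ne_zero hr.ne'
  rw [h1, h4, map_div₀, map_mul, map_pow, map_pow, Complex.normSq_natCast]
  simp only [Nat.succ_eq_add_one, Nat.add_sub_cancel]
  field_simp
  rw [pow_succ]

theorem jac_sub_const (c y : V 4) : jac (fun z : V 4 => z - c) y = 1 := by
  ext a b
  rw [jac_apply, fderiv_sub_const, fderiv_fun_id, ContinuousLinearMap.id_apply, Matrix.one_apply,
    Pi.single_apply]

theorem jac_move2 {q : Qt B} {j : Fin 3} {y : V 4} (hy : (y - cen q) j.castSucc ≠ 0) :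
    jac (move2 q j) y = jac (excMap (ro q) j) (y - cen q) := by
  have h1 := jac_comp (k := excMap (ro q) j) (h := fun z : V 4 => z - cen q) (z := y)
    (st_excMap_analyticAt hy).differentiableAt (differentiableAt_id.sub_const _)
  rw [jac_sub_const, mul_one] at h1
  exact h1

theorem E3_eq_mul {r : ℕ} {j : Fin 3} {y : V 4} (hy : y j.castSucc ≠ 0) :
    E3 y = Complex.normSq (y j.castSucc) * excNorm j (excMap r j y) := by
  rw [E3_eq, excNorm_eq, Finset.mul_sum]
  apply Finset.sum_congr rfl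
  intro i _
  rw [← Complex.normSq_mul]
  congr 1
  unfold dir excMap
  by_cases hi : i = j
  · subst hi; simp
  · have : i.castSucc ≠ j.castSucc := fun h' => hi (Fin.castSucc_injective _ h')
    simp only [if_neg hi, if_neg this, if_neg (castSucc_ne_three i)]
    field_simp

/-! ### the exponents -/

theorem θc_act {f : Qt B → ℝ → ℝ} {P : ℝ} (hf : IsCutFam f P) (γ : Gam) (q : Qt B) :
    θc f (actQ γ q) = θc f q := by
  funext x
  simp only [θc]
  rw [ro_act, hf.act]

theorem θc_right {f : Qt B → ℝ → ℝ} {P : ℝ} (hf : IsCutFam f P) :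
    ∀ q, Spec q → ∀ x, P ≤ x → θc f q x = 0 := by
  intro q hq x hx
  simp only [θc, hf.right q hq x hx, mul_zero]

theorem θc_smooth {f : Qt B → ℝ → ℝ} {P : ℝ} (hf : IsCutFam f P) :
    ∀ q, Spec q → ContDiffOn ℝ ∞ (θc f q) (Set.Ioi 0) := by
  intro q hq x hx
  have h1 : ContDiffAt ℝ ∞ Real.log x := Real.contDiffAt_log.2 (ne_of_gt hx)
  have h2 : ContDiffAt ℝ ∞ (fun x => f q (Real.log x)) x :=
    (hf.cut q hq).smooth.contDiffAt.comp x h1
  exact (contDiffAt_const.mul h2).contDiffWithinAt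

theorem posA_move1 {i j : B.κ} {γ : Gam} {h : ℂ → ℂ} {y : V 4}
    (he : B.p j (h (y 2)) = B.s^[γ.k] (B.p i (y 2))) :
    posA j (move1 B.N γ h y) = actA γ (posA i y) := by
  show (mult B.N γ.k γ.a * y 0 + γ.l0, mult B.N γ.k γ.b * y 1 + γ.l1, B.p j (h (y 2)),
    y 3 + γ.tr) = _
  rw [he]
  rfl

theorem contDiff_normSq_coord (i : Fin 4) : ContDiff ℝ ∞ fun u : V 4 => Complex.normSq (u i) := by
  rw [contDiff_iff_contDiffAt]
  intro u
  exact contDiffAt_normSq (f := fun u : V 4 => u i)
    (contDiffAt_of_analyticAt (st_apply_analyticAt i u))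

theorem contDiff_excNorm (j : Fin 3) : ContDiff ℝ ∞ fun u : V 4 => excNorm j u := by
  unfold excNorm
  apply contDiff_const.add
  apply ContDiff.sum
  intro i _
  split_ifs
  · exact contDiff_const
  · exact contDiff_normSq_coord i.castSucc

theorem smooth_hReg (D : MetricData B) {f : Qt B → ℝ → ℝ} {P : ℝ} (hf : IsCutFam f P) (i : B.κ) :
    ContDiffOn ℝ ∞ (hReg D f i) (chU (Sum.inl i : Ix B)) := by
  unfold hReg
  apply ContDiffOn.mul
  · have h1 : ContDiff ℝ ∞ fun y : V 4 => y 2 := contDiff_apply ℝ ℂ 2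
    exact (D.H_smooth i).comp h1.contDiffOn fun y hy => hy.1
  · exact (contDiffOn_SF hf.P_lt (θc_right hf) (θc_smooth hf) i).exp

/-- the metric near the exceptional divisor -/
def hN (c : Qt B → ℝ) (q : Qt B) (j : Fin 3) (u : V 4) : ℝ :=
  Real.exp (((ro q : ℝ) - 3) * (c q + Real.log (excNorm j u))) / (ro q : ℝ) ^ 2

theorem smooth_hN (c : Qt B → ℝ) (q : Qt B) (j : Fin 3) : ContDiff ℝ ∞ (hN c q j) := by
  unfold hN
  apply ContDiff.div_const
  apply ContDiff.exp
  apply contDiff_const.mul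
  apply contDiff_const.add
  exact (contDiff_excNorm j).log fun u => (excNorm_pos j u).ne'

theorem hN_pos (c : Qt B → ℝ) (q : Qt B) (j : Fin 3) (u : V 4) : 0 < hN c q j u := by
  have h1 : (0 : ℝ) < ro q := by exact_mod_cast ro_pos q
  unfold hN
  positivity

theorem hReg_pos (D : MetricData B) (f : Qt B → ℝ → ℝ) {i : B.κ} {y : V 4}
    (hy : y ∈ chU (Sum.inl i : Ix B)) : 0 < hReg D f i y :=
  mul_pos (D.H_pos i _ hy.1) (Real.exp_pos _)

/-- compatibility of the regular charts -/
theorem reg_compat (D : MetricData B) {f : Qt B → ℝ → ℝ} {P : ℝ} (hf : IsCutFam f P)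
    (i j : B.κ) (γ : Gam) (h : ℂ → ℂ) (y : V 4) (hy : y ∈ chU (Sum.inl i : Ix B))
    (hy' : move1 B.N γ h y ∈ chU (Sum.inl j : Ix B)) (hh : AnalyticAt ℂ h (y 2))
    (he : ∀ᶠ x in 𝓝 (y 2), B.p j (h x) = B.s^[γ.k] (B.p i x)) :
    hReg D f i y = Complex.normSq (jac (move1 B.N γ h) y).det * hReg D f j (move1 B.N γ h y) := by
  unfold hReg
  rw [posA_move1 he.self_of_nhds, SF_act (θc_act hf), normSq_det_move1 hh.differentiableAt,
    ← mul_assoc]
  congr 1
  exact D.H_trans i j γ.k (y 2) (h (y 2)) hy.1 hy'.1 he.self_of_nhds h hh rfl he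

/-- compatibility with the exceptional charts -/
theorem exc_compat (D : MetricData B) {f : Qt B → ℝ → ℝ} {c L : Qt B → ℝ}
    (hcL : ∀ q, Spec q → ∀ l, l < L q → f q l = l + c q) (q : Qt B) (j : Fin 3) (y : V 4)
    (hq : Spec q) (hE : E3 (y - cen q) < 1 / 64) (hE' : E3 (y - cen q) < Real.exp (L q))
    (hy : (y - cen q) j.castSucc ≠ 0) :
    hReg D f (B.ch q.2.2) y =
      Complex.normSq (jac (move2 q j) y).det * hN c q j (move2 q j y) := by
  have hr : (ro q : ℝ) ≠ 0 := by exact_mod_cast (ro_pos q).ne'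
  have hns : 0 < Complex.normSq ((y - cen q) j.castSucc) := Complex.normSq_pos.2 hy
  have hex := excNorm_pos j (excMap (ro q) j (y - cen q))
  have e1 := E3_eq_mul (r := ro q) hy
  have hE0 : 0 < E3 (y - cen q) := by rw [e1]; positivity
  have hlog : Real.log (E3 (y - cen q)) < L q := (Real.log_lt_iff_lt_exp hE0).2 hE'
  have h2 : ‖y 2‖ < 1 / 7 := by
    have h3 := norm_lt_eighth hE 2
    have h4 : (y - cen q) (Fin.castSucc 2) = y 2 := by simp [cen]
    rw [h4] at h3
    linarith
  unfold hReg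
  rw [D.H_center _ _ h2, one_mul, st_posA_eq, SF_posq _ hq hE, jac_move2 hy,
    normSq_det_excMap (ro_pos q) hy]
  simp only [θc, hN, move2]
  rw [hcL q hq _ hlog, e1, Real.log_mul hns.ne' hex.ne', mul_assoc, mul_div_assoc', ← Real.exp_add,
    mul_div_assoc', mul_div_cancel_left₀ _ (pow_ne_zero 2 hr)]
  congr 1
  ring

end ConfAux

open ConfAux in
theorem exists_conf (D : MetricData B) {f : Qt B → ℝ → ℝ} {P : ℝ} (hf : IsCutFam f P) :
    ∃ h : (presM B).Conf, ∀ i, ∀ y ∈ chU (Sum.inl i : Ix B), h.h (Sum.inl i) y = hReg D f i y := by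
  classical
  have hcL : ∀ q : Qt B, ∃ c L : ℝ, Spec q → ∀ l, l < L → f q l = l + c := by
    intro q
    by_cases hq : Spec q
    · obtain ⟨c, L, h⟩ := (hf.cut q hq).left
      exact ⟨c, L, fun _ => h⟩
    · exact ⟨0, 0, fun h => absurd h hq⟩
  choose c L hcL using hcL
  obtain ⟨g, g1, g2, g3, g4⟩ := exists_extend
    (fun (J : Matrix (Fin 4) (Fin 4) ℂ) (x : ℝ) => Complex.normSq J.det * x)
    (fun x => by simp)
    (fun J K x => by
      show Complex.normSq (J * K).det * x = Complex.normSq K.det * (Complex.normSq J.det * x)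
      rw [Matrix.det_mul, Complex.normSq_mul]
      ring)
    (by
      have h1 : Continuous fun a : Matrix (Fin 4) (Fin 4) ℂ × ℝ => a.1.det :=
        continuous_fst.matrix_det
      exact (Complex.continuous_normSq.comp h1).mul continuous_snd)
    (hReg D f) (hN c) (fun q => Real.exp (L q)) (fun q _ => Real.exp_pos _)
    (fun i => (smooth_hReg D hf i).continuousOn)
    (fun q j _ => (smooth_hN c q j).continuous.continuousOn)
    (fun i j γ h y => reg_compat D hf i j γ h y)
    (fun q j y hq hE hE' hy => exc_compat D hcL q j y hq hE hE' hy)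
  have key0 : ∀ (q : Qt B) (j : Fin 3) (u : V 4), u j.castSucc = 0 →
      u ∈ excDom (ro q) (Real.exp (L q)) j := by
    intro q j u hu
    show Complex.normSq (u j.castSucc) * excNorm j u ^ ro q < Real.exp (L q) ^ ro q
    rw [hu, map_zero, zero_mul]
    positivity
  refine ⟨⟨g, ?_, ?_, ?_⟩, ?_⟩
  · rintro (i | ⟨q, j⟩)
    · rw [g1]
      exact smooth_hReg D hf i
    · intro u hu
      have hq : Spec q := hu.1
      apply ContDiffAt.contDiffWithinAt
      by_cases h0 : u j.castSucc = 0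
      · have e1 : ∀ᶠ u' in 𝓝 u, g (Sum.inr (q, j)) u' = hN c q j u' := by
          filter_upwards [(st_isOpen_excDom (ro q) (Real.exp (L q)) j).mem_nhds (key0 q j u h0),
            (st_isOpen_excDom (ro q) (1 / 64) j).mem_nhds hu.2] with u' a1 a2
          exact g2 q j hq u' a1 a2
        exact (smooth_hN c q j).contDiffAt.congr_of_eventuallyEq e1
      · obtain ⟨Y, Y1, Y2, _, Y4⟩ := g3 q j hq u hu h0
        refine ContDiffAt.congr_of_eventuallyEq ?_ Y4
        apply ContDiffAt.mul
        · exact contDiffAt_normSq (contDiffAt_of_analyticAt (GK.analyticAt_det_jac Y1))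
        · exact ((smooth_hReg D hf _).contDiffAt ((isOpen_chU _).mem_nhds Y2)).comp u
            (contDiffAt_of_analyticAt' Y1)
  · rintro (i | ⟨q, j⟩) u hu
    · rw [g1]
      exact hReg_pos D f hu
    · have hq : Spec q := hu.1
      by_cases h0 : u j.castSucc = 0
      · rw [g2 q j hq u (key0 q j u h0) hu.2]
        exact hN_pos c q j u
      · obtain ⟨Y, Y1, Y2, Y3, Y4⟩ := g3 q j hq u hu h0
        rw [Y4.self_of_nhds]
        exact mul_pos (Complex.normSq_pos.2 Y3.ne_zero) (hReg_pos D f Y2)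
  · intro i j z w hz hw h
    have h' : chπ i z = chπ j w := ((preM B).pt_eq_iff hz hw).1 h
    obtain ⟨k, k1, k2, k3, k4⟩ := g4 i j z w hz hw h'
    refine ⟨k, k1, k2, ?_, k4⟩
    have e1 : ∀ᶠ z' in 𝓝 z, z' ∈ chU i := (isOpen_chU i).mem_nhds hz
    have e2 : ∀ᶠ z' in 𝓝 z, k z' ∈ chU j :=
      k1.continuousAt.eventually (by rw [k2]; exact (isOpen_chU j).mem_nhds hw)
    filter_upwards [k3, e1, e2] with z' a1 a2 a3
    exact ((preM B).pt_eq_iff a3 a2).2 a1
  · intro i y _
    show g (Sum.inl i) y = _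
    rw [g1]

end

end GK
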