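import Mathlib

/-!
# Definitions: Hermitian metrics on complex manifolds, Kähler / Gauduchon conditions,
total Chern scalar curvature.
-/

open scoped ContDiff Manifold Topology ComplexOrder
open MeasureTheory

namespace GK

noncomputable section

/-- The model space `ℂⁿ`. -/
abbrev V (n : ℕ) := Fin n → ℂ

/-- Wirtinger derivative `∂f/∂z_j`. -/
def dZ {n : ℕ} (j : Fin n) (f : V n → ℂ) (z : V n) : ℂ :=
  (fderiv ℝ f z (Pi.single j 1) - Complex.I * fderiv ℝ f z (Pi.single j Complex.I)) / 2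

/-- Wirtinger derivative `∂f/∂z̄_j`. -/
def dB {n : ℕ} (j : Fin n) (f : V n → ℂ) (z : V n) : ℂ :=
  (fderiv ℝ f z (Pi.single j 1) + Complex.I * fderiv ℝ f z (Pi.single j Complex.I)) / 2

/-- The matrix `∂_j ∂̄_k f`. -/
def levi {n : ℕ} (f : V n → ℂ) (z : V n) : Matrix (Fin n) (Fin n) ℂ :=
  Matrix.of fun j k => dZ j (fun w => dB k f w) z

/-- The holomorphic Jacobian matrix `(∂h_a/∂z_j)_{a,j}`. -/
def jac {n m : ℕ} (h : V n → V m) (z : V n) : Matrix (Fin m) (Fin n) ℂ :=
  Matrix.of fun a j => fderiv ℂ h z (Pi.single j 1) a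

/-- Pull-back of a Hermitian form `g_{a b̄}` by a linear map `J`:
`∑_{a,b} J_{aj} g_{a b̄} conj(J_{bk})`. -/
def pull {n m : ℕ} (J : Matrix (Fin m) (Fin n) ℂ) (g : Matrix (Fin m) (Fin m) ℂ) :
    Matrix (Fin n) (Fin n) ℂ :=
  J.transpose * g * J.map star

variable (n : ℕ) (M : Type) [TopologicalSpace M] [ChartedSpace (V n) M]

/-- A smooth Hermitian metric on the complex manifold `M`, given by its coefficient matrices
`(g_{j k̄})` in all charts of the atlas, that transform as a `(1,1)`-form. -/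
structure HermitianMetric where
  /-- the matrix `(g_{j k̄})` in a chart -/
  g : OpenPartialHomeomorph M (V n) → V n → Matrix (Fin n) (Fin n) ℂ
  smooth : ∀ e ∈ atlas (V n) M, ∀ j k, ContDiffOn ℝ ∞ (fun z => g e z j k) e.target
  posDef : ∀ e ∈ atlas (V n) M, ∀ z ∈ e.target, (g e z).PosDef
  compat : ∀ e ∈ atlas (V n) M, ∀ e' ∈ atlas (V n) M, ∀ z ∈ (e.symm.trans e').source,
    g e z = pull (jac (e.symm.trans e') z) (g e' ((e.symm.trans e') z))

variable {n M}

/-- The Chern scalar curvature `-∑ g^{j k̄} ∂_j ∂̄_k log det g` in a coordinate domain. -/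
def chernScal (g : V n → Matrix (Fin n) (Fin n) ℂ) (z : V n) : ℝ :=
  -(∑ j, ∑ k, (g z)⁻¹ k j * levi (fun w => ((Real.log (g w).det.re : ℝ) : ℂ)) z j k).re

namespace HermitianMetric

variable (g : HermitianMetric n M)

/-- The metric is Kähler: `dω = 0`, i.e. `∂_i g_{j k̄} = ∂_j g_{i k̄}` in all charts. -/
def IsKahler : Prop := ∀ e ∈ atlas (V n) M, ∀ z ∈ e.target, ∀ i j k : Fin n,
  dZ i (fun w => g.g e w j k) z = dZ j (fun w => g.g e w i k) z

/-- The metric is Gauduchon: `∂∂̄(ω^{n-1}) = 0`; the coefficients of `ω^{n-1}` are (up to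
constants) the cofactors of `(g_{j k̄})`, so the condition reads
`∑_{j,k} ∂_j ∂̄_k (adj g)_{k j} = 0` in all charts. -/
def IsGauduchon : Prop := ∀ e ∈ atlas (V n) M, ∀ z ∈ e.target,
  ∑ j, ∑ k, dZ j (fun w => dB k (fun w' => (g.g e w').adjugate k j) w) z = 0

/-- The Chern scalar curvature as a function on `M`. -/
def scal (x : M) : ℝ := chernScal (g.g (chartAt (V n) x)) (chartAt (V n) x x)

/-- `μ` is the volume measure `ω^n / n!`: in a chart it is `2^n det(g_{j k̄})` times Lebesgue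
measure on `ℂⁿ`. -/
def IsVolume (μ : @Measure M (borel M)) : Prop :=
  ∀ e ∈ atlas (V n) M, ∀ A : Set (V n), MeasurableSet A → A ⊆ e.target →
    μ (e.symm '' A) = ∫⁻ z in A, ENNReal.ofReal (2 ^ n * (g.g e z).det.re)

open Classical in
/-- The volume measure (it exists and is unique if `M` is compact Hausdorff). -/
def volume : @Measure M (borel M) :=
  if h : ∃ μ : @Measure M (borel M), g.IsVolume μ then h.choose else 0

/-- The total Chern scalar curvature `∫_M s_C ω^n / n!`. -/
def total : ℝ := @integral M ℝ _ _ (borel M) g.volume g.scal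

end HermitianMetric

/-- Question (a). -/
def QuestionA : Prop := ∀ (n : ℕ) (M : Type) [TopologicalSpace M] [T2Space M] [CompactSpace M]
  [ConnectedSpace M] [ChartedSpace (V n) M] [IsManifold 𝓘(ℂ, V n) ω M],
  (∃ g : HermitianMetric n M, g.IsKahler) →
  (∃ g : HermitianMetric n M, g.IsGauduchon ∧ 0 < g.total) →
  ∃ g : HermitianMetric n M, g.IsKahler ∧ 0 < g.total

/-- Question (b). -/
def QuestionB : Prop := ∀ (n : ℕ) (M : Type) [TopologicalSpace M] [T2Space M] [CompactSpace M]
  [ConnectedSpace M] [ChartedSpace (V n) M] [IsManifold 𝓘(ℂ, V n) ω M],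
  (∃ g : HermitianMetric n M, g.IsKahler) →
  (∃ g : HermitianMetric n M, g.IsGauduchon ∧ g.total < 0) →
  ∃ g : HermitianMetric n M, g.IsKahler ∧ g.total < 0

end

end GK
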