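import Pool.Agent.GK.KeyLimitP

/-! # Module KeyLimit -/

open scoped ContDiff Topology ComplexOrder
open MeasureTheory

namespace GK

noncomputable section

theorem exists_cone {r : ℕ} {ρ : ℝ} {g : V 4 → Matrix (Fin 4) (Fin 4) ℂ}
    {gx : Fin 3 → V 4 → Matrix (Fin 4) (Fin 4) ℂ} (h : LocalExc r ρ g gx) :
    ∃ a, Cone a ∧ ∀ K : Set (V 4), IsCompact K → K ⊆ {y | 0 < E3 y} → ∀ j k,
      TendstoUniformlyOn (fun (ε : ℝ) y => pull (scaleMat ε) (g (scale ε y)) j k)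
        (fun y => a y j k) (𝓝[>] 0) K := KL.exists_cone' h

theorem flux_indep {r : ℕ} {ρ : ℝ} {g : V 4 → Matrix (Fin 4) (Fin 4) ℂ}
    {gx : Fin 3 → V 4 → Matrix (Fin 4) (Fin 4) ℂ} (h : LocalExc r ρ g gx) {f f' : ℝ → ℝ}
    (hf : IsCut f ρ) (hf' : IsCut f' ρ) : flux f g = flux f' g := KL.flux_indep' h hf hf'

theorem flux_nonneg {r : ℕ} {ρ : ℝ} {g : V 4 → Matrix (Fin 4) (Fin 4) ℂ}
    {gx : Fin 3 → V 4 → Matrix (Fin 4) (Fin 4) ℂ} (h : LocalExc r ρ g gx) {f : ℝ → ℝ}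
    (hf : IsCut f ρ) : 0 ≤ flux f g := KL.flux_nonneg' h hf

theorem flux_le_shell {r : ℕ} {ρ : ℝ} {g : V 4 → Matrix (Fin 4) (Fin 4) ℂ}
    {gx : Fin 3 → V 4 → Matrix (Fin 4) (Fin 4) ℂ} (h : LocalExc r ρ g gx) {f : ℝ → ℝ}
    (hf : IsCut f ρ) {a : V 4 → Matrix (Fin 4) (Fin 4) ℂ} (ha : Cone a)
    (hl : ∀ K : Set (V 4), IsCompact K → K ⊆ {y | 0 < E3 y} → ∀ j k,
      TendstoUniformlyOn (fun (ε : ℝ) y => pull (scaleMat ε) (g (scale ε y)) j k)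
        (fun y => a y j k) (𝓝[>] 0) K) {k : ℝ → ℝ} (hk : IsWeight k) :
    flux f g ≤ shell k a / 4 := KL.flux_le_shell' h hf ha hl hk

end

end GK
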