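import Pool.Agent.GK.Local

/-!
# Module KeyShell

`shell k a ≤ 2 π α A₀ A₁` for a Kähler form `a` on `ℙ² × ℂ/2ℤ[i]`.

* periodic Stokes theorem for basic forms (`stokes_b`), divergence of the adjugate of `addRad a`;
* invariance of the polarised functional under the flows `(e^{λ s} y₀, y₁, y₂, y₃ + s v)`
  (`flow_inv`);
* averaging over the torus (`SH_tav`) and Fischer's inequality reduce to forms of product type;
* the flow `y₀ ↦ e^s y₀`, `s → ∞`, concentrates the form on the line `y₀ = 0` (`tendsto_JJ`).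
-/

namespace GK

noncomputable section

namespace KS

section

open scoped ContDiff Topology ComplexOrder
open MeasureTheory

theorem leibniz {X Y : Type*} [NormedAddCommGroup X] [NormedSpace ℝ X] [FiniteDimensional ℝ X]
    [NormedAddCommGroup Y] [NormedSpace ℝ Y] [FiniteDimensional ℝ Y] [MeasurableSpace Y]
    [BorelSpace Y] {μ : Measure Y} [IsFiniteMeasureOnCompacts μ] {F : X × Y → ℂ} {W : Set (X × Y)}
    (hW : IsOpen W) (hF : ContDiffOn ℝ 1 F W) {K K' : Set Y} (hK : IsCompact K)
    (hK' : MeasurableSet K') (hKK' : K' ⊆ K) {U : Set X} (hU : IsOpen U) (hUK : U ×ˢ K ⊆ W)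
    {x₀ : X} (hx : x₀ ∈ U) :
    HasFDerivAt (fun x => ∫ y in K', F (x, y) ∂μ)
      (∫ y in K', (fderiv ℝ F (x₀, y)).comp (ContinuousLinearMap.inl ℝ X Y) ∂μ) x₀ := by
  have : ProperSpace X := FiniteDimensional.proper_real X
  have : ProperSpace Y := FiniteDimensional.proper_real Y
  obtain ⟨δ, hδ, hδU⟩ : ∃ δ > 0, Metric.closedBall x₀ δ ⊆ U :=
    Metric.nhds_basis_closedBall.mem_iff.1 (hU.mem_nhds hx)
  have hcomp : IsCompact (Metric.closedBall x₀ δ ×ˢ K) := (isCompact_closedBall x₀ δ).prod hK
  have hsub : Metric.closedBall x₀ δ ×ˢ K ⊆ W :=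
    (Set.prod_mono hδU subset_rfl).trans hUK
  have hcont : ContinuousOn (fun p => fderiv ℝ F p) W :=
    hF.continuousOn_fderiv_of_isOpen hW le_rfl
  obtain ⟨C, hC⟩ := hcomp.exists_bound_of_continuousOn (hcont.mono hsub)
  have hFc : ContinuousOn F W := hF.continuousOn
  have hpair : ∀ x ∈ Metric.closedBall x₀ δ, ContinuousOn (fun y => F (x, y)) K := by
    intro x hx'
    exact hFc.comp (by fun_prop) (fun y hy => hsub ⟨hx', hy⟩)
  have hfin : IsFiniteMeasure (μ.restrict K') :=
    ⟨by
      rw [Measure.restrict_apply_univ]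
      exact lt_of_le_of_lt (measure_mono hKK') hK.measure_lt_top⟩
  have hxin : x₀ ∈ Metric.closedBall x₀ δ := Metric.mem_closedBall_self hδ.le
  refine hasFDerivAt_integral_of_dominated_of_fderiv_le (𝕜 := ℝ)
    (F := fun x y => F (x, y))
    (F' := fun x y => (fderiv ℝ F (x, y)).comp (ContinuousLinearMap.inl ℝ X Y))
    (bound := fun _ => C) (Metric.ball_mem_nhds x₀ hδ) ?_ ?_ ?_ ?_ ?_ ?_
  · filter_upwards [Metric.ball_mem_nhds x₀ hδ] with x hx'
    exact ((hpair x (Metric.ball_subset_closedBall hx')).mono hKK').aestronglyMeasurable hK'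
  · exact ((hpair x₀ hxin).integrableOn_compact hK).mono_set hKK'
  · have h1 : ContinuousOn (fun y => (fderiv ℝ F (x₀, y)).comp (ContinuousLinearMap.inl ℝ X Y))
        K := by
      have h2 : ContinuousOn (fun y => fderiv ℝ F (x₀, y)) K :=
        hcont.comp (by fun_prop) (fun y hy => hsub ⟨hxin, hy⟩)
      exact h2.clm_comp continuousOn_const
    exact (h1.mono hKK').aestronglyMeasurable hK'
  · refine (ae_restrict_iff' hK').2 (Filter.Eventually.of_forall fun y hy x hx' => ?_)
    calc ‖(fderiv ℝ F (x, y)).comp (ContinuousLinearMap.inl ℝ X Y)‖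
        ≤ ‖fderiv ℝ F (x, y)‖ * ‖ContinuousLinearMap.inl ℝ X Y‖ :=
          ContinuousLinearMap.opNorm_comp_le _ _
      _ ≤ ‖fderiv ℝ F (x, y)‖ * 1 := by
          gcongr
          exact ContinuousLinearMap.norm_inl_le_one ℝ X Y
      _ ≤ C := by
          rw [mul_one]
          exact hC (x, y) ⟨Metric.ball_subset_closedBall hx', hKK' hy⟩
  · exact integrable_const C
  · refine (ae_restrict_iff' hK').2 (Filter.Eventually.of_forall fun y hy x hx' => ?_)
    have hmem : (x, y) ∈ W := hsub ⟨Metric.ball_subset_closedBall hx', hKK' hy⟩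
    have h1 : HasFDerivAt F (fderiv ℝ F (x, y)) (x, y) :=
      ((hF.contDiffAt (hW.mem_nhds hmem)).differentiableAt one_ne_zero).hasFDerivAt
    exact h1.comp x (hasFDerivAt_prodMk_left x y)

lemma measurableSet_box (c : ℝ) : MeasurableSet (box c) := by
  have h1 : MeasurableSet {z : ℂ | z.re ∈ Set.Ico 0 c} :=
    Complex.measurable_re measurableSet_Ico
  have h2 : MeasurableSet {z : ℂ | z.im ∈ Set.Ico 0 c} :=
    Complex.measurable_im measurableSet_Ico
  exact h1.inter h2

/-- tiling: exactly one translate of `z` is in the box -/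
lemma existsUnique_box (z : ℂ) : ∃! w : ℤ × ℤ,
    (2 * (w.1 : ℂ) + 2 * (w.2 : ℂ) * Complex.I) + z ∈ box 2 := by
  have h2 : (0 : ℝ) < 2 := by norm_num
  obtain ⟨m, hm, hm'⟩ := existsUnique_add_zsmul_mem_Ico h2 z.re 0
  obtain ⟨n, hn, hn'⟩ := existsUnique_add_zsmul_mem_Ico h2 z.im 0
  have key : ∀ w : ℤ × ℤ, (2 * (w.1 : ℂ) + 2 * (w.2 : ℂ) * Complex.I) + z ∈ box 2 ↔
      (z.re + w.1 • (2 : ℝ) ∈ Set.Ico (0 : ℝ) (0 + 2)) ∧
      (z.im + w.2 • (2 : ℝ) ∈ Set.Ico (0 : ℝ) (0 + 2)) := by
    intro w
    have e1 : ((2 * (w.1 : ℂ) + 2 * (w.2 : ℂ) * Complex.I) + z).re = z.re + w.1 • (2 : ℝ) := by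
      simp; ring
    have e2 : ((2 * (w.1 : ℂ) + 2 * (w.2 : ℂ) * Complex.I) + z).im = z.im + w.2 • (2 : ℝ) := by
      simp; ring
    unfold box
    rw [Set.mem_ofPred_eq, e1, e2, zero_add]
  refine ⟨(m, n), (key _).2 ⟨hm, hn⟩, ?_⟩
  intro w hw
  have := (key w).1 hw
  exact Prod.ext (hm' _ this.1) (hn' _ this.2)

/-- Shift invariance of integrals of periodic functions over the box. -/
theorem shift_box {A : Type*} [NormedAddCommGroup A] [MeasurableSpace A] [BorelSpace A]
    [SecondCountableTopology A]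
    {μ : Measure A} [μ.IsAddLeftInvariant] (pr : A →+ ℂ) (hpr : Measurable pr)
    (iota : ℤ × ℤ →+ A) (hiota : ∀ w : ℤ × ℤ, pr (iota w) = 2 * (w.1 : ℂ) + 2 * (w.2 : ℂ) * Complex.I)
    {G : A → ℂ} (hG : ∀ w y, G (y + iota w) = G y) (τ : A) :
    ∫ y in pr ⁻¹' (box 2), G (y + τ) ∂μ = ∫ y in pr ⁻¹' (box 2), G y ∂μ := by
  have hinj : Function.Injective iota := by
    intro w w' h
    have h1 := hiota w
    rw [h, hiota w'] at h1
    have e1 := congrArg Complex.re h1
    have e2 := congrArg Complex.im h1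
    simp at e1 e2
    exact Prod.ext (by exact_mod_cast e1.symm) (by exact_mod_cast e2.symm)
  have hdom : ∀ c : ℂ, IsAddFundamentalDomain iota.range (pr ⁻¹' {z | z - c ∈ box 2}) μ := by
    intro c
    have hm : MeasurableSet (pr ⁻¹' {z | z - c ∈ box 2}) :=
      hpr ((measurable_id.sub_const c) (measurableSet_box 2))
    refine IsAddFundamentalDomain.mk' hm.nullMeasurableSet ?_
    intro x
    obtain ⟨w, hw, hw'⟩ := existsUnique_box (pr x - c)
    refine ⟨⟨iota w, ⟨w, rfl⟩⟩, ?_, ?_⟩
    · change pr (iota w + x) - c ∈ box 2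
      rw [map_add, hiota, add_sub_assoc]
      exact hw
    · rintro ⟨g, ⟨w', rfl⟩⟩ hg
      change pr (iota w' + x) - c ∈ box 2 at hg
      rw [map_add, hiota, add_sub_assoc] at hg
      have := hw' w' hg
      subst this
      rfl
  have h0 := hdom 0
  have h1 := hdom (pr τ)
  have hcount : Countable iota.range := by
    have : (Set.range iota).Countable := Set.countable_range iota
    exact this.to_subtype
  have hinv : ∀ (g : iota.range) (x : A), G (g +ᵥ x) = G x := by
    rintro ⟨g, ⟨w, rfl⟩⟩ x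
    change G (iota w + x) = G x
    rw [add_comm]
    exact hG w x
  have e1 := IsAddFundamentalDomain.setIntegral_eq h0 h1 (f := G) hinv
  have e0 : pr ⁻¹' {z | z - 0 ∈ box 2} = pr ⁻¹' (box 2) := by
    ext y; simp
  rw [e0] at e1
  rw [e1]
  have hm : MeasurableSet (pr ⁻¹' {z | z - pr τ ∈ box 2}) :=
    hpr ((measurable_id.sub_const _) (measurableSet_box 2))
  rw [← integral_indicator hm, ← integral_indicator (hpr (measurableSet_box 2)),
    ← integral_add_right_eq_self (μ := μ)
      (fun y => (pr ⁻¹' {z | z - pr τ ∈ box 2}).indicator G y) τ]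
  congr 1
  ext y
  have : (y + τ ∈ pr ⁻¹' {z | z - pr τ ∈ box 2}) ↔ y ∈ pr ⁻¹' (box 2) := by
    change pr (y + τ) - pr τ ∈ box 2 ↔ pr y ∈ box 2
    rw [map_add, add_sub_cancel_right]
  by_cases hy : y ∈ pr ⁻¹' (box 2)
  · rw [Set.indicator_of_mem hy, Set.indicator_of_mem (this.2 hy)]
  · rw [Set.indicator_of_notMem hy, Set.indicator_of_notMem (fun h => hy (this.1 h))]

end

section

open scoped ContDiff Topology ComplexOrder
open MeasureTheory

theorem leibniz_deriv {Y : Type*}
    [NormedAddCommGroup Y] [NormedSpace ℝ Y] [FiniteDimensional ℝ Y] [MeasurableSpace Y]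
    [BorelSpace Y] {μ : Measure Y} [IsFiniteMeasureOnCompacts μ] {F : ℝ × Y → ℂ}
    {W : Set (ℝ × Y)}
    (hW : IsOpen W) (hF : ContDiffOn ℝ 1 F W) {K K' : Set Y} (hK : IsCompact K)
    (hK' : MeasurableSet K') (hKK' : K' ⊆ K) {U : Set ℝ} (hU : IsOpen U) (hUK : U ×ˢ K ⊆ W)
    {s : ℝ} (hx : s ∈ U) :
    HasDerivAt (fun x => ∫ y in K', F (x, y) ∂μ)
      (∫ y in K', fderiv ℝ F (s, y) (1, 0) ∂μ) s := by
  have h := (leibniz (μ := μ) hW hF hK hK' hKK' hU hUK hx).hasDerivAt
  convert h using 1
  have hcont : ContinuousOn (fun p => fderiv ℝ F p) W :=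
    hF.continuousOn_fderiv_of_isOpen hW le_rfl
  have h2 : ContinuousOn (fun y => fderiv ℝ F (s, y)) K :=
    hcont.comp (by fun_prop) (fun y hy => hUK ⟨hx, hy⟩)
  have h1 : ContinuousOn (fun y => (fderiv ℝ F (s, y)).comp (ContinuousLinearMap.inl ℝ ℝ Y))
      K := h2.clm_comp continuousOn_const
  have hint : IntegrableOn (fun y => (fderiv ℝ F (s, y)).comp
      (ContinuousLinearMap.inl ℝ ℝ Y)) K' μ := (h1.integrableOn_compact hK).mono_set hKK'
  rw [ContinuousLinearMap.integral_apply hint]
  rfl

lemma contDiff_E3 {n : WithTop ℕ∞} : ContDiff ℝ n E3 := by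
  have h : ∀ i : Fin 4, ContDiff ℝ n (fun y : V 4 => Complex.normSq (y i)) := by
    intro i
    have e : (fun y : V 4 => Complex.normSq (y i)) =
        fun y : V 4 => Complex.reCLM (y i) * Complex.reCLM (y i) +
          Complex.imCLM (y i) * Complex.imCLM (y i) := by
      ext y
      simp [Complex.normSq_apply]
    rw [e]
    fun_prop
  exact ((h 0).add (h 1)).add (h 2)

lemma continuous_E3 : Continuous E3 := (contDiff_E3 (n := 0)).continuous

lemma E3_nonneg (y : V 4) : 0 ≤ E3 y := by
  unfold E3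
  have h0 := Complex.normSq_nonneg (y 0)
  have h1 := Complex.normSq_nonneg (y 1)
  have h2 := Complex.normSq_nonneg (y 2)
  positivity

/-- domain -/
def Om : Set (V 4) := {y | 0 < E3 y}

/-- fundamental domain for the periods -/
def D2 : Set (V 4) := {y | y 3 ∈ box 2}

lemma isOpen_Om : IsOpen Om := isOpen_lt continuous_const continuous_E3

lemma measurableSet_D2 : MeasurableSet D2 :=
  (measurable_pi_apply 3) (measurableSet_box 2)

/-- the smooth weight -/
def wt (k : ℝ → ℝ) (y : V 4) : ℝ := if 0 < E3 y then k (Real.log (E3 y)) else 0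

lemma IsWeight.exists_bound {k : ℝ → ℝ} (hk : IsWeight k) :
    ∃ L : ℝ, 0 < L ∧ ∀ l, L < |l| → k l = 0 := by
  obtain ⟨L, hL⟩ := hk.compact.isCompact.isBounded.exists_norm_le
  refine ⟨max L 1, lt_max_of_lt_right one_pos, fun l hl => ?_⟩
  by_contra h
  have h1 := hL l (subset_tsupport _ h)
  rw [Real.norm_eq_abs] at h1
  have := le_max_left L 1
  linarith

lemma wt_eq_zero {k : ℝ → ℝ} {L : ℝ} (hL : ∀ l, L < |l| → k l = 0) {y : V 4}
    (hy : E3 y < Real.exp (-L) ∨ Real.exp L < E3 y) : wt k y = 0 := by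
  unfold wt
  split_ifs with h
  · apply hL
    rcases hy with hy | hy
    · have := (Real.log_lt_iff_lt_exp h).2 hy
      rw [lt_abs]; right; linarith
    · have := (Real.lt_log_iff_exp_lt h).2 hy
      rw [lt_abs]; left; linarith
  · rfl

lemma wt_nonneg {k : ℝ → ℝ} (hk : IsWeight k) (y : V 4) : 0 ≤ wt k y := by
  unfold wt
  split_ifs
  · exact hk.nonneg _
  · exact le_rfl

lemma contDiff_wt_mul {Z : Type*} [NormedAddCommGroup Z] [NormedSpace ℝ Z] {k : ℝ → ℝ}
    (hk : IsWeight k) {pr : Z → V 4} (hpr : ContDiff ℝ 1 pr) {f : Z → ℂ}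
    (hf : ContDiffOn ℝ 1 f (pr ⁻¹' Om)) :
    ContDiff ℝ 1 (fun z => (wt k (pr z) : ℂ) * f z) := by
  rw [contDiff_iff_contDiffAt]
  intro z
  by_cases hz : 0 < E3 (pr z)
  · have hopen : IsOpen (pr ⁻¹' Om) := isOpen_Om.preimage hpr.continuous
    have h1 : ContDiffAt ℝ 1 (fun z => ((k (Real.log (E3 (pr z))) : ℝ) : ℂ)) z := by
      have h2 : ContDiffAt ℝ 1 (fun z => E3 (pr z)) z :=
        contDiff_E3.contDiffAt.comp z hpr.contDiffAt
      have h3 : ContDiffAt ℝ 1 (fun z => Real.log (E3 (pr z))) z := h2.log hz.ne'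
      have h4 : ContDiffAt ℝ 1 (fun z => k (Real.log (E3 (pr z)))) z :=
        ((hk.smooth.of_le (by exact_mod_cast le_top)).contDiffAt).comp z h3
      exact Complex.ofRealCLM.contDiff.contDiffAt.comp z h4
    have h5 : (fun z => (wt k (pr z) : ℂ) * f z) =ᶠ[𝓝 z]
        fun z => ((k (Real.log (E3 (pr z))) : ℝ) : ℂ) * f z := by
      filter_upwards [hopen.mem_nhds hz] with w hw
      have : wt k (pr w) = k (Real.log (E3 (pr w))) := if_pos hw
      rw [this]
    exact (h1.mul (hf.contDiffAt (hopen.mem_nhds hz))).congr_of_eventuallyEq h5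
  · obtain ⟨L, hL0, hL⟩ := IsWeight.exists_bound hk
    have hz0 : E3 (pr z) < Real.exp (-L) := by
      have := Real.exp_pos (-L)
      push Not at hz
      linarith
    have hev : (fun z => (wt k (pr z) : ℂ) * f z) =ᶠ[𝓝 z] fun _ => 0 := by
      have hc : Continuous (fun z => E3 (pr z)) := continuous_E3.comp hpr.continuous
      filter_upwards [(isOpen_lt hc continuous_const).mem_nhds hz0] with w hw
      rw [wt_eq_zero hL (Or.inl hw)]
      simp
    exact contDiffAt_const.congr_of_eventuallyEq hev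

/-- compact sets containing the relevant part of `D2` -/
def Kc (c : ℝ) : Set (V 4) :=
  {y | E3 y ≤ c ∧ (y 3).re ∈ Set.Icc (0 : ℝ) 2 ∧ (y 3).im ∈ Set.Icc (0 : ℝ) 2}

lemma isCompact_Kc (c : ℝ) : IsCompact (Kc c) := by
  apply Metric.isCompact_of_isClosed_isBounded
  · have h1 : IsClosed {y : V 4 | E3 y ≤ c} := isClosed_le continuous_E3 continuous_const
    have h2 : IsClosed {y : V 4 | (y 3).re ∈ Set.Icc (0 : ℝ) 2} :=
      isClosed_Icc.preimage (Complex.continuous_re.comp (continuous_apply 3))
    have h3 : IsClosed {y : V 4 | (y 3).im ∈ Set.Icc (0 : ℝ) 2} :=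
      isClosed_Icc.preimage (Complex.continuous_im.comp (continuous_apply 3))
    exact h1.inter (h2.inter h3)
  · refine (Metric.isBounded_closedBall (x := (0 : V 4)) (r := |c| + 5)).subset ?_
    rintro y ⟨hy, h3, h4⟩
    rw [mem_closedBall_zero_iff, pi_norm_le_iff_of_nonneg (by positivity)]
    have hsq : ∀ z : ℂ, Complex.normSq z ≤ c → ‖z‖ ≤ |c| + 5 := by
      intro z hz
      rw [Complex.normSq_eq_norm_sq] at hz
      have h5 := le_abs_self c
      have h6 := abs_nonneg c
      nlinarith [norm_nonneg z]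
    have h0 := Complex.normSq_nonneg (y 0)
    have h1 := Complex.normSq_nonneg (y 1)
    have h2 := Complex.normSq_nonneg (y 2)
    unfold E3 at hy
    intro i
    fin_cases i
    · exact hsq (y 0) (by linarith)
    · exact hsq (y 1) (by linarith)
    · exact hsq (y 2) (by linarith)
    · change ‖y 3‖ ≤ _
      have := Complex.norm_le_abs_re_add_abs_im (y 3)
      rw [abs_of_nonneg h3.1, abs_of_nonneg h4.1] at this
      have h6 := abs_nonneg c
      linarith [h3.2, h4.2]

lemma D2_subset_Kc {c : ℝ} : D2 ∩ {y | E3 y ≤ c} ⊆ Kc c := by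
  rintro y ⟨⟨h1, h2⟩, h3⟩
  exact ⟨h3, ⟨h1.1, h1.2.le⟩, ⟨h2.1, h2.2.le⟩⟩

lemma measurableSet_cut (c : ℝ) : MeasurableSet (D2 ∩ {y | E3 y ≤ c}) :=
  measurableSet_D2.inter (measurableSet_le continuous_E3.measurable measurable_const)

lemma setIntegral_cut {g : V 4 → ℂ} {c : ℝ} (hg : ∀ y, c < E3 y → g y = 0) :
    ∫ y in D2, g y = ∫ y in D2 ∩ {y | E3 y ≤ c}, g y := by
  apply setIntegral_eq_of_subset_of_forall_sdiff_eq_zero measurableSet_D2 Set.inter_subset_left
  rintro y ⟨hy1, hy2⟩
  apply hg
  by_contra h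
  push Not at h
  exact hy2 ⟨hy1, h⟩

lemma integrableOn_D2 {g : V 4 → ℂ} (hgc : Continuous g) {c : ℝ} (hg : ∀ y, c < E3 y → g y = 0) :
    IntegrableOn g D2 := by
  have h1 : IntegrableOn g (D2 ∩ {y | E3 y ≤ c}) :=
    (hgc.continuousOn.integrableOn_compact (isCompact_Kc c)).mono_set D2_subset_Kc
  refine h1.of_forall_sdiff_eq_zero measurableSet_D2 ?_
  rintro y ⟨hy1, hy2⟩
  apply hg
  by_contra h
  push Not at h
  exact hy2 ⟨hy1, h⟩

lemma normSq_le_two (a b : ℂ) :
    Complex.normSq a ≤ 2 * Complex.normSq (a + b) + 2 * Complex.normSq b := by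
  simp only [Complex.normSq_apply, Complex.add_re, Complex.add_im]
  nlinarith [sq_nonneg (a.re + 2 * b.re), sq_nonneg (a.im + 2 * b.im)]

lemma E3_le_two (y e : V 4) : E3 y ≤ 2 * E3 (y + e) + 2 * E3 e := by
  unfold E3
  have h0 := normSq_le_two (y 0) (e 0)
  have h1 := normSq_le_two (y 1) (e 1)
  have h2 := normSq_le_two (y 2) (e 2)
  simp only [Pi.add_apply]
  linarith

lemma E3_smul (s : ℝ) (e : V 4) : E3 (s • e) = s ^ 2 * E3 e := by
  unfold E3
  simp [Complex.normSq_mul]
  ring

/-- the lattice of periods in the last coordinate -/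
def per3 : ℤ × ℤ →+ V 4 where
  toFun w := Pi.single 3 (2 * (w.1 : ℂ) + 2 * (w.2 : ℂ) * Complex.I)
  map_zero' := by simp
  map_add' w w' := by
    rw [← Pi.single_add]
    congr 1
    push_cast [Prod.fst_add, Prod.snd_add]
    ring

def pr3 : V 4 →+ ℂ where
  toFun y := y 3
  map_zero' := rfl
  map_add' _ _ := rfl

theorem shift_D2 {G : V 4 → ℂ}
    (hG : ∀ y, ∀ p q : ℤ, G (y + Pi.single 3 (2 * p + 2 * q * Complex.I)) = G y) (τ : V 4) :
    ∫ y in D2, G (y + τ) = ∫ y in D2, G y :=
  shift_box pr3 (measurable_pi_apply 3) per3 (fun w => by simp [pr3, per3])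
    (fun w y => hG y w.1 w.2) τ

theorem shift_C {G : ℂ → ℂ}
    (hG : ∀ y, ∀ p q : ℤ, G (y + (2 * p + 2 * q * Complex.I)) = G y) (τ : ℂ) :
    ∫ y in box 2, G (y + τ) = ∫ y in box 2, G y := by
  let iota : ℤ × ℤ →+ ℂ :=
    { toFun := fun w => 2 * (w.1 : ℂ) + 2 * (w.2 : ℂ) * Complex.I
      map_zero' := by simp
      map_add' := fun w w' => by
        push_cast [Prod.fst_add, Prod.snd_add]
        ring }
  exact shift_box (AddMonoidHom.id ℂ) measurable_id iota (fun w => rfl)
    (fun w y => hG y w.1 w.2) τ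

theorem periodic_stokes {G : V 4 → ℂ} (hG : ContDiff ℝ 1 G) {c : ℝ}
    (hc : ∀ y, c < E3 y → G y = 0)
    (hper : ∀ y, ∀ p q : ℤ, G (y + Pi.single 3 (2 * p + 2 * q * Complex.I)) = G y) (e : V 4) :
    ∫ y in D2, fderiv ℝ G y e = 0 := by
  set c' : ℝ := max c (2 * c + 2 * E3 e) with hc'
  have hF : ContDiffOn ℝ 1 (fun p : ℝ × V 4 => G (p.2 + p.1 • e)) Set.univ := by
    apply ContDiff.contDiffOn
    fun_prop
  have key := leibniz_deriv (μ := (volume : Measure (V 4))) isOpen_univ hF (isCompact_Kc c')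
    (measurableSet_cut c') D2_subset_Kc (U := Set.Ioo (-1) 1) isOpen_Ioo (Set.subset_univ _)
    (s := 0) ⟨by norm_num, by norm_num⟩
  have hconst : (fun x : ℝ => ∫ y in D2 ∩ {y | E3 y ≤ c'}, G (y + x • e)) =ᶠ[𝓝 0]
      fun _ => ∫ y in D2, G y := by
    filter_upwards [isOpen_Ioo.mem_nhds (show (0 : ℝ) ∈ Set.Ioo (-1 : ℝ) 1 by simp)] with x hx
    rw [← shift_D2 hper (x • e)]
    symm
    apply setIntegral_cut
    intro y hy
    apply hc
    have h1 := E3_le_two y (x • e)
    rw [E3_smul] at h1
    have h2 : x ^ 2 * E3 e ≤ E3 e := by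
      have : x ^ 2 ≤ 1 := by nlinarith [hx.1, hx.2]
      nlinarith [E3_nonneg e]
    have h3 : 2 * c + 2 * E3 e ≤ c' := le_max_right _ _
    linarith
  have h0 := (key.congr_of_eventuallyEq (hconst.symm.trans (by rfl))).unique
    (hasDerivAt_const (0 : ℝ) (∫ y in D2, G y))
  have hpt : ∀ y, fderiv ℝ (fun p : ℝ × V 4 => G (p.2 + p.1 • e)) (0, y) (1, 0) =
      fderiv ℝ G y e := by
    intro y
    have h1 : HasFDerivAt (fun p : ℝ × V 4 => p.2 + p.1 • e)
        (ContinuousLinearMap.snd ℝ ℝ (V 4) +
          (ContinuousLinearMap.fst ℝ ℝ (V 4)).smulRight e) (0, y) :=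
      (ContinuousLinearMap.snd ℝ ℝ (V 4)).hasFDerivAt.add
        ((ContinuousLinearMap.fst ℝ ℝ (V 4)).hasFDerivAt.smul_const e)
    have h2 : HasFDerivAt G (fderiv ℝ G y) (y + (0 : ℝ) • e) := by
      rw [zero_smul, add_zero]
      exact (hG.differentiable one_ne_zero y).hasFDerivAt
    have h3 := (HasFDerivAt.comp (0, y) h2 h1).fderiv
    change fderiv ℝ (G ∘ fun p : ℝ × V 4 => p.2 + p.1 • e) (0, y) (1, 0) = _
    rw [h3]
    simp
  simp_rw [hpt] at h0
  rw [setIntegral_cut (c := c'), h0]
  intro y hy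
  have hopen : IsOpen {y : V 4 | c < E3 y} := isOpen_lt continuous_const continuous_E3
  have hyc : c < E3 y := lt_of_le_of_lt (le_max_left _ _) hy
  have hev : G =ᶠ[𝓝 y] fun _ => 0 := by
    filter_upwards [hopen.mem_nhds hyc] with w hw using hc w hw
  rw [hev.fderiv_eq]
  simp

end

section

open scoped ContDiff Topology ComplexOrder
open MeasureTheory

/-- closed basic periodic form, `C¹` version -/
structure BForm (a : V 4 → Matrix (Fin 4) (Fin 4) ℂ) : Prop where
  smooth : ∀ j k, ContDiffOn ℝ 1 (fun z => a z j k) Om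
  herm : ∀ y ∈ Om, (a y).IsHermitian
  closed : ∀ y ∈ Om, ∀ i j k : Fin 4, dZ i (fun w => a w j k) y = dZ j (fun w => a w i k) y
  kernel : ∀ y ∈ Om, ∀ k, ∑ j : Fin 3, y j.castSucc * a y j.castSucc k = 0
  per : ∀ y ∈ Om, ∀ p q : ℤ, a (y + Pi.single 3 (2 * p + 2 * q * Complex.I)) = a y

/-- conjugate radial vector -/
def cy (y : V 4) : Fin 4 → ℂ := fun j => if j = 3 then 0 else star (y j)

lemma rad_eq (y : V 4) (j : Fin 4) : rad y j = cy y j / (E3 y : ℂ) := by
  unfold rad cy
  split_ifs <;> simp

lemma cy_eq {y : V 4} (hy : y ∈ Om) (j : Fin 4) : cy y j = (E3 y : ℂ) * rad y j := by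
  rw [rad_eq]
  have : (E3 y : ℂ) ≠ 0 := by exact_mod_cast (ne_of_gt hy)
  field_simp

lemma sum_star_rad_cy {y : V 4} (hy : y ∈ Om) : ∑ k, star (rad y k) * cy y k = 1 := by
  have h : (E3 y : ℂ) ≠ 0 := by exact_mod_cast (ne_of_gt hy)
  rw [Fin.sum_univ_four]
  simp only [rad, cy]
  have e : (E3 y : ℂ) = y 0 * star (y 0) + y 1 * star (y 1) + y 2 * star (y 2) := by
    unfold E3
    push_cast
    simp only [Complex.star_def, Complex.mul_conj]
  simp
  field_simp
  rw [e]
  simp only [Complex.star_def]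

lemma herm_apply {a : Matrix (Fin 4) (Fin 4) ℂ} (h : a.IsHermitian) (j k : Fin 4) :
    star (a j k) = a k j := h.apply k j

lemma BForm.kernel' {a : V 4 → Matrix (Fin 4) (Fin 4) ℂ} (ha : BForm a) {y : V 4} (hy : y ∈ Om)
    (j : Fin 4) : ∑ k, a y j k * cy y k = 0 := by
  have h1 := ha.kernel y hy j
  rw [Fin.sum_univ_three] at h1
  have h2 := congrArg star h1
  simp only [star_add, star_mul', star_zero] at h2
  rw [herm_apply (ha.herm y hy), herm_apply (ha.herm y hy), herm_apply (ha.herm y hy)] at h2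
  rw [Fin.sum_univ_four]
  have e0 : (Fin.castSucc 0 : Fin 4) = 0 := rfl
  have e1 : (Fin.castSucc 1 : Fin 4) = 1 := rfl
  have e2 : (Fin.castSucc 2 : Fin 4) = 2 := rfl
  rw [e0, e1, e2] at h2
  have c0 : cy y 0 = star (y 0) := rfl
  have c1 : cy y 1 = star (y 1) := rfl
  have c2 : cy y 2 = star (y 2) := rfl
  have c3 : cy y 3 = 0 := rfl
  rw [c0, c1, c2, c3]
  linear_combination h2

lemma addRad_mulVec {a : V 4 → Matrix (Fin 4) (Fin 4) ℂ} (ha : BForm a) {y : V 4} (hy : y ∈ Om) :
    (addRad a y).mulVec (cy y) = rad y := by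
  ext j
  unfold addRad
  rw [Matrix.add_mulVec, Pi.add_apply]
  have h1 : (a y).mulVec (cy y) j = 0 := ha.kernel' hy j
  have h2 : (Matrix.vecMulVec (rad y) (star (rad y))).mulVec (cy y) j = rad y j := by
    simp only [Matrix.mulVec, dotProduct, Matrix.vecMulVec_apply, Pi.star_apply, mul_assoc]
    rw [← Finset.mul_sum, sum_star_rad_cy hy, mul_one]
  rw [h1, h2, zero_add]

lemma adj_rad {a : V 4 → Matrix (Fin 4) (Fin 4) ℂ} (ha : BForm a) {y : V 4} (hy : y ∈ Om)
    (k : Fin 4) :
    ∑ j, (addRad a y).adjugate k j * rad y j = (addRad a y).det * cy y k := by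
  have h1 := congrArg (fun v => (addRad a y).adjugate.mulVec v) (addRad_mulVec ha hy)
  simp only [Matrix.mulVec_mulVec, Matrix.adjugate_mul, Matrix.smul_mulVec, Matrix.one_mulVec] at h1
  have h2 := congrFun h1 k
  rw [Pi.smul_apply, smul_eq_mul] at h2
  rw [h2]
  rfl

lemma inv_rad {a : V 4 → Matrix (Fin 4) (Fin 4) ℂ} (ha : BForm a) {y : V 4} (hy : y ∈ Om)
    (h0 : (addRad a y).det ≠ 0) (k : Fin 4) :
    ∑ j, (addRad a y)⁻¹ k j * rad y j = cy y k := by
  have hu : IsUnit (addRad a y).det := isUnit_iff_ne_zero.2 h0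
  have h1 := congrArg (fun v => (addRad a y)⁻¹.mulVec v) (addRad_mulVec ha hy)
  simp only [Matrix.mulVec_mulVec, Matrix.nonsing_inv_mul _ hu, Matrix.one_mulVec] at h1
  have h2 := congrFun h1 k
  rw [h2]
  rfl

lemma trace_adj {a : V 4 → Matrix (Fin 4) (Fin 4) ℂ} (ha : BForm a) {y : V 4} (hy : y ∈ Om) :
    ∑ j, ∑ k, (addRad a y).adjugate k j * a y j k = 3 * (addRad a y).det := by
  have h1 : ∑ j, ∑ k, (addRad a y).adjugate k j * addRad a y j k = 4 * (addRad a y).det := by
    have h2 : (addRad a y * (addRad a y).adjugate).trace = 4 * (addRad a y).det := by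
      rw [Matrix.mul_adjugate, Matrix.trace_smul, Matrix.trace_one]
      simp [mul_comm]
    rw [← h2, Matrix.trace]
    apply Finset.sum_congr rfl
    intro j _
    rw [Matrix.diag_apply, Matrix.mul_apply]
    exact Finset.sum_congr rfl fun k _ => mul_comm _ _
  have h3 : ∑ j, ∑ k, (addRad a y).adjugate k j * (rad y j * star (rad y k)) =
      (addRad a y).det := by
    rw [Finset.sum_comm]
    have : ∀ k, ∑ j, (addRad a y).adjugate k j * (rad y j * star (rad y k)) =
        (addRad a y).det * (star (rad y k) * cy y k) := by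
      intro k
      have := adj_rad ha hy k
      calc ∑ j, (addRad a y).adjugate k j * (rad y j * star (rad y k))
          = (∑ j, (addRad a y).adjugate k j * rad y j) * star (rad y k) := by
            rw [Finset.sum_mul]
            exact Finset.sum_congr rfl fun j _ => by ring
        _ = _ := by rw [this]; ring
    rw [Finset.sum_congr rfl fun k _ => this k, ← Finset.mul_sum, sum_star_rad_cy hy, mul_one]
  have h4 : ∀ j k, addRad a y j k = a y j k + rad y j * star (rad y k) := by
    intro j k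
    simp [addRad, Matrix.vecMulVec_apply]
  simp only [h4, mul_add, Finset.sum_add_distrib] at h1
  rw [h3] at h1
  linear_combination h1

lemma contDiffOn_det {Z : Type*} [NormedAddCommGroup Z] [NormedSpace ℝ Z] {n : ℕ}
    {r : WithTop ℕ∞}
    {M : Z → Matrix (Fin n) (Fin n) ℂ} {s : Set Z}
    (h : ∀ i j, ContDiffOn ℝ r (fun z => M z i j) s) : ContDiffOn ℝ r (fun z => (M z).det) s := by
  simp only [Matrix.det_apply]
  apply ContDiffOn.sum
  intro σ _
  apply ContDiffOn.const_smul
  exact contDiffOn_prod fun i _ => h _ _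

lemma contDiffOn_adj {Z : Type*} [NormedAddCommGroup Z] [NormedSpace ℝ Z] {n : ℕ}
    {r : WithTop ℕ∞}
    {M : Z → Matrix (Fin n) (Fin n) ℂ} {s : Set Z}
    (h : ∀ i j, ContDiffOn ℝ r (fun z => M z i j) s) (k l : Fin n) :
    ContDiffOn ℝ r (fun z => (M z).adjugate k l) s := by
  simp only [Matrix.adjugate_apply]
  apply contDiffOn_det
  intro i j
  by_cases hi : i = l
  · subst hi
    simp only [Matrix.updateRow_self]
    exact contDiffOn_const
  · simp only [Matrix.updateRow_ne hi]
    exact h i j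

lemma contDiffOn_rad {r : WithTop ℕ∞} (j : Fin 4) : ContDiffOn ℝ r (fun y => rad y j) Om := by
  unfold rad
  by_cases h : j = 3
  · simp only [h, if_true]
    exact contDiffOn_const
  · simp only [h, if_false]
    have h1 : ContDiff ℝ r (fun y : V 4 => star (y j)) := by
      have : (fun y : V 4 => star (y j)) = fun y => Complex.conjCLE (y j) := by
        ext y; simp
      rw [this]
      fun_prop
    have h2 : ContDiff ℝ r (fun y : V 4 => (E3 y : ℂ)) :=
      Complex.ofRealCLM.contDiff.comp contDiff_E3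
    intro y hy
    have hne : (E3 y : ℂ) ≠ 0 := by exact_mod_cast (ne_of_gt hy)
    have h3 : ContDiffAt ℝ r (fun y : V 4 => ((E3 y : ℝ) : ℂ)⁻¹) y :=
      (h2.contDiffAt (x := y)).inv hne
    simp only [div_eq_mul_inv]
    exact (h1.contDiffAt.mul h3).contDiffWithinAt

lemma contDiffOn_star {r : WithTop ℕ∞} {Z : Type*} [NormedAddCommGroup Z] [NormedSpace ℝ Z]
    {f : Z → ℂ} {s : Set Z}
    (hf : ContDiffOn ℝ r f s) : ContDiffOn ℝ r (fun y => star (f y)) s := by
  have : (fun y => star (f y)) = fun y => Complex.conjCLE (f y) := by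
    ext y; simp
  rw [this]
  exact Complex.conjCLE.contDiff.comp_contDiffOn hf

lemma addRad_apply (a : V 4 → Matrix (Fin 4) (Fin 4) ℂ) (y : V 4) (j k : Fin 4) :
    addRad a y j k = a y j k + rad y j * star (rad y k) := by
  simp [addRad, Matrix.vecMulVec_apply]

lemma BForm.smooth_addRad {a : V 4 → Matrix (Fin 4) (Fin 4) ℂ} (ha : BForm a) (j k : Fin 4) :
    ContDiffOn ℝ 1 (fun y => addRad a y j k) Om := by
  simp only [addRad_apply]
  exact (ha.smooth j k).add ((contDiffOn_rad j).mul (contDiffOn_star (contDiffOn_rad k)))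

end

section

open scoped ContDiff Topology ComplexOrder
open MeasureTheory

lemma dZ_coord (j p : Fin 4) (y : V 4) :
    dZ j (fun w : V 4 => w p) y = if j = p then 1 else 0 := by
  have h : HasFDerivAt (fun w : V 4 => w p)
      (ContinuousLinearMap.proj p : V 4 →L[ℂ] ℂ) y := hasFDerivAt_apply p y
  rw [dZ_of_holo h.differentiableAt, h.fderiv]
  simp only [ContinuousLinearMap.proj_apply, Pi.single_apply]
  simp only [eq_comm]

lemma dB_coord (j p : Fin 4) (y : V 4) : dB j (fun w : V 4 => w p) y = 0 := by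
  have h : HasFDerivAt (fun w : V 4 => w p)
      (ContinuousLinearMap.proj p : V 4 →L[ℂ] ℂ) y := hasFDerivAt_apply p y
  exact dB_of_holo h.differentiableAt j

lemma differentiableAt_coord (p : Fin 4) (y : V 4) : DifferentiableAt ℝ (fun w : V 4 => w p) y := by
  fun_prop

lemma differentiableAt_star {f : V 4 → ℂ} {y : V 4} (hf : DifferentiableAt ℝ f y) :
    DifferentiableAt ℝ (fun w => star (f w)) y := by
  have : (fun w => star (f w)) = fun w => Complex.conjCLE (f w) := by
    ext w; simp
  rw [this]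
  exact Complex.conjCLE.differentiableAt.comp y hf

lemma dZ_cstar (j p : Fin 4) (y : V 4) : dZ j (fun w : V 4 => star (w p)) y = 0 := by
  rw [dZ_star (differentiableAt_coord p y), dB_coord, star_zero]

/-- `δ_{jq}` on the first three coordinates -/
def d3 (j q : Fin 4) : ℂ := if q = 3 then 0 else if j = q then 1 else 0

lemma differentiableAt_cy (p : Fin 4) (y : V 4) : DifferentiableAt ℝ (fun w => cy w p) y := by
  unfold cy
  by_cases h : p = 3
  · simp only [h, if_true]; exact differentiableAt_const _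
  · simp only [h, if_false]; exact differentiableAt_star (differentiableAt_coord p y)

lemma dZ_cy (j p : Fin 4) (y : V 4) : dZ j (fun w => cy w p) y = 0 := by
  unfold cy
  by_cases h : p = 3
  · simp only [h, if_true]; exact dZ_const 0 y j
  · simp only [h, if_false]; exact dZ_cstar j p y

lemma dZ_star_cy (j q : Fin 4) (y : V 4) : dZ j (fun w => star (cy w q)) y = d3 j q := by
  unfold cy d3
  by_cases h : q = 3
  · simp only [h, if_true, star_zero]; exact dZ_const 0 y j
  · simp only [h, if_false, star_star]; exact dZ_coord j q y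

lemma E3_eq_sum (y : V 4) : (E3 y : ℂ) = ∑ p, cy y p * star (cy y p) := by
  rw [Fin.sum_univ_four]
  have c0 : cy y 0 = star (y 0) := rfl
  have c1 : cy y 1 = star (y 1) := rfl
  have c2 : cy y 2 = star (y 2) := rfl
  have c3 : cy y 3 = 0 := rfl
  rw [c0, c1, c2, c3]
  unfold E3
  push_cast
  simp only [zero_mul, add_zero, Complex.star_def, Complex.normSq_eq_conj_mul_self,
    Complex.conj_conj]

lemma dZ_E3 (j : Fin 4) (y : V 4) : dZ j (fun w => ((E3 w : ℝ) : ℂ)) y = cy y j := by
  simp only [E3_eq_sum]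
  rw [dZ_sum]
  · have : ∀ i, dZ j (fun w => cy w i * star (cy w i)) y = cy y i * d3 j i := by
      intro i
      rw [dZ_mul (differentiableAt_cy i y) (differentiableAt_star (differentiableAt_cy i y)),
        dZ_cy, dZ_star_cy]
      ring
    rw [Finset.sum_congr rfl fun i _ => this i]
    unfold d3
    by_cases hj : j = 3
    · subst hj
      rw [Finset.sum_eq_zero]
      · rfl
      · intro i _
        split_ifs with h1 h2
        · ring
        · exact absurd h2.symm h1
        · ring
    · rw [Finset.sum_eq_single j]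
      · simp [hj]
      · intro i _ hi
        split_ifs with h1 h2
        · ring
        · exact absurd h2.symm hi
        · ring
      · simp
  · intro i _
    exact (differentiableAt_cy i y).mul (differentiableAt_star (differentiableAt_cy i y))

lemma differentiableAt_E3 (y : V 4) : DifferentiableAt ℝ (fun w => ((E3 w : ℝ) : ℂ)) y := by
  have h2 : ContDiff ℝ 1 (fun y : V 4 => (E3 y : ℂ)) :=
    Complex.ofRealCLM.contDiff.comp contDiff_E3
  exact h2.differentiable one_ne_zero y

lemma differentiableAt_inv_E3 {y : V 4} (hy : y ∈ Om) :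
    DifferentiableAt ℝ (fun w => ((E3 w : ℝ) : ℂ)⁻¹) y := by
  have hne : (E3 y : ℂ) ≠ 0 := by exact_mod_cast (ne_of_gt hy)
  exact (differentiableAt_E3 y).inv hne

lemma dZ_inv_E3 (j : Fin 4) {y : V 4} (hy : y ∈ Om) :
    dZ j (fun w => ((E3 w : ℝ) : ℂ)⁻¹) y = - cy y j * ((E3 y : ℂ)⁻¹) ^ 2 := by
  have hne : (E3 y : ℂ) ≠ 0 := by exact_mod_cast (ne_of_gt hy)
  have h1 := dZ_mul (differentiableAt_E3 y) (differentiableAt_inv_E3 hy) j
  have h2 : dZ j (fun w => ((E3 w : ℝ) : ℂ) * ((E3 w : ℝ) : ℂ)⁻¹) y = 0 := by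
    have : (fun w => ((E3 w : ℝ) : ℂ) * ((E3 w : ℝ) : ℂ)⁻¹) =ᶠ[𝓝 y] fun _ => (1 : ℂ) := by
      filter_upwards [isOpen_Om.mem_nhds hy] with w hw
      have : (E3 w : ℂ) ≠ 0 := by exact_mod_cast (ne_of_gt hw)
      exact mul_inv_cancel₀ this
    rw [dZ_congr this, dZ_const]
  rw [h2, dZ_E3] at h1
  field_simp
  field_simp at h1
  linear_combination -h1

lemma dZ_rad_rad (j p q : Fin 4) {y : V 4} (hy : y ∈ Om) :
    dZ j (fun w => rad w p * star (rad w q)) y =
      - 2 * (rad y j * rad y p * star (rad y q)) + rad y p * (d3 j q * (E3 y : ℂ)⁻¹) := by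
  have e : (fun w => rad w p * star (rad w q)) =
      fun w => (cy w p * star (cy w q)) * (((E3 w : ℝ) : ℂ)⁻¹ * ((E3 w : ℝ) : ℂ)⁻¹) := by
    ext w
    rw [rad_eq, rad_eq, star_div₀]
    have : star ((E3 w : ℝ) : ℂ) = ((E3 w : ℝ) : ℂ) := by simp
    rw [this]
    ring
  have hd := differentiableAt_inv_E3 hy
  have hc1 := differentiableAt_cy p y
  have hc2 := differentiableAt_star (differentiableAt_cy q y)
  have hm1 : DifferentiableAt ℝ (fun w => cy w p * star (cy w q)) y := hc1.mul hc2
  have hm2 : DifferentiableAt ℝ (fun w => ((E3 w : ℝ) : ℂ)⁻¹ * ((E3 w : ℝ) : ℂ)⁻¹) y := hd.mul hd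
  rw [e, dZ_mul hm1 hm2, dZ_mul hc1 hc2, dZ_mul hd hd, dZ_cy, dZ_star_cy,
    dZ_inv_E3 j hy]
  rw [rad_eq, rad_eq, rad_eq, star_div₀]
  have : star ((E3 y : ℝ) : ℂ) = ((E3 y : ℝ) : ℂ) := by simp
  rw [this]
  ring

lemma BForm.differentiableAt {a : V 4 → Matrix (Fin 4) (Fin 4) ℂ} (ha : BForm a) {y : V 4}
    (hy : y ∈ Om) (j k : Fin 4) : DifferentiableAt ℝ (fun w => a w j k) y :=
  ((ha.smooth j k).contDiffAt (isOpen_Om.mem_nhds hy)).differentiableAt one_ne_zero

lemma BForm.differentiableAt' {a : V 4 → Matrix (Fin 4) (Fin 4) ℂ} (ha : BForm a) {y : V 4}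
    (hy : y ∈ Om) (j k : Fin 4) : DifferentiableAt ℝ (fun w => addRad a w j k) y :=
  ((ha.smooth_addRad j k).contDiffAt (isOpen_Om.mem_nhds hy)).differentiableAt one_ne_zero

lemma sum3_swap {f : Fin 4 → Fin 4 → Fin 4 → ℂ} :
    ∑ j, ∑ p, ∑ q, f j p q = ∑ j, ∑ p, ∑ q, f p j q := Finset.sum_comm

theorem div_adj {a : V 4 → Matrix (Fin 4) (Fin 4) ℂ} (ha : BForm a) {y : V 4} (hy : y ∈ Om)
    (h0 : (addRad a y).det ≠ 0) :
    ∃ τ : ℂ, ∀ k, ∑ j, dZ j (fun w => (addRad a w).adjugate k j) y = τ * cy y k := by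
  refine ⟨(addRad a y).det * (1 - ∑ j, ∑ q, d3 j q * (E3 y : ℂ)⁻¹ * (addRad a y)⁻¹ q j),
    fun k => ?_⟩
  rw [div_adjugate (fun j k => ha.differentiableAt' hy j k) h0 k]
  set B := (addRad a y)⁻¹ with hB
  have hX : ∀ j p q, dZ j (fun w => addRad a w p q) y =
      (dZ j (fun w => a w p q) y - 2 * (rad y j * rad y p * star (rad y q))) +
        rad y p * (d3 j q * (E3 y : ℂ)⁻¹) := by
    intro j p q
    simp only [addRad_apply]
    have hr : DifferentiableAt ℝ (fun w => rad w p * star (rad w q)) y := by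
      have := ((contDiffOn_rad (r := 1) p).mul (contDiffOn_star (contDiffOn_rad (r := 1) q)))
      exact (this.contDiffAt (isOpen_Om.mem_nhds hy)).differentiableAt one_ne_zero
    rw [dZ_add (ha.differentiableAt hy p q) hr, dZ_rad_rad j p q hy]
    ring
  set S : Fin 4 → Fin 4 → Fin 4 → ℂ := fun j p q =>
    dZ j (fun w => a w p q) y - 2 * (rad y j * rad y p * star (rad y q)) with hS
  have hsymm : ∀ j p q, S j p q = S p j q := by
    intro j p q
    simp only [hS]
    rw [ha.closed y hy j p q]
    ring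
  have h1 : ∑ j, ∑ p, ∑ q, (B q p * B k j - B k p * B q j) * S j p q = 0 := by
    have e1 : ∑ j, ∑ p, ∑ q, (B q p * B k j - B k p * B q j) * S j p q =
        ∑ j, ∑ p, ∑ q, (B q p * B k j) * S j p q - ∑ j, ∑ p, ∑ q, (B k p * B q j) * S j p q := by
      simp only [← Finset.sum_sub_distrib]
      refine Finset.sum_congr rfl fun j _ => Finset.sum_congr rfl fun p _ =>
        Finset.sum_congr rfl fun q _ => ?_
      ring
    rw [e1, sum3_swap (f := fun j p q => (B q p * B k j) * S j p q), sub_eq_zero]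
    refine Finset.sum_congr rfl fun j _ => Finset.sum_congr rfl fun p _ =>
        Finset.sum_congr rfl fun q _ => ?_
    rw [hsymm p j q]
    ring
  have h2 : ∑ j, ∑ p, ∑ q, (B q p * B k j - B k p * B q j) *
      (rad y p * (d3 j q * (E3 y : ℂ)⁻¹)) =
      (1 - ∑ j, ∑ q, d3 j q * (E3 y : ℂ)⁻¹ * B q j) * cy y k := by
    have hinv : ∀ k, ∑ p, B k p * rad y p = cy y k := fun k => inv_rad ha hy h0 k
    have e1 : ∀ j, ∑ p, ∑ q, (B q p * B k j - B k p * B q j) *
        (rad y p * (d3 j q * (E3 y : ℂ)⁻¹)) =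
        ∑ q, d3 j q * (E3 y : ℂ)⁻¹ * (cy y q * B k j - cy y k * B q j) := by
      intro j
      rw [Finset.sum_comm]
      refine Finset.sum_congr rfl fun q _ => ?_
      rw [← hinv q, ← hinv k, Finset.sum_mul, Finset.sum_mul, ← Finset.sum_sub_distrib,
        Finset.mul_sum]
      refine Finset.sum_congr rfl fun p _ => ?_
      ring
    rw [Finset.sum_congr rfl fun j _ => e1 j]
    have e2 : ∀ j, ∑ q, d3 j q * (E3 y : ℂ)⁻¹ * (cy y q * B k j - cy y k * B q j) =
        B k j * rad y j - cy y k * ∑ q, d3 j q * (E3 y : ℂ)⁻¹ * B q j := by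
      intro j
      have e3 : ∑ q, d3 j q * (E3 y : ℂ)⁻¹ * (cy y q * B k j) = B k j * rad y j := by
        rw [rad_eq]
        by_cases hj : j = 3
        · subst hj
          rw [Finset.sum_eq_zero]
          · simp [cy]
          · intro q _
            unfold d3
            split_ifs with h1 h2
            · ring
            · exact absurd h2.symm h1
            · ring
        · rw [Finset.sum_eq_single j]
          · simp [d3, hj]; ring
          · intro q _ hq
            unfold d3
            split_ifs with h1 h2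
            · ring
            · exact absurd h2.symm hq
            · ring
          · simp
      rw [← e3, Finset.mul_sum, ← Finset.sum_sub_distrib]
      refine Finset.sum_congr rfl fun q _ => ?_
      ring
    rw [Finset.sum_congr rfl fun j _ => e2 j, Finset.sum_sub_distrib, hinv k, ← Finset.mul_sum]
    ring
  have h3 : ∑ j, ∑ p, ∑ q, (B q p * B k j - B k p * B q j) * dZ j (fun w => addRad a w p q) y =
      (1 - ∑ j, ∑ q, d3 j q * (E3 y : ℂ)⁻¹ * B q j) * cy y k := by
    rw [← h2, ← add_zero (∑ j, ∑ p, ∑ q, (B q p * B k j - B k p * B q j) *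
      (rad y p * (d3 j q * (E3 y : ℂ)⁻¹))), ← h1]
    simp only [← Finset.sum_add_distrib]
    refine Finset.sum_congr rfl fun j _ => Finset.sum_congr rfl fun p _ =>
        Finset.sum_congr rfl fun q _ => ?_
    rw [hX]
    ring
  rw [h3]
  ring

end

section

open scoped ContDiff Topology ComplexOrder
open MeasureTheory

lemma dZ_ofReal_comp {F : ℝ → ℝ} {f : V 4 → ℝ} {y : V 4} (hF : DifferentiableAt ℝ F (f y))
    (hf : DifferentiableAt ℝ f y) (j : Fin 4) :
    dZ j (fun w => ((F (f w) : ℝ) : ℂ)) y =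
      ((deriv F (f y) : ℝ) : ℂ) * dZ j (fun w => ((f w : ℝ) : ℂ)) y := by
  have h1 : HasFDerivAt (fun w => ((f w : ℝ) : ℂ)) (Complex.ofRealCLM.comp (fderiv ℝ f y)) y :=
    Complex.ofRealCLM.hasFDerivAt.comp y hf.hasFDerivAt
  have h2 : HasFDerivAt (fun w => F (f w)) (deriv F (f y) • fderiv ℝ f y) y :=
    hF.hasDerivAt.comp_hasFDerivAt y hf.hasFDerivAt
  have h3 : HasFDerivAt (fun w => ((F (f w) : ℝ) : ℂ))
      (Complex.ofRealCLM.comp (deriv F (f y) • fderiv ℝ f y)) y :=
    Complex.ofRealCLM.hasFDerivAt.comp y h2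
  unfold dZ
  rw [h1.fderiv, h3.fderiv]
  simp only [ContinuousLinearMap.comp_apply, _root_.smul_apply,
    Complex.ofRealCLM_apply, smul_eq_mul, Complex.ofReal_mul]
  ring

lemma dZ_wt {k : ℝ → ℝ} (hk : IsWeight k) {y : V 4} (hy : y ∈ Om) (j : Fin 4) :
    dZ j (fun w => ((wt k w : ℝ) : ℂ)) y =
      ((deriv k (Real.log (E3 y)) : ℝ) : ℂ) * rad y j := by
  have hne : E3 y ≠ 0 := ne_of_gt hy
  have h1 : (fun w => ((wt k w : ℝ) : ℂ)) =ᶠ[𝓝 y]
      fun w => ((k (Real.log (E3 w)) : ℝ) : ℂ) := by
    filter_upwards [isOpen_Om.mem_nhds hy] with w hw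
    have : wt k w = k (Real.log (E3 w)) := if_pos hw
    rw [this]
  have hE : DifferentiableAt ℝ E3 y := (contDiff_E3 (n := 1)).differentiable one_ne_zero y
  have hlog : DifferentiableAt ℝ (fun w => Real.log (E3 w)) y := hE.log hne
  have hk' : DifferentiableAt ℝ k (Real.log (E3 y)) :=
    (hk.smooth.differentiable (by simp)) _
  rw [dZ_congr h1, dZ_ofReal_comp (F := k) (f := fun w => Real.log (E3 w)) hk' hlog,
    dZ_ofReal_comp (F := Real.log) (f := E3) (Real.differentiableAt_log hne) hE, dZ_E3,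
    Real.deriv_log, rad_eq]
  push_cast
  ring

lemma E3_add_single (y : V 4) (c : ℂ) : E3 (y + Pi.single 3 c) = E3 y := by
  unfold E3
  simp

lemma add_single_mem {y : V 4} (hy : y ∈ Om) (c : ℂ) : y + Pi.single 3 c ∈ Om := by
  unfold Om
  rw [Set.mem_ofPred_eq, E3_add_single]
  exact hy

lemma wt_add_single (k : ℝ → ℝ) (y : V 4) (c : ℂ) : wt k (y + Pi.single 3 c) = wt k y := by
  unfold wt
  rw [E3_add_single]

lemma rad_add_single (y : V 4) (c : ℂ) : rad (y + Pi.single 3 c) = rad y := by
  ext j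
  unfold rad
  rw [E3_add_single]
  by_cases h : j = 3
  · simp [h]
  · simp [h]

lemma wt_of_notMem (k : ℝ → ℝ) {y : V 4} (hy : y ∉ Om) : wt k y = 0 := if_neg hy

lemma IsWeight.wt_large {k : ℝ → ℝ} (hk : IsWeight k) :
    ∃ c : ℝ, 0 < c ∧ ∀ y, c < E3 y → wt k y = 0 := by
  obtain ⟨L, hL0, hL⟩ := IsWeight.exists_bound hk
  exact ⟨Real.exp L, Real.exp_pos _, fun y hy => wt_eq_zero hL (Or.inr hy)⟩

lemma IsWeight.wt_near {k : ℝ → ℝ} (hk : IsWeight k) {y : V 4} (hy : y ∉ Om) :
    ∀ᶠ w in 𝓝 y, wt k w = 0 := by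
  obtain ⟨L, hL0, hL⟩ := IsWeight.exists_bound hk
  have hz0 : E3 y < Real.exp (-L) := by
    have := Real.exp_pos (-L)
    unfold Om at hy
    rw [Set.mem_ofPred_eq] at hy
    push Not at hy
    linarith
  filter_upwards [(isOpen_lt continuous_E3 continuous_const).mem_nhds hz0] with w hw
  exact wt_eq_zero hL (Or.inl hw)

lemma addRad_per {a : V 4 → Matrix (Fin 4) (Fin 4) ℂ} (ha : BForm a) {y : V 4} (hy : y ∈ Om)
    (p q : ℤ) : addRad a (y + Pi.single 3 (2 * p + 2 * q * Complex.I)) = addRad a y := by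
  unfold addRad
  rw [ha.per y hy, rad_add_single]

theorem periodic_stokes_dZ {G : V 4 → ℂ} (hG : ContDiff ℝ 1 G) {c : ℝ}
    (hc : ∀ y, c < E3 y → G y = 0)
    (hper : ∀ y, ∀ p q : ℤ, G (y + Pi.single 3 (2 * p + 2 * q * Complex.I)) = G y) (j : Fin 4) :
    IntegrableOn (fun y => dZ j G y) D2 ∧ ∫ y in D2, dZ j G y = 0 := by
  have hz : ∀ e : V 4, ∀ y, c < E3 y → fderiv ℝ G y e = 0 := by
    intro e y hy
    have hopen : IsOpen {y : V 4 | c < E3 y} := isOpen_lt continuous_const continuous_E3
    have hev : G =ᶠ[𝓝 y] fun _ => 0 := by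
      filter_upwards [hopen.mem_nhds hy] with w hw using hc w hw
    rw [hev.fderiv_eq]
    simp
  have hi : ∀ e : V 4, IntegrableOn (fun y => fderiv ℝ G y e) D2 := by
    intro e
    exact integrableOn_D2 ((hG.continuous_fderiv one_ne_zero).clm_apply continuous_const) (hz e)
  constructor
  · unfold dZ
    exact ((hi _).sub ((hi _).const_mul _)).div_const _
  · unfold dZ
    rw [integral_div, integral_sub (hi _) ((hi _).const_mul _), integral_const_mul,
      periodic_stokes hG hc hper, periodic_stokes hG hc hper]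
    simp

theorem stokes_b {a : V 4 → Matrix (Fin 4) (Fin 4) ℂ} (ha : BForm a)
    (hp : ∀ y ∈ Om, (addRad a y).PosDef) {k : ℝ → ℝ} (hk : IsWeight k)
    {β : Fin 4 → V 4 → ℂ} (hβ : ∀ q, ContDiffOn ℝ 1 (β q) Om)
    (hβ0 : ∀ y ∈ Om, ∑ q, cy y q * β q y = 0)
    (hβp : ∀ l, ∀ y ∈ Om, ∀ p q : ℤ,
      β l (y + Pi.single 3 (2 * p + 2 * q * Complex.I)) = β l y) :
    IntegrableOn (fun y => (wt k y : ℂ) * ∑ j, ∑ q, (addRad a y).adjugate q j * dZ j (β q) y) D2 ∧
    ∫ y in D2, (wt k y : ℂ) * ∑ j, ∑ q, (addRad a y).adjugate q j * dZ j (β q) y = 0 := by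
  set g : Fin 4 → V 4 → ℂ := fun j y => ∑ q, (addRad a y).adjugate q j * β q y with hg
  have hgs : ∀ j, ContDiffOn ℝ 1 (g j) Om := by
    intro j
    apply ContDiffOn.sum
    intro q _
    exact (contDiffOn_adj (fun i j => ha.smooth_addRad i j) q j).mul (hβ q)
  set G : Fin 4 → V 4 → ℂ := fun j y => (wt k y : ℂ) * g j y with hGdef
  have hG : ∀ j, ContDiff ℝ 1 (G j) := fun j =>
    contDiff_wt_mul hk (pr := id) contDiff_id (hgs j)
  obtain ⟨c, hc0, hc⟩ := IsWeight.wt_large hk
  have hGc : ∀ j, ∀ y, c < E3 y → G j y = 0 := by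
    intro j y hy
    simp only [hGdef, hc y hy]
    simp
  have hGp : ∀ j, ∀ y, ∀ p q : ℤ,
      G j (y + Pi.single 3 (2 * p + 2 * q * Complex.I)) = G j y := by
    intro j y p q
    simp only [hGdef, hg, wt_add_single]
    by_cases hy : y ∈ Om
    · rw [addRad_per ha hy]
      simp only [hβp _ y hy]
    · rw [wt_of_notMem k hy]
      simp
  have hS := fun j => periodic_stokes_dZ (hG j) (hGc j) (hGp j) j
  have hpt : ∀ y, (wt k y : ℂ) * ∑ j, ∑ q, (addRad a y).adjugate q j * dZ j (β q) y =
      ∑ j, dZ j (G j) y := by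
    intro y
    by_cases hy : y ∈ Om
    · have hdet : (addRad a y).det ≠ 0 := ne_of_gt (hp y hy).det_pos
      obtain ⟨τ, hτ⟩ := div_adj ha hy hdet
      have hwd : DifferentiableAt ℝ (fun w => ((wt k w : ℝ) : ℂ)) y := by
        have := contDiff_wt_mul hk (pr := id) contDiff_id
          (f := fun _ : V 4 => (1 : ℂ)) contDiffOn_const
        simp only [mul_one, id] at this
        exact this.differentiable one_ne_zero y
      have hgd : ∀ j, DifferentiableAt ℝ (g j) y := fun j =>
        ((hgs j).contDiffAt (isOpen_Om.mem_nhds hy)).differentiableAt one_ne_zero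
      have hβd : ∀ q, DifferentiableAt ℝ (β q) y := fun q =>
        ((hβ q).contDiffAt (isOpen_Om.mem_nhds hy)).differentiableAt one_ne_zero
      have had : ∀ q j, DifferentiableAt ℝ (fun w => (addRad a w).adjugate q j) y := fun q j =>
        ((contDiffOn_adj (fun i j => ha.smooth_addRad i j) q j).contDiffAt
          (isOpen_Om.mem_nhds hy)).differentiableAt one_ne_zero
      have e1 : ∀ j, dZ j (G j) y =
          ((deriv k (Real.log (E3 y)) : ℝ) : ℂ) * rad y j * g j y +
          (wt k y : ℂ) * ∑ q, (dZ j (fun w => (addRad a w).adjugate q j) y * β q y +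
            (addRad a y).adjugate q j * dZ j (β q) y) := by
        intro j
        simp only [hGdef]
        rw [dZ_mul hwd (hgd j), dZ_wt hk hy]
        congr 2
        simp only [hg]
        rw [dZ_sum]
        · exact Finset.sum_congr rfl fun q _ => dZ_mul (had q j) (hβd q) j
        · exact fun q _ => (had q j).mul (hβd q)
      rw [Finset.sum_congr rfl fun j _ => e1 j, Finset.sum_add_distrib]
      have e2 : ∑ j, ((deriv k (Real.log (E3 y)) : ℝ) : ℂ) * rad y j * g j y = 0 := by
        have : ∑ j, ((deriv k (Real.log (E3 y)) : ℝ) : ℂ) * rad y j * g j y =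
            ((deriv k (Real.log (E3 y)) : ℝ) : ℂ) * ((addRad a y).det *
              ∑ q, cy y q * β q y) := by
          simp only [hg, Finset.mul_sum]
          rw [Finset.sum_comm]
          refine Finset.sum_congr rfl fun q _ => ?_
          have := adj_rad ha hy q
          calc ∑ j, ((deriv k (Real.log (E3 y)) : ℝ) : ℂ) * rad y j *
                ((addRad a y).adjugate q j * β q y)
              = ((deriv k (Real.log (E3 y)) : ℝ) : ℂ) *
                ((∑ j, (addRad a y).adjugate q j * rad y j) * β q y) := by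
                rw [Finset.sum_mul, Finset.mul_sum]
                exact Finset.sum_congr rfl fun j _ => by ring
            _ = _ := by rw [this]; ring
        rw [this, hβ0 y hy]
        ring
      have e3 : ∑ j, (wt k y : ℂ) * ∑ q, (dZ j (fun w => (addRad a w).adjugate q j) y * β q y +
            (addRad a y).adjugate q j * dZ j (β q) y) =
          (wt k y : ℂ) * ∑ j, ∑ q, (addRad a y).adjugate q j * dZ j (β q) y := by
        rw [← Finset.mul_sum]
        congr 1
        simp only [Finset.sum_add_distrib]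
        have : ∑ j, ∑ q, dZ j (fun w => (addRad a w).adjugate q j) y * β q y = 0 := by
          rw [Finset.sum_comm]
          have h1 : ∀ q, ∑ j, dZ j (fun w => (addRad a w).adjugate q j) y * β q y =
              τ * (cy y q * β q y) := by
            intro q
            rw [← Finset.sum_mul, hτ q]
            ring
          rw [Finset.sum_congr rfl fun q _ => h1 q, ← Finset.mul_sum, hβ0 y hy, mul_zero]
        rw [this, zero_add]
      rw [e2, e3, zero_add]
    · rw [wt_of_notMem k hy]
      have : ∀ j, dZ j (G j) y = 0 := by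
        intro j
        have hev : G j =ᶠ[𝓝 y] fun _ => 0 := by
          filter_upwards [IsWeight.wt_near hk hy] with w hw
          simp only [hGdef, hw]
          simp
        rw [dZ_congr hev, dZ_const]
      simp [this]
  simp_rw [hpt]
  constructor
  · exact integrable_finsetSum _ fun j _ => (hS j).1
  · rw [integral_finsetSum _ fun j _ => (hS j).1]
    exact Finset.sum_eq_zero fun j _ => (hS j).2

end

section

open scoped ContDiff Topology ComplexOrder
open MeasureTheory

/-- scaling factors of the flow -/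
def ex (lam s : ℝ) (i : Fin 4) : ℝ := if i = 0 then Real.exp (lam * s) else 1

/-- the flow `(e^{λ s} y₀, y₁, y₂, y₃ + s v)` -/
def phi (lam : ℝ) (v : ℂ) (s : ℝ) (y : V 4) : V 4 :=
  fun i => (ex lam s i : ℂ) * y i + (if i = 3 then (s : ℂ) * v else 0)

/-- pull back under the flow -/
def aflow (a : V 4 → Matrix (Fin 4) (Fin 4) ℂ) (lam : ℝ) (v : ℂ) (s : ℝ) (y : V 4) :
    Matrix (Fin 4) (Fin 4) ℂ :=
  Matrix.of fun j k => (ex lam s j : ℂ) * (ex lam s k : ℂ) * a (phi lam v s y) j k

lemma ex_pos (lam s : ℝ) (i : Fin 4) : 0 < ex lam s i := by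
  unfold ex
  split_ifs
  · exact Real.exp_pos _
  · exact one_pos

lemma ex_zero (lam : ℝ) (i : Fin 4) : ex lam 0 i = 1 := by
  unfold ex
  split_ifs <;> simp

lemma ex_three (lam s : ℝ) : ex lam s 3 = 1 := by
  unfold ex
  simp

lemma phi_mem {lam : ℝ} {v : ℂ} {s : ℝ} {y : V 4} (hy : y ∈ Om) : phi lam v s y ∈ Om := by
  unfold Om E3 at *
  rw [Set.mem_ofPred_eq] at *
  have h : ∀ i : Fin 4, i ≠ 3 → Complex.normSq (phi lam v s y i) =
      ex lam s i ^ 2 * Complex.normSq (y i) := by
    intro i hi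
    unfold phi
    rw [if_neg hi, add_zero, Complex.normSq_mul, Complex.normSq_ofReal]
    ring
  rw [h 0 (by decide), h 1 (by decide), h 2 (by decide)]
  have e0 := ex_pos lam s 0
  have e1 := ex_pos lam s 1
  have e2 := ex_pos lam s 2
  have n0 := Complex.normSq_nonneg (y 0)
  have n1 := Complex.normSq_nonneg (y 1)
  have n2 := Complex.normSq_nonneg (y 2)
  by_contra hcon
  push Not at hcon
  have m0 : 0 ≤ ex lam s 0 ^ 2 * Complex.normSq (y 0) := by positivity
  have m1 : 0 ≤ ex lam s 1 ^ 2 * Complex.normSq (y 1) := by positivity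
  have m2 : 0 ≤ ex lam s 2 ^ 2 * Complex.normSq (y 2) := by positivity
  have z0 : ex lam s 0 ^ 2 * Complex.normSq (y 0) = 0 := by linarith
  have z1 : ex lam s 1 ^ 2 * Complex.normSq (y 1) = 0 := by linarith
  have z2 : ex lam s 2 ^ 2 * Complex.normSq (y 2) = 0 := by linarith
  have w0 := (mul_eq_zero.1 z0).resolve_left (by positivity)
  have w1 := (mul_eq_zero.1 z1).resolve_left (by positivity)
  have w2 := (mul_eq_zero.1 z2).resolve_left (by positivity)
  linarith

lemma contDiff_ex (lam : ℝ) (i : Fin 4) {r : WithTop ℕ∞} :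
    ContDiff ℝ r (fun s => (ex lam s i : ℂ)) := by
  unfold ex
  by_cases h : i = 0
  · simp only [h, if_true]
    exact Complex.ofRealCLM.contDiff.comp
      (Real.contDiff_exp.comp (contDiff_const.mul contDiff_id))
  · simp only [h, if_false]
    exact contDiff_const

lemma contDiff_phi (lam : ℝ) (v : ℂ) {r : WithTop ℕ∞} :
    ContDiff ℝ r (fun p : ℝ × V 4 => phi lam v p.1 p.2) := by
  rw [contDiff_pi]
  intro i
  unfold phi
  have h1 : ContDiff ℝ r (fun p : ℝ × V 4 => (ex lam p.1 i : ℂ)) :=
    (contDiff_ex lam i).comp contDiff_fst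
  have h2 : ContDiff ℝ r (fun p : ℝ × V 4 => p.2 i) := by fun_prop
  have h3 : ContDiff ℝ r (fun p : ℝ × V 4 => if i = 3 then (p.1 : ℂ) * v else 0) := by
    by_cases h : i = 3
    · simp only [h, if_true]
      exact (Complex.ofRealCLM.contDiff.comp contDiff_fst).mul contDiff_const
    · simp only [h, if_false]
      exact contDiff_const
  exact (h1.mul h2).add h3

lemma contDiffOn_aflow {a : V 4 → Matrix (Fin 4) (Fin 4) ℂ} (ha : BForm a) (lam : ℝ) (v : ℂ)
    (j k : Fin 4) :
    ContDiffOn ℝ 1 (fun p : ℝ × V 4 => aflow a lam v p.1 p.2 j k) (Prod.snd ⁻¹' Om) := by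
  have h1 : ContDiffOn ℝ 1 (fun p : ℝ × V 4 => a (phi lam v p.1 p.2) j k) (Prod.snd ⁻¹' Om) :=
    (ha.smooth j k).comp (contDiff_phi lam v).contDiffOn (fun p hp => phi_mem hp)
  have h2 : ∀ i, ContDiff ℝ 1 (fun p : ℝ × V 4 => (ex lam p.1 i : ℂ)) := fun i =>
    (contDiff_ex lam i).comp contDiff_fst
  exact (((h2 j).mul (h2 k)).contDiffOn).mul h1

/-- real derivative in terms of the Wirtinger derivatives -/
lemma fderiv_eq (f : V 4 → ℂ) (z u : V 4) :
    fderiv ℝ f z u = ∑ m, (u m * dZ m f z + star (u m) * dB m f z) := by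
  set D := fderiv ℝ f z with hD
  have hu : u = ∑ m, ((u m).re • (Pi.single m (1 : ℂ) : V 4) +
      (u m).im • (Pi.single m Complex.I : V 4)) := by
    ext i
    simp only [Finset.sum_apply, Pi.add_apply, Pi.smul_apply]
    rw [Finset.sum_eq_single i]
    · simp only [Pi.single_eq_same, Complex.real_smul, mul_one]
      exact (Complex.re_add_im (u i)).symm
    · intro m _ hm
      simp [Pi.single_eq_of_ne (Ne.symm hm)]
    · simp
  conv_lhs => rw [hu]
  rw [map_sum]
  refine Finset.sum_congr rfl fun m _ => ?_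
  rw [map_add, map_smul, map_smul]
  unfold dZ dB
  rw [← hD]
  have e1 : (u m) = ((u m).re : ℂ) + ((u m).im : ℂ) * Complex.I := (Complex.re_add_im (u m)).symm
  have e2 : star (u m) = ((u m).re : ℂ) - ((u m).im : ℂ) * Complex.I := by
    apply Complex.ext <;> simp
  rw [e2]
  conv_rhs => rw [e1]
  simp only [Complex.real_smul]
  simp only [Complex.add_re, Complex.add_im, Complex.ofReal_re, Complex.ofReal_im,
    Complex.mul_re, Complex.mul_im, Complex.I_re, Complex.I_im, mul_zero, mul_one, sub_zero,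
    add_zero, zero_add]
  linear_combination (((u m).im : ℂ) * D (Pi.single m Complex.I)) * (Complex.I_mul_I)

lemma hasFDerivAt_phi (lam : ℝ) (v : ℂ) (s : ℝ) (y : V 4) :
    HasFDerivAt (fun w => phi lam v s w)
      (ContinuousLinearMap.pi fun i => ((ex lam s i : ℂ) •
        (ContinuousLinearMap.proj i : V 4 →L[ℝ] ℂ))) y := by
  rw [hasFDerivAt_pi]
  intro i
  unfold phi
  have h1 : HasFDerivAt (fun w : V 4 => w i) (ContinuousLinearMap.proj i : V 4 →L[ℝ] ℂ) y :=
    hasFDerivAt_apply i y
  exact (h1.const_mul _).add_const _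

lemma fderiv_comp_phi {f : V 4 → ℂ} {lam : ℝ} {v : ℂ} {s : ℝ} {y : V 4}
    (hf : DifferentiableAt ℝ f (phi lam v s y)) (j : Fin 4) (c : ℂ) :
    fderiv ℝ (fun w => f (phi lam v s w)) y (Pi.single j c) =
      (ex lam s j : ℂ) * fderiv ℝ f (phi lam v s y) (Pi.single j c) := by
  have h1 := (hf.hasFDerivAt.comp y (hasFDerivAt_phi lam v s y)).fderiv
  change fderiv ℝ (f ∘ fun w => phi lam v s w) y (Pi.single j c) = _
  rw [h1, ContinuousLinearMap.comp_apply]
  have h2 : (ContinuousLinearMap.pi fun i => ((ex lam s i : ℂ) •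
        (ContinuousLinearMap.proj i : V 4 →L[ℝ] ℂ))) (Pi.single j c) =
      (ex lam s j : ℝ) • (Pi.single j c : V 4) := by
    ext i
    simp only [ContinuousLinearMap.coe_pi', _root_.smul_apply, ContinuousLinearMap.proj_apply,
      Pi.smul_apply, smul_eq_mul, Complex.real_smul]
    by_cases h : i = j
    · subst h; simp
    · simp [Pi.single_eq_of_ne h]
  rw [h2, map_smul, Complex.real_smul]

lemma dZ_comp_phi {f : V 4 → ℂ} {lam : ℝ} {v : ℂ} {s : ℝ} {y : V 4}
    (hf : DifferentiableAt ℝ f (phi lam v s y)) (j : Fin 4) :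
    dZ j (fun w => f (phi lam v s w)) y = (ex lam s j : ℂ) * dZ j f (phi lam v s y) := by
  unfold dZ
  rw [fderiv_comp_phi hf, fderiv_comp_phi hf]
  ring

lemma dZ_const_mul {f : V 4 → ℂ} {y : V 4} (hf : DifferentiableAt ℝ f y) (c : ℂ) (j : Fin 4) :
    dZ j (fun w => c * f w) y = c * dZ j f y := by
  rw [dZ_mul (differentiableAt_const c) hf, dZ_const]
  ring

lemma dZ_aflow {a : V 4 → Matrix (Fin 4) (Fin 4) ℂ} (ha : BForm a) {lam : ℝ} {v : ℂ} {s : ℝ}
    {y : V 4} (hy : y ∈ Om) (i j k : Fin 4) :
    dZ i (fun w => aflow a lam v s w j k) y =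
      (ex lam s j : ℂ) * (ex lam s k : ℂ) * (ex lam s i : ℂ) *
        dZ i (fun w => a w j k) (phi lam v s y) := by
  have hd : DifferentiableAt ℝ (fun w => a w j k) (phi lam v s y) :=
    ha.differentiableAt (phi_mem hy) j k
  have hd2 : DifferentiableAt ℝ (fun w => a (phi lam v s w) j k) y :=
    hd.comp y (hasFDerivAt_phi lam v s y).differentiableAt
  unfold aflow
  simp only [Matrix.of_apply]
  rw [dZ_const_mul hd2, dZ_comp_phi (f := fun w => a w j k) hd]
  ring

lemma phi_add_single (lam : ℝ) (v : ℂ) (s : ℝ) (y : V 4) (c : ℂ) :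
    phi lam v s (y + Pi.single 3 c) = phi lam v s y + Pi.single 3 c := by
  ext i
  unfold phi
  by_cases h : i = 3
  · subst h
    simp [ex_three]
    ring
  · simp [h]

theorem BForm.flow {a : V 4 → Matrix (Fin 4) (Fin 4) ℂ} (ha : BForm a) (lam : ℝ) (v : ℂ)
    (s : ℝ) : BForm (aflow a lam v s) where
  smooth j k := by
    have h := contDiffOn_aflow ha lam v j k
    exact h.comp (f := fun y : V 4 => (s, y)) (contDiff_prodMk_right s).contDiffOn
      (fun y hy => hy)
  herm y hy := by
    ext j k
    have h := herm_apply (ha.herm _ (phi_mem (lam := lam) (v := v) (s := s) hy)) k j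
    simp only [aflow, Matrix.conjTranspose_apply, Matrix.of_apply, star_mul', Complex.star_def,
      Complex.conj_ofReal] at h ⊢
    rw [h]
    ring
  closed y hy i j k := by
    rw [dZ_aflow ha hy, dZ_aflow ha hy, ha.closed _ (phi_mem hy) i j k]
    ring
  kernel y hy k := by
    have h := ha.kernel _ (phi_mem (lam := lam) (v := v) (s := s) hy) k
    have h2 : ∑ j : Fin 3, y j.castSucc * aflow a lam v s y j.castSucc k =
        (ex lam s k : ℂ) * ∑ j : Fin 3, phi lam v s y j.castSucc *
          a (phi lam v s y) j.castSucc k := by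
      rw [Finset.mul_sum]
      refine Finset.sum_congr rfl fun j _ => ?_
      have : (j.castSucc : Fin 4) ≠ 3 := by
        intro h
        have := congrArg Fin.val h
        simp at this
        omega
      simp only [aflow, Matrix.of_apply, phi, if_neg this, add_zero]
      ring
    rw [h2, h, mul_zero]
  per y hy p q := by
    ext j k
    simp only [aflow, Matrix.of_apply]
    rw [phi_add_single, ha.per _ (phi_mem hy)]

end

section

open scoped ContDiff Topology ComplexOrder
open MeasureTheory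

/-- the primitive along the flow -/
def beta (a : V 4 → Matrix (Fin 4) (Fin 4) ℂ) (lam : ℝ) (v : ℂ) (s : ℝ) (q : Fin 4) (w : V 4) : ℂ :=
  (lam : ℂ) * w 0 * aflow a lam v s w 0 q + v * aflow a lam v s w 3 q

/-- logarithmic derivative of the scaling factors -/
def el (lam : ℝ) (i : Fin 4) : ℝ := if i = 0 then lam else 0

lemma hasDerivAt_ex (lam s : ℝ) (i : Fin 4) :
    HasDerivAt (fun s => (ex lam s i : ℂ)) ((el lam i : ℂ) * (ex lam s i : ℂ)) s := by
  unfold ex el
  by_cases h : i = 0
  · simp only [h, if_true]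
    have h1 : HasDerivAt (fun s : ℝ => Real.exp (lam * s)) (Real.exp (lam * s) * (lam * 1)) s :=
      ((hasDerivAt_id s).const_mul lam).exp
    have h2 := h1.ofReal_comp
    convert h2 using 1
    push_cast
    ring
  · simp only [h, if_false]
    simpa using hasDerivAt_const s (1 : ℂ)

lemma hasDerivAt_phi (lam : ℝ) (v : ℂ) (s : ℝ) (y : V 4) :
    HasDerivAt (fun s => phi lam v s y)
      (fun i => (el lam i : ℂ) * (ex lam s i : ℂ) * y i + (if i = 3 then v else 0)) s := by
  rw [hasDerivAt_pi]
  intro i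
  unfold phi
  have h1 := (hasDerivAt_ex lam s i).mul_const (y i)
  have h2 : HasDerivAt (fun s : ℝ => if i = 3 then (s : ℂ) * v else 0) (if i = 3 then v else 0)
      s := by
    by_cases h : i = 3
    · simp only [h, if_true]
      have := (hasDerivAt_id s).ofReal_comp.mul_const v
      simpa using this
    · simp only [h, if_false]
      exact hasDerivAt_const s (0 : ℂ)
  exact h1.add h2

theorem hasDerivAt_aflow {a : V 4 → Matrix (Fin 4) (Fin 4) ℂ} (ha : BForm a) (lam : ℝ) (v : ℂ)
    (s : ℝ) {y : V 4} (hy : y ∈ Om) (j q : Fin 4) :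
    HasDerivAt (fun s => aflow a lam v s y j q)
      (dZ j (beta a lam v s q) y + star (dZ q (beta a lam v s j) y)) s := by
  set P := phi lam v s y with hP
  have hPm : P ∈ Om := phi_mem hy
  set f : V 4 → ℂ := fun w => a w j q with hf
  have hfd : DifferentiableAt ℝ f P := ha.differentiableAt hPm j q
  set u : V 4 := fun i => (el lam i : ℂ) * (ex lam s i : ℂ) * y i + (if i = 3 then v else 0)
    with hu
  have h1 : HasDerivAt (fun s => f (phi lam v s y)) (fderiv ℝ f P u) s := by
    have hg : HasFDerivAt f (fderiv ℝ f P) ((fun s => phi lam v s y) s) := hfd.hasFDerivAt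
    exact HasFDerivAt.comp_hasDerivAt s hg (hasDerivAt_phi lam v s y)
  have h2 : HasDerivAt (fun s => aflow a lam v s y j q)
      (((el lam j : ℂ) * (ex lam s j : ℂ) * (ex lam s q : ℂ) +
        (ex lam s j : ℂ) * ((el lam q : ℂ) * (ex lam s q : ℂ))) * f P +
        (ex lam s j : ℂ) * (ex lam s q : ℂ) * fderiv ℝ f P u) s :=
    ((hasDerivAt_ex lam s j).mul (hasDerivAt_ex lam s q)).mul h1
  convert h2 using 1
  have hfl := ha.flow lam v s
  -- the Wirtinger derivative of beta
  have hb : ∀ j q : Fin 4, dZ j (beta a lam v s q) y =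
      (lam : ℂ) * ((if j = 0 then 1 else 0) * aflow a lam v s y 0 q +
        y 0 * ((ex lam s 0 : ℂ) * (ex lam s q : ℂ) * (ex lam s j : ℂ) *
        dZ 0 (fun w => a w j q) P)) +
      v * ((ex lam s 3 : ℂ) * (ex lam s q : ℂ) * (ex lam s j : ℂ) *
        dZ 3 (fun w => a w j q) P) := by
    intro j q
    have d0 : DifferentiableAt ℝ (fun w : V 4 => w 0) y := differentiableAt_coord 0 y
    have dA : ∀ p, DifferentiableAt ℝ (fun w => aflow a lam v s w p q) y := fun p =>
      hfl.differentiableAt hy p q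
    have d1 : DifferentiableAt ℝ (fun w : V 4 => w 0 * aflow a lam v s w 0 q) y := d0.mul (dA 0)
    have e : beta a lam v s q = fun w =>
        (lam : ℂ) * (w 0 * aflow a lam v s w 0 q) + v * aflow a lam v s w 3 q := by
      ext w
      unfold beta
      ring
    have d2 : DifferentiableAt ℝ (fun w => (lam : ℂ) * (w 0 * aflow a lam v s w 0 q)) y :=
      d1.const_mul _
    have d3 : DifferentiableAt ℝ (fun w => v * aflow a lam v s w 3 q) y := (dA 3).const_mul _
    rw [e, dZ_add d2 d3, dZ_const_mul d1, dZ_const_mul (dA 3), dZ_mul d0 (dA 0), dZ_coord,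
      dZ_aflow ha hy, dZ_aflow ha hy, ha.closed P hPm j 0 q, ha.closed P hPm j 3 q]
  rw [hb j q, hb q j]
  have hsym : ∀ m : Fin 4, star (dZ m (fun w => a w q j) P) = dB m f P := by
    intro m
    rw [← dB_star (ha.differentiableAt hPm q j)]
    apply dB_congr
    filter_upwards [isOpen_Om.mem_nhds hPm] with w hw
    exact herm_apply (ha.herm w hw) q j
  have hfu : fderiv ℝ f P u =
      (lam : ℂ) * (ex lam s 0 : ℂ) * y 0 * dZ 0 f P +
      star ((lam : ℂ) * (ex lam s 0 : ℂ) * y 0) * dB 0 f P + v * dZ 3 f P +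
      star v * dB 3 f P := by
    rw [fderiv_eq, Fin.sum_univ_four]
    have u0 : u 0 = (lam : ℂ) * (ex lam s 0 : ℂ) * y 0 := by simp [hu, el]
    have u1 : u 1 = 0 := by simp [hu, el]
    have u2 : u 2 = 0 := by simp [hu, el]
    have u3 : u 3 = v := by simp [hu, el]
    rw [u0, u1, u2, u3]
    simp only [star_zero, zero_mul, add_zero]
    ring
  rw [hfu]
  have hst : ∀ x : ℝ, star (x : ℂ) = (x : ℂ) := fun x => by simp
  have e3 : (ex lam s 3 : ℂ) = 1 := by rw [ex_three]; simp
  have hA : aflow a lam v s y j q = (ex lam s j : ℂ) * (ex lam s q : ℂ) * f P := rfl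
  have k1 : (lam : ℂ) * ((if j = 0 then (1 : ℂ) else 0) * aflow a lam v s y 0 q) =
      (el lam j : ℂ) * ((ex lam s j : ℂ) * (ex lam s q : ℂ) * f P) := by
    by_cases h : j = 0
    · subst h
      rw [hA]
      simp [el]
    · simp [el, h]
  have k2 : star ((lam : ℂ) * ((if q = 0 then (1 : ℂ) else 0) * aflow a lam v s y 0 j)) =
      (el lam q : ℂ) * ((ex lam s j : ℂ) * (ex lam s q : ℂ) * f P) := by
    by_cases h : q = 0
    · subst h
      have : star (aflow a lam v s y 0 j) = aflow a lam v s y j 0 :=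
        herm_apply (hfl.herm y hy) 0 j
      rw [if_pos rfl, one_mul, star_mul', hst, this, hA]
      simp [el]
    · simp [el, h]
  rw [star_add, mul_add (lam : ℂ) _ (y 0 * _), mul_add (lam : ℂ) _ (y 0 * _), star_add, k1, k2]
  simp only [star_mul', hst, hsym, e3, star_one]
  simp only [← hf]
  ring

end

section

open scoped ContDiff Topology ComplexOrder
open MeasureTheory

/-- polarised functional -/
def MM (k : ℝ → ℝ) (b a : V 4 → Matrix (Fin 4) (Fin 4) ℂ) : ℂ :=
  ∫ y in D2, (wt k y : ℂ) * ∑ j, ∑ q, (addRad b y).adjugate q j * a y j q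

lemma setIntegral_D2_congr {g g' : V 4 → ℂ} (h : ∀ y ∈ Om, g y = g' y) (k : ℝ → ℝ) :
    ∫ y in D2, (wt k y : ℂ) * g y = ∫ y in D2, (wt k y : ℂ) * g' y := by
  congr 1
  ext y
  by_cases hy : y ∈ Om
  · rw [h y hy]
  · rw [wt_of_notMem k hy]
    simp

lemma phi_zero (lam : ℝ) (v : ℂ) (y : V 4) : phi lam v 0 y = y := by
  ext i
  unfold phi
  rw [ex_zero]
  simp

lemma aflow_zero (a : V 4 → Matrix (Fin 4) (Fin 4) ℂ) (lam : ℝ) (v : ℂ) (y : V 4) :
    aflow a lam v 0 y = a y := by
  ext j k
  unfold aflow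
  rw [phi_zero]
  simp [ex_zero]

theorem flow_inv {a b : V 4 → Matrix (Fin 4) (Fin 4) ℂ} (ha : BForm a) (hb : BForm b)
    (hp : ∀ y ∈ Om, (addRad b y).PosDef) {k : ℝ → ℝ} (hk : IsWeight k) (lam : ℝ) (v : ℂ)
    (s : ℝ) : MM k b (aflow a lam v s) = MM k b a := by
  obtain ⟨c, hc0, hc⟩ := IsWeight.wt_large hk
  set f : ℝ × V 4 → ℂ := fun p =>
    ∑ j, ∑ q, (addRad b p.2).adjugate q j * aflow a lam v p.1 p.2 j q with hf
  have hfs : ContDiffOn ℝ 1 f (Prod.snd ⁻¹' Om) := by
    apply ContDiffOn.sum
    intro j _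
    apply ContDiffOn.sum
    intro q _
    have h1 : ContDiffOn ℝ 1 (fun p : ℝ × V 4 => (addRad b p.2).adjugate q j)
        (Prod.snd ⁻¹' Om) :=
      (contDiffOn_adj (fun i j => hb.smooth_addRad i j) q j).comp contDiff_snd.contDiffOn
        (fun p hp => hp)
    exact h1.mul (contDiffOn_aflow ha lam v j q)
  set Φ : ℝ × V 4 → ℂ := fun p => (wt k p.2 : ℂ) * f p with hΦ
  have hΦs : ContDiff ℝ 1 Φ := contDiff_wt_mul hk (pr := Prod.snd) contDiff_snd hfs
  have hF : ∀ s, MM k b (aflow a lam v s) = ∫ y in D2 ∩ {y | E3 y ≤ c}, Φ (s, y) := by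
    intro s
    apply setIntegral_cut
    intro y hy
    rw [hc y hy]
    simp
  have hder : ∀ s, HasDerivAt (fun s => MM k b (aflow a lam v s)) 0 s := by
    intro s
    have key := leibniz_deriv (μ := (volume : Measure (V 4))) isOpen_univ hΦs.contDiffOn
      (isCompact_Kc c) (measurableSet_cut c) D2_subset_Kc (U := Set.univ) isOpen_univ
      (Set.subset_univ _) (s := s) (Set.mem_univ _)
    simp only [hF]
    convert key using 1
    symm
    set u : V 4 → ℂ := fun y => (wt k y : ℂ) *
      ∑ j, ∑ q, (addRad b y).adjugate q j * dZ j (beta a lam v s q) y with hu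
    have hafl := ha.flow lam v s
    have hS := stokes_b hb hp hk (β := beta a lam v s) ?_ ?_ ?_
    · have hpt : ∀ y, fderiv ℝ Φ (s, y) (1, 0) = u y + star (u y) := by
        intro y
        have h1 : HasDerivAt (fun s => Φ (s, y)) (fderiv ℝ Φ (s, y) (1, 0)) s := by
          have hg : HasFDerivAt Φ (fderiv ℝ Φ (s, y)) ((fun s : ℝ => (s, y)) s) :=
            (hΦs.differentiable one_ne_zero _).hasFDerivAt
          have hd : HasDerivAt (fun s : ℝ => (s, y)) ((1 : ℝ), (0 : V 4)) s :=
            (hasDerivAt_id s).prodMk (hasDerivAt_const s y)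
          exact HasFDerivAt.comp_hasDerivAt s hg hd
        by_cases hy : y ∈ Om
        · have h2 : HasDerivAt (fun s => (wt k y : ℂ) *
              ∑ j, ∑ q, (addRad b y).adjugate q j * aflow a lam v s y j q) ((wt k y : ℂ) *
              ∑ j, ∑ q, (addRad b y).adjugate q j *
                (dZ j (beta a lam v s q) y + star (dZ q (beta a lam v s j) y))) s := by
            apply HasDerivAt.const_mul
            apply HasDerivAt.fun_sum
            intro j _
            apply HasDerivAt.fun_sum
            intro q _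
            exact (hasDerivAt_aflow ha lam v s hy j q).const_mul _
          rw [h1.unique h2]
          simp only [hu]
          have hst : star (wt k y : ℂ) = (wt k y : ℂ) := by simp
          rw [star_mul', hst, ← mul_add]
          congr 1
          simp only [mul_add, Finset.sum_add_distrib]
          congr 1
          rw [star_sum, Finset.sum_comm]
          refine Finset.sum_congr rfl fun q _ => ?_
          rw [star_sum]
          refine Finset.sum_congr rfl fun j _ => ?_
          rw [star_mul']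
          have hH : ((addRad b y).adjugate).IsHermitian := (hp y hy).isHermitian.adjugate
          rw [herm_apply hH]
        · have h2 : HasDerivAt (fun s => Φ (s, y)) 0 s := by
            have : (fun s => Φ (s, y)) = fun _ => 0 := by
              ext s
              simp only [hΦ]
              rw [wt_of_notMem k hy]
              simp
            rw [this]
            exact hasDerivAt_const s (0 : ℂ)
          rw [h1.unique h2]
          simp only [hu]
          rw [wt_of_notMem k hy]
          simp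
      simp only [hpt]
      have hz : ∀ y, c < E3 y → u y + star (u y) = 0 := by
        intro y hy
        simp only [hu, hc y hy]
        simp
      rw [← setIntegral_cut hz]
      have hi1 : IntegrableOn u D2 := hS.1
      have hi2 : IntegrableOn (fun y => star (u y)) D2 := by
        have := Complex.conjCLE.toContinuousLinearMap.integrable_comp hi1
        exact this
      rw [integral_add hi1 hi2]
      have e1 : ∫ y in D2, u y = 0 := hS.2
      have e2 : ∫ y in D2, star (u y) = star (∫ y in D2, u y) := integral_conj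
      rw [e2, e1]
      simp
    · intro q
      have h0 : ContDiff ℝ 1 (fun w : V 4 => w 0) := by fun_prop
      have h1 : ContDiffOn ℝ 1 (fun w : V 4 => (lam : ℂ) * w 0) Om :=
        (contDiff_const.mul h0).contDiffOn
      exact (h1.mul (hafl.smooth 0 q)).add (contDiffOn_const.mul (hafl.smooth 3 q))
    · intro y hy
      have h0 := hafl.kernel' hy 0
      have h3 := hafl.kernel' hy 3
      have : ∑ q, cy y q * beta a lam v s q y =
          (lam : ℂ) * y 0 * ∑ q, aflow a lam v s y 0 q * cy y q +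
            v * ∑ q, aflow a lam v s y 3 q * cy y q := by
        rw [Finset.mul_sum, Finset.mul_sum, ← Finset.sum_add_distrib]
        refine Finset.sum_congr rfl fun q _ => ?_
        unfold beta
        ring
      rw [this, h0, h3]
      ring
    · intro l y hy p q
      unfold beta
      rw [hafl.per y hy]
      simp
  have hdiff : Differentiable ℝ (fun s => MM k b (aflow a lam v s)) :=
    fun s => (hder s).differentiableAt
  have hconst := is_const_of_deriv_eq_zero hdiff (fun s => (hder s).deriv) s 0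
  rw [hconst]
  apply setIntegral_D2_congr
  intro y _
  rw [aflow_zero]

end

section

open scoped ContDiff Topology ComplexOrder
open MeasureTheory

theorem leibniz_contDiffOn {X Y : Type*} [NormedAddCommGroup X] [NormedSpace ℝ X]
    [FiniteDimensional ℝ X]
    [NormedAddCommGroup Y] [NormedSpace ℝ Y] [FiniteDimensional ℝ Y] [MeasurableSpace Y]
    [BorelSpace Y] {μ : Measure Y} [IsFiniteMeasureOnCompacts μ] {F : X × Y → ℂ} {W : Set (X × Y)}
    (hW : IsOpen W) (hF : ContDiffOn ℝ 1 F W) {K K' : Set Y} (hK : IsCompact K)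
    (hK' : MeasurableSet K') (hKK' : K' ⊆ K) {U : Set X} (hU : IsOpen U) (hUK : U ×ˢ K ⊆ W) :
    ContDiffOn ℝ 1 (fun x => ∫ y in K', F (x, y) ∂μ) U := by
  have : ProperSpace X := FiniteDimensional.proper_real X
  have h1 := fun x (hx : x ∈ U) => leibniz (μ := μ) hW hF hK hK' hKK' hU hUK hx
  have hfin : IsFiniteMeasure (μ.restrict K') :=
    ⟨by
      rw [Measure.restrict_apply_univ]
      exact lt_of_le_of_lt (measure_mono hKK') hK.measure_lt_top⟩
  have e : (1 : WithTop ℕ∞) = 0 + 1 := by norm_num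
  rw [e, contDiffOn_succ_iff_fderiv_of_isOpen hU]
  refine ⟨fun x hx => (h1 x hx).differentiableAt.differentiableWithinAt, by simp, ?_⟩
  rw [contDiffOn_zero]
  have h2 : ContinuousOn (fun x => ∫ y in K', (fderiv ℝ F (x, y)).comp
      (ContinuousLinearMap.inl ℝ X Y) ∂μ) U := by
    intro x₀ hx
    obtain ⟨δ, hδ, hδU⟩ : ∃ δ > 0, Metric.closedBall x₀ δ ⊆ U :=
      Metric.nhds_basis_closedBall.mem_iff.1 (hU.mem_nhds hx)
    have hcomp : IsCompact (Metric.closedBall x₀ δ ×ˢ K) := (isCompact_closedBall x₀ δ).prod hK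
    have hsub : Metric.closedBall x₀ δ ×ˢ K ⊆ W :=
      (Set.prod_mono hδU subset_rfl).trans hUK
    have hcont : ContinuousOn (fun p => (fderiv ℝ F p).comp
        (ContinuousLinearMap.inl ℝ X Y)) W :=
      (hF.continuousOn_fderiv_of_isOpen hW le_rfl).clm_comp continuousOn_const
    obtain ⟨C, hC⟩ := hcomp.exists_bound_of_continuousOn (hcont.mono hsub)
    apply ContinuousAt.continuousWithinAt
    refine continuousAt_of_dominated (bound := fun _ => C) ?_ ?_ (integrable_const C) ?_
    · filter_upwards [Metric.ball_mem_nhds x₀ hδ] with x hx'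
      have h3 : ContinuousOn (fun y => (fderiv ℝ F (x, y)).comp (ContinuousLinearMap.inl ℝ X Y))
          K := hcont.comp (by fun_prop)
            (fun y hy => hsub ⟨Metric.ball_subset_closedBall hx', hy⟩)
      exact (h3.mono hKK').aestronglyMeasurable hK'
    · filter_upwards [Metric.ball_mem_nhds x₀ hδ] with x hx'
      refine (ae_restrict_iff' hK').2 (Filter.Eventually.of_forall fun y hy => ?_)
      exact hC (x, y) ⟨Metric.ball_subset_closedBall hx', hKK' hy⟩
    · refine (ae_restrict_iff' hK').2 (Filter.Eventually.of_forall fun y hy => ?_)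
      have hmem : (x₀, y) ∈ W := hUK ⟨hx, hKK' hy⟩
      have h4 : ContinuousAt (fun p => (fderiv ℝ F p).comp
        (ContinuousLinearMap.inl ℝ X Y)) (x₀, y) := hcont.continuousAt (hW.mem_nhds hmem)
      have h5 : ContinuousAt (fun x : X => (x, y)) x₀ := by fun_prop
      exact ContinuousAt.comp (f := fun x : X => (x, y)) h4 h5
  exact h2.congr fun x hx => (h1 x hx).fderiv

/-- the closed box -/
def cbox : Set ℂ := {z | z.re ∈ Set.Icc (0 : ℝ) 2 ∧ z.im ∈ Set.Icc (0 : ℝ) 2}

lemma isCompact_cbox : IsCompact cbox := by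
  apply Metric.isCompact_of_isClosed_isBounded
  · exact (isClosed_Icc.preimage Complex.continuous_re).inter
      (isClosed_Icc.preimage Complex.continuous_im)
  · refine (Metric.isBounded_closedBall (x := (0 : ℂ)) (r := 4)).subset ?_
    rintro z ⟨h3, h4⟩
    rw [mem_closedBall_zero_iff]
    have := Complex.norm_le_abs_re_add_abs_im z
    rw [abs_of_nonneg h3.1, abs_of_nonneg h4.1] at this
    linarith [h3.2, h4.2]

lemma box_subset_cbox : box 2 ⊆ cbox := by
  rintro z ⟨h1, h2⟩
  exact ⟨⟨h1.1, h1.2.le⟩, ⟨h2.1, h2.2.le⟩⟩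

lemma volume_box : volume (box 2) = 4 := by
  have h1 : box 2 = Complex.measurableEquivRealProd ⁻¹' (Set.Ico (0 : ℝ) 2 ×ˢ Set.Ico (0 : ℝ) 2) := by
    ext z
    simp [box, Complex.measurableEquivRealProd_apply]
  rw [h1, Complex.volume_preserving_equiv_real_prod.measure_preimage
    (measurableSet_Ico.prod measurableSet_Ico).nullMeasurableSet, Measure.volume_eq_prod,
    Measure.prod_prod, Real.volume_Ico]
  norm_num

instance : IsFiniteMeasure (volume.restrict (box 2)) :=
  ⟨by rw [Measure.restrict_apply_univ, volume_box]; norm_num⟩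

/-- average over the last coordinate -/
def tav (a : V 4 → Matrix (Fin 4) (Fin 4) ℂ) (y : V 4) : Matrix (Fin 4) (Fin 4) ℂ :=
  Matrix.of fun j k => (1 / 4 : ℂ) * ∫ v in box 2, a (y + Pi.single 3 v) j k

lemma contDiff_shift {r : WithTop ℕ∞} :
    ContDiff ℝ r (fun p : V 4 × ℂ => p.1 + (Pi.single 3 p.2 : V 4)) := by
  rw [contDiff_pi]
  intro i
  have h1 : ContDiff ℝ r (fun p : V 4 × ℂ => p.1 i) := by fun_prop
  have h2 : ContDiff ℝ r (fun p : V 4 × ℂ => (Pi.single 3 p.2 : V 4) i) := by
    by_cases h : i = 3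
    · subst h
      simp only [Pi.single_eq_same]
      exact contDiff_snd
    · simp only [Pi.single_eq_of_ne h]
      exact contDiff_const
  exact h1.add h2

lemma contDiffOn_shift {a : V 4 → Matrix (Fin 4) (Fin 4) ℂ} (ha : BForm a) (j k : Fin 4) :
    ContDiffOn ℝ 1 (fun p : V 4 × ℂ => a (p.1 + Pi.single 3 p.2) j k) (Prod.fst ⁻¹' Om) :=
  (ha.smooth j k).comp contDiff_shift.contDiffOn (fun p hp => add_single_mem hp _)

lemma isOpen_fst_Om : IsOpen (Prod.fst ⁻¹' Om : Set (V 4 × ℂ)) := isOpen_Om.preimage continuous_fst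

lemma contDiffOn_tav {a : V 4 → Matrix (Fin 4) (Fin 4) ℂ} (ha : BForm a) (j k : Fin 4) :
    ContDiffOn ℝ 1 (fun y => tav a y j k) Om := by
  have h := leibniz_contDiffOn (μ := (volume : Measure ℂ)) isOpen_fst_Om (contDiffOn_shift ha j k)
    isCompact_cbox (measurableSet_box 2) box_subset_cbox isOpen_Om (fun p hp => hp.1)
  exact contDiffOn_const.mul h

lemma integrableOn_box {f : ℂ → ℂ} (hf : Continuous f) : IntegrableOn f (box 2) :=
  (hf.continuousOn.integrableOn_compact isCompact_cbox).mono_set box_subset_cbox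

lemma BForm.continuous_shift {a : V 4 → Matrix (Fin 4) (Fin 4) ℂ} (ha : BForm a) {y : V 4}
    (hy : y ∈ Om) (j k : Fin 4) : Continuous (fun v : ℂ => a (y + Pi.single 3 v) j k) := by
  have h := (contDiffOn_shift ha j k).continuousOn
  have h2 : ContinuousOn (fun v : ℂ => a (y + Pi.single 3 v) j k) Set.univ :=
    h.comp (f := fun v : ℂ => (y, v)) (by fun_prop) (fun v _ => hy)
  exact continuousOn_univ.1 h2

lemma fderiv_tav {a : V 4 → Matrix (Fin 4) (Fin 4) ℂ} (ha : BForm a) {y : V 4} (hy : y ∈ Om)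
    (j k : Fin 4) (e : V 4) :
    IntegrableOn (fun v => fderiv ℝ (fun w => a w j k) (y + Pi.single 3 v) e) (box 2) ∧
    fderiv ℝ (fun y => tav a y j k) y e =
      (1 / 4 : ℂ) * ∫ v in box 2, fderiv ℝ (fun w => a w j k) (y + Pi.single 3 v) e := by
  have h := leibniz (μ := (volume : Measure ℂ)) isOpen_fst_Om (contDiffOn_shift ha j k)
    isCompact_cbox (measurableSet_box 2) box_subset_cbox isOpen_Om (fun p hp => hp.1) hy
  have h2 := (h.const_mul (1 / 4 : ℂ)).fderiv
  have hcont : ContinuousOn (fun p => fderiv ℝ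
      (fun p : V 4 × ℂ => a (p.1 + Pi.single 3 p.2) j k) p) (Prod.fst ⁻¹' Om) :=
    (contDiffOn_shift ha j k).continuousOn_fderiv_of_isOpen isOpen_fst_Om le_rfl
  have h3 : ContinuousOn (fun v : ℂ => (fderiv ℝ
      (fun p : V 4 × ℂ => a (p.1 + Pi.single 3 p.2) j k) (y, v)).comp
      (ContinuousLinearMap.inl ℝ (V 4) ℂ)) cbox :=
    (hcont.comp (f := fun v : ℂ => (y, v)) (by fun_prop) (fun v _ => hy)).clm_comp
      continuousOn_const
  have h4 := (h3.integrableOn_compact (μ := (volume : Measure ℂ)) isCompact_cbox).mono_set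
    box_subset_cbox
  have hpt : ∀ v : ℂ, (fderiv ℝ
      (fun p : V 4 × ℂ => a (p.1 + Pi.single 3 p.2) j k) (y, v)).comp
      (ContinuousLinearMap.inl ℝ (V 4) ℂ) e =
      fderiv ℝ (fun w => a w j k) (y + Pi.single 3 v) e := by
    intro v
    have g1 : HasFDerivAt (fun w => a w j k)
        (fderiv ℝ (fun w => a w j k) (y + Pi.single 3 v)) (y + Pi.single 3 v) :=
      (ha.differentiableAt (add_single_mem hy v) j k).hasFDerivAt
    have g2 : HasFDerivAt (fun w : V 4 => w + (Pi.single 3 v : V 4))
        (ContinuousLinearMap.id ℝ (V 4)) y := (hasFDerivAt_id y).add_const _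
    have g3 : HasFDerivAt (fun w : V 4 => a (w + Pi.single 3 v) j k)
        ((fderiv ℝ (fun w => a w j k) (y + Pi.single 3 v)).comp
          (ContinuousLinearMap.id ℝ (V 4))) y :=
      HasFDerivAt.comp (f := fun w : V 4 => w + (Pi.single 3 v : V 4)) y g1 g2
    have g4 : HasFDerivAt (fun p : V 4 × ℂ => a (p.1 + Pi.single 3 p.2) j k)
      (fderiv ℝ (fun p : V 4 × ℂ => a (p.1 + Pi.single 3 p.2) j k) (y, v)) (y, v) :=
      (((contDiffOn_shift ha j k).contDiffAt
        (isOpen_fst_Om.mem_nhds hy)).differentiableAt one_ne_zero).hasFDerivAt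
    have g5 : HasFDerivAt (fun w : V 4 => a (w + Pi.single 3 v) j k)
        ((fderiv ℝ (fun p : V 4 × ℂ => a (p.1 + Pi.single 3 p.2) j k) (y, v)).comp
          (ContinuousLinearMap.inl ℝ (V 4) ℂ)) y :=
      HasFDerivAt.comp (f := fun w : V 4 => (w, v)) y g4 (hasFDerivAt_prodMk_left y v)
    rw [g5.unique g3]
    rfl
  constructor
  · have h5 := h4.apply_continuousLinearMap e
    simp only [hpt] at h5
    exact h5
  · change fderiv ℝ (fun y => (1 / 4 : ℂ) * ∫ v in box 2, a (y + Pi.single 3 v) j k) y e = _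
    rw [h2]
    simp only [_root_.smul_apply, smul_eq_mul]
    congr 1
    rw [ContinuousLinearMap.integral_apply h4]
    simp only [hpt]

lemma dZ_tav {a : V 4 → Matrix (Fin 4) (Fin 4) ℂ} (ha : BForm a) {y : V 4} (hy : y ∈ Om)
    (i j k : Fin 4) :
    dZ i (fun y => tav a y j k) y =
      (1 / 4 : ℂ) * ∫ v in box 2, dZ i (fun w => a w j k) (y + Pi.single 3 v) := by
  obtain ⟨h1, h2⟩ := fderiv_tav ha hy j k (Pi.single i 1)
  obtain ⟨h3, h4⟩ := fderiv_tav ha hy j k (Pi.single i Complex.I)
  unfold dZ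
  rw [h2, h4, integral_div, integral_sub h1 (h3.const_mul _), integral_const_mul]
  ring

lemma tav_add_single {a : V 4 → Matrix (Fin 4) (Fin 4) ℂ} (ha : BForm a) {y : V 4} (hy : y ∈ Om)
    (c : ℂ) : tav a (y + Pi.single 3 c) = tav a y := by
  ext j k
  simp only [tav, Matrix.of_apply]
  congr 1
  have h := shift_C (G := fun v => a (y + Pi.single 3 v) j k) ?_ c
  · rw [← h]
    congr 1
    ext v
    change a (y + Pi.single 3 c + Pi.single 3 v) j k = a (y + Pi.single 3 (v + c)) j k
    rw [add_assoc, ← Pi.single_add, add_comm c v]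
  · intro v p q
    change a (y + Pi.single 3 (v + _)) j k = a (y + Pi.single 3 v) j k
    rw [Pi.single_add, ← add_assoc, ha.per _ (add_single_mem hy v)]

end

section

open scoped ContDiff Topology ComplexOrder
open MeasureTheory

lemma posDef_of_re {M : Matrix (Fin 4) (Fin 4) ℂ} (hM : M.IsHermitian)
    (h : ∀ x : Fin 4 → ℂ, x ≠ 0 → 0 < (star x ⬝ᵥ (M.mulVec x)).re) : M.PosDef := by
  refine Matrix.PosDef.of_dotProduct_mulVec_pos hM fun x hx => ?_
  rw [Complex.lt_def]
  refine ⟨by simpa using h x hx, ?_⟩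
  have := hM.im_star_dotProduct_mulVec_self x
  simpa using this.symm

lemma re_pos_of_posDef {M : Matrix (Fin 4) (Fin 4) ℂ} (hM : M.PosDef) {x : Fin 4 → ℂ}
    (hx : x ≠ 0) : 0 < (star x ⬝ᵥ (M.mulVec x)).re := by
  have := hM.dotProduct_mulVec_pos hx
  rw [Complex.lt_def] at this
  simpa using this.1

/-- scaling factors -/
def sc (c : ℂ) (j : Fin 4) : ℂ := if j = 3 then 1 else c

lemma pull_scaleMat_apply (c : ℂ) (g : Matrix (Fin 4) (Fin 4) ℂ) (j k : Fin 4) :
    pull (scaleMat c) g j k = sc c j * g j k * star (sc c k) := by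
  have hd : (![c, c, c, 1] : Fin 4 → ℂ) = sc c := by
    ext i
    fin_cases i <;> rfl
  unfold pull scaleMat
  rw [hd, Matrix.diagonal_transpose, Matrix.diagonal_map (star_zero ℂ), Matrix.mul_diagonal,
    Matrix.diagonal_mul]

lemma scale_apply (c : ℂ) (y : V 4) (i : Fin 4) : scale c y i = sc c i * y i := by
  unfold scale sc
  fin_cases i <;> simp

lemma scale_mem {c : ℂ} (hc : c ≠ 0) {y : V 4} (hy : y ∈ Om) : scale c y ∈ Om := by
  have h : E3 (scale c y) = Complex.normSq c * E3 y := by
    unfold E3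
    simp only [scale_apply, sc]
    simp [Complex.normSq_mul]
    ring
  unfold Om
  rw [Set.mem_ofPred_eq, h]
  exact mul_pos (Complex.normSq_pos.2 hc) hy

lemma E3_scale (c : ℂ) (y : V 4) : E3 (scale c y) = Complex.normSq c * E3 y := by
  unfold E3
  simp only [scale_apply, sc]
  simp [Complex.normSq_mul]
  ring

lemma scale_add_single (c : ℂ) (y : V 4) (v : ℂ) :
    scale c (y + Pi.single 3 v) = scale c y + Pi.single 3 v := by
  ext i
  rw [Pi.add_apply, scale_apply, scale_apply]
  by_cases h : i = 3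
  · subst h
    simp [sc]
  · simp [h]

/-- closed basic positive form, `C¹` version of `Cone` -/
structure Cone1 (a : V 4 → Matrix (Fin 4) (Fin 4) ℂ) : Prop extends BForm a where
  hom : ∀ y ∈ Om, ∀ c : ℂ, c ≠ 0 → ∀ j k, a y j k = sc c j * a (scale c y) j k * star (sc c k)
  pos : ∀ y ∈ Om, (addRad a y).PosDef

lemma Cone.toCone1 {a : V 4 → Matrix (Fin 4) (Fin 4) ℂ} (ha : Cone a) : Cone1 a where
  smooth j k := (ha.kform.smooth j k).of_le (by exact_mod_cast le_top)
  herm y hy := ha.kform.herm y hy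
  closed y hy := ha.kform.closed y hy
  kernel y hy := ha.kernel y hy
  per y hy := ha.per y hy
  hom y hy c hc j k := by
    conv_lhs => rw [ha.hom y hy c hc]
    exact pull_scaleMat_apply c _ j k
  pos y hy := ha.pos y hy

lemma tav_apply (a : V 4 → Matrix (Fin 4) (Fin 4) ℂ) (y : V 4) (j k : Fin 4) :
    tav a y j k = (1 / 4 : ℂ) * ∫ v in box 2, a (y + Pi.single 3 v) j k := rfl

theorem BForm.tav {a : V 4 → Matrix (Fin 4) (Fin 4) ℂ} (ha : BForm a) : BForm (tav a) where
  smooth j k := contDiffOn_tav ha j k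
  herm y hy := by
    ext j k
    rw [Matrix.conjTranspose_apply, tav_apply, tav_apply, star_mul']
    have h1 : star (∫ v in box 2, a (y + Pi.single 3 v) k j) =
        ∫ v in box 2, star (a (y + Pi.single 3 v) k j) := integral_conj.symm
    rw [h1]
    have h2 : ∀ v, star (a (y + Pi.single 3 v) k j) = a (y + Pi.single 3 v) j k := fun v =>
      herm_apply (ha.herm _ (add_single_mem hy v)) k j
    simp only [h2]
    simp
  closed y hy i j k := by
    rw [dZ_tav ha hy, dZ_tav ha hy]
    congr 2
    ext v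
    exact ha.closed _ (add_single_mem hy v) i j k
  kernel y hy k := by
    simp only [tav_apply]
    have h1 : ∀ j : Fin 3, y j.castSucc * ((1 / 4 : ℂ) *
        ∫ v in box 2, a (y + Pi.single 3 v) j.castSucc k) =
        (1 / 4 : ℂ) * ∫ v in box 2, y j.castSucc * a (y + Pi.single 3 v) j.castSucc k := by
      intro j
      rw [integral_const_mul]
      ring
    rw [Finset.sum_congr rfl fun j _ => h1 j, ← Finset.mul_sum, ← integral_finsetSum]
    · have h2 : ∀ v : ℂ, ∑ j : Fin 3, y j.castSucc * a (y + Pi.single 3 v) j.castSucc k = 0 := by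
        intro v
        have := ha.kernel _ (add_single_mem hy v) k
        rw [← this]
        refine Finset.sum_congr rfl fun j _ => ?_
        have hj : (j.castSucc : Fin 4) ≠ 3 := by
          intro h
          have := congrArg Fin.val h
          simp at this
          omega
        simp [hj]
      simp only [h2]
      simp
    · intro j _
      exact (integrableOn_box (ha.continuous_shift hy j.castSucc k)).const_mul _
  per y hy p q := tav_add_single ha hy _

lemma integral_box_const (c : ℂ) : ∫ _ in box 2, c = 4 * c := by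
  rw [setIntegral_const, measureReal_def, volume_box]
  simp

lemma addRad_tav {a : V 4 → Matrix (Fin 4) (Fin 4) ℂ} (ha : BForm a) {y : V 4} (hy : y ∈ Om)
    (j k : Fin 4) :
    addRad (KS.tav a) y j k = (1 / 4 : ℂ) * ∫ v in box 2, addRad a (y + Pi.single 3 v) j k := by
  simp only [addRad_apply, rad_add_single]
  rw [integral_add (integrableOn_box (ha.continuous_shift hy j k)) (integrable_const _),
    integral_box_const, tav_apply]
  ring

lemma BForm.continuous_shift' {a : V 4 → Matrix (Fin 4) (Fin 4) ℂ} (ha : BForm a) {y : V 4}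
    (hy : y ∈ Om) (j k : Fin 4) : Continuous (fun v : ℂ => addRad a (y + Pi.single 3 v) j k) := by
  simp only [addRad_apply, rad_add_single]
  exact (ha.continuous_shift hy j k).add continuous_const

lemma addRad_herm {a : V 4 → Matrix (Fin 4) (Fin 4) ℂ} (ha : BForm a) {y : V 4} (hy : y ∈ Om) :
    (addRad a y).IsHermitian := by
  ext j k
  rw [Matrix.conjTranspose_apply, addRad_apply, addRad_apply, star_add, star_mul', star_star,
    herm_apply (ha.herm y hy)]
  ring

theorem Cone1.tav {a : V 4 → Matrix (Fin 4) (Fin 4) ℂ} (ha : Cone1 a) : Cone1 (KS.tav a) where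
  toBForm := ha.toBForm.tav
  hom y hy c hc j k := by
    rw [tav_apply, tav_apply]
    have h : ∀ v : ℂ, a (y + Pi.single 3 v) j k =
        sc c j * star (sc c k) * a (scale c y + Pi.single 3 v) j k := by
      intro v
      rw [ha.hom _ (add_single_mem hy v) c hc, scale_add_single]
      ring
    simp only [h]
    rw [integral_const_mul]
    ring
  pos y hy := by
    refine posDef_of_re (addRad_herm ha.toBForm.tav hy) fun x hx => ?_
    set g : ℂ → ℝ := fun v => (star x ⬝ᵥ ((addRad a (y + Pi.single 3 v)).mulVec x)).re with hg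
    have hgpos : ∀ v, 0 < g v := fun v => re_pos_of_posDef (ha.pos _ (add_single_mem hy v)) hx
    have hgc0 : Continuous fun v : ℂ => star x ⬝ᵥ ((addRad a (y + Pi.single 3 v)).mulVec x) := by
      simp only [dotProduct, Matrix.mulVec]
      refine continuous_finsetSum _ fun j _ => continuous_const.mul ?_
      exact continuous_finsetSum _ fun k _ => (ha.toBForm.continuous_shift' hy j k).mul
        continuous_const
    have hgc : Continuous g := Complex.continuous_re.comp hgc0
    have hkey : (star x ⬝ᵥ ((addRad (KS.tav a) y).mulVec x)) =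
        (1 / 4 : ℂ) * ∫ v in box 2, star x ⬝ᵥ ((addRad a (y + Pi.single 3 v)).mulVec x) := by
      simp only [dotProduct, Matrix.mulVec]
      rw [integral_finsetSum, Finset.mul_sum]
      · refine Finset.sum_congr rfl fun j _ => ?_
        rw [integral_const_mul, integral_finsetSum]
        · simp only [Finset.mul_sum]
          refine Finset.sum_congr rfl fun k _ => ?_
          rw [integral_mul_const, addRad_tav ha.toBForm hy]
          ring
        · intro k _
          exact integrableOn_box ((ha.toBForm.continuous_shift' hy j k).mul continuous_const)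
      · intro j _
        apply integrableOn_box
        refine continuous_const.mul ?_
        exact continuous_finsetSum _ fun k _ => (ha.toBForm.continuous_shift' hy j k).mul
          continuous_const
    rw [hkey]
    have h4 : ((1 / 4 : ℂ) * ∫ v in box 2, star x ⬝ᵥ ((addRad a (y + Pi.single 3 v)).mulVec x)).re
        = (1 / 4) * ∫ v in box 2, g v := by
      have h5 : (∫ v in box 2, star x ⬝ᵥ ((addRad a (y + Pi.single 3 v)).mulVec x)).re =
          ∫ v in box 2, g v := by
        have := Complex.reCLM.integral_comp_comm (integrableOn_box hgc0)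
        exact this.symm
      rw [← h5]
      simp
    rw [h4]
    have hgi : IntegrableOn g (box 2) :=
      (hgc.continuousOn.integrableOn_compact isCompact_cbox).mono_set box_subset_cbox
    have : 0 < ∫ v in box 2, g v := by
      rw [setIntegral_pos_iff_support_of_nonneg_ae
        (Filter.Eventually.of_forall fun v => (hgpos v).le) hgi]
      have : Function.support g ∩ box 2 = box 2 := by
        rw [Set.inter_eq_right]
        intro v _
        exact (hgpos v).ne'
      rw [this, volume_box]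
      norm_num
    positivity

end

section

open scoped ContDiff Topology ComplexOrder
open MeasureTheory

lemma aflow_shift (a : V 4 → Matrix (Fin 4) (Fin 4) ℂ) (v : ℂ) (y : V 4) :
    aflow a 0 v 1 y = a (y + Pi.single 3 v) := by
  have hex : ∀ i, ex 0 1 i = 1 := by
    intro i
    unfold ex
    split_ifs <;> simp
  have hphi : phi 0 v 1 y = y + Pi.single 3 v := by
    ext i
    unfold phi
    rw [hex, Pi.add_apply]
    by_cases h : i = 3
    · subst h; simp
    · simp [h]
  ext j k
  unfold aflow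
  rw [hphi]
  simp [hex]

theorem MM_tav {a b : V 4 → Matrix (Fin 4) (Fin 4) ℂ} (ha : BForm a) (hb : BForm b)
    (hp : ∀ y ∈ Om, (addRad b y).PosDef) {k : ℝ → ℝ} (hk : IsWeight k) :
    MM k b (tav a) = MM k b a := by
  obtain ⟨c, hc0, hc⟩ := IsWeight.wt_large hk
  set g : V 4 × ℂ → ℂ := fun p => (wt k p.1 : ℂ) *
    ∑ j, ∑ q, (addRad b p.1).adjugate q j * a (p.1 + Pi.single 3 p.2) j q with hg
  have hgs : ContDiff ℝ 1 g := by
    apply contDiff_wt_mul hk (pr := Prod.fst) contDiff_fst
    apply ContDiffOn.sum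
    intro j _
    apply ContDiffOn.sum
    intro q _
    have h1 : ContDiffOn ℝ 1 (fun p : V 4 × ℂ => (addRad b p.1).adjugate q j)
        (Prod.fst ⁻¹' Om) :=
      (contDiffOn_adj (fun i j => hb.smooth_addRad i j) q j).comp contDiff_fst.contDiffOn
        (fun p hp => hp)
    exact h1.mul (contDiffOn_shift ha j q)
  have hint : Integrable g ((volume.restrict D2).prod (volume.restrict (box 2))) := by
    rw [Measure.prod_restrict]
    have h1 : IntegrableOn g (Kc c ×ˢ cbox) ((volume : Measure (V 4)).prod (volume : Measure ℂ)) :=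
      hgs.continuous.continuousOn.integrableOn_compact ((isCompact_Kc c).prod isCompact_cbox)
    have h2 : IntegrableOn g ((D2 ∩ {y | E3 y ≤ c}) ×ˢ box 2)
        ((volume : Measure (V 4)).prod (volume : Measure ℂ)) :=
      h1.mono_set (Set.prod_mono D2_subset_Kc box_subset_cbox)
    refine h2.of_forall_sdiff_eq_zero (measurableSet_D2.prod (measurableSet_box 2)) ?_
    rintro ⟨y, v⟩ ⟨⟨hy1, hv⟩, hy2⟩
    have : c < E3 y := by
      by_contra h
      push Not at h
      exact hy2 ⟨⟨hy1, h⟩, hv⟩
    simp only [hg]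
    rw [hc y this]
    simp
  have hswap := integral_integral_swap (μ := (volume : Measure (V 4)).restrict D2)
    (ν := (volume : Measure ℂ).restrict (box 2)) (f := fun y v => g (y, v)) hint
  have h1 : ∀ v, ∫ y in D2, g (y, v) = MM k b a := by
    intro v
    rw [← flow_inv ha hb hp hk 0 v 1]
    unfold MM
    simp only [aflow_shift, hg]
  have h2 : ∀ y, ∫ v in box 2, g (y, v) = 4 * ((wt k y : ℂ) *
      ∑ j, ∑ q, (addRad b y).adjugate q j * tav a y j q) := by
    intro y
    by_cases hy : y ∈ Om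
    · simp only [hg]
      rw [integral_const_mul, integral_finsetSum]
      · have h3 : ∀ j, ∫ v in box 2, ∑ q, (addRad b y).adjugate q j * a (y + Pi.single 3 v) j q =
            4 * ∑ q, (addRad b y).adjugate q j * tav a y j q := by
          intro j
          rw [integral_finsetSum, Finset.mul_sum]
          · refine Finset.sum_congr rfl fun q _ => ?_
            rw [integral_const_mul, tav_apply]
            ring
          · intro q _
            exact (integrableOn_box (ha.continuous_shift hy j q)).const_mul _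
        rw [Finset.sum_congr rfl fun j _ => h3 j, ← Finset.mul_sum]
        ring
      · intro j _
        apply integrableOn_box
        exact continuous_finsetSum _ fun q _ => continuous_const.mul (ha.continuous_shift hy j q)
    · simp only [hg]
      rw [wt_of_notMem k hy]
      simp
  simp only [h1, h2] at hswap
  rw [integral_const_mul, integral_box_const] at hswap
  unfold MM at hswap ⊢
  exact mul_left_cancel₀ (by norm_num) hswap

/-- the shell functional, smooth weight -/
def SH (k : ℝ → ℝ) (a : V 4 → Matrix (Fin 4) (Fin 4) ℂ) : ℂ :=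
  ∫ y in D2, (wt k y : ℂ) * (addRad a y).det

lemma det_real {M : Matrix (Fin 4) (Fin 4) ℂ} (hM : M.IsHermitian) : M.det = (M.det.re : ℂ) := by
  have h1 : star M.det = M.det := by
    rw [← Matrix.det_conjTranspose, hM]
  apply Complex.ext
  · simp
  · have := congrArg Complex.im h1
    simp at this
    simp
    linarith

theorem shell_eq {a : V 4 → Matrix (Fin 4) (Fin 4) ℂ} (ha : BForm a) (k : ℝ → ℝ) :
    ((shell k a : ℝ) : ℂ) = SH k a := by
  unfold shell SH
  have hm : MeasurableSet {y : V 4 | 0 < E3 y ∧ y 3 ∈ box 2} := by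
    have h1 : MeasurableSet Om := isOpen_Om.measurableSet
    exact h1.inter measurableSet_D2
  rw [← integral_complex_ofReal, ← integral_indicator hm, ← integral_indicator measurableSet_D2]
  congr 1
  ext y
  by_cases hy : y ∈ D2
  · rw [Set.indicator_of_mem hy]
    by_cases hO : y ∈ Om
    · rw [Set.indicator_of_mem (show y ∈ {y : V 4 | 0 < E3 y ∧ y 3 ∈ box 2} from ⟨hO, hy⟩)]
      have : wt k y = k (Real.log (E3 y)) := if_pos hO
      rw [this, det_real (addRad_herm ha hO)]
      push_cast
      rfl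
    · rw [Set.indicator_of_notMem (fun h => hO h.1), wt_of_notMem k hO]
      simp
  · rw [Set.indicator_of_notMem hy, Set.indicator_of_notMem (fun h => hy h.2)]

end

section

open scoped ContDiff Topology ComplexOrder
open MeasureTheory

/-- convex combination -/
def lin (x : ℝ) (a0 a1 : V 4 → Matrix (Fin 4) (Fin 4) ℂ) (y : V 4) : Matrix (Fin 4) (Fin 4) ℂ :=
  Matrix.of fun j k => ((1 - x : ℝ) : ℂ) * a0 y j k + ((x : ℝ) : ℂ) * a1 y j k

lemma lin_apply (x : ℝ) (a0 a1 : V 4 → Matrix (Fin 4) (Fin 4) ℂ) (y : V 4) (j k : Fin 4) :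
    lin x a0 a1 y j k = ((1 - x : ℝ) : ℂ) * a0 y j k + ((x : ℝ) : ℂ) * a1 y j k := rfl

lemma addRad_lin (x : ℝ) (a0 a1 : V 4 → Matrix (Fin 4) (Fin 4) ℂ) (y : V 4) (j k : Fin 4) :
    addRad (lin x a0 a1) y j k =
      ((1 - x : ℝ) : ℂ) * addRad a0 y j k + ((x : ℝ) : ℂ) * addRad a1 y j k := by
  simp only [addRad_apply, lin_apply]
  push_cast
  ring

theorem BForm.lin {a0 a1 : V 4 → Matrix (Fin 4) (Fin 4) ℂ} (h0 : BForm a0) (h1 : BForm a1)
    (x : ℝ) : BForm (lin x a0 a1) where
  smooth j k := by
    simp only [lin_apply]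
    exact (contDiffOn_const.mul (h0.smooth j k)).add (contDiffOn_const.mul (h1.smooth j k))
  herm y hy := by
    ext j k
    have hst : ∀ x : ℝ, star (x : ℂ) = (x : ℂ) := fun x => by simp
    rw [Matrix.conjTranspose_apply, lin_apply, lin_apply, star_add, star_mul', star_mul',
      herm_apply (h0.herm y hy), herm_apply (h1.herm y hy), hst, hst]
  closed y hy i j k := by
    simp only [lin_apply]
    have d0 : ∀ j k, DifferentiableAt ℝ (fun w => a0 w j k) y := h0.differentiableAt hy
    have d1 : ∀ j k, DifferentiableAt ℝ (fun w => a1 w j k) y := h1.differentiableAt hy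
    have e0 : ∀ j k, DifferentiableAt ℝ (fun w => ((1 - x : ℝ) : ℂ) * a0 w j k) y :=
      fun j k => (d0 j k).const_mul _
    have e1 : ∀ j k, DifferentiableAt ℝ (fun w => ((x : ℝ) : ℂ) * a1 w j k) y :=
      fun j k => (d1 j k).const_mul _
    rw [dZ_add (e0 _ _) (e1 _ _), dZ_add (e0 _ _) (e1 _ _), dZ_const_mul (d0 _ _),
      dZ_const_mul (d1 _ _), dZ_const_mul (d0 _ _), dZ_const_mul (d1 _ _),
      h0.closed y hy i j k, h1.closed y hy i j k]
  kernel y hy k := by
    have e0 := h0.kernel y hy k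
    have e1 := h1.kernel y hy k
    have : ∑ j : Fin 3, y j.castSucc * KS.lin x a0 a1 y j.castSucc k =
        ((1 - x : ℝ) : ℂ) * ∑ j : Fin 3, y j.castSucc * a0 y j.castSucc k +
        ((x : ℝ) : ℂ) * ∑ j : Fin 3, y j.castSucc * a1 y j.castSucc k := by
      rw [Finset.mul_sum, Finset.mul_sum, ← Finset.sum_add_distrib]
      refine Finset.sum_congr rfl fun j _ => ?_
      rw [lin_apply]
      ring
    rw [this, e0, e1]
    ring
  per y hy p q := by
    ext j k
    rw [lin_apply, lin_apply, h0.per y hy, h1.per y hy]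

theorem Cone1.lin {a0 a1 : V 4 → Matrix (Fin 4) (Fin 4) ℂ} (h0 : Cone1 a0) (h1 : Cone1 a1)
    {x : ℝ} (hx : x ∈ Set.Icc (0 : ℝ) 1) : Cone1 (lin x a0 a1) where
  toBForm := h0.toBForm.lin h1.toBForm x
  hom y hy c hc j k := by
    rw [lin_apply, lin_apply, h0.hom y hy c hc, h1.hom y hy c hc]
    ring
  pos y hy := by
    refine posDef_of_re (addRad_herm (h0.toBForm.lin h1.toBForm x) hy) fun z hz => ?_
    have e : star z ⬝ᵥ ((addRad (KS.lin x a0 a1) y).mulVec z) =
        ((1 - x : ℝ) : ℂ) * (star z ⬝ᵥ ((addRad a0 y).mulVec z)) +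
        ((x : ℝ) : ℂ) * (star z ⬝ᵥ ((addRad a1 y).mulVec z)) := by
      simp only [dotProduct, Matrix.mulVec, Finset.mul_sum, ← Finset.sum_add_distrib]
      refine Finset.sum_congr rfl fun j _ => Finset.sum_congr rfl fun k _ => ?_
      rw [addRad_lin]
      ring
    rw [e]
    have p0 := re_pos_of_posDef (h0.pos y hy) hz
    have p1 := re_pos_of_posDef (h1.pos y hy) hz
    rw [Complex.add_re, Complex.re_ofReal_mul, Complex.re_ofReal_mul]
    rcases lt_or_eq_of_le hx.2 with h | h
    · have : 0 < (1 - x) := by linarith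
      have h2 := hx.1
      have h3 := mul_pos this p0
      have h4 := mul_nonneg h2 p1.le
      linarith
    · rw [h]
      simpa using p1

lemma integrable_MM {a b : V 4 → Matrix (Fin 4) (Fin 4) ℂ} (ha : BForm a) (hb : BForm b)
    {k : ℝ → ℝ} (hk : IsWeight k) :
    IntegrableOn (fun y => (wt k y : ℂ) * ∑ j, ∑ q, (addRad b y).adjugate q j * a y j q) D2 := by
  obtain ⟨c, hc0, hc⟩ := IsWeight.wt_large hk
  refine integrableOn_D2 (c := c) ?_ ?_
  · have : ContDiff ℝ 1 (fun y => (wt k y : ℂ) *
        ∑ j, ∑ q, (addRad b y).adjugate q j * a y j q) := by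
      apply contDiff_wt_mul hk (pr := id) contDiff_id
      apply ContDiffOn.sum
      intro j _
      apply ContDiffOn.sum
      intro q _
      exact (contDiffOn_adj (fun i j => hb.smooth_addRad i j) q j).mul (ha.smooth j q)
    exact this.continuous
  · intro y hy
    rw [hc y hy]
    simp

theorem SH_path {a0 a1 : V 4 → Matrix (Fin 4) (Fin 4) ℂ} (h0 : Cone1 a0) (h1 : Cone1 a1)
    {k : ℝ → ℝ} (hk : IsWeight k) (hMM : ∀ b, Cone1 b → MM k b a1 = MM k b a0) :
    SH k a1 = SH k a0 := by
  obtain ⟨c, hc0, hc⟩ := IsWeight.wt_large hk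
  set Φ : ℝ × V 4 → ℂ := fun p => (wt k p.2 : ℂ) * (addRad (lin p.1 a0 a1) p.2).det with hΦ
  have hΦs : ContDiff ℝ 1 Φ := by
    apply contDiff_wt_mul hk (pr := Prod.snd) contDiff_snd
    apply contDiffOn_det
    intro i j
    simp only [addRad_lin]
    have hsnd : ∀ {a : V 4 → Matrix (Fin 4) (Fin 4) ℂ}, BForm a →
        ContDiffOn ℝ 1 (fun p : ℝ × V 4 => addRad a p.2 i j) (Prod.snd ⁻¹' Om) := by
      intro a ha
      exact (ha.smooth_addRad i j).comp contDiff_snd.contDiffOn (fun p hp => hp)
    have hx0 : ContDiff ℝ 1 (fun p : ℝ × V 4 => ((1 - p.1 : ℝ) : ℂ)) :=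
      Complex.ofRealCLM.contDiff.comp (contDiff_const.sub contDiff_fst)
    have hx1 : ContDiff ℝ 1 (fun p : ℝ × V 4 => ((p.1 : ℝ) : ℂ)) :=
      Complex.ofRealCLM.contDiff.comp contDiff_fst
    exact (hx0.contDiffOn.mul (hsnd h0.toBForm)).add (hx1.contDiffOn.mul (hsnd h1.toBForm))
  have hF : ∀ x : ℝ, SH k (lin x a0 a1) = ∫ y in D2 ∩ {y | E3 y ≤ c}, Φ (x, y) := by
    intro x
    apply setIntegral_cut
    intro y hy
    rw [hc y hy]
    simp
  have hder : ∀ x : ℝ, HasDerivAt (fun x => SH k (lin x a0 a1))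
      (MM k (lin x a0 a1) a1 - MM k (lin x a0 a1) a0) x := by
    intro x
    have key := leibniz_deriv (μ := (volume : Measure (V 4))) isOpen_univ hΦs.contDiffOn
      (isCompact_Kc c) (measurableSet_cut c) D2_subset_Kc (U := Set.univ) isOpen_univ
      (Set.subset_univ _) (s := x) (Set.mem_univ _)
    simp only [hF]
    convert key using 1
    have hb := h0.toBForm.lin h1.toBForm x
    unfold MM
    rw [← integral_sub (integrable_MM h1.toBForm hb hk) (integrable_MM h0.toBForm hb hk)]
    rw [setIntegral_cut (c := c)]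
    · congr 1
      ext y
      have g1 : HasDerivAt (fun x => Φ (x, y)) (fderiv ℝ Φ (x, y) (1, 0)) x := by
        have hg : HasFDerivAt Φ (fderiv ℝ Φ (x, y)) ((fun s : ℝ => (s, y)) x) :=
          (hΦs.differentiable one_ne_zero _).hasFDerivAt
        have hd : HasDerivAt (fun s : ℝ => (s, y)) ((1 : ℝ), (0 : V 4)) x :=
          (hasDerivAt_id x).prodMk (hasDerivAt_const x y)
        exact HasFDerivAt.comp_hasDerivAt x hg hd
      have g2 : HasDerivAt (fun x => (wt k y : ℂ) * (addRad (lin x a0 a1) y).det)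
          ((wt k y : ℂ) * ∑ p, ∑ q, (addRad (lin x a0 a1) y).adjugate q p *
            (a1 y p q - a0 y p q)) x := by
        apply HasDerivAt.const_mul
        refine hasDerivAt_det (b := fun x => addRad (lin x a0 a1) y)
          (b' := Matrix.of fun p q => a1 y p q - a0 y p q) fun p q => ?_
        simp only [addRad_lin, Matrix.of_apply]
        have f1 : HasDerivAt (fun x : ℝ => ((1 - x : ℝ) : ℂ)) (-1) x := by
          have := ((hasDerivAt_const x (1 : ℝ)).sub (hasDerivAt_id x)).ofReal_comp
          simpa using this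
        have f2 : HasDerivAt (fun x : ℝ => ((x : ℝ) : ℂ)) 1 x := by
          have := (hasDerivAt_id x).ofReal_comp
          simpa using this
        have f3 := (f1.mul_const (addRad a0 y p q)).add (f2.mul_const (addRad a1 y p q))
        have f4 : a1 y p q - a0 y p q = -1 * addRad a0 y p q + 1 * addRad a1 y p q := by
          rw [addRad_apply, addRad_apply]
          ring
        rw [f4]
        exact f3
      rw [g1.unique g2, ← mul_sub]
      congr 1
      rw [← Finset.sum_sub_distrib]
      refine Finset.sum_congr rfl fun p _ => ?_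
      rw [← Finset.sum_sub_distrib]
      refine Finset.sum_congr rfl fun q _ => ?_
      ring
    · intro y hy
      rw [hc y hy]
      simp
  have hcont : ContinuousOn (fun x => SH k (lin x a0 a1)) (Set.Icc 0 1) :=
    fun x _ => (hder x).continuousAt.continuousWithinAt
  have hconst := constant_of_has_deriv_right_zero hcont (fun x hx => by
    have h2 := hder x
    rw [hMM _ (h0.lin h1 ⟨hx.1, hx.2.le⟩), sub_self] at h2
    exact h2.hasDerivWithinAt) 1 ⟨zero_le_one, le_rfl⟩
  have e0 : lin 0 a0 a1 = a0 := by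
    ext y j k
    rw [lin_apply]
    simp
  have e1 : lin 1 a0 a1 = a1 := by
    ext y j k
    rw [lin_apply]
    simp
  rw [e0, e1] at hconst
  exact hconst

theorem SH_tav {a : V 4 → Matrix (Fin 4) (Fin 4) ℂ} (ha : Cone1 a) {k : ℝ → ℝ}
    (hk : IsWeight k) : SH k (tav a) = SH k a :=
  SH_path ha ha.tav hk fun _ hb => MM_tav ha.toBForm hb.toBForm hb.pos hk

end

section

open scoped ContDiff Topology ComplexOrder
open MeasureTheory

/-- product form: the block of the first three coordinates of `a`, plus `1` -/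
def pc (a : V 4 → Matrix (Fin 4) (Fin 4) ℂ) (y : V 4) : Matrix (Fin 4) (Fin 4) ℂ :=
  Matrix.of fun j k => if j = 3 ∨ k = 3 then (if j = k then 1 else 0) else a y j k

structure PCone (c : V 4 → Matrix (Fin 4) (Fin 4) ℂ) : Prop extends Cone1 c where
  inv : ∀ y ∈ Om, ∀ v : ℂ, c (y + Pi.single 3 v) = c y
  c33 : ∀ y ∈ Om, c y 3 3 = 1
  c3k : ∀ y ∈ Om, ∀ k, k ≠ 3 → c y 3 k = 0

lemma pc_apply_ne {a : V 4 → Matrix (Fin 4) (Fin 4) ℂ} {y : V 4} {j k : Fin 4} (hj : j ≠ 3)
    (hk : k ≠ 3) : pc a y j k = a y j k := by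
  unfold pc
  simp [hj, hk]

lemma pc_apply_three_left {a : V 4 → Matrix (Fin 4) (Fin 4) ℂ} {y : V 4} (k : Fin 4) :
    pc a y 3 k = if k = 3 then 1 else 0 := by
  unfold pc
  by_cases h : k = 3
  · simp [h]
  · simp [h, Ne.symm h]

lemma pc_apply_three_right {a : V 4 → Matrix (Fin 4) (Fin 4) ℂ} {y : V 4} (j : Fin 4) :
    pc a y j 3 = if j = 3 then 1 else 0 := by
  unfold pc
  by_cases h : j = 3
  · simp [h]
  · simp [h]

lemma dZ_three_of_inv {f : V 4 → ℂ} {y : V 4} (hf : DifferentiableAt ℝ f y)
    (h : ∀ c : ℂ, f (y + Pi.single 3 c) = f y) : dZ 3 f y = 0 := by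
  have key : ∀ c : ℂ, fderiv ℝ f y (Pi.single 3 c) = 0 := by
    intro c
    have h1 : HasDerivAt (fun s : ℝ => y + s • (Pi.single 3 c : V 4)) (Pi.single 3 c) 0 := by
      have := ((hasDerivAt_id (0 : ℝ)).smul_const (Pi.single 3 c : V 4)).const_add y
      simpa using this
    have h2 : HasFDerivAt f (fderiv ℝ f y) ((fun s : ℝ => y + s • (Pi.single 3 c : V 4)) 0) := by
      simp only [zero_smul, add_zero]
      exact hf.hasFDerivAt
    have h3 := HasFDerivAt.comp_hasDerivAt 0 h2 h1
    have h4 : (f ∘ fun s : ℝ => y + s • (Pi.single 3 c : V 4)) = fun _ => f y := by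
      ext s
      simp only [Function.comp_apply]
      have : s • (Pi.single 3 c : V 4) = Pi.single 3 (s • c) := by
        rw [Pi.single_smul]
      rw [this, h]
    rw [h4] at h3
    exact h3.unique (hasDerivAt_const 0 (f y))
  unfold dZ
  rw [key, key]
  simp

theorem BForm.pc {a : V 4 → Matrix (Fin 4) (Fin 4) ℂ} (ha : BForm a)
    (hinv : ∀ y ∈ Om, ∀ v : ℂ, a (y + Pi.single 3 v) = a y) : BForm (pc a) where
  smooth j k := by
    unfold KS.pc
    simp only [Matrix.of_apply]
    by_cases h : j = 3 ∨ k = 3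
    · simp only [h, if_true]
      exact contDiffOn_const
    · simp only [h, if_false]
      exact ha.smooth j k
  herm y hy := by
    ext j k
    rw [Matrix.conjTranspose_apply]
    by_cases hj : j = 3
    · subst hj
      rw [pc_apply_three_left, pc_apply_three_right]
      split_ifs <;> simp
    · by_cases hk : k = 3
      · subst hk
        rw [pc_apply_three_left, pc_apply_three_right]
        split_ifs <;> simp
      · rw [pc_apply_ne hj hk, pc_apply_ne hk hj, herm_apply (ha.herm y hy)]
  closed y hy i j k := by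
    by_cases hk : k = 3
    · subst hk
      simp only [pc_apply_three_right]
      rw [dZ_const, dZ_const]
    · have hne : ∀ j, j ≠ 3 → (fun w => KS.pc a w j k) = fun w => a w j k := by
        intro j hj
        ext w
        exact pc_apply_ne hj hk
      have h3 : (fun w => KS.pc a w 3 k) = fun _ => 0 := by
        ext w
        rw [pc_apply_three_left, if_neg hk]
      have hz : ∀ j, dZ 3 (fun w => a w j k) y = 0 := fun j =>
        dZ_three_of_inv (ha.differentiableAt hy j k) (fun c => by rw [hinv y hy c])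
      by_cases hj : j = 3
      · subst hj
        by_cases hi : i = 3
        · subst hi; rfl
        · rw [h3, hne i hi, dZ_const, hz]
      · by_cases hi : i = 3
        · subst hi
          rw [h3, hne j hj, dZ_const, hz]
        · rw [hne i hi, hne j hj]
          exact ha.closed y hy i j k
  kernel y hy k := by
    have hj : ∀ j : Fin 3, (j.castSucc : Fin 4) ≠ 3 := by
      intro j h
      have := congrArg Fin.val h
      simp at this
      omega
    by_cases hk : k = 3
    · subst hk
      apply Finset.sum_eq_zero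
      intro j _
      rw [pc_apply_three_right, if_neg (hj j), mul_zero]
    · rw [← ha.kernel y hy k]
      refine Finset.sum_congr rfl fun j _ => ?_
      rw [pc_apply_ne (hj j) hk]
  per y hy p q := by
    unfold KS.pc
    rw [ha.per y hy]

lemma sc_three (c : ℂ) : sc c 3 = 1 := by simp [sc]

theorem PCone.pc {a : V 4 → Matrix (Fin 4) (Fin 4) ℂ} (ha : Cone1 a)
    (hinv : ∀ y ∈ Om, ∀ v : ℂ, a (y + Pi.single 3 v) = a y) : PCone (pc a) where
  toBForm := ha.toBForm.pc hinv
  hom y hy c hc j k := by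
    by_cases hj : j = 3
    · subst hj
      rw [pc_apply_three_left, pc_apply_three_left, sc_three]
      by_cases hk : k = 3
      · subst hk; simp [sc_three]
      · simp [hk]
    · by_cases hk : k = 3
      · subst hk
        rw [pc_apply_three_right, pc_apply_three_right]
        simp [hj]
      · rw [pc_apply_ne hj hk, pc_apply_ne hj hk]
        exact ha.hom y hy c hc j k
  pos y hy := by
    refine posDef_of_re (addRad_herm (ha.toBForm.pc hinv) hy) fun x hx => ?_
    set x' : Fin 4 → ℂ := ![x 0, x 1, x 2, 0] with hx'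
    have hr3 : rad y 3 = 0 := by simp [rad]
    have e : star x ⬝ᵥ ((addRad (KS.pc a) y).mulVec x) =
        star x' ⬝ᵥ ((addRad a y).mulVec x') + star (x 3) * x 3 := by
      simp only [dotProduct, Matrix.mulVec, Fin.sum_univ_four, addRad_apply, hr3, hx',
        Pi.star_apply, pc_apply_three_left, pc_apply_three_right]
      have n0 : (0 : Fin 4) ≠ 3 := by decide
      have n1 : (1 : Fin 4) ≠ 3 := by decide
      have n2 : (2 : Fin 4) ≠ 3 := by decide
      rw [pc_apply_ne n0 n0, pc_apply_ne n0 n1, pc_apply_ne n0 n2, pc_apply_ne n1 n0,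
        pc_apply_ne n1 n1, pc_apply_ne n1 n2, pc_apply_ne n2 n0, pc_apply_ne n2 n1,
        pc_apply_ne n2 n2]
      simp
    rw [e, Complex.add_re]
    have h3 : (star (x 3) * x 3).re = Complex.normSq (x 3) := by
      simp [Complex.normSq_apply]
    rw [h3]
    by_cases h : x' = 0
    · have hx3 : x 3 ≠ 0 := by
        intro h0
        apply hx
        ext i
        have := congrFun h i
        fin_cases i
        · simpa [hx'] using this
        · simpa [hx'] using this
        · simpa [hx'] using this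
        · exact h0
      rw [h]
      simp only [Matrix.mulVec_zero, dotProduct_zero, Complex.zero_re, zero_add]
      exact Complex.normSq_pos.2 hx3
    · have := re_pos_of_posDef (ha.pos y hy) h
      have h4 := Complex.normSq_nonneg (x 3)
      linarith
  inv y hy v := by
    unfold KS.pc
    rw [hinv y hy]
  c33 y _ := by simp [pc_apply_three_left]
  c3k y _ k hk := by simp [pc_apply_three_left, hk]

/-- the determinant of a matrix whose last row is `e₃` -/
lemma det_row3 {M : Matrix (Fin 4) (Fin 4) ℂ} (h : ∀ k, M 3 k = if k = 3 then 1 else 0) :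
    M.det = (M.submatrix (Fin.succAbove 3) (Fin.succAbove 3)).det := by
  rw [Matrix.det_succ_row M 3, Finset.sum_eq_single 3]
  · rw [h]
    simp
    norm_num
  · intro k _ hk
    rw [h, if_neg hk]
    ring
  · simp

lemma det_pc {a : V 4 → Matrix (Fin 4) (Fin 4) ℂ} {y : V 4} :
    (addRad (pc a) y).det = (addRad a y).adjugate 3 3 := by
  have hr3 : rad y 3 = 0 := by simp [rad]
  rw [Matrix.adjugate_apply, det_row3, det_row3]
  · congr 1
    ext i j
    have hi : Fin.succAbove (3 : Fin 4) i ≠ 3 := Fin.succAbove_ne 3 i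
    have hj : Fin.succAbove (3 : Fin 4) j ≠ 3 := Fin.succAbove_ne 3 j
    simp only [Matrix.submatrix_apply]
    rw [Matrix.updateRow_ne hi, addRad_apply, addRad_apply, pc_apply_ne hi hj]
  · intro k
    rw [Matrix.updateRow_self, Pi.single_apply]
  · intro k
    rw [addRad_apply, pc_apply_three_left, hr3, zero_mul, add_zero]

/-- Fischer's inequality -/
theorem fischer {b : Matrix (Fin 4) (Fin 4) ℂ} (hb : b.PosDef) :
    b.det.re ≤ (b 3 3).re * (b.adjugate 3 3).re := by
  have hd : 0 < b.det := hb.det_pos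
  have hd' : 0 < b.det.re ∧ b.det.im = 0 := by
    rw [Complex.lt_def] at hd
    simpa [eq_comm] using hd
  set w : Fin 4 → ℂ := fun i => b.adjugate i 3 with hw
  have hH : b.IsHermitian := hb.isHermitian
  have hA : b.adjugate.IsHermitian := hH.adjugate
  have hbw : b.mulVec w = Pi.single 3 b.det := by
    ext i
    have := congrFun (congrFun (Matrix.mul_adjugate b) i) 3
    rw [Matrix.mul_apply] at this
    rw [Matrix.mulVec, dotProduct, this, Matrix.smul_apply, Matrix.one_apply, Pi.single_apply]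
    split_ifs <;> simp
  have hwne : w ≠ 0 := by
    intro h
    rw [h, Matrix.mulVec_zero] at hbw
    have := congrFun hbw 3
    simp at this
    rw [← this] at hd
    simp at hd
  have hAr : ((b.adjugate 3 3).im = 0) := by
    have := congrArg Complex.im (herm_apply hA 3 3)
    simp at this
    linarith
  set A : ℝ := (b.adjugate 3 3).re with hAdef
  have hA33 : b.adjugate 3 3 = (A : ℂ) := by
    apply Complex.ext
    · simp [hAdef]
    · simp [hAr]
  have q1 := re_pos_of_posDef hb hwne
  have e1 : (star w ⬝ᵥ (b.mulVec w)).re = A * b.det.re := by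
    rw [hbw, dotProduct_single]
    simp only [Pi.star_apply, hw, hA33]
    simp
  rw [e1] at q1
  have hApos : 0 < A := by
    by_contra h
    push Not at h
    nlinarith [hd'.1]
  -- z = A e3 - w
  set z : Fin 4 → ℂ := (A : ℂ) • Pi.single 3 (1 : ℂ) - w with hz
  have q2 : 0 ≤ (star z ⬝ᵥ (b.mulVec z)).re := by
    have := hb.posSemidef.dotProduct_mulVec_nonneg z
    rw [Complex.le_def] at this
    simpa using this.1
  have hb33 : (b 3 3).im = 0 := by
    have := congrArg Complex.im (herm_apply hH 3 3)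
    simp at this
    linarith
  have e2 : (star z ⬝ᵥ (b.mulVec z)).re = A * (A * (b 3 3).re - b.det.re) := by
    have h1 : b.mulVec (Pi.single 3 (1 : ℂ)) = fun i => b i 3 := by
      ext i
      simp [Matrix.mulVec, dotProduct_single]
    have h2 : star w ⬝ᵥ (fun i => b i 3) = b.det := by
      have h3 : star w ⬝ᵥ (fun i => b i 3) = ∑ i, b.adjugate 3 i * b i 3 := by
        simp only [dotProduct, Pi.star_apply, hw]
        refine Finset.sum_congr rfl fun i _ => ?_
        rw [herm_apply hA]
      rw [h3, ← Matrix.mul_apply, Matrix.adjugate_mul]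
      simp
    rw [hz, Matrix.mulVec_sub, Matrix.mulVec_smul, h1, hbw, star_sub, star_smul]
    have hst : star (A : ℂ) = (A : ℂ) := by simp
    have hs1 : star (Pi.single 3 (1 : ℂ) : Fin 4 → ℂ) = Pi.single 3 1 := by
      ext i
      rw [Pi.star_apply, Pi.single_apply]
      split_ifs <;> simp
    rw [hst, hs1]
    simp only [sub_dotProduct, dotProduct_sub, smul_dotProduct, dotProduct_smul,
      single_dotProduct, dotProduct_single, h2, smul_eq_mul, one_mul]
    have hw3 : star (w 3) = (A : ℂ) := by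
      simp only [hw, hA33]; simp
    have hz3 : ((A : ℂ) • (Pi.single 3 (1 : ℂ) : Fin 4 → ℂ) - star w) 3 = 0 := by
      rw [Pi.sub_apply, Pi.smul_apply, Pi.single_eq_same, Pi.star_apply, hw3]
      simp
    rw [hz3]
    have hb33' : b 3 3 = ((b 3 3).re : ℂ) := by
      apply Complex.ext <;> simp [hb33]
    have hdd : b.det = ((b.det.re : ℝ) : ℂ) := by
      apply Complex.ext <;> simp [hd'.2]
    rw [hb33', hdd]
    simp only [Complex.sub_re, Complex.mul_re, Complex.ofReal_re, Complex.ofReal_im, mul_zero,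
      sub_zero, zero_mul]
  rw [e2] at q2
  have q3 := nonneg_of_mul_nonneg_right q2 hApos
  rw [hAdef] at q3 ⊢
  linarith [mul_comm (b 3 3).re (b.adjugate 3 3).re]

end

section

open scoped ContDiff Topology ComplexOrder
open MeasureTheory

theorem shell_real (k : ℝ → ℝ) (a : V 4 → Matrix (Fin 4) (Fin 4) ℂ) :
    shell k a = ∫ y in D2, wt k y * (addRad a y).det.re := by
  unfold shell
  have hm : MeasurableSet {y : V 4 | 0 < E3 y ∧ y 3 ∈ box 2} := by
    have h1 : MeasurableSet Om := isOpen_Om.measurableSet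
    exact h1.inter measurableSet_D2
  rw [← integral_indicator hm, ← integral_indicator measurableSet_D2]
  congr 1
  ext y
  by_cases hy : y ∈ D2
  · rw [Set.indicator_of_mem hy]
    by_cases hO : y ∈ Om
    · rw [Set.indicator_of_mem (show y ∈ {y : V 4 | 0 < E3 y ∧ y 3 ∈ box 2} from ⟨hO, hy⟩)]
      have : wt k y = k (Real.log (E3 y)) := if_pos hO
      rw [this]
    · rw [Set.indicator_of_notMem (fun h => hO h.1), wt_of_notMem k hO]
      simp
  · rw [Set.indicator_of_notMem hy, Set.indicator_of_notMem (fun h => hy h.2)]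

lemma contDiff_wt_re {k : ℝ → ℝ} (hk : IsWeight k) {f : V 4 → ℂ} (hf : ContDiffOn ℝ 1 f Om) :
    ContDiff ℝ 1 (fun y => wt k y * (f y).re) := by
  have h := contDiff_wt_mul hk (pr := id) contDiff_id hf
  have h2 : ContDiff ℝ 1 (fun y => ((wt k y : ℂ) * f y).re) := Complex.reCLM.contDiff.comp h
  have e : (fun y => ((wt k y : ℂ) * f y).re) = fun y => wt k y * (f y).re := by
    ext y
    rw [Complex.re_ofReal_mul]
  rw [← e]
  exact h2

lemma integrable_wt_re {k : ℝ → ℝ} (hk : IsWeight k) {f : V 4 → ℂ} (hf : ContDiffOn ℝ 1 f Om) :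
    IntegrableOn (fun y => wt k y * (f y).re) D2 := by
  obtain ⟨c, hc0, hc⟩ := IsWeight.wt_large hk
  have h := contDiff_wt_mul hk (pr := id) contDiff_id hf
  have h2 : IntegrableOn (fun y => (wt k y : ℂ) * f y) D2 := by
    refine integrableOn_D2 (c := c) h.continuous ?_
    intro y hy
    rw [hc y hy]
    simp
  have h3 := h2.re
  have e : (fun y => RCLike.re ((wt k y : ℂ) * f y)) = fun y => wt k y * (f y).re := by
    ext y
    simp
  rw [e] at h3
  exact h3

lemma addRad_33 {a : V 4 → Matrix (Fin 4) (Fin 4) ℂ} {y : V 4} : addRad a y 3 3 = a y 3 3 := by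
  rw [addRad_apply]
  simp [rad]

lemma re_integral_box {f : ℂ → ℂ} (hf : Continuous f) :
    (∫ v in box 2, f v).re = ∫ v in box 2, (f v).re := by
  have := Complex.reCLM.integral_comp_comm (integrableOn_box hf)
  exact this.symm

lemma update_eq_add (y : V 4) (v : ℂ) : Function.update y 3 (v + y 3) = y + Pi.single 3 v := by
  ext i
  by_cases h : i = 3
  · subst h
    simp [add_comm]
  · simp [h]

lemma tav33_le {a : V 4 → Matrix (Fin 4) (Fin 4) ℂ} (ha : BForm a) {α : ℝ}
    (h3 : ∀ y : V 4, 0 < E3 y → ∫ s in box 2, (a (Function.update y 3 s) 3 3).re ≤ 4 * α)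
    {y : V 4} (hy : y ∈ Om) : (tav a y 3 3).re ≤ α := by
  have h := h3 y hy
  have e1 : ∫ v in box 2, a (y + Pi.single 3 v) 3 3 =
      ∫ v in box 2, a (Function.update y 3 v) 3 3 := by
    have := shift_C (G := fun v => a (Function.update y 3 v) 3 3) ?_ (y 3)
    · rw [← this]
      congr 1
      ext v
      rw [update_eq_add]
    · intro v p q
      have e2 : ∀ v : ℂ, Function.update y 3 v = y + Pi.single 3 (v - y 3) := by
        intro v
        rw [← update_eq_add]
        simp
      have e3 : Function.update y 3 (v + (2 * p + 2 * q * Complex.I)) =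
          (y + Pi.single 3 (v - y 3)) + Pi.single 3 (2 * p + 2 * q * Complex.I) := by
        rw [e2, add_assoc, ← Pi.single_add]
        congr 2
        ring
      rw [e3, ha.per _ (add_single_mem hy _), ← e2]
  have hcont : Continuous fun v => a (Function.update y 3 v) 3 3 := by
    have e2 : ∀ v : ℂ, Function.update y 3 v = y + Pi.single 3 (v - y 3) := by
      intro v
      rw [← update_eq_add]
      simp
    simp only [e2]
    exact (ha.continuous_shift hy 3 3).comp (continuous_id.sub continuous_const)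
  rw [tav_apply, e1]
  have e4 : ((1 / 4 : ℂ) * ∫ v in box 2, a (Function.update y 3 v) 3 3).re =
      (1 / 4) * (∫ v in box 2, a (Function.update y 3 v) 3 3).re := by
    have : (1 / 4 : ℂ) = ((1 / 4 : ℝ) : ℂ) := by norm_num
    rw [this, Complex.re_ofReal_mul]
  rw [e4, re_integral_box hcont]
  linarith

theorem shell_le_pc {a : V 4 → Matrix (Fin 4) (Fin 4) ℂ} (ha : Cone1 a) {k : ℝ → ℝ}
    (hk : IsWeight k) {α : ℝ}
    (h3 : ∀ y : V 4, 0 < E3 y → ∫ s in box 2, (a (Function.update y 3 s) 3 3).re ≤ 4 * α) :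
    shell k a ≤ α * shell k (pc (tav a)) := by
  have ht := ha.tav
  have hp : PCone (pc (tav a)) := PCone.pc ht fun y hy v => tav_add_single ha.toBForm hy v
  have e1 : shell k a = shell k (tav a) := by
    have h1 := shell_eq ha.toBForm k
    have h2 := shell_eq ht.toBForm k
    rw [SH_tav ha hk, ← h1] at h2
    exact_mod_cast h2.symm
  rw [e1, shell_real, shell_real, ← integral_const_mul]
  apply integral_mono
  · exact integrable_wt_re hk (contDiffOn_det fun i j => ht.toBForm.smooth_addRad i j)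
  · exact (integrable_wt_re hk (contDiffOn_det
      fun i j => hp.toBForm.smooth_addRad i j)).const_mul α
  · intro y
    by_cases hy : y ∈ Om
    · have f1 := fischer (ht.pos y hy)
      have f2 := tav33_le ha.toBForm h3 hy
      have f3 : 0 < (addRad (pc (tav a)) y).det.re := by
        have := (hp.pos y hy).det_pos
        rw [Complex.lt_def] at this
        simpa using this.1
      rw [det_pc] at f3
      have f4 := wt_nonneg hk y
      change wt k y * (addRad (tav a) y).det.re ≤ α * (wt k y * (addRad (pc (tav a)) y).det.re)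
      rw [det_pc]
      rw [addRad_33] at f1
      calc wt k y * (addRad (tav a) y).det.re
          ≤ wt k y * ((tav a y 3 3).re * ((addRad (tav a) y).adjugate 3 3).re) := by
            gcongr
        _ ≤ wt k y * (α * ((addRad (tav a) y).adjugate 3 3).re) := by
            gcongr
        _ = _ := by ring
    · change wt k y * (addRad (tav a) y).det.re ≤ α * (wt k y * (addRad (pc (tav a)) y).det.re)
      rw [wt_of_notMem k hy]
      simp

/-- `a` itself is positive semidefinite -/
theorem Cone1.psd {a : V 4 → Matrix (Fin 4) (Fin 4) ℂ} (ha : Cone1 a) {y : V 4} (hy : y ∈ Om) :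
    (a y).PosSemidef := by
  refine Matrix.PosSemidef.of_dotProduct_mulVec_nonneg (ha.herm y hy) fun x => ?_
  set t : ℂ := ∑ k, star (rad y k) * x k with ht
  set x' : Fin 4 → ℂ := x - t • cy y with hx'
  have h1 : (a y).mulVec (cy y) = 0 := by
    ext j
    exact ha.toBForm.kernel' hy j
  have h2 : star (cy y) ⬝ᵥ (a y).mulVec x = 0 := by
    have h3 : star (cy y) ⬝ᵥ (a y).mulVec x = star ((a y).mulVec (cy y)) ⬝ᵥ x := by
      rw [Matrix.star_mulVec, (ha.herm y hy).eq, Matrix.dotProduct_mulVec]
    rw [h3, h1]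
    simp
  have e1 : star x ⬝ᵥ (a y).mulVec x = star x' ⬝ᵥ (a y).mulVec x' := by
    rw [hx', Matrix.mulVec_sub, Matrix.mulVec_smul, h1, smul_zero, sub_zero, star_sub, star_smul,
      sub_dotProduct, smul_dotProduct, h2, smul_zero, sub_zero]
  have e2 : ∑ k, star (rad y k) * x' k = 0 := by
    simp only [hx', Pi.sub_apply, Pi.smul_apply, smul_eq_mul, mul_sub, Finset.sum_sub_distrib]
    rw [← ht]
    have : ∑ k, star (rad y k) * (t * cy y k) = t * ∑ k, star (rad y k) * cy y k := by
      rw [Finset.mul_sum]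
      exact Finset.sum_congr rfl fun k _ => by ring
    rw [this, sum_star_rad_cy hy]
    ring
  have e3 : star x' ⬝ᵥ (a y).mulVec x' = star x' ⬝ᵥ (addRad a y).mulVec x' := by
    unfold addRad
    rw [Matrix.add_mulVec, dotProduct_add]
    have : (Matrix.vecMulVec (rad y) (star (rad y))).mulVec x' = 0 := by
      ext j
      simp only [Matrix.mulVec, dotProduct, Matrix.vecMulVec_apply, Pi.star_apply, mul_assoc]
      rw [← Finset.mul_sum, e2, mul_zero]
      rfl
    rw [this]
    simp
  rw [e1, e3]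
  exact (ha.pos y hy).posSemidef.dotProduct_mulVec_nonneg x'

lemma diag_nonneg {M : Matrix (Fin 4) (Fin 4) ℂ} (hM : M.PosSemidef) (i : Fin 4) :
    0 ≤ (M i i).re := by
  have := hM.diag_nonneg (i := i)
  rw [Complex.le_def] at this
  simpa using this.1

end

section

open scoped ContDiff Topology ComplexOrder ENNReal
open MeasureTheory

lemma line_lintegral {f : ℂ → ℝ} (hf : Continuous f) (h0 : ∀ s, 0 ≤ f s) {A : ℝ}
    (h : ∀ K : ℝ, 0 < K → ∫ s in Metric.ball (0 : ℂ) K, f s ≤ A) :
    ∫⁻ s, ENNReal.ofReal (f s) ≤ ENNReal.ofReal A := by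
  have hU : (⋃ n : ℕ, Metric.ball (0 : ℂ) (n + 1)) = Set.univ := by
    rw [Set.eq_univ_iff_forall]
    intro z
    obtain ⟨n, hn⟩ := exists_nat_gt ‖z‖
    rw [Set.mem_iUnion]
    refine ⟨n, ?_⟩
    rw [mem_ball_zero_iff]
    linarith
  rw [← setLIntegral_univ, ← hU, setLIntegral_iUnion_of_directed]
  · apply iSup_le
    intro n
    have hint : IntegrableOn f (Metric.ball (0 : ℂ) (n + 1)) :=
      (hf.continuousOn.integrableOn_compact (isCompact_closedBall (0 : ℂ) (n + 1))).mono_set
        Metric.ball_subset_closedBall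
    rw [← ofReal_integral_eq_lintegral_ofReal hint (Filter.Eventually.of_forall h0)]
    exact ENNReal.ofReal_le_ofReal (h (n + 1) (by positivity))
  · apply Monotone.directed_le
    intro m n hmn
    apply Metric.ball_subset_ball
    have : (m : ℝ) ≤ n := by exact_mod_cast hmn
    linarith

lemma continuous_line {a : V 4 → Matrix (Fin 4) (Fin 4) ℂ} (ha : BForm a) {y : V 4} {i : Fin 4}
    (hy : ∀ s, Function.update y i s ∈ Om) (j k : Fin 4) :
    Continuous (fun s => a (Function.update y i s) j k) := by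
  have h1 : Continuous (fun s : ℂ => Function.update y i s) :=
    continuous_const.update i continuous_id
  have h2 : ContinuousOn (fun s => a (Function.update y i s) j k) Set.univ :=
    (ha.smooth j k).continuousOn.comp h1.continuousOn (fun s _ => hy s)
  exact continuousOn_univ.1 h2

lemma update_add_single {y : V 4} {i : Fin 4} (hi : i ≠ 3) (s v : ℂ) :
    Function.update y i s + Pi.single 3 v = Function.update (y + Pi.single 3 v) i s := by
  ext j
  by_cases h : j = i
  · subst h
    simp [hi]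
  · simp [h]

theorem line_tav {a : V 4 → Matrix (Fin 4) (Fin 4) ℂ} (ha : Cone1 a) {i : Fin 4} (hi : i ≠ 3)
    {y : V 4} (hy : ∀ s, Function.update y i s ∈ Om) {A : ℝ≥0∞}
    (hA : ∀ v : ℂ, ∫⁻ s, ENNReal.ofReal ((a (Function.update (y + Pi.single 3 v) i s) i i).re) ≤ A) :
    ∫⁻ s, ENNReal.ofReal ((tav a (Function.update y i s) i i).re) ≤ A := by
  have hnn : ∀ s v, 0 ≤ (a (Function.update y i s + Pi.single 3 v) i i).re := fun s v =>
    diag_nonneg (ha.psd (add_single_mem (hy s) v)) i
  have h1 : ∀ s, ENNReal.ofReal ((tav a (Function.update y i s) i i).re) =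
      4⁻¹ * ∫⁻ v in box 2, ENNReal.ofReal ((a (Function.update y i s + Pi.single 3 v) i i).re) := by
    intro s
    have hc : Continuous fun v => a (Function.update y i s + Pi.single 3 v) i i :=
      ha.toBForm.continuous_shift (hy s) i i
    have hcr : Continuous fun v => (a (Function.update y i s + Pi.single 3 v) i i).re :=
      Complex.continuous_re.comp hc
    have hint : IntegrableOn (fun v => (a (Function.update y i s + Pi.single 3 v) i i).re)
        (box 2) :=
      (hcr.continuousOn.integrableOn_compact isCompact_cbox).mono_set box_subset_cbox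
    rw [← ofReal_integral_eq_lintegral_ofReal hint (Filter.Eventually.of_forall (hnn s)),
      tav_apply]
    have e4 : ((1 / 4 : ℂ) * ∫ v in box 2, a (Function.update y i s + Pi.single 3 v) i i).re =
        (1 / 4) * ∫ v in box 2, (a (Function.update y i s + Pi.single 3 v) i i).re := by
      have : (1 / 4 : ℂ) = ((1 / 4 : ℝ) : ℂ) := by norm_num
      rw [this, Complex.re_ofReal_mul, re_integral_box hc]
    rw [e4, ENNReal.ofReal_mul (by norm_num)]
    congr 1
    rw [one_div, ENNReal.ofReal_inv_of_pos (by norm_num)]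
    norm_num
  simp only [h1]
  rw [lintegral_const_mul' _ _ (by simp)]
  have hmeas : Measurable (Function.uncurry fun (s v : ℂ) =>
      ENNReal.ofReal ((a (Function.update y i s + Pi.single 3 v) i i).re)) := by
    apply Measurable.ennreal_ofReal
    apply Continuous.measurable
    apply Complex.continuous_re.comp
    have h2 : Continuous (fun p : ℂ × ℂ => Function.update y i p.1 + Pi.single 3 p.2) := by
      have h3 : Continuous (fun p : ℂ × ℂ => Function.update y i p.1) :=
        continuous_const.update i continuous_fst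
      have h4 : Continuous (fun p : ℂ × ℂ => (Pi.single 3 p.2 : V 4)) := by
        have : (fun p : ℂ × ℂ => (Pi.single 3 p.2 : V 4)) =
            fun p => Function.update (0 : V 4) 3 p.2 := rfl
        rw [this]
        exact continuous_const.update 3 continuous_snd
      exact h3.add h4
    have h5 : ContinuousOn (fun p : ℂ × ℂ => a (Function.update y i p.1 + Pi.single 3 p.2) i i)
        Set.univ :=
      (ha.smooth i i).continuousOn.comp h2.continuousOn (fun p _ => add_single_mem (hy p.1) _)
    exact continuousOn_univ.1 h5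
  rw [lintegral_lintegral_swap hmeas.aemeasurable]
  calc 4⁻¹ * ∫⁻ v in box 2, ∫⁻ s,
        ENNReal.ofReal ((a (Function.update y i s + Pi.single 3 v) i i).re)
      ≤ 4⁻¹ * ∫⁻ _ in box 2, A := by
        gcongr with v
        simp only [update_add_single hi]
        exact hA v
    _ = 4⁻¹ * (4 * A) := by
        rw [setLIntegral_const, volume_box, mul_comm A]
    _ = A := by
        rw [← mul_assoc, ENNReal.inv_mul_cancel (by norm_num) (by norm_num), one_mul]

end

section

open scoped ContDiff Topology ComplexOrder ENNReal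
open MeasureTheory

lemma herm_im {M : Matrix (Fin 4) (Fin 4) ℂ} (hM : M.IsHermitian) (i : Fin 4) :
    (M i i).im = 0 := by
  have := congrArg Complex.im (herm_apply hM i i)
  simp at this
  linarith

lemma psd_minor {M : Matrix (Fin 4) (Fin 4) ℂ} (hM : M.PosSemidef) (i j : Fin 4) :
    Complex.normSq (M i j) ≤ (M i i).re * (M j j).re := by
  have hH := hM.isHermitian
  by_cases hij : i = j
  · subst hij
    rw [Complex.normSq_apply, herm_im hH]
    simp
  · set p := M i j with hp
    have hji : M j i = star p := (herm_apply hH i j).symm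
    have key : ∀ t : ℝ, 0 ≤ (Complex.normSq p * (M j j).re) * (t * t) +
        (-2 * Complex.normSq p) * t + (M i i).re := by
      intro t
      set z : Fin 4 → ℂ := Pi.single i 1 - ((t : ℂ) * star p) • Pi.single j 1 with hz
      have h0 : 0 ≤ (star z ⬝ᵥ (M.mulVec z)).re := by
        have := hM.dotProduct_mulVec_nonneg z
        rw [Complex.le_def] at this
        simpa using this.1
      have hs1 : ∀ i : Fin 4, star (Pi.single i (1 : ℂ) : Fin 4 → ℂ) = Pi.single i 1 := by
        intro i
        ext m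
        rw [Pi.star_apply, Pi.single_apply]
        split_ifs <;> simp
      have hm : ∀ i : Fin 4, M.mulVec (Pi.single i (1 : ℂ)) = fun m => M m i := by
        intro i
        ext m
        simp [Matrix.mulVec, dotProduct_single]
      have e : star z ⬝ᵥ (M.mulVec z) =
          M i i - (t : ℂ) * star p * M i j - (t : ℂ) * p * M j i +
            (t : ℂ) * (t : ℂ) * (p * star p) * M j j := by
        rw [hz, Matrix.mulVec_sub, Matrix.mulVec_smul, hm, hm, star_sub, star_smul, hs1, hs1]
        simp only [sub_dotProduct, dotProduct_sub, smul_dotProduct, dotProduct_smul,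
          single_dotProduct, smul_eq_mul, one_mul]
        have : star ((t : ℂ) * star p) = (t : ℂ) * p := by
          rw [star_mul', star_star]
          simp
        rw [this]
        ring
      rw [e, hji, ← hp] at h0
      have e2 : star p * p = ((Complex.normSq p : ℝ) : ℂ) := by
        rw [Complex.normSq_eq_conj_mul_self]
        rfl
      have e3 : M i i - (t : ℂ) * star p * p - (t : ℂ) * p * star p +
            (t : ℂ) * (t : ℂ) * (p * star p) * M j j =
          M i i - ((2 * t * Complex.normSq p : ℝ) : ℂ) +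
            ((t * t * Complex.normSq p : ℝ) : ℂ) * M j j := by
        push_cast
        rw [← e2]
        ring
      rw [e3, Complex.add_re, Complex.sub_re, Complex.re_ofReal_mul, Complex.ofReal_re] at h0
      linarith
    have hd := discrim_le_zero key
    unfold discrim at hd
    rcases eq_or_lt_of_le (Complex.normSq_nonneg p) with h | h
    · rw [← h]
      exact mul_nonneg (diag_nonneg hM i) (diag_nonneg hM j)
    · have h2 : Complex.normSq p * (Complex.normSq p) ≤
          Complex.normSq p * ((M i i).re * (M j j).re) := by nlinarith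
      exact le_of_mul_le_mul_left h2 h

lemma pinch {P A : Matrix (Fin 4) (Fin 4) ℂ} (hP : P.PosSemidef) (hA : A.PosSemidef) {ε : ℝ}
    (hε : 0 < ε) :
    (∑ j : Fin 3, ∑ q : Fin 3, P q.castSucc j.castSucc * A j.castSucc q.castSucc).re ≤
      (1 + ε) * ((P 0 0).re * (A 0 0).re) +
      2 * (1 + 1 / ε) * ((P 1 1).re * (A 1 1).re + (P 2 2).re * (A 2 2).re) := by
  set x : Fin 4 → ℝ := fun i => (P i i).re * (A i i).re with hx
  have hx0 : ∀ i, 0 ≤ x i := fun i => mul_nonneg (diag_nonneg hP i) (diag_nonneg hA i)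
  have hb : ∀ q j : Fin 4, (P q j * A j q).re ≤ Real.sqrt (x q) * Real.sqrt (x j) := by
    intro q j
    have h1 := psd_minor hP q j
    have h2 := psd_minor hA j q
    have h3 : ‖P q j * A j q‖ ^ 2 ≤ x q * x j := by
      rw [← Complex.normSq_eq_norm_sq, Complex.normSq_mul]
      calc Complex.normSq (P q j) * Complex.normSq (A j q)
          ≤ ((P q q).re * (P j j).re) * ((A j j).re * (A q q).re) := by
            apply mul_le_mul h1 h2 (Complex.normSq_nonneg _)
            exact mul_nonneg (diag_nonneg hP q) (diag_nonneg hP j)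
        _ = x q * x j := by simp only [hx]; ring
    have h4 : ‖P q j * A j q‖ ≤ Real.sqrt (x q * x j) := Real.le_sqrt_of_sq_le h3
    rw [Real.sqrt_mul (hx0 q)] at h4
    exact (Complex.re_le_norm _).trans h4
  set r : Fin 4 → ℝ := fun i => Real.sqrt (x i) with hr
  have hr2 : ∀ i, r i * r i = x i := fun i => Real.mul_self_sqrt (hx0 i)
  have hsum : (∑ j : Fin 3, ∑ q : Fin 3, P q.castSucc j.castSucc * A j.castSucc q.castSucc).re ≤
      (r 0 + r 1 + r 2) * (r 0 + r 1 + r 2) := by
    rw [Complex.re_sum]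
    simp only [Complex.re_sum]
    calc ∑ j : Fin 3, ∑ q : Fin 3, (P q.castSucc j.castSucc * A j.castSucc q.castSucc).re
        ≤ ∑ j : Fin 3, ∑ q : Fin 3, r q.castSucc * r j.castSucc :=
          Finset.sum_le_sum fun j _ => Finset.sum_le_sum fun q _ => hb _ _
      _ = (r 0 + r 1 + r 2) * (r 0 + r 1 + r 2) := by
          simp only [Fin.sum_univ_three]
          have e0 : (Fin.castSucc 0 : Fin 4) = 0 := rfl
          have e1 : (Fin.castSucc 1 : Fin 4) = 1 := rfl
          have e2 : (Fin.castSucc 2 : Fin 4) = 2 := rfl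
          rw [e0, e1, e2]
          ring
  refine hsum.trans ?_
  have k0 := hr2 0
  have k1 := hr2 1
  have k2 := hr2 2
  simp only [hx] at k0 k1 k2
  rw [← k0, ← k1, ← k2]
  have h5 : 0 ≤ (ε * r 0 - (r 1 + r 2)) ^ 2 / ε := by positivity
  have h6 : (ε * r 0 - (r 1 + r 2)) ^ 2 / ε =
      ε * (r 0 * r 0) - 2 * r 0 * (r 1 + r 2) + (1 / ε) * (r 1 + r 2) ^ 2 := by
    field_simp
    ring
  rw [h6] at h5
  have h7 : 0 ≤ (1 + 1 / ε) * (r 1 - r 2) ^ 2 := by positivity
  nlinarith [h5, h7]

/-- diagonal densities -/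
def xx (c : V 4 → Matrix (Fin 4) (Fin 4) ℂ) (s : ℝ) (j : Fin 4) (y : V 4) : ℝ :=
  ((addRad c y).adjugate j j).re * (aflow c 1 0 s y j j).re

lemma aflow_psd {c : V 4 → Matrix (Fin 4) (Fin 4) ℂ} (hc : Cone1 c) (lam : ℝ) (v : ℂ) (s : ℝ)
    {y : V 4} (hy : y ∈ Om) : (aflow c lam v s y).PosSemidef := by
  refine Matrix.PosSemidef.of_dotProduct_mulVec_nonneg ((hc.toBForm.flow lam v s).herm y hy)
    fun x => ?_
  set x' : Fin 4 → ℂ := fun i => (ex lam s i : ℂ) * x i with hx'
  have e : star x ⬝ᵥ (aflow c lam v s y).mulVec x =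
      star x' ⬝ᵥ (c (phi lam v s y)).mulVec x' := by
    simp only [dotProduct, Matrix.mulVec, Finset.mul_sum, hx', Pi.star_apply, aflow,
      Matrix.of_apply, star_mul']
    refine Finset.sum_congr rfl fun j _ => Finset.sum_congr rfl fun k _ => ?_
    have : star (ex lam s j : ℂ) = (ex lam s j : ℂ) := by simp
    rw [this]
    ring
  rw [e]
  exact (hc.psd (phi_mem hy)).dotProduct_mulVec_nonneg x'

lemma adj_posSemidef {b : Matrix (Fin 4) (Fin 4) ℂ} (hb : b.PosDef) : b.adjugate.PosSemidef := by
  have hd := hb.det_pos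
  have hu : IsUnit b.det := isUnit_iff_ne_zero.2 hd.ne'
  have e : b.adjugate = b.det • b⁻¹ := by
    rw [Matrix.inv_def, smul_smul, Ring.mul_inverse_cancel _ hu, one_smul]
  rw [e]
  exact hb.inv.posSemidef.smul hd.le

lemma wt_adj_smooth {c : V 4 → Matrix (Fin 4) (Fin 4) ℂ} (hc : BForm c) (s : ℝ) (j q j' q' : Fin 4) :
    ContDiffOn ℝ 1 (fun y => (addRad c y).adjugate j q * aflow c 1 0 s y j' q') Om :=
  (contDiffOn_adj (fun i j => hc.smooth_addRad i j) j q).mul ((hc.flow 1 0 s).smooth j' q')

lemma xx_eq {c : V 4 → Matrix (Fin 4) (Fin 4) ℂ} (hc : Cone1 c) (s : ℝ) (j : Fin 4) {y : V 4}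
    (hy : y ∈ Om) : xx c s j y = ((addRad c y).adjugate j j * aflow c 1 0 s y j j).re := by
  unfold xx
  rw [Complex.mul_re, herm_im ((hc.toBForm.flow 1 0 s).herm y hy) j]
  ring

lemma xx_nonneg {c : V 4 → Matrix (Fin 4) (Fin 4) ℂ} (hc : Cone1 c) (s : ℝ) (j : Fin 4) {y : V 4}
    (hy : y ∈ Om) : 0 ≤ xx c s j y :=
  mul_nonneg (diag_nonneg (adj_posSemidef (hc.pos y hy)) j) (diag_nonneg (aflow_psd hc 1 0 s hy) j)

lemma wt_xx_eq {c : V 4 → Matrix (Fin 4) (Fin 4) ℂ} (hc : Cone1 c) (k : ℝ → ℝ) (s : ℝ)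
    (j : Fin 4) : (fun y => wt k y * xx c s j y) =
      fun y => wt k y * ((addRad c y).adjugate j j * aflow c 1 0 s y j j).re := by
  ext y
  by_cases hy : y ∈ Om
  · rw [xx_eq hc s j hy]
  · rw [wt_of_notMem k hy]; simp

lemma wt_xx_nonneg {c : V 4 → Matrix (Fin 4) (Fin 4) ℂ} (hc : Cone1 c) {k : ℝ → ℝ}
    (hk : IsWeight k) (s : ℝ) (j : Fin 4) (y : V 4) : 0 ≤ wt k y * xx c s j y := by
  by_cases hy : y ∈ Om
  · exact mul_nonneg (wt_nonneg hk y) (xx_nonneg hc s j hy)
  · rw [wt_of_notMem k hy]; simp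

/-- the diagonal integrals -/
def JJ (k : ℝ → ℝ) (c : V 4 → Matrix (Fin 4) (Fin 4) ℂ) (s : ℝ) (j : Fin 4) : ℝ≥0∞ :=
  ∫⁻ y in D2, ENNReal.ofReal (wt k y * xx c s j y)

lemma wt_xx_integrable {c : V 4 → Matrix (Fin 4) (Fin 4) ℂ} (hc : Cone1 c) {k : ℝ → ℝ}
    (hk : IsWeight k) (s : ℝ) (j : Fin 4) : IntegrableOn (fun y => wt k y * xx c s j y) D2 := by
  rw [wt_xx_eq hc]
  exact integrable_wt_re hk (wt_adj_smooth hc.toBForm s j j j j)

theorem two_shell_eq {c : V 4 → Matrix (Fin 4) (Fin 4) ℂ} (hc : PCone c) {k : ℝ → ℝ}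
    (hk : IsWeight k) (s : ℝ) :
    2 * shell k c = ∫ y in D2, wt k y * (∑ j : Fin 3, ∑ q : Fin 3,
      (addRad c y).adjugate q.castSucc j.castSucc *
        aflow c 1 0 s y j.castSucc q.castSucc).re := by
  have h1 := flow_inv hc.toBForm hc.toBForm hc.pos hk 1 0 s
  have h2 : MM k c c = 3 * SH k c := by
    unfold MM SH
    rw [← integral_const_mul]
    congr 1
    ext y
    by_cases hy : y ∈ Om
    · rw [trace_adj hc.toBForm hy]
      ring
    · rw [wt_of_notMem k hy]
      simp
  rw [h2, ← shell_eq hc.toBForm k] at h1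
  set S3 : V 4 → ℂ := fun y => ∑ j : Fin 3, ∑ q : Fin 3,
      (addRad c y).adjugate q.castSucc j.castSucc *
        aflow c 1 0 s y j.castSucc q.castSucc with hS3
  have hS3s : ContDiffOn ℝ 1 S3 Om := by
    apply ContDiffOn.sum
    intro j _
    apply ContDiffOn.sum
    intro q _
    exact wt_adj_smooth hc.toBForm s _ _ _ _
  have h3 : (MM k c (aflow c 1 0 s)).re =
      ∫ y in D2, (wt k y * (S3 y).re + wt k y * (addRad c y).det.re) := by
    have hi := integrable_MM (hc.toBForm.flow 1 0 s) hc.toBForm hk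
    have := Complex.reCLM.integral_comp_comm hi
    unfold MM
    change Complex.reCLM _ = _
    rw [← this]
    congr 1
    ext y
    simp only [Complex.reCLM_apply, Complex.re_ofReal_mul]
    by_cases hy : y ∈ Om
    · have hz : ∀ q : Fin 3, aflow c 1 0 s y 3 q.castSucc = 0 := by
        intro q
        have hq : (q.castSucc : Fin 4) ≠ 3 := by
          intro h
          have := congrArg Fin.val h
          simp at this
          omega
        simp only [aflow, Matrix.of_apply]
        rw [hc.c3k _ (phi_mem hy) _ hq]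
        simp
      have hz' : ∀ q : Fin 3, aflow c 1 0 s y q.castSucc 3 = 0 := by
        intro q
        rw [← herm_apply ((hc.toBForm.flow 1 0 s).herm y hy) 3 q.castSucc, hz q]
        simp
      have h33 : aflow c 1 0 s y 3 3 = 1 := by
        simp only [aflow, Matrix.of_apply]
        rw [hc.c33 _ (phi_mem hy), ex_three]
        simp
      have hdet : (addRad c y).adjugate 3 3 = (addRad c y).det := by
        have hr3 : rad y 3 = 0 := by simp [rad]
        rw [Matrix.adjugate_apply, det_row3, det_row3]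
        · congr 1
          ext i j
          have hi : Fin.succAbove (3 : Fin 4) i ≠ 3 := Fin.succAbove_ne 3 i
          simp only [Matrix.submatrix_apply]
          rw [Matrix.updateRow_ne hi]
        · intro k
          rw [addRad_apply, hr3, zero_mul, add_zero]
          by_cases h : k = 3
          · subst h; simp [hc.c33 y hy]
          · rw [hc.c3k y hy k h, if_neg h]
        · intro k
          rw [Matrix.updateRow_self, Pi.single_apply]
      have hsum : ∑ j, ∑ q, (addRad c y).adjugate q j * aflow c 1 0 s y j q =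
          S3 y + (addRad c y).det := by
        simp only [Fin.sum_univ_castSucc (n := 3), hS3]
        have hlast : (Fin.last 3) = (3 : Fin 4) := rfl
        rw [hlast]
        simp only [hz, hz', h33, mul_zero, add_zero, Finset.sum_const_zero, zero_add, mul_one, hdet]
      rw [hsum, Complex.add_re]
      ring
    · rw [wt_of_notMem k hy]
      simp
  have hi1 := integrable_wt_re hk hS3s
  have hi2 := integrable_wt_re hk (contDiffOn_det fun i j => hc.toBForm.smooth_addRad i j)
  rw [integral_add hi1 hi2, ← shell_real, h1] at h3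
  have h4 : (3 * ((shell k c : ℝ) : ℂ)).re = 3 * shell k c := by simp
  rw [h4] at h3
  linarith

theorem two_shell_le {c : V 4 → Matrix (Fin 4) (Fin 4) ℂ} (hc : PCone c) {k : ℝ → ℝ}
    (hk : IsWeight k) (s : ℝ) {ε : ℝ} (hε : 0 < ε) :
    ENNReal.ofReal (2 * shell k c) ≤ ENNReal.ofReal (1 + ε) * JJ k c s 0 +
      ENNReal.ofReal (2 * (1 + 1 / ε)) * (JJ k c s 1 + JJ k c s 2) := by
  have hJ : ∀ j, JJ k c s j = ENNReal.ofReal (∫ y in D2, wt k y * xx c s j y) := by
    intro j
    exact (ofReal_integral_eq_lintegral_ofReal (wt_xx_integrable hc.toCone1 hk s j)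
      (Filter.Eventually.of_forall fun y => wt_xx_nonneg hc.toCone1 hk s j y)).symm
  have hnn : ∀ j, 0 ≤ ∫ y in D2, wt k y * xx c s j y := fun j =>
    integral_nonneg fun y => wt_xx_nonneg hc.toCone1 hk s j y
  rw [hJ, hJ, hJ, ← ENNReal.ofReal_add (hnn 1) (hnn 2), ← ENNReal.ofReal_mul (by positivity),
    ← ENNReal.ofReal_mul (by positivity), ← ENNReal.ofReal_add
      (mul_nonneg (by positivity) (hnn 0)) (mul_nonneg (by positivity) (add_nonneg (hnn 1) (hnn 2)))]
  apply ENNReal.ofReal_le_ofReal
  rw [two_shell_eq hc hk s]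
  have i0 := wt_xx_integrable hc.toCone1 hk s 0
  have i1 := wt_xx_integrable hc.toCone1 hk s 1
  have i2 := wt_xx_integrable hc.toCone1 hk s 2
  have i12 : IntegrableOn (fun y => wt k y * xx c s 1 y + wt k y * xx c s 2 y) D2 := i1.add i2
  rw [← integral_add i1 i2, ← integral_const_mul, ← integral_const_mul,
    ← integral_add (i0.const_mul _) (i12.const_mul _)]
  have hS3s : ContDiffOn ℝ 1 (fun y => ∑ j : Fin 3, ∑ q : Fin 3,
      (addRad c y).adjugate q.castSucc j.castSucc *
        aflow c 1 0 s y j.castSucc q.castSucc) Om := by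
    apply ContDiffOn.sum
    intro j _
    apply ContDiffOn.sum
    intro q _
    exact wt_adj_smooth hc.toBForm s _ _ _ _
  apply integral_mono (integrable_wt_re hk hS3s)
    ((i0.const_mul _).add (i12.const_mul _))
  intro y
  change wt k y * _ ≤ (1 + ε) * (wt k y * xx c s 0 y) +
    2 * (1 + 1 / ε) * (wt k y * xx c s 1 y + wt k y * xx c s 2 y)
  by_cases hy : y ∈ Om
  · have := pinch (adj_posSemidef (hc.pos y hy)) (aflow_psd hc.toCone1 1 0 s hy) hε
    have h2 := mul_le_mul_of_nonneg_left this (wt_nonneg hk y)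
    unfold xx
    refine h2.trans (le_of_eq ?_)
    ring
  · rw [wt_of_notMem k hy]
    simp

end

section

open scoped ContDiff Topology ComplexOrder ENNReal
open MeasureTheory

lemma scale_C {w : ℂ} (hw : w ≠ 0) {g : ℂ → ℝ≥0∞} (hg : Measurable g) :
    ENNReal.ofReal (Complex.normSq w) * ∫⁻ z, g (w * z) = ∫⁻ z, g z := by
  set L : ℂ →ₗ[ℝ] ℂ := LinearMap.mul ℝ ℂ w with hL
  have hdet : LinearMap.det L = Complex.normSq w := by
    rw [← Algebra.norm_complex_apply, Algebra.norm_apply]
    rfl
  have hpos : 0 < Complex.normSq w := Complex.normSq_pos.2 hw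
  have hmap := Measure.map_linearMap_addHaar_eq_smul_addHaar (volume : Measure ℂ) (f := L)
    (by rw [hdet]; exact hpos.ne')
  have hmeas : Measurable L := by
    have : Continuous L := LinearMap.continuous_of_finiteDimensional L
    exact this.measurable
  have h1 : ∫⁻ z, g (w * z) = ∫⁻ z, g z ∂(Measure.map L volume) := by
    rw [lintegral_map hg hmeas]
    rfl
  rw [h1, hmap, lintegral_smul_measure, hdet, smul_eq_mul, ← mul_assoc,
    ← ENNReal.ofReal_mul hpos.le, abs_of_pos (inv_pos.2 hpos), mul_inv_cancel₀ hpos.ne',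
    ENNReal.ofReal_one, one_mul]

lemma lint_eq_of_marg (i : Fin 4) {f g : V 4 → ℝ≥0∞} (hf : Measurable f) (hg : Measurable g)
    (h : ∀ x, ∫⁻ s, f (Function.update x i s) = ∫⁻ s, g (Function.update x i s)) :
    ∫⁻ x, f x = ∫⁻ x, g x := by
  rw [volume_pi]
  refine lintegral_eq_of_lmarginal_eq {i} hf hg ?_
  ext x
  rw [lmarginal_singleton, lmarginal_singleton]
  exact h x

lemma lint_le_of_marg (i : Fin 4) {f g : V 4 → ℝ≥0∞} (hf : Measurable f) (hg : Measurable g)
    (h : ∀ x, ∫⁻ s, f (Function.update x i s) ≤ ∫⁻ s, g (Function.update x i s)) :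
    ∫⁻ x, f x ≤ ∫⁻ x, g x := by
  rw [volume_pi]
  refine lintegral_le_of_lmarginal_le {i} hf hg ?_
  intro x
  rw [lmarginal_singleton, lmarginal_singleton]
  exact h x

/-- the density of the unit box -/
def rho (z : ℂ) : ℝ≥0∞ := (box 1).indicator (fun _ => 1) z

lemma measurable_rho : Measurable rho := measurable_const.indicator (measurableSet_box 1)

lemma volume_box_one : volume (box 1) = 1 := by
  have h1 : box 1 = Complex.measurableEquivRealProd ⁻¹' (Set.Ico (0 : ℝ) 1 ×ˢ Set.Ico (0 : ℝ) 1) := by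
    ext z
    simp [box, Complex.measurableEquivRealProd_apply]
  rw [h1, Complex.volume_preserving_equiv_real_prod.measure_preimage
    (measurableSet_Ico.prod measurableSet_Ico).nullMeasurableSet, Measure.volume_eq_prod,
    Measure.prod_prod, Real.volume_Ico]
  norm_num

lemma lintegral_rho : ∫⁻ z, rho z = 1 := by
  unfold rho
  rw [lintegral_indicator (measurableSet_box 1), setLIntegral_const, volume_box_one, one_mul]

lemma marg_le (i : Fin 4) {g φ : V 4 → ℝ≥0∞} (hg : Measurable g) (hφ : Measurable φ)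
    (hgi : ∀ x s, g (Function.update x i s) = g x) {A : ℝ≥0∞}
    (hA : ∀ x, g x ≠ 0 → ∫⁻ s, φ (Function.update x i s) ≤ A) :
    ∫⁻ x, g x * φ x ≤ A * ∫⁻ x, g x * rho (x i) := by
  have hri : Measurable fun x : V 4 => rho (x i) := measurable_rho.comp (measurable_pi_apply i)
  have hgr : Measurable fun x : V 4 => g x * rho (x i) := hg.mul hri
  rw [← lintegral_const_mul _ hgr]
  have hgφ : Measurable fun x : V 4 => g x * φ x := hg.mul hφ
  apply lint_le_of_marg i hgφ (hgr.const_mul A)
  intro x
  simp only [hgi, Function.update_self]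
  have h1 : Measurable fun s => φ (Function.update x i s) := hφ.comp (measurable_update x)
  rw [lintegral_const_mul _ h1, lintegral_const_mul _ (measurable_rho.const_mul (g x)),
    lintegral_const_mul _ measurable_rho, lintegral_rho, mul_one, mul_comm A]
  by_cases h : g x = 0
  · rw [h]; simp
  · gcongr
    exact hA x h

lemma null_coord (i : Fin 4) : volume {y : V 4 | y i = 0} = 0 := by
  rw [volume_pi]
  exact Measure.pi_hyperplane (fun _ : Fin 4 => (volume : Measure ℂ)) i 0

lemma ae_ne (i : Fin 4) : ∀ᵐ y : V 4, y i ≠ 0 := by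
  rw [ae_iff]
  simpa using null_coord i

/-- the logarithmic integral -/
lemma polar_k {k : ℝ → ℝ} (hk : IsWeight k) (κ : ℝ) :
    ∫⁻ z : ℂ, ENNReal.ofReal (k (Real.log (Complex.normSq z) + κ) / Complex.normSq z) =
      ENNReal.ofReal Real.pi := by
  have hkm : Measurable k := hk.smooth.continuous.measurable
  have hkint : ∫⁻ x, ENNReal.ofReal (k x) = 1 := by
    have hi : Integrable k := hk.smooth.continuous.integrable_of_hasCompactSupport hk.compact
    rw [← ofReal_integral_eq_lintegral_ofReal hi (Filter.Eventually.of_forall hk.nonneg), hk.int,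
      ENNReal.ofReal_one]
  rw [← Complex.lintegral_comp_polarCoord_symm]
  have e1 : ∀ p ∈ polarCoord.target, ENNReal.ofReal p.1 •
      ENNReal.ofReal (k (Real.log (Complex.normSq (Complex.polarCoord.symm p)) + κ) /
        Complex.normSq (Complex.polarCoord.symm p)) =
      ENNReal.ofReal (k (2 * Real.log p.1 + κ) / p.1) := by
    intro p hp
    have hp1 : 0 < p.1 := by
      rw [polarCoord_target] at hp
      exact hp.1
    have hn : Complex.normSq (Complex.polarCoord.symm p) = p.1 ^ 2 := by
      rw [Complex.normSq_eq_norm_sq, Complex.norm_polarCoord_symm, sq_abs]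
    rw [hn, smul_eq_mul, ← ENNReal.ofReal_mul hp1.le, Real.log_pow]
    congr 1
    push_cast
    field_simp
  have hms : MeasurableSet polarCoord.target := by
    rw [polarCoord_target]
    exact measurableSet_Ioi.prod measurableSet_Ioo
  rw [setLIntegral_congr_fun hms e1]
  rw [polarCoord_target, Measure.volume_eq_prod, ← Measure.prod_restrict]
  have hm2 : Measurable fun r : ℝ => ENNReal.ofReal (k (2 * Real.log r + κ) / r) := by
    apply Measurable.ennreal_ofReal
    exact (hkm.comp ((Real.measurable_log.const_mul 2).add_const κ)).div measurable_id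
  rw [lintegral_prod _ (by fun_prop)]
  simp only [lintegral_const, Measure.restrict_apply MeasurableSet.univ, Set.univ_inter,
    Real.volume_Ioo]
  rw [lintegral_mul_const _ hm2]
  have h3 : ∫⁻ r in Set.Ioi (0 : ℝ), ENNReal.ofReal (k (2 * Real.log r + κ) / r) =
      ENNReal.ofReal (1 / 2) := by
    have himg : (fun x : ℝ => Real.exp (x / 2)) '' Set.univ = Set.Ioi 0 := by
      ext r
      simp only [Set.image_univ, Set.mem_range, Set.mem_Ioi]
      constructor
      · rintro ⟨x, rfl⟩
        exact Real.exp_pos _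
      · intro hr
        refine ⟨2 * Real.log r, ?_⟩
        rw [mul_div_cancel_left₀ _ (two_ne_zero), Real.exp_log hr]
    rw [← himg, lintegral_image_eq_lintegral_abs_deriv_mul (f' := fun x => Real.exp (x / 2) * (1 / 2))
      MeasurableSet.univ]
    · rw [setLIntegral_univ]
      have e2 : ∀ x : ℝ, ENNReal.ofReal |Real.exp (x / 2) * (1 / 2)| *
          ENNReal.ofReal (k (2 * Real.log (Real.exp (x / 2)) + κ) / Real.exp (x / 2)) =
          ENNReal.ofReal (1 / 2) * ENNReal.ofReal (k (x + κ)) := by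
        intro x
        have hp := Real.exp_pos (x / 2)
        rw [abs_of_pos (by positivity), Real.log_exp, mul_div_cancel₀ _ (two_ne_zero),
          ← ENNReal.ofReal_mul (by positivity), ← ENNReal.ofReal_mul (by norm_num)]
        congr 1
        field_simp
      simp only [e2]
      have hkm2 : Measurable fun x : ℝ => ENNReal.ofReal (k (x + κ)) :=
        (hkm.comp (measurable_id.add_const κ)).ennreal_ofReal
      rw [lintegral_const_mul _ hkm2,
        lintegral_add_right_eq_self (fun x => ENNReal.ofReal (k x)) κ, hkint, mul_one]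
    · intro x _
      have h4 : HasDerivAt (fun x : ℝ => Real.exp (x / 2)) (Real.exp (x / 2) * (1 / 2)) x :=
        ((hasDerivAt_id x).div_const 2).exp
      exact h4.hasDerivWithinAt
    · intro x _ y _ hxy
      have := Real.exp_injective hxy
      linarith
  rw [h3, ← ENNReal.ofReal_mul (by norm_num)]
  congr 1
  ring

end

section

open scoped ContDiff Topology ComplexOrder ENNReal
open MeasureTheory Filter

lemma exists_bound_hom {c : V 4 → Matrix (Fin 4) (Fin 4) ℂ} (hc : PCone c) :
    ∃ C : ℝ, 0 ≤ C ∧ ∀ z ∈ Om, ∀ j : Fin 4, j ≠ 3 → (c z j j).re ≤ C / E3 z := by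
  set S : Set (V 4) := Kc 1 ∩ {z | E3 z = 1 ∧ z 3 = 0} with hS
  have hScl : IsClosed {z : V 4 | E3 z = 1 ∧ z 3 = 0} :=
    (isClosed_eq continuous_E3 continuous_const).inter
      (isClosed_eq (continuous_apply 3) continuous_const)
  have hSc : IsCompact S := (isCompact_Kc 1).inter_right hScl
  have hSO : S ⊆ Om := by
    rintro z ⟨_, hz, _⟩
    unfold Om
    rw [Set.mem_ofPred_eq, hz]
    exact one_pos
  have hb : ∀ j : Fin 4, ∃ C, ∀ z ∈ S, ‖c z j j‖ ≤ C := fun j =>
    hSc.exists_bound_of_continuousOn ((hc.smooth j j).continuousOn.mono hSO)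
  choose Cj hCj using hb
  refine ⟨∑ j, |Cj j|, Finset.sum_nonneg fun j _ => abs_nonneg _, ?_⟩
  intro z hz j hj
  have hE : 0 < E3 z := hz
  set r : ℝ := (Real.sqrt (E3 z))⁻¹ with hr
  have hr0 : 0 < r := inv_pos.2 (Real.sqrt_pos.2 hE)
  have hr2 : r * r = 1 / E3 z := by
    rw [hr, ← mul_inv, Real.mul_self_sqrt hE.le, one_div]
  have hrc : (r : ℂ) ≠ 0 := by exact_mod_cast hr0.ne'
  have hsm : scale (r : ℂ) z ∈ Om := scale_mem hrc hz
  set z' : V 4 := scale (r : ℂ) z + Pi.single 3 (-z 3) with hz'
  have h1 : c z' = c (scale (r : ℂ) z) := hc.inv _ hsm _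
  have hz'S : z' ∈ S := by
    have e1 : E3 z' = 1 := by
      rw [hz', E3_add_single, E3_scale, Complex.normSq_ofReal, hr2]
      field_simp
    have e2 : z' 3 = 0 := by
      rw [hz', Pi.add_apply, scale_apply, sc_three]
      simp
    refine ⟨⟨e1.le, ?_, ?_⟩, e1, e2⟩
    · rw [e2]; simp
    · rw [e2]; simp
  have h2 := hc.hom z hz (r : ℂ) hrc j j
  have hscj : sc (r : ℂ) j = (r : ℂ) := by simp [sc, hj]
  rw [hscj, ← h1] at h2
  have h3 : (c z j j).re = r * r * (c z' j j).re := by
    rw [h2]
    have : star (r : ℂ) = (r : ℂ) := by simp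
    rw [this]
    have e : (r : ℂ) * c z' j j * (r : ℂ) = ((r * r : ℝ) : ℂ) * c z' j j := by
      push_cast; ring
    rw [e, Complex.re_ofReal_mul]
  rw [h3, hr2]
  have h4 : (c z' j j).re ≤ ∑ j, |Cj j| := by
    calc (c z' j j).re ≤ ‖c z' j j‖ := Complex.re_le_norm _
      _ ≤ Cj j := hCj j z' hz'S
      _ ≤ |Cj j| := le_abs_self _
      _ ≤ ∑ j, |Cj j| := Finset.single_le_sum (f := fun j => |Cj j|)
          (fun j _ => abs_nonneg _) (Finset.mem_univ j)
  have h5 : 1 / E3 z * (c z' j j).re ≤ 1 / E3 z * ∑ j, |Cj j| := by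
    gcongr
  refine h5.trans (le_of_eq ?_)
  ring

/-- weight times diagonal adjugate entry -/
def hh (k : ℝ → ℝ) (c : V 4 → Matrix (Fin 4) (Fin 4) ℂ) (j : Fin 4) (y : V 4) : ℝ :=
  wt k y * ((addRad c y).adjugate j j).re

lemma continuous_hh {c : V 4 → Matrix (Fin 4) (Fin 4) ℂ} (hc : BForm c) {k : ℝ → ℝ}
    (hk : IsWeight k) (j : Fin 4) : Continuous (hh k c j) :=
  (contDiff_wt_re hk (contDiffOn_adj (fun i j => hc.smooth_addRad i j) j j)).continuous

lemma hh_nonneg {c : V 4 → Matrix (Fin 4) (Fin 4) ℂ} (hc : Cone1 c) {k : ℝ → ℝ}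
    (hk : IsWeight k) (j : Fin 4) (y : V 4) : 0 ≤ hh k c j y := by
  unfold hh
  by_cases hy : y ∈ Om
  · exact mul_nonneg (wt_nonneg hk y) (diag_nonneg (adj_posSemidef (hc.pos y hy)) j)
  · rw [wt_of_notMem k hy]; simp

lemma hh_bound {c : V 4 → Matrix (Fin 4) (Fin 4) ℂ} (hc : BForm c) {k : ℝ → ℝ}
    (hk : IsWeight k) (j : Fin 4) : ∃ C : ℝ, 0 ≤ C ∧ ∀ y ∈ D2, hh k c j y ≤ C := by
  obtain ⟨c0, hc0, hc1⟩ := IsWeight.wt_large hk
  obtain ⟨C, hC⟩ := (isCompact_Kc c0).exists_bound_of_continuousOn
    (continuous_hh hc hk j).continuousOn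
  refine ⟨|C|, abs_nonneg _, fun y hy => ?_⟩
  by_cases h : E3 y ≤ c0
  · have h1 := hC y (D2_subset_Kc ⟨hy, h⟩)
    exact (Real.le_norm_self _).trans (h1.trans (le_abs_self _))
  · push Not at h
    unfold hh
    rw [hc1 y h, zero_mul]
    exact abs_nonneg _

lemma phi_apply_ne {lam : ℝ} {s : ℝ} {y : V 4} {i : Fin 4} (hi : i ≠ 0) :
    phi lam 0 s y i = y i := by
  unfold phi ex
  simp [hi]

lemma phi_apply_zero {s : ℝ} {y : V 4} : phi 1 0 s y 0 = (Real.exp s : ℂ) * y 0 := by
  unfold phi ex
  simp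

lemma E3_phi (s : ℝ) (y : V 4) : E3 (phi 1 0 s y) =
    Real.exp (2 * s) * Complex.normSq (y 0) + Complex.normSq (y 1) + Complex.normSq (y 2) := by
  unfold E3
  rw [phi_apply_zero, phi_apply_ne (by decide), phi_apply_ne (by decide), Complex.normSq_mul,
    Complex.normSq_ofReal, ← Real.exp_add, two_mul]

lemma measurable_wt_xx {c : V 4 → Matrix (Fin 4) (Fin 4) ℂ} (hc : Cone1 c) {k : ℝ → ℝ}
    (hk : IsWeight k) (s : ℝ) (j : Fin 4) : Measurable (fun y => wt k y * xx c s j y) := by
  rw [wt_xx_eq hc]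
  exact (contDiff_wt_re hk (wt_adj_smooth hc.toBForm s j j j j)).continuous.measurable

theorem tendsto_JJ_zero {c : V 4 → Matrix (Fin 4) (Fin 4) ℂ} (hc : PCone c) {k : ℝ → ℝ}
    (hk : IsWeight k) {j : Fin 4} (hj0 : j ≠ 0) (hj3 : j ≠ 3) :
    Tendsto (fun n : ℕ => JJ k c n j) atTop (𝓝 0) := by
  obtain ⟨L, hL0, hL⟩ := IsWeight.exists_bound hk
  obtain ⟨C1, hC10, hC1⟩ := hh_bound hc.toBForm hk j
  obtain ⟨C2, hC20, hC2⟩ := exists_bound_hom hc
  have hm0 : 0 < Real.exp (-L) := Real.exp_pos _
  have hxx : ∀ (n : ℕ) (y : V 4), wt k y * xx c n j y =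
      hh k c j y * (c (phi 1 0 n y) j j).re := by
    intro n y
    unfold xx hh aflow
    have : ex 1 n j = 1 := by simp [ex, hj0]
    simp only [Matrix.of_apply, this]
    simp
    ring
  have hmain : ∀ n : ℕ, ∀ y ∈ D2, y ∈ Om →
      wt k y * xx c n j y ≤ C1 * (C2 / E3 (phi 1 0 n y)) := by
    intro n y hy hO
    rw [hxx]
    have h1 := hC1 y hy
    have h2 := hC2 _ (phi_mem (lam := 1) (v := 0) (s := n) hO) j hj3
    have h3 : 0 ≤ (c (phi 1 0 n y) j j).re := diag_nonneg (hc.psd (phi_mem hO)) j
    exact mul_le_mul h1 h2 h3 hC10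
  have key := tendsto_lintegral_of_dominated_convergence (μ := (volume : Measure (V 4)).restrict D2)
    (F := fun n y => ENNReal.ofReal (wt k y * xx c n j y)) (f := fun _ => 0)
    (fun y => ({y : V 4 | E3 y ≤ Real.exp L}).indicator
      (fun _ => ENNReal.ofReal (C1 * (C2 / Real.exp (-L)))) y)
    (fun n => (measurable_wt_xx hc.toCone1 hk n j).ennreal_ofReal) ?_ ?_ ?_
  · simpa [JJ] using key
  · intro n
    rw [Filter.EventuallyLE, ae_restrict_iff' measurableSet_D2]
    refine Eventually.of_forall fun y hy => ?_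
    by_cases h1 : E3 y ≤ Real.exp L
    · rw [Set.indicator_of_mem (by exact h1)]
      apply ENNReal.ofReal_le_ofReal
      by_cases h2 : E3 y < Real.exp (-L)
      · rw [wt_eq_zero hL (Or.inl h2), zero_mul]
        positivity
      · push Not at h2
        have hO : y ∈ Om := lt_of_lt_of_le hm0 h2
        refine (hmain n y hy hO).trans ?_
        have h3 : Real.exp (-L) ≤ E3 (phi 1 0 n y) := by
          refine h2.trans ?_
          rw [E3_phi]
          unfold E3
          have h4 : 1 ≤ Real.exp (2 * (n : ℝ)) := Real.one_le_exp (by positivity)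
          have h5 := Complex.normSq_nonneg (y 0)
          nlinarith
        gcongr
    · rw [Set.indicator_of_notMem (by exact h1)]
      push Not at h1
      rw [wt_eq_zero hL (Or.inr h1)]
      simp
  · rw [lintegral_indicator (measurableSet_le continuous_E3.measurable measurable_const),
      setLIntegral_const]
    apply ENNReal.mul_ne_top ENNReal.ofReal_ne_top
    rw [Measure.restrict_apply (measurableSet_le continuous_E3.measurable measurable_const)]
    have : volume ({y : V 4 | E3 y ≤ Real.exp L} ∩ D2) ≤ volume (Kc (Real.exp L)) := by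
      apply measure_mono
      rintro y ⟨h1, h2⟩
      exact D2_subset_Kc ⟨h2, h1⟩
    exact ne_top_of_le_ne_top (isCompact_Kc _).measure_lt_top.ne this
  · rw [ae_restrict_iff' measurableSet_D2]
    filter_upwards [ae_ne 0] with y hy0 hy
    have hO : y ∈ Om := by
      unfold Om E3
      rw [Set.mem_ofPred_eq]
      have h0 := Complex.normSq_pos.2 hy0
      have h1 := Complex.normSq_nonneg (y 1)
      have h2 := Complex.normSq_nonneg (y 2)
      linarith
    have hlim : Tendsto (fun n : ℕ => wt k y * xx c n j y) atTop (𝓝 0) := by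
      have hE : Tendsto (fun n : ℕ => E3 (phi 1 0 n y)) atTop atTop := by
        have h1 : Tendsto (fun n : ℕ => Real.exp (2 * (n : ℝ)) * Complex.normSq (y 0)) atTop
            atTop := by
          apply Tendsto.atTop_mul_const (Complex.normSq_pos.2 hy0)
          apply Real.tendsto_exp_atTop.comp
          exact tendsto_natCast_atTop_atTop.const_mul_atTop (by norm_num)
        refine tendsto_atTop_mono (fun n => ?_) h1
        rw [E3_phi]
        have h1 := Complex.normSq_nonneg (y 1)
        have h2 := Complex.normSq_nonneg (y 2)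
        linarith
      have hup : Tendsto (fun n : ℕ => C1 * (C2 / E3 (phi 1 0 n y))) atTop (𝓝 0) := by
        have := (hE.inv_tendsto_atTop.const_mul C2).const_mul C1
        simpa [div_eq_mul_inv] using this
      exact squeeze_zero (fun n => wt_xx_nonneg hc.toCone1 hk n j y)
        (fun n => hmain n y hy hO) hup
    have := ENNReal.tendsto_ofReal hlim
    rwa [ENNReal.ofReal_zero] at this

end

section

open scoped ContDiff Topology ComplexOrder ENNReal
open MeasureTheory Filter

def ZZ : Set (V 4) := {z | z 1 ≠ 0 ∧ z 2 ≠ 0}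

lemma isOpen_ZZ : IsOpen ZZ :=
  (isOpen_ne_fun (continuous_apply 1) continuous_const).inter
    (isOpen_ne_fun (continuous_apply 2) continuous_const)

lemma ZZ_subset : ZZ ⊆ Om := by
  rintro z ⟨h1, _⟩
  unfold Om E3
  rw [Set.mem_ofPred_eq]
  have h0 := Complex.normSq_nonneg (z 0)
  have h1' := Complex.normSq_pos.2 h1
  have h2 := Complex.normSq_nonneg (z 2)
  linarith

lemma ae_ZZ : ∀ᵐ y : V 4, y ∈ ZZ := by
  filter_upwards [ae_ne 1, ae_ne 2] with y h1 h2 using ⟨h1, h2⟩

def C0 (c : V 4 → Matrix (Fin 4) (Fin 4) ℂ) (z : V 4) : ℝ≥0∞ :=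
  ZZ.indicator (fun z => ENNReal.ofReal (c z 0 0).re) z

def H0 (k : ℝ → ℝ) (c : V 4 → Matrix (Fin 4) (Fin 4) ℂ) (z : V 4) : ℝ≥0∞ :=
  D2.indicator (fun y => ENNReal.ofReal (hh k c 0 y)) z

lemma measurable_C0 {c : V 4 → Matrix (Fin 4) (Fin 4) ℂ} (hc : BForm c) : Measurable (C0 c) := by
  classical
  have h1 : ContinuousOn (fun z => ENNReal.ofReal (c z 0 0).re) ZZ := by
    apply ENNReal.continuous_ofReal.comp_continuousOn
    apply Complex.continuous_re.comp_continuousOn
    exact (hc.smooth 0 0).continuousOn.mono ZZ_subset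
  have h2 : Measurable (ZZ.piecewise (fun z => ENNReal.ofReal (c z 0 0).re)
      (fun _ => (0 : ℝ≥0∞))) :=
    ContinuousOn.measurable_piecewise h1 continuousOn_const isOpen_ZZ.measurableSet
  have e : C0 c = ZZ.piecewise (fun z => ENNReal.ofReal (c z 0 0).re) (fun _ => (0 : ℝ≥0∞)) := by
    ext z
    unfold C0
    by_cases hz : z ∈ ZZ
    · rw [Set.indicator_of_mem hz, Set.piecewise_eq_of_mem _ _ _ hz]
    · rw [Set.indicator_of_notMem hz, Set.piecewise_eq_of_notMem _ _ _ hz]
  rw [e]
  exact h2

lemma measurable_H0 {c : V 4 → Matrix (Fin 4) (Fin 4) ℂ} (hc : BForm c) {k : ℝ → ℝ}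
    (hk : IsWeight k) : Measurable (H0 k c) :=
  (continuous_hh hc hk 0).measurable.ennreal_ofReal.indicator measurableSet_D2

lemma continuous_phi (s : ℝ) : Continuous (phi 1 0 s) := by
  have h := (contDiff_phi 1 0 (r := 0)).continuous
  exact h.comp (Continuous.prodMk_right s)

lemma phi_update (s : ℝ) (x : V 4) (z : ℂ) :
    phi 1 0 s (Function.update x 0 z) = Function.update x 0 ((Real.exp s : ℂ) * z) := by
  ext i
  by_cases h : i = 0
  · subst h
    rw [phi_apply_zero]
    simp
  · rw [phi_apply_ne h]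
    simp [h]

lemma change0 {F : V 4 → ℝ≥0∞} (hF : Measurable F) (s : ℝ) :
    ∫⁻ y, ENNReal.ofReal (Real.exp (2 * s)) * F (phi 1 0 s y) = ∫⁻ y, F y := by
  have h1 : Measurable fun y => ENNReal.ofReal (Real.exp (2 * s)) * F (phi 1 0 s y) :=
    (hF.comp (continuous_phi s).measurable).const_mul _
  apply lint_eq_of_marg 0 h1 hF
  intro x
  simp only [phi_update]
  have h2 : Measurable fun z => F (Function.update x 0 z) := hF.comp (measurable_update x)
  have hw : (Real.exp s : ℂ) ≠ 0 := by exact_mod_cast (Real.exp_pos s).ne'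
  have h3 : Measurable fun z => F (Function.update x 0 ((Real.exp s : ℂ) * z)) :=
    h2.comp (measurable_const_mul _)
  rw [lintegral_const_mul _ h3, ← scale_C hw h2]
  congr 2
  rw [Complex.normSq_ofReal, ← Real.exp_add, two_mul]

lemma phi_phi (s : ℝ) (y : V 4) : phi 1 0 (-s) (phi 1 0 s y) = y := by
  ext i
  by_cases h : i = 0
  · subst h
    rw [phi_apply_zero, phi_apply_zero, ← mul_assoc, ← Complex.ofReal_mul, ← Real.exp_add]
    simp
  · rw [phi_apply_ne h, phi_apply_ne h]

lemma phi_mem_ZZ {s : ℝ} {y : V 4} (hy : y ∈ ZZ) : phi 1 0 s y ∈ ZZ := by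
  refine ⟨?_, ?_⟩
  · rw [phi_apply_ne (by decide)]; exact hy.1
  · rw [phi_apply_ne (by decide)]; exact hy.2

theorem JJ_zero_eq {c : V 4 → Matrix (Fin 4) (Fin 4) ℂ} (hc : Cone1 c) {k : ℝ → ℝ}
    (hk : IsWeight k) (s : ℝ) :
    JJ k c s 0 = ∫⁻ z, H0 k c (phi 1 0 (-s) z) * C0 c z := by
  have hF : Measurable fun z => H0 k c (phi 1 0 (-s) z) * C0 c z :=
    ((measurable_H0 hc.toBForm hk).comp (continuous_phi (-s)).measurable).mul
      (measurable_C0 hc.toBForm)
  rw [← change0 hF s]
  unfold JJ
  rw [← lintegral_indicator measurableSet_D2]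
  apply lintegral_congr_ae
  filter_upwards [ae_ZZ] with y hy
  rw [phi_phi]
  unfold H0 C0
  rw [Set.indicator_of_mem (phi_mem_ZZ hy)]
  by_cases hD : y ∈ D2
  · rw [Set.indicator_of_mem hD, Set.indicator_of_mem hD]
    have h1 : wt k y * xx c s 0 y =
        Real.exp (2 * s) * (hh k c 0 y * (c (phi 1 0 s y) 0 0).re) := by
      unfold xx hh aflow
      have : ex 1 s 0 = Real.exp s := by simp [ex]
      simp only [Matrix.of_apply, this]
      have e : (Real.exp s : ℂ) * (Real.exp s : ℂ) * c (phi 1 0 s y) 0 0 =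
          ((Real.exp (2 * s) : ℝ) : ℂ) * c (phi 1 0 s y) 0 0 := by
        rw [two_mul, Real.exp_add]
        push_cast
        ring
      rw [e, Complex.re_ofReal_mul]
      ring
    rw [h1, ENNReal.ofReal_mul (Real.exp_pos _).le, ENNReal.ofReal_mul (hh_nonneg hc hk 0 y)]
  · rw [Set.indicator_of_notMem hD, Set.indicator_of_notMem hD]
    simp

/-- the limit density -/
def G1 (k : ℝ → ℝ) (c : V 4 → Matrix (Fin 4) (Fin 4) ℂ) (z : V 4) : ℝ≥0∞ :=
  D2.indicator (fun z => ENNReal.ofReal (hh k c 0 (Function.update z 0 0))) z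

lemma measurable_G1 {c : V 4 → Matrix (Fin 4) (Fin 4) ℂ} (hc : BForm c) {k : ℝ → ℝ}
    (hk : IsWeight k) : Measurable (G1 k c) := by
  have h1 : Continuous fun z : V 4 => Function.update z 0 (0 : ℂ) :=
    continuous_id.update 0 continuous_const
  exact ((continuous_hh hc hk 0).comp h1).measurable.ennreal_ofReal.indicator measurableSet_D2

lemma phi_mem_D2 {s : ℝ} {y : V 4} : phi 1 0 s y ∈ D2 ↔ y ∈ D2 := by
  unfold D2
  rw [Set.mem_ofPred_eq, Set.mem_ofPred_eq, phi_apply_ne (by decide)]

theorem tendsto_JJ {c : V 4 → Matrix (Fin 4) (Fin 4) ℂ} (hc : PCone c) {k : ℝ → ℝ}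
    (hk : IsWeight k) {A0 : ℝ≥0∞} (hA0' : A0 ≠ ⊤)
    (hA0 : ∀ y : V 4, y 1 ≠ 0 → y 2 ≠ 0 →
      ∫⁻ s, ENNReal.ofReal (c (Function.update y 0 s) 0 0).re ≤ A0) :
    Tendsto (fun n : ℕ => JJ k c n 0) atTop (𝓝 (∫⁻ z, G1 k c z * C0 c z)) := by
  obtain ⟨c0, hc0, hc1⟩ := IsWeight.wt_large hk
  obtain ⟨C1, hC10, hC1⟩ := hh_bound hc.toBForm hk 0
  have hmargin : ∀ x : V 4, ∫⁻ s, C0 c (Function.update x 0 s) ≤ A0 := by
    intro x
    by_cases hx : x ∈ ZZ
    · have : ∀ s, C0 c (Function.update x 0 s) =
          ENNReal.ofReal (c (Function.update x 0 s) 0 0).re := by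
        intro s
        unfold C0
        rw [Set.indicator_of_mem]
        refine ⟨?_, ?_⟩
        · rw [Function.update_of_ne (by decide)]; exact hx.1
        · rw [Function.update_of_ne (by decide)]; exact hx.2
      simp only [this]
      exact hA0 x hx.1 hx.2
    · have : ∀ s, C0 c (Function.update x 0 s) = 0 := by
        intro s
        unfold C0
        rw [Set.indicator_of_notMem]
        rintro ⟨h1, h2⟩
        rw [Function.update_of_ne (by decide)] at h1 h2
        exact hx ⟨h1, h2⟩
      simp [this]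
  set N : Set (V 4) := {z | Complex.normSq (z 1) + Complex.normSq (z 2) ≤ c0} ∩ D2 with hN
  have hNm : MeasurableSet N := by
    refine MeasurableSet.inter ?_ measurableSet_D2
    apply measurableSet_le _ measurable_const
    have h1 : Continuous fun z : V 4 => Complex.normSq (z 1) + Complex.normSq (z 2) :=
      (Complex.continuous_normSq.comp (continuous_apply 1)).add
        (Complex.continuous_normSq.comp (continuous_apply 2))
    exact h1.measurable
  simp only [fun n : ℕ => JJ_zero_eq hc.toCone1 hk n]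
  refine tendsto_lintegral_of_dominated_convergence
    (fun z => N.indicator (fun _ => ENNReal.ofReal C1) z * C0 c z) ?_ ?_ ?_ ?_
  · intro n
    exact ((measurable_H0 hc.toBForm hk).comp (continuous_phi _).measurable).mul
      (measurable_C0 hc.toBForm)
  · intro n
    refine Eventually.of_forall fun z => ?_
    change H0 k c (phi 1 0 (-n) z) * C0 c z ≤
      N.indicator (fun _ => ENNReal.ofReal C1) z * C0 c z
    gcongr
    unfold H0
    by_cases hD : z ∈ D2
    · rw [Set.indicator_of_mem (phi_mem_D2.2 hD)]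
      by_cases hz : Complex.normSq (z 1) + Complex.normSq (z 2) ≤ c0
      · rw [Set.indicator_of_mem (show z ∈ N from ⟨hz, hD⟩)]
        exact ENNReal.ofReal_le_ofReal (hC1 _ (phi_mem_D2.2 hD))
      · rw [Set.indicator_of_notMem (fun h => hz h.1)]
        push Not at hz
        have : c0 < E3 (phi 1 0 (-n) z) := by
          rw [E3_phi]
          have h1 := Complex.normSq_nonneg (z 0)
          have h2 := Real.exp_pos (2 * (-(n : ℝ)))
          nlinarith [mul_nonneg h2.le h1]
        unfold hh
        rw [hc1 _ this]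
        simp
    · rw [Set.indicator_of_notMem (fun h => hD (phi_mem_D2.1 h))]
      exact zero_le
  · have hgm : Measurable (N.indicator (fun _ => ENNReal.ofReal C1) : V 4 → ℝ≥0∞) :=
      measurable_const.indicator hNm
    have h1 := marg_le 0 (g := fun z => N.indicator (fun _ => ENNReal.ofReal C1) z)
      (φ := C0 c) hgm (measurable_C0 hc.toBForm) ?_ (A := A0) (fun x _ => hmargin x)
    · refine ne_top_of_le_ne_top ?_ h1
      apply ENNReal.mul_ne_top hA0'
      have h2 : ∫⁻ x : V 4, N.indicator (fun _ => ENNReal.ofReal C1) x * rho (x 0) ≤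
          ∫⁻ x : V 4, (Kc (c0 + 2)).indicator (fun _ => ENNReal.ofReal C1) x := by
        apply lintegral_mono
        intro x
        change N.indicator (fun _ => ENNReal.ofReal C1) x * rho (x 0) ≤
          (Kc (c0 + 2)).indicator (fun _ => ENNReal.ofReal C1) x
        by_cases hx : x ∈ N
        · by_cases hx0 : x 0 ∈ box 1
          · have hK : x ∈ Kc (c0 + 2) := by
              apply D2_subset_Kc
              refine ⟨hx.2, ?_⟩
              have hn := hx.1
              rw [Set.mem_ofPred_eq] at hn ⊢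
              have h3 : Complex.normSq (x 0) ≤ 2 := by
                rw [Complex.normSq_apply]
                obtain ⟨⟨a1, a2⟩, a3, a4⟩ := hx0
                nlinarith
              unfold E3
              linarith
            rw [Set.indicator_of_mem hx, Set.indicator_of_mem hK]
            unfold rho
            rw [Set.indicator_of_mem hx0, mul_one]
          · unfold rho
            rw [Set.indicator_of_notMem hx0, mul_zero]
            exact zero_le
        · rw [Set.indicator_of_notMem hx, zero_mul]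
          exact zero_le
      refine ne_top_of_le_ne_top ?_ h2
      rw [lintegral_indicator (isCompact_Kc _).measurableSet, setLIntegral_const]
      exact ENNReal.mul_ne_top ENNReal.ofReal_ne_top (isCompact_Kc _).measure_lt_top.ne
    · intro x s
      have : Function.update x 0 s ∈ N ↔ x ∈ N := by
        simp only [hN, Set.mem_inter_iff, Set.mem_ofPred_eq, D2]
        rw [Function.update_of_ne (by decide), Function.update_of_ne (by decide),
          Function.update_of_ne (by decide)]
      by_cases hx : x ∈ N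
      · rw [Set.indicator_of_mem hx, Set.indicator_of_mem (this.2 hx)]
      · rw [Set.indicator_of_notMem hx, Set.indicator_of_notMem (fun h => hx (this.1 h))]
  · refine Eventually.of_forall fun z => ?_
    have hC0 : C0 c z ≠ ⊤ := by
      unfold C0
      by_cases hz : z ∈ ZZ
      · rw [Set.indicator_of_mem hz]; exact ENNReal.ofReal_ne_top
      · rw [Set.indicator_of_notMem hz]; simp
    refine ENNReal.Tendsto.mul_const ?_ (Or.inr hC0)
    unfold H0 G1
    by_cases hD : z ∈ D2
    · simp only [Set.indicator_of_mem hD, Set.indicator_of_mem (phi_mem_D2.2 hD)]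
      apply ENNReal.tendsto_ofReal
      have hlim : Tendsto (fun n : ℕ => phi 1 0 (-n) z) atTop (𝓝 (Function.update z 0 0)) := by
        rw [tendsto_pi_nhds]
        intro i
        by_cases h : i = 0
        · subst h
          simp only [phi_apply_zero, Function.update_self]
          have h1 : Tendsto (fun n : ℕ => Real.exp (-(n : ℝ))) atTop (𝓝 0) :=
            Real.tendsto_exp_neg_atTop_nhds_zero.comp tendsto_natCast_atTop_atTop
          have h2 : Tendsto (fun n : ℕ => ((Real.exp (-(n : ℝ)) : ℝ) : ℂ)) atTop (𝓝 0) := by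
            have := (Complex.continuous_ofReal.tendsto 0).comp h1
            rw [Complex.ofReal_zero] at this
            exact this
          have h3 := h2.mul_const (z 0)
          rw [zero_mul] at h3
          exact h3
        · simp only [phi_apply_ne h, Function.update_of_ne h]
          exact tendsto_const_nhds
      exact ((continuous_hh hc.toBForm hk 0).tendsto _).comp hlim
    · simp only [Set.indicator_of_notMem hD, Set.indicator_of_notMem (fun h => hD (phi_mem_D2.1 h))]
      exact tendsto_const_nhds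

end

section

open scoped ContDiff Topology ComplexOrder ENNReal
open MeasureTheory Filter

lemma det_row0 {M : Matrix (Fin 4) (Fin 4) ℂ} (h : ∀ k, M 0 k = if k = 0 then 1 else 0) :
    M.det = (M.submatrix (Fin.succAbove 0) (Fin.succAbove 0)).det := by
  rw [Matrix.det_succ_row M 0, Finset.sum_eq_single 0]
  · rw [h]
    simp
  · intro k _ hk
    rw [h, if_neg hk]
    ring
  · simp

lemma adj00 {c : V 4 → Matrix (Fin 4) (Fin 4) ℂ} (hc : PCone c) {y : V 4} (hy0 : y 0 = 0)
    (hy2 : y 2 ≠ 0) :
    (addRad c y).adjugate 0 0 = c y 1 1 / ((Complex.normSq (y 2) : ℝ) : ℂ) := by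
  have hO : y ∈ Om := by
    unfold Om E3
    rw [Set.mem_ofPred_eq]
    have h0 := Complex.normSq_nonneg (y 0)
    have h1 := Complex.normSq_nonneg (y 1)
    have h2 := Complex.normSq_pos.2 hy2
    linarith
  have hE : (E3 y : ℂ) ≠ 0 := by exact_mod_cast (ne_of_gt hO)
  have h1 : (addRad c y).adjugate 0 0 =
      ((addRad c y).submatrix (Fin.succAbove 0) (Fin.succAbove 0)).det := by
    rw [Matrix.adjugate_apply, det_row0]
    · congr 1
    · intro k
      rw [Matrix.updateRow_self, Pi.single_apply]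
  rw [h1, Matrix.det_fin_three]
  simp only [Matrix.submatrix_apply]
  have s0 : Fin.succAbove (0 : Fin 4) (0 : Fin 3) = 1 := rfl
  have s1 : Fin.succAbove (0 : Fin 4) (1 : Fin 3) = 2 := rfl
  have s2 : Fin.succAbove (0 : Fin 4) (2 : Fin 3) = 3 := rfl
  rw [s0, s1, s2]
  simp only [addRad_apply]
  have r1 : rad y 1 = star (y 1) / (E3 y : ℂ) := by simp [rad]
  have r2 : rad y 2 = star (y 2) / (E3 y : ℂ) := by simp [rad]
  have r3 : rad y 3 = 0 := by simp [rad]
  have k1 := hc.kernel y hO 1
  have k2 := hc.kernel y hO 2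
  rw [Fin.sum_univ_three] at k1 k2
  have e0 : (Fin.castSucc 0 : Fin 4) = 0 := rfl
  have e1 : (Fin.castSucc 1 : Fin 4) = 1 := rfl
  have e2 : (Fin.castSucc 2 : Fin 4) = 2 := rfl
  rw [e0, e1, e2, hy0, zero_mul, zero_add] at k1 k2
  have c31 : c y 3 1 = 0 := hc.c3k y hO 1 (by decide)
  have c32 : c y 3 2 = 0 := hc.c3k y hO 2 (by decide)
  have c13 : c y 1 3 = 0 := by
    rw [← herm_apply (hc.herm y hO) 3 1, c31, star_zero]
  have c23 : c y 2 3 = 0 := by
    rw [← herm_apply (hc.herm y hO) 3 2, c32, star_zero]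
  have c33 : c y 3 3 = 1 := hc.c33 y hO
  have hs2 : star (y 2) ≠ 0 := by
    intro h
    apply hy2
    rw [← star_star (y 2), h, star_zero]
  have c21 : c y 2 1 = - (y 1 * c y 1 1 / y 2) := by
    field_simp
    linear_combination k1
  have c12 : c y 1 2 = - (star (y 1) * c y 1 1 / star (y 2)) := by
    rw [← herm_apply (hc.herm y hO) 2 1, c21, star_neg, star_div₀, star_mul',
      herm_apply (hc.herm y hO) 1 1]
  have c22 : c y 2 2 = y 1 * star (y 1) * c y 1 1 / (y 2 * star (y 2)) := by
    rw [c12] at k2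
    field_simp at k2 ⊢
    linear_combination k2
  have hEe : (E3 y : ℂ) = y 1 * star (y 1) + y 2 * star (y 2) := by
    unfold E3
    rw [hy0]
    push_cast
    simp only [Complex.star_def, Complex.mul_conj, map_zero, Complex.ofReal_zero, zero_add]
  have hn2 : ((Complex.normSq (y 2) : ℝ) : ℂ) = y 2 * star (y 2) := by
    rw [Complex.star_def, Complex.mul_conj]
  have hsE : star (E3 y : ℂ) = (E3 y : ℂ) := by simp
  rw [r1, r2, r3, c31, c32, c13, c23, c33, c22, c12, c21, hn2, star_div₀, star_div₀, star_star,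
    star_star, hsE]
  field_simp
  rw [hEe]
  ring

lemma change1 {F : V 4 → ℝ≥0∞} (hF : Measurable F) (hF0 : ∀ x, x 2 = 0 → F x = 0) :
    ∫⁻ x : V 4, ENNReal.ofReal (Complex.normSq (x 2)) * F (Function.update x 1 (x 2 * x 1)) =
      ∫⁻ x, F x := by
  have hc : Continuous fun x : V 4 => Function.update x 1 (x 2 * x 1) :=
    continuous_id.update 1 ((continuous_apply 2).mul (continuous_apply 1))
  have hn : Measurable fun x : V 4 => ENNReal.ofReal (Complex.normSq (x 2)) :=
    (Complex.continuous_normSq.comp (continuous_apply 2)).measurable.ennreal_ofReal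
  apply lint_eq_of_marg 1 (hn.mul (hF.comp hc.measurable)) hF
  intro x
  have h2 : Measurable fun z => F (Function.update x 1 z) := hF.comp (measurable_update x)
  have e : ∀ s, Function.update (Function.update x 1 s) 1
      ((Function.update x 1 s) 2 * (Function.update x 1 s) 1) = Function.update x 1 (x 2 * s) := by
    intro s
    rw [Function.update_self, Function.update_of_ne (by decide), Function.update_idem]
  change ∫⁻ s, ENNReal.ofReal (Complex.normSq ((Function.update x 1 s) 2)) *
    F (Function.update (Function.update x 1 s) 1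
      ((Function.update x 1 s) 2 * (Function.update x 1 s) 1)) = _
  simp only [e]
  have e2 : ∀ s, (Function.update x 1 s) 2 = x 2 := fun s =>
    Function.update_of_ne (by decide) _ _
  simp only [e2]
  have h3 : Measurable fun z => F (Function.update x 1 (x 2 * z)) :=
    h2.comp (measurable_const_mul _)
  rw [lintegral_const_mul _ h3]
  by_cases hx : x 2 = 0
  · rw [hx]
    have : ∀ s, F (Function.update x 1 s) = 0 := fun s => hF0 _ (by rw [e2, hx])
    simp [this]
  · exact scale_C hx h2

/-- the point `(0, x₁, 1, x₃)` -/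
def qq (x : V 4) : V 4 := Function.update (Function.update x 0 0) 2 1

lemma qq_mem (x : V 4) : qq x ∈ Om := by
  unfold Om E3
  rw [Set.mem_ofPred_eq]
  have h0 := Complex.normSq_nonneg (qq x 0)
  have h1 := Complex.normSq_nonneg (qq x 1)
  have h2 : qq x 2 = 1 := by unfold qq; simp
  rw [h2]
  simp
  linarith

lemma continuous_qq : Continuous qq :=
  (continuous_id.update 0 continuous_const).update 2 continuous_const

lemma E3_qq (x : V 4) : E3 (qq x) = 1 + Complex.normSq (x 1) := by
  unfold E3
  have h0 : qq x 0 = 0 := by unfold qq; simp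
  have h1 : qq x 1 = x 1 := by
    unfold qq
    rw [Function.update_of_ne (by decide), Function.update_of_ne (by decide)]
  have h2 : qq x 2 = 1 := by unfold qq; simp
  rw [h0, h1, h2]
  simp
  ring

lemma pp_eq (x : V 4) : Function.update (Function.update x 1 (x 2 * x 1)) 0 0 =
    scale (x 2) (qq x) := by
  ext i
  rw [scale_apply]
  fin_cases i
  · simp [qq]
  · simp [qq, sc]
  · simp [qq, sc]
  · simp [qq, sc]

lemma hh_pp {c : V 4 → Matrix (Fin 4) (Fin 4) ℂ} (hc : PCone c) {k : ℝ → ℝ} {x : V 4}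
    (hx : x 2 ≠ 0) :
    Complex.normSq (x 2) * hh k c 0 (Function.update (Function.update x 1 (x 2 * x 1)) 0 0) =
      (k (Real.log (Complex.normSq (x 2)) + Real.log (1 + Complex.normSq (x 1))) /
        Complex.normSq (x 2)) * (c (qq x) 1 1).re := by
  have hn : 0 < Complex.normSq (x 2) := Complex.normSq_pos.2 hx
  set p : V 4 := Function.update (Function.update x 1 (x 2 * x 1)) 0 0 with hp
  have hp' : p = scale (x 2) (qq x) := pp_eq x
  have hpO : p ∈ Om := by rw [hp']; exact scale_mem hx (qq_mem x)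
  have hp0 : p 0 = 0 := by rw [hp]; simp
  have hp2 : p 2 = x 2 := by
    rw [hp, Function.update_of_ne (by decide), Function.update_of_ne (by decide)]
  have h1 := adj00 hc hp0 (by rw [hp2]; exact hx)
  have h2 := hc.hom (qq x) (qq_mem x) (x 2) hx 1 1
  rw [← hp'] at h2
  have hsc : sc (x 2) 1 = x 2 := by simp [sc]
  rw [hsc] at h2
  have h3 : (c (qq x) 1 1).re = Complex.normSq (x 2) * (c p 1 1).re := by
    rw [h2]
    have : x 2 * c p 1 1 * star (x 2) = ((Complex.normSq (x 2) : ℝ) : ℂ) * c p 1 1 := by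
      rw [← Complex.mul_conj]
      simp only [Complex.star_def]
      ring
    rw [this, Complex.re_ofReal_mul]
  have hwt : wt k p = k (Real.log (Complex.normSq (x 2)) + Real.log (1 + Complex.normSq (x 1))) := by
    have hE : E3 p = Complex.normSq (x 2) * (1 + Complex.normSq (x 1)) := by
      rw [hp', E3_scale, E3_qq]
    have h4 : wt k p = k (Real.log (E3 p)) := if_pos hpO
    have h5 : (1 + Complex.normSq (x 1)) ≠ 0 := by
      have := Complex.normSq_nonneg (x 1)
      positivity
    rw [h4, hE, Real.log_mul hn.ne' h5]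
  unfold hh
  rw [h1, hp2, hwt, h3]
  have h6 : (c p 1 1 / ((Complex.normSq (x 2) : ℝ) : ℂ)).re =
      (c p 1 1).re / Complex.normSq (x 2) := Complex.div_ofReal_re _ _
  rw [h6]
  field_simp

/-- Fatou: the bound for lines in `{y₀ = 0}` -/
lemma line_limit {c : V 4 → Matrix (Fin 4) (Fin 4) ℂ} (hc : BForm c) {A1 : ℝ≥0∞}
    (hA1 : ∀ y : V 4, y 0 ≠ 0 → y 2 ≠ 0 →
      ∫⁻ s, ENNReal.ofReal (c (Function.update y 1 s) 1 1).re ≤ A1) {y : V 4} (hy0 : y 0 = 0)
    (hy2 : y 2 ≠ 0) : ∫⁻ s, ENNReal.ofReal (c (Function.update y 1 s) 1 1).re ≤ A1 := by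
  set u : ℕ → ℂ := fun n => ((1 / ((n : ℝ) + 1) : ℝ) : ℂ) with hu
  have hun : ∀ n, u n ≠ 0 := by
    intro n
    simp only [hu]
    exact_mod_cast (by positivity : (1 / ((n : ℝ) + 1)) ≠ 0)
  have hu0 : Tendsto u atTop (𝓝 0) := by
    have h1 : Tendsto (fun n : ℕ => 1 / ((n : ℝ) + 1)) atTop (𝓝 0) :=
      tendsto_one_div_add_atTop_nhds_zero_nat
    have := (Complex.continuous_ofReal.tendsto 0).comp h1
    rw [Complex.ofReal_zero] at this
    exact this
  have hmem : ∀ (w s : ℂ), Function.update (Function.update y 0 w) 1 s ∈ Om := by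
    intro w s
    unfold Om E3
    rw [Set.mem_ofPred_eq]
    have h0 := Complex.normSq_nonneg (Function.update (Function.update y 0 w) 1 s 0)
    have h1 := Complex.normSq_nonneg (Function.update (Function.update y 0 w) 1 s 1)
    have h2 : Function.update (Function.update y 0 w) 1 s 2 = y 2 := by
      rw [Function.update_of_ne (by decide), Function.update_of_ne (by decide)]
    rw [h2]
    have h3 := Complex.normSq_pos.2 hy2
    linarith
  have hcont : ∀ s, Continuous fun w : ℂ =>
      ENNReal.ofReal (c (Function.update (Function.update y 0 w) 1 s) 1 1).re := by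
    intro s
    apply ENNReal.continuous_ofReal.comp
    apply Complex.continuous_re.comp
    have h0 : Continuous fun w : ℂ => (Function.update y 0 w : V 4) :=
      continuous_const.update 0 continuous_id
    have h1 : Continuous fun w : ℂ => Function.update (Function.update y 0 w) 1 s :=
      h0.update 1 continuous_const
    have h2 : ContinuousOn (fun w => c (Function.update (Function.update y 0 w) 1 s) 1 1)
        Set.univ :=
      (hc.smooth 1 1).continuousOn.comp h1.continuousOn (fun w _ => hmem w s)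
    exact continuousOn_univ.1 h2
  have hmeas : ∀ n, Measurable fun s =>
      ENNReal.ofReal (c (Function.update (Function.update y 0 (u n)) 1 s) 1 1).re := by
    intro n
    apply Measurable.ennreal_ofReal
    exact (Complex.continuous_re.comp (continuous_line hc (hmem (u n)) 1 1)).measurable
  have h1 : ∀ s, ENNReal.ofReal (c (Function.update y 1 s) 1 1).re =
      liminf (fun n => ENNReal.ofReal
        (c (Function.update (Function.update y 0 (u n)) 1 s) 1 1).re) atTop := by
    intro s
    have h2 := ((hcont s).tendsto 0).comp hu0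
    have h3 : Function.update y 0 0 = y := by
      rw [← hy0]; exact Function.update_eq_self 0 y
    rw [h3] at h2
    exact h2.liminf_eq.symm
  simp only [h1]
  refine (lintegral_liminf_le hmeas).trans ?_
  refine liminf_le_of_frequently_le' ?_
  apply Frequently.of_forall
  intro n
  apply hA1
  · rw [Function.update_self]; exact hun n
  · rw [Function.update_of_ne (by decide)]; exact hy2

end

section

open scoped ContDiff Topology ComplexOrder ENNReal
open MeasureTheory Filter

/-- indicator of `D2` -/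
def iD (x : V 4) : ℝ≥0∞ := D2.indicator (fun _ => 1) x

lemma measurable_iD : Measurable iD := measurable_const.indicator measurableSet_D2

lemma iD_update {i : Fin 4} (hi : i ≠ 3) (x : V 4) (s : ℂ) : iD (Function.update x i s) = iD x := by
  have : Function.update x i s ∈ D2 ↔ x ∈ D2 := by
    unfold D2
    rw [Set.mem_ofPred_eq, Set.mem_ofPred_eq, Function.update_of_ne (Ne.symm hi)]
  unfold iD
  by_cases hx : x ∈ D2
  · rw [Set.indicator_of_mem hx, Set.indicator_of_mem (this.2 hx)]
  · rw [Set.indicator_of_notMem hx, Set.indicator_of_notMem (fun h => hx (this.1 h))]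

lemma measurable_rho_coord (i : Fin 4) : Measurable fun x : V 4 => rho (x i) :=
  measurable_rho.comp (measurable_pi_apply i)

lemma lintegral_boxes : ∫⁻ x : V 4, iD x * rho (x 0) * rho (x 2) * rho (x 1) = 4 := by
  set B : Fin 4 → Set ℂ := ![box 1, box 1, box 1, box 2] with hB
  have h1 : ∀ x : V 4, iD x * rho (x 0) * rho (x 2) * rho (x 1) =
      (Set.pi Set.univ B).indicator (fun _ => 1) x := by
    intro x
    have hmem : x ∈ Set.pi Set.univ B ↔ (x 0 ∈ box 1 ∧ x 1 ∈ box 1 ∧ x 2 ∈ box 1 ∧ x 3 ∈ box 2) := by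
      rw [Set.mem_univ_pi, Fin.forall_fin_succ, Fin.forall_fin_succ, Fin.forall_fin_succ,
        Fin.forall_fin_succ]
      simp [hB]
    unfold iD rho
    by_cases h0 : x 0 ∈ box 1
    · by_cases h1 : x 1 ∈ box 1
      · by_cases h2 : x 2 ∈ box 1
        · by_cases h3 : x 3 ∈ box 2
          · have h3' : x ∈ D2 := h3
            rw [Set.indicator_of_mem (hmem.2 ⟨h0, h1, h2, h3⟩), Set.indicator_of_mem h0,
              Set.indicator_of_mem h1, Set.indicator_of_mem h2, Set.indicator_of_mem h3']
            simp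
          · have h3' : x ∉ D2 := h3
            rw [Set.indicator_of_notMem (fun h => h3 (hmem.1 h).2.2.2),
              Set.indicator_of_notMem h3']
            simp
        · rw [Set.indicator_of_notMem (fun h => h2 (hmem.1 h).2.2.1),
            Set.indicator_of_notMem h2]
          simp
      · rw [Set.indicator_of_notMem (fun h => h1 (hmem.1 h).2.1),
          Set.indicator_of_notMem h1]
        simp
    · rw [Set.indicator_of_notMem (fun h => h0 (hmem.1 h).1),
        Set.indicator_of_notMem h0]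
      simp
  simp only [h1]
  have hBm : MeasurableSet (Set.pi Set.univ B) := by
    apply MeasurableSet.univ_pi
    intro i
    fin_cases i
    · exact measurableSet_box 1
    · exact measurableSet_box 1
    · exact measurableSet_box 1
    · exact measurableSet_box 2
  rw [lintegral_indicator hBm, setLIntegral_const, one_mul, volume_pi, Measure.pi_pi,
    Fin.prod_univ_four]
  change volume (box 1) * volume (box 1) * volume (box 1) * volume (box 2) = 4
  rw [volume_box_one, volume_box]
  norm_num

theorem limit_bound {c : V 4 → Matrix (Fin 4) (Fin 4) ℂ} (hc : PCone c) {k : ℝ → ℝ}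
    (hk : IsWeight k) {A0 A1 : ℝ≥0∞}
    (hA0 : ∀ y : V 4, y 1 ≠ 0 → y 2 ≠ 0 →
      ∫⁻ s, ENNReal.ofReal (c (Function.update y 0 s) 0 0).re ≤ A0)
    (hA1 : ∀ y : V 4, y 0 ≠ 0 → y 2 ≠ 0 →
      ∫⁻ s, ENNReal.ofReal (c (Function.update y 1 s) 1 1).re ≤ A1) :
    ∫⁻ z, G1 k c z * C0 c z ≤ A0 * (ENNReal.ofReal Real.pi * (A1 * 4)) := by
  have hmargin : ∀ x : V 4, ∫⁻ s, C0 c (Function.update x 0 s) ≤ A0 := by
    intro x
    by_cases hx : x ∈ ZZ
    · have : ∀ s, C0 c (Function.update x 0 s) =
          ENNReal.ofReal (c (Function.update x 0 s) 0 0).re := by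
        intro s
        unfold C0
        rw [Set.indicator_of_mem]
        refine ⟨?_, ?_⟩
        · rw [Function.update_of_ne (by decide)]; exact hx.1
        · rw [Function.update_of_ne (by decide)]; exact hx.2
      simp only [this]
      exact hA0 x hx.1 hx.2
    · have : ∀ s, C0 c (Function.update x 0 s) = 0 := by
        intro s
        unfold C0
        rw [Set.indicator_of_notMem]
        rintro ⟨h1, h2⟩
        rw [Function.update_of_ne (by decide)] at h1 h2
        exact hx ⟨h1, h2⟩
      simp [this]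
  have hG1m : Measurable (G1 k c) := measurable_G1 hc.toBForm hk
  have hG1u : ∀ x s, G1 k c (Function.update x 0 s) = G1 k c x := by
    intro x s
    have : Function.update x 0 s ∈ D2 ↔ x ∈ D2 := by
      unfold D2
      rw [Set.mem_ofPred_eq, Set.mem_ofPred_eq, Function.update_of_ne (by decide)]
    unfold G1
    by_cases hx : x ∈ D2
    · rw [Set.indicator_of_mem hx, Set.indicator_of_mem (this.2 hx), Function.update_idem]
    · rw [Set.indicator_of_notMem hx, Set.indicator_of_notMem (fun h => hx (this.1 h))]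
  have step1 := marg_le 0 hG1m (measurable_C0 hc.toBForm) hG1u (A := A0)
    (fun x _ => hmargin x)
  refine step1.trans ?_
  gcongr
  -- second step
  set F : V 4 → ℝ≥0∞ := fun x => ({x : V 4 | x 2 ≠ 0}).indicator
    (fun x => G1 k c x * rho (x 0)) x with hF
  have hFm : Measurable F := by
    apply Measurable.indicator (hG1m.mul (measurable_rho_coord 0))
    exact (isOpen_ne_fun (continuous_apply 2) continuous_const).measurableSet
  have hF0 : ∀ x : V 4, x 2 = 0 → F x = 0 := by
    intro x hx
    simp only [hF]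
    rw [Set.indicator_of_notMem]
    intro h
    exact h hx
  have e1 : ∫⁻ x : V 4, G1 k c x * rho (x 0) = ∫⁻ x, F x := by
    apply lintegral_congr_ae
    filter_upwards [ae_ne 2] with x hx
    simp only [hF]
    rw [Set.indicator_of_mem (by exact hx)]
  rw [e1, ← change1 hFm hF0]
  set G2 : V 4 → ℝ≥0∞ := fun x => iD x * rho (x 0) * ENNReal.ofReal (c (qq x) 1 1).re with hG2
  set Φ2 : V 4 → ℝ≥0∞ := fun x => ENNReal.ofReal
    (k (Real.log (Complex.normSq (x 2)) + Real.log (1 + Complex.normSq (x 1))) /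
        Complex.normSq (x 2)) with hΦ2
  have hcq : Continuous fun x => c (qq x) 1 1 := by
    have h2 : ContinuousOn (fun x => c (qq x) 1 1) Set.univ :=
      (hc.smooth 1 1).continuousOn.comp continuous_qq.continuousOn (fun x _ => qq_mem x)
    exact continuousOn_univ.1 h2
  have hcqm : Measurable fun x => ENNReal.ofReal (c (qq x) 1 1).re :=
    (Complex.continuous_re.comp hcq).measurable.ennreal_ofReal
  have hG2m : Measurable G2 := (measurable_iD.mul (measurable_rho_coord 0)).mul hcqm
  have hn : ∀ i : Fin 4, Measurable fun x : V 4 => Complex.normSq (x i) := fun i =>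
    (Complex.continuous_normSq.comp (continuous_apply i)).measurable
  have hΦ2m : Measurable Φ2 := by
    apply Measurable.ennreal_ofReal
    refine Measurable.div ?_ (hn 2)
    apply hk.smooth.continuous.measurable.comp
    exact (Real.measurable_log.comp (hn 2)).add
      (Real.measurable_log.comp (measurable_const.add (hn 1)))
  have e2 : ∀ x : V 4, ENNReal.ofReal (Complex.normSq (x 2)) *
      F (Function.update x 1 (x 2 * x 1)) ≤ G2 x * Φ2 x := by
    intro x
    by_cases hx : x 2 = 0
    · rw [hx]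
      simp
    · simp only [hF]
      rw [Set.indicator_of_mem (show Function.update x 1 (x 2 * x 1) ∈ {x : V 4 | x 2 ≠ 0} by
        rw [Set.mem_ofPred_eq, Function.update_of_ne (by decide)]; exact hx)]
      have hD : Function.update x 1 (x 2 * x 1) ∈ D2 ↔ x ∈ D2 := by
        unfold D2
        rw [Set.mem_ofPred_eq, Set.mem_ofPred_eq, Function.update_of_ne (by decide)]
      have h0 : (Function.update x 1 (x 2 * x 1)) 0 = x 0 := Function.update_of_ne (by decide) _ _
      rw [h0]
      simp only [G1, hG2, hΦ2, iD]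
      by_cases hxD : x ∈ D2
      · rw [Set.indicator_of_mem hxD, Set.indicator_of_mem (hD.2 hxD), one_mul]
        have h1 := hh_pp hc (k := k) hx
        have hcre : 0 ≤ (c (qq x) 1 1).re := diag_nonneg (hc.psd (qq_mem x)) 1
        have hn0 : 0 ≤ Complex.normSq (x 2) := Complex.normSq_nonneg _
        rw [← mul_assoc (ENNReal.ofReal (Complex.normSq (x 2))), ← ENNReal.ofReal_mul hn0, h1,
          ENNReal.ofReal_mul (div_nonneg (hk.nonneg _) hn0)]
        apply le_of_eq
        ring
      · rw [Set.indicator_of_notMem hxD, Set.indicator_of_notMem (fun h => hxD (hD.1 h))]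
        simp
  refine (lintegral_mono e2).trans ?_
  have hG2u : ∀ x s, G2 (Function.update x 2 s) = G2 x := by
    intro x s
    simp only [hG2]
    rw [iD_update (by decide), Function.update_of_ne (by decide)]
    have : qq (Function.update x 2 s) = qq x := by
      unfold qq
      ext i
      fin_cases i <;> simp
    rw [this]
  have step2 := marg_le 2 hG2m hΦ2m hG2u (A := ENNReal.ofReal Real.pi) (fun x _ => by
    simp only [hΦ2, Function.update_self]
    have : ∀ s, (Function.update x 2 s) 1 = x 1 := fun s => Function.update_of_ne (by decide) _ _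
    simp only [this]
    exact (polar_k hk _).le)
  refine step2.trans ?_
  gcongr
  -- third step
  set G3 : V 4 → ℝ≥0∞ := fun x => iD x * rho (x 0) * rho (x 2) with hG3
  set Φ3 : V 4 → ℝ≥0∞ := fun x => ENNReal.ofReal (c (qq x) 1 1).re with hΦ3
  have hG3m : Measurable G3 := (measurable_iD.mul (measurable_rho_coord 0)).mul
    (measurable_rho_coord 2)
  have e3 : ∀ x, G2 x * rho (x 2) = G3 x * Φ3 x := by
    intro x
    simp only [hG2, hG3, hΦ3]
    ring
  simp only [e3]
  have hG3u : ∀ x s, G3 (Function.update x 1 s) = G3 x := by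
    intro x s
    simp only [hG3]
    rw [iD_update (by decide), Function.update_of_ne (by decide), Function.update_of_ne (by decide)]
  have step3 := marg_le 1 hG3m hcqm hG3u (A := A1) (fun x _ => by
    have : ∀ s, qq (Function.update x 1 s) = Function.update (qq x) 1 s := by
      intro s
      unfold qq
      ext i
      fin_cases i <;> simp
    change ∫⁻ s, ENNReal.ofReal (c (qq (Function.update x 1 s)) 1 1).re ≤ A1
    simp only [this]
    apply line_limit hc.toBForm hA1
    · unfold qq; simp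
    · unfold qq; simp)
  refine step3.trans (le_of_eq ?_)
  rw [← lintegral_boxes]

theorem shell_pc_le {c : V 4 → Matrix (Fin 4) (Fin 4) ℂ} (hc : PCone c) {k : ℝ → ℝ}
    (hk : IsWeight k) {A0 A1 : ℝ} (h0 : 0 ≤ A0) (h1 : 0 ≤ A1)
    (hA0 : ∀ y : V 4, y 1 ≠ 0 → y 2 ≠ 0 →
      ∫⁻ s, ENNReal.ofReal (c (Function.update y 0 s) 0 0).re ≤ ENNReal.ofReal A0)
    (hA1 : ∀ y : V 4, y 0 ≠ 0 → y 2 ≠ 0 →
      ∫⁻ s, ENNReal.ofReal (c (Function.update y 1 s) 1 1).re ≤ ENNReal.ofReal A1) :
    shell k c ≤ 2 * Real.pi * A0 * A1 := by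
  set Li : ℝ≥0∞ := ∫⁻ z, G1 k c z * C0 c z with hLi
  have hL := limit_bound hc hk hA0 hA1
  have hLr : ENNReal.ofReal A0 * (ENNReal.ofReal Real.pi * (ENNReal.ofReal A1 * 4)) =
      ENNReal.ofReal (4 * Real.pi * A0 * A1) := by
    rw [show (4 : ℝ≥0∞) = ENNReal.ofReal 4 by norm_num, ← ENNReal.ofReal_mul h1,
      ← ENNReal.ofReal_mul Real.pi_pos.le, ← ENNReal.ofReal_mul h0]
    congr 1
    ring
  rw [hLr] at hL
  have hLtop : Li ≠ ⊤ := ne_top_of_le_ne_top ENNReal.ofReal_ne_top hL
  have t0 := tendsto_JJ hc hk ENNReal.ofReal_ne_top hA0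
  have t1 := tendsto_JJ_zero hc hk (j := 1) (by decide) (by decide)
  have t2 := tendsto_JJ_zero hc hk (j := 2) (by decide) (by decide)
  have key : ∀ ε : ℝ, 0 < ε → ENNReal.ofReal (2 * shell k c) ≤ ENNReal.ofReal (1 + ε) * Li := by
    intro ε hε
    have h2 : Tendsto (fun n : ℕ => ENNReal.ofReal (1 + ε) * JJ k c n 0 +
        ENNReal.ofReal (2 * (1 + 1 / ε)) * (JJ k c n 1 + JJ k c n 2)) atTop
        (𝓝 (ENNReal.ofReal (1 + ε) * Li + ENNReal.ofReal (2 * (1 + 1 / ε)) * (0 + 0))) := by
      apply Tendsto.add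
      · exact ENNReal.Tendsto.const_mul t0 (Or.inr ENNReal.ofReal_ne_top)
      · exact ENNReal.Tendsto.const_mul (t1.add t2) (Or.inr ENNReal.ofReal_ne_top)
    rw [add_zero, mul_zero, add_zero] at h2
    exact ge_of_tendsto' h2 (fun n => two_shell_le hc hk n hε)
  have key2 : ∀ ε : ℝ, 0 < ε → 2 * shell k c ≤ (1 + ε) * (4 * Real.pi * A0 * A1) := by
    intro ε hε
    have h3 := (key ε hε).trans (mul_le_mul' le_rfl hL)
    rw [← ENNReal.ofReal_mul (by positivity)] at h3
    have h4 : 0 ≤ (1 + ε) * (4 * Real.pi * A0 * A1) := by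
      have := Real.pi_pos
      positivity
    exact (ENNReal.ofReal_le_ofReal_iff h4).1 h3
  have key3 : 2 * shell k c ≤ 4 * Real.pi * A0 * A1 := by
    have h5 : Tendsto (fun ε : ℝ => (1 + ε) * (4 * Real.pi * A0 * A1)) (𝓝[>] 0)
        (𝓝 ((1 + 0) * (4 * Real.pi * A0 * A1))) := by
      apply Tendsto.mono_left _ nhdsWithin_le_nhds
      exact ((continuous_const.add continuous_id).mul continuous_const).tendsto 0
    rw [add_zero, one_mul] at h5
    refine ge_of_tendsto h5 ?_
    filter_upwards [self_mem_nhdsWithin] with ε hε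
    exact key2 ε hε
  linarith

end

end KS

section

open scoped ContDiff Topology ComplexOrder ENNReal
open MeasureTheory Filter

theorem shell_le {a : V 4 → Matrix (Fin 4) (Fin 4) ℂ} (ha : Cone a) {k : ℝ → ℝ} (hk : IsWeight k)
    {A0 A1 α : ℝ}
    (h0 : ∀ y : V 4, y 1 ≠ 0 → y 2 ≠ 0 → ∀ K : ℝ, 0 < K →
      ∫ s in Metric.ball (0 : ℂ) K, (a (Function.update y 0 s) 0 0).re ≤ A0)
    (h1 : ∀ y : V 4, y 0 ≠ 0 → y 2 ≠ 0 → ∀ K : ℝ, 0 < K →
      ∫ s in Metric.ball (0 : ℂ) K, (a (Function.update y 1 s) 1 1).re ≤ A1)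
    (h3 : ∀ y : V 4, 0 < E3 y → ∫ s in box 2, (a (Function.update y 3 s) 3 3).re ≤ 4 * α) :
    shell k a ≤ 2 * Real.pi * α * A0 * A1 := by
  have ha1 := KS.Cone.toCone1 ha
  -- points
  set e : V 4 := fun _ => 1 with he
  have hupd : ∀ (i : Fin 4) (y : V 4) (j : Fin 4), j ≠ i → y j ≠ 0 → j ≠ 3 → ∀ s,
      Function.update y i s ∈ KS.Om := by
    intro i y j hji hyj hj3 s
    unfold KS.Om E3
    rw [Set.mem_ofPred_eq]
    set z := Function.update y i s with hz
    have hzj : z j = y j := Function.update_of_ne hji _ _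
    have p : 0 < Complex.normSq (z j) := by rw [hzj]; exact Complex.normSq_pos.2 hyj
    have q0 := Complex.normSq_nonneg (z 0)
    have q1 := Complex.normSq_nonneg (z 1)
    have q2 := Complex.normSq_nonneg (z 2)
    fin_cases j
    · change 0 < Complex.normSq (z 0) at p
      linarith
    · change 0 < Complex.normSq (z 1) at p
      linarith
    · change 0 < Complex.normSq (z 2) at p
      linarith
    · exact absurd rfl hj3
  have hA0 : 0 ≤ A0 := by
    refine le_trans ?_ (h0 e (by simp [he]) (by simp [he]) 1 one_pos)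
    apply integral_nonneg
    intro s
    exact KS.diag_nonneg (ha1.psd (hupd 0 e 2 (by decide) (by simp [he]) (by decide) s)) 0
  have hA1 : 0 ≤ A1 := by
    refine le_trans ?_ (h1 e (by simp [he]) (by simp [he]) 1 one_pos)
    apply integral_nonneg
    intro s
    exact KS.diag_nonneg (ha1.psd (hupd 1 e 2 (by decide) (by simp [he]) (by decide) s)) 1
  have hα : 0 ≤ α := by
    have h4 : 0 ≤ 4 * α := by
      have hE : 0 < E3 e := by
        simp only [E3, he, map_one]
        norm_num
      refine le_trans ?_ (h3 e hE)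
      apply integral_nonneg
      intro s
      exact KS.diag_nonneg (ha1.psd (hupd 3 e 2 (by decide) (by simp [he]) (by decide) s)) 3
    linarith
  have hline0 : ∀ y : V 4, y 1 ≠ 0 → y 2 ≠ 0 →
      ∫⁻ s, ENNReal.ofReal (a (Function.update y 0 s) 0 0).re ≤ ENNReal.ofReal A0 := by
    intro y hy1 hy2
    have hm := hupd 0 y 2 (by decide) hy2 (by decide)
    exact KS.line_lintegral
      (Complex.continuous_re.comp (KS.continuous_line ha1.toBForm hm 0 0))
      (fun s => KS.diag_nonneg (ha1.psd (hm s)) 0) (h0 y hy1 hy2)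
  have hline1 : ∀ y : V 4, y 0 ≠ 0 → y 2 ≠ 0 →
      ∫⁻ s, ENNReal.ofReal (a (Function.update y 1 s) 1 1).re ≤ ENNReal.ofReal A1 := by
    intro y hy0 hy2
    have hm := hupd 1 y 2 (by decide) hy2 (by decide)
    exact KS.line_lintegral
      (Complex.continuous_re.comp (KS.continuous_line ha1.toBForm hm 1 1))
      (fun s => KS.diag_nonneg (ha1.psd (hm s)) 1) (h1 y hy0 hy2)
  have hp : KS.PCone (KS.pc (KS.tav a)) :=
    KS.PCone.pc ha1.tav fun y hy v => KS.tav_add_single ha1.toBForm hy v
  have hcoord : ∀ (y : V 4) (v : ℂ) (i : Fin 4), i ≠ 3 →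
      (y + Pi.single 3 v : V 4) i = y i := by
    intro y v i hi
    rw [Pi.add_apply, Pi.single_eq_of_ne hi, add_zero]
  have hb := KS.shell_pc_le hp hk hA0 hA1 (fun y hy1 hy2 => by
      have hm := hupd 0 y 2 (by decide) hy2 (by decide)
      have := KS.line_tav ha1 (i := 0) (by decide) hm (A := ENNReal.ofReal A0) (fun v =>
        hline0 _ (by rw [hcoord _ _ _ (by decide)]; exact hy1)
          (by rw [hcoord _ _ _ (by decide)]; exact hy2))
      simpa only [KS.pc_apply_ne (show (0 : Fin 4) ≠ 3 by decide)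
        (show (0 : Fin 4) ≠ 3 by decide)] using this)
    (fun y hy0 hy2 => by
      have hm := hupd 1 y 2 (by decide) hy2 (by decide)
      have := KS.line_tav ha1 (i := 1) (by decide) hm (A := ENNReal.ofReal A1) (fun v =>
        hline1 _ (by rw [hcoord _ _ _ (by decide)]; exact hy0)
          (by rw [hcoord _ _ _ (by decide)]; exact hy2))
      simpa only [KS.pc_apply_ne (show (1 : Fin 4) ≠ 3 by decide)
        (show (1 : Fin 4) ≠ 3 by decide)] using this)
  have hs := KS.shell_le_pc ha1 hk h3
  calc shell k a ≤ α * shell k (KS.pc (KS.tav a)) := hs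
    _ ≤ α * (2 * Real.pi * A0 * A1) := mul_le_mul_of_nonneg_left hb hα
    _ = 2 * Real.pi * α * A0 * A1 := by ring

end

end

end GK
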