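import Pool.Agent.GK.KeyTorus
import Pool.Agent.GK.KeyLimit
import Pool.Agent.GK.KeyShell

/-! # Module KeyFinal -/

open scoped ContDiff Topology ComplexOrder Pointwise
open MeasureTheory

namespace GK

noncomputable section

namespace KF

lemma xi_eq : xi = ((1 / 2 : ℝ) : ℂ) + ((Real.sqrt 3 / 2 : ℝ) : ℂ) * Complex.I := by
  unfold xi
  have : (Real.pi * Complex.I / 3 : ℂ) = ((Real.pi / 3 : ℝ) : ℂ) * Complex.I := by
    push_cast; ring
  rw [this, Complex.exp_mul_I, ← Complex.ofReal_cos, ← Complex.ofReal_sin, Real.cos_pi_div_three,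
    Real.sin_pi_div_three]

lemma xi_re : xi.re = 1 / 2 := by rw [xi_eq]; simp
lemma xi_im : xi.im = Real.sqrt 3 / 2 := by rw [xi_eq]; simp

lemma linInd : LinearIndependent ℝ ![(1 : ℂ), xi] := by
  rw [LinearIndependent.pair_iff]
  intro s t h
  have him := congrArg Complex.im h
  have hre := congrArg Complex.re h
  simp [xi_re, xi_im] at him hre
  subst him
  simp at hre
  exact ⟨hre, rfl⟩

/-- the basis `1, ξ` -/
def bE : Module.Basis (Fin 2) ℝ ℂ :=
  basisOfLinearIndependentOfCardEqFinrank linInd (by simp [Complex.finrank_real_complex])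

lemma bE_apply (i : Fin 2) : bE i = ![(1 : ℂ), xi] i := by
  unfold bE
  rw [coe_basisOfLinearIndependentOfCardEqFinrank]

lemma bE_sum (z : ℂ) : z = ((bE.repr z 0 : ℝ) : ℂ) + ((bE.repr z 1 : ℝ) : ℂ) * xi := by
  have := bE.sum_repr z
  rw [Fin.sum_univ_two, bE_apply, bE_apply] at this
  simp only [Matrix.cons_val_zero, Matrix.cons_val_one, Complex.real_smul, mul_one] at this
  exact this.symm

lemma fundE_eq : fundE = ZSpan.fundamentalDomain bE := by
  ext z
  rw [ZSpan.mem_fundamentalDomain, Fin.forall_fin_two]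
  constructor
  · rintro ⟨a, b, ha, hb, rfl⟩
    have key : bE.repr (a + b * xi : ℂ) = Finsupp.single 0 a + Finsupp.single 1 b := by
      have e : (a + b * xi : ℂ) = a • bE 0 + b • bE 1 := by
        rw [bE_apply, bE_apply]; simp
      rw [e, map_add, map_smul, map_smul, Module.Basis.repr_self, Module.Basis.repr_self]
      simp
    rw [key]
    simpa using ⟨ha, hb⟩
  · rintro ⟨h0, h1⟩
    exact ⟨_, _, h0, h1, bE_sum z⟩

lemma span_le_Eis {g : ℂ} (hg : g ∈ Submodule.span ℤ (Set.range bE)) : g ∈ Eis := by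
  have h : Submodule.span ℤ (Set.range bE) ≤ AddSubgroup.toIntSubmodule Eis := by
    rw [Submodule.span_le]
    rintro x ⟨i, rfl⟩
    rw [bE_apply]
    fin_cases i
    · exact ⟨1, 0, by simp⟩
    · exact ⟨0, 1, by simp⟩
  exact h hg

lemma fundE_translate {F : ℂ → ℝ} (hper : ∀ l ∈ Eis, ∀ z, F (z + l) = F z) (c : ℂ) :
    ∫ s in c +ᵥ fundE, F s = ∫ s in fundE, F s := by
  rw [fundE_eq]
  have h1 := ZSpan.isAddFundamentalDomain' bE (volume : Measure ℂ)
  have h2 := h1.vadd_of_comm c
  have : Countable (Submodule.span ℤ (Set.range bE)).toAddSubgroup :=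
    inferInstanceAs (Countable (Submodule.span ℤ (Set.range bE)))
  refine (IsAddFundamentalDomain.setIntegral_eq h2 h1 ?_)
  rintro ⟨g, hg⟩ x
  have := hper g (span_le_Eis hg) x
  rw [add_comm] at this
  exact this

lemma ball_le {F : ℂ → ℝ} (hF : Continuous F) (h0 : ∀ z, 0 ≤ F z)
    (hper : ∀ l ∈ Eis, ∀ z, F (z + l) = F z) {δ : ℝ} (hδ : δ ≤ 1 / 4) :
    ∫ s in Metric.ball (0 : ℂ) δ, F s ≤ ∫ s in fundE, F s := by
  rw [← fundE_translate hper (-(1 + xi) / 2)]
  apply setIntegral_mono_set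
  · -- integrability
    have hb : (-(1 + xi) / 2 +ᵥ fundE) ⊆ Metric.closedBall (0 : ℂ) 100 := by
      rintro _ ⟨z, ⟨a, b, ha, hb, rfl⟩, rfl⟩
      rw [mem_closedBall_zero_iff]
      change ‖-(1 + xi) / 2 + (a + b * xi)‖ ≤ 100
      have hx : ‖xi‖ = 1 := by
        unfold xi
        have : (Real.pi * Complex.I / 3 : ℂ) = ((Real.pi / 3 : ℝ) : ℂ) * Complex.I := by
          push_cast; ring
        rw [this, Complex.norm_exp_ofReal_mul_I]
      calc ‖-(1 + xi) / 2 + (a + b * xi)‖ ≤ ‖-(1 + xi) / 2‖ + ‖(a + b * xi : ℂ)‖ := norm_add_le _ _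
        _ ≤ 1 + (1 + 1) := by
          gcongr
          · rw [norm_div, norm_neg]
            have := norm_add_le (1 : ℂ) xi
            rw [hx, norm_one] at this
            simp only [Complex.norm_ofNat]
            linarith
          · refine (norm_add_le _ _).trans ?_
            rw [norm_mul, hx, mul_one]
            gcongr
            · rw [Complex.norm_real, Real.norm_eq_abs, abs_of_nonneg ha.1]; exact ha.2.le
            · rw [Complex.norm_real, Real.norm_eq_abs, abs_of_nonneg hb.1]; exact hb.2.le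
        _ ≤ 100 := by norm_num
    exact (hF.continuousOn.integrableOn_compact (isCompact_closedBall _ _)).mono_set hb
  · exact Filter.Eventually.of_forall (fun z => h0 z)
  · apply LE.le.eventuallyLE
    intro s hs
    rw [mem_ball_zero_iff] at hs
    refine ⟨s + (1 + xi) / 2, ⟨1 / 2 + s.re - s.im / Real.sqrt 3,
      1 / 2 + 2 * s.im / Real.sqrt 3, ?_, ?_, ?_⟩, ?_⟩
    · have h1 := Complex.abs_re_le_norm s
      have h2 := Complex.abs_im_le_norm s
      have h3 : (1 : ℝ) ≤ Real.sqrt 3 := by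
        rw [show (1 : ℝ) = Real.sqrt 1 by simp]; exact Real.sqrt_le_sqrt (by norm_num)
      have h4 : |s.im / Real.sqrt 3| < 1 / 4 := by
        rw [abs_div, abs_of_pos (show (0 : ℝ) < Real.sqrt 3 by positivity)]
        rw [div_lt_iff₀ (by positivity)]
        nlinarith [abs_nonneg s.im]
      rw [abs_lt] at h4
      have h5 : |s.re| < 1 / 4 := by linarith
      rw [abs_lt] at h5
      constructor <;> linarith [h4.1, h4.2, h5.1, h5.2]
    · have h2 := Complex.abs_im_le_norm s
      have h3 : (1 : ℝ) ≤ Real.sqrt 3 := by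
        rw [show (1 : ℝ) = Real.sqrt 1 by simp]; exact Real.sqrt_le_sqrt (by norm_num)
      have h4 : |s.im / Real.sqrt 3| < 1 / 4 := by
        rw [abs_div, abs_of_pos (show (0 : ℝ) < Real.sqrt 3 by positivity)]
        rw [div_lt_iff₀ (by positivity)]
        nlinarith [abs_nonneg s.im]
      rw [abs_lt] at h4
      have h6 : 2 * s.im / Real.sqrt 3 = 2 * (s.im / Real.sqrt 3) := by ring
      rw [h6]
      constructor <;> linarith [h4.1, h4.2]
    · have h3 : Real.sqrt 3 ≠ 0 := by positivity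
      apply Complex.ext
      · simp [xi_re, xi_im]
        field_simp
        ring
      · simp [xi_re, xi_im]
        field_simp
        ring
    · simp only [vadd_eq_add]; ring

lemma pull_scale (ε : ℝ) (g : Matrix (Fin 4) (Fin 4) ℂ) (i : Fin 4) (hi : i = 0 ∨ i = 1) :
    pull (scaleMat ε) g i i = ((ε ^ 2 : ℝ) : ℂ) * g i i := by
  unfold pull scaleMat
  rw [Matrix.diagonal_transpose, Matrix.diagonal_map (by simp), Matrix.mul_diagonal,
    Matrix.diagonal_mul]
  rcases hi with rfl | rfl <;> simp <;> ring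

lemma pull_scale3 (ε : ℝ) (g : Matrix (Fin 4) (Fin 4) ℂ) :
    pull (scaleMat ε) g 3 3 = g 3 3 := by
  unfold pull scaleMat
  rw [Matrix.diagonal_transpose, Matrix.diagonal_map (by simp), Matrix.mul_diagonal,
    Matrix.diagonal_mul]
  simp

lemma E3_pos_of {y : V 4} (h : y 2 ≠ 0) : 0 < E3 y := by
  unfold E3
  have := Complex.normSq_pos.mpr h
  have h0 := Complex.normSq_nonneg (y 0)
  have h1 := Complex.normSq_nonneg (y 1)
  linarith

lemma scale_update (ε : ℝ) (y : V 4) (i : Fin 4) (hi : i = 0 ∨ i = 1) (s : ℂ) :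
    scale ε (Function.update y i s) = Function.update (scale ε y) i (ε • s) := by
  unfold scale
  ext j
  rcases hi with rfl | rfl <;> fin_cases j <;> simp [Function.update]

lemma scale_update3 (ε : ℝ) (y : V 4) (s : ℂ) :
    scale ε (Function.update y 3 s) = Function.update (scale ε y) 3 s := by
  unfold scale
  ext j
  fin_cases j <;> simp [Function.update]

/-- the areas in the cone limit -/
lemma cone_area {r : ℕ} {R ρ : ℝ} {g : V 4 → Matrix (Fin 4) (Fin 4) ℂ}
    {gx : Fin 3 → V 4 → Matrix (Fin 4) (Fin 4) ℂ} (h : LocalKahler r R ρ g gx)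
    {a : V 4 → Matrix (Fin 4) (Fin 4) ℂ} (ha : Cone a)
    (hl : ∀ K : Set (V 4), IsCompact K → K ⊆ {y | 0 < E3 y} → ∀ j k,
      TendstoUniformlyOn (fun (ε : ℝ) y => pull (scaleMat ε) (g (scale ε y)) j k)
        (fun y => a y j k) (𝓝[>] 0) K) (i : Fin 4) (hi : i = 0 ∨ i = 1)
    (hper : ∀ l ∈ Eis, ∀ y, 0 < ‖y 2‖ → ‖y 2‖ < R → g (y + Pi.single i l) = g y) {A : ℝ}
    (hA : ∀ y : V 4, 0 < ‖y 2‖ → ‖y 2‖ < R →
      ∫ s in fundE, (g (Function.update y i s) i i).re = A)
    (y : V 4) (hy : y 2 ≠ 0) (K : ℝ) (hK : 0 < K) :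
    ∫ s in Metric.ball (0 : ℂ) K, (a (Function.update y i s) i i).re ≤ A := by
  have hi2 : (2 : Fin 4) ≠ i := by rcases hi with rfl | rfl <;> decide
  have hR := h.R_pos
  -- a real entry is non negative
  set F : ℝ → ℂ → ℝ := fun ε s' => (g (Function.update (scale ε y) i s') i i).re with hF
  have hy2 : 0 < ‖y 2‖ := norm_pos_iff.mpr hy
  have hup2 : ∀ (z : V 4) (s : ℂ), (Function.update z i s) 2 = z 2 := by
    intro z s; rw [Function.update_of_ne hi2]
  have hsc2 : ∀ ε : ℝ, (scale ε y) 2 = ε * y 2 := by intro ε; simp [scale]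
  have hmem : ∀ ε : ℝ, 0 < ε → ε * ‖y 2‖ < R → ∀ s : ℂ,
      0 < ‖(Function.update (scale ε y) i s) 2‖ ∧ ‖(Function.update (scale ε y) i s) 2‖ < R := by
    intro ε hε hεR s
    rw [hup2, hsc2, norm_mul, Complex.norm_real, Real.norm_eq_abs, abs_of_pos hε]
    exact ⟨by positivity, hεR⟩
  have hdom : ∀ ε : ℝ, 0 < ε → ε * ‖y 2‖ < R → ∀ s : ℂ,
      Function.update (scale ε y) i s ∈ fibDom R ρ := fun ε h1 h2 s => Or.inl (hmem ε h1 h2 s)
  have hcont : ∀ ε : ℝ, 0 < ε → ε * ‖y 2‖ < R → Continuous (F ε) := by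
    intro ε h1 h2
    have hc := (h.kformR.smooth i i).continuousOn
    have : Continuous (fun s' => g (Function.update (scale ε y) i s') i i) :=
      hc.comp_continuous (continuous_const.update i continuous_id) (fun s => hdom ε h1 h2 s)
    exact Complex.continuous_re.comp this
  have hnonneg : ∀ ε : ℝ, 0 < ε → ε * ‖y 2‖ < R → ∀ s, 0 ≤ F ε s := by
    intro ε h1 h2 s
    have hp := (h.posR _ (hdom ε h1 h2 s)).diag_pos (i := i)
    exact (Complex.lt_def.mp hp).1.le
  have hFper : ∀ ε : ℝ, 0 < ε → ε * ‖y 2‖ < R → ∀ l ∈ Eis, ∀ z, F ε (z + l) = F ε z := by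
    intro ε h1 h2 l hlE z
    have e : Function.update (scale ε y) i (z + l) =
        Function.update (scale ε y) i z + Pi.single i l := by
      ext j
      by_cases hj : j = i
      · subst hj; simp
      · simp [Function.update_of_ne hj, Pi.single_eq_of_ne hj]
    simp only [hF]
    rw [e, hper l hlE _ (hmem ε h1 h2 z).1 (hmem ε h1 h2 z).2]
  -- the limit
  have hev : ∀ᶠ ε : ℝ in 𝓝[>] 0, 0 < ε ∧ ε * ‖y 2‖ < R ∧ ε * K ≤ 1 / 4 := by
    have e1 : ∀ᶠ ε : ℝ in 𝓝[>] (0 : ℝ), 0 < ε := self_mem_nhdsWithin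
    have e2 : ∀ᶠ ε : ℝ in 𝓝[>] (0 : ℝ), ε * ‖y 2‖ < R := by
      apply Filter.Eventually.filter_mono nhdsWithin_le_nhds
      have : ContinuousAt (fun ε : ℝ => ε * ‖y 2‖) 0 := by fun_prop
      exact this.eventually_lt continuousAt_const (by simpa using hR)
    have e3 : ∀ᶠ ε : ℝ in 𝓝[>] (0 : ℝ), ε * K ≤ 1 / 4 := by
      apply Filter.Eventually.filter_mono nhdsWithin_le_nhds
      have : ContinuousAt (fun ε : ℝ => ε * K) 0 := by fun_prop
      exact (this.eventually_lt continuousAt_const (by norm_num)).mono (fun _ h => h.le)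
    filter_upwards [e1, e2, e3] with ε h1 h2 h3 using ⟨h1, h2, h3⟩
  set Ks : Set (V 4) := (fun s => Function.update y i s) '' Metric.closedBall 0 K with hKs
  have hKc : IsCompact Ks :=
    (isCompact_closedBall _ _).image (continuous_const.update i continuous_id)
  have hKsub : Ks ⊆ {y | 0 < E3 y} := by
    rintro _ ⟨s, _, rfl⟩
    have : (Function.update y i s) 2 ≠ 0 := by rw [hup2]; exact hy
    exact E3_pos_of this
  have hunif := hl Ks hKc hKsub i i
  have hac : ContinuousOn (fun y => a y i i) Ks := ((ha.kform.smooth i i).continuousOn).mono hKsub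
  obtain ⟨Mb, hMb⟩ := hKc.exists_bound_of_continuousOn hac
  have hlim : Filter.Tendsto (fun ε : ℝ => ∫ s in Metric.ball (0 : ℂ) K,
      (pull (scaleMat ε) (g (scale ε (Function.update y i s))) i i).re) (𝓝[>] 0)
      (𝓝 (∫ s in Metric.ball (0 : ℂ) K, (a (Function.update y i s) i i).re)) := by
    apply tendsto_integral_filter_of_dominated_convergence (fun _ => Mb + 1)
    · filter_upwards [hev] with ε hε
      have : (fun s => (pull (scaleMat ε) (g (scale ε (Function.update y i s))) i i).re) =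
          fun s => ε ^ 2 * F ε (ε • s) := by
        ext s
        rw [pull_scale ε _ i hi, scale_update ε y i hi s, Complex.re_ofReal_mul]
      rw [this]
      have hc : Continuous fun s : ℂ => ε ^ 2 * F ε (ε • s) :=
        continuous_const.mul ((hcont ε hε.1 hε.2.1).comp (continuous_id.const_smul ε))
      exact hc.aestronglyMeasurable
    · have := Metric.tendstoUniformlyOn_iff.mp hunif 1 one_pos
      filter_upwards [this] with ε hε
      rw [ae_restrict_iff' measurableSet_ball]
      refine Filter.Eventually.of_forall (fun s hs => ?_)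
      have hsK : Function.update y i s ∈ Ks := ⟨s, Metric.ball_subset_closedBall hs, rfl⟩
      have h1 := hε _ hsK
      have h2 := hMb _ hsK
      rw [dist_eq_norm] at h1
      rw [Real.norm_eq_abs]
      refine (Complex.abs_re_le_norm _).trans ?_
      have h3 := norm_sub_norm_le (pull (scaleMat ε) (g (scale ε (Function.update y i s))) i i)
        (a (Function.update y i s) i i)
      rw [norm_sub_rev] at h3
      linarith
    · exact (integrableOn_const (by
        exact (measure_ball_lt_top).ne) (by simp))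
    · rw [ae_restrict_iff' measurableSet_ball]
      refine Filter.Eventually.of_forall (fun s hs => ?_)
      have hsK : Function.update y i s ∈ Ks := ⟨s, Metric.ball_subset_closedBall hs, rfl⟩
      exact (Complex.continuous_re.tendsto _).comp (hunif.tendsto_at hsK)
  refine le_of_tendsto hlim ?_
  filter_upwards [hev] with ε hε
  obtain ⟨h1, h2, h3⟩ := hε
  have e1 : ∫ s in Metric.ball (0 : ℂ) K,
      (pull (scaleMat ε) (g (scale ε (Function.update y i s))) i i).re =
      ε ^ 2 * ∫ s in Metric.ball (0 : ℂ) K, F ε (ε • s) := by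
    rw [← integral_const_mul]
    congr 1
    ext s
    rw [pull_scale ε _ i hi, scale_update ε y i hi s, Complex.re_ofReal_mul]
  rw [e1, Measure.setIntegral_comp_smul _ _ _ h1.ne', Complex.finrank_real_complex,
    _root_.smul_ball h1.ne', smul_zero, Real.norm_eq_abs, abs_of_pos h1, smul_eq_mul,
    abs_of_pos (by positivity), ← mul_assoc, mul_inv_cancel₀ (by positivity), one_mul]
  refine (ball_le (hcont ε h1 h2) (hnonneg ε h1 h2) (hFper ε h1 h2) h3).trans ?_
  have h4 := hmem ε h1 h2 0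
  rw [hup2] at h4
  rw [hA (scale ε y) h4.1 h4.2]

lemma box_meas (c : ℝ) : MeasurableSet (box c) := by
  have : box c = Complex.re ⁻¹' (Set.Ico 0 c) ∩ Complex.im ⁻¹' (Set.Ico 0 c) := rfl
  rw [this]
  exact (Complex.measurable_re measurableSet_Ico).inter (Complex.measurable_im measurableSet_Ico)

lemma box_sub : box 2 ⊆ Metric.closedBall (0 : ℂ) 4 := by
  rintro z ⟨h1, h2⟩
  rw [mem_closedBall_zero_iff]
  have := Complex.norm_le_abs_re_add_abs_im z
  rw [abs_of_nonneg h1.1, abs_of_nonneg h2.1] at this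
  linarith [h1.2, h2.2]

lemma box_fin : volume (box 2) ≠ ⊤ :=
  (lt_of_le_of_lt (measure_mono box_sub) measure_closedBall_lt_top).ne

/-- third area, generic points -/
lemma cone_area3 {r : ℕ} {R ρ : ℝ} {g : V 4 → Matrix (Fin 4) (Fin 4) ℂ}
    {gx : Fin 3 → V 4 → Matrix (Fin 4) (Fin 4) ℂ} (h : LocalKahler r R ρ g gx)
    {a : V 4 → Matrix (Fin 4) (Fin 4) ℂ} (ha : Cone a)
    (hl : ∀ K : Set (V 4), IsCompact K → K ⊆ {y | 0 < E3 y} → ∀ j k,
      TendstoUniformlyOn (fun (ε : ℝ) y => pull (scaleMat ε) (g (scale ε y)) j k)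
        (fun y => a y j k) (𝓝[>] 0) K) {A : ℝ}
    (hA : ∀ y : V 4, 0 < ‖y 2‖ → ‖y 2‖ < R →
      ∫ s in box 2, (g (Function.update y 3 s) 3 3).re = A)
    (y : V 4) (hy : y 2 ≠ 0) :
    ∫ s in box 2, (a (Function.update y 3 s) 3 3).re = A := by
  have hR := h.R_pos
  have hy2 : 0 < ‖y 2‖ := norm_pos_iff.mpr hy
  have hup2 : ∀ (z : V 4) (s : ℂ), (Function.update z 3 s) 2 = z 2 := by
    intro z s; rw [Function.update_of_ne (by decide)]
  have hsc2 : ∀ ε : ℝ, (scale ε y) 2 = ε * y 2 := by intro ε; simp [scale]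
  have hmem : ∀ ε : ℝ, 0 < ε → ε * ‖y 2‖ < R → ∀ s : ℂ,
      0 < ‖(Function.update (scale ε y) 3 s) 2‖ ∧ ‖(Function.update (scale ε y) 3 s) 2‖ < R := by
    intro ε hε hεR s
    rw [hup2, hsc2, norm_mul, Complex.norm_real, Real.norm_eq_abs, abs_of_pos hε]
    exact ⟨by positivity, hεR⟩
  have hcont : ∀ ε : ℝ, 0 < ε → ε * ‖y 2‖ < R →
      Continuous (fun s => (g (Function.update (scale ε y) 3 s) 3 3).re) := by
    intro ε h1 h2
    have hc := (h.kformR.smooth 3 3).continuousOn
    have : Continuous (fun s' => g (Function.update (scale ε y) 3 s') 3 3) :=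
      hc.comp_continuous (continuous_const.update 3 continuous_id)
        (fun s => Or.inl (hmem ε h1 h2 s))
    exact Complex.continuous_re.comp this
  have hev : ∀ᶠ ε : ℝ in 𝓝[>] 0, 0 < ε ∧ ε * ‖y 2‖ < R := by
    have e1 : ∀ᶠ ε : ℝ in 𝓝[>] (0 : ℝ), 0 < ε := self_mem_nhdsWithin
    have e2 : ∀ᶠ ε : ℝ in 𝓝[>] (0 : ℝ), ε * ‖y 2‖ < R := by
      apply Filter.Eventually.filter_mono nhdsWithin_le_nhds
      have : ContinuousAt (fun ε : ℝ => ε * ‖y 2‖) 0 := by fun_prop
      exact this.eventually_lt continuousAt_const (by simpa using hR)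
    filter_upwards [e1, e2] with ε h1 h2 using ⟨h1, h2⟩
  set Ks : Set (V 4) := (fun s => Function.update y 3 s) '' Metric.closedBall 0 4 with hKs
  have hKc : IsCompact Ks :=
    (isCompact_closedBall _ _).image (continuous_const.update 3 continuous_id)
  have hKsub : Ks ⊆ {y | 0 < E3 y} := by
    rintro _ ⟨s, _, rfl⟩
    have : (Function.update y 3 s) 2 ≠ 0 := by rw [hup2]; exact hy
    exact E3_pos_of this
  have hunif := hl Ks hKc hKsub 3 3
  have hac : ContinuousOn (fun y => a y 3 3) Ks := ((ha.kform.smooth 3 3).continuousOn).mono hKsub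
  obtain ⟨Mb, hMb⟩ := hKc.exists_bound_of_continuousOn hac
  have hfin : IsFiniteMeasure (volume.restrict (box 2)) :=
    ⟨by rw [Measure.restrict_apply_univ]; exact lt_top_iff_ne_top.mpr box_fin⟩
  have hlim : Filter.Tendsto (fun ε : ℝ => ∫ s in box 2,
      (pull (scaleMat ε) (g (scale ε (Function.update y 3 s))) 3 3).re) (𝓝[>] 0)
      (𝓝 (∫ s in box 2, (a (Function.update y 3 s) 3 3).re)) := by
    apply tendsto_integral_filter_of_dominated_convergence (fun _ => Mb + 1)
    · filter_upwards [hev] with ε hε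
      have : (fun s => (pull (scaleMat ε) (g (scale ε (Function.update y 3 s))) 3 3).re) =
          fun s => (g (Function.update (scale ε y) 3 s) 3 3).re := by
        ext s
        rw [pull_scale3 ε _, scale_update3 ε y s]
      rw [this]
      exact (hcont ε hε.1 hε.2).aestronglyMeasurable
    · have := Metric.tendstoUniformlyOn_iff.mp hunif 1 one_pos
      filter_upwards [this] with ε hε
      rw [ae_restrict_iff' (box_meas 2)]
      refine Filter.Eventually.of_forall (fun s hs => ?_)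
      have hsK : Function.update y 3 s ∈ Ks := ⟨s, box_sub hs, rfl⟩
      have h1 := hε _ hsK
      have h2 := hMb _ hsK
      rw [dist_eq_norm] at h1
      rw [Real.norm_eq_abs]
      refine (Complex.abs_re_le_norm _).trans ?_
      have h3 := norm_sub_norm_le (pull (scaleMat ε) (g (scale ε (Function.update y 3 s))) 3 3)
        (a (Function.update y 3 s) 3 3)
      rw [norm_sub_rev] at h3
      linarith
    · exact integrable_const _
    · rw [ae_restrict_iff' (box_meas 2)]
      refine Filter.Eventually.of_forall (fun s hs => ?_)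
      have hsK : Function.update y 3 s ∈ Ks := ⟨s, box_sub hs, rfl⟩
      exact (Complex.continuous_re.tendsto _).comp (hunif.tendsto_at hsK)
  refine tendsto_nhds_unique hlim ?_
  refine (tendsto_const_nhds (x := A)).congr' ?_
  filter_upwards [hev] with ε hε
  obtain ⟨h1, h2⟩ := hε
  have h4 := hmem ε h1 h2 0
  rw [hup2] at h4
  rw [← hA (scale ε y) h4.1 h4.2]
  congr 1
  ext s
  rw [pull_scale3 ε _, scale_update3 ε y s]

/-- third area, all points -/
lemma cone_area3' {a : V 4 → Matrix (Fin 4) (Fin 4) ℂ} (ha : Cone a) {A : ℝ}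
    (hA : ∀ y : V 4, y 2 ≠ 0 → ∫ s in box 2, (a (Function.update y 3 s) 3 3).re = A)
    (y : V 4) (hy : 0 < E3 y) :
    ∫ s in box 2, (a (Function.update y 3 s) 3 3).re = A := by
  by_cases h2 : y 2 = 0
  swap
  · exact hA y h2
  -- approximate
  set Y : ℝ → ℂ → V 4 := fun δ s => Function.update (Function.update y 2 (δ : ℂ)) 3 s with hY
  have hE : ∀ δ s, 0 < E3 (Y δ s) := by
    intro δ s
    have e : E3 (Y δ s) = Complex.normSq (y 0) + Complex.normSq (y 1) + Complex.normSq (δ : ℂ) := by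
      simp [hY, E3, Function.update]
    have e' : E3 y = Complex.normSq (y 0) + Complex.normSq (y 1) := by
      simp [E3, h2]
    rw [e]
    rw [e'] at hy
    have := Complex.normSq_nonneg (δ : ℂ)
    linarith
  have hYc : Continuous (fun p : ℝ × ℂ => Y p.1 p.2) := by
    simp only [hY]
    exact (continuous_const.update 2 (Complex.continuous_ofReal.comp continuous_fst)).update 3
      continuous_snd
  have hG : Continuous (fun p : ℝ × ℂ => (a (Y p.1 p.2) 3 3).re) := by
    have hc := (ha.kform.smooth 3 3).continuousOn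
    exact Complex.continuous_re.comp (hc.comp_continuous hYc (fun p => hE p.1 p.2))
  have hKc : IsCompact ((Set.Icc (-1 : ℝ) 1) ×ˢ Metric.closedBall (0 : ℂ) 4) :=
    isCompact_Icc.prod (isCompact_closedBall _ _)
  obtain ⟨Mb, hMb⟩ := hKc.exists_bound_of_continuousOn hG.continuousOn
  have hfin : IsFiniteMeasure (volume.restrict (box 2)) :=
    ⟨by rw [Measure.restrict_apply_univ]; exact lt_top_iff_ne_top.mpr box_fin⟩
  have hlim : Filter.Tendsto (fun δ : ℝ => ∫ s in box 2, (a (Y δ s) 3 3).re) (𝓝[>] 0)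
      (𝓝 (∫ s in box 2, (a (Y 0 s) 3 3).re)) := by
    apply tendsto_integral_filter_of_dominated_convergence (fun _ => Mb)
    · refine Filter.Eventually.of_forall (fun δ => ?_)
      exact (hG.comp (continuous_const.prodMk continuous_id)).aestronglyMeasurable
    · have e2 : ∀ᶠ δ : ℝ in 𝓝[>] (0 : ℝ), δ ∈ Set.Icc (-1 : ℝ) 1 := by
        apply Filter.Eventually.filter_mono nhdsWithin_le_nhds
        exact Icc_mem_nhds (by norm_num) (by norm_num)
      filter_upwards [e2] with δ hδ
      rw [ae_restrict_iff' (box_meas 2)]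
      exact Filter.Eventually.of_forall (fun s hs => hMb (δ, s) ⟨hδ, box_sub hs⟩)
    · exact integrable_const _
    · refine Filter.Eventually.of_forall (fun s => ?_)
      have : Filter.Tendsto (fun δ : ℝ => (a (Y δ s) 3 3).re) (𝓝 0) (𝓝 (a (Y 0 s) 3 3).re) :=
        ((hG.comp (continuous_id.prodMk continuous_const)).tendsto (0 : ℝ))
      exact this.mono_left nhdsWithin_le_nhds
  have hY0 : ∀ s, Y 0 s = Function.update y 3 s := by
    intro s
    simp only [hY]
    congr 1
    rw [Complex.ofReal_zero, ← h2, Function.update_eq_self]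
  simp only [hY0] at hlim
  refine tendsto_nhds_unique hlim ?_
  refine (tendsto_const_nhds (x := A)).congr' ?_
  have e1 : ∀ᶠ δ : ℝ in 𝓝[>] (0 : ℝ), 0 < δ := self_mem_nhdsWithin
  filter_upwards [e1] with δ hδ
  rw [← hA (Function.update y 2 (δ : ℂ)) (by simpa using hδ.ne')]

lemma exists_weight : ∃ k, IsWeight k := by
  let f : ContDiffBump (0 : ℝ) := ⟨1, 2, one_pos, one_lt_two⟩
  exact ⟨f.normed volume, f.contDiff_normed, f.hasCompactSupport_normed, f.nonneg_normed,
    f.integral_normed⟩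

end KF

theorem key_inequality {r : ℕ} {R ρ : ℝ} {g : V 4 → Matrix (Fin 4) (Fin 4) ℂ}
    {gx : Fin 3 → V 4 → Matrix (Fin 4) (Fin 4) ℂ} (h : LocalKahler r R ρ g gx) :
    ∃ V : ℝ, 0 < V ∧ (∀ w : ℂ, 0 < ‖w‖ → ‖w‖ < R → fibVol g w = V) ∧
      ∀ f, IsCut f ρ → flux f g ≤ Real.pi / 2 * V := by
  obtain ⟨A0, A1, α, hA0, hA1, hα, hV, h0, h1, h3⟩ := fibre_volume h
  obtain ⟨a, ha, hl⟩ := exists_cone h.toLocalExc
  obtain ⟨k, hk⟩ := KF.exists_weight
  refine ⟨A0 * A1 * α, by positivity, hV, fun f hf => ?_⟩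
  have e1 := flux_le_shell h.toLocalExc hf ha hl hk
  have e2 := shell_le ha hk (A0 := A0) (A1 := A1) (α := α)
    (fun y _ hy2 K hK => KF.cone_area h ha hl 0 (Or.inl rfl) h.per0 h0 y hy2 K hK)
    (fun y _ hy2 K hK => KF.cone_area h ha hl 1 (Or.inr rfl) h.per1 h1 y hy2 K hK)
    (fun y hy => (KF.cone_area3' ha (fun y' hy' => KF.cone_area3 h ha hl h3 y' hy') y hy).le)
  linarith

end

end GK
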