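import Pool.Agent.GK.Piola

/-! # Module PiolaPull: invariance of the Gauduchon condition under holomorphic maps -/

open scoped ContDiff Topology ComplexOrder
open MeasureTheory

namespace GK

noncomputable section

variable {n : ℕ}

/-- the adjugate of a pull-back -/
theorem adj_pull (J g : Matrix (Fin n) (Fin n) ℂ) (k j : Fin n) :
    (pull J g).adjugate k j =
      ∑ b, ∑ a, star (J.adjugate k b) * g.adjugate b a * J.adjugate j a := by
  have h1 : (J.map star).adjugate = J.adjugate.map star := by
    have := (starRingEnd ℂ).map_adjugate J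
    exact this.symm
  rw [pull, Matrix.adjugate_mul_distrib, Matrix.adjugate_mul_distrib, h1,
    ← Matrix.adjugate_transpose, Matrix.mul_apply]
  refine Finset.sum_congr rfl fun b _ => ?_
  rw [Matrix.mul_apply, Finset.mul_sum]
  refine Finset.sum_congr rfl fun a _ => ?_
  rw [Matrix.map_apply, Matrix.transpose_apply, mul_assoc]

theorem dB_adj_zero {b : V n → Matrix (Fin n) (Fin n) ℂ} {z : V n}
    (hb : ∀ p q, DifferentiableAt ℝ (fun w => b w p q) z) (i : Fin n)
    (h0 : ∀ p q, dB i (fun w => b w p q) z = 0) (k j : Fin n) :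
    dB i (fun w => (b w).adjugate k j) z = 0 := by
  simp only [Matrix.adjugate_apply]
  rw [dB_det (b := fun w => (b w).updateRow j (Pi.single k 1))]
  · refine Finset.sum_eq_zero fun p _ => Finset.sum_eq_zero fun q _ => ?_
    by_cases hp : p = j
    · subst hp
      simp only [Matrix.updateRow_self]
      rw [dB_const, mul_zero]
    · simp only [Matrix.updateRow_ne hp]
      rw [h0, mul_zero]
  · intro p q
    by_cases hp : p = j
    · subst hp
      simp only [Matrix.updateRow_self]
      exact differentiableAt_const _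
    · simp only [Matrix.updateRow_ne hp]
      exact hb p q

/-- the Piola identity -/
theorem piola_jac {h : V n → V n} {z : V n} (hh : AnalyticAt ℂ h z) (hJ : (jac h z).det ≠ 0)
    (a : Fin n) : ∑ j, dZ j (fun w => (jac h w).adjugate j a) z = 0 := by
  have hb : ∀ p q, DifferentiableAt ℝ (fun w => (jac h w).transpose p q) z := fun p q =>
    (analyticAt_jac hh q p).differentiableAt.restrictScalars ℝ
  have h1 : ∀ j, (fun w => (jac h w).adjugate j a) =
      fun w => ((jac h w).transpose).adjugate a j := by
    intro j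
    funext w
    rw [← Matrix.adjugate_transpose, Matrix.transpose_apply]
  simp only [h1]
  rw [div_adjugate hb (by rw [Matrix.det_transpose]; exact hJ)]
  simp only [sub_mul, Finset.sum_sub_distrib]
  have h2 : ∑ j, ∑ p, ∑ q, ((jac h z).transpose)⁻¹ a p * ((jac h z).transpose)⁻¹ q j *
        dZ j (fun w => (jac h w).transpose p q) z =
      ∑ j, ∑ p, ∑ q, ((jac h z).transpose)⁻¹ q p * ((jac h z).transpose)⁻¹ a j *
        dZ j (fun w => (jac h w).transpose p q) z := by
    rw [Finset.sum_comm]
    refine Finset.sum_congr rfl fun p _ => Finset.sum_congr rfl fun j _ =>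
      Finset.sum_congr rfl fun q _ => ?_
    have h3 : dZ j (fun w => (jac h w).transpose p q) z =
        dZ p (fun w => (jac h w).transpose j q) z := by
      simp only [Matrix.transpose_apply]
      exact dZ_jac_symm hh q j p
    rw [h3]
    ring
  rw [h2, sub_self, mul_zero]

/-- the first divergence of the pull-back -/
theorem div_pull {g : V n → Matrix (Fin n) (Fin n) ℂ} {Ω : Set (V n)} (hΩ : IsOpen Ω)
    (hg : ∀ j k, ContDiffOn ℝ ∞ (fun w => g w j k) Ω) {h : V n → V n} {w : V n}
    (hh : AnalyticAt ℂ h w) (hw : h w ∈ Ω) (hJ : (jac h w).det ≠ 0) (j : Fin n) :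
    ∑ k, dB k (fun w' => (pull (jac h w') (g (h w'))).adjugate k j) w =
      ∑ a, star (jac h w).det * (∑ b, dB b (fun y => (g y).adjugate b a) (h w)) *
        (jac h w).adjugate j a := by
  have hJd : ∀ p q, DifferentiableAt ℝ (fun w => jac h w p q) w := fun p q =>
    (analyticAt_jac hh p q).differentiableAt.restrictScalars ℝ
  have hA : ∀ p q, DifferentiableAt ℝ (fun w => (jac h w).adjugate p q) w := fun p q =>
    piola_differentiableAt_adj hJd p q
  have hgd : ∀ p q, DifferentiableAt ℝ (fun y => (g y).adjugate p q) (h w) := fun p q =>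
    ((piola_contDiffOn_adj hg p q).contDiffAt (hΩ.mem_nhds hw)).differentiableAt (by simp)
  have hgh : ∀ p q, DifferentiableAt ℝ (fun w => (g (h w)).adjugate p q) w := fun p q =>
    (hgd p q).comp w (hh.differentiableAt.restrictScalars ℝ)
  have hdBA : ∀ k p q, dB k (fun w => (jac h w).adjugate p q) w = 0 := fun k p q =>
    dB_adj_zero hJd k (fun p q => dB_of_holo (analyticAt_jac hh p q).differentiableAt k) p q
  have h1 : ∀ k, dB k (fun w' => (pull (jac h w') (g (h w'))).adjugate k j) w =
      ∑ b, ∑ a, (star (dZ k (fun w => (jac h w).adjugate k b) w) * (g (h w)).adjugate b a +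
        star ((jac h w).adjugate k b) * (∑ c, star (jac h w c k) *
          dB c (fun y => (g y).adjugate b a) (h w))) * (jac h w).adjugate j a := by
    intro k
    simp only [adj_pull]
    rw [dB_sum _ fun b _ => DifferentiableAt.fun_sum fun a _ =>
      ((hA k b).star.fun_mul (hgh b a)).fun_mul (hA j a)]
    refine Finset.sum_congr rfl fun b _ => ?_
    rw [dB_sum _ fun a _ => ((hA k b).star.fun_mul (hgh b a)).fun_mul (hA j a)]
    refine Finset.sum_congr rfl fun a _ => ?_
    rw [dB_mul ((hA k b).star.fun_mul (hgh b a)) (hA j a), dB_mul (hA k b).star (hgh b a),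
      hdBA k j a, mul_zero, add_zero, dB_star (hA k b), dB_comp hh.differentiableAt (hgd b a)]
  simp only [h1]
  have h2 : ∀ b c, ∑ k, star ((jac h w).adjugate k b) * star (jac h w c k) =
      if c = b then star (jac h w).det else 0 := by
    intro b c
    have h3 := congrFun (congrFun (Matrix.mul_adjugate (jac h w)) c) b
    rw [Matrix.mul_apply, Matrix.smul_apply, Matrix.one_apply] at h3
    calc ∑ k, star ((jac h w).adjugate k b) * star (jac h w c k)
        = star (∑ k, jac h w c k * (jac h w).adjugate k b) := by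
          rw [star_sum]
          refine Finset.sum_congr rfl fun k _ => ?_
          rw [star_mul']
          ring
      _ = if c = b then star (jac h w).det else 0 := by
          rw [h3]
          split_ifs with h4
          · simp
          · simp
  -- exchange the sums
  have h5 : ∑ k, ∑ b, ∑ a, (star (dZ k (fun w => (jac h w).adjugate k b) w) *
        (g (h w)).adjugate b a +
        star ((jac h w).adjugate k b) * (∑ c, star (jac h w c k) *
          dB c (fun y => (g y).adjugate b a) (h w))) * (jac h w).adjugate j a =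
      ∑ b, ∑ a, ((star (∑ k, dZ k (fun w => (jac h w).adjugate k b) w)) *
        (g (h w)).adjugate b a +
        ∑ c, (∑ k, star ((jac h w).adjugate k b) * star (jac h w c k)) *
          dB c (fun y => (g y).adjugate b a) (h w)) * (jac h w).adjugate j a := by
    rw [Finset.sum_comm]
    refine Finset.sum_congr rfl fun b _ => ?_
    rw [Finset.sum_comm]
    refine Finset.sum_congr rfl fun a _ => ?_
    rw [← Finset.sum_mul, Finset.sum_add_distrib, star_sum, ← Finset.sum_mul]
    congr 2
    simp only [Finset.mul_sum, Finset.sum_mul]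
    rw [Finset.sum_comm]
    refine Finset.sum_congr rfl fun c _ => Finset.sum_congr rfl fun k _ => ?_
    ring
  rw [h5, Finset.sum_comm]
  refine Finset.sum_congr rfl fun a _ => ?_
  rw [← Finset.sum_mul]
  congr 1
  rw [Finset.mul_sum]
  refine Finset.sum_congr rfl fun b _ => ?_
  rw [piola_jac hh hJ b, star_zero, zero_mul, zero_add]
  simp only [h2, ite_mul, zero_mul]
  rw [Finset.sum_ite_eq']
  simp

theorem gauduchon_pull {g : V n → Matrix (Fin n) (Fin n) ℂ} {Ω : Set (V n)} (hΩ : IsOpen Ω)
    (hg : ∀ j k, ContDiffOn ℝ ∞ (fun w => g w j k) Ω) {h : V n → V n} {z : V n}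
    (hh : AnalyticAt ℂ h z) (hz : h z ∈ Ω) (hJ : IsUnit (jac h z).det)
    (hG : ∑ j, ∑ k, dZ j (fun w => dB k (fun w' => (g w').adjugate k j) w) (h z) = 0) :
    ∑ j, ∑ k, dZ j (fun w => dB k (fun w' => (pull (jac h w') (g (h w'))).adjugate k j) w) z = 0 := by
  have hJ0 : (jac h z).det ≠ 0 := hJ.ne_zero
  have e1 : ∀ᶠ w in 𝓝 z, AnalyticAt ℂ h w := hh.eventually_analyticAt
  have e2 : ∀ᶠ w in 𝓝 z, (jac h w).det ≠ 0 :=
    (analyticAt_det_jac hh).continuousAt.eventually_ne hJ0
  have e3 : ∀ᶠ w in 𝓝 z, h w ∈ Ω := hh.continuousAt.eventually (hΩ.mem_nhds hz)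
  have hJd : ∀ p q, DifferentiableAt ℝ (fun w => jac h w p q) z := fun p q =>
    (analyticAt_jac hh p q).differentiableAt.restrictScalars ℝ
  have hA : ∀ p q, DifferentiableAt ℝ (fun w => (jac h w).adjugate p q) z := fun p q =>
    piola_differentiableAt_adj hJd p q
  have hdet : DifferentiableAt ℝ (fun w => (jac h w).det) z := piola_differentiableAt_det hJd
  have hgc : ∀ p q, ContDiffOn ℝ ∞ (fun y => (g y).adjugate p q) Ω := piola_contDiffOn_adj hg
  have hD : ∀ a b, DifferentiableAt ℝ
      (fun y => dB b (fun y => (g y).adjugate b a) y) (h z) := fun a b =>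
    ((contDiffOn_dB hΩ (hgc b a) b).contDiffAt (hΩ.mem_nhds hz)).differentiableAt (by simp)
  have hDs : ∀ a, DifferentiableAt ℝ
      (fun y => ∑ b, dB b (fun y => (g y).adjugate b a) y) (h z) := fun a =>
    DifferentiableAt.fun_sum fun b _ => hD a b
  have hDh : ∀ a, DifferentiableAt ℝ
      (fun w => ∑ b, dB b (fun y => (g y).adjugate b a) (h w)) z := fun a =>
    (hDs a).comp z (hh.differentiableAt.restrictScalars ℝ)
  -- smoothness of the entries of the adjugate of the pull-back
  obtain ⟨Ω', hΩ'sub, hΩ'o, hzΩ'⟩ := mem_nhds_iff.1 (e1.and e3)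
  have hpc : ∀ p q, ContDiffOn ℝ ∞ (fun w => pull (jac h w) (g (h w)) p q) Ω' := by
    intro p q
    have han : AnalyticOnNhd ℂ h Ω' := fun w hw => (hΩ'sub hw).1
    have hm : Set.MapsTo h Ω' Ω := fun w hw => (hΩ'sub hw).2
    have hs : ContDiffOn ℝ ∞ h Ω' := fun w hw =>
      (contDiffAt_of_analyticAt' (han w hw)).contDiffWithinAt
    simp only [pull_apply]
    refine ContDiffOn.sum fun b _ => ContDiffOn.sum fun a _ => ?_
    exact ((contDiffOn_jac han a p).mul ((hg a b).comp hs hm)).mul
      (contDiffOn_star (contDiffOn_jac han b q))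
  have hpd : ∀ k j, DifferentiableAt ℝ (fun w => dB k
      (fun w' => (pull (jac h w') (g (h w'))).adjugate k j) w) z := fun k j =>
    ((contDiffOn_dB hΩ'o (piola_contDiffOn_adj hpc k j) k).contDiffAt
      (hΩ'o.mem_nhds hzΩ')).differentiableAt (by simp)
  have h1 : ∀ j, ∑ k, dZ j (fun w => dB k
      (fun w' => (pull (jac h w') (g (h w'))).adjugate k j) w) z =
      ∑ a, star (jac h z).det * ((∑ c, jac h z c j *
        dZ c (fun y => ∑ b, dB b (fun y => (g y).adjugate b a) y) (h z)) *
          (jac h z).adjugate j a + (∑ b, dB b (fun y => (g y).adjugate b a) (h z)) *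
          dZ j (fun w => (jac h w).adjugate j a) z) := by
    intro j
    rw [← dZ_sum _ fun k _ => hpd k j]
    have hev : (fun w => ∑ k, dB k
        (fun w' => (pull (jac h w') (g (h w'))).adjugate k j) w) =ᶠ[𝓝 z]
        fun w => ∑ a, star (jac h w).det *
          (∑ b, dB b (fun y => (g y).adjugate b a) (h w)) * (jac h w).adjugate j a := by
      filter_upwards [e1, e2, e3] with w w1 w2 w3
      exact div_pull hΩ hg w1 w3 w2 j
    rw [dZ_congr hev]
    rw [dZ_sum _ fun a _ => (hdet.star.fun_mul (hDh a)).fun_mul (hA j a)]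
    refine Finset.sum_congr rfl fun a _ => ?_
    have hds : dZ j (fun w => star (jac h w).det) z = 0 := by
      rw [dZ_star hdet, dB_of_holo (analyticAt_det_jac hh).differentiableAt, star_zero]
    rw [dZ_mul (hdet.star.fun_mul (hDh a)) (hA j a), dZ_mul hdet.star (hDh a), hds, zero_mul,
      zero_add, dZ_comp hh.differentiableAt (hDs a)]
    ring
  simp only [h1]
  have h2 : ∀ a c, ∑ j, jac h z c j * (jac h z).adjugate j a =
      if c = a then (jac h z).det else 0 := by
    intro a c
    have h3 := congrFun (congrFun (Matrix.mul_adjugate (jac h z)) c) a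
    rw [Matrix.mul_apply, Matrix.smul_apply, Matrix.one_apply] at h3
    rw [h3]
    split_ifs with h4
    · simp
    · simp
  have h3 : ∑ j, ∑ a, star (jac h z).det * ((∑ c, jac h z c j *
        dZ c (fun y => ∑ b, dB b (fun y => (g y).adjugate b a) y) (h z)) *
          (jac h z).adjugate j a + (∑ b, dB b (fun y => (g y).adjugate b a) (h z)) *
          dZ j (fun w => (jac h w).adjugate j a) z) =
      ∑ a, star (jac h z).det * ((∑ c, (∑ j, jac h z c j * (jac h z).adjugate j a) *
        dZ c (fun y => ∑ b, dB b (fun y => (g y).adjugate b a) y) (h z)) +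
          (∑ b, dB b (fun y => (g y).adjugate b a) (h z)) *
          ∑ j, dZ j (fun w => (jac h w).adjugate j a) z) := by
    rw [Finset.sum_comm]
    refine Finset.sum_congr rfl fun a _ => ?_
    rw [← Finset.mul_sum, Finset.sum_add_distrib, ← Finset.mul_sum]
    congr 2
    simp only [Finset.sum_mul]
    rw [Finset.sum_comm]
    refine Finset.sum_congr rfl fun c _ => Finset.sum_congr rfl fun j _ => ?_
    ring
  rw [h3]
  have h4 : ∀ a, star (jac h z).det * ((∑ c, (∑ j, jac h z c j * (jac h z).adjugate j a) *
        dZ c (fun y => ∑ b, dB b (fun y => (g y).adjugate b a) y) (h z)) +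
          (∑ b, dB b (fun y => (g y).adjugate b a) (h z)) *
          ∑ j, dZ j (fun w => (jac h w).adjugate j a) z) =
      star (jac h z).det * (jac h z).det *
        ∑ b, dZ a (fun y => dB b (fun y => (g y).adjugate b a) y) (h z) := by
    intro a
    rw [piola_jac hh hJ0 a, mul_zero, add_zero]
    simp only [h2, ite_mul, zero_mul]
    rw [Finset.sum_ite_eq', if_pos (Finset.mem_univ _), dZ_sum _ fun b _ => hD a b, mul_assoc]
  simp only [h4]
  rw [← Finset.mul_sum, hG, mul_zero]

end

end GK
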