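import Pool.Agent.GK.Local

/-! # Module Radial: radial Kähler potentials on `ℂ³` -/

open scoped ContDiff Topology ComplexOrder
open MeasureTheory

namespace GK

noncomputable section

namespace RadialAux

/-- transition function from `x₁` to `p` -/
def chi (x₁ p x : ℝ) : ℝ := Real.smoothTransition ((x - x₁) / (p - x₁))

lemma chi_contDiff (x₁ p : ℝ) : ContDiff ℝ ∞ (chi x₁ p) := by
  unfold chi
  exact Real.smoothTransition.contDiff.comp (by fun_prop)

lemma chi_zero {x₁ p x : ℝ} (h : x₁ < p) (hx : x ≤ x₁) : chi x₁ p x = 0 := by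
  unfold chi
  apply Real.smoothTransition.zero_of_nonpos
  apply div_nonpos_of_nonpos_of_nonneg <;> linarith

lemma chi_one {x₁ p x : ℝ} (h : x₁ < p) (hx : p ≤ x) : chi x₁ p x = 1 := by
  unfold chi
  apply Real.smoothTransition.one_of_one_le
  rw [one_le_div (by linarith)]
  linarith

lemma chi_nonneg (x₁ p x : ℝ) : 0 ≤ chi x₁ p x := Real.smoothTransition.nonneg _
lemma chi_le_one (x₁ p x : ℝ) : chi x₁ p x ≤ 1 := Real.smoothTransition.le_one _

lemma chi_deriv_nonneg {x₁ p : ℝ} (h : x₁ < p) (x : ℝ) : 0 ≤ deriv (chi x₁ p) x := by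
  have hm : Monotone (chi x₁ p) := by
    intro a b hab
    unfold chi
    apply Real.smoothTransition.monotone
    have : 0 < p - x₁ := by linarith
    gcongr
  exact hm.deriv_nonneg

lemma chi_deriv_zero_left {x₁ p x : ℝ} (h : x₁ < p) (hx : x < x₁) : deriv (chi x₁ p) x = 0 := by
  have : chi x₁ p =ᶠ[𝓝 x] fun _ => 0 := by
    filter_upwards [eventually_lt_nhds hx] with y hy
    exact chi_zero h hy.le
  rw [this.deriv_eq]
  simp

lemma chi_deriv_zero_right {x₁ p x : ℝ} (h : x₁ < p) (hx : p < x) : deriv (chi x₁ p) x = 0 := by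
  have : chi x₁ p =ᶠ[𝓝 x] fun _ => 1 := by
    filter_upwards [eventually_gt_nhds hx] with y hy
    exact chi_one h hy.le
  rw [this.deriv_eq]
  simp

end RadialAux

open RadialAux in
/-- Radial Kähler potentials that are flat for `E3 ≥ p` and extend to the exceptional charts. -/
theorem exists_profile (r : ℕ) (hr : 0 < r) {τ p : ℝ} (hτ : 0 < τ) (hp : τ < p) :
    ∃ φ F : ℝ → ℝ, ∃ q : ℝ, 0 < q ∧ q < p ∧ ContDiffOn ℝ ∞ φ (Set.Ioi 0) ∧
      (∀ x, p ≤ x → φ x = x) ∧
      (∀ x, 0 < x → 0 < deriv φ x ∧ 0 < deriv φ x + x * deriv (deriv φ) x) ∧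
      ContDiff ℝ ∞ F ∧ 0 < deriv F 0 ∧
      (∀ x, 0 < x → x < q → φ x = τ * Real.log x + F (x ^ r)) := by
  set x₁ : ℝ := (τ + p) / 2 with hx₁
  have h1 : τ < x₁ := by rw [hx₁]; linarith
  have h2 : x₁ < p := by rw [hx₁]; linarith
  have h3 : 0 < x₁ := hτ.trans h1
  have hp0 : 0 < p := hτ.trans hp
  have hr0 : (0 : ℝ) < r := by exact_mod_cast hr
  set c : ℝ := (x₁ - τ) / (2 * r * p ^ r) with hc
  have hc0 : 0 < c := div_pos (by linarith) (by positivity)
  have hcr : r * c * p ^ r = (x₁ - τ) / 2 := by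
    rw [hc]
    field_simp
  set ψ : ℝ → ℝ := fun x => (1 - chi x₁ p x) * (τ + r * c * x ^ r) + chi x₁ p x * x with hψ
  have hψs : ContDiff ℝ ∞ ψ := by
    have := chi_contDiff x₁ p
    rw [hψ]
    fun_prop
  have hψl : ∀ x, x ≤ x₁ → ψ x = τ + r * c * x ^ r := by
    intro x hx
    simp only [hψ, chi_zero h2 hx]
    ring
  have hψr : ∀ x, p ≤ x → ψ x = x := by
    intro x hx
    simp only [hψ, chi_one h2 hx]
    ring
  have hψpos : ∀ x, 0 < x → 0 < ψ x := by
    intro x hx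
    have e1 := chi_nonneg x₁ p x
    have e2 := chi_le_one x₁ p x
    have e3 : 0 < τ + r * c * x ^ r := by positivity
    simp only [hψ]
    rcases eq_or_lt_of_le e1 with h | h
    · rw [← h]; simpa using e3
    · have := mul_nonneg (sub_nonneg.2 e2) e3.le
      have := mul_pos h hx
      linarith
  have hψd : ∀ x, deriv ψ x = deriv (chi x₁ p) x * (x - τ - r * c * x ^ r) +
      (1 - chi x₁ p x) * (r * c * (r * x ^ (r - 1))) + chi x₁ p x := by
    intro x
    have d1 : HasDerivAt (chi x₁ p) (deriv (chi x₁ p) x) x :=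
      ((chi_contDiff x₁ p).differentiable (by simp) x).hasDerivAt
    have d2 : HasDerivAt (fun x : ℝ => τ + r * c * x ^ r) (r * c * (r * x ^ (r - 1))) x :=
      ((hasDerivAt_pow r x).const_mul (r * c)).const_add τ
    have d3 := ((d1.const_sub 1).mul d2).add (d1.mul (hasDerivAt_id x))
    have d4 : HasDerivAt ψ (-deriv (chi x₁ p) x * (τ + r * c * x ^ r) +
      (1 - chi x₁ p x) * (r * c * (r * x ^ (r - 1))) +
      (deriv (chi x₁ p) x * id x + chi x₁ p x * 1)) x := d3
    rw [d4.deriv]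
    simp only [id]
    ring
  have hψdpos : ∀ x, 0 < x → 0 < deriv ψ x := by
    intro x hx
    rw [hψd]
    have e1 := chi_nonneg x₁ p x
    have e2 := chi_le_one x₁ p x
    have e3 : 0 < r * c * (r * x ^ (r - 1)) := by positivity
    have e4 : 0 ≤ deriv (chi x₁ p) x * (x - τ - r * c * x ^ r) := by
      rcases lt_or_ge x x₁ with h | h
      · rw [chi_deriv_zero_left h2 h, zero_mul]
      · rcases le_or_gt x p with h' | h'
        · apply mul_nonneg (chi_deriv_nonneg h2 x)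
          have : r * c * x ^ r ≤ r * c * p ^ r := by gcongr
          rw [hcr] at this
          linarith
        · rw [chi_deriv_zero_right h2 h', zero_mul]
    rcases eq_or_lt_of_le e1 with h | h
    · rw [← h] at *
      simp only [sub_zero, one_mul, add_zero]
      linarith
    · have := mul_nonneg (sub_nonneg.2 e2) e3.le
      linarith
  set φ : ℝ → ℝ := fun x => p + ∫ t in p..x, ψ t / t with hφ
  have hcont : ContinuousOn (fun t => ψ t / t) (Set.Ioi 0) :=
    hψs.continuous.continuousOn.div continuousOn_id fun x hx => (ne_of_gt hx)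
  have hint : ∀ a b : ℝ, 0 < a → 0 < b → IntervalIntegrable (fun t => ψ t / t) volume a b := by
    intro a b ha hb
    apply ContinuousOn.intervalIntegrable
    refine hcont.mono fun x hx => ?_
    rw [Set.mem_uIcc] at hx
    rcases hx with h | h
    · exact ha.trans_le h.1
    · exact hb.trans_le h.1
  have hφd : ∀ x, 0 < x → HasDerivAt φ (ψ x / x) x := by
    intro x hx
    have hca : ContinuousAt (fun t => ψ t / t) x := hcont.continuousAt (Ioi_mem_nhds hx)
    have := intervalIntegral.integral_hasDerivAt_right (hint p x hp0 hx)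
      (hcont.stronglyMeasurableAtFilter isOpen_Ioi x hx) hca
    exact this.const_add p
  have hφd' : ∀ x, 0 < x → deriv φ x = ψ x / x := fun x hx => (hφd x hx).deriv
  have hφdd : ∀ x, 0 < x → deriv (deriv φ) x = deriv ψ x / x - ψ x / x ^ 2 := by
    intro x hx
    have e : deriv φ =ᶠ[𝓝 x] fun t => ψ t / t := by
      filter_upwards [Ioi_mem_nhds hx] with t ht
      exact hφd' t ht
    rw [e.deriv_eq]
    have d1 : HasDerivAt ψ (deriv ψ x) x := (hψs.differentiable (by simp) x).hasDerivAt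
    have d2 := d1.div (hasDerivAt_id x) (by simpa using hx.ne')
    have d3 : HasDerivAt (fun t => ψ t / t) ((deriv ψ x * x - ψ x * 1) / x ^ 2) x := d2
    rw [d3.deriv]
    field_simp
  obtain ⟨A, hA⟩ : ∃ A : ℝ, ∀ x, 0 < x → x < x₁ → φ x - τ * Real.log x - c * x ^ r = A := by
    have hd : ∀ x ∈ Set.Ioo 0 x₁, HasDerivAt (fun x => φ x - τ * Real.log x - c * x ^ r) 0 x := by
      intro x hx
      have d1 := ((hφd x hx.1).sub ((Real.hasDerivAt_log hx.1.ne').const_mul τ)).sub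
        ((hasDerivAt_pow r x).const_mul c)
      have e : ψ x / x - τ * x⁻¹ - c * (r * x ^ (r - 1)) = 0 := by
        rw [hψl x hx.2.le]
        have e1 : x ^ r = x ^ (r - 1) * x := by
          rw [← pow_succ, Nat.sub_add_cancel hr]
        rw [e1]
        have := hx.1.ne'
        field_simp
        ring
      rw [e] at d1
      exact d1
    obtain ⟨A, hA⟩ := isOpen_Ioo.exists_is_const_of_deriv_eq_zero isPreconnected_Ioo
      (fun x hx => (hd x hx).differentiableAt.differentiableWithinAt)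
      (fun x hx => (hd x hx).deriv)
    exact ⟨A, fun x h0 h1 => hA x ⟨h0, h1⟩⟩
  refine ⟨φ, fun s => A + c * s, x₁, h3, h2, ?_, ?_, ?_, by fun_prop, ?_, ?_⟩
  · rw [contDiffOn_infty_iff_deriv_of_isOpen isOpen_Ioi]
    refine ⟨fun x hx => (hφd x hx).differentiableAt.differentiableWithinAt, ?_⟩
    have : ContDiffOn ℝ ∞ (fun t => ψ t / t) (Set.Ioi 0) :=
      hψs.contDiffOn.div contDiffOn_id fun x hx => (ne_of_gt hx)
    exact this.congr fun x hx => hφd' x hx
  · intro x hx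
    have : ∫ t in p..x, ψ t / t = ∫ t in p..x, (1 : ℝ) := by
      apply intervalIntegral.integral_congr
      intro t ht
      rw [Set.uIcc_of_le hx] at ht
      have ht0 : 0 < t := hp0.trans_le ht.1
      simp only
      rw [hψr t ht.1, div_self ht0.ne']
    simp only [hφ, this]
    simp
  · intro x hx
    rw [hφdd x hx, hφd' x hx]
    refine ⟨div_pos (hψpos x hx) hx, ?_⟩
    have : ψ x / x + x * (deriv ψ x / x - ψ x / x ^ 2) = deriv ψ x := by
      field_simp
      ring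
    rw [this]
    exact hψdpos x hx
  · have : HasDerivAt (fun s : ℝ => A + c * s) (c * 1) 0 :=
      ((hasDerivAt_id (0 : ℝ)).const_mul c).const_add A
    rw [this.deriv]
    linarith
  · intro x h0 hx
    have := hA x h0 hx
    simp only
    linarith


namespace RadialAux

/-- diagonal quadratic form -/
def Q (c : Fin 4 → ℝ) (w : V 4) : ℝ := ∑ k, c k * Complex.normSq (w k)

def dQ (c : Fin 4 → ℝ) (w : V 4) : V 4 →L[ℝ] ℂ := ∑ k, (c k : ℂ) •
  (w k • ((Complex.conjCLE : ℂ →L[ℝ] ℂ).comp (ContinuousLinearMap.proj k)) +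
    star (w k) • (ContinuousLinearMap.proj k : V 4 →L[ℝ] ℂ))

lemma Q_coe (c : Fin 4 → ℝ) (w : V 4) : ((Q c w : ℝ) : ℂ) = ∑ k, (c k : ℂ) * (w k * star (w k)) := by
  unfold Q
  push_cast
  refine Finset.sum_congr rfl fun k _ => ?_
  rw [Complex.normSq_eq_conj_mul_self, mul_comm ((starRingEnd ℂ) (w k))]
  rfl

lemma hasFDerivAt_Q (c : Fin 4 → ℝ) (w : V 4) :
    HasFDerivAt (fun w => ((Q c w : ℝ) : ℂ)) (dQ c w) w := by
  have h1 : (fun w : V 4 => ((Q c w : ℝ) : ℂ)) =
      fun w => ∑ k, (c k : ℂ) * (w k * star (w k)) := by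
    ext w
    exact Q_coe c w
  rw [h1]
  unfold dQ
  apply HasFDerivAt.fun_sum
  intro k _
  have p1 : HasFDerivAt (fun w : V 4 => w k) (ContinuousLinearMap.proj k : V 4 →L[ℝ] ℂ) w :=
    (ContinuousLinearMap.proj (R := ℝ) (φ := fun _ : Fin 4 => ℂ) k).hasFDerivAt
  have p2 : HasFDerivAt (fun w : V 4 => star (w k))
      ((Complex.conjCLE : ℂ →L[ℝ] ℂ).comp (ContinuousLinearMap.proj k)) w :=
    (Complex.conjCLE : ℂ →L[ℝ] ℂ).hasFDerivAt.comp w p1
  exact (p1.mul p2).const_mul (c k : ℂ)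

lemma dQ_apply (c : Fin 4 → ℝ) (w : V 4) (j : Fin 4) (a : ℂ) :
    dQ c w (Pi.single j a) = (c j : ℂ) * (w j * star a + star (w j) * a) := by
  unfold dQ
  simp only [sum_apply, smul_apply, add_apply, ContinuousLinearMap.comp_apply,
    ContinuousLinearMap.proj_apply, smul_eq_mul]
  rw [Finset.sum_eq_single j]
  · simp
  · intro k _ hk
    simp [Pi.single_eq_of_ne hk]
  · simp

lemma dZ_Q (c : Fin 4 → ℝ) (w : V 4) (j : Fin 4) :
    dZ j (fun w => ((Q c w : ℝ) : ℂ)) w = (c j : ℂ) * star (w j) := by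
  unfold dZ
  rw [(hasFDerivAt_Q c w).fderiv, dQ_apply, dQ_apply]
  simp only [star_one, Complex.star_def, Complex.conj_I]
  ring_nf
  rw [Complex.I_sq]
  ring

lemma dB_Q (c : Fin 4 → ℝ) (w : V 4) (j : Fin 4) :
    dB j (fun w => ((Q c w : ℝ) : ℂ)) w = (c j : ℂ) * w j := by
  unfold dB
  rw [(hasFDerivAt_Q c w).fderiv, dQ_apply, dQ_apply]
  simp only [star_one, Complex.star_def, Complex.conj_I]
  ring_nf
  rw [Complex.I_sq]
  ring

lemma levi_Q (c : Fin 4 → ℝ) (w : V 4) (j k : Fin 4) :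
    levi (fun w => ((Q c w : ℝ) : ℂ)) w j k = if j = k then (c k : ℂ) else 0 := by
  unfold levi
  simp only [Matrix.of_apply, dB_Q]
  unfold dZ
  have p1 : HasFDerivAt (fun w : V 4 => (c k : ℂ) * w k)
      ((c k : ℂ) • (ContinuousLinearMap.proj k : V 4 →L[ℝ] ℂ)) w :=
    ((ContinuousLinearMap.proj (R := ℝ) (φ := fun _ : Fin 4 => ℂ) k).hasFDerivAt).const_mul _
  rw [p1.fderiv]
  by_cases h : j = k
  · subst h
    simp
    ring_nf
    rw [Complex.I_sq]
    ring
  · simp [h]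

lemma contDiff_Q (c : Fin 4 → ℝ) : ContDiff ℝ ∞ (Q c) := by
  unfold Q
  have : ∀ k : Fin 4, ContDiff ℝ ∞ (fun w : V 4 => Complex.normSq (w k)) := by
    intro k
    have e : (fun w : V 4 => Complex.normSq (w k)) = fun w => ‖w k‖ ^ 2 := by
      ext w
      exact Complex.normSq_eq_norm_sq _
    rw [e]
    exact ContDiff.norm_sq ℝ (by fun_prop)
  have h2 : ∀ k : Fin 4, ContDiff ℝ ∞ (fun w : V 4 => c k * Complex.normSq (w k)) :=
    fun k => contDiff_const.mul (this k)
  exact ContDiff.sum fun k _ => h2 k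

/-! ### product and sum rules for `levi` -/

lemma diffAt_dB {n : ℕ} {f : V n → ℂ} {z : V n} (hf : ContDiffAt ℝ 2 f z) (k : Fin n) :
    DifferentiableAt ℝ (fun w => dB k f w) z := by
  unfold dB
  have h1 : DifferentiableAt ℝ (fderiv ℝ f) z :=
    (hf.fderiv_right (m := 1) (by norm_num)).differentiableAt (by norm_num)
  have h2 : ∀ v : V n, DifferentiableAt ℝ (fun w => fderiv ℝ f w v) z := fun v =>
    h1.clm_apply (differentiableAt_const v)
  simp only [div_eq_mul_inv]
  exact ((h2 (Pi.single k 1)).fun_add ((h2 (Pi.single k Complex.I)).const_mul Complex.I)).mul_const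
    (2 : ℂ)⁻¹

lemma ev_diff {n : ℕ} {f : V n → ℂ} {z : V n} (hf : ContDiffAt ℝ 2 f z) :
    ∀ᶠ w in 𝓝 z, DifferentiableAt ℝ f w := by
  have := hf.eventually (by norm_num)
  filter_upwards [this] with w hw
  exact hw.differentiableAt (by norm_num)

lemma levi_add {n : ℕ} {f g : V n → ℂ} {z : V n} (hf : ContDiffAt ℝ 2 f z)
    (hg : ContDiffAt ℝ 2 g z) (j k : Fin n) :
    levi (fun w => f w + g w) z j k = levi f z j k + levi g z j k := by
  unfold levi
  simp only [Matrix.of_apply]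
  have h1 : (fun w => dB k (fun w => f w + g w) w) =ᶠ[𝓝 z] fun w => dB k f w + dB k g w := by
    filter_upwards [ev_diff hf, ev_diff hg] with w h1 h2
    exact dB_add h1 h2 k
  rw [dZ_congr h1, dZ_add (diffAt_dB hf k) (diffAt_dB hg k)]

lemma levi_mul {n : ℕ} {f g : V n → ℂ} {z : V n} (hf : ContDiffAt ℝ 2 f z)
    (hg : ContDiffAt ℝ 2 g z) (j k : Fin n) :
    levi (fun w => f w * g w) z j k = f z * levi g z j k + levi f z j k * g z +
      dZ j f z * dB k g z + dB k f z * dZ j g z := by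
  unfold levi
  simp only [Matrix.of_apply]
  have h1 : (fun w => dB k (fun w => f w * g w) w) =ᶠ[𝓝 z]
      fun w => dB k f w * g w + f w * dB k g w := by
    filter_upwards [ev_diff hf, ev_diff hg] with w h1 h2
    exact dB_mul h1 h2 k
  have d1 := hf.differentiableAt (by norm_num)
  have d2 := hg.differentiableAt (by norm_num)
  rw [dZ_congr h1, dZ_add ((diffAt_dB hf k).fun_mul d2) (d1.fun_mul (diffAt_dB hg k)),
    dZ_mul (diffAt_dB hf k) d2, dZ_mul d1 (diffAt_dB hg k)]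
  ring

lemma cd_coe {n : ℕ} {f : V n → ℝ} {z : V n} {m : WithTop ℕ∞} (hf : ContDiffAt ℝ m f z) :
    ContDiffAt ℝ m (fun w => ((f w : ℝ) : ℂ)) z :=
  Complex.ofRealCLM.contDiff.contDiffAt.comp z hf

/-! ### first derivatives of compositions -/

lemma dZ_real_comp {n : ℕ} {F : ℝ → ℝ} {f : V n → ℝ} {z : V n} (hF : DifferentiableAt ℝ F (f z))
    (hf : DifferentiableAt ℝ f z) (j : Fin n) :
    dZ j (fun w => ((F (f w) : ℝ) : ℂ)) z = (deriv F (f z) : ℝ) *
      dZ j (fun w => ((f w : ℝ) : ℂ)) z := by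
  unfold dZ
  have h1 : HasFDerivAt (fun w => ((f w : ℝ) : ℂ)) (Complex.ofRealCLM.comp (fderiv ℝ f z)) z :=
    Complex.ofRealCLM.hasFDerivAt.comp z hf.hasFDerivAt
  have h2 : HasFDerivAt (fun w => ((F (f w) : ℝ) : ℂ))
      (Complex.ofRealCLM.comp (deriv F (f z) • fderiv ℝ f z)) z :=
    Complex.ofRealCLM.hasFDerivAt.comp z (hF.hasDerivAt.comp_hasFDerivAt z hf.hasFDerivAt)
  rw [h1.fderiv, h2.fderiv]
  simp
  ring

lemma dB_real_comp {n : ℕ} {F : ℝ → ℝ} {f : V n → ℝ} {z : V n} (hF : DifferentiableAt ℝ F (f z))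
    (hf : DifferentiableAt ℝ f z) (j : Fin n) :
    dB j (fun w => ((F (f w) : ℝ) : ℂ)) z = (deriv F (f z) : ℝ) *
      dB j (fun w => ((f w : ℝ) : ℂ)) z := by
  unfold dB
  have h1 : HasFDerivAt (fun w => ((f w : ℝ) : ℂ)) (Complex.ofRealCLM.comp (fderiv ℝ f z)) z :=
    Complex.ofRealCLM.hasFDerivAt.comp z hf.hasFDerivAt
  have h2 : HasFDerivAt (fun w => ((F (f w) : ℝ) : ℂ))
      (Complex.ofRealCLM.comp (deriv F (f z) • fderiv ℝ f z)) z :=
    Complex.ofRealCLM.hasFDerivAt.comp z (hF.hasDerivAt.comp_hasFDerivAt z hf.hasFDerivAt)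
  rw [h1.fderiv, h2.fderiv]
  simp
  ring


def cE : Fin 4 → ℝ := fun k => if k = 3 then 0 else 1
def c3 : Fin 4 → ℝ := fun k => if k = 3 then 1 else 0

lemma E3_eq (w : V 4) : E3 w = Q cE w := by
  unfold E3 Q cE
  simp [Fin.sum_univ_four]

lemma N3_eq (w : V 4) : Complex.normSq (w 3) = Q c3 w := by
  unfold Q c3
  simp

lemma E3_fun : E3 = Q cE := by
  ext w
  exact E3_eq w

lemma contDiff_E3 : ContDiff ℝ ∞ E3 := by
  rw [E3_fun]
  exact contDiff_Q _

lemma two_le : (2 : WithTop ℕ∞) ≤ ∞ := by norm_cast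

lemma cd2 {f : ℝ → ℝ} {s : Set ℝ} (hs : IsOpen s) (hf : ContDiffOn ℝ ∞ f s) {x : ℝ} (hx : x ∈ s) :
    ContDiffAt ℝ 2 f x :=
  (hf.contDiffAt (hs.mem_nhds hx)).of_le two_le

/-- entries of the radial metric -/
lemma radial_entries {φ : ℝ → ℝ} (hφ : ContDiffOn ℝ ∞ φ (Set.Ioi 0)) {y : V 4} (hy : 0 < E3 y)
    (j k : Fin 4) :
    levi (fun w => ((φ (E3 w) + Complex.normSq (w 3) : ℝ) : ℂ)) y j k =
      ((deriv φ (E3 y) : ℝ) : ℂ) * (if j = k then (cE k : ℂ) else 0) +
      ((deriv (deriv φ) (E3 y) : ℝ) : ℂ) * ((cE j * star (y j)) * (cE k * y k)) +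
      (if j = k then (c3 k : ℂ) else 0) := by
  have hφ2 : ContDiffAt ℝ 2 φ (E3 y) := cd2 isOpen_Ioi hφ hy
  have hE2 : ContDiffAt ℝ 2 E3 y := (contDiff_E3.contDiffAt).of_le two_le
  have e1 : (fun w : V 4 => ((φ (E3 w) + Complex.normSq (w 3) : ℝ) : ℂ)) =
      fun w => ((φ (E3 w) : ℝ) : ℂ) + ((Q c3 w : ℝ) : ℂ) := by
    ext w
    rw [N3_eq]
    push_cast
    rfl
  have hA : ContDiffAt ℝ 2 (fun w => ((φ (E3 w) : ℝ) : ℂ)) y := cd_coe (hφ2.comp y hE2)
  have hB : ContDiffAt ℝ 2 (fun w => ((Q c3 w : ℝ) : ℂ)) y :=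
    cd_coe ((contDiff_Q c3).contDiffAt.of_le two_le)
  rw [e1, levi_add hA hB, levi_real_comp hφ2 hE2, levi_Q]
  rw [E3_fun, levi_Q, dZ_Q, dB_Q]

lemma cauchy3 (a b : V 4) : Complex.normSq (a 0 * b 0 + a 1 * b 1 + a 2 * b 2) ≤
    (Complex.normSq (a 0) + Complex.normSq (a 1) + Complex.normSq (a 2)) *
    (Complex.normSq (b 0) + Complex.normSq (b 1) + Complex.normSq (b 2)) := by
  have h : (Complex.normSq (a 0) + Complex.normSq (a 1) + Complex.normSq (a 2)) *
    (Complex.normSq (b 0) + Complex.normSq (b 1) + Complex.normSq (b 2)) -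
      Complex.normSq (a 0 * b 0 + a 1 * b 1 + a 2 * b 2) =
      Complex.normSq (a 0 * star (b 1) - a 1 * star (b 0)) +
      Complex.normSq (a 0 * star (b 2) - a 2 * star (b 0)) +
      Complex.normSq (a 1 * star (b 2) - a 2 * star (b 1)) := by
    simp only [Complex.normSq_apply, Complex.add_re, Complex.add_im, Complex.mul_re,
      Complex.mul_im, Complex.sub_re, Complex.sub_im, Complex.star_def, Complex.conj_re,
      Complex.conj_im]
    ring
  have h1 := Complex.normSq_nonneg (a 0 * star (b 1) - a 1 * star (b 0))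
  have h2 := Complex.normSq_nonneg (a 0 * star (b 2) - a 2 * star (b 0))
  have h3 := Complex.normSq_nonneg (a 1 * star (b 2) - a 2 * star (b 1))
  linarith

end RadialAux

open RadialAux in
/-- the radial metric is positive -/
theorem posDef_radial {φ : ℝ → ℝ} (hφ : ContDiffOn ℝ ∞ φ (Set.Ioi 0))
    (hpos : ∀ x, 0 < x → 0 < deriv φ x ∧ 0 < deriv φ x + x * deriv (deriv φ) x)
    {y : V 4} (hy : 0 < E3 y) :
    (levi (fun w => ((φ (E3 w) + Complex.normSq (w 3) : ℝ) : ℂ)) y).PosDef := by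
  obtain ⟨p1, p2⟩ := hpos _ hy
  have hent := radial_entries hφ hy
  set L := levi (fun w => ((φ (E3 w) + Complex.normSq (w 3) : ℝ) : ℂ)) y with hL
  clear_value L
  set a := deriv φ (E3 y) with ha
  set b := deriv (deriv φ) (E3 y) with hb
  apply Matrix.PosDef.of_dotProduct_mulVec_pos
  · ext j k
    rw [Matrix.conjTranspose_apply, hent, hent]
    simp only [star_add, star_mul', Complex.star_def, Complex.conj_ofReal, Complex.conj_conj]
    by_cases h : j = k
    · subst h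
      simp only [if_true, Complex.conj_ofReal]
      ring
    · have h' : k ≠ j := fun e => h e.symm
      simp only [h, h', if_false, map_zero]
      ring
  · intro x hx
    set X : ℝ := Complex.normSq (x 0) + Complex.normSq (x 1) + Complex.normSq (x 2) with hX
    set P : ℂ := y 0 * x 0 + y 1 * x 1 + y 2 * x 2 with hP
    have e : star x ⬝ᵥ (L.mulVec x) =
        ((a * X + b * Complex.normSq P + Complex.normSq (x 3) : ℝ) : ℂ) := by
      have e0 : ∀ z : ℂ, ((Complex.normSq z : ℝ) : ℂ) = star z * z := fun z =>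
        Complex.normSq_eq_conj_mul_self
      rw [hX]
      push_cast
      rw [e0 P, e0 (x 0), e0 (x 1), e0 (x 2), e0 (x 3), hP]
      simp only [dotProduct, Matrix.mulVec, Fin.sum_univ_four, Pi.star_apply,
        hent, cE, c3, star_add, star_mul']
      simp
      ring
    rw [e]
    have hCS : Complex.normSq P ≤ E3 y * X := cauchy3 y x
    have hX0 : 0 ≤ X := by
      have := Complex.normSq_nonneg (x 0)
      have := Complex.normSq_nonneg (x 1)
      have := Complex.normSq_nonneg (x 2)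
      linarith
    have hP0 := Complex.normSq_nonneg P
    have h3 := Complex.normSq_nonneg (x 3)
    have key : 0 < a * X + b * Complex.normSq P + Complex.normSq (x 3) := by
      have hmain : X ≠ 0 → 0 < a * X + b * Complex.normSq P := by
        intro hX1
        have hX2 : 0 < X := lt_of_le_of_ne hX0 (Ne.symm hX1)
        rcases le_or_gt 0 b with hb0 | hb0
        · have := mul_nonneg hb0 hP0
          have := mul_pos p1 hX2
          linarith
        · have h1 : b * (E3 y * X) ≤ b * Complex.normSq P := mul_le_mul_of_nonpos_left hCS hb0.le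
          have h2 : 0 < (a + E3 y * b) * X := mul_pos p2 hX2
          nlinarith
      by_cases hX1 : X = 0
      · have hP1 : Complex.normSq P = 0 := by
          rw [hX1, mul_zero] at hCS
          linarith
        have hx3 : x 3 ≠ 0 := by
          intro h
          apply hx
          have n0 := Complex.normSq_nonneg (x 0)
          have n1 := Complex.normSq_nonneg (x 1)
          have n2 := Complex.normSq_nonneg (x 2)
          have x0 : x 0 = 0 := Complex.normSq_eq_zero.1 (by linarith)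
          have x1 : x 1 = 0 := Complex.normSq_eq_zero.1 (by linarith)
          have x2 : x 2 = 0 := Complex.normSq_eq_zero.1 (by linarith)
          ext i
          fin_cases i
          · exact x0
          · exact x1
          · exact x2
          · exact h
        rw [hX1, hP1]
        have := Complex.normSq_pos.2 hx3
        simpa using this
      · have := hmain hX1
        linarith
    exact_mod_cast key


namespace RadialAux

def cN (j : Fin 3) : Fin 4 → ℝ := fun k => if k = j.castSucc ∨ k = 3 then 0 else 1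
def cv (j : Fin 3) : Fin 4 → ℝ := fun k => if k = j.castSucc then 1 else 0

lemma excNorm_eq (j : Fin 3) (w : V 4) : excNorm j w = 1 + Q (cN j) w := by
  unfold excNorm Q cN
  congr 1
  fin_cases j <;> simp [Fin.sum_univ_four, Fin.sum_univ_three]

lemma nv_eq (j : Fin 3) (w : V 4) : Complex.normSq (w j.castSucc) = Q (cv j) w := by
  unfold Q cv
  simp

lemma Q_nonneg {c : Fin 4 → ℝ} (hc : ∀ k, 0 ≤ c k) (w : V 4) : 0 ≤ Q c w :=
  Finset.sum_nonneg fun k _ => mul_nonneg (hc k) (Complex.normSq_nonneg _)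

lemma cN_nonneg (j : Fin 3) (k : Fin 4) : 0 ≤ cN j k := by
  unfold cN
  split_ifs <;> norm_num

lemma cv_nonneg (j : Fin 3) (k : Fin 4) : 0 ≤ cv j k := by
  unfold cv
  split_ifs <;> norm_num

lemma log_deriv (τ : ℝ) {x : ℝ} (hx : 0 < 1 + x) :
    deriv (fun x => τ * Real.log (1 + x)) x = τ / (1 + x) := by
  have h1 : HasDerivAt (fun x : ℝ => 1 + x) 1 x := (hasDerivAt_id x).const_add 1
  have h2 := (h1.log hx.ne').const_mul τ
  rw [h2.deriv]
  ring

lemma log_deriv2 (τ : ℝ) {x : ℝ} (hx : 0 < 1 + x) :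
    deriv (deriv (fun x => τ * Real.log (1 + x))) x = - τ / (1 + x) ^ 2 := by
  have e : deriv (fun x => τ * Real.log (1 + x)) =ᶠ[𝓝 x] fun y => τ * (1 + y)⁻¹ := by
    have : ∀ᶠ y in 𝓝 x, 0 < 1 + y :=
      (continuous_const.add continuous_id).continuousAt.eventually (lt_mem_nhds hx)
    filter_upwards [this] with y hy
    rw [log_deriv τ hy, div_eq_mul_inv]
  rw [e.deriv_eq]
  have h1 : HasDerivAt (fun x : ℝ => 1 + x) 1 x := (hasDerivAt_id x).const_add 1
  have h2 : HasDerivAt (fun y : ℝ => τ * (1 + y)⁻¹) (τ * (-1 / (1 + x) ^ 2)) x :=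
    (h1.inv hx.ne').const_mul τ
  rw [h2.deriv]
  ring

lemma log_cd (τ : ℝ) {x : ℝ} (hx : 0 < 1 + x) :
    ContDiffAt ℝ 2 (fun x => τ * Real.log (1 + x)) x := by
  have h1 : ContDiffAt ℝ 2 (fun x : ℝ => 1 + x) x := by fun_prop
  exact contDiffAt_const.mul (h1.log hx.ne')

lemma pow_deriv (r : ℕ) (x : ℝ) : deriv (fun x : ℝ => (1 + x) ^ r) x = r * (1 + x) ^ (r - 1) := by
  have h1 : HasDerivAt (fun x : ℝ => 1 + x) 1 x := (hasDerivAt_id x).const_add 1
  have h2 : HasDerivAt (fun x : ℝ => (1 + x) ^ r) (r * (1 + x) ^ (r - 1) * 1) x := h1.pow r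
  rw [h2.deriv, mul_one]

lemma pow_deriv' {r : ℕ} (hr : 0 < r) {x : ℝ} (hx : 0 < 1 + x) :
    deriv (fun x : ℝ => (1 + x) ^ r) x = r * (1 + x) ^ r / (1 + x) := by
  rw [pow_deriv]
  obtain ⟨k, rfl⟩ := Nat.exists_eq_succ_of_ne_zero hr.ne'
  simp only [Nat.succ_eq_add_one, Nat.add_sub_cancel]
  field_simp
  ring

lemma pow_deriv2 {r : ℕ} (hr : 0 < r) {x : ℝ} (hx : 0 < 1 + x) :
    deriv (deriv (fun x : ℝ => (1 + x) ^ r)) x = r * (r - 1) * (1 + x) ^ r / (1 + x) ^ 2 := by
  have e : deriv (fun x : ℝ => (1 + x) ^ r) = fun x : ℝ => (r : ℝ) * (1 + x) ^ (r - 1) := by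
    ext x
    exact pow_deriv r x
  rw [e]
  have h1 : HasDerivAt (fun x : ℝ => 1 + x) 1 x := (hasDerivAt_id x).const_add 1
  have h2 : HasDerivAt (fun x : ℝ => (r : ℝ) * (1 + x) ^ (r - 1))
      (r * (((r - 1 : ℕ) : ℝ) * (1 + x) ^ (r - 1 - 1) * 1)) x := (h1.pow (r - 1)).const_mul (r : ℝ)
  rw [h2.deriv]
  obtain ⟨k, rfl⟩ := Nat.exists_eq_succ_of_ne_zero hr.ne'
  simp only [Nat.succ_eq_add_one, Nat.add_sub_cancel]
  rcases k with _ | k
  · simp
  · simp only [Nat.add_sub_cancel]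
    push_cast
    field_simp
    ring

lemma pow_cd (r : ℕ) (x : ℝ) : ContDiffAt ℝ 2 (fun x : ℝ => (1 + x) ^ r) x := by fun_prop

lemma Qcd (c : Fin 4 → ℝ) (w : V 4) : ContDiffAt ℝ 2 (Q c) w :=
  (contDiff_Q c).contDiffAt.of_le two_le

/-- `s = |v|² N^r` -/
def ss (r : ℕ) (j : Fin 3) (w : V 4) : ℝ := Q (cv j) w * (1 + Q (cN j) w) ^ r

lemma ss_cd (r : ℕ) (j : Fin 3) (w : V 4) : ContDiffAt ℝ 2 (ss r j) w := by
  unfold ss
  exact (Qcd _ w).mul ((contDiffAt_const.add (Qcd _ w)).pow r)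

lemma ss_coe (r : ℕ) (j : Fin 3) : (fun w : V 4 => ((ss r j w : ℝ) : ℂ)) =
    fun w => ((Q (cv j) w : ℝ) : ℂ) * (((1 + Q (cN j) w) ^ r : ℝ) : ℂ) := by
  ext w
  unfold ss
  push_cast
  rfl

section entries

variable {r : ℕ} (hr : 0 < r) (j : Fin 3) (u : V 4)

lemma pos1 : 0 < 1 + Q (cN j) u := by
  have := Q_nonneg (cN_nonneg j) u
  linarith

include hr

lemma ss_dZ (a : Fin 4) : dZ a (fun w => ((ss r j w : ℝ) : ℂ)) u =
    ((Q (cv j) u : ℝ) : ℂ) * (((r * (1 + Q (cN j) u) ^ r / (1 + Q (cN j) u) : ℝ) : ℂ) *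
      (cN j a * star (u a))) + (((1 + Q (cN j) u) ^ r : ℝ) : ℂ) * (cv j a * star (u a)) := by
  have d1 : DifferentiableAt ℝ (fun w => ((Q (cv j) w : ℝ) : ℂ)) u :=
    (hasFDerivAt_Q _ u).differentiableAt
  have d2 : DifferentiableAt ℝ (fun w : V 4 => (((1 + Q (cN j) w) ^ r : ℝ) : ℂ)) u :=
    (cd_coe ((contDiffAt_const.add (Qcd (cN j) u)).pow r)).differentiableAt (by norm_num)
  rw [ss_coe, dZ_mul d1 d2, dZ_Q]
  have h := dZ_real_comp (F := fun x => (1 + x) ^ r) (f := Q (cN j)) (z := u)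
    ((pow_cd r _).differentiableAt (by norm_num)) ((Qcd _ u).differentiableAt (by norm_num)) a
  rw [h, pow_deriv' hr (pos1 j u), dZ_Q]
  ring

lemma ss_dB (a : Fin 4) : dB a (fun w => ((ss r j w : ℝ) : ℂ)) u =
    ((Q (cv j) u : ℝ) : ℂ) * (((r * (1 + Q (cN j) u) ^ r / (1 + Q (cN j) u) : ℝ) : ℂ) *
      (cN j a * u a)) + (((1 + Q (cN j) u) ^ r : ℝ) : ℂ) * (cv j a * u a) := by
  have d1 : DifferentiableAt ℝ (fun w => ((Q (cv j) w : ℝ) : ℂ)) u :=
    (hasFDerivAt_Q _ u).differentiableAt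
  have d2 : DifferentiableAt ℝ (fun w : V 4 => (((1 + Q (cN j) w) ^ r : ℝ) : ℂ)) u :=
    (cd_coe ((contDiffAt_const.add (Qcd (cN j) u)).pow r)).differentiableAt (by norm_num)
  rw [ss_coe, dB_mul d1 d2, dB_Q]
  have h := dB_real_comp (F := fun x => (1 + x) ^ r) (f := Q (cN j)) (z := u)
    ((pow_cd r _).differentiableAt (by norm_num)) ((Qcd _ u).differentiableAt (by norm_num)) a
  rw [h, pow_deriv' hr (pos1 j u), dB_Q]
  ring

lemma ss_levi (a b : Fin 4) : levi (fun w => ((ss r j w : ℝ) : ℂ)) u a b =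
    ((Q (cv j) u : ℝ) : ℂ) * (((r * (1 + Q (cN j) u) ^ r / (1 + Q (cN j) u) : ℝ) : ℂ) *
      (if a = b then (cN j b : ℂ) else 0) +
      ((r * (r - 1) * (1 + Q (cN j) u) ^ r / (1 + Q (cN j) u) ^ 2 : ℝ) : ℂ) *
        ((cN j a * star (u a)) * (cN j b * u b))) +
    (((1 + Q (cN j) u) ^ r : ℝ) : ℂ) * (if a = b then (cv j b : ℂ) else 0) +
    ((r * (1 + Q (cN j) u) ^ r / (1 + Q (cN j) u) : ℝ) : ℂ) *
      ((cv j a * star (u a)) * (cN j b * u b) + (cN j a * star (u a)) * (cv j b * u b)) := by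
  have d1 : ContDiffAt ℝ 2 (fun w => ((Q (cv j) w : ℝ) : ℂ)) u := cd_coe (Qcd _ u)
  have d2 : ContDiffAt ℝ 2 (fun w : V 4 => (((1 + Q (cN j) w) ^ r : ℝ) : ℂ)) u :=
    cd_coe ((contDiffAt_const.add (Qcd (cN j) u)).pow r)
  rw [ss_coe, levi_mul d1 d2, levi_Q, dZ_Q, dB_Q]
  have h := dZ_real_comp (F := fun x => (1 + x) ^ r) (f := Q (cN j)) (z := u)
    ((pow_cd r _).differentiableAt (by norm_num)) ((Qcd _ u).differentiableAt (by norm_num)) a
  have h' := dB_real_comp (F := fun x => (1 + x) ^ r) (f := Q (cN j)) (z := u)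
    ((pow_cd r _).differentiableAt (by norm_num)) ((Qcd _ u).differentiableAt (by norm_num)) b
  have h'' := levi_real_comp (F := fun x => (1 + x) ^ r) (f := Q (cN j)) (z := u)
    (pow_cd r _) (Qcd _ u) a b
  rw [h, h', h'', pow_deriv' hr (pos1 j u), pow_deriv2 hr (pos1 j u), dB_Q, dZ_Q, levi_Q]
  ring

end entries


/-- the two positivity facts transported to `F` -/
lemma F_pos {r : ℕ} (hr : 0 < r) {τ q : ℝ} {φ F : ℝ → ℝ} (hτ : 0 < τ)
    (hφ : ContDiffOn ℝ ∞ φ (Set.Ioi 0))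
    (hpos : ∀ x, 0 < x → 0 < deriv φ x ∧ 0 < deriv φ x + x * deriv (deriv φ) x)
    (hF : ContDiff ℝ ∞ F) (hF0 : 0 < deriv F 0)
    (hFφ : ∀ x, 0 < x → x < q → φ x = τ * Real.log x + F (x ^ r)) (hq : 0 < q)
    {s : ℝ} (hs : 0 ≤ s) (hsq : s < q ^ r) :
    0 < τ + r * deriv F s * s ∧ 0 < deriv F s + s * deriv (deriv F) s := by
  rcases eq_or_lt_of_le hs with h0 | h0
  · rw [← h0]
    simp [hτ, hF0]
  -- `s = x ^ r`
  set x : ℝ := s ^ ((r : ℝ)⁻¹) with hx
  have hx0 : 0 < x := Real.rpow_pos_of_pos h0 _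
  have hxr : x ^ r = s := Real.rpow_inv_natCast_pow hs hr.ne'
  have hxq : x < q := by
    by_contra hcon
    push Not at hcon
    have : q ^ r ≤ x ^ r := pow_le_pow_left₀ hq.le hcon r
    rw [hxr] at this
    linarith
  obtain ⟨p1, p2⟩ := hpos x hx0
  have hF1 : Differentiable ℝ F := hF.differentiable (by simp)
  have hF2 : Differentiable ℝ (deriv F) :=
    (contDiff_infty_iff_deriv.1 hF).2.differentiable (by simp)
  have hφ' : ∀ y, 0 < y → y < q → y * deriv φ y = τ + r * deriv F (y ^ r) * y ^ r := by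
    intro y hy0 hyq
    have e : φ =ᶠ[𝓝 y] fun y => τ * Real.log y + F (y ^ r) := by
      filter_upwards [isOpen_Ioo.mem_nhds (⟨hy0, hyq⟩ : y ∈ Set.Ioo 0 q)] with z hz
      exact hFφ z hz.1 hz.2
    have d : HasDerivAt (fun y => τ * Real.log y + F (y ^ r))
        (τ * y⁻¹ + deriv F (y ^ r) * (r * y ^ (r - 1))) y :=
      ((Real.hasDerivAt_log hy0.ne').const_mul τ).add
        ((hF1 (y ^ r)).hasDerivAt.comp y (hasDerivAt_pow r y))
    rw [e.deriv_eq, d.deriv]
    have e1 : y ^ r = y ^ (r - 1) * y := by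
      rw [← pow_succ, Nat.sub_add_cancel hr]
    have e2 : y * (τ * y⁻¹) = τ := by field_simp
    calc y * (τ * y⁻¹ + deriv F (y ^ r) * (r * y ^ (r - 1)))
        = y * (τ * y⁻¹) + r * deriv F (y ^ r) * (y ^ (r - 1) * y) := by ring
      _ = _ := by rw [e2, ← e1]
  have f1 := hφ' x hx0 hxq
  rw [hxr] at f1
  refine ⟨by rw [← f1]; exact mul_pos hx0 p1, ?_⟩
  -- second derivative
  have hφd : DifferentiableAt ℝ (deriv φ) x := by
    have := (contDiffOn_infty_iff_deriv_of_isOpen isOpen_Ioi).1 hφ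
    exact (this.2.differentiableOn (by simp)).differentiableAt (Ioi_mem_nhds hx0)
  have d1 : HasDerivAt (fun y => y * deriv φ y) (1 * deriv φ x + x * deriv (deriv φ) x) x :=
    (hasDerivAt_id x).mul hφd.hasDerivAt
  have d2 : HasDerivAt (fun y : ℝ => τ + r * deriv F (y ^ r) * y ^ r)
      (r * (deriv (deriv F) (x ^ r) * (r * x ^ (r - 1))) * x ^ r +
        r * deriv F (x ^ r) * (r * x ^ (r - 1))) x :=
    ((((hF2 (x ^ r)).hasDerivAt.comp x (hasDerivAt_pow r x)).const_mul (r : ℝ)).mul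
      (hasDerivAt_pow r x)).const_add τ
  have e : (fun y => y * deriv φ y) =ᶠ[𝓝 x] fun y : ℝ => τ + r * deriv F (y ^ r) * y ^ r := by
    filter_upwards [isOpen_Ioo.mem_nhds (⟨hx0, hxq⟩ : x ∈ Set.Ioo 0 q)] with z hz
    exact hφ' z hz.1 hz.2
  have f2 := (d1.congr_of_eventuallyEq e.symm).unique d2
  rw [one_mul, hxr] at f2
  rw [f2] at p2
  have e3 : r * (deriv (deriv F) s * (r * x ^ (r - 1))) * s + r * deriv F s * (r * x ^ (r - 1)) =
      (r ^ 2 * x ^ (r - 1)) * (deriv F s + s * deriv (deriv F) s) := by ring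
  rw [e3] at p2
  exact (mul_pos_iff_of_pos_left (by positivity)).1 p2

/-- positivity of the quadratic form -/
lemma quad_pos {τ A B n N R v2 X r : ℝ} {P ν v om : ℂ} {t : ℝ} (hN : N = 1 + n) (hn : 0 ≤ n)
    (hR : 0 < R) (hv : v2 = Complex.normSq v) (hω : om = ν + ((r / N : ℝ) : ℂ) * (star v * P))
    (hA : 0 < τ + r * A * (v2 * R)) (hB : 0 < A + (v2 * R) * B)
    (hCS : Complex.normSq P ≤ n * X) (hX : 0 ≤ X) (ht : 0 ≤ t)
    (hne : X ≠ 0 ∨ ν ≠ 0 ∨ t ≠ 0) :
    0 < (τ / N + A * v2 * (r * R / N)) * X +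
      (-τ / N ^ 2 + A * v2 * (r * (r - 1) * R / N ^ 2) + B * v2 ^ 2 * (r * R / N) ^ 2) *
        Complex.normSq P + A * R * Complex.normSq ν +
      (A * (r * R / N) + B * R * v2 * (r * R / N)) * (2 * (star (v * ν) * P).re) +
      B * R ^ 2 * (v2 * Complex.normSq ν) + t := by
  have hN0 : 0 < N := by rw [hN]; linarith
  have e1 : Complex.normSq om = Complex.normSq ν + (r / N) ^ 2 * (v2 * Complex.normSq P) +
      (r / N) * (2 * (star (v * ν) * P).re) := by
    rw [hω, hv]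
    simp only [Complex.normSq_apply, Complex.add_re, Complex.add_im, Complex.mul_re,
      Complex.mul_im, Complex.star_def, Complex.conj_re, Complex.conj_im, Complex.ofReal_re,
      Complex.ofReal_im, map_mul]
    ring
  have e2 : (τ / N + A * v2 * (r * R / N)) * X +
      (-τ / N ^ 2 + A * v2 * (r * (r - 1) * R / N ^ 2) + B * v2 ^ 2 * (r * R / N) ^ 2) *
        Complex.normSq P + A * R * Complex.normSq ν +
      (A * (r * R / N) + B * R * v2 * (r * R / N)) * (2 * (star (v * ν) * P).re) +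
      B * R ^ 2 * (v2 * Complex.normSq ν) + t =
      (τ + r * A * (v2 * R)) * ((N * X - Complex.normSq P) / N ^ 2) +
      R * (A + (v2 * R) * B) * Complex.normSq om + t := by
    rw [e1]
    field_simp
    ring
  rw [e2]
  have h1 : X ≤ N * X - Complex.normSq P := by rw [hN]; linarith
  have h2 : 0 ≤ (N * X - Complex.normSq P) / N ^ 2 := by
    apply div_nonneg (hX.trans h1) (by positivity)
  have h3 : 0 ≤ (τ + r * A * (v2 * R)) * ((N * X - Complex.normSq P) / N ^ 2) :=
    mul_nonneg hA.le h2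
  have h4 : 0 ≤ R * (A + (v2 * R) * B) * Complex.normSq om :=
    mul_nonneg (mul_pos hR hB).le (Complex.normSq_nonneg _)
  by_cases hX0 : X = 0
  · have hP : P = 0 := by
      rw [hX0, mul_zero] at hCS
      exact Complex.normSq_eq_zero.1 (le_antisymm hCS (Complex.normSq_nonneg _))
    have hων : om = ν := by rw [hω, hP]; simp
    rcases hne with h | h | h
    · exact absurd hX0 h
    · have : 0 < R * (A + (v2 * R) * B) * Complex.normSq om := by
        rw [hων]
        exact mul_pos (mul_pos hR hB) (Complex.normSq_pos.2 h)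
      linarith
    · have : 0 < t := lt_of_le_of_ne ht (Ne.symm h)
      linarith
  · have hX1 : 0 < X := lt_of_le_of_ne hX (Ne.symm hX0)
    have : 0 < (τ + r * A * (v2 * R)) * ((N * X - Complex.normSq P) / N ^ 2) :=
      mul_pos hA (div_pos (hX1.trans_le h1) (by positivity))
    linarith

end RadialAux

open RadialAux in
/-- its expression in the exceptional charts -/
theorem posDef_radial_exc {r : ℕ} (hr : 0 < r) {τ p q : ℝ} {φ F : ℝ → ℝ} (hτ : 0 < τ) (hq : 0 < q)
    (hφ : ContDiffOn ℝ ∞ φ (Set.Ioi 0))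
    (hpos : ∀ x, 0 < x → 0 < deriv φ x ∧ 0 < deriv φ x + x * deriv (deriv φ) x)
    (hF : ContDiff ℝ ∞ F) (hF0 : 0 < deriv F 0)
    (hFφ : ∀ x, 0 < x → x < q → φ x = τ * Real.log x + F (x ^ r)) (j : Fin 3)
    {u : V 4} (hu : u ∈ excDom r q j) :
    (levi (fun w => ((τ * Real.log (excNorm j w) +
      F (Complex.normSq (w j.castSucc) * excNorm j w ^ r) + Complex.normSq (w 3) : ℝ) : ℂ))
      u).PosDef := by
  have hs : ss r j u < q ^ r := by
    have h : Complex.normSq (u j.castSucc) * excNorm j u ^ r < q ^ r := hu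
    rw [nv_eq, excNorm_eq] at h
    exact h
  have hn := Q_nonneg (cN_nonneg j) u
  have hv := Q_nonneg (cv_nonneg j) u
  have hN := pos1 j u
  have hs0 : 0 ≤ ss r j u := mul_nonneg hv (pow_pos hN r).le
  obtain ⟨k1, k2⟩ := F_pos hr hτ hφ hpos hF hF0 hFφ hq hs0 hs
  have e1 : (fun w : V 4 => ((τ * Real.log (excNorm j w) +
      F (Complex.normSq (w j.castSucc) * excNorm j w ^ r) + Complex.normSq (w 3) : ℝ) : ℂ)) =
      fun w => (((τ * Real.log (1 + Q (cN j) w) : ℝ) : ℂ) + ((F (ss r j w) : ℝ) : ℂ)) +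
        ((Q c3 w : ℝ) : ℂ) := by
    ext w
    rw [N3_eq, nv_eq, excNorm_eq]
    unfold ss
    push_cast
    rfl
  have hF2 : ContDiffAt ℝ 2 F (ss r j u) := hF.contDiffAt.of_le two_le
  have hA : ContDiffAt ℝ 2 (fun w : V 4 => ((τ * Real.log (1 + Q (cN j) w) : ℝ) : ℂ)) u :=
    cd_coe ((log_cd τ hN).comp u (Qcd _ u))
  have hB : ContDiffAt ℝ 2 (fun w : V 4 => ((F (ss r j w) : ℝ) : ℂ)) u :=
    cd_coe (hF2.comp u (ss_cd r j u))
  have hC : ContDiffAt ℝ 2 (fun w : V 4 => ((Q c3 w : ℝ) : ℂ)) u := cd_coe (Qcd _ u)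
  have hlog := fun a b => levi_real_comp (F := fun x => τ * Real.log (1 + x)) (f := Q (cN j))
    (z := u) (log_cd τ hN) (Qcd _ u) a b
  have hent : ∀ a b, levi (fun w => ((τ * Real.log (excNorm j w) +
      F (Complex.normSq (w j.castSucc) * excNorm j w ^ r) + Complex.normSq (w 3) : ℝ) : ℂ)) u a b =
      ((τ / (1 + Q (cN j) u) + deriv F (ss r j u) * Q (cv j) u *
        (r * (1 + Q (cN j) u) ^ r / (1 + Q (cN j) u)) : ℝ) : ℂ) *
        (if a = b then (cN j b : ℂ) else 0) +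
      ((-τ / (1 + Q (cN j) u) ^ 2 + deriv F (ss r j u) * Q (cv j) u *
        (r * (r - 1) * (1 + Q (cN j) u) ^ r / (1 + Q (cN j) u) ^ 2) +
        deriv (deriv F) (ss r j u) * Q (cv j) u ^ 2 *
          (r * (1 + Q (cN j) u) ^ r / (1 + Q (cN j) u)) ^ 2 : ℝ) : ℂ) *
        ((cN j a * star (u a)) * (cN j b * u b)) +
      ((deriv F (ss r j u) * (1 + Q (cN j) u) ^ r : ℝ) : ℂ) *
        (if a = b then (cv j b : ℂ) else 0) +
      ((deriv F (ss r j u) * (r * (1 + Q (cN j) u) ^ r / (1 + Q (cN j) u)) +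
        deriv (deriv F) (ss r j u) * (1 + Q (cN j) u) ^ r * Q (cv j) u *
          (r * (1 + Q (cN j) u) ^ r / (1 + Q (cN j) u)) : ℝ) : ℂ) *
        ((cv j a * star (u a)) * (cN j b * u b) + (cN j a * star (u a)) * (cv j b * u b)) +
      ((deriv (deriv F) (ss r j u) * ((1 + Q (cN j) u) ^ r) ^ 2 : ℝ) : ℂ) *
        ((cv j a * star (u a)) * (cv j b * u b)) +
      (if a = b then (c3 b : ℂ) else 0) := by
    intro a b
    rw [e1, RadialAux.levi_add (hA.add hB) hC, RadialAux.levi_add hA hB, levi_real_comp hF2 (ss_cd r j u), hlog,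
      levi_Q, levi_Q, dZ_Q, dB_Q, log_deriv τ hN, log_deriv2 τ hN, ss_levi hr, ss_dZ hr,
      ss_dB hr]
    push_cast
    ring
  set L := levi (fun w => ((τ * Real.log (excNorm j w) +
      F (Complex.normSq (w j.castSucc) * excNorm j w ^ r) + Complex.normSq (w 3) : ℝ) : ℂ)) u
    with hL
  clear_value L
  set α1 : ℝ := τ / (1 + Q (cN j) u) + deriv F (ss r j u) * Q (cv j) u *
        (r * (1 + Q (cN j) u) ^ r / (1 + Q (cN j) u)) with hα1
  set α2 : ℝ := -τ / (1 + Q (cN j) u) ^ 2 + deriv F (ss r j u) * Q (cv j) u *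
        (r * (r - 1) * (1 + Q (cN j) u) ^ r / (1 + Q (cN j) u) ^ 2) +
        deriv (deriv F) (ss r j u) * Q (cv j) u ^ 2 *
          (r * (1 + Q (cN j) u) ^ r / (1 + Q (cN j) u)) ^ 2 with hα2
  set β1 : ℝ := deriv F (ss r j u) * (1 + Q (cN j) u) ^ r with hβ1
  set γ : ℝ := deriv F (ss r j u) * (r * (1 + Q (cN j) u) ^ r / (1 + Q (cN j) u)) +
        deriv (deriv F) (ss r j u) * (1 + Q (cN j) u) ^ r * Q (cv j) u *
          (r * (1 + Q (cN j) u) ^ r / (1 + Q (cN j) u)) with hγ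
  set β2 : ℝ := deriv (deriv F) (ss r j u) * ((1 + Q (cN j) u) ^ r) ^ 2 with hβ2
  apply Matrix.PosDef.of_dotProduct_mulVec_pos
  · ext a b
    rw [Matrix.conjTranspose_apply, hent, hent]
    simp only [star_add, star_mul', Complex.star_def, Complex.conj_ofReal, Complex.conj_conj]
    by_cases h : a = b
    · subst h
      simp only [if_true, Complex.conj_ofReal]
      ring
    · have h' : b ≠ a := fun e => h e.symm
      simp only [h, h', if_false, map_zero]
      ring
  · intro x hx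
    have e : star x ⬝ᵥ (L.mulVec x) =
        ((α1 * Q (cN j) x + α2 * Complex.normSq (∑ k, cN j k * (u k * x k)) +
          β1 * Complex.normSq (x j.castSucc) +
          γ * (2 * (star (u j.castSucc * x j.castSucc) * (∑ k, cN j k * (u k * x k))).re) +
          β2 * (Q (cv j) u * Complex.normSq (x j.castSucc)) + Complex.normSq (x 3) : ℝ) : ℂ) := by
      have e0 : ∀ z : ℂ, ((Complex.normSq z : ℝ) : ℂ) = star z * z := fun z =>
        Complex.normSq_eq_conj_mul_self
      have e2 : ∀ z : ℂ, ((2 : ℝ) : ℂ) * (z.re : ℂ) = z + star z := fun z => by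
        rw [Complex.star_def, Complex.add_conj, Complex.ofReal_mul]
      clear_value α1 α2 β1 γ β2
      simp only [Complex.ofReal_add, Complex.ofReal_mul]
      rw [e2]
      simp only [e0, Q_coe]
      simp only [dotProduct, Matrix.mulVec, Fin.sum_univ_four, Pi.star_apply, hent]
      fin_cases j
      · simp [cN, cv, c3]
        ring
      · simp [cN, cv, c3]
        ring
      · simp [cN, cv, c3]
        ring
    rw [e]
    have hCS : Complex.normSq (∑ k, cN j k * (u k * x k)) ≤ Q (cN j) u * Q (cN j) x := by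
      have h := cauchy3 (fun k => (cN j k : ℂ) * u k) (fun k => (cN j k : ℂ) * x k)
      fin_cases j
      · simpa [Fin.sum_univ_four, cN, Q] using h
      · simpa [Fin.sum_univ_four, cN, Q] using h
      · simpa [Fin.sum_univ_four, cN, Q] using h
    have hne : Q (cN j) x ≠ 0 ∨ x j.castSucc ≠ 0 ∨ Complex.normSq (x 3) ≠ 0 := by
      by_contra hcon
      push Not at hcon
      obtain ⟨g1, g2, g3⟩ := hcon
      apply hx
      have g4 : ∀ k ∈ Finset.univ, cN j k * Complex.normSq (x k) = 0 :=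
        (Finset.sum_eq_zero_iff_of_nonneg fun k _ =>
          mul_nonneg (cN_nonneg j k) (Complex.normSq_nonneg _)).1 g1
      ext k
      by_cases h1 : k = j.castSucc
      · rw [h1, g2]; rfl
      · by_cases h2 : k = 3
        · rw [h2, Complex.normSq_eq_zero.1 g3]; rfl
        · have := g4 k (Finset.mem_univ _)
          have h5 : cN j k = 1 := by simp [cN, h1, h2]
          rw [h5, one_mul] at this
          rw [Complex.normSq_eq_zero.1 this]; rfl
    have key := quad_pos (τ := τ) (A := deriv F (ss r j u)) (B := deriv (deriv F) (ss r j u))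
      (n := Q (cN j) u) (N := 1 + Q (cN j) u) (R := (1 + Q (cN j) u) ^ r) (v2 := Q (cv j) u)
      (X := Q (cN j) x) (r := r) (P := ∑ k, cN j k * (u k * x k)) (ν := x j.castSucc)
      (v := u j.castSucc) (t := Complex.normSq (x 3)) rfl hn (pow_pos hN r) (nv_eq j u).symm rfl
      k1 k2 hCS (Q_nonneg (cN_nonneg j) x) (Complex.normSq_nonneg _) hne
    exact Complex.zero_lt_real.2 key


namespace RadialAux

/-- the contraction of the adjugate of a radial matrix with a radial matrix -/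
lemma sum_adj (a b h1 h2 : ℂ) (u v : Fin 4 → ℂ) (hu : u 3 = 0) (hv : v 3 = 0)
    (g L : Matrix (Fin 4) (Fin 4) ℂ)
    (hg : ∀ j k, g j k = a * (if j = k then (cE k : ℂ) else 0) + b * (u j * v k) +
      (if j = k then (c3 k : ℂ) else 0))
    (hL : ∀ j k, L j k = h1 * (if j = k then (cE k : ℂ) else 0) + h2 * (u j * v k)) :
    ∑ j, ∑ k, g.adjugate k j * L j k =
      2 * a * h1 * (a + b * (u 0 * v 0 + u 1 * v 1 + u 2 * v 2)) +
      a ^ 2 * (h1 + h2 * (u 0 * v 0 + u 1 * v 1 + u 2 * v 2)) := by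
  have s00 : (0 : Fin 4).succAbove (0 : Fin 3) = 1 := rfl
  have s01 : (0 : Fin 4).succAbove (1 : Fin 3) = 2 := rfl
  have s02 : (0 : Fin 4).succAbove (2 : Fin 3) = 3 := rfl
  have s10 : (1 : Fin 4).succAbove (0 : Fin 3) = 0 := rfl
  have s11 : (1 : Fin 4).succAbove (1 : Fin 3) = 2 := rfl
  have s12 : (1 : Fin 4).succAbove (2 : Fin 3) = 3 := rfl
  have s20 : (2 : Fin 4).succAbove (0 : Fin 3) = 0 := rfl
  have s21 : (2 : Fin 4).succAbove (1 : Fin 3) = 1 := rfl
  have s22 : (2 : Fin 4).succAbove (2 : Fin 3) = 3 := rfl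
  have s30 : (3 : Fin 4).succAbove (0 : Fin 3) = 0 := rfl
  have s31 : (3 : Fin 4).succAbove (1 : Fin 3) = 1 := rfl
  have s32 : (3 : Fin 4).succAbove (2 : Fin 3) = 2 := rfl
  have g00 : g 0 0 = a + b * (u 0 * v 0) := by simp [hg, cE, c3]
  have g11 : g 1 1 = a + b * (u 1 * v 1) := by simp [hg, cE, c3]
  have g22 : g 2 2 = a + b * (u 2 * v 2) := by simp [hg, cE, c3]
  have g33 : g 3 3 = 1 := by simp [hg, cE, c3, hu]
  have g01 : g 0 1 = b * (u 0 * v 1) := by simp [hg]
  have g02 : g 0 2 = b * (u 0 * v 2) := by simp [hg]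
  have g10 : g 1 0 = b * (u 1 * v 0) := by simp [hg]
  have g12 : g 1 2 = b * (u 1 * v 2) := by simp [hg]
  have g20 : g 2 0 = b * (u 2 * v 0) := by simp [hg]
  have g21 : g 2 1 = b * (u 2 * v 1) := by simp [hg]
  have g03 : g 0 3 = 0 := by simp [hg, hv]
  have g13 : g 1 3 = 0 := by simp [hg, hv]
  have g23 : g 2 3 = 0 := by simp [hg, hv]
  have g30 : g 3 0 = 0 := by simp [hg, hu]
  have g31 : g 3 1 = 0 := by simp [hg, hu]
  have g32 : g 3 2 = 0 := by simp [hg, hu]
  have l00 : L 0 0 = h1 + h2 * (u 0 * v 0) := by simp [hL, cE]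
  have l11 : L 1 1 = h1 + h2 * (u 1 * v 1) := by simp [hL, cE]
  have l22 : L 2 2 = h1 + h2 * (u 2 * v 2) := by simp [hL, cE]
  have l33 : L 3 3 = 0 := by simp [hL, cE, hu]
  have l01 : L 0 1 = h2 * (u 0 * v 1) := by simp [hL]
  have l02 : L 0 2 = h2 * (u 0 * v 2) := by simp [hL]
  have l10 : L 1 0 = h2 * (u 1 * v 0) := by simp [hL]
  have l12 : L 1 2 = h2 * (u 1 * v 2) := by simp [hL]
  have l20 : L 2 0 = h2 * (u 2 * v 0) := by simp [hL]
  have l21 : L 2 1 = h2 * (u 2 * v 1) := by simp [hL]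
  have l03 : L 0 3 = 0 := by simp [hL, hv]
  have l13 : L 1 3 = 0 := by simp [hL, hv]
  have l23 : L 2 3 = 0 := by simp [hL, hv]
  have l30 : L 3 0 = 0 := by simp [hL, hu]
  have l31 : L 3 1 = 0 := by simp [hL, hu]
  have l32 : L 3 2 = 0 := by simp [hL, hu]
  simp only [Fin.sum_univ_four, l00, l11, l22, l33, l01, l02, l10, l12, l20, l21, l03, l13, l23,
    l30, l31, l32, mul_zero, add_zero]
  simp only [Matrix.adjugate_fin_succ_eq_det_submatrix, Matrix.det_fin_three,
    Matrix.submatrix_apply, s00, s01, s02, s10, s11, s12, s20, s21, s22,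
    g00, g11, g22, g33, g01, g02, g10, g12, g20, g21, g03, g13, g23, g30, g31, g32]
  simp
  ring


abbrev EE := PiLp 2 (fun _ : Fin 3 => ℂ)

/-- radial integration on `ℂ³` -/
lemma radial3 (k : ℝ → ℝ) : ∫ z : Fin 3 → ℂ, k (∑ i, Complex.normSq (z i)) =
    Real.pi ^ 3 * ∫ ρ in Set.Ioi (0 : ℝ), ρ ^ 5 * k (ρ ^ 2) := by
  let e : (Fin 3 → ℂ) ≃L[ℝ] EE := (PiLp.continuousLinearEquiv 2 ℝ (fun _ : Fin 3 => ℂ)).symm
  let _ : MeasurableSpace EE := borel EE
  have _hB : BorelSpace EE := ⟨rfl⟩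
  let μ : Measure EE := Measure.map e volume
  have _hμ : μ.IsAddHaarMeasure := e.isAddHaarMeasure_map volume
  have he : ∀ z : Fin 3 → ℂ, ‖e z‖ ^ 2 = ∑ i, Complex.normSq (z i) := by
    intro z
    rw [PiLp.norm_sq_eq_of_L2]
    refine Finset.sum_congr rfl fun i _ => ?_
    rw [Complex.normSq_eq_norm_sq]
    rfl
  have hmeas : MeasurableEmbedding e := e.toHomeomorph.measurableEmbedding
  have h1 := integral_fun_norm_addHaar μ (fun x => k (x ^ 2))
  rw [hmeas.integral_map] at h1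
  simp only [he] at h1
  rw [h1]
  have hdim : Module.finrank ℝ EE = 6 := by
    rw [← e.toLinearEquiv.finrank_eq, Module.finrank_pi_fintype]
    simp
  have hball : μ.real (Metric.ball 0 1) = Real.pi ^ 3 / 6 := by
    have : μ (Metric.ball 0 1) = ENNReal.ofReal (Real.pi ^ 3 / 6) := by
      rw [hmeas.map_apply]
      have hs : e ⁻¹' (Metric.ball 0 1) = {x : Fin 3 → ℂ | ∑ i, ‖x i‖ ^ (2 : ℝ) < 1} := by
        ext x
        simp only [Set.mem_preimage, Metric.mem_ball, dist_zero_right, Set.mem_ofPred_eq]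
        have h2 : (∑ i, ‖x i‖ ^ (2 : ℝ)) = ‖e x‖ ^ 2 := by
          rw [he]
          refine Finset.sum_congr rfl fun i _ => ?_
          rw [Complex.normSq_eq_norm_sq]
          exact Real.rpow_natCast _ 2
        rw [h2]
        constructor
        · intro h
          have := norm_nonneg (e x)
          nlinarith
        · intro h
          by_contra hcon
          push Not at hcon
          nlinarith
      rw [hs, Complex.volume_sum_rpow_lt_one (Fin 3) (by norm_num : (1 : ℝ) ≤ 2)]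
      congr 1
      have g1 : Real.Gamma (2 / 2 + 1) = 1 := by
        norm_num
      have g2 : Real.Gamma (2 * (Fintype.card (Fin 3) : ℝ) / 2 + 1) = 6 := by
        have : (2 * (Fintype.card (Fin 3) : ℝ) / 2 + 1) = ((3 : ℕ) : ℝ) + 1 := by
          simp
        rw [this, Real.Gamma_nat_eq_factorial]
        norm_num [Nat.factorial]
      rw [g1, g2]
      simp
    rw [Measure.real, this, ENNReal.toReal_ofReal (by positivity)]
  rw [hdim, hball]
  simp only [smul_eq_mul, nsmul_eq_mul]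
  push_cast
  ring

/-- the whole integral -/
lemma radial4 (k : ℝ → ℝ) : ∫ y in {y : V 4 | 0 < E3 y ∧ y 3 ∈ box 1}, k (E3 y) =
    Real.pi ^ 3 * ∫ ρ in Set.Ioi (0 : ℝ), ρ ^ 5 * k (ρ ^ 2) := by
  have hE : Measurable E3 := by
    unfold E3
    have h : ∀ i : Fin 4, Measurable fun y : V 4 => Complex.normSq (y i) := fun i =>
      Complex.continuous_normSq.measurable.comp (measurable_pi_apply i)
    exact ((h 0).add (h 1)).add (h 2)
  have hbox : MeasurableSet (box 1) := by
    unfold box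
    exact (Complex.measurable_re measurableSet_Ico).inter (Complex.measurable_im measurableSet_Ico)
  have hm3 : Measurable fun y : V 4 => y 3 := measurable_pi_apply 3
  have hS3 : MeasurableSet {y : V 4 | y 3 ∈ box 1} := hm3 hbox
  have hS : MeasurableSet {y : V 4 | 0 < E3 y ∧ y 3 ∈ box 1} :=
    (hE measurableSet_Ioi).inter hS3
  set k' : ℝ → ℝ := fun x => if 0 < x then k x else 0 with hk'
  rw [← integral_indicator hS]
  let e : V 4 ≃ᵐ ℂ × (Fin 3 → ℂ) := MeasurableEquiv.piFinSuccAbove (fun _ => ℂ) 3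
  have he : MeasurePreserving e := volume_preserving_piFinSuccAbove (fun _ => ℂ) 3
  have h1 : ∀ y : V 4, {y : V 4 | 0 < E3 y ∧ y 3 ∈ box 1}.indicator (fun y => k (E3 y)) y =
      (fun z : ℂ × (Fin 3 → ℂ) => (box 1).indicator (fun _ => (1 : ℝ)) z.1 *
        k' (∑ i, Complex.normSq (z.2 i))) (e y) := by
    intro y
    have e1 : (e y).1 = y 3 := rfl
    have e2 : (∑ i, Complex.normSq ((e y).2 i)) = E3 y := by
      rw [Fin.sum_univ_three]
      rfl
    simp only [e1, e2, hk']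
    by_cases h0 : 0 < E3 y
    · by_cases h3 : y 3 ∈ box 1
      · simp [h0, h3]
      · simp [h0, h3]
    · simp [h0]
  have h2 : ∫ y, {y : V 4 | 0 < E3 y ∧ y 3 ∈ box 1}.indicator (fun y => k (E3 y)) y =
      ∫ y, (fun z : ℂ × (Fin 3 → ℂ) => (box 1).indicator (fun _ => (1 : ℝ)) z.1 *
        k' (∑ i, Complex.normSq (z.2 i))) (e y) :=
    integral_congr_ae (Filter.Eventually.of_forall h1)
  rw [h2]
  refine (he.integral_comp' (fun z : ℂ × (Fin 3 → ℂ) => (box 1).indicator (fun _ => (1 : ℝ)) z.1 *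
        k' (∑ i, Complex.normSq (z.2 i)))).trans ?_
  rw [Measure.volume_eq_prod]
  rw [integral_prod_mul (f := (box 1).indicator (fun _ => (1 : ℝ)))
    (g := fun z : Fin 3 → ℂ => k' (∑ i, Complex.normSq (z i)))]
  rw [radial3]
  have hvol : ∫ z, (box 1).indicator (fun _ => (1 : ℝ)) z = 1 := by
    rw [integral_indicator hbox]
    simp only [integral_const, smul_eq_mul, mul_one, MeasurableSet.univ, measureReal_restrict_apply,
      Set.univ_inter]
    have : volume (box 1) = 1 := by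
      have hs : box 1 = Complex.measurableEquivRealProd ⁻¹'
          (Set.Ico (0 : ℝ) 1 ×ˢ Set.Ico (0 : ℝ) 1) := by
        ext z
        rfl
      rw [hs, Complex.volume_preserving_equiv_real_prod.measure_preimage
        (measurableSet_Ico.prod measurableSet_Ico).nullMeasurableSet, Measure.volume_eq_prod,
        Measure.prod_prod]
      simp
    rw [Measure.real, this]
    simp
  rw [hvol, one_mul]
  congr 1
  refine setIntegral_congr_fun measurableSet_Ioi fun ρ hρ => ?_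
  have hρ0 : 0 < ρ := hρ
  have : 0 < ρ ^ 2 := by positivity
  simp only [hk', this, if_true]


section flux

variable {r : ℕ} {τ q ρ : ℝ} {φ F f : ℝ → ℝ}

/-- `ψ² f'` as a function of `x = E3` -/
def GG (φ f : ℝ → ℝ) (x : ℝ) : ℝ := (x * deriv φ x) ^ 2 * deriv f (Real.log x)

def GG' (φ f : ℝ → ℝ) (x : ℝ) : ℝ :=
  2 * (x * deriv φ x) * (deriv φ x + x * deriv (deriv φ) x) * deriv f (Real.log x) +
    (x * deriv φ x) ^ 2 * (deriv (deriv f) (Real.log x) / x)

lemma dφ (hφ : ContDiffOn ℝ ∞ φ (Set.Ioi 0)) {x : ℝ} (hx : 0 < x) :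
    DifferentiableAt ℝ (deriv φ) x := by
  have := (contDiffOn_infty_iff_deriv_of_isOpen isOpen_Ioi).1 hφ
  exact (this.2.differentiableOn (by simp)).differentiableAt (Ioi_mem_nhds hx)

lemma GG_deriv (hφ : ContDiffOn ℝ ∞ φ (Set.Ioi 0)) (hf : ContDiff ℝ ∞ f) {x : ℝ} (hx : 0 < x) :
    HasDerivAt (GG φ f) (GG' φ f x) x := by
  have hf2 : Differentiable ℝ (deriv f) :=
    (contDiff_infty_iff_deriv.1 hf).2.differentiable (by simp)
  have d1 : HasDerivAt (fun y => y * deriv φ y) (1 * deriv φ x + x * deriv (deriv φ) x) x :=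
    (hasDerivAt_id x).mul (dφ hφ hx).hasDerivAt
  have d2 : HasDerivAt (fun y => deriv f (Real.log y)) (deriv (deriv f) (Real.log x) * x⁻¹) x :=
    (hf2 (Real.log x)).hasDerivAt.comp x (Real.hasDerivAt_log hx.ne')
  have d3 := (d1.pow 2).mul d2
  have d4 : HasDerivAt (GG φ f) (((2 : ℕ) : ℝ) * (x * deriv φ x) ^ (2 - 1) *
      (1 * deriv φ x + x * deriv (deriv φ) x) * deriv f (Real.log x) +
      (x * deriv φ x) ^ 2 * (deriv (deriv f) (Real.log x) * x⁻¹)) x := d3
  have e : ((2 : ℕ) : ℝ) * (x * deriv φ x) ^ (2 - 1) *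
      (1 * deriv φ x + x * deriv (deriv φ) x) * deriv f (Real.log x) +
      (x * deriv φ x) ^ 2 * (deriv (deriv f) (Real.log x) * x⁻¹) = GG' φ f x := by
    unfold GG'
    push_cast
    ring
  rw [e] at d4
  exact d4

lemma flog_deriv (hf : ContDiff ℝ ∞ f) {x : ℝ} (hx : 0 < x) :
    deriv (fun x => f (Real.log x)) x = deriv f (Real.log x) / x := by
  have hf1 : Differentiable ℝ f := hf.differentiable (by simp)
  have d2 : HasDerivAt (fun y => f (Real.log y)) (deriv f (Real.log x) * x⁻¹) x :=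
    (hf1 (Real.log x)).hasDerivAt.comp x (Real.hasDerivAt_log hx.ne')
  rw [d2.deriv, div_eq_mul_inv]

lemma flog_deriv2 (hf : ContDiff ℝ ∞ f) {x : ℝ} (hx : 0 < x) :
    deriv (deriv (fun x => f (Real.log x))) x =
      (deriv (deriv f) (Real.log x) - deriv f (Real.log x)) / x ^ 2 := by
  have hf2 : Differentiable ℝ (deriv f) :=
    (contDiff_infty_iff_deriv.1 hf).2.differentiable (by simp)
  have e : deriv (fun x => f (Real.log x)) =ᶠ[𝓝 x] fun x => deriv f (Real.log x) / x := by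
    filter_upwards [Ioi_mem_nhds hx] with y hy
    exact flog_deriv hf hy
  have d2 : HasDerivAt (fun y => deriv f (Real.log y)) (deriv (deriv f) (Real.log x) * x⁻¹) x :=
    (hf2 (Real.log x)).hasDerivAt.comp x (Real.hasDerivAt_log hx.ne')
  have d3 : HasDerivAt (fun y => deriv f (Real.log y) / y)
      ((deriv (deriv f) (Real.log x) * x⁻¹ * x - deriv f (Real.log x) * 1) / x ^ 2) x :=
    d2.div (hasDerivAt_id x) hx.ne'
  rw [e.deriv_eq, d3.deriv, mul_assoc, inv_mul_cancel₀ hx.ne']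
  ring

lemma flux_integrand (hφ : ContDiffOn ℝ ∞ φ (Set.Ioi 0)) (hf : ContDiff ℝ ∞ f) {y : V 4}
    (hy : 0 < E3 y) :
    (∑ j, ∑ k, (levi (fun w => ((φ (E3 w) + Complex.normSq (w 3) : ℝ) : ℂ)) y).adjugate k j *
      levi (fun w => ((f (Real.log (E3 w)) : ℝ) : ℂ)) y j k).re =
    GG' φ f (E3 y) / E3 y ^ 2 := by
  have hE2 : ContDiffAt ℝ 2 E3 y := contDiff_E3.contDiffAt.of_le two_le
  have hfl : ContDiffAt ℝ 2 (fun x => f (Real.log x)) (E3 y) :=
    (hf.contDiffAt.of_le two_le).comp (E3 y) (Real.contDiffAt_log.2 hy.ne')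
  have hL : ∀ j k, levi (fun w => ((f (Real.log (E3 w)) : ℝ) : ℂ)) y j k =
      ((deriv f (Real.log (E3 y)) / E3 y : ℝ) : ℂ) * (if j = k then (cE k : ℂ) else 0) +
      (((deriv (deriv f) (Real.log (E3 y)) - deriv f (Real.log (E3 y))) / E3 y ^ 2 : ℝ) : ℂ) *
        ((cE j * star (y j)) * (cE k * y k)) := by
    intro j k
    have h := levi_real_comp (F := fun x => f (Real.log x)) (f := E3) (z := y) hfl hE2 j k
    rw [h, flog_deriv hf hy, flog_deriv2 hf hy]
    rw [E3_fun, levi_Q, dZ_Q, dB_Q]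
  rw [sum_adj _ _ _ _ (fun j => (cE j : ℂ) * star (y j)) (fun k => (cE k : ℂ) * y k)
    (by simp [cE]) (by simp [cE]) _ _ (radial_entries hφ hy) hL]
  have hx : ((cE 0 : ℂ) * star (y 0)) * ((cE 0 : ℂ) * y 0) +
      ((cE 1 : ℂ) * star (y 1)) * ((cE 1 : ℂ) * y 1) +
      ((cE 2 : ℂ) * star (y 2)) * ((cE 2 : ℂ) * y 2) = ((E3 y : ℝ) : ℂ) := by
    unfold E3
    rw [Complex.ofReal_add, Complex.ofReal_add, Complex.normSq_eq_conj_mul_self,
      Complex.normSq_eq_conj_mul_self, Complex.normSq_eq_conj_mul_self]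
    simp [cE]
  simp only [hx]
  have e : (2 * ((deriv φ (E3 y) : ℝ) : ℂ) * ((deriv f (Real.log (E3 y)) / E3 y : ℝ) : ℂ) *
      (((deriv φ (E3 y) : ℝ) : ℂ) + ((deriv (deriv φ) (E3 y) : ℝ) : ℂ) * ((E3 y : ℝ) : ℂ)) +
      ((deriv φ (E3 y) : ℝ) : ℂ) ^ 2 * (((deriv f (Real.log (E3 y)) / E3 y : ℝ) : ℂ) +
      (((deriv (deriv f) (Real.log (E3 y)) - deriv f (Real.log (E3 y))) / E3 y ^ 2 : ℝ) : ℂ) *
        ((E3 y : ℝ) : ℂ))) = ((GG' φ f (E3 y) / E3 y ^ 2 : ℝ) : ℂ) := by
    rw [GG']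
    have h0 : ((E3 y : ℝ) : ℂ) ≠ 0 := by exact_mod_cast hy.ne'
    push_cast
    field_simp
    ring
  rw [e, Complex.ofReal_re]

lemma half_integral (hr : 0 < r) (hq : 0 < q)
    (hφ : ContDiffOn ℝ ∞ φ (Set.Ioi 0))
    (hF : ContDiff ℝ ∞ F) (hFφ : ∀ x, 0 < x → x < q → φ x = τ * Real.log x + F (x ^ r))
    (hf : IsCut f ρ) :
    ∫ t in Set.Ioi (0 : ℝ), t * GG' φ f (t ^ 2) = - (τ ^ 2 / 2) := by
  obtain ⟨c, L1, hl⟩ := hf.left
  obtain ⟨L2, -, hr2⟩ := hf.right
  have hfs := hf.smooth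
  have hF1 : Differentiable ℝ F := hF.differentiable (by simp)
  have hF' : ContDiff ℝ ∞ (deriv F) := (contDiff_infty_iff_deriv.1 hF).2
  have hf' : ContDiff ℝ ∞ (deriv f) := (contDiff_infty_iff_deriv.1 hfs).2
  set x0 : ℝ := min q (Real.exp L1) with hx0
  have hx0p : 0 < x0 := lt_min hq (Real.exp_pos _)
  have hφ' : ∀ y, 0 < y → y < q → y * deriv φ y = τ + r * deriv F (y ^ r) * y ^ r := by
    intro y hy0 hyq
    have e : φ =ᶠ[𝓝 y] fun y => τ * Real.log y + F (y ^ r) := by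
      filter_upwards [isOpen_Ioo.mem_nhds (⟨hy0, hyq⟩ : y ∈ Set.Ioo 0 q)] with z hz
      exact hFφ z hz.1 hz.2
    have d : HasDerivAt (fun y => τ * Real.log y + F (y ^ r))
        (τ * y⁻¹ + deriv F (y ^ r) * (r * y ^ (r - 1))) y :=
      ((Real.hasDerivAt_log hy0.ne').const_mul τ).add
        ((hF1 (y ^ r)).hasDerivAt.comp y (hasDerivAt_pow r y))
    rw [e.deriv_eq, d.deriv]
    have e1 : y ^ r = y ^ (r - 1) * y := by
      rw [← pow_succ, Nat.sub_add_cancel hr]
    have e2 : y * (τ * y⁻¹) = τ := by field_simp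
    calc y * (τ * y⁻¹ + deriv F (y ^ r) * (r * y ^ (r - 1)))
        = y * (τ * y⁻¹) + r * deriv F (y ^ r) * (y ^ (r - 1) * y) := by ring
      _ = _ := by rw [e2, ← e1]
  set K : ℝ → ℝ := fun x => (τ + r * deriv F (x ^ r) * x ^ r) ^ 2 with hK
  have hfl1 : ∀ l, l < L1 → deriv f l = 1 := by
    intro l hl'
    have e : f =ᶠ[𝓝 l] fun l => l + c := by
      filter_upwards [eventually_lt_nhds hl'] with z hz
      exact hl z hz
    rw [e.deriv_eq]
    simp
  have hfr1 : ∀ l, L2 < l → deriv f l = 0 := by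
    intro l hl'
    have e : f =ᶠ[𝓝 l] fun l => 0 := by
      filter_upwards [eventually_gt_nhds hl'] with z hz
      exact hr2 z hz
    rw [e.deriv_eq]
    simp
  have hfr2 : ∀ l, L2 < l → deriv (deriv f) l = 0 := by
    intro l hl'
    have e : deriv f =ᶠ[𝓝 l] fun l => 0 := by
      filter_upwards [eventually_gt_nhds hl'] with z hz
      exact hfr1 z hz
    rw [e.deriv_eq]
    simp
  have hGK : ∀ x, 0 < x → x < x0 → GG φ f x = K x := by
    intro x h0 h1
    have h2 : x < q := h1.trans_le (min_le_left _ _)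
    have h3 : x < Real.exp L1 := h1.trans_le (min_le_right _ _)
    have h4 : Real.log x < L1 := (Real.log_lt_iff_lt_exp h0).2 h3
    unfold GG
    rw [hφ' x h0 h2, hfl1 _ h4, mul_one]
  set H : ℝ → ℝ := fun x => if x < x0 then K x else GG φ f x with hH
  have hHG : ∀ x, 0 < x → H x = GG φ f x := by
    intro x hx
    simp only [hH]
    split_ifs with h
    · exact (hGK x hx h).symm
    · rfl
  have hHG' : ∀ x, 0 < x → HasDerivAt H (GG' φ f x) x := by
    intro x hx
    refine (GG_deriv hφ hfs hx).congr_of_eventuallyEq ?_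
    filter_upwards [Ioi_mem_nhds hx] with z hz
    exact hHG z hz
  have hKc : ContDiff ℝ 1 K := by
    have h1 : ContDiff ℝ 1 (fun x : ℝ => deriv F (x ^ r)) :=
      (hF'.of_le (by norm_cast)).comp (by fun_prop)
    simp only [hK]
    exact (contDiff_const.add ((contDiff_const.mul h1).mul (by fun_prop))).pow 2
  have hGc : ContDiffOn ℝ 1 (GG φ f) (Set.Ioi 0) := by
    have h1 : ContDiffOn ℝ 1 (deriv φ) (Set.Ioi 0) :=
      (((contDiffOn_infty_iff_deriv_of_isOpen isOpen_Ioi).1 hφ).2).of_le (by norm_cast)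
    have h2 : ContDiffOn ℝ 1 (fun x => deriv f (Real.log x)) (Set.Ioi 0) := by
      intro x hx
      have hx0 : (0 : ℝ) < x := hx
      exact ((hf'.contDiffAt.of_le (by norm_cast)).comp x
        (Real.contDiffAt_log.2 hx0.ne')).contDiffWithinAt
    exact ((contDiffOn_id.mul h1).pow 2).mul h2
  have hHc : ContDiff ℝ 1 H := by
    rw [contDiff_iff_contDiffAt]
    intro x
    rcases lt_or_ge x x0 with h | h
    · have e : H =ᶠ[𝓝 x] K := by
        filter_upwards [eventually_lt_nhds h] with z hz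
        simp only [hH, hz, if_true]
      exact hKc.contDiffAt.congr_of_eventuallyEq e
    · have hx : 0 < x := hx0p.trans_le h
      have e : H =ᶠ[𝓝 x] GG φ f := by
        filter_upwards [Ioi_mem_nhds hx] with z hz
        exact hHG z hz
      exact (hGc.contDiffAt (Ioi_mem_nhds hx)).congr_of_eventuallyEq e
  set h : ℝ → ℝ := fun t => H (t ^ 2) / 2 with hh
  have hhc : ContDiff ℝ 1 h := by
    simp only [hh]
    exact (hHc.comp (by fun_prop)).div_const 2
  have hhd : ∀ t, 0 < t → deriv h t = t * GG' φ f (t ^ 2) := by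
    intro t ht
    have d : HasDerivAt h (GG' φ f (t ^ 2) * (2 * t) / 2) t := by
      have d1 : HasDerivAt (fun t : ℝ => t ^ 2) (2 * t) t := by simpa using hasDerivAt_pow 2 t
      exact ((hHG' (t ^ 2) (by positivity)).comp t d1).div_const 2
    rw [d.deriv]
    ring
  set B : ℝ := Real.exp ((L2 + 1) / 2) with hB
  have hB0 : 0 < B := Real.exp_pos _
  have hBl : ∀ t, B ≤ t → L2 < Real.log (t ^ 2) := by
    intro t ht
    have h1 : Real.log B ≤ Real.log t := Real.log_le_log hB0 ht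
    rw [hB, Real.log_exp] at h1
    rw [Real.log_pow]
    push_cast
    linarith
  have e1 : ∫ t in Set.Ioi (0 : ℝ), t * GG' φ f (t ^ 2) = ∫ t in (0 : ℝ)..B, deriv h t := by
    rw [intervalIntegral.integral_of_le hB0.le]
    have e2 : ∫ t in Set.Ioc (0 : ℝ) B, deriv h t = ∫ t in Set.Ioc (0 : ℝ) B,
        t * GG' φ f (t ^ 2) := by
      refine setIntegral_congr_fun measurableSet_Ioc fun t ht => ?_
      exact hhd t ht.1
    rw [e2]
    refine setIntegral_eq_of_subset_of_forall_sdiff_eq_zero measurableSet_Ioi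
      Set.Ioc_subset_Ioi_self fun t ht => ?_
    have ht0 : 0 < t := ht.1
    have htB : B < t := by
      by_contra hcon
      push Not at hcon
      exact ht.2 ⟨ht0, hcon⟩
    have hlt := hBl t htB.le
    unfold GG'
    rw [hfr1 _ hlt, hfr2 _ hlt]
    simp
  rw [e1, intervalIntegral.integral_deriv_eq_sub (fun t _ => hhc.differentiable (by norm_num) t)
    ((hhc.continuous_deriv le_rfl).intervalIntegrable _ _)]
  have hB1 : h B = 0 := by
    simp only [hh]
    rw [hHG (B ^ 2) (by positivity)]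
    unfold GG
    rw [hfr1 _ (hBl B le_rfl)]
    simp
  have h0 : h 0 = τ ^ 2 / 2 := by
    simp only [hh, hH, hK]
    have : (0 : ℝ) ^ 2 < x0 := by simpa using hx0p
    rw [if_pos this]
    have : ((0 : ℝ) ^ 2) ^ r = 0 := by
      rw [zero_pow (by norm_num : (2 : ℕ) ≠ 0), zero_pow hr.ne']
    rw [this]
    simp
  rw [hB1, h0]
  ring

end flux

end RadialAux

open RadialAux in
/-- the flux of a radial metric -/
theorem flux_radial {r : ℕ} (hr : 0 < r) {τ p q ρ : ℝ} {φ F : ℝ → ℝ} (hτ : 0 < τ) (hq : 0 < q)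
    (hpρ : p < ρ)
    (hφ : ContDiffOn ℝ ∞ φ (Set.Ioi 0)) (hφp : ∀ x, p ≤ x → φ x = x)
    (hF : ContDiff ℝ ∞ F) (hFφ : ∀ x, 0 < x → x < q → φ x = τ * Real.log x + F (x ^ r))
    {f : ℝ → ℝ} (hf : IsCut f ρ) :
    flux f (fun y => levi (fun w => ((φ (E3 w) + Complex.normSq (w 3) : ℝ) : ℂ)) y) =
      Real.pi ^ 3 / 2 * τ ^ 2 := by
  have hS : MeasurableSet {y : V 4 | 0 < E3 y ∧ y 3 ∈ box 1} := by
    have hE : Measurable E3 := contDiff_E3.continuous.measurable
    have hbox : MeasurableSet (box 1) := by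
      unfold box
      exact (Complex.measurable_re measurableSet_Ico).inter
        (Complex.measurable_im measurableSet_Ico)
    have hm3 : Measurable fun y : V 4 => y 3 := measurable_pi_apply 3
    have hS3 : MeasurableSet {y : V 4 | y 3 ∈ box 1} := hm3 hbox
    exact (hE measurableSet_Ioi).inter hS3
  unfold flux
  have e1 : ∫ y in {y : V 4 | 0 < E3 y ∧ y 3 ∈ box 1}, (∑ j, ∑ k,
      ((fun y => levi (fun w => ((φ (E3 w) + Complex.normSq (w 3) : ℝ) : ℂ)) y) y).adjugate k j *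
        levi (fun w => ((f (Real.log (E3 w)) : ℝ) : ℂ)) y j k).re =
      ∫ y in {y : V 4 | 0 < E3 y ∧ y 3 ∈ box 1}, (fun x => GG' φ f x / x ^ 2) (E3 y) := by
    refine setIntegral_congr_fun hS fun y hy => ?_
    exact flux_integrand hφ hf.smooth hy.1
  rw [e1, radial4 (fun x => GG' φ f x / x ^ 2)]
  have e2 : ∫ t in Set.Ioi (0 : ℝ), t ^ 5 * (fun x => GG' φ f x / x ^ 2) (t ^ 2) =
      ∫ t in Set.Ioi (0 : ℝ), t * GG' φ f (t ^ 2) := by
    refine setIntegral_congr_fun measurableSet_Ioi fun t ht => ?_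
    have ht0 : (0 : ℝ) < t := ht
    simp only
    field_simp
  rw [e2, half_integral hr hq hφ hF hFφ hf]
  ring

end

end GK
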