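import Pool.Agent.GK.MDefs
import Pool.Agent.GK.SFun
import Pool.Agent.GK.Extend
import Pool.Agent.GK.PiolaPull
import Pool.Agent.GK.Radial

/-! # Module MetricG: the Gauduchon (for `S = 1` Kähler) metrics on `M(𝔅)` -/

open scoped ContDiff Topology ComplexOrder
open MeasureTheory

namespace GK

noncomputable section

variable {B : BaseCurve}

namespace MetricGAux

/-! ### general lemmas -/

lemma jac_entry {h : V 4 → V 4} {z : V 4} (hh : DifferentiableAt ℂ h z) (a j : Fin 4) :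
    jac h z a j = fderiv ℂ (fun w => h w a) z (Pi.single j 1) := by
  rw [jac_apply]
  have := (hasFDerivAt_pi'.1 hh.hasFDerivAt a).fderiv
  rw [this]; rfl

lemma jac_move1 {N : ℕ} {γ : Gam} {h : ℂ → ℂ} {y : V 4} (hh : AnalyticAt ℂ h (y 2)) :
    jac (move1 N γ h) y =
      Matrix.diagonal ![mult N γ.k γ.a, mult N γ.k γ.b, deriv h (y 2), 1] := by
  have hd := (analyticAt_move1 (N := N) (γ := γ) hh).differentiableAt
  have hp : ∀ i : Fin 4, HasFDerivAt (fun w : V 4 => w i)
      (ContinuousLinearMap.proj (R := ℂ) (φ := fun _ : Fin 4 => ℂ) i) y := fun i =>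
    (ContinuousLinearMap.proj (R := ℂ) (φ := fun _ : Fin 4 => ℂ) i).hasFDerivAt
  ext a j
  rw [jac_entry hd]
  fin_cases a
  · show fderiv ℂ (fun w : V 4 => mult N γ.k γ.a * w 0 + γ.l0) y (Pi.single j 1) = _
    rw [(((hp 0).const_mul _).add_const _).fderiv]
    fin_cases j <;> simp
  · show fderiv ℂ (fun w : V 4 => mult N γ.k γ.b * w 1 + γ.l1) y (Pi.single j 1) = _
    rw [(((hp 1).const_mul _).add_const _).fderiv]
    fin_cases j <;> simp
  · show fderiv ℂ (h ∘ fun w : V 4 => w 2) y (Pi.single j 1) = _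
    rw [(hh.differentiableAt.hasDerivAt.comp_hasFDerivAt y (hp 2)).fderiv]
    fin_cases j <;> simp
  · show fderiv ℂ (fun w : V 4 => w 3 + γ.tr) y (Pi.single j 1) = _
    rw [((hp 3).add_const _).fderiv]
    fin_cases j <;> simp

lemma pull_diagonal (d e : Fin 4 → ℂ) : pull (Matrix.diagonal d) (Matrix.diagonal e) =
    Matrix.diagonal (fun i => d i * e i * star (d i)) := by
  unfold pull
  rw [Matrix.diagonal_transpose, Matrix.diagonal_map (star_zero _), Matrix.diagonal_mul_diagonal,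
    Matrix.diagonal_mul_diagonal]

lemma pull_one (g : Matrix (Fin 4) (Fin 4) ℂ) : pull 1 g = g := by
  unfold pull
  simp [Matrix.transpose_one]

lemma dB_sub (f : V 4 → ℂ) (c w : V 4) (k : Fin 4) :
    dB k (fun w => f (w - c)) w = dB k f (w - c) := by
  unfold dB
  rw [fderiv_comp_sub]

lemma dZ_sub (f : V 4 → ℂ) (c w : V 4) (k : Fin 4) :
    dZ k (fun w => f (w - c)) w = dZ k f (w - c) := by
  unfold dZ
  rw [fderiv_comp_sub]

lemma levi_sub (f : V 4 → ℂ) (c w : V 4) :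
    levi (fun w => f (w - c)) w = levi f (w - c) := by
  ext j k
  unfold levi
  simp only [Matrix.of_apply, dB_sub]
  rw [dZ_sub (fun w => dB k f w)]

lemma jac_sub (f : V 4 → V 4) (c w : V 4) :
    jac (fun w => f (w - c)) w = jac f (w - c) := by
  ext a j
  rw [jac_apply, jac_apply, fderiv_comp_sub]

lemma levi_const_mul {f : V 4 → ℂ} {z : V 4} (hf : ContDiffAt ℝ 2 f z) (c : ℂ) :
    levi (fun w => c * f w) z = c • levi f z := by
  ext j k
  rw [RadialAux.levi_mul (f := fun _ => c) contDiffAt_const hf, dZ_const, dB_const,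
    Matrix.smul_apply, smul_eq_mul]
  have : levi (fun _ : V 4 => c) z j k = 0 := by
    unfold levi
    simp only [Matrix.of_apply, dB_const]
    exact dZ_const _ _ _
  rw [this]
  ring

lemma levi_zero {f : V 4 → ℂ} {z : V 4} (hf : ∀ᶠ w in 𝓝 z, f w = 0) : levi f z = 0 := by
  rw [levi_congr (f' := fun _ => 0) hf]
  ext j k
  unfold levi
  simp only [Matrix.of_apply, dB_const]
  exact dZ_const _ _ _

lemma posDef_diag {a b c : ℝ} (ha : 0 < a) (hb : 0 < b) (hc : 0 < c) :
    (Matrix.diagonal ![(a : ℂ), (b : ℂ), (c : ℂ), 1] : Matrix (Fin 4) (Fin 4) ℂ).PosDef := by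
  apply Matrix.PosDef.diagonal
  intro i
  fin_cases i
  · show (0 : ℂ) < (a : ℂ)
    exact_mod_cast ha
  · show (0 : ℂ) < (b : ℂ)
    exact_mod_cast hb
  · show (0 : ℂ) < (c : ℂ)
    exact_mod_cast hc
  · show (0 : ℂ) < 1
    exact one_pos

/-! ### the function `SF` and the metric in the regular charts -/

variable (A : GData B) (D : MetricData B)

lemma ψ_zero {q : Qt B} (hq : Spec q) {x : ℝ} (hx : A.p q ≤ x) : A.ψ q x = 0 := by
  unfold GData.ψ
  rw [(A.prof q hq).eq_self x hx, sub_self]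

lemma ψ_P {q : Qt B} (hq : Spec q) {x : ℝ} (hx : A.P ≤ x) : A.ψ q x = 0 :=
  ψ_zero A hq ((A.p_lt q hq).le.trans ((A.pp_le q hq).trans hx))

lemma ψ_smooth {q : Qt B} (hq : Spec q) : ContDiffOn ℝ ∞ (A.ψ q) (Set.Ioi 0) :=
  (A.prof q hq).smooth.sub contDiffOn_id

lemma ψ_act (γ : Gam) (q : Qt B) : A.ψ (actQ γ q) = A.ψ q := by
  funext x
  unfold GData.ψ
  rw [A.φ_act]

lemma SF_smooth (i : B.κ) :
    ContDiffOn ℝ ∞ (fun y => SF A.ψ (posA i y)) (chU (Sum.inl i : Ix B)) :=
  contDiffOn_SF A.P_lt (fun _ hq _ hx => ψ_P A hq hx) (fun _ hq => ψ_smooth A hq) i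

lemma isOpen_reg (i : B.κ) : IsOpen (chU (Sum.inl i : Ix B)) := isOpen_chU _

/-- the diagonal part -/
def dg (i : B.κ) (y : V 4) : Fin 4 → ℂ :=
  ![((A.S (y 0) (y 1) : ℝ) : ℂ), ((A.S (y 0) (y 1) : ℝ) : ℂ),
    ((D.K i (y 2) / A.S (y 0) (y 1) : ℝ) : ℂ), 1]

lemma gReg_eq (i : B.κ) (y : V 4) : A.gReg D i y = Matrix.diagonal (dg A D i y) +
    levi (fun w => ((SF A.ψ (posA i w) : ℝ) : ℂ)) y := rfl

lemma S_smooth' : ContDiff ℝ ∞ (fun y : V 4 => A.S (y 0) (y 1)) := by
  have h : ContDiff ℝ ∞ (fun y : V 4 => ((y 0, y 1) : ℂ × ℂ)) := by fun_prop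
  exact A.S_smooth.comp h

lemma K_smooth' (i : B.κ) : ContDiffOn ℝ ∞ (fun y : V 4 => D.K i (y 2))
    (chU (Sum.inl i : Ix B)) := by
  have h : ContDiff ℝ ∞ (fun y : V 4 => y 2) := by fun_prop
  exact (D.K_smooth i).comp h.contDiffOn fun y hy => hy.1

lemma dg_smooth (i : B.κ) (j : Fin 4) :
    ContDiffOn ℝ ∞ (fun y => dg A D i y j) (chU (Sum.inl i : Ix B)) := by
  have hS : ContDiffOn ℝ ∞ (fun y : V 4 => ((A.S (y 0) (y 1) : ℝ) : ℂ))
      (chU (Sum.inl i : Ix B)) :=
    Complex.ofRealCLM.contDiff.comp_contDiffOn (S_smooth' A).contDiffOn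
  have hK : ContDiffOn ℝ ∞ (fun y : V 4 => ((D.K i (y 2) / A.S (y 0) (y 1) : ℝ) : ℂ))
      (chU (Sum.inl i : Ix B)) :=
    Complex.ofRealCLM.contDiff.comp_contDiffOn
      ((K_smooth' D i).div (S_smooth' A).contDiffOn fun y _ => (A.S_pos _ _).ne')
  fin_cases j
  · exact hS
  · exact hS
  · exact hK
  · exact contDiffOn_const

lemma gReg_smooth (i : B.κ) (j k : Fin 4) :
    ContDiffOn ℝ ∞ (fun y => A.gReg D i y j k) (chU (Sum.inl i : Ix B)) := by
  have h1 : ContDiffOn ℝ ∞ (fun y => Matrix.diagonal (dg A D i y) j k)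
      (chU (Sum.inl i : Ix B)) := by
    by_cases h : j = k
    · subst h
      simp only [Matrix.diagonal_apply_eq]
      exact dg_smooth A D i j
    · simp only [Matrix.diagonal_apply_ne _ h]
      exact contDiffOn_const
  exact h1.add ((KForm.levi (isOpen_reg i) (SF_smooth A i)).smooth j k)

lemma gReg_cont (i : B.κ) : ContinuousOn (A.gReg D i) (chU (Sum.inl i : Ix B)) := by
  refine continuousOn_pi.2 fun j => continuousOn_pi.2 fun k => ?_
  exact (gReg_smooth A D i j k).continuousOn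

lemma dg_posDef {i : B.κ} {y : V 4} (hy : y ∈ chU (Sum.inl i : Ix B)) :
    (Matrix.diagonal (dg A D i y)).PosDef :=
  posDef_diag (A.S_pos _ _) (A.S_pos _ _) (div_pos (D.K_pos i _ hy.1) (A.S_pos _ _))

/-! ### coordinate changes between regular charts -/

lemma posA_move1 {i j : B.κ} {γ : Gam} {h : ℂ → ℂ} {y : V 4}
    (he : B.p j (h (y 2)) = B.s^[γ.k] (B.p i (y 2))) :
    posA j (move1 B.N γ h y) = actA γ (posA i y) := by
  simp [posA, move1, actA, he]

lemma normSq_mult (N k : ℕ) (a : ℤ) : mult N k a * star (mult N k a) = 1 := by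
  have h := norm_mult N k a
  have h1 : mult N k a * star (mult N k a) = ((‖mult N k a‖ ^ 2 : ℝ) : ℂ) := by
    rw [← Complex.normSq_eq_norm_sq]
    exact Complex.mul_conj _
  rw [h1, h]
  norm_num

lemma gReg_h1 (i j : B.κ) (γ : Gam) (h : ℂ → ℂ) (y : V 4) (hy : y ∈ chU (Sum.inl i : Ix B))
    (hy' : move1 B.N γ h y ∈ chU (Sum.inl j : Ix B)) (hh : AnalyticAt ℂ h (y 2))
    (he : ∀ᶠ x in 𝓝 (y 2), B.p j (h x) = B.s^[γ.k] (B.p i x)) :
    A.gReg D i y = pull (jac (move1 B.N γ h) y) (A.gReg D j (move1 B.N γ h y)) := by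
  have hc : ContDiffAt ℝ 2 (fun w => ((SF A.ψ (posA j w) : ℝ) : ℂ)) (move1 B.N γ h y) :=
    contDiffAt_ofReal (((SF_smooth A j).contDiffAt ((isOpen_reg j).mem_nhds hy')).of_le
      two_le_infty)
  have h1 := levi_comp (analyticAt_move1 (N := B.N) (γ := γ) hh) hc
  have he' : ∀ᶠ z : V 4 in 𝓝 y, B.p j (h (z 2)) = B.s^[γ.k] (B.p i (z 2)) :=
    (continuous_apply (2 : Fin 4)).continuousAt.eventually he
  have h2 : (fun w => ((SF A.ψ (posA j (move1 B.N γ h w)) : ℝ) : ℂ)) =ᶠ[𝓝 y]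
      fun w => ((SF A.ψ (posA i w) : ℝ) : ℂ) := by
    filter_upwards [he'] with z hz
    rw [posA_move1 hz, SF_act (ψ_act A)]
  rw [levi_congr h2] at h1
  rw [gReg_eq, gReg_eq, pull_add, ← h1]
  congr 1
  rw [jac_move1 hh, pull_diagonal]
  congr 1
  have hS : A.S (move1 B.N γ h y 0) (move1 B.N γ h y 1) = A.S (y 0) (y 1) := by
    show A.S (mult B.N γ.k γ.a * y 0 + γ.l0) (mult B.N γ.k γ.b * y 1 + γ.l1) = _
    rw [A.S_per0 _ γ.h0, A.S_per1 _ γ.h1, A.S_mult]
  have hK := D.K_trans i j γ.k (y 2) (h (y 2)) hy.1 hy'.1 he.self_of_nhds h hh rfl he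
  have hD : deriv h (y 2) * star (deriv h (y 2)) =
      ((Complex.normSq (deriv h (y 2)) : ℝ) : ℂ) := Complex.mul_conj _
  funext l
  fin_cases l
  · show ((A.S (y 0) (y 1) : ℝ) : ℂ) = mult B.N γ.k γ.a *
      ((A.S (move1 B.N γ h y 0) (move1 B.N γ h y 1) : ℝ) : ℂ) * star (mult B.N γ.k γ.a)
    rw [hS, mul_right_comm, normSq_mult, one_mul]
  · show ((A.S (y 0) (y 1) : ℝ) : ℂ) = mult B.N γ.k γ.b *
      ((A.S (move1 B.N γ h y 0) (move1 B.N γ h y 1) : ℝ) : ℂ) * star (mult B.N γ.k γ.b)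
    rw [hS, mul_right_comm, normSq_mult, one_mul]
  · show ((D.K i (y 2) / A.S (y 0) (y 1) : ℝ) : ℂ) = deriv h (y 2) *
      ((D.K j (h (y 2)) / A.S (move1 B.N γ h y 0) (move1 B.N γ h y 1) : ℝ) : ℂ) *
        star (deriv h (y 2))
    rw [hS, mul_right_comm, hD, hK]
    push_cast
    ring
  · show (1 : ℂ) = 1 * 1 * star 1
    simp

lemma jac_move1_det (D : MetricData B) {i j : B.κ} {γ : Gam} {h : ℂ → ℂ} {y : V 4}
    (hy : y ∈ chU (Sum.inl i : Ix B))
    (hy' : move1 B.N γ h y ∈ chU (Sum.inl j : Ix B)) (hh : AnalyticAt ℂ h (y 2))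
    (he : ∀ᶠ x in 𝓝 (y 2), B.p j (h x) = B.s^[γ.k] (B.p i x)) :
    IsUnit (jac (move1 B.N γ h) y).det := by
  have hK := D.K_trans i j γ.k (y 2) (h (y 2)) hy.1 hy'.1 he.self_of_nhds h hh rfl he
  have hpos := D.K_pos i _ hy.1
  rw [hK] at hpos
  have hd : deriv h (y 2) ≠ 0 := by
    intro h0
    rw [h0, map_zero, zero_mul] at hpos
    exact lt_irrefl _ hpos
  rw [jac_move1 hh, Matrix.det_diagonal, isUnit_iff_ne_zero, Fin.prod_univ_four]
  exact mul_ne_zero (mul_ne_zero (mul_ne_zero (mult_ne_zero _ _ _) (mult_ne_zero _ _ _)) hd)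
    one_ne_zero

/-! ### the metric near the special points -/

/-- the potential near a special point -/
def pot (q : Qt B) (x : V 4) : ℂ := ((A.φ q (E3 x) + Complex.normSq (x 3) : ℝ) : ℂ)

lemma cont_E3 : Continuous E3 := RadialAux.contDiff_E3.continuous

lemma cont_E3sub (c : V 4) : Continuous fun w : V 4 => E3 (w - c) :=
  cont_E3.comp (continuous_id.sub continuous_const)

lemma levi_flat {x : V 4} (hx : 0 < E3 x) :
    levi (fun x => ((E3 x + Complex.normSq (x 3) : ℝ) : ℂ)) x = 1 := by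
  ext j k
  have h := RadialAux.radial_entries (φ := fun x => x) contDiffOn_id hx j k
  rw [h]
  have e1 : deriv (fun x : ℝ => x) = fun _ => 1 := by
    funext x
    exact deriv_id x
  rw [e1]
  have e2 : deriv (fun _ : ℝ => (1 : ℝ)) (E3 x) = 0 := deriv_const _ _
  rw [e2]
  unfold RadialAux.cE RadialAux.c3
  by_cases h : j = k
  · subst h
    by_cases h3 : j = 3
    · subst h3; simp
    · simp [h3]
  · simp [h]

lemma q2_lt {q : Qt B} {y : V 4} (hE : E3 (y - cen q) < 1 / 64) : ‖y 2‖ < 1 / 8 := by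
  have h2 := norm_lt_eighth hE 2
  have h3 : (y - cen q) (Fin.castSucc 2) = y 2 := by simp [cen]
  rwa [h3] at h2

lemma mem_reg_of {q : Qt B} (hq : Spec q) {y : V 4} (h0 : 0 < E3 (y - cen q))
    (hE : E3 (y - cen q) < 1 / 64) : y ∈ chU (Sum.inl (B.ch q.2.2) : Ix B) := by
  refine ⟨?_, ?_⟩
  · rw [B.D_ch, mem_ball_zero_iff]
    have := q2_lt hE
    linarith
  · rw [st_posA_eq, specA_posq hq hE]
    exact h0.ne'

lemma gReg_special {q : Qt B} (hq : Spec q) {y : V 4} (h0 : 0 < E3 (y - cen q))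
    (h1 : E3 (y - cen q) < A.pp q) :
    A.gReg D (B.ch q.2.2) y = levi (pot A q) (y - cen q) := by
  have hE : E3 (y - cen q) < 1 / 64 := h1.trans_le ((A.pp_le q hq).trans A.P_lt.le)
  have e1 : (fun w => ((SF A.ψ (posA (B.ch q.2.2) w) : ℝ) : ℂ)) =ᶠ[𝓝 y]
      fun w => (fun x : V 4 => ((A.ψ q (E3 x) : ℝ) : ℂ)) (w - cen q) := by
    have : ∀ᶠ w in 𝓝 y, E3 (w - cen q) < 1 / 64 :=
      (cont_E3sub _).continuousAt.eventually_lt continuousAt_const hE
    filter_upwards [this] with w hw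
    rw [st_posA_eq, SF_posq _ hq hw]
  have e2 : Matrix.diagonal (dg A D (B.ch q.2.2) y) = 1 := by
    have hS : A.S (y 0) (y 1) = 1 := by
      apply A.one q hq
      refine lt_of_le_of_lt ?_ h1
      have a0 : (y - cen q) 0 = y 0 - q.1 := by simp [cen]
      have a1 : (y - cen q) 1 = y 1 - q.2.1 := by simp [cen]
      unfold E3
      rw [a0, a1]
      have := Complex.normSq_nonneg ((y - cen q) 2)
      linarith
    have hK : D.K (B.ch q.2.2) (y 2) = 1 := by
      apply D.K_center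
      have := q2_lt hE
      linarith
    unfold dg
    rw [hS, hK]
    rw [← Matrix.diagonal_one]
    congr 1
    funext i
    fin_cases i <;> simp
  rw [gReg_eq, levi_congr e1, levi_sub (fun x : V 4 => ((A.ψ q (E3 x) : ℝ) : ℂ)), e2,
    ← levi_flat h0]
  set x := y - cen q with hx
  have hEc : ContDiffAt ℝ ∞ E3 x := RadialAux.contDiff_E3.contDiffAt
  have c1 : ContDiffAt ℝ 2 (fun x : V 4 => ((E3 x + Complex.normSq (x 3) : ℝ) : ℂ)) x := by
    apply contDiffAt_ofReal
    refine (hEc.of_le two_le_infty).add ?_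
    apply contDiffAt_normSq
    fun_prop
  have c2 : ContDiffAt ℝ 2 (fun x : V 4 => ((A.ψ q (E3 x) : ℝ) : ℂ)) x := by
    apply contDiffAt_ofReal
    have : ContDiffAt ℝ 2 (A.ψ q) (E3 x) :=
      ((ψ_smooth A hq).contDiffAt (isOpen_Ioi.mem_nhds h0)).of_le two_le_infty
    exact this.comp x (hEc.of_le two_le_infty)
  rw [← levi_add c1 c2]
  congr 1
  funext w
  unfold pot GData.ψ
  push_cast
  ring

lemma pot_posDef {q : Qt B} (hq : Spec q) {x : V 4} (hx : 0 < E3 x) :
    (levi (pot A q) x).PosDef :=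
  posDef_radial (A.prof q hq).smooth (A.prof q hq).pos hx

/-- the potential in the exceptional charts -/
def potX (q : Qt B) (j : Fin 3) (w : V 4) : ℝ := A.τ q * Real.log (excNorm j w) +
    A.F q (Complex.normSq (w j.castSucc) * excNorm j w ^ ro q) + Complex.normSq (w 3)

lemma gExc_eq (q : Qt B) (j : Fin 3) : A.gExc q j = levi (fun w => ((potX A q j w : ℝ) : ℂ)) := rfl

lemma potX_smooth {q : Qt B} (hq : Spec q) (j : Fin 3) : ContDiff ℝ ∞ (potX A q j) := by
  have hN : ContDiff ℝ ∞ (fun w => excNorm j w) := by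
    have : (fun w => excNorm j w) = fun w => 1 + RadialAux.Q (RadialAux.cN j) w := by
      funext w
      exact RadialAux.excNorm_eq j w
    rw [this]
    exact contDiff_const.add (RadialAux.contDiff_Q _)
  have hn : ∀ i : Fin 4, ContDiff ℝ ∞ (fun w : V 4 => Complex.normSq (w i)) := by
    intro i
    have e : (fun w : V 4 => Complex.normSq (w i)) = fun w => ‖w i‖ ^ 2 := by
      ext w
      exact Complex.normSq_eq_norm_sq _
    rw [e]
    exact ContDiff.norm_sq ℝ (by fun_prop)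
  unfold potX
  refine ((contDiff_const.mul (hN.log fun w => (excNorm_pos j w).ne')).add ?_).add (hn 3)
  exact (A.prof q hq).F_smooth.comp ((hn _).mul (hN.pow _))

lemma gExc_kform {q : Qt B} (hq : Spec q) (j : Fin 3) : KForm (A.gExc q j) Set.univ :=
  KForm.levi isOpen_univ (potX_smooth A hq j).contDiffOn

lemma gExc_posDef {q : Qt B} (hq : Spec q) {j : Fin 3} {u : V 4}
    (hu : u ∈ excDom (ro q) (A.qs q) j) : (A.gExc q j u).PosDef :=
  posDef_radial_exc (p := A.p q) (ro_pos q) (A.prof q hq).τ_pos (A.prof q hq).q_pos (A.prof q hq).smooth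
    (A.prof q hq).pos (A.prof q hq).F_smooth (A.prof q hq).F_pos (A.prof q hq).eq j hu

lemma E3_excMap {r : ℕ} {j : Fin 3} {y : V 4} (hy : y j.castSucc ≠ 0) :
    E3 y = Complex.normSq (y j.castSucc) * excNorm j (excMap r j y) := by
  rw [E3_eq, excNorm_eq, Finset.mul_sum]
  apply Finset.sum_congr rfl
  intro i _
  rw [← Complex.normSq_mul]
  congr 1
  unfold dir excMap
  by_cases hi : i = j
  · subst hi; simp
  · have : i.castSucc ≠ j.castSucc := fun h' => hi (Fin.castSucc_injective _ h')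
    simp only [if_neg hi, if_neg this, if_neg (castSucc_ne_three i)]
    field_simp

lemma potX_excMap {q : Qt B} (hq : Spec q) {j : Fin 3} {x : V 4} (hx : x j.castSucc ≠ 0)
    (h1 : E3 x < A.qs q) :
    potX A q j (excMap (ro q) j x) + A.τ q * Real.log (Complex.normSq (x j.castSucc)) =
      A.φ q (E3 x) + Complex.normSq (x 3) := by
  have hE := E3_excMap (r := ro q) hx
  have hn : 0 < Complex.normSq (x j.castSucc) := Complex.normSq_pos.2 hx
  have hN := excNorm_pos j (excMap (ro q) j x)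
  have h0 : 0 < E3 x := by rw [hE]; exact mul_pos hn hN
  have e1 : Complex.normSq (excMap (ro q) j x j.castSucc) =
      Complex.normSq (x j.castSucc) ^ ro q := by simp [excMap]
  have e2 : excMap (ro q) j x 3 = x 3 := by simp [excMap, (castSucc_ne_three j).symm]
  rw [(A.prof q hq).eq _ h0 h1]
  unfold potX
  rw [e1, ← mul_pow, ← hE, e2]
  have e3 : Real.log (E3 x) = Real.log (Complex.normSq (x j.castSucc)) +
      Real.log (excNorm j (excMap (ro q) j x)) := by
    rw [← Real.log_mul hn.ne' hN.ne', ← hE]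
  rw [e3]
  ring

lemma E3_pos_of {j : Fin 3} {x : V 4} (hx : x j.castSucc ≠ 0) : 0 < E3 x := by
  rw [E3_excMap (r := 1) hx]
  exact mul_pos (Complex.normSq_pos.2 hx) (excNorm_pos _ _)

lemma gReg_h2 (q : Qt B) (j : Fin 3) (y : V 4) (hq : Spec q) (_ : E3 (y - cen q) < 1 / 64)
    (h1 : E3 (y - cen q) < A.qs q) (hy : (y - cen q) j.castSucc ≠ 0) :
    A.gReg D (B.ch q.2.2) y = pull (jac (move2 q j) y) (A.gExc q j (move2 q j y)) := by
  have h0 := E3_pos_of hy
  rw [gReg_special A D hq h0 (h1.trans ((A.prof q hq).q_lt.trans (A.p_lt q hq)))]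
  have e0 : jac (move2 q j) y = jac (excMap (ro q) j) (y - cen q) := jac_sub _ _ _
  rw [e0]
  show levi (pot A q) (y - cen q) = pull (jac (excMap (ro q) j) (y - cen q))
    (A.gExc q j (excMap (ro q) j (y - cen q)))
  set x := y - cen q with hx
  clear_value x
  have ha : AnalyticAt ℂ (excMap (ro q) j) x := st_excMap_analyticAt hy
  have hc : ContDiffAt ℝ 2 (fun w => ((potX A q j w : ℝ) : ℂ)) (excMap (ro q) j x) :=
    contDiffAt_ofReal ((potX_smooth A hq j).contDiffAt.of_le two_le_infty)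
  rw [gExc_eq, ← levi_comp ha hc]
  have hl : AnalyticAt ℂ (fun w : V 4 => w j.castSucc) x := st_apply_analyticAt _ _
  have hc2 : ContDiffAt ℝ 2 (fun w : V 4 => ((Real.log (Complex.normSq (w j.castSucc)) : ℝ) : ℂ))
      x := by
    apply contDiffAt_ofReal
    exact (contDiffAt_normSq (contDiffAt_of_analyticAt hl)).log (Complex.normSq_pos.2 hy).ne'
  have hc3 : ContDiffAt ℝ 2 (fun w => ((potX A q j (excMap (ro q) j w) : ℝ) : ℂ)) x :=
    hc.comp x (contDiffAt_of_analyticAt' ha)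
  have e1 : pot A q =ᶠ[𝓝 x] fun w => ((potX A q j (excMap (ro q) j w) : ℝ) : ℂ) +
      ((A.τ q : ℝ) : ℂ) * ((Real.log (Complex.normSq (w j.castSucc)) : ℝ) : ℂ) := by
    have a1 : ∀ᶠ w in 𝓝 x, E3 w < A.qs q := cont_E3.continuousAt.eventually_lt
      continuousAt_const h1
    have a2 : ∀ᶠ w : V 4 in 𝓝 x, w j.castSucc ≠ 0 :=
      (continuous_apply j.castSucc).continuousAt.eventually_ne hy
    filter_upwards [a1, a2] with w b1 b2
    unfold pot
    rw [← potX_excMap A hq b2 b1]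
    push_cast
    ring
  rw [levi_congr e1, levi_add hc3 (contDiffAt_const.mul hc2), levi_const_mul hc2,
    levi_log_normSq hl hy, smul_zero, add_zero]

/-! ### positivity -/

lemma continuousAt_posA {i : B.κ} {y : V 4} (hy : y ∈ chU (Sum.inl i : Ix B)) :
    ContinuousAt (fun w => posA i w) y := by
  have h2 : ContinuousAt (B.p i) (y 2) :=
    (B.p_cont i).continuousAt ((B.isOpen_D i).mem_nhds hy.1)
  have h3 : ContinuousAt (fun w : V 4 => B.p i (w 2)) y :=
    ContinuousAt.comp (g := B.p i) (f := fun w : V 4 => w 2) h2 (continuous_apply 2).continuousAt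
  exact (continuous_apply 0).continuousAt.prodMk ((continuous_apply 1).continuousAt.prodMk
    (h3.prodMk (continuous_apply 3).continuousAt))

/-- either the correction vanishes near `y` or `y` is near a special point -/
lemma dichotomy {i : B.κ} {y : V 4} (hy : y ∈ chU (Sum.inl i : Ix B)) :
    (∀ᶠ w in 𝓝 y, SF A.ψ (posA i w) = 0) ∨
      ∃ (q : Qt B) (x : V 4), Spec q ∧ 0 < E3 x ∧ E3 x < A.pp q ∧ posA i y = posq q x := by
  by_cases h : ∃ (q : Qt B) (x : V 4), Spec q ∧ E3 x ≤ A.P ∧ posq q x = posA i y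
  · obtain ⟨q, x, hq, hx, hxy⟩ := h
    have hE : E3 x < 1 / 64 := hx.trans_lt A.P_lt
    have h0 : 0 < E3 x := by
      refine lt_of_le_of_ne (E3_nonneg x) fun h0 => hy.2 ?_
      rw [← hxy, specA_posq hq hE]
      exact h0.symm
    rcases lt_or_ge (E3 x) (A.pp q) with h1 | h1
    · exact Or.inr ⟨q, x, hq, h0, h1, hxy.symm⟩
    · left
      obtain ⟨k, k1, k2, _, k4⟩ := exists_local hy hq hE hxy.symm
      have hc : ContinuousAt (fun w => E3 (k w)) y :=
        ContinuousAt.comp (g := E3) cont_E3.continuousAt k1.continuousAt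
      have a1 : ∀ᶠ w in 𝓝 y, E3 (k w) < 1 / 64 :=
        hc.eventually_lt continuousAt_const (by rw [k2]; exact hE)
      have a2 : ∀ᶠ w in 𝓝 y, A.p q < E3 (k w) :=
        continuousAt_const.eventually_lt hc (by rw [k2]; exact (A.p_lt q hq).trans_le h1)
      filter_upwards [a1, a2, k4] with w b1 b2 b3
      rw [b3, SF_posq _ hq b1, ψ_zero A hq b2.le]
  · left
    push Not at h
    have h1 := SF_eventually_zero (ψ := A.ψ) A.P_lt (fun _ hq _ hx => ψ_P A hq hx)
      (x := posA i y) h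
    exact (continuousAt_posA hy).eventually h1

lemma levi_zero_of {i : B.κ} {y : V 4} (h : ∀ᶠ w in 𝓝 y, SF A.ψ (posA i w) = 0) :
    levi (fun w => ((SF A.ψ (posA i w) : ℝ) : ℂ)) y = 0 := by
  apply levi_zero
  filter_upwards [h] with w hw
  rw [hw, Complex.ofReal_zero]

/-- the move from a chart to the chart `ch q.2.2` -/
lemma exists_move_special {i : B.κ} {y : V 4} (hy : y ∈ chU (Sum.inl i : Ix B)) {q : Qt B}
    {x : V 4} (hq : Spec q) (h0 : 0 < E3 x) (h1 : E3 x < 1 / 64) (h : posA i y = posq q x) :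
    ∃ (γ : Gam) (k : ℂ → ℂ), AnalyticAt ℂ k (y 2) ∧
      (∀ᶠ x in 𝓝 (y 2), B.p (B.ch q.2.2) (k x) = B.s^[γ.k] (B.p i x)) ∧
      move1 B.N γ k y = cen q + x ∧ cen q + x ∈ chU (Sum.inl (B.ch q.2.2) : Ix B) := by
  have e : cen q + x - cen q = x := by rw [add_sub_cancel_left]
  have hm : cen q + x ∈ chU (Sum.inl (B.ch q.2.2) : Ix B) :=
    mem_reg_of hq (by rw [e]; exact h0) (by rw [e]; exact h1)
  have he : chπ (Sum.inl i : Ix B) y = chπ (Sum.inl (B.ch q.2.2)) (cen q + x) := by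
    rw [chπ_inl, chπ_inl, st_posA_eq, e, h]
  obtain ⟨γ, k, k1, _, k3, k4⟩ := exists_move1 hy.1 hm.1 he
  exact ⟨γ, k, k1, k3, k4, hm⟩

lemma gReg_posDef {i : B.κ} {y : V 4} (hy : y ∈ chU (Sum.inl i : Ix B)) :
    (A.gReg D i y).PosDef := by
  rcases dichotomy A hy with h | ⟨q, x, hq, h0, h1, h2⟩
  · rw [gReg_eq, levi_zero_of A h, add_zero]
    exact dg_posDef A D hy
  · have hE : E3 x < 1 / 64 := h1.trans_le ((A.pp_le q hq).trans A.P_lt.le)
    obtain ⟨γ, k, k1, k3, k4, k5⟩ := exists_move_special hy hq h0 hE h2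
    have hm : move1 B.N γ k y ∈ chU (Sum.inl (B.ch q.2.2) : Ix B) := by rw [k4]; exact k5
    rw [gReg_h1 A D i (B.ch q.2.2) γ k y hy hm k1 k3]
    refine posDef_pull (jac_move1_det D hy hm k1 k3) ?_
    have e : cen q + x - cen q = x := by rw [add_sub_cancel_left]
    rw [k4, gReg_special A D hq (by rw [e]; exact h0) (by rw [e]; exact h1), e]
    exact pot_posDef A hq h0

/-! ### closedness where `S = 1` -/

lemma dZ_of_indep {f : V 4 → ℂ} {z : V 4} {i : Fin 4}
    (h : ∀ᶠ w in 𝓝 z, ∀ c : ℂ, f (w + Pi.single i c) = f w) : dZ i f z = 0 := by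
  have key : ∀ v : ℂ, fderiv ℝ f z (Pi.single i v) = 0 := by
    intro v
    by_cases hd : DifferentiableAt ℝ f z
    · have h1 : HasDerivAt (fun t : ℝ => f (z + t • (Pi.single i v : V 4)))
          (fderiv ℝ f z (Pi.single i v)) 0 := by
        have h2 : HasFDerivAt f (fderiv ℝ f z) (z + (0 : ℝ) • (Pi.single i v : V 4)) := by
          rw [zero_smul, add_zero]; exact hd.hasFDerivAt
        have h3 : HasDerivAt (fun t : ℝ => z + t • (Pi.single i v : V 4)) (Pi.single i v) 0 := by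
          simpa using ((hasDerivAt_id (0 : ℝ)).smul_const (Pi.single i v : V 4)).const_add z
        exact h2.comp_hasDerivAt 0 h3
      have h4 : (fun t : ℝ => f (z + t • (Pi.single i v : V 4))) = fun _ => f z := by
        funext t
        have h5 : t • (Pi.single i v : V 4) = Pi.single i ((t : ℂ) * v) := by
          rw [← Pi.single_smul]
          congr 1
        rw [h5]
        exact h.self_of_nhds _
      rw [h4] at h1
      exact h1.unique (hasDerivAt_const _ _)
    · rw [fderiv_zero_of_not_differentiableAt hd]; rfl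
  unfold dZ
  rw [key, key]
  simp

lemma dB_of_indep {f : V 4 → ℂ} {z : V 4} {i : Fin 4}
    (h : ∀ᶠ w in 𝓝 z, ∀ c : ℂ, f (w + Pi.single i c) = f w) : dB i f z = 0 := by
  have key : ∀ v : ℂ, fderiv ℝ f z (Pi.single i v) = 0 := by
    intro v
    by_cases hd : DifferentiableAt ℝ f z
    · have h1 : HasDerivAt (fun t : ℝ => f (z + t • (Pi.single i v : V 4)))
          (fderiv ℝ f z (Pi.single i v)) 0 := by
        have h2 : HasFDerivAt f (fderiv ℝ f z) (z + (0 : ℝ) • (Pi.single i v : V 4)) := by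
          rw [zero_smul, add_zero]; exact hd.hasFDerivAt
        have h3 : HasDerivAt (fun t : ℝ => z + t • (Pi.single i v : V 4)) (Pi.single i v) 0 := by
          simpa using ((hasDerivAt_id (0 : ℝ)).smul_const (Pi.single i v : V 4)).const_add z
        exact h2.comp_hasDerivAt 0 h3
      have h4 : (fun t : ℝ => f (z + t • (Pi.single i v : V 4))) = fun _ => f z := by
        funext t
        have h5 : t • (Pi.single i v : V 4) = Pi.single i ((t : ℂ) * v) := by
          rw [← Pi.single_smul]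
          congr 1
        rw [h5]
        exact h.self_of_nhds _
      rw [h4] at h1
      exact h1.unique (hasDerivAt_const _ _)
    · rw [fderiv_zero_of_not_differentiableAt hd]; rfl
  unfold dB
  rw [key, key]
  simp

/-- `KForm` is a local property -/
lemma kform_local {g : V 4 → Matrix (Fin 4) (Fin 4) ℂ} {Ω : Set (V 4)}
    (h : ∀ z ∈ Ω, ∃ (g' : V 4 → Matrix (Fin 4) (Fin 4) ℂ) (W : Set (V 4)), IsOpen W ∧ z ∈ W ∧
      KForm g' W ∧ ∀ w ∈ W, g w = g' w) : KForm g Ω where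
  smooth j k := by
    intro z hz
    obtain ⟨g', W, hW, hzW, hk, he⟩ := h z hz
    have h1 : ContDiffAt ℝ ∞ (fun w => g' w j k) z := (hk.smooth j k).contDiffAt (hW.mem_nhds hzW)
    refine (h1.congr_of_eventuallyEq ?_).contDiffWithinAt
    filter_upwards [hW.mem_nhds hzW] with w hw
    rw [he w hw]
  herm z hz := by
    obtain ⟨g', W, hW, hzW, hk, he⟩ := h z hz
    rw [he z hzW]
    exact hk.herm z hzW
  closed z hz i j k := by
    obtain ⟨g', W, hW, hzW, hk, he⟩ := h z hz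
    have e1 : ∀ a b, (fun w => g w a b) =ᶠ[𝓝 z] fun w => g' w a b := by
      intro a b
      filter_upwards [hW.mem_nhds hzW] with w hw
      rw [he w hw]
    rw [dZ_congr (e1 j k), dZ_congr (e1 i k)]
    exact hk.closed z hzW i j k

lemma gReg_kform (i : B.κ) {W : Set (V 4)} (hW : IsOpen W)
    (hWR : W ⊆ chU (Sum.inl i : Ix B)) (hS : ∀ y ∈ W, A.S (y 0) (y 1) = 1) :
    KForm (A.gReg D i) W := by
  set g' : V 4 → Matrix (Fin 4) (Fin 4) ℂ := fun y =>
    Matrix.diagonal (![1, 1, ((D.K i (y 2) : ℝ) : ℂ), 1] : Fin 4 → ℂ) with hg'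
  have hKs : ContDiffOn ℝ ∞ (fun y : V 4 => ((D.K i (y 2) : ℝ) : ℂ)) W :=
    Complex.ofRealCLM.contDiff.comp_contDiffOn ((K_smooth' D i).mono hWR)
  have h1 : KForm g' W := by
    refine ⟨?_, ?_, ?_⟩
    · intro j k
      by_cases h : j = k
      · subst h
        simp only [hg', Matrix.diagonal_apply_eq]
        fin_cases j
        · exact contDiffOn_const
        · exact contDiffOn_const
        · exact hKs
        · exact contDiffOn_const
      · simp only [hg', Matrix.diagonal_apply_ne _ h]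
        exact contDiffOn_const
    · intro z _
      rw [Matrix.IsHermitian, hg', Matrix.diagonal_conjTranspose]
      congr 1
      funext l
      fin_cases l <;> simp
    · intro z _ a j k
      have key : ∀ a j k : Fin 4, ¬ (a = 2 ∧ j = 2 ∧ k = 2) → dZ a (fun w => g' w j k) z = 0 := by
        intro a j k hn
        by_cases h : j = k
        · subst h
          by_cases ha : a = 2
          · subst ha
            have hj : j ≠ 2 := fun hj => hn ⟨rfl, hj, hj⟩
            have : (fun w => g' w j j) = fun _ => 1 := by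
              funext w
              simp only [hg', Matrix.diagonal_apply_eq]
              fin_cases j
              · rfl
              · rfl
              · exact absurd rfl hj
              · rfl
            rw [this, dZ_const]
          · apply dZ_of_indep
            refine Filter.Eventually.of_forall fun w c => ?_
            have h2 : (w + Pi.single a c : V 4) 2 = w 2 := by
              simp [Ne.symm ha]
            simp only [hg', h2]
        · have : (fun w => g' w j k) = fun _ => 0 := by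
            funext w
            simp only [hg', Matrix.diagonal_apply_ne _ h]
          rw [this, dZ_const]
      by_cases hc : a = 2 ∧ j = 2 ∧ k = 2
      · obtain ⟨rfl, rfl, rfl⟩ := hc
        rfl
      · rw [key a j k hc, key j a k fun h => hc ⟨h.2.1, h.1, h.2.2⟩]
  have h2 : KForm (fun y => g' y + levi (fun w => ((SF A.ψ (posA i w) : ℝ) : ℂ)) y) W :=
    KForm.add hW h1 (KForm.levi hW ((SF_smooth A i).mono hWR))
  apply kform_local
  intro z hz
  refine ⟨_, W, hW, hz, h2, ?_⟩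
  intro w hw
  rw [gReg_eq]
  congr 1
  simp only [hg']
  congr 1
  unfold dg
  rw [hS w hw]
  simp

/-! ### the Gauduchon condition in the regular charts -/

lemma adj_diag_aux (d : Fin 4 → ℂ) (i : Fin 4) : ∏ j ∈ Finset.univ.erase i, d j =
    (![d 1 * d 2 * d 3, d 0 * d 2 * d 3, d 0 * d 1 * d 3, d 0 * d 1 * d 2] : Fin 4 → ℂ) i := by
  match i with
  | 0 =>
    rw [show Finset.univ.erase (0 : Fin 4) = {1, 2, 3} by decide]
    simp [Finset.prod_insert, mul_assoc]
  | 1 =>
    rw [show Finset.univ.erase (1 : Fin 4) = {0, 2, 3} by decide]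
    simp [Finset.prod_insert, mul_assoc]
  | 2 =>
    rw [show Finset.univ.erase (2 : Fin 4) = {0, 1, 3} by decide]
    simp [Finset.prod_insert, mul_assoc]
  | 3 =>
    rw [show Finset.univ.erase (3 : Fin 4) = {0, 1, 2} by decide]
    simp [Finset.prod_insert, mul_assoc]

lemma adj_diag (d : Fin 4 → ℂ) : (Matrix.diagonal d).adjugate =
    Matrix.diagonal ![d 1 * d 2 * d 3, d 0 * d 2 * d 3, d 0 * d 1 * d 3, d 0 * d 1 * d 2] := by
  rw [Matrix.adjugate_diagonal]
  congr 1
  funext i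
  exact adj_diag_aux d i

lemma gauduchon_congr {g g' : V 4 → Matrix (Fin 4) (Fin 4) ℂ} {z : V 4} (h : g =ᶠ[𝓝 z] g') :
    ∑ j, ∑ k, dZ j (fun w => dB k (fun w' => (g w').adjugate k j) w) z =
      ∑ j, ∑ k, dZ j (fun w => dB k (fun w' => (g' w').adjugate k j) w) z := by
  refine Finset.sum_congr rfl fun j _ => Finset.sum_congr rfl fun k _ => ?_
  refine dZ_congr ?_ j
  filter_upwards [h.eventually_nhds] with w hw
  refine dB_congr ?_ k
  filter_upwards [hw] with w' hw'
  rw [hw']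

lemma adj_indep (i : B.κ) (k : Fin 4) (v : V 4) (c : ℂ) :
    (![dg A D i (v + Pi.single k c) 1 * dg A D i (v + Pi.single k c) 2 *
        dg A D i (v + Pi.single k c) 3,
      dg A D i (v + Pi.single k c) 0 * dg A D i (v + Pi.single k c) 2 *
        dg A D i (v + Pi.single k c) 3,
      dg A D i (v + Pi.single k c) 0 * dg A D i (v + Pi.single k c) 1 *
        dg A D i (v + Pi.single k c) 3,
      dg A D i (v + Pi.single k c) 0 * dg A D i (v + Pi.single k c) 1 *
        dg A D i (v + Pi.single k c) 2] : Fin 4 → ℂ) k =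
    (![dg A D i v 1 * dg A D i v 2 * dg A D i v 3, dg A D i v 0 * dg A D i v 2 * dg A D i v 3,
      dg A D i v 0 * dg A D i v 1 * dg A D i v 3,
      dg A D i v 0 * dg A D i v 1 * dg A D i v 2] : Fin 4 → ℂ) k := by
  have hS : ∀ v : V 4, ((A.S (v 0) (v 1) : ℝ) : ℂ) ≠ 0 := fun v => by
    exact_mod_cast (A.S_pos (v 0) (v 1)).ne'
  have hSK : ∀ v : V 4, ((A.S (v 0) (v 1) : ℝ) : ℂ) *
      ((D.K i (v 2) / A.S (v 0) (v 1) : ℝ) : ℂ) = ((D.K i (v 2) : ℝ) : ℂ) := by
    intro v
    have := hS v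
    push_cast
    field_simp
  have d0 : ∀ v : V 4, dg A D i v 0 = ((A.S (v 0) (v 1) : ℝ) : ℂ) := fun _ => rfl
  have d1 : ∀ v : V 4, dg A D i v 1 = ((A.S (v 0) (v 1) : ℝ) : ℂ) := fun _ => rfl
  have d2 : ∀ v : V 4, dg A D i v 2 = ((D.K i (v 2) / A.S (v 0) (v 1) : ℝ) : ℂ) := fun _ => rfl
  have d3 : ∀ v : V 4, dg A D i v 3 = 1 := fun _ => rfl
  match k with
  | 0 =>
    simp only [Matrix.cons_val_zero, d1, d2, d3, hSK]
    simp
  | 1 =>
    simp only [Matrix.cons_val_one, Matrix.cons_val_zero, d0, d2, d3, hSK]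
    simp
  | 2 =>
    simp only [Matrix.cons_val, d0, d1, d3]
    simp
  | 3 =>
    simp only [Matrix.cons_val, d0, d1, d2]
    simp

lemma gReg_gauduchon {i : B.κ} {y : V 4} (hy : y ∈ chU (Sum.inl i : Ix B)) :
    ∑ j, ∑ k, dZ j (fun w => dB k (fun w' => (A.gReg D i w').adjugate k j) w) y = 0 := by
  rcases dichotomy A hy with h | ⟨q, x, hq, h0, h1, h2⟩
  · have e1 : A.gReg D i =ᶠ[𝓝 y] fun w => Matrix.diagonal (dg A D i w) := by
      filter_upwards [h.eventually_nhds] with w hw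
      rw [gReg_eq, levi_zero_of A hw, add_zero]
    rw [gauduchon_congr e1]
    simp only [adj_diag]
    refine Finset.sum_eq_zero fun j _ => Finset.sum_eq_zero fun k _ => ?_
    by_cases hkj : k = j
    · subst hkj
      simp only [Matrix.diagonal_apply_eq]
      have e2 : ∀ w : V 4, dB k (fun w' => (![dg A D i w' 1 * dg A D i w' 2 * dg A D i w' 3,
          dg A D i w' 0 * dg A D i w' 2 * dg A D i w' 3,
          dg A D i w' 0 * dg A D i w' 1 * dg A D i w' 3,
          dg A D i w' 0 * dg A D i w' 1 * dg A D i w' 2] : Fin 4 → ℂ) k) w = 0 := by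
        intro w
        apply dB_of_indep
        exact Filter.Eventually.of_forall fun v c => adj_indep A D i k v c
      simp only [e2]
      exact dZ_const _ _ _
    · simp only [Matrix.diagonal_apply_ne _ hkj, dB_const]
      exact dZ_const _ _ _
  · have hE : E3 x < 1 / 64 := h1.trans_le ((A.pp_le q hq).trans A.P_lt.le)
    obtain ⟨k, k1, k2, _, k4⟩ := exists_local hy hq hE h2
    have hc : ContinuousAt (fun w => E3 (k w)) y :=
      ContinuousAt.comp (g := E3) cont_E3.continuousAt k1.continuousAt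
    have a1 : ∀ᶠ w in 𝓝 y, E3 (k w) < A.pp q :=
      hc.eventually_lt continuousAt_const (by rw [k2]; exact h1)
    have a2 : ∀ᶠ w in 𝓝 y, A.S (w 0) (w 1) = 1 := by
      filter_upwards [a1, k4] with w b1 b2
      apply A.one q hq
      have c0 : w 0 = q.1 + k w 0 := congrArg (fun t => t.1) b2
      have c1 : w 1 = q.2.1 + k w 1 := congrArg (fun t => t.2.1) b2
      rw [c0, c1, add_sub_cancel_left, add_sub_cancel_left]
      refine lt_of_le_of_lt ?_ b1
      unfold E3
      have := Complex.normSq_nonneg (k w 2)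
      linarith
    obtain ⟨W, hW1, hW2, hW3⟩ := eventually_nhds_iff.1
      (a2.and ((isOpen_reg i).mem_nhds hy : ∀ᶠ w in 𝓝 y, w ∈ chU (Sum.inl i : Ix B)))
    exact gauduchon_of_closed hW2 (gReg_kform A D i hW2 (fun w hw => (hW1 w hw).2)
      fun w hw => (hW1 w hw).1) (fun w hw => gReg_posDef A D (hW1 w hw).2) hW3

/-! ### the exceptional charts -/

lemma smooth_pull {g : V 4 → Matrix (Fin 4) (Fin 4) ℂ} {Y : V 4 → V 4} {u : V 4}
    (hY : AnalyticAt ℂ Y u) (hg : ∀ j k, ContDiffAt ℝ ∞ (fun w => g w j k) (Y u)) (j k : Fin 4) :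
    ContDiffAt ℝ ∞ (fun w => pull (jac Y w) (g (Y w)) j k) u := by
  simp only [pull_apply]
  refine ContDiffAt.sum fun b _ => ContDiffAt.sum fun a _ => ?_
  have h3 : ContDiffAt ℝ ∞ (fun w => star (jac Y w b k)) u :=
    Complex.conjCLE.contDiff.contDiffAt.comp u
      (contDiffAt_of_analyticAt (analyticAt_jac hY b k))
  have h2 : ContDiffAt ℝ ∞ (fun w => g (Y w) a b) u :=
    (hg a b).comp u (contDiffAt_of_analyticAt' hY)
  exact ((contDiffAt_of_analyticAt (analyticAt_jac hY a j)).mul h2).mul h3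

lemma mem_excDom_zero {q : Qt B} {j : Fin 3} {u : V 4} (hu : u j.castSucc = 0) {ρ : ℝ}
    (hρ : 0 < ρ) : u ∈ excDom (ro q) ρ j := by
  show Complex.normSq (u j.castSucc) * excNorm j u ^ ro q < ρ ^ ro q
  rw [hu, map_zero, zero_mul]
  exact pow_pos hρ _

/-- `g` is the metric in all charts -/
structure IsMet (g : Ix B → V 4 → Matrix (Fin 4) (Fin 4) ℂ) : Prop where
  reg : ∀ i, g (Sum.inl i) = A.gReg D i
  exc : ∀ q j, Spec q → ∀ u ∈ excDom (ro q) (A.qs q) j, u ∈ excDom (ro q) (1 / 64) j →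
        g (Sum.inr (q, j)) u = A.gExc q j u
  loc : ∀ q j, Spec q → ∀ u ∈ chU (Sum.inr (q, j) : Ix B), u j.castSucc ≠ 0 →
        ∃ Y : V 4 → V 4, AnalyticAt ℂ Y u ∧ Y u ∈ chU (Sum.inl (B.ch q.2.2) : Ix B) ∧
          IsUnit (jac Y u).det ∧
          ∀ᶠ u' in 𝓝 u, g (Sum.inr (q, j)) u' = pull (jac Y u') (A.gReg D (B.ch q.2.2) (Y u'))

lemma hopen (q : Qt B) (j : Fin 3) :
    IsOpen (excDom (ro q) (A.qs q) j ∩ excDom (ro q) (1 / 64) j) :=
  (st_isOpen_excDom _ _ _).inter (st_isOpen_excDom _ _ _)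

lemma _root_.GK.KForm.mono' {g : V 4 → Matrix (Fin 4) (Fin 4) ℂ} {Ω Ω' : Set (V 4)} (hg : KForm g Ω)
    (h : Ω' ⊆ Ω) : KForm g Ω' :=
  ⟨fun j k => (hg.smooth j k).mono h, fun z hz => hg.herm z (h hz),
    fun z hz => hg.closed z (h hz)⟩

variable {A D}

section IsMet

variable {g : Ix B → V 4 → Matrix (Fin 4) (Fin 4) ℂ} (hg : IsMet A D g)
include hg

lemma IsMet.zero {q : Qt B} {j : Fin 3} {u : V 4} (hu : u ∈ chU (Sum.inr (q, j) : Ix B))
    (h0 : u j.castSucc = 0) : u ∈ excDom (ro q) (A.qs q) j ∧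
      ∀ w ∈ excDom (ro q) (A.qs q) j ∩ excDom (ro q) (1 / 64) j,
        g (Sum.inr (q, j)) w = A.gExc q j w :=
  ⟨mem_excDom_zero h0 (A.prof q hu.1).q_pos, fun w hw => hg.exc q j hu.1 w hw.1 hw.2⟩

lemma IsMet.smooth (i : Ix B) (j k : Fin 4) : ContDiffOn ℝ ∞ (fun z => g i z j k) (chU i) := by
  rcases i with i | ⟨q, l⟩
  · rw [hg.reg]
    exact gReg_smooth A D i j k
  · intro u hu
    by_cases h0 : u l.castSucc = 0
    · obtain ⟨e1, e2⟩ := hg.zero hu h0
      have h1 : ContDiffAt ℝ ∞ (fun w => A.gExc q l w j k) u :=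
        ((gExc_kform A hu.1 l).smooth j k).contDiffAt Filter.univ_mem
      refine (h1.congr_of_eventuallyEq ?_).contDiffWithinAt
      filter_upwards [(hopen A q l).mem_nhds ⟨e1, hu.2⟩] with w hw
      rw [e2 w hw]
    · obtain ⟨Y, Y1, Y2, _, Y4⟩ := hg.loc q l hu.1 u hu h0
      have h1 := smooth_pull (g := A.gReg D (B.ch q.2.2)) Y1 (fun a b =>
        (gReg_smooth A D (B.ch q.2.2) a b).contDiffAt ((isOpen_reg _).mem_nhds Y2)) j k
      refine (h1.congr_of_eventuallyEq ?_).contDiffWithinAt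
      filter_upwards [Y4] with w hw
      rw [hw]

lemma IsMet.posDef (i : Ix B) {u : V 4} (hu : u ∈ chU i) : (g i u).PosDef := by
  rcases i with i | ⟨q, l⟩
  · rw [hg.reg]
    exact gReg_posDef A D hu
  · by_cases h0 : u l.castSucc = 0
    · obtain ⟨e1, e2⟩ := hg.zero hu h0
      rw [e2 u ⟨e1, hu.2⟩]
      exact gExc_posDef A hu.1 e1
    · obtain ⟨Y, _, Y2, Y3, Y4⟩ := hg.loc q l hu.1 u hu h0
      rw [Y4.self_of_nhds]
      exact posDef_pull Y3 (gReg_posDef A D Y2)

lemma IsMet.gauduchon (i : Ix B) {u : V 4} (hu : u ∈ chU i) :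
    ∑ j, ∑ k, dZ j (fun w => dB k (fun w' => (g i w').adjugate k j) w) u = 0 := by
  rcases i with i | ⟨q, l⟩
  · rw [hg.reg]
    exact gReg_gauduchon A D hu
  · by_cases h0 : u l.castSucc = 0
    · obtain ⟨e1, e2⟩ := hg.zero hu h0
      have e3 : g (Sum.inr (q, l)) =ᶠ[𝓝 u] A.gExc q l := by
        filter_upwards [(hopen A q l).mem_nhds ⟨e1, hu.2⟩] with w hw
        exact e2 w hw
      rw [gauduchon_congr e3]
      exact gauduchon_of_closed (Ω := excDom (ro q) (A.qs q) l) (st_isOpen_excDom _ _ _)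
        ((gExc_kform A hu.1 l).mono' (Set.subset_univ _)) (fun w hw => gExc_posDef A hu.1 hw) e1
    · obtain ⟨Y, Y1, Y2, Y3, Y4⟩ := hg.loc q l hu.1 u hu h0
      rw [gauduchon_congr Y4]
      exact gauduchon_pull (isOpen_reg (B.ch q.2.2)) (gReg_smooth A D (B.ch q.2.2)) Y1 Y2 Y3
        (gReg_gauduchon A D Y2)

lemma IsMet.kform (hS : ∀ z0 z1, A.S z0 z1 = 1) (i : Ix B) : KForm (g i) (chU i) := by
  rcases i with i | ⟨q, l⟩
  · rw [hg.reg]
    exact gReg_kform A D i (isOpen_reg i) subset_rfl fun y _ => hS _ _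
  · apply kform_local
    intro u hu
    by_cases h0 : u l.castSucc = 0
    · obtain ⟨e1, e2⟩ := hg.zero hu h0
      exact ⟨A.gExc q l, _, hopen A q l, ⟨e1, hu.2⟩,
        (gExc_kform A hu.1 l).mono' (Set.subset_univ _), e2⟩
    · obtain ⟨Y, Y1, Y2, Y3, Y4⟩ := hg.loc q l hu.1 u hu h0
      have e5 : ∀ᶠ w in 𝓝 u, Y w ∈ chU (Sum.inl (B.ch q.2.2) : Ix B) :=
        Y1.continuousAt.eventually ((isOpen_reg _).mem_nhds Y2)
      obtain ⟨W, hW1, hW2, hW3⟩ := eventually_nhds_iff.1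
        (Y4.and (e5.and Y1.eventually_analyticAt))
      exact ⟨_, W, hW2, hW3, KForm.pullback (isOpen_reg (B.ch q.2.2))
        (gReg_kform A D (B.ch q.2.2) (isOpen_reg _) subset_rfl fun y _ => hS _ _) hW2
        (fun w hw => (hW1 w hw).2.2) (fun w hw => (hW1 w hw).2.1), fun w hw => (hW1 w hw).1⟩

end IsMet

lemma compat_pres {g : Ix B → V 4 → Matrix (Fin 4) (Fin 4) ℂ}
    (g4 : ∀ (i j : Ix B) (z w : V 4), z ∈ chU i → w ∈ chU j → chπ i z = chπ j w →
        ∃ h : V 4 → V 4, AnalyticAt ℂ h z ∧ h z = w ∧ (∀ᶠ z' in 𝓝 z, chπ j (h z') = chπ i z') ∧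
          g i z = pull (jac h z) (g j w)) (i j : Ix B) (z w : V 4) (hz : z ∈ chU i)
    (hw : w ∈ chU j) (h : (preM B).pt i z = (preM B).pt j w) :
    ∃ h : V 4 → V 4, AnalyticAt ℂ h z ∧ h z = w ∧
      (∀ᶠ z' in 𝓝 z, (preM B).pt j (h z') = (preM B).pt i z') ∧
      g i z = pull (jac h z) (g j w) := by
  have h' : chπ i z = chπ j w := ((preM B).pt_eq_iff hz hw).1 h
  obtain ⟨k, k1, k2, k3, k4⟩ := g4 i j z w hz hw h'
  refine ⟨k, k1, k2, ?_, k4⟩
  have e1 : ∀ᶠ z' in 𝓝 z, z' ∈ chU i := (isOpen_chU i).mem_nhds hz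
  have e2 : ∀ᶠ z' in 𝓝 z, k z' ∈ chU j :=
    k1.continuousAt.eventually (by rw [k2]; exact (isOpen_chU j).mem_nhds hw)
  filter_upwards [k3, e1, e2] with z' a1 a2 a3
  exact ((preM B).pt_eq_iff a3 a2).2 a1

variable (A D)

lemma cont_pull : Continuous fun a : Matrix (Fin 4) (Fin 4) ℂ × Matrix (Fin 4) (Fin 4) ℂ =>
    pull a.1 a.2 := by
  unfold pull
  exact ((continuous_fst.matrix_transpose).matrix_mul continuous_snd).matrix_mul
    (continuous_fst.matrix_map continuous_star)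

lemma gExc_cont (q : Qt B) (j : Fin 3) (hq : Spec q) :
    ContinuousOn (A.gExc q j) (excDom (ro q) (A.qs q) j) := by
  refine continuousOn_pi.2 fun a => continuousOn_pi.2 fun b => ?_
  exact ((gExc_kform A hq j).smooth a b).continuousOn.mono (Set.subset_univ _)

lemma exists_isMet : ∃ g : Ix B → V 4 → Matrix (Fin 4) (Fin 4) ℂ, IsMet A D g ∧
    ∀ (i j : Ix B) (z w : V 4), z ∈ chU i → w ∈ chU j → chπ i z = chπ j w →
        ∃ h : V 4 → V 4, AnalyticAt ℂ h z ∧ h z = w ∧ (∀ᶠ z' in 𝓝 z, chπ j (h z') = chπ i z') ∧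
          g i z = pull (jac h z) (g j w) := by
  obtain ⟨g, g1, g2, g3, g4⟩ := exists_extend (B := B) (X := Matrix (Fin 4) (Fin 4) ℂ) pull
    pull_one (fun J K x => (pull_pull J K).symm) cont_pull (A.gReg D) A.gExc A.qs
    (fun q hq => (A.prof q hq).q_pos) (gReg_cont A D) (gExc_cont A) (gReg_h1 A D) (gReg_h2 A D)
  exact ⟨g, ⟨g1, g2, g3⟩, g4⟩

end MetricGAux

open MetricGAux

theorem exists_metricG (A : GData B) (D : MetricData B) :
    ∃ G : (presM B).Metric, (∀ i, ∀ y ∈ chU (Sum.inl i : Ix B), G.g (Sum.inl i) y = A.gReg D i y) ∧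
      (∀ i, ∀ z ∈ chU i,
        ∑ j, ∑ k, dZ j (fun w => dB k (fun w' => (G.g i w').adjugate k j) w) z = 0) ∧
      ((∀ z0 z1, A.S z0 z1 = 1) → ∀ i, KForm (G.g i) (chU i)) := by
  obtain ⟨g, hg, g4⟩ := exists_isMet A D
  exact ⟨⟨g, hg.smooth, fun i z hz => hg.posDef i hz, compat_pres g4⟩,
    fun i y _ => congrFun (hg.reg i) y, fun i z hz => hg.gauduchon i hz, fun hS i => hg.kform hS i⟩

end

end GK
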