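import Pool.Agent.GK.MDefs
import Pool.Agent.GK.SFun
import Pool.Agent.GK.Radial

/-! # Module MetricVals: fibre volumes and fluxes of the explicit metrics -/

open scoped ContDiff Topology ComplexOrder
open MeasureTheory

namespace GK

noncomputable section

variable {B : BaseCurve}

namespace MValsAux

theorem SF_zero_of_large (A : GData B) (σ : B.Sp) {y : V 4} (h2 : ‖y 2‖ < 1 / 2)
    (hP : A.P < Complex.normSq (y 2)) : SF A.ψ (posA (B.ch σ) y) = 0 := by
  unfold SF
  split_ifs with h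
  · obtain ⟨h1, h3, h4⟩ := h.choose_spec
    generalize h.choose = p at h1 h3 h4 ⊢
    have n2 := norm_lt_eighth h3 2
    have e2 : (2 : Fin 3).castSucc = 2 := rfl
    rw [e2] at n2
    have h5 : B.p (B.ch p.1.2.2) (p.2 2) = B.p (B.ch σ) (y 2) :=
      congrArg (fun x : XA B => x.2.2.1) h4
    have b1 : p.2 2 ∈ Metric.ball (0 : ℂ) (1 / 2) := by
      rw [mem_ball_zero_iff]; linarith
    have b2 : y 2 ∈ Metric.ball (0 : ℂ) (1 / 2) := by
      rw [mem_ball_zero_iff]; exact h2
    obtain ⟨_, h6⟩ := p_ch_inj b1 b2 h5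
    have h7 : A.P < E3 p.2 := by
      unfold E3
      rw [h6]
      have a0 := Complex.normSq_nonneg (p.2 0)
      have a1 := Complex.normSq_nonneg (p.2 1)
      linarith
    unfold GData.ψ
    have h8 := A.p_lt _ h1
    have h9 := A.pp_le _ h1
    rw [(A.prof _ h1).eq_self _ (by linarith)]
    ring
  · rfl

theorem levi_translate (f : V 4 → ℂ) (c y : V 4) :
    levi f (c + y) = levi (fun w => f (c + w)) y := by
  ext j k
  unfold levi
  simp only [Matrix.of_apply]
  have h1 : ∀ w, dB k (fun w => f (c + w)) w = dB k f (c + w) := by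
    intro w
    unfold dB
    rw [fderiv_comp_add_left c]
  simp only [h1]
  unfold dZ
  rw [fderiv_comp_add_left c (f := fun w => dB k f w)]

theorem levi_zero (y : V 4) (j k : Fin 4) : levi (fun _ : V 4 => (0 : ℂ)) y j k = 0 := by
  unfold levi
  simp only [Matrix.of_apply, dB_const, dZ_const]

theorem mem_near {q : Qt B} (hq : Spec q) {y : V 4} (h0 : 0 < E3 y) (h1 : E3 y < 1 / 64) :
    cen q + y ∈ chU (Sum.inl (B.ch q.2.2) : Ix B) := by
  have n2 := norm_lt_eighth h1 2
  have e2 : (2 : Fin 3).castSucc = 2 := rfl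
  rw [e2] at n2
  rw [mem_chU_inl]
  constructor
  · rw [B.D_ch, mem_ball_zero_iff]
    have : (cen q + y) 2 = y 2 := by simp [cen]
    rw [this]; linarith
  · rw [st_posA_eq, add_sub_cancel_left, specA_posq hq h1]
    exact h0.ne'

theorem gReg_near (A : GData B) (D : MetricData B) {q : Qt B} (hq : Spec q) {y : V 4}
    (h0 : 0 < E3 y) (h1 : E3 y < A.pp q) :
    A.gReg D (B.ch q.2.2) (cen q + y) =
      levi (fun w => ((A.φ q (E3 w) + Complex.normSq (w 3) : ℝ) : ℂ)) y := by
  have hpp := A.pp_le q hq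
  have hP := A.P_lt
  have h64 : E3 y < 1 / 64 := by linarith
  have n2 := norm_lt_eighth h64 2
  have e2 : (2 : Fin 3).castSucc = 2 := rfl
  rw [e2] at n2
  have c0 : (cen q + y) 0 = q.1 + y 0 := by simp [cen]
  have c1 : (cen q + y) 1 = q.2.1 + y 1 := by simp [cen]
  have c2 : (cen q + y) 2 = y 2 := by simp [cen]
  have hS : A.S ((cen q + y) 0) ((cen q + y) 1) = 1 := by
    apply A.one q hq
    rw [c0, c1, add_sub_cancel_left, add_sub_cancel_left]
    have a2 := Complex.normSq_nonneg (y 2)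
    unfold E3 at h1
    linarith
  have hK : D.K (B.ch q.2.2) ((cen q + y) 2) = 1 := by
    rw [c2]
    exact D.K_center _ _ (by linarith)
  have hφ : ContDiffOn ℝ ∞ (A.φ q) (Set.Ioi 0) := (A.prof q hq).smooth
  have hφ2 : ContDiffAt ℝ 2 (A.φ q) (E3 y) := RadialAux.cd2 isOpen_Ioi hφ h0
  have hE2 : ContDiffAt ℝ 2 E3 y := (RadialAux.contDiff_E3.contDiffAt).of_le RadialAux.two_le
  have hA : ContDiffAt ℝ 2 (fun w => ((A.φ q (E3 w) - E3 w : ℝ) : ℂ)) y :=
    RadialAux.cd_coe ((hφ2.comp y hE2).sub hE2)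
  have hQ : ContDiffAt ℝ 2 (fun w : V 4 => ((RadialAux.Q (fun _ => 1) w : ℝ) : ℂ)) y :=
    RadialAux.cd_coe ((RadialAux.contDiff_Q _).contDiffAt.of_le RadialAux.two_le)
  have e1 : (fun w : V 4 => ((A.φ q (E3 w) + Complex.normSq (w 3) : ℝ) : ℂ)) =
      fun w => ((A.φ q (E3 w) - E3 w : ℝ) : ℂ) + ((RadialAux.Q (fun _ => 1) w : ℝ) : ℂ) := by
    funext w
    rw [← Complex.ofReal_add]
    congr 1
    unfold RadialAux.Q E3
    simp [Fin.sum_univ_four]
    ring
  have hev : (fun w => ((SF A.ψ (posA (B.ch q.2.2) (cen q + w)) : ℝ) : ℂ)) =ᶠ[𝓝 y]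
      fun w => ((A.φ q (E3 w) - E3 w : ℝ) : ℂ) := by
    have : ∀ᶠ w in 𝓝 y, E3 w < 1 / 64 :=
      (RadialAux.contDiff_E3.continuous.continuousAt).eventually (Iio_mem_nhds h64)
    filter_upwards [this] with w hw
    rw [st_posA_eq, add_sub_cancel_left, SF_posq A.ψ hq hw]
    rfl
  have hQ1 : levi (fun w : V 4 => ((RadialAux.Q (fun _ => 1) w : ℝ) : ℂ)) y = 1 := by
    ext j k
    rw [RadialAux.levi_Q, Matrix.one_apply]
    simp
  unfold GData.gReg
  rw [levi_translate, levi_congr hev, e1, levi_add hA hQ, hQ1, hS, hK, add_comm]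
  congr 1
  ext j k
  fin_cases j <;> fin_cases k <;> simp

theorem volume_box : ∫ _ in box 1, (1 : ℝ) = 1 := by
  have hbox : MeasurableSet (box 1) := by
    unfold box
    exact (Complex.measurable_re measurableSet_Ico).inter (Complex.measurable_im measurableSet_Ico)
  have : volume (box 1) = 1 := by
    have hs : box 1 = Complex.measurableEquivRealProd ⁻¹'
        (Set.Ico (0 : ℝ) 1 ×ˢ Set.Ico (0 : ℝ) 1) := by
      ext z
      rfl
    rw [hs, Complex.volume_preserving_equiv_real_prod.measure_preimage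
      (measurableSet_Ico.prod measurableSet_Ico).nullMeasurableSet, Measure.volume_eq_prod,
      Measure.prod_prod]
    simp
  simp [Measure.real, this]

theorem fubini_box (F : ℂ → ℂ → ℝ) (S T : Set ℂ) :
    ∫ z in S ×ˢ T ×ˢ box 1, F z.1 z.2.1 = ∫ z in S ×ˢ T, F z.1 z.2 := by
  have he : MeasurePreserving (MeasurableEquiv.prodAssoc : (ℂ × ℂ) × ℂ ≃ᵐ ℂ × ℂ × ℂ)
      volume volume := measurePreserving_prodAssoc volume volume volume
  have h1 := he.setIntegral_preimage_emb MeasurableEquiv.prodAssoc.measurableEmbedding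
    (fun z => F z.1 z.2.1) (S ×ˢ T ×ˢ box 1)
  rw [← h1]
  have h2 : (MeasurableEquiv.prodAssoc : (ℂ × ℂ) × ℂ ≃ᵐ ℂ × ℂ × ℂ) ⁻¹' (S ×ˢ T ×ˢ box 1) =
      (S ×ˢ T) ×ˢ box 1 := by
    ext z
    simp [MeasurableEquiv.prodAssoc, and_assoc]
  rw [h2]
  have h3 : ∫ z in (S ×ˢ T) ×ˢ box 1, F z.1.1 z.1.2 * 1 =
      (∫ z in S ×ˢ T, F z.1 z.2) * ∫ _ in box 1, (1 : ℝ) :=
    setIntegral_prod_mul (fun z : ℂ × ℂ => F z.1 z.2) (fun _ => (1 : ℝ)) (S ×ˢ T) (box 1)
  rw [volume_box, mul_one] at h3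
  rw [← h3]
  simp only [mul_one]
  rfl

end MValsAux

open MValsAux

theorem fibVol_metricG (A : GData B) (D : MetricData B) {g : HermitianMetric 4 (presM B).Mfd}
    (hg : ∀ i, ∀ y ∈ chU (Sum.inl i : Ix B),
      ((presM B).ofMetric g).g (Sum.inl i) y = A.gReg D i y) (σ : B.Sp) {w : ℂ}
    (h1 : 1 / 8 ≤ ‖w‖) (h2 : ‖w‖ < 1 / 2) :
    fibVol (locG g (0, 0, σ)) w = ∫ z in fundE ×ˢ fundE, A.S z.1 z.2 ^ 2 := by
  have hPw : A.P < Complex.normSq w := by
    rw [Complex.normSq_eq_norm_sq]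
    have := A.P_lt
    nlinarith
  have hcen : cen ((0, 0, σ) : Qt B) = 0 := by
    ext i
    fin_cases i <;> simp [cen]
  have key : ∀ z : ℂ × ℂ × ℂ, ((locG g (0, 0, σ) ![z.1, z.2.1, w, z.2.2]).adjugate 2 2).re =
      A.S z.1 z.2.1 ^ 2 := by
    intro z
    set y : V 4 := ![z.1, z.2.1, w, z.2.2] with hy
    have y0 : y 0 = z.1 := rfl
    have y1 : y 1 = z.2.1 := rfl
    have y2 : y 2 = w := rfl
    have hmem : y ∈ chU (Sum.inl (B.ch σ) : Ix B) := by
      rw [mem_chU_inl]
      constructor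
      · rw [B.D_ch, mem_ball_zero_iff, y2]; exact h2
      · rintro ⟨τ, h3, _⟩
        have h4 : B.p (B.ch σ) w = B.p (B.ch τ) 0 := h3
        obtain ⟨_, h5⟩ := p_ch_inj (by rw [mem_ball_zero_iff]; exact h2) zero_mem_half h4
        rw [h5, norm_zero] at h1
        norm_num at h1
    have h6 : locG g (0, 0, σ) y = A.gReg D (B.ch σ) y := by
      unfold locG
      rw [hcen, zero_add]
      exact hg _ _ hmem
    have h7 : levi (fun w => ((SF A.ψ (posA (B.ch σ) w) : ℝ) : ℂ)) y = 0 := by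
      have hc2 : Continuous fun w' : V 4 => w' 2 := continuous_apply 2
      have ev1 : ∀ᶠ w' in 𝓝 y, ‖w' 2‖ < 1 / 2 := by
        apply (hc2.norm.continuousAt).eventually (Iio_mem_nhds _)
        show ‖y 2‖ < 1 / 2
        rw [y2]; exact h2
      have ev2 : ∀ᶠ w' in 𝓝 y, A.P < Complex.normSq (w' 2) := by
        apply ((Complex.continuous_normSq.comp hc2).continuousAt).eventually (Ioi_mem_nhds _)
        show A.P < Complex.normSq (y 2)
        rw [y2]; exact hPw
      have hev : (fun w => ((SF A.ψ (posA (B.ch σ) w) : ℝ) : ℂ)) =ᶠ[𝓝 y] fun _ => 0 := by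
        filter_upwards [ev1, ev2] with w' a1 a2
        rw [SF_zero_of_large A σ a1 a2]; simp
      rw [levi_congr hev]
      ext j k
      exact MValsAux.levi_zero y j k
    rw [h6]
    unfold GData.gReg
    rw [h7, add_zero, Matrix.adjugate_diagonal, y0, y1]
    rw [Matrix.diagonal_apply_eq]
    have he : (Finset.univ.erase 2 : Finset (Fin 4)) = {0, 1, 3} := by decide
    rw [he, Finset.prod_insert (by decide), Finset.prod_insert (by decide),
      Finset.prod_singleton]
    simp [sq]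
  unfold fibVol
  simp_rw [key]
  exact fubini_box (fun a b => A.S a b ^ 2) fundE fundE

theorem flux_metricG (A : GData B) (D : MetricData B) {g : HermitianMetric 4 (presM B).Mfd}
    (hg : ∀ i, ∀ y ∈ chU (Sum.inl i : Ix B),
      ((presM B).ofMetric g).g (Sum.inl i) y = A.gReg D i y) {q : Qt B} (hq : Spec q)
    {f : ℝ → ℝ} (hf : IsCut f (A.pp q)) :
    flux f (locG g q) = Real.pi ^ 3 / 2 * A.τ q ^ 2 := by
  have hprof := A.prof q hq
  have hpp : 0 < A.pp q := by
    have h1 := A.p_lt q hq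
    have h2 := hprof.q_pos
    have h3 := hprof.q_lt
    linarith
  rw [← flux_radial (ro_pos q) hprof.τ_pos hprof.q_pos (A.p_lt q hq) hprof.smooth hprof.eq_self
    hprof.F_smooth hprof.eq hf]
  have hS : MeasurableSet {y : V 4 | 0 < E3 y ∧ y 3 ∈ box 1} := by
    have hE : Measurable E3 := RadialAux.contDiff_E3.continuous.measurable
    have hbox : MeasurableSet (box 1) := by
      unfold box
      exact (Complex.measurable_re measurableSet_Ico).inter
        (Complex.measurable_im measurableSet_Ico)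
    have hm3 : Measurable fun y : V 4 => y 3 := measurable_pi_apply 3
    have hS3 : MeasurableSet {y : V 4 | y 3 ∈ box 1} := hm3 hbox
    exact (hE measurableSet_Ioi).inter hS3
  unfold flux
  congr 1
  refine setIntegral_congr_fun hS fun y hy => ?_
  have h0 : 0 < E3 y := hy.1
  by_cases h1 : E3 y < A.pp q
  · have h64 : E3 y < 1 / 64 := by
      have := A.pp_le q hq
      have := A.P_lt
      linarith
    have h2 : locG g q y = levi (fun w => ((A.φ q (E3 w) + Complex.normSq (w 3) : ℝ) : ℂ)) y := by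
      unfold locG
      rw [hg _ _ (mem_near hq h0 h64), gReg_near A D hq h0 h1]
    simp only [h2]
  · have h2 : ∀ j k, levi (fun w => ((f (Real.log (E3 w)) : ℝ) : ℂ)) y j k = 0 := by
      intro j k
      obtain ⟨L, hL1, hL2⟩ := hf.right
      have hlog : L < Real.log (E3 y) :=
        lt_of_lt_of_le hL1 (Real.log_le_log hpp (not_lt.1 h1))
      have hc : ContinuousAt (fun w : V 4 => Real.log (E3 w)) y :=
        (RadialAux.contDiff_E3.continuous.continuousAt).log h0.ne'
      have hev : (fun w => ((f (Real.log (E3 w)) : ℝ) : ℂ)) =ᶠ[𝓝 y] fun _ => 0 := by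
        filter_upwards [hc.eventually (Ioi_mem_nhds hlog)] with w hw
        rw [hL2 _ hw]; simp
      rw [levi_congr hev]
      exact MValsAux.levi_zero y j k
    simp only [h2, mul_zero, Finset.sum_const_zero]

end

end GK
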