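import Pool.Agent.GK.Space

/-! # Module GFun: the function `G^{1/2}` concentrated near the lattice points -/

open scoped ContDiff Topology ComplexOrder
open MeasureTheory

namespace GK

noncomputable section

namespace GF

/-- special values -/
def T : Set ℂ := {s | 2 * (2 * xi - 1) * s ∈ Eis}

/-- square distance -/
def dq (z s : ℂ × ℂ) : ℝ := Complex.normSq (z.1 - s.1) + Complex.normSq (z.2 - s.2)

theorem dq_nonneg (z s : ℂ × ℂ) : 0 ≤ dq z s :=
  add_nonneg (Complex.normSq_nonneg _) (Complex.normSq_nonneg _)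

theorem sqrt_mem : (2 * (2 * xi - 1) : ℂ) ∈ Eis := ⟨-2, 4, by push_cast; ring⟩

theorem Eis_sub_T {l : ℂ} (hl : l ∈ Eis) : l ∈ T := Eis_mul sqrt_mem hl

theorem norm_lt_of_normSq {w : ℂ} (h : Complex.normSq w < 1 / 64) : ‖w‖ < 1 / 8 := by
  rw [Complex.normSq_eq_norm_sq] at h
  nlinarith [norm_nonneg w]

theorem T_sep {s s' z : ℂ} (h : s ∈ T) (h' : s' ∈ T) (hz : Complex.normSq (z - s) < 1 / 64)
    (hz' : Complex.normSq (z - s') < 1 / 64) : s = s' := by
  apply special_sep h h'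
  have e : s - s' = (z - s') - (z - s) := by ring
  rw [e]
  have h1 := norm_lt_of_normSq hz
  have h2 := norm_lt_of_normSq hz'
  calc _ ≤ ‖z - s'‖ + ‖z - s‖ := norm_sub_le _ _
    _ < _ := by linarith

theorem TT_sep {s s' z : ℂ × ℂ} (h1 : s.1 ∈ T) (h2 : s.2 ∈ T) (h1' : s'.1 ∈ T) (h2' : s'.2 ∈ T)
    (hz : dq z s < 1 / 64) (hz' : dq z s' < 1 / 64) : s = s' := by
  unfold dq at hz hz'
  have a1 := Complex.normSq_nonneg (z.1 - s.1)
  have a2 := Complex.normSq_nonneg (z.2 - s.2)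
  have a1' := Complex.normSq_nonneg (z.1 - s'.1)
  have a2' := Complex.normSq_nonneg (z.2 - s'.2)
  exact Prod.ext (T_sep (z := z.1) h1 h1' (by linarith) (by linarith))
    (T_sep (z := z.2) h2 h2' (by linarith) (by linarith))

open Classical in
/-- the bump function -/
def bf (β1 β2 : ℝ → ℝ) (z : ℂ × ℂ) : ℝ :=
  if h : ∃ s : ℂ × ℂ, s.1 ∈ T ∧ s.2 ∈ T ∧ dq z s < 1 / 64 then
    if h.choose.1 ∈ Eis ∧ h.choose.2 ∈ Eis then β1 (dq z h.choose) else β2 (dq z h.choose) else 0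

open Classical in
theorem bf_eq (β1 β2 : ℝ → ℝ) {z s : ℂ × ℂ} (h1 : s.1 ∈ T) (h2 : s.2 ∈ T)
    (h : dq z s < 1 / 64) :
    bf β1 β2 z = if s.1 ∈ Eis ∧ s.2 ∈ Eis then β1 (dq z s) else β2 (dq z s) := by
  have hex : ∃ s : ℂ × ℂ, s.1 ∈ T ∧ s.2 ∈ T ∧ dq z s < 1 / 64 := ⟨s, h1, h2, h⟩
  have hs : hex.choose = s :=
    TT_sep hex.choose_spec.1 hex.choose_spec.2.1 h1 h2 hex.choose_spec.2.2 h
  rw [bf, dif_pos hex, hs]

theorem bf_of_not (β1 β2 : ℝ → ℝ) {z : ℂ × ℂ}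
    (h : ¬ ∃ s : ℂ × ℂ, s.1 ∈ T ∧ s.2 ∈ T ∧ dq z s < 1 / 64) : bf β1 β2 z = 0 := by
  rw [bf, dif_neg h]

theorem bf_mem {β1 β2 : ℝ → ℝ} (h1 : ∀ x, 0 ≤ β1 x ∧ β1 x ≤ 1) (h2 : ∀ x, 0 ≤ β2 x ∧ β2 x ≤ 1)
    (z : ℂ × ℂ) : 0 ≤ bf β1 β2 z ∧ bf β1 β2 z ≤ 1 := by
  classical
  unfold bf
  split_ifs with h h'
  · exact h1 _
  · exact h2 _
  · exact ⟨le_refl _, zero_le_one⟩

theorem dq_aff {u0 u1 l0 l1 : ℂ} (h0 : Complex.normSq u0 = 1) (h1 : Complex.normSq u1 = 1)
    (z s : ℂ × ℂ) : dq (u0 * z.1 + l0, u1 * z.2 + l1) (u0 * s.1 + l0, u1 * s.2 + l1) = dq z s := by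
  unfold dq
  simp only
  have e0 : u0 * z.1 + l0 - (u0 * s.1 + l0) = u0 * (z.1 - s.1) := by ring
  have e1 : u1 * z.2 + l1 - (u1 * s.2 + l1) = u1 * (z.2 - s.2) := by ring
  rw [e0, e1, Complex.normSq_mul, Complex.normSq_mul, h0, h1, one_mul, one_mul]

theorem T_aff {u l s : ℂ} (hu : u ∈ Eis) (hl : l ∈ Eis) (hs : s ∈ T) : u * s + l ∈ T := by
  show 2 * (2 * xi - 1) * (u * s + l) ∈ Eis
  have e : 2 * (2 * xi - 1) * (u * s + l) = u * (2 * (2 * xi - 1) * s) +
      2 * (2 * xi - 1) * l := by ring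
  rw [e]
  exact Eis.add_mem (Eis_mul hu hs) (Eis_mul sqrt_mem hl)

theorem Eis_aff {u v l s : ℂ} (hu : u ∈ Eis) (hv : v ∈ Eis) (huv : v * u = 1) (hl : l ∈ Eis) :
    u * s + l ∈ Eis ↔ s ∈ Eis := by
  constructor
  · intro h
    have h1 := Eis_mul hv (Eis.sub_mem h hl)
    have e : v * (u * s + l - l) = s := by linear_combination s * huv
    rwa [e] at h1
  · intro h
    exact Eis.add_mem (Eis_mul hu h) hl

theorem bf_aff (β1 β2 : ℝ → ℝ) {u0 u1 v0 v1 l0 l1 : ℂ} (hu0 : u0 ∈ Eis) (hu1 : u1 ∈ Eis)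
    (hv0 : v0 ∈ Eis) (hv1 : v1 ∈ Eis) (h0 : v0 * u0 = 1) (h1 : v1 * u1 = 1)
    (n0 : Complex.normSq u0 = 1) (n1 : Complex.normSq u1 = 1) (hl0 : l0 ∈ Eis) (hl1 : l1 ∈ Eis)
    (z : ℂ × ℂ) : bf β1 β2 (u0 * z.1 + l0, u1 * z.2 + l1) = bf β1 β2 z := by
  classical
  by_cases h : ∃ s : ℂ × ℂ, s.1 ∈ T ∧ s.2 ∈ T ∧ dq z s < 1 / 64
  · obtain ⟨s, hs1, hs2, hs⟩ := h
    rw [bf_eq β1 β2 hs1 hs2 hs]
    have h2 : (u0 * s.1 + l0, u1 * s.2 + l1).1 ∈ T := T_aff hu0 hl0 hs1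
    have h3 : (u0 * s.1 + l0, u1 * s.2 + l1).2 ∈ T := T_aff hu1 hl1 hs2
    have h4 := dq_aff (l0 := l0) (l1 := l1) n0 n1 z s
    rw [bf_eq β1 β2 h2 h3 (by rw [h4]; exact hs), h4]
    simp only [Eis_aff hu0 hv0 h0 hl0, Eis_aff hu1 hv1 h1 hl1]
  · rw [bf_of_not β1 β2 h]
    apply bf_of_not
    rintro ⟨s, hs1, hs2, hs⟩
    apply h
    refine ⟨(v0 * s.1 + -(v0 * l0), v1 * s.2 + -(v1 * l1)),
      T_aff hv0 (Eis.neg_mem (Eis_mul hv0 hl0)) hs1,
      T_aff hv1 (Eis.neg_mem (Eis_mul hv1 hl1)) hs2, ?_⟩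
    have h4 := dq_aff (l0 := l0) (l1 := l1) n0 n1 z
      (v0 * s.1 + -(v0 * l0), v1 * s.2 + -(v1 * l1))
    have e0 : u0 * (v0 * s.1 + -(v0 * l0)) + l0 = s.1 := by
      linear_combination (s.1 - l0) * h0
    have e1 : u1 * (v1 * s.2 + -(v1 * l1)) + l1 = s.2 := by
      linear_combination (s.2 - l1) * h1
    simp only [e0, e1] at h4
    rw [← h4]
    exact hs

theorem continuous_dq (s : ℂ × ℂ) : Continuous fun z : ℂ × ℂ => dq z s := by
  unfold dq
  exact (Complex.continuous_normSq.comp (by fun_prop)).add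
    (Complex.continuous_normSq.comp (by fun_prop))

theorem normSq_contDiff : ContDiff ℝ ∞ (fun z : ℂ => Complex.normSq z) := by
  have : (fun z : ℂ => Complex.normSq z) = fun z : ℂ => Complex.reCLM z * Complex.reCLM z +
      Complex.imCLM z * Complex.imCLM z := by
    funext z
    simp [Complex.normSq_apply]
  rw [this]
  exact (Complex.reCLM.contDiff.mul Complex.reCLM.contDiff).add
    (Complex.imCLM.contDiff.mul Complex.imCLM.contDiff)

theorem contDiff_dq (s : ℂ × ℂ) : ContDiff ℝ ∞ fun z : ℂ × ℂ => dq z s := by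
  unfold dq
  exact (normSq_contDiff.comp (contDiff_fst.sub contDiff_const)).add
    (normSq_contDiff.comp (contDiff_snd.sub contDiff_const))

theorem normSq_add_le {η : ℝ} (hη : 0 < η) (a b : ℂ) :
    Complex.normSq (a + b) ≤ (1 + η) * Complex.normSq a + (1 + 1 / η) * Complex.normSq b := by
  simp only [Complex.normSq_apply, Complex.add_re, Complex.add_im]
  have h1 : 0 ≤ (η * a.re - b.re) ^ 2 / η := by positivity
  have h2 : 0 ≤ (η * a.im - b.im) ^ 2 / η := by positivity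
  have e1 : (η * a.re - b.re) ^ 2 / η = η * a.re ^ 2 - 2 * a.re * b.re + b.re ^ 2 * (1 / η) := by
    field_simp
    ring
  have e2 : (η * a.im - b.im) ^ 2 / η = η * a.im ^ 2 - 2 * a.im * b.im + b.im ^ 2 * (1 / η) := by
    field_simp
    ring
  nlinarith [h1, h2, e1, e2]

theorem dq_add_le {η : ℝ} (hη : 0 < η) (z w s : ℂ × ℂ) :
    dq z s ≤ (1 + η) * dq w s + (1 + 1 / η) * dq z w := by
  unfold dq
  have h1 := normSq_add_le hη (w.1 - s.1) (z.1 - w.1)
  have h2 := normSq_add_le hη (w.2 - s.2) (z.2 - w.2)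
  have e1 : w.1 - s.1 + (z.1 - w.1) = z.1 - s.1 := by ring
  have e2 : w.2 - s.2 + (z.2 - w.2) = z.2 - s.2 := by ring
  rw [e1] at h1
  rw [e2] at h2
  linarith

theorem bf_contDiff {β1 β2 : ℝ → ℝ} (h1 : ContDiff ℝ ∞ β1) (h2 : ContDiff ℝ ∞ β2) {p : ℝ}
    (hp0 : 0 < p) (hp : p < 1 / 64) (z1 : ∀ x, p ≤ x → β1 x = 0) (z2 : ∀ x, p ≤ x → β2 x = 0) :
    ContDiff ℝ ∞ (bf β1 β2) := by
  classical
  rw [contDiff_iff_contDiffAt]
  intro z
  by_cases h : ∃ s : ℂ × ℂ, s.1 ∈ T ∧ s.2 ∈ T ∧ dq z s < 1 / 64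
  · obtain ⟨s, hs1, hs2, hs⟩ := h
    have hev : ∀ᶠ w in 𝓝 z, dq w s < 1 / 64 :=
      (continuous_dq s).continuousAt.eventually_lt continuousAt_const hs
    by_cases hE : s.1 ∈ Eis ∧ s.2 ∈ Eis
    · have hc : ContDiffAt ℝ ∞ (fun w => β1 (dq w s)) z :=
        (h1.comp (contDiff_dq s)).contDiffAt
      refine hc.congr_of_eventuallyEq ?_
      filter_upwards [hev] with w hw
      rw [bf_eq β1 β2 hs1 hs2 hw, if_pos hE]
    · have hc : ContDiffAt ℝ ∞ (fun w => β2 (dq w s)) z :=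
        (h2.comp (contDiff_dq s)).contDiffAt
      refine hc.congr_of_eventuallyEq ?_
      filter_upwards [hev] with w hw
      rw [bf_eq β1 β2 hs1 hs2 hw, if_neg hE]
  · push Not at h
    set η : ℝ := ((1 / 64) / p - 1) / 2 with hη
    have hη0 : 0 < η := by
      have : 1 < (1 / 64) / p := by rw [lt_div_iff₀ hp0]; linarith
      rw [hη]
      linarith
    have hηp : (1 + η) * p < 1 / 64 := by
      have : (1 / 64) / p * p = 1 / 64 := div_mul_cancel₀ _ hp0.ne'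
      rw [hη]
      nlinarith
    have hev : ∀ᶠ w in 𝓝 z, (1 + 1 / η) * dq z w < 1 / 64 - (1 + η) * p := by
      have hc : Continuous fun w : ℂ × ℂ => (1 + 1 / η) * dq z w := by
        unfold dq
        exact continuous_const.mul ((Complex.continuous_normSq.comp (by fun_prop)).add
          (Complex.continuous_normSq.comp (by fun_prop)))
      refine hc.continuousAt.eventually_lt continuousAt_const ?_
      simp only [dq, sub_self, map_zero, add_zero, mul_zero]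
      linarith
    have hc : ContDiffAt ℝ ∞ (fun _ : ℂ × ℂ => (0 : ℝ)) z := contDiffAt_const
    refine hc.congr_of_eventuallyEq ?_
    filter_upwards [hev] with w hw
    by_cases h' : ∃ s : ℂ × ℂ, s.1 ∈ T ∧ s.2 ∈ T ∧ dq w s < 1 / 64
    · obtain ⟨s, hs1, hs2, hs⟩ := h'
      have h3 : p ≤ dq w s := by
        by_contra hlt
        push Not at hlt
        have h4 := h s hs1 hs2
        have h5 := dq_add_le hη0 z w s
        have h6 : (1 + η) * dq w s ≤ (1 + η) * p :=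
          mul_le_mul_of_nonneg_left hlt.le (by linarith)
        linarith
      rw [bf_eq β1 β2 hs1 hs2 hs, z1 _ h3, z2 _ h3, ite_self]
    · exact bf_of_not β1 β2 h'

/-- cut-off -/
def cu (a b x : ℝ) : ℝ := 1 - Real.smoothTransition ((x - a) / (b - a))

theorem cu_contDiff (a b : ℝ) : ContDiff ℝ ∞ (cu a b) := by
  unfold cu
  exact contDiff_const.sub (Real.smoothTransition.contDiff.comp
    ((contDiff_id.sub contDiff_const).div_const _))

theorem cu_mem (a b x : ℝ) : 0 ≤ cu a b x ∧ cu a b x ≤ 1 := by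
  unfold cu
  have h1 := Real.smoothTransition.nonneg ((x - a) / (b - a))
  have h2 := Real.smoothTransition.le_one ((x - a) / (b - a))
  constructor <;> linarith

theorem cu_one {a b x : ℝ} (hab : a < b) (hx : x ≤ a) : cu a b x = 1 := by
  unfold cu
  rw [Real.smoothTransition.zero_of_nonpos, sub_zero]
  exact div_nonpos_of_nonpos_of_nonneg (by linarith) (by linarith)

theorem cu_zero {a b x : ℝ} (hab : a < b) (hx : b ≤ x) : cu a b x = 0 := by
  unfold cu
  rw [Real.smoothTransition.one_of_one_le, sub_self]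
  rw [le_div_iff₀ (by linarith)]
  linarith

/-! ### measures -/

theorem linInd : LinearIndependent ℝ ![(1 : ℂ), xi] := by
  rw [LinearIndependent.pair_iff]
  intro s t h
  have him := congrArg Complex.im h
  have hre := congrArg Complex.re h
  simp [xi_re, xi_im] at him hre
  subst him
  simp at hre
  exact ⟨hre, rfl⟩

/-- the basis `1, ξ` -/
def bE : Module.Basis (Fin 2) ℝ ℂ :=
  basisOfLinearIndependentOfCardEqFinrank linInd (by simp [Complex.finrank_real_complex])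

theorem bE_apply (i : Fin 2) : bE i = ![(1 : ℂ), xi] i := by
  unfold bE
  rw [coe_basisOfLinearIndependentOfCardEqFinrank]

theorem bE_sum (z : ℂ) : z = ((bE.repr z 0 : ℝ) : ℂ) + ((bE.repr z 1 : ℝ) : ℂ) * xi := by
  have := bE.sum_repr z
  rw [Fin.sum_univ_two, bE_apply, bE_apply] at this
  simp only [Matrix.cons_val_zero, Matrix.cons_val_one, Complex.real_smul, mul_one] at this
  exact this.symm

theorem fundE_eq : fundE = ZSpan.fundamentalDomain bE := by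
  ext z
  rw [ZSpan.mem_fundamentalDomain, Fin.forall_fin_two]
  constructor
  · rintro ⟨a, b, ha, hb, rfl⟩
    have key : bE.repr (a + b * xi : ℂ) = Finsupp.single 0 a + Finsupp.single 1 b := by
      have e : (a + b * xi : ℂ) = a • bE 0 + b • bE 1 := by
        rw [bE_apply, bE_apply]; simp
      rw [e, map_add, map_smul, map_smul, Module.Basis.repr_self, Module.Basis.repr_self]
      simp
    rw [key]
    simpa using ⟨ha, hb⟩
  · rintro ⟨h0, h1⟩
    exact ⟨_, _, h0, h1, bE_sum z⟩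

/-- the basis of the product -/
def bEE : Module.Basis (Fin 2 ⊕ Fin 2) ℝ (ℂ × ℂ) := bE.prod bE

theorem fundEE_eq : fundE ×ˢ fundE = ZSpan.fundamentalDomain bEE := by
  ext z
  rw [ZSpan.mem_fundamentalDomain, Set.mem_prod, fundE_eq, ZSpan.mem_fundamentalDomain,
    ZSpan.mem_fundamentalDomain, Sum.forall]
  unfold bEE
  simp only [Module.Basis.prod_repr_inl, Module.Basis.prod_repr_inr]

theorem mem_span {l0 l1 : ℂ} (h0 : l0 ∈ Eis) (h1 : l1 ∈ Eis) :
    (l0, l1) ∈ (Submodule.span ℤ (Set.range bEE)).toAddSubgroup := by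
  rw [Submodule.mem_toAddSubgroup]
  have hb : ∀ i, bEE i ∈ Submodule.span ℤ (Set.range bEE) := fun i =>
    Submodule.subset_span ⟨i, rfl⟩
  have e0 : bEE (Sum.inl 0) = (1, 0) := by
    unfold bEE
    ext <;> simp [bE_apply]
  have e1 : bEE (Sum.inl 1) = (xi, 0) := by
    unfold bEE
    ext <;> simp [bE_apply]
  have e2 : bEE (Sum.inr 0) = (0, 1) := by
    unfold bEE
    ext <;> simp [bE_apply]
  have e3 : bEE (Sum.inr 1) = (0, xi) := by
    unfold bEE
    ext <;> simp [bE_apply]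
  obtain ⟨a, b, rfl⟩ := h0
  obtain ⟨c, d, rfl⟩ := h1
  have : (((a : ℂ) + b * xi, (c : ℂ) + d * xi) : ℂ × ℂ) = a • bEE (Sum.inl 0) +
      b • bEE (Sum.inl 1) + (c • bEE (Sum.inr 0) + d • bEE (Sum.inr 1)) := by
    rw [e0, e1, e2, e3]
    ext <;> simp
  rw [this]
  exact Submodule.add_mem _ (Submodule.add_mem _ (Submodule.smul_mem _ _ (hb _))
    (Submodule.smul_mem _ _ (hb _))) (Submodule.add_mem _ (Submodule.smul_mem _ _ (hb _))
    (Submodule.smul_mem _ _ (hb _)))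

/-- volume of the ball in `ℂ²` -/
theorem volume_ball {p : ℝ} (hp : 0 < p) :
    volume {z : ℂ × ℂ | dq z 0 < p} = ENNReal.ofReal (Real.pi ^ 2 / 2 * p ^ 2) := by
  have h1 := Complex.volume_sum_rpow_lt (ι := Fin 2) (p := 2) (by norm_num) (Real.sqrt p)
  have h2 : {x : Fin 2 → ℂ | (∑ i, ‖x i‖ ^ (2 : ℝ)) ^ (1 / (2 : ℝ)) < Real.sqrt p} =
      (MeasurableEquiv.finTwoArrow : (Fin 2 → ℂ) ≃ᵐ ℂ × ℂ) ⁻¹' {z : ℂ × ℂ | dq z 0 < p} := by
    ext x
    simp only [Set.mem_ofPred_eq, Set.mem_preimage, Fin.sum_univ_two, Real.rpow_two]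
    rw [← Real.sqrt_eq_rpow, Real.sqrt_lt_sqrt_iff (by positivity)]
    simp [dq, Complex.normSq_eq_norm_sq, MeasurableEquiv.finTwoArrow]
  have h3 := (volume_preserving_finTwoArrow ℂ).measure_preimage_equiv {z : ℂ × ℂ | dq z 0 < p}
  rw [← h3, ← h2, h1]
  rw [← ENNReal.ofReal_pow (Real.sqrt_nonneg p), ← ENNReal.ofReal_mul (by positivity)]
  congr 1
  have g1 : Real.Gamma (2 / 2 + 1) = 1 := by
    rw [show (2 / 2 + 1 : ℝ) = 2 by norm_num, Real.Gamma_two]
  have g2 : Real.Gamma (2 * (Fintype.card (Fin 2) : ℝ) / 2 + 1) = 2 := by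
    rw [Fintype.card_fin, show (2 * ((2 : ℕ) : ℝ) / 2 + 1 : ℝ) = ((2 : ℕ) : ℝ) + 1 by norm_num,
      Real.Gamma_nat_eq_factorial]
    norm_num
  rw [g1, g2, Fintype.card_fin, show 2 * 2 = 2 * 2 from rfl, pow_mul, Real.sq_sqrt hp.le]
  ring

theorem measure_A1 {p : ℝ} (hp : 0 < p) :
    volume ({z : ℂ × ℂ | ∃ s : ℂ × ℂ, s.1 ∈ Eis ∧ s.2 ∈ Eis ∧ dq z s < p} ∩ fundE ×ˢ fundE) ≤
      ENNReal.ofReal (Real.pi ^ 2 / 2 * p ^ 2) := by
  have hc : Countable (Submodule.span ℤ (Set.range bEE)).toAddSubgroup :=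
    inferInstanceAs (Countable (Submodule.span ℤ (Set.range bEE)))
  have hfd := ZSpan.isAddFundamentalDomain' bEE (volume : Measure (ℂ × ℂ))
  haveI hli : (volume : Measure (ℂ × ℂ)).IsAddLeftInvariant := by
    rw [Measure.volume_eq_prod]
    infer_instance
  have h1 := hfd.measure_eq_tsum {z : ℂ × ℂ | dq z 0 < p}
  rw [← volume_ball hp, h1, fundEE_eq]
  refine le_trans (measure_mono ?_) (measure_iUnion_le _)
  rintro z ⟨⟨s, hs1, hs2, hs⟩, hz⟩
  refine Set.mem_iUnion.2 ⟨⟨s, mem_span hs1 hs2⟩, ⟨z - s, ?_, ?_⟩, hz⟩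
  · show dq (z - s) 0 < p
    simpa [dq] using hs
  · show s + (z - s) = z
    abel

theorem T_countable : T.Countable := by
  have hE : (Eis : Set ℂ).Countable := by
    have : (Eis : Set ℂ) = Set.range fun x : ℤ × ℤ => (x.1 : ℂ) + x.2 * xi := by
      ext z
      constructor
      · rintro ⟨a, b, rfl⟩
        exact ⟨(a, b), rfl⟩
      · rintro ⟨x, rfl⟩
        exact ⟨x.1, x.2, rfl⟩
    rw [this]
    exact Set.countable_range _
  have hne : (2 * (2 * xi - 1) : ℂ) ≠ 0 := by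
    intro h0
    have := normSq_sqrt3
    rw [h0] at this
    simp at this
  exact hE.preimage_of_injOn (f := fun s => 2 * (2 * xi - 1) * s)
    (fun x _ y _ hxy => mul_left_cancel₀ hne hxy)

theorem isOpen_near (P : ℂ × ℂ → Prop) (r : ℝ) :
    IsOpen {z : ℂ × ℂ | ∃ s : ℂ × ℂ, P s ∧ dq z s < r} := by
  have : {z : ℂ × ℂ | ∃ s : ℂ × ℂ, P s ∧ dq z s < r} =
      ⋃ s : {s : ℂ × ℂ // P s}, {z | dq z s.1 < r} := by
    ext z
    simp
  rw [this]
  exact isOpen_iUnion fun s => isOpen_lt (continuous_dq _) continuous_const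

theorem measurable_F : MeasurableSet (fundE ×ˢ fundE) := by
  rw [fundEE_eq]
  exact ZSpan.fundamentalDomain_measurableSet bEE

theorem finite_F : volume (fundE ×ˢ fundE) < ⊤ := by
  rw [fundEE_eq]
  exact (ZSpan.fundamentalDomain_isBounded bEE).measure_lt_top

theorem exists_small {δ : ENNReal} (hδ : 0 < δ) : ∃ r : ℝ, 0 < r ∧ r < 1 / 64 ∧
    volume ({z : ℂ × ℂ | ∃ s : ℂ × ℂ, (s.1 ∈ T ∧ s.2 ∈ T) ∧ dq z s < r} ∩ fundE ×ˢ fundE) < δ := by
  set W : ℕ → Set (ℂ × ℂ) := fun n =>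
    {z : ℂ × ℂ | ∃ s : ℂ × ℂ, (s.1 ∈ T ∧ s.2 ∈ T) ∧ dq z s < 1 / ((n : ℝ) + 65)} ∩ fundE ×ˢ fundE
    with hW
  have hm : ∀ n, NullMeasurableSet (W n) volume := fun n =>
    ((isOpen_near _ _).measurableSet.inter measurable_F).nullMeasurableSet
  have hanti : Antitone W := by
    intro m n hmn z hz
    obtain ⟨⟨s, hs, hd⟩, hF⟩ := hz
    refine ⟨⟨s, hs, lt_of_lt_of_le hd ?_⟩, hF⟩
    have : (m : ℝ) ≤ n := by exact_mod_cast hmn
    gcongr
  have hfin : ∃ n, volume (W n) ≠ ⊤ :=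
    ⟨0, ((measure_mono Set.inter_subset_right).trans_lt finite_F).ne⟩
  have hlim := tendsto_measure_iInter_atTop hm hanti hfin
  haveI hna : NullSingletonClass (volume : Measure (ℂ × ℂ)) := by
    rw [Measure.volume_eq_prod]
    infer_instance
  have hzero : volume (⋂ n, W n) = 0 := by
    refine measure_mono_null (t := T ×ˢ T) ?_ ((T_countable.prod T_countable).measure_zero _)
    intro z hz
    rw [Set.mem_iInter] at hz
    obtain ⟨⟨s, hs, hd⟩, _⟩ := hz 0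
    have hd' : dq z s < 1 / 64 := lt_trans hd (by norm_num)
    have hall : ∀ n : ℕ, dq z s < 1 / ((n : ℝ) + 65) := by
      intro n
      obtain ⟨⟨s', hs', hdn⟩, _⟩ := hz n
      have hdn' : dq z s' < 1 / 64 := by
        refine lt_of_lt_of_le hdn ?_
        have : (0 : ℝ) ≤ n := n.cast_nonneg
        gcongr
        linarith
      have : s' = s := TT_sep hs'.1 hs'.2 hs.1 hs.2 hdn' hd'
      rwa [this] at hdn
    have hle : dq z s ≤ 0 := by
      have hl : Filter.Tendsto (fun n : ℕ => 1 / ((n : ℝ) + 65)) Filter.atTop (𝓝 0) := by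
        have := tendsto_one_div_add_atTop_nhds_zero_nat (𝕜 := ℝ)
        refine squeeze_zero (fun n => by positivity) (fun n => ?_) this
        gcongr
        norm_num
      exact ge_of_tendsto' hl fun n => (hall n).le
    have a1 := Complex.normSq_nonneg (z.1 - s.1)
    have a2 := Complex.normSq_nonneg (z.2 - s.2)
    unfold dq at hle
    have b1 : z.1 = s.1 := sub_eq_zero.1 (Complex.normSq_eq_zero.1 (by linarith))
    have b2 : z.2 = s.2 := sub_eq_zero.1 (Complex.normSq_eq_zero.1 (by linarith))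
    exact ⟨by rw [b1]; exact hs.1, by rw [b2]; exact hs.2⟩
  rw [hzero] at hlim
  obtain ⟨n, hn⟩ := (hlim.eventually_lt_const hδ).exists
  refine ⟨1 / ((n : ℝ) + 65), by positivity, ?_, hn⟩
  have : (0 : ℝ) ≤ n := n.cast_nonneg
  gcongr
  linarith

end GF

open GF

theorem exists_GFun {N : ℕ} (hN : 0 < N) (h6 : N ∣ 6) {p₁ p₁' ε : ℝ} (h0 : 0 < p₁)
    (h1 : p₁ < p₁') (h2 : p₁' < 1 / 64) (hε : 0 < ε) :
    ∃ (p₂ : ℝ) (S : ℂ → ℂ → ℝ), 0 < p₂ ∧ p₂ < p₁ ∧ ContDiff ℝ ∞ (fun z : ℂ × ℂ => S z.1 z.2) ∧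
      (∀ z0 z1, 0 < S z0 z1) ∧ (∀ l ∈ Eis, ∀ z0 z1, S (z0 + l) z1 = S z0 z1) ∧
      (∀ l ∈ Eis, ∀ z0 z1, S z0 (z1 + l) = S z0 z1) ∧
      (∀ (k : ℕ) (a b : ℤ) (z0 z1 : ℂ), S (mult N k a * z0) (mult N k b * z1) = S z0 z1) ∧
      (∀ l0 ∈ Eis, ∀ l1 ∈ Eis, ∀ z0 z1, Complex.normSq (z0 - l0) + Complex.normSq (z1 - l1) < p₁ →
        S z0 z1 = 1) ∧
      (∀ s0 s1 : ℂ, 2 * (2 * xi - 1) * s0 ∈ Eis → 2 * (2 * xi - 1) * s1 ∈ Eis → ∀ z0 z1,
        Complex.normSq (z0 - s0) + Complex.normSq (z1 - s1) < p₂ → S z0 z1 = 1) ∧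
      ∫ z in fundE ×ˢ fundE, S z.1 z.2 ^ 2 ≤ Real.pi ^ 2 / 2 * p₁' ^ 2 + ε := by
  classical
  -- parameters
  obtain ⟨r, hr0, hr64, hr⟩ := exists_small (δ := ENNReal.ofReal (ε / 2)) (by simpa using hε)
  set p₂ : ℝ := min p₁ r / 3 with hp₂
  have hp₂0 : 0 < p₂ := by
    have : 0 < min p₁ r := lt_min h0 hr0
    rw [hp₂]; linarith
  have hp₂1 : 2 * p₂ < p₁ := by
    have : min p₁ r ≤ p₁ := min_le_left _ _
    rw [hp₂]; linarith [lt_min h0 hr0]
  have hp₂r : 2 * p₂ < r := by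
    have : min p₁ r ≤ r := min_le_right _ _
    rw [hp₂]; linarith [lt_min h0 hr0]
  set μF : ℝ := (volume (fundE ×ˢ fundE)).toReal with hμF
  have hμF0 : 0 ≤ μF := ENNReal.toReal_nonneg
  set e : ℝ := min 1 (ε / (2 * (μF + 1))) with he
  have he0 : 0 < e := lt_min one_pos (by positivity)
  have he1 : e ≤ 1 := min_le_left _ _
  have he2 : e ^ 2 * μF ≤ ε / 2 := by
    have h3 : e ≤ ε / (2 * (μF + 1)) := min_le_right _ _
    have h4 : e * (μF + 1) ≤ ε / 2 := by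
      have : ε / (2 * (μF + 1)) * (μF + 1) = ε / 2 := by
        field_simp
      calc e * (μF + 1) ≤ ε / (2 * (μF + 1)) * (μF + 1) := by gcongr
        _ = _ := this
    have h5 : e ^ 2 ≤ e := by nlinarith
    nlinarith
  set β1 := cu p₁ p₁' with hβ1
  set β2 := cu p₂ (2 * p₂) with hβ2
  set b : ℂ × ℂ → ℝ := bf β1 β2 with hb
  have hbs : ContDiff ℝ ∞ b := by
    refine bf_contDiff (cu_contDiff _ _) (cu_contDiff _ _) (p := p₁') (by linarith) h2 ?_ ?_
    · intro x hx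
      exact cu_zero h1 hx
    · intro x hx
      exact cu_zero (by linarith) (by linarith)
  have hbm : ∀ z, 0 ≤ b z ∧ b z ≤ 1 := bf_mem (fun x => cu_mem _ _ x) (fun x => cu_mem _ _ x)
  refine ⟨p₂, fun z0 z1 => e + (1 - e) * b (z0, z1), hp₂0, by linarith, ?_, ?_, ?_, ?_, ?_, ?_,
    ?_, ?_⟩
  · exact contDiff_const.add (contDiff_const.mul hbs)
  · intro z0 z1
    have := (hbm (z0, z1)).1
    have : 0 ≤ (1 - e) * b (z0, z1) := mul_nonneg (by linarith) this
    linarith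
  · intro l hl z0 z1
    have := bf_aff β1 β2 (u0 := 1) (u1 := 1) (v0 := 1) (v1 := 1) (l0 := l) (l1 := 0) one_mem_Eis
      one_mem_Eis one_mem_Eis one_mem_Eis (by ring) (by ring) (by simp) (by simp) hl Eis.zero_mem
      (z0, z1)
    simp only [one_mul, add_zero] at this
    simp only [hb]
    rw [this]
  · intro l hl z0 z1
    have := bf_aff β1 β2 (u0 := 1) (u1 := 1) (v0 := 1) (v1 := 1) (l0 := 0) (l1 := l) one_mem_Eis
      one_mem_Eis one_mem_Eis one_mem_Eis (by ring) (by ring) (by simp) (by simp) Eis.zero_mem hl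
      (z0, z1)
    simp only [one_mul, add_zero] at this
    simp only [hb]
    rw [this]
  · intro k a c z0 z1
    have hn : ∀ a, Complex.normSq (mult N k a) = 1 := fun a => by
      rw [Complex.normSq_eq_norm_sq, norm_mult, one_pow]
    have := bf_aff β1 β2 (u0 := mult N k a) (u1 := mult N k c)
      (v0 := mult N ((N - 1) * k) (-a)) (v1 := mult N ((N - 1) * k) (-c)) (l0 := 0) (l1 := 0)
      (mult_mem hN h6 _ _) (mult_mem hN h6 _ _) (mult_mem hN h6 _ _) (mult_mem hN h6 _ _)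
      (mult_inv hN k a) (mult_inv hN k c) (hn a) (hn c) Eis.zero_mem Eis.zero_mem (z0, z1)
    simp only [add_zero] at this
    simp only [hb]
    rw [this]
  · intro l0 hl0 l1 hl1 z0 z1 hz
    have h3 : b (z0, z1) = 1 := by
      rw [hb, bf_eq β1 β2 (s := (l0, l1)) (Eis_sub_T hl0) (Eis_sub_T hl1)
        (show dq (z0, z1) (l0, l1) < 1 / 64 by unfold dq; simp only; linarith), if_pos ⟨hl0, hl1⟩]
      exact cu_one h1 hz.le
    simp only [h3]
    ring
  · intro s0 s1 hs0 hs1 z0 z1 hz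
    have h3 : b (z0, z1) = 1 := by
      rw [hb, bf_eq β1 β2 (s := (s0, s1)) hs0 hs1
        (show dq (z0, z1) (s0, s1) < 1 / 64 by unfold dq; simp only; linarith)]
      have hz' : dq (z0, z1) (s0, s1) < p₂ := hz
      split_ifs
      · exact cu_one h1 (by linarith)
      · exact cu_one (by linarith) hz'.le
    simp only [h3]
    ring
  · -- the integral
    have hsupp : {z | b z ≠ 0} ∩ fundE ×ˢ fundE ⊆
        ({z : ℂ × ℂ | ∃ s : ℂ × ℂ, s.1 ∈ Eis ∧ s.2 ∈ Eis ∧ dq z s < p₁'} ∩ fundE ×ˢ fundE) ∪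
        ({z : ℂ × ℂ | ∃ s : ℂ × ℂ, (s.1 ∈ T ∧ s.2 ∈ T) ∧ dq z s < r} ∩ fundE ×ˢ fundE) := by
      rintro z ⟨hz, hF⟩
      have hz' : b z ≠ 0 := hz
      by_cases h : ∃ s : ℂ × ℂ, s.1 ∈ T ∧ s.2 ∈ T ∧ dq z s < 1 / 64
      · obtain ⟨s, hs1, hs2, hs⟩ := h
        rw [hb, bf_eq β1 β2 hs1 hs2 hs] at hz'
        split_ifs at hz' with hE
        · left
          refine ⟨⟨s, hE.1, hE.2, ?_⟩, hF⟩
          by_contra hcon
          exact hz' (cu_zero h1 (not_lt.1 hcon))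
        · right
          refine ⟨⟨s, ⟨hs1, hs2⟩, ?_⟩, hF⟩
          by_contra hcon
          exact hz' (cu_zero (by linarith) (by linarith [not_lt.1 hcon]))
      · exact absurd (bf_of_not β1 β2 h) hz'
    have hmb : MeasurableSet {z | b z ≠ 0} :=
      (isOpen_ne_fun hbs.continuous continuous_const).measurableSet
    have hμb : (volume ({z | b z ≠ 0} ∩ fundE ×ˢ fundE)).toReal ≤
        Real.pi ^ 2 / 2 * p₁' ^ 2 + ε / 2 := by
      have h3 : volume ({z | b z ≠ 0} ∩ fundE ×ˢ fundE) ≤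
          ENNReal.ofReal (Real.pi ^ 2 / 2 * p₁' ^ 2) + ENNReal.ofReal (ε / 2) :=
        (measure_mono hsupp).trans ((measure_union_le _ _).trans
          (add_le_add (measure_A1 (by linarith)) hr.le))
      rw [← ENNReal.ofReal_add (by positivity) (by positivity)] at h3
      exact ENNReal.toReal_le_of_le_ofReal (by positivity) h3
    have hintA : Integrable (fun _ : ℂ × ℂ => e ^ 2) (volume.restrict (fundE ×ˢ fundE)) :=
      integrableOn_const finite_F.ne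
    have hintB : Integrable (fun z : ℂ × ℂ => Set.indicator {z | b z ≠ 0}
        (fun _ => (1 : ℝ)) z) (volume.restrict (fundE ×ˢ fundE)) := by
      have : IntegrableOn (fun _ : ℂ × ℂ => (1 : ℝ)) (fundE ×ˢ fundE) :=
        integrableOn_const finite_F.ne
      exact this.indicator hmb
    have hint : Integrable (fun z : ℂ × ℂ => e ^ 2 + Set.indicator {z | b z ≠ 0}
        (fun _ => (1 : ℝ)) z) (volume.restrict (fundE ×ˢ fundE)) := hintA.add hintB
    have hle : ∫ z in fundE ×ˢ fundE, (e + (1 - e) * b (z.1, z.2)) ^ 2 ≤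
        ∫ z in fundE ×ˢ fundE, (e ^ 2 + Set.indicator {z | b z ≠ 0} (fun _ => (1 : ℝ)) z) := by
      refine integral_mono_of_nonneg (Filter.Eventually.of_forall fun z => sq_nonneg _) hint
        (Filter.Eventually.of_forall fun z => ?_)
      show (e + (1 - e) * b z) ^ 2 ≤ e ^ 2 + Set.indicator {z | b z ≠ 0} (fun _ => (1 : ℝ)) z
      by_cases hz : b z = 0
      · rw [hz, Set.indicator_of_notMem (by simpa using hz)]
        simp
      · rw [Set.indicator_of_mem (show z ∈ {z | b z ≠ 0} from hz)]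
        obtain ⟨h3, h4⟩ := hbm z
        have h5 : 0 ≤ e + (1 - e) * b z := by
          have : 0 ≤ (1 - e) * b z := mul_nonneg (by linarith) h3
          linarith
        have h6 : e + (1 - e) * b z ≤ 1 := by nlinarith
        have h7 : (e + (1 - e) * b z) ^ 2 ≤ 1 := by nlinarith
        nlinarith [sq_nonneg e]
    refine hle.trans ?_
    rw [integral_add hintA hintB]
    rw [setIntegral_const, integral_indicator hmb, Measure.restrict_restrict hmb,
      setIntegral_const, smul_eq_mul, smul_eq_mul, mul_one]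
    have h8 : volume.real (fundE ×ˢ fundE) = μF := rfl
    have h9 : volume.real ({z | b z ≠ 0} ∩ fundE ×ˢ fundE) =
      (volume ({z | b z ≠ 0} ∩ fundE ×ˢ fundE)).toReal := rfl
    rw [h8, h9]
    linarith

end

end GK
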