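import Pool.Agent.GK.MDefs
import Pool.Agent.GK.GFun
import Pool.Agent.GK.Radial

/-! # Module Params: existence of the parameters -/

open scoped ContDiff Topology ComplexOrder
open MeasureTheory

namespace GK

noncomputable section

namespace PA

variable {B : BaseCurve}

theorem isMn_act (γ : Gam) {q : Qt B} (h : IsMn q) : IsMn (actQ γ q) := by
  obtain ⟨h1, h2, h3⟩ := h
  refine ⟨?_, ?_, ?_⟩
  · show B.main (B.sσ^[γ.k] q.2.2)
    rw [main_iter h1]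
    exact h1
  · exact Eis.add_mem (Eis_mul (mult_mem B.N_pos B.N_dvd _ _) h2) γ.h0
  · exact Eis.add_mem (Eis_mul (mult_mem B.N_pos B.N_dvd _ _) h3) γ.h1

theorem isMn_act_iff (γ : Gam) (q : Qt B) : IsMn (actQ γ q) ↔ IsMn q := by
  refine ⟨fun h => ?_, isMn_act γ⟩
  have := isMn_act (Gam.inv B γ) h
  rwa [actQ_inv] at this

theorem isMn_act_eq (γ : Gam) (q : Qt B) : IsMn (actQ γ q) = IsMn q :=
  propext (isMn_act_iff γ q)

theorem exists_isProfile (r : ℕ) (hr : 0 < r) {τ p : ℝ} (hτ : 0 < τ) (hp : τ < p) :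
    ∃ φ F : ℝ → ℝ, ∃ q : ℝ, IsProfile r τ p q φ F := by
  obtain ⟨φ, F, q, h1, h2, h3, h4, h5, h6, h7, h8⟩ := exists_profile r hr hτ hp
  exact ⟨φ, F, q, ⟨hτ, h1, h2, h3, h4, h5, h6, h7, h8⟩⟩

theorem exists_gen (B : BaseCurve) (S : ℂ → ℂ → ℝ)
    (S_smooth : ContDiff ℝ ∞ (fun z : ℂ × ℂ => S z.1 z.2))
    (S_pos : ∀ z0 z1, 0 < S z0 z1)
    (S_per0 : ∀ l ∈ Eis, ∀ z0 z1, S (z0 + l) z1 = S z0 z1)
    (S_per1 : ∀ l ∈ Eis, ∀ z0 z1, S z0 (z1 + l) = S z0 z1)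
    (S_mult : ∀ (k : ℕ) (a b : ℤ) (z0 z1 : ℂ),
      S (mult B.N k a * z0) (mult B.N k b * z1) = S z0 z1)
    {τf pf ppf : Prop → ℝ} (hτ : ∀ m, 0 < τf m) (hp : ∀ m, τf m < pf m)
    (hpp : ∀ m, pf m < ppf m) {P : ℝ} (hP0 : 0 < P) (hP : P < 1 / 64) (hle : ∀ m, ppf m ≤ P)
    (hone : ∀ q : Qt B, Spec q → ∀ z0 z1,
      Complex.normSq (z0 - q.1) + Complex.normSq (z1 - q.2.1) < ppf (IsMn q) → S z0 z1 = 1) :
    ∃ A : GData B, A.S = S ∧ (∀ q, A.τ q = τf (IsMn q)) ∧ ∀ q, A.pp q = ppf (IsMn q) := by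
  have key : ∀ (r : ℕ) (m : Prop), 0 < r →
      ∃ φ F : ℝ → ℝ, ∃ q : ℝ, IsProfile r (τf m) (pf m) q φ F :=
    fun r m hr => exists_isProfile r hr (hτ m) (hp m)
  choose! φ F qs hprof using key
  refine ⟨{ S := S, S_smooth := S_smooth, S_pos := S_pos, S_per0 := S_per0, S_per1 := S_per1,
            S_mult := S_mult, τ := fun q => τf (IsMn q), p := fun q => pf (IsMn q),
            pp := fun q => ppf (IsMn q), qs := fun q => qs (ro q) (IsMn q),
            φ := fun q => φ (ro q) (IsMn q), F := fun q => F (ro q) (IsMn q),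
            prof := fun q _ => hprof _ _ (ro_pos q), p_lt := fun q _ => hpp _, P := P,
            P_pos := hP0, P_lt := hP, pp_le := fun q _ => hle _,
            φ_act := fun γ q => by
              rw [ro_act, isMn_act_eq],
            one := hone }, rfl, fun _ => rfl, fun _ => rfl⟩

/-- cut-off -/
def cf (b l : ℝ) : ℝ := (l - b) * GF.cu (b - 1) b l

theorem cf_smooth (b : ℝ) : ContDiff ℝ ∞ (cf b) := by
  unfold cf
  exact (contDiff_id.sub contDiff_const).mul (GF.cu_contDiff _ _)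

theorem cf_zero {b l : ℝ} (h : b ≤ l) : cf b l = 0 := by
  unfold cf
  rw [GF.cu_zero (by linarith) h, mul_zero]

theorem cf_left {b l : ℝ} (h : l < b - 1) : cf b l = l + -b := by
  unfold cf
  rw [GF.cu_one (by linarith) h.le, mul_one]
  ring

theorem isCut_cf {b ρ : ℝ} (h : b < Real.log ρ) : IsCut (cf b) ρ :=
  ⟨cf_smooth b, ⟨-b, b - 1, fun _ hl => cf_left hl⟩, ⟨b, h, fun _ hl => cf_zero hl.le⟩⟩

/-- a family of cut-offs -/
theorem isCutFam (B : BaseCurve) {ppf : Prop → ℝ} (hpp : ∀ m, 0 < ppf m) {P : ℝ} (hP0 : 0 < P)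
    (hP : P < 1 / 64) (hle : ∀ m, ppf m ≤ P) :
    IsCutFam (fun q : Qt B => cf (Real.log (ppf (IsMn q)) - 1)) P ∧
      ∀ q : Qt B, IsCut (cf (Real.log (ppf (IsMn q)) - 1)) (ppf (IsMn q)) := by
  refine ⟨⟨fun q _ => isCut_cf ?_, fun q _ x hx => cf_zero ?_, fun γ q => ?_, hP0, hP⟩,
    fun q => isCut_cf (by linarith)⟩
  · have : Real.log (ppf (IsMn q)) ≤ Real.log (1 / 64) :=
      Real.log_le_log (hpp _) ((hle _).trans hP.le)
    linarith
  · have : Real.log (ppf (IsMn q)) ≤ Real.log x := Real.log_le_log (hpp _) ((hle _).trans hx)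
    linarith
  · rw [isMn_act_eq]

end PA

open PA

/-- data for a Kähler metric -/
theorem exists_params_kahler (B : BaseCurve) : ∃ A : GData B, ∀ z0 z1, A.S z0 z1 = 1 := by
  obtain ⟨A, hA, _⟩ := exists_gen B (fun _ _ => 1) contDiff_const (fun _ _ => one_pos)
    (fun _ _ _ _ => rfl) (fun _ _ _ _ => rfl) (fun _ _ _ _ _ => rfl) (τf := fun _ => 1 / 400)
    (pf := fun _ => 1 / 200) (ppf := fun _ => 1 / 100) (fun _ => by norm_num)
    (fun _ => by norm_num) (fun _ => by norm_num) (P := 1 / 100) (by norm_num) (by norm_num)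
    (fun _ => le_refl _) (fun _ _ _ _ _ => rfl)
  exact ⟨A, fun z0 z1 => by rw [hA]⟩

/-- data for the Gauduchon metrics -/
theorem exists_params (B : BaseCurve) {τ₁ p₁ p₁' ε δ : ℝ} (h0 : 0 < τ₁) (h1 : τ₁ < p₁)
    (h2 : p₁ < p₁') (h3 : p₁' < 1 / 64) (hε : 0 < ε) (hδ : 0 < δ) :
    ∃ A : GData B, (∀ q, Spec q → IsMn q → A.τ q = τ₁) ∧
      (∀ q, Spec q → ¬ IsMn q → A.τ q ≤ δ) ∧
      (∫ z in fundE ×ˢ fundE, A.S z.1 z.2 ^ 2 ≤ Real.pi ^ 2 / 2 * p₁' ^ 2 + ε) ∧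
      ∃ (f : Qt B → ℝ → ℝ) (P : ℝ), IsCutFam f P ∧ ∀ q, Spec q → IsCut (f q) (A.pp q) := by
  classical
  obtain ⟨p₂, S, hp₂0, hp₂1, hS1, hS2, hS3, hS4, hS5, hS6, hS7, hS8⟩ :=
    exists_GFun B.N_pos B.N_dvd (h0.trans h1) h2 h3 hε
  set τ₂ : ℝ := min δ (p₂ / 4) with hτ₂
  have hτ₂0 : 0 < τ₂ := lt_min hδ (by linarith)
  have hτ₂1 : τ₂ ≤ p₂ / 4 := min_le_right _ _
  have hτ₂2 : τ₂ ≤ δ := min_le_left _ _
  set τf : Prop → ℝ := fun m => if m then τ₁ else τ₂ with hτf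
  set pf : Prop → ℝ := fun m => if m then (τ₁ + p₁) / 2 else p₂ / 2 with hpf
  set ppf : Prop → ℝ := fun m => if m then p₁ else p₂ with hppf
  have a1 : ∀ m, 0 < τf m := by
    intro m
    simp only [hτf]
    split_ifs <;> linarith
  have a2 : ∀ m, τf m < pf m := by
    intro m
    simp only [hτf, hpf]
    split_ifs <;> linarith
  have a3 : ∀ m, pf m < ppf m := by
    intro m
    simp only [hppf, hpf]
    split_ifs <;> linarith
  have a4 : ∀ m, ppf m ≤ p₁ := by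
    intro m
    simp only [hppf]
    split_ifs <;> linarith
  have a5 : ∀ m, 0 < ppf m := by
    intro m
    simp only [hppf]
    split_ifs <;> linarith
  obtain ⟨A, hA1, hA2, hA3⟩ := exists_gen B S hS1 hS2 hS3 hS4 hS5 a1 a2 a3
    (P := p₁) (by linarith) (by linarith) a4 (fun q hq z0 z1 hz => by
      by_cases hm : IsMn q
      · refine hS6 q.1 hm.2.1 q.2.1 hm.2.2 z0 z1 ?_
        have : ppf (IsMn q) = p₁ := by simp only [hppf, if_pos hm]
        rwa [this] at hz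
      · refine hS7 q.1 q.2.1 hq.special.1 hq.special.2 z0 z1 ?_
        have : ppf (IsMn q) = p₂ := by simp only [hppf, if_neg hm]
        rwa [this] at hz)
  obtain ⟨hc1, hc2⟩ := isCutFam B a5 (P := p₁) (by linarith) (by linarith) a4
  refine ⟨A, ?_, ?_, ?_, _, p₁, hc1, ?_⟩
  · intro q _ hm
    rw [hA2]
    simp only [hτf, if_pos hm]
  · intro q _ hm
    rw [hA2]
    simp only [hτf, if_neg hm]
    exact hτ₂2
  · rw [hA1]
    exact hS8
  · intro q _
    rw [hA3]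
    exact hc2 q

/-- families of cut-offs exist -/
theorem exists_cutFam (B : BaseCurve) : ∃ (f : Qt B → ℝ → ℝ) (P : ℝ), IsCutFam f P := by
  obtain ⟨hc1, _⟩ := isCutFam B (ppf := fun _ => 1 / 100) (fun _ => by norm_num) (P := 1 / 100)
    (by norm_num) (by norm_num) (fun _ => le_refl _)
  exact ⟨_, _, hc1⟩

end

end GK
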