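import Pool.Agent.GK.SpaceM

/-!
# Module SpaceConn: `M(𝔅)` is connected
-/

open scoped ContDiff Topology
open MeasureTheory

namespace GK

noncomputable section

/-- values of the first coordinate away from the special ones -/
def gen0 : Set ℂ := {z | 2 * (2 * xi - 1) * z ∉ Eis}

theorem two_sqrt_ne_zero : (2 * (2 * xi - 1) : ℂ) ≠ 0 := by
  intro h0
  have := normSq_sqrt3
  rw [h0] at this
  simp at this

theorem countable_gen0_compl : (gen0ᶜ : Set ℂ).Countable := by
  have h1 : (gen0ᶜ : Set ℂ) ⊆ Set.range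
      (fun ab : ℤ × ℤ => ((ab.1 : ℂ) + ab.2 * xi) / (2 * (2 * xi - 1))) := by
    intro z hz
    have hz' : 2 * (2 * xi - 1) * z ∈ Eis := by
      by_contra h
      exact hz h
    obtain ⟨a, b, hab⟩ := hz'
    refine ⟨(a, b), ?_⟩
    simp only
    rw [← hab]
    exact mul_div_cancel_left₀ z two_sqrt_ne_zero
  exact (Set.countable_range _).mono h1

theorem isPreconnected_gen0 : IsPreconnected gen0 := by
  have h := countable_gen0_compl.isConnected_compl_of_one_lt_rank
    (by rw [Complex.rank_real_complex]; exact Nat.one_lt_ofNat)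
  rw [compl_compl] at h
  exact h.isPreconnected

theorem dense_gen0 : Dense gen0 := by
  have h := countable_gen0_compl.dense_compl ℝ
  rwa [compl_compl] at h

variable {B : BaseCurve}

/-- regular points -/
def genA (B : BaseCurve) : Set (XA B) := {x | x.1 ∈ gen0}

theorem isPreconnected_genA : IsPreconnected (genA B) := by
  have h1 : genA B = gen0 ×ˢ (Set.univ : Set (ℂ × B.C × ℂ)) := by
    ext x
    simp [genA]
  rw [h1]
  exact isPreconnected_gen0.prod isPreconnected_univ

theorem not_specA_of_gen {x : XA B} (hx : x ∈ genA B) : ¬ SpecA x := by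
  rintro ⟨σ, _, h2⟩
  exact hx h2.special.1

/-- the map from the regular points to `M` -/
def toM (B : BaseCurve) (x : XA B) : (presM B).Mfd :=
  (presM B).proj (Sum.inl (B.p_surj x.2.2.1).choose)
    ![x.1, x.2.1, (B.p_surj x.2.2.1).choose_spec.choose, x.2.2.2]

theorem toM_eq {x : XA B} (hx : x ∈ genA B) {i : B.κ} {y : V 4} (hy : y 2 ∈ B.D i)
    (hxy : posA i y = x) : toM B x = (presM B).proj (Sum.inl i) y := by
  obtain ⟨h1, h2⟩ := (B.p_surj x.2.2.1).choose_spec.choose_spec
  have hpos : posA (B.p_surj x.2.2.1).choose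
      ![x.1, x.2.1, (B.p_surj x.2.2.1).choose_spec.choose, x.2.2.2] = x := by
    unfold posA
    refine Prod.ext rfl (Prod.ext rfl (Prod.ext ?_ rfl))
    exact h2
  unfold toM
  rw [proj_eq_iff, chπ_inl, chπ_inl, hpos, hxy]
  · refine ⟨h1, ?_⟩
    rw [hpos]
    exact not_specA_of_gen hx
  · refine ⟨hy, ?_⟩
    rw [hxy]
    exact not_specA_of_gen hx

theorem continuousOn_toM : ContinuousOn (toM B) (genA B) := by
  intro x₀ hx₀
  obtain ⟨i, w₀, hw₀, hc₀⟩ := B.p_surj x₀.2.2.1
  have hinv : ∀ c ∈ B.p i '' B.D i, ∃ w ∈ B.D i, B.p i w = c := fun c hc => hc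
  classical
  -- the local inverse of `p i`
  let g : B.C → ℂ := fun c => if h : c ∈ B.p i '' B.D i then (hinv c h).choose else 0
  have hg1 : ∀ c ∈ B.p i '' B.D i, g c ∈ B.D i ∧ B.p i (g c) = c := by
    intro c hc
    simp only [g, dif_pos hc]
    exact (hinv c hc).choose_spec
  have hopen : IsOpen (B.p i '' B.D i) := B.p_open i _ (B.isOpen_D i) subset_rfl
  have hmem : x₀.2.2.1 ∈ B.p i '' B.D i := ⟨w₀, hw₀, hc₀⟩
  have hg2 : ∀ w ∈ B.D i, g (B.p i w) = w := by
    intro w hw
    have h := hg1 (B.p i w) ⟨w, hw, rfl⟩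
    exact B.p_inj i h.1 hw h.2
  have hgc : ContinuousAt g x₀.2.2.1 := by
    rw [ContinuousAt, Filter.tendsto_def]
    intro T hT
    have hT' : T ∩ B.D i ∈ 𝓝 (g x₀.2.2.1) :=
      Filter.inter_mem hT ((B.isOpen_D i).mem_nhds (hg1 _ hmem).1)
    obtain ⟨W, hW1, hW2, hW3⟩ := mem_nhds_iff.1 hT'
    have hW4 : IsOpen (B.p i '' W) := B.p_open i W hW2 (fun w hw => (hW1 hw).2)
    refine Filter.mem_of_superset (hW4.mem_nhds ⟨g x₀.2.2.1, hW3, (hg1 _ hmem).2⟩) ?_
    rintro _ ⟨w, hw, rfl⟩
    show g (B.p i w) ∈ T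
    rw [hg2 w (hW1 hw).2]
    exact (hW1 hw).1
  have hcc : ContinuousAt (fun x : XA B => x.2.2.1) x₀ := by fun_prop
  have hgx : ContinuousAt (fun x : XA B => g x.2.2.1) x₀ :=
    ContinuousAt.comp (f := fun x : XA B => x.2.2.1) (g := g) hgc hcc
  have hφ : ContinuousAt (fun x : XA B => (![x.1, x.2.1, g x.2.2.1, x.2.2.2] : V 4)) x₀ := by
    rw [continuousAt_pi]
    intro k
    fin_cases k
    · show ContinuousAt (fun x : XA B => x.1) x₀
      fun_prop
    · show ContinuousAt (fun x : XA B => x.2.1) x₀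
      fun_prop
    · exact hgx
    · show ContinuousAt (fun x : XA B => x.2.2.2) x₀
      fun_prop
  have hpos : ∀ x : XA B, x.2.2.1 ∈ B.p i '' B.D i →
      posA i (![x.1, x.2.1, g x.2.2.1, x.2.2.2] : V 4) = x := by
    intro x hx
    unfold posA
    refine Prod.ext rfl (Prod.ext rfl (Prod.ext ?_ rfl))
    exact (hg1 _ hx).2
  have hU : (![x₀.1, x₀.2.1, g x₀.2.2.1, x₀.2.2.2] : V 4) ∈ (presM B).U (Sum.inl i) := by
    rw [presM_U]
    refine ⟨(hg1 _ hmem).1, ?_⟩
    rw [hpos _ hmem]
    exact not_specA_of_gen hx₀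
  have hproj : ContinuousAt ((presM B).proj (Sum.inl i))
      (![x₀.1, x₀.2.1, g x₀.2.2.1, x₀.2.2.2] : V 4) :=
    ((presM B).continuousOn_proj (Sum.inl i)).continuousAt
      (((presM B).isOpen_U (Sum.inl i)).mem_nhds hU)
  have hcomp : ContinuousAt (fun x : XA B => (presM B).proj (Sum.inl i)
      (![x.1, x.2.1, g x.2.2.1, x.2.2.2] : V 4)) x₀ :=
    ContinuousAt.comp (f := fun x : XA B => (![x.1, x.2.1, g x.2.2.1, x.2.2.2] : V 4))
      (g := (presM B).proj (Sum.inl i)) hproj hφ
  have hev : ∀ᶠ x in 𝓝 x₀, x.2.2.1 ∈ B.p i '' B.D i := hcc.eventually (hopen.mem_nhds hmem)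
  refine hcomp.continuousWithinAt.congr_of_eventuallyEq ?_ ?_
  · filter_upwards [self_mem_nhdsWithin, mem_nhdsWithin_of_mem_nhds hev] with x hx hx'
    exact toM_eq hx (hg1 _ hx').1 (hpos x hx')
  · exact toM_eq hx₀ (hg1 _ hmem).1 (hpos x₀ hmem)

theorem mem_closure_toM (p : (presM B).Mfd) : p ∈ closure (toM B '' genA B) := by
  obtain ⟨i, z, hz, rfl⟩ := (presM B).surj p
  have hz' : z ∈ chU i := hz
  have hcont : ContinuousAt ((presM B).proj i) z :=
    ((presM B).continuousOn_proj i).continuousAt (((presM B).isOpen_U i).mem_nhds hz)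
  have main : ∀ A : Set (V 4), Dense A → (∀ y ∈ chU i ∩ A, (presM B).proj i y ∈ toM B '' genA B) →
      (presM B).proj i z ∈ closure (toM B '' genA B) := by
    intro A hA h
    have h1 : z ∈ closure (chU i ∩ A) := hA.open_subset_closure_inter (isOpen_chU i) hz'
    have h2 := (hcont.continuousWithinAt (s := chU i ∩ A)).mem_closure_image h1
    refine closure_mono ?_ h2
    rintro _ ⟨y, hy, rfl⟩
    exact h y hy
  match i, hz, hz', hcont, main with
  | Sum.inl i, hz, hz', hcont, main =>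
    refine main {y | y 0 ∈ gen0} ?_ ?_
    · exact dense_gen0.preimage (isOpenMap_eval (X := fun _ : Fin 4 => ℂ) 0)
    · rintro y ⟨hy1, hy2⟩
      have hx : posA i y ∈ genA B := hy2
      exact ⟨posA i y, hx, toM_eq hx hy1.1 rfl⟩
  | Sum.inr (q, j), hz, hz', hcont, main =>
    refine main {u | u j.castSucc ≠ 0 ∧ u 0 ≠ 0} ?_ ?_
    · have hd : ∀ k : Fin 4, Dense {u : V 4 | u k ≠ 0} := by
        intro k
        have h1 : Dense ({0}ᶜ : Set ℂ) := dense_compl_singleton 0
        exact h1.preimage (isOpenMap_eval (X := fun _ : Fin 4 => ℂ) k)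
      have ho : IsOpen {u : V 4 | u 0 ≠ 0} := isOpen_ne_fun (continuous_apply 0) continuous_const
      exact (hd j.castSucc).inter_of_isOpen_right (hd 0) ho
    · rintro u ⟨hu1, hu2, hu3⟩
      have hq : Spec q := hu1.1
      obtain ⟨y, hE, hyj, hyu⟩ := exists_move2 hq hu1 hu2
      obtain ⟨m1, m2, m3⟩ := move2_mem hq hyj hE
      rw [hyu] at m1 m3
      have e1 : (presM B).proj (Sum.inr (q, j)) u = (presM B).proj (Sum.inl (B.ch q.2.2)) y :=
        (proj_eq_iff m1 m2).2 m3
      have hx0 : (y - cen q) 0 ≠ 0 := by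
        intro h0
        apply hu3
        rw [← hyu]
        by_cases hj : (0 : Fin 4) = j.castSucc
        · exfalso
          apply hyj
          rw [← hj]
          exact h0
        · unfold move2 excMap
          rw [if_neg hj, if_neg (by decide), h0, zero_div]
      have hn : ‖(y - cen q) 0‖ < 1 / 8 := norm_lt_eighth hE 0
      have hc : (y - cen q) 0 = y 0 - q.1 := by
        simp [cen]
      have hx : posA (B.ch q.2.2) y ∈ genA B := by
        intro hs
        apply hx0
        rw [hc]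
        have hs' : 2 * (2 * xi - 1) * y 0 ∈ Eis := hs
        have := special_sep hs' hq.special.1 (by rw [← hc]; linarith)
        rw [this, sub_self]
      refine ⟨posA (B.ch q.2.2) y, hx, ?_⟩
      rw [e1]
      exact toM_eq hx m2.1 rfl

theorem connectedSpace_M (B : BaseCurve) : ConnectedSpace (presM B).Mfd := by
  apply Pres.connectedSpace
  intro p q
  exact ⟨toM B '' genA B, isPreconnected_genA.image _ continuousOn_toM, mem_closure_toM p,
    mem_closure_toM q⟩

end

end GK
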