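import Pool.Agent.GK.TotalFormula
import Pool.Agent.GK.MetricG
import Pool.Agent.GK.MetricVals
import Pool.Agent.GK.Params
import Pool.Agent.GK.KeyFinal
import Pool.Agent.GK.BaseC6
import Pool.Agent.GK.BaseP1
import Pool.Agent.GK.BaseNormalise
import Pool.Agent.GK.SpaceConn

/-! # Both questions have a negative answer -/

open scoped ContDiff Manifold Topology ComplexOrder
open MeasureTheory

namespace GK

noncomputable section

variable {B : BaseCurve}

theorem isMn_zero {σ : B.Sp} (h : B.main σ) : IsMn ((0, 0, σ) : Qt B) :=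
  ⟨h, Eis.zero_mem, Eis.zero_mem⟩

theorem spec_zero {σ : B.Sp} (h : B.main σ) : Spec ((0, 0, σ) : Qt B) := Or.inl (isMn_zero h)

theorem spec_zero' (hB : ∀ σ, ¬ B.main σ → ∃ k, ¬ B.N ∣ k ∧ B.sσ^[k] σ = σ) (σ : B.Sp) :
    Spec ((0, 0, σ) : Qt B) := by
  by_cases h : B.main σ
  · exact spec_zero h
  · obtain ⟨k, hk, hs⟩ := hB σ h
    refine Or.inr ⟨k, hk, hs, ?_, ?_⟩ <;> simp [Eis.zero_mem]

/-- the key inequality for all special fibres -/
theorem exists_vol (hB : ∀ σ, ¬ B.main σ → ∃ k, ¬ B.N ∣ k ∧ B.sσ^[k] σ = σ)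
    {g : HermitianMetric 4 (presM B).Mfd} (hg : g.IsKahler) :
    ∃ W : B.Sp → ℝ, (∀ σ, 0 < W σ) ∧ (∀ (σ : B.Sp) (w : ℂ), 1 / 8 ≤ ‖w‖ → ‖w‖ < 1 / 2 →
      fibVol (locG g (0, 0, σ)) w = W σ) ∧
      ∀ (σ : B.Sp) f, IsCut f (1 / 64) → flux f (locG g (0, 0, σ)) ≤ Real.pi / 2 * W σ := by
  have h := fun σ : B.Sp => key_inequality (localKahler hg (spec_zero' hB σ))
  choose W h1 h2 h3 using h
  exact ⟨W, h1, fun σ w hw hw' => h2 σ w (by linarith) hw', h3⟩

theorem ro_dvd_six (q : Qt B) : ro q ∣ 6 :=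
  (Dvd.intro_left _ (k0_mul_ro q)).trans B.N_dvd

theorem ro_le_three (hN : B.N = 6)
    (hB : ∀ σ, ¬ B.main σ → B.sσ σ ≠ σ) {q : Qt B} (hm : ¬ IsMn q) : ro q ≤ 3 := by
  have h6 := ro_dvd_six q
  have hle : ro q ≤ 6 := Nat.le_of_dvd (by norm_num) h6
  by_contra hlt
  push Not at hlt
  have hro : ro q = 6 := by
    generalize ro q = r at *
    interval_cases r
    · omega
    · omega
    · rfl
  have hk := k0_mul_ro q
  rw [hro, hN] at hk
  have hk1 : k0 q = 1 := by omega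
  have hs := stab_k0 q
  rw [hk1] at hs
  obtain ⟨h1, h2, h3⟩ := hs
  have hmain : B.main q.2.2 := by
    by_contra hc
    exact hB _ hc h1
  have hz : zetaN B.N = xi := by
    rw [hN, zetaN_eq (by norm_num) (dvd_refl 6)]; norm_num
  rw [pow_one, hz, ← xi_sq] at h2 h3
  have hx : xi ^ 4 * xi ^ 2 = 1 := by
    rw [← pow_add]; exact xi_pow6
  have e2 : q.1 = xi ^ 4 * (xi ^ 2 * q.1) := by rw [← mul_assoc, hx, one_mul]
  have e3 : q.2.1 = xi ^ 4 * (xi ^ 2 * q.2.1) := by rw [← mul_assoc, hx, one_mul]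
  refine hm ⟨hmain, ?_, ?_⟩
  · rw [e2]; exact Eis_mul (xi_pow_mem 4) h2
  · rw [e3]; exact Eis_mul (xi_pow_mem 4) h3

theorem R3_nonempty (R : Reps B) : R.R3.Nonempty := by
  obtain ⟨σ, hσ⟩ := B.exists_main
  exact ⟨σ, (R.mem_R3 σ).2 hσ⟩

/-- (a): every Kähler metric has negative total scalar curvature -/
theorem kahler_a (hN : B.N = 6) (D : MetricData B) (hD : D.ord = 2)
    (hB : ∀ σ, ¬ B.main σ → B.sσ σ ≠ σ ∧ ∃ k, ¬ B.N ∣ k ∧ B.sσ^[k] σ = σ)
    {g : HermitianMetric 4 (presM B).Mfd} (hg : g.IsKahler) : g.total < 0 := by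
  obtain ⟨R⟩ := exists_reps B
  obtain ⟨f, P, hf⟩ := exists_cutFam B
  obtain ⟨W, hW0, hW, hWf⟩ := exists_vol (fun σ h => (hB σ h).2) hg
  rw [total_formula R D hf g hg.isGauduchon hW]
  have h1 : ∑ σ ∈ R.R3, (-16 * Real.pi * D.ord / B.N * W σ +
      16 * ((B.N : ℝ) - 3) / B.N * flux (f (0, 0, σ)) (locG g (0, 0, σ))) < 0 := by
    refine Finset.sum_neg (fun σ hσ => ?_) (R3_nonempty R)
    have hm := (R.mem_R3 σ).1 hσ
    have hfl := hWf σ (f (0, 0, σ)) (hf.cut _ (spec_zero hm))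
    have hp := mul_pos Real.pi_pos (hW0 σ)
    rw [hN, hD]
    push_cast
    nlinarith
  have h2 : ∑ q ∈ R.R2, 16 * ((ro q : ℝ) - 3) / ro q * flux (f q) (locG g q) ≤ 0 := by
    refine Finset.sum_nonpos fun q hq => ?_
    obtain ⟨hs, hm, ht⟩ := R.R2_spec q hq
    have h3 := flux_nonneg (localExc hg hs ht) (hf.cut q hs)
    have h4 : (ro q : ℝ) ≤ 3 := by exact_mod_cast ro_le_three hN (fun σ h => (hB σ h).1) hm
    have h5 : (0 : ℝ) < ro q := by exact_mod_cast ro_pos q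
    have h6 : 16 * ((ro q : ℝ) - 3) / ro q ≤ 0 :=
      div_nonpos_of_nonpos_of_nonneg (by linarith) h5.le
    exact mul_nonpos_of_nonpos_of_nonneg h6 h3
  linarith

theorem R2_empty (hN : B.N = 1) (R : Reps B) : R.R2 = ∅ := by
  rw [Finset.eq_empty_iff_forall_notMem]
  intro q hq
  obtain ⟨hs, hm, _⟩ := R.R2_spec q hq
  rw [spec_iff] at hs
  rcases hs with hs | hs
  · exact hm hs
  · have := k0_mul_ro q
    rw [hN] at this
    have h2 := Nat.eq_one_of_mul_eq_one_left this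
    omega

/-- (b): every Kähler metric has non-negative total scalar curvature -/
theorem kahler_b (hN : B.N = 1) (D : MetricData B) (hD : D.ord = -1)
    (hB : ∀ σ, B.main σ) {g : HermitianMetric 4 (presM B).Mfd} (hg : g.IsKahler) :
    0 ≤ g.total := by
  obtain ⟨R⟩ := exists_reps B
  obtain ⟨f, P, hf⟩ := exists_cutFam B
  obtain ⟨W, hW0, hW, hWf⟩ := exists_vol (fun σ h => absurd (hB σ) h) hg
  rw [total_formula R D hf g hg.isGauduchon hW, R2_empty hN R, Finset.sum_empty, add_zero]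
  refine Finset.sum_nonneg fun σ hσ => ?_
  have hfl := hWf σ (f (0, 0, σ)) (hf.cut _ (spec_zero (hB σ)))
  rw [hN, hD]
  push_cast
  linarith

theorem exists_kahler (D : MetricData B) :
    ∃ g : HermitianMetric 4 (presM B).Mfd, g.IsKahler := by
  obtain ⟨A, hA⟩ := exists_params_kahler B
  obtain ⟨G, _, _, h3⟩ := exists_metricG A D
  exact ⟨G.toMetric, G.isKahler (h3 hA)⟩

/-- the Gauduchon metrics and their total scalar curvature -/
theorem exists_gaud (R : Reps B) (D : MetricData B) {τ₁ p₁ p₁' ε δ : ℝ} (h0 : 0 < τ₁)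
    (h1 : τ₁ < p₁) (h2 : p₁ < p₁') (h3 : p₁' < 1 / 64) (hε : 0 < ε) (hδ : 0 < δ) :
    ∃ (g : HermitianMetric 4 (presM B).Mfd) (I : ℝ) (τ : Qt B → ℝ), g.IsGauduchon ∧
      I ≤ Real.pi ^ 2 / 2 * p₁' ^ 2 + ε ∧ (∀ q ∈ R.R2, 0 < τ q ∧ τ q ≤ δ) ∧
      g.total = ∑ σ ∈ R.R3, (-16 * Real.pi * D.ord / B.N * I +
        16 * ((B.N : ℝ) - 3) / B.N * (Real.pi ^ 3 / 2 * τ₁ ^ 2)) +
      ∑ q ∈ R.R2, 16 * ((ro q : ℝ) - 3) / ro q * (Real.pi ^ 3 / 2 * τ q ^ 2) := by
  obtain ⟨A, hA1, hA2, hA3, f, P, hf, hcut⟩ := exists_params B h0 h1 h2 h3 hε hδ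
  obtain ⟨G, hG1, hG2, _⟩ := exists_metricG A D
  have hgau : G.toMetric.IsGauduchon := G.isGauduchon hG2
  have hg : ∀ i, ∀ y ∈ chU (Sum.inl i : Ix B),
      ((presM B).ofMetric G.toMetric).g (Sum.inl i) y = A.gReg D i y := by
    intro i y hy
    rw [Pres.ofMetric_toMetric G (i := (Sum.inl i : Ix B)) hy]
    exact hG1 i y hy
  refine ⟨G.toMetric, ∫ z in fundE ×ˢ fundE, A.S z.1 z.2 ^ 2, A.τ, hgau, hA3, ?_, ?_⟩
  · intro q hq
    obtain ⟨hs, hm, _⟩ := R.R2_spec q hq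
    exact ⟨(A.prof q hs).τ_pos, hA2 q hs hm⟩
  · rw [total_formula R D hf G.toMetric hgau
      (W := fun _ => ∫ z in fundE ×ˢ fundE, A.S z.1 z.2 ^ 2)
      (fun σ w hw hw' => fibVol_metricG A D hg σ hw hw')]
    congr 1
    · refine Finset.sum_congr rfl fun σ hσ => ?_
      have hm := (R.mem_R3 σ).1 hσ
      rw [flux_metricG A D hg (spec_zero hm) (hcut _ (spec_zero hm)),
        hA1 _ (spec_zero hm) (isMn_zero hm)]
    · refine Finset.sum_congr rfl fun q hq => ?_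
      obtain ⟨hs, _, _⟩ := R.R2_spec q hq
      rw [flux_metricG A D hg hs (hcut q hs)]

/-- (a): there is a Gauduchon metric with positive total scalar curvature -/
theorem gaud_a (hN : B.N = 6) (D : MetricData B) (hD : D.ord = 2) :
    ∃ g : HermitianMetric 4 (presM B).Mfd, g.IsGauduchon ∧ 0 < g.total := by
  obtain ⟨R⟩ := exists_reps B
  set c : ℝ := (R.R2.card : ℝ) with hc
  have hc0 : 0 ≤ c := Nat.cast_nonneg _
  obtain ⟨g, I, τ, hg, hI, hτ, ht⟩ := exists_gaud R D (τ₁ := 99 / 10000) (p₁ := 1 / 100)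
    (p₁' := 101 / 10000) (ε := 1 / 1000000) (δ := 1 / (1000 * (c + 1))) (by norm_num)
    (by norm_num) (by norm_num) (by norm_num) (by norm_num) (by positivity)
  refine ⟨g, hg, ?_⟩
  have hpi := Real.pi_pos
  have hpi3 := Real.pi_gt_three
  have h3pos : 0 < Real.pi ^ 3 := by positivity
  have h1 : Real.pi ^ 3 * (1 / 10000) ≤ ∑ σ ∈ R.R3, (-16 * Real.pi * D.ord / B.N * I +
      16 * ((B.N : ℝ) - 3) / B.N * (Real.pi ^ 3 / 2 * (99 / 10000) ^ 2)) := by
    rw [Finset.sum_const, nsmul_eq_mul]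
    have hcard : (1 : ℝ) ≤ R.R3.card := by
      exact_mod_cast Finset.card_pos.2 (R3_nonempty R)
    have hterm : Real.pi ^ 3 * (1 / 10000) ≤ -16 * Real.pi * D.ord / B.N * I +
        16 * ((B.N : ℝ) - 3) / B.N * (Real.pi ^ 3 / 2 * (99 / 10000) ^ 2) := by
      rw [hN, hD]
      push_cast
      have hI' : Real.pi * I ≤ Real.pi * (Real.pi ^ 2 / 2 * (101 / 10000) ^ 2 + 1 / 1000000) :=
        mul_le_mul_of_nonneg_left hI hpi.le
      have e1 : Real.pi * (Real.pi ^ 2 / 2 * (101 / 10000) ^ 2 + 1 / 1000000) =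
        Real.pi ^ 3 / 2 * (101 / 10000) ^ 2 + Real.pi / 1000000 := by ring
      have e2 : Real.pi ≤ Real.pi ^ 3 / 9 := by nlinarith [mul_pos hpi hpi]
      rw [e1] at hI'
      nlinarith
    nlinarith
  have h2 : -(Real.pi ^ 3 * (1 / 20000)) ≤
      ∑ q ∈ R.R2, 16 * ((ro q : ℝ) - 3) / ro q * (Real.pi ^ 3 / 2 * τ q ^ 2) := by
    have hterm : ∀ q ∈ R.R2, -(16 * Real.pi ^ 3 * (1 / (1000 * (c + 1))) ^ 2) ≤
        16 * ((ro q : ℝ) - 3) / ro q * (Real.pi ^ 3 / 2 * τ q ^ 2) := by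
      intro q hq
      obtain ⟨hq0, hq1⟩ := hτ q hq
      have h5 : (1 : ℝ) ≤ ro q := by exact_mod_cast ro_pos q
      have h6 : -32 ≤ 16 * ((ro q : ℝ) - 3) / ro q := by
        rw [le_div_iff₀ (by linarith)]; linarith
      have h7 : τ q ^ 2 ≤ (1 / (1000 * (c + 1))) ^ 2 := pow_le_pow_left₀ hq0.le hq1 2
      have h8 : 0 ≤ Real.pi ^ 3 / 2 * τ q ^ 2 := by positivity
      have h9 : -32 * (Real.pi ^ 3 / 2 * τ q ^ 2) ≤
          16 * ((ro q : ℝ) - 3) / ro q * (Real.pi ^ 3 / 2 * τ q ^ 2) :=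
        mul_le_mul_of_nonneg_right h6 h8
      nlinarith
    have hsum := Finset.sum_le_sum hterm
    rw [Finset.sum_const, nsmul_eq_mul, ← hc] at hsum
    refine le_trans ?_ hsum
    have e3 : c * -(16 * Real.pi ^ 3 * (1 / (1000 * (c + 1))) ^ 2) =
        -(Real.pi ^ 3 * (16 * c / (1000000 * (c + 1) ^ 2))) := by
      field_simp
      ring
    rw [e3, neg_le_neg_iff]
    refine mul_le_mul_of_nonneg_left ?_ h3pos.le
    rw [div_le_div_iff₀ (by positivity) (by norm_num)]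
    nlinarith
  rw [ht]
  nlinarith

/-- (b): there is a Gauduchon metric with negative total scalar curvature -/
theorem gaud_b (hN : B.N = 1) (D : MetricData B) (hD : D.ord = -1) :
    ∃ g : HermitianMetric 4 (presM B).Mfd, g.IsGauduchon ∧ g.total < 0 := by
  obtain ⟨R⟩ := exists_reps B
  obtain ⟨g, I, τ, hg, hI, hτ, ht⟩ := exists_gaud R D (τ₁ := 99 / 10000) (p₁ := 1 / 100)
    (p₁' := 101 / 10000) (ε := 1 / 1000000) (δ := 1) (by norm_num)
    (by norm_num) (by norm_num) (by norm_num) (by norm_num) (by norm_num)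
  refine ⟨g, hg, ?_⟩
  rw [ht, R2_empty hN R, Finset.sum_empty, add_zero, Finset.sum_const, nsmul_eq_mul]
  have hcard : (0 : ℝ) < R.R3.card := by
    exact_mod_cast Finset.card_pos.2 (R3_nonempty R)
  refine mul_neg_of_pos_of_neg hcard ?_
  have hpi := Real.pi_pos
  have hpi3 := Real.pi_gt_three
  rw [hN, hD]
  push_cast
  have hI' : Real.pi * I ≤ Real.pi * (Real.pi ^ 2 / 2 * (101 / 10000) ^ 2 + 1 / 1000000) :=
    mul_le_mul_of_nonneg_left hI hpi.le
  have e1 : Real.pi * (Real.pi ^ 2 / 2 * (101 / 10000) ^ 2 + 1 / 1000000) =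
    Real.pi ^ 3 / 2 * (101 / 10000) ^ 2 + Real.pi / 1000000 := by ring
  have e2 : Real.pi ≤ Real.pi ^ 3 / 9 := by nlinarith [mul_pos hpi hpi]
  have h3pos : 0 < Real.pi ^ 3 := by positivity
  rw [e1] at hI'
  nlinarith

/-- Both parts: existence form. -/
theorem final :
    (∃ (M : Type) (_ : TopologicalSpace M) (_ : T2Space M) (_ : CompactSpace M)
      (_ : ConnectedSpace M) (_ : ChartedSpace (V 4) M) (_ : IsManifold 𝓘(ℂ, V 4) ω M),
      (∃ g : HermitianMetric 4 M, g.IsKahler) ∧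
      (∃ g : HermitianMetric 4 M, g.IsGauduchon ∧ 0 < g.total) ∧
      ∀ g : HermitianMetric 4 M, g.IsKahler → g.total < 0) ∧
    (∃ (M : Type) (_ : TopologicalSpace M) (_ : T2Space M) (_ : CompactSpace M)
      (_ : ConnectedSpace M) (_ : ChartedSpace (V 4) M) (_ : IsManifold 𝓘(ℂ, V 4) ω M),
      (∃ g : HermitianMetric 4 M, g.IsKahler) ∧
      (∃ g : HermitianMetric 4 M, g.IsGauduchon ∧ g.total < 0) ∧
      ∀ g : HermitianMetric 4 M, g.IsKahler → 0 ≤ g.total) := by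
  constructor
  · obtain ⟨B, R0, hN, hord, hB⟩ := exists_base_C6
    obtain ⟨D, hD⟩ := R0.exists_metricData
    rw [hord] at hD
    exact ⟨(presM B).Mfd, inferInstance, inferInstance, inferInstance, connectedSpace_M B,
      inferInstance, inferInstance, exists_kahler D, gaud_a hN D hD,
      fun g hg => kahler_a hN D hD hB hg⟩
  · obtain ⟨B, R0, hN, hord, hB, _⟩ := exists_base_P1
    obtain ⟨D, hD⟩ := R0.exists_metricData
    rw [hord] at hD
    exact ⟨(presM B).Mfd, inferInstance, inferInstance, inferInstance, connectedSpace_M B,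
      inferInstance, inferInstance, exists_kahler D, gaud_b hN D hD,
      fun g hg => kahler_b hN D hD hB hg⟩

end

end GK
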