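import Pool.Agent.GK.SpaceM

/-!
# Module GenCompat: compatibility has to be checked for the elementary moves only
-/

open scoped ContDiff Topology
open MeasureTheory

namespace GK

noncomputable section

variable {B : BaseCurve}

section rel

variable {X : Type}

/-- `g i z` and `g j w` are related by the coordinate change -/
def GRel (P : Matrix (Fin 4) (Fin 4) ℂ → X → X) (g : Ix B → V 4 → X)
    (i : Ix B) (z : V 4) (j : Ix B) (w : V 4) : Prop :=
  ∃ h : V 4 → V 4, AnalyticAt ℂ h z ∧ h z = w ∧ (∀ᶠ z' in 𝓝 z, chπ j (h z') = chπ i z') ∧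
      g i z = P (jac h z) (g j w)

variable {P : Matrix (Fin 4) (Fin 4) ℂ → X → X} {g : Ix B → V 4 → X}

theorem GRel.refl' (hP1 : ∀ x, P 1 x = x) (i : Ix B) (z : V 4) : GRel P g i z i z :=
  ⟨fun w => w, analyticAt_id, rfl, Filter.Eventually.of_forall fun _ => rfl, by
    rw [jac_id, hP1]⟩

theorem GRel.trans' (hPm : ∀ J K x, P (J * K) x = P K (P J x)) {i j k : Ix B} {z w v : V 4}
    (h1 : GRel P g i z j w) (h2 : GRel P g j w k v) : GRel P g i z k v := by
  obtain ⟨h, a1, a2, a3, a4⟩ := h1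
  obtain ⟨h', b1, b2, b3, b4⟩ := h2
  subst a2
  refine ⟨fun x => h' (h x), b1.comp a1, b2, ?_, ?_⟩
  · filter_upwards [a3, a1.continuousAt.eventually b3] with z' c1 c2
    rw [c2, c1]
  · rw [jac_comp b1.differentiableAt a1.differentiableAt, hPm, ← b4, a4]

theorem lift_unique_chπ {i j : Ix B} {z : V 4} {h h' : V 4 → V 4}
    (hh : ContinuousAt h z) (hh' : ContinuousAt h' z) (hj : h z ∈ chU j) (he : h z = h' z)
    (h1 : ∀ᶠ z' in 𝓝 z, chπ j (h z') = chπ i z') (h2 : ∀ᶠ z' in 𝓝 z, chπ j (h' z') = chπ i z') :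
    h =ᶠ[𝓝 z] h' := by
  obtain ⟨W, hW, hinj⟩ := locinj_chπ j (h z) hj
  have hWU : W ∩ chU j ∈ 𝓝 (h z) := Filter.inter_mem hW ((isOpen_chU j).mem_nhds hj)
  have a1 : ∀ᶠ z' in 𝓝 z, h z' ∈ W ∩ chU j := hh.eventually hWU
  have a2 : ∀ᶠ z' in 𝓝 z, h' z' ∈ W ∩ chU j := hh'.eventually (by rw [← he]; exact hWU)
  filter_upwards [h1, h2, a1, a2] with z' b1 b2 b3 b4
  exact hinj b3 b4 (b1.trans b2.symm)

theorem GRel.symm' (hP1 : ∀ x, P 1 x = x) (hPm : ∀ J K x, P (J * K) x = P K (P J x))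
    {i j : Ix B} {z w : V 4} (hz : z ∈ chU i) (hw : w ∈ chU j)
    (h1 : GRel P g i z j w) : GRel P g j w i z := by
  obtain ⟨h, a1, a2, a3, a4⟩ := h1
  have h0 : chπ j w = chπ i z := by rw [← a2]; exact a3.self_of_nhds
  obtain ⟨k, k1, k2, k3⟩ := trans_chπ j i w z hw hz h0
  refine ⟨k, k1, k2, k3, ?_⟩
  have hkh : AnalyticAt ℂ (fun x => k (h x)) z := by
    have : AnalyticAt ℂ k (h z) := by rw [a2]; exact k1
    exact this.comp a1
  have e1 : (fun x => k (h x)) =ᶠ[𝓝 z] fun x => x := by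
    apply lift_unique_chπ (i := i) (j := i) hkh.continuousAt continuousAt_id
    · simp only [a2, k2]; exact hz
    · simp only [a2, k2, id]
    · have : ∀ᶠ z' in 𝓝 z, chπ i (k (h z')) = chπ j (h z') := by
        have k3' : ∀ᶠ y in 𝓝 (h z), chπ i (k y) = chπ j y := by rw [a2]; exact k3
        exact a1.continuousAt.eventually k3'
      filter_upwards [this, a3] with z' b1 b2
      rw [b1, b2]
    · exact Filter.Eventually.of_forall fun _ => rfl
  have e2 := jac_congr e1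
  rw [jac_comp (by rw [a2]; exact k1.differentiableAt) a1.differentiableAt, jac_id, a2] at e2
  have e3 : jac h z * jac k w = 1 := mul_eq_one_comm.1 e2
  rw [a4, ← hPm, e3, hP1]

end rel

/-- values of the charts in `ptA` -/
theorem exc_zero_of_ptB {q : Qt B} {j : Fin 3} {u : V 4} (h : u j.castSucc = 0) (x : XA B) :
    chπ (Sum.inr (q, j)) u ≠ ptA x := by
  rw [chπ_exc0 q j h]
  exact (ptA_ne_ptB _ _).symm

theorem continuousAt_jac {h : V 4 → V 4} {z : V 4} (hh : AnalyticAt ℂ h z) :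
    ContinuousAt (fun z' => jac h z') z := by
  have h1 : ContinuousAt (fderiv ℂ h) z := hh.fderiv.continuousAt
  unfold jac
  refine continuousAt_pi.2 fun a => continuousAt_pi.2 fun j => ?_
  have h2 : ContinuousAt (fun z' => fderiv ℂ h z' (Pi.single j 1)) z :=
    h1.clm_apply continuousAt_const
  exact (continuousAt_pi.1 h2) a

/-- `P J x` is the pull-back of `x` by the matrix `J` (used for `P = pull` and for
`P J x = |det J|² x`). -/
theorem gen_compat {X : Type} [TopologicalSpace X] [T2Space X]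
    (P : Matrix (Fin 4) (Fin 4) ℂ → X → X) (hP1 : ∀ x, P 1 x = x)
    (hPm : ∀ J K x, P (J * K) x = P K (P J x))
    (hPc : Continuous fun a : Matrix (Fin 4) (Fin 4) ℂ × X => P a.1 a.2)
    (g : Ix B → V 4 → X) (hg : ∀ i, ContinuousOn (g i) (chU i))
    (h1 : ∀ (i j : B.κ) (γ : Gam) (h : ℂ → ℂ) (y : V 4), y ∈ chU (Sum.inl i : Ix B) →
      move1 B.N γ h y ∈ chU (Sum.inl j : Ix B) → AnalyticAt ℂ h (y 2) →
      (∀ᶠ x in 𝓝 (y 2), B.p j (h x) = B.s^[γ.k] (B.p i x)) →
      g (Sum.inl i) y = P (jac (move1 B.N γ h) y) (g (Sum.inl j) (move1 B.N γ h y)))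
    (h2 : ∀ (q : Qt B) (j : Fin 3) (y : V 4), Spec q → E3 (y - cen q) < 1 / 64 →
      (y - cen q) j.castSucc ≠ 0 →
      g (Sum.inl (B.ch q.2.2)) y = P (jac (move2 q j) y) (g (Sum.inr (q, j)) (move2 q j y)))
    (i j : Ix B) (z w : V 4) (hz : z ∈ chU i) (hw : w ∈ chU j) (h : chπ i z = chπ j w) :
    ∃ h : V 4 → V 4, AnalyticAt ℂ h z ∧ h z = w ∧ (∀ᶠ z' in 𝓝 z, chπ j (h z') = chπ i z') ∧
      g i z = P (jac h z) (g j w) := by
  -- every generic point comes from a regular chart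
  have toReg : ∀ (i : Ix B) (z : V 4), z ∈ chU i → (∃ x, chπ i z = ptA x) →
      ∃ (i' : B.κ) (y : V 4), y ∈ chU (Sum.inl i' : Ix B) ∧ GRel P g (Sum.inl i') y i z := by
    rintro (i | ⟨q, j⟩) z hz ⟨x, hx⟩
    · exact ⟨i, z, hz, GRel.refl' hP1 _ _⟩
    · have hj : z j.castSucc ≠ 0 := fun h0 => exc_zero_of_ptB h0 x hx
      obtain ⟨y, y1, y2, y3⟩ := exists_move2 hz.1 hz hj
      refine ⟨B.ch q.2.2, y, (move2_mem hz.1 y2 y1).2.1, move2 q j, analyticAt_move2 y2, y3, ?_, ?_⟩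
      · have c0 : Continuous fun y' : V 4 => (y' - cen q) j.castSucc := by fun_prop
        have c1 : Continuous fun y' : V 4 => E3 (y' - cen q) := by
          simp only [E3_eq, Complex.normSq_apply]
          fun_prop
        have e0 : ∀ᶠ y' in 𝓝 y, (y' - cen q) j.castSucc ≠ 0 := c0.continuousAt.eventually_ne y2
        have e1 : ∀ᶠ y' in 𝓝 y, E3 (y' - cen q) < 1 / 64 :=
          c1.continuousAt.eventually_lt continuousAt_const y1
        filter_upwards [e0, e1] with y' a0 a1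
        exact (move2_mem hz.1 a0 a1).2.2
      · rw [← y3]; exact h2 q j y hz.1 y1 y2
  -- the generic case
  have gen : ∀ (i j : Ix B) (z w : V 4), z ∈ chU i → w ∈ chU j → chπ i z = chπ j w →
      (∃ x, chπ i z = ptA x) → GRel P g i z j w := by
    intro i j z w hz hw h hx
    obtain ⟨i', y, hy, r1⟩ := toReg i z hz hx
    obtain ⟨j', y', hy', r2⟩ := toReg j w hw (by rw [← h]; exact hx)
    have e1 : chπ i z = chπ (Sum.inl i' : Ix B) y := by
      obtain ⟨k, _, k2, k3, _⟩ := r1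
      rw [← k2]; exact k3.self_of_nhds
    have e2 : chπ j w = chπ (Sum.inl j' : Ix B) y' := by
      obtain ⟨k, _, k2, k3, _⟩ := r2
      rw [← k2]; exact k3.self_of_nhds
    have e3 : chπ (Sum.inl i' : Ix B) y = chπ (Sum.inl j') y' := by rw [← e1, ← e2, h]
    obtain ⟨γ, k, k1, k2, k3, k4⟩ := exists_move1 hy.1 hy'.1 e3
    have r3 : GRel P g (Sum.inl i') y (Sum.inl j') y' := by
      refine ⟨move1 B.N γ k, analyticAt_move1 k1, k4, move1_chπ k1.continuousAt k3, ?_⟩
      have := h1 i' j' γ k y hy (by rw [k4]; exact hy') k1 k3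
      rw [k4] at this
      exact this
    exact ((r1.symm' hP1 hPm hy hz).trans' hPm r3).trans' hPm r2
  by_cases hx : ∃ x, chπ i z = ptA x
  · exact gen i j z w hz hw h hx
  -- exceptional points
  rcases i with i | ⟨q, i⟩
  · exact absurd ⟨_, rfl⟩ hx
  have hz0 : z i.castSucc = 0 := by
    by_contra h0
    exact hx ⟨_, chπ_exc q i h0⟩
  obtain ⟨k, k1, k2, k3⟩ := trans_chπ _ j z w hz hw h
  refine ⟨k, k1, k2, k3, ?_⟩
  have key : ∀ᶠ z' in 𝓝 z, z' i.castSucc ≠ 0 →
      g (Sum.inr (q, i)) z' = P (jac k z') (g j (k z')) := by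
    have a1 : ∀ᶠ z' in 𝓝 z, z' ∈ chU (Sum.inr (q, i)) := (isOpen_chU _).mem_nhds hz
    have a2 : ∀ᶠ z' in 𝓝 z, k z' ∈ chU j :=
      k1.continuousAt.eventually (by rw [k2]; exact (isOpen_chU j).mem_nhds hw)
    filter_upwards [a1, a2, k1.eventually_analyticAt, k3.eventually_nhds] with z' b1 b2 b3 b4 hne
    have b5 : chπ j (k z') = chπ (Sum.inr (q, i)) z' := b4.self_of_nhds
    obtain ⟨k', c1, c2, c3, c4⟩ := gen _ j z' (k z') b1 b2 b5.symm ⟨_, chπ_exc q i hne⟩
    have c5 : k' =ᶠ[𝓝 z'] k :=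
      lift_unique_chπ (i := Sum.inr (q, i)) (j := j) c1.continuousAt b3.continuousAt
        (by rw [c2]; exact b2) c2 c3 b4
    rw [← jac_congr c5]
    exact c4
  have hd : Dense {z' : V 4 | z' i.castSucc ≠ 0} :=
    (dense_compl_singleton (0 : ℂ)).preimage (isOpenMap_eval i.castSucc)
  have : (𝓝[{z' : V 4 | z' i.castSucc ≠ 0}] z).NeBot := mem_closure_iff_nhdsWithin_neBot.1 (hd z)
  have t1 : Filter.Tendsto (fun z' => g (Sum.inr (q, i)) z')
      (𝓝[{z' : V 4 | z' i.castSucc ≠ 0}] z) (𝓝 (g (Sum.inr (q, i)) z)) :=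
    ((hg _).continuousAt ((isOpen_chU _).mem_nhds hz)).tendsto.mono_left nhdsWithin_le_nhds
  have t2 : Filter.Tendsto (fun z' => P (jac k z') (g j (k z')))
      (𝓝[{z' : V 4 | z' i.castSucc ≠ 0}] z) (𝓝 (P (jac k z) (g j w))) := by
    have d1 : ContinuousAt (g j) (k z) := by
      rw [k2]; exact (hg j).continuousAt ((isOpen_chU j).mem_nhds hw)
    have d2 : ContinuousAt (fun z' => g j (k z')) z := ContinuousAt.comp d1 k1.continuousAt
    have d3 : ContinuousAt (fun z' => (jac k z', g j (k z'))) z := (continuousAt_jac k1).prodMk d2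
    have d4 : ContinuousAt (fun z' => P (jac k z') (g j (k z'))) z :=
      ContinuousAt.comp (f := fun z' => (jac k z', g j (k z')))
        (g := fun a : Matrix (Fin 4) (Fin 4) ℂ × X => P a.1 a.2) hPc.continuousAt d3
    have d5 := d4.tendsto
    rw [k2] at d5
    exact d5.mono_left nhdsWithin_le_nhds
  refine tendsto_nhds_unique_of_eventuallyEq t1 t2 ?_
  exact eventually_nhdsWithin_iff.2 key

end

end GK
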