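import Pool.Agent.GK.Calc

/-! # Module Glue -/

open scoped ContDiff Manifold Topology ComplexOrder
open MeasureTheory

namespace GK

noncomputable section

/-- A presentation of a compact complex manifold: a family of maps `π i : U i → M`, `U i ⊆ ℂⁿ`
open, not necessarily injective, étale, with closed (Hausdorff) equivalence relation. -/
structure Pres (n : ℕ) where
  M : Type
  ι : Type
  U : ι → Set (V n)
  isOpen_U : ∀ i, IsOpen (U i)
  π : ι → V n → M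
  surj : ∀ p, ∃ i, ∃ z ∈ U i, π i z = p
  trans : ∀ i j z w, z ∈ U i → w ∈ U j → π i z = π j w →
    ∃ h : V n → V n, AnalyticAt ℂ h z ∧ h z = w ∧ ∀ᶠ z' in 𝓝 z, π j (h z') = π i z'
  locinj : ∀ i z, z ∈ U i → ∃ W ∈ 𝓝 z, Set.InjOn (π i) W
  sep : ∀ i j z w, z ∈ U i → w ∈ U j → π i z ≠ π j w →
    ∃ A ∈ 𝓝 z, ∃ B ∈ 𝓝 w, ∀ a ∈ A, ∀ b ∈ B, π i a ≠ π j b
  cpt : ∃ (F : Finset ι) (K : ι → Set (V n)), (∀ i, IsCompact (K i) ∧ K i ⊆ U i) ∧
    ∀ p, ∃ i ∈ F, ∃ z ∈ K i, π i z = p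

namespace Pres

variable {n : ℕ} (P : Pres n)

/-- the manifold -/
def Mfd : Type := P.M

def proj (i : P.ι) (z : V n) : P.Mfd := P.π i z

instance : TopologicalSpace P.Mfd where
  IsOpen O := ∀ i, IsOpen (P.U i ∩ P.proj i ⁻¹' O)
  isOpen_univ := fun i => by simpa using P.isOpen_U i
  isOpen_inter := fun s t hs ht i => by
    have : P.U i ∩ P.proj i ⁻¹' (s ∩ t) = (P.U i ∩ P.proj i ⁻¹' s) ∩ (P.U i ∩ P.proj i ⁻¹' t) := by
      ext z; simp only [Set.mem_inter_iff, Set.mem_preimage]; tauto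
    rw [this]
    exact (hs i).inter (ht i)
  isOpen_sUnion := fun S hS i => by
    have : P.U i ∩ P.proj i ⁻¹' (⋃₀ S) = ⋃ s ∈ S, (P.U i ∩ P.proj i ⁻¹' s) := by
      ext z; simp
    rw [this]
    exact isOpen_biUnion fun s hs => hS s hs i

theorem isOpen_iff (O : Set P.Mfd) : IsOpen O ↔ ∀ i, IsOpen (P.U i ∩ P.proj i ⁻¹' O) := Iff.rfl

theorem continuousOn_proj (i : P.ι) : ContinuousOn (P.proj i) (P.U i) := by
  rw [continuousOn_open_iff (P.isOpen_U i)]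
  intro t ht
  exact (P.isOpen_iff t).1 ht i

theorem isOpen_image_proj (i : P.ι) {W : Set (V n)} (hW : IsOpen W) (hWU : W ⊆ P.U i) :
    IsOpen (P.proj i '' W) := by
  rw [isOpen_iff]
  intro j
  rw [isOpen_iff_mem_nhds]
  rintro w ⟨hw, z, hz, hzw⟩
  obtain ⟨h, h1, h2, h3⟩ := P.trans j i w z hw (hWU hz) hzw.symm
  have h4 : ∀ᶠ w' in 𝓝 w, h w' ∈ W := h1.continuousAt.eventually (by rw [h2]; exact hW.mem_nhds hz)
  have h5 : ∀ᶠ w' in 𝓝 w, w' ∈ P.U j := (P.isOpen_U j).mem_nhds hw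
  filter_upwards [h3, h4, h5] with w' a1 a2 a3
  exact ⟨a3, h w', a2, a1⟩

/-- two points of `M` with charts -/
theorem exists_nhds_disjoint {i j : P.ι} {z w : V n} (hz : z ∈ P.U i) (hw : w ∈ P.U j)
    (hne : P.proj i z ≠ P.proj j w) : ∃ A B : Set P.Mfd, IsOpen A ∧ IsOpen B ∧ P.proj i z ∈ A ∧
      P.proj j w ∈ B ∧ Disjoint A B := by
  obtain ⟨A, hA, B, hB, hAB⟩ := P.sep i j z w hz hw hne
  obtain ⟨A', hA1, hA2, hA3⟩ := mem_nhds_iff.1 (Filter.inter_mem hA ((P.isOpen_U i).mem_nhds hz))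
  obtain ⟨B', hB1, hB2, hB3⟩ := mem_nhds_iff.1 (Filter.inter_mem hB ((P.isOpen_U j).mem_nhds hw))
  refine ⟨P.proj i '' A', P.proj j '' B', P.isOpen_image_proj i hA2 (fun x hx => (hA1 hx).2),
    P.isOpen_image_proj j hB2 (fun x hx => (hB1 hx).2), ⟨z, hA3, rfl⟩, ⟨w, hB3, rfl⟩, ?_⟩
  rw [Set.disjoint_left]
  rintro _ ⟨a, ha, rfl⟩ ⟨b, hb, hab⟩
  exact hAB a (hA1 ha).1 b (hB1 hb).1 hab.symm

instance : T2Space P.Mfd := by
  refine ⟨fun p q hpq => ?_⟩
  obtain ⟨i, z, hz, rfl⟩ := P.surj p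
  obtain ⟨j, w, hw, rfl⟩ := P.surj q
  exact P.exists_nhds_disjoint hz hw hpq

instance : CompactSpace P.Mfd := by
  obtain ⟨F, K, hK, hF⟩ := P.cpt
  refine ⟨?_⟩
  have : (Set.univ : Set P.Mfd) = ⋃ i ∈ F, P.proj i '' K i := by
    symm
    rw [Set.eq_univ_iff_forall]
    intro p
    obtain ⟨i, hi, z, hz, hzp⟩ := hF p
    rw [Set.mem_iUnion₂]
    exact ⟨i, hi, z, hz, hzp⟩
  rw [this]
  exact F.isCompact_biUnion fun i _ =>
    (hK i).1.image_of_continuousOn ((P.continuousOn_proj i).mono (hK i).2)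

/-- the chart given by an injective piece of `π i` -/
def piece (i : P.ι) (W : Set (V n)) (hW : IsOpen W) (hWU : W ⊆ P.U i) (hinj : Set.InjOn (P.proj i) W) :
    OpenPartialHomeomorph P.Mfd (V n) :=
  (OpenPartialHomeomorph.ofContinuousOpenRestrict (Set.InjOn.toPartialEquiv (P.proj i) W hinj)
    ((P.continuousOn_proj i).mono hWU)
    (by
      intro O hO
      obtain ⟨O', hO', rfl⟩ := isOpen_induced_iff.1 hO
      have : (Set.InjOn.toPartialEquiv (P.proj i) W hinj).source.domRestrict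
          (Set.InjOn.toPartialEquiv (P.proj i) W hinj) '' (Subtype.val ⁻¹' O') =
          P.proj i '' (W ∩ O') := by
        ext p
        constructor
        · rintro ⟨⟨z, hz⟩, hz2, rfl⟩
          exact ⟨z, ⟨hz, hz2⟩, rfl⟩
        · rintro ⟨z, ⟨hz, hz2⟩, rfl⟩
          exact ⟨⟨z, hz⟩, hz2, rfl⟩
      rw [this]
      exact P.isOpen_image_proj i (hW.inter hO') (fun x hx => hWU hx.1))
    hW).symm

theorem piece_target (i : P.ι) (W : Set (V n)) (hW : IsOpen W) (hWU : W ⊆ P.U i)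
    (hinj : Set.InjOn (P.proj i) W) : (P.piece i W hW hWU hinj).target = W := rfl

theorem piece_source (i : P.ι) (W : Set (V n)) (hW : IsOpen W) (hWU : W ⊆ P.U i)
    (hinj : Set.InjOn (P.proj i) W) : (P.piece i W hW hWU hinj).source = P.proj i '' W := rfl

theorem piece_symm (i : P.ι) (W : Set (V n)) (hW : IsOpen W) (hWU : W ⊆ P.U i)
    (hinj : Set.InjOn (P.proj i) W) (z : V n) : (P.piece i W hW hWU hinj).symm z = P.proj i z := rfl

theorem exists_piece (i : P.ι) {z : V n} (hz : z ∈ P.U i) : ∃ W : Set (V n), IsOpen W ∧ W ⊆ P.U i ∧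
    Set.InjOn (P.proj i) W ∧ z ∈ W := by
  obtain ⟨W, hW, hinj⟩ := P.locinj i z hz
  obtain ⟨W', h1, h2, h3⟩ := mem_nhds_iff.1 (Filter.inter_mem hW ((P.isOpen_U i).mem_nhds hz))
  exact ⟨W', h2, fun x hx => (h1 hx).2, fun a ha b hb hab => hinj (h1 ha).1 (h1 hb).1 hab, h3⟩

/-- the atlas -/
def atl : Set (OpenPartialHomeomorph P.Mfd (V n)) :=
  {e | ∃ i W, ∃ (hW : IsOpen W) (hWU : W ⊆ P.U i) (hinj : Set.InjOn (P.proj i) W),
    e = P.piece i W hW hWU hinj}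

theorem exists_atl (p : P.Mfd) : ∃ e ∈ P.atl, p ∈ e.source := by
  obtain ⟨i, z, hz, rfl⟩ := P.surj p
  obtain ⟨W, h1, h2, h3, h4⟩ := P.exists_piece i hz
  exact ⟨P.piece i W h1 h2 h3, ⟨i, W, h1, h2, h3, rfl⟩, ⟨z, h4, rfl⟩⟩

instance : ChartedSpace (V n) P.Mfd where
  atlas := P.atl
  chartAt p := (P.exists_atl p).choose
  mem_chart_source p := (P.exists_atl p).choose_spec.2
  chart_mem_atlas p := (P.exists_atl p).choose_spec.1

/-- every chart is a local inverse of some `π i` -/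
theorem exists_index {e : OpenPartialHomeomorph P.Mfd (V n)} (he : e ∈ atlas (V n) P.Mfd) :
    ∃ i, e.target ⊆ P.U i ∧ ∀ z ∈ e.target, e.symm z = P.proj i z := by
  obtain ⟨i, W, hW, hWU, hinj, rfl⟩ := he
  exact ⟨i, hWU, fun z _ => rfl⟩

theorem exists_chart (i : P.ι) {z : V n} (hz : z ∈ P.U i) :
    ∃ e ∈ atlas (V n) P.Mfd, z ∈ e.target ∧ e.target ⊆ P.U i ∧
      ∀ w ∈ e.target, e.symm w = P.proj i w := by
  obtain ⟨W, h1, h2, h3, h4⟩ := P.exists_piece i hz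
  exact ⟨P.piece i W h1 h2 h3, ⟨i, W, h1, h2, h3, rfl⟩, h4, h2, fun w _ => rfl⟩

instance : IsManifold 𝓘(ℂ, V n) ω P.Mfd := by
  apply isManifold_of_contDiffOn
  intro e e' he he'
  obtain ⟨i, W, hW, hWU, hinj, rfl⟩ := he
  obtain ⟨j, W', hW', hWU', hinj', rfl⟩ := he'
  set e := P.piece i W hW hWU hinj with hedef
  set e' := P.piece j W' hW' hWU' hinj' with hedef'
  intro z hz
  have hz1 : z ∈ (e.symm ≫ₕ e').source := hz.1
  rw [OpenPartialHomeomorph.trans_source] at hz1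
  have hzW : z ∈ W := hz1.1
  have hz2 : e.symm z ∈ e'.source := hz1.2
  obtain ⟨w, hw, hwz⟩ := hz2
  have hwz' : P.proj j w = P.proj i z := hwz
  obtain ⟨h, h1, h2, h3⟩ := P.trans i j z w (hWU hzW) (hWU' hw) hwz'.symm
  have h4 : ∀ᶠ z' in 𝓝 z, h z' ∈ W' := h1.continuousAt.eventually (by rw [h2]; exact hW'.mem_nhds hw)
  have key : (𝓘(ℂ, V n) ∘ (e.symm ≫ₕ e') ∘ 𝓘(ℂ, V n).symm) =ᶠ[𝓝 z] h := by
    filter_upwards [h3, h4] with z' a1 a2
    have b1 : e'.symm (h z') = e.symm z' := a1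
    have b2 : e' (e'.symm (h z')) = h z' := e'.right_inv a2
    rw [b1] at b2
    exact b2
  exact (h1.contDiffAt.congr_of_eventuallyEq key).contDiffWithinAt

theorem connectedSpace [Nonempty P.Mfd] (h : ∀ p q : P.Mfd, ∃ S : Set P.Mfd,
    IsPreconnected S ∧ p ∈ closure S ∧ q ∈ closure S) :
    ConnectedSpace P.Mfd := by
  have : PreconnectedSpace P.Mfd := by
    refine ⟨isPreconnected_of_forall_pair ?_⟩
    intro p _ q _
    obtain ⟨S, h1, h2, h3⟩ := h p q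
    exact ⟨closure S, Set.subset_univ _, h2, h3, h1.closure⟩
  exact { toNonempty := inferInstance }

/-- any two local lifts agree -/
theorem lift_unique {i j : P.ι} {z : V n} (hz : z ∈ P.U i) {h h' : V n → V n}
    (hh : ContinuousAt h z) (hh' : ContinuousAt h' z) (hj : h z ∈ P.U j) (he : h z = h' z)
    (h1 : ∀ᶠ z' in 𝓝 z, P.π j (h z') = P.π i z') (h2 : ∀ᶠ z' in 𝓝 z, P.π j (h' z') = P.π i z') :
    h =ᶠ[𝓝 z] h' := by
  obtain ⟨W, hW, hinj⟩ := P.locinj j (h z) hj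
  have a1 : ∀ᶠ z' in 𝓝 z, h z' ∈ W := hh.eventually hW
  have a2 : ∀ᶠ z' in 𝓝 z, h' z' ∈ W := hh'.eventually (by rw [← he]; exact hW)
  filter_upwards [h1, h2, a1, a2] with z' b1 b2 b3 b4
  exact hinj b3 b4 (b1.trans b2.symm)

theorem isUnit_det_jac_lift {i j : P.ι} {z w : V n} (hz : z ∈ P.U i) (hw : w ∈ P.U j)
    {h : V n → V n} (hh : AnalyticAt ℂ h z) (he : h z = w)
    (h1 : ∀ᶠ z' in 𝓝 z, P.π j (h z') = P.π i z') : IsUnit (jac h z).det := by
  have h0 : P.π j w = P.π i z := by rw [← he]; exact h1.self_of_nhds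
  obtain ⟨k, k1, k2, k3⟩ := P.trans j i w z hw hz h0
  have hkh : AnalyticAt ℂ (fun x => k (h x)) z := by
    have : AnalyticAt ℂ k (h z) := by rw [he]; exact k1
    exact this.comp hh
  have e1 : (fun x => k (h x)) =ᶠ[𝓝 z] fun x => x := by
    apply P.lift_unique (i := i) (j := i) hz hkh.continuousAt continuousAt_id
    · simp only [he, k2]; exact hz
    · simp only [he, k2, id]
    · have : ∀ᶠ z' in 𝓝 z, P.π i (k (h z')) = P.π j (h z') := by
        have k3' : ∀ᶠ y in 𝓝 (h z), P.π i (k y) = P.π j y := by rw [he]; exact k3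
        exact hh.continuousAt.eventually k3'
      filter_upwards [this, h1] with z' b1 b2
      rw [b1, b2]
    · exact Filter.Eventually.of_forall fun _ => rfl
  have e2 := jac_congr e1
  rw [jac_comp (by rw [he]; exact k1.differentiableAt) hh.differentiableAt, jac_id] at e2
  have e3 := congrArg Matrix.det e2
  rw [Matrix.det_mul, Matrix.det_one] at e3
  exact IsUnit.of_mul_eq_one _ (by rw [mul_comm]; exact e3)

end Pres

end

end GK
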