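import Pool.Agent.GK.Volume

/-! # Module Stokes -/

open scoped ContDiff Manifold Topology ComplexOrder
open MeasureTheory

namespace GK

noncomputable section

section Stokes

variable (n : ℕ) (M : Type) [TopologicalSpace M] [ChartedSpace (V n) M]

/-- A smooth metric on the anticanonical bundle, given by its local densities. -/
structure ConfMetric where
  h : OpenPartialHomeomorph M (V n) → V n → ℝ
  smooth : ∀ e ∈ atlas (V n) M, ContDiffOn ℝ ∞ (h e) e.target
  pos : ∀ e ∈ atlas (V n) M, ∀ z ∈ e.target, 0 < h e z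
  compat : ∀ e ∈ atlas (V n) M, ∀ e' ∈ atlas (V n) M, ∀ z ∈ (e.symm.trans e').source,
    h e z = Complex.normSq (jac (e.symm.trans e') z).det * h e' ((e.symm.trans e') z)

variable {n M}

namespace StokesAux

theorem two_le_infty : (2 : WithTop ℕ∞) ≤ ∞ :=
  WithTop.coe_le_coe.mpr (le_top : (2 : ℕ∞) ≤ ⊤)

/-- `∑ g^{j k̄} ∂_j ∂̄_k u` in a coordinate domain. -/
def lapl (G : V n → Matrix (Fin n) (Fin n) ℂ) (u : V n → ℂ) (z : V n) : ℝ :=
  (∑ j, ∑ k, (G z)⁻¹ k j * levi u z j k).re

theorem contDiffOn_det {m : ℕ} {G : V n → Matrix (Fin m) (Fin m) ℂ} {Ω : Set (V n)}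
    (hG : ∀ j k, ContDiffOn ℝ ∞ (fun z => G z j k) Ω) :
    ContDiffOn ℝ ∞ (fun z => (G z).det) Ω := by
  simp only [Matrix.det_apply]
  refine ContDiffOn.sum fun σ _ => ?_
  refine ContDiffOn.const_smul _ ?_
  exact contDiffOn_prod fun i _ => hG _ _

theorem contDiffOn_adj {G : V n → Matrix (Fin n) (Fin n) ℂ} {Ω : Set (V n)}
    (hG : ∀ j k, ContDiffOn ℝ ∞ (fun z => G z j k) Ω) (i j : Fin n) :
    ContDiffOn ℝ ∞ (fun z => (G z).adjugate i j) Ω := by
  simp only [Matrix.adjugate_apply]
  refine contDiffOn_det fun a b => ?_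
  by_cases h : a = j
  · subst h
    simp only [Matrix.updateRow_self]
    exact contDiffOn_const
  · simp only [Matrix.updateRow_ne h]
    exact hG a b

theorem det_eq_re {A : Matrix (Fin n) (Fin n) ℂ} (hA : A.PosDef) : A.det = ((A.det.re : ℝ) : ℂ) := by
  have h := hA.det_pos
  rw [Complex.lt_def] at h
  apply Complex.ext
  · simp
  · simpa using h.2.symm

theorem det_re_pos {A : Matrix (Fin n) (Fin n) ℂ} (hA : A.PosDef) : 0 < A.det.re := by
  have h := hA.det_pos
  rw [Complex.lt_def] at h
  simpa using h.1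

theorem inv_apply {A : Matrix (Fin n) (Fin n) ℂ} (j k : Fin n) :
    A⁻¹ j k = A.det⁻¹ * A.adjugate j k := by
  rw [Matrix.inv_def, Matrix.smul_apply, Ring.inverse_eq_inv', smul_eq_mul]

theorem contDiffOn_levi {u : V n → ℂ} {Ω : Set (V n)} (hΩ : IsOpen Ω) (hu : ContDiffOn ℝ ∞ u Ω)
    (j k : Fin n) : ContDiffOn ℝ ∞ (fun z => levi u z j k) Ω := by
  simp only [levi, Matrix.of_apply]
  exact contDiffOn_dZ hΩ (contDiffOn_dB hΩ hu k) j

theorem continuousOn_lapl {G : V n → Matrix (Fin n) (Fin n) ℂ} {Ω : Set (V n)} (hΩ : IsOpen Ω)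
    (hG : ∀ j k, ContDiffOn ℝ ∞ (fun z => G z j k) Ω) (hpos : ∀ z ∈ Ω, (G z).PosDef)
    {u : V n → ℂ} (hu : ContDiffOn ℝ ∞ u Ω) : ContinuousOn (lapl G u) Ω := by
  unfold lapl
  refine Complex.continuous_re.comp_continuousOn ?_
  refine continuousOn_finsetSum _ fun j _ => continuousOn_finsetSum _ fun k _ => ?_
  simp only [inv_apply]
  refine ContinuousOn.mul (ContinuousOn.mul (ContinuousOn.inv₀ (contDiffOn_det hG).continuousOn
    ?_) (contDiffOn_adj hG k j).continuousOn) (contDiffOn_levi hΩ hu j k).continuousOn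
  intro z hz h0
  have := det_re_pos (hpos z hz)
  rw [h0] at this
  simp at this

theorem lapl_congr {G : V n → Matrix (Fin n) (Fin n) ℂ} {u u' : V n → ℂ} {z : V n}
    (h : u =ᶠ[𝓝 z] u') : lapl G u z = lapl G u' z := by
  unfold lapl
  rw [levi_congr h]

theorem levi_add {u v : V n → ℂ} {Ω : Set (V n)} (hΩ : IsOpen Ω) (hu : ContDiffOn ℝ ∞ u Ω)
    (hv : ContDiffOn ℝ ∞ v Ω) {z : V n} (hz : z ∈ Ω) (j k : Fin n) :
    levi (fun w => u w + v w) z j k = levi u z j k + levi v z j k := by
  simp only [levi, Matrix.of_apply]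
  have hd : ∀ {t : V n → ℂ}, ContDiffOn ℝ ∞ t Ω → ∀ w ∈ Ω, DifferentiableAt ℝ t w :=
    fun ht w hw => (ht.contDiffAt (hΩ.mem_nhds hw)).differentiableAt (by simp)
  have h1 : (fun w => dB k (fun w' => u w' + v w') w) =ᶠ[𝓝 z] fun w => dB k u w + dB k v w := by
    filter_upwards [hΩ.mem_nhds hz] with w hw
    exact dB_add (hd hu w hw) (hd hv w hw) k
  rw [dZ_congr h1]
  exact dZ_add (hd (contDiffOn_dB hΩ hu k) z hz) (hd (contDiffOn_dB hΩ hv k) z hz) j

theorem lapl_add {G : V n → Matrix (Fin n) (Fin n) ℂ} {u v : V n → ℂ} {Ω : Set (V n)}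
    (hΩ : IsOpen Ω) (hu : ContDiffOn ℝ ∞ u Ω)
    (hv : ContDiffOn ℝ ∞ v Ω) {z : V n} (hz : z ∈ Ω) :
    lapl G (fun w => u w + v w) z = lapl G u z + lapl G v z := by
  simp only [lapl, levi_add hΩ hu hv hz, mul_add, Finset.sum_add_distrib, Complex.add_re]

theorem lapl_zero {G : V n → Matrix (Fin n) (Fin n) ℂ} (z : V n) :
    lapl G (fun _ => 0) z = 0 := by
  simp only [lapl, levi, Matrix.of_apply, dB_const, dZ_const, mul_zero, Finset.sum_const_zero,
    Complex.zero_re]

theorem lapl_sum {ι : Type} {G : V n → Matrix (Fin n) (Fin n) ℂ} {u : ι → V n → ℂ}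
    {Ω : Set (V n)} (hΩ : IsOpen Ω) (hu : ∀ i, ContDiffOn ℝ ∞ (u i) Ω) {z : V n} (hz : z ∈ Ω)
    (s : Finset ι) : lapl G (fun w => ∑ i ∈ s, u i w) z = ∑ i ∈ s, lapl G (u i) z := by
  classical
  induction s using Finset.induction_on with
  | empty => simpa using lapl_zero z
  | insert a s ha ih =>
    simp only [Finset.sum_insert ha]
    rw [lapl_add hΩ (hu a) (ContDiffOn.sum fun i _ => hu i) hz, ih]

theorem lapl_mul_det {A : Matrix (Fin n) (Fin n) ℂ} (hA : A.PosDef)
    (L : Matrix (Fin n) (Fin n) ℂ) :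
    (∑ j, ∑ k, A⁻¹ k j * L j k).re * (2 ^ n * A.det.re) =
      2 ^ n * (∑ j, ∑ k, A.adjugate k j * L j k).re := by
  have h1 : ∑ j, ∑ k, A⁻¹ k j * L j k = ((A.det.re⁻¹ : ℝ) : ℂ) *
      ∑ j, ∑ k, A.adjugate k j * L j k := by
    simp only [inv_apply, Finset.mul_sum]
    refine Finset.sum_congr rfl fun j _ => Finset.sum_congr rfl fun k _ => ?_
    rw [det_eq_re hA]
    push_cast
    simp only [Complex.ofReal_re]
    ring
  rw [h1, Complex.re_ofReal_mul]
  have := (det_re_pos hA).ne'
  field_simp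

/-- extension by zero of smooth functions -/
theorem contDiff_of_zero_off {u : V n → ℂ} {Ω K : Set (V n)} (hΩ : IsOpen Ω) (hK : IsCompact K)
    (hKΩ : K ⊆ Ω) (hu : ContDiffOn ℝ ∞ u Ω) (h0 : ∀ z, z ∉ K → u z = 0) : ContDiff ℝ ∞ u := by
  rw [contDiff_iff_contDiffAt]
  intro z
  by_cases hz : z ∈ Ω
  · exact (hu z hz).contDiffAt (hΩ.mem_nhds hz)
  · have hz' : z ∈ Kᶜ := fun h => hz (hKΩ h)
    have : u =ᶠ[𝓝 z] fun _ => 0 := by
      filter_upwards [hK.isClosed.isOpen_compl.mem_nhds hz'] with w hw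
      exact h0 w hw
    exact contDiffAt_const.congr_of_eventuallyEq this

theorem hasCompactSupport_of_zero_off {E : Type*} [Zero E] {u : V n → E} {K : Set (V n)} (hK : IsCompact K)
    (h0 : ∀ z, z ∉ K → u z = 0) : HasCompactSupport u :=
  HasCompactSupport.intro hK h0

theorem dZ_zero_off {u : V n → ℂ} {K : Set (V n)} (hK : IsCompact K)
    (h0 : ∀ z, z ∉ K → u z = 0) (j : Fin n) : ∀ z, z ∉ K → dZ j u z = 0 := by
  intro z hz
  have : u =ᶠ[𝓝 z] fun _ => 0 := by
    filter_upwards [hK.isClosed.isOpen_compl.mem_nhds hz] with w hw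
    exact h0 w hw
  rw [dZ_congr this, dZ_const]

theorem dB_zero_off {u : V n → ℂ} {K : Set (V n)} (hK : IsCompact K)
    (h0 : ∀ z, z ∉ K → u z = 0) (j : Fin n) : ∀ z, z ∉ K → dB j u z = 0 := by
  intro z hz
  have : u =ᶠ[𝓝 z] fun _ => 0 := by
    filter_upwards [hK.isClosed.isOpen_compl.mem_nhds hz] with w hw
    exact h0 w hw
  rw [dB_congr this, dB_const]

/-- Stokes in a coordinate domain. -/
theorem local_stokes {G : V n → Matrix (Fin n) (Fin n) ℂ} {Ω : Set (V n)} (hΩ : IsOpen Ω)
    (hG : ∀ j k, ContDiffOn ℝ ∞ (fun z => G z j k) Ω)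
    (hgau : ∀ z ∈ Ω, ∑ j, ∑ k, dZ j (fun w => dB k (fun w' => (G w').adjugate k j) w) z = 0)
    {u : V n → ℂ} {K : Set (V n)} (hK : IsCompact K)
    (hKΩ : K ⊆ Ω) (hu : ContDiffOn ℝ ∞ u Ω) (h0 : ∀ z, z ∉ K → u z = 0) :
    Integrable (fun z => ∑ j, ∑ k, (G z).adjugate k j * levi u z j k) ∧
    ∫ z, ∑ j, ∑ k, (G z).adjugate k j * levi u z j k = 0 := by
  have hu' : ContDiff ℝ ∞ u := contDiff_of_zero_off hΩ hK hKΩ hu h0
  set P : Fin n → Fin n → V n → ℂ := fun j k z => (G z).adjugate k j * dB k u z with hP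
  set Q : Fin n → Fin n → V n → ℂ := fun j k z => dZ j (fun w => (G w).adjugate k j) z * u z with hQ
  have hP0 : ∀ j k z, z ∉ K → P j k z = 0 := by
    intro j k z hz
    simp only [hP, dB_zero_off hK h0 k z hz, mul_zero]
  have hQ0 : ∀ j k z, z ∉ K → Q j k z = 0 := by
    intro j k z hz
    simp only [hQ, h0 z hz, mul_zero]
  have hPs : ∀ j k, ContDiff ℝ ∞ (P j k) := fun j k =>
    contDiff_of_zero_off hΩ hK hKΩ ((contDiffOn_adj hG k j).mul (contDiffOn_dB hΩ hu k)) (hP0 j k)
  have hQs : ∀ j k, ContDiff ℝ ∞ (Q j k) := fun j k =>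
    contDiff_of_zero_off hΩ hK hKΩ ((contDiffOn_dZ hΩ (contDiffOn_adj hG k j) j).mul hu) (hQ0 j k)
  have hPi : ∀ j k, Integrable (fun z => dZ j (P j k) z) := by
    intro j k
    have h1 : ContDiffOn ℝ ∞ (fun z => dZ j (P j k) z) Set.univ :=
      contDiffOn_dZ isOpen_univ (hPs j k).contDiffOn j
    exact (contDiffOn_univ.mp h1).continuous.integrable_of_hasCompactSupport
      (hasCompactSupport_of_zero_off hK (dZ_zero_off hK (hP0 j k) j))
  have hQi : ∀ j k, Integrable (fun z => dB k (Q j k) z) := by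
    intro j k
    have h1 : ContDiffOn ℝ ∞ (fun z => dB k (Q j k) z) Set.univ :=
      contDiffOn_dB isOpen_univ (hQs j k).contDiffOn k
    exact (contDiffOn_univ.mp h1).continuous.integrable_of_hasCompactSupport
      (hasCompactSupport_of_zero_off hK (dB_zero_off hK (hQ0 j k) k))
  have key : (fun z => ∑ j, ∑ k, (G z).adjugate k j * levi u z j k) =
      fun z => ∑ j, ∑ k, (dZ j (P j k) z - dB k (Q j k) z) := by
    funext z
    by_cases hz : z ∈ Ω
    · have hnh := hΩ.mem_nhds hz
      have e1 : ∀ j k, (G z).adjugate k j * levi u z j k =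
          (dZ j (P j k) z - dB k (Q j k) z) +
            dZ j (fun w => dB k (fun w' => (G w').adjugate k j) w) z * u z := by
        intro j k
        have hA : ContDiffAt ℝ ∞ (fun w => (G w).adjugate k j) z :=
          (contDiffOn_adj hG k j).contDiffAt hnh
        have hA1 : DifferentiableAt ℝ (fun w => (G w).adjugate k j) z :=
          hA.differentiableAt (by simp)
        have hdB : DifferentiableAt ℝ (fun w => dB k u w) z :=
          ((contDiffOn_dB hΩ hu k).contDiffAt hnh).differentiableAt (by simp)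
        have hdZ : DifferentiableAt ℝ (fun w => dZ j (fun w' => (G w').adjugate k j) w) z :=
          ((contDiffOn_dZ hΩ (contDiffOn_adj hG k j) j).contDiffAt hnh).differentiableAt (by simp)
        have hud : DifferentiableAt ℝ u z := hu'.differentiable (by simp) z
        have t1 : dZ j (P j k) z = dZ j (fun w => (G w).adjugate k j) z * dB k u z +
            (G z).adjugate k j * dZ j (fun w => dB k u w) z := dZ_mul hA1 hdB j
        have t2 : dB k (Q j k) z = dB k (fun w => dZ j (fun w' => (G w').adjugate k j) w) z * u z +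
            dZ j (fun w' => (G w').adjugate k j) z * dB k u z := dB_mul hdZ hud k
        have t3 := dZ_dB_comm (hA.of_le two_le_infty) j k
        rw [t1, t2, t3]
        simp only [levi, Matrix.of_apply]
        ring
      calc ∑ j, ∑ k, (G z).adjugate k j * levi u z j k
          = ∑ j, ∑ k, ((dZ j (P j k) z - dB k (Q j k) z) +
            dZ j (fun w => dB k (fun w' => (G w').adjugate k j) w) z * u z) := by
              simp only [e1]
        _ = ∑ j, ∑ k, (dZ j (P j k) z - dB k (Q j k) z) +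
            (∑ j, ∑ k, dZ j (fun w => dB k (fun w' => (G w').adjugate k j) w) z) * u z := by
              simp only [Finset.sum_add_distrib, Finset.sum_mul]
        _ = _ := by rw [hgau z hz]; simp
    · have hzK : z ∉ K := fun h => hz (hKΩ h)
      refine Finset.sum_congr rfl fun j _ => Finset.sum_congr rfl fun k _ => ?_
      rw [dZ_zero_off hK (hP0 j k) j z hzK, dB_zero_off hK (hQ0 j k) k z hzK]
      have : levi u z j k = 0 := by
        simp only [levi, Matrix.of_apply]
        exact dZ_zero_off hK (dB_zero_off hK h0 k) j z hzK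
      rw [this]
      simp
  have hI : ∀ j k, Integrable (fun z => dZ j (P j k) z - dB k (Q j k) z) := fun j k =>
    (hPi j k).sub (hQi j k)
  rw [key]
  refine ⟨integrable_finsetSum _ fun j _ => integrable_finsetSum _ fun k _ => hI j k, ?_⟩
  rw [integral_finsetSum _ fun j _ => integrable_finsetSum _ fun k _ => hI j k]
  refine Finset.sum_eq_zero fun j _ => ?_
  rw [integral_finsetSum _ fun k _ => hI j k]
  refine Finset.sum_eq_zero fun k _ => ?_
  rw [integral_sub (hPi j k) (hQi j k),
    integral_dZ_eq_zero ((hPs j k).of_le (by exact_mod_cast le_top))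
      (hasCompactSupport_of_zero_off hK (hP0 j k)) j,
    integral_dB_eq_zero ((hQs j k).of_le (by exact_mod_cast le_top))
      (hasCompactSupport_of_zero_off hK (hQ0 j k)) k, sub_zero]


theorem continuous_of_charts {ψ : M → ℝ}
    (h : ∀ e ∈ atlas (V n) M, ContinuousOn (fun z => ψ (e.symm z)) e.target) : Continuous ψ := by
  rw [continuous_iff_continuousAt]
  intro x
  have he := chart_mem_atlas (V n) x
  have hx := mem_chart_source (V n) x
  have h1 : ContinuousAt (fun z => ψ ((chartAt (V n) x).symm z)) (chartAt (V n) x x) :=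
    (h _ he).continuousAt ((chartAt (V n) x).open_target.mem_nhds ((chartAt (V n) x).map_source hx))
  have h2 : ContinuousAt (fun y => ψ ((chartAt (V n) x).symm (chartAt (V n) x y))) x :=
    ContinuousAt.comp (f := fun y => chartAt (V n) x y) h1
      ((chartAt (V n) x).continuousAt hx)
  refine h2.congr ?_
  filter_upwards [(chartAt (V n) x).open_source.mem_nhds hx] with y hy
  rw [(chartAt (V n) x).left_inv hy]

variable [T2Space M] [CompactSpace M] [IsManifold 𝓘(ℂ, V n) ω M]

theorem isManifold_real : IsManifold 𝓘(ℝ, V n) ∞ M := by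
  apply isManifold_of_contDiffOn
  intro e e' he he' z hz
  simp only [mfld_simps] at hz ⊢
  have hz' : z ∈ (e.symm.trans e').source := by
    simpa only [mfld_simps] using hz
  have h1 : AnalyticAt ℂ (e.symm.trans e') z := transition_analyticAt he he' hz'
  have h2 : ContDiffAt ℂ ∞ (e.symm.trans e') z := h1.contDiffAt
  have h3 : ContDiffAt ℝ ∞ (e.symm.trans e') z := h2.restrict_scalars ℝ
  exact h3.contDiffWithinAt

theorem exists_partition : ∃ (ι : Type) (_ : Fintype ι)
    (c : ι → OpenPartialHomeomorph M (V n)) (ρ : ι → M → ℝ), (∀ i, c i ∈ atlas (V n) M) ∧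
    (∀ i, ∀ e ∈ atlas (V n) M, ContDiffOn ℝ ∞ (fun z => ρ i (e.symm z)) e.target) ∧
    (∀ i, tsupport (ρ i) ⊆ (c i).source) ∧ ∀ x, ∑ i, ρ i x = 1 := by
  have : IsManifold 𝓘(ℝ, V n) ∞ M := isManifold_real (n := n) (M := M)
  obtain ⟨t, ht⟩ := CompactSpace.elim_nhds_subcover (fun x : M => (chartAt (V n) x).source)
    (fun x => (chartAt (V n) x).open_source.mem_nhds (mem_chart_source (V n) x))
  obtain ⟨P, hP⟩ := SmoothPartitionOfUnity.exists_isSubordinate 𝓘(ℝ, V n)
    (isClosed_univ (X := M)) (fun i : t => (chartAt (V n) (i : M)).source)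
    (fun i => (chartAt (V n) (i : M)).open_source) (by
      intro x _
      have hx : x ∈ (⋃ y ∈ t, (chartAt (V n) y).source : Set M) := by rw [ht]; trivial
      simp only [Set.mem_iUnion] at hx ⊢
      obtain ⟨y, hy, hxy⟩ := hx
      exact ⟨⟨y, hy⟩, hxy⟩)
  refine ⟨t, inferInstance, fun i => chartAt (V n) (i : M), fun i => P i,
    fun i => chart_mem_atlas (V n) _, ?_, fun i => hP i, ?_⟩
  · intro i e he
    have h1 : ContMDiffOn 𝓘(ℝ, V n) 𝓘(ℝ, V n) ∞ e.symm e.target :=
      contMDiffOn_symm_of_mem_maximalAtlas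
        (IsManifold.subset_maximalAtlas (I := 𝓘(ℝ, V n)) (n := ∞) he)
    have h2 : ContMDiffOn 𝓘(ℝ, V n) 𝓘(ℝ, ℝ) ∞ (P i ∘ e.symm) e.target :=
      (P i).contMDiff.comp_contMDiffOn h1
    exact contMDiffOn_iff_contDiffOn.mp h2
  · intro x
    have := P.sum_eq_one (Set.mem_univ x)
    rwa [finsum_eq_sum_of_fintype] at this

theorem lapl_invariant (g : HermitianMetric n M) {f : M → ℝ}
    (hf : ∀ e ∈ atlas (V n) M, ContDiffOn ℝ ∞ (fun z => f (e.symm z)) e.target)
    {e e' : OpenPartialHomeomorph M (V n)} (he : e ∈ atlas (V n) M)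
    (he' : e' ∈ atlas (V n) M) {z : V n} (hz : z ∈ (e.symm.trans e').source) :
    lapl (g.g e) (fun w => ((f (e.symm w) : ℝ) : ℂ)) z =
      lapl (g.g e') (fun w => ((f (e'.symm w) : ℝ) : ℂ)) ((e.symm.trans e') z) := by
  have hz2 : (e.symm.trans e') z ∈ e'.target := by
    have := hz
    simp only [mfld_simps] at this ⊢
    exact e'.map_source this.2
  have h1 : (fun w => ((f (e.symm w) : ℝ) : ℂ)) =ᶠ[𝓝 z]
      fun w => (fun w' => ((f (e'.symm w') : ℝ) : ℂ)) ((e.symm.trans e') w) := by
    filter_upwards [(e.symm.trans e').open_source.mem_nhds hz] with w hw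
    have hw' : e.symm w ∈ e'.source := by
      simp only [mfld_simps] at hw
      exact hw.2
    simp only [OpenPartialHomeomorph.coe_trans, Function.comp_apply, e'.left_inv hw']
  have hsm : ContDiffAt ℝ 2 (fun w' => ((f (e'.symm w') : ℝ) : ℂ)) ((e.symm.trans e') z) := by
    have h3 : ContDiffAt ℝ ∞ (fun w' => f (e'.symm w')) ((e.symm.trans e') z) :=
      (hf e' he').contDiffAt (e'.open_target.mem_nhds hz2)
    exact (Complex.ofRealCLM.contDiff.contDiffAt.comp _ h3).of_le two_le_infty
  unfold lapl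
  rw [levi_congr h1, levi_comp (transition_analyticAt he he' hz) hsm, g.compat e he e' he' z hz,
    trace_pull _ _ _ (isUnit_det_jac_transition he he' hz)]

end StokesAux

open StokesAux

variable [T2Space M] [CompactSpace M] [IsManifold 𝓘(ℂ, V n) ω M]

/-- For a Gauduchon metric the integral of the Chern Laplacian of a smooth function vanishes. -/
theorem HermitianMetric.integral_laplacian (g : HermitianMetric n M) (hG : g.IsGauduchon)
    {μ : @Measure M (borel M)} (hμ : g.IsVolume μ) (f : M → ℝ)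
    (hf : ∀ e ∈ atlas (V n) M, ContDiffOn ℝ ∞ (fun z => f (e.symm z)) e.target)
    (φ : M → ℝ) (hφ : ∀ e ∈ atlas (V n) M, ∀ z ∈ e.target, φ (e.symm z) =
      (∑ j, ∑ k, (g.g e z)⁻¹ k j * levi (fun w => ((f (e.symm w) : ℝ) : ℂ)) z j k).re) :
    @integral M ℝ _ _ (borel M) μ φ = 0 := by
  let _ : MeasurableSpace M := borel M
  have : BorelSpace M := ⟨rfl⟩
  have : IsFiniteMeasure μ := g.isFiniteMeasure_of_isVolume hμ
  obtain ⟨ι, _, c, ρ, hc, hρ, hsupp, hsum⟩ := exists_partition (n := n) (M := M)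
  set F : ι → M → ℝ := fun i x => ρ i x * f x with hFdef
  have hF : ∀ i, ∀ e ∈ atlas (V n) M, ContDiffOn ℝ ∞ (fun z => F i (e.symm z)) e.target :=
    fun i e he => (hρ i e he).mul (hf e he)
  have hFc : ∀ i, ∀ e ∈ atlas (V n) M,
      ContDiffOn ℝ ∞ (fun z => ((F i (e.symm z) : ℝ) : ℂ)) e.target :=
    fun i e he => Complex.ofRealCLM.contDiff.comp_contDiffOn (hF i e he)
  have hF0 : ∀ i x, x ∉ tsupport (ρ i) → F i x = 0 := by
    intro i x hx
    simp only [hFdef, image_eq_zero_of_notMem_tsupport hx, zero_mul]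
  set φi : ι → M → ℝ := fun i x => lapl (g.g (chartAt (V n) x))
    (fun w => ((F i ((chartAt (V n) x).symm w) : ℝ) : ℂ)) (chartAt (V n) x x) with hφidef
  have hφi : ∀ i, ∀ e ∈ atlas (V n) M, ∀ z ∈ e.target, φi i (e.symm z) =
      lapl (g.g e) (fun w => ((F i (e.symm w) : ℝ) : ℂ)) z := by
    intro i e he z hz
    have hmem : z ∈ (e.symm.trans (chartAt (V n) (e.symm z))).source := by
      simp only [mfld_simps]
      exact hz
    exact (lapl_invariant g (hF i) he (chart_mem_atlas (V n) (e.symm z)) hmem).symm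
  have hcont : ∀ i, Continuous (φi i) := fun i =>
    continuous_of_charts (n := n) fun e he =>
      (continuousOn_lapl e.open_target (g.smooth e he) (g.posDef e he) (hFc i e he)).congr
        fun z hz => hφi i e he z hz
  have hint : ∀ i, Integrable (φi i) μ := fun i =>
    (hcont i).integrable_of_hasCompactSupport (HasCompactSupport.of_compactSpace _)
  have hsumφ : φ = fun x => ∑ i, φi i x := by
    funext x
    have he := chart_mem_atlas (V n) x
    have hx := mem_chart_source (V n) x
    have hz := (chartAt (V n) x).map_source hx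
    have h1 := hφ _ he _ hz
    rw [(chartAt (V n) x).left_inv hx] at h1
    rw [h1]
    have h2 : (fun w => ((f ((chartAt (V n) x).symm w) : ℝ) : ℂ)) =
        fun w => ∑ i, ((F i ((chartAt (V n) x).symm w) : ℝ) : ℂ) := by
      funext w
      rw [← Complex.ofReal_sum]
      congr 1
      simp only [hFdef, ← Finset.sum_mul, hsum, one_mul]
    rw [h2]
    exact lapl_sum (chartAt (V n) x).open_target (fun i => hFc i _ he) hz Finset.univ
  have hzero : ∀ i x, x ∉ tsupport (ρ i) → φi i x = 0 := by
    intro i x hx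
    have hxs := mem_chart_source (V n) x
    have hz := (chartAt (V n) x).map_source hxs
    have h1 : ContinuousAt (chartAt (V n) x).symm (chartAt (V n) x x) :=
      (chartAt (V n) x).symm.continuousAt hz
    have h2 : (tsupport (ρ i))ᶜ ∈ 𝓝 ((chartAt (V n) x).symm (chartAt (V n) x x)) := by
      rw [(chartAt (V n) x).left_inv hxs]
      exact (isClosed_tsupport _).isOpen_compl.mem_nhds hx
    have h3 : (fun w => ((F i ((chartAt (V n) x).symm w) : ℝ) : ℂ)) =ᶠ[𝓝 (chartAt (V n) x x)]
        fun _ => 0 := by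
      filter_upwards [h1 h2] with w hw
      rw [hF0 i _ hw, Complex.ofReal_zero]
    simp only [hφidef]
    rw [lapl_congr h3, lapl_zero]
  have hzi : ∀ i, ∫ x, φi i x ∂μ = 0 := by
    intro i
    set e := c i with hedef
    have he : e ∈ atlas (V n) M := hc i
    have hsrc : e.source = e.symm '' e.target := (e.symm.image_source_eq_target).symm
    have h1 : ∫ x, φi i x ∂μ = ∫ x in e.symm '' e.target, φi i x ∂μ := by
      rw [setIntegral_eq_integral_of_forall_compl_eq_zero]
      intro x hx
      refine hzero i x fun h => hx ?_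
      rw [← hsrc]
      exact hsupp i h
    rw [h1]
    have h2 := g.setIntegral_chart hμ he e.open_target.measurableSet (subset_refl _) (φi i)
    rw [h2]
    set K : Set (V n) := e '' tsupport (ρ i) with hKdef
    have hKc : IsCompact K := (isClosed_tsupport (ρ i)).isCompact.image_of_continuousOn
      (e.continuousOn.mono (hsupp i))
    have hKt : K ⊆ e.target := by
      rintro _ ⟨x, hx, rfl⟩
      exact e.map_source (hsupp i hx)
    classical
    set u : V n → ℂ := fun z => if z ∈ e.target then ((F i (e.symm z) : ℝ) : ℂ) else 0 with hu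
    have hu0 : ∀ z, z ∉ K → u z = 0 := by
      intro z hz
      simp only [hu]
      split_ifs with hzt
      · rw [hF0, Complex.ofReal_zero]
        intro h
        exact hz ⟨e.symm z, h, e.right_inv hzt⟩
      · rfl
    have hus : ContDiffOn ℝ ∞ u e.target := by
      refine (hFc i e he).congr fun z hz => ?_
      simp only [hu, if_pos hz]
    have hueq : ∀ z ∈ e.target, (fun w => ((F i (e.symm w) : ℝ) : ℂ)) =ᶠ[𝓝 z] u := by
      intro z hz
      filter_upwards [e.open_target.mem_nhds hz] with w hw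
      simp only [hu, if_pos hw]
    obtain ⟨hI, hS⟩ := local_stokes e.open_target (g.smooth e he) (hG e he) hKc hKt hus hu0
    have h3 : ∫ z in e.target, φi i (e.symm z) * (2 ^ n * (g.g e z).det.re) =
        ∫ z in e.target, 2 ^ n * (∑ j, ∑ k, (g.g e z).adjugate k j * levi u z j k).re := by
      refine setIntegral_congr_fun e.open_target.measurableSet fun z hz => ?_
      rw [hφi i e he z hz, lapl_congr (hueq z hz)]
      exact lapl_mul_det (g.posDef e he z hz) (levi u z)
    rw [h3, setIntegral_eq_integral_of_forall_compl_eq_zero, integral_const_mul]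
    · have h4 : ∫ z, (∑ j, ∑ k, (g.g e z).adjugate k j * levi u z j k).re =
          (∫ z, ∑ j, ∑ k, (g.g e z).adjugate k j * levi u z j k).re :=
        Complex.reCLM.integral_comp_comm hI
      rw [h4, hS]
      simp
    · intro z hz
      have hzK : z ∉ K := fun h => hz (hKt h)
      have : ∀ j k, levi u z j k = 0 := by
        intro j k
        simp only [levi, Matrix.of_apply]
        exact dZ_zero_off hKc (dB_zero_off hKc hu0 k) j z hzK
      simp [this]
  rw [hsumφ]
  change ∫ x, ∑ i, φi i x ∂μ = 0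
  rw [integral_finsetSum _ fun i _ => hint i]
  exact Finset.sum_eq_zero fun i _ => hzi i

/-- The total Chern scalar curvature of a Gauduchon metric can be computed with any metric on
the anticanonical bundle. -/
theorem HermitianMetric.total_eq (g : HermitianMetric n M) (hG : g.IsGauduchon)
    (h : ConfMetric n M)
    (φ : M → ℝ) (hφ : ∀ e ∈ atlas (V n) M, ∀ z ∈ e.target, φ (e.symm z) =
      -(∑ j, ∑ k, (g.g e z)⁻¹ k j * levi (fun w => ((Real.log (h.h e w) : ℝ) : ℂ)) z j k).re) :
    g.total = @integral M ℝ _ _ (borel M) g.volume φ := by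
  let _ : MeasurableSpace M := borel M
  have : BorelSpace M := ⟨rfl⟩
  have hμ := g.isVolume_volume
  have : IsFiniteMeasure g.volume := g.isFiniteMeasure_of_isVolume hμ
  -- smoothness
  have hlogdet : ∀ e ∈ atlas (V n) M,
      ContDiffOn ℝ ∞ (fun z => Real.log (g.g e z).det.re) e.target := by
    intro e he
    refine ContDiffOn.log ?_ fun z hz => (det_re_pos (g.posDef e he z hz)).ne'
    exact Complex.reCLM.contDiff.comp_contDiffOn (contDiffOn_det (g.smooth e he))
  have hlogh : ∀ e ∈ atlas (V n) M,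
      ContDiffOn ℝ ∞ (fun z => Real.log (h.h e z)) e.target := fun e he =>
    (h.smooth e he).log fun z hz => (h.pos e he z hz).ne'
  have hc : ∀ {t : V n → ℝ} {Ω : Set (V n)}, ContDiffOn ℝ ∞ t Ω →
      ContDiffOn ℝ ∞ (fun z => ((t z : ℝ) : ℂ)) Ω := fun ht =>
    Complex.ofRealCLM.contDiff.comp_contDiffOn ht
  set f : M → ℝ := fun x => Real.log (g.g (chartAt (V n) x) (chartAt (V n) x x)).det.re -
    Real.log (h.h (chartAt (V n) x) (chartAt (V n) x x)) with hfdef
  have hfe : ∀ e ∈ atlas (V n) M, ∀ z ∈ e.target, f (e.symm z) =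
      Real.log (g.g e z).det.re - Real.log (h.h e z) := by
    intro e he z hz
    set e' := chartAt (V n) (e.symm z) with he'def
    have he' : e' ∈ atlas (V n) M := chart_mem_atlas (V n) (e.symm z)
    have hsrc : e.symm z ∈ e'.source := mem_chart_source (V n) (e.symm z)
    have hmem : z ∈ (e.symm.trans e').source := by
      simp only [mfld_simps]
      exact ⟨hz, hsrc⟩
    have hz' : e' (e.symm z) ∈ e'.target := e'.map_source hsrc
    have h1 := g.compat e he e' he' z hmem
    have h2 := h.compat e he e' he' z hmem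
    have hJ := isUnit_det_jac_transition he he' hmem
    have h3 : (g.g e z).det = Complex.normSq (jac (e.symm.trans e') z).det *
        (g.g e' ((e.symm.trans e') z)).det := by rw [h1, det_pull]
    have h4 : (g.g e z).det.re = Complex.normSq (jac (e.symm.trans e') z).det *
        (g.g e' ((e.symm.trans e') z)).det.re := by rw [h3, Complex.re_ofReal_mul]
    have hN : Complex.normSq (jac (e.symm.trans e') z).det ≠ 0 := by
      rw [Ne, Complex.normSq_eq_zero]
      exact hJ.ne_zero
    have hco : (e.symm.trans e') z = e' (e.symm z) := rfl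
    rw [hco] at h2 h4
    have p1 := (det_re_pos (g.posDef e' he' _ hz')).ne'
    have p2 := (h.pos e' he' _ hz').ne'
    simp only [hfdef]
    rw [h4, h2, Real.log_mul hN p1, Real.log_mul hN p2]
    ring
  have hf : ∀ e ∈ atlas (V n) M, ContDiffOn ℝ ∞ (fun z => f (e.symm z)) e.target := fun e he =>
    ((hlogdet e he).sub (hlogh e he)).congr fun z hz => hfe e he z hz
  have hscal : ∀ e ∈ atlas (V n) M, ∀ z ∈ e.target, g.scal (e.symm z) =
      -lapl (g.g e) (fun w => ((Real.log (g.g e w).det.re : ℝ) : ℂ)) z := by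
    intro e he z hz
    rw [g.scal_eq he hz]
    rfl
  have hφ' : ∀ e ∈ atlas (V n) M, ∀ z ∈ e.target, φ (e.symm z) =
      -lapl (g.g e) (fun w => ((Real.log (h.h e w) : ℝ) : ℂ)) z := hφ
  have hcs : Continuous g.scal := continuous_of_charts (n := n) fun e he =>
    (continuousOn_lapl e.open_target (g.smooth e he) (g.posDef e he) (hc (hlogdet e he))).neg.congr
      fun z hz => hscal e he z hz
  have hcφ : Continuous φ := continuous_of_charts (n := n) fun e he =>
    (continuousOn_lapl e.open_target (g.smooth e he) (g.posDef e he) (hc (hlogh e he))).neg.congr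
      fun z hz => hφ' e he z hz
  have his : Integrable g.scal g.volume :=
    hcs.integrable_of_hasCompactSupport (HasCompactSupport.of_compactSpace _)
  have hiφ : Integrable φ g.volume :=
    hcφ.integrable_of_hasCompactSupport (HasCompactSupport.of_compactSpace _)
  have key := g.integral_laplacian hG hμ f hf (fun x => φ x - g.scal x) (by
    intro e he z hz
    change φ (e.symm z) - g.scal (e.symm z) =
      lapl (g.g e) (fun w => ((f (e.symm w) : ℝ) : ℂ)) z
    rw [hscal e he z hz, hφ' e he z hz]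
    have h5 : (fun w => ((Real.log (g.g e w).det.re : ℝ) : ℂ)) =ᶠ[𝓝 z]
        fun w => ((f (e.symm w) : ℝ) : ℂ) + ((Real.log (h.h e w) : ℝ) : ℂ) := by
      filter_upwards [e.open_target.mem_nhds hz] with w hw
      rw [hfe e he w hw]
      push_cast
      ring
    rw [lapl_congr h5, lapl_add e.open_target (hc (hf e he)) (hc (hlogh e he)) hz]
    ring)
  have key2 : ∫ x, (φ x - g.scal x) ∂g.volume = 0 := key
  rw [integral_sub hiφ his] at key2
  change ∫ x, g.scal x ∂g.volume = ∫ x, φ x ∂g.volume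
  linarith

theorem HermitianMetric.IsKahler.isGauduchon {g : HermitianMetric n M} (hg : g.IsKahler) :
    g.IsGauduchon := by
  intro e he z hz
  exact gauduchon_of_closed e.open_target
    ⟨g.smooth e he, fun w hw => (g.posDef e he w hw).isHermitian, hg e he⟩ (g.posDef e he) hz

end Stokes

end

end GK
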