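import Pool.Agent.GK.Glue
import Pool.Agent.GK.Stokes

/-! # Module GlueMetric -/

open scoped ContDiff Manifold Topology ComplexOrder
open MeasureTheory

namespace GK

noncomputable section

namespace Pres

variable {n : ℕ} (P : Pres n)

/-- a Hermitian metric on the level of the presentation -/
structure Metric where
  g : P.ι → V n → Matrix (Fin n) (Fin n) ℂ
  smooth : ∀ i j k, ContDiffOn ℝ ∞ (fun z => g i z j k) (P.U i)
  posDef : ∀ i, ∀ z ∈ P.U i, (g i z).PosDef
  compat : ∀ i j z w, z ∈ P.U i → w ∈ P.U j → P.π i z = P.π j w →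
    ∃ h : V n → V n, AnalyticAt ℂ h z ∧ h z = w ∧ (∀ᶠ z' in 𝓝 z, P.π j (h z') = P.π i z') ∧
      g i z = pull (jac h z) (g j w)

/-! ### charts and indices -/

namespace GMAux

open Classical in
/-- the index of a chart -/
def idx {P : Pres n} (e : OpenPartialHomeomorph P.Mfd (V n)) (he : e ∈ atlas (V n) P.Mfd) : P.ι :=
  (P.exists_index he).choose

variable {P : Pres n}

lemma idx_sub {e : OpenPartialHomeomorph P.Mfd (V n)} (he : e ∈ atlas (V n) P.Mfd) :
    e.target ⊆ P.U (idx e he) := (P.exists_index he).choose_spec.1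

lemma idx_symm {e : OpenPartialHomeomorph P.Mfd (V n)} (he : e ∈ atlas (V n) P.Mfd) :
    ∀ z ∈ e.target, e.symm z = P.proj (idx e he) z := (P.exists_index he).choose_spec.2

/-- a transition map is a lift -/
lemma transition_lift {e e' : OpenPartialHomeomorph P.Mfd (V n)} {i j : P.ι}
    (h : ∀ z ∈ e.target, e.symm z = P.proj i z)
    (h' : ∀ z ∈ e'.target, e'.symm z = P.proj j z) {z : V n} (hz : z ∈ (e.symm.trans e').source) :
    ∀ᶠ z' in 𝓝 z, P.π j ((e.symm.trans e') z') = P.π i z' := by
  filter_upwards [(e.symm.trans e').open_source.mem_nhds hz] with z' hz'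
  have h1 : z' ∈ e.target := by
    have := hz'
    rw [OpenPartialHomeomorph.trans_source, OpenPartialHomeomorph.symm_source] at this
    exact this.1
  have h2 : e.symm z' ∈ e'.source := by
    have := hz'
    rw [OpenPartialHomeomorph.trans_source] at this
    exact this.2
  have h3 : (e.symm.trans e') z' = e' (e.symm z') := rfl
  rw [h3]
  have h4 := h' (e' (e.symm z')) (e'.map_source h2)
  rw [e'.left_inv h2] at h4
  have h5 := h z' h1
  show P.proj j (e' (e.symm z')) = P.proj i z'
  rw [← h4, h5]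

lemma source_iff {e e' : OpenPartialHomeomorph P.Mfd (V n)} {z : V n} :
    z ∈ (e.symm.trans e').source ↔ z ∈ e.target ∧ e.symm z ∈ e'.source := by
  rw [OpenPartialHomeomorph.trans_source, OpenPartialHomeomorph.symm_source]
  rfl

/-- any lift agrees with the transition map -/
lemma lift_eq_transition {e e' : OpenPartialHomeomorph P.Mfd (V n)} {i j : P.ι}
    (hi : e.target ⊆ P.U i) (hj : e'.target ⊆ P.U j)
    (h : ∀ z ∈ e.target, e.symm z = P.proj i z)
    (h' : ∀ z ∈ e'.target, e'.symm z = P.proj j z) {z : V n} (hz : z ∈ (e.symm.trans e').source)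
    {k : V n → V n} (hk : AnalyticAt ℂ k z) (hkz : k z = (e.symm.trans e') z)
    (hl : ∀ᶠ z' in 𝓝 z, P.π j (k z') = P.π i z') :
    k =ᶠ[𝓝 z] (e.symm.trans e') := by
  have hz1 := (source_iff.mp hz)
  have hw : (e.symm.trans e') z ∈ e'.target := by
    show e' (e.symm z) ∈ e'.target
    exact e'.map_source hz1.2
  exact P.lift_unique (hi hz1.1) hk.continuousAt
    ((e.symm.trans e').continuousAt hz) (by rw [hkz]; exact hj hw) hkz hl
    (transition_lift h h' hz)

/-- two charts from the same index with a common point in the target agree there -/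
lemma transition_eq_id {e e' : OpenPartialHomeomorph P.Mfd (V n)} {i : P.ι}
    (h : ∀ z ∈ e.target, e.symm z = P.proj i z)
    (h' : ∀ z ∈ e'.target, e'.symm z = P.proj i z) {z : V n} (hz : z ∈ e.target)
    (hz' : z ∈ e'.target) :
    z ∈ (e.symm.trans e').source ∧ (e.symm.trans e') =ᶠ[𝓝 z] (fun w => w) := by
  have hs : e.symm z ∈ e'.source := by
    rw [h z hz, ← h' z hz']
    exact e'.map_target hz'
  refine ⟨source_iff.mpr ⟨hz, hs⟩, ?_⟩
  filter_upwards [(e.open_target.inter e'.open_target).mem_nhds ⟨hz, hz'⟩] with w hw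
  show e' (e.symm w) = w
  rw [h w hw.1, ← h' w hw.2, e'.right_inv hw.2]

end GMAux

open GMAux

open Classical in
/-- from presentation metrics to metrics -/
def Metric.toMetric {P : Pres n} (G : P.Metric) : HermitianMetric n P.Mfd where
  g e z := if he : e ∈ atlas (V n) P.Mfd then G.g (idx e he) z else 0
  smooth e he j k := by
    simp only [dif_pos he]
    exact (G.smooth _ j k).mono (idx_sub he)
  posDef e he z hz := by
    simp only [dif_pos he]
    exact G.posDef _ z (idx_sub he hz)
  compat e he e' he' z hz := by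
    simp only [dif_pos he, dif_pos he']
    have hz1 := (source_iff.mp hz)
    have hw : (e.symm.trans e') z ∈ e'.target := by
      show e' (e.symm z) ∈ e'.target
      exact e'.map_source hz1.2
    obtain ⟨k, hk, hkz, hl, hg⟩ := G.compat (idx e he) (idx e' he') z ((e.symm.trans e') z)
      (idx_sub he hz1.1) (idx_sub he' hw)
      ((transition_lift (idx_symm he) (idx_symm he') hz).self_of_nhds.symm)
    rw [hg, jac_congr (lift_eq_transition (idx_sub he) (idx_sub he') (idx_symm he) (idx_symm he')
      hz hk hkz hl)]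

theorem GMAux.pull_one (g : Matrix (Fin n) (Fin n) ℂ) : pull 1 g = g := by
  unfold pull
  simp [Matrix.transpose_one]

theorem Metric.toMetric_g {P : Pres n} (G : P.Metric) {e : OpenPartialHomeomorph P.Mfd (V n)}
    (he : e ∈ atlas (V n) P.Mfd) {i : P.ι} (hi : e.target ⊆ P.U i)
    (h : ∀ z ∈ e.target, e.symm z = P.proj i z) {z : V n} (hz : z ∈ e.target) :
    G.toMetric.g e z = G.g i z := by
  have h0 : G.toMetric.g e z = G.g (idx e he) z := by
    simp only [Metric.toMetric, dif_pos he]
  rw [h0]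
  have hs : P.π (idx e he) z = P.π i z := (idx_symm he z hz).symm.trans (h z hz)
  obtain ⟨k, hk, hkz, hl, hg⟩ := G.compat (idx e he) i z z (idx_sub he hz) (hi hz) hs
  have hid : ∀ᶠ z' in 𝓝 z, P.π i ((fun w => w) z') = P.π (idx e he) z' := by
    filter_upwards [e.open_target.mem_nhds hz] with z' hz'
    exact (h z' hz').symm.trans (idx_symm he z' hz')
  have hk2 : k =ᶠ[𝓝 z] fun w => w :=
    P.lift_unique (idx_sub he hz) hk.continuousAt continuousAt_id (by rw [hkz]; exact hi hz) hkz
      hl hid
  rw [hg, jac_congr hk2, jac_id, pull_one]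

/-- the form in a chart agrees with the form of the presentation near a point -/
theorem GMAux.toMetric_eventually {P : Pres n} (G : P.Metric)
    {e : OpenPartialHomeomorph P.Mfd (V n)}
    (he : e ∈ atlas (V n) P.Mfd) {z : V n} (hz : z ∈ e.target) :
    ∀ᶠ w in 𝓝 z, G.toMetric.g e w = G.g (idx e he) w := by
  filter_upwards [e.open_target.mem_nhds hz] with w hw
  exact G.toMetric_g he (idx_sub he) (idx_symm he) hw

theorem Metric.isKahler {P : Pres n} (G : P.Metric) (h : ∀ i, KForm (G.g i) (P.U i)) :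
    G.toMetric.IsKahler := by
  intro e he z hz i j k
  have hev := toMetric_eventually G he hz
  rw [dZ_congr (hev.mono fun w hw => congrFun (congrFun hw j) k :
      (fun w => G.toMetric.g e w j k) =ᶠ[𝓝 z] fun w => G.g (idx e he) w j k),
    dZ_congr (hev.mono fun w hw => congrFun (congrFun hw i) k :
      (fun w => G.toMetric.g e w i k) =ᶠ[𝓝 z] fun w => G.g (idx e he) w i k)]
  exact (h (idx e he)).closed z (idx_sub he hz) i j k

theorem Metric.isGauduchon {P : Pres n} (G : P.Metric) (h : ∀ i, ∀ z ∈ P.U i,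
    ∑ j, ∑ k, dZ j (fun w => dB k (fun w' => (G.g i w').adjugate k j) w) z = 0) :
    G.toMetric.IsGauduchon := by
  intro e he z hz
  rw [← h (idx e he) z (idx_sub he hz)]
  refine Finset.sum_congr rfl fun j _ => Finset.sum_congr rfl fun k _ => ?_
  refine dZ_congr ?_ j
  filter_upwards [e.open_target.mem_nhds hz] with w hw
  refine dB_congr ?_ k
  exact (toMetric_eventually G he hw).mono fun w' hw' => by simp only [hw']

/-! ### from metrics to presentation metrics -/

namespace GMAux

variable {P : Pres n}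

/-- the chosen chart around a point of `U i` -/
def cht (i : P.ι) {z : V n} (hz : z ∈ P.U i) : OpenPartialHomeomorph P.Mfd (V n) :=
  (P.exists_chart i hz).choose

lemma cht_mem (i : P.ι) {z : V n} (hz : z ∈ P.U i) : cht i hz ∈ atlas (V n) P.Mfd :=
  (P.exists_chart i hz).choose_spec.1

lemma cht_z (i : P.ι) {z : V n} (hz : z ∈ P.U i) : z ∈ (cht i hz).target :=
  (P.exists_chart i hz).choose_spec.2.1

lemma cht_sub (i : P.ι) {z : V n} (hz : z ∈ P.U i) : (cht i hz).target ⊆ P.U i :=
  (P.exists_chart i hz).choose_spec.2.2.1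

lemma cht_symm (i : P.ι) {z : V n} (hz : z ∈ P.U i) :
    ∀ w ∈ (cht i hz).target, (cht i hz).symm w = P.proj i w :=
  (P.exists_chart i hz).choose_spec.2.2.2

lemma metric_eq (g : HermitianMetric n P.Mfd) {e e' : OpenPartialHomeomorph P.Mfd (V n)}
    (he : e ∈ atlas (V n) P.Mfd) (he' : e' ∈ atlas (V n) P.Mfd) {i : P.ι}
    (h : ∀ z ∈ e.target, e.symm z = P.proj i z)
    (h' : ∀ z ∈ e'.target, e'.symm z = P.proj i z) {z : V n} (hz : z ∈ e.target)
    (hz' : z ∈ e'.target) : g.g e z = g.g e' z := by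
  obtain ⟨h1, h2⟩ := transition_eq_id h h' hz hz'
  rw [g.compat e he e' he' z h1, jac_congr h2, jac_id, pull_one, h2.self_of_nhds]

open Classical in
/-- the local forms of a metric in the parametrisations -/
def form (g : HermitianMetric n P.Mfd) (i : P.ι) (z : V n) : Matrix (Fin n) (Fin n) ℂ :=
  if hz : z ∈ P.U i then g.g (cht i hz) z else 0

lemma form_eq (g : HermitianMetric n P.Mfd) {e : OpenPartialHomeomorph P.Mfd (V n)}
    (he : e ∈ atlas (V n) P.Mfd) {i : P.ι} (hi : e.target ⊆ P.U i)
    (h : ∀ z ∈ e.target, e.symm z = P.proj i z) {z : V n} (hz : z ∈ e.target) :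
    form g i z = g.g e z := by
  unfold form
  rw [dif_pos (hi hz)]
  exact metric_eq g (cht_mem i (hi hz)) he (cht_symm i (hi hz)) h (cht_z i (hi hz)) hz

lemma form_eventually (g : HermitianMetric n P.Mfd) (i : P.ι) {z : V n} (hz : z ∈ P.U i) :
    ∀ᶠ w in 𝓝 z, form g i w = g.g (cht i hz) w := by
  filter_upwards [(cht i hz).open_target.mem_nhds (cht_z i hz)] with w hw
  exact form_eq g (cht_mem i hz) (cht_sub i hz) (cht_symm i hz) hw

/-- the transition between the chosen charts at two points with the same image -/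
lemma trans_data (i j : P.ι) {z w : V n} (hz : z ∈ P.U i) (hw : w ∈ P.U j)
    (hzw : P.π i z = P.π j w) :
    z ∈ ((cht i hz).symm.trans (cht j hw)).source ∧
      ((cht i hz).symm.trans (cht j hw)) z = w := by
  have h1 : (cht i hz).symm z = (cht j hw).symm w := by
    rw [cht_symm i hz z (cht_z i hz), cht_symm j hw w (cht_z j hw)]
    exact hzw
  refine ⟨source_iff.mpr ⟨cht_z i hz, ?_⟩, ?_⟩
  · rw [h1]; exact (cht j hw).map_target (cht_z j hw)
  · show (cht j hw) ((cht i hz).symm z) = w
    rw [h1, (cht j hw).right_inv (cht_z j hw)]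

end GMAux

/-- from metrics to presentation metrics -/
def ofMetric (g : HermitianMetric n P.Mfd) : P.Metric where
  g := form g
  smooth i j k := by
    intro z hz
    have h1 : ContDiffAt ℝ ∞ (fun w => g.g (cht i hz) w j k) z :=
      (g.smooth _ (cht_mem i hz) j k).contDiffAt
        ((cht i hz).open_target.mem_nhds (cht_z i hz))
    refine (h1.congr_of_eventuallyEq ?_).contDiffWithinAt
    exact (form_eventually g i hz).mono fun w hw => by simp only [hw]
  posDef i z hz := by
    rw [(form_eventually g i hz).self_of_nhds]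
    exact g.posDef _ (cht_mem i hz) z (cht_z i hz)
  compat i j z w hz hw hzw := by
    obtain ⟨h1, h2⟩ := trans_data i j hz hw hzw
    refine ⟨(cht i hz).symm.trans (cht j hw), transition_analyticAt (cht_mem i hz)
      (cht_mem j hw) h1, h2, transition_lift (cht_symm i hz) (cht_symm j hw) h1, ?_⟩
    rw [(form_eventually g i hz).self_of_nhds, (form_eventually g j hw).self_of_nhds,
      g.compat _ (cht_mem i hz) _ (cht_mem j hw) z h1, h2]

theorem ofMetric_g (g : HermitianMetric n P.Mfd) {e : OpenPartialHomeomorph P.Mfd (V n)}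
    (he : e ∈ atlas (V n) P.Mfd) {i : P.ι} (hi : e.target ⊆ P.U i)
    (h : ∀ z ∈ e.target, e.symm z = P.proj i z) {z : V n} (hz : z ∈ e.target) :
    (P.ofMetric g).g i z = g.g e z := form_eq g he hi h hz

theorem ofMetric_kform {g : HermitianMetric n P.Mfd} (hg : g.IsKahler) (i : P.ι) :
    KForm ((P.ofMetric g).g i) (P.U i) where
  smooth := (P.ofMetric g).smooth i
  herm z hz := ((P.ofMetric g).posDef i z hz).isHermitian
  closed z hz a j k := by
    have hev := form_eventually g i hz
    have h1 : (fun w => (P.ofMetric g).g i w j k) =ᶠ[𝓝 z] fun w => g.g (cht i hz) w j k :=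
      hev.mono fun w hw => by
        show form g i w j k = _
        rw [hw]
    have h2 : (fun w => (P.ofMetric g).g i w a k) =ᶠ[𝓝 z] fun w => g.g (cht i hz) w a k :=
      hev.mono fun w hw => by
        show form g i w a k = _
        rw [hw]
    rw [dZ_congr h1, dZ_congr h2]
    exact hg _ (cht_mem i hz) z (cht_z i hz) a j k

/-- a metric on the anticanonical bundle, presentation level -/
structure Conf where
  h : P.ι → V n → ℝ
  smooth : ∀ i, ContDiffOn ℝ ∞ (h i) (P.U i)
  pos : ∀ i, ∀ z ∈ P.U i, 0 < h i z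
  compat : ∀ i j z w, z ∈ P.U i → w ∈ P.U j → P.π i z = P.π j w →
    ∃ k : V n → V n, AnalyticAt ℂ k z ∧ k z = w ∧ (∀ᶠ z' in 𝓝 z, P.π j (k z') = P.π i z') ∧
      h i z = Complex.normSq (jac k z).det * h j w

namespace GMAux

variable {P : Pres n}

open Classical in
/-- the metric on the anticanonical bundle of the manifold -/
def toConf (h : P.Conf) : ConfMetric n P.Mfd where
  h e z := if he : e ∈ atlas (V n) P.Mfd then h.h (idx e he) z else 1
  smooth e he := by
    simp only [dif_pos he]
    exact (h.smooth _).mono (idx_sub he)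
  pos e he z hz := by
    simp only [dif_pos he]
    exact h.pos _ z (idx_sub he hz)
  compat e he e' he' z hz := by
    simp only [dif_pos he, dif_pos he']
    have hz1 := (source_iff.mp hz)
    have hw : (e.symm.trans e') z ∈ e'.target := by
      show e' (e.symm z) ∈ e'.target
      exact e'.map_source hz1.2
    obtain ⟨k, hk, hkz, hl, hg⟩ := h.compat (idx e he) (idx e' he') z ((e.symm.trans e') z)
      (idx_sub he hz1.1) (idx_sub he' hw)
      ((transition_lift (idx_symm he) (idx_symm he') hz).self_of_nhds.symm)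
    rw [hg, jac_congr (lift_eq_transition (idx_sub he) (idx_sub he') (idx_symm he) (idx_symm he')
      hz hk hkz hl)]

lemma toConf_eq (h : P.Conf) {e : OpenPartialHomeomorph P.Mfd (V n)}
    (he : e ∈ atlas (V n) P.Mfd) {i : P.ι} (hi : e.target ⊆ P.U i)
    (hs : ∀ z ∈ e.target, e.symm z = P.proj i z) {z : V n} (hz : z ∈ e.target) :
    (toConf h).h e z = h.h i z := by
  have h0 : (toConf h).h e z = h.h (idx e he) z := by
    simp only [toConf, dif_pos he]
  rw [h0]
  have hss : P.π (idx e he) z = P.π i z := (idx_symm he z hz).symm.trans (hs z hz)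
  obtain ⟨k, hk, hkz, hl, hg⟩ := h.compat (idx e he) i z z (idx_sub he hz) (hi hz) hss
  have hid : ∀ᶠ z' in 𝓝 z, P.π i ((fun w => w) z') = P.π (idx e he) z' := by
    filter_upwards [e.open_target.mem_nhds hz] with z' hz'
    exact (hs z' hz').symm.trans (idx_symm he z' hz')
  have hk2 : k =ᶠ[𝓝 z] fun w => w :=
    P.lift_unique (idx_sub he hz) hk.continuousAt continuousAt_id (by rw [hkz]; exact hi hz) hkz
      hl hid
  rw [hg, jac_congr hk2, jac_id, Matrix.det_one, map_one, one_mul]

/-! ### analytic lemmas -/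

lemma levi_add {f f' : V n → ℂ} {Ω : Set (V n)} (hΩ : IsOpen Ω) (hf : ContDiffOn ℝ ∞ f Ω)
    (hf' : ContDiffOn ℝ ∞ f' Ω) {z : V n} (hz : z ∈ Ω) :
    levi (fun w => f w + f' w) z = levi f z + levi f' z := by
  ext j k
  show dZ j (fun w => dB k (fun w => f w + f' w) w) z =
    dZ j (fun w => dB k f w) z + dZ j (fun w => dB k f' w) z
  have hd : ∀ {F : V n → ℂ}, ContDiffOn ℝ ∞ F Ω → ∀ w ∈ Ω, DifferentiableAt ℝ F w :=
    fun hF w hw => (hF.contDiffAt (hΩ.mem_nhds hw)).differentiableAt (by simp)
  rw [← dZ_add (hd (contDiffOn_dB hΩ hf k) z hz) (hd (contDiffOn_dB hΩ hf' k) z hz)]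
  refine dZ_congr ?_ j
  filter_upwards [hΩ.mem_nhds hz] with w hw
  exact dB_add (hd hf w hw) (hd hf' w hw) k

lemma contDiffOn_levi {f : V n → ℂ} {Ω : Set (V n)} (hΩ : IsOpen Ω) (hf : ContDiffOn ℝ ∞ f Ω)
    (j k : Fin n) : ContDiffOn ℝ ∞ (fun z => levi f z j k) Ω :=
  contDiffOn_dZ hΩ (contDiffOn_dB hΩ hf k) j

lemma analyticAt_det_jac {T : V n → V n} {z : V n} (hT : AnalyticAt ℂ T z) :
    AnalyticAt ℂ (fun w => (jac T w).det) z := by
  have h1 : ∀ a j, AnalyticAt ℂ (fun w => jac T w a j) z := by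
    intro a j
    show AnalyticAt ℂ (fun w => fderiv ℂ T w (Pi.single j 1) a) z
    have h2 : AnalyticAt ℂ (fun w => fderiv ℂ T w) z := hT.fderiv
    have h3 : AnalyticAt ℂ (fun w => fderiv ℂ T w (Pi.single j 1)) z :=
      ((ContinuousLinearMap.apply ℂ (V n) (Pi.single j (1 : ℂ) : V n)).analyticAt _).comp h2
    exact ((ContinuousLinearMap.proj (R := ℂ) (φ := fun _ : Fin n => ℂ) a).analyticAt _).comp h3
  simp only [Matrix.det_apply]
  refine Finset.analyticAt_fun_sum _ fun σ _ => ?_
  have h4 : AnalyticAt ℂ (fun w => ∏ i, jac T w (σ i) i) z :=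
    Finset.analyticAt_fun_prod _ fun i _ => h1 (σ i) i
  have : (fun w => Equiv.Perm.sign σ • ∏ i, jac T w (σ i) i) =
      fun w => ((Equiv.Perm.sign σ : ℤ) : ℂ) * ∏ i, jac T w (σ i) i := by
    funext w
    rw [Units.smul_def, zsmul_eq_mul]
  rw [this]
  exact analyticAt_const.mul h4

end GMAux

namespace GMAux

section traces

variable {M : Type} [TopologicalSpace M] [T2Space M] [CompactSpace M]
  [ChartedSpace (V n) M] [IsManifold 𝓘(ℂ, V n) ω M]

omit [T2Space M] [CompactSpace M] [ChartedSpace (V n) M] [IsManifold 𝓘(ℂ, V n) ω M] in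
lemma source_iff' {e e' : OpenPartialHomeomorph M (V n)} {z : V n} :
    z ∈ (e.symm.trans e').source ↔ z ∈ e.target ∧ e.symm z ∈ e'.source := by
  rw [OpenPartialHomeomorph.trans_source, OpenPartialHomeomorph.symm_source]
  rfl

omit [T2Space M] [CompactSpace M] [ChartedSpace (V n) M] [IsManifold 𝓘(ℂ, V n) ω M] in
lemma trans_mem {e e' : OpenPartialHomeomorph M (V n)} {z : V n}
    (hz : z ∈ (e.symm.trans e').source) : (e.symm.trans e') z ∈ e'.target := by
  show e' (e.symm z) ∈ e'.target
  exact e'.map_source (source_iff'.mp hz).2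

lemma ofReal_smooth {f : V n → ℝ} {Ω : Set (V n)} (hf : ContDiffOn ℝ ∞ f Ω) :
    ContDiffOn ℝ ∞ (fun z => ((f z : ℝ) : ℂ)) Ω :=
  Complex.ofRealCLM.contDiff.comp_contDiffOn hf

lemma two_le_infty' : (2 : WithTop ℕ∞) ≤ ∞ :=
  WithTop.coe_le_coe.mpr (show (2 : ℕ∞) ≤ ⊤ from le_top)

/-- Laplacians of a family of functions whose Levi matrices transform as forms -/
lemma exists_trace (g : HermitianMetric n M) (L : OpenPartialHomeomorph M (V n) → V n → ℝ)
    (hL : ∀ e ∈ atlas (V n) M, ContDiffOn ℝ ∞ (L e) e.target)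
    (hinv : ∀ e ∈ atlas (V n) M, ∀ e' ∈ atlas (V n) M, ∀ z ∈ (e.symm.trans e').source,
      levi (fun w => ((L e w : ℝ) : ℂ)) z =
        pull (jac (e.symm.trans e') z) (levi (fun w => ((L e' w : ℝ) : ℂ))
          ((e.symm.trans e') z))) :
    ∃ φ : M → ℝ, Continuous φ ∧ ∀ e ∈ atlas (V n) M, ∀ z ∈ e.target, φ (e.symm z) =
      (∑ j, ∑ k, (g.g e z)⁻¹ k j * levi (fun w => ((L e w : ℝ) : ℂ)) z j k).re := by
  let Φ : OpenPartialHomeomorph M (V n) → V n → ℝ := fun e z =>
    (∑ j, ∑ k, (g.g e z)⁻¹ k j * levi (fun w => ((L e w : ℝ) : ℂ)) z j k).re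
  have hΦ : ∀ e ∈ atlas (V n) M, ∀ e' ∈ atlas (V n) M, ∀ z ∈ (e.symm.trans e').source,
      Φ e z = Φ e' ((e.symm.trans e') z) := by
    intro e he e' he' z hz
    show (∑ j, ∑ k, (g.g e z)⁻¹ k j * levi (fun w => ((L e w : ℝ) : ℂ)) z j k).re = _
    rw [hinv e he e' he' z hz, g.compat e he e' he' z hz,
      trace_pull _ _ _ (isUnit_det_jac_transition he he' hz)]
  have hcont : ∀ e ∈ atlas (V n) M, ContinuousOn (Φ e) e.target := by
    intro e he
    refine Complex.continuous_re.comp_continuousOn ?_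
    refine continuousOn_finsetSum _ fun j _ => continuousOn_finsetSum _ fun k _ => ?_
    refine ContinuousOn.mul ?_ (contDiffOn_levi e.open_target (ofReal_smooth (hL e he))
      j k).continuousOn
    have h1 : ContinuousOn (fun z => g.g e z) e.target :=
      continuousOn_pi.mpr fun a => continuousOn_pi.mpr fun b => (g.smooth e he a b).continuousOn
    intro z hz
    have h2 : ContinuousAt (fun A : Matrix (Fin n) (Fin n) ℂ => A⁻¹ k j) (g.g e z) := by
      have hdet : (g.g e z).det ≠ 0 := (g.posDef e he z hz).det_pos.ne'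
      have h3 : (fun A : Matrix (Fin n) (Fin n) ℂ => A⁻¹ k j) =
          fun A => (A.det)⁻¹ * A.adjugate k j := by
        funext A
        rw [Matrix.inv_def, Matrix.smul_apply, Ring.inverse_eq_inv', smul_eq_mul]
      rw [h3]
      refine ContinuousAt.mul (ContinuousAt.inv₀ ?_ hdet) ?_
      · exact (Continuous.matrix_det continuous_id).continuousAt
      · exact (Continuous.matrix_elem (Continuous.matrix_adjugate continuous_id) k j).continuousAt
    exact ContinuousAt.comp_continuousWithinAt h2 (h1 z hz)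
  have hval : ∀ e ∈ atlas (V n) M, ∀ z ∈ e.target,
      Φ (chartAt (V n) (e.symm z)) (chartAt (V n) (e.symm z) (e.symm z)) = Φ e z := by
    intro e he z hz
    have h1 : z ∈ (e.symm.trans (chartAt (V n) (e.symm z))).source :=
      source_iff'.mpr ⟨hz, mem_chart_source _ _⟩
    exact (hΦ e he _ (chart_mem_atlas _ _) z h1).symm
  refine ⟨fun p => Φ (chartAt (V n) p) (chartAt (V n) p p), ?_, hval⟩
  rw [continuous_iff_continuousAt]
  intro p
  set e := chartAt (V n) p with he
  have hp : p ∈ e.source := mem_chart_source _ _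
  have h1 : ContinuousAt (fun q => Φ e (e q)) p := by
    have h2 : ContinuousAt (Φ e) (e p) :=
      (hcont e (chart_mem_atlas _ _)).continuousAt (e.open_target.mem_nhds (e.map_source hp))
    exact ContinuousAt.comp (f := e) (g := Φ e) h2 (e.continuousAt hp)
  refine h1.congr ?_
  filter_upwards [e.open_source.mem_nhds hp] with q hq
  have h3 := hval e (chart_mem_atlas _ _) (e q) (e.map_source hq)
  rw [e.left_inv hq] at h3
  exact h3.symm

lemma levi_conf (h : ConfMetric n M) : ∀ e ∈ atlas (V n) M, ∀ e' ∈ atlas (V n) M,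
    ∀ z ∈ (e.symm.trans e').source,
      levi (fun w => ((Real.log (h.h e w) : ℝ) : ℂ)) z =
        pull (jac (e.symm.trans e') z) (levi (fun w => ((Real.log (h.h e' w) : ℝ) : ℂ))
          ((e.symm.trans e') z)) := by
  intro e he e' he' z hz
  have hT : AnalyticAt ℂ (e.symm.trans e') z := transition_analyticAt he he' hz
  have hsm' : ContDiffOn ℝ ∞ (fun w => ((Real.log (h.h e' w) : ℝ) : ℂ)) e'.target :=
    ofReal_smooth ((h.smooth e' he').log fun w hw => (h.pos e' he' w hw).ne')
  have hD : ∀ w ∈ (e.symm.trans e').source, (jac (e.symm.trans e') w).det ≠ 0 := fun w hw =>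
    (isUnit_det_jac_transition he he' hw).ne_zero
  have hTan : AnalyticOnNhd ℂ (e.symm.trans e') (e.symm.trans e').source := fun w hw =>
    transition_analyticAt he he' hw
  have hev : (fun w => ((Real.log (h.h e w) : ℝ) : ℂ)) =ᶠ[𝓝 z]
      fun w => ((Real.log (Complex.normSq ((jac (e.symm.trans e') w).det)) : ℝ) : ℂ) +
        ((Real.log (h.h e' ((e.symm.trans e') w)) : ℝ) : ℂ) := by
    filter_upwards [(e.symm.trans e').open_source.mem_nhds hz] with w hw
    rw [h.compat e he e' he' w hw, Real.log_mul, Complex.ofReal_add]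
    · exact (Complex.normSq_pos.mpr (hD w hw)).ne'
    · exact (h.pos e' he' _ (trans_mem hw)).ne'
  have hTc : ContDiffOn ℝ ∞ (e.symm.trans e') (e.symm.trans e').source := fun w hw =>
    ((hTan w hw).contDiffAt.restrict_scalars ℝ).contDiffWithinAt
  have hDc : ContDiffOn ℝ ∞ (fun w => (jac (e.symm.trans e') w).det)
      (e.symm.trans e').source := fun w hw =>
    (((analyticAt_det_jac (hTan w hw)).contDiffAt).restrict_scalars ℝ).contDiffWithinAt
  have hf : ContDiffOn ℝ ∞ (fun w => ((Real.log (Complex.normSq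
      ((jac (e.symm.trans e') w).det)) : ℝ) : ℂ)) (e.symm.trans e').source := by
    refine ofReal_smooth (ContDiffOn.log ?_ fun w hw => (Complex.normSq_pos.mpr (hD w hw)).ne')
    have e1 : (fun w => Complex.normSq ((jac (e.symm.trans e') w).det)) =
        fun w => ‖(jac (e.symm.trans e') w).det‖ ^ 2 := by
      funext w; rw [Complex.normSq_eq_norm_sq]
    rw [e1]
    exact hDc.norm_sq ℝ
  have hf' : ContDiffOn ℝ ∞ (fun w => ((Real.log (h.h e' ((e.symm.trans e') w)) : ℝ) : ℂ))
      (e.symm.trans e').source := hsm'.comp hTc fun w hw => trans_mem hw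
  rw [levi_congr hev, levi_add (e.symm.trans e').open_source hf hf' hz,
    levi_log_normSq (analyticAt_det_jac hT) (hD z hz), zero_add]
  exact levi_comp (f := fun w => ((Real.log (h.h e' w) : ℝ) : ℂ)) hT
    ((hsm'.contDiffAt (e'.open_target.mem_nhds (trans_mem hz))).of_le two_le_infty')

lemma levi_fun (f : M → ℝ)
    (hf : ∀ e ∈ atlas (V n) M, ContDiffOn ℝ ∞ (fun z => f (e.symm z)) e.target) :
    ∀ e ∈ atlas (V n) M, ∀ e' ∈ atlas (V n) M, ∀ z ∈ (e.symm.trans e').source,
      levi (fun w => ((f (e.symm w) : ℝ) : ℂ)) z =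
        pull (jac (e.symm.trans e') z) (levi (fun w => ((f (e'.symm w) : ℝ) : ℂ))
          ((e.symm.trans e') z)) := by
  intro e he e' he' z hz
  have hT : AnalyticAt ℂ (e.symm.trans e') z := transition_analyticAt he he' hz
  have hev : (fun w => ((f (e.symm w) : ℝ) : ℂ)) =ᶠ[𝓝 z]
      fun w => ((f (e'.symm ((e.symm.trans e') w)) : ℝ) : ℂ) := by
    filter_upwards [(e.symm.trans e').open_source.mem_nhds hz] with w hw
    have : e'.symm ((e.symm.trans e') w) = e.symm w := by
      show e'.symm (e' (e.symm w)) = e.symm w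
      exact e'.left_inv (source_iff'.mp hw).2
    rw [this]
  rw [levi_congr hev]
  exact levi_comp (f := fun w => ((f (e'.symm w) : ℝ) : ℂ)) hT
    (((ofReal_smooth (hf e' he')).contDiffAt (e'.open_target.mem_nhds (trans_mem hz))).of_le
      two_le_infty')

end traces

end GMAux

/-- the formula for the total scalar curvature, presentation level: there is a function `φ` on the
manifold with the right local expression, and `total = ∫ φ`. -/
theorem total_eq (g : HermitianMetric n P.Mfd) (hG : g.IsGauduchon) (h : P.Conf) :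
    ∃ φ : P.Mfd → ℝ, Continuous φ ∧ (∀ i, ∀ z ∈ P.U i, φ (P.proj i z) =
      -(∑ j, ∑ k, ((P.ofMetric g).g i z)⁻¹ k j *
        levi (fun w => ((Real.log (h.h i w) : ℝ) : ℂ)) z j k).re) ∧
      g.total = @integral P.Mfd ℝ _ _ (borel _) g.volume φ := by
  obtain ⟨φ, hφ, hval⟩ := exists_trace g (fun e w => Real.log ((toConf h).h e w))
    (fun e he => ((toConf h).smooth e he).log fun w hw => ((toConf h).pos e he w hw).ne')
    (levi_conf (toConf h))
  refine ⟨fun p => - φ p, hφ.neg, ?_, ?_⟩
  · intro i z hz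
    have h1 : P.proj i z = (cht i hz).symm z := (cht_symm i hz z (cht_z i hz)).symm
    show - φ (P.proj i z) = _
    rw [h1, hval _ (cht_mem i hz) z (cht_z i hz),
      P.ofMetric_g g (cht_mem i hz) (cht_sub i hz) (cht_symm i hz) (cht_z i hz)]
    have hev : (fun w => ((Real.log ((toConf h).h (cht i hz) w) : ℝ) : ℂ)) =ᶠ[𝓝 z]
        fun w => ((Real.log (h.h i w) : ℝ) : ℂ) := by
      filter_upwards [(cht i hz).open_target.mem_nhds (cht_z i hz)] with w hw
      rw [toConf_eq h (cht_mem i hz) (cht_sub i hz) (cht_symm i hz) hw]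
    rw [levi_congr hev]
  · refine g.total_eq hG (toConf h) _ ?_
    intro e he z hz
    show - φ (e.symm z) = _
    rw [hval e he z hz]

/-- If `g` is Gauduchon, the integral of the Laplacian of a function vanishes. -/
theorem integral_laplacian (g : HermitianMetric n P.Mfd) (hG : g.IsGauduchon) (f : P.Mfd → ℝ)
    (hf : ∀ i, ContDiffOn ℝ ∞ (fun z => f (P.proj i z)) (P.U i)) :
    ∃ φ : P.Mfd → ℝ, Continuous φ ∧ (∀ i, ∀ z ∈ P.U i, φ (P.proj i z) =
      (∑ j, ∑ k, ((P.ofMetric g).g i z)⁻¹ k j *
        levi (fun w => ((f (P.proj i w) : ℝ) : ℂ)) z j k).re) ∧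
      @integral P.Mfd ℝ _ _ (borel _) g.volume φ = 0 := by
  have hf' : ∀ e ∈ atlas (V n) P.Mfd, ContDiffOn ℝ ∞ (fun z => f (e.symm z)) e.target := by
    intro e he
    refine ((hf (idx e he)).mono (idx_sub he)).congr ?_
    intro z hz
    rw [idx_symm he z hz]
  obtain ⟨φ, hφ, hval⟩ := exists_trace g (fun e w => f (e.symm w)) hf' (levi_fun f hf')
  refine ⟨φ, hφ, ?_, ?_⟩
  · intro i z hz
    have h1 : P.proj i z = (cht i hz).symm z := (cht_symm i hz z (cht_z i hz)).symm
    rw [h1, hval _ (cht_mem i hz) z (cht_z i hz),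
      P.ofMetric_g g (cht_mem i hz) (cht_sub i hz) (cht_symm i hz) (cht_z i hz)]
    have hev : (fun w => ((f ((cht i hz).symm w) : ℝ) : ℂ)) =ᶠ[𝓝 z]
        fun w => ((f (P.proj i w) : ℝ) : ℂ) := by
      filter_upwards [(cht i hz).open_target.mem_nhds (cht_z i hz)] with w hw
      rw [cht_symm i hz w hw]
    rw [levi_congr hev]
  · exact g.integral_laplacian hG (μ := g.volume) g.isVolume_volume f hf' φ hval

/-! ### measures -/

namespace GMAux

lemma measurableSet_inter_preimage {X Y : Type*} [TopologicalSpace X] [MeasurableSpace X]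
    [BorelSpace X] [TopologicalSpace Y] [MeasurableSpace Y] [BorelSpace Y] {f : X → Y} {s : Set X}
    (hs : MeasurableSet s) (hf : ContinuousOn f s) {t : Set Y} (ht : MeasurableSet t) :
    MeasurableSet (s ∩ f ⁻¹' t) := by
  have h1 : Measurable (s.domRestrict f) := (continuousOn_iff_continuous_domRestrict.mp hf).measurable
  have h2 := MeasurableSet.subtype_image hs (h1 ht)
  have h3 : Subtype.val '' (s.domRestrict f ⁻¹' t) = s ∩ f ⁻¹' t := by
    ext x
    constructor
    · rintro ⟨y, hy, rfl⟩
      exact ⟨y.2, hy⟩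
    · rintro ⟨hx, hx'⟩
      exact ⟨⟨x, hx⟩, hx', rfl⟩
  rwa [h3] at h2

variable {P : Pres n}

/-- a piece inside a chart -/
def Good (P : Pres n) (i : P.ι) (B : Set (V n)) : Prop :=
  ∃ e ∈ atlas (V n) P.Mfd, e.target ⊆ P.U i ∧ (∀ w ∈ e.target, e.symm w = P.proj i w) ∧
    B ⊆ e.target

lemma exists_pieces (i : P.ι) {A : Set (V n)} (hA : MeasurableSet A) (hAU : A ⊆ P.U i)
    (hne : A.Nonempty) : ∃ B : ℕ → Set (V n), (∀ k, MeasurableSet (B k)) ∧
      Pairwise (Function.onFun Disjoint B) ∧ ⋃ k, B k = A ∧ ∀ k, Good P i (B k) := by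
  classical
  let f : V n → Set (V n) := fun z => if hz : z ∈ P.U i then (cht i hz).target else Set.univ
  have hf : ∀ x ∈ P.U i, f x ∈ nhdsWithin x (P.U i) := by
    intro x hx
    simp only [f, dif_pos hx]
    exact mem_nhdsWithin_of_mem_nhds ((cht i hx).open_target.mem_nhds (cht_z i hx))
  obtain ⟨t, htU, htc, hcov⟩ := TopologicalSpace.countable_cover_nhdsWithin hf
  have htne : t.Nonempty := by
    obtain ⟨a, ha⟩ := hne
    obtain ⟨x, hx⟩ := Set.mem_iUnion.mp (hcov (hAU ha))
    obtain ⟨hxt, _⟩ := Set.mem_iUnion.mp hx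
    exact ⟨x, hxt⟩
  obtain ⟨x, hx⟩ := htc.exists_eq_range htne
  have hxU : ∀ k, x k ∈ P.U i := fun k => htU (by rw [hx]; exact Set.mem_range_self k)
  have hfx : ∀ k, f (x k) = (cht i (hxU k)).target := fun k => by
    simp only [f, dif_pos (hxU k)]
  have hmeas : ∀ k, MeasurableSet (disjointed (fun k => f (x k)) k) := by
    refine MeasurableSet.disjointed fun k => ?_
    rw [hfx k]
    exact (cht i (hxU k)).open_target.measurableSet
  refine ⟨fun k => A ∩ disjointed (fun k => f (x k)) k, fun k => hA.inter (hmeas k), ?_, ?_, ?_⟩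
  · intro k l hkl
    exact (disjoint_disjointed (fun k => f (x k)) hkl).mono Set.inter_subset_right
      Set.inter_subset_right
  · rw [← Set.inter_iUnion, iUnion_disjointed]
    refine Set.inter_eq_left.mpr fun a ha => ?_
    obtain ⟨y, hy⟩ := Set.mem_iUnion.mp (hcov (hAU ha))
    obtain ⟨hyt, hay⟩ := Set.mem_iUnion.mp hy
    rw [hx] at hyt
    obtain ⟨k, rfl⟩ := hyt
    exact Set.mem_iUnion.mpr ⟨k, hay⟩
  · intro k
    refine ⟨cht i (hxU k), cht_mem i _, cht_sub i _, cht_symm i _, ?_⟩
    rw [← hfx k]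
    exact Set.inter_subset_right.trans (disjointed_subset _ _)

lemma good_measurable {i : P.ι} {B : Set (V n)} (hB : MeasurableSet B) (hg : Good P i B) :
    @MeasurableSet P.Mfd (borel _) (P.proj i '' B) := by
  let _ : MeasurableSpace P.Mfd := borel _
  have _ : BorelSpace P.Mfd := ⟨rfl⟩
  obtain ⟨e, he, hi, hs, hBe⟩ := hg
  have h1 : P.proj i '' B = e.symm '' B :=
    Set.image_congr fun w hw => (hs w (hBe hw)).symm
  rw [h1, e.symm_image_eq_source_inter_preimage hBe]
  exact measurableSet_inter_preimage e.open_source.measurableSet e.continuousOn hB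

lemma good_volume (g : HermitianMetric n P.Mfd) {i : P.ι} {B : Set (V n)} (hB : MeasurableSet B)
    (hg : Good P i B) : g.volume (P.proj i '' B) =
      ∫⁻ z in B, ENNReal.ofReal (2 ^ n * ((P.ofMetric g).g i z).det.re) := by
  obtain ⟨e, he, hi, hs, hBe⟩ := hg
  have h1 : P.proj i '' B = e.symm '' B :=
    Set.image_congr fun w hw => (hs w (hBe hw)).symm
  rw [h1, g.isVolume_volume e he B hB hBe]
  refine setLIntegral_congr_fun hB fun z hz => ?_
  show ENNReal.ofReal (2 ^ n * (g.g e z).det.re) = _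
  rw [P.ofMetric_g g he hi hs (hBe hz)]

end GMAux

theorem measurableSet_image_proj (i : P.ι) {A : Set (V n)}
    (hA : MeasurableSet A) (hAU : A ⊆ P.U i) :
    @MeasurableSet P.Mfd (borel _) (P.proj i '' A) := by
  let _ : MeasurableSpace P.Mfd := borel _
  rcases A.eq_empty_or_nonempty with rfl | hne
  · rw [Set.image_empty]; exact MeasurableSet.empty
  · obtain ⟨B, hB, _, hU, hgood⟩ := exists_pieces i hA hAU hne
    rw [← hU, Set.image_iUnion]
    exact MeasurableSet.iUnion fun k => good_measurable (hB k) (hgood k)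

/-- upper bound for the measure of the image of a non-injective piece -/
theorem volume_image_le (g : HermitianMetric n P.Mfd) (i : P.ι) {A : Set (V n)}
    (hA : MeasurableSet A) (hAU : A ⊆ P.U i) :
    g.volume (P.proj i '' A) ≤
      ∫⁻ z in A, ENNReal.ofReal (2 ^ n * ((P.ofMetric g).g i z).det.re) := by
  let _ : MeasurableSpace P.Mfd := borel _
  rcases A.eq_empty_or_nonempty with rfl | hne
  · simp
  · obtain ⟨B, hB, hd, hU, hgood⟩ := exists_pieces i hA hAU hne
    rw [← hU, Set.image_iUnion, lintegral_iUnion hB hd]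
    refine (measure_iUnion_le _).trans (ENNReal.tsum_le_tsum fun k => ?_)
    rw [good_volume g (hB k) (hgood k)]

theorem GMAux.volume_image_eq {P : Pres n} (g : HermitianMetric n P.Mfd) (i : P.ι) {A : Set (V n)}
    (hA : MeasurableSet A) (hAU : A ⊆ P.U i) (hinj : Set.InjOn (P.proj i) A) :
    g.volume (P.proj i '' A) =
      ∫⁻ z in A, ENNReal.ofReal (2 ^ n * ((P.ofMetric g).g i z).det.re) := by
  let _ : MeasurableSpace P.Mfd := borel _
  rcases A.eq_empty_or_nonempty with rfl | hne
  · simp
  · obtain ⟨B, hB, hd, hU, hgood⟩ := exists_pieces i hA hAU hne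
    have hsub : ∀ k, B k ⊆ A := fun k => by rw [← hU]; exact Set.subset_iUnion B k
    have himg : P.proj i '' A = ⋃ k, P.proj i '' B k := by
      rw [← hU, Set.image_iUnion]
    rw [himg, measure_iUnion (fun k l hkl => ?_) fun k => good_measurable (hB k) (hgood k)]
    · have h1 : (∫⁻ z in A, ENNReal.ofReal (2 ^ n * ((P.ofMetric g).g i z).det.re)) =
          ∑' k, ∫⁻ z in B k, ENNReal.ofReal (2 ^ n * ((P.ofMetric g).g i z).det.re) := by
        rw [← lintegral_iUnion hB hd, hU]
      rw [h1]
      exact tsum_congr fun k => good_volume g (hB k) (hgood k)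
    · exact Set.disjoint_image_image fun a ha b hb hab =>
        Set.disjoint_left.mp (hd hkl) ha (hinj (hsub k ha) (hsub l hb) hab ▸ hb)

/-- change of variables, presentation level -/
theorem setIntegral_proj (g : HermitianMetric n P.Mfd) (i : P.ι) {A : Set (V n)}
    (hA : MeasurableSet A) (hAU : A ⊆ P.U i) (hinj : Set.InjOn (P.proj i) A) (F : P.Mfd → ℝ) :
    @integral P.Mfd ℝ _ _ (borel _) (@Measure.restrict _ (borel _) g.volume (P.proj i '' A)) F =
      ∫ z in A, F (P.proj i z) * (2 ^ n * ((P.ofMetric g).g i z).det.re) := by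
  let _ : MeasurableSpace P.Mfd := borel _
  have _ : BorelSpace P.Mfd := ⟨rfl⟩
  set d : V n → ENNReal := fun z => ENNReal.ofReal (2 ^ n * ((P.ofMetric g).g i z).det.re) with hd
  let ν : Measure (V n) := (volume : Measure (V n)).withDensity d
  let f : A → P.Mfd := fun z => P.proj i z
  have hpc : ContinuousOn (P.proj i) A := (P.continuousOn_proj i).mono hAU
  have hf : MeasurableEmbedding f := by
    refine ⟨?_, ?_, ?_⟩
    · intro a b hab
      exact Subtype.ext (hinj a.2 b.2 hab)
    · exact (continuousOn_iff_continuous_domRestrict.mp hpc).measurable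
    · intro S hS
      have h1 : f '' S = P.proj i '' (Subtype.val '' S) := by
        rw [Set.image_image]
      rw [h1]
      refine P.measurableSet_image_proj i (MeasurableSet.subtype_image hA hS) ?_
      exact (Subtype.coe_image_subset A S).trans hAU
  have hmeas : g.volume.restrict (P.proj i '' A) =
      Measure.map f (Measure.comap Subtype.val ν) := by
    ext S hS
    have hAS : MeasurableSet (A ∩ P.proj i ⁻¹' S) := measurableSet_inter_preimage hpc hA hS
    rw [Measure.restrict_apply hS, hf.map_apply,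
      (MeasurableEmbedding.subtype_coe hA).comap_apply]
    have h1 : S ∩ P.proj i '' A = P.proj i '' (A ∩ P.proj i ⁻¹' S) := by
      rw [Set.image_inter_preimage, Set.inter_comm]
    have h2 : Subtype.val '' (f ⁻¹' S) = A ∩ P.proj i ⁻¹' S := by
      ext x
      constructor
      · rintro ⟨y, hy, rfl⟩
        exact ⟨y.2, hy⟩
      · rintro ⟨hx, hx'⟩
        exact ⟨⟨x, hx⟩, hx', rfl⟩
    rw [h1, h2, withDensity_apply _ hAS]
    exact volume_image_eq g i hAS (Set.inter_subset_left.trans hAU)
      (hinj.mono Set.inter_subset_left)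
  have hdc : ContinuousOn (fun z => 2 ^ n * ((P.ofMetric g).g i z).det.re) A := by
    have h1 : ContinuousOn (fun z => (P.ofMetric g).g i z) (P.U i) :=
      continuousOn_pi.mpr fun a => continuousOn_pi.mpr fun b =>
        ((P.ofMetric g).smooth i a b).continuousOn
    have h2 : ContinuousOn (fun z => ((P.ofMetric g).g i z).det) (P.U i) :=
      (Continuous.matrix_det continuous_id).comp_continuousOn h1
    exact (continuousOn_const.mul (Complex.continuous_re.comp_continuousOn h2)).mono hAU
  have hpos : ∀ z ∈ A, 0 ≤ 2 ^ n * ((P.ofMetric g).g i z).det.re := by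
    intro z hz
    have h1 := ((P.ofMetric g).posDef i z (hAU hz)).det_pos
    have h2 := (Complex.lt_def.mp h1).1
    have h3 : (0 : ℝ) < ((P.ofMetric g).g i z).det.re := by simpa using h2
    positivity
  rw [hmeas, hf.integral_map]
  have h5 : ∫ a : A, F (f a) ∂(Measure.comap Subtype.val ν) = ∫ z in A, F (P.proj i z) ∂ν :=
    integral_subtype_comap hA fun z => F (P.proj i z)
  rw [h5, setIntegral_withDensity_eq_setIntegral_toReal_smul₀
    ((hdc.aemeasurable hA).ennreal_ofReal) (Filter.Eventually.of_forall fun z =>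
      ENNReal.ofReal_lt_top) _ hA]
  refine setIntegral_congr_fun hA fun z hz => ?_
  simp only [smul_eq_mul]
  rw [ENNReal.toReal_ofReal (hpos z hz)]
  ring

end Pres

end

end GK
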