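import Pool.Agent.GK.Local

/-! # The exceptional charts and scaling -/

open scoped ContDiff Topology ComplexOrder
open MeasureTheory Set Filter

namespace GK.KL

noncomputable section

/-- `excMap r j ∘ scale ε`, extended to `ε = 0`. -/
def Pe (r : ℕ) (j : Fin 3) (ε : ℂ) (y : V 4) : V 4 := fun i =>
  if i = j.castSucc then (ε * y j.castSucc) ^ r else if i = 3 then y 3 else y i / y j.castSucc

/-- its Jacobian matrix -/
def Je (r : ℕ) (j : Fin 3) (ε : ℂ) (y : V 4) : Matrix (Fin 4) (Fin 4) ℂ :=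
  Matrix.of fun a b =>
    if a = j.castSucc then (if b = j.castSucc then r * ε ^ r * y j.castSucc ^ (r - 1) else 0)
    else if a = 3 then (if b = 3 then 1 else 0)
    else (if b = a then 1 / y j.castSucc else if b = j.castSucc then
      - (y a / y j.castSucc ^ 2) else 0)

theorem castSucc_ne_three (j : Fin 3) : (j.castSucc : Fin 4) ≠ 3 := by
  fin_cases j <;> decide

theorem Pe_eq (r : ℕ) (j : Fin 3) {ε : ℂ} (hε : ε ≠ 0) (y : V 4) :
    Pe r j ε y = excMap r j (scale ε y) := by
  funext i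
  fin_cases j <;> fin_cases i <;> simp [Pe, excMap, scale, mul_div_mul_left _ _ hε]

theorem hasFDerivAt_Pe {r : ℕ} (hr : 0 < r) (j : Fin 3) (ε : ℂ) {y : V 4}
    (hy : y j.castSucc ≠ 0) :
    HasFDerivAt (Pe r j ε) (LinearMap.toContinuousLinearMap (Matrix.toLin' (Je r j ε y))) y := by
  rw [hasFDerivAt_pi']
  intro i
  have hp : ∀ k : Fin 4, HasFDerivAt (fun y : V 4 => y k)
      (ContinuousLinearMap.proj (R := ℂ) (φ := fun _ : Fin 4 => ℂ) k) y := fun k =>
    hasFDerivAt_apply k y
  by_cases h1 : i = j.castSucc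
  · subst h1
    have h := ((hp j.castSucc).const_mul ε).pow r
    have e : (fun x : V 4 => Pe r j ε x j.castSucc) = fun x => (ε * x j.castSucc) ^ r := by
      funext x; simp [Pe]
    rw [e]
    refine h.congr_fderiv ?_
    ext v
    simp only [ContinuousLinearMap.smul_apply, ContinuousLinearMap.proj_apply,
      ContinuousLinearMap.comp_apply, LinearMap.coe_toContinuousLinearMap', Matrix.toLin'_apply,
      Matrix.mulVec, dotProduct, Je, Matrix.of_apply, if_true, smul_eq_mul, nsmul_eq_mul]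
    rw [Finset.sum_eq_single j.castSucc]
    · simp only [if_true]
      obtain ⟨s, rfl⟩ : ∃ s, r = s + 1 := ⟨r - 1, by omega⟩
      simp only [Nat.add_sub_cancel]
      ring
    · intro b _ hb; simp [hb]
    · simp
  · by_cases h3 : i = 3
    · subst h3
      have e : (fun x : V 4 => Pe r j ε x 3) = fun x => x 3 := by
        funext x; simp [Pe, (castSucc_ne_three j).symm]
      rw [e]
      refine (hp 3).congr_fderiv ?_
      ext v
      simp [Matrix.toLin'_apply, Matrix.mulVec, dotProduct, Je, (castSucc_ne_three j).symm]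
    · have e : (fun x : V 4 => Pe r j ε x i) = fun x => x i / x j.castSucc := by
        funext x; simp [Pe, h1, h3]
      rw [e]
      have hinv : HasFDerivAt (fun x : V 4 => (x j.castSucc)⁻¹) _ y :=
        (hasDerivAt_inv hy).comp_hasFDerivAt y (hp j.castSucc)
      have hd := (hp i).mul hinv
      have e2 : (fun x : V 4 => x i / x j.castSucc) = (fun x : V 4 => x i * (x j.castSucc)⁻¹) := by
        funext x; rw [div_eq_mul_inv]
      rw [e2]
      refine hd.congr_fderiv ?_
      ext v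
      have this : ∀ b : Fin 4, (if b = i then 1 / y j.castSucc else if b = j.castSucc then
          - (y i / y j.castSucc ^ 2) else 0) * v b = (if b = i then 1 / y j.castSucc * v i else 0) +
          (if b = j.castSucc then - (y i / y j.castSucc ^ 2) * v j.castSucc else 0) := by
        intro b
        by_cases hb : b = i
        · subst hb; simp [h1]
        · by_cases hb' : b = j.castSucc
          · subst hb'; simp [hb]
          · simp [hb, hb']
      have e3 : (LinearMap.toContinuousLinearMap (Matrix.toLin' (Je r j ε y))) v i =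
          1 / y j.castSucc * v i + - (y i / y j.castSucc ^ 2) * v j.castSucc := by
        simp only [LinearMap.coe_toContinuousLinearMap', Matrix.toLin'_apply,
          Matrix.mulVec, dotProduct, Je, Matrix.of_apply, if_false, h1, h3]
        rw [Finset.sum_congr rfl fun b _ => this b, Finset.sum_add_distrib]
        simp only [Finset.sum_ite_eq', Finset.mem_univ, if_true]
      have e4 : (((ContinuousLinearMap.proj (R := ℂ) (φ := fun _ : Fin 4 => ℂ) i).comp
          (LinearMap.toContinuousLinearMap (Matrix.toLin' (Je r j ε y)))) v) =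
          (LinearMap.toContinuousLinearMap (Matrix.toLin' (Je r j ε y))) v i := rfl
      rw [e4, e3]
      change y i * (-(y j.castSucc ^ 2)⁻¹ * v j.castSucc) + (y j.castSucc)⁻¹ * v i = _
      field_simp
      ring

theorem jac_Pe {r : ℕ} (hr : 0 < r) (j : Fin 3) (ε : ℂ) {y : V 4} (hy : y j.castSucc ≠ 0) :
    jac (Pe r j ε) y = Je r j ε y := by
  ext a b
  rw [jac, Matrix.of_apply, (hasFDerivAt_Pe hr j ε hy).fderiv]
  simp [Matrix.toLin'_apply]

theorem scale_castSucc (ε : ℂ) (y : V 4) (j : Fin 3) :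
    scale ε y j.castSucc = ε * y j.castSucc := by
  fin_cases j <;> simp [scale]

theorem scale_of_ne (ε : ℂ) (y : V 4) {i : Fin 4} (hi : i ≠ 3) :
    scale ε y i = ε * y i := by
  fin_cases i <;> first | (exact absurd rfl hi) | simp [scale]

theorem scale_three (ε : ℂ) (y : V 4) : scale ε y 3 = y 3 := by simp [scale]

theorem scaleMat_mul (ε : ℂ) (A : Matrix (Fin 4) (Fin 4) ℂ) (a b : Fin 4) :
    (A * scaleMat ε) a b = A a b * (if b = 3 then 1 else ε) := by
  rw [scaleMat, Matrix.mul_diagonal]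
  fin_cases b <;> simp

theorem Je_scale {r : ℕ} (hr : 0 < r) (j : Fin 3) {ε : ℂ} (hε : ε ≠ 0) (y : V 4) :
    Je r j 1 (scale ε y) * scaleMat ε = Je r j ε y := by
  obtain ⟨s, rfl⟩ : ∃ s, r = s + 1 := ⟨r - 1, by omega⟩
  ext a b
  rw [scaleMat_mul]
  simp only [Je, Matrix.of_apply, scale_castSucc]
  by_cases h1 : a = j.castSucc
  · subst h1
    by_cases h2 : b = j.castSucc
    · subst h2
      simp [castSucc_ne_three]
      ring
    · simp [h2]
  · by_cases h3 : a = 3
    · subst h3
      by_cases h4 : b = 3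
      · subst h4; simp [h1]
      · simp [h1, h4]
    · by_cases h4 : b = a
      · subst h4
        simp [h1, h3]
        field_simp
      · by_cases h5 : b = j.castSucc
        · subst h5
          simp [h1, h3, h4, castSucc_ne_three, scale_of_ne ε y h3]
          field_simp
        · simp [h1, h3, h4, h5]

theorem Je_scale' {r : ℕ} (hr : 0 < r) (j : Fin 3) {c : ℂ} (hc : c ≠ 0) (y : V 4) :
    Je r j 0 (scale c y) * scaleMat c = Je r j 0 y := by
  obtain ⟨s, rfl⟩ : ∃ s, r = s + 1 := ⟨r - 1, by omega⟩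
  ext a b
  rw [scaleMat_mul]
  simp only [Je, Matrix.of_apply, scale_castSucc]
  by_cases h1 : a = j.castSucc
  · subst h1
    simp
  · by_cases h3 : a = 3
    · subst h3
      by_cases h4 : b = 3
      · subst h4; simp [h1]
      · simp [h1, h4]
    · by_cases h4 : b = a
      · subst h4
        simp [h1, h3]
        field_simp
      · by_cases h5 : b = j.castSucc
        · subst h5
          simp [h1, h3, h4, castSucc_ne_three, scale_of_ne c y h3]
          field_simp
        · simp [h1, h3, h4, h5]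

theorem Pe_scale {r : ℕ} (hr : 0 < r) (j : Fin 3) {c : ℂ} (hc : c ≠ 0) (y : V 4) :
    Pe r j 0 (scale c y) = Pe r j 0 y := by
  funext i
  have : r ≠ 0 := by omega
  by_cases h1 : i = j.castSucc
  · subst h1; simp [Pe, this]
  · by_cases h3 : i = 3
    · subst h3; simp [Pe, h1, scale_three]
    · simp [Pe, h1, h3, scale_of_ne c y h3, scale_castSucc, mul_div_mul_left _ _ hc]

theorem excMap_eq (r : ℕ) (j : Fin 3) (y : V 4) : excMap r j y = Pe r j 1 y := by
  funext i
  simp [excMap, Pe]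

theorem E3_scale (c : ℂ) (y : V 4) : E3 (scale c y) = Complex.normSq c * E3 y := by
  simp only [E3, scale, Complex.normSq_mul, Matrix.cons_val]
  ring

theorem pull_scale {r : ℕ} {ρ : ℝ} {g : V 4 → Matrix (Fin 4) (Fin 4) ℂ}
    {gx : Fin 3 → V 4 → Matrix (Fin 4) (Fin 4) ℂ} (h : LocalExc r ρ g gx) (j : Fin 3) {ε : ℂ}
    (hε : ε ≠ 0) {y : V 4} (hy : y j.castSucc ≠ 0) (hr : E3 (scale ε y) < ρ) :
    pull (scaleMat ε) (g (scale ε y)) = pull (Je r j ε y) (gx j (Pe r j ε y)) := by
  have hsy : scale ε y j.castSucc ≠ 0 := by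
    rw [scale_castSucc]; exact mul_ne_zero hε hy
  have e : jac (excMap r j) (scale ε y) = Je r j 1 (scale ε y) := by
    rw [show excMap r j = Pe r j 1 from funext (excMap_eq r j), jac_Pe h.r_pos j 1 hsy]
  rw [h.rel j (scale ε y) hr hsy, pull_pull, e, Je_scale h.r_pos j hε, Pe_eq r j hε]

theorem pull_apply {n m : ℕ} (J : Matrix (Fin m) (Fin n) ℂ) (g : Matrix (Fin m) (Fin m) ℂ)
    (a b : Fin n) : pull J g a b = ∑ d, (∑ c, J c a * g c d) * star (J d b) := by
  simp [pull, Matrix.mul_apply]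

theorem isOpen_excDom (r : ℕ) (ρ : ℝ) (j : Fin 3) : IsOpen (excDom r ρ j) := by
  refine isOpen_lt ?_ continuous_const
  have h1 : Continuous fun u : V 4 => Complex.normSq (u j.castSucc) :=
    Complex.continuous_normSq.comp (continuous_apply _)
  have h2 : Continuous fun u : V 4 => excNorm j u := by
    unfold excNorm
    refine continuous_const.add (continuous_finset_sum _ fun i _ => ?_)
    split_ifs
    · exact continuous_const
    · exact Complex.continuous_normSq.comp (continuous_apply _)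
  exact h1.mul (h2.pow r)

theorem Pe_zero_mem {r : ℕ} (hr : 0 < r) {ρ : ℝ} (hρ : 0 < ρ) (j : Fin 3) (y : V 4) :
    Pe r j 0 y ∈ excDom r ρ j := by
  have : r ≠ 0 := by omega
  simp only [excDom, mem_setOf_eq, Pe, if_true, zero_mul, ne_eq, this, not_false_iff, zero_pow,
    Complex.normSq_zero]
  positivity

theorem continuousAt_Pe (r : ℕ) (j : Fin 3) {y : V 4} (hy : y j.castSucc ≠ 0) (ε : ℂ) :
    ContinuousAt (fun p : ℂ × V 4 => Pe r j p.1 p.2) (ε, y) := by
  rw [continuousAt_pi]
  intro i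
  have hc : ∀ k : Fin 4, ContinuousAt (fun p : ℂ × V 4 => p.2 k) (ε, y) := fun k =>
    (Continuous.continuousAt (by fun_prop))
  by_cases h1 : i = j.castSucc
  · have e : (fun p : ℂ × V 4 => Pe r j p.1 p.2 i) = fun p => (p.1 * p.2 j.castSucc) ^ r := by
      funext p; simp [Pe, h1]
    rw [e]
    exact Continuous.continuousAt (by fun_prop)
  · by_cases h3 : i = 3
    · have e : (fun p : ℂ × V 4 => Pe r j p.1 p.2 i) = fun p => p.2 3 := by
        funext p; subst h3; simp [Pe, h1]
      rw [e]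
      exact hc 3
    · have e : (fun p : ℂ × V 4 => Pe r j p.1 p.2 i) = fun p => p.2 i / p.2 j.castSucc := by
        funext p; simp [Pe, h1, h3]
      rw [e]
      exact (hc i).div (hc _) hy

theorem continuousAt_Je (r : ℕ) (j : Fin 3) {y : V 4} (hy : y j.castSucc ≠ 0) (ε : ℂ)
    (a b : Fin 4) : ContinuousAt (fun p : ℂ × V 4 => Je r j p.1 p.2 a b) (ε, y) := by
  have hc : ∀ k : Fin 4, ContinuousAt (fun p : ℂ × V 4 => p.2 k) (ε, y) := fun k =>
    (Continuous.continuousAt (by fun_prop))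
  simp only [Je, Matrix.of_apply]
  split_ifs
  · exact Continuous.continuousAt (by fun_prop)
  · exact continuousAt_const
  · exact continuousAt_const
  · exact continuousAt_const
  · exact continuousAt_const.div (hc _) hy
  · exact ((hc _).div ((hc _).pow 2) (pow_ne_zero 2 hy)).neg
  · exact continuousAt_const

theorem continuousAt_phi {r : ℕ} {ρ : ℝ} {g : V 4 → Matrix (Fin 4) (Fin 4) ℂ}
    {gx : Fin 3 → V 4 → Matrix (Fin 4) (Fin 4) ℂ} (h : LocalExc r ρ g gx) (j : Fin 3) {y : V 4}
    (hy : y j.castSucc ≠ 0) {ε : ℂ} (hε : Pe r j ε y ∈ excDom r ρ j) (a b : Fin 4) :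
    ContinuousAt (fun p : ℂ × V 4 => pull (Je r j p.1 p.2) (gx j (Pe r j p.1 p.2)) a b)
      (ε, y) := by
  simp only [pull_apply]
  have hg : ∀ c d : Fin 4, ContinuousAt (fun p : ℂ × V 4 => gx j (Pe r j p.1 p.2) c d) (ε, y) := by
    intro c d
    have h1 : ContinuousAt (fun u => gx j u c d) (Pe r j ε y) :=
      ((h.kformx j).smooth c d).continuousOn.continuousAt
        ((isOpen_excDom r ρ j).mem_nhds hε)
    exact ContinuousAt.comp (f := fun p : ℂ × V 4 => Pe r j p.1 p.2) h1
      (continuousAt_Pe r j hy ε)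
  refine tendsto_finset_sum _ fun d _ => ?_
  refine Tendsto.mul ?_ ?_
  · refine tendsto_finset_sum _ fun c _ => ?_
    exact (continuousAt_Je r j hy ε c a).mul (hg c d)
  · exact (continuous_star.continuousAt).comp (continuousAt_Je r j hy ε d b)

/-- the limit form in the chart `j` -/
def conV (r : ℕ) (gx : Fin 3 → V 4 → Matrix (Fin 4) (Fin 4) ℂ) (j : Fin 3) (y : V 4) :
    Matrix (Fin 4) (Fin 4) ℂ := pull (Je r j 0 y) (gx j (Pe r j 0 y))

open Classical in
/-- the limit form -/
def coneForm (r : ℕ) (gx : Fin 3 → V 4 → Matrix (Fin 4) (Fin 4) ℂ) (y : V 4) :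
    Matrix (Fin 4) (Fin 4) ℂ :=
  if h : ∃ j : Fin 3, y j.castSucc ≠ 0 then conV r gx h.choose y else 0

theorem continuous_E3 : Continuous E3 := by
  unfold E3
  exact ((Complex.continuous_normSq.comp (continuous_apply _)).add
    (Complex.continuous_normSq.comp (continuous_apply _))).add
    (Complex.continuous_normSq.comp (continuous_apply _))

theorem eventually_E3_scale {ρ : ℝ} (hρ : 0 < ρ) (y : V 4) :
    ∀ᶠ p : ℂ × V 4 in 𝓝 (0, y), E3 (scale p.1 p.2) < ρ := by
  have hc : Continuous fun p : ℂ × V 4 => E3 (scale p.1 p.2) := by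
    simp only [E3_scale]
    exact (Complex.continuous_normSq.comp continuous_fst).mul (continuous_E3.comp continuous_snd)
  have h0 : E3 (scale (0 : ℂ) y) < ρ := by rw [E3_scale]; simpa using hρ
  exact (hc.continuousAt (x := ((0 : ℂ), y))).eventually (gt_mem_nhds h0)

theorem tendsto_scale_form {r : ℕ} {ρ : ℝ} {g : V 4 → Matrix (Fin 4) (Fin 4) ℂ}
    {gx : Fin 3 → V 4 → Matrix (Fin 4) (Fin 4) ℂ} (h : LocalExc r ρ g gx) (j : Fin 3) {y : V 4}
    (hy : y j.castSucc ≠ 0) (a b : Fin 4) :
    Tendsto (fun ε : ℝ => pull (scaleMat ε) (g (scale ε y)) a b) (𝓝[>] 0)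
      (𝓝 (conV r gx j y a b)) := by
  have h1 := continuousAt_phi h j hy (Pe_zero_mem h.r_pos h.ρ_pos j y) a b
  have h2 : Tendsto (fun ε : ℝ => ((ε : ℂ), y)) (𝓝[>] 0) (𝓝 (0, y)) := by
    refine Tendsto.mono_left ?_ nhdsWithin_le_nhds
    have : Continuous fun ε : ℝ => ((ε : ℂ), y) := by fun_prop
    simpa using this.tendsto 0
  refine (h1.tendsto.comp h2).congr' ?_
  filter_upwards [h2.eventually (eventually_E3_scale h.ρ_pos y), self_mem_nhdsWithin] with ε hε hp
  have hε0 : (ε : ℂ) ≠ 0 := by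
    have : (0 : ℝ) < ε := hp
    exact_mod_cast this.ne'
  simp only [Function.comp]
  rw [pull_scale h j hε0 hy hε]

theorem coneForm_eq {r : ℕ} {ρ : ℝ} {g : V 4 → Matrix (Fin 4) (Fin 4) ℂ}
    {gx : Fin 3 → V 4 → Matrix (Fin 4) (Fin 4) ℂ} (h : LocalExc r ρ g gx) (j : Fin 3) {y : V 4}
    (hy : y j.castSucc ≠ 0) : coneForm r gx y = conV r gx j y := by
  have hex : ∃ j : Fin 3, y j.castSucc ≠ 0 := ⟨j, hy⟩
  rw [coneForm, dif_pos hex]
  ext a b
  exact tendsto_nhds_unique (tendsto_scale_form h _ hex.choose_spec a b)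
    (tendsto_scale_form h j hy a b)

theorem exists_ne_zero {y : V 4} (hy : 0 < E3 y) : ∃ j : Fin 3, y j.castSucc ≠ 0 := by
  by_contra hcon
  push Not at hcon
  have h0 := hcon 0
  have h1 := hcon 1
  have h2 := hcon 2
  simp at h0 h1 h2
  simp [E3, h0, h1, h2] at hy

theorem cone_uniform {r : ℕ} {ρ : ℝ} {g : V 4 → Matrix (Fin 4) (Fin 4) ℂ}
    {gx : Fin 3 → V 4 → Matrix (Fin 4) (Fin 4) ℂ} (h : LocalExc r ρ g gx) {K : Set (V 4)}
    (hK : IsCompact K) (hK0 : K ⊆ {y | 0 < E3 y}) (a b : Fin 4) :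
    TendstoUniformlyOn (fun (ε : ℝ) y => pull (scaleMat ε) (g (scale ε y)) a b)
        (fun y => coneForm r gx y a b) (𝓝[>] 0) K := by
  rw [← tendstoLocallyUniformlyOn_iff_tendstoUniformlyOn_of_compact hK,
    Metric.tendstoLocallyUniformlyOn_iff]
  intro η hη x hx
  obtain ⟨j, hj⟩ := exists_ne_zero (hK0 hx)
  have h1 := continuousAt_phi h j hj (Pe_zero_mem h.r_pos h.ρ_pos j x) a b
  have h2 : ∀ᶠ p : ℂ × V 4 in 𝓝 (0, x),
      dist (pull (Je r j p.1 p.2) (gx j (Pe r j p.1 p.2)) a b) (conV r gx j x a b) < η / 2 :=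
    Metric.tendsto_nhds.mp h1.tendsto (η / 2) (by positivity)
  have h3 := eventually_E3_scale h.ρ_pos x
  have h4 : ∀ᶠ p : ℂ × V 4 in 𝓝 (0, x), p.2 j.castSucc ≠ 0 := by
    have hc : Continuous fun p : ℂ × V 4 => p.2 j.castSucc := by fun_prop
    exact (hc.continuousAt (x := ((0 : ℂ), x))).eventually (isOpen_ne.mem_nhds hj)
  have h5 := (h2.and h3).and h4
  rw [nhds_prod_eq, Filter.eventually_prod_iff] at h5
  obtain ⟨pa, hpa, pb, hpb, hall⟩ := h5
  refine ⟨{y | pb y}, mem_nhdsWithin_of_mem_nhds hpb, ?_⟩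
  have hcast : Tendsto (fun ε : ℝ => (ε : ℂ)) (𝓝[>] 0) (𝓝 0) := by
    refine Tendsto.mono_left ?_ nhdsWithin_le_nhds
    simpa using Complex.continuous_ofReal.tendsto 0
  filter_upwards [hcast.eventually hpa, self_mem_nhdsWithin] with ε hε hp y hy
  have hε0 : (ε : ℂ) ≠ 0 := by
    have : (0 : ℝ) < ε := hp
    exact_mod_cast this.ne'
  obtain ⟨⟨q1, q2⟩, q3⟩ := hall hε hy
  obtain ⟨⟨q4, -⟩, -⟩ := hall hpa.self_of_nhds hy
  simp only at q1 q2 q3 q4
  rw [coneForm_eq h j q3, pull_scale h j hε0 q3 q2]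
  calc dist (conV r gx j y a b) _ ≤ dist (conV r gx j y a b) (conV r gx j x a b) +
        dist (pull (Je r j ε y) (gx j (Pe r j ε y)) a b) (conV r gx j x a b) :=
        dist_triangle_right _ _ _
    _ < η / 2 + η / 2 := add_lt_add q4 q1
    _ = η := by ring

end

end GK.KL
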