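import Pool.Agent.GK.KeyLimitA

/-! # The limit form is a cone form -/

open scoped ContDiff Topology ComplexOrder
open MeasureTheory Set Filter

namespace GK.KL

noncomputable section

theorem KForm.of_local {n : ℕ} {g : V n → Matrix (Fin n) (Fin n) ℂ} {Ω : Set (V n)}
    (hl : ∀ z ∈ Ω, ∃ Ω' : Set (V n), IsOpen Ω' ∧ z ∈ Ω' ∧
      ∃ g' : V n → Matrix (Fin n) (Fin n) ℂ, KForm g' Ω' ∧ ∀ w ∈ Ω', g w = g' w) : KForm g Ω := by
  refine ⟨?_, ?_, ?_⟩
  · intro j k z hz
    obtain ⟨Ω', ho, hz', g', hg', he⟩ := hl z hz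
    have h1 : ContDiffAt ℝ ∞ (fun w => g' w j k) z := (hg'.smooth j k).contDiffAt (ho.mem_nhds hz')
    have h2 : (fun w => g w j k) =ᶠ[𝓝 z] fun w => g' w j k := by
      filter_upwards [ho.mem_nhds hz'] with w hw
      rw [he w hw]
    exact (h1.congr_of_eventuallyEq h2).contDiffWithinAt
  · intro z hz
    obtain ⟨Ω', ho, hz', g', hg', he⟩ := hl z hz
    rw [he z hz']
    exact hg'.herm z hz'
  · intro z hz i j k
    obtain ⟨Ω', ho, hz', g', hg', he⟩ := hl z hz
    have h2 : ∀ j k, (fun w => g w j k) =ᶠ[𝓝 z] fun w => g' w j k := by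
      intro j k
      filter_upwards [ho.mem_nhds hz'] with w hw
      rw [he w hw]
    rw [dZ_congr (h2 j k), dZ_congr (h2 i k)]
    exact hg'.closed z hz' i j k

theorem analytic_Pe (r : ℕ) (j : Fin 3) (ε : ℂ) :
    AnalyticOnNhd ℂ (Pe r j ε) {y | y j.castSucc ≠ 0} := by
  intro y hy
  rw [analyticAt_pi_iff]
  intro i
  have hc : ∀ k : Fin 4, AnalyticAt ℂ (fun y : V 4 => y k) y := fun k =>
    (ContinuousLinearMap.proj (R := ℂ) (φ := fun _ : Fin 4 => ℂ) k).analyticAt y
  by_cases h1 : i = j.castSucc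
  · have e : (fun x : V 4 => Pe r j ε x i) = fun x => (ε * x j.castSucc) ^ r := by
      funext p; simp [Pe, h1]
    rw [e]
    exact (analyticAt_const.mul (hc _)).pow r
  · by_cases h3 : i = 3
    · have e : (fun x : V 4 => Pe r j ε x i) = fun x => x 3 := by
        funext p; subst h3; simp [Pe, h1]
      rw [e]
      exact hc 3
    · have e : (fun x : V 4 => Pe r j ε x i) = fun x => x i / x j.castSucc := by
        funext p; simp [Pe, h1, h3]
      rw [e]
      exact (hc i).div (hc _) hy

variable {r : ℕ} {ρ : ℝ} {g : V 4 → Matrix (Fin 4) (Fin 4) ℂ}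
    {gx : Fin 3 → V 4 → Matrix (Fin 4) (Fin 4) ℂ}

theorem isOpen_ne_zero (j : Fin 3) : IsOpen {y : V 4 | y j.castSucc ≠ 0} :=
  isOpen_ne.preimage (continuous_apply _)

theorem kform_conV (h : LocalExc r ρ g gx) (j : Fin 3) :
    KForm (conV r gx j) {y | y j.castSucc ≠ 0} := by
  have h1 := KForm.pullback (isOpen_excDom r ρ j) (h.kformx j) (isOpen_ne_zero j)
    (analytic_Pe r j 0) (fun y _ => Pe_zero_mem h.r_pos h.ρ_pos j y)
  refine KForm.of_local fun z hz => ⟨{y | y j.castSucc ≠ 0}, isOpen_ne_zero j, hz, _, h1, ?_⟩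
  intro w hw
  rw [jac_Pe h.r_pos j 0 hw]
  rfl

theorem kform_cone (h : LocalExc r ρ g gx) : KForm (coneForm r gx) {y | 0 < E3 y} := by
  refine KForm.of_local fun z hz => ?_
  obtain ⟨j, hj⟩ := exists_ne_zero hz
  exact ⟨{y | y j.castSucc ≠ 0}, isOpen_ne_zero j, hj, _, kform_conV h j,
    fun w hw => coneForm_eq h j hw⟩

/-- the radial vector is in the kernel of `Je r j 0` -/
theorem Je_rad {r : ℕ} (hr : 0 < r) (j : Fin 3) {y : V 4} (hy : y j.castSucc ≠ 0) (c : Fin 4) :
    ∑ i : Fin 3, y i.castSucc * Je r j 0 y c i.castSucc = 0 := by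
  have hr' : r ≠ 0 := by omega
  simp only [Je, Matrix.of_apply]
  by_cases h1 : c = j.castSucc
  · simp [h1, hr']
  · by_cases h3 : c = 3
    · simp only [h3, (castSucc_ne_three j).symm, castSucc_ne_three, if_false, if_true, mul_zero,
        Finset.sum_const_zero]
    · obtain ⟨c', rfl⟩ : ∃ c' : Fin 3, c = c'.castSucc := by
        refine ⟨c.castPred h3, ?_⟩
        simp
      have hne : c' ≠ j := fun h => h1 (by rw [h])
      simp only [h1, h3, if_false, Fin.castSucc_inj]
      have : ∀ b : Fin 3, y b.castSucc * (if b = c' then 1 / y j.castSucc else if b = j then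
          - (y c'.castSucc / y j.castSucc ^ 2) else 0) =
          (if b = c' then y c'.castSucc * (1 / y j.castSucc) else 0) +
          (if b = j then y j.castSucc * - (y c'.castSucc / y j.castSucc ^ 2) else 0) := by
        intro b
        by_cases hb : b = c'
        · subst hb; simp [hne]
        · by_cases hb' : b = j
          · subst hb'; simp [hb]
          · simp [hb, hb']
      rw [Finset.sum_congr rfl fun b _ => this b, Finset.sum_add_distrib]
      simp only [Finset.sum_ite_eq', Finset.mem_univ, if_true]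
      field_simp
      ring

theorem kernel_cone (h : LocalExc r ρ g gx) {y : V 4} (hy : 0 < E3 y) (k : Fin 4) :
    ∑ j : Fin 3, y j.castSucc * coneForm r gx y j.castSucc k = 0 := by
  obtain ⟨j, hj⟩ := exists_ne_zero hy
  rw [coneForm_eq h j hj]
  simp only [conV, pull_apply]
  have hJ := Je_rad h.r_pos j hj
  calc ∑ i : Fin 3, y i.castSucc * ∑ d, (∑ c, Je r j 0 y c i.castSucc *
        gx j (Pe r j 0 y) c d) * star (Je r j 0 y d k)
      = ∑ d, (∑ c, (∑ i : Fin 3, y i.castSucc * Je r j 0 y c i.castSucc) *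
        gx j (Pe r j 0 y) c d) * star (Je r j 0 y d k) := by
        simp only [Finset.mul_sum, Finset.sum_mul]
        rw [Finset.sum_comm]
        refine Finset.sum_congr rfl fun d _ => ?_
        rw [Finset.sum_comm]
        refine Finset.sum_congr rfl fun c _ => Finset.sum_congr rfl fun i _ => ?_
        ring
    _ = 0 := by simp [hJ]

theorem scale_E3_pos {c : ℂ} (hc : c ≠ 0) {y : V 4} (hy : 0 < E3 y) : 0 < E3 (scale c y) := by
  rw [E3_scale]
  exact mul_pos (Complex.normSq_pos.mpr hc) hy

theorem hom_cone (h : LocalExc r ρ g gx) {y : V 4} (hy : 0 < E3 y) {c : ℂ} (hc : c ≠ 0) :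
    coneForm r gx y = pull (scaleMat c) (coneForm r gx (scale c y)) := by
  obtain ⟨j, hj⟩ := exists_ne_zero hy
  have hj' : scale c y j.castSucc ≠ 0 := by rw [scale_castSucc]; exact mul_ne_zero hc hj
  rw [coneForm_eq h j hj, coneForm_eq h j hj', conV, conV, pull_pull, Je_scale' h.r_pos j hc,
    Pe_scale h.r_pos j hc]

theorem map_star_eq (J : Matrix (Fin 4) (Fin 4) ℂ) : J.map star = (J.transpose).conjTranspose := by
  ext a b
  simp

theorem posSemidef_pull {J G : Matrix (Fin 4) (Fin 4) ℂ} (hG : G.PosSemidef) :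
    (pull J G).PosSemidef := by
  rw [pull, map_star_eq]
  exact hG.mul_mul_conjTranspose_same _

theorem quad_pull (J G : Matrix (Fin 4) (Fin 4) ℂ) (x : V 4) :
    star x ⬝ᵥ (pull J G).mulVec x =
      star ((J.map star).mulVec x) ⬝ᵥ G.mulVec ((J.map star).mulVec x) := by
  rw [pull, map_star_eq, Matrix.star_mulVec, Matrix.conjTranspose_conjTranspose,
    Matrix.dotProduct_mulVec, Matrix.dotProduct_mulVec, Matrix.dotProduct_mulVec,
    Matrix.vecMul_vecMul, Matrix.vecMul_vecMul, Matrix.mul_assoc]

theorem kernel_Je {r : ℕ} (j : Fin 3) {y : V 4} (hy : y j.castSucc ≠ 0) {x : V 4}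
    (hx : ((Je r j 0 y).map star).mulVec x = 0) :
    x 3 = 0 ∧ ∀ a : Fin 3, x a.castSucc = star (y a.castSucc) *
      (x j.castSucc / star (y j.castSucc)) := by
  have hstar : star (y j.castSucc) ≠ 0 := by simpa using hy
  have h3 := congrFun hx 3
  constructor
  · simpa [Matrix.mulVec, dotProduct, Je, (castSucc_ne_three j).symm] using h3
  · intro a
    by_cases ha : a = j
    · subst ha; field_simp
    · have h1 : (a.castSucc : Fin 4) ≠ j.castSucc := fun h => ha (Fin.castSucc_injective _ h)
      have h2 := congrFun hx a.castSucc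
      simp only [Matrix.mulVec, dotProduct, Matrix.map_apply, Je, Matrix.of_apply, h1, if_false,
        castSucc_ne_three a, Pi.zero_apply] at h2
      have : ∀ b : Fin 4, star (if b = a.castSucc then 1 / y j.castSucc else
          if b = j.castSucc then - (y a.castSucc / y j.castSucc ^ 2) else 0) * x b =
          (if b = a.castSucc then star (1 / y j.castSucc) * x a.castSucc else 0) +
          (if b = j.castSucc then star (- (y a.castSucc / y j.castSucc ^ 2)) * x j.castSucc
            else 0) := by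
        intro b
        by_cases hb : b = a.castSucc
        · subst hb; simp [h1]
        · by_cases hb' : b = j.castSucc
          · subst hb'; simp [hb]
          · simp [hb, hb']
      rw [Finset.sum_congr rfl fun b _ => this b, Finset.sum_add_distrib] at h2
      simp only [Finset.sum_ite_eq', Finset.mem_univ, if_true, star_div₀, star_neg, star_one,
        star_pow] at h2
      field_simp at h2
      field_simp
      linear_combination h2

theorem rad_three (y : V 4) : rad y 3 = 0 := by simp [rad]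

theorem rad_castSucc (y : V 4) (a : Fin 3) : rad y a.castSucc = star (y a.castSucc) / (E3 y : ℂ) := by
  simp [rad, castSucc_ne_three]

theorem sum_normSq_eq (y : V 4) :
    ∑ a : Fin 3, y a.castSucc * star (y a.castSucc) = (E3 y : ℂ) := by
  rw [Fin.sum_univ_three]
  simp only [E3, Fin.castSucc_zero, Fin.castSucc_one]
  push_cast
  simp only [Complex.star_def, Complex.mul_conj]
  try rfl

theorem pos_cone (h : LocalExc r ρ g gx) {y : V 4} (hy : 0 < E3 y) :
    (addRad (coneForm r gx) y).PosDef := by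
  obtain ⟨j, hj⟩ := exists_ne_zero hy
  have hG : (gx j (Pe r j 0 y)).PosDef := h.posx j _ (Pe_zero_mem h.r_pos h.ρ_pos j y)
  have hA : (pull (Je r j 0 y) (gx j (Pe r j 0 y))).PosSemidef := posSemidef_pull hG.posSemidef
  have hB := Matrix.posSemidef_vecMulVec_self_star (rad y)
  have hE : ((E3 y : ℝ) : ℂ) ≠ 0 := by exact_mod_cast hy.ne'
  rw [addRad, coneForm_eq h j hj, conV]
  refine Matrix.PosDef.of_dotProduct_mulVec_pos (hA.isHermitian.add hB.isHermitian) ?_
  intro x hx
  rw [Matrix.add_mulVec, dotProduct_add]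
  have hqA : 0 ≤ star x ⬝ᵥ (pull (Je r j 0 y) (gx j (Pe r j 0 y))).mulVec x :=
    (Matrix.posSemidef_iff_dotProduct_mulVec.mp hA).2 x
  have hqB : 0 ≤ star x ⬝ᵥ (Matrix.vecMulVec (rad y) (star (rad y))).mulVec x :=
    (Matrix.posSemidef_iff_dotProduct_mulVec.mp hB).2 x
  by_cases hz : ((Je r j 0 y).map star).mulVec x = 0
  · refine add_pos_of_nonneg_of_pos hqA ?_
    obtain ⟨hx3, hxa⟩ := kernel_Je j hj hz
    set μ := x j.castSucc / star (y j.castSucc) with hμ
    have hc : star (rad y) ⬝ᵥ x = μ := by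
      rw [dotProduct, Fin.sum_univ_castSucc, Fin.last]
      have : (⟨3, Nat.lt_add_one 3⟩ : Fin 4) = 3 := rfl
      rw [this, hx3, mul_zero, add_zero]
      calc ∑ i : Fin 3, star (rad y) i.castSucc * x i.castSucc
          = ∑ i : Fin 3, (y i.castSucc * star (y i.castSucc)) * (μ / E3 y) := by
            refine Finset.sum_congr rfl fun i _ => ?_
            rw [Pi.star_apply, rad_castSucc, hxa i]
            simp only [star_div₀, star_star]
            have : star ((E3 y : ℝ) : ℂ) = ((E3 y : ℝ) : ℂ) := by simp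
            rw [this]
            field_simp
        _ = μ := by
            rw [← Finset.sum_mul, sum_normSq_eq]
            field_simp
    have hμ0 : μ ≠ 0 := by
      intro h0
      apply hx
      funext i
      induction i using Fin.lastCases with
      | last => exact hx3
      | cast i => rw [hxa i, h0, mul_zero]; rfl
    have hq : star x ⬝ᵥ (Matrix.vecMulVec (rad y) (star (rad y))).mulVec x =
        star (star (rad y) ⬝ᵥ x) * (star (rad y) ⬝ᵥ x) := by
      rw [Matrix.vecMulVec_mulVec]
      rw [dotProduct_smul, MulOpposite.smul_eq_mul_unop, MulOpposite.unop_op,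
        ← Matrix.star_dotProduct, mul_comm]
    rw [hq, hc]
    rw [Complex.star_def, ← Complex.normSq_eq_conj_mul_self]
    exact_mod_cast Complex.normSq_pos.mpr hμ0
  · refine add_pos_of_pos_of_nonneg ?_ hqB
    rw [quad_pull]
    exact hG.dotProduct_mulVec_pos hz

theorem neg_one_zpow_mul_self (a : ℤ) : ((-1 : ℂ) ^ a) * ((-1 : ℂ) ^ a) = 1 := by
  rcases Int.even_or_odd a with h | h
  · rw [h.neg_one_zpow]; ring
  · rw [h.neg_one_zpow]; ring

theorem normSq_neg_one_zpow_mul (a : ℤ) (z : ℂ) :
    Complex.normSq ((-1 : ℂ) ^ a * z) = Complex.normSq z := by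
  rcases Int.even_or_odd a with h | h
  · rw [h.neg_one_zpow, one_mul]
  · rw [h.neg_one_zpow, neg_one_mul, Complex.normSq_neg]

theorem E3_twist (a b : ℤ) (y : V 4) : E3 (twist a b y) = E3 y := by
  simp only [E3, twist, Matrix.cons_val]
  rw [normSq_neg_one_zpow_mul, normSq_neg_one_zpow_mul]

theorem twist_scale (a b : ℤ) (c : ℂ) (y : V 4) :
    twist a b (scale c y) = scale c (twist a b y) := by
  funext i
  fin_cases i <;> simp [twist, scale] <;> ring

theorem twistMat_scaleMat (a b : ℤ) (c : ℂ) :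
    twistMat a b * scaleMat c = scaleMat c * twistMat a b := by
  rw [twistMat, scaleMat, Matrix.diagonal_mul_diagonal, Matrix.diagonal_mul_diagonal]
  congr 1
  funext i
  exact mul_comm _ _

theorem twist_cone (h : LocalExc r ρ g gx) {y : V 4} (hy : 0 < E3 y) (a b : ℤ) :
    coneForm r gx y = pull (twistMat a b) (coneForm r gx (twist a b y)) := by
  obtain ⟨j, hj⟩ := exists_ne_zero hy
  have hy' : 0 < E3 (twist a b y) := by rwa [E3_twist]
  obtain ⟨j', hj'⟩ := exists_ne_zero hy'
  ext p q
  have h1 := tendsto_scale_form h j hj p q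
  rw [← coneForm_eq h j hj] at h1
  have h2 : Tendsto (fun ε : ℝ => pull (twistMat a b)
      (pull (scaleMat ε) (g (scale ε (twist a b y)))) p q) (𝓝[>] 0)
      (𝓝 (pull (twistMat a b) (coneForm r gx (twist a b y)) p q)) := by
    simp only [pull_apply (twistMat a b)]
    refine tendsto_finsetSum _ fun d _ => ?_
    refine Tendsto.mul ?_ tendsto_const_nhds
    refine tendsto_finsetSum _ fun c _ => ?_
    refine Tendsto.mul tendsto_const_nhds ?_
    rw [coneForm_eq h j' hj']
    exact tendsto_scale_form h j' hj' c d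
  refine tendsto_nhds_unique h1 (h2.congr' ?_)
  have h3 : Tendsto (fun ε : ℝ => ((ε : ℂ), y)) (𝓝[>] 0) (𝓝 (0, y)) := by
    refine Tendsto.mono_left ?_ nhdsWithin_le_nhds
    have : Continuous fun ε : ℝ => ((ε : ℂ), y) := by fun_prop
    simpa using this.tendsto 0
  filter_upwards [h3.eventually (eventually_E3_scale h.ρ_pos y), self_mem_nhdsWithin] with ε hε hp
  have hε0 : (ε : ℂ) ≠ 0 := by
    have : (0 : ℝ) < ε := hp
    exact_mod_cast this.ne'
  rw [pull_pull, ← twistMat_scaleMat, ← pull_pull, ← twist_scale,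
    ← h.twist a b (scale ε y) (scale_E3_pos hε0 hy) hε]

theorem twistMat_even (p q : ℤ) : twistMat (2 * p) (2 * q) = 1 := by
  have h : ∀ m : ℤ, ((-1 : ℂ)) ^ (2 * m) = 1 := fun m => (even_two_mul m).neg_one_zpow
  rw [twistMat, h, h]
  ext i j
  fin_cases i <;> fin_cases j <;> simp

theorem pull_one (G : Matrix (Fin 4) (Fin 4) ℂ) : pull 1 G = G := by
  simp [pull]

theorem twist_even (p q : ℤ) (y : V 4) :
    twist (2 * p) (2 * q) y = y + Pi.single 3 (2 * p + 2 * q * Complex.I) := by
  have h : ∀ m : ℤ, ((-1 : ℂ)) ^ (2 * m) = 1 := fun m => (even_two_mul m).neg_one_zpow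
  funext i
  fin_cases i <;> simp [twist, h]
  ring

theorem cone_cone (h : LocalExc r ρ g gx) : Cone (coneForm r gx) where
  kform := kform_cone h
  kernel := fun _ hy k => kernel_cone h hy k
  hom := fun _ hy _ hc => hom_cone h hy hc
  pos := fun _ hy => pos_cone h hy
  per := fun y hy p q => by
    have := twist_cone h hy (2 * p) (2 * q)
    rw [twistMat_even, pull_one, twist_even] at this
    exact this.symm

theorem exists_cone' (h : LocalExc r ρ g gx) :
    ∃ a, Cone a ∧ ∀ K : Set (V 4), IsCompact K → K ⊆ {y | 0 < E3 y} → ∀ j k,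
      TendstoUniformlyOn (fun (ε : ℝ) y => pull (scaleMat ε) (g (scale ε y)) j k)
        (fun y => a y j k) (𝓝[>] 0) K :=
  ⟨coneForm r gx, cone_cone h, fun _ hK hK0 j k => cone_uniform h hK hK0 j k⟩

end

end GK.KL
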