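import Pool.Agent.GK.KeyLimitB

/-! # The Levi form of functions of `log E3` -/

open scoped ContDiff Topology ComplexOrder
open MeasureTheory Set Filter

namespace GK.KL

noncomputable section

theorem two_le_infty : (2 : WithTop ℕ∞) ≤ ∞ := by
  exact ENat.LEInfty.out

theorem contDiff_normSq : ContDiff ℝ ∞ Complex.normSq := by
  have : (Complex.normSq : ℂ → ℝ) = fun z => ‖z‖ ^ 2 := by
    funext z; exact Complex.normSq_eq_norm_sq z
  rw [this]
  exact contDiff_norm_sq ℝ

theorem contDiff_E3 : ContDiff ℝ ∞ E3 := by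
  unfold E3
  exact ((contDiff_normSq.comp (contDiff_apply ℝ ℂ 0)).add
    (contDiff_normSq.comp (contDiff_apply ℝ ℂ 1))).add
    (contDiff_normSq.comp (contDiff_apply ℝ ℂ 2))

theorem contDiffAt_logE3 {y : V 4} (hy : 0 < E3 y) :
    ContDiffAt ℝ ∞ (fun w => Real.log (E3 w)) y :=
  contDiff_E3.contDiffAt.log hy.ne'

theorem dZ_coord (i j : Fin 4) (y : V 4) :
    dZ j (fun w : V 4 => w i) y = if i = j then 1 else 0 := by
  have h : HasFDerivAt (fun w : V 4 => w i)
    (ContinuousLinearMap.proj (R := ℂ) (φ := fun _ : Fin 4 => ℂ) i) y := hasFDerivAt_apply i y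
  rw [dZ_of_holo h.differentiableAt, h.fderiv]
  simp [Pi.single_apply]

theorem dB_coord (i j : Fin 4) (y : V 4) : dB j (fun w : V 4 => w i) y = 0 := by
  have h : HasFDerivAt (fun w : V 4 => w i)
    (ContinuousLinearMap.proj (R := ℂ) (φ := fun _ : Fin 4 => ℂ) i) y := hasFDerivAt_apply i y
  exact dB_of_holo h.differentiableAt j

theorem diff_coord (i : Fin 4) (y : V 4) : DifferentiableAt ℝ (fun w : V 4 => w i) y :=
  (ContinuousLinearMap.proj (R := ℝ) (φ := fun _ : Fin 4 => ℂ) i).differentiableAt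

theorem diff_coord_star (i : Fin 4) (y : V 4) :
    DifferentiableAt ℝ (fun w : V 4 => star (w i)) y := (diff_coord i y).star

theorem E3_sum (y : V 4) :
    ((E3 y : ℝ) : ℂ) = ∑ a : Fin 3, y a.castSucc * star (y a.castSucc) := (sum_normSq_eq y).symm

theorem dZ_E3 (j : Fin 4) (y : V 4) :
    dZ j (fun w => ((E3 w : ℝ) : ℂ)) y = if j = 3 then 0 else star (y j) := by
  have e : (fun w : V 4 => ((E3 w : ℝ) : ℂ)) =
      fun w => ∑ a : Fin 3, w a.castSucc * star (w a.castSucc) := funext E3_sum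
  rw [e, dZ_sum (f := fun (a : Fin 3) (w : V 4) => w a.castSucc * star (w a.castSucc)) _
    (fun i _ => (diff_coord _ y).mul (diff_coord_star _ y))]
  have h : ∀ i : Fin 3, dZ j (fun w : V 4 => w i.castSucc * star (w i.castSucc)) y =
      (if i.castSucc = j then star (y i.castSucc) else 0) := by
    intro i
    rw [dZ_mul (diff_coord _ y) (diff_coord_star _ y), dZ_coord, dZ_star (diff_coord _ y),
      dB_coord]
    simp
  rw [Finset.sum_congr rfl fun i _ => h i]
  induction j using Fin.lastCases with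
  | last =>
    have : (Fin.last 3 : Fin 4) = 3 := rfl
    simp [this, castSucc_ne_three]
  | cast j =>
    simp [castSucc_ne_three, Fin.castSucc_inj]

theorem star_E3 : (fun w : V 4 => ((E3 w : ℝ) : ℂ)) = fun w => star ((E3 w : ℝ) : ℂ) := by
  funext w; simp

theorem diff_E3 (y : V 4) : DifferentiableAt ℝ (fun w : V 4 => ((E3 w : ℝ) : ℂ)) y := by
  have := (contDiff_E3.differentiable (by simp)) y
  exact Complex.ofRealCLM.differentiableAt.comp y this

theorem dB_E3 (j : Fin 4) (y : V 4) :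
    dB j (fun w => ((E3 w : ℝ) : ℂ)) y = if j = 3 then 0 else y j := by
  rw [star_E3, dB_star (diff_E3 y), dZ_E3]
  split_ifs <;> simp

theorem levi_E3 (j k : Fin 4) (y : V 4) :
    levi (fun w => ((E3 w : ℝ) : ℂ)) y j k = if j = k ∧ j ≠ 3 then 1 else 0 := by
  have e : (fun w : V 4 => dB k (fun w => ((E3 w : ℝ) : ℂ)) w) =
      fun w => if k = 3 then 0 else w k := by
    funext w; rw [dB_E3]
  rw [levi, Matrix.of_apply, e]
  by_cases hk : k = 3
  · subst hk
    simp only [if_true, dZ_const]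
    by_cases hj : j = 3
    · simp [hj]
    · simp [hj]
  · simp only [hk, if_false, dZ_coord]
    by_cases hj : j = k
    · subst hj; simp [hk]
    · have : ¬ k = j := fun h => hj h.symm
      simp [hj, this]

/-- chain rule for a real function of a real function -/
theorem fderiv_real_comp {n : ℕ} {F : ℝ → ℝ} {f : V n → ℝ} {z : V n}
    (hF : DifferentiableAt ℝ F (f z)) (hf : DifferentiableAt ℝ f z) (v : V n) :
    fderiv ℝ (fun w => ((F (f w) : ℝ) : ℂ)) z v =
      (deriv F (f z) : ℝ) * fderiv ℝ (fun w => ((f w : ℝ) : ℂ)) z v := by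
  have h1 : HasFDerivAt (fun w => F (f w)) (deriv F (f z) • fderiv ℝ f z) z :=
    hF.hasDerivAt.comp_hasFDerivAt z hf.hasFDerivAt
  have h2 : HasFDerivAt (fun w => ((F (f w) : ℝ) : ℂ))
      (Complex.ofRealCLM.comp (deriv F (f z) • fderiv ℝ f z)) z :=
    Complex.ofRealCLM.hasFDerivAt.comp z h1
  have h3 : HasFDerivAt (fun w => ((f w : ℝ) : ℂ)) (Complex.ofRealCLM.comp (fderiv ℝ f z)) z :=
    Complex.ofRealCLM.hasFDerivAt.comp z hf.hasFDerivAt
  rw [h2.fderiv, h3.fderiv]
  simp

theorem dZ_real_comp {n : ℕ} {F : ℝ → ℝ} {f : V n → ℝ} {z : V n}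
    (hF : DifferentiableAt ℝ F (f z)) (hf : DifferentiableAt ℝ f z) (j : Fin n) :
    dZ j (fun w => ((F (f w) : ℝ) : ℂ)) z =
      (deriv F (f z) : ℝ) * dZ j (fun w => ((f w : ℝ) : ℂ)) z := by
  simp only [dZ, fderiv_real_comp hF hf]
  ring

theorem dB_real_comp {n : ℕ} {F : ℝ → ℝ} {f : V n → ℝ} {z : V n}
    (hF : DifferentiableAt ℝ F (f z)) (hf : DifferentiableAt ℝ f z) (j : Fin n) :
    dB j (fun w => ((F (f w) : ℝ) : ℂ)) z =
      (deriv F (f z) : ℝ) * dB j (fun w => ((f w : ℝ) : ℂ)) z := by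
  simp only [dB, fderiv_real_comp hF hf]
  ring

theorem dZ_logE3 {y : V 4} (hy : 0 < E3 y) (j : Fin 4) :
    dZ j (fun w => ((Real.log (E3 w) : ℝ) : ℂ)) y = rad y j := by
  rw [dZ_real_comp (Real.differentiableAt_log hy.ne') ((contDiff_E3.differentiable (by simp)) y),
    dZ_E3, Real.deriv_log, rad]
  split_ifs
  · simp
  · push_cast
    rw [div_eq_inv_mul]

theorem dB_logE3 {y : V 4} (hy : 0 < E3 y) (j : Fin 4) :
    dB j (fun w => ((Real.log (E3 w) : ℝ) : ℂ)) y = star (rad y j) := by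
  rw [dB_real_comp (Real.differentiableAt_log hy.ne') ((contDiff_E3.differentiable (by simp)) y),
    dB_E3, Real.deriv_log, rad]
  split_ifs
  · simp
  · simp only [star_div₀, star_star]
    have : star ((E3 y : ℝ) : ℂ) = ((E3 y : ℝ) : ℂ) := by simp
    rw [this]
    push_cast
    rw [div_eq_inv_mul]

/-- the Levi form of `log E3` -/
def leviLog (y : V 4) : Matrix (Fin 4) (Fin 4) ℂ :=
  ((E3 y : ℂ))⁻¹ • Matrix.diagonal (fun j : Fin 4 => if j = 3 then (0 : ℂ) else 1) -
    Matrix.vecMulVec (rad y) (star (rad y))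

theorem levi_logE3 {y : V 4} (hy : 0 < E3 y) :
    levi (fun w => ((Real.log (E3 w) : ℝ) : ℂ)) y = leviLog y := by
  ext j k
  have hE : ((E3 y : ℝ) : ℂ) ≠ 0 := by exact_mod_cast hy.ne'
  have h1 : ContDiffAt ℝ 2 Real.log (E3 y) := Real.contDiffAt_log.mpr hy.ne'
  have h2 : ContDiffAt ℝ 2 E3 y := (contDiff_E3.of_le two_le_infty).contDiffAt
  rw [levi_real_comp h1 h2, levi_E3, dZ_E3, dB_E3, Real.deriv_log]
  have h3 : deriv (deriv Real.log) (E3 y) = - (E3 y ^ 2)⁻¹ := by
    rw [Real.deriv_log']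
    exact (hasDerivAt_inv hy.ne').deriv
  rw [h3, leviLog, Matrix.sub_apply, Matrix.smul_apply, Matrix.vecMulVec_apply, Pi.star_apply, rad,
    rad, Matrix.diagonal_apply]
  push_cast
  by_cases hj : j = 3
  · subst hj; simp
  · by_cases hk : k = 3
    · subst hk; simp [hj]
    · have hs : star ((E3 y : ℝ) : ℂ) = ((E3 y : ℝ) : ℂ) := by simp
      by_cases hjk : j = k
      · subst hjk
        simp only [hj, if_false, if_true, ne_eq, not_false_eq_true, and_self, star_div₀, star_star,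
          hs, smul_eq_mul]
        field_simp
        ring
      · simp only [hj, hk, hjk, if_false, false_and, star_div₀, star_star, hs, smul_zero]
        field_simp
        ring

/-- the Levi form of `f (log E3)` -/
theorem levi_comp_logE3 {f : ℝ → ℝ} (hf : ContDiff ℝ ∞ f) {y : V 4} (hy : 0 < E3 y)
    (j k : Fin 4) :
    levi (fun w => ((f (Real.log (E3 w)) : ℝ) : ℂ)) y j k =
      (deriv f (Real.log (E3 y)) : ℝ) * leviLog y j k +
      (deriv (deriv f) (Real.log (E3 y)) : ℝ) * (rad y j * star (rad y k)) := by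
  have h1 : ContDiffAt ℝ 2 f (Real.log (E3 y)) :=
    (hf.of_le two_le_infty).contDiffAt
  have h2 : ContDiffAt ℝ 2 (fun w => Real.log (E3 w)) y :=
    (contDiffAt_logE3 hy).of_le two_le_infty
  rw [levi_real_comp (f := fun w => Real.log (E3 w)) h1 h2, levi_logE3 hy, dZ_logE3 hy,
    dB_logE3 hy]

end

end GK.KL
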