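import Pool.Agent.GK.KeyLimitC

/-! # Positivity, and the flux integrand in exceptional charts -/

open scoped ContDiff Topology ComplexOrder
open MeasureTheory Set Filter

namespace GK.KL

noncomputable section

/-- the trace pairing -/
def pair (A L : Matrix (Fin 4) (Fin 4) ℂ) : ℂ := ∑ j, ∑ k, A k j * L j k

theorem pair_eq_trace (A L : Matrix (Fin 4) (Fin 4) ℂ) : pair A L = (A * L).trace := by
  simp only [pair, Matrix.trace, Matrix.diag, Matrix.mul_apply]
  rw [Finset.sum_comm]

theorem pair_pull (J G L : Matrix (Fin 4) (Fin 4) ℂ) :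
    pair (pull J G).adjugate (pull J L) = Complex.normSq J.det * pair G.adjugate L := by
  rw [pair_eq_trace, pair_eq_trace, pull, pull, Matrix.adjugate_mul_distrib,
    Matrix.adjugate_mul_distrib]
  have h1 : J.transpose.adjugate * J.transpose = J.det • (1 : Matrix (Fin 4) (Fin 4) ℂ) := by
    rw [Matrix.adjugate_mul, Matrix.det_transpose]
  have h2 : J.map star * (J.map star).adjugate = (star J.det) • (1 : Matrix (Fin 4) (Fin 4) ℂ) := by
    rw [Matrix.mul_adjugate, map_star_eq, Matrix.det_conjTranspose, Matrix.det_transpose]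
  calc ((J.map star).adjugate * (G.adjugate * J.transpose.adjugate) *
        (J.transpose * L * J.map star)).trace
      = ((J.map star).adjugate * (G.adjugate * (J.transpose.adjugate * J.transpose) * L *
        J.map star)).trace := by
        simp only [Matrix.mul_assoc]
    _ = J.det * ((J.map star).adjugate * ((G.adjugate * L) * J.map star)).trace := by
        rw [h1]
        simp only [Matrix.mul_smul, Matrix.mul_one, Matrix.smul_mul, Matrix.trace_smul, smul_eq_mul]
    _ = J.det * ((G.adjugate * L) * (J.map star * (J.map star).adjugate)).trace := by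
        rw [Matrix.trace_mul_comm, Matrix.mul_assoc]
    _ = J.det * star J.det * (G.adjugate * L).trace := by
        rw [h2]
        simp only [Matrix.mul_smul, Matrix.mul_one, Matrix.trace_smul, smul_eq_mul]
        ring
    _ = _ := by
        rw [Complex.star_def, Complex.mul_conj]

theorem posDef_adjugate {G : Matrix (Fin 4) (Fin 4) ℂ} (hG : G.PosDef) : G.adjugate.PosDef := by
  have hd : 0 < G.det := hG.det_pos
  have hu : IsUnit G.det := isUnit_iff_ne_zero.mpr hd.ne'
  have e : G.adjugate = G.det • G⁻¹ := by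
    rw [Matrix.inv_def, smul_smul, Ring.mul_inverse_cancel _ hu, one_smul]
  rw [e]
  exact hG.inv.smul hd

/-- the projection along the radial direction -/
def radProj (y : V 4) : Matrix (Fin 4) (Fin 4) ℂ :=
  Matrix.diagonal (fun j : Fin 4 => if j = 3 then (0 : ℂ) else 1) -
    (E3 y : ℂ) • Matrix.vecMulVec (rad y) (star (rad y))

theorem rad_dot {y : V 4} (hy : 0 < E3 y) : star (rad y) ⬝ᵥ rad y = ((E3 y : ℝ) : ℂ)⁻¹ := by
  have hE : ((E3 y : ℝ) : ℂ) ≠ 0 := by exact_mod_cast hy.ne'
  rw [dotProduct, Fin.sum_univ_castSucc]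
  have : (Fin.last 3 : Fin 4) = 3 := rfl
  rw [this, rad_three, mul_zero, add_zero]
  calc ∑ i : Fin 3, star (rad y) i.castSucc * rad y i.castSucc
      = ∑ i : Fin 3, (y i.castSucc * star (y i.castSucc)) * ((E3 y : ℂ)⁻¹ * (E3 y : ℂ)⁻¹) := by
        refine Finset.sum_congr rfl fun i _ => ?_
        rw [Pi.star_apply, rad_castSucc]
        simp only [star_div₀, star_star]
        have : star ((E3 y : ℝ) : ℂ) = ((E3 y : ℝ) : ℂ) := by simp
        rw [this]
        field_simp
    _ = _ := by
        rw [← Finset.sum_mul, sum_normSq_eq]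
        field_simp

theorem diag_rad (y : V 4) :
    (Matrix.diagonal (fun j : Fin 4 => if j = 3 then (0 : ℂ) else 1)).mulVec (rad y) = rad y := by
  funext i
  rw [Matrix.mulVec_diagonal]
  by_cases hi : i = 3
  · subst hi; simp [rad_three]
  · simp [hi]

theorem rad_diag (y : V 4) :
    Matrix.vecMul (star (rad y)) (Matrix.diagonal (fun j : Fin 4 => if j = 3 then (0 : ℂ) else 1))
      = star (rad y) := by
  funext i
  rw [Matrix.vecMul_diagonal]
  by_cases hi : i = 3
  · subst hi; simp [rad_three]
  · simp [hi]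

theorem leviLog_eq {y : V 4} (hy : 0 < E3 y) : leviLog y = ((E3 y : ℂ))⁻¹ • radProj y := by
  have hE : ((E3 y : ℝ) : ℂ) ≠ 0 := by exact_mod_cast hy.ne'
  rw [leviLog, radProj, smul_sub, smul_smul, inv_mul_cancel₀ hE, one_smul]

theorem radProj_herm (y : V 4) : (radProj y).conjTranspose = radProj y := by
  rw [radProj, Matrix.conjTranspose_sub, Matrix.conjTranspose_smul]
  congr 1
  · rw [Matrix.diagonal_conjTranspose]
    congr 1
    funext i
    by_cases hi : i = 3
    · simp [hi]
    · simp [hi]
  · rw [(Matrix.posSemidef_vecMulVec_self_star (rad y)).isHermitian]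
    simp

theorem radProj_idem {y : V 4} (hy : 0 < E3 y) : radProj y * radProj y = radProj y := by
  have hE : ((E3 y : ℝ) : ℂ) ≠ 0 := by exact_mod_cast hy.ne'
  have hd : (Matrix.diagonal (fun j : Fin 4 => if j = 3 then (0 : ℂ) else 1)) *
      (Matrix.diagonal (fun j : Fin 4 => if j = 3 then (0 : ℂ) else 1)) =
      (Matrix.diagonal (fun j : Fin 4 => if j = 3 then (0 : ℂ) else 1)) := by
    rw [Matrix.diagonal_mul_diagonal]
    congr 1
    funext i
    by_cases hi : i = 3
    · simp [hi]
    · simp [hi]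
  rw [radProj, sub_mul, mul_sub, mul_sub, hd, Matrix.mul_smul, Matrix.smul_mul, Matrix.smul_mul,
    Matrix.mul_smul, Matrix.mul_vecMulVec, Matrix.vecMulVec_mul, diag_rad, rad_diag,
    Matrix.vecMulVec_mul_vecMulVec, rad_dot hy, Matrix.vecMulVec_smul, smul_smul, smul_smul]
  rw [mul_assoc, mul_inv_cancel₀ hE, mul_one]
  abel

theorem pair_leviLog_nonneg {A : Matrix (Fin 4) (Fin 4) ℂ} (hA : A.PosSemidef) {y : V 4}
    (hy : 0 < E3 y) : 0 ≤ (pair A (leviLog y)).re := by
  rw [pair_eq_trace, leviLog_eq hy, Matrix.mul_smul, Matrix.trace_smul]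
  have h1 : (A * radProj y).trace = ((radProj y).conjTranspose * A * radProj y).trace := by
    rw [radProj_herm, Matrix.trace_mul_comm (radProj y * A) (radProj y), ← Matrix.mul_assoc,
      radProj_idem hy, Matrix.trace_mul_comm]
  rw [h1]
  have h2 : 0 ≤ ((radProj y).conjTranspose * A * radProj y).trace :=
    (hA.conjTranspose_mul_mul_same _).trace_nonneg
  have h3 : (0 : ℂ) ≤ ((E3 y : ℂ))⁻¹ := by
    have : (0 : ℝ) ≤ (E3 y)⁻¹ := inv_nonneg.mpr hy.le
    rw [← Complex.ofReal_inv]
    exact_mod_cast this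
  have h4 := mul_nonneg h3 h2
  rw [smul_eq_mul]
  exact (Complex.nonneg_iff.mp h4).1

theorem pair_rad_nonneg {A : Matrix (Fin 4) (Fin 4) ℂ} (hA : A.PosSemidef) (v : V 4) :
    0 ≤ (pair A (Matrix.vecMulVec v (star v))).re := by
  have h1 : pair A (Matrix.vecMulVec v (star v)) = star v ⬝ᵥ A.mulVec v := by
    simp only [pair, Matrix.vecMulVec_apply, dotProduct, Matrix.mulVec, Finset.mul_sum,
      Pi.star_apply]
    rw [Finset.sum_comm]
    refine Finset.sum_congr rfl fun k _ => Finset.sum_congr rfl fun j _ => ?_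
    ring
  rw [h1]
  exact (Complex.nonneg_iff.mp ((Matrix.posSemidef_iff_dotProduct_mulVec.mp hA).2 v)).1

end

end GK.KL
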