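import Pool.Agent.GK.KeyLimitD

/-! # Domination of the flux integrand near the exceptional divisor -/

open scoped ContDiff Topology ComplexOrder
open MeasureTheory Set Filter

namespace GK.KL

noncomputable section

variable {r : ℕ} {ρ : ℝ} {g : V 4 → Matrix (Fin 4) (Fin 4) ℂ}
    {gx : Fin 3 → V 4 → Matrix (Fin 4) (Fin 4) ℂ}

theorem excNorm_pos (j : Fin 3) (u : V 4) : 1 ≤ excNorm j u := by
  unfold excNorm
  have : 0 ≤ ∑ i : Fin 3, if i = j then 0 else Complex.normSq (u i.castSucc) :=
    Finset.sum_nonneg fun i _ => by split_ifs <;> simp [Complex.normSq_nonneg]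
  linarith

theorem E3_eq_excNorm (r : ℕ) (j : Fin 3) {y : V 4} (hy : y j.castSucc ≠ 0) :
    E3 y = Complex.normSq (y j.castSucc) * excNorm j (excMap r j y) := by
  have h0 : Complex.normSq (y j.castSucc) ≠ 0 := (Complex.normSq_pos.mpr hy).ne'
  fin_cases j
  · have h0' : Complex.normSq (y 0) ≠ 0 := h0
    simp [E3, excNorm, excMap, Fin.sum_univ_three]
    field_simp
    ring
  · have h0' : Complex.normSq (y 1) ≠ 0 := h0
    simp [E3, excNorm, excMap, Fin.sum_univ_three]
    field_simp
    ring
  · have h0' : Complex.normSq (y 2) ≠ 0 := h0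
    simp [E3, excNorm, excMap, Fin.sum_univ_three]
    field_simp
    ring

theorem contDiff_excNorm (j : Fin 3) : ContDiff ℝ ∞ (excNorm j) := by
  unfold excNorm
  refine contDiff_const.add (ContDiff.sum fun i _ => ?_)
  split_ifs
  · exact contDiff_const
  · exact contDiff_normSq.comp (contDiff_apply ℝ ℂ _)

/-- Levi form of `log excNorm` -/
def leviExc (j : Fin 3) (u : V 4) : Matrix (Fin 4) (Fin 4) ℂ :=
  levi (fun w => ((Real.log (excNorm j w) : ℝ) : ℂ)) u

theorem contDiff_logExc (j : Fin 3) : ContDiff ℝ ∞ (fun w => ((Real.log (excNorm j w) : ℝ) : ℂ)) :=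
  Complex.ofRealCLM.contDiff.comp
    ((contDiff_excNorm j).log fun u => by have := excNorm_pos j u; positivity)

theorem continuous_leviExc (j : Fin 3) (a b : Fin 4) : Continuous fun u => leviExc j u a b := by
  have h1 : ContDiffOn ℝ ∞ (fun w => ((Real.log (excNorm j w) : ℝ) : ℂ)) univ :=
    (contDiff_logExc j).contDiffOn
  have h2 := contDiffOn_dZ isOpen_univ (contDiffOn_dB isOpen_univ h1 b) a
  have h3 := h2.continuousOn
  rw [← continuousOn_univ]
  exact h3

theorem levi_add_apply {f f' : V 4 → ℂ} {z : V 4} (hf : ContDiffAt ℝ 2 f z)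
    (hf' : ContDiffAt ℝ 2 f' z) (j k : Fin 4) :
    levi (fun w => f w + f' w) z j k = levi f z j k + levi f' z j k := by
  have e1 : ∀ᶠ w in 𝓝 z, DifferentiableAt ℝ f w := by
    filter_upwards [hf.eventually (by simp)] with w hw
    exact hw.differentiableAt (by simp)
  have e2 : ∀ᶠ w in 𝓝 z, DifferentiableAt ℝ f' w := by
    filter_upwards [hf'.eventually (by simp)] with w hw
    exact hw.differentiableAt (by simp)
  have h1 : (fun w => dB k (fun w => f w + f' w) w) =ᶠ[𝓝 z] fun w => dB k f w + dB k f' w := by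
    filter_upwards [e1, e2] with w h1 h2
    exact dB_add h1 h2 k
  have hd : ∀ {F : V 4 → ℂ}, ContDiffAt ℝ 2 F z → DifferentiableAt ℝ (fun w => dB k F w) z := by
    intro F hF
    have h3 : ContDiffAt ℝ 1 (fderiv ℝ F) z := hF.fderiv_right (by norm_num)
    have h4 : DifferentiableAt ℝ (fderiv ℝ F) z := h3.differentiableAt (by simp)
    have hA : DifferentiableAt ℝ (fun w => fderiv ℝ F w (Pi.single k 1)) z :=
      h4.clm_apply (differentiableAt_const _)
    have hB : DifferentiableAt ℝ (fun w => fderiv ℝ F w (Pi.single k Complex.I)) z :=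
      h4.clm_apply (differentiableAt_const _)
    unfold dB
    simp only [div_eq_mul_inv]
    exact (hA.fun_add (hB.const_mul Complex.I)).mul_const _
  simp only [levi, Matrix.of_apply]
  rw [dZ_congr h1, dZ_add (hd hf) (hd hf')]

theorem leviLog_eq_pull (r : ℕ) (j : Fin 3) {y : V 4} (hy : y j.castSucc ≠ 0) :
    leviLog y = pull (jac (excMap r j) y) (leviExc j (excMap r j y)) := by
  have hE : 0 < E3 y := by
    have := Complex.normSq_pos.mpr hy
    rw [E3_eq_excNorm r j hy]
    have := excNorm_pos j (excMap r j y)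
    positivity
  have hana : AnalyticAt ℂ (excMap r j) y := by
    rw [show excMap r j = Pe r j 1 from funext (excMap_eq r j)]
    exact analytic_Pe r j 1 y hy
  have h1 : (fun w => ((Real.log (E3 w) : ℝ) : ℂ)) =ᶠ[𝓝 y] fun w =>
      ((Real.log (Complex.normSq (w j.castSucc)) : ℝ) : ℂ) +
      ((Real.log (excNorm j (excMap r j w)) : ℝ) : ℂ) := by
    filter_upwards [(isOpen_ne_zero j).mem_nhds hy] with w hw
    have h2 : Complex.normSq (w j.castSucc) ≠ 0 := by
      simpa [Complex.normSq_eq_zero] using hw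
    have h3 := excNorm_pos j (excMap r j w)
    rw [E3_eq_excNorm r j hw, Real.log_mul h2 (by positivity)]
    push_cast
    ring
  have hcoord : AnalyticAt ℂ (fun w : V 4 => w j.castSucc) y :=
    (ContinuousLinearMap.proj (R := ℂ) (φ := fun _ : Fin 4 => ℂ) j.castSucc).analyticAt y
  have h4 : ContDiffAt ℝ 2 (fun w : V 4 =>
      ((Real.log (Complex.normSq (w j.castSucc)) : ℝ) : ℂ)) y := by
    refine Complex.ofRealCLM.contDiff.contDiffAt.comp y (ContDiffAt.log ?_ ?_)
    · exact ((contDiff_normSq.of_le two_le_infty).comp (contDiff_apply ℝ ℂ _)).contDiffAt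
    · simpa [Complex.normSq_eq_zero] using hy
  have h5 : ContDiffAt ℝ 2 (fun w => ((Real.log (excNorm j w) : ℝ) : ℂ)) (excMap r j y) :=
    ((contDiff_logExc j).of_le two_le_infty).contDiffAt
  have h6 : ContDiffAt ℝ 2 (excMap r j) y := (hana.contDiffAt (n := 2)).restrict_scalars ℝ
  have h7 : ContDiffAt ℝ 2 (fun w => ((Real.log (excNorm j (excMap r j w)) : ℝ) : ℂ)) y :=
    h5.comp y h6
  rw [← levi_logE3 hE, levi_congr h1]
  ext a b
  rw [levi_add_apply h4 h7, levi_log_normSq hcoord hy,
    levi_comp (f := fun w => ((Real.log (excNorm j w) : ℝ) : ℂ)) hana h5, leviExc]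
  simp

/-- the flux integrand in the exceptional chart -/
theorem pair_chart (h : LocalExc r ρ g gx) (j : Fin 3) {y : V 4} (hy : y j.castSucc ≠ 0)
    (hρ : E3 y < ρ) :
    pair (g y).adjugate (leviLog y) = Complex.normSq (jac (excMap r j) y).det *
      pair (gx j (excMap r j y)).adjugate (leviExc j (excMap r j y)) := by
  rw [h.rel j y hρ hy, leviLog_eq_pull r j hy, pair_pull]

theorem det_jac (hr : 0 < r) (j : Fin 3) {y : V 4} (hy : y j.castSucc ≠ 0) :
    (jac (excMap r j) y).det = r * y j.castSucc ^ (r - 1) / y j.castSucc ^ 2 := by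
  rw [show excMap r j = Pe r j 1 from funext (excMap_eq r j), jac_Pe hr j 1 hy]
  fin_cases j
  · simp at hy
    simp [Je, Matrix.det_succ_row_zero, Fin.sum_univ_succ, Fin.succAbove]
    field_simp
  · simp at hy
    simp [Je, Matrix.det_succ_row_zero, Fin.sum_univ_succ, Fin.succAbove]
    field_simp
  · simp at hy
    simp [Je, Matrix.det_succ_row_zero, Fin.sum_univ_succ, Fin.succAbove]
    field_simp

end

end GK.KL
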