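import Pool.Agent.GK.KeyLimitE

/-! # Integrability near the exceptional divisor -/

open scoped ContDiff Topology ComplexOrder
open MeasureTheory Set Filter

namespace GK.KL

noncomputable section

variable {r : ℕ} {ρ : ℝ} {g : V 4 → Matrix (Fin 4) (Fin 4) ℂ}
    {gx : Fin 3 → V 4 → Matrix (Fin 4) (Fin 4) ℂ}

theorem continuousOn_matrix {Ω : Set (V 4)} {G : V 4 → Matrix (Fin 4) (Fin 4) ℂ}
    (h : ∀ a b, ContinuousOn (fun y => G y a b) Ω) : ContinuousOn G Ω := by
  refine continuousOn_pi.mpr fun a => continuousOn_pi.mpr fun b => h a b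

theorem continuousOn_adjugate {Ω : Set (V 4)} {G : V 4 → Matrix (Fin 4) (Fin 4) ℂ}
    (h : ∀ a b, ContinuousOn (fun y => G y a b) Ω) (a b : Fin 4) :
    ContinuousOn (fun y => (G y).adjugate a b) Ω := by
  have h1 : Continuous fun A : Matrix (Fin 4) (Fin 4) ℂ => A.adjugate a b :=
    (Continuous.matrix_adjugate continuous_id).matrix_elem a b
  exact h1.comp_continuousOn (continuousOn_matrix h)

theorem continuousOn_pair {Ω : Set (V 4)} {G L : V 4 → Matrix (Fin 4) (Fin 4) ℂ}
    (hG : ∀ a b, ContinuousOn (fun y => G y a b) Ω) (hL : ∀ a b, ContinuousOn (fun y => L y a b) Ω) :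
    ContinuousOn (fun y => pair (G y).adjugate (L y)) Ω := by
  unfold pair
  exact continuousOn_finset_sum _ fun j _ => continuousOn_finset_sum _ fun k _ =>
    (continuousOn_adjugate hG k j).mul (hL j k)

theorem kf_cont {Ω : Set (V 4)} (hg : KForm g Ω) (a b : Fin 4) :
    ContinuousOn (fun y => g y a b) Ω := (hg.smooth a b).continuousOn

/-- compact pieces of the exceptional charts -/
def excCompact (r : ℕ) (δ : ℝ) (j : Fin 3) : Set (V 4) :=
  {u | Complex.normSq (u j.castSucc) * excNorm j u ^ r ≤ δ ^ r ∧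
    (∀ i : Fin 3, i ≠ j → Complex.normSq (u i.castSucc) ≤ 3) ∧ ‖u 3‖ ≤ 2}

theorem isCompact_excCompact (r : ℕ) (δ : ℝ) (j : Fin 3) :
    IsCompact (excCompact r δ j) := by
  refine Metric.isCompact_of_isClosed_isBounded ?_ ?_
  · have hA : IsClosed {u : V 4 | Complex.normSq (u j.castSucc) * excNorm j u ^ r ≤ δ ^ r} := by
      refine isClosed_le ?_ continuous_const
      exact (Complex.continuous_normSq.comp (continuous_apply _)).mul
        ((contDiff_excNorm j).continuous.pow r)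
    have hB : IsClosed {a : V 4 | ∀ i : Fin 3, i ≠ j → Complex.normSq (a i.castSucc) ≤ 3} := by
      have : {a : V 4 | ∀ i : Fin 3, i ≠ j → Complex.normSq (a i.castSucc) ≤ 3} =
          ⋂ i : Fin 3, ⋂ _ : i ≠ j, {a : V 4 | Complex.normSq (a i.castSucc) ≤ 3} := by
        ext a; simp
      rw [this]
      refine isClosed_iInter fun i => isClosed_iInter fun _ => ?_
      exact isClosed_le (Complex.continuous_normSq.comp (continuous_apply _)) continuous_const
    have hC : IsClosed {a : V 4 | ‖a 3‖ ≤ 2} :=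
      isClosed_le (continuous_norm.comp (continuous_apply _)) continuous_const
    exact hA.inter (hB.inter hC)
  · rw [Metric.isBounded_iff_subset_closedBall 0]
    refine ⟨|δ| ^ r + 5, fun u hu => ?_⟩
    obtain ⟨h1, h2, h3⟩ := hu
    rw [mem_closedBall_zero_iff, pi_norm_le_iff_of_nonneg (by positivity)]
    have hsq : ∀ z : ℂ, ∀ c : ℝ, 0 ≤ c → Complex.normSq z ≤ c → ‖z‖ ≤ c + 1 := by
      intro z c hc hz
      rw [Complex.normSq_eq_norm_sq] at hz
      nlinarith [norm_nonneg z]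
    have hδ : δ ^ r ≤ |δ| ^ r := by
      calc δ ^ r ≤ |δ ^ r| := le_abs_self _
        _ = |δ| ^ r := abs_pow _ _
    intro i
    induction i using Fin.lastCases with
    | last =>
      have : (Fin.last 3 : Fin 4) = 3 := rfl
      rw [this]
      have : 0 ≤ |δ| ^ r := by positivity
      linarith
    | cast i =>
      by_cases hi : i = j
      · subst hi
        have h4 : (1 : ℝ) ≤ excNorm i u ^ r := one_le_pow₀ (excNorm_pos i u)
        have h5 : Complex.normSq (u i.castSucc) ≤ |δ| ^ r := by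
          nlinarith [Complex.normSq_nonneg (u i.castSucc)]
        have := hsq _ _ (by positivity) h5
        linarith
      · have := hsq _ _ (by norm_num) (h2 i hi)
        have : 0 ≤ |δ| ^ r := by positivity
        linarith

theorem excCompact_subset (hr : 0 < r) {δ : ℝ} (hδ0 : 0 ≤ δ) (hδ : δ < ρ) (j : Fin 3) :
    excCompact r δ j ⊆ excDom r ρ j := by
  intro u hu
  exact lt_of_le_of_lt hu.1 (pow_lt_pow_left₀ hδ hδ0 (by omega))

theorem exists_max_coord (y : V 4) : ∃ j : Fin 3, (∀ i : Fin 3,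
    Complex.normSq (y i.castSucc) ≤ Complex.normSq (y j.castSucc)) ∧
    E3 y ≤ 3 * Complex.normSq (y j.castSucc) := by
  obtain ⟨j, hj⟩ := Finite.exists_max fun i : Fin 3 => Complex.normSq (y i.castSucc)
  refine ⟨j, hj, ?_⟩
  have h0 := hj 0
  have h1 := hj 1
  have h2 := hj 2
  have : E3 y = Complex.normSq (y (0 : Fin 3).castSucc) + Complex.normSq (y (1 : Fin 3).castSucc) +
    Complex.normSq (y (2 : Fin 3).castSucc) := rfl
  linarith

theorem normSq_le_E3 (y : V 4) (j : Fin 3) : Complex.normSq (y j.castSucc) ≤ E3 y := by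
  have h0 := Complex.normSq_nonneg (y 0)
  have h1 := Complex.normSq_nonneg (y 1)
  have h2 := Complex.normSq_nonneg (y 2)
  unfold E3
  fin_cases j
  · change Complex.normSq (y 0) ≤ _; linarith
  · change Complex.normSq (y 1) ≤ _; linarith
  · change Complex.normSq (y 2) ≤ _; linarith

theorem excMap_mem (r : ℕ) (j : Fin 3) {δ : ℝ} {y : V 4} (hy : y j.castSucc ≠ 0)
    (hmax : ∀ i : Fin 3, Complex.normSq (y i.castSucc) ≤ Complex.normSq (y j.castSucc))
    (hδ : E3 y ≤ δ) (h3 : ‖y 3‖ ≤ 2) : excMap r j y ∈ excCompact r δ j := by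
  have hpos : 0 < Complex.normSq (y j.castSucc) := Complex.normSq_pos.mpr hy
  have hE : 0 ≤ E3 y := le_trans (Complex.normSq_nonneg _) (normSq_le_E3 y j)
  refine ⟨?_, ?_, ?_⟩
  · have h1 : Complex.normSq (excMap r j y j.castSucc) * excNorm j (excMap r j y) ^ r =
        E3 y ^ r := by
      rw [E3_eq_excNorm r j hy, mul_pow]
      simp [excMap]
    rw [h1]
    exact pow_le_pow_left₀ hE hδ r
  · intro i hi
    have h1 : (i.castSucc : Fin 4) ≠ j.castSucc := fun h => hi (Fin.castSucc_injective _ h)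
    have h2 : excMap r j y i.castSucc = y i.castSucc / y j.castSucc := by
      simp only [excMap, h1, castSucc_ne_three, if_false]
    rw [h2, Complex.normSq_div]
    calc Complex.normSq (y i.castSucc) / Complex.normSq (y j.castSucc) ≤ 1 :=
          div_le_one_of_le₀ (hmax i) hpos.le
      _ ≤ 3 := by norm_num
  · have h2 : excMap r j y 3 = y 3 := by
      simp [excMap, (castSucc_ne_three j).symm]
    rw [h2]
    exact h3

theorem pair_bound (h : LocalExc r ρ g gx) {δ : ℝ} (hδ0 : 0 ≤ δ) (hδ : δ < ρ) :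
    ∃ C : ℝ, 0 ≤ C ∧ ∀ y : V 4, 0 < E3 y → E3 y ≤ δ → ‖y 3‖ ≤ 2 →
      ‖pair (g y).adjugate (leviLog y)‖ ≤ C / E3 y ^ 2 := by
  have hC : ∀ j : Fin 3, ∃ C : ℝ, ∀ u ∈ excCompact r δ j,
      ‖pair (gx j u).adjugate (leviExc j u)‖ ≤ C := by
    intro j
    have hcont : ContinuousOn (fun u => pair (gx j u).adjugate (leviExc j u))
        (excCompact r δ j) :=
      continuousOn_pair
        (fun a b => (kf_cont (h.kformx j) a b).mono (excCompact_subset h.r_pos hδ0 hδ j))
        (fun a b => (continuous_leviExc j a b).continuousOn)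
    exact (isCompact_excCompact r δ j).exists_bound_of_continuousOn hcont
  choose C hC using hC
  have hC' : ∀ j, C j ≤ ∑ i, |C i| := fun j =>
    (le_abs_self _).trans (Finset.single_le_sum (f := fun i => |C i|)
      (fun i _ => abs_nonneg _) (Finset.mem_univ j))
  set S : ℝ := ∑ i, |C i| with hS
  have hS0 : 0 ≤ S := Finset.sum_nonneg fun i _ => abs_nonneg _
  refine ⟨9 * (r : ℝ) ^ 2 * δ ^ (r - 1) * S, by positivity, ?_⟩
  intro y hy0 hyδ hy3
  obtain ⟨j, hmax, hE⟩ := exists_max_coord y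
  have hpos : 0 < Complex.normSq (y j.castSucc) := by linarith
  have hyj : y j.castSucc ≠ 0 := Complex.normSq_pos.mp hpos
  rw [pair_chart h j hyj (lt_of_le_of_lt hyδ hδ), norm_mul, det_jac h.r_pos j hyj]
  have h1 := hC j _ (excMap_mem r j hyj hmax hyδ hy3)
  have h2 := h1.trans (hC' j)
  set t := Complex.normSq (y j.castSucc) with ht
  have h3 : Complex.normSq ((r : ℂ) * y j.castSucc ^ (r - 1) / y j.castSucc ^ 2) =
      (r : ℝ) ^ 2 * t ^ (r - 1) / t ^ 2 := by
    rw [Complex.normSq_div, Complex.normSq_mul, map_pow, map_pow, Complex.normSq_natCast]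
    ring
  rw [h3, Complex.norm_real, Real.norm_eq_abs, abs_of_nonneg (by positivity)]
  have h4 : t ≤ δ := (normSq_le_E3 y j).trans hyδ
  have h5 : (r : ℝ) ^ 2 * t ^ (r - 1) / t ^ 2 ≤ 9 * (r : ℝ) ^ 2 * δ ^ (r - 1) / E3 y ^ 2 := by
    rw [div_le_div_iff₀ (by positivity) (by positivity)]
    have h6 : t ^ (r - 1) ≤ δ ^ (r - 1) := pow_le_pow_left₀ hpos.le h4 _
    have h7 : E3 y ^ 2 ≤ 9 * t ^ 2 := by
      calc E3 y ^ 2 ≤ (3 * t) ^ 2 := pow_le_pow_left₀ hy0.le hE 2
        _ = 9 * t ^ 2 := by ring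
    calc (r : ℝ) ^ 2 * t ^ (r - 1) * E3 y ^ 2 ≤ (r : ℝ) ^ 2 * δ ^ (r - 1) * (9 * t ^ 2) := by
          gcongr
      _ = 9 * (r : ℝ) ^ 2 * δ ^ (r - 1) * t ^ 2 := by ring
  calc (r : ℝ) ^ 2 * t ^ (r - 1) / t ^ 2 * _ ≤
        (9 * (r : ℝ) ^ 2 * δ ^ (r - 1) / E3 y ^ 2) * S := by
        gcongr
    _ = _ := by ring

end

end GK.KL
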