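import Pool.Agent.GK.KeyLimitF

/-! # Integrability of the flux integrand -/

open scoped ContDiff Topology ComplexOrder
open MeasureTheory Set Filter

namespace GK.KL

noncomputable section

variable {r : ℕ} {ρ : ℝ} {g : V 4 → Matrix (Fin 4) (Fin 4) ℂ}
    {gx : Fin 3 → V 4 → Matrix (Fin 4) (Fin 4) ℂ}

theorem integrable_rpow_ball (R : ℝ) :
    Integrable (indicator (Metric.ball (0 : ℂ) R) fun z : ℂ => ‖z‖ ^ (-(4 / 3) : ℝ)) := by
  rw [integrable_indicator_iff Metric.isOpen_ball.measurableSet]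
  refine integrableOn_ball_of_norm_le_rpow (C := 1) (α := 4 / 3) ?_ ?_ ?_ ?_
  · rw [Complex.finrank_real_complex]; norm_num
  · rw [Complex.finrank_real_complex]; norm_num
  · refine Eventually.of_forall fun z => ?_
    rw [one_mul, Real.norm_eq_abs, abs_of_nonneg (by positivity)]
  · exact (measurable_norm.pow_const _).aestronglyMeasurable

/-- dominating function -/
def domFun (R : ℝ) (i : Fin 4) : ℂ → ℝ :=
  if i = 3 then indicator (Metric.closedBall (0 : ℂ) 2) fun _ => 1
  else indicator (Metric.ball (0 : ℂ) R) fun z : ℂ => ‖z‖ ^ (-(4 / 3) : ℝ)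

theorem integrable_domFun (R : ℝ) : Integrable fun y : V 4 => ∏ i, domFun R i (y i) := by
  have h : ∀ i : Fin 4, Integrable (domFun R i) := by
    intro i
    unfold domFun
    split_ifs
    · rw [integrable_indicator_iff Metric.isClosed_closedBall.measurableSet]
      exact integrableOn_const (by
        exact (measure_closedBall_lt_top).ne)
    · exact integrable_rpow_ball R
  exact Integrable.fintype_prod h

theorem inv_E3_sq_le {δ : ℝ} {y : V 4} (hy0 : 0 < E3 y) (hyδ : E3 y ≤ δ) (hy3 : ‖y 3‖ ≤ 2)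
    (hne : ∀ i : Fin 3, y i.castSucc ≠ 0) :
    1 / E3 y ^ 2 ≤ ∏ i, domFun (δ + 2) i (y i) := by
  have h3 : domFun (δ + 2) (Fin.last 3) (y (Fin.last 3)) = 1 := by
    have : (Fin.last 3 : Fin 4) = 3 := rfl
    rw [this, domFun, if_pos rfl, indicator_of_mem]
    simpa using hy3
  have hi : ∀ i : Fin 3, E3 y ^ (-(2 / 3) : ℝ) ≤ domFun (δ + 2) i.castSucc (y i.castSucc) := by
    intro i
    have hn : 0 < ‖y i.castSucc‖ := norm_pos_iff.mpr (hne i)
    have hle : ‖y i.castSucc‖ ^ 2 ≤ E3 y := by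
      rw [← Complex.normSq_eq_norm_sq]; exact normSq_le_E3 y i
    rw [domFun, if_neg (castSucc_ne_three i), indicator_of_mem]
    · calc E3 y ^ (-(2 / 3) : ℝ) ≤ (‖y i.castSucc‖ ^ 2) ^ (-(2 / 3) : ℝ) :=
            Real.rpow_le_rpow_of_nonpos (by positivity) hle (by norm_num)
        _ = ‖y i.castSucc‖ ^ (-(4 / 3) : ℝ) := by
            rw [← Real.rpow_natCast, ← Real.rpow_mul hn.le]
            norm_num
    · rw [mem_ball_zero_iff]
      nlinarith
  rw [Fin.prod_univ_castSucc, h3, mul_one]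
  calc 1 / E3 y ^ 2 = ∏ _i : Fin 3, E3 y ^ (-(2 / 3) : ℝ) := by
        rw [Finset.prod_const, Finset.card_univ, Fintype.card_fin, ← Real.rpow_natCast,
          ← Real.rpow_natCast, ← Real.rpow_mul hy0.le, one_div, ← Real.rpow_neg hy0.le]
        norm_num
    _ ≤ _ := Finset.prod_le_prod (fun i _ => by positivity) fun i _ => hi i

theorem ae_coord_ne : ∀ᵐ y : V 4, ∀ i : Fin 3, y i.castSucc ≠ 0 := by
  rw [ae_all_iff]
  intro i
  exact Measure.ae_eval_ne (fun _ : Fin 4 => (volume : Measure ℂ)) i.castSucc 0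

theorem box_norm {c : ℝ} {z : ℂ} (hz : z ∈ box c) (hc : c ≤ 1) : ‖z‖ ≤ 2 := by
  obtain ⟨⟨h1, h2⟩, h3, h4⟩ := hz
  calc ‖z‖ ≤ |z.re| + |z.im| := Complex.norm_le_abs_re_add_abs_im z
    _ ≤ 1 + 1 := by
      rw [abs_of_nonneg h1, abs_of_nonneg h3]
      linarith
    _ = 2 := by norm_num

theorem measurableSet_box (c : ℝ) : MeasurableSet (box c) := by
  have h1 : MeasurableSet {z : ℂ | z.re ∈ Ico 0 c} := Complex.measurable_re measurableSet_Ico
  have h2 : MeasurableSet {z : ℂ | z.im ∈ Ico 0 c} := Complex.measurable_im measurableSet_Ico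
  exact h1.inter h2

/-- part of the domain of integration -/
def domE (a b : ℝ) : Set (V 4) := {y | a < E3 y ∧ E3 y ≤ b ∧ y 3 ∈ box 1}

theorem measurableSet_domE (a b : ℝ) : MeasurableSet (domE a b) := by
  have h1 : MeasurableSet {y : V 4 | a < E3 y} :=
    measurableSet_lt measurable_const continuous_E3.measurable
  have h2 : MeasurableSet {y : V 4 | E3 y ≤ b} :=
    measurableSet_le continuous_E3.measurable measurable_const
  have h3 : MeasurableSet {y : V 4 | y 3 ∈ box 1} := measurable_pi_apply 3 (measurableSet_box 1)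
  exact h1.inter (h2.inter h3)

theorem continuous_rad (a : Fin 4) : ContinuousOn (fun y => rad y a) {y : V 4 | 0 < E3 y} := by
  unfold rad
  split_ifs
  · exact continuousOn_const
  · refine ContinuousOn.div ?_ ?_ ?_
    · exact (continuous_star.comp (continuous_apply a)).continuousOn
    · exact (Complex.continuous_ofReal.comp continuous_E3).continuousOn
    · intro y hy
      have : (0 : ℝ) < E3 y := hy
      exact_mod_cast this.ne'

theorem continuous_leviLog (a b : Fin 4) :
    ContinuousOn (fun y => leviLog y a b) {y : V 4 | 0 < E3 y} := by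
  unfold leviLog
  simp only [Matrix.sub_apply, Matrix.smul_apply, Matrix.vecMulVec_apply, Pi.star_apply, smul_eq_mul]
  refine ContinuousOn.sub (ContinuousOn.mul ?_ continuousOn_const) ?_
  · refine ContinuousOn.inv₀ (Complex.continuous_ofReal.comp continuous_E3).continuousOn ?_
    intro y hy
    have : (0 : ℝ) < E3 y := hy
    simpa using this.ne'
  · exact (continuous_rad a).mul (continuous_star.comp_continuousOn (continuous_rad b))

/-- the two parts of the flux integrand -/
def S1 (g : V 4 → Matrix (Fin 4) (Fin 4) ℂ) (y : V 4) : ℝ := (pair (g y).adjugate (leviLog y)).re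

def S2 (g : V 4 → Matrix (Fin 4) (Fin 4) ℂ) (y : V 4) : ℝ :=
  (pair (g y).adjugate (Matrix.vecMulVec (rad y) (star (rad y)))).re

theorem continuousOn_S1 (h : LocalExc r ρ g gx) :
    ContinuousOn (S1 g) {y | 0 < E3 y ∧ E3 y < ρ} := by
  have h1 := continuousOn_pair (fun a b => kf_cont h.kform a b)
    (fun a b => (continuous_leviLog a b).mono fun y hy => hy.1)
  exact Complex.continuous_re.comp_continuousOn h1

theorem continuousOn_S2 (h : LocalExc r ρ g gx) :
    ContinuousOn (S2 g) {y | 0 < E3 y ∧ E3 y < ρ} := by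
  have h1 := continuousOn_pair (fun a b => kf_cont h.kform a b)
    (L := fun y => Matrix.vecMulVec (rad y) (star (rad y))) (fun a b => by
      simp only [Matrix.vecMulVec_apply, Pi.star_apply]
      exact ((continuous_rad a).mono fun y hy => hy.1).mul
        (continuous_star.comp_continuousOn ((continuous_rad b).mono fun y hy => hy.1)))
  exact Complex.continuous_re.comp_continuousOn h1

theorem S1_nonneg (h : LocalExc r ρ g gx) {y : V 4} (h0 : 0 < E3 y) (h1 : E3 y < ρ) :
    0 ≤ S1 g y := pair_leviLog_nonneg (posDef_adjugate (h.pos y h0 h1)).posSemidef h0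

theorem S2_nonneg (h : LocalExc r ρ g gx) {y : V 4} (h0 : 0 < E3 y) (h1 : E3 y < ρ) :
    0 ≤ S2 g y := pair_rad_nonneg (posDef_adjugate (h.pos y h0 h1)).posSemidef _

theorem integrable_S1 (h : LocalExc r ρ g gx) {δ : ℝ} (hδ0 : 0 ≤ δ) (hδ : δ < ρ) :
    IntegrableOn (S1 g) (domE 0 δ) := by
  obtain ⟨C, hC0, hC⟩ := pair_bound h hδ0 hδ
  have h1 : Integrable fun y : V 4 => C * ∏ i, domFun (δ + 2) i (y i) :=
    (integrable_domFun (δ + 2)).const_mul C
  refine Integrable.mono' h1.integrableOn ?_ ?_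
  · refine ContinuousOn.aestronglyMeasurable ?_ (measurableSet_domE 0 δ)
    exact (continuousOn_S1 h).mono fun y hy => ⟨hy.1, lt_of_le_of_lt hy.2.1 hδ⟩
  · filter_upwards [ae_restrict_mem (measurableSet_domE 0 δ), ae_restrict_of_ae ae_coord_ne]
      with y hy hne
    have h2 : ‖y 3‖ ≤ 2 := box_norm hy.2.2 le_rfl
    calc ‖S1 g y‖ ≤ ‖pair (g y).adjugate (leviLog y)‖ := by
          rw [Real.norm_eq_abs]
          exact Complex.abs_re_le_norm _
      _ ≤ C / E3 y ^ 2 := hC y hy.1 hy.2.1 h2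
      _ = C * (1 / E3 y ^ 2) := by ring
      _ ≤ C * ∏ i, domFun (δ + 2) i (y i) :=
        mul_le_mul_of_nonneg_left (inv_E3_sq_le hy.1 hy.2.1 h2 hne) hC0

end

end GK.KL
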