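import Pool.Agent.GK.KeyLimitG

/-! # Integration by parts in `{y₃ ∈ box 1}` -/

open scoped ContDiff Topology ComplexOrder
open MeasureTheory Set Filter

namespace GK.KL

noncomputable section

/-- integral of a directional derivative over a set that is invariant in this direction -/
theorem integral_fderiv_zero {F : V 4 → ℂ} (hF : ContDiff ℝ 1 F) {S K : Set (V 4)}
    (hS : MeasurableSet S) {v : V 4} (hinv : ∀ y (s : ℝ), y + s • v ∈ S ↔ y ∈ S)
    (hK : IsCompact K) (hz : ∀ y ∈ S, y ∉ K → F y = 0) :
    IntegrableOn (fun y => fderiv ℝ F y v) S ∧ ∫ y in S, fderiv ℝ F y v = 0 := by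
  have hd : ∀ y ∈ S, HasDerivAt (fun s : ℝ => F (y + s • v)) (fderiv ℝ F y v) 0 := by
    intro y _
    have h1 : HasFDerivAt F (fderiv ℝ F y) y := (hF.differentiable (by simp) y).hasFDerivAt
    exact (h1.hasLineDerivAt v)
  have hz' : ∀ y ∈ S, y ∉ K → fderiv ℝ F y v = 0 := by
    intro y hy hyK
    have h2 : ∀ᶠ s : ℝ in 𝓝 0, F (y + s • v) = 0 := by
      have hc : ContinuousAt (fun s : ℝ => y + s • v) 0 := by fun_prop
      have h3 : Kᶜ ∈ 𝓝 (y + (0 : ℝ) • v) := by
        rw [zero_smul, add_zero]
        exact hK.isClosed.isOpen_compl.mem_nhds hyK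
      filter_upwards [hc.preimage_mem_nhds h3] with s hs
      exact hz _ ((hinv y s).mpr hy) hs
    have h4 : HasDerivAt (fun s : ℝ => F (y + s • v)) 0 0 :=
      (hasDerivAt_const (0 : ℝ) (0 : ℂ)).congr_of_eventuallyEq h2
    exact (hd y hy).unique h4
  have hline : ∀ y, HasLineDerivAt ℝ (S.indicator F) (S.indicator (fun y => fderiv ℝ F y v) y) y v := by
    intro y
    by_cases hy : y ∈ S
    · rw [indicator_of_mem hy]
      have : (fun s : ℝ => S.indicator F (y + s • v)) = fun s => F (y + s • v) := by
        funext s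
        rw [indicator_of_mem ((hinv y s).mpr hy)]
      unfold HasLineDerivAt
      rw [this]
      exact hd y hy
    · rw [indicator_of_notMem hy]
      have : (fun s : ℝ => S.indicator F (y + s • v)) = fun s => 0 := by
        funext s
        rw [indicator_of_notMem (fun h => hy ((hinv y s).mp h))]
      unfold HasLineDerivAt
      rw [this]
      exact hasDerivAt_const _ _
  have hint : ∀ G : V 4 → ℂ, Continuous G → (∀ y ∈ S, y ∉ K → G y = 0) → IntegrableOn G S := by
    intro G hG h0
    have h1 : IntegrableOn G (K ∩ S) := (hG.continuousOn.integrableOn_compact hK).mono_set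
      inter_subset_left
    have h2 : IntegrableOn G (S \ K) := by
      have h5 : IntegrableOn (fun _ : V 4 => (0 : ℂ)) (S \ K) := integrableOn_zero
      exact h5.congr_fun (fun y hy => (h0 y hy.1 hy.2).symm) (hS.diff hK.measurableSet)
    have h3 : S ⊆ (K ∩ S) ∪ (S \ K) := by
      intro y hy
      by_cases hyK : y ∈ K
      · exact Or.inl ⟨hyK, hy⟩
      · exact Or.inr ⟨hy, hyK⟩
    exact (h1.union h2).mono_set h3
  have hi1 : IntegrableOn F S := hint F hF.continuous hz
  have hi2 : IntegrableOn (fun y => fderiv ℝ F y v) S :=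
    hint _ ((hF.continuous_fderiv (by simp)).clm_apply continuous_const) hz'
  refine ⟨hi2, ?_⟩
  have hj1 : Integrable (S.indicator F) := (integrable_indicator_iff hS).mpr hi1
  have hj2 : Integrable (S.indicator fun y => fderiv ℝ F y v) := (integrable_indicator_iff hS).mpr hi2
  have hmain := integral_bilinear_hasLineDerivAt_right_eq_neg_left_of_integrable (μ := volume)
    (f := fun _ : V 4 => (1 : ℂ)) (f' := fun _ => 0) (g := S.indicator F)
    (g' := S.indicator fun y => fderiv ℝ F y v) (v := v)
    (B := ContinuousLinearMap.mul ℝ ℂ) (by simp) (by simpa using hj2) (by simpa using hj1)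
    (fun x _ => by
      unfold HasLineDerivAt
      exact hasDerivAt_const _ _) (fun x _ => hline x)
  rw [← integral_indicator hS]
  simpa using hmain

theorem mp_sign (a : ℤ) : MeasurePreserving (fun z : ℂ => (-1) ^ a * z) := by
  rcases Int.even_or_odd a with h | h
  · rw [h.neg_one_zpow]
    simp only [one_mul]
    exact MeasurePreserving.id (volume : Measure ℂ)
  · rw [h.neg_one_zpow]
    simpa using Measure.measurePreserving_neg (volume : Measure ℂ)

theorem mp_twist (a b : ℤ) : MeasurePreserving (twist a b) := by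
  have h : twist a b = fun y i =>
      (![fun z : ℂ => (-1) ^ a * z, fun z => (-1) ^ b * z, id,
        fun z => z + (a + b * Complex.I)] : Fin 4 → ℂ → ℂ) i (y i) := by
    funext y i
    fin_cases i <;> simp [twist, add_assoc]
  rw [h]
  refine volume_preserving_pi (f := (![fun z : ℂ => (-1) ^ a * z, fun z => (-1) ^ b * z, id,
        fun z => z + (a + b * Complex.I)] : Fin 4 → ℂ → ℂ)) fun i => ?_
  fin_cases i
  · exact mp_sign a
  · exact mp_sign b
  · exact MeasurePreserving.id _
  · exact measurePreserving_add_right (volume : Measure ℂ) _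

theorem twist_twist_neg (a b : ℤ) (y : V 4) : twist (-a) (-b) (twist a b y) = y := by
  have h : ∀ a : ℤ, (-1 : ℂ) ^ (-a) * (-1) ^ a = 1 := by
    intro a
    rw [zpow_neg, inv_mul_cancel₀]
    exact zpow_ne_zero _ (by norm_num)
  funext i
  fin_cases i
  · simp only [twist, Fin.zero_eta, Matrix.cons_val]
    rw [← mul_assoc, h, one_mul]
  · simp only [twist, Fin.mk_one, Matrix.cons_val]
    rw [← mul_assoc, h, one_mul]
  · rfl
  · simp only [twist, Fin.reduceFinMk, Matrix.cons_val]
    push_cast
    ring

theorem me_twist (a b : ℤ) : MeasurableEmbedding (twist a b) := by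
  refine MeasurableEmbedding.of_measurable_inverse (g := twist (-a) (-b))
    (mp_twist a b).measurable ?_ (mp_twist (-a) (-b)).measurable (twist_twist_neg a b)
  have : range (twist a b) = univ := by
    rw [eq_univ_iff_forall]
    intro y
    refine ⟨twist (-a) (-b) y, ?_⟩
    have := twist_twist_neg (-a) (-b) y
    simpa using this
  rw [this]
  exact MeasurableSet.univ

theorem setIntegral_twist {E : Type*} [NormedAddCommGroup E] [NormedSpace ℝ E] (a b : ℤ)
    (G : V 4 → E) (S : Set (V 4)) :
    ∫ y in S, G y = ∫ y in twist a b ⁻¹' S, G (twist a b y) :=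
  ((mp_twist a b).setIntegral_preimage_emb (me_twist a b) G S).symm

/-- a smooth partition of unity: `θ(x) + θ(x-1) = 1` on `[0,1]`, supported in `[-1,1]` -/
def theta (x : ℝ) : ℝ := Real.smoothTransition (x + 1) - Real.smoothTransition x

theorem contDiff_theta : ContDiff ℝ ∞ theta := by
  unfold theta
  exact (Real.smoothTransition.contDiff.comp (contDiff_id.add contDiff_const)).sub
    Real.smoothTransition.contDiff

theorem theta_of_le {x : ℝ} (hx : x ≤ -1) : theta x = 0 := by
  unfold theta
  rw [Real.smoothTransition.zero_of_nonpos (by linarith),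
    Real.smoothTransition.zero_of_nonpos (by linarith), sub_zero]

theorem theta_of_ge {x : ℝ} (hx : 1 ≤ x) : theta x = 0 := by
  unfold theta
  rw [Real.smoothTransition.one_of_one_le (by linarith),
    Real.smoothTransition.one_of_one_le (by linarith), sub_self]

theorem theta_add {x : ℝ} (h0 : 0 ≤ x) (h1 : x ≤ 1) : theta (x + (-1)) + theta x = 1 := by
  unfold theta
  have e : x + (-1) + 1 = x := by ring
  rw [e, Real.smoothTransition.zero_of_nonpos (x := x + (-1)) (by linarith),
    Real.smoothTransition.one_of_one_le (x := x + 1) (by linarith)]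
  ring

theorem deriv_theta_add {x : ℝ} (h0 : 0 < x) (h1 : x < 1) :
    deriv theta (x + (-1)) + deriv theta x = 0 := by
  have hd : ∀ x, HasDerivAt theta (deriv theta x) x := fun x =>
    (contDiff_theta.differentiable (by simp) x).hasDerivAt
  have h2 : HasDerivAt (fun x => theta (x + (-1)) + theta x)
      (deriv theta (x + (-1)) * 1 + deriv theta x) x := by
    refine HasDerivAt.fun_add ?_ (hd x)
    exact (hd (x + (-1))).comp x ((hasDerivAt_id x).add_const (-1))
  have h3 : (fun x => theta (x + (-1)) + theta x) =ᶠ[𝓝 x] fun _ => (1 : ℝ) := by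
    filter_upwards [Ioo_mem_nhds h0 h1] with z hz
    exact theta_add hz.1.le hz.2.le
  have h4 := (hasDerivAt_const x (1 : ℝ)).congr_of_eventuallyEq h3
  have := h2.unique h4
  linarith

theorem deriv_theta_of_lt {x : ℝ} (hx : x < -1) : deriv theta x = 0 := by
  have : theta =ᶠ[𝓝 x] fun _ => (0 : ℝ) := by
    filter_upwards [Iio_mem_nhds hx] with z hz
    exact theta_of_le (le_of_lt hz)
  rw [this.deriv_eq]
  simp

theorem deriv_theta_of_gt {x : ℝ} (hx : 1 < x) : deriv theta x = 0 := by
  have : theta =ᶠ[𝓝 x] fun _ => (0 : ℝ) := by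
    filter_upwards [Ioi_mem_nhds hx] with z hz
    exact theta_of_ge (le_of_lt hz)
  rw [this.deriv_eq]
  simp

end

end GK.KL
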