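import Pool.Agent.GK.KeyLimitH

/-! # Periodic integration by parts -/

open scoped ContDiff Topology ComplexOrder
open MeasureTheory Set Filter

namespace GK.KL

noncomputable section

theorem deriv_smoothTransition_of_ge {x : ℝ} (hx : 1 ≤ x) : deriv Real.smoothTransition x = 0 := by
  have : IsLocalMax Real.smoothTransition x := by
    refine Eventually.of_forall fun z => ?_
    rw [Real.smoothTransition.one_of_one_le hx]
    exact Real.smoothTransition.le_one z
  exact this.deriv_eq_zero

theorem deriv_smoothTransition_of_le {x : ℝ} (hx : x ≤ 0) : deriv Real.smoothTransition x = 0 := by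
  have : IsLocalMin Real.smoothTransition x := by
    refine Eventually.of_forall fun z => ?_
    rw [Real.smoothTransition.zero_of_nonpos hx]
    exact Real.smoothTransition.nonneg z
  exact this.deriv_eq_zero

theorem deriv_theta (x : ℝ) :
    deriv theta x = deriv Real.smoothTransition (x + 1) - deriv Real.smoothTransition x := by
  have hd : ∀ x, HasDerivAt Real.smoothTransition (deriv Real.smoothTransition x) x := fun x =>
    ((Real.smoothTransition.contDiff (n := 1)).differentiable (by simp) x).hasDerivAt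
  have h1 : HasDerivAt (fun x => Real.smoothTransition (x + 1))
      (deriv Real.smoothTransition (x + 1)) x := (hd (x + 1)).comp_add_const x 1
  have h2 : HasDerivAt theta (deriv Real.smoothTransition (x + 1) -
      deriv Real.smoothTransition x) x := h1.fun_sub (hd x)
  rw [h2.deriv]

theorem dtheta_of_le {x : ℝ} (hx : x ≤ -1) : deriv theta x = 0 := by
  rw [deriv_theta, deriv_smoothTransition_of_le (by linarith),
    deriv_smoothTransition_of_le (by linarith), sub_zero]

theorem dtheta_of_ge {x : ℝ} (hx : 1 ≤ x) : deriv theta x = 0 := by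
  rw [deriv_theta, deriv_smoothTransition_of_ge (by linarith),
    deriv_smoothTransition_of_ge (by linarith), sub_zero]

theorem dtheta_add {x : ℝ} (h0 : 0 ≤ x) (h1 : x ≤ 1) :
    deriv theta (x - 1) + deriv theta x = 0 := by
  rw [deriv_theta, deriv_theta, deriv_smoothTransition_of_le (x := x - 1) (by linarith),
    deriv_smoothTransition_of_ge (x := x + 1) (by linarith)]
  ring_nf

theorem period_aux {u : V 4 → ℂ} (hu : ContDiff ℝ ∞ u) {v : V 4} {φ : V 4 → ℝ}
    (hφ : ContDiff ℝ ∞ φ) (hφv : ∀ y (s : ℝ), φ (y + s • v) = φ y + s) {a b : ℤ}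
    (hφt : ∀ y, φ (twist a b y) = φ y - 1) {S K : Set (V 4)} (hS : MeasurableSet S)
    (hinv : ∀ y (s : ℝ), y + s • v ∈ S ↔ y ∈ S) (hSt : ∀ y, twist a b y ∈ S ↔ y ∈ S)
    (hK : IsCompact K) (hz : ∀ y ∈ S, -1 ≤ φ y → φ y ≤ 1 → y ∉ K → u y = 0)
    (hut : ∀ y, u (twist a b y) = u y)
    (hdu : ∀ y, fderiv ℝ u (twist a b y) v = fderiv ℝ u y v) :
    ∫ y in S ∩ {y | φ y ∈ Ico 0 1}, fderiv ℝ u y v = 0 := by
  set F : V 4 → ℂ := fun y => ((theta (φ y) : ℝ) : ℂ) * u y with hF
  have hFs : ContDiff ℝ ∞ F :=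
    (Complex.ofRealCLM.contDiff.comp (contDiff_theta.comp hφ)).mul hu
  have hφd : ∀ y, fderiv ℝ φ y v = 1 := by
    intro y
    have h1 : HasLineDerivAt ℝ φ (fderiv ℝ φ y v) y v :=
      ((hφ.differentiable (by simp) y).hasFDerivAt).hasLineDerivAt v
    have h2 : HasLineDerivAt ℝ φ 1 y v := by
      unfold HasLineDerivAt
      have : (fun s : ℝ => φ (y + s • v)) = fun s => φ y + s := funext fun s => hφv y s
      rw [this]
      exact (hasDerivAt_id 0).const_add _
    exact h1.unique h2
  set G : V 4 → ℂ := fun y => ((deriv theta (φ y) : ℝ) : ℂ) * u y +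
    ((theta (φ y) : ℝ) : ℂ) * fderiv ℝ u y v with hG
  have hFG : ∀ y, fderiv ℝ F y v = G y := by
    intro y
    have h1 : HasFDerivAt (fun y => theta (φ y)) (deriv theta (φ y) • fderiv ℝ φ y) y :=
      ((contDiff_theta.differentiable (by simp) (φ y)).hasDerivAt).comp_hasFDerivAt y
        (hφ.differentiable (by simp) y).hasFDerivAt
    have h2 : HasFDerivAt (fun y => ((theta (φ y) : ℝ) : ℂ))
        (Complex.ofRealCLM.comp (deriv theta (φ y) • fderiv ℝ φ y)) y :=
      Complex.ofRealCLM.hasFDerivAt.comp y h1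
    have h3 : HasFDerivAt u (fderiv ℝ u y) y := (hu.differentiable (by simp) y).hasFDerivAt
    have h4 := h2.mul h3
    have h5 : HasFDerivAt F (((theta (φ y) : ℝ) : ℂ) • fderiv ℝ u y +
        u y • (Complex.ofRealCLM.comp (deriv theta (φ y) • fderiv ℝ φ y))) y := h4
    rw [h5.fderiv]
    change ((theta (φ y) : ℝ) : ℂ) * fderiv ℝ u y v +
      u y * ((deriv theta (φ y) * fderiv ℝ φ y v : ℝ) : ℂ) = _
    rw [hφd, hG]
    push_cast
    ring
  have hzF : ∀ y ∈ S, y ∉ K → F y = 0 := by
    intro y hy hyK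
    by_cases h1 : φ y ≤ -1
    · simp [hF, theta_of_le h1]
    · by_cases h2 : 1 ≤ φ y
      · simp [hF, theta_of_ge h2]
      · push Not at h1 h2
        simp [hF, hz y hy h1.le h2.le hyK]
  obtain ⟨hint, hzero⟩ := integral_fderiv_zero (F := F) (v := v) (hFs.of_le ENat.LEInfty.out)
    hS hinv hK hzF
  simp only [hFG] at hint hzero
  have hmφ : Measurable φ := hφ.continuous.measurable
  set B : Set (V 4) := S ∩ {y | φ y ∈ Ico 0 1} with hB
  set B' : Set (V 4) := S ∩ {y | φ y ∈ Ico (-1) 0} with hB'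
  have hBm : MeasurableSet B := hS.inter (hmφ measurableSet_Ico)
  have hBm' : MeasurableSet B' := hS.inter (hmφ measurableSet_Ico)
  have hdisj : Disjoint B' B := by
    rw [Set.disjoint_left]
    rintro y ⟨-, h1⟩ ⟨-, h2⟩
    exact absurd h1.2 (not_lt.mpr h2.1)
  have h1 : ∫ y in S, G y = ∫ y in B' ∪ B, G y := by
    have hsub : B' ∪ B ⊆ S := by
      rintro y (hy | hy)
      · exact hy.1
      · exact hy.1
    have hvan : ∀ y ∈ S \ (B' ∪ B), G y = 0 := by
      rintro y ⟨hyS, hy⟩
      have : φ y < -1 ∨ 1 ≤ φ y := by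
        by_contra hcon
        push Not at hcon
        apply hy
        by_cases h0 : φ y < 0
        · exact Or.inl ⟨hyS, hcon.1, h0⟩
        · exact Or.inr ⟨hyS, not_lt.mp h0, hcon.2⟩
      rcases this with h | h
      · simp [hG, theta_of_le h.le, dtheta_of_le h.le]
      · simp [hG, theta_of_ge h, dtheta_of_ge h]
    exact setIntegral_eq_of_subset_of_forall_diff_eq_zero hS hsub hvan
  have hiB : IntegrableOn G B := hint.mono_set inter_subset_left
  have hiB' : IntegrableOn G B' := hint.mono_set inter_subset_left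
  rw [h1, setIntegral_union hdisj hBm hiB' hiB, setIntegral_twist a b G B'] at hzero
  have hpre : twist a b ⁻¹' B' = B := by
    ext y
    simp only [hB, hB', mem_preimage, mem_inter_iff, mem_setOf_eq, hSt, hφt, mem_Ico]
    constructor
    · rintro ⟨h1, h2, h3⟩
      exact ⟨h1, by linarith, by linarith⟩
    · rintro ⟨h1, h2, h3⟩
      exact ⟨h1, by linarith, by linarith⟩
  rw [hpre] at hzero
  have hiT : IntegrableOn (fun y => G (twist a b y)) B := by
    have := ((mp_twist a b).restrict_preimage_emb (me_twist a b) B').integrable_comp_emb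
      (me_twist a b) (g := G)
    rw [hpre] at this
    exact this.mpr hiB'
  rw [← integral_add hiT hiB] at hzero
  rw [← hzero]
  refine setIntegral_congr_fun hBm fun y hy => ?_
  have h0 : 0 ≤ φ y := hy.2.1
  have h1' : φ y ≤ 1 := hy.2.2.le
  have e1 := theta_add h0 h1'
  have e2 := dtheta_add h0 h1'
  have e1' : theta (φ y - 1) + theta (φ y) = 1 := by rw [sub_eq_add_neg]; exact e1
  simp only [hG, hφt, hut, hdu]
  have e3 : ((theta (φ y - 1) : ℝ) : ℂ) + ((theta (φ y) : ℝ) : ℂ) = 1 := by exact_mod_cast e1'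
  have e4 : ((deriv theta (φ y - 1) : ℝ) : ℂ) + ((deriv theta (φ y) : ℝ) : ℂ) = 0 := by
    exact_mod_cast e2
  linear_combination (-(fderiv ℝ u y v)) * e3 - u y * e4

end

end GK.KL
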