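import Pool.Agent.GK.KeyLimitI

/-! # The flux does not depend on the cut-off -/

open scoped ContDiff Topology ComplexOrder
open MeasureTheory Set Filter

namespace GK.KL

noncomputable section

variable {r : ℕ} {ρ : ℝ} {g : V 4 → Matrix (Fin 4) (Fin 4) ℂ}
    {gx : Fin 3 → V 4 → Matrix (Fin 4) (Fin 4) ℂ}

theorem E3_nonneg (y : V 4) : 0 ≤ E3 y := by
  unfold E3
  have h0 := Complex.normSq_nonneg (y 0)
  have h1 := Complex.normSq_nonneg (y 1)
  have h2 := Complex.normSq_nonneg (y 2)
  linarith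

/-- the vector field whose divergence is the flux integrand -/
def Wf (h : ℝ → ℝ) (g : V 4 → Matrix (Fin 4) (Fin 4) ℂ) (j : Fin 4) (y : V 4) : ℂ :=
  ((deriv h (Real.log (E3 y)) : ℝ) : ℂ) * ∑ k, (g y).adjugate k j * star (rad y k)

/-- `h` is locally constant outside of `[log a, log b]` -/
structure Shell (h : ℝ → ℝ) (a b ρ : ℝ) : Prop where
  smooth : ContDiff ℝ ∞ h
  ha : 0 < a
  hb : b < ρ
  left : ∀ l, l < Real.log a → deriv h l = 0
  right : ∀ l, Real.log b < l → deriv h l = 0
  hb0 : 0 < b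

theorem rad_of_E3_zero {y : V 4} (hy : E3 y = 0) (k : Fin 4) : rad y k = 0 := by
  unfold rad
  split_ifs
  · rfl
  · rw [hy]; simp

theorem Wf_left {h : ℝ → ℝ} {a b : ℝ} (hs : Shell h a b ρ) {y : V 4} (hy : E3 y < a) (j : Fin 4) :
    Wf h g j y = 0 := by
  unfold Wf
  rcases (E3_nonneg y).eq_or_lt with h0 | h0
  · simp [rad_of_E3_zero h0.symm]
  · rw [hs.left _ (Real.log_lt_log h0 hy)]
    simp

theorem Wf_right {h : ℝ → ℝ} {a b : ℝ} (hs : Shell h a b ρ) {y : V 4} (hy : b < E3 y) (j : Fin 4) :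
    Wf h g j y = 0 := by
  unfold Wf
  rw [hs.right _ (Real.log_lt_log hs.hb0 hy)]
  simp

theorem contDiffOn_rad (k : Fin 4) : ContDiffOn ℝ ∞ (fun y => rad y k) {y : V 4 | 0 < E3 y} := by
  unfold rad
  split_ifs
  · exact contDiffOn_const
  · have hk : ContDiffOn ℝ ∞ (fun y : V 4 => y k) {y : V 4 | 0 < E3 y} :=
      (contDiff_apply ℝ ℂ k).contDiffOn
    have hE : ContDiffOn ℝ ∞ (fun y : V 4 => ((E3 y : ℝ) : ℂ)) {y : V 4 | 0 < E3 y} :=
      (Complex.ofRealCLM.contDiff.comp contDiff_E3).contDiffOn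
    have hne : ∀ y ∈ {y : V 4 | 0 < E3 y}, ((E3 y : ℝ) : ℂ) ≠ 0 := by
      intro y hy
      have : (0 : ℝ) < E3 y := hy
      exact_mod_cast this.ne'
    simp only [div_eq_mul_inv]
    exact (contDiffOn_star hk).mul (hE.inv hne)

theorem isOpen_shell (ρ : ℝ) : IsOpen {y : V 4 | 0 < E3 y ∧ E3 y < ρ} :=
  (isOpen_lt continuous_const continuous_E3).inter (isOpen_lt continuous_E3 continuous_const)

theorem contDiff_deriv {h : ℝ → ℝ} (hh : ContDiff ℝ ∞ h) : ContDiff ℝ ∞ (deriv h) :=
  (contDiff_infty_iff_deriv.mp hh).2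

theorem contDiff_Wf (h : LocalExc r ρ g gx) {f : ℝ → ℝ} {a b : ℝ} (hs : Shell f a b ρ)
    (j : Fin 4) : ContDiff ℝ ∞ (Wf f g j) := by
  rw [contDiff_iff_contDiffAt]
  intro y
  by_cases h1 : E3 y < a
  · have : Wf f g j =ᶠ[𝓝 y] fun _ => 0 := by
      filter_upwards [(isOpen_lt continuous_E3 continuous_const).mem_nhds h1] with z hz
      exact Wf_left hs hz j
    exact contDiffAt_const.congr_of_eventuallyEq this
  · by_cases h2 : b < E3 y
    · have : Wf f g j =ᶠ[𝓝 y] fun _ => 0 := by
        filter_upwards [(isOpen_lt continuous_const continuous_E3).mem_nhds h2] with z hz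
        exact Wf_right hs hz j
      exact contDiffAt_const.congr_of_eventuallyEq this
    · push Not at h1 h2
      have h3 : 0 < E3 y := lt_of_lt_of_le hs.ha h1
      have h4 : E3 y < ρ := lt_of_le_of_lt h2 hs.hb
      have hmem : {y : V 4 | 0 < E3 y ∧ E3 y < ρ} ∈ 𝓝 y := (isOpen_shell ρ).mem_nhds ⟨h3, h4⟩
      have hmem' : {y : V 4 | 0 < E3 y} ∈ 𝓝 y :=
        (isOpen_lt continuous_const continuous_E3).mem_nhds h3
      unfold Wf
      refine ContDiffAt.mul ?_ ?_
      · refine Complex.ofRealCLM.contDiff.contDiffAt.comp y ?_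
        exact (contDiff_deriv hs.smooth).contDiffAt.comp y (contDiffAt_logE3 h3)
      · refine ContDiffAt.sum fun k _ => ?_
        refine ContDiffAt.mul ?_ ?_
        · exact (piola_contDiffOn_adj h.kform.smooth k j).contDiffAt hmem
        · exact (contDiffOn_star (contDiffOn_rad k)).contDiffAt hmem'

/-- divergence of `Wf` -/
theorem div_Wf (h : LocalExc r ρ g gx) {f : ℝ → ℝ} {a b : ℝ} (hs : Shell f a b ρ) {y : V 4}
    (h0 : 0 < E3 y) (h1 : E3 y < ρ) :
    ∑ j, dZ j (Wf f g j) y =
      pair (g y).adjugate (levi (fun w => ((f (Real.log (E3 w)) : ℝ) : ℂ)) y) := by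
  set H : V 4 → ℂ := fun w => ((f (Real.log (E3 w)) : ℝ) : ℂ) with hH
  have hmem : {y : V 4 | 0 < E3 y ∧ E3 y < ρ} ∈ 𝓝 y := (isOpen_shell ρ).mem_nhds ⟨h0, h1⟩
  have hdB : ∀ w : V 4, 0 < E3 w → ∀ k, dB k H w =
      ((deriv f (Real.log (E3 w)) : ℝ) : ℂ) * star (rad w k) := by
    intro w hw k
    rw [hH, dB_real_comp (F := f) (f := fun w => Real.log (E3 w))
      (hs.smooth.differentiable (by simp) _)
      ((contDiffAt_logE3 hw).differentiableAt (by simp)), dB_logE3 hw]
  have hW : ∀ j, Wf f g j =ᶠ[𝓝 y] fun w => ∑ k, (g w).adjugate k j * dB k H w := by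
    intro j
    filter_upwards [hmem] with w hw
    unfold Wf
    rw [Finset.mul_sum]
    refine Finset.sum_congr rfl fun k _ => ?_
    rw [hdB w hw.1 k]
    ring
  have hH2 : ContDiffAt ℝ 2 H y := by
    refine (Complex.ofRealCLM.contDiff.contDiffAt (n := 2)).comp y ?_
    exact (hs.smooth.of_le ENat.LEInfty.out).contDiffAt.comp y
      ((contDiffAt_logE3 h0).of_le ENat.LEInfty.out)
  have hdadj : ∀ k j, DifferentiableAt ℝ (fun w => (g w).adjugate k j) y := fun k j =>
    ((piola_contDiffOn_adj h.kform.smooth k j).contDiffAt hmem).differentiableAt (by simp)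
  have hddB : ∀ k, DifferentiableAt ℝ (fun w => dB k H w) y := fun k =>
    differentiableAt_dB hH2 k
  have hdet : (g y).det ≠ 0 := ((h.pos y h0 h1).det_pos).ne'
  calc ∑ j, dZ j (Wf f g j) y
      = ∑ j, ∑ k, (dZ j (fun w => (g w).adjugate k j) y * dB k H y +
          (g y).adjugate k j * dZ j (fun w => dB k H w) y) := by
        refine Finset.sum_congr rfl fun j _ => ?_
        rw [dZ_congr (hW j), dZ_sum (f := fun k w => (g w).adjugate k j * dB k H w) _
          (fun k _ => (hdadj k j).mul (hddB k))]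
        refine Finset.sum_congr rfl fun k _ => ?_
        rw [dZ_mul (hdadj k j) (hddB k)]
    _ = ∑ k, (∑ j, dZ j (fun w => (g w).adjugate k j) y) * dB k H y +
          ∑ j, ∑ k, (g y).adjugate k j * dZ j (fun w => dB k H w) y := by
        simp only [Finset.sum_add_distrib, Finset.sum_mul]
        congr 1
        exact Finset.sum_comm
    _ = _ := by
        have hz : ∀ k, ∑ j, dZ j (fun w => (g w).adjugate k j) y = 0 := fun k =>
          div_adjugate_closed (isOpen_shell ρ) h.kform ⟨h0, h1⟩ hdet k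
        simp only [hz, zero_mul, Finset.sum_const_zero, zero_add]
        rfl

theorem dZ_Wf_zero {f : ℝ → ℝ} {a b : ℝ} (hs : Shell f a b ρ) {y : V 4}
    (hy : E3 y < a ∨ b < E3 y) (j : Fin 4) : dZ j (Wf f g j) y = 0 := by
  have : Wf f g j =ᶠ[𝓝 y] fun _ => 0 := by
    rcases hy with hy | hy
    · filter_upwards [(isOpen_lt continuous_E3 continuous_const).mem_nhds hy] with z hz
      exact Wf_left hs hz j
    · filter_upwards [(isOpen_lt continuous_const continuous_E3).mem_nhds hy] with z hz
      exact Wf_right hs hz j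
  rw [dZ_congr this, dZ_const]

theorem levi_zero {f : ℝ → ℝ} {a b : ℝ} (hs : Shell f a b ρ) {y : V 4} (hy : b < E3 y) :
    levi (fun w => ((f (Real.log (E3 w)) : ℝ) : ℂ)) y = 0 := by
  have h0 : 0 < E3 y := hs.hb0.trans hy
  have hl : Real.log b < Real.log (E3 y) := Real.log_lt_log hs.hb0 hy
  have h2 : deriv f =ᶠ[𝓝 (Real.log (E3 y))] fun _ => 0 := by
    filter_upwards [Ioi_mem_nhds hl] with l hl'
    exact hs.right l hl'
  ext j k
  rw [levi_comp_logE3 hs.smooth h0, hs.right _ hl, h2.deriv_eq]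
  simp

/-- the strip `y₃ ∈ box 1` -/
def strip : Set (V 4) := {y | y 3 ∈ box 1}

theorem measurableSet_strip : MeasurableSet strip := measurable_pi_apply 3 (measurableSet_box 1)

/-- compact shell -/
def shellK (a b c : ℝ) : Set (V 4) := {y | a ≤ E3 y ∧ E3 y ≤ b ∧ ‖y 3‖ ≤ c}

theorem isCompact_shellK (a b c : ℝ) : IsCompact (shellK a b c) := by
  refine Metric.isCompact_of_isClosed_isBounded ?_ ?_
  · have hA : IsClosed {y : V 4 | a ≤ E3 y} := isClosed_le continuous_const continuous_E3
    have hB : IsClosed {y : V 4 | E3 y ≤ b} := isClosed_le continuous_E3 continuous_const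
    have hC : IsClosed {y : V 4 | ‖y 3‖ ≤ c} :=
      isClosed_le (continuous_norm.comp (continuous_apply _)) continuous_const
    exact hA.inter (hB.inter hC)
  · rw [Metric.isBounded_iff_subset_closedBall 0]
    refine ⟨|b| + |c| + 1, fun u hu => ?_⟩
    obtain ⟨h1, h2, h3⟩ := hu
    rw [mem_closedBall_zero_iff, pi_norm_le_iff_of_nonneg (by positivity)]
    intro i
    induction i using Fin.lastCases with
    | last =>
      have : (Fin.last 3 : Fin 4) = 3 := rfl
      rw [this]
      have := le_abs_self c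
      have := abs_nonneg b
      linarith
    | cast i =>
      have h4 := normSq_le_E3 u i
      rw [Complex.normSq_eq_norm_sq] at h4
      have h5 := le_abs_self b
      have h6 := abs_nonneg c
      nlinarith [norm_nonneg (u i.castSucc)]

theorem E3_congr {y z : V 4} (h : ∀ i : Fin 3, y i.castSucc = z i.castSucc) : E3 y = E3 z := by
  have h0 := h 0
  have h1 := h 1
  have h2 := h 2
  simp at h0 h1 h2
  simp [E3, h0, h1, h2]

theorem integral_dir_low (h : LocalExc r ρ g gx) {f : ℝ → ℝ} {a b : ℝ} (hs : Shell f a b ρ)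
    (j : Fin 4) {v : V 4} (hv : v 3 = 0) :
    IntegrableOn (fun y => fderiv ℝ (Wf f g j) y v) strip ∧
      ∫ y in strip, fderiv ℝ (Wf f g j) y v = 0 := by
  refine integral_fderiv_zero (K := shellK a b 2) ((contDiff_Wf h hs j).of_le ENat.LEInfty.out)
    measurableSet_strip ?_ (isCompact_shellK a b 2) ?_
  · intro y s
    simp [strip, hv]
  · intro y hy hyK
    have h2 : ‖y 3‖ ≤ 2 := box_norm hy le_rfl
    have h3 : E3 y < a ∨ b < E3 y := by
      by_contra hcon
      push Not at hcon
      exact hyK ⟨hcon.1, hcon.2, h2⟩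
    rcases h3 with h3 | h3
    · exact Wf_left hs h3 j
    · exact Wf_right hs h3 j

theorem rad_twist (a b : ℤ) (y : V 4) (k : Fin 4) :
    rad (twist a b y) k = twistMat a b k k * rad y k := by
  have hs : ∀ a : ℤ, (starRingEnd ℂ) ((-1 : ℂ) ^ a) = (-1) ^ a := by
    intro a
    rcases Int.even_or_odd a with h | h
    · rw [h.neg_one_zpow]; simp
    · rw [h.neg_one_zpow]; simp
  unfold rad
  rw [E3_twist]
  fin_cases k <;> simp [twist, twistMat, hs, mul_div_assoc]

theorem twistMat_sq (a b : ℤ) (k : Fin 4) : twistMat a b k k * twistMat a b k k = 1 := by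
  fin_cases k <;> simp [twistMat, neg_one_zpow_mul_self]

theorem twistMat_mul_self (a b : ℤ) : twistMat a b * twistMat a b = 1 := by
  rw [twistMat, Matrix.diagonal_mul_diagonal, ← Matrix.diagonal_one]
  congr 1
  funext i
  fin_cases i <;> simp [neg_one_zpow_mul_self]

theorem twistMat_star (a b : ℤ) : (twistMat a b).map star = twistMat a b := by
  have hs : ∀ a : ℤ, (starRingEnd ℂ) ((-1 : ℂ) ^ a) = (-1) ^ a := by
    intro a
    rcases Int.even_or_odd a with h | h
    · rw [h.neg_one_zpow]; simp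
    · rw [h.neg_one_zpow]; simp
  ext i j
  fin_cases i <;> fin_cases j <;> simp [twistMat, hs]

theorem adjugate_pull_twist (a b : ℤ) (G : Matrix (Fin 4) (Fin 4) ℂ) (k j : Fin 4) :
    (pull (twistMat a b) G).adjugate k j =
      twistMat a b k k * G.adjugate k j * twistMat a b j j := by
  have hT : (twistMat a b).adjugate = (twistMat a b).det • twistMat a b := by
    have h1 : (twistMat a b).adjugate * (twistMat a b * twistMat a b) =
        ((twistMat a b).adjugate * twistMat a b) * twistMat a b := by rw [Matrix.mul_assoc]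
    rw [twistMat_mul_self, Matrix.mul_one, Matrix.adjugate_mul] at h1
    rw [h1, Matrix.smul_mul, Matrix.one_mul]
  have hd : (twistMat a b).det * (twistMat a b).det = 1 := by
    rw [← Matrix.det_mul, twistMat_mul_self, Matrix.det_one]
  have hTt : (twistMat a b).transpose = twistMat a b := by
    rw [twistMat, Matrix.diagonal_transpose]
  rw [pull, twistMat_star, hTt, Matrix.adjugate_mul_distrib, Matrix.adjugate_mul_distrib, hT]
  have e : (twistMat a b).det • twistMat a b * (G.adjugate * (twistMat a b).det • twistMat a b) =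
      twistMat a b * G.adjugate * twistMat a b := by
    rw [Matrix.mul_smul, Matrix.smul_mul, Matrix.mul_smul, smul_smul, hd, one_smul,
      Matrix.mul_assoc]
  rw [e]
  conv_lhs => rw [twistMat, Matrix.mul_diagonal, Matrix.diagonal_mul]
  simp [twistMat]

theorem Wf_twist (h : LocalExc r ρ g gx) {f : ℝ → ℝ} {a b : ℝ} (hs : Shell f a b ρ) (p q : ℤ)
    (y : V 4) : Wf f g 3 (twist p q y) = Wf f g 3 y := by
  rcases (E3_nonneg y).eq_or_lt with h0 | h0
  · rw [Wf_left hs (by rw [E3_twist, ← h0]; exact hs.ha), Wf_left hs (by rw [← h0]; exact hs.ha)]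
  · by_cases h1 : E3 y < ρ
    · unfold Wf
      rw [E3_twist]
      congr 1
      refine Finset.sum_congr rfl fun k _ => ?_
      rw [h.twist p q y h0 h1, adjugate_pull_twist, rad_twist]
      have h3 : twistMat p q 3 3 = 1 := by simp [twistMat]
      have h4 : star (twistMat p q k k) = twistMat p q k k := by
        have := congrFun (congrFun (twistMat_star p q) k) k
        simpa using this
      have h5 := twistMat_sq p q k
      rw [h3, mul_one, star_mul', h4]
      ring
    · have hb : b < E3 y := lt_of_lt_of_le hs.hb (not_lt.mp h1)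
      rw [Wf_right hs (by rw [E3_twist]; exact hb), Wf_right hs hb]

end

end GK.KL
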