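import Pool.Agent.GK.KeyLimitJ

/-! # The flux does not depend on the cut-off, part 2 -/

open scoped ContDiff Topology ComplexOrder
open MeasureTheory Set Filter

namespace GK.KL

noncomputable section

variable {r : ℕ} {ρ : ℝ} {g : V 4 → Matrix (Fin 4) (Fin 4) ℂ}
    {gx : Fin 3 → V 4 → Matrix (Fin 4) (Fin 4) ℂ}

theorem twist_add_three (p q : ℤ) (y : V 4) (c : ℂ) (s : ℝ) :
    twist p q (y + s • (Pi.single 3 c : V 4)) = twist p q y + s • (Pi.single 3 c : V 4) := by
  funext i
  fin_cases i <;> simp [twist]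
  ring

theorem fderiv_twist {u : V 4 → ℂ} (hu : ContDiff ℝ ∞ u) (p q : ℤ)
    (hut : ∀ y, u (twist p q y) = u y) (c : ℂ) (y : V 4) :
    fderiv ℝ u (twist p q y) (Pi.single 3 c) = fderiv ℝ u y (Pi.single 3 c) := by
  have h1 : HasLineDerivAt ℝ u (fderiv ℝ u y (Pi.single 3 c)) y (Pi.single 3 c) :=
    ((hu.differentiable (by simp) y).hasFDerivAt).hasLineDerivAt _
  have h2 : HasLineDerivAt ℝ u (fderiv ℝ u (twist p q y) (Pi.single 3 c)) (twist p q y)
      (Pi.single 3 c) :=
    ((hu.differentiable (by simp) (twist p q y)).hasFDerivAt).hasLineDerivAt _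
  have h3 : HasLineDerivAt ℝ u (fderiv ℝ u (twist p q y) (Pi.single 3 c)) y (Pi.single 3 c) := by
    unfold HasLineDerivAt at h2 ⊢
    have : (fun s : ℝ => u (y + s • (Pi.single 3 c : V 4))) =
        fun s : ℝ => u (twist p q y + s • (Pi.single 3 c : V 4)) := by
      funext s
      rw [← twist_add_three, hut]
    rw [this]
    exact h2
  exact h3.unique h1

theorem norm_le_two {z : ℂ} (h1 : |z.re| ≤ 1) (h2 : |z.im| ≤ 1) : ‖z‖ ≤ 2 := by
  have := Complex.norm_le_abs_re_add_abs_im z
  linarith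

theorem integral_dir_re (h : LocalExc r ρ g gx) {f : ℝ → ℝ} {a b : ℝ} (hs : Shell f a b ρ) :
    ∫ y in strip, fderiv ℝ (Wf f g 3) y (Pi.single 3 1) = 0 := by
  have hu := contDiff_Wf h hs 3
  have hut := Wf_twist h hs (-1) 0
  have hS : MeasurableSet {y : V 4 | (y 3).im ∈ Ico (0 : ℝ) 1} :=
    (Complex.measurable_im.comp (measurable_pi_apply 3)) measurableSet_Ico
  have key := period_aux (u := Wf f g 3) hu (v := Pi.single 3 (1 : ℂ)) (φ := fun y => (y 3).re)
    (Complex.reCLM.contDiff.comp (contDiff_apply ℝ ℂ (3 : Fin 4)))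
    (fun y s => by simp) (a := -1) (b := 0) (fun y => by simp [twist, sub_eq_add_neg])
    (S := {y : V 4 | (y 3).im ∈ Ico (0 : ℝ) 1}) (K := shellK a b 2) hS
    (fun y s => by simp) (fun y => by simp [twist]) (isCompact_shellK a b 2)
    (by
      intro y hy h1 h2 hyK
      have h3 : ‖y 3‖ ≤ 2 := by
        refine norm_le_two (abs_le.mpr ⟨h1, h2⟩) ?_
        rw [abs_le]
        exact ⟨by linarith [hy.1], hy.2.le⟩
      have h4 : E3 y < a ∨ b < E3 y := by
        by_contra hcon
        push Not at hcon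
        exact hyK ⟨hcon.1, hcon.2, h3⟩
      rcases h4 with h4 | h4
      · exact Wf_left hs h4 3
      · exact Wf_right hs h4 3) hut (fun y => fderiv_twist hu (-1) 0 hut 1 y)
  have e : {y : V 4 | (y 3).im ∈ Ico (0 : ℝ) 1} ∩ {y | (y 3).re ∈ Ico (0 : ℝ) 1} = strip := by
    ext y
    simp only [strip, box, mem_inter_iff, mem_setOf_eq]
    tauto
  rw [e] at key
  exact key

theorem integral_dir_im (h : LocalExc r ρ g gx) {f : ℝ → ℝ} {a b : ℝ} (hs : Shell f a b ρ) :
    ∫ y in strip, fderiv ℝ (Wf f g 3) y (Pi.single 3 Complex.I) = 0 := by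
  have hu := contDiff_Wf h hs 3
  have hut := Wf_twist h hs 0 (-1)
  have hS : MeasurableSet {y : V 4 | (y 3).re ∈ Ico (0 : ℝ) 1} :=
    (Complex.measurable_re.comp (measurable_pi_apply 3)) measurableSet_Ico
  have key := period_aux (u := Wf f g 3) hu (v := Pi.single 3 Complex.I)
    (φ := fun y => (y 3).im)
    (Complex.imCLM.contDiff.comp (contDiff_apply ℝ ℂ (3 : Fin 4)))
    (fun y s => by simp) (a := 0) (b := -1) (fun y => by simp [twist, sub_eq_add_neg])
    (S := {y : V 4 | (y 3).re ∈ Ico (0 : ℝ) 1}) (K := shellK a b 2) hS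
    (fun y s => by simp) (fun y => by simp [twist]) (isCompact_shellK a b 2)
    (by
      intro y hy h1 h2 hyK
      have h3 : ‖y 3‖ ≤ 2 := by
        refine norm_le_two ?_ (abs_le.mpr ⟨h1, h2⟩)
        rw [abs_le]
        exact ⟨by linarith [hy.1], hy.2.le⟩
      have h4 : E3 y < a ∨ b < E3 y := by
        by_contra hcon
        push Not at hcon
        exact hyK ⟨hcon.1, hcon.2, h3⟩
      rcases h4 with h4 | h4
      · exact Wf_left hs h4 3
      · exact Wf_right hs h4 3) hut (fun y => fderiv_twist hu 0 (-1) hut Complex.I y)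
  have e : {y : V 4 | (y 3).re ∈ Ico (0 : ℝ) 1} ∩ {y | (y 3).im ∈ Ico (0 : ℝ) 1} = strip := by
    ext y
    simp only [strip, box, mem_inter_iff, mem_setOf_eq]
  rw [e] at key
  exact key

theorem integrable_dir (h : LocalExc r ρ g gx) {f : ℝ → ℝ} {a b : ℝ} (hs : Shell f a b ρ)
    (j : Fin 4) (v : V 4) : IntegrableOn (fun y => fderiv ℝ (Wf f g j) y v) strip := by
  have hc : Continuous fun y => fderiv ℝ (Wf f g j) y v :=
    ((contDiff_Wf h hs j).continuous_fderiv (by simp)).clm_apply continuous_const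
  have h1 : IntegrableOn (fun y => fderiv ℝ (Wf f g j) y v) (shellK a b 2 ∩ strip) :=
    (hc.continuousOn.integrableOn_compact (isCompact_shellK a b 2)).mono_set inter_subset_left
  have h2 : IntegrableOn (fun y => fderiv ℝ (Wf f g j) y v) (strip \ shellK a b 2) := by
    have h5 : IntegrableOn (fun _ : V 4 => (0 : ℂ)) (strip \ shellK a b 2) := integrableOn_zero
    refine h5.congr_fun (fun y hy => ?_)
      (measurableSet_strip.diff (isCompact_shellK a b 2).measurableSet)
    have h2 : ‖y 3‖ ≤ 2 := box_norm hy.1 le_rfl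
    have h3 : E3 y < a ∨ b < E3 y := by
      by_contra hcon
      push Not at hcon
      exact hy.2 ⟨hcon.1, hcon.2, h2⟩
    have h4 : Wf f g j =ᶠ[𝓝 y] fun _ => 0 := by
      rcases h3 with h3 | h3
      · filter_upwards [(isOpen_lt continuous_E3 continuous_const).mem_nhds h3] with z hz
        exact Wf_left hs hz j
      · filter_upwards [(isOpen_lt continuous_const continuous_E3).mem_nhds h3] with z hz
        exact Wf_right hs hz j
    rw [h4.fderiv_eq]
    simp
  have h3 : strip ⊆ (shellK a b 2 ∩ strip) ∪ (strip \ shellK a b 2) := by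
    intro y hy
    by_cases hyK : y ∈ shellK a b 2
    · exact Or.inl ⟨hyK, hy⟩
    · exact Or.inr ⟨hy, hyK⟩
  exact (h1.union h2).mono_set h3

theorem integral_dZ_Wf (h : LocalExc r ρ g gx) {f : ℝ → ℝ} {a b : ℝ} (hs : Shell f a b ρ)
    (j : Fin 4) : IntegrableOn (fun y => dZ j (Wf f g j) y) strip ∧
      ∫ y in strip, dZ j (Wf f g j) y = 0 := by
  have hz : ∀ c : ℂ, (c = 1 ∨ c = Complex.I) →
      ∫ y in strip, fderiv ℝ (Wf f g j) y (Pi.single j c) = 0 := by
    intro c hc
    induction j using Fin.lastCases with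
    | last =>
      have : (Fin.last 3 : Fin 4) = 3 := rfl
      rw [this]
      rcases hc with rfl | rfl
      · exact integral_dir_re h hs
      · exact integral_dir_im h hs
    | cast i =>
      refine (integral_dir_low h hs i.castSucc ?_).2
      simp [Pi.single_apply, (castSucc_ne_three i).symm]
  have hi := fun v => integrable_dir h hs j v
  unfold dZ
  constructor
  · exact ((hi _).sub ((hi _).const_mul _)).div_const _
  · rw [integral_div, integral_sub (hi _) ((hi _).const_mul _), integral_const_mul,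
      hz 1 (Or.inl rfl), hz Complex.I (Or.inr rfl)]
    simp

/-- domain of integration of the flux -/
def domF : Set (V 4) := {y | 0 < E3 y ∧ y 3 ∈ box 1}

theorem measurableSet_domF : MeasurableSet domF :=
  (measurableSet_lt measurable_const continuous_E3.measurable).inter measurableSet_strip

theorem integral_shell_zero (h : LocalExc r ρ g gx) {f : ℝ → ℝ} {a b : ℝ} (hs : Shell f a b ρ) :
    ∫ y in domF, (pair (g y).adjugate
      (levi (fun w => ((f (Real.log (E3 w)) : ℝ) : ℂ)) y)).re = 0 := by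
  have h1 : ∫ y in strip, ∑ j, dZ j (Wf f g j) y = 0 := by
    rw [integral_finset_sum _ fun j _ => (integral_dZ_Wf h hs j).1]
    exact Finset.sum_eq_zero fun j _ => (integral_dZ_Wf h hs j).2
  have hint : IntegrableOn (fun y => ∑ j, dZ j (Wf f g j) y) strip :=
    integrable_finset_sum _ fun j _ => (integral_dZ_Wf h hs j).1
  have hsub : domF ⊆ strip := fun y hy => hy.2
  have h2 : ∫ y in strip, ∑ j, dZ j (Wf f g j) y = ∫ y in domF, ∑ j, dZ j (Wf f g j) y := by
    refine setIntegral_eq_of_subset_of_forall_diff_eq_zero measurableSet_strip hsub ?_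
    rintro y ⟨hy1, hy2⟩
    have h0 : E3 y = 0 := by
      rcases (E3_nonneg y).eq_or_lt with h0 | h0
      · exact h0.symm
      · exact absurd ⟨h0, hy1⟩ hy2
    exact Finset.sum_eq_zero fun j _ => dZ_Wf_zero hs (Or.inl (by rw [h0]; exact hs.ha)) j
  have h3 : ∫ y in domF, ∑ j, dZ j (Wf f g j) y = ∫ y in domF, pair (g y).adjugate
      (levi (fun w => ((f (Real.log (E3 w)) : ℝ) : ℂ)) y) := by
    refine setIntegral_congr_fun measurableSet_domF fun y hy => ?_
    by_cases hρ : E3 y < ρ
    · exact div_Wf h hs hy.1 hρ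
    · have hb : b < E3 y := lt_of_lt_of_le hs.hb (not_lt.mp hρ)
      beta_reduce
      rw [levi_zero hs hb, Finset.sum_eq_zero fun j _ => dZ_Wf_zero hs (Or.inr hb) j]
      simp [pair]
  have hint' : IntegrableOn (fun y => pair (g y).adjugate
      (levi (fun w => ((f (Real.log (E3 w)) : ℝ) : ℂ)) y)) domF := by
    refine (hint.mono_set hsub).congr_fun (fun y hy => ?_) measurableSet_domF
    by_cases hρ : E3 y < ρ
    · exact div_Wf h hs hy.1 hρ
    · have hb : b < E3 y := lt_of_lt_of_le hs.hb (not_lt.mp hρ)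
      beta_reduce
      rw [levi_zero hs hb, Finset.sum_eq_zero fun j _ => dZ_Wf_zero hs (Or.inr hb) j]
      simp [pair]
  have h4 : ∫ y in domF, pair (g y).adjugate
      (levi (fun w => ((f (Real.log (E3 w)) : ℝ) : ℂ)) y) = 0 := by
    rw [← h3, ← h2, h1]
  have h5 := integral_re hint'
  have h6 : ∫ y in domF, (pair (g y).adjugate
      (levi (fun w => ((f (Real.log (E3 w)) : ℝ) : ℂ)) y)).re =
      (∫ y in domF, pair (g y).adjugate
      (levi (fun w => ((f (Real.log (E3 w)) : ℝ) : ℂ)) y)).re := h5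
  rw [h6, h4]
  simp

end

end GK.KL
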