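import Pool.Agent.GK.KeyLimitK

/-! # Flux: independence of the cut-off, positivity -/

open scoped ContDiff Topology ComplexOrder
open MeasureTheory Set Filter

namespace GK.KL

noncomputable section

variable {r : ℕ} {ρ : ℝ} {g : V 4 → Matrix (Fin 4) (Fin 4) ℂ}
    {gx : Fin 3 → V 4 → Matrix (Fin 4) (Fin 4) ℂ}

/-- the flux integrand -/
def Fl (f : ℝ → ℝ) (g : V 4 → Matrix (Fin 4) (Fin 4) ℂ) (y : V 4) : ℝ :=
  (pair (g y).adjugate (levi (fun w => ((f (Real.log (E3 w)) : ℝ) : ℂ)) y)).re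

theorem flux_eq (f : ℝ → ℝ) (g : V 4 → Matrix (Fin 4) (Fin 4) ℂ) :
    flux f g = - ∫ y in domF, Fl f g y := rfl

theorem Fl_eq {f : ℝ → ℝ} (hf : ContDiff ℝ ∞ f) {y : V 4} (hy : 0 < E3 y) :
    Fl f g y = deriv f (Real.log (E3 y)) * S1 g y +
      deriv (deriv f) (Real.log (E3 y)) * S2 g y := by
  have e : pair (g y).adjugate (levi (fun w => ((f (Real.log (E3 w)) : ℝ) : ℂ)) y) =
      ((deriv f (Real.log (E3 y)) : ℝ) : ℂ) * pair (g y).adjugate (leviLog y) +
      ((deriv (deriv f) (Real.log (E3 y)) : ℝ) : ℂ) *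
        pair (g y).adjugate (Matrix.vecMulVec (rad y) (star (rad y))) := by
    unfold pair
    rw [Finset.mul_sum, Finset.mul_sum, ← Finset.sum_add_distrib]
    refine Finset.sum_congr rfl fun j _ => ?_
    rw [Finset.mul_sum, Finset.mul_sum, ← Finset.sum_add_distrib]
    refine Finset.sum_congr rfl fun k _ => ?_
    rw [levi_comp_logE3 hf hy, Matrix.vecMulVec_apply, Pi.star_apply]
    ring
  rw [Fl, e, Complex.add_re, Complex.re_ofReal_mul, Complex.re_ofReal_mul, S1, S2]

/-- data of a cut-off -/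
structure CutData (f : ℝ → ℝ) (a b ρ : ℝ) : Prop where
  smooth : ContDiff ℝ ∞ f
  ha : 0 < a
  hb0 : 0 < b
  hb : b < ρ
  left1 : ∀ l, l < Real.log a → deriv f l = 1
  left2 : ∀ l, l < Real.log a → deriv (deriv f) l = 0
  right1 : ∀ l, Real.log b < l → deriv f l = 0
  right2 : ∀ l, Real.log b < l → deriv (deriv f) l = 0

theorem exists_cutData {f : ℝ → ℝ} (hρ : 0 < ρ) (hf : IsCut f ρ) : ∃ a b, CutData f a b ρ := by
  obtain ⟨c, L, hL⟩ := hf.left
  obtain ⟨L', hL'ρ, hL'⟩ := hf.right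
  have h1 : ∀ l, l < L → deriv f l = 1 := by
    intro l hl
    have : f =ᶠ[𝓝 l] fun l => l + c := by
      filter_upwards [Iio_mem_nhds hl] with z hz
      exact hL z hz
    rw [this.deriv_eq]
    simp
  have h2 : ∀ l, L' < l → deriv f l = 0 := by
    intro l hl
    have : f =ᶠ[𝓝 l] fun _ => 0 := by
      filter_upwards [Ioi_mem_nhds hl] with z hz
      exact hL' z hz
    rw [this.deriv_eq]
    simp
  refine ⟨Real.exp L, Real.exp L', hf.smooth, Real.exp_pos _, Real.exp_pos _, ?_, ?_, ?_, ?_, ?_⟩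
  · rw [← Real.exp_log hρ]
    exact Real.exp_lt_exp.mpr hL'ρ
  · intro l hl
    rw [Real.log_exp] at hl
    exact h1 l hl
  · intro l hl
    rw [Real.log_exp] at hl
    have : deriv f =ᶠ[𝓝 l] fun _ => 1 := by
      filter_upwards [Iio_mem_nhds hl] with z hz
      exact h1 z hz
    rw [this.deriv_eq]
    simp
  · intro l hl
    rw [Real.log_exp] at hl
    exact h2 l hl
  · intro l hl
    rw [Real.log_exp] at hl
    have : deriv f =ᶠ[𝓝 l] fun _ => 0 := by
      filter_upwards [Ioi_mem_nhds hl] with z hz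
      exact h2 z hz
    rw [this.deriv_eq]
    simp

theorem CutData.bound {f : ℝ → ℝ} {a b : ℝ} (hc : CutData f a b ρ) :
    ∃ B, 0 ≤ B ∧ ∀ l, l ≤ Real.log b → |deriv f l| ≤ B := by
  have h1 : ContinuousOn (deriv f) (Icc (Real.log a) (Real.log b)) :=
    (contDiff_deriv hc.smooth).continuous.continuousOn
  obtain ⟨B, hB⟩ := isCompact_Icc.exists_bound_of_continuousOn h1
  refine ⟨max B 1, le_max_of_le_right zero_le_one, fun l hl => ?_⟩
  by_cases h2 : l < Real.log a
  · rw [hc.left1 l h2]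
    simp
  · exact (hB l ⟨not_lt.mp h2, hl⟩).trans (le_max_left _ _)

theorem continuousOn_log : ContinuousOn (fun y : V 4 => Real.log (E3 y)) {y | 0 < E3 y} :=
  continuous_E3.continuousOn.log fun y hy => by
    have : (0 : ℝ) < E3 y := hy
    exact this.ne'

theorem domE_sub {b : ℝ} (hb : b < ρ) : domE 0 b ⊆ {y : V 4 | 0 < E3 y ∧ E3 y < ρ} :=
  fun _ hy => ⟨hy.1, lt_of_le_of_lt hy.2.1 hb⟩

theorem log_le_of_domE {b : ℝ} {y : V 4} (hy : y ∈ domE 0 b) :
    Real.log (E3 y) ≤ Real.log b := Real.log_le_log hy.1 hy.2.1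

theorem integrable_T1 (h : LocalExc r ρ g gx) {φ : ℝ → ℝ} (hφ : Continuous φ) {b B : ℝ}
    (hb0 : 0 < b) (hb : b < ρ) (hB : ∀ l, l ≤ Real.log b → |φ l| ≤ B) :
    IntegrableOn (fun y => φ (Real.log (E3 y)) * S1 g y) (domE 0 b) := by
  have h1 := (integrable_S1 h hb0.le hb).norm.const_mul B
  refine Integrable.mono' h1 ?_ ?_
  · refine ContinuousOn.aestronglyMeasurable ?_ (measurableSet_domE 0 b)
    refine ContinuousOn.mul ?_ ((continuousOn_S1 h).mono (domE_sub hb))
    exact hφ.comp_continuousOn (continuousOn_log.mono fun y hy => hy.1)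
  · filter_upwards [ae_restrict_mem (measurableSet_domE 0 b)] with y hy
    rw [norm_mul, Real.norm_eq_abs]
    exact mul_le_mul_of_nonneg_right (hB _ (log_le_of_domE hy)) (norm_nonneg _)

theorem integrable_T2 (h : LocalExc r ρ g gx) {φ : ℝ → ℝ} (hφ : Continuous φ) {a b : ℝ}
    (ha : 0 < a) (hb : b < ρ) (hφa : ∀ l, l < Real.log a → φ l = 0) :
    IntegrableOn (fun y => φ (Real.log (E3 y)) * S2 g y) (domE 0 b) := by
  have hc : ContinuousOn (fun y => φ (Real.log (E3 y)) * S2 g y)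
      {y : V 4 | 0 < E3 y ∧ E3 y < ρ} :=
    (hφ.comp_continuousOn (continuousOn_log.mono fun y hy => hy.1)).mul (continuousOn_S2 h)
  have hK : shellK a b 2 ⊆ {y : V 4 | 0 < E3 y ∧ E3 y < ρ} := fun y hy =>
    ⟨lt_of_lt_of_le ha hy.1, lt_of_le_of_lt hy.2.1 hb⟩
  have h1 : IntegrableOn (fun y => φ (Real.log (E3 y)) * S2 g y) (shellK a b 2) :=
    (hc.mono hK).integrableOn_compact (isCompact_shellK a b 2)
  have h2 : IntegrableOn (fun y => φ (Real.log (E3 y)) * S2 g y) (domE 0 b \ shellK a b 2) := by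
    have h5 : IntegrableOn (fun _ : V 4 => (0 : ℝ)) (domE 0 b \ shellK a b 2) := integrableOn_zero
    refine h5.congr_fun (fun y hy => ?_)
      ((measurableSet_domE 0 b).diff (isCompact_shellK a b 2).measurableSet)
    have h2 : ‖y 3‖ ≤ 2 := box_norm hy.1.2.2 le_rfl
    have h3 : E3 y < a := by
      by_contra hcon
      exact hy.2 ⟨not_lt.mp hcon, hy.1.2.1, h2⟩
    rw [hφa _ (Real.log_lt_log hy.1.1 h3)]
    simp
  have h3 : domE 0 b ⊆ shellK a b 2 ∪ (domE 0 b \ shellK a b 2) := by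
    intro y hy
    by_cases hyK : y ∈ shellK a b 2
    · exact Or.inl hyK
    · exact Or.inr ⟨hy, hyK⟩
  exact (h1.union h2).mono_set h3

theorem Fl_right {f : ℝ → ℝ} {a b : ℝ} (hc : CutData f a b ρ) {y : V 4} (h0 : 0 < E3 y)
    (hy : b < E3 y) : Fl f g y = 0 := by
  have hl := Real.log_lt_log hc.hb0 hy
  rw [Fl_eq hc.smooth h0, hc.right1 _ hl, hc.right2 _ hl]
  simp

theorem integrable_Fl_domE (h : LocalExc r ρ g gx) {f : ℝ → ℝ} {a b : ℝ} (hc : CutData f a b ρ) :
    IntegrableOn (Fl f g) (domE 0 b) := by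
  obtain ⟨B, -, hB⟩ := hc.bound
  have h1 := integrable_T1 h (contDiff_deriv hc.smooth).continuous hc.hb0 hc.hb hB
  have h2 := integrable_T2 h (contDiff_deriv (contDiff_deriv hc.smooth)).continuous hc.ha hc.hb
    hc.left2
  exact (h1.add h2).congr_fun (fun y hy => (Fl_eq hc.smooth hy.1).symm) (measurableSet_domE 0 b)

theorem domE_subset_domF (b : ℝ) : domE 0 b ⊆ domF := fun _ hy => ⟨hy.1, hy.2.2⟩

theorem integrable_of_domE {F : V 4 → ℝ} {b : ℝ} (h1 : IntegrableOn F (domE 0 b))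
    (h2 : ∀ y ∈ domF, b < E3 y → F y = 0) : IntegrableOn F domF := by
  have h3 : IntegrableOn F (domF \ domE 0 b) := by
    have h5 : IntegrableOn (fun _ : V 4 => (0 : ℝ)) (domF \ domE 0 b) := integrableOn_zero
    refine h5.congr_fun (fun y hy => ?_) (measurableSet_domF.diff (measurableSet_domE 0 b))
    refine (h2 y hy.1 ?_).symm
    by_contra hcon
    exact hy.2 ⟨hy.1.1, not_lt.mp hcon, hy.1.2⟩
  have h4 : domF ⊆ domE 0 b ∪ (domF \ domE 0 b) := by
    intro y hy
    by_cases hyK : y ∈ domE 0 b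
    · exact Or.inl hyK
    · exact Or.inr ⟨hy, hyK⟩
  exact (h1.union h3).mono_set h4

theorem integrable_Fl (h : LocalExc r ρ g gx) {f : ℝ → ℝ} (hf : IsCut f ρ) :
    IntegrableOn (Fl f g) domF := by
  obtain ⟨a, b, hc⟩ := exists_cutData h.ρ_pos hf
  exact integrable_of_domE (integrable_Fl_domE h hc) fun y hy hb => Fl_right hc hy.1 hb

theorem flux_indep' (h : LocalExc r ρ g gx) {f f' : ℝ → ℝ} (hf : IsCut f ρ) (hf' : IsCut f' ρ) :
    flux f g = flux f' g := by
  obtain ⟨a, b, hc⟩ := exists_cutData h.ρ_pos hf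
  obtain ⟨a', b', hc'⟩ := exists_cutData h.ρ_pos hf'
  have hd : ∀ l, deriv (fun l => f l - f' l) l = deriv f l - deriv f' l := fun l =>
    deriv_fun_sub (hc.smooth.differentiable (by simp) l) (hc'.smooth.differentiable (by simp) l)
  have hs : Shell (fun l => f l - f' l) (min a a') (max b b') ρ := by
    refine ⟨hc.smooth.sub hc'.smooth, lt_min hc.ha hc'.ha, max_lt hc.hb hc'.hb, ?_, ?_,
      lt_max_of_lt_left hc.hb0⟩
    · intro l hl
      have h1 : l < Real.log a := lt_of_lt_of_le hl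
        (Real.log_le_log (lt_min hc.ha hc'.ha) (min_le_left _ _))
      have h2 : l < Real.log a' := lt_of_lt_of_le hl
        (Real.log_le_log (lt_min hc.ha hc'.ha) (min_le_right _ _))
      rw [hd, hc.left1 l h1, hc'.left1 l h2, sub_self]
    · intro l hl
      have h1 : Real.log b < l := lt_of_le_of_lt
        (Real.log_le_log hc.hb0 (le_max_left _ _)) hl
      have h2 : Real.log b' < l := lt_of_le_of_lt
        (Real.log_le_log hc'.hb0 (le_max_right _ _)) hl
      rw [hd, hc.right1 l h1, hc'.right1 l h2, sub_self]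
  have hz := integral_shell_zero h hs
  have hi := integrable_Fl h hf
  have hi' := integrable_Fl h hf'
  have hsub : ∫ y in domF, Fl (fun l => f l - f' l) g y =
      (∫ y in domF, Fl f g y) - ∫ y in domF, Fl f' g y := by
    rw [← integral_sub hi hi']
    refine setIntegral_congr_fun measurableSet_domF fun y hy => ?_
    have hdd : deriv (deriv fun l => f l - f' l) (Real.log (E3 y)) =
        deriv (deriv f) (Real.log (E3 y)) - deriv (deriv f') (Real.log (E3 y)) := by
      rw [show deriv (fun l => f l - f' l) = fun l => deriv f l - deriv f' l from funext hd]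
      exact deriv_fun_sub ((contDiff_deriv hc.smooth).differentiable (by simp) _)
        ((contDiff_deriv hc'.smooth).differentiable (by simp) _)
    beta_reduce
    rw [Fl_eq (hc.smooth.sub hc'.smooth) hy.1, Fl_eq hc.smooth hy.1, Fl_eq hc'.smooth hy.1, hdd, hd]
    ring
  have hz' : ∫ y in domF, Fl (fun l => f l - f' l) g y = 0 := hz
  rw [flux_eq, flux_eq]
  linarith

end

end GK.KL
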