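import Pool.Agent.GK.KeyLimitL

/-! # Special cut-offs, positivity of the flux -/

open scoped ContDiff Topology ComplexOrder
open MeasureTheory Set Filter

namespace GK.KL

noncomputable section

variable {r : ℕ} {ρ : ℝ} {g : V 4 → Matrix (Fin 4) (Fin 4) ℂ}
    {gx : Fin 3 → V 4 → Matrix (Fin 4) (Fin 4) ℂ}

/-- the support of the weight `k` is in `(-A, A)` -/
theorem exists_radius {k : ℝ → ℝ} (hk : IsWeight k) : ∃ A, 0 < A ∧ ∀ l, A ≤ |l| → k l = 0 := by
  obtain ⟨A, hA⟩ := hk.compact.isCompact.isBounded.subset_closedBall 0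
  refine ⟨|A| + 1, by positivity, fun l hl => ?_⟩
  by_contra hcon
  have h1 : l ∈ tsupport k := subset_tsupport k hcon
  have h2 := hA h1
  rw [mem_closedBall_zero_iff, Real.norm_eq_abs] at h2
  have := le_abs_self A
  linarith

/-- the primitive of the weight -/
def kap (k : ℝ → ℝ) (A l : ℝ) : ℝ := ∫ s in (-A)..l, k s

theorem hasDerivAt_kap {k : ℝ → ℝ} (hk : IsWeight k) (A l : ℝ) :
    HasDerivAt (kap k A) (k l) l :=
  (hk.smooth.continuous.integral_hasStrictDerivAt (-A) l).hasDerivAt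

theorem deriv_kap {k : ℝ → ℝ} (hk : IsWeight k) (A : ℝ) : deriv (kap k A) = k :=
  funext fun l => (hasDerivAt_kap hk A l).deriv

theorem contDiff_kap {k : ℝ → ℝ} (hk : IsWeight k) (A : ℝ) : ContDiff ℝ ∞ (kap k A) := by
  rw [contDiff_infty_iff_deriv, deriv_kap hk]
  exact ⟨fun l => (hasDerivAt_kap hk A l).differentiableAt, hk.smooth⟩

theorem kap_left {k : ℝ → ℝ} {A : ℝ} (hA0 : 0 < A) (hA : ∀ l, A ≤ |l| → k l = 0) {l : ℝ}
    (hl : l ≤ -A) : kap k A l = 0 := by
  unfold kap
  rw [intervalIntegral.integral_congr (g := fun _ => (0 : ℝ))]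
  · simp
  · intro s hs
    rw [uIcc_of_ge hl] at hs
    refine hA s ?_
    rw [abs_of_nonpos (by linarith [hs.2])]
    linarith [hs.2]

theorem kap_right {k : ℝ → ℝ} (hk : IsWeight k) {A : ℝ} (hA : ∀ l, A ≤ |l| → k l = 0)
    {l : ℝ} (hl : A ≤ l) : kap k A l = 1 := by
  unfold kap
  rw [intervalIntegral.integral_eq_integral_of_support_subset, hk.int]
  intro s hs
  rw [Function.mem_support] at hs
  have h1 : |s| < A := by
    by_contra hcon
    exact hs (hA s (not_lt.mp hcon))
  rw [abs_lt] at h1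
  exact ⟨h1.1, by linarith [h1.2]⟩

theorem monotone_kap {k : ℝ → ℝ} (hk : IsWeight k) (A : ℝ) : Monotone (kap k A) := by
  refine monotone_of_deriv_nonneg (fun l => (hasDerivAt_kap hk A l).differentiableAt) fun l => ?_
  rw [deriv_kap hk]
  exact hk.nonneg l

theorem kap_nonneg {k : ℝ → ℝ} (hk : IsWeight k) {A : ℝ} (hA0 : 0 < A)
    (hA : ∀ l, A ≤ |l| → k l = 0) (l : ℝ) : 0 ≤ kap k A l := by
  rw [← kap_left hA0 hA (min_le_right l (-A))]
  exact monotone_kap hk A (min_le_left _ _)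

theorem kap_le_one {k : ℝ → ℝ} (hk : IsWeight k) {A : ℝ}
    (hA : ∀ l, A ≤ |l| → k l = 0) (l : ℝ) : kap k A l ≤ 1 := by
  rw [← kap_right hk hA (le_max_right l A)]
  exact monotone_kap hk A (le_max_left _ _)

/-- the standard cut-off -/
def Fcut (k : ℝ → ℝ) (A l : ℝ) : ℝ := ∫ s in A..l, (1 - kap k A s)

theorem hasDerivAt_Fcut {k : ℝ → ℝ} (hk : IsWeight k) (A l : ℝ) :
    HasDerivAt (Fcut k A) (1 - kap k A l) l :=
  ((continuous_const.sub (contDiff_kap hk A).continuous).integral_hasStrictDerivAt A l).hasDerivAt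

theorem Fcut_right {k : ℝ → ℝ} (hk : IsWeight k) {A : ℝ}
    (hA : ∀ l, A ≤ |l| → k l = 0) {l : ℝ} (hl : A ≤ l) : Fcut k A l = 0 := by
  unfold Fcut
  rw [intervalIntegral.integral_congr (g := fun _ => (0 : ℝ))]
  · simp
  · intro s hs
    rw [uIcc_of_le hl] at hs
    simp only
    rw [kap_right hk hA hs.1, sub_self]

theorem Fcut_left {k : ℝ → ℝ} (hk : IsWeight k) {A : ℝ} (hA0 : 0 < A)
    (hA : ∀ l, A ≤ |l| → k l = 0) {l : ℝ} (hl : l ≤ -A) :
    Fcut k A l = l + (Fcut k A (-A) + A) := by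
  have hi : ∀ x y, IntervalIntegrable (fun s => 1 - kap k A s) volume x y := fun x y =>
    (continuous_const.sub (contDiff_kap hk A).continuous).intervalIntegrable x y
  have h1 : Fcut k A l = Fcut k A (-A) + ∫ s in (-A)..l, (1 - kap k A s) := by
    unfold Fcut
    exact (intervalIntegral.integral_add_adjacent_intervals (hi _ _) (hi _ _)).symm
  have h2 : ∫ s in (-A)..l, (1 - kap k A s) = ∫ s in (-A)..l, (1 : ℝ) := by
    refine intervalIntegral.integral_congr fun s hs => ?_
    rw [uIcc_of_ge hl] at hs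
    change 1 - kap k A s = 1
    rw [kap_left hA0 hA hs.2, sub_zero]
  rw [h1, h2]
  simp
  ring

/-- shifted cut-off -/
def fR (k : ℝ → ℝ) (A R l : ℝ) : ℝ := Fcut k A (l + R)

theorem deriv_fR {k : ℝ → ℝ} (hk : IsWeight k) (A R : ℝ) :
    deriv (fR k A R) = fun l => 1 - kap k A (l + R) :=
  funext fun l => ((hasDerivAt_Fcut hk A (l + R)).comp_add_const l R).deriv

theorem deriv2_fR {k : ℝ → ℝ} (hk : IsWeight k) (A R : ℝ) :
    deriv (deriv (fR k A R)) = fun l => - k (l + R) := by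
  rw [deriv_fR hk]
  funext l
  have h1 := (hasDerivAt_kap hk A (l + R)).comp_add_const l R
  have h2 := h1.const_sub (1 : ℝ)
  exact h2.deriv

theorem contDiff_fR {k : ℝ → ℝ} (hk : IsWeight k) (A R : ℝ) : ContDiff ℝ ∞ (fR k A R) := by
  rw [contDiff_infty_iff_deriv, deriv_fR hk]
  refine ⟨fun l => ((hasDerivAt_Fcut hk A (l + R)).comp_add_const l R).differentiableAt, ?_⟩
  exact contDiff_const.sub ((contDiff_kap hk A).comp (contDiff_id.add contDiff_const))

theorem isCut_fR {k : ℝ → ℝ} (hk : IsWeight k) {A : ℝ} (hA0 : 0 < A)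
    (hA : ∀ l, A ≤ |l| → k l = 0) {R : ℝ} (hR : A - R < Real.log ρ) : IsCut (fR k A R) ρ := by
  refine ⟨contDiff_fR hk A R, ⟨R + (Fcut k A (-A) + A), -A - R, fun l hl => ?_⟩,
    ⟨A - R, hR, fun l hl => ?_⟩⟩
  · unfold fR
    rw [Fcut_left hk hA0 hA (by linarith)]
    ring
  · exact Fcut_right hk hA (by linarith)

/-- the three facts about the flux with a special cut-off -/
theorem flux_fR (h : LocalExc r ρ g gx) {k : ℝ → ℝ} (hk : IsWeight k) {A : ℝ} (hA0 : 0 < A)
    (hA : ∀ l, A ≤ |l| → k l = 0) {R : ℝ} (hR : A - R < Real.log ρ) :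
    flux (fR k A R) g ≤ ∫ y in domF, k (Real.log (E3 y) + R) * S2 g y ∧
    - ∫ y in domE 0 (Real.exp (A - R)), S1 g y ≤ flux (fR k A R) g := by
  set b := Real.exp (A - R) with hb
  have hb0 : 0 < b := Real.exp_pos _
  have hbρ : b < ρ := by
    rw [hb, ← Real.exp_log h.ρ_pos]
    exact Real.exp_lt_exp.mpr hR
  have hlb : Real.log b = A - R := Real.log_exp _
  have hk1 : ∀ l, |1 - kap k A l| ≤ 1 := fun l => by
    have h1 := kap_nonneg hk hA0 hA l
    have h2 := kap_le_one hk hA l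
    rw [abs_le]
    constructor <;> linarith
  have hi1' := integrable_T1 h (φ := fun l => 1 - kap k A (l + R))
    (continuous_const.sub ((contDiff_kap hk A).continuous.comp (continuous_add_const R)))
    hb0 hbρ (B := 1) (fun l _ => hk1 _)
  have hz1 : ∀ y ∈ domF, b < E3 y → (1 - kap k A (Real.log (E3 y) + R)) * S1 g y = 0 := by
    intro y _ hy
    have h1 := Real.log_lt_log hb0 hy
    rw [hlb] at h1
    rw [kap_right hk hA (by linarith), sub_self, zero_mul]
  have hi1 := integrable_of_domE hi1' hz1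
  have ha : 0 < Real.exp (-A - R) := Real.exp_pos _
  have hi2' := integrable_T2 h (φ := fun l => k (l + R)) (a := Real.exp (-A - R)) (b := b)
    (hk.smooth.continuous.comp (continuous_add_const R)) ha hbρ (fun l hl => by
      rw [Real.log_exp] at hl
      refine hA _ ?_
      rw [abs_of_nonpos (by linarith)]
      linarith)
  have hz2 : ∀ y ∈ domF, b < E3 y → k (Real.log (E3 y) + R) * S2 g y = 0 := by
    intro y _ hy
    have h1 := Real.log_lt_log hb0 hy
    rw [hlb] at h1
    rw [hA _ (by rw [abs_of_nonneg (by linarith)]; linarith), zero_mul]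
  have hi2 := integrable_of_domE hi2' hz2
  have hFl : flux (fR k A R) g = (∫ y in domF, k (Real.log (E3 y) + R) * S2 g y) -
      ∫ y in domF, (1 - kap k A (Real.log (E3 y) + R)) * S1 g y := by
    rw [flux_eq, ← integral_sub hi2 hi1, ← integral_neg]
    refine setIntegral_congr_fun measurableSet_domF fun y hy => ?_
    beta_reduce
    rw [Fl_eq (contDiff_fR hk A R) hy.1, deriv2_fR hk, deriv_fR hk]
    ring
  have hn1 : 0 ≤ ∫ y in domF, (1 - kap k A (Real.log (E3 y) + R)) * S1 g y := by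
    refine setIntegral_nonneg measurableSet_domF fun y hy => ?_
    by_cases hy1 : b < E3 y
    · rw [hz1 y hy hy1]
    · have h1 := kap_le_one hk hA (Real.log (E3 y) + R)
      exact mul_nonneg (by linarith) (S1_nonneg h hy.1 (lt_of_le_of_lt (not_lt.mp hy1) hbρ))
  have hn2 : 0 ≤ ∫ y in domF, k (Real.log (E3 y) + R) * S2 g y := by
    refine setIntegral_nonneg measurableSet_domF fun y hy => ?_
    by_cases hy1 : b < E3 y
    · rw [hz2 y hy hy1]
    · exact mul_nonneg (hk.nonneg _) (S2_nonneg h hy.1 (lt_of_le_of_lt (not_lt.mp hy1) hbρ))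
  have hle1 : ∫ y in domF, (1 - kap k A (Real.log (E3 y) + R)) * S1 g y ≤
      ∫ y in domE 0 b, S1 g y := by
    have e1 : ∫ y in domF, (1 - kap k A (Real.log (E3 y) + R)) * S1 g y =
        ∫ y in domE 0 b, (1 - kap k A (Real.log (E3 y) + R)) * S1 g y := by
      refine setIntegral_eq_of_subset_of_forall_diff_eq_zero measurableSet_domF
        (domE_subset_domF b) ?_
      rintro y ⟨hy1, hy2⟩
      refine hz1 y hy1 ?_
      by_contra hcon
      exact hy2 ⟨hy1.1, not_lt.mp hcon, hy1.2⟩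
    rw [e1]
    refine setIntegral_mono_on hi1' (integrable_S1 h hb0.le hbρ) (measurableSet_domE 0 b) ?_
    intro y hy
    have h1 := kap_nonneg hk hA0 hA (Real.log (E3 y) + R)
    have h2 := S1_nonneg h hy.1 (lt_of_le_of_lt hy.2.1 hbρ)
    nlinarith
  constructor
  · linarith
  · linarith

theorem exists_weight : ∃ k, IsWeight k := by
  let f : ContDiffBump (0 : ℝ) := ⟨1, 2, by norm_num, by norm_num⟩
  exact ⟨f.normed volume, f.contDiff_normed, f.hasCompactSupport_normed, f.nonneg_normed,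
    f.integral_normed⟩

theorem tendsto_S1 (h : LocalExc r ρ g gx) (A : ℝ) :
    Tendsto (fun n : ℕ => ∫ y in domE 0 (Real.exp (A - n)), S1 g y) atTop (𝓝 0) := by
  have hanti : Antitone fun n : ℕ => domE 0 (Real.exp (A - n)) := by
    intro m n hmn y hy
    refine ⟨hy.1, hy.2.1.trans (Real.exp_le_exp.mpr ?_), hy.2.2⟩
    have : (m : ℝ) ≤ n := by exact_mod_cast hmn
    linarith
  have hlim : Tendsto (fun n : ℕ => Real.exp (A - n)) atTop (𝓝 0) := by
    refine Real.tendsto_exp_atBot.comp ?_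
    exact tendsto_atBot_add_const_left _ _ (tendsto_neg_atBot_iff.mpr tendsto_natCast_atTop_atTop)
  have hfi : ∃ n : ℕ, IntegrableOn (S1 g) (domE 0 (Real.exp (A - n))) := by
    obtain ⟨n, hn⟩ := (hlim.eventually (gt_mem_nhds h.ρ_pos)).exists
    exact ⟨n, integrable_S1 h (Real.exp_pos _).le hn⟩
  have key := tendsto_setIntegral_of_antitone (fun n : ℕ => measurableSet_domE 0 _) hanti hfi
  have hempty : ⋂ n : ℕ, domE 0 (Real.exp (A - n)) = ∅ := by
    rw [eq_empty_iff_forall_notMem]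
    intro y hy
    rw [mem_iInter] at hy
    have h0 : 0 < E3 y := (hy 0).1
    obtain ⟨n, hn⟩ := (hlim.eventually (gt_mem_nhds h0)).exists
    exact absurd (hy n).2.1 (not_le.mpr hn)
  rw [hempty] at key
  simpa using key

theorem flux_nonneg' (h : LocalExc r ρ g gx) {f : ℝ → ℝ} (hf : IsCut f ρ) : 0 ≤ flux f g := by
  obtain ⟨k, hk⟩ := exists_weight
  obtain ⟨A, hA0, hA⟩ := exists_radius hk
  have h1 := (tendsto_S1 h A).neg
  rw [neg_zero] at h1
  refine le_of_tendsto h1 ?_
  have h2 : ∀ᶠ n : ℕ in atTop, A - Real.log ρ < n :=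
    tendsto_natCast_atTop_atTop.eventually (eventually_gt_atTop _)
  filter_upwards [h2] with n hn
  have hR : A - (n : ℝ) < Real.log ρ := by linarith
  rw [flux_indep' h hf (isCut_fR hk hA0 hA hR)]
  exact (flux_fR h hk hA0 hA hR).2

end

end GK.KL
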