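import Pool.Agent.GK.KeyLimitM

/-! # Rank one perturbations of the determinant, scaling of the flux -/

open scoped ContDiff Topology ComplexOrder
open MeasureTheory Set Filter

namespace GK.KL

noncomputable section

theorem det_add_vec_unit {A : Matrix (Fin 4) (Fin 4) ℂ} (hA : IsUnit A.det) (u w : V 4) :
    (A + Matrix.vecMulVec u w).det = A.det + pair A.adjugate (Matrix.vecMulVec u w) := by
  have h1 := Matrix.det_add_replicateCol_mul_replicateRow (ι := Unit) hA u w
  rw [← Matrix.vecMulVec_eq] at h1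
  rw [h1]
  have h2 : (Matrix.replicateRow Unit w * A⁻¹ * Matrix.replicateCol Unit u) () () =
      ∑ j, ∑ k, A⁻¹ k j * (u j * w k) := by
    simp only [Matrix.mul_apply, Matrix.replicateRow_apply, Matrix.replicateCol_apply,
      Finset.sum_mul]
    refine Finset.sum_congr rfl fun j _ => Finset.sum_congr rfl fun k _ => ?_
    ring
  have h3 : (1 + Matrix.replicateRow Unit w * A⁻¹ * Matrix.replicateCol Unit u).det =
      1 + ∑ j, ∑ k, A⁻¹ k j * (u j * w k) := by
    rw [Matrix.det_unique, Matrix.add_apply, ← h2]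
    simp
  rw [h3, mul_add, mul_one]
  congr 1
  rw [Finset.mul_sum, pair]
  refine Finset.sum_congr rfl fun j _ => ?_
  rw [Finset.mul_sum]
  refine Finset.sum_congr rfl fun k _ => ?_
  have e := Ring.mul_inverse_cancel _ hA
  rw [Matrix.inv_def, Matrix.smul_apply, Matrix.vecMulVec_apply, smul_eq_mul]
  linear_combination (A.adjugate k j * (u j * w k)) * e

theorem eventually_det_ne (A : Matrix (Fin 4) (Fin 4) ℂ) :
    ∀ᶠ t : ℂ in 𝓝[≠] 0, (A + t • (1 : Matrix (Fin 4) (Fin 4) ℂ)).det ≠ 0 := by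
  have hp : (-A).charpoly ≠ 0 := (Matrix.charpoly_monic (-A)).ne_zero
  have hfin : {t : ℂ | (-A).charpoly.IsRoot t}.Finite := Polynomial.finite_setOf_isRoot hp
  have hcl : IsClosed ({t : ℂ | (-A).charpoly.IsRoot t} \ {0}) :=
    (hfin.subset diff_subset).isClosed
  have hmem : ({t : ℂ | (-A).charpoly.IsRoot t} \ {0})ᶜ ∈ 𝓝 (0 : ℂ) :=
    hcl.isOpen_compl.mem_nhds (by simp)
  filter_upwards [mem_nhdsWithin_of_mem_nhds hmem, self_mem_nhdsWithin] with t ht ht0 hdet
  apply ht
  refine ⟨?_, ht0⟩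
  rw [mem_setOf_eq, Polynomial.IsRoot, Matrix.eval_charpoly]
  have : Matrix.scalar (Fin 4) t - -A = A + t • (1 : Matrix (Fin 4) (Fin 4) ℂ) := by
    rw [sub_neg_eq_add, add_comm, Matrix.scalar_apply, Matrix.smul_one_eq_diagonal]
  rw [this]
  exact hdet

theorem det_add_vec (A : Matrix (Fin 4) (Fin 4) ℂ) (u w : V 4) :
    (A + Matrix.vecMulVec u w).det = A.det + pair A.adjugate (Matrix.vecMulVec u w) := by
  have hc : Continuous fun t : ℂ => A + t • (1 : Matrix (Fin 4) (Fin 4) ℂ) := by fun_prop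
  have h1 : Tendsto (fun t : ℂ => (A + t • (1 : Matrix (Fin 4) (Fin 4) ℂ) +
      Matrix.vecMulVec u w).det) (𝓝[≠] 0) (𝓝 (A + Matrix.vecMulVec u w).det) := by
    have : Continuous fun t : ℂ => (A + t • (1 : Matrix (Fin 4) (Fin 4) ℂ) +
        Matrix.vecMulVec u w).det := (hc.add continuous_const).matrix_det
    have h := this.tendsto 0
    simp only [zero_smul, add_zero] at h
    exact h.mono_left nhdsWithin_le_nhds
  have h2 : Tendsto (fun t : ℂ => (A + t • (1 : Matrix (Fin 4) (Fin 4) ℂ)).det +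
      pair (A + t • (1 : Matrix (Fin 4) (Fin 4) ℂ)).adjugate (Matrix.vecMulVec u w)) (𝓝[≠] 0)
      (𝓝 (A.det + pair A.adjugate (Matrix.vecMulVec u w))) := by
    have : Continuous fun t : ℂ => (A + t • (1 : Matrix (Fin 4) (Fin 4) ℂ)).det +
        pair (A + t • (1 : Matrix (Fin 4) (Fin 4) ℂ)).adjugate (Matrix.vecMulVec u w) := by
      refine hc.matrix_det.add ?_
      unfold pair
      refine continuous_finset_sum _ fun j _ => continuous_finset_sum _ fun k _ => ?_
      exact (hc.matrix_adjugate.matrix_elem k j).mul continuous_const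
    have h := this.tendsto 0
    simp only [zero_smul, add_zero] at h
    exact h.mono_left nhdsWithin_le_nhds
  refine tendsto_nhds_unique h1 (h2.congr' ?_)
  filter_upwards [eventually_det_ne A] with t ht
  exact (det_add_vec_unit (isUnit_iff_ne_zero.mpr ht) u w).symm

variable {r : ℕ} {ρ : ℝ} {g : V 4 → Matrix (Fin 4) (Fin 4) ℂ}
    {gx : Fin 3 → V 4 → Matrix (Fin 4) (Fin 4) ℂ}

theorem det_cone {a : V 4 → Matrix (Fin 4) (Fin 4) ℂ} (ha : Cone a) {y : V 4} (hy : 0 < E3 y) :
    (a y).det = 0 := by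
  rw [← Matrix.exists_vecMul_eq_zero_iff]
  refine ⟨fun i => if i = 3 then 0 else y i, ?_, ?_⟩
  · intro hcon
    obtain ⟨j, hj⟩ := exists_ne_zero hy
    have := congrFun hcon j.castSucc
    simp only [castSucc_ne_three, if_false, Pi.zero_apply] at this
    exact hj this
  · funext k
    have h1 := ha.kernel y hy k
    rw [Matrix.vecMul, dotProduct, Fin.sum_univ_castSucc]
    have h3 : (Fin.last 3 : Fin 4) = 3 := rfl
    simp only [castSucc_ne_three, if_false, h3, if_true, zero_mul, add_zero]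
    exact h1

theorem det_addRad {a : V 4 → Matrix (Fin 4) (Fin 4) ℂ} (ha : Cone a) {y : V 4} (hy : 0 < E3 y) :
    (addRad a y).det.re = S2 a y := by
  rw [addRad, det_add_vec, det_cone ha hy, zero_add, S2]

theorem pull_vecMulVec (J : Matrix (Fin 4) (Fin 4) ℂ) (v : V 4) :
    pull J (Matrix.vecMulVec v (star v)) =
      Matrix.vecMulVec (J.transpose.mulVec v) (star (J.transpose.mulVec v)) := by
  rw [pull, Matrix.mul_vecMulVec, Matrix.vecMulVec_mul, map_star_eq, Matrix.star_mulVec]

theorem transpose_scaleMat_rad {c : ℝ} (hc : c ≠ 0) (y : V 4) :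
    (scaleMat c).transpose.mulVec (rad (scale c y)) = rad y := by
  rw [scaleMat, Matrix.diagonal_transpose]
  funext i
  rw [Matrix.mulVec_diagonal]
  have hcc : (c : ℂ) ≠ 0 := by exact_mod_cast hc
  by_cases hi : i = 3
  · subst hi; simp [rad_three]
  · have e : (![(c : ℂ), c, c, 1] : Fin 4 → ℂ) i = c := by
      fin_cases i <;> first | rfl | exact absurd rfl hi
    rw [e, rad, rad, if_neg hi, if_neg hi, E3_scale, scale_of_ne _ _ hi, star_mul']
    have h1 : star (c : ℂ) = c := by simp
    rw [h1, Complex.normSq_ofReal]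
    by_cases h0 : E3 y = 0
    · rw [h0]; simp
    · have : ((E3 y : ℝ) : ℂ) ≠ 0 := by exact_mod_cast h0
      push_cast
      field_simp

theorem det_scaleMat (c : ℂ) : (scaleMat c).det = c ^ 3 := by
  rw [scaleMat, Matrix.det_diagonal, Fin.prod_univ_four]
  simp
  ring

/-- the pulled back form -/
def gsc (g : V 4 → Matrix (Fin 4) (Fin 4) ℂ) (c : ℝ) (y : V 4) : Matrix (Fin 4) (Fin 4) ℂ :=
  pull (scaleMat c) (g (scale c y))

theorem S2_scale (g : V 4 → Matrix (Fin 4) (Fin 4) ℂ) {c : ℝ} (hc : c ≠ 0) (y : V 4) :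
    S2 (gsc g c) y = c ^ 6 * S2 g (scale c y) := by
  have h1 : Matrix.vecMulVec (rad y) (star (rad y)) =
      pull (scaleMat c) (Matrix.vecMulVec (rad (scale c y)) (star (rad (scale c y)))) := by
    rw [pull_vecMulVec, transpose_scaleMat_rad hc]
  rw [S2, gsc, h1, pair_pull, det_scaleMat, Complex.re_ofReal_mul, S2]
  congr 1
  rw [map_pow, Complex.normSq_ofReal]
  ring

theorem scale_eq_mulVec (c : ℂ) : scale c = fun y => (scaleMat c).mulVec y := by
  funext y i
  rw [scaleMat, Matrix.mulVec_diagonal]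
  fin_cases i <;> simp [scale]

/-- the real derivative of `scale c` -/
def scaleD (c : ℂ) : V 4 →L[ℝ] V 4 :=
  (LinearMap.toContinuousLinearMap (Matrix.toLin' (scaleMat c))).restrictScalars ℝ

theorem hasFDerivAt_scale (c : ℂ) (y : V 4) : HasFDerivAt (scale c) (scaleD c) y := by
  have h1 : HasFDerivAt (fun y => LinearMap.toContinuousLinearMap (Matrix.toLin' (scaleMat c)) y)
      (LinearMap.toContinuousLinearMap (Matrix.toLin' (scaleMat c))) y :=
    (LinearMap.toContinuousLinearMap (Matrix.toLin' (scaleMat c))).hasFDerivAt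
  have h2 : scale c = fun y => LinearMap.toContinuousLinearMap (Matrix.toLin' (scaleMat c)) y := by
    rw [scale_eq_mulVec]
    rfl
  rw [h2]
  exact h1.restrictScalars ℝ

theorem det_scaleD (c : ℂ) : (scaleD c).det = Complex.normSq (c ^ 3) := by
  rw [← det_scaleMat, ← LinearMap.det_toLin', ← Algebra.norm_complex_apply,
    ← LinearMap.det_restrictScalars]
  rfl

theorem scale_scale (c d : ℂ) (y : V 4) : scale c (scale d y) = scale (c * d) y := by
  funext i
  fin_cases i <;> simp [scale, mul_assoc]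

theorem scale_one (y : V 4) : scale 1 y = y := by
  funext i
  fin_cases i <;> simp [scale]

theorem scale_mem_domF {c : ℂ} (hc : c ≠ 0) {y : V 4} : scale c y ∈ domF ↔ y ∈ domF := by
  have hn : 0 < Complex.normSq c := Complex.normSq_pos.mpr hc
  simp only [domF, mem_setOf_eq, E3_scale, scale_three, mul_pos_iff_of_pos_left hn]

theorem image_scale {c : ℂ} (hc : c ≠ 0) : scale c '' domF = domF := by
  ext y
  constructor
  · rintro ⟨z, hz, rfl⟩
    exact (scale_mem_domF hc).mpr hz
  · intro hy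
    refine ⟨scale c⁻¹ y, (scale_mem_domF (inv_ne_zero hc)).mpr hy, ?_⟩
    rw [scale_scale, mul_inv_cancel₀ hc, scale_one]

theorem integral_scale (H : V 4 → ℝ) {c : ℝ} (hc : c ≠ 0) :
    ∫ y in domF, H y = ∫ y in domF, c ^ 6 * H (scale c y) := by
  have hcc : (c : ℂ) ≠ 0 := by exact_mod_cast hc
  have hinj : InjOn (scale (c : ℂ)) domF := by
    intro y _ z _ hyz
    have h1 : scale (c : ℂ)⁻¹ (scale c y) = scale (c : ℂ)⁻¹ (scale c z) := by rw [hyz]
    rwa [scale_scale, scale_scale, inv_mul_cancel₀ hcc, scale_one, scale_one] at h1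
  have h1 := integral_image_eq_integral_abs_det_fderiv_smul volume measurableSet_domF
    (fun y _ => (hasFDerivAt_scale (c : ℂ) y).hasFDerivWithinAt) hinj H
  rw [image_scale hcc] at h1
  rw [h1]
  refine setIntegral_congr_fun measurableSet_domF fun y _ => ?_
  beta_reduce
  rw [det_scaleD, map_pow, Complex.normSq_ofReal, smul_eq_mul,
    abs_of_nonneg (pow_nonneg (mul_self_nonneg c) 3)]
  ring

/-- the flux bound after scaling -/
theorem integral_S2_scale (g : V 4 → Matrix (Fin 4) (Fin 4) ℂ) (k : ℝ → ℝ) (R : ℝ) :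
    ∫ y in domF, k (Real.log (E3 y) + R) * S2 g y =
      ∫ y in domF, k (Real.log (E3 y)) * S2 (gsc g (Real.exp (-R / 2))) y := by
  have hc : Real.exp (-R / 2) ≠ 0 := (Real.exp_pos _).ne'
  rw [integral_scale _ hc]
  refine setIntegral_congr_fun measurableSet_domF fun y hy => ?_
  beta_reduce
  rw [S2_scale g hc, E3_scale, Complex.normSq_ofReal,
    Real.log_mul (mul_ne_zero hc hc) hy.1.ne', Real.log_mul hc hc, Real.log_exp]
  have e : -R / 2 + -R / 2 + Real.log (E3 y) + R = Real.log (E3 y) := by ring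
  rw [e]
  ring

end

end GK.KL
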