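import Pool.Agent.GK.KeyLimitN

/-! # The flux is at most a quarter of the shell functional -/

open scoped ContDiff Topology ComplexOrder
open MeasureTheory Set Filter

namespace GK.KL

noncomputable section

variable {r : ℕ} {ρ : ℝ} {g : V 4 → Matrix (Fin 4) (Fin 4) ℂ}
    {gx : Fin 3 → V 4 → Matrix (Fin 4) (Fin 4) ℂ}

/-- the rank one pairing as a function of matrix and point -/
def psi (A : Matrix (Fin 4) (Fin 4) ℂ) (y : V 4) : ℝ :=
  (pair A.adjugate (Matrix.vecMulVec (rad y) (star (rad y)))).re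

theorem S2_eq_psi (g : V 4 → Matrix (Fin 4) (Fin 4) ℂ) (y : V 4) : S2 g y = psi (g y) y := rfl

theorem continuousOn_psi : ContinuousOn (fun p : Matrix (Fin 4) (Fin 4) ℂ × V 4 => psi p.1 p.2)
    {p | 0 < E3 p.2} := by
  unfold psi pair
  refine Complex.continuous_re.comp_continuousOn ?_
  refine continuousOn_finset_sum _ fun j _ => continuousOn_finset_sum _ fun k _ => ?_
  refine ContinuousOn.mul ?_ ?_
  · have h1 : Continuous fun A : Matrix (Fin 4) (Fin 4) ℂ => A.adjugate k j :=
      (Continuous.matrix_adjugate continuous_id).matrix_elem k j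
    exact (h1.comp continuous_fst).continuousOn
  · simp only [Matrix.vecMulVec_apply, Pi.star_apply]
    have h1 : ∀ i, ContinuousOn (fun p : Matrix (Fin 4) (Fin 4) ℂ × V 4 => rad p.2 i)
        {p | 0 < E3 p.2} := fun i =>
      (continuous_rad i).comp continuous_snd.continuousOn (fun p hp => hp)
    exact (h1 j).mul (continuous_star.comp_continuousOn (h1 k))

theorem shellK_sub {a b c : ℝ} (ha : 0 < a) : shellK a b c ⊆ {y | 0 < E3 y} := fun _ hy =>
  lt_of_lt_of_le ha hy.1

theorem eq_cone (h : LocalExc r ρ g gx) {a : V 4 → Matrix (Fin 4) (Fin 4) ℂ}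
    (hl : ∀ K : Set (V 4), IsCompact K → K ⊆ {y | 0 < E3 y} → ∀ j k,
      TendstoUniformlyOn (fun (ε : ℝ) y => pull (scaleMat ε) (g (scale ε y)) j k)
        (fun y => a y j k) (𝓝[>] 0) K) {y : V 4} (hy : 0 < E3 y) : a y = coneForm r gx y := by
  obtain ⟨j, hj⟩ := exists_ne_zero hy
  ext p q
  have h1 := (hl {y} isCompact_singleton (by simpa using hy) p q).tendsto_at (mem_singleton y)
  have h2 := tendsto_scale_form h j hj p q
  rw [← coneForm_eq h j hj] at h2
  exact tendsto_nhds_unique h1 h2

theorem continuousOn_S2' {K : Set (V 4)} (hK0 : K ⊆ {y | 0 < E3 y})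
    {G : V 4 → Matrix (Fin 4) (Fin 4) ℂ} (hG : ∀ i j, ContinuousOn (fun y => G y i j) K) :
    ContinuousOn (S2 G) K := by
  have h1 := continuousOn_pair hG
    (L := fun y => Matrix.vecMulVec (rad y) (star (rad y))) (fun a b => by
      simp only [Matrix.vecMulVec_apply, Pi.star_apply]
      exact ((continuous_rad a).mono hK0).mul
        (continuous_star.comp_continuousOn ((continuous_rad b).mono hK0)))
  exact Complex.continuous_re.comp_continuousOn h1

/-- convergence of the scaled integrals -/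
theorem tendsto_flux (h : LocalExc r ρ g gx) {a : V 4 → Matrix (Fin 4) (Fin 4) ℂ} (ha : Cone a)
    (hl : ∀ K : Set (V 4), IsCompact K → K ⊆ {y | 0 < E3 y} → ∀ j k,
      TendstoUniformlyOn (fun (ε : ℝ) y => pull (scaleMat ε) (g (scale ε y)) j k)
        (fun y => a y j k) (𝓝[>] 0) K) {k : ℝ → ℝ} (hk : IsWeight k) {A : ℝ}
    (hA : ∀ l, A ≤ |l| → k l = 0) :
    Tendsto (fun ε : ℝ => ∫ y in domF, k (Real.log (E3 y)) * S2 (gsc g ε) y) (𝓝[>] 0)
      (𝓝 (∫ y in domF, k (Real.log (E3 y)) * S2 a y)) := by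
  set K : Set (V 4) := shellK (Real.exp (-A)) (Real.exp A) 2 with hK
  have hKc : IsCompact K := isCompact_shellK _ _ _
  have hK0 : K ⊆ {y | 0 < E3 y} := shellK_sub (Real.exp_pos _)
  have hout : ∀ y ∈ domF, y ∉ K → k (Real.log (E3 y)) = 0 := by
    intro y hy hyK
    refine hA _ ?_
    by_contra hcon
    rw [not_le, abs_lt] at hcon
    apply hyK
    refine ⟨?_, ?_, box_norm hy.2 le_rfl⟩
    · rw [← Real.exp_log hy.1]
      exact Real.exp_le_exp.mpr hcon.1.le
    · rw [← Real.exp_log hy.1]
      exact Real.exp_le_exp.mpr hcon.2.le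
  -- bound of the entries of `a`
  have hac : ∀ i j, ContinuousOn (fun y => a y i j) K := fun i j =>
    (kf_cont ha.kform i j).mono hK0
  have hM : ∃ M, ∀ i j, ∀ y ∈ K, ‖a y i j‖ ≤ M := by
    have h1 : ∀ i j, ∃ M, ∀ y ∈ K, ‖a y i j‖ ≤ M := fun i j =>
      hKc.exists_bound_of_continuousOn (hac i j)
    choose M hM using h1
    refine ⟨∑ i, ∑ j, |M i j|, fun i j y hy => (hM i j y hy).trans ?_⟩
    calc M i j ≤ |M i j| := le_abs_self _
      _ ≤ ∑ j, |M i j| := Finset.single_le_sum (f := fun j => |M i j|)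
          (fun j _ => abs_nonneg _) (Finset.mem_univ j)
      _ ≤ ∑ i, ∑ j, |M i j| := Finset.single_le_sum (f := fun i => ∑ j, |M i j|)
          (fun i _ => Finset.sum_nonneg fun j _ => abs_nonneg _) (Finset.mem_univ i)
  obtain ⟨M, hM⟩ := hM
  -- compact set of matrices
  set 𝒜 : Set (Matrix (Fin 4) (Fin 4) ℂ) :=
    {B | ∀ i j, B i j ∈ Metric.closedBall (0 : ℂ) (M + 1)} with h𝒜
  have h𝒜c : IsCompact 𝒜 := by
    have : 𝒜 = Set.pi univ fun _ : Fin 4 => Set.pi univ fun _ : Fin 4 =>
        Metric.closedBall (0 : ℂ) (M + 1) := by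
      ext B
      exact ⟨fun h i _ j _ => h i j, fun h i j => h i trivial j trivial⟩
    rw [this]
    exact isCompact_univ_pi fun _ => isCompact_univ_pi fun _ => isCompact_closedBall _ _
  obtain ⟨C, hC⟩ := (h𝒜c.prod hKc).exists_bound_of_continuousOn
    (continuousOn_psi.mono fun p hp => hK0 hp.2)
  obtain ⟨D, hD⟩ := hk.compact.exists_bound_of_continuous hk.smooth.continuous
  -- eventually the entries are in the compact set
  have hev : ∀ᶠ ε : ℝ in 𝓝[>] 0, ∀ y ∈ K, gsc g ε y ∈ 𝒜 := by
    have h1 : ∀ i j, ∀ᶠ ε : ℝ in 𝓝[>] 0, ∀ y ∈ K, dist (a y i j) (gsc g ε y i j) < 1 := fun i j =>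
      Metric.tendstoUniformlyOn_iff.mp (hl K hKc hK0 i j) 1 one_pos
    have h2 : ∀ᶠ ε : ℝ in 𝓝[>] 0, ∀ i j, ∀ y ∈ K, dist (a y i j) (gsc g ε y i j) < 1 :=
      eventually_all.mpr fun i => eventually_all.mpr fun j => h1 i j
    filter_upwards [h2] with ε hε y hy i j
    rw [mem_closedBall_zero_iff]
    have h3 := hε i j y hy
    rw [dist_comm, dist_eq_norm] at h3
    calc ‖gsc g ε y i j‖ = ‖(gsc g ε y i j - a y i j) + a y i j‖ := by ring_nf
      _ ≤ ‖gsc g ε y i j - a y i j‖ + ‖a y i j‖ := norm_add_le _ _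
      _ ≤ M + 1 := by linarith [hM i j y hy]
  have hev2 : ∀ᶠ ε : ℝ in 𝓝[>] 0, ContinuousOn (fun y => k (Real.log (E3 y)) *
      S2 (gsc g ε) y) K := by
    have h1 : ∀ᶠ ε : ℝ in 𝓝[>] 0, ε * ε * Real.exp A < ρ := by
      have hc : Continuous fun ε : ℝ => ε * ε * Real.exp A := by fun_prop
      have h2 := hc.tendsto 0
      simp only [zero_mul] at h2
      exact (h2.mono_left nhdsWithin_le_nhds).eventually (gt_mem_nhds h.ρ_pos)
    filter_upwards [h1, self_mem_nhdsWithin] with ε hε hpos
    have hε0 : (ε : ℂ) ≠ 0 := by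
      have : (0 : ℝ) < ε := hpos
      exact_mod_cast this.ne'
    have hsc : Continuous (scale (ε : ℂ)) := by
      rw [continuous_iff_continuousAt]
      exact fun y => (hasFDerivAt_scale (ε : ℂ) y).continuousAt
    have hmap : MapsTo (scale (ε : ℂ)) K {y | 0 < E3 y ∧ E3 y < ρ} := by
      intro y hy
      refine ⟨scale_E3_pos hε0 (hK0 hy), ?_⟩
      rw [E3_scale, Complex.normSq_ofReal]
      calc ε * ε * E3 y ≤ ε * ε * Real.exp A :=
            mul_le_mul_of_nonneg_left hy.2.1 (mul_self_nonneg ε)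
        _ < ρ := hε
    have hent : ∀ i j, ContinuousOn (fun y => gsc g ε y i j) K := by
      intro i j
      simp only [gsc, pull_apply]
      refine continuousOn_finset_sum _ fun d _ => ContinuousOn.mul ?_ continuousOn_const
      refine continuousOn_finset_sum _ fun c _ => ContinuousOn.mul continuousOn_const ?_
      exact (kf_cont h.kform c d).comp hsc.continuousOn hmap
    exact (hk.smooth.continuous.comp_continuousOn (continuousOn_log.mono hK0)).mul
      (continuousOn_S2' hK0 hent)
  refine tendsto_integral_filter_of_dominated_convergence (K.indicator fun _ => D * C) ?_ ?_ ?_ ?_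
  · filter_upwards [hev2] with ε hε
    have h1 : AEStronglyMeasurable (fun y => k (Real.log (E3 y)) * S2 (gsc g ε) y)
        (volume.restrict K) := hε.aestronglyMeasurable hKc.measurableSet
    have h2 : AEStronglyMeasurable (K.indicator fun y => k (Real.log (E3 y)) * S2 (gsc g ε) y)
        volume := (aestronglyMeasurable_indicator_iff hKc.measurableSet).mpr h1
    refine h2.restrict.congr ?_
    filter_upwards [ae_restrict_mem measurableSet_domF] with y hy
    by_cases hyK : y ∈ K
    · rw [indicator_of_mem hyK]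
    · rw [indicator_of_notMem hyK, hout y hy hyK, zero_mul]
  · filter_upwards [hev] with ε hε
    filter_upwards [ae_restrict_mem measurableSet_domF] with y hy
    by_cases hyK : y ∈ K
    · rw [indicator_of_mem hyK, norm_mul]
      have h1 := hC (gsc g ε y, y) ⟨hε y hyK, hyK⟩
      exact mul_le_mul (hD _) h1 (norm_nonneg _) ((norm_nonneg _).trans (hD 0))
    · rw [indicator_of_notMem hyK, hout y hy hyK, zero_mul, norm_zero]
  · have h1 : Integrable (K.indicator fun _ : V 4 => D * C) :=
      (integrable_indicator_iff hKc.measurableSet).mpr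
        (integrableOn_const hKc.measure_lt_top.ne)
    exact h1.integrableOn
  · filter_upwards [ae_restrict_mem measurableSet_domF] with y hy
    have h1 : Tendsto (fun ε : ℝ => gsc g ε y) (𝓝[>] 0) (𝓝 (a y)) := by
      refine tendsto_pi_nhds.mpr fun i => tendsto_pi_nhds.mpr fun j => ?_
      exact (hl {y} isCompact_singleton (by simpa using hy.1) i j).tendsto_at (mem_singleton y)
    refine Tendsto.mul tendsto_const_nhds ?_
    have h2 : ContinuousAt (fun B => psi B y) (a y) := by
      have h3 : Continuous fun B : Matrix (Fin 4) (Fin 4) ℂ => psi B y := by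
        unfold psi pair
        refine Complex.continuous_re.comp ?_
        refine continuous_finset_sum _ fun j _ => continuous_finset_sum _ fun k _ => ?_
        exact ((Continuous.matrix_adjugate continuous_id).matrix_elem k j).mul continuous_const
      exact h3.continuousAt
    exact h2.tendsto.comp h1

end

end GK.KL
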