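import Pool.Agent.GK.KeyLimitO

/-! # The flux is at most a quarter of the shell functional: conclusion -/

open scoped ContDiff Topology ComplexOrder
open MeasureTheory Set Filter

namespace GK.KL

noncomputable section

variable {r : ℕ} {ρ : ℝ} {g : V 4 → Matrix (Fin 4) (Fin 4) ℂ}
    {gx : Fin 3 → V 4 → Matrix (Fin 4) (Fin 4) ℂ}

theorem normSq_det_twistMat (p q : ℤ) : Complex.normSq (twistMat p q).det = 1 := by
  have hd : (twistMat p q).det * (twistMat p q).det = 1 := by
    rw [← Matrix.det_mul, twistMat_mul_self, Matrix.det_one]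
  have h1 : Complex.normSq (twistMat p q).det * Complex.normSq (twistMat p q).det = 1 := by
    rw [← Complex.normSq_mul, hd, Complex.normSq_one]
  nlinarith [Complex.normSq_nonneg (twistMat p q).det]

theorem transpose_twistMat_rad (p q : ℤ) (y : V 4) :
    (twistMat p q).transpose.mulVec (rad (twist p q y)) = rad y := by
  rw [twistMat, Matrix.diagonal_transpose]
  funext i
  rw [Matrix.mulVec_diagonal, rad_twist]
  have e : (![(-1) ^ p, (-1) ^ q, 1, 1] : Fin 4 → ℂ) i = twistMat p q i i := by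
    rw [twistMat, Matrix.diagonal_apply_eq]
  rw [e, ← mul_assoc, twistMat_sq, one_mul]

theorem S2_twist {a : V 4 → Matrix (Fin 4) (Fin 4) ℂ} (p q : ℤ) {y : V 4}
    (ht : a y = pull (twistMat p q) (a (twist p q y))) : S2 a (twist p q y) = S2 a y := by
  have h1 : Matrix.vecMulVec (rad y) (star (rad y)) = pull (twistMat p q)
      (Matrix.vecMulVec (rad (twist p q y)) (star (rad (twist p q y)))) := by
    rw [pull_vecMulVec, transpose_twistMat_rad]
  rw [S2, S2, ht, h1, pair_pull, normSq_det_twistMat]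
  simp

/-- translated boxes -/
def boxS (p q : ℤ) : Set (V 4) :=
  {y | 0 < E3 y ∧ (y 3).re ∈ Ico (p : ℝ) (p + 1) ∧ (y 3).im ∈ Ico (q : ℝ) (q + 1)}

theorem measurableSet_boxS (p q : ℤ) : MeasurableSet (boxS p q) := by
  have h1 : MeasurableSet {y : V 4 | 0 < E3 y} :=
    measurableSet_lt measurable_const continuous_E3.measurable
  have h2 : MeasurableSet {y : V 4 | (y 3).re ∈ Ico (p : ℝ) (p + 1)} :=
    (Complex.measurable_re.comp (measurable_pi_apply 3)) measurableSet_Ico
  have h3 : MeasurableSet {y : V 4 | (y 3).im ∈ Ico (q : ℝ) (q + 1)} :=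
    (Complex.measurable_im.comp (measurable_pi_apply 3)) measurableSet_Ico
  exact h1.inter (h2.inter h3)

theorem preimage_boxS (p q : ℤ) : twist p q ⁻¹' boxS p q = domF := by
  ext y
  simp only [boxS, domF, box, mem_preimage, mem_setOf_eq, E3_twist, mem_Ico]
  have e1 : (twist p q y 3).re = (y 3).re + p := by simp [twist]
  have e2 : (twist p q y 3).im = (y 3).im + q := by simp [twist]
  rw [e1, e2]
  constructor
  · rintro ⟨h0, ⟨h1, h2⟩, h3, h4⟩
    exact ⟨h0, ⟨by linarith, by linarith⟩, by linarith, by linarith⟩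
  · rintro ⟨h0, ⟨h1, h2⟩, h3, h4⟩
    exact ⟨h0, ⟨by linarith, by linarith⟩, by linarith, by linarith⟩

theorem integral_boxS {D : V 4 → ℝ} (p q : ℤ) (hD : ∀ y, 0 < E3 y → D (twist p q y) = D y) :
    ∫ y in boxS p q, D y = ∫ y in domF, D y := by
  rw [setIntegral_twist p q, preimage_boxS]
  exact setIntegral_congr_fun measurableSet_domF fun y hy => hD y hy.1

theorem integral_box2 {D : V 4 → ℝ} (hD : ∀ p q : ℤ, ∀ y, 0 < E3 y → D (twist p q y) = D y)
    (hi : IntegrableOn D {y | 0 < E3 y ∧ ‖y 3‖ ≤ 4}) :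
    ∫ y in {y : V 4 | 0 < E3 y ∧ y 3 ∈ box 2}, D y = 4 * ∫ y in domF, D y := by
  have hsub : ∀ p q : ℤ, (p = 0 ∨ p = 1) → (q = 0 ∨ q = 1) →
      boxS p q ⊆ {y | 0 < E3 y ∧ ‖y 3‖ ≤ 4} := by
    rintro p q hp hq y ⟨h0, h1, h2⟩
    refine ⟨h0, ?_⟩
    have h3 : |(y 3).re| ≤ 2 := by
      rw [abs_le]
      rcases hp with rfl | rfl <;> push_cast at h1 <;> constructor <;> linarith [h1.1, h1.2]
    have h4 : |(y 3).im| ≤ 2 := by
      rw [abs_le]
      rcases hq with rfl | rfl <;> push_cast at h2 <;> constructor <;> linarith [h2.1, h2.2]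
    linarith [Complex.norm_le_abs_re_add_abs_im (y 3)]
  have hI : ∀ p q : ℤ, (p = 0 ∨ p = 1) → (q = 0 ∨ q = 1) → IntegrableOn D (boxS p q) :=
    fun p q hp hq => hi.mono_set (hsub p q hp hq)
  have hun : {y : V 4 | 0 < E3 y ∧ y 3 ∈ box 2} =
      (boxS 0 0 ∪ boxS 1 0) ∪ (boxS 0 1 ∪ boxS 1 1) := by
    ext y
    simp only [boxS, box, mem_setOf_eq, mem_union, mem_Ico]
    push_cast
    constructor
    · rintro ⟨h0, ⟨h1, h2⟩, h3, h4⟩
      by_cases ha : (y 3).re < 1
      · by_cases hb : (y 3).im < 1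
        · left; left; exact ⟨h0, ⟨h1, by linarith⟩, h3, by linarith⟩
        · right; left; exact ⟨h0, ⟨h1, by linarith⟩, by linarith, by linarith⟩
      · by_cases hb : (y 3).im < 1
        · left; right; exact ⟨h0, ⟨by linarith, by linarith⟩, h3, by linarith⟩
        · right; right; exact ⟨h0, ⟨by linarith, by linarith⟩, by linarith, by linarith⟩
    · rintro ((⟨h0, ⟨h1, h2⟩, h3, h4⟩ | ⟨h0, ⟨h1, h2⟩, h3, h4⟩) |
        (⟨h0, ⟨h1, h2⟩, h3, h4⟩ | ⟨h0, ⟨h1, h2⟩, h3, h4⟩)) <;>
      exact ⟨h0, ⟨by linarith, by linarith⟩, by linarith, by linarith⟩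
  have hd1 : Disjoint (boxS 0 0) (boxS 1 0) := by
    rw [Set.disjoint_left]
    rintro y ⟨-, h1, -⟩ ⟨-, h2, -⟩
    have := h1.2
    have := h2.1
    push_cast at *
    linarith
  have hd2 : Disjoint (boxS 0 1) (boxS 1 1) := by
    rw [Set.disjoint_left]
    rintro y ⟨-, h1, -⟩ ⟨-, h2, -⟩
    have := h1.2
    have := h2.1
    push_cast at *
    linarith
  have hd3 : Disjoint (boxS 0 0 ∪ boxS 1 0) (boxS 0 1 ∪ boxS 1 1) := by
    rw [Set.disjoint_left]
    rintro y (⟨-, -, h1⟩ | ⟨-, -, h1⟩) (⟨-, -, h2⟩ | ⟨-, -, h2⟩) <;>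
    · have := h1.2
      have := h2.1
      push_cast at *
      linarith
  have i00 := hI 0 0 (Or.inl rfl) (Or.inl rfl)
  have i10 := hI 1 0 (Or.inr rfl) (Or.inl rfl)
  have i01 := hI 0 1 (Or.inl rfl) (Or.inr rfl)
  have i11 := hI 1 1 (Or.inr rfl) (Or.inr rfl)
  rw [hun, setIntegral_union hd3 ((measurableSet_boxS 0 1).union (measurableSet_boxS 1 1))
      (i00.union i10) (i01.union i11),
    setIntegral_union hd1 (measurableSet_boxS 1 0) i00 i10,
    setIntegral_union hd2 (measurableSet_boxS 1 1) i01 i11,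
    integral_boxS 0 0 (hD 0 0), integral_boxS 1 0 (hD 1 0), integral_boxS 0 1 (hD 0 1),
    integral_boxS 1 1 (hD 1 1)]
  ring

theorem shell_eq (h : LocalExc r ρ g gx) {a : V 4 → Matrix (Fin 4) (Fin 4) ℂ} (ha : Cone a)
    (hac : ∀ y, 0 < E3 y → a y = coneForm r gx y) {k : ℝ → ℝ} (hk : IsWeight k) :
    shell k a = 4 * ∫ y in domF, k (Real.log (E3 y)) * S2 a y := by
  obtain ⟨A, hA0, hA⟩ := exists_radius hk
  have hm3 : MeasurableSet {y : V 4 | y 3 ∈ box 2} := measurable_pi_apply 3 (measurableSet_box 2)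
  have hmeas : MeasurableSet {y : V 4 | 0 < E3 y ∧ y 3 ∈ box 2} :=
    (measurableSet_lt measurable_const continuous_E3.measurable).inter hm3
  have h1 : shell k a = ∫ y in {y : V 4 | 0 < E3 y ∧ y 3 ∈ box 2},
      k (Real.log (E3 y)) * S2 a y := by
    refine setIntegral_congr_fun hmeas fun y hy => ?_
    beta_reduce
    rw [det_addRad ha hy.1]
  rw [h1]
  refine integral_box2 (D := fun y => k (Real.log (E3 y)) * S2 a y) ?_ ?_
  · intro p q y hy
    have hy' : 0 < E3 (twist p q y) := by rwa [E3_twist]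
    beta_reduce
    rw [E3_twist, S2_twist p q]
    rw [hac y hy, hac _ hy']
    exact twist_cone h hy p q
  · set K : Set (V 4) := shellK (Real.exp (-A)) (Real.exp A) 4 with hK
    have hKc : IsCompact K := isCompact_shellK _ _ _
    have hK0 : K ⊆ {y | 0 < E3 y} := shellK_sub (Real.exp_pos _)
    have hcont : ContinuousOn (fun y => k (Real.log (E3 y)) * S2 a y) K :=
      (hk.smooth.continuous.comp_continuousOn (continuousOn_log.mono hK0)).mul
        (continuousOn_S2' hK0 fun i j => (kf_cont ha.kform i j).mono hK0)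
    have hi1 := hcont.integrableOn_compact hKc (μ := volume)
    have hm4 : MeasurableSet {y : V 4 | 0 < E3 y ∧ ‖y 3‖ ≤ 4} :=
      (measurableSet_lt measurable_const continuous_E3.measurable).inter
        (measurableSet_le (measurable_pi_apply 3).norm measurable_const)
    have hi2 : IntegrableOn (fun y => k (Real.log (E3 y)) * S2 a y)
        ({y | 0 < E3 y ∧ ‖y 3‖ ≤ 4} \ K) := by
      have h5 : IntegrableOn (fun _ : V 4 => (0 : ℝ)) ({y | 0 < E3 y ∧ ‖y 3‖ ≤ 4} \ K) :=
        integrableOn_zero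
      refine h5.congr_fun (fun y hy => ?_) (hm4.diff hKc.measurableSet)
      have hz : k (Real.log (E3 y)) = 0 := by
        refine hA _ ?_
        by_contra hcon
        rw [not_le, abs_lt] at hcon
        apply hy.2
        refine ⟨?_, ?_, hy.1.2⟩
        · rw [← Real.exp_log hy.1.1]
          exact Real.exp_le_exp.mpr hcon.1.le
        · rw [← Real.exp_log hy.1.1]
          exact Real.exp_le_exp.mpr hcon.2.le
      rw [hz]
      simp
    refine (hi1.union hi2).mono_set ?_
    intro y hy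
    by_cases hyK : y ∈ K
    · exact Or.inl hyK
    · exact Or.inr ⟨hy, hyK⟩

theorem flux_le_shell' (h : LocalExc r ρ g gx) {f : ℝ → ℝ} (hf : IsCut f ρ)
    {a : V 4 → Matrix (Fin 4) (Fin 4) ℂ} (ha : Cone a)
    (hl : ∀ K : Set (V 4), IsCompact K → K ⊆ {y | 0 < E3 y} → ∀ j k,
      TendstoUniformlyOn (fun (ε : ℝ) y => pull (scaleMat ε) (g (scale ε y)) j k)
        (fun y => a y j k) (𝓝[>] 0) K) {k : ℝ → ℝ} (hk : IsWeight k) :
    flux f g ≤ shell k a / 4 := by
  obtain ⟨A, hA0, hA⟩ := exists_radius hk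
  have hac : ∀ y, 0 < E3 y → a y = coneForm r gx y := fun y hy => eq_cone h hl hy
  rw [shell_eq h ha hac hk, mul_div_cancel_left₀ _ (by norm_num : (4 : ℝ) ≠ 0)]
  have hlim := tendsto_flux h ha hl hk hA
  have hε : Tendsto (fun n : ℕ => Real.exp (-(n : ℝ) / 2)) atTop (𝓝[>] 0) := by
    refine tendsto_nhdsWithin_iff.mpr ⟨?_, Eventually.of_forall fun n => Real.exp_pos _⟩
    refine Real.tendsto_exp_atBot.comp ?_
    have h1 : Tendsto (fun n : ℕ => (n : ℝ) / 2) atTop atTop :=
      tendsto_natCast_atTop_atTop.atTop_div_const (by norm_num)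
    have h2 : (fun n : ℕ => -(n : ℝ) / 2) = fun n : ℕ => -((n : ℝ) / 2) := by
      funext n; ring
    rw [h2]
    exact tendsto_neg_atTop_atBot.comp h1
  refine ge_of_tendsto (hlim.comp hε) ?_
  have h2 : ∀ᶠ n : ℕ in atTop, A - Real.log ρ < n :=
    tendsto_natCast_atTop_atTop.eventually (eventually_gt_atTop _)
  filter_upwards [h2] with n hn
  have hR : A - (n : ℝ) < Real.log ρ := by linarith
  rw [flux_indep' h hf (isCut_fR hk hA0 hA hR)]
  refine (flux_fR h hk hA0 hA hR).1.trans ?_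
  rw [integral_S2_scale]
  exact le_rfl

end

end GK.KL
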