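import Pool.Agent.GK.Local

open scoped ContDiff Topology ComplexOrder
open MeasureTheory

namespace GK

noncomputable section

namespace KT

set_option linter.unusedSectionVars false

section Lattice

variable {E : Type*} [NormedAddCommGroup E] [NormedSpace ℝ E] [MeasurableSpace E] [BorelSpace E]
  {ι : Type*} [Finite ι] (b : Module.Basis ι ℝ E) {F : Type*} [NormedAddCommGroup F]
  [NormedSpace ℝ F]
  (μ : Measure E) [μ.IsAddHaarMeasure]

/-- periodicity with respect to a basis -/
def Per (f : E → F) : Prop := ∀ i, Function.Periodic f (b i)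

theorem Per.span {b : Module.Basis ι ℝ E} {f : E → F} (hf : Per b f) {v : E}
    (hv : v ∈ Submodule.span ℤ (Set.range b)) : Function.Periodic f v := by
  induction hv using Submodule.span_induction with
  | mem y hy => obtain ⟨i, rfl⟩ := hy; exact hf i
  | zero => intro x; simp
  | add y z _ _ hy hz => exact hy.add_period hz
  | smul a y _ hy => exact hy.zsmul a

theorem Per.comp {b : Module.Basis ι ℝ E} {f : E → F} (hf : Per b f) {G : Type*}
    [NormedAddCommGroup G] (φ : F → G) : Per b (fun x => φ (f x)) := fun i x => by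
  simp only [hf i x]

theorem setIntegral_equiv {f : E → F} (hf : Per b f) (T : E ≃ᵐ E)
    (hT : MeasurePreserving T μ μ) (e : Submodule.span ℤ (Set.range b) ≃ Submodule.span ℤ (Set.range b))
    (he : ∀ (g : Submodule.span ℤ (Set.range b)) x, T.symm ((e g : E) + x) = g + T.symm x) :
    ∫ x in ZSpan.fundamentalDomain b, f (T x) ∂μ = ∫ x in ZSpan.fundamentalDomain b, f x ∂μ := by
  have hD := ZSpan.isAddFundamentalDomain b μ
  have hD' : IsAddFundamentalDomain (Submodule.span ℤ (Set.range b))
      (T.symm ⁻¹' (ZSpan.fundamentalDomain b)) μ := by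
    refine hD.preimage_of_equiv (hT.symm T).quasiMeasurePreserving e.bijective ?_
    intro g x
    exact he g x
  have : VAddInvariantMeasure (Submodule.span ℤ (Set.range b)) E μ :=
    inferInstanceAs <| VAddInvariantMeasure (Submodule.span ℤ (Set.range b)).toAddSubgroup E μ
  have h1 := hD.setIntegral_eq hD' (f := f) (fun g x => by
    rw [show (g +ᵥ x : E) = x + (g : E) from by rw [add_comm]; rfl]
    exact hf.span g.2 x)
  rw [h1, ← hT.setIntegral_preimage_emb T.measurableEmbedding f]
  congr 2
  ext x; simp

theorem setIntegral_add {f : E → F} (hf : Per b f) (h : E) :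
    ∫ x in ZSpan.fundamentalDomain b, f (x + h) ∂μ =
      ∫ x in ZSpan.fundamentalDomain b, f x ∂μ := by
  refine setIntegral_equiv b μ hf (MeasurableEquiv.addRight h) (measurePreserving_add_right μ h)
    (Equiv.refl _) ?_
  intro g x
  simp [MeasurableEquiv.addRight, add_assoc]

theorem setIntegral_neg [μ.IsNegInvariant] {f : E → F} (hf : Per b f) :
    ∫ x in ZSpan.fundamentalDomain b, f (-x) ∂μ =
      ∫ x in ZSpan.fundamentalDomain b, f x ∂μ := by
  refine setIntegral_equiv b μ hf (MeasurableEquiv.neg E) (Measure.measurePreserving_neg μ)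
    (Equiv.neg _) ?_
  intro g x
  simp
  abel

end Lattice

section Param

variable {E : Type*} [NormedAddCommGroup E] [MeasurableSpace E] [BorelSpace E]
  {H : Type*} [NormedAddCommGroup H] [NormedSpace ℝ H] [ProperSpace H]
  (μ : Measure E) [IsFiniteMeasureOnCompacts μ]

theorem hasFDerivAt_setIntegral {D K : Set E} (hD : MeasurableSet D) (hK : IsCompact K)
    (hDK : D ⊆ K) {U : Set H} (hU : IsOpen U)
    {f : H → E → ℂ} {f' : H → E → (H →L[ℝ] ℂ)}
    (hf : ∀ h ∈ U, ∀ x ∈ K, HasFDerivAt (fun h => f h x) (f' h x) h)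
    (hc : ContinuousOn (Function.uncurry f) (U ×ˢ K))
    (hc' : ContinuousOn (Function.uncurry f') (U ×ˢ K)) {h₀ : H} (h₀U : h₀ ∈ U) :
    HasFDerivAt (fun h => ∫ x in D, f h x ∂μ) (∫ x in D, f' h₀ x ∂μ) h₀ := by
  obtain ⟨ε, hε, hball⟩ := Metric.isOpen_iff.1 hU h₀ h₀U
  have hcb : IsCompact (Metric.closedBall h₀ (ε / 2)) := isCompact_closedBall _ _
  have hsub : Metric.closedBall h₀ (ε / 2) ⊆ U :=
    (Metric.closedBall_subset_ball (by linarith)).trans hball
  obtain ⟨C, hC⟩ := (hcb.prod hK).exists_bound_of_continuousOn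
    (hc'.mono (Set.prod_mono hsub le_rfl))
  have hslice : ∀ h ∈ U, ContinuousOn (f h) K := fun h hh =>
    hc.comp (Continuous.continuousOn (by fun_prop : Continuous fun x : E => (h, x)))
      (fun x hx => ⟨hh, hx⟩)
  have hslice' : ∀ h ∈ U, ContinuousOn (f' h) K := fun h hh =>
    hc'.comp (Continuous.continuousOn (by fun_prop : Continuous fun x : E => (h, x)))
      (fun x hx => ⟨hh, hx⟩)
  have hDfin : μ D < ⊤ := (measure_mono hDK).trans_lt hK.measure_lt_top
  refine hasFDerivAt_integral_of_dominated_of_fderiv_le (μ := μ.restrict D)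
    (F := f) (F' := f') (bound := fun _ => C) (s := Metric.ball h₀ (ε / 2))
    (Metric.ball_mem_nhds _ (by linarith)) ?_ ?_ ?_ ?_ ?_ ?_
  · filter_upwards [hU.mem_nhds h₀U] with h hh
    exact ((hslice h hh).aestronglyMeasurable_of_isCompact hK hK.measurableSet).mono_set hDK
  · exact ((hslice h₀ h₀U).integrableOn_compact hK).mono_set hDK
  · exact ((hslice' h₀ h₀U).aestronglyMeasurable_of_isCompact hK hK.measurableSet).mono_set hDK
  · filter_upwards [ae_restrict_mem hD] with x hx h hh
    exact hC (h, x) ⟨Metric.ball_subset_closedBall hh, hDK hx⟩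
  · exact integrableOn_const hDfin.ne
  · filter_upwards [ae_restrict_mem hD] with x hx h hh
    exact hf h (hsub (Metric.ball_subset_closedBall hh)) x (hDK hx)

theorem hasDerivAt_setIntegral {D K : Set E} (hD : MeasurableSet D) (hK : IsCompact K)
    (hDK : D ⊆ K) {f f' : ℝ → E → ℂ}
    (hf : ∀ t, ∀ x ∈ K, HasDerivAt (fun t => f t x) (f' t x) t)
    (hc : ContinuousOn (Function.uncurry f) (Set.univ ×ˢ K))
    (hc' : ContinuousOn (Function.uncurry f') (Set.univ ×ˢ K)) (t : ℝ) :
    HasDerivAt (fun t => ∫ x in D, f t x ∂μ) (∫ x in D, f' t x ∂μ) t := by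
  have h := hasFDerivAt_setIntegral μ hD hK hDK isOpen_univ (f := f)
    (f' := fun t x => ContinuousLinearMap.toSpanSingleton ℝ (f' t x))
    (fun t _ x hx => (hf t x hx).hasFDerivAt) hc
    (by
      have : ContinuousOn (fun p : ℝ × E => ContinuousLinearMap.toSpanSingleton ℝ
        (Function.uncurry f' p)) (Set.univ ×ˢ K) := by
        exact (ContinuousLinearMap.toSpanSingletonLIE ℝ ℂ).continuous.comp_continuousOn hc'
      exact this) (Set.mem_univ t)
  have h2 := h.hasDerivAt
  convert h2 using 1
  rw [ContinuousLinearMap.integral_apply]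
  · simp
  · have hs : ContinuousOn (fun x => ContinuousLinearMap.toSpanSingleton ℝ (f' t x)) K := by
      have : ContinuousOn (f' t) K := hc'.comp (Continuous.continuousOn
        (by fun_prop : Continuous fun x : E => (t, x))) (fun x hx => ⟨Set.mem_univ _, hx⟩)
      exact (ContinuousLinearMap.toSpanSingletonLIE ℝ ℂ).continuous.comp_continuousOn this
    exact (hs.integrableOn_compact hK).mono_set hDK

end Param

section Lattice2

variable {E : Type*} [NormedAddCommGroup E] [NormedSpace ℝ E] [MeasurableSpace E] [BorelSpace E]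
  [FiniteDimensional ℝ E]
  {ι : Type*} [Finite ι] (b : Module.Basis ι ℝ E)
  (μ : Measure E) [μ.IsAddHaarMeasure]

theorem Per.fderiv {F : Type*} [NormedAddCommGroup F] [NormedSpace ℝ F] {b : Module.Basis ι ℝ E}
    {f : E → F} (hf : Per b f) : Per b (fun x => fderiv ℝ f x) := by
  intro i x
  have : f = fun x => f (x + b i) := by ext x; exact (hf i x).symm
  change _root_.fderiv ℝ f (x + b i) = _root_.fderiv ℝ f x
  conv_rhs => rw [this, fderiv_comp_add_right]

theorem closure_fd_compact : IsCompact (closure (ZSpan.fundamentalDomain b)) :=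
  (ZSpan.fundamentalDomain_isBounded b).isCompact_closure

theorem integral_fderiv_eq_zero {f : E → ℂ} (hf : Per b f) (hc : ContDiff ℝ 1 f) (v : E) :
    ∫ x in ZSpan.fundamentalDomain b, fderiv ℝ f x v ∂μ = 0 := by
  have hd : Continuous (fderiv ℝ f) := hc.continuous_fderiv (by norm_num)
  have h1 := hasDerivAt_setIntegral μ (D := ZSpan.fundamentalDomain b)
    (K := closure (ZSpan.fundamentalDomain b))
    (ZSpan.fundamentalDomain_measurableSet b) (closure_fd_compact b) subset_closure
    (f := fun t x => f (x + t • v)) (f' := fun t x => fderiv ℝ f (x + t • v) v)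
    (fun t x _ => by
      have h2 : HasDerivAt (fun t : ℝ => x + t • v) v t := by
        simpa using ((hasDerivAt_id t).smul_const v).const_add x
      exact ((hc.differentiable (by norm_num)).differentiableAt.hasFDerivAt.comp_hasDerivAt t h2))
    (Continuous.continuousOn (by
      have : Continuous fun p : ℝ × E => f (p.2 + p.1 • v) := hc.continuous.comp (by fun_prop)
      exact this))
    (Continuous.continuousOn (by
      have : Continuous fun p : ℝ × E => fderiv ℝ f (p.2 + p.1 • v) v :=
        (hd.comp (by fun_prop)).clm_apply continuous_const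
      exact this)) 0
  have h3 : (fun t : ℝ => ∫ x in ZSpan.fundamentalDomain b, f (x + t • v) ∂μ) =
      fun _ => ∫ x in ZSpan.fundamentalDomain b, f x ∂μ := by
    ext t; exact setIntegral_add b μ hf (t • v)
  rw [h3] at h1
  have h4 := h1.unique (hasDerivAt_const 0 _)
  simpa using h4

end Lattice2

section Pairing

variable {n : ℕ}

theorem fderiv_eq_wirtinger (f : V n → ℂ) (z v : V n) :
    fderiv ℝ f z v = ∑ m, (v m * dZ m f z + star (v m) * dB m f z) := by
  have hv : v = ∑ m, ((v m).re • (Pi.single m (1 : ℂ) : V n) +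
      (v m).im • (Pi.single m Complex.I : V n)) := by
    ext j
    simp only [Finset.sum_apply, Pi.add_apply, Pi.smul_apply, Pi.single_apply]
    simp only [smul_ite, smul_zero, Complex.real_smul, mul_one]
    rw [Finset.sum_add_distrib]
    simp
  conv_lhs => rw [hv]
  rw [map_sum]
  refine Finset.sum_congr rfl fun m _ => ?_
  rw [map_add, map_smul, map_smul]
  simp only [dZ, dB, Complex.real_smul]
  have h1 : v m = (v m).re + (v m).im * Complex.I := (Complex.re_add_im _).symm
  have h2 : star (v m) = (v m).re - (v m).im * Complex.I := by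
    apply Complex.ext <;> simp
  rw [h2]
  conv_rhs => rw [h1]
  simp only [Complex.add_re, Complex.ofReal_re, Complex.mul_re, Complex.I_re, mul_zero,
    Complex.ofReal_im, Complex.I_im, mul_one, sub_self, add_zero, Complex.add_im, Complex.mul_im,
    zero_add]
  ring_nf
  simp only [Complex.I_sq]
  ring

theorem dZ_shift (f : V n → ℂ) (z w : V n) (j : Fin n) :
    dZ j (fun z => f (z + w)) z = dZ j f (z + w) := by
  simp only [dZ, fderiv_comp_add_right]

theorem dB_shift (f : V n → ℂ) (z w : V n) (j : Fin n) :
    dB j (fun z => f (z + w)) z = dB j f (z + w) := by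
  simp only [dB, fderiv_comp_add_right]

theorem KForm.closed' {g : V n → Matrix (Fin n) (Fin n) ℂ} {Ω : Set (V n)} (hΩ : IsOpen Ω)
    (hg : KForm g Ω) {z : V n} (hz : z ∈ Ω) (i j k : Fin n) :
    dB i (fun w => g w j k) z = dB k (fun w => g w j i) z := by
  have hd : ∀ p q, DifferentiableAt ℝ (fun w => g w p q) z := fun p q =>
    ((hg.smooth p q).contDiffAt (hΩ.mem_nhds hz)).differentiableAt (by simp)
  have hs : ∀ p q, (fun w => g w p q) =ᶠ[𝓝 z] fun w => star (g w q p) := by
    intro p q
    filter_upwards [hΩ.mem_nhds hz] with w hw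
    exact ((hg.herm w hw).apply p q).symm
  rw [dB_congr (hs j k), dB_congr (hs j i), dB_star (hd _ _), dB_star (hd _ _),
    hg.closed z hz i k j]

variable {ι : Type*} [Finite ι] (b : Module.Basis ι ℝ (V n))

theorem integrableOn_fd {f : V n → ℂ} (hf : Continuous f) :
    IntegrableOn f (ZSpan.fundamentalDomain b) volume :=
  (hf.continuousOn.integrableOn_compact (closure_fd_compact b)).mono_set subset_closure

theorem integral_dZ {f : V n → ℂ} (hf : Per b f) (hc : ContDiff ℝ 1 f) (j : Fin n) :
    ∫ x in ZSpan.fundamentalDomain b, dZ j f x = 0 := by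
  have hd : Continuous (fderiv ℝ f) := hc.continuous_fderiv (by norm_num)
  simp only [dZ]
  rw [integral_div, integral_sub, integral_const_mul, integral_fderiv_eq_zero b volume hf hc,
    integral_fderiv_eq_zero b volume hf hc]
  · simp
  · exact integrableOn_fd b (hd.clm_apply continuous_const)
  · exact (integrableOn_fd b (hd.clm_apply continuous_const)).const_mul _

theorem integral_dB {f : V n → ℂ} (hf : Per b f) (hc : ContDiff ℝ 1 f) (j : Fin n) :
    ∫ x in ZSpan.fundamentalDomain b, dB j f x = 0 := by
  have hd : Continuous (fderiv ℝ f) := hc.continuous_fderiv (by norm_num)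
  simp only [dB]
  rw [integral_div, integral_add, integral_const_mul, integral_fderiv_eq_zero b volume hf hc,
    integral_fderiv_eq_zero b volume hf hc]
  · simp
  · exact integrableOn_fd b (hd.clm_apply continuous_const)
  · exact (integrableOn_fd b (hd.clm_apply continuous_const)).const_mul _

theorem continuous_dZ {f : V n → ℂ} (hc : ContDiff ℝ 1 f) (j : Fin n) :
    Continuous (fun z => dZ j f z) := by
  have hd : Continuous (fderiv ℝ f) := hc.continuous_fderiv (by norm_num)
  simp only [dZ]
  exact ((hd.clm_apply continuous_const).sub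
    (continuous_const.mul (hd.clm_apply continuous_const))).div_const _

theorem continuous_dB {f : V n → ℂ} (hc : ContDiff ℝ 1 f) (j : Fin n) :
    Continuous (fun z => dB j f z) := by
  have hd : Continuous (fderiv ℝ f) := hc.continuous_fderiv (by norm_num)
  simp only [dB]
  exact ((hd.clm_apply continuous_const).add
    (continuous_const.mul (hd.clm_apply continuous_const))).div_const _

end Pairing

section Pairing2

variable {n : ℕ} {ι : Type*} [Finite ι] (b : Module.Basis ι ℝ (V n))

/-- pairing of divergence free matrix fields with the derivative of a closed form -/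
theorem integral_pairing_deriv {B a : V n → Matrix (Fin n) (Fin n) ℂ}
    (hB : KForm B Set.univ) (hBp : ∀ j k, Per b (fun z => B z j k))
    (ha : ∀ k j, ContDiff ℝ 1 (fun z => a z k j)) (hap : ∀ k j, Per b (fun z => a z k j))
    (hdiv : ∀ z k, ∑ j, dZ j (fun w => a w k j) z = 0)
    (hdiv' : ∀ z j, ∑ k, dB k (fun w => a w k j) z = 0) (w h : V n) :
    ∫ z in ZSpan.fundamentalDomain b, ∑ j, ∑ k, a z k j *
      fderiv ℝ (fun z => B z j k) (z + w) h = 0 := by
  have hBc : ∀ j k, ContDiff ℝ 1 (fun z => B z j k) := fun j k =>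
    (contDiffOn_univ.1 (hB.smooth j k)).of_le (by simp)
  have hBw : ∀ j k, ContDiff ℝ 1 (fun z => B (z + w) j k) := fun j k =>
    (hBc j k).comp (contDiff_id.add contDiff_const)
  have hBwd : ∀ j k z, DifferentiableAt ℝ (fun z => B (z + w) j k) z := fun j k z =>
    (hBw j k).differentiable (by norm_num) z
  have had : ∀ j k z, DifferentiableAt ℝ (fun z => a z k j) z := fun j k z =>
    (ha k j).differentiable (by norm_num) z
  have key : ∀ z, ∑ j, ∑ k, a z k j * fderiv ℝ (fun z => B z j k) (z + w) h =
      ∑ k, ∑ m, ∑ j, h m * dZ j (fun z => a z k j * B (z + w) m k) z +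
      ∑ j, ∑ m, ∑ k, star (h m) * dB k (fun z => a z k j * B (z + w) j m) z := by
    intro z
    have e1 : ∀ j k, fderiv ℝ (fun z => B z j k) (z + w) h =
        ∑ m, (h m * dZ j (fun z => B (z + w) m k) z +
          star (h m) * dB k (fun z => B (z + w) j m) z) := by
      intro j k
      rw [fderiv_eq_wirtinger]
      refine Finset.sum_congr rfl fun m _ => ?_
      rw [hB.closed _ (Set.mem_univ _) m j k, KForm.closed' isOpen_univ hB (Set.mem_univ _) m j k,
        dZ_shift (fun z => B z m k), dB_shift (fun z => B z j m)]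
    have e2 : ∀ k m, ∑ j, h m * dZ j (fun z => a z k j * B (z + w) m k) z =
        ∑ j, h m * (a z k j * dZ j (fun z => B (z + w) m k) z) := by
      intro k m
      have : ∑ j, h m * dZ j (fun z => a z k j * B (z + w) m k) z =
          ∑ j, h m * (a z k j * dZ j (fun z => B (z + w) m k) z) +
          h m * B (z + w) m k * ∑ j, dZ j (fun w => a w k j) z := by
        rw [Finset.mul_sum, ← Finset.sum_add_distrib]
        refine Finset.sum_congr rfl fun j _ => ?_
        rw [dZ_mul (had j k z) (hBwd m k z)]
        ring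
      rw [this, hdiv z k]; ring
    have e3 : ∀ j m, ∑ k, star (h m) * dB k (fun z => a z k j * B (z + w) j m) z =
        ∑ k, star (h m) * (a z k j * dB k (fun z => B (z + w) j m) z) := by
      intro j m
      have : ∑ k, star (h m) * dB k (fun z => a z k j * B (z + w) j m) z =
          ∑ k, star (h m) * (a z k j * dB k (fun z => B (z + w) j m) z) +
          star (h m) * B (z + w) j m * ∑ k, dB k (fun w => a w k j) z := by
        rw [Finset.mul_sum, ← Finset.sum_add_distrib]
        refine Finset.sum_congr rfl fun k _ => ?_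
        rw [dB_mul (had j k z) (hBwd j m z)]
        ring
      rw [this, hdiv' z j]; ring
    rw [Finset.sum_congr rfl fun j _ => Finset.sum_congr rfl fun k _ => by rw [e1 j k]]
    simp only [e2, e3]
    have e4 : ∀ j k, a z k j * ∑ m, (h m * dZ j (fun z => B (z + w) m k) z +
          star (h m) * dB k (fun z => B (z + w) j m) z) =
        ∑ m, h m * (a z k j * dZ j (fun z => B (z + w) m k) z) +
        ∑ m, star (h m) * (a z k j * dB k (fun z => B (z + w) j m) z) := by
      intro j k
      rw [Finset.mul_sum, ← Finset.sum_add_distrib]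
      refine Finset.sum_congr rfl fun m _ => by ring
    rw [Finset.sum_congr rfl fun j _ => Finset.sum_congr rfl fun k _ => e4 j k]
    simp only [Finset.sum_add_distrib]
    congr 1
    · rw [Finset.sum_comm]
      refine Finset.sum_congr rfl fun k _ => ?_
      rw [Finset.sum_comm]
    · refine Finset.sum_congr rfl fun j _ => ?_
      rw [Finset.sum_comm]
  simp only [key]
  have hper1 : ∀ j k m, Per b (fun z => a z k j * B (z + w) m k) := by
    intro j k m i z
    have h1 := hap k j i z
    have h2 := hBp m k i (z + w)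
    simp only at h1 h2 ⊢
    rw [h1, show z + b i + w = z + w + b i by abel, h2]
  have hper2 : ∀ j k m, Per b (fun z => a z k j * B (z + w) j m) := by
    intro j k m i z
    have h1 := hap k j i z
    have h2 := hBp j m i (z + w)
    simp only at h1 h2 ⊢
    rw [h1, show z + b i + w = z + w + b i by abel, h2]
  have hc1 : ∀ j k m, ContDiff ℝ 1 (fun z => a z k j * B (z + w) m k) := fun j k m =>
    (ha k j).mul (hBw m k)
  have hc2 : ∀ j k m, ContDiff ℝ 1 (fun z => a z k j * B (z + w) j m) := fun j k m =>
    (ha k j).mul (hBw j m)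
  rw [integral_add]
  · rw [integral_finsetSum, integral_finsetSum]
    · have z1 : ∀ k, ∫ z in ZSpan.fundamentalDomain b, ∑ m, ∑ j,
          h m * dZ j (fun z => a z k j * B (z + w) m k) z = 0 := by
        intro k
        rw [integral_finsetSum]
        · refine Finset.sum_eq_zero fun m _ => ?_
          rw [integral_finsetSum]
          · refine Finset.sum_eq_zero fun j _ => ?_
            rw [integral_const_mul, integral_dZ b (hper1 j k m) (hc1 j k m), mul_zero]
          · intro j _
            exact integrableOn_fd b (continuous_const.mul (continuous_dZ (hc1 j k m) j))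
        · intro m _
          exact integrableOn_fd b (continuous_finsetSum _ fun j _ =>
            continuous_const.mul (continuous_dZ (hc1 j k m) j))
      have z2 : ∀ j, ∫ z in ZSpan.fundamentalDomain b, ∑ m, ∑ k,
          star (h m) * dB k (fun z => a z k j * B (z + w) j m) z = 0 := by
        intro j
        rw [integral_finsetSum]
        · refine Finset.sum_eq_zero fun m _ => ?_
          rw [integral_finsetSum]
          · refine Finset.sum_eq_zero fun k _ => ?_
            rw [integral_const_mul, integral_dB b (hper2 j k m) (hc2 j k m), mul_zero]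
          · intro k _
            exact integrableOn_fd b (continuous_const.mul (continuous_dB (hc2 j k m) k))
        · intro m _
          exact integrableOn_fd b (continuous_finsetSum _ fun k _ =>
            continuous_const.mul (continuous_dB (hc2 j k m) k))
      simp only [z1, z2, Finset.sum_const_zero, add_zero]
    · intro j _
      exact integrableOn_fd b (continuous_finsetSum _ fun m _ => continuous_finsetSum _ fun k _ =>
        continuous_const.mul (continuous_dB (hc2 j k m) k))
    · intro k _
      exact integrableOn_fd b (continuous_finsetSum _ fun m _ => continuous_finsetSum _ fun j _ =>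
        continuous_const.mul (continuous_dZ (hc1 j k m) j))
  · exact integrableOn_fd b (continuous_finsetSum _ fun k _ => continuous_finsetSum _ fun m _ =>
      continuous_finsetSum _ fun j _ => continuous_const.mul (continuous_dZ (hc1 j k m) j))
  · exact integrableOn_fd b (continuous_finsetSum _ fun j _ => continuous_finsetSum _ fun m _ =>
      continuous_finsetSum _ fun k _ => continuous_const.mul (continuous_dB (hc2 j k m) k))

/-- the pairing with a translate of a closed form does not depend on the translation -/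
theorem integral_pairing_const {B a : V n → Matrix (Fin n) (Fin n) ℂ}
    (hB : KForm B Set.univ) (hBp : ∀ j k, Per b (fun z => B z j k))
    (ha : ∀ k j, ContDiff ℝ 1 (fun z => a z k j)) (hap : ∀ k j, Per b (fun z => a z k j))
    (hdiv : ∀ z k, ∑ j, dZ j (fun w => a w k j) z = 0)
    (hdiv' : ∀ z j, ∑ k, dB k (fun w => a w k j) z = 0) (h : V n) :
    ∫ z in ZSpan.fundamentalDomain b, ∑ j, ∑ k, a z k j * B (z + h) j k =
    ∫ z in ZSpan.fundamentalDomain b, ∑ j, ∑ k, a z k j * B z j k := by
  have hBc : ∀ j k, ContDiff ℝ 1 (fun z => B z j k) := fun j k =>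
    (contDiffOn_univ.1 (hB.smooth j k)).of_le (by simp)
  have hd : ∀ t : ℝ, HasDerivAt (fun t : ℝ => ∫ z in ZSpan.fundamentalDomain b,
      ∑ j, ∑ k, a z k j * B (z + t • h) j k) 0 t := by
    intro t
    have h1 := hasDerivAt_setIntegral (volume : Measure (V n)) (D := ZSpan.fundamentalDomain b)
      (K := closure (ZSpan.fundamentalDomain b))
      (ZSpan.fundamentalDomain_measurableSet b) (closure_fd_compact b) subset_closure
      (f := fun t z => ∑ j, ∑ k, a z k j * B (z + t • h) j k)
      (f' := fun t z => ∑ j, ∑ k, a z k j * fderiv ℝ (fun z => B z j k) (z + t • h) h)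
      (fun t x _ => by
        refine HasDerivAt.fun_sum fun j _ => HasDerivAt.fun_sum fun k _ => ?_
        have h2 : HasDerivAt (fun t : ℝ => x + t • h) h t := by
          simpa using ((hasDerivAt_id t).smul_const h).const_add x
        exact (((hBc j k).differentiable (by norm_num)).differentiableAt.hasFDerivAt.comp_hasDerivAt
          t h2).const_mul _)
      (Continuous.continuousOn (by
        have : Continuous fun p : ℝ × V n => ∑ j, ∑ k, a p.2 k j * B (p.2 + p.1 • h) j k :=
          continuous_finsetSum _ fun j _ => continuous_finsetSum _ fun k _ =>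
            ((ha k j).continuous.comp continuous_snd).mul ((hBc j k).continuous.comp (by fun_prop))
        exact this))
      (Continuous.continuousOn (by
        have : Continuous fun p : ℝ × V n => ∑ j, ∑ k, a p.2 k j *
            fderiv ℝ (fun z => B z j k) (p.2 + p.1 • h) h :=
          continuous_finsetSum _ fun j _ => continuous_finsetSum _ fun k _ =>
            ((ha k j).continuous.comp continuous_snd).mul
              ((((hBc j k).continuous_fderiv (by norm_num)).comp (by fun_prop)).clm_apply
                continuous_const)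
        exact this)) t
    rwa [integral_pairing_deriv b hB hBp ha hap hdiv hdiv'] at h1
  have hconst := is_const_of_deriv_eq_zero (fun t => (hd t).differentiableAt)
    (fun t => (hd t).deriv) 1 0
  simpa using hconst

theorem setIntegral_add' {F : Type*} [NormedAddCommGroup F] [NormedSpace ℝ F] {f : V n → F}
    (hf : Per b f) (h : V n) :
    ∫ x in ZSpan.fundamentalDomain b, f (h + x) = ∫ x in ZSpan.fundamentalDomain b, f x := by
  simpa [add_comm] using setIntegral_add b volume hf h

/-- Pairing of a divergence free matrix field with a closed form. -/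
theorem integral_pairing {B a : V n → Matrix (Fin n) (Fin n) ℂ}
    (hB : KForm B Set.univ) (hBp : ∀ j k, Per b (fun z => B z j k))
    (ha : ∀ k j, ContDiff ℝ 1 (fun z => a z k j)) (hap : ∀ k j, Per b (fun z => a z k j))
    (hdiv : ∀ z k, ∑ j, dZ j (fun w => a w k j) z = 0)
    (hdiv' : ∀ z j, ∑ k, dB k (fun w => a w k j) z = 0) :
    (volume.real (ZSpan.fundamentalDomain b) : ℂ) *
      ∫ z in ZSpan.fundamentalDomain b, ∑ j, ∑ k, a z k j * B z j k =
    ∑ j, ∑ k, (∫ z in ZSpan.fundamentalDomain b, a z k j) *
      ∫ z in ZSpan.fundamentalDomain b, B z j k := by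
  set D := ZSpan.fundamentalDomain b with hD
  have hBc : ∀ j k, Continuous (fun z => B z j k) := fun j k =>
    (contDiffOn_univ.1 (hB.smooth j k)).continuous
  have hDm : MeasurableSet D := ZSpan.fundamentalDomain_measurableSet b
  have hDfin : volume D < ⊤ := (ZSpan.fundamentalDomain_isBounded b).measure_lt_top
  have h1 : ∫ h in D, (∫ z in D, ∑ j, ∑ k, a z k j * B (z + h) j k) =
      (volume.real D : ℂ) * ∫ z in D, ∑ j, ∑ k, a z k j * B z j k := by
    simp only [hD, integral_pairing_const b hB hBp ha hap hdiv hdiv']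
    rw [setIntegral_const, Complex.real_smul]
  rw [← h1]
  have hcont : Continuous (Function.uncurry fun h z : V n => ∑ j, ∑ k, a z k j * B (z + h) j k) := by
    have : Continuous fun p : V n × V n => ∑ j, ∑ k, a p.2 k j * B (p.2 + p.1) j k :=
      continuous_finsetSum _ fun j _ => continuous_finsetSum _ fun k _ =>
        ((ha k j).continuous.comp continuous_snd).mul ((hBc j k).comp (by fun_prop))
    exact this
  rw [integral_integral_swap]
  · have h2 : ∀ z, ∫ h in D, ∑ j, ∑ k, a z k j * B (z + h) j k =
        ∑ j, ∑ k, a z k j * ∫ h in D, B h j k := by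
      intro z
      rw [integral_finsetSum]
      · refine Finset.sum_congr rfl fun j _ => ?_
        rw [integral_finsetSum]
        · refine Finset.sum_congr rfl fun k _ => ?_
          rw [integral_const_mul]
          congr 1
          exact setIntegral_add' b (hBp j k) z
        · intro k _
          exact integrableOn_fd b (continuous_const.mul ((hBc j k).comp (by fun_prop)))
      · intro j _
        exact integrableOn_fd b (continuous_finsetSum _ fun k _ =>
          continuous_const.mul ((hBc j k).comp (by fun_prop)))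
    simp only [h2]
    rw [integral_finsetSum]
    · refine Finset.sum_congr rfl fun j _ => ?_
      rw [integral_finsetSum]
      · refine Finset.sum_congr rfl fun k _ => ?_
        rw [integral_mul_const]
      · intro k _
        exact integrableOn_fd b ((ha k j).continuous.mul continuous_const)
    · intro j _
      exact integrableOn_fd b (continuous_finsetSum _ fun k _ =>
        (ha k j).continuous.mul continuous_const)
  · rw [Measure.prod_restrict]
    have hK : IsCompact (closure D ×ˢ closure D) := (closure_fd_compact b).prod (closure_fd_compact b)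
    exact (hcont.continuousOn.integrableOn_compact hK).mono_set
      (Set.prod_mono subset_closure subset_closure)

end Pairing2

section Det

variable {n : ℕ}

theorem contDiff_det {X : Type*} [NormedAddCommGroup X] [NormedSpace ℝ X] {N : WithTop ℕ∞}
    {M : X → Matrix (Fin n) (Fin n) ℂ} (hM : ∀ j k, ContDiff ℝ N (fun z => M z j k)) :
    ContDiff ℝ N (fun z => (M z).det) := by
  simp only [Matrix.det_apply]
  refine ContDiff.sum fun σ _ => ContDiff.const_smul _ (contDiff_prod fun i _ => hM _ _)

theorem contDiff_adjugate {X : Type*} [NormedAddCommGroup X] [NormedSpace ℝ X] {N : WithTop ℕ∞}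
    {M : X → Matrix (Fin n) (Fin n) ℂ} (hM : ∀ j k, ContDiff ℝ N (fun z => M z j k))
    (k j : Fin n) : ContDiff ℝ N (fun z => (M z).adjugate k j) := by
  simp only [Matrix.adjugate_apply]
  refine contDiff_det fun p q => ?_
  simp only [Matrix.updateRow_apply]
  split_ifs with h
  · exact contDiff_const
  · exact hM _ _

theorem KForm.const {m : Matrix (Fin n) (Fin n) ℂ} (hm : m.IsHermitian) (Ω : Set (V n)) :
    KForm (fun _ => m) Ω where
  smooth _ _ := contDiffOn_const
  herm _ _ := hm
  closed z _ i j k := by rw [dZ_const, dZ_const]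

variable {ι : Type*} [Finite ι] (b : Module.Basis ι ℝ (V n))

theorem integral_det {B : V n → Matrix (Fin n) (Fin n) ℂ}
    (hB : KForm B Set.univ) (hBp : ∀ j k, Per b (fun z => B z j k)) (hpos : ∀ z, (B z).PosDef)
    {m : Matrix (Fin n) (Fin n) ℂ} (hm : m.PosDef)
    (hmean : ∀ j k, ∫ z in ZSpan.fundamentalDomain b, B z j k =
      (volume.real (ZSpan.fundamentalDomain b) : ℂ) * m j k) :
    ∫ z in ZSpan.fundamentalDomain b, (B z).det =
      (volume.real (ZSpan.fundamentalDomain b) : ℂ) * m.det := by
  set D := ZSpan.fundamentalDomain b with hD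
  have hBc : ∀ j k, ContDiff ℝ 1 (fun z => B z j k) := fun j k =>
    (contDiffOn_univ.1 (hB.smooth j k)).of_le (by simp)
  have hvol : (volume.real D : ℂ) ≠ 0 := by
    have h1 : volume D ≠ 0 := ZSpan.measure_fundamentalDomain_ne_zero b
    have h2 : volume D ≠ ⊤ := (ZSpan.fundamentalDomain_isBounded b).measure_lt_top.ne
    exact_mod_cast (ENNReal.toReal_ne_zero.2 ⟨h1, h2⟩)
  let M : ℝ → V n → Matrix (Fin n) (Fin n) ℂ := fun t z =>
    ((1 - t : ℝ) : ℂ) • m + ((t : ℝ) : ℂ) • B z
  have hMc : ∀ t j k, ContDiff ℝ 1 (fun z => M t z j k) := by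
    intro t j k
    simp only [M, Matrix.add_apply, Matrix.smul_apply, smul_eq_mul]
    exact contDiff_const.add (contDiff_const.mul (hBc j k))
  have hM2 : ∀ j k, ContDiff ℝ 1 (fun p : ℝ × V n => M p.1 p.2 j k) := by
    intro j k
    simp only [M, Matrix.add_apply, Matrix.smul_apply, smul_eq_mul]
    have h1 : ContDiff ℝ 1 (fun p : ℝ × V n => B p.2 j k) := (hBc j k).comp contDiff_snd
    have h2 : ContDiff ℝ 1 (fun p : ℝ × V n => ((p.1 : ℝ) : ℂ)) :=
      Complex.ofRealCLM.contDiff.comp contDiff_fst
    have h3 : ContDiff ℝ 1 (fun p : ℝ × V n => ((1 - p.1 : ℝ) : ℂ)) :=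
      Complex.ofRealCLM.contDiff.comp (contDiff_const.sub contDiff_fst)
    exact (h3.mul contDiff_const).add (h2.mul h1)
  have hdφ : ∀ t : ℝ, HasDerivAt (fun t => ∫ z in D, (M t z).det)
      (∫ z in D, ∑ p, ∑ q, (M t z).adjugate q p * (B z p q - m p q)) t := by
    intro t
    exact hasDerivAt_setIntegral (volume : Measure (V n)) (D := D)
      (K := closure D)
      (ZSpan.fundamentalDomain_measurableSet b) (closure_fd_compact b) subset_closure
      (f := fun t z => (M t z).det)
      (f' := fun t z => ∑ p, ∑ q, (M t z).adjugate q p * (B z p q - m p q))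
      (fun t z _ => by
        have h2 := hasDerivAt_det (b := fun t => M t z) (b' := B z - m) (s := t) (by
          intro j k
          simp only [M, Matrix.add_apply, Matrix.smul_apply, smul_eq_mul, Matrix.sub_apply]
          have h3 : HasDerivAt (fun t : ℝ => ((t : ℝ) : ℂ)) 1 t := Complex.ofRealCLM.hasDerivAt
          have h4 : HasDerivAt (fun t : ℝ => ((1 - t : ℝ) : ℂ)) (-1) t := by
            simpa using h3.const_sub (1 : ℂ)
          have h5 := (h4.mul_const (m j k)).fun_add (h3.mul_const (B z j k))
          rw [show B z j k - m j k = -1 * m j k + 1 * B z j k by ring]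
          exact h5)
        simpa [Matrix.sub_apply] using h2)
      (contDiff_det hM2).continuous.continuousOn
      (Continuous.continuousOn (by
        have : Continuous fun p : ℝ × V n => ∑ i, ∑ q, (M p.1 p.2).adjugate q i *
            (B p.2 i q - m i q) :=
          continuous_finsetSum _ fun i _ => continuous_finsetSum _ fun q _ =>
            ((contDiff_adjugate hM2 q i).continuous).mul
              (((hBc i q).continuous.comp continuous_snd).sub continuous_const)
        exact this)) t
  have hder : ∀ t ∈ Set.Ico (0 : ℝ) 1, HasDerivAt (fun t => ∫ z in D, (M t z).det) 0 t := by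
    intro t ht
    have hMk : KForm (M t) Set.univ :=
      ((KForm.const hm.1 _).smul isOpen_univ (1 - t)).add isOpen_univ (hB.smul isOpen_univ t)
    have hMpos : ∀ z, (M t z).PosDef := by
      intro z
      have h1 : (((1 - t : ℝ) : ℂ) • m).PosDef := hm.smul (by
        have : (0:ℝ) < 1 - t := by linarith [ht.2]
        exact_mod_cast this)
      have h2 : (((t : ℝ) : ℂ) • B z).PosSemidef := (hpos z).posSemidef.smul (by
        exact_mod_cast ht.1)
      exact h1.add_posSemidef h2
    have hdet : ∀ z, (M t z).det ≠ 0 := fun z => (hMpos z).det_pos.ne'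
    have hperM : ∀ j k, Per b (fun z => M t z j k) := by
      intro j k i z
      have h1 := hBp j k i z
      simp only at h1
      simp only [M, Matrix.add_apply, Matrix.smul_apply, smul_eq_mul, h1]
    have hperM' : ∀ i z, M t (z + b i) = M t z := by
      intro i z; ext j k; exact hperM j k i z
    have hpair := integral_pairing b (B := B) (a := fun z => (M t z).adjugate) hB hBp
      (fun k j => contDiff_adjugate (hMc t) k j)
      (fun k j i z => by simp only [hperM' i z])
      (fun z k => div_adjugate_closed isOpen_univ hMk (Set.mem_univ z) (hdet z) k)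
      (fun z j => div_adjugate_closed' isOpen_univ hMk (Set.mem_univ z) (hdet z) j)
    have h1 := hdφ t
    have h5 : ∫ z in D, ∑ p, ∑ q, (M t z).adjugate q p * (B z p q - m p q) = 0 := by
      have hac : ∀ k j, Continuous (fun z => (M t z).adjugate k j) := fun k j =>
        (contDiff_adjugate (hMc t) k j).continuous
      have h6 : ∀ z, ∑ p, ∑ q, (M t z).adjugate q p * (B z p q - m p q) =
          (∑ p, ∑ q, (M t z).adjugate q p * B z p q) -
          ∑ p, ∑ q, (M t z).adjugate q p * m p q := by
        intro z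
        rw [← Finset.sum_sub_distrib]
        refine Finset.sum_congr rfl fun p _ => ?_
        rw [← Finset.sum_sub_distrib]
        refine Finset.sum_congr rfl fun q _ => by ring
      simp only [h6]
      rw [integral_sub]
      · rw [sub_eq_zero]
        apply mul_left_cancel₀ hvol
        rw [hpair]
        rw [integral_finsetSum]
        · rw [Finset.mul_sum]
          refine Finset.sum_congr rfl fun j _ => ?_
          rw [integral_finsetSum]
          · rw [Finset.mul_sum]
            refine Finset.sum_congr rfl fun k _ => ?_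
            rw [hmean, integral_mul_const]
            ring
          · intro k _
            exact integrableOn_fd b ((hac k j).mul continuous_const)
        · intro j _
          exact integrableOn_fd b (continuous_finsetSum _ fun k _ =>
            (hac k j).mul continuous_const)
      · exact integrableOn_fd b (continuous_finsetSum _ fun j _ => continuous_finsetSum _ fun k _ =>
            (hac k j).mul (hBc j k).continuous)
      · exact integrableOn_fd b (continuous_finsetSum _ fun j _ => continuous_finsetSum _ fun k _ =>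
            (hac k j).mul continuous_const)
    rwa [h5] at h1
  have hcontφ : ContinuousOn (fun t => ∫ z in D, (M t z).det) (Set.Icc 0 1) :=
    fun t _ => (hdφ t).continuousAt.continuousWithinAt
  have hfin := constant_of_has_deriv_right_zero hcontφ (fun t ht => (hder t ht).hasDerivWithinAt)
    1 (Set.right_mem_Icc.2 zero_le_one)
  simp only [M, sub_self, Complex.ofReal_zero, zero_smul, Complex.ofReal_one, one_smul, zero_add,
    sub_zero, add_zero] at hfin
  rw [hfin, setIntegral_const, Complex.real_smul]

end Det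

section Bases

/-- the real basis `(u, v)` of `ℂ` -/
def bas (u v : ℂ) (h : LinearIndependent ℝ ![u, v]) : Module.Basis (Fin 2) ℝ ℂ :=
  basisOfLinearIndependentOfCardEqFinrank h (by simp [Complex.finrank_real_complex])

theorem coe_bas (u v : ℂ) (h : LinearIndependent ℝ ![u, v]) : ⇑(bas u v h) = ![u, v] := by
  simp [bas]

theorem fd_bas (u v : ℂ) (h : LinearIndependent ℝ ![u, v]) :
    ZSpan.fundamentalDomain (bas u v h) =
      {z | ∃ a b : ℝ, a ∈ Set.Ico (0 : ℝ) 1 ∧ b ∈ Set.Ico (0 : ℝ) 1 ∧ z = a * u + b * v} := by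
  ext z
  rw [ZSpan.mem_fundamentalDomain]
  constructor
  · intro hz
    refine ⟨_, _, hz 0, hz 1, ?_⟩
    have := (bas u v h).sum_repr z
    rw [Fin.sum_univ_two, coe_bas] at this
    simpa using this.symm
  · rintro ⟨a, b, ha, hb, rfl⟩
    have h0 : (bas u v h).repr ((a : ℂ) * u + b * v) = (bas u v h).repr
        (a • (bas u v h) 0 + b • (bas u v h) 1) := by
      rw [coe_bas]; simp
    rw [h0, map_add, map_smul, map_smul, Module.Basis.repr_self, Module.Basis.repr_self]
    intro i
    fin_cases i
    · simpa using ha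
    · simpa using hb

theorem li_of_im {u v : ℂ} (h : u.re * v.im - u.im * v.re ≠ 0) : LinearIndependent ℝ ![u, v] := by
  rw [LinearIndependent.pair_iff]
  intro s t hst
  have h1 := congrArg Complex.re hst
  have h2 := congrArg Complex.im hst
  simp at h1 h2
  constructor
  · have : s * (u.re * v.im - u.im * v.re) = 0 := by linear_combination v.im * h1 - v.re * h2
    exact (mul_eq_zero.1 this).resolve_right h
  · have : t * (u.re * v.im - u.im * v.re) = 0 := by linear_combination u.re * h2 - u.im * h1
    exact (mul_eq_zero.1 this).resolve_right h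

theorem xi_re : xi.re = 1 / 2 := by
  have : (Real.pi * Complex.I / 3 : ℂ) = ((Real.pi / 3 : ℝ) : ℂ) * Complex.I := by
    push_cast; ring
  rw [xi, this, Complex.exp_ofReal_mul_I_re, Real.cos_pi_div_three]

theorem xi_im : xi.im = Real.sqrt 3 / 2 := by
  have : (Real.pi * Complex.I / 3 : ℂ) = ((Real.pi / 3 : ℝ) : ℂ) * Complex.I := by
    push_cast; ring
  rw [xi, this, Complex.exp_ofReal_mul_I_im, Real.sin_pi_div_three]

theorem li_E : LinearIndependent ℝ ![(1 : ℂ), xi] := by
  apply li_of_im
  simp [xi_im]

theorem li_sq {c : ℝ} (hc : c ≠ 0) : LinearIndependent ℝ ![(c : ℂ), c * Complex.I] := by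
  apply li_of_im
  simp [hc]

/-- Eisenstein basis -/
def bE : Module.Basis (Fin 2) ℝ ℂ := bas 1 xi li_E

/-- basis `2, 2i` -/
def b2 : Module.Basis (Fin 2) ℝ ℂ := bas ((2 : ℝ) : ℂ) ((2 : ℝ) * Complex.I) (li_sq two_ne_zero)

theorem fd_bE : ZSpan.fundamentalDomain bE = fundE := by
  rw [bE, fd_bas]
  simp [fundE]

theorem fd_b2 : ZSpan.fundamentalDomain b2 = box 2 := by
  rw [b2, fd_bas]
  ext z
  simp only [box, Set.mem_ofPred_eq]
  constructor
  · rintro ⟨a, b, ha, hb, rfl⟩
    simp
    constructor <;> constructor <;> linarith [ha.1, ha.2, hb.1, hb.2]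
  · rintro ⟨h1, h2⟩
    refine ⟨z.re / 2, z.im / 2, ⟨by linarith [h1.1], by linarith [h1.2]⟩,
      ⟨by linarith [h2.1], by linarith [h2.2]⟩, ?_⟩
    apply Complex.ext <;> simp

theorem bE_mem (i : Fin 2) : bE i ∈ Eis := by
  rw [bE, coe_bas]
  fin_cases i
  · exact ⟨1, 0, by simp⟩
  · exact ⟨0, 1, by simp⟩

end Bases

section Slot

/-- the domain near the fibre -/
def fD (R : ℝ) : Set (V 4) := {y | 0 < ‖y 2‖ ∧ ‖y 2‖ < R}

theorem isOpen_fD (R : ℝ) : IsOpen (fD R) := by
  have h1 : IsOpen {y : V 4 | 0 < ‖y 2‖} := isOpen_lt continuous_const (by fun_prop)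
  have h2 : IsOpen {y : V 4 | ‖y 2‖ < R} := isOpen_lt (by fun_prop) continuous_const
  exact h1.inter h2

theorem isPreconnected_fD (R : ℝ) : IsPreconnected (fD R) := by
  have hS : Convex ℝ {z : V 4 | (z 2).re < Real.log R} := by
    intro x hx y hy a b ha hb hab
    simp only [Set.mem_ofPred_eq, Pi.add_apply, Pi.smul_apply, Complex.add_re, Complex.real_smul,
      Complex.mul_re, Complex.ofReal_re, Complex.ofReal_im, zero_mul, sub_zero] at hx hy ⊢
    rcases ha.eq_or_lt with rfl | ha'
    · have : b = 1 := by linarith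
      subst this; linarith
    · have h1 := mul_lt_mul_of_pos_left hx ha'
      have h2 := mul_le_mul_of_nonneg_left hy.le hb
      have h3 : a * Real.log R + b * Real.log R = Real.log R := by rw [← add_mul, hab, one_mul]
      linarith
  have him : (fun z : V 4 => Function.update z 2 (Complex.exp (z 2))) ''
      {z : V 4 | (z 2).re < Real.log R ∧ 0 < R} = fD R := by
    ext y
    simp only [Set.mem_image, Set.mem_ofPred_eq, fD]
    constructor
    · rintro ⟨z, ⟨hz, hR⟩, rfl⟩
      simp only [Function.update_self, Complex.norm_exp]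
      exact ⟨Real.exp_pos _, (Real.lt_log_iff_exp_lt hR).1 hz⟩
    · rintro ⟨h0, h1⟩
      refine ⟨Function.update y 2 (Complex.log (y 2)), ⟨?_, h0.trans h1⟩, ?_⟩
      · simp only [Function.update_self, Complex.log_re]
        exact Real.log_lt_log h0 h1
      · simp only [Function.update_self, Function.update_idem]
        rw [Complex.exp_log (norm_pos_iff.1 h0), Function.update_eq_self]
  rw [← him]
  refine IsPreconnected.image ?_ _ (by fun_prop)
  by_cases hR : 0 < R
  · simpa [hR] using hS.isPreconnected
  · simpa [hR] using isPreconnected_empty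

/-- forget the coordinate `i` -/
def Lz (i : Fin 4) : V 4 →L[ℝ] V 4 :=
  ContinuousLinearMap.pi fun j => if j = i then 0 else ContinuousLinearMap.proj j

theorem update_eq (y : V 4) (i : Fin 4) (s : ℂ) :
    Function.update y i s = Lz i y + Pi.single i s := by
  ext j
  by_cases h : j = i
  · subst h; simp [Lz]
  · simp [Lz, h]

theorem Lz_self (y : V 4) (i : Fin 4) : Lz i y i = 0 := by simp [Lz]

theorem Lz_ne (y : V 4) {i j : Fin 4} (h : j ≠ i) : Lz i y j = y j := by simp [Lz, h]

theorem update_mem_fD {R : ℝ} {y : V 4} (hy : y ∈ fD R) {i : Fin 4} (hi : i ≠ 2) (s : ℂ) :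
    Function.update y i s ∈ fD R := by
  simpa [fD, Function.update_of_ne hi.symm] using hy

variable {R : ℝ} {g : V 4 → Matrix (Fin 4) (Fin 4) ℂ} (hg : KForm g (fD R)) (b : Module.Basis (Fin 2) ℝ ℂ)
  {i : Fin 4} (hi : i ≠ 2) (hper : ∀ y ∈ fD R, ∀ k, g (y + Pi.single i (b k)) = g y)

include hg hi hper

theorem slot_contDiff (p q : Fin 4) {y : V 4} (hy : y ∈ fD R) :
    ContDiff ℝ 1 (fun s => g (Function.update y i s) p q) := by
  refine contDiff_iff_contDiffAt.2 fun s => ?_
  have h1 : ContDiffAt ℝ 1 (fun y => g y p q) (Function.update y i s) :=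
    ((hg.smooth p q).contDiffAt ((isOpen_fD R).mem_nhds (update_mem_fD hy hi s))).of_le (by simp)
  have h2 : ContDiffAt ℝ 1 (fun s : ℂ => Function.update y i s) s := by
    have : (fun s : ℂ => Function.update y i s) = fun s => Lz i y + Pi.single i s := by
      ext s; rw [update_eq]
    rw [this]
    refine ContDiffAt.add contDiffAt_const ?_
    exact (ContinuousLinearMap.single ℝ (fun _ : Fin 4 => ℂ) i).contDiff.contDiffAt
  exact h1.comp s h2

theorem slot_per (p q : Fin 4) {y : V 4} (hy : y ∈ fD R) :
    Per b (fun s => g (Function.update y i s) p q) := by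
  intro k s
  simp only
  have : Function.update y i (s + b k) = Function.update y i s + Pi.single i (b k) := by
    rw [update_eq, update_eq, Pi.single_add, add_assoc]
  rw [this, hper _ (update_mem_fD hy hi s)]

theorem slot_fderiv (p q : Fin 4) {y : V 4} (hy : y ∈ fD R) (s c : ℂ) :
    fderiv ℝ (fun s => g (Function.update y i s) p q) s c =
      fderiv ℝ (fun y => g y p q) (Function.update y i s) (Pi.single i c) := by
  have h1 : DifferentiableAt ℝ (fun y => g y p q) (Function.update y i s) :=
    ((hg.smooth p q).contDiffAt ((isOpen_fD R).mem_nhds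
      (update_mem_fD hy hi s))).differentiableAt (by simp)
  have h2 : HasFDerivAt (fun s : ℂ => Function.update y i s)
      (ContinuousLinearMap.single ℝ (fun _ : Fin 4 => ℂ) i) s := by
    have : (fun s : ℂ => Function.update y i s) = fun s => Lz i y + Pi.single i s := by
      ext s; rw [update_eq]
    rw [this]
    exact (ContinuousLinearMap.single ℝ (fun _ : Fin 4 => ℂ) i).hasFDerivAt.const_add _
  have h3 : HasFDerivAt (fun s : ℂ => g (Function.update y i s) p q)
    ((fderiv ℝ (fun y => g y p q) (Function.update y i s)).comp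
      (ContinuousLinearMap.single ℝ (fun _ : Fin 4 => ℂ) i)) s := h1.hasFDerivAt.comp s h2
  rw [h3.fderiv]
  simp

theorem slot_integral_dZ (p q : Fin 4) {y : V 4} (hy : y ∈ fD R) :
    ∫ s in ZSpan.fundamentalDomain b, dZ i (fun y => g y p q) (Function.update y i s) = 0 := by
  have hc := slot_contDiff hg b hi hper p q hy
  have hp := slot_per hg b hi hper p q hy
  have hd : Continuous (fderiv ℝ (fun s => g (Function.update y i s) p q)) :=
    hc.continuous_fderiv (by norm_num)
  have hint : ∀ c : ℂ, IntegrableOn (fun s => fderiv ℝ (fun s => g (Function.update y i s) p q) s c)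
      (ZSpan.fundamentalDomain b) := fun c =>
    ((hd.clm_apply continuous_const).continuousOn.integrableOn_compact
      (closure_fd_compact b)).mono_set subset_closure
  simp only [dZ, ← slot_fderiv hg b hi hper p q hy]
  rw [integral_div, integral_sub (hint _) ((hint _).const_mul _), integral_const_mul,
    integral_fderiv_eq_zero b volume hp hc, integral_fderiv_eq_zero b volume hp hc]
  simp

theorem slot_integral_dB (p q : Fin 4) {y : V 4} (hy : y ∈ fD R) :
    ∫ s in ZSpan.fundamentalDomain b, dB i (fun y => g y p q) (Function.update y i s) = 0 := by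
  have hc := slot_contDiff hg b hi hper p q hy
  have hp := slot_per hg b hi hper p q hy
  have hd : Continuous (fderiv ℝ (fun s => g (Function.update y i s) p q)) :=
    hc.continuous_fderiv (by norm_num)
  have hint : ∀ c : ℂ, IntegrableOn (fun s => fderiv ℝ (fun s => g (Function.update y i s) p q) s c)
      (ZSpan.fundamentalDomain b) := fun c =>
    ((hd.clm_apply continuous_const).continuousOn.integrableOn_compact
      (closure_fd_compact b)).mono_set subset_closure
  simp only [dB, ← slot_fderiv hg b hi hper p q hy]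
  rw [integral_div, integral_add (hint _) ((hint _).const_mul _), integral_const_mul,
    integral_fderiv_eq_zero b volume hp hc, integral_fderiv_eq_zero b volume hp hc]
  simp

theorem slot_hasFDerivAt {y : V 4} (hy : y ∈ fD R) :
    HasFDerivAt (fun y => ∫ s in ZSpan.fundamentalDomain b, g (Function.update y i s) i i)
      (0 : V 4 →L[ℝ] ℂ) y := by
  have hGd : ContinuousOn (fderiv ℝ (fun y => g y i i)) (fD R) :=
    (hg.smooth i i).continuousOn_fderiv_of_isOpen (isOpen_fD R) (by simp)
  have hupd : Continuous (fun p : V 4 × ℂ => Function.update p.1 i p.2) := by fun_prop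
  have hmaps : Set.MapsTo (fun p : V 4 × ℂ => Function.update p.1 i p.2)
      (fD R ×ˢ closure (ZSpan.fundamentalDomain b)) (fD R) := fun p hp =>
    update_mem_fD hp.1 hi p.2
  have h1 := hasFDerivAt_setIntegral (volume : Measure ℂ) (D := ZSpan.fundamentalDomain b)
    (K := closure (ZSpan.fundamentalDomain b)) (ZSpan.fundamentalDomain_measurableSet b)
    (closure_fd_compact b) subset_closure (isOpen_fD R)
    (f := fun y s => g (Function.update y i s) i i)
    (f' := fun y s => (fderiv ℝ (fun y => g y i i) (Function.update y i s)).comp (Lz i))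
    (fun y hy s _ => by
      have h1 : DifferentiableAt ℝ (fun y => g y i i) (Function.update y i s) :=
        ((hg.smooth i i).contDiffAt ((isOpen_fD R).mem_nhds
          (update_mem_fD hy hi s))).differentiableAt (by simp)
      have h2 : HasFDerivAt (fun y : V 4 => Function.update y i s) (Lz i) y := by
        have : (fun y : V 4 => Function.update y i s) = fun y => Lz i y + Pi.single i s := by
          ext y; rw [update_eq]
        rw [this]
        exact (Lz i).hasFDerivAt.add_const _
      exact h1.hasFDerivAt.comp y h2)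
    ((hg.smooth i i).continuousOn.comp hupd.continuousOn hmaps)
    ((hGd.comp hupd.continuousOn hmaps).clm_comp continuousOn_const) hy
  suffices h0 : ∫ s in ZSpan.fundamentalDomain b,
      (fderiv ℝ (fun y => g y i i) (Function.update y i s)).comp (Lz i) = 0 by rwa [h0] at h1
  refine ContinuousLinearMap.ext fun v => ?_
  rw [ContinuousLinearMap.integral_apply]
  · simp only [ContinuousLinearMap.comp_apply]
    change _ = (0 : ℂ)
    have h2 : ∀ s, fderiv ℝ (fun y => g y i i) (Function.update y i s) (Lz i v) =
        ∑ m, (Lz i v m * dZ i (fun y => g y m i) (Function.update y i s) +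
          star (Lz i v m) * dB i (fun y => g y i m) (Function.update y i s)) := by
      intro s
      rw [fderiv_eq_wirtinger]
      refine Finset.sum_congr rfl fun m _ => ?_
      rw [hg.closed _ (update_mem_fD hy hi s) m i i,
        KForm.closed' (isOpen_fD R) hg (update_mem_fD hy hi s) m i i]
    simp only [h2]
    have hcd : ∀ p q, Continuous (fun s => dZ i (fun y => g y p q) (Function.update y i s)) := by
      intro p q
      have hc := slot_contDiff hg b hi hper p q hy
      have hd : Continuous (fderiv ℝ (fun s => g (Function.update y i s) p q)) :=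
        hc.continuous_fderiv (by norm_num)
      simp only [dZ, ← slot_fderiv hg b hi hper p q hy]
      exact ((hd.clm_apply continuous_const).sub
        (continuous_const.mul (hd.clm_apply continuous_const))).div_const _
    have hcd' : ∀ p q, Continuous (fun s => dB i (fun y => g y p q) (Function.update y i s)) := by
      intro p q
      have hc := slot_contDiff hg b hi hper p q hy
      have hd : Continuous (fderiv ℝ (fun s => g (Function.update y i s) p q)) :=
        hc.continuous_fderiv (by norm_num)
      simp only [dB, ← slot_fderiv hg b hi hper p q hy]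
      exact ((hd.clm_apply continuous_const).add
        (continuous_const.mul (hd.clm_apply continuous_const))).div_const _
    have hint : ∀ {f : ℂ → ℂ}, Continuous f → IntegrableOn f (ZSpan.fundamentalDomain b) :=
      fun hf => (hf.continuousOn.integrableOn_compact (closure_fd_compact b)).mono_set
        subset_closure
    rw [integral_finsetSum]
    · refine Finset.sum_eq_zero fun m _ => ?_
      rw [integral_add, integral_const_mul, integral_const_mul,
        slot_integral_dZ hg b hi hper m i hy, slot_integral_dB hg b hi hper i m hy]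
      · simp
      · exact hint (continuous_const.mul (hcd _ _))
      · exact hint (continuous_const.mul (hcd' _ _))
    · intro m _
      exact (hint (continuous_const.mul (hcd _ _))).add (hint (continuous_const.mul (hcd' _ _)))
  · have : ContinuousOn (fun s => (fderiv ℝ (fun y => g y i i) (Function.update y i s)).comp (Lz i))
        (closure (ZSpan.fundamentalDomain b)) := by
      refine ContinuousOn.clm_comp ?_ continuousOn_const
      exact hGd.comp (Continuous.continuousOn (by fun_prop)) (fun s _ => update_mem_fD hy hi s)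
    exact (this.integrableOn_compact (closure_fd_compact b)).mono_set subset_closure

theorem slot_const {y y' : V 4} (hy : y ∈ fD R) (hy' : y' ∈ fD R) :
    ∫ s in ZSpan.fundamentalDomain b, g (Function.update y i s) i i =
    ∫ s in ZSpan.fundamentalDomain b, g (Function.update y' i s) i i :=
  (isOpen_fD R).is_const_of_fderiv_eq_zero (𝕜 := ℝ) (isPreconnected_fD R)
    (fun _ hz => (slot_hasFDerivAt hg b hi hper hz).differentiableAt.differentiableWithinAt)
    (fun _ hz => (slot_hasFDerivAt hg b hi hper hz).fderiv) hy hy'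

end Slot

section Slice

/-- the inclusion of indices -/
def emb : Fin 3 → Fin 4 := ![0, 1, 3]

theorem emb_inj : Function.Injective emb := by decide

theorem emb_eq : emb = (2 : Fin 4).succAbove := by decide

/-- inclusion of the fibre over `w` -/
def io (w : ℂ) (x : V 3) : V 4 := ![x 0, x 1, w, x 2]

/-- linear part of `io` -/
def ioL : V 3 →L[ℝ] V 4 := ContinuousLinearMap.pi
  ![ContinuousLinearMap.proj 0, ContinuousLinearMap.proj 1, 0, ContinuousLinearMap.proj 2]

theorem io_eq (w : ℂ) (x : V 3) : io w x = ioL x + Pi.single 2 w := by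
  ext j
  fin_cases j <;> simp [io, ioL]

theorem ioL_single (j : Fin 3) (c : ℂ) : ioL (Pi.single j c) = Pi.single (emb j) c := by
  ext i
  fin_cases j <;> fin_cases i <;> simp [ioL, emb]

theorem io_add (w : ℂ) (x v : V 3) : io w (x + v) = io w x + ioL v := by
  rw [io_eq, io_eq, map_add]; abel

theorem hasFDerivAt_io (w : ℂ) (x : V 3) : HasFDerivAt (io w) ioL x := by
  have : io w = fun x => ioL x + Pi.single 2 w := by ext1 x; exact io_eq w x
  rw [this]
  exact ioL.hasFDerivAt.add_const _

theorem contDiff_io (w : ℂ) {N : WithTop ℕ∞} : ContDiff ℝ N (io w) := by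
  have : io w = fun x => ioL x + Pi.single 2 w := by ext1 x; exact io_eq w x
  rw [this]
  exact ioL.contDiff.add contDiff_const

theorem io_mem_fD {R : ℝ} {w : ℂ} (hw : 0 < ‖w‖) (hw' : ‖w‖ < R) (x : V 3) : io w x ∈ fD R := by
  simpa [fD, io] using ⟨norm_pos_iff.1 hw, hw'⟩

theorem fderiv_io {f : V 4 → ℂ} {w : ℂ} {x : V 3} (hf : DifferentiableAt ℝ f (io w x))
    (j : Fin 3) (c : ℂ) : fderiv ℝ (fun x => f (io w x)) x (Pi.single j c) =
      fderiv ℝ f (io w x) (Pi.single (emb j) c) := by
  have h3 : HasFDerivAt (fun x => f (io w x)) ((fderiv ℝ f (io w x)).comp ioL) x :=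
    hf.hasFDerivAt.comp x (hasFDerivAt_io w x)
  rw [h3.fderiv, ContinuousLinearMap.comp_apply, ioL_single]

theorem dZ_io {f : V 4 → ℂ} {w : ℂ} {x : V 3} (hf : DifferentiableAt ℝ f (io w x))
    (j : Fin 3) : dZ j (fun x => f (io w x)) x = dZ (emb j) f (io w x) := by
  simp only [dZ, fderiv_io hf]

/-- the block of `g` along the fibre -/
def blk (g : V 4 → Matrix (Fin 4) (Fin 4) ℂ) (w : ℂ) (x : V 3) : Matrix (Fin 3) (Fin 3) ℂ :=
  (g (io w x)).submatrix emb emb

theorem kform_blk {R : ℝ} {g : V 4 → Matrix (Fin 4) (Fin 4) ℂ} (hg : KForm g (fD R)) {w : ℂ}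
    (hw : 0 < ‖w‖) (hw' : ‖w‖ < R) : KForm (blk g w) Set.univ where
  smooth j k := by
    have := (hg.smooth (emb j) (emb k)).comp (contDiff_io w (N := ∞)).contDiffOn (s := Set.univ)
      (fun x _ => io_mem_fD hw hw' x)
    exact this
  herm z _ := (hg.herm _ (io_mem_fD hw hw' z)).submatrix emb
  closed z _ i j k := by
    have hd : ∀ p q, DifferentiableAt ℝ (fun y => g y p q) (io w z) := fun p q =>
      ((hg.smooth p q).contDiffAt ((isOpen_fD R).mem_nhds
        (io_mem_fD hw hw' z))).differentiableAt (by simp)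
    have h1 := dZ_io (hd (emb j) (emb k)) i
    have h2 := dZ_io (hd (emb i) (emb k)) j
    have h3 := hg.closed _ (io_mem_fD hw hw' z) (emb i) (emb j) (emb k)
    exact (h1.trans h3).trans h2.symm

theorem det_blk (g : V 4 → Matrix (Fin 4) (Fin 4) ℂ) (w : ℂ) (x : V 3) :
    (g (io w x)).adjugate 2 2 = (blk g w x).det := by
  rw [Matrix.adjugate_fin_succ_eq_det_submatrix, blk, emb_eq]
  norm_num

theorem posDef_blk {g : V 4 → Matrix (Fin 4) (Fin 4) ℂ} {w : ℂ} {x : V 3}
    (h : (g (io w x)).PosDef) : (blk g w x).PosDef :=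
  h.submatrix emb_inj

end Slice

section Basis3

variable (s : Fin 3 → Module.Basis (Fin 2) ℝ ℂ)

/-- product basis -/
def bp : Module.Basis (Σ _ : Fin 3, Fin 2) ℝ (V 3) := Pi.basis s

theorem mem_fd_bp (x : V 3) : x ∈ ZSpan.fundamentalDomain (bp s) ↔
    ∀ j, x j ∈ ZSpan.fundamentalDomain (s j) := by
  simp only [ZSpan.mem_fundamentalDomain, bp, Pi.basis_repr]
  constructor
  · intro h j i; exact h ⟨j, i⟩
  · rintro h ⟨j, i⟩; exact h j i

theorem fd_bp : ZSpan.fundamentalDomain (bp s) =
    Set.univ.pi fun j => ZSpan.fundamentalDomain (s j) := by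
  ext x; rw [mem_fd_bp]; simp

theorem vol_fd_bp : volume.real (ZSpan.fundamentalDomain (bp s)) =
    ∏ j, volume.real (ZSpan.fundamentalDomain (s j)) := by
  rw [fd_bp, measureReal_def, volume_pi_pi, ENNReal.toReal_prod]
  rfl

theorem vol_pos (b : Module.Basis (Fin 2) ℝ ℂ) : 0 < volume.real (ZSpan.fundamentalDomain b) := by
  have h1 : volume (ZSpan.fundamentalDomain b) ≠ 0 := ZSpan.measure_fundamentalDomain_ne_zero b
  have h2 : volume (ZSpan.fundamentalDomain b) ≠ ⊤ :=
    (ZSpan.fundamentalDomain_isBounded b).measure_lt_top.ne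
  exact ENNReal.toReal_pos h1 h2

/-- averaging in one slot -/
theorem avg_slot {f : V 3 → ℂ} (hf : Continuous f) (hp : Per (bp s) f) (j : Fin 3) {c : ℂ}
    (hc : ∀ x, ∫ t in ZSpan.fundamentalDomain (s j), f (Function.update x j t) = c) :
    (volume.real (ZSpan.fundamentalDomain (s j)) : ℂ) *
      ∫ x in ZSpan.fundamentalDomain (bp s), f x =
    (volume.real (ZSpan.fundamentalDomain (bp s)) : ℂ) * c := by
  have h1 : ∫ t in ZSpan.fundamentalDomain (s j),
      (∫ x in ZSpan.fundamentalDomain (bp s), f (x + Pi.single j t)) =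
      (volume.real (ZSpan.fundamentalDomain (s j)) : ℂ) *
        ∫ x in ZSpan.fundamentalDomain (bp s), f x := by
    simp only [fun t => setIntegral_add (bp s) volume hp (Pi.single j t)]
    rw [setIntegral_const, Complex.real_smul]
  rw [← h1, integral_integral_swap]
  · have h2 : ∀ x : V 3, ∫ t in ZSpan.fundamentalDomain (s j), f (x + Pi.single j t) = c := by
      intro x
      rw [← hc x]
      have hp' : Per (s j) (fun t => f (Function.update x j t)) := by
        intro i t
        have h3 := hp ⟨j, i⟩ (Function.update x j t)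
        simp only
        rw [← h3]
        congr 1
        ext k
        by_cases hk : k = j
        · subst hk; simp [bp, Pi.basis_apply]
        · simp [bp, Pi.basis_apply, hk]
      rw [← setIntegral_add (s j) volume hp' (x j)]
      congr 1
      ext t
      congr 1
      ext k
      by_cases hk : k = j
      · subst hk; simp [add_comm]
      · simp [hk]
    simp only [h2]
    rw [setIntegral_const, Complex.real_smul]
  · rw [Measure.prod_restrict]
    have hK : IsCompact (closure (ZSpan.fundamentalDomain (s j)) ×ˢ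
      closure (ZSpan.fundamentalDomain (bp s))) := (closure_fd_compact _).prod (closure_fd_compact _)
    have hcont : Continuous (Function.uncurry fun (t : ℂ) (x : V 3) => f (x + Pi.single j t)) := by
      have : Continuous (fun p : ℂ × V 3 => p.2 + (Pi.single j p.1 : V 3)) :=
        continuous_snd.add ((continuous_single j).comp continuous_fst)
      exact hf.comp this
    exact (hcont.continuousOn.integrableOn_compact hK).mono_set
      (Set.prod_mono subset_closure subset_closure)

end Basis3

section Conv

/-- `ℂ × ℂ × ℂ ≃ᵐ ℂ³` -/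
def e3 : (ℂ × ℂ × ℂ) ≃ᵐ V 3 :=
  ((MeasurableEquiv.refl ℂ).prodCongr (MeasurableEquiv.finTwoArrow (α := ℂ)).symm).trans
    (MeasurableEquiv.piFinSuccAbove (fun _ : Fin 3 => ℂ) 0).symm

theorem e3_apply (z : ℂ × ℂ × ℂ) : e3 z = ![z.1, z.2.1, z.2.2] := by
  ext j
  fin_cases j <;> rfl

theorem mp_e3 : MeasurePreserving e3 volume volume := by
  have h1 : MeasurePreserving (MeasurableEquiv.finTwoArrow (α := ℂ)).symm volume volume :=
    (volume_preserving_finTwoArrow ℂ).symm _
  have h2 : MeasurePreserving ((MeasurableEquiv.refl ℂ).prodCongr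
      (MeasurableEquiv.finTwoArrow (α := ℂ)).symm) volume volume :=
    (MeasurePreserving.id volume).prod h1
  have h3 : MeasurePreserving (MeasurableEquiv.piFinSuccAbove (fun _ : Fin 3 => ℂ) 0).symm
      volume volume := (volume_preserving_piFinSuccAbove (fun _ : Fin 3 => ℂ) 0).symm _
  exact h3.comp h2

theorem continuous_vec3 : Continuous fun z : ℂ × ℂ × ℂ => (![z.1, z.2.1, z.2.2] : V 3) := by
  refine continuous_pi fun j => ?_
  fin_cases j
  · exact continuous_fst
  · exact continuous_fst.comp continuous_snd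
  · exact continuous_snd.comp continuous_snd

variable (s : Fin 3 → Module.Basis (Fin 2) ℝ ℂ)

theorem setIntegral_conv (f : V 3 → ℂ) :
    ∫ x in ZSpan.fundamentalDomain (bp s), f x =
      ∫ z in ZSpan.fundamentalDomain (s 0) ×ˢ ZSpan.fundamentalDomain (s 1) ×ˢ
        ZSpan.fundamentalDomain (s 2), f ![z.1, z.2.1, z.2.2] := by
  rw [← mp_e3.setIntegral_preimage_emb e3.measurableEmbedding]
  congr 1
  · congr 1
    ext z
    rw [Set.mem_preimage, mem_fd_bp, e3_apply]
    constructor
    · intro h; exact ⟨h 0, h 1, h 2⟩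
    · rintro ⟨h0, h1, h2⟩ j
      fin_cases j
      exacts [h0, h1, h2]
  · ext z; rw [e3_apply]

theorem setIntegral_iter {f : V 3 → ℂ} (hf : Continuous f) {A B C KA KB KC : Set ℂ}
    (hA : A ⊆ KA) (hKA : IsCompact KA) (hB : B ⊆ KB) (hKB : IsCompact KB) (hC : C ⊆ KC)
    (hKC : IsCompact KC) :
    ∫ z in A ×ˢ B ×ˢ C, f ![z.1, z.2.1, z.2.2] =
      ∫ z1 in A, ∫ z2 in B, ∫ z3 in C, f ![z1, z2, z3] := by
  have hc : Continuous fun z : ℂ × ℂ × ℂ => f ![z.1, z.2.1, z.2.2] := hf.comp continuous_vec3
  have hint : IntegrableOn (fun z : ℂ × ℂ × ℂ => f ![z.1, z.2.1, z.2.2]) (A ×ˢ B ×ˢ C)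
      (volume.prod volume) :=
    (hc.continuousOn.integrableOn_compact (hKA.prod (hKB.prod hKC))).mono_set
      (Set.prod_mono hA (Set.prod_mono hB hC))
  rw [Measure.volume_eq_prod, setIntegral_prod _ hint]
  congr 1
  ext z1
  have hint2 : IntegrableOn (fun z : ℂ × ℂ => f ![z1, z.1, z.2]) (B ×ˢ C)
      (volume.prod volume) :=
    ((hc.comp (by fun_prop : Continuous fun z : ℂ × ℂ => (z1, z))).continuousOn.integrableOn_compact
      (hKB.prod hKC)).mono_set (Set.prod_mono hB hC)
  rw [Measure.volume_eq_prod, setIntegral_prod _ hint2]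

variable {s}

theorem Per.slot {f : V 3 → ℂ} (hp : Per (bp s) f) (j : Fin 3) (i : Fin 2) (x : V 3) :
    f (x + Pi.single j (s j i)) = f x := by
  have h3 := hp ⟨j, i⟩ x
  simpa [bp, Pi.basis_apply] using h3

theorem flip_int {f : V 3 → ℂ} (hp : Per (bp s) f) {ε1 ε2 : ℂ} (h1 : ε1 = 1 ∨ ε1 = -1)
    (h2 : ε2 = 1 ∨ ε2 = -1) (S : Set ℂ) :
    ∫ z1 in ZSpan.fundamentalDomain (s 0), ∫ z2 in ZSpan.fundamentalDomain (s 1),
      ∫ z3 in S, f ![ε1 * z1, ε2 * z2, z3] =
    ∫ z1 in ZSpan.fundamentalDomain (s 0), ∫ z2 in ZSpan.fundamentalDomain (s 1),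
      ∫ z3 in S, f ![z1, z2, z3] := by
  have e1 : ∀ z1, ∫ z2 in ZSpan.fundamentalDomain (s 1), ∫ z3 in S, f ![z1, ε2 * z2, z3] =
      ∫ z2 in ZSpan.fundamentalDomain (s 1), ∫ z3 in S, f ![z1, z2, z3] := by
    intro z1
    rcases h2 with rfl | rfl
    · simp
    · have hper : Per (s 1) (fun z2 => ∫ z3 in S, f ![z1, z2, z3]) := by
        intro i z2
        simp only
        congr 1
        ext z3
        have := hp.slot 1 i ![z1, z2, z3]
        rw [← this]
        congr 1
        ext k; fin_cases k <;> simp
      simpa using setIntegral_neg (s 1) volume hper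
  simp only [e1]
  rcases h1 with rfl | rfl
  · simp
  · have hper : Per (s 0) (fun z1 => ∫ z2 in ZSpan.fundamentalDomain (s 1),
        ∫ z3 in S, f ![z1, z2, z3]) := by
      intro i z1
      simp only
      congr 1
      ext z2
      congr 1
      ext z3
      have := hp.slot 0 i ![z1, z2, z3]
      rw [← this]
      congr 1
      ext k; fin_cases k <;> simp
    simpa using setIntegral_neg (s 0) volume hper

theorem integral_zero_of_twist {f : V 3 → ℂ} (hf : Continuous f) (hp : Per (bp s) f) {ε1 ε2 c : ℂ}
    (h1 : ε1 = 1 ∨ ε1 = -1) (h2 : ε2 = 1 ∨ ε2 = -1)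
    (h : ∀ z1 z2 z3, f ![z1, z2, z3] = - f ![ε1 * z1, ε2 * z2, z3 + c]) :
    ∫ x in ZSpan.fundamentalDomain (bp s), f x = 0 := by
  rw [setIntegral_conv, setIntegral_iter hf subset_closure (closure_fd_compact _) subset_closure
    (closure_fd_compact _) subset_closure (closure_fd_compact _)]
  set I := ∫ z1 in ZSpan.fundamentalDomain (s 0), ∫ z2 in ZSpan.fundamentalDomain (s 1),
      ∫ z3 in ZSpan.fundamentalDomain (s 2), f ![z1, z2, z3] with hI
  have e1 : ∀ z1 z2, ∫ z3 in ZSpan.fundamentalDomain (s 2), f ![z1, z2, z3] =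
      - ∫ z3 in ZSpan.fundamentalDomain (s 2), f ![ε1 * z1, ε2 * z2, z3] := by
    intro z1 z2
    have hper : Per (s 2) (fun z3 => f ![ε1 * z1, ε2 * z2, z3]) := by
      intro i z3
      simp only
      have := hp.slot 2 i ![ε1 * z1, ε2 * z2, z3]
      rw [← this]
      congr 1
      ext k; fin_cases k <;> simp
    rw [← setIntegral_add (s 2) volume hper c, ← integral_neg]
    congr 1
    ext z3
    exact h z1 z2 z3
  have e2 : I = -I := by
    calc I = ∫ z1 in ZSpan.fundamentalDomain (s 0), ∫ z2 in ZSpan.fundamentalDomain (s 1),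
          - ∫ z3 in ZSpan.fundamentalDomain (s 2), f ![ε1 * z1, ε2 * z2, z3] := by
          rw [hI]
          congr 1
          ext z1
          congr 1
          ext z2
          exact e1 z1 z2
      _ = - ∫ z1 in ZSpan.fundamentalDomain (s 0), ∫ z2 in ZSpan.fundamentalDomain (s 1),
          ∫ z3 in ZSpan.fundamentalDomain (s 2), f ![ε1 * z1, ε2 * z2, z3] := by
          simp only [integral_neg]
      _ = -I := by rw [flip_int hp h1 h2]
  have : I + I = 0 := by nth_rewrite 1 [e2]; ring
  simpa using this

/-- translates of the unit box -/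
def bx (c : ℂ) : Set ℂ := {z | z - c ∈ box 1}

theorem measurableSet_box (c : ℝ) : MeasurableSet (box c) := by
  unfold box
  exact (measurableSet_Ico.preimage Complex.measurable_re).inter
    (measurableSet_Ico.preimage Complex.measurable_im)

theorem measurableSet_bx (c : ℂ) : MeasurableSet (bx c) :=
  (measurableSet_box 1).preimage (measurable_id.sub_const c)

theorem box_two : box 2 = ((bx 0 ∪ bx 1) ∪ bx Complex.I) ∪ bx (1 + Complex.I) := by
  ext z
  simp only [bx, box, Set.mem_ofPred_eq, Set.mem_union, Set.mem_Ico, Complex.sub_re,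
    Complex.sub_im, Complex.zero_re, Complex.zero_im, Complex.one_re, Complex.one_im,
    Complex.I_re, Complex.I_im, Complex.add_re, Complex.add_im]
  constructor
  · rintro ⟨⟨h1, h2⟩, h3, h4⟩
    rcases lt_or_ge z.re 1 with h | h <;> rcases lt_or_ge z.im 1 with h' | h'
    · left; left; left; constructor <;> constructor <;> linarith
    · left; right; constructor <;> constructor <;> linarith
    · left; left; right; constructor <;> constructor <;> linarith
    · right; constructor <;> constructor <;> linarith
  · rintro (((⟨⟨h1, h2⟩, h3, h4⟩ | ⟨⟨h1, h2⟩, h3, h4⟩) | ⟨⟨h1, h2⟩, h3, h4⟩) | ⟨⟨h1, h2⟩, h3, h4⟩) <;>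
      constructor <;> constructor <;> linarith

theorem setIntegral_bx (φ : ℂ → ℂ) (c : ℂ) : ∫ z in bx c, φ z = ∫ z in box 1, φ (z + c) := by
  rw [← (measurePreserving_add_right volume c).setIntegral_preimage_emb
    (measurableEmbedding_addRight c)]
  congr 2
  ext z
  simp [bx]

end Conv

section Final

theorem pull_diag_apply {n : ℕ} (d : Fin n → ℂ) (G : Matrix (Fin n) (Fin n) ℂ) (j k : Fin n) :
    pull (Matrix.diagonal d) G j k = d j * G j k * star (d k) := by
  simp only [pull, Matrix.diagonal_transpose]
  rw [Matrix.mul_apply, Finset.sum_eq_single k]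
  · rw [Matrix.diagonal_mul]; simp
  · intro b _ hb
    simp [hb]
  · simp

theorem io_update (w : ℂ) (x : V 3) (j : Fin 3) (t : ℂ) :
    io w (Function.update x j t) = Function.update (io w x) (emb j) t := by
  ext k
  fin_cases j <;> fin_cases k <;> simp [io, emb]

theorem twist_io (w : ℂ) (a b : ℤ) (x : V 3) : twist a b (io w x) =
    io w ![(-1) ^ a * x 0, (-1) ^ b * x 1, x 2 + a + b * Complex.I] := by
  ext k
  fin_cases k <;> simp [io, twist]

theorem KForm.mono {n : ℕ} {g : V n → Matrix (Fin n) (Fin n) ℂ} {Ω Ω' : Set (V n)}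
    (hg : KForm g Ω) (h : Ω' ⊆ Ω) : KForm g Ω' where
  smooth j k := (hg.smooth j k).mono h
  herm z hz := hg.herm z (h hz)
  closed z hz := hg.closed z (h hz)

theorem blk_twist {g : V 4 → Matrix (Fin 4) (Fin 4) ℂ} {w : ℂ} (a b : ℤ) (x : V 3)
    (h : g (io w x) = pull (twistMat a b) (g (twist a b (io w x)))) :
    blk g w x = pull (Matrix.diagonal ![(-1) ^ a, (-1) ^ b, 1])
      (blk g w ![(-1) ^ a * x 0, (-1) ^ b * x 1, x 2 + a + b * Complex.I]) := by
  ext j k
  rw [pull_diag_apply, blk, blk, Matrix.submatrix_apply, Matrix.submatrix_apply, h, ← twist_io,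
    twistMat, pull_diag_apply]
  fin_cases j <;> fin_cases k <;> simp [emb]

theorem integral_pos {b : Module.Basis (Fin 2) ℝ ℂ} {φ : ℂ → ℝ} (hc : Continuous φ)
    (hp : ∀ s, 0 < φ s) : 0 < ∫ s in ZSpan.fundamentalDomain b, φ s := by
  have hint : IntegrableOn φ (ZSpan.fundamentalDomain b) :=
    (hc.continuousOn.integrableOn_compact (closure_fd_compact b)).mono_set subset_closure
  rw [setIntegral_pos_iff_support_of_nonneg_ae (Filter.Eventually.of_forall fun s => (hp s).le)
    hint]
  have : Function.support φ = Set.univ := by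
    ext s; simp [(hp s).ne']
  rw [this, Set.univ_inter]
  exact pos_iff_ne_zero.2 (ZSpan.measure_fundamentalDomain_ne_zero b)

/-- the constants of the slots -/
theorem slot_exists {R : ℝ} (hR : 0 < R) {g : V 4 → Matrix (Fin 4) (Fin 4) ℂ}
    (hg : KForm g (fD R)) (hpos : ∀ y ∈ fD R, (g y).PosDef)
    (b : Module.Basis (Fin 2) ℝ ℂ) {i : Fin 4} (hi : i ≠ 2)
    (hper : ∀ y ∈ fD R, ∀ k, g (y + Pi.single i (b k)) = g y) :
    ∃ A : ℝ, 0 < A ∧ (∀ y ∈ fD R, ∫ s in ZSpan.fundamentalDomain b,
      g (Function.update y i s) i i = A) ∧ (∀ y ∈ fD R, ∫ s in ZSpan.fundamentalDomain b,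
      (g (Function.update y i s) i i).re = A) := by
  have hy0 : (![0, 0, (R / 2 : ℝ), 0] : V 4) ∈ fD R := by
    simp only [fD, Set.mem_ofPred_eq]
    simp [abs_of_pos hR, hR]
  have hre : ∀ y ∈ fD R, ∀ s, g (Function.update y i s) i i =
      ((g (Function.update y i s) i i).re : ℂ) := by
    intro y hy s
    have h1 := (hg.herm _ (update_mem_fD hy hi s)).apply i i
    have h2 : (g (Function.update y i s) i i).im = 0 := by
      have := congrArg Complex.im h1
      simp at this
      linarith
    apply Complex.ext <;> simp [h2]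
  have hcre : ∀ y ∈ fD R, ∫ s in ZSpan.fundamentalDomain b, g (Function.update y i s) i i =
      ((∫ s in ZSpan.fundamentalDomain b, (g (Function.update y i s) i i).re : ℝ) : ℂ) := by
    intro y hy
    refine Eq.trans ?_ (integral_ofReal (𝕜 := ℂ) (μ := volume.restrict (ZSpan.fundamentalDomain b))
      (f := fun s => (g (Function.update y i s) i i).re))
    congr 1
    ext1 s
    exact hre y hy s
  refine ⟨∫ s in ZSpan.fundamentalDomain b,
    (g (Function.update (![0, 0, (R / 2 : ℝ), 0] : V 4) i s) i i).re, ?_, ?_, ?_⟩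
  · apply integral_pos
    · exact Complex.continuous_re.comp (slot_contDiff hg b hi hper i i hy0).continuous
    · intro s
      exact (Complex.pos_iff.1 ((hpos _ (update_mem_fD hy0 hi s)).diag_pos (i := i))).1
  · intro y hy
    rw [slot_const hg b hi hper hy hy0, hcre _ hy0]
  · intro y hy
    have h1 := slot_const hg b hi hper hy hy0
    rw [hcre _ hy, hcre _ hy0] at h1
    exact_mod_cast h1

end Final

section Final2

/-- the lattice bases -/
def sb : Fin 3 → Module.Basis (Fin 2) ℝ ℂ := ![bE, bE, b2]

theorem zpow_sq_sign (a : ℤ) : ((-1 : ℂ) ^ a) * (-1) ^ a = 1 := by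
  rw [← mul_zpow]; simp

theorem zpow_sign (a : ℤ) : ((-1 : ℂ) ^ a) = 1 ∨ ((-1 : ℂ) ^ a) = -1 := by
  rcases Int.even_or_odd a with h | h
  · left; exact h.neg_one_zpow
  · right; exact h.neg_one_zpow

variable {r : ℕ} {R ρ : ℝ} {g : V 4 → Matrix (Fin 4) (Fin 4) ℂ}
    {gx : Fin 3 → V 4 → Matrix (Fin 4) (Fin 4) ℂ} (h : LocalKahler r R ρ g gx)

include h

theorem lk_kform : KForm g (fD R) := KForm.mono h.kformR fun _ hy => Or.inl hy

theorem lk_pos : ∀ y ∈ fD R, (g y).PosDef := fun y hy => h.posR y (Or.inl hy)

theorem lk_per (j : Fin 3) : ∀ y ∈ fD R, ∀ k, g (y + Pi.single (emb j) (sb j k)) = g y := by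
  intro y hy k
  fin_cases j
  · exact h.per0 _ (bE_mem k) y hy.1 hy.2
  · exact h.per1 _ (bE_mem k) y hy.1 hy.2
  · have key : ∀ a b : ℤ, g (y + Pi.single 3 (2 * a + 2 * b * Complex.I)) = g y := by
      intro a b
      have h1 := h.twistR (2 * a) (2 * b) y (Or.inl hy)
      have ea : ((-1 : ℂ) ^ (2 * a)) = 1 := (even_two_mul a).neg_one_zpow
      have eb : ((-1 : ℂ) ^ (2 * b)) = 1 := (even_two_mul b).neg_one_zpow
      have e1 : GK.twist (2 * a) (2 * b) y = y + Pi.single 3 (2 * a + 2 * b * Complex.I) := by
        ext i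
        fin_cases i
        · simp [GK.twist, ea]
        · simp [GK.twist, eb]
        · simp [GK.twist]
        · simp [GK.twist]; ring
      have e2 : ∀ G : Matrix (Fin 4) (Fin 4) ℂ, pull (twistMat (2 * a) (2 * b)) G = G := by
        intro G
        ext j k
        rw [twistMat, pull_diag_apply, ea, eb]
        fin_cases j <;> fin_cases k <;> simp
      rw [e1, e2] at h1
      exact h1.symm
    have hk : sb 2 k = (![2, 2 * Complex.I] : Fin 2 → ℂ) k := by
      simp [sb, b2, coe_bas]
    change g (y + Pi.single 3 (sb 2 k)) = g y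
    rw [hk]
    fin_cases k
    · simpa using key 1 0
    · simpa using key 0 1

theorem blk_per {w : ℂ} (hw : 0 < ‖w‖) (hw' : ‖w‖ < R) (j k : Fin 3) :
    Per (bp sb) (fun x => blk g w x j k) := by
  rintro ⟨p, i⟩ x
  simp only [blk, Matrix.submatrix_apply]
  have : io w (x + bp sb ⟨p, i⟩) = io w x + Pi.single (emb p) (sb p i) := by
    rw [io_add, bp, Pi.basis_apply, ioL_single]
  rw [this, lk_per h p _ (io_mem_fD hw hw' x)]

theorem blk_tw {w : ℂ} (hw : 0 < ‖w‖) (hw' : ‖w‖ < R) (a b : ℤ) (x : V 3) :
    blk g w x = pull (Matrix.diagonal ![(-1) ^ a, (-1) ^ b, 1])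
      (blk g w ![(-1) ^ a * x 0, (-1) ^ b * x 1, x 2 + a + b * Complex.I]) :=
  blk_twist a b x (h.twistR a b _ (Or.inl (io_mem_fD hw hw' x)))

theorem blk_offdiag {w : ℂ} (hw : 0 < ‖w‖) (hw' : ‖w‖ < R) {j k : Fin 3} (hjk : j ≠ k) :
    ∫ x in ZSpan.fundamentalDomain (bp sb), blk g w x j k = 0 := by
  have hc : Continuous (fun x => blk g w x j k) :=
    (contDiffOn_univ.1 ((kform_blk (lk_kform h) hw hw').smooth j k)).continuous
  have hp := blk_per h hw hw' j k
  by_cases h0 : j = 0 ∨ k = 0
  · refine integral_zero_of_twist hc hp (ε1 := -1) (ε2 := 1) (c := 1) (Or.inr rfl) (Or.inl rfl) ?_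
    intro z1 z2 z3
    have h1 := congrFun (congrFun (blk_tw h hw hw' 1 0 ![z1, z2, z3]) j) k
    rw [pull_diag_apply] at h1
    rw [h1]
    rcases h0 with rfl | rfl
    · fin_cases k
      · exact absurd rfl hjk
      · simp
      · simp
    · fin_cases j
      · exact absurd rfl hjk
      · simp
      · simp
  · push Not at h0
    refine integral_zero_of_twist hc hp (ε1 := 1) (ε2 := -1) (c := Complex.I) (Or.inl rfl)
      (Or.inr rfl) ?_
    intro z1 z2 z3
    have h1 := congrFun (congrFun (blk_tw h hw hw' 0 1 ![z1, z2, z3]) j) k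
    rw [pull_diag_apply] at h1
    rw [h1]
    fin_cases j <;> fin_cases k <;> simp_all

end Final2

section Final3

variable {r : ℕ} {R ρ : ℝ} {g : V 4 → Matrix (Fin 4) (Fin 4) ℂ}
    {gx : Fin 3 → V 4 → Matrix (Fin 4) (Fin 4) ℂ} (h : LocalKahler r R ρ g gx)

include h

theorem blk_diag {w : ℂ} (hw : 0 < ‖w‖) (hw' : ‖w‖ < R) (j : Fin 3) {A : ℝ}
    (hA : ∀ y ∈ fD R, ∫ s in ZSpan.fundamentalDomain (sb j),
      g (Function.update y (emb j) s) (emb j) (emb j) = A) :
    ∫ x in ZSpan.fundamentalDomain (bp sb), blk g w x j j =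
      (volume.real (ZSpan.fundamentalDomain (bp sb)) : ℂ) *
        ((A / volume.real (ZSpan.fundamentalDomain (sb j)) : ℝ) : ℂ) := by
  have hc : Continuous (fun x => blk g w x j j) :=
    (contDiffOn_univ.1 ((kform_blk (lk_kform h) hw hw').smooth j j)).continuous
  have h1 := avg_slot sb hc (blk_per h hw hw' j j) j (c := (A : ℂ)) (by
    intro x
    rw [← hA _ (io_mem_fD hw hw' x)]
    simp only [blk, Matrix.submatrix_apply, io_update])
  have hv := (vol_pos (sb j)).ne'
  have hv' : (volume.real (ZSpan.fundamentalDomain (sb j)) : ℂ) ≠ 0 := by exact_mod_cast hv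
  apply mul_left_cancel₀ hv'
  rw [h1]
  push_cast
  field_simp

/-- integral of the determinant over the torus -/
theorem det_total {w : ℂ} (hw : 0 < ‖w‖) (hw' : ‖w‖ < R) {A : Fin 3 → ℝ} (hpos : ∀ j, 0 < A j)
    (hA : ∀ j, ∀ y ∈ fD R, ∫ s in ZSpan.fundamentalDomain (sb j),
      g (Function.update y (emb j) s) (emb j) (emb j) = A j) :
    ∫ x in ZSpan.fundamentalDomain (bp sb), (blk g w x).det = ((A 0 * A 1 * A 2 : ℝ) : ℂ) := by
  let v : Fin 3 → ℝ := fun j => volume.real (ZSpan.fundamentalDomain (sb j))
  have hv : ∀ j, 0 < v j := fun j => vol_pos (sb j)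
  let m : Matrix (Fin 3) (Fin 3) ℂ := Matrix.diagonal fun j => ((A j / v j : ℝ) : ℂ)
  have hm : m.PosDef := by
    refine Matrix.PosDef.diagonal fun j => ?_
    have : 0 < A j / v j := div_pos (hpos j) (hv j)
    exact_mod_cast this
  have h1 := integral_det (bp sb) (kform_blk (lk_kform h) hw hw') (blk_per h hw hw')
    (fun x => posDef_blk (lk_pos h _ (io_mem_fD hw hw' x))) hm (by
      intro j k
      by_cases hjk : j = k
      · subst hjk
        rw [blk_diag h hw hw' j (hA j)]
        simp [m, v]
      · rw [blk_offdiag h hw hw' hjk]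
        simp [m, hjk])
  rw [h1, vol_fd_bp, Matrix.det_diagonal, Fin.prod_univ_three, Fin.prod_univ_three]
  have h0 := (hv 0).ne'
  have h1 := (hv 1).ne'
  have h2 := (hv 2).ne'
  simp only [v] at h0 h1 h2
  rw [← Complex.ofReal_mul, ← Complex.ofReal_mul, ← Complex.ofReal_mul]
  congr 1
  simp only [v]
  field_simp

/-- the determinant is invariant under the twists -/
theorem det_tw {w : ℂ} (hw : 0 < ‖w‖) (hw' : ‖w‖ < R) (a b : ℤ) (z1 z2 z3 : ℂ) :
    (blk g w ![z1, z2, z3 + (a + b * Complex.I)]).det =
      (blk g w ![(-1) ^ a * z1, (-1) ^ b * z2, z3]).det := by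
  have h1 := blk_tw h hw hw' a b ![(-1) ^ a * z1, (-1) ^ b * z2, z3]
  rw [h1, det_pull]
  have e1 : (![(-1) ^ a * (![(-1) ^ a * z1, (-1) ^ b * z2, z3] : V 3) 0,
      (-1) ^ b * (![(-1) ^ a * z1, (-1) ^ b * z2, z3] : V 3) 1,
      (![(-1) ^ a * z1, (-1) ^ b * z2, z3] : V 3) 2 + a + b * Complex.I] : V 3) =
      ![z1, z2, z3 + (a + b * Complex.I)] := by
    ext k
    fin_cases k
    · simp [← mul_assoc, zpow_sq_sign]
    · simp [← mul_assoc, zpow_sq_sign]
    · simp [add_assoc]
  rw [e1, Matrix.det_diagonal, Fin.prod_univ_three]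
  have e2 : Complex.normSq ((![(-1) ^ a, (-1) ^ b, 1] : Fin 3 → ℂ) 0 *
      (![(-1) ^ a, (-1) ^ b, 1] : Fin 3 → ℂ) 1 * (![(-1) ^ a, (-1) ^ b, 1] : Fin 3 → ℂ) 2) = 1 := by
    rcases zpow_sign a with ha | ha <;> rcases zpow_sign b with hb | hb <;> simp [ha, hb]
  rw [e2]
  simp

/-- integral over the box of side 1 -/
theorem det_box {w : ℂ} (hw : 0 < ‖w‖) (hw' : ‖w‖ < R) {T : ℂ}
    (hT : ∫ x in ZSpan.fundamentalDomain (bp sb), (blk g w x).det = T) :
    4 * ∫ z in fundE ×ˢ fundE ×ˢ box 1, (blk g w ![z.1, z.2.1, z.2.2]).det = T := by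
  have hc : Continuous (fun x => (blk g w x).det) :=
    (contDiff_det (N := ∞) fun j k =>
      contDiffOn_univ.1 ((kform_blk (lk_kform h) hw hw').smooth j k)).continuous
  have hp : Per (bp sb) (fun x => (blk g w x).det) := by
    intro i x
    have : blk g w (x + bp sb i) = blk g w x := by
      ext j k; exact blk_per h hw hw' j k i x
    simp only [this]
  have hE : fundE ⊆ closure (ZSpan.fundamentalDomain bE) := by
    rw [← fd_bE]; exact subset_closure
  have hB : box 2 ⊆ closure (ZSpan.fundamentalDomain b2) := by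
    rw [← fd_b2]; exact subset_closure
  have hbx : ∀ c ∈ ({0, 1, Complex.I, 1 + Complex.I} : Set ℂ), bx c ⊆ box 2 := by
    intro c hc
    rw [box_two]
    rcases hc with rfl | rfl | rfl | rfl
    · exact fun z hz => Or.inl (Or.inl (Or.inl hz))
    · exact fun z hz => Or.inl (Or.inl (Or.inr hz))
    · exact fun z hz => Or.inl (Or.inr hz)
    · exact fun z hz => Or.inr hz
  have hbox : box 1 = bx 0 := by ext z; simp [bx]
  have hcomp : Continuous fun z : ℂ × ℂ × ℂ => (blk g w ![z.1, z.2.1, z.2.2]).det :=
    hc.comp continuous_vec3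
  have hint : ∀ S : Set ℂ, S ⊆ box 2 → IntegrableOn
      (fun z : ℂ × ℂ × ℂ => (blk g w ![z.1, z.2.1, z.2.2]).det) (fundE ×ˢ fundE ×ˢ S) := by
    intro S hS
    exact (hcomp.continuousOn.integrableOn_compact ((closure_fd_compact bE).prod
      ((closure_fd_compact bE).prod (closure_fd_compact b2)))).mono_set
      (Set.prod_mono hE (Set.prod_mono hE (hS.trans hB)))
  have hmE : MeasurableSet fundE := by
    rw [← fd_bE]; exact ZSpan.fundamentalDomain_measurableSet bE
  -- each translate gives the same contribution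
  have hI : ∀ (a b : ℤ), bx (a + b * Complex.I) ⊆ box 2 →
      ∫ z in fundE ×ˢ fundE ×ˢ bx (a + b * Complex.I), (blk g w ![z.1, z.2.1, z.2.2]).det =
      ∫ z in fundE ×ˢ fundE ×ˢ box 1, (blk g w ![z.1, z.2.1, z.2.2]).det := by
    intro a b hab
    rw [setIntegral_iter hc hE (closure_fd_compact _) hE (closure_fd_compact _) (hab.trans hB)
      (closure_fd_compact _), setIntegral_iter hc hE (closure_fd_compact _) hE
      (closure_fd_compact _) ((hbox ▸ hbx 0 (by simp)).trans hB) (closure_fd_compact _)]
    simp only [setIntegral_bx, det_tw h hw hw' a b]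
    have h2 := flip_int hp (zpow_sign a) (zpow_sign b) (box 1)
    have hs0 : ZSpan.fundamentalDomain (sb 0) = fundE := fd_bE
    have hs1 : ZSpan.fundamentalDomain (sb 1) = fundE := fd_bE
    rw [hs0, hs1] at h2
    exact h2
  have h00 := hI 0 0 (by simpa using hbx 0 (by simp))
  have h10 := hI 1 0 (by simpa using hbx 1 (by simp))
  have h01 := hI 0 1 (by simpa using hbx Complex.I (by simp))
  have h11 := hI 1 1 (by simpa using hbx (1 + Complex.I) (by simp))
  simp only [Int.cast_zero, Int.cast_one, zero_mul, one_mul, zero_add, add_zero] at h00 h10 h01 h11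
  rw [← hT, setIntegral_conv]
  have hs0 : ZSpan.fundamentalDomain (sb 0) = fundE := fd_bE
  have hs1 : ZSpan.fundamentalDomain (sb 1) = fundE := fd_bE
  have hs2 : ZSpan.fundamentalDomain (sb 2) = box 2 := fd_b2
  rw [hs0, hs1, hs2, box_two, Set.prod_union, Set.prod_union, Set.prod_union, Set.prod_union,
    Set.prod_union, Set.prod_union]
  have hdisj : ∀ {S T : Set ℂ}, Disjoint S T → Disjoint (fundE ×ˢ fundE ×ˢ S)
      (fundE ×ˢ fundE ×ˢ T) := by
    intro S T hST
    refine Set.disjoint_left.2 fun z hz hz' => ?_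
    exact Set.disjoint_left.1 hST hz.2.2 hz'.2.2
  have hmeas : ∀ c, MeasurableSet (fundE ×ˢ fundE ×ˢ bx c) := fun c =>
    hmE.prod (hmE.prod (measurableSet_bx c))
  have hne : ∀ {c d : ℂ}, (1 ≤ |(c - d).re| ∨ 1 ≤ |(c - d).im|) → Disjoint (bx c) (bx d) := by
    intro c d hcd
    refine Set.disjoint_left.2 fun z hz hz' => ?_
    simp only [bx, box, Set.mem_ofPred_eq, Set.mem_Ico, Complex.sub_re, Complex.sub_im] at hz hz'
    obtain ⟨⟨h1, h2⟩, h3, h4⟩ := hz
    obtain ⟨⟨h5, h6⟩, h7, h8⟩ := hz'
    rcases hcd with h9 | h9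
    · rcases le_abs.1 h9 with h10 | h10 <;> simp only [Complex.sub_re] at h10 <;> linarith
    · rcases le_abs.1 h9 with h10 | h10 <;> simp only [Complex.sub_im] at h10 <;> linarith
  have i0 := hint _ (hbx 0 (by simp))
  have i1 := hint _ (hbx 1 (by simp))
  have i2 := hint _ (hbx Complex.I (by simp))
  have i3 := hint _ (hbx (1 + Complex.I) (by simp))
  rw [setIntegral_union _ (hmeas _) ((i0.union i1).union i2) i3,
    setIntegral_union _ (hmeas _) (i0.union i1) i2,
    setIntegral_union _ (hmeas _) i0 i1, h00, h10, h01, h11]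
  · ring
  · exact hdisj (hne (by simp))
  · exact Disjoint.union_left (hdisj (hne (by simp))) (hdisj (hne (by simp)))
  · refine Disjoint.union_left (Disjoint.union_left (hdisj (hne (by simp)))
      (hdisj (hne (by simp)))) (hdisj (hne (by simp)))

end Final3

end KT

open KT in
/-- The volume of the fibres: `V = A₀ A₁ α`. -/
theorem fibre_volume {r : ℕ} {R ρ : ℝ} {g : V 4 → Matrix (Fin 4) (Fin 4) ℂ}
    {gx : Fin 3 → V 4 → Matrix (Fin 4) (Fin 4) ℂ} (h : LocalKahler r R ρ g gx) :
    ∃ A0 A1 α : ℝ, 0 < A0 ∧ 0 < A1 ∧ 0 < α ∧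
      (∀ w : ℂ, 0 < ‖w‖ → ‖w‖ < R → fibVol g w = A0 * A1 * α) ∧
      (∀ y : V 4, 0 < ‖y 2‖ → ‖y 2‖ < R →
        ∫ s in fundE, (g (Function.update y 0 s) 0 0).re = A0) ∧
      (∀ y : V 4, 0 < ‖y 2‖ → ‖y 2‖ < R →
        ∫ s in fundE, (g (Function.update y 1 s) 1 1).re = A1) ∧
      (∀ y : V 4, 0 < ‖y 2‖ → ‖y 2‖ < R →
        ∫ s in box 2, (g (Function.update y 3 s) 3 3).re = 4 * α) := by
  have hex : ∀ j : Fin 3, ∃ A : ℝ, 0 < A ∧ (∀ y ∈ fD R, ∫ s in ZSpan.fundamentalDomain (sb j),
      g (Function.update y (emb j) s) (emb j) (emb j) = A) ∧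
      (∀ y ∈ fD R, ∫ s in ZSpan.fundamentalDomain (sb j),
      (g (Function.update y (emb j) s) (emb j) (emb j)).re = A) := fun j =>
    slot_exists h.R_pos (lk_kform h) (lk_pos h) (sb j) (by fin_cases j <;> decide) (lk_per h j)
  choose A hA1 hA2 hA3 using hex
  refine ⟨A 0, A 1, A 2 / 4, hA1 0, hA1 1, div_pos (hA1 2) four_pos, ?_, ?_, ?_, ?_⟩
  · intro w hw hw'
    have h1 := det_box h hw hw' (det_total h hw hw' hA1 hA2)
    have h2 : fibVol g w = (∫ z in fundE ×ˢ fundE ×ˢ box 1,
        (blk g w ![z.1, z.2.1, z.2.2]).det).re := by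
      rw [fibVol]
      have hc : Continuous (fun x => (blk g w x).det) :=
        (contDiff_det (N := ∞) fun j k =>
          contDiffOn_univ.1 ((kform_blk (lk_kform h) hw hw').smooth j k)).continuous
      have hE : fundE ⊆ closure (ZSpan.fundamentalDomain bE) := by
        rw [← fd_bE]; exact subset_closure
      have hB : box 1 ⊆ closure (ZSpan.fundamentalDomain b2) := by
        refine Set.Subset.trans ?_ subset_closure
        rw [fd_b2, box_two]
        intro z hz
        exact Or.inl (Or.inl (Or.inl (by simpa [bx] using hz)))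
      have hint : IntegrableOn
          (fun z : ℂ × ℂ × ℂ => (blk g w ![z.1, z.2.1, z.2.2]).det) (fundE ×ˢ fundE ×ˢ box 1) :=
        ((hc.comp continuous_vec3).continuousOn.integrableOn_compact ((closure_fd_compact bE).prod
          ((closure_fd_compact bE).prod (closure_fd_compact b2)))).mono_set
          (Set.prod_mono hE (Set.prod_mono hE hB))
      have h3 := integral_re (𝕜 := ℂ) hint
      rw [show (∫ z in fundE ×ˢ fundE ×ˢ box 1, (blk g w ![z.1, z.2.1, z.2.2]).det).re =
        RCLike.re (∫ z in fundE ×ˢ fundE ×ˢ box 1, (blk g w ![z.1, z.2.1, z.2.2]).det) from rfl,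
        ← h3]
      congr 1
      ext z
      rw [← det_blk]
      rfl
    rw [h2]
    have h4 := congrArg Complex.re h1
    rw [Complex.mul_re, Complex.ofReal_re] at h4
    norm_num at h4
    linarith
  · intro y h1 h2
    have := hA3 0 y ⟨h1, h2⟩
    rwa [show ZSpan.fundamentalDomain (sb 0) = fundE from fd_bE] at this
  · intro y h1 h2
    have := hA3 1 y ⟨h1, h2⟩
    rwa [show ZSpan.fundamentalDomain (sb 1) = fundE from fd_bE] at this
  · intro y h1 h2
    have := hA3 2 y ⟨h1, h2⟩
    rw [show ZSpan.fundamentalDomain (sb 2) = box 2 from fd_b2] at this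
    rw [show (emb 2 : Fin 4) = 3 from rfl] at this
    rw [this]; ring

end

end GK
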