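import Pool.Agent.GK.Local
import Pool.Agent.GK.Base

/-! # Arithmetic of the Eisenstein lattice and of the roots of unity -/

open scoped ContDiff Topology
open MeasureTheory

namespace GK

noncomputable section

theorem xi_re : xi.re = 1 / 2 := by
  unfold xi
  rw [show (Real.pi * Complex.I / 3 : ℂ) = ((Real.pi / 3 : ℝ) : ℂ) * Complex.I by push_cast; ring]
  rw [Complex.exp_ofReal_mul_I_re, Real.cos_pi_div_three]

theorem xi_im : xi.im = Real.sqrt 3 / 2 := by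
  unfold xi
  rw [show (Real.pi * Complex.I / 3 : ℂ) = ((Real.pi / 3 : ℝ) : ℂ) * Complex.I by push_cast; ring]
  rw [Complex.exp_ofReal_mul_I_im, Real.sin_pi_div_three]

theorem xi_sq : xi ^ 2 = xi - 1 := by
  apply Complex.ext
  · rw [pow_two, Complex.mul_re, Complex.sub_re, xi_re, xi_im, Complex.one_re]
    have := Real.mul_self_sqrt (show (0 : ℝ) ≤ 3 by norm_num)
    nlinarith
  · rw [pow_two, Complex.mul_im, Complex.sub_im, xi_re, xi_im, Complex.one_im]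
    ring

theorem xi_cube : xi ^ 3 = -1 := by
  rw [pow_succ, xi_sq]
  have := xi_sq
  linear_combination this

theorem xi_pow6 : xi ^ 6 = 1 := by
  rw [show (6 : ℕ) = 3 * 2 by norm_num, pow_mul, xi_cube]; norm_num

theorem xi_ne_zero : xi ≠ 0 := Complex.exp_ne_zero _

theorem mem_Eis {z : ℂ} : z ∈ Eis ↔ ∃ a b : ℤ, z = a + b * xi := Iff.rfl

theorem Eis_mul {x y : ℂ} (hx : x ∈ Eis) (hy : y ∈ Eis) : x * y ∈ Eis := by
  obtain ⟨a, b, rfl⟩ := hx
  obtain ⟨c, d, rfl⟩ := hy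
  refine ⟨a * c - b * d, a * d + b * c + b * d, ?_⟩
  have := xi_sq
  push_cast
  linear_combination (b * d : ℂ) * this

theorem one_mem_Eis : (1 : ℂ) ∈ Eis := ⟨1, 0, by simp⟩

theorem xi_mem_Eis : xi ∈ Eis := ⟨0, 1, by simp⟩

theorem xi_pow_mem (k : ℕ) : xi ^ k ∈ Eis := by
  induction k with
  | zero => simpa using one_mem_Eis
  | succ k ih => rw [pow_succ]; exact Eis_mul ih xi_mem_Eis

theorem intCast_mem_Eis (a : ℤ) : (a : ℂ) ∈ Eis := ⟨a, 0, by simp⟩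

theorem neg_one_zpow_mem_Eis (a : ℤ) : ((-1 : ℂ) ^ a) ∈ Eis := by
  rcases Int.even_or_odd a with h | h
  · rw [h.neg_one_zpow]; exact one_mem_Eis
  · rw [h.neg_one_zpow]; exact Eis.neg_mem one_mem_Eis

theorem normSq_Eis (a b : ℤ) : Complex.normSq ((a : ℂ) + b * xi) = ((a ^ 2 + a * b + b ^ 2 : ℤ) : ℝ) := by
  rw [Complex.normSq_apply]
  have h1 : ((a : ℂ) + b * xi).re = a + b / 2 := by
    simp [Complex.add_re, Complex.mul_re, xi_re, xi_im]; ring
  have h2 : ((a : ℂ) + b * xi).im = b * (Real.sqrt 3 / 2) := by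
    simp [Complex.add_im, Complex.mul_im, xi_re, xi_im]
  rw [h1, h2]
  have := Real.mul_self_sqrt (show (0 : ℝ) ≤ 3 by norm_num)
  push_cast
  linear_combination (b : ℝ) ^ 2 / 4 * this

theorem one_le_normSq_of_mem {z : ℂ} (hz : z ∈ Eis) (h0 : z ≠ 0) : 1 ≤ Complex.normSq z := by
  obtain ⟨a, b, rfl⟩ := hz
  have hpos : 0 < Complex.normSq ((a : ℂ) + b * xi) := Complex.normSq_pos.2 h0
  rw [normSq_Eis] at hpos ⊢
  have : (0 : ℤ) < a ^ 2 + a * b + b ^ 2 := by exact_mod_cast hpos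
  exact_mod_cast this

theorem one_le_norm_of_mem {z : ℂ} (hz : z ∈ Eis) (h0 : z ≠ 0) : 1 ≤ ‖z‖ := by
  have := one_le_normSq_of_mem hz h0
  rw [Complex.normSq_eq_norm_sq] at this
  nlinarith [norm_nonneg z]

theorem eq_zero_of_mem_of_norm_lt {z : ℂ} (hz : z ∈ Eis) (h : ‖z‖ < 1) : z = 0 := by
  by_contra h0
  exact absurd (one_le_norm_of_mem hz h0) (not_le.2 h)

/-- discrete closed sets -/
theorem isClosed_of_sep {S : Set ℂ} {ε : ℝ} (hε : 0 < ε)
    (h : ∀ x ∈ S, ∀ y ∈ S, dist x y < ε → x = y) : IsClosed S := by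
  rw [← isSeqClosed_iff_isClosed]
  intro u a hu ha
  have hc := ha.cauchySeq
  rw [Metric.cauchySeq_iff'] at hc
  obtain ⟨n, hn⟩ := hc ε hε
  have hconst : ∀ m ≥ n, u m = u n := fun m hm => h _ (hu m) _ (hu n) (hn m hm)
  have : Filter.Tendsto u Filter.atTop (nhds (u n)) :=
    tendsto_const_nhds.congr' (Filter.eventually_atTop.2 ⟨n, fun m hm => (hconst m hm).symm⟩)
  rw [tendsto_nhds_unique ha this]
  exact hu n

theorem isClosed_Eis : IsClosed (Eis : Set ℂ) := by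
  refine isClosed_of_sep one_pos fun x hx y hy hxy => ?_
  rw [dist_eq_norm] at hxy
  exact sub_eq_zero.1 (eq_zero_of_mem_of_norm_lt (Eis.sub_mem hx hy) hxy)

/-- Gaussian integers -/
def Gau : AddSubgroup ℂ where
  carrier := {z | ∃ a b : ℤ, z = a + b * Complex.I}
  add_mem' := by
    rintro x y ⟨a, b, rfl⟩ ⟨c, d, rfl⟩
    exact ⟨a + c, b + d, by push_cast; ring⟩
  zero_mem' := ⟨0, 0, by simp⟩
  neg_mem' := by
    rintro x ⟨a, b, rfl⟩
    exact ⟨-a, -b, by push_cast; ring⟩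

theorem gau_eq_of_norm_lt {a b c d : ℤ}
    (h : ‖((a : ℂ) + b * Complex.I) - (c + d * Complex.I)‖ < 1) : a = c ∧ b = d := by
  have h1 : ((a : ℂ) + b * Complex.I) - (c + d * Complex.I) =
      ((a - c : ℤ) : ℂ) + ((b - d : ℤ) : ℂ) * Complex.I := by push_cast; ring
  rw [h1] at h
  have hre := Complex.abs_re_le_norm (((a - c : ℤ) : ℂ) + ((b - d : ℤ) : ℂ) * Complex.I)
  have him := Complex.abs_im_le_norm (((a - c : ℤ) : ℂ) + ((b - d : ℤ) : ℂ) * Complex.I)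
  have e1 : (((a - c : ℤ) : ℂ) + ((b - d : ℤ) : ℂ) * Complex.I).re = ((a - c : ℤ) : ℝ) := by
    simp
  have e2 : (((a - c : ℤ) : ℂ) + ((b - d : ℤ) : ℂ) * Complex.I).im = ((b - d : ℤ) : ℝ) := by
    simp
  rw [e1] at hre
  rw [e2] at him
  have h2 : |((a - c : ℤ) : ℝ)| < 1 := lt_of_le_of_lt hre h
  have h3 : |((b - d : ℤ) : ℝ)| < 1 := lt_of_le_of_lt him h
  have h4 : |a - c| < 1 := by exact_mod_cast h2
  have h5 : |b - d| < 1 := by exact_mod_cast h3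
  rw [Int.abs_lt_one_iff] at h4 h5
  exact ⟨sub_eq_zero.1 h4, sub_eq_zero.1 h5⟩

theorem isClosed_Gau : IsClosed (Gau : Set ℂ) := by
  refine isClosed_of_sep one_pos fun x hx y hy hxy => ?_
  obtain ⟨a, b, rfl⟩ := hx
  obtain ⟨c, d, rfl⟩ := hy
  rw [dist_eq_norm] at hxy
  obtain ⟨rfl, rfl⟩ := gau_eq_of_norm_lt hxy
  rfl

/-! ### roots of unity -/

theorem zetaN_ne_zero (N : ℕ) : zetaN N ≠ 0 := Complex.exp_ne_zero _

theorem zetaN_pow_self {N : ℕ} (hN : 0 < N) : zetaN N ^ N = 1 := by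
  unfold zetaN
  rw [← Complex.exp_nat_mul]
  have : (N : ℂ) * (2 * Real.pi * Complex.I / N) = 2 * Real.pi * Complex.I := by
    have : (N : ℂ) ≠ 0 := by exact_mod_cast hN.ne'
    field_simp
  rw [this, Complex.exp_two_pi_mul_I]

theorem zetaN_eq {N : ℕ} (hN : 0 < N) (h6 : N ∣ 6) : zetaN N = xi ^ (6 / N) := by
  obtain ⟨m, hm⟩ := h6
  have hm' : 6 / N = m := by rw [hm]; exact Nat.mul_div_cancel_left m hN
  rw [hm']
  unfold zetaN xi
  rw [← Complex.exp_nat_mul]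
  congr 1
  have hN' : (N : ℂ) ≠ 0 := by exact_mod_cast hN.ne'
  have hm2 : (6 : ℂ) = N * m := by exact_mod_cast hm
  field_simp
  linear_combination hm2

theorem zetaN_pow_mem {N : ℕ} (hN : 0 < N) (h6 : N ∣ 6) (k : ℕ) : zetaN N ^ k ∈ Eis := by
  rw [zetaN_eq hN h6, ← pow_mul]; exact xi_pow_mem _

theorem norm_zetaN (N : ℕ) : ‖zetaN N‖ = 1 := by
  unfold zetaN
  rw [show (2 * Real.pi * Complex.I / N : ℂ) = ((2 * Real.pi / N : ℝ) : ℂ) * Complex.I by
    push_cast; ring]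
  exact Complex.norm_exp_ofReal_mul_I _

theorem zetaN_isPrimitiveRoot {N : ℕ} (hN : 0 < N) : IsPrimitiveRoot (zetaN N) N := by
  have := Complex.isPrimitiveRoot_exp N hN.ne'
  exact this

/-- `2√-3 / (ξ^k - 1) ∈ Eis` for `6 ∤ k` -/
theorem exists_mul_eq_sqrt {k : ℕ} (hk : ¬ 6 ∣ k) :
    ∃ c ∈ Eis, c * (xi ^ k - 1) = 2 * (2 * xi - 1) := by
  have h6 := xi_pow6
  have hk' : xi ^ k = xi ^ (k % 6) := by
    conv_lhs => rw [← Nat.div_add_mod k 6, pow_add, pow_mul, h6, one_pow, one_mul]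
  rw [hk']
  have hlt : k % 6 < 6 := Nat.mod_lt _ (by norm_num)
  have hne : k % 6 ≠ 0 := fun h => hk (Nat.dvd_of_mod_eq_zero h)
  have h2 := xi_sq
  have h3 := xi_cube
  generalize k % 6 = j at hlt hne ⊢
  interval_cases j
  · exact absurd rfl hne
  · -- xi - 1 = xi^2 ; c = 2 (2 xi - 1) xi^4 = 2(2xi-1) * (-xi)
    refine ⟨2 * (2 * xi - 1) * (-xi), ?_, ?_⟩
    · refine Eis_mul (Eis_mul ?_ ?_) (Eis.neg_mem xi_mem_Eis)
      · simpa using intCast_mem_Eis 2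
      · exact ⟨-1, 2, by push_cast; ring⟩
    · linear_combination (2 * (1 - 2 * xi)) * (h2)
  · -- xi^2 - 1 = xi - 2 = (2xi-1) xi ; c = 2 xi^{-1} = 2 (1 - xi)
    refine ⟨2 * (1 - xi), ?_, ?_⟩
    · refine Eis_mul ?_ ?_
      · simpa using intCast_mem_Eis 2
      · exact ⟨1, -1, by push_cast; ring⟩
    · linear_combination (2 * (1 - xi)) * h2 + (-2) * h2
  · refine ⟨-(2 * xi - 1), ?_, ?_⟩
    · exact ⟨1, -2, by push_cast; ring⟩
    · rw [h3]; ring
  · -- xi^4 = -xi ; xi^4 - 1 = -(1+xi) ; (1+xi) = (2xi-1)*(1-xi)... 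
    refine ⟨-2 * xi, ?_, ?_⟩
    · exact ⟨0, -2, by push_cast; ring⟩
    · have h4 : xi ^ 4 = -xi := by rw [pow_succ, h3]; ring
      rw [h4]
      linear_combination (2 : ℂ) * h2
  · refine ⟨2 * (2 * xi - 1) * (xi - 1), ?_, ?_⟩
    · refine Eis_mul (Eis_mul ?_ ?_) ?_
      · simpa using intCast_mem_Eis 2
      · exact ⟨-1, 2, by push_cast; ring⟩
      · exact ⟨-1, 1, by push_cast; ring⟩
    · have h5 : xi ^ 5 = -(xi - 1) := by
        rw [show (5 : ℕ) = 3 + 2 by norm_num, pow_add, h3, h2]; ring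
      rw [h5]
      linear_combination (2 * (1 - 2 * xi)) * h2

theorem special_of_zeta {N : ℕ} (hN : 0 < N) (h6 : N ∣ 6) {k : ℕ} (hk : ¬ N ∣ k) {z : ℂ}
    (hz : (zetaN N ^ k - 1) * z ∈ Eis) : 2 * (2 * xi - 1) * z ∈ Eis := by
  obtain ⟨m, hm⟩ := h6
  have hm' : 6 / N = m := by rw [hm]; exact Nat.mul_div_cancel_left m hN
  have hm0 : 0 < m := by
    rcases Nat.eq_zero_or_pos m with h | h
    · rw [h] at hm; omega
    · exact h
  have h1 : ¬ 6 ∣ m * k := by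
    intro h
    rw [hm, mul_comm N m] at h
    exact hk (Nat.dvd_of_mul_dvd_mul_left hm0 h)
  obtain ⟨c, hc, hc'⟩ := exists_mul_eq_sqrt h1
  rw [zetaN_eq hN ⟨m, hm⟩, hm', ← pow_mul] at hz
  rw [← hc', mul_assoc]
  exact Eis_mul hc hz

theorem normSq_sqrt3 : Complex.normSq (2 * (2 * xi - 1)) = 12 := by
  have : (2 * (2 * xi - 1) : ℂ) = ((-2 : ℤ) : ℂ) + ((4 : ℤ) : ℂ) * xi := by push_cast; ring
  rw [this, normSq_Eis]; norm_num

/-- separation of special values -/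
theorem special_sep {z z' : ℂ} (h : 2 * (2 * xi - 1) * z ∈ Eis) (h' : 2 * (2 * xi - 1) * z' ∈ Eis)
    (hd : ‖z - z'‖ < 1 / 4) : z = z' := by
  by_contra hne
  have h1 : 2 * (2 * xi - 1) * (z - z') ∈ Eis := by
    rw [mul_sub]; exact Eis.sub_mem h h'
  have h2 : 2 * (2 * xi - 1) * (z - z') ≠ 0 := by
    refine mul_ne_zero ?_ (sub_ne_zero.2 hne)
    intro h0
    have := normSq_sqrt3
    rw [h0] at this
    simp at this
  have h3 := one_le_normSq_of_mem h1 h2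
  rw [Complex.normSq_mul, normSq_sqrt3, Complex.normSq_eq_norm_sq] at h3
  nlinarith [norm_nonneg (z - z')]

end

end GK
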