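import Pool.Agent.GK.Piola

/-!
# Local objects near the main fibre (flat coordinates)

Coordinates on `V 4`: `y 0, y 1` on `ℂ/Λ`, `y 2` the coordinate of the base curve, `y 3` the
coordinate of the last torus.
-/

open scoped ContDiff Topology ComplexOrder
open MeasureTheory

namespace GK

noncomputable section

/-- squared norm of the first three coordinates -/
def E3 (y : V 4) : ℝ := Complex.normSq (y 0) + Complex.normSq (y 1) + Complex.normSq (y 2)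

/-- primitive 6th root of unity -/
def xi : ℂ := Complex.exp (Real.pi * Complex.I / 3)

/-- the Eisenstein lattice `ℤ + ℤ ξ` -/
def Eis : AddSubgroup ℂ where
  carrier := {z | ∃ a b : ℤ, z = a + b * xi}
  add_mem' := by
    rintro x y ⟨a, b, rfl⟩ ⟨c, d, rfl⟩
    exact ⟨a + c, b + d, by push_cast; ring⟩
  zero_mem' := ⟨0, 0, by simp⟩
  neg_mem' := by
    rintro x ⟨a, b, rfl⟩
    exact ⟨-a, -b, by push_cast; ring⟩

/-- fundamental parallelogram of `Eis` -/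
def fundE : Set ℂ := {z | ∃ a b : ℝ, a ∈ Set.Ico (0 : ℝ) 1 ∧ b ∈ Set.Ico (0 : ℝ) 1 ∧ z = a + b * xi}

/-- the square `[0,c)² ⊂ ℂ` -/
def box (c : ℝ) : Set ℂ := {z | z.re ∈ Set.Ico 0 c ∧ z.im ∈ Set.Ico 0 c}

/-- the deck transformation `(z₀, z₁, w, t) ↦ ((-1)^a z₀, (-1)^b z₁, w, t + a + b i)` -/
def twist (a b : ℤ) (y : V 4) : V 4 :=
  ![(-1) ^ a * y 0, (-1) ^ b * y 1, y 2, y 3 + a + b * Complex.I]

def twistMat (a b : ℤ) : Matrix (Fin 4) (Fin 4) ℂ :=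
  Matrix.diagonal ![(-1) ^ a, (-1) ^ b, 1, 1]

/-- The chart of the (quotient of the) blow-up: `v = y_j^r` in slot `j`, `u_i = y_i / y_j` in the
other slots. -/
def excMap (r : ℕ) (j : Fin 3) (y : V 4) : V 4 := fun i =>
  if i = j.castSucc then y j.castSucc ^ r else if i = 3 then y 3 else y i / y j.castSucc

/-- `1 + |u|²` in the exceptional chart `j` -/
def excNorm (j : Fin 3) (u : V 4) : ℝ :=
  1 + ∑ i : Fin 3, if i = j then 0 else Complex.normSq (u i.castSucc)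

/-- domain of the exceptional chart: `E3 < ρ`, i.e. `|v|² (1+|u|²)^r < ρ^r` -/
def excDom (r : ℕ) (ρ : ℝ) (j : Fin 3) : Set (V 4) :=
  {u | Complex.normSq (u j.castSucc) * excNorm j u ^ r < ρ ^ r}

/-- A Kähler metric near a special point: `g` on `0 < E3 < ρ`, `gx j` its expressions in the three
exceptional charts. -/
structure LocalExc (r : ℕ) (ρ : ℝ) (g : V 4 → Matrix (Fin 4) (Fin 4) ℂ)
    (gx : Fin 3 → V 4 → Matrix (Fin 4) (Fin 4) ℂ) : Prop where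
  r_pos : 0 < r
  ρ_pos : 0 < ρ
  kform : KForm g {y | 0 < E3 y ∧ E3 y < ρ}
  pos : ∀ y, 0 < E3 y → E3 y < ρ → (g y).PosDef
  kformx : ∀ j, KForm (gx j) (excDom r ρ j)
  posx : ∀ j, ∀ u ∈ excDom r ρ j, (gx j u).PosDef
  rel : ∀ j, ∀ y, E3 y < ρ → y j.castSucc ≠ 0 →
    g y = pull (jac (excMap r j) y) (gx j (excMap r j y))
  twist : ∀ a b : ℤ, ∀ y, 0 < E3 y → E3 y < ρ → g y = pull (twistMat a b) (g (twist a b y))

/-- domain near the main fibre -/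
def fibDom (R ρ : ℝ) : Set (V 4) := {y | 0 < ‖y 2‖ ∧ ‖y 2‖ < R} ∪ {y | 0 < E3 y ∧ E3 y < ρ}

/-- A Kähler metric near a main fibre. -/
structure LocalKahler (r : ℕ) (R ρ : ℝ) (g : V 4 → Matrix (Fin 4) (Fin 4) ℂ)
    (gx : Fin 3 → V 4 → Matrix (Fin 4) (Fin 4) ℂ) : Prop extends LocalExc r ρ g gx where
  R_pos : 0 < R
  kformR : KForm g (fibDom R ρ)
  posR : ∀ y ∈ fibDom R ρ, (g y).PosDef
  per0 : ∀ l ∈ Eis, ∀ y, 0 < ‖y 2‖ → ‖y 2‖ < R → g (y + Pi.single 0 l) = g y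
  per1 : ∀ l ∈ Eis, ∀ y, 0 < ‖y 2‖ → ‖y 2‖ < R → g (y + Pi.single 1 l) = g y
  twistR : ∀ a b : ℤ, ∀ y ∈ fibDom R ρ, g y = pull (twistMat a b) (g (GK.twist a b y))

/-- Cut-off of the logarithm. -/
structure IsCut (f : ℝ → ℝ) (ρ : ℝ) : Prop where
  smooth : ContDiff ℝ ∞ f
  left : ∃ c L, ∀ l, l < L → f l = l + c
  right : ∃ L, L < Real.log ρ ∧ ∀ l, L < l → f l = 0

/-- the flux `-∫ ω³ ∧ ∂∂̄ f(log |x|²)` through a special point -/
def flux (f : ℝ → ℝ) (g : V 4 → Matrix (Fin 4) (Fin 4) ℂ) : ℝ :=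
  -∫ y in {y : V 4 | 0 < E3 y ∧ y 3 ∈ box 1}, (∑ j, ∑ k, (g y).adjugate k j *
    levi (fun w => ((f (Real.log (E3 w)) : ℝ) : ℂ)) y j k).re

/-- the volume of the fibre over `w` -/
def fibVol (g : V 4 → Matrix (Fin 4) (Fin 4) ℂ) (w : ℂ) : ℝ :=
  ∫ z in fundE ×ˢ fundE ×ˢ box 1, ((g ![z.1, z.2.1, w, z.2.2]).adjugate 2 2).re

/-- `∂_j log E3` -/
def rad (y : V 4) : V 4 := fun j => if j = 3 then 0 else star (y j) / (E3 y : ℂ)

/-- `b = a + ∂l ⊗ ∂̄l` -/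
def addRad (a : V 4 → Matrix (Fin 4) (Fin 4) ℂ) (y : V 4) : Matrix (Fin 4) (Fin 4) ℂ :=
  a y + Matrix.vecMulVec (rad y) (star (rad y))

/-- scaling of the first three coordinates -/
def scale (c : ℂ) (y : V 4) : V 4 := ![c * y 0, c * y 1, c * y 2, y 3]

def scaleMat (c : ℂ) : Matrix (Fin 4) (Fin 4) ℂ := Matrix.diagonal ![c, c, c, 1]

/-- Closed, scale invariant form on `(ℂ³ \ 0) × ℂ` (a Kähler form on `ℙ² × ℂ/2ℤ[i]`). -/
structure Cone (a : V 4 → Matrix (Fin 4) (Fin 4) ℂ) : Prop where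
  kform : KForm a {y | 0 < E3 y}
  kernel : ∀ y, 0 < E3 y → ∀ k, ∑ j : Fin 3, y j.castSucc * a y j.castSucc k = 0
  hom : ∀ y, 0 < E3 y → ∀ c : ℂ, c ≠ 0 → a y = pull (scaleMat c) (a (scale c y))
  pos : ∀ y, 0 < E3 y → (addRad a y).PosDef
  per : ∀ y, 0 < E3 y → ∀ p q : ℤ, a (y + Pi.single 3 (2 * p + 2 * q * Complex.I)) = a y

/-- the shell functional -/
def shell (k : ℝ → ℝ) (a : V 4 → Matrix (Fin 4) (Fin 4) ℂ) : ℝ :=
  ∫ y in {y : V 4 | 0 < E3 y ∧ y 3 ∈ box 2}, k (Real.log (E3 y)) * (addRad a y).det.re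

/-- weights for the shell functional -/
structure IsWeight (k : ℝ → ℝ) : Prop where
  smooth : ContDiff ℝ ∞ k
  compact : HasCompactSupport k
  nonneg : ∀ l, 0 ≤ k l
  int : ∫ l, k l = 1

end

end GK
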