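import Pool.Agent.GK.GenCompat
import Pool.Agent.GK.GlueMetric

/-!
# Definitions for the metrics on `M(𝔅)`
-/

open scoped ContDiff Topology ComplexOrder
open MeasureTheory

namespace GK

noncomputable section

variable {B : BaseCurve}

/-- main special points: lattice points over the main points of the curve -/
def IsMn (q : Qt B) : Prop := B.main q.2.2 ∧ q.1 ∈ Eis ∧ q.2.1 ∈ Eis

/-- special points invariant under the sign changes -/
def TS (q : Qt B) : Prop := 2 * q.1 ∈ Eis ∧ 2 * q.2.1 ∈ Eis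

/-- the matrices of a metric near the special point `q` -/
def locG (g : HermitianMetric 4 (presM B).Mfd) (q : Qt B) (y : V 4) : Matrix (Fin 4) (Fin 4) ℂ :=
  ((presM B).ofMetric g).g (Sum.inl (B.ch q.2.2)) (cen q + y)

/-- the matrices of a metric in the exceptional charts -/
def locX (g : HermitianMetric 4 (presM B).Mfd) (q : Qt B) (j : Fin 3) (u : V 4) :
    Matrix (Fin 4) (Fin 4) ℂ :=
  ((presM B).ofMetric g).g (Sum.inr (q, j)) u

/-- a fundamental domain for the rotations of order `r` on `ℂ \ 0` -/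
def sec (r : ℕ) : Set ℂ := {w | w ≠ 0 ∧ (w ^ r) ^ (1 / (r : ℂ)) = w}

/-- radial profiles -/
structure IsProfile (r : ℕ) (τ p q : ℝ) (φ F : ℝ → ℝ) : Prop where
  τ_pos : 0 < τ
  q_pos : 0 < q
  q_lt : q < p
  smooth : ContDiffOn ℝ ∞ φ (Set.Ioi 0)
  eq_self : ∀ x, p ≤ x → φ x = x
  pos : ∀ x, 0 < x → 0 < deriv φ x ∧ 0 < deriv φ x + x * deriv (deriv φ) x
  F_smooth : ContDiff ℝ ∞ F
  F_pos : 0 < deriv F 0
  eq : ∀ x, 0 < x → x < q → φ x = τ * Real.log x + F (x ^ r)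

/-- the function on `E × E × C × ℂ_t` equal to `ψ q (E3)` near the special point `q`, and `0`
away from the special points -/
def SF (ψ : Qt B → ℝ → ℝ) (x : XA B) : ℝ :=
  open Classical in
  if h : ∃ p : Qt B × V 4, Spec p.1 ∧ E3 p.2 < 1 / 64 ∧ posq p.1 p.2 = x then
    ψ h.choose.1 (E3 h.choose.2) else 0

/-- Data for the metrics on `M(𝔅)`: `S` is the function `G^{1/2}` of the blueprint. -/
structure GData (B : BaseCurve) where
  S : ℂ → ℂ → ℝ
  S_smooth : ContDiff ℝ ∞ (fun z : ℂ × ℂ => S z.1 z.2)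
  S_pos : ∀ z0 z1, 0 < S z0 z1
  S_per0 : ∀ l ∈ Eis, ∀ z0 z1, S (z0 + l) z1 = S z0 z1
  S_per1 : ∀ l ∈ Eis, ∀ z0 z1, S z0 (z1 + l) = S z0 z1
  S_mult : ∀ (k : ℕ) (a b : ℤ) (z0 z1 : ℂ), S (mult B.N k a * z0) (mult B.N k b * z1) = S z0 z1
  τ : Qt B → ℝ
  p : Qt B → ℝ
  pp : Qt B → ℝ
  qs : Qt B → ℝ
  φ : Qt B → ℝ → ℝ
  F : Qt B → ℝ → ℝ
  prof : ∀ q, Spec q → IsProfile (ro q) (τ q) (p q) (qs q) (φ q) (F q)
  p_lt : ∀ q, Spec q → p q < pp q
  P : ℝ
  P_pos : 0 < P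
  P_lt : P < 1 / 64
  pp_le : ∀ q, Spec q → pp q ≤ P
  φ_act : ∀ (γ : Gam) (q : Qt B), φ (actQ γ q) = φ q
  one : ∀ q, Spec q → ∀ z0 z1, Complex.normSq (z0 - q.1) + Complex.normSq (z1 - q.2.1) < pp q →
    S z0 z1 = 1

/-- the correction of the potential near the special points -/
def GData.ψ (A : GData B) (q : Qt B) (x : ℝ) : ℝ := A.φ q x - x

/-- the metric in the regular charts -/
def GData.gReg (A : GData B) (D : MetricData B) (i : B.κ) (y : V 4) : Matrix (Fin 4) (Fin 4) ℂ :=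
  Matrix.diagonal ![((A.S (y 0) (y 1) : ℝ) : ℂ), ((A.S (y 0) (y 1) : ℝ) : ℂ),
    ((D.K i (y 2) / A.S (y 0) (y 1) : ℝ) : ℂ), 1] +
  levi (fun w => ((SF A.ψ (posA i w) : ℝ) : ℂ)) y

/-- the metric in the exceptional charts near the exceptional divisor -/
def GData.gExc (A : GData B) (q : Qt B) (j : Fin 3) (u : V 4) : Matrix (Fin 4) (Fin 4) ℂ :=
  levi (fun w => ((A.τ q * Real.log (excNorm j w) +
    A.F q (Complex.normSq (w j.castSucc) * excNorm j w ^ ro q) + Complex.normSq (w 3) : ℝ) : ℂ)) u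

/-- the exponents `(ro q - 3) f_q(log E3)` of the metric on the anticanonical bundle -/
def θc (f : Qt B → ℝ → ℝ) (q : Qt B) (x : ℝ) : ℝ := ((ro q : ℝ) - 3) * f q (Real.log x)

/-- the metric on the anticanonical bundle in the regular charts -/
def hReg (D : MetricData B) (f : Qt B → ℝ → ℝ) (i : B.κ) (y : V 4) : ℝ :=
  D.H i (y 2) * Real.exp (SF (θc f) (posA i y))

/-- families of cut-offs -/
structure IsCutFam (f : Qt B → ℝ → ℝ) (P : ℝ) : Prop where
  cut : ∀ q, Spec q → IsCut (f q) (1 / 64)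
  right : ∀ q, Spec q → ∀ x, P ≤ x → f q (Real.log x) = 0
  act : ∀ (γ : Gam) (q : Qt B), f (actQ γ q) = f q
  P_pos : 0 < P
  P_lt : P < 1 / 64

end

end GK
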