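import Pool.Agent.GK.MDefs

/-! # Module Sector: integrals over sectors -/

open scoped ContDiff Topology ComplexOrder
open MeasureTheory

namespace GK

noncomputable section

theorem measurableSet_sec (r : ℕ) : MeasurableSet (sec r) := by
  have h1 : MeasurableSet {w : ℂ | w ≠ 0} := (measurableSet_singleton (0 : ℂ)).compl
  have h2 : MeasurableSet {w : ℂ | (w ^ r) ^ (1 / (r : ℂ)) = w} :=
    measurableSet_eq_fun ((measurable_id.pow_const r).pow_const _) measurable_id
  exact h1.inter h2

theorem zero_notMem_sec (r : ℕ) : (0 : ℂ) ∉ sec r := fun h => h.1 rfl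

/-- `sec r` is a fundamental domain for the rotations -/
theorem sec_unique {r : ℕ} (hr : 0 < r) {μ : ℂ} (hμ : IsPrimitiveRoot μ r) {w : ℂ} (hw : w ≠ 0) :
    ∃! m, m < r ∧ μ ^ m * w ∈ sec r := by
  have hr' : r ≠ 0 := hr.ne'
  set w0 : ℂ := (w ^ r) ^ (1 / (r : ℂ)) with hw0
  have hp : w0 ^ r = w ^ r := by
    rw [hw0, one_div, Complex.cpow_nat_inv_pow _ hr']
  have hw0ne : w0 ≠ 0 := by
    intro h
    rw [h, zero_pow hr'] at hp
    exact pow_ne_zero r hw hp.symm
  have hq : (w0 / w) ^ r = 1 := by
    rw [div_pow, hp, div_self (pow_ne_zero r hw)]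
  have : NeZero r := ⟨hr'⟩
  obtain ⟨m, hm, hmw⟩ := hμ.eq_pow_of_pow_eq_one hq
  have hmw' : μ ^ m * w = w0 := by rw [hmw, div_mul_cancel₀ _ hw]
  refine ⟨m, ⟨hm, ?_⟩, ?_⟩
  · rw [hmw']
    refine ⟨hw0ne, ?_⟩
    rw [hp]
  · rintro k ⟨hk, hks⟩
    have h1 : ((μ ^ k * w) ^ r) ^ (1 / (r : ℂ)) = μ ^ k * w := hks.2
    have h2 : (μ ^ k * w) ^ r = w ^ r := by
      rw [mul_pow, ← pow_mul, mul_comm k r, pow_mul, hμ.pow_eq_one, one_pow, one_mul]
    rw [h2, ← hw0, ← hmw'] at h1
    exact (hμ.pow_inj hm hk (mul_right_cancel₀ hw h1)).symm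

theorem iterate_embedding {α : Type*} [MeasurableSpace α] {T : α → α} (hT : MeasurableEmbedding T)
    (m : ℕ) : MeasurableEmbedding (T^[m]) := by
  induction m with
  | zero => exact MeasurableEmbedding.id
  | succ m ih => rw [Function.iterate_succ]; exact ih.comp hT

/-- integrals of invariant functions over a fundamental domain -/
theorem integral_fund {α : Type*} [MeasurableSpace α] {ν : Measure α} {T : α → α}
    (hT : MeasurePreserving T ν ν) (hTe : MeasurableEmbedding T) {S : Set α}
    (hS : MeasurableSet S) {r : ℕ} (hr : 0 < r) (hu : ∀ᵐ x ∂ν, ∃! m, m < r ∧ T^[m] x ∈ S)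
    {f : α → ℝ} (hf : ∀ x, f (T x) = f x) :
    ∫ x in S, f x ∂ν = (1 / r) * ∫ x, f x ∂ν := by
  have hfm : ∀ m x, f (T^[m] x) = f x := by
    intro m
    induction m with
    | zero => intro x; rfl
    | succ m ih => intro x; rw [Function.iterate_succ_apply, ih, hf]
  have hA : ∀ m, MeasurableSet ((T^[m]) ⁻¹' S) := fun m => (hT.measurable.iterate m) hS
  have hI : ∀ m, ∫ x in (T^[m]) ⁻¹' S, f x ∂ν = ∫ x in S, f x ∂ν := by
    intro m
    have := (hT.iterate m).setIntegral_preimage_emb (iterate_embedding hTe m) f S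
    simpa only [hfm] using this
  have hr' : (r : ℝ) ≠ 0 := by exact_mod_cast hr.ne'
  by_cases hi : Integrable f ν
  · have h1 : ∫ x, f x ∂ν = ∫ x, ∑ m ∈ Finset.range r, ((T^[m]) ⁻¹' S).indicator f x ∂ν := by
      apply integral_congr_ae
      filter_upwards [hu] with x hx
      obtain ⟨m, ⟨hm, hmS⟩, hun⟩ := hx
      rw [Finset.sum_eq_single m]
      · rw [Set.indicator_of_mem]; exact hmS
      · intro k hk hkm
        rw [Set.indicator_of_notMem]
        intro hkS
        exact hkm (hun k ⟨Finset.mem_range.1 hk, hkS⟩)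
      · intro h; exact absurd (Finset.mem_range.2 hm) h
    rw [integral_finsetSum] at h1
    · have h2 : ∀ m ∈ Finset.range r, ∫ x, ((T^[m]) ⁻¹' S).indicator f x ∂ν = ∫ x in S, f x ∂ν := by
        intro m _
        rw [integral_indicator (hA m), hI m]
      rw [Finset.sum_congr rfl h2, Finset.sum_const, Finset.card_range, nsmul_eq_mul] at h1
      rw [h1]; field_simp
    · intro m _
      exact hi.indicator (hA m)
  · have hn : ¬ IntegrableOn f S ν := by
      intro hS'
      apply hi
      have h3 : ∀ m ∈ Finset.range r, IntegrableOn f ((T^[m]) ⁻¹' S) ν := by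
        intro m _
        have := ((hT.iterate m).integrableOn_comp_preimage (iterate_embedding hTe m)
          (f := f) (s := S)).2 hS'
        have he : f ∘ T^[m] = f := funext (hfm m)
        rwa [he] at this
      have h4 : IntegrableOn f (⋃ m ∈ Finset.range r, (T^[m]) ⁻¹' S) ν :=
        integrableOn_finset_iUnion.2 h3
      have h5 : (⋃ m ∈ Finset.range r, (T^[m]) ⁻¹' S) =ᵐ[ν] Set.univ := by
        filter_upwards [hu] with x hx
        obtain ⟨m, ⟨hm, hmS⟩, _⟩ := hx
        apply propext
        constructor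
        · intro _; trivial
        · intro _
          exact Set.mem_iUnion₂.2 ⟨m, Finset.mem_range.2 hm, hmS⟩
      rw [← integrableOn_univ]
      exact h4.congr_set_ae h5.symm
    rw [integral_undef hi, mul_zero, integral_undef hn]

theorem norm_root {r : ℕ} (hr : 0 < r) {μ : ℂ} (hμ : IsPrimitiveRoot μ r) : ‖μ‖ = 1 :=
  hμ.norm'_eq_one hr.ne'

theorem preserving_mul {μ : ℂ} (hμ : ‖μ‖ = 1) : MeasurePreserving (fun w : ℂ => μ * w) := by
  have h := (rotation (⟨μ, mem_sphere_zero_iff_norm.2 hμ⟩ : Circle)).measurePreserving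
  convert h using 1
  funext w
  rw [rotation_apply]

theorem iterate_mul (μ : ℂ) (m : ℕ) (w : ℂ) : (fun w : ℂ => μ * w)^[m] w = μ ^ m * w := by
  induction m generalizing w with
  | zero => simp
  | succ m ih => rw [Function.iterate_succ_apply, ih, pow_succ, mul_assoc]

/-- integrals of rotation invariant functions over a sector (plane) -/
theorem integral_sec {r : ℕ} (hr : 0 < r) {μ : ℂ} (hμ : IsPrimitiveRoot μ r) {f : ℂ → ℝ}
    (hf : ∀ w, f (μ * w) = f w) (hi : Integrable f) : ∫ w in sec r, f w = (1 / r) * ∫ w, f w := by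
  have hμ1 := norm_root hr hμ
  have hμ0 : μ ≠ 0 := by intro h; rw [h, norm_zero] at hμ1; exact zero_ne_one hμ1
  apply integral_fund (preserving_mul hμ1) _ (measurableSet_sec r) hr _ hf
  · apply Continuous.measurableEmbedding (by fun_prop)
    intro a b hab
    exact mul_left_cancel₀ hμ0 hab
  · have h0 : ∀ᵐ w : ℂ, w ≠ 0 := by
      rw [ae_iff]; simp
    filter_upwards [h0] with w hw
    simp only [iterate_mul]
    exact sec_unique hr hμ hw

theorem scale_eq (μ : ℂ) : scale μ = fun (y : V 4) (i : Fin 4) =>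
    (![fun w => μ * w, fun w => μ * w, fun w => μ * w, fun w => w] : Fin 4 → ℂ → ℂ) i (y i) := by
  funext y i
  fin_cases i <;> rfl

theorem iterate_scale (μ : ℂ) (m : ℕ) (y : V 4) : (scale μ)^[m] y = scale (μ ^ m) y := by
  induction m generalizing y with
  | zero =>
    funext i
    fin_cases i <;> simp [scale]
  | succ m ih =>
    rw [Function.iterate_succ_apply, ih]
    funext i
    fin_cases i <;> simp [scale, pow_succ, mul_assoc]

/-- integrals of rotation invariant functions over a sector (local coordinates) -/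
theorem integral_sec4 {r : ℕ} (hr : 0 < r) {μ : ℂ} (hμ : IsPrimitiveRoot μ r) {f : V 4 → ℝ}
    (hf : ∀ y, f (scale μ y) = f y) :
    ∫ y in {y : V 4 | y 2 ∈ sec r}, f y = (1 / r) * ∫ y, f y := by
  have hμ1 := norm_root hr hμ
  have hμ0 : μ ≠ 0 := by intro h; rw [h, norm_zero] at hμ1; exact zero_ne_one hμ1
  have hmp : MeasurePreserving (scale μ) := by
    rw [scale_eq]
    apply volume_preserving_pi
    intro i
    fin_cases i
    · exact preserving_mul hμ1
    · exact preserving_mul hμ1
    · exact preserving_mul hμ1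
    · exact MeasurePreserving.id _
  have hemb : MeasurableEmbedding (scale μ) := by
    apply Continuous.measurableEmbedding
    · unfold scale
      apply continuous_pi
      intro i
      fin_cases i <;> simp <;> fun_prop
    · intro a b hab
      funext i
      have h := congrFun hab i
      fin_cases i
      · simpa [scale, hμ0] using h
      · simpa [scale, hμ0] using h
      · simpa [scale, hμ0] using h
      · simpa [scale] using h
  have hS : MeasurableSet {y : V 4 | y 2 ∈ sec r} := measurable_pi_apply 2 (measurableSet_sec r)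
  apply integral_fund hmp hemb hS hr _ hf
  have h0 : ∀ᵐ y : V 4, y 2 ≠ 0 := by
    have h := Measure.ae_eval_ne (μ := fun _ : Fin 4 => (volume : Measure ℂ)) 2 0
    exact h
  filter_upwards [h0] with y hy
  simp only [iterate_scale]
  exact sec_unique hr hμ hy

end

end GK
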