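import Pool.Agent.GK.Reps
import Pool.Agent.GK.Sector

/-! # Module Pieces: decomposition of integrals over `M(𝔅)` -/

open scoped ContDiff Topology ComplexOrder
open MeasureTheory

namespace GK

noncomputable section

variable {B : BaseCurve}

/-- fundamental domain of the part of `M` over an annulus -/
def pA (σ : B.Sp) : Set (V 4) :=
  {y | y 0 ∈ fundE ∧ y 1 ∈ fundE ∧ y 2 ∈ sec (ro ((0, 0, σ) : Qt B)) ∧ 1 / 8 ≤ ‖y 2‖ ∧
    ‖y 2‖ < 1 / 2 ∧ y 3 ∈ box 1}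

/-- fundamental domain of the part of `M` near a special point -/
def pB (q : Qt B) : Set (V 4) :=
  {y | E3 (y - cen q) < 1 / 64 ∧ y 2 ∈ sec (ro q) ∧ y 3 ∈ box 1}

/-- the integrand in the regular chart `ch σ` -/
def dens (g : HermitianMetric 4 (presM B).Mfd) (φ : (presM B).Mfd → ℝ) (σ : B.Sp) (y : V 4) : ℝ :=
  φ ((presM B).proj (Sum.inl (B.ch σ)) y) *
    (2 ^ 4 * (((presM B).ofMetric g).g (Sum.inl (B.ch σ)) y).det.re)

/-! ### fundamental domains of the lattices -/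

theorem pc_xi_im : xi.im ≠ 0 := by rw [xi_im]; positivity

theorem pc_mem_fundE {z : ℂ} : z ∈ fundE ↔
    z.re - z.im / xi.im * xi.re ∈ Set.Ico (0 : ℝ) 1 ∧ z.im / xi.im ∈ Set.Ico (0 : ℝ) 1 := by
  have hxi := pc_xi_im
  constructor
  · rintro ⟨a, b, ha, hb, rfl⟩
    have h1 : ((a : ℂ) + b * xi).im = b * xi.im := by simp
    have h2 : ((a : ℂ) + b * xi).re = a + b * xi.re := by simp
    rw [h1, h2, mul_div_cancel_right₀ _ hxi, add_sub_cancel_right]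
    exact ⟨ha, hb⟩
  · rintro ⟨ha, hb⟩
    refine ⟨_, _, ha, hb, ?_⟩
    apply Complex.ext
    · simp
    · simp [hxi]

theorem pc_measurableSet_fundE : MeasurableSet fundE := by
  have h : fundE = (fun z : ℂ => z.re - z.im / xi.im * xi.re) ⁻¹' Set.Ico (0 : ℝ) 1 ∩
      (fun z : ℂ => z.im / xi.im) ⁻¹' Set.Ico (0 : ℝ) 1 := by
    ext z; exact pc_mem_fundE
  rw [h]
  have c1 : Continuous fun z : ℂ => z.re - z.im / xi.im * xi.re :=
    Complex.continuous_re.sub ((Complex.continuous_im.div_const _).mul continuous_const)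
  have c2 : Continuous fun z : ℂ => z.im / xi.im := Complex.continuous_im.div_const _
  exact (measurableSet_Ico.preimage c1.measurable).inter (measurableSet_Ico.preimage c2.measurable)

theorem pc_measurableSet_box : MeasurableSet (box 1) := by
  have h : box 1 = Complex.re ⁻¹' Set.Ico (0 : ℝ) 1 ∩ Complex.im ⁻¹' Set.Ico (0 : ℝ) 1 := rfl
  rw [h]
  exact (measurableSet_Ico.preimage Complex.measurable_re).inter
    (measurableSet_Ico.preimage Complex.measurable_im)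

theorem pc_exists_fundE (z : ℂ) : ∃ l ∈ Eis, z + l ∈ fundE := by
  have hxi := pc_xi_im
  obtain ⟨a, b, hz⟩ : ∃ a b : ℝ, z = a + b * xi := by
    refine ⟨z.re - z.im / xi.im * xi.re, z.im / xi.im, ?_⟩
    apply Complex.ext
    · simp
    · simp [hxi]
  refine ⟨((-⌊a⌋ : ℤ) : ℂ) + ((-⌊b⌋ : ℤ) : ℂ) * xi, ⟨-⌊a⌋, -⌊b⌋, rfl⟩, Int.fract a, Int.fract b,
    ⟨Int.fract_nonneg _, Int.fract_lt_one _⟩, ⟨Int.fract_nonneg _, Int.fract_lt_one _⟩, ?_⟩
  rw [hz]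
  simp only [Int.fract]
  push_cast
  ring

theorem pc_Ico_int {x : ℝ} {n : ℤ} (h : x ∈ Set.Ico (0 : ℝ) 1) (h' : x + n ∈ Set.Ico (0 : ℝ) 1) :
    n = 0 := by
  have h1 : (n : ℝ) < 1 := by linarith [h.1, h'.2]
  have h2 : (-1 : ℝ) < n := by linarith [h.2, h'.1]
  have h1' : n < 1 := by exact_mod_cast h1
  have h2' : -1 < n := by exact_mod_cast h2
  omega

theorem pc_fundE_unique {z l : ℂ} (hl : l ∈ Eis) (h : z ∈ fundE) (h' : z + l ∈ fundE) :
    l = 0 := by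
  have hxi := pc_xi_im
  obtain ⟨a, b, rfl⟩ := hl
  rw [pc_mem_fundE] at h h'
  have e1 : (z + ((a : ℂ) + b * xi)).im / xi.im = z.im / xi.im + b := by
    simp only [Complex.add_im, Complex.mul_im, Complex.intCast_re, Complex.intCast_im]
    field_simp
    ring
  have e2 : (z + ((a : ℂ) + b * xi)).re - (z + ((a : ℂ) + b * xi)).im / xi.im * xi.re =
      z.re - z.im / xi.im * xi.re + a := by
    rw [e1]
    simp only [Complex.add_re, Complex.mul_re, Complex.intCast_re, Complex.intCast_im]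
    ring
  rw [e2, e1] at h'
  rw [pc_Ico_int h.1 h'.1, pc_Ico_int h.2 h'.2]
  simp

theorem pc_exists_box (t : ℂ) : ∃ a b : ℤ, t + ((a : ℂ) + b * Complex.I) ∈ box 1 := by
  refine ⟨-⌊t.re⌋, -⌊t.im⌋, ?_, ?_⟩
  · have e : (t + (((-⌊t.re⌋ : ℤ) : ℂ) + ((-⌊t.im⌋ : ℤ) : ℂ) * Complex.I)).re = Int.fract t.re := by
      simp [Int.fract, sub_eq_add_neg]
    rw [e]
    exact ⟨Int.fract_nonneg _, Int.fract_lt_one _⟩
  · have e : (t + (((-⌊t.re⌋ : ℤ) : ℂ) + ((-⌊t.im⌋ : ℤ) : ℂ) * Complex.I)).im = Int.fract t.im := by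
      simp [Int.fract, sub_eq_add_neg]
    rw [e]
    exact ⟨Int.fract_nonneg _, Int.fract_lt_one _⟩

theorem pc_box_unique {t : ℂ} {a b : ℤ} (h : t ∈ box 1)
    (h' : t + ((a : ℂ) + b * Complex.I) ∈ box 1) : a = 0 ∧ b = 0 := by
  have e1 : (t + ((a : ℂ) + b * Complex.I)).re = t.re + a := by simp
  have e2 : (t + ((a : ℂ) + b * Complex.I)).im = t.im + b := by simp
  obtain ⟨h1, h2⟩ := h
  obtain ⟨h1', h2'⟩ := h'
  rw [e1] at h1'
  rw [e2] at h2'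
  exact ⟨pc_Ico_int h1 h1', pc_Ico_int h2 h2'⟩

/-! ### the stabilisers -/

theorem pc_stab_zero {σ : B.Sp} {k : ℕ} : Stab ((0, 0, σ) : Qt B) k ↔ B.sσ^[k] σ = σ := by
  unfold Stab
  simp [Eis.zero_mem]

theorem pc_zeta_one {q : Qt B} {k : ℕ} (hk : Stab q k) {w : ℂ} (h : w ∈ sec (ro q))
    (h' : zetaN B.N ^ k * w ∈ sec (ro q)) : zetaN B.N ^ k = 1 := by
  obtain ⟨m, rfl⟩ := (stab_iff q k).1 hk
  have hμ := primitive_k0 q
  have hw : w ≠ 0 := h.1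
  obtain ⟨m0, _, hu⟩ := sec_unique (ro_pos q) hμ hw
  rw [pow_mul] at h' ⊢
  have e1 : 0 = m0 := hu 0 ⟨ro_pos q, by simpa using h⟩
  have e2 : m % ro q = m0 := by
    refine hu (m % ro q) ⟨Nat.mod_lt _ (ro_pos q), ?_⟩
    rw [← pow_eq_pow_mod m hμ.pow_eq_one]
    exact h'
  exact (hμ.pow_eq_one_iff_dvd m).2 (Nat.dvd_of_mod_eq_zero (e2.trans e1.symm))

theorem pc_exists_stab_sec (q : Qt B) {w : ℂ} (hw : w ≠ 0) :
    ∃ k, Stab q k ∧ zetaN B.N ^ k * w ∈ sec (ro q) := by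
  obtain ⟨m, ⟨_, hm⟩, _⟩ := sec_unique (ro_pos q) (primitive_k0 q) hw
  exact ⟨k0 q * m, stab_mul q (stab_k0 q) m, by rw [pow_mul]; exact hm⟩

theorem pc_zeta_ball {w : ℂ} (k : ℕ) (hw : w ∈ Metric.ball (0 : ℂ) (1 / 2)) :
    zetaN B.N ^ k * w ∈ Metric.ball (0 : ℂ) (1 / 2) := by
  rw [mem_ball_zero_iff] at hw ⊢
  rw [norm_mul, norm_pow, norm_zetaN, one_pow, one_mul]; exact hw

/-! ### the pieces -/

theorem pc_E3_zero {x : V 4} (h : E3 x = 0) : x 2 = 0 := by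
  have a0 := Complex.normSq_nonneg (x 0)
  have a1 := Complex.normSq_nonneg (x 1)
  have a2 := Complex.normSq_nonneg (x 2)
  unfold E3 at h
  exact Complex.normSq_eq_zero.1 (by linarith)

theorem pc_norm_pB {q : Qt B} {y : V 4} (h : E3 (y - cen q) < 1 / 64) : ‖y 2‖ < 1 / 8 := by
  have h2 := norm_lt_eighth h 2
  have h3 : (y - cen q) (Fin.castSucc 2) = y 2 := by simp [cen]
  rwa [h3] at h2

theorem pc_pA_sub (σ : B.Sp) : pA σ ⊆ chU (Sum.inl (B.ch σ) : Ix B) := by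
  rintro y ⟨_, _, _, h3, h4, _⟩
  have hb : y 2 ∈ Metric.ball (0 : ℂ) (1 / 2) := mem_ball_zero_iff.2 h4
  refine ⟨by rw [B.D_ch]; exact hb, ?_⟩
  rintro ⟨τ, h, _⟩
  have h5 := (p_ch_inj hb zero_mem_half h).2
  rw [h5, norm_zero] at h3
  norm_num at h3

theorem pc_pB_sub {q : Qt B} (hq : Spec q) : pB q ⊆ chU (Sum.inl (B.ch q.2.2) : Ix B) := by
  rintro y ⟨h1, h2, h3⟩
  have n2 := pc_norm_pB h1
  refine ⟨by rw [B.D_ch, mem_ball_zero_iff]; linarith, ?_⟩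
  rw [st_posA_eq, specA_posq hq h1]
  intro h0
  have h4 := pc_E3_zero h0
  have h5 : (y - cen q) 2 = y 2 := by simp [cen]
  rw [h5] at h4
  exact h2.1 h4

theorem pc_measurable_coord {A : Set ℂ} (hA : MeasurableSet A) (i : Fin 4) :
    MeasurableSet {y : V 4 | y i ∈ A} := hA.preimage (measurable_pi_apply i)

theorem pc_measurableSet_pA (σ : B.Sp) : MeasurableSet (pA σ) := by
  have h : pA σ = {y : V 4 | y 0 ∈ fundE} ∩ ({y | y 1 ∈ fundE} ∩
      ({y | y 2 ∈ sec (ro ((0, 0, σ) : Qt B))} ∩ ({y | y 2 ∈ {w : ℂ | 1 / 8 ≤ ‖w‖}} ∩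
      ({y | y 2 ∈ {w : ℂ | ‖w‖ < 1 / 2}} ∩ {y | y 3 ∈ box 1})))) := rfl
  rw [h]
  exact (pc_measurable_coord pc_measurableSet_fundE 0).inter
    ((pc_measurable_coord pc_measurableSet_fundE 1).inter
    ((pc_measurable_coord (measurableSet_sec _) 2).inter
    ((pc_measurable_coord (isClosed_le continuous_const continuous_norm).measurableSet 2).inter
    ((pc_measurable_coord (isOpen_lt continuous_norm continuous_const).measurableSet 2).inter
    (pc_measurable_coord pc_measurableSet_box 3)))))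

theorem pc_measurableSet_pB (q : Qt B) : MeasurableSet (pB q) := by
  have h : pB q = {y : V 4 | E3 (y - cen q) < 1 / 64} ∩ ({y | y 2 ∈ sec (ro q)} ∩
      {y | y 3 ∈ box 1}) := rfl
  rw [h]
  have hc : Continuous fun y : V 4 => E3 (y - cen q) :=
    continuous_E3.comp (continuous_id.sub continuous_const)
  exact (isOpen_lt hc continuous_const).measurableSet.inter
    ((pc_measurable_coord (measurableSet_sec _) 2).inter
    (pc_measurable_coord pc_measurableSet_box 3))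

theorem pc_pA_rel {σ τ : B.Sp} (hst : ∀ k, B.sσ^[k] σ = τ → σ = τ) {y y' : V 4} (hy : y ∈ pA σ)
    (hy' : y' ∈ pA τ) (h : RA (posA (B.ch σ) y) (posA (B.ch τ) y')) : σ = τ ∧ y = y' := by
  obtain ⟨γ, hγ⟩ := h
  simp only [actA, posA, Prod.mk.injEq] at hγ
  obtain ⟨g0, g1, g2, g3⟩ := hγ
  obtain ⟨a0, a1, a2, a3, a4, a5⟩ := hy
  obtain ⟨b0, b1, b2, b3, b4, b5⟩ := hy'
  have ha : y 2 ∈ Metric.ball (0 : ℂ) (1 / 2) := mem_ball_zero_iff.2 a4
  have hb : y' 2 ∈ Metric.ball (0 : ℂ) (1 / 2) := mem_ball_zero_iff.2 b4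
  rw [s_iter_ch _ _ ha] at g2
  obtain ⟨c1, c2⟩ := p_ch_inj (pc_zeta_ball _ ha) hb g2
  have e := hst _ c1
  subst e
  refine ⟨rfl, ?_⟩
  have hk : Stab ((0, 0, σ) : Qt B) γ.k := pc_stab_zero.2 c1
  rw [← c2] at b2
  have hz := pc_zeta_one hk a2 b2
  rw [← g3] at b5
  obtain ⟨d1, d2⟩ := pc_box_unique (a := γ.a) (b := γ.b) a5 b5
  have m0 : mult B.N γ.k γ.a = 1 := by rw [d1]; simp [mult, hz]
  have m1 : mult B.N γ.k γ.b = 1 := by rw [d2]; simp [mult, hz]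
  rw [m0, one_mul] at g0
  rw [m1, one_mul] at g1
  have l0 : γ.l0 = 0 := pc_fundE_unique γ.h0 a0 (by rw [g0]; exact b0)
  have l1 : γ.l1 = 0 := pc_fundE_unique γ.h1 a1 (by rw [g1]; exact b1)
  have tr0 : γ.tr = 0 := by simp [Gam.tr, d1, d2]
  ext i
  fin_cases i
  · show y 0 = y' 0
    rw [← g0, l0, add_zero]
  · show y 1 = y' 1
    rw [← g1, l1, add_zero]
  · show y 2 = y' 2
    rw [← c2, hz, one_mul]
  · show y 3 = y' 3
    rw [← g3, tr0, add_zero]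

theorem pc_pB_rel {q q' : Qt B} (hq : Spec q) (hq' : Spec q') (hqq : ∀ γ, actQ γ q = q' → q = q')
    {y y' : V 4} (hy : y ∈ pB q) (hy' : y' ∈ pB q')
    (h : RA (posA (B.ch q.2.2) y) (posA (B.ch q'.2.2) y')) : q = q' ∧ y = y' := by
  obtain ⟨γ, hγ⟩ := h
  rw [st_posA_eq, st_posA_eq] at hγ
  obtain ⟨h1, h2, h3⟩ := hy
  obtain ⟨h1', h2', h3'⟩ := hy'
  obtain ⟨e1, e2⟩ := RA_posq hq hq' h1 h1' γ hγ
  have e := hqq γ e1
  subst e
  refine ⟨rfl, ?_⟩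
  have c3 : y 3 + γ.tr = y' 3 := by
    have := congrFun e2 3
    simpa [linV, cen] using this
  have c2 : zetaN B.N ^ γ.k * y 2 = y' 2 := by
    have := congrFun e2 2
    simpa [linV, cen] using this
  rw [← c3] at h3'
  obtain ⟨d1, d2⟩ := pc_box_unique (a := γ.a) (b := γ.b) h3 h3'
  have hk : Stab q γ.k := stab_of_actQ d1 d2 e1
  rw [← c2] at h2'
  have hz := pc_zeta_one hk h2 h2'
  have hlin : linV B.N γ (y - cen q) = y - cen q := by
    ext i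
    fin_cases i <;> simp [linV, mult, d1, d2, hz, Gam.tr]
  rw [hlin] at e2
  exact sub_left_injective e2

theorem pc_pA_pB {σ : B.Sp} {q : Qt B} {y y' : V 4} (hy : y ∈ pA σ) (hy' : y' ∈ pB q) :
    ¬ RA (posA (B.ch σ) y) (posA (B.ch q.2.2) y') := by
  rintro ⟨γ, hγ⟩
  simp only [actA, posA, Prod.mk.injEq] at hγ
  obtain ⟨_, _, g2, _⟩ := hγ
  have n2 := pc_norm_pB hy'.1
  have ha : y 2 ∈ Metric.ball (0 : ℂ) (1 / 2) := mem_ball_zero_iff.2 hy.2.2.2.2.1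
  have hb : y' 2 ∈ Metric.ball (0 : ℂ) (1 / 2) := by rw [mem_ball_zero_iff]; linarith
  rw [s_iter_ch _ _ ha] at g2
  obtain ⟨_, c2⟩ := p_ch_inj (pc_zeta_ball _ ha) hb g2
  have h1 := congrArg norm c2
  rw [norm_mul, norm_pow, norm_zetaN, one_pow, one_mul] at h1
  linarith [hy.2.2.2.1]

/-! ### the pieces cover the support -/

theorem pc_cover_A (R : Reps B) {i : B.κ} {y : V 4} {σ : B.Sp} {w : ℂ} (h1 : 1 / 8 ≤ ‖w‖)
    (h2 : ‖w‖ < 1 / 2) (h : B.p i (y 2) = B.p (B.ch σ) w) :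
    ∃ τ ∈ R.R1, ∃ y' ∈ pA τ, RA (posA i y) (posA (B.ch τ) y') := by
  obtain ⟨τ, hτ, k, hk⟩ := R.R1_surj σ
  have hk1 : B.sσ^[(B.N - 1) * k] σ = τ := by rw [← hk]; exact sσ_iter_mul k τ
  have hw : w ≠ 0 := by
    intro h0
    rw [h0, norm_zero] at h1
    norm_num at h1
  have hw1 : zetaN B.N ^ ((B.N - 1) * k) * w ≠ 0 :=
    mul_ne_zero (pow_ne_zero _ (zetaN_ne_zero _)) hw
  obtain ⟨k2, s1, s2⟩ := pc_exists_stab_sec ((0, 0, τ) : Qt B) hw1
  obtain ⟨a, b, hab⟩ := pc_exists_box (y 3)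
  obtain ⟨l0, hl0, hl0'⟩ := pc_exists_fundE (mult B.N (k2 + (B.N - 1) * k) a * y 0)
  obtain ⟨l1, hl1, hl1'⟩ := pc_exists_fundE (mult B.N (k2 + (B.N - 1) * k) b * y 1)
  have hn : ‖zetaN B.N ^ (k2 + (B.N - 1) * k) * w‖ = ‖w‖ := by
    rw [norm_mul, norm_pow, norm_zetaN, one_pow, one_mul]
  refine ⟨τ, hτ, ![mult B.N (k2 + (B.N - 1) * k) a * y 0 + l0,
    mult B.N (k2 + (B.N - 1) * k) b * y 1 + l1, zetaN B.N ^ (k2 + (B.N - 1) * k) * w,
    y 3 + ((a : ℂ) + b * Complex.I)], ⟨hl0', hl1', ?_, ?_, ?_, hab⟩,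
    ⟨k2 + (B.N - 1) * k, a, b, l0, l1, hl0, hl1⟩, ?_⟩
  · show zetaN B.N ^ (k2 + (B.N - 1) * k) * w ∈ _
    rw [pow_add, mul_assoc]; exact s2
  · show 1 / 8 ≤ ‖zetaN B.N ^ (k2 + (B.N - 1) * k) * w‖
    rw [hn]; exact h1
  · show ‖zetaN B.N ^ (k2 + (B.N - 1) * k) * w‖ < 1 / 2
    rw [hn]; exact h2
  · simp only [actA, posA, Prod.mk.injEq]
    refine ⟨rfl, rfl, ?_, rfl⟩
    rw [h, s_iter_ch _ _ (mem_ball_zero_iff.2 h2), Function.iterate_add_apply, hk1,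
      pc_stab_zero.1 s1]
    rfl

theorem pc_TS_mem {N : ℕ} {z : ℂ} (h2 : 2 * z ∈ Eis) {k : ℕ} (hk : (zetaN N ^ k - 1) * z ∈ Eis)
    (a : ℤ) : z - mult N k a * z ∈ Eis := by
  rcases Int.even_or_odd a with h | h
  · have e : z - mult N k a * z = -((zetaN N ^ k - 1) * z) := by
      unfold mult
      rw [h.neg_one_zpow]; ring
    rw [e]; exact Eis.neg_mem hk
  · have e : z - mult N k a * z = (zetaN N ^ k - 1) * z + 2 * z := by
      unfold mult
      rw [h.neg_one_zpow]; ring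
    rw [e]; exact Eis.add_mem hk h2

theorem pc_cover_B {q q' : Qt B} (hT : TS q') (δ : Gam) (hδ : actQ δ q = q')
    {x : V 4} (hx : E3 x < 1 / 64) (hx2 : x 2 ≠ 0) :
    ∃ y' ∈ pB q', RA (posq q x) (posA (B.ch q'.2.2) y') := by
  have n2 : ‖x 2‖ < 1 / 8 := norm_lt_eighth hx 2
  have b2 : x 2 ∈ Metric.ball (0 : ℂ) (1 / 2) := by rw [mem_ball_zero_iff]; linarith
  have hE1 : E3 (linV B.N δ x) < 1 / 64 := by rw [st_E3_linV]; exact hx
  have n3 : ‖linV B.N δ x 2‖ < 1 / 8 := norm_lt_eighth hE1 2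
  have b3 : linV B.N δ x 2 ∈ Metric.ball (0 : ℂ) (1 / 2) := by rw [mem_ball_zero_iff]; linarith
  have hne : linV B.N δ x 2 ≠ 0 := mul_ne_zero (pow_ne_zero _ (zetaN_ne_zero _)) hx2
  obtain ⟨k, hk, hs⟩ := pc_exists_stab_sec q' hne
  obtain ⟨a, b, hab⟩ := pc_exists_box (linV B.N δ x 3)
  set γ : Gam := ⟨k, a, b, q'.1 - mult B.N k a * q'.1, q'.2.1 - mult B.N k b * q'.2.1,
    pc_TS_mem hT.1 hk.2.1 a, pc_TS_mem hT.2 hk.2.2 b⟩ with hγ
  have hq' : actQ γ q' = q' := by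
    obtain ⟨z0, z1, σ⟩ := q'
    simp only [actQ, hγ, Prod.mk.injEq]
    exact ⟨by ring, by ring, hk.1⟩
  have hE2 : E3 (linV B.N γ (linV B.N δ x)) < 1 / 64 := by rw [st_E3_linV]; exact hE1
  refine ⟨cen q' + linV B.N γ (linV B.N δ x), ⟨?_, ?_, ?_⟩, ?_⟩
  · rw [add_sub_cancel_left]; exact hE2
  · have e : (cen q' + linV B.N γ (linV B.N δ x)) 2 = zetaN B.N ^ k * linV B.N δ x 2 := by
      simp [cen, linV, hγ]
    rw [e]; exact hs
  · have e : (cen q' + linV B.N γ (linV B.N δ x)) 3 =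
        linV B.N δ x 3 + ((a : ℂ) + b * Complex.I) := by
      simp [cen, linV, hγ, Gam.tr]
    rw [e]; exact hab
  · rw [st_posA_eq, add_sub_cancel_left]
    refine RA.equiv.trans (y := posq q' (linV B.N δ x)) ⟨δ, ?_⟩ ⟨γ, ?_⟩
    · rw [actA_posq _ _ b2, hδ]
    · rw [actA_posq _ _ b3, hq']

/-! ### null sets -/

theorem pc_null_image (g : HermitianMetric 4 (presM B).Mfd) (i : Ix B) (j : Fin 4) :
    g.volume ((presM B).proj i '' {y | y ∈ chU i ∧ y j = 0}) = 0 := by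
  have hA : MeasurableSet {y : V 4 | y ∈ chU i ∧ y j = 0} :=
    (isOpen_chU i).measurableSet.inter
      (isClosed_singleton.preimage (continuous_apply j) : IsClosed {y : V 4 | y j = 0}).measurableSet
  refine le_antisymm (((presM B).volume_image_le g i hA (fun y hy => hy.1)).trans ?_) bot_le
  have h0 : (MeasureSpace.volume : Measure (V 4)) {y : V 4 | y ∈ chU i ∧ y j = 0} = 0 := by
    refine measure_mono_null (t := {y : V 4 | y j = 0}) (fun y hy => hy.2) ?_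
    rw [volume_pi]
    exact Measure.pi_hyperplane _ j 0
  rw [Measure.restrict_eq_zero.2 h0, lintegral_zero_measure]

/-! ### the family of all pieces -/

/-- the pieces -/
def pcS : B.Sp ⊕ (B.Sp ⊕ Qt B) → Set (V 4)
  | Sum.inl σ => pA σ
  | Sum.inr (Sum.inl σ) => pB ((0, 0, σ) : Qt B)
  | Sum.inr (Sum.inr q) => pB q

/-- the charts of the pieces -/
def pcI : B.Sp ⊕ (B.Sp ⊕ Qt B) → B.Sp
  | Sum.inl σ => σ
  | Sum.inr (Sum.inl σ) => σ
  | Sum.inr (Sum.inr q) => q.2.2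

/-- the indices of the pieces -/
def pcT (R : Reps B) : Finset (B.Sp ⊕ (B.Sp ⊕ Qt B)) := R.R1.disjSum (R.R3.disjSum R.R2)

theorem pc_spec_main {σ : B.Sp} (h : B.main σ) : Spec ((0, 0, σ) : Qt B) :=
  Or.inl ⟨h, Eis.zero_mem, Eis.zero_mem⟩

theorem pc_isMn_main {σ : B.Sp} (h : B.main σ) : IsMn ((0, 0, σ) : Qt B) :=
  ⟨h, Eis.zero_mem, Eis.zero_mem⟩

theorem pc_isMn_act (γ : Gam) {q : Qt B} (h : IsMn q) : IsMn (actQ γ q) := by
  obtain ⟨h1, h2, h3⟩ := h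
  refine ⟨?_, Eis.add_mem (Eis_mul (mult_mem B.N_pos B.N_dvd _ _) h2) γ.h0,
    Eis.add_mem (Eis_mul (mult_mem B.N_pos B.N_dvd _ _) h3) γ.h1⟩
  simp only [actQ]
  rw [main_iter h1]; exact h1

theorem pc_mem_T {R : Reps B} {i : B.Sp ⊕ (B.Sp ⊕ Qt B)} : i ∈ pcT R ↔
    (∃ σ ∈ R.R1, i = Sum.inl σ) ∨ (∃ σ, B.main σ ∧ i = Sum.inr (Sum.inl σ)) ∨
      ∃ q ∈ R.R2, i = Sum.inr (Sum.inr q) := by
  unfold pcT
  rcases i with σ | σ | q
  · simp
  · simp [R.mem_R3]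
  · simp

theorem pc_sub {R : Reps B} {i : B.Sp ⊕ (B.Sp ⊕ Qt B)} (hi : i ∈ pcT R) :
    pcS i ⊆ chU (Sum.inl (B.ch (pcI i)) : Ix B) := by
  rcases pc_mem_T.1 hi with ⟨σ, _, rfl⟩ | ⟨σ, h, rfl⟩ | ⟨q, h, rfl⟩
  · exact pc_pA_sub σ
  · exact pc_pB_sub (pc_spec_main h)
  · exact pc_pB_sub (R.R2_spec q h).1

theorem pc_meas (i : B.Sp ⊕ (B.Sp ⊕ Qt B)) : MeasurableSet (pcS i) := by
  rcases i with σ | σ | q
  · exact pc_measurableSet_pA σ
  · exact pc_measurableSet_pB _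
  · exact pc_measurableSet_pB q

theorem pc_rel {R : Reps B} {i j : B.Sp ⊕ (B.Sp ⊕ Qt B)} (hi : i ∈ pcT R) (hj : j ∈ pcT R)
    {y y' : V 4} (hy : y ∈ pcS i) (hy' : y' ∈ pcS j)
    (h : RA (posA (B.ch (pcI i)) y) (posA (B.ch (pcI j)) y')) : i = j ∧ y = y' := by
  have h' := RA.equiv.symm h
  rcases pc_mem_T.1 hi with ⟨σ, hσ, rfl⟩ | ⟨σ, hσ, rfl⟩ | ⟨q, hq, rfl⟩ <;>
    rcases pc_mem_T.1 hj with ⟨τ, hτ, rfl⟩ | ⟨τ, hτ, rfl⟩ | ⟨q', hq', rfl⟩
  · obtain ⟨e1, e2⟩ := pc_pA_rel (fun k hk => R.R1_inj σ hσ τ hτ k hk) hy hy' h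
    exact ⟨by rw [e1], e2⟩
  · exact absurd h (pc_pA_pB hy hy')
  · exact absurd h (pc_pA_pB hy hy')
  · exact absurd h' (pc_pA_pB hy' hy)
  · obtain ⟨e1, e2⟩ := pc_pB_rel (pc_spec_main hσ) (pc_spec_main hτ) (fun γ hγ => by
      have := congrArg (fun q : Qt B => q.2.2) hγ
      simp only [actQ] at this
      rw [main_iter hσ] at this
      rw [this]) hy hy' h
    refine ⟨?_, e2⟩
    have := congrArg (fun q : Qt B => q.2.2) e1
    simp only at this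
    rw [this]
  · obtain ⟨e1, e2⟩ := pc_pB_rel (pc_spec_main hσ) (R.R2_spec q' hq').1 (fun γ hγ => by
      exfalso
      apply (R.R2_spec q' hq').2.1
      rw [← hγ]
      exact pc_isMn_act γ (pc_isMn_main hσ)) hy hy' h
    exfalso
    apply (R.R2_spec q' hq').2.1
    rw [← e1]
    exact pc_isMn_main hσ
  · exact absurd h' (pc_pA_pB hy' hy)
  · obtain ⟨e1, e2⟩ := pc_pB_rel (pc_spec_main hτ) (R.R2_spec q hq).1 (fun γ hγ => by
      exfalso
      apply (R.R2_spec q hq).2.1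
      rw [← hγ]
      exact pc_isMn_act γ (pc_isMn_main hτ)) hy' hy h'
    exfalso
    apply (R.R2_spec q hq).2.1
    rw [← e1]
    exact pc_isMn_main hτ
  · obtain ⟨e1, e2⟩ := pc_pB_rel (R.R2_spec q hq).1 (R.R2_spec q' hq').1
      (fun γ hγ => R.R2_inj q hq q' hq' γ hγ) hy hy' h
    exact ⟨by rw [e1], e2⟩

theorem pc_inj {R : Reps B} {i : B.Sp ⊕ (B.Sp ⊕ Qt B)} (hi : i ∈ pcT R) :
    Set.InjOn ((presM B).proj (Sum.inl (B.ch (pcI i)))) (pcS i) := by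
  intro y hy y' hy' h
  rw [proj_eq_iff (pc_sub hi hy) (pc_sub hi hy'), chπ_inl, chπ_inl, ptA_eq] at h
  exact (pc_rel hi hi hy hy' h).2

theorem pc_disj {R : Reps B} {i j : B.Sp ⊕ (B.Sp ⊕ Qt B)} (hi : i ∈ pcT R) (hj : j ∈ pcT R)
    (hij : i ≠ j) : Disjoint ((presM B).proj (Sum.inl (B.ch (pcI i))) '' pcS i)
      ((presM B).proj (Sum.inl (B.ch (pcI j))) '' pcS j) := by
  rw [Set.disjoint_left]
  rintro _ ⟨y, hy, rfl⟩ ⟨y', hy', h⟩
  rw [proj_eq_iff (pc_sub hj hy') (pc_sub hi hy), chπ_inl, chπ_inl, ptA_eq] at h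
  exact hij (pc_rel hj hi hy' hy h).1.symm

/-- a point that is equivalent to a point of a piece lies in the image of this piece -/
theorem pc_mem_image {R : Reps B} {i : B.Sp ⊕ (B.Sp ⊕ Qt B)} (hi : i ∈ pcT R) {k : Ix B}
    {z : V 4} (hz : z ∈ chU k) {x : XA B} (hx : chπ k z = ptA x) {y : V 4} (hy : y ∈ pcS i)
    (h : RA x (posA (B.ch (pcI i)) y)) :
    (presM B).proj k z ∈ (presM B).proj (Sum.inl (B.ch (pcI i))) '' pcS i := by
  refine ⟨y, hy, ?_⟩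
  rw [proj_eq_iff (pc_sub hi hy) hz, hx, chπ_inl, ptA_eq]
  exact RA.equiv.symm h

/-- the ball case -/
theorem pc_ball (R : Reps B) {k : Ix B} {z : V 4} (hz : z ∈ chU k) {q : Qt B} (hq : Spec q)
    (hT : TS q) {x : V 4} (hx : E3 x < 1 / 64) (hx2 : x 2 ≠ 0) (h : chπ k z = ptA (posq q x)) :
    ∃ i ∈ pcT R, (presM B).proj k z ∈ (presM B).proj (Sum.inl (B.ch (pcI i))) '' pcS i := by
  by_cases hM : IsMn q
  · have hδ : actQ (⟨0, 0, 0, -q.1, -q.2.1, Eis.neg_mem hM.2.1, Eis.neg_mem hM.2.2⟩ : Gam) q =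
        (0, 0, q.2.2) := by
      simp [actQ, mult]
    obtain ⟨y', hy', hR⟩ := pc_cover_B (q' := ((0, 0, q.2.2) : Qt B))
      ⟨by simp [Eis.zero_mem], by simp [Eis.zero_mem]⟩ _ hδ hx hx2
    have hi : (Sum.inr (Sum.inl q.2.2) : B.Sp ⊕ (B.Sp ⊕ Qt B)) ∈ pcT R :=
      pc_mem_T.2 (Or.inr (Or.inl ⟨_, hM.1, rfl⟩))
    exact ⟨_, hi, pc_mem_image hi hz h hy' hR⟩
  · obtain ⟨q', hq', γ, hγ⟩ := R.R2_surj q hq hM hT
    have hδ : actQ (Gam.inv B γ) q = q' := by rw [← hγ]; exact actQ_inv γ q'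
    obtain ⟨y', hy', hR⟩ := pc_cover_B (R.R2_spec q' hq').2.2 _ hδ hx hx2
    have hi : (Sum.inr (Sum.inr q') : B.Sp ⊕ (B.Sp ⊕ Qt B)) ∈ pcT R :=
      pc_mem_T.2 (Or.inr (Or.inr ⟨_, hq', rfl⟩))
    exact ⟨_, hi, pc_mem_image hi hz h hy' hR⟩

theorem decomposition (R : Reps B) (g : HermitianMetric 4 (presM B).Mfd)
    (φ : (presM B).Mfd → ℝ) (hφ : Continuous φ)
    (h0 : ∀ (i : B.κ) (y : V 4), y ∈ chU (Sum.inl i : Ix B) →
      (∀ (q : Qt B) (x : V 4), Spec q → E3 x < 1 / 64 → posA i y ≠ posq q x) →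
      (∀ (σ : B.Sp) (w : ℂ), 1 / 8 ≤ ‖w‖ → ‖w‖ < 1 / 2 → B.p i (y 2) ≠ B.p (B.ch σ) w) →
      φ ((presM B).proj (Sum.inl i) y) = 0)
    (h3 : ∀ (q : Qt B) (y : V 4), Spec q → ¬ TS q → 0 < E3 y → E3 y < 1 / 64 →
      φ ((presM B).proj (Sum.inl (B.ch q.2.2)) (cen q + y)) = 0) :
    @integral (presM B).Mfd ℝ _ _ (borel _) g.volume φ =
      (∑ σ ∈ R.R1, ∫ y in pA σ, dens g φ σ y) +
      (∑ σ ∈ R.R3, ∫ y in pB ((0, 0, σ) : Qt B), dens g φ σ y) +
      ∑ q ∈ R.R2, ∫ y in pB q, dens g φ q.2.2 y := by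
  classical
  let _ : MeasurableSpace (presM B).Mfd := borel _
  have _ : BorelSpace (presM B).Mfd := ⟨rfl⟩
  obtain ⟨F, K, hK, hF⟩ := cpt_chπ (B := B)
  set F' : Finset (Ix B) := F ∪ Finset.univ.image (fun σ : B.Sp => (Sum.inl (B.ch σ) : Ix B))
    with hF'
  set NS : Set (presM B).Mfd := ⋃ i ∈ F', ⋃ j : Fin 4,
    (presM B).proj i '' {y | y ∈ chU i ∧ y j = 0} with hNS
  have hnull : g.volume NS = 0 := by
    refine (measure_biUnion_null_iff F'.countable_toSet).2 fun i _ => ?_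
    exact measure_iUnion_null_iff.2 fun j => pc_null_image g i j
  set S : Set (presM B).Mfd := ⋃ i ∈ pcT R,
    (presM B).proj (Sum.inl (B.ch (pcI i))) '' pcS i with hS
  have key : ∀ p : (presM B).Mfd, p ∉ NS → p ∉ S → φ p = 0 := by
    intro p hpN hpS
    have ball : ∀ (k : Ix B) (z : V 4) (q : Qt B) (x : V 4), z ∈ chU k → (presM B).proj k z = p →
        Spec q → E3 x < 1 / 64 → 0 < E3 x → chπ k z = ptA (posq q x) → φ p = 0 := by
      intro k z q x hz hp hq hx hx0 h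
      have hc : cen q + x ∈ chU (Sum.inl (B.ch q.2.2) : Ix B) := by
        have n2 : ‖x 2‖ < 1 / 8 := norm_lt_eighth hx 2
        refine ⟨?_, ?_⟩
        · have e : (cen q + x) 2 = x 2 := by simp [cen]
          rw [e, B.D_ch, mem_ball_zero_iff]; linarith
        · rw [st_posA_eq, add_sub_cancel_left, specA_posq hq hx]
          exact hx0.ne'
      have hp' : (presM B).proj (Sum.inl (B.ch q.2.2)) (cen q + x) = p := by
        rw [← hp, proj_eq_iff hc hz, h, chπ_inl, st_posA_eq, add_sub_cancel_left]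
      by_cases hx2 : x 2 = 0
      · exfalso
        apply hpN
        rw [hNS]
        simp only [Set.mem_iUnion]
        refine ⟨Sum.inl (B.ch q.2.2), ?_, 2, cen q + x, ⟨hc, ?_⟩, hp'⟩
        · rw [hF', Finset.mem_union]
          exact Or.inr (Finset.mem_image_of_mem _ (Finset.mem_univ _))
        · simp [cen, hx2]
      · by_cases hT : TS q
        · exfalso
          obtain ⟨i, hi, him⟩ := pc_ball R hz hq hT hx hx2 h
          apply hpS
          rw [hS]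
          simp only [Set.mem_iUnion]
          rw [hp] at him
          exact ⟨i, hi, him⟩
        · rw [← hp']
          exact h3 q x hq hT hx0 hx
    obtain ⟨k', z', hz', hp'⟩ := (presM B).surj p
    obtain ⟨k, hk, z, hzK, hz⟩ := hF k' z' hz'
    have hzU := (hK k).2 hzK
    have hp : (presM B).proj k z = p := by
      rw [← hp']
      exact (proj_eq_iff hzU hz').2 hz
    have hcoord : ∀ j : Fin 4, z j ≠ 0 := by
      intro j hj
      apply hpN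
      rw [hNS]
      simp only [Set.mem_iUnion]
      exact ⟨k, Finset.mem_union_left _ hk, j, z, ⟨hzU, hj⟩, hp⟩
    rcases k with k | ⟨q, j⟩
    · by_cases hb : ∃ (q : Qt B) (x : V 4), Spec q ∧ E3 x < 1 / 64 ∧ posA k z = posq q x
      · obtain ⟨q, x, hq, hx, hqx⟩ := hb
        refine ball _ z q x hzU hp hq hx ?_ (by rw [chπ_inl, hqx])
        refine lt_of_le_of_ne (E3_nonneg x) fun hx0 => hzU.2 ?_
        rw [hqx, specA_posq hq hx]
        exact hx0.symm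
      · by_cases ha : ∃ (σ : B.Sp) (w : ℂ), 1 / 8 ≤ ‖w‖ ∧ ‖w‖ < 1 / 2 ∧
          B.p k (z 2) = B.p (B.ch σ) w
        · obtain ⟨σ, w, w1, w2, hw⟩ := ha
          obtain ⟨τ, hτ, y', hy', hR⟩ := pc_cover_A R w1 w2 hw
          have hi : (Sum.inl τ : B.Sp ⊕ (B.Sp ⊕ Qt B)) ∈ pcT R := pc_mem_T.2 (Or.inl ⟨_, hτ, rfl⟩)
          exfalso
          apply hpS
          rw [hS]
          simp only [Set.mem_iUnion]
          rw [← hp]
          exact ⟨_, hi, pc_mem_image hi hzU (chπ_inl k z) hy' hR⟩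
        · rw [← hp]
          push Not at hb ha
          exact h0 k z hzU (fun q x hq hx => hb q x hq hx) (fun σ w h1 h2 => ha σ w h1 h2)
    · have hj : z j.castSucc ≠ 0 := hcoord _
      refine ball _ z q (liftx (ro q) j z) hzU hp hzU.1
        (E3_liftx_lt (ro_pos q) (by norm_num) hzU.2) ?_ (chπ_exc q j hj)
      exact lt_of_le_of_ne (E3_nonneg _) fun h => hj ((E3_liftx_eq_zero (ro_pos q)).1 h.symm)
  have hae : ∀ᵐ p ∂g.volume, p ∉ S → φ p = 0 := by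
    rw [ae_iff]
    refine measure_mono_null (fun p hp => ?_) hnull
    by_contra hpN
    exact hp (fun hpS => key p hpN hpS)
  have hfin : IsFiniteMeasure g.volume :=
    g.isFiniteMeasure_of_isVolume g.isVolume_volume
  have hint : Integrable φ g.volume := by
    obtain ⟨C, hC⟩ := isCompact_univ.exists_bound_of_continuousOn (f := φ) hφ.continuousOn
    exact Integrable.of_bound hφ.aestronglyMeasurable C
      (Filter.Eventually.of_forall fun x => hC x (Set.mem_univ x))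
  have hmeas : ∀ i ∈ pcT R, MeasurableSet
      ((presM B).proj (Sum.inl (B.ch (pcI i))) '' pcS i) := fun i hi =>
    (presM B).measurableSet_image_proj (Sum.inl (B.ch (pcI i))) (pc_meas i) (pc_sub hi)
  rw [← setIntegral_eq_integral_of_ae_compl_eq_zero hae, hS,
    integral_biUnion_finset (pcT R) hmeas
      (fun i hi j hj hij => pc_disj hi hj hij) (fun i hi => hint.integrableOn)]
  have hpiece : ∀ i ∈ pcT R, ∫ p in (presM B).proj (Sum.inl (B.ch (pcI i))) '' pcS i, φ p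
      ∂g.volume = ∫ y in pcS i, dens g φ (pcI i) y := by
    intro i hi
    exact (presM B).setIntegral_proj g (Sum.inl (B.ch (pcI i))) (pc_meas i) (pc_sub hi)
      (pc_inj hi) φ
  rw [Finset.sum_congr rfl hpiece, pcT, Finset.sum_disjSum, Finset.sum_disjSum, add_assoc]
  rfl

end

end GK
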