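import Pool.Agent.GK.Calc

/-! # Module Piola: determinants, adjugates, divergence -/

open scoped ContDiff Manifold Topology ComplexOrder
open MeasureTheory

namespace GK

noncomputable section

variable {n m l : ℕ}

/-! ### Auxiliary lemmas -/

theorem piola_sum_det (A B : Matrix (Fin n) (Fin n) ℂ) :
    ∑ i, (A.updateCol i (fun p => B p i)).det = ∑ p, ∑ q, A.adjugate q p * B p q := by
  rw [Finset.sum_comm]
  refine Finset.sum_congr rfl fun i _ => ?_
  rw [← Matrix.cramer_apply, Matrix.cramer_eq_adjugate_mulVec]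
  rfl

theorem piola_det_updateCol (A : Matrix (Fin n) (Fin n) ℂ) (i : Fin n) (c : Fin n → ℂ) :
    (A.updateCol i c).det =
      ∑ σ : Equiv.Perm (Fin n), (Equiv.Perm.sign σ : ℤ) *
        ((∏ j ∈ Finset.univ.erase i, A (σ j) j) * c (σ i)) := by
  rw [Matrix.det_apply']
  refine Finset.sum_congr rfl fun σ _ => ?_
  congr 1
  rw [← Finset.mul_prod_erase Finset.univ _ (Finset.mem_univ i)]
  rw [Matrix.updateCol_self, mul_comm]
  congr 1
  refine Finset.prod_congr rfl fun j hj => ?_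
  rw [Matrix.updateCol_ne (Finset.ne_of_mem_erase hj)]

theorem piola_hasFDerivAt_det {E : Type*} [NormedAddCommGroup E] [NormedSpace ℝ E]
    {b : E → Matrix (Fin n) (Fin n) ℂ} {b' : Fin n → Fin n → (E →L[ℝ] ℂ)} {x : E}
    (hb : ∀ j k, HasFDerivAt (fun t => b t j k) (b' j k) x) :
    HasFDerivAt (fun t => (b t).det) (∑ p, ∑ q, (b x).adjugate q p • b' p q) x := by
  have h1 : HasFDerivAt (fun t => ∑ σ : Equiv.Perm (Fin n), (((Equiv.Perm.sign σ : ℤ) : ℂ)) *
      ∏ i, b t (σ i) i) (∑ σ : Equiv.Perm (Fin n), (((Equiv.Perm.sign σ : ℤ) : ℂ)) •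
      ∑ i, (∏ j ∈ Finset.univ.erase i, b x (σ j) j) • b' (σ i) i) x := by
    refine HasFDerivAt.fun_sum fun σ _ => ?_
    exact (HasFDerivAt.finsetProd fun i _ => hb (σ i) i).const_mul _
  have h2 : (fun t => (b t).det) = (fun t => ∑ σ : Equiv.Perm (Fin n),
      (((Equiv.Perm.sign σ : ℤ) : ℂ)) * ∏ i, b t (σ i) i) := by
    funext t; rw [Matrix.det_apply']
  rw [h2]
  convert h1 using 1
  ext v
  have h3 := piola_sum_det (b x) (Matrix.of fun p q => b' p q v)
  simp only [sum_apply, smul_apply, smul_eq_mul]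
  simp only [Matrix.of_apply] at h3
  rw [← h3]
  simp only [piola_det_updateCol]
  rw [Finset.sum_comm]
  refine Finset.sum_congr rfl fun σ _ => ?_
  rw [Finset.mul_sum]

theorem piola_fderiv_det {b : V n → Matrix (Fin n) (Fin n) ℂ} {z : V n}
    (hb : ∀ j k, DifferentiableAt ℝ (fun w => b w j k) z) (v : V n) :
    fderiv ℝ (fun w => (b w).det) z v =
      ∑ p, ∑ q, (b z).adjugate q p * fderiv ℝ (fun w => b w p q) z v := by
  rw [(piola_hasFDerivAt_det fun j k => (hb j k).hasFDerivAt).fderiv]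
  simp only [sum_apply, smul_apply, smul_eq_mul]

/-- Jacobi's formula. -/
theorem dZ_det {b : V n → Matrix (Fin n) (Fin n) ℂ} {z : V n}
    (hb : ∀ j k, DifferentiableAt ℝ (fun w => b w j k) z) (i : Fin n) :
    dZ i (fun w => (b w).det) z = ∑ p, ∑ q, (b z).adjugate q p * dZ i (fun w => b w p q) z := by
  unfold dZ
  rw [piola_fderiv_det hb, piola_fderiv_det hb, Finset.mul_sum, ← Finset.sum_sub_distrib,
    Finset.sum_div]
  refine Finset.sum_congr rfl fun p _ => ?_
  rw [Finset.mul_sum, ← Finset.sum_sub_distrib, Finset.sum_div]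
  refine Finset.sum_congr rfl fun q _ => ?_
  ring

theorem dB_det {b : V n → Matrix (Fin n) (Fin n) ℂ} {z : V n}
    (hb : ∀ j k, DifferentiableAt ℝ (fun w => b w j k) z) (i : Fin n) :
    dB i (fun w => (b w).det) z = ∑ p, ∑ q, (b z).adjugate q p * dB i (fun w => b w p q) z := by
  unfold dB
  rw [piola_fderiv_det hb, piola_fderiv_det hb, Finset.mul_sum, ← Finset.sum_add_distrib,
    Finset.sum_div]
  refine Finset.sum_congr rfl fun p _ => ?_
  rw [Finset.mul_sum, ← Finset.sum_add_distrib, Finset.sum_div]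
  refine Finset.sum_congr rfl fun q _ => ?_
  ring

/-- derivative of `det` along a path -/
theorem hasDerivAt_det {b : ℝ → Matrix (Fin n) (Fin n) ℂ} {b' : Matrix (Fin n) (Fin n) ℂ} {s : ℝ}
    (hb : ∀ j k, HasDerivAt (fun t => b t j k) (b' j k) s) :
    HasDerivAt (fun t => (b t).det) (∑ p, ∑ q, (b s).adjugate q p * b' p q) s := by
  have h := (piola_hasFDerivAt_det fun j k => (hb j k).hasFDerivAt).hasDerivAt
  convert h using 1
  simp

theorem piola_contDiffOn_det {E : Type*} [NormedAddCommGroup E] [NormedSpace ℝ E]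
    {b : E → Matrix (Fin n) (Fin n) ℂ} {Ω : Set E}
    (hb : ∀ j k, ContDiffOn ℝ ∞ (fun w => b w j k) Ω) :
    ContDiffOn ℝ ∞ (fun w => (b w).det) Ω := by
  have h2 : (fun t => (b t).det) = (fun t => ∑ σ : Equiv.Perm (Fin n),
      (((Equiv.Perm.sign σ : ℤ) : ℂ)) * ∏ i, b t (σ i) i) := by
    funext t; rw [Matrix.det_apply']
  rw [h2]
  refine ContDiffOn.sum fun σ _ => ?_
  exact contDiffOn_const.mul (contDiffOn_prod fun i _ => hb (σ i) i)

theorem piola_contDiffOn_adj {E : Type*} [NormedAddCommGroup E] [NormedSpace ℝ E]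
    {b : E → Matrix (Fin n) (Fin n) ℂ} {Ω : Set E}
    (hb : ∀ j k, ContDiffOn ℝ ∞ (fun w => b w j k) Ω) (k j : Fin n) :
    ContDiffOn ℝ ∞ (fun w => (b w).adjugate k j) Ω := by
  simp only [Matrix.adjugate_apply]
  refine piola_contDiffOn_det fun p q => ?_
  by_cases hp : p = j
  · subst hp
    simp only [Matrix.updateRow_self]
    exact contDiffOn_const
  · simp only [Matrix.updateRow_ne hp]
    exact hb p q

theorem piola_differentiableAt_adj {E : Type*} [NormedAddCommGroup E] [NormedSpace ℝ E]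
    {b : E → Matrix (Fin n) (Fin n) ℂ} {x : E}
    (hb : ∀ j k, DifferentiableAt ℝ (fun w => b w j k) x) (k j : Fin n) :
    DifferentiableAt ℝ (fun w => (b w).adjugate k j) x := by
  simp only [Matrix.adjugate_apply]
  have h : ∀ p q, DifferentiableAt ℝ
      (fun w => (b w).updateRow j (Pi.single k (1 : ℂ)) p q) x := by
    intro p q
    by_cases hp : p = j
    · subst hp
      simp only [Matrix.updateRow_self]
      exact differentiableAt_const _
    · simp only [Matrix.updateRow_ne hp]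
      exact hb p q
  exact (piola_hasFDerivAt_det fun p q => (h p q).hasFDerivAt).differentiableAt

theorem piola_differentiableAt_det {E : Type*} [NormedAddCommGroup E] [NormedSpace ℝ E]
    {b : E → Matrix (Fin n) (Fin n) ℂ} {x : E}
    (hb : ∀ j k, DifferentiableAt ℝ (fun w => b w j k) x) :
    DifferentiableAt ℝ (fun w => (b w).det) x :=
  (piola_hasFDerivAt_det fun p q => (hb p q).hasFDerivAt).differentiableAt

theorem piola_matrix {A N b : Matrix (Fin n) (Fin n) ℂ} {dd : ℂ} (h0 : b.det ≠ 0)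
    (hdd : dd = ∑ p, ∑ q, b.adjugate q p * A p q)
    (h : A * b.adjugate + b * N = dd • 1) (k j : Fin n) :
    N k j = b.det * ∑ p, ∑ q, (b⁻¹ q p * b⁻¹ k j - b⁻¹ k p * b⁻¹ q j) * A p q := by
  have hu : IsUnit b.det := isUnit_iff_ne_zero.mpr h0
  have hadj : b.adjugate = b.det • b⁻¹ := by
    rw [Matrix.inv_def, Ring.inverse_eq_inv', smul_smul, mul_inv_cancel₀ h0, one_smul]
  have hN : N = dd • b⁻¹ - b.det • (b⁻¹ * A * b⁻¹) := by
    have h1 : b⁻¹ * (b * N) = b⁻¹ * (dd • 1 - A * b.adjugate) := by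
      rw [← h]; congr 1; abel
    rw [← Matrix.mul_assoc, Matrix.nonsing_inv_mul _ hu, Matrix.one_mul] at h1
    rw [h1, Matrix.mul_sub, Matrix.mul_smul, Matrix.mul_one, hadj, Matrix.mul_smul,
      Matrix.mul_smul, Matrix.mul_assoc]
  have hdd' : dd = b.det * ∑ p, ∑ q, b⁻¹ q p * A p q := by
    rw [hdd, hadj, Finset.mul_sum]
    refine Finset.sum_congr rfl fun p _ => ?_
    rw [Finset.mul_sum]
    refine Finset.sum_congr rfl fun q _ => ?_
    simp [mul_assoc]
  have h3 : (b⁻¹ * A * b⁻¹) k j = ∑ p, ∑ q, b⁻¹ k p * b⁻¹ q j * A p q := by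
    rw [Matrix.mul_apply, Finset.sum_comm]
    refine Finset.sum_congr rfl fun q _ => ?_
    rw [Matrix.mul_apply, Finset.sum_mul]
    refine Finset.sum_congr rfl fun p _ => ?_
    ring
  rw [hN, Matrix.sub_apply, Matrix.smul_apply, Matrix.smul_apply, h3, hdd', smul_eq_mul,
    smul_eq_mul, mul_assoc, ← mul_sub]
  congr 1
  rw [Finset.sum_mul, ← Finset.sum_sub_distrib]
  refine Finset.sum_congr rfl fun p _ => ?_
  rw [Finset.sum_mul, ← Finset.sum_sub_distrib]
  refine Finset.sum_congr rfl fun q _ => ?_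
  ring

theorem piola_dZ_adj {b : V n → Matrix (Fin n) (Fin n) ℂ} {z : V n}
    (hb : ∀ j k, DifferentiableAt ℝ (fun w => b w j k) z) (h0 : (b z).det ≠ 0) (i k j : Fin n) :
    dZ i (fun w => (b w).adjugate k j) z = (b z).det * ∑ p, ∑ q,
      ((b z)⁻¹ q p * (b z)⁻¹ k j - (b z)⁻¹ k p * (b z)⁻¹ q j) * dZ i (fun w => b w p q) z := by
  have hadj := fun k j => piola_differentiableAt_adj hb k j
  have hdet := piola_differentiableAt_det hb
  refine piola_matrix (A := Matrix.of fun p q => dZ i (fun w => b w p q) z)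
    (N := Matrix.of fun k j => dZ i (fun w => (b w).adjugate k j) z)
    (dd := dZ i (fun w => (b w).det) z) h0 (dZ_det hb i) ?_ k j
  ext p q
  have h1 : ∀ w, (b w * (b w).adjugate) p q = (b w).det * (1 : Matrix (Fin n) (Fin n) ℂ) p q := by
    intro w
    rw [Matrix.mul_adjugate, Matrix.smul_apply, smul_eq_mul]
  have h2 : dZ i (fun w => ∑ r, b w p r * (b w).adjugate r q) z =
      dZ i (fun w => (b w).det * (1 : Matrix (Fin n) (Fin n) ℂ) p q) z := by
    congr 1
    funext w
    rw [← h1, Matrix.mul_apply]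
  rw [dZ_sum _ (fun r _ => (hb p r).fun_mul (hadj r q)),
    dZ_mul hdet (differentiableAt_const _), dZ_const, mul_zero, add_zero] at h2
  rw [Matrix.add_apply, Matrix.mul_apply, Matrix.mul_apply, Matrix.smul_apply, smul_eq_mul, ← h2,
    ← Finset.sum_add_distrib]
  refine Finset.sum_congr rfl fun r _ => ?_
  rw [dZ_mul (hb p r) (hadj r q)]
  rfl

/-- divergence of the adjugate, general formula -/
theorem div_adjugate {b : V n → Matrix (Fin n) (Fin n) ℂ} {z : V n}
    (hb : ∀ j k, DifferentiableAt ℝ (fun w => b w j k) z) (h0 : (b z).det ≠ 0) (k : Fin n) :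
    ∑ j, dZ j (fun w => (b w).adjugate k j) z = (b z).det * ∑ j, ∑ p, ∑ q,
      ((b z)⁻¹ q p * (b z)⁻¹ k j - (b z)⁻¹ k p * (b z)⁻¹ q j) * dZ j (fun w => b w p q) z := by
  rw [Finset.mul_sum]
  exact Finset.sum_congr rfl fun j _ => piola_dZ_adj hb h0 j k j

/-- divergence of the adjugate of a closed form vanishes -/
theorem div_adjugate_closed {g : V n → Matrix (Fin n) (Fin n) ℂ} {Ω : Set (V n)} (hΩ : IsOpen Ω)
    (hg : KForm g Ω) {z : V n} (hz : z ∈ Ω) (h0 : (g z).det ≠ 0) (k : Fin n) :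
    ∑ j, dZ j (fun w => (g w).adjugate k j) z = 0 := by
  have hd : ∀ j k, DifferentiableAt ℝ (fun w => g w j k) z := fun j k =>
    ((hg.smooth j k).contDiffAt (hΩ.mem_nhds hz)).differentiableAt (by simp)
  rw [div_adjugate hd h0]
  have h1 : ∑ j, ∑ p, ∑ q, (g z)⁻¹ k p * (g z)⁻¹ q j * dZ j (fun w => g w p q) z =
      ∑ j, ∑ p, ∑ q, (g z)⁻¹ q p * (g z)⁻¹ k j * dZ j (fun w => g w p q) z := by
    rw [Finset.sum_comm]
    refine Finset.sum_congr rfl fun p _ => Finset.sum_congr rfl fun j _ =>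
      Finset.sum_congr rfl fun q _ => ?_
    rw [hg.closed z hz j p q]
    ring
  simp only [sub_mul, Finset.sum_sub_distrib]
  rw [h1, sub_self, mul_zero]

theorem div_adjugate_closed' {g : V n → Matrix (Fin n) (Fin n) ℂ} {Ω : Set (V n)} (hΩ : IsOpen Ω)
    (hg : KForm g Ω) {z : V n} (hz : z ∈ Ω) (h0 : (g z).det ≠ 0) (j : Fin n) :
    ∑ k, dB k (fun w => (g w).adjugate k j) z = 0 := by
  have hd : ∀ j k, DifferentiableAt ℝ (fun w => g w j k) z := fun j k =>
    ((hg.smooth j k).contDiffAt (hΩ.mem_nhds hz)).differentiableAt (by simp)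
  have hadj := fun k j => piola_differentiableAt_adj hd k j
  have h1 : ∀ k, dB k (fun w => (g w).adjugate k j) z =
      star (dZ k (fun w => (g w).adjugate j k) z) := by
    intro k
    rw [← dB_star (hadj j k)]
    refine dB_congr ?_ k
    filter_upwards [hΩ.mem_nhds hz] with w hw
    have h2 : ((g w).adjugate).conjTranspose = (g w).adjugate := by
      rw [Matrix.adjugate_conjTranspose, (hg.herm w hw).eq]
    have h3 := congrFun (congrFun h2 k) j
    rw [Matrix.conjTranspose_apply] at h3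
    exact h3.symm
  simp only [h1]
  rw [← star_sum, div_adjugate_closed hΩ hg hz h0 j, star_zero]

/-- closed forms satisfy the Gauduchon condition -/
theorem gauduchon_of_closed {g : V n → Matrix (Fin n) (Fin n) ℂ} {Ω : Set (V n)} (hΩ : IsOpen Ω)
    (hg : KForm g Ω) (hp : ∀ w ∈ Ω, (g w).PosDef) {z : V n} (hz : z ∈ Ω) :
    ∑ j, ∑ k, dZ j (fun w => dB k (fun w' => (g w').adjugate k j) w) z = 0 := by
  refine Finset.sum_eq_zero fun j _ => ?_
  have hs : ∀ k ∈ (Finset.univ : Finset (Fin n)), DifferentiableAt ℝ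
      (fun w => dB k (fun w' => (g w').adjugate k j) w) z := fun k _ =>
    ((contDiffOn_dB hΩ (piola_contDiffOn_adj hg.smooth k j) k).contDiffAt
      (hΩ.mem_nhds hz)).differentiableAt (by simp)
  rw [← dZ_sum _ hs]
  rw [dZ_congr (f' := fun _ => 0) ?_ j, dZ_const]
  filter_upwards [hΩ.mem_nhds hz] with w hw
  exact div_adjugate_closed' hΩ hg hw (ne_of_gt (hp w hw).det_pos) j

end

end GK
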