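import Pool.Agent.GK.MDefs

/-! # Module Reps: representatives of the special points -/

open scoped ContDiff Topology ComplexOrder
open MeasureTheory

namespace GK

noncomputable section

/-- representatives of the special points -/
structure Reps (B : BaseCurve) where
  R1 : Finset B.Sp
  R2 : Finset (Qt B)
  R3 : Finset B.Sp
  mem_R3 : ∀ σ, σ ∈ R3 ↔ B.main σ
  R1_inj : ∀ σ ∈ R1, ∀ τ ∈ R1, ∀ k, B.sσ^[k] σ = τ → σ = τ
  R1_surj : ∀ σ, ∃ τ ∈ R1, ∃ k, B.sσ^[k] τ = σ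
  R2_spec : ∀ q ∈ R2, Spec q ∧ ¬ IsMn q ∧ TS q
  R2_inj : ∀ q ∈ R2, ∀ q' ∈ R2, ∀ γ : Gam, actQ γ q = q' → q = q'
  R2_surj : ∀ q, Spec q → ¬ IsMn q → TS q → ∃ q' ∈ R2, ∃ γ : Gam, actQ γ q' = q

namespace RP

theorem exists_repr {X : Type*} (r : X → X → Prop) (hr : Equivalence r) {F : Set X}
    (hF : F.Finite) : ∃ R : Finset X, (∀ x ∈ R, x ∈ F) ∧ (∀ x ∈ R, ∀ y ∈ R, r x y → x = y) ∧
      ∀ x ∈ F, ∃ y ∈ R, r y x := by
  letI st : Setoid X := ⟨r, hr⟩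
  obtain ⟨S, hS, hb⟩ := Set.exists_subset_bijOn F (fun x => (⟦x⟧ : Quotient st))
  have hfin : S.Finite := hF.subset hS
  refine ⟨hfin.toFinset, fun x hx => hS (hfin.mem_toFinset.1 hx), ?_, ?_⟩
  · intro x hx y hy hxy
    exact hb.injOn (hfin.mem_toFinset.1 hx) (hfin.mem_toFinset.1 hy) (Quotient.sound hxy)
  · intro x hx
    obtain ⟨y, hy, hyx⟩ := hb.surjOn ⟨x, hx, rfl⟩
    exact ⟨y, hfin.mem_toFinset.2 hy, Quotient.exact hyx⟩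

variable {B : BaseCurve}

theorem isMn_act (γ : Gam) {q : Qt B} (h : IsMn q) : IsMn (actQ γ q) := by
  obtain ⟨h1, h2, h3⟩ := h
  refine ⟨?_, ?_, ?_⟩
  · show B.main (B.sσ^[γ.k] q.2.2)
    rw [main_iter h1]
    exact h1
  · exact Eis.add_mem (Eis_mul (mult_mem B.N_pos B.N_dvd _ _) h2) γ.h0
  · exact Eis.add_mem (Eis_mul (mult_mem B.N_pos B.N_dvd _ _) h3) γ.h1

theorem isMn_act_iff (γ : Gam) (q : Qt B) : IsMn (actQ γ q) ↔ IsMn q := by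
  refine ⟨fun h => ?_, isMn_act γ⟩
  have := isMn_act (Gam.inv B γ) h
  rwa [actQ_inv] at this

/-- half periods -/
def H : Set ℂ := Set.range fun x : Fin 2 × Fin 2 => ((x.1 : ℕ) + (x.2 : ℕ) * xi) / 2

theorem exists_half {z : ℂ} (hz : 2 * z ∈ Eis) : ∃ l ∈ Eis, z + l ∈ H := by
  obtain ⟨a, b, hab⟩ := hz
  have ha := Int.emod_two_eq_zero_or_one a
  have hb := Int.emod_two_eq_zero_or_one b
  have ha' := Int.emod_add_mul_ediv a 2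
  have hb' := Int.emod_add_mul_ediv b 2
  refine ⟨-((a / 2 : ℤ) + (b / 2 : ℤ) * xi), Eis.neg_mem ⟨a / 2, b / 2, rfl⟩, ?_⟩
  have ha2 : (a : ℂ) = ((a % 2 : ℤ) : ℂ) + 2 * ((a / 2 : ℤ) : ℂ) := by exact_mod_cast ha'.symm
  have hb2 : (b : ℂ) = ((b % 2 : ℤ) : ℂ) + 2 * ((b / 2 : ℤ) : ℂ) := by exact_mod_cast hb'.symm
  have e : z + -((a / 2 : ℤ) + (b / 2 : ℤ) * xi) =
      (((a % 2 : ℤ) : ℂ) + ((b % 2 : ℤ) : ℂ) * xi) / 2 := by
    have : z = ((a : ℂ) + b * xi) / 2 := by rw [← hab]; ring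
    rw [this, ha2, hb2]
    push_cast
    ring
  rw [e]
  rcases ha with ha | ha <;> rcases hb with hb | hb <;> rw [ha, hb]
  · exact ⟨(0, 0), by simp⟩
  · exact ⟨(0, 1), by simp⟩
  · exact ⟨(1, 0), by simp⟩
  · exact ⟨(1, 1), by simp⟩

end RP

open RP

theorem exists_reps (B : BaseCurve) : Nonempty (Reps B) := by
  classical
  -- the special points of the curve
  have hr1 : Equivalence (fun σ τ : B.Sp => ∃ k, B.sσ^[k] σ = τ) := by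
    refine ⟨fun σ => ⟨0, rfl⟩, ?_, ?_⟩
    · rintro σ τ ⟨k, rfl⟩
      exact ⟨(B.N - 1) * k, sσ_iter_mul k σ⟩
    · rintro σ τ ρ ⟨k, rfl⟩ ⟨m, rfl⟩
      exact ⟨m + k, Function.iterate_add_apply _ _ _ _⟩
  obtain ⟨R1, _, h1, h1'⟩ := exists_repr _ hr1 (Set.finite_univ (α := B.Sp))
  have hr2 : Equivalence (fun q q' : Qt B => ∃ γ : Gam, actQ γ q = q') := by
    refine ⟨fun q => ⟨Gam.one, actQ_one q⟩, ?_, ?_⟩
    · rintro q q' ⟨γ, rfl⟩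
      exact ⟨Gam.inv B γ, actQ_inv γ q⟩
    · rintro q q' q'' ⟨γ, rfl⟩ ⟨δ, rfl⟩
      exact ⟨Gam.comp B δ γ, actQ_comp δ γ q⟩
  have hfin : ({q : Qt B | q.1 ∈ H ∧ q.2.1 ∈ H ∧ Spec q ∧ ¬ IsMn q ∧ TS q} : Set (Qt B)).Finite := by
    have hH : H.Finite := Set.finite_range _
    refine (hH.prod (hH.prod (Set.finite_univ (α := B.Sp)))).subset ?_
    rintro q ⟨h3, h4, _⟩
    exact ⟨h3, h4, Set.mem_univ _⟩
  obtain ⟨R2, h2, h3, h4⟩ := exists_repr _ hr2 hfin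
  refine ⟨⟨R1, R2, Finset.univ.filter B.main, fun σ => by simp, ?_, ?_, ?_, ?_, ?_⟩⟩
  · intro σ hσ τ hτ k hk
    exact h1 σ hσ τ hτ ⟨k, hk⟩
  · intro σ
    exact h1' σ (Set.mem_univ σ)
  · intro q hq
    exact (h2 q hq).2.2
  · intro q hq q' hq' γ hγ
    exact h3 q hq q' hq' ⟨γ, hγ⟩
  · intro q hq hm ht
    obtain ⟨l0, hl0, k0⟩ := exists_half ht.1
    obtain ⟨l1, hl1, k1⟩ := exists_half ht.2
    set γ : Gam := ⟨0, 0, 0, l0, l1, hl0, hl1⟩ with hγ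
    have e : actQ γ q = (q.1 + l0, q.2.1 + l1, q.2.2) := by
      simp [actQ, hγ, mult_zero]
    have hF : actQ γ q ∈ {q : Qt B | q.1 ∈ H ∧ q.2.1 ∈ H ∧ Spec q ∧ ¬ IsMn q ∧ TS q} := by
      refine ⟨by rw [e]; exact k0, by rw [e]; exact k1, spec_act γ hq,
        fun h => hm ((isMn_act_iff γ q).1 h), ?_⟩
      rw [e]
      have h2m : (2 : ℂ) ∈ Eis := ⟨2, 0, by simp⟩
      refine ⟨?_, ?_⟩
      · show 2 * (q.1 + l0) ∈ Eis
        rw [mul_add]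
        exact Eis.add_mem ht.1 (Eis_mul h2m hl0)
      · show 2 * (q.2.1 + l1) ∈ Eis
        rw [mul_add]
        exact Eis.add_mem ht.2 (Eis_mul h2m hl1)
    obtain ⟨q', hq', δ, hδ⟩ := h4 _ hF
    refine ⟨q', hq', Gam.comp B (Gam.inv B γ) δ, ?_⟩
    rw [actQ_comp, hδ, actQ_inv]

end

end GK
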