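import Pool.Agent.GK.Lattice
import Pool.Agent.GK.Glue

/-!
# The space `M(𝔅)`: relations, special points

`M(𝔅) = (Bl_S (E × E × C) / ⟨(ζ,ζ,s)⟩ × ℂ_t) / ℤ[i]`.
-/

open scoped ContDiff Topology
open MeasureTheory

namespace GK

noncomputable section

/-- the multiplier `(-1)^a ζ^k` -/
def mult (N : ℕ) (k : ℕ) (a : ℤ) : ℂ := (-1) ^ a * zetaN N ^ k

/-- elements of the covering group -/
structure Gam where
  k : ℕ
  a : ℤ
  b : ℤ
  l0 : ℂ
  l1 : ℂ
  h0 : l0 ∈ Eis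
  h1 : l1 ∈ Eis

variable (B : BaseCurve)

/-- the space before the blow-up -/
abbrev XA := ℂ × ℂ × B.C × ℂ

/-- centres of the blow-ups -/
abbrev Qt := ℂ × ℂ × B.Sp

/-- exceptional points: centre, direction, last coordinate -/
abbrev XB := Qt B × (Fin 3 → ℂ) × ℂ

variable {B}

/-- the translation of the last coordinate -/
def Gam.tr (γ : Gam) : ℂ := γ.a + γ.b * Complex.I

def actA (γ : Gam) (x : XA B) : XA B :=
  (mult B.N γ.k γ.a * x.1 + γ.l0, mult B.N γ.k γ.b * x.2.1 + γ.l1, B.s^[γ.k] x.2.2.1,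
    x.2.2.2 + γ.tr)

def actQ (γ : Gam) (q : Qt B) : Qt B :=
  (mult B.N γ.k γ.a * q.1 + γ.l0, mult B.N γ.k γ.b * q.2.1 + γ.l1, B.sσ^[γ.k] q.2.2)

/-- the linear part -/
def linD (N : ℕ) (γ : Gam) (X : Fin 3 → ℂ) : Fin 3 → ℂ :=
  ![mult N γ.k γ.a * X 0, mult N γ.k γ.b * X 1, zetaN N ^ γ.k * X 2]

/-- the action in local coordinates near the special points -/
def linV (N : ℕ) (γ : Gam) (y : V 4) : V 4 :=
  ![mult N γ.k γ.a * y 0, mult N γ.k γ.b * y 1, zetaN N ^ γ.k * y 2, y 3 + γ.tr]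

def Gam.one : Gam := ⟨0, 0, 0, 0, 0, Eis.zero_mem, Eis.zero_mem⟩

theorem mult_mem {N : ℕ} (hN : 0 < N) (h6 : N ∣ 6) (k : ℕ) (a : ℤ) : mult N k a ∈ Eis :=
  Eis_mul (neg_one_zpow_mem_Eis a) (zetaN_pow_mem hN h6 k)

theorem mult_add (N : ℕ) (k k' : ℕ) (a a' : ℤ) :
    mult N (k' + k) (a' + a) = mult N k' a' * mult N k a := by
  unfold mult
  rw [zpow_add₀ (by norm_num), pow_add]; ring

theorem mult_zero (N : ℕ) : mult N 0 0 = 1 := by simp [mult]

theorem mult_ne_zero (N : ℕ) (k : ℕ) (a : ℤ) : mult N k a ≠ 0 :=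
  mul_ne_zero (zpow_ne_zero _ (by norm_num)) (pow_ne_zero _ (zetaN_ne_zero N))

theorem norm_mult (N : ℕ) (k : ℕ) (a : ℤ) : ‖mult N k a‖ = 1 := by
  simp [mult, norm_zetaN]

theorem mult_inv {N : ℕ} (hN : 0 < N) (k : ℕ) (a : ℤ) :
    mult N ((N - 1) * k) (-a) * mult N k a = 1 := by
  rw [← mult_add]
  have : (N - 1) * k + k = N * k := by
    obtain ⟨m, rfl⟩ := Nat.exists_eq_succ_of_ne_zero hN.ne'
    simp [Nat.succ_mul]
  rw [this]
  simp [mult, pow_mul, zetaN_pow_self hN]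

/-- composition -/
def Gam.comp (B : BaseCurve) (δ γ : Gam) : Gam :=
  ⟨δ.k + γ.k, δ.a + γ.a, δ.b + γ.b, mult B.N δ.k δ.a * γ.l0 + δ.l0,
    mult B.N δ.k δ.b * γ.l1 + δ.l1,
    Eis.add_mem (Eis_mul (mult_mem B.N_pos B.N_dvd _ _) γ.h0) δ.h0,
    Eis.add_mem (Eis_mul (mult_mem B.N_pos B.N_dvd _ _) γ.h1) δ.h1⟩

/-- inverse -/
def Gam.inv (B : BaseCurve) (γ : Gam) : Gam :=
  ⟨(B.N - 1) * γ.k, -γ.a, -γ.b, -(mult B.N ((B.N - 1) * γ.k) (-γ.a) * γ.l0),
    -(mult B.N ((B.N - 1) * γ.k) (-γ.b) * γ.l1),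
    Eis.neg_mem (Eis_mul (mult_mem B.N_pos B.N_dvd _ _) γ.h0),
    Eis.neg_mem (Eis_mul (mult_mem B.N_pos B.N_dvd _ _) γ.h1)⟩

theorem actA_one (x : XA B) : actA Gam.one x = x := by
  simp [actA, Gam.one, mult_zero, Gam.tr]

theorem actQ_one (q : Qt B) : actQ Gam.one q = q := by
  simp [actQ, Gam.one, mult_zero]

theorem actA_comp (δ γ : Gam) (x : XA B) : actA (Gam.comp B δ γ) x = actA δ (actA γ x) := by
  simp only [actA, Gam.comp, Gam.tr, mult_add, Function.iterate_add_apply, Prod.mk.injEq]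
  refine ⟨by ring, by ring, trivial, by push_cast; ring⟩

theorem actQ_comp (δ γ : Gam) (q : Qt B) : actQ (Gam.comp B δ γ) q = actQ δ (actQ γ q) := by
  simp only [actQ, Gam.comp, mult_add, Function.iterate_add_apply, Prod.mk.injEq]
  refine ⟨by ring, by ring, trivial⟩

theorem linD_comp (δ γ : Gam) (X : Fin 3 → ℂ) :
    linD B.N (Gam.comp B δ γ) X = linD B.N δ (linD B.N γ X) := by
  ext i
  fin_cases i <;> simp [linD, Gam.comp, mult_add, pow_add] <;> ring

theorem linV_comp (δ γ : Gam) (y : V 4) :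
    linV B.N (Gam.comp B δ γ) y = linV B.N δ (linV B.N γ y) := by
  ext i
  fin_cases i <;> simp [linV, Gam.comp, mult_add, pow_add, Gam.tr] <;> ring

theorem s_iter_mul (k : ℕ) : B.s^[(B.N - 1) * k + k] = id := by
  have : (B.N - 1) * k + k = B.N * k := by
    obtain ⟨m, hm⟩ := Nat.exists_eq_succ_of_ne_zero B.N_pos.ne'
    rw [hm]; simp [Nat.succ_mul]
  rw [this, Function.iterate_mul, B.s_iter, Function.iterate_id]

theorem actA_inv (γ : Gam) (x : XA B) : actA (Gam.inv B γ) (actA γ x) = x := by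
  obtain ⟨z0, z1, c, t⟩ := x
  have h0 := mult_inv B.N_pos γ.k γ.a
  have h1 := mult_inv B.N_pos γ.k γ.b
  have h2 := congrFun (s_iter_mul (B := B) γ.k) c
  rw [Function.iterate_add_apply] at h2
  simp only [actA, Gam.inv, Gam.tr, Prod.mk.injEq]
  refine ⟨by linear_combination z0 * h0, by linear_combination z1 * h1, h2, by push_cast; ring⟩

/-- powers of `s` on special points -/
theorem s_iter_ch (k : ℕ) (σ : B.Sp) {w : ℂ} (hw : w ∈ Metric.ball (0 : ℂ) (1 / 2)) :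
    B.s^[k] (B.p (B.ch σ) w) = B.p (B.ch (B.sσ^[k] σ)) (zetaN B.N ^ k * w) := by
  induction k with
  | zero => simp
  | succ k ih =>
    rw [Function.iterate_succ_apply', ih, B.s_ch, Function.iterate_succ_apply', pow_succ']
    · rw [mul_assoc]
    · rw [mem_ball_zero_iff] at hw ⊢
      rw [norm_mul, norm_pow, norm_zetaN, one_pow, one_mul]; exact hw

theorem p_ch_inj {σ τ : B.Sp} {w w' : ℂ} (hw : w ∈ Metric.ball (0 : ℂ) (1 / 2))
    (hw' : w' ∈ Metric.ball (0 : ℂ) (1 / 2)) (h : B.p (B.ch σ) w = B.p (B.ch τ) w') :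
    σ = τ ∧ w = w' := by
  have h1 : σ = τ := by
    by_contra hne
    exact Set.disjoint_left.1 (B.disj σ τ hne) ⟨w, hw, rfl⟩ ⟨w', hw', h.symm⟩
  subst h1
  refine ⟨rfl, B.p_inj (B.ch σ) ?_ ?_ h⟩
  · rw [B.D_ch]; exact hw
  · rw [B.D_ch]; exact hw'

theorem zero_mem_half : (0 : ℂ) ∈ Metric.ball (0 : ℂ) (1 / 2) := by simp

theorem sσ_iter_mul (k : ℕ) (σ : B.Sp) : B.sσ^[(B.N - 1) * k] (B.sσ^[k] σ) = σ := by
  rw [← Function.iterate_add_apply]
  have h := congrFun (s_iter_mul (B := B) k) (B.p (B.ch σ) 0)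
  rw [s_iter_ch _ _ zero_mem_half, mul_zero] at h
  exact (p_ch_inj zero_mem_half zero_mem_half h).1

theorem sσ_iter_N (σ : B.Sp) : B.sσ^[B.N] σ = σ := by
  have h := congrFun B.s_iter (B.p (B.ch σ) 0)
  rw [s_iter_ch _ _ zero_mem_half, mul_zero] at h
  exact (p_ch_inj zero_mem_half zero_mem_half h).1

theorem actQ_inv (γ : Gam) (q : Qt B) : actQ (Gam.inv B γ) (actQ γ q) = q := by
  obtain ⟨z0, z1, σ⟩ := q
  have h0 := mult_inv B.N_pos γ.k γ.a
  have h1 := mult_inv B.N_pos γ.k γ.b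
  simp only [actQ, Gam.inv, Prod.mk.injEq]
  exact ⟨by linear_combination z0 * h0, by linear_combination z1 * h1, sσ_iter_mul γ.k σ⟩

theorem linD_inv (γ : Gam) (X : Fin 3 → ℂ) :
    linD B.N (Gam.inv B γ) (linD B.N γ X) = X := by
  have h0 := mult_inv B.N_pos γ.k γ.a
  have h1 := mult_inv B.N_pos γ.k γ.b
  have h2 : zetaN B.N ^ ((B.N - 1) * γ.k) * zetaN B.N ^ γ.k = 1 := by
    have := mult_inv B.N_pos γ.k 0
    simpa [mult] using this
  ext i
  fin_cases i
  · simp [linD, Gam.inv]; linear_combination X 0 * h0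
  · simp [linD, Gam.inv]; linear_combination X 1 * h1
  · simp [linD, Gam.inv]; linear_combination X 2 * h2

/-- relation on the points before the blow-up -/
def RA (x y : XA B) : Prop := ∃ γ : Gam, actA γ x = y

/-- relation on the exceptional points -/
def RB (x y : XB B) : Prop := ∃ γ : Gam, ∃ c : ℂ, c ≠ 0 ∧
  y = (actQ γ x.1, c • linD B.N γ x.2.1, x.2.2 + γ.tr)

theorem RA.equiv : Equivalence (RA (B := B)) where
  refl x := ⟨Gam.one, actA_one x⟩
  symm := by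
    rintro x y ⟨γ, rfl⟩
    exact ⟨Gam.inv B γ, actA_inv γ x⟩
  trans := by
    rintro x y z ⟨γ, rfl⟩ ⟨δ, rfl⟩
    exact ⟨Gam.comp B δ γ, actA_comp δ γ x⟩

theorem linD_smul (N : ℕ) (γ : Gam) (c : ℂ) (X : Fin 3 → ℂ) :
    linD N γ (c • X) = c • linD N γ X := by
  ext i
  fin_cases i <;> simp [linD] <;> ring

theorem linD_one (N : ℕ) (X : Fin 3 → ℂ) : linD N Gam.one X = X := by
  ext i
  fin_cases i <;> simp [linD, Gam.one, mult]

theorem RB.equiv : Equivalence (RB (B := B)) where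
  refl x := ⟨Gam.one, 1, one_ne_zero, by
    rw [actQ_one, linD_one, one_smul]; simp [Gam.one, Gam.tr]⟩
  symm := by
    rintro x y ⟨γ, c, hc, rfl⟩
    refine ⟨Gam.inv B γ, c⁻¹, inv_ne_zero hc, ?_⟩
    simp only
    rw [actQ_inv, linD_smul, linD_inv, smul_smul, inv_mul_cancel₀ hc, one_smul]
    simp [Gam.inv, Gam.tr]
    ring
  trans := by
    rintro x y z ⟨γ, c, hc, rfl⟩ ⟨δ, d, hd, rfl⟩
    refine ⟨Gam.comp B δ γ, d * c, mul_ne_zero hd hc, ?_⟩
    simp only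
    rw [actQ_comp, linD_comp, linD_smul, smul_smul]
    simp [Gam.comp, Gam.tr]
    ring

instance setoidA : Setoid (XA B) := ⟨RA, RA.equiv⟩

instance setoidB : Setoid (XB B) := ⟨RB, RB.equiv⟩

variable (B) in
/-- the underlying set of all points -/
def Pt : Type := Quotient (setoidA (B := B)) ⊕ Quotient (setoidB (B := B))

def ptA (x : XA B) : Pt B := Sum.inl ⟦x⟧

def ptB (x : XB B) : Pt B := Sum.inr ⟦x⟧

theorem ptA_eq {x y : XA B} : ptA x = ptA y ↔ RA x y := by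
  unfold ptA
  constructor
  · intro h
    exact Quotient.exact (Sum.inl.inj h)
  · intro h
    exact congrArg Sum.inl (Quotient.sound h)

theorem ptB_eq {x y : XB B} : ptB x = ptB y ↔ RB x y := by
  unfold ptB
  constructor
  · intro h
    exact Quotient.exact (Sum.inr.inj h)
  · intro h
    exact congrArg Sum.inr (Quotient.sound h)

theorem ptA_ne_ptB (x : XA B) (y : XB B) : ptA x ≠ ptB y := Sum.inl_ne_inr

/-! ### special points -/

/-- centres of the blow-ups -/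
def Spec (q : Qt B) : Prop :=
  (B.main q.2.2 ∧ q.1 ∈ Eis ∧ q.2.1 ∈ Eis) ∨
  ∃ k : ℕ, ¬ B.N ∣ k ∧ B.sσ^[k] q.2.2 = q.2.2 ∧ (zetaN B.N ^ k - 1) * q.1 ∈ Eis ∧
    (zetaN B.N ^ k - 1) * q.2.1 ∈ Eis

/-- the stabiliser -/
def Stab (q : Qt B) (k : ℕ) : Prop :=
  B.sσ^[k] q.2.2 = q.2.2 ∧ (zetaN B.N ^ k - 1) * q.1 ∈ Eis ∧ (zetaN B.N ^ k - 1) * q.2.1 ∈ Eis

theorem stab_zero (q : Qt B) : Stab q 0 := by
  refine ⟨rfl, ?_, ?_⟩ <;> simp [Eis.zero_mem]

theorem stab_N (q : Qt B) : Stab q B.N := by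
  refine ⟨sσ_iter_N _, ?_, ?_⟩ <;> simp [zetaN_pow_self B.N_pos, Eis.zero_mem]

theorem Stab.add {q : Qt B} {k k' : ℕ} (h : Stab q k) (h' : Stab q k') : Stab q (k + k') := by
  refine ⟨by rw [Function.iterate_add_apply, h'.1, h.1], ?_, ?_⟩
  · have : (zetaN B.N ^ (k + k') - 1) * q.1 =
      zetaN B.N ^ k * ((zetaN B.N ^ k' - 1) * q.1) + (zetaN B.N ^ k - 1) * q.1 := by
      rw [pow_add]; ring
    rw [this]
    exact Eis.add_mem (Eis_mul (zetaN_pow_mem B.N_pos B.N_dvd k) h'.2.1) h.2.1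
  · have : (zetaN B.N ^ (k + k') - 1) * q.2.1 =
      zetaN B.N ^ k * ((zetaN B.N ^ k' - 1) * q.2.1) + (zetaN B.N ^ k - 1) * q.2.1 := by
      rw [pow_add]; ring
    rw [this]
    exact Eis.add_mem (Eis_mul (zetaN_pow_mem B.N_pos B.N_dvd k) h'.2.2) h.2.2

theorem Stab.sub {q : Qt B} {k k' : ℕ} (h : Stab q (k + k')) (h' : Stab q k') : Stab q k := by
  obtain ⟨h1, h2, h3⟩ := h
  obtain ⟨h1', h2', h3'⟩ := h'
  refine ⟨by rw [Function.iterate_add_apply, h1'] at h1; exact h1, ?_, ?_⟩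
  · have : (zetaN B.N ^ k - 1) * q.1 = (zetaN B.N ^ (k + k') - 1) * q.1 -
      zetaN B.N ^ k * ((zetaN B.N ^ k' - 1) * q.1) := by
      rw [pow_add]; ring
    rw [this]
    exact Eis.sub_mem h2 (Eis_mul (zetaN_pow_mem B.N_pos B.N_dvd k) h2')
  · have : (zetaN B.N ^ k - 1) * q.2.1 = (zetaN B.N ^ (k + k') - 1) * q.2.1 -
      zetaN B.N ^ k * ((zetaN B.N ^ k' - 1) * q.2.1) := by
      rw [pow_add]; ring
    rw [this]
    exact Eis.sub_mem h3 (Eis_mul (zetaN_pow_mem B.N_pos B.N_dvd k) h3')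

theorem exists_stab (q : Qt B) : ∃ k, 0 < k ∧ Stab q k := ⟨B.N, B.N_pos, stab_N q⟩

open Classical in
/-- generator of the stabiliser -/
def k0 (q : Qt B) : ℕ := Nat.find (exists_stab q)

/-- order of the stabiliser -/
def ro (q : Qt B) : ℕ := B.N / k0 q

theorem k0_pos (q : Qt B) : 0 < k0 q := by
  classical
  exact (Nat.find_spec (exists_stab q)).1

theorem stab_k0 (q : Qt B) : Stab q (k0 q) := by
  classical
  exact (Nat.find_spec (exists_stab q)).2

theorem stab_mul (q : Qt B) {k : ℕ} (h : Stab q k) (m : ℕ) : Stab q (k * m) := by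
  induction m with
  | zero => exact stab_zero q
  | succ m ih => rw [Nat.mul_succ]; exact ih.add h

theorem stab_iff (q : Qt B) (k : ℕ) : Stab q k ↔ k0 q ∣ k := by
  classical
  constructor
  · intro h
    have h1 : Stab q (k % k0 q) := by
      have := stab_mul q (stab_k0 q) (k / k0 q)
      apply Stab.sub (k' := k0 q * (k / k0 q)) _ this
      rw [Nat.mod_add_div]; exact h
    by_contra hnd
    have h2 : 0 < k % k0 q := Nat.pos_of_ne_zero fun h0 => hnd (Nat.dvd_of_mod_eq_zero h0)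
    exact Nat.find_min (exists_stab q) (Nat.mod_lt k (k0_pos q)) ⟨h2, h1⟩
  · rintro ⟨m, rfl⟩
    exact stab_mul q (stab_k0 q) m

theorem k0_dvd (q : Qt B) : k0 q ∣ B.N := (stab_iff q _).1 (stab_N q)

theorem k0_mul_ro (q : Qt B) : k0 q * ro q = B.N := Nat.mul_div_cancel' (k0_dvd q)

theorem ro_pos (q : Qt B) : 0 < ro q := by
  rcases Nat.eq_zero_or_pos (ro q) with h | h
  · have := k0_mul_ro q
    rw [h, mul_zero] at this
    exact absurd this.symm B.N_pos.ne'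
  · exact h

theorem primitive_k0 (q : Qt B) : IsPrimitiveRoot (zetaN B.N ^ k0 q) (ro q) :=
  (zetaN_isPrimitiveRoot B.N_pos).pow B.N_pos (k0_mul_ro q).symm

theorem spec_iff (q : Qt B) : Spec q ↔ (B.main q.2.2 ∧ q.1 ∈ Eis ∧ q.2.1 ∈ Eis) ∨ 1 < ro q := by
  unfold Spec
  apply or_congr Iff.rfl
  constructor
  · rintro ⟨k, hk, hs⟩
    have h1 : k0 q ∣ k := (stab_iff q k).1 hs
    rcases Nat.lt_or_ge 1 (ro q) with h | h
    · exact h
    · have h2 : ro q = 1 := le_antisymm h (ro_pos q)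
      have h3 := k0_mul_ro q
      rw [h2, mul_one] at h3
      rw [h3] at h1
      exact absurd h1 hk
  · intro h
    refine ⟨k0 q, ?_, stab_k0 q⟩
    intro hd
    have h1 := Nat.le_of_dvd (k0_pos q) hd
    have h2 := k0_mul_ro q
    nlinarith [k0_pos q]

theorem sσ_comm (k k' : ℕ) (σ : B.Sp) : B.sσ^[k] (B.sσ^[k'] σ) = B.sσ^[k'] (B.sσ^[k] σ) := by
  rw [← Function.iterate_add_apply, ← Function.iterate_add_apply, add_comm]

theorem stab_act (γ : Gam) {q : Qt B} {k : ℕ} (h : Stab q k) : Stab (actQ γ q) k := by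
  obtain ⟨h1, h2, h3⟩ := h
  refine ⟨?_, ?_, ?_⟩
  · simp only [actQ]
    rw [sσ_comm, h1]
  · simp only [actQ]
    have : (zetaN B.N ^ k - 1) * (mult B.N γ.k γ.a * q.1 + γ.l0) =
      mult B.N γ.k γ.a * ((zetaN B.N ^ k - 1) * q.1) + (zetaN B.N ^ k - 1) * γ.l0 := by ring
    rw [this]
    exact Eis.add_mem (Eis_mul (mult_mem B.N_pos B.N_dvd _ _) h2)
      (Eis_mul (Eis.sub_mem (zetaN_pow_mem B.N_pos B.N_dvd k) one_mem_Eis) γ.h0)
  · simp only [actQ]
    have : (zetaN B.N ^ k - 1) * (mult B.N γ.k γ.b * q.2.1 + γ.l1) =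
      mult B.N γ.k γ.b * ((zetaN B.N ^ k - 1) * q.2.1) + (zetaN B.N ^ k - 1) * γ.l1 := by ring
    rw [this]
    exact Eis.add_mem (Eis_mul (mult_mem B.N_pos B.N_dvd _ _) h3)
      (Eis_mul (Eis.sub_mem (zetaN_pow_mem B.N_pos B.N_dvd k) one_mem_Eis) γ.h1)

theorem stab_act_iff (γ : Gam) (q : Qt B) (k : ℕ) : Stab (actQ γ q) k ↔ Stab q k := by
  refine ⟨fun h => ?_, stab_act γ⟩
  have := stab_act (Gam.inv B γ) h
  rwa [actQ_inv] at this

theorem k0_act (γ : Gam) (q : Qt B) : k0 (actQ γ q) = k0 q := by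
  apply Nat.dvd_antisymm
  · rw [← stab_iff, stab_act_iff]; exact stab_k0 q
  · rw [← stab_iff, ← stab_act_iff γ]; exact stab_k0 _

theorem ro_act (γ : Gam) (q : Qt B) : ro (actQ γ q) = ro q := by
  unfold ro; rw [k0_act]

theorem main_iter {σ : B.Sp} (h : B.main σ) (k : ℕ) : B.sσ^[k] σ = σ := by
  induction k with
  | zero => rfl
  | succ k ih => rw [Function.iterate_succ_apply', ih, B.main_fix σ h]

theorem spec_act (γ : Gam) {q : Qt B} (h : Spec q) : Spec (actQ γ q) := by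
  rcases h with ⟨h1, h2, h3⟩ | ⟨k, hk, hs⟩
  · left
    simp only [actQ]
    rw [main_iter h1]
    exact ⟨h1, Eis.add_mem (Eis_mul (mult_mem B.N_pos B.N_dvd _ _) h2) γ.h0,
      Eis.add_mem (Eis_mul (mult_mem B.N_pos B.N_dvd _ _) h3) γ.h1⟩
  · right
    exact ⟨k, hk, stab_act γ (show Stab q k from hs)⟩

theorem spec_act_iff (γ : Gam) (q : Qt B) : Spec (actQ γ q) ↔ Spec q := by
  refine ⟨fun h => ?_, spec_act γ⟩
  have := spec_act (Gam.inv B γ) h
  rwa [actQ_inv] at this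

theorem Spec.special {q : Qt B} (h : Spec q) :
    2 * (2 * xi - 1) * q.1 ∈ Eis ∧ 2 * (2 * xi - 1) * q.2.1 ∈ Eis := by
  rcases h with ⟨_, h2, h3⟩ | ⟨k, hk, _, h2, h3⟩
  · have : (2 * (2 * xi - 1) : ℂ) ∈ Eis := ⟨-2, 4, by push_cast; ring⟩
    exact ⟨Eis_mul this h2, Eis_mul this h3⟩
  · exact ⟨special_of_zeta B.N_pos B.N_dvd hk h2, special_of_zeta B.N_pos B.N_dvd hk h3⟩

/-- a point of `E × E × C × ℂ_t` is special -/
def SpecA (x : XA B) : Prop := ∃ σ, x.2.2.1 = B.p (B.ch σ) 0 ∧ Spec (x.1, x.2.1, σ)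

theorem specA_act (γ : Gam) {x : XA B} (h : SpecA x) : SpecA (actA γ x) := by
  obtain ⟨σ, h1, h2⟩ := h
  refine ⟨B.sσ^[γ.k] σ, ?_, spec_act γ h2⟩
  simp only [actA]
  rw [h1, s_iter_ch _ _ zero_mem_half, mul_zero]

theorem specA_iff_of_RA {x y : XA B} (h : RA x y) : SpecA x ↔ SpecA y := by
  constructor
  · intro hx
    obtain ⟨γ, rfl⟩ := h
    exact specA_act γ hx
  · intro hy
    obtain ⟨γ, rfl⟩ := RA.equiv.symm h
    exact specA_act γ hy

/-- the point with local coordinates `x` near the special point `q` -/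
def posq (q : Qt B) (x : V 4) : XA B := (q.1 + x 0, q.2.1 + x 1, B.p (B.ch q.2.2) (x 2), x 3)

theorem actA_posq (γ : Gam) (q : Qt B) {x : V 4} (hx : x 2 ∈ Metric.ball (0 : ℂ) (1 / 2)) :
    actA γ (posq q x) = posq (actQ γ q) (linV B.N γ x) := by
  simp only [actA, posq, actQ, linV, Prod.mk.injEq]
  refine ⟨by simp; ring, by simp; ring, ?_, by simp⟩
  rw [s_iter_ch _ _ hx]; simp

theorem norm_lt_of_E3 {x : V 4} {ρ : ℝ} (hρ : 0 ≤ ρ) (h : E3 x < ρ ^ 2) (i : Fin 3) :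
    ‖x i.castSucc‖ < ρ := by
  have h1 : Complex.normSq (x i.castSucc) ≤ E3 x := by
    have a0 := Complex.normSq_nonneg (x 0)
    have a1 := Complex.normSq_nonneg (x 1)
    have a2 := Complex.normSq_nonneg (x 2)
    unfold E3
    fin_cases i
    · show Complex.normSq (x 0) ≤ _; linarith
    · show Complex.normSq (x 1) ≤ _; linarith
    · show Complex.normSq (x 2) ≤ _; linarith
  rw [Complex.normSq_eq_norm_sq] at h1
  exact lt_of_pow_lt_pow_left₀ 2 hρ (lt_of_le_of_lt h1 h)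

theorem norm_lt_eighth {x : V 4} (h : E3 x < 1 / 64) (i : Fin 3) : ‖x i.castSucc‖ < 1 / 8 :=
  norm_lt_of_E3 (by norm_num) (lt_of_lt_of_eq h (by norm_num)) i

/-- Key lemma: equivalent points near special points -/
theorem RA_posq {q q' : Qt B} (hq : Spec q) (hq' : Spec q') {x x' : V 4} (hx : E3 x < 1 / 64)
    (hx' : E3 x' < 1 / 64) (γ : Gam) (h : actA γ (posq q x) = posq q' x') :
    actQ γ q = q' ∧ linV B.N γ x = x' := by
  have n0 := norm_lt_eighth hx 0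
  have n1 := norm_lt_eighth hx 1
  have n2 := norm_lt_eighth hx 2
  have m0 := norm_lt_eighth hx' 0
  have m1 := norm_lt_eighth hx' 1
  have m2 := norm_lt_eighth hx' 2
  simp only [Fin.castSucc_zero, Fin.castSucc_one] at n0 n1 m0 m1
  have e2 : (2 : Fin 3).castSucc = 2 := rfl
  rw [e2] at n2 m2
  have b2 : x 2 ∈ Metric.ball (0 : ℂ) (1 / 2) := by rw [mem_ball_zero_iff]; linarith
  have b2' : x' 2 ∈ Metric.ball (0 : ℂ) (1 / 2) := by rw [mem_ball_zero_iff]; linarith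
  rw [actA_posq γ q b2] at h
  simp only [posq, Prod.mk.injEq] at h
  obtain ⟨h0, h1, h2, h3⟩ := h
  have hb : linV B.N γ x 2 ∈ Metric.ball (0 : ℂ) (1 / 2) := by
    rw [mem_ball_zero_iff] at b2 ⊢
    simp only [linV, Matrix.cons_val]
    rw [norm_mul, norm_pow, norm_zetaN, one_pow, one_mul]; exact b2
  obtain ⟨g1, g2⟩ := p_ch_inj hb b2' h2
  have s1 := (spec_act γ hq).special
  have s2 := hq'.special
  have nl0 : ‖linV B.N γ x 0‖ < 1 / 8 := by
    simp only [linV, Matrix.cons_val_zero]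
    rw [norm_mul, norm_mult, one_mul]; exact n0
  have nl1 : ‖linV B.N γ x 1‖ < 1 / 8 := by
    show ‖mult B.N γ.k γ.b * x 1‖ < 1 / 8
    rw [norm_mul, norm_mult, one_mul]; exact n1
  have d0 : (actQ γ q).1 = q'.1 := by
    apply special_sep s1.1 s2.1
    have : (actQ γ q).1 - q'.1 = x' 0 - linV B.N γ x 0 := by linear_combination h0
    rw [this]
    calc _ ≤ ‖x' 0‖ + ‖linV B.N γ x 0‖ := norm_sub_le _ _
      _ < _ := by linarith
  have d1 : (actQ γ q).2.1 = q'.2.1 := by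
    apply special_sep s1.2 s2.2
    have : (actQ γ q).2.1 - q'.2.1 = x' 1 - linV B.N γ x 1 := by linear_combination h1
    rw [this]
    calc _ ≤ ‖x' 1‖ + ‖linV B.N γ x 1‖ := norm_sub_le _ _
      _ < _ := by linarith
  refine ⟨?_, ?_⟩
  · obtain ⟨q0, q1, σ⟩ := q'
    exact Prod.ext d0 (Prod.ext d1 g1)
  · ext i
    fin_cases i
    · show linV B.N γ x 0 = x' 0
      linear_combination h0 - d0
    · show linV B.N γ x 1 = x' 1
      linear_combination h1 - d1
    · exact g2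
    · exact h3

/-- near a special point there is no other special point -/
theorem specA_posq {q : Qt B} (hq : Spec q) {x : V 4} (hx : E3 x < 1 / 64) :
    SpecA (posq q x) ↔ E3 x = 0 := by
  have n0 := norm_lt_eighth hx 0
  have n1 := norm_lt_eighth hx 1
  have n2 := norm_lt_eighth hx 2
  have e2 : (2 : Fin 3).castSucc = 2 := rfl
  rw [e2] at n2
  simp only [Fin.castSucc_zero, Fin.castSucc_one] at n0 n1
  have b2 : x 2 ∈ Metric.ball (0 : ℂ) (1 / 2) := by rw [mem_ball_zero_iff]; linarith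
  constructor
  · rintro ⟨σ, h1, h2⟩
    simp only [posq] at h1 h2
    obtain ⟨g1, g2⟩ := p_ch_inj b2 zero_mem_half h1
    have s1 := h2.special
    have s2 := hq.special
    have d0 : q.1 + x 0 = q.1 := by
      apply special_sep s1.1 s2.1
      rw [add_sub_cancel_left]; linarith
    have d1 : q.2.1 + x 1 = q.2.1 := by
      apply special_sep s1.2 s2.2
      rw [add_sub_cancel_left]; linarith
    have d0' : x 0 = 0 := by linear_combination d0
    have d1' : x 1 = 0 := by linear_combination d1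
    simp [E3, d0', d1', g2]
  · intro h
    have a0 := Complex.normSq_nonneg (x 0)
    have a1 := Complex.normSq_nonneg (x 1)
    have a2 := Complex.normSq_nonneg (x 2)
    unfold E3 at h
    have c0 : x 0 = 0 := Complex.normSq_eq_zero.1 (by linarith)
    have c1 : x 1 = 0 := Complex.normSq_eq_zero.1 (by linarith)
    have c2 : x 2 = 0 := Complex.normSq_eq_zero.1 (by linarith)
    refine ⟨q.2.2, ?_, ?_⟩
    · simp [posq, c2]
    · simpa [posq, c0, c1] using hq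

end

end GK
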