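import Pool.Agent.GK.SpaceSep

/-!
# Module SpaceCpt: finitely many compact pieces of charts cover `M(𝔅)`
-/

open scoped ContDiff Topology
open MeasureTheory

namespace GK

noncomputable section

variable {B : BaseCurve}

/-- finitely many compact pieces of charts cover the part of the space over `A` -/
def CptCov (A : Set (XA B)) : Prop :=
  ∃ (F : Finset (Ix B)) (K : Ix B → Set (V 4)), (∀ i, IsCompact (K i) ∧ K i ⊆ chU i) ∧
    (∀ x ∈ A, ¬ SpecA x → ∃ i ∈ F, ∃ z ∈ K i, chπ i z = ptA x) ∧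
    ∀ (q : Qt B) (t : ℂ), Spec q → posq q ![0, 0, 0, t] ∈ A → ∀ X : Fin 3 → ℂ, X ≠ 0 →
      ∃ i ∈ F, ∃ z ∈ K i, chπ i z = ptB (q, X, t)

theorem CptCov.empty : CptCov (∅ : Set (XA B)) :=
  ⟨∅, fun _ => ∅, fun _ => ⟨isCompact_empty, Set.empty_subset _⟩,
    fun _ hx => absurd hx (Set.notMem_empty _), fun _ _ _ hx => absurd hx (Set.notMem_empty _)⟩

theorem CptCov.mono {A A' : Set (XA B)} (h : A ⊆ A') (hA : CptCov A') : CptCov A := by
  obtain ⟨F, K, h1, h2, h3⟩ := hA
  exact ⟨F, K, h1, fun x hx => h2 x (h hx), fun q t hq hx => h3 q t hq (h hx)⟩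

theorem CptCov.union {A A' : Set (XA B)} (hA : CptCov A) (hA' : CptCov A') :
    CptCov (A ∪ A') := by
  classical
  obtain ⟨F, K, h1, h2, h3⟩ := hA
  obtain ⟨F', K', h1', h2', h3'⟩ := hA'
  refine ⟨F ∪ F', fun i => K i ∪ K' i, fun i => ⟨(h1 i).1.union (h1' i).1,
    Set.union_subset (h1 i).2 (h1' i).2⟩, ?_, ?_⟩
  · rintro x (hx | hx) hs
    · obtain ⟨i, hi, z, hz, h⟩ := h2 x hx hs
      exact ⟨i, Finset.mem_union_left _ hi, z, Or.inl hz, h⟩
    · obtain ⟨i, hi, z, hz, h⟩ := h2' x hx hs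
      exact ⟨i, Finset.mem_union_right _ hi, z, Or.inr hz, h⟩
  · rintro q t hq (hx | hx) X hX
    · obtain ⟨i, hi, z, hz, h⟩ := h3 q t hq hx X hX
      exact ⟨i, Finset.mem_union_left _ hi, z, Or.inl hz, h⟩
    · obtain ⟨i, hi, z, hz, h⟩ := h3' q t hq hx X hX
      exact ⟨i, Finset.mem_union_right _ hi, z, Or.inr hz, h⟩

theorem specA_posq_zero {q : Qt B} (hq : Spec q) (t : ℂ) : SpecA (posq q ![0, 0, 0, t]) := by
  rw [specA_posq hq] <;> simp [E3]

/-- local covering near a point that is not special -/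
theorem cptCov_regular (x : XA B) (hx : ¬ SpecA x) : ∃ A ∈ 𝓝 x, CptCov A := by
  classical
  obtain ⟨x0, x1, c, t⟩ := x
  obtain ⟨i, w, hw, rfl⟩ := B.p_surj c
  set y : V 4 := ![x0, x1, w, t] with hy
  have hyU : y ∈ chU (Sum.inl i : Ix B) := ⟨hw, hx⟩
  obtain ⟨ε, hε, hball⟩ := Metric.nhds_basis_closedBall.mem_iff.1
    ((isOpen_chU (Sum.inl i : Ix B)).mem_nhds hyU)
  have hopen : IsOpen (B.p i '' (Metric.ball w ε ∩ B.D i)) :=
    B.p_open i _ (Metric.isOpen_ball.inter (B.isOpen_D i)) Set.inter_subset_right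
  refine ⟨Metric.ball x0 ε ×ˢ Metric.ball x1 ε ×ˢ (B.p i '' (Metric.ball w ε ∩ B.D i)) ×ˢ
    Metric.ball t ε, ?_, {Sum.inl i}, fun k => if k = Sum.inl i then Metric.closedBall y ε else ∅,
    ?_, ?_, ?_⟩
  · refine prod_mem_nhds (Metric.ball_mem_nhds _ hε) (prod_mem_nhds (Metric.ball_mem_nhds _ hε)
      (prod_mem_nhds (hopen.mem_nhds ⟨w, ⟨Metric.mem_ball_self hε, hw⟩, rfl⟩)
        (Metric.ball_mem_nhds _ hε)))
  · intro k
    dsimp only
    split_ifs with hk
    · subst hk
      exact ⟨isCompact_closedBall _ _, hball⟩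
    · exact ⟨isCompact_empty, Set.empty_subset _⟩
  · rintro ⟨a0, a1, c', t'⟩ ⟨h0, h1, ⟨w', hw', rfl⟩, h3⟩ -
    refine ⟨Sum.inl i, Finset.mem_singleton_self _, ![a0, a1, w', t'], ?_, rfl⟩
    dsimp only
    rw [if_pos rfl, Metric.mem_closedBall, dist_pi_le_iff hε.le]
    intro m
    fin_cases m
    · exact (Metric.mem_ball.1 h0).le
    · exact (Metric.mem_ball.1 h1).le
    · exact (Metric.mem_ball.1 hw'.1).le
    · exact (Metric.mem_ball.1 h3).le
  · rintro q t' hq hx' X -
    exfalso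
    obtain ⟨h0, h1, ⟨w', hw', hw''⟩, h3⟩ := hx'
    have hmem : (![(posq q ![0, 0, 0, t']).1, (posq q ![0, 0, 0, t']).2.1, w',
        (posq q ![0, 0, 0, t']).2.2.2] : V 4) ∈ Metric.closedBall y ε := by
      rw [Metric.mem_closedBall, dist_pi_le_iff hε.le]
      intro m
      fin_cases m
      · exact (Metric.mem_ball.1 h0).le
      · exact (Metric.mem_ball.1 h1).le
      · exact (Metric.mem_ball.1 hw'.1).le
      · exact (Metric.mem_ball.1 h3).le
    have := (hball hmem).2
    apply this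
    have e : posA i ![(posq q ![0, 0, 0, t']).1, (posq q ![0, 0, 0, t']).2.1, w',
        (posq q ![0, 0, 0, t']).2.2.2] = posq q ![0, 0, 0, t'] := by
      refine Prod.ext rfl (Prod.ext rfl (Prod.ext ?_ rfl))
      exact hw''
    rw [e]
    exact specA_posq_zero hq t'

/-- compact piece of the exceptional chart -/
def excK (r : ℕ) (j : Fin 3) (t : ℂ) : Set (V 4) :=
  Set.pi Set.univ fun i => if i = j.castSucc then Metric.closedBall (0 : ℂ) ((1 / 16) ^ r) else
    if i = 3 then Metric.closedBall t 1 else Metric.closedBall (0 : ℂ) 1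

theorem isCompact_excK (r : ℕ) (j : Fin 3) (t : ℂ) : IsCompact (excK r j t) := by
  apply isCompact_univ_pi
  intro i
  split_ifs <;> exact isCompact_closedBall _ _

theorem excK_subset {r : ℕ} (hr : 0 < r) (j : Fin 3) (t : ℂ) :
    excK r j t ⊆ excDom r (1 / 64) j := by
  intro u hu
  have hj := hu j.castSucc (Set.mem_univ _)
  simp only [if_true] at hj
  rw [mem_closedBall_zero_iff] at hj
  have hother : ∀ i : Fin 3, i ≠ j → Complex.normSq (u i.castSucc) ≤ 1 := by
    intro i hi
    have h1 := hu i.castSucc (Set.mem_univ _)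
    have h2 : i.castSucc ≠ j.castSucc := fun h => hi (Fin.castSucc_injective _ h)
    simp only [if_neg h2, if_neg (castSucc_ne_three i)] at h1
    rw [mem_closedBall_zero_iff] at h1
    rw [Complex.normSq_eq_norm_sq]
    nlinarith [norm_nonneg (u i.castSucc)]
  have hN : excNorm j u ≤ 3 := by
    unfold excNorm
    rw [Fin.sum_univ_three]
    fin_cases j
    · have a1 := hother 1 (by decide)
      have a2 := hother 2 (by decide)
      simp only [Fin.castSucc_one] at a1
      simp
      simp at a1 a2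
      linarith
    · have a1 := hother 0 (by decide)
      have a2 := hother 2 (by decide)
      simp
      simp at a1 a2
      linarith
    · have a1 := hother 0 (by decide)
      have a2 := hother 1 (by decide)
      simp
      simp at a1 a2
      linarith
  have hv : Complex.normSq (u j.castSucc) ≤ (1 / 256) ^ r := by
    rw [Complex.normSq_eq_norm_sq]
    calc ‖u j.castSucc‖ ^ 2 ≤ ((1 / 16) ^ r) ^ 2 := pow_le_pow_left₀ (norm_nonneg _) hj 2
      _ = (1 / 256) ^ r := by rw [← pow_mul, mul_comm, pow_mul]; norm_num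
  show Complex.normSq (u j.castSucc) * excNorm j u ^ r < (1 / 64) ^ r
  calc Complex.normSq (u j.castSucc) * excNorm j u ^ r ≤ (1 / 256) ^ r * 3 ^ r := by
        apply mul_le_mul hv (pow_le_pow_left₀ (excNorm_pos j u).le hN r)
          (pow_nonneg (excNorm_pos j u).le _) (by positivity)
    _ = (3 / 256) ^ r := by rw [← mul_pow]; norm_num
    _ < (1 / 64) ^ r := pow_lt_pow_left₀ (by norm_num) (by norm_num) hr.ne'

theorem exists_max3 (f : Fin 3 → ℂ) : ∃ j, ∀ i, ‖f i‖ ≤ ‖f j‖ := by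
  obtain ⟨j, -, hj⟩ := Finset.exists_max_image Finset.univ (fun i => ‖f i‖)
    ⟨0, Finset.mem_univ _⟩
  exact ⟨j, fun i => hj i (Finset.mem_univ _)⟩

/-- local covering near a special point -/
theorem cptCov_special (q : Qt B) (hq : Spec q) (t : ℂ) :
    ∃ A ∈ 𝓝 (posq q ![0, 0, 0, t]), CptCov A := by
  classical
  have hr := ro_pos q
  obtain ⟨q0, q1, σ⟩ := q
  set q : Qt B := (q0, q1, σ) with hqd
  have hD : Metric.ball (0 : ℂ) (1 / 16) ⊆ B.D (B.ch σ) := by
    rw [B.D_ch]; exact Metric.ball_subset_ball (by norm_num)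
  have hopen : IsOpen (B.p (B.ch σ) '' Metric.ball (0 : ℂ) (1 / 16)) :=
    B.p_open _ _ Metric.isOpen_ball hD
  have hEq : posq q ![0, 0, 0, t] = (q0, q1, B.p (B.ch σ) 0, t) := by simp [posq, hqd]
  rw [hEq]
  set A : Set (XA B) := Metric.ball q0 (1 / 16) ×ˢ Metric.ball q1 (1 / 16) ×ˢ
    (B.p (B.ch σ) '' Metric.ball (0 : ℂ) (1 / 16)) ×ˢ Metric.ball t 1 with hA
  -- every point of `A` has local coordinates
  have hloc : ∀ x ∈ A, ∃ y : V 4, (∀ i : Fin 3, ‖y i.castSucc‖ < 1 / 16) ∧ ‖y 3 - t‖ < 1 ∧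
      posq q y = x := by
    rintro ⟨a0, a1, c', t'⟩ ⟨h0, h1, ⟨w', hw', rfl⟩, h3⟩
    refine ⟨![a0 - q0, a1 - q1, w', t'], ?_, ?_, ?_⟩
    · intro i
      fin_cases i
      · exact mem_ball_iff_norm.1 h0
      · exact mem_ball_iff_norm.1 h1
      · exact mem_ball_zero_iff.1 hw'
    · exact mem_ball_iff_norm.1 h3
    · simp [posq, hqd]
  have hE3 : ∀ y : V 4, (∀ i : Fin 3, ‖y i.castSucc‖ < 1 / 16) → E3 y < 1 / 64 := by
    intro y hy
    have a0 := hy 0
    have a1 := hy 1
    have a2 := hy 2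
    rw [E3_eq, Fin.sum_univ_three]
    simp only [Complex.normSq_eq_norm_sq]
    nlinarith [norm_nonneg (y (Fin.castSucc 0)), norm_nonneg (y (Fin.castSucc 1)),
      norm_nonneg (y (Fin.castSucc 2))]
  refine ⟨A, ?_, Finset.univ.image fun j : Fin 3 => (Sum.inr (q, j) : Ix B),
    fun k => match k with
      | Sum.inl _ => ∅
      | Sum.inr (q', j) => if q' = q then excK (ro q) j t else ∅, ?_, ?_, ?_⟩
  · refine prod_mem_nhds (Metric.ball_mem_nhds _ (by norm_num))
      (prod_mem_nhds (Metric.ball_mem_nhds _ (by norm_num))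
      (prod_mem_nhds (hopen.mem_nhds ⟨0, Metric.mem_ball_self (by norm_num), rfl⟩)
        (Metric.ball_mem_nhds _ (by norm_num))))
  · rintro (k | ⟨q', j⟩)
    · exact ⟨isCompact_empty, Set.empty_subset _⟩
    · dsimp only
      split_ifs with hk
      · subst hk
        refine ⟨isCompact_excK _ _ _, fun u hu => ⟨hq, excK_subset hr j t hu⟩⟩
      · exact ⟨isCompact_empty, Set.empty_subset _⟩
  · intro x hx hs
    obtain ⟨y, hy, hy3, rfl⟩ := hloc x hx
    obtain ⟨j, hj⟩ := exists_max3 fun i => y i.castSucc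
    have hE := hE3 y hy
    have hj0 : y j.castSucc ≠ 0 := by
      intro h0
      apply hs
      rw [specA_posq hq hE, E3_eq]
      apply Finset.sum_eq_zero
      intro i _
      have := hj i
      simp only [h0, norm_zero] at this
      rw [norm_le_zero_iff] at this
      rw [this, map_zero]
    refine ⟨Sum.inr (q, j), Finset.mem_image_of_mem _ (Finset.mem_univ _), excMap (ro q) j y, ?_,
      chπ_excMap hj0 hE⟩
    dsimp only
    rw [if_pos rfl]
    intro i _
    by_cases hi : i = j.castSucc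
    · subst hi
      simp only [if_true]
      rw [mem_closedBall_zero_iff]
      have : excMap (ro q) j y j.castSucc = y j.castSucc ^ ro q := by simp [excMap]
      rw [this, norm_pow]
      exact pow_le_pow_left₀ (norm_nonneg _) (hy j).le _
    · by_cases hi3 : i = 3
      · subst hi3
        have : excMap (ro q) j y 3 = y 3 := by simp [excMap, (castSucc_ne_three j).symm]
        simp only [if_neg hi, if_true]
        rw [mem_closedBall_iff_norm, this]
        exact hy3.le
      · have : excMap (ro q) j y i = y i / y j.castSucc := by simp [excMap, hi, hi3]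
        simp only [if_neg hi, if_neg hi3]
        rw [mem_closedBall_zero_iff, this, norm_div]
        rw [div_le_one (norm_pos_iff.2 hj0)]
        obtain ⟨m, rfl⟩ : ∃ m : Fin 3, m.castSucc = i := by
          refine ⟨⟨i.1, ?_⟩, rfl⟩
          rcases Nat.lt_or_ge i.1 3 with h | h
          · exact h
          · exact absurd (Fin.ext (by have := i.2; show i.1 = 3; omega)) hi3
        exact hj m
  · intro q' t' hq' hx X hX
    obtain ⟨y, hy, hy3, hyx⟩ := hloc _ hx
    have hE := hE3 y hy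
    have hone : actA Gam.one (posq q y) = posq q' ![0, 0, 0, t'] := by rw [actA_one, hyx]
    obtain ⟨g1, g2⟩ := RA_posq hq hq' hE (by simp [E3]) Gam.one hone
    rw [actQ_one] at g1
    have g3 : y 3 = t' := by
      have := congrFun g2 3
      simpa [linV, Gam.one, Gam.tr] using this
    obtain ⟨j, hj⟩ := exists_max3 X
    have hj0 : X j ≠ 0 := by
      intro h0
      apply hX
      ext i
      have := hj i
      rw [h0, norm_zero, norm_le_zero_iff] at this
      simpa using this
    have hq3 : (Fin.castSucc j) ≠ 3 := castSucc_ne_three j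
    set u : V 4 := fun i => if h : i.1 < 3 then (if (⟨i.1, h⟩ : Fin 3) = j then 0 else
      X ⟨i.1, h⟩ / X j) else t' with hu
    have hu0 : u j.castSucc = 0 := by simp [hu]
    have hu3 : u 3 = t' := by simp [hu]
    have hui : ∀ i : Fin 3, i ≠ j → u i.castSucc = X i / X j := by
      intro i hi
      simp [hu, hi]
    have hdir : dir j u = (X j)⁻¹ • X := by
      ext i
      by_cases hi : i = j
      · subst hi; simp [dir, hj0]
      · simp only [dir, if_neg hi, hui i hi, Pi.smul_apply, smul_eq_mul]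
        rw [div_eq_inv_mul]
    refine ⟨Sum.inr (q, j), Finset.mem_image_of_mem _ (Finset.mem_univ _), u, ?_, ?_⟩
    · dsimp only
      rw [if_pos rfl]
      intro i _
      by_cases hi : i = j.castSucc
      · subst hi
        simp only [if_true]
        rw [mem_closedBall_zero_iff, hu0, norm_zero]
        positivity
      · by_cases hi3 : i = 3
        · subst hi3
          simp only [if_neg hi, if_true]
          rw [mem_closedBall_iff_norm, hu3, ← g3]
          exact hy3.le
        · simp only [if_neg hi, if_neg hi3]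
          obtain ⟨m, rfl⟩ : ∃ m : Fin 3, m.castSucc = i := by
            refine ⟨⟨i.1, ?_⟩, rfl⟩
            rcases Nat.lt_or_ge i.1 3 with h | h
            · exact h
            · exact absurd (Fin.ext (by have := i.2; show i.1 = 3; omega)) hi3
          have hm : m ≠ j := fun h => hi (by rw [h])
          rw [mem_closedBall_zero_iff, hui m hm, norm_div, div_le_one (norm_pos_iff.2 hj0)]
          exact hj m
    · rw [chπ_exc0 q j hu0, ptB_eq]
      refine ⟨Gam.one, X j, hj0, ?_⟩
      simp only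
      rw [actQ_one, linD_one, hdir, smul_smul, mul_inv_cancel₀ hj0, one_smul, hu3, ← g1]
      simp [Gam.one, Gam.tr]

theorem cptCov_local (x : XA B) : ∃ A ∈ 𝓝 x, CptCov A := by
  by_cases hx : SpecA x
  · obtain ⟨σ, h1, h2⟩ := hx
    have := cptCov_special _ h2 x.2.2.2
    have e : posq (x.1, x.2.1, σ) ![0, 0, 0, x.2.2.2] = x := by
      simp [posq, ← h1]
    rwa [e] at this
  · exact cptCov_regular x hx

theorem cptCov_compact {K : Set (XA B)} (hK : IsCompact K) : CptCov K := by
  refine hK.induction_on CptCov.empty (fun s t h ht => ht.mono h)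
    (fun s t hs ht => hs.union ht) ?_
  intro x _
  obtain ⟨A, hA, h⟩ := cptCov_local x
  exact ⟨A, mem_nhdsWithin_of_mem_nhds hA, h⟩

/-- closed parallelogram -/
def clP (om : ℂ) : Set ℂ := (fun p : ℝ × ℝ => (p.1 : ℂ) + p.2 * om) ''
  (Set.Icc (0 : ℝ) 1 ×ˢ Set.Icc (0 : ℝ) 1)

theorem isCompact_clP (om : ℂ) : IsCompact (clP om) := by
  apply (isCompact_Icc.prod isCompact_Icc).image
  fun_prop

theorem exists_translate (om : ℂ) (hom : om.im ≠ 0) (z : ℂ) :
    ∃ a b : ℤ, z + (a + b * om) ∈ clP om := by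
  set y : ℝ := z.im / om.im with hy
  set x : ℝ := z.re - y * om.re with hx
  have hz : z = x + y * om := by
    apply Complex.ext
    · simp [hx]
    · simp [hy, hom]
  refine ⟨-⌊x⌋, -⌊y⌋, (Int.fract x, Int.fract y), ⟨⟨Int.fract_nonneg _, (Int.fract_lt_one _).le⟩,
    ⟨Int.fract_nonneg _, (Int.fract_lt_one _).le⟩⟩, ?_⟩
  simp only [Int.fract]
  conv_rhs => rw [hz]
  push_cast
  ring

theorem exists_act_mem (x : XA B) : ∃ γ : Gam,
    actA γ x ∈ clP xi ×ˢ clP xi ×ˢ (Set.univ : Set B.C) ×ˢ clP Complex.I := by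
  obtain ⟨z0, z1, c, t⟩ := x
  obtain ⟨a, b, hab⟩ := exists_translate Complex.I (by simp) t
  have hxi : xi.im ≠ 0 := by
    rw [xi_im]
    positivity
  obtain ⟨a0, b0, h0⟩ := exists_translate xi hxi (mult B.N 0 a * z0)
  obtain ⟨a1, b1, h1⟩ := exists_translate xi hxi (mult B.N 0 b * z1)
  refine ⟨⟨0, a, b, a0 + b0 * xi, a1 + b1 * xi, ⟨a0, b0, rfl⟩, ⟨a1, b1, rfl⟩⟩, ?_⟩
  exact ⟨h0, h1, Set.mem_univ _, hab⟩

theorem cpt_chπ : ∃ (F : Finset (Ix B)) (K : Ix B → Set (V 4)),
    (∀ i, IsCompact (K i) ∧ K i ⊆ chU i) ∧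
    ∀ j, ∀ w ∈ chU j, ∃ i ∈ F, ∃ z ∈ K i, chπ i z = chπ j w := by
  have hcpt : IsCompact (clP xi ×ˢ clP xi ×ˢ (Set.univ : Set B.C) ×ˢ clP Complex.I) :=
    (isCompact_clP _).prod ((isCompact_clP _).prod (isCompact_univ.prod (isCompact_clP _)))
  obtain ⟨F, K, h1, h2, h3⟩ := cptCov_compact hcpt
  have hA : ∀ x : XA B, ¬ SpecA x → ∃ i ∈ F, ∃ z ∈ K i, chπ i z = ptA x := by
    intro x hx
    obtain ⟨γ, hγ⟩ := exists_act_mem x
    have hR : RA x (actA γ x) := ⟨γ, rfl⟩
    obtain ⟨i, hi, z, hz, h⟩ := h2 _ hγ (fun h => hx ((specA_iff_of_RA hR).2 h))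
    exact ⟨i, hi, z, hz, h.trans (ptA_eq.2 (RA.equiv.symm hR))⟩
  refine ⟨F, K, h1, ?_⟩
  rintro (i | ⟨q, j⟩) w hw
  · exact hA _ hw.2
  · obtain ⟨hq, hw⟩ := hw
    by_cases h0 : w j.castSucc = 0
    · rw [chπ_exc0 q j h0]
      obtain ⟨γ, hγ⟩ := exists_act_mem (posq q ![0, 0, 0, w 3])
      have e : actA γ (posq q ![0, 0, 0, w 3]) =
          posq (actQ γ q) ![0, 0, 0, w 3 + γ.tr] := by
        rw [actA_posq γ q (by simp)]
        congr 1
        ext i
        fin_cases i <;> simp [linV]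
      rw [e] at hγ
      have hX : linD B.N γ (dir j w) ≠ 0 := by
        intro h
        have h' := linD_inv (B := B) γ (dir j w)
        have h0 : linD B.N (Gam.inv B γ) 0 = 0 := by
          ext i; fin_cases i <;> simp [linD]
        rw [h, h0] at h'
        have h'' := congrFun h' j
        simp [dir] at h''
      obtain ⟨i, hi, z, hz, h⟩ := h3 _ _ (spec_act γ hq) hγ _ hX
      refine ⟨i, hi, z, hz, h.trans (ptB_eq.2 (RB.equiv.symm ?_))⟩
      exact ⟨γ, 1, one_ne_zero, by rw [one_smul]⟩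
    · rw [chπ_exc q j h0]
      apply hA
      rw [specA_posq hq (E3_liftx_lt (ro_pos q) (by norm_num) hw), E3_liftx_eq_zero (ro_pos q)]
      exact h0

end

end GK
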