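import Pool.Agent.GK.Charts

/-!
# Module SpaceSep: `RA` and `SpecA` are closed; the charts are locally injective and the space is
Hausdorff
-/

open scoped ContDiff Topology
open MeasureTheory

namespace GK

noncomputable section

variable {B : BaseCurve}

/-! ### reduction modulo `N` -/

theorem zetaN_pow_mod (B : BaseCurve) (k : ℕ) : zetaN B.N ^ k = zetaN B.N ^ (k % B.N) := by
  conv_lhs => rw [← Nat.mod_add_div k B.N, pow_add, pow_mul, zetaN_pow_self B.N_pos, one_pow,
    mul_one]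

theorem s_iter_mod (B : BaseCurve) (k : ℕ) : B.s^[k] = B.s^[k % B.N] := by
  conv_lhs => rw [← Nat.mod_add_div k B.N, Function.iterate_add, Function.iterate_mul, B.s_iter,
    Function.iterate_id, Function.comp_id]

theorem sσ_iter_mod (k : ℕ) (σ : B.Sp) : B.sσ^[k] σ = B.sσ^[k % B.N] σ := by
  have h : B.sσ^[B.N] = id := funext sσ_iter_N
  conv_lhs => rw [← Nat.mod_add_div k B.N, Function.iterate_add, Function.iterate_mul, h,
    Function.iterate_id, Function.comp_id]

theorem isClosed_eis_pre {X : Type*} [TopologicalSpace X] {f : X → ℂ} (hf : Continuous f) :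
    IsClosed {x | f x ∈ Eis} := isClosed_Eis.preimage hf

theorem isClosed_or' {X : Type*} [TopologicalSpace X] {p q : X → Prop} (hp : IsClosed {x | p x})
    (hq : IsClosed {x | q x}) : IsClosed {x | p x ∨ q x} := hp.union hq

theorem isClosed_specA : IsClosed {x : XA B | SpecA x} := by
  have h1 : {x : XA B | SpecA x} = ⋃ σ : B.Sp, {x : XA B | x.2.2.1 = B.p (B.ch σ) 0 ∧
      ((B.main σ ∧ x.1 ∈ Eis ∧ x.2.1 ∈ Eis) ∨ x ∈ ⋃ k ∈ (Finset.range B.N : Finset ℕ),
        {x : XA B | ¬ B.N ∣ k ∧ B.sσ^[k] σ = σ ∧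
        (zetaN B.N ^ k - 1) * x.1 ∈ Eis ∧ (zetaN B.N ^ k - 1) * x.2.1 ∈ Eis})} := by
    ext x
    simp only [Set.mem_ofPred_eq, SpecA, Spec, Set.mem_iUnion, Finset.mem_range, exists_prop]
    refine exists_congr fun σ => and_congr_right fun _ => or_congr_right ?_
    constructor
    · rintro ⟨k, h1, h2, h3, h4⟩
      refine ⟨k % B.N, Nat.mod_lt _ B.N_pos, ?_, ?_, ?_, ?_⟩
      · rwa [Nat.dvd_mod_iff (dvd_refl _)]
      · rw [← sσ_iter_mod]; exact h2
      · rw [← zetaN_pow_mod]; exact h3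
      · rw [← zetaN_pow_mod]; exact h4
    · rintro ⟨k, _, h⟩
      exact ⟨k, h⟩
  rw [h1]
  refine isClosed_iUnion_of_finite fun σ => ?_
  refine IsClosed.and (isClosed_singleton.preimage (by fun_prop)) (isClosed_or' ?_ ?_)
  · exact isClosed_const.and ((isClosed_eis_pre (by fun_prop)).and (isClosed_eis_pre (by fun_prop)))
  · refine isClosed_biUnion_finset fun k _ => ?_
    exact isClosed_const.and (isClosed_const.and
      ((isClosed_eis_pre (by fun_prop)).and (isClosed_eis_pre (by fun_prop))))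

theorem continuousOn_posA (i : B.κ) : ContinuousOn (posA i) {y : V 4 | y 2 ∈ B.D i} := by
  have h2 : ContinuousOn (fun y : V 4 => B.p i (y 2)) {y : V 4 | y 2 ∈ B.D i} :=
    (B.p_cont i).comp (by fun_prop) (fun y hy => hy)
  unfold posA
  refine ContinuousOn.prodMk (by fun_prop) (ContinuousOn.prodMk (by fun_prop)
    (ContinuousOn.prodMk h2 (by fun_prop)))

theorem isOpen_pre_D (i : B.κ) : IsOpen {y : V 4 | y 2 ∈ B.D i} :=
  (B.isOpen_D i).preimage (continuous_apply 2)

theorem continuousAt_posA {i : B.κ} {z : V 4} (hz : z 2 ∈ B.D i) : ContinuousAt (posA i) z :=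
  (continuousOn_posA i).continuousAt ((isOpen_pre_D i).mem_nhds hz)

theorem continuous_excNorm (j : Fin 3) : Continuous (excNorm j) := by
  unfold excNorm
  refine continuous_const.add (continuous_finsetSum _ fun i _ => ?_)
  split_ifs
  · exact continuous_const
  · exact Complex.continuous_normSq.comp (continuous_apply _)

theorem isOpen_excDom (r : ℕ) (ρ : ℝ) (j : Fin 3) : IsOpen (excDom r ρ j) := by
  unfold excDom
  refine isOpen_lt ?_ continuous_const
  exact (Complex.continuous_normSq.comp (continuous_apply _)).mul ((continuous_excNorm j).pow r)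

theorem isOpen_chU (i : Ix B) : IsOpen (chU i) := by
  rcases i with i | ⟨q, j⟩
  · have h := (continuousOn_posA i).isOpen_inter_preimage (isOpen_pre_D i)
      (isClosed_specA (B := B)).isOpen_compl
    exact h
  · by_cases hq : Spec q
    · have : chU (Sum.inr (q, j) : Ix B) = excDom (ro q) (1 / 64) j := by
        ext u; exact and_iff_right hq
      rw [this]; exact isOpen_excDom _ _ _
    · have : chU (Sum.inr (q, j) : Ix B) = ∅ := by
        ext u; simp [mem_chU_inr, hq]
      rw [this]; exact isOpen_empty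

/-! ### the relation `RA` is closed -/

/-- the relation `RA` without the last coordinate, for a fixed power of `s` and fixed signs -/
def CC (B : BaseCurve) (k : ℕ) (e d : ℤ) : Set (XA B × XA B) :=
  {x | x.2.1 - mult B.N k e * x.1.1 ∈ Eis ∧ x.2.2.1 - mult B.N k d * x.1.2.1 ∈ Eis ∧
    B.s^[k] x.1.2.2.1 = x.2.2.2.1}

theorem isClosed_CC (k : ℕ) (e d : ℤ) : IsClosed (CC B k e d) := by
  refine (isClosed_eis_pre (by fun_prop)).and ((isClosed_eis_pre (by fun_prop)).and ?_)
  have := B.s_cont.iterate k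
  exact isClosed_eq (by fun_prop) (by fun_prop)

/-- Gaussian integers of given parities -/
def GP (e d : ℤ) : Set ℂ :=
  {z | ∃ a b : ℤ, z = ((2 * a + e : ℤ) : ℂ) + ((2 * b + d : ℤ) : ℂ) * Complex.I}

theorem isClosed_GP (e d : ℤ) : IsClosed (GP e d) := by
  refine isClosed_of_sep one_pos fun x hx y hy hxy => ?_
  obtain ⟨a, b, rfl⟩ := hx
  obtain ⟨a', b', rfl⟩ := hy
  rw [dist_eq_norm] at hxy
  obtain ⟨h1, h2⟩ := gau_eq_of_norm_lt hxy
  rw [h1, h2]

theorem mult_parity (N k : ℕ) (a e : ℤ) : mult N k (2 * a + e) = mult N k e := by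
  unfold mult
  rw [zpow_add₀ (by norm_num), zpow_mul]
  norm_num

theorem RA_iff {x y : XA B} : RA x y ↔ ∃ k ∈ Finset.range B.N, ∃ e ∈ Finset.range 2,
    ∃ d ∈ Finset.range 2, (x, y) ∈ CC B k (e : ℕ) (d : ℕ) ∧
      y.2.2.2 - x.2.2.2 ∈ GP (e : ℕ) (d : ℕ) := by
  constructor
  · rintro ⟨γ, rfl⟩
    refine ⟨γ.k % B.N, Finset.mem_range.2 (Nat.mod_lt _ B.N_pos), (γ.a % 2).toNat, ?_,
      (γ.b % 2).toNat, ?_, ?_⟩
    · rw [Finset.mem_range]; omega
    · rw [Finset.mem_range]; omega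
    have ha : γ.a = 2 * (γ.a / 2) + (((γ.a % 2).toNat : ℕ) : ℤ) := by omega
    have hb : γ.b = 2 * (γ.b / 2) + (((γ.b % 2).toNat : ℕ) : ℤ) := by omega
    have hm : ∀ a : ℤ, mult B.N (γ.k % B.N) a = mult B.N γ.k a := by
      intro a; unfold mult; rw [← zetaN_pow_mod]
    refine ⟨⟨?_, ?_, ?_⟩, ?_⟩
    · rw [hm, ← mult_parity B.N γ.k (γ.a / 2), ← ha]
      simp only [actA]
      rw [add_sub_cancel_left]; exact γ.h0
    · rw [hm, ← mult_parity B.N γ.k (γ.b / 2), ← hb]
      simp only [actA]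
      rw [add_sub_cancel_left]; exact γ.h1
    · simp only [actA]
      rw [← s_iter_mod]
    · refine ⟨γ.a / 2, γ.b / 2, ?_⟩
      rw [← ha, ← hb]
      simp only [actA, Gam.tr]
      ring
  · rintro ⟨k, _, e, _, d, _, ⟨h1, h2, h3⟩, ⟨a, b, h4⟩⟩
    refine ⟨⟨k, 2 * a + e, 2 * b + d, _, _, h1, h2⟩, ?_⟩
    simp only [actA, Gam.tr, mult_parity]
    refine Prod.ext ?_ (Prod.ext ?_ (Prod.ext ?_ ?_))
    · simp
    · simp
    · exact h3
    · simp only
      rw [← h4]; ring

theorem isClosed_RA : IsClosed {x : XA B × XA B | RA x.1 x.2} := by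
  have h1 : {x : XA B × XA B | RA x.1 x.2} = ⋃ k ∈ (Finset.range B.N : Finset ℕ),
      ⋃ e ∈ (Finset.range 2 : Finset ℕ), ⋃ d ∈ (Finset.range 2 : Finset ℕ),
      {x : XA B × XA B | x ∈ CC B k (e : ℕ) (d : ℕ) ∧
        x.2.2.2.2 - x.1.2.2.2 ∈ GP (e : ℕ) (d : ℕ)} := by
    ext x
    rw [Set.mem_ofPred_eq, RA_iff]
    simp only [Set.mem_iUnion, exists_prop, Set.mem_ofPred_eq]
  rw [h1]
  refine isClosed_biUnion_finset fun k _ => isClosed_biUnion_finset fun e _ =>
    isClosed_biUnion_finset fun d _ => ?_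
  exact (isClosed_CC k _ _).and ((isClosed_GP _ _).preimage (by fun_prop))

/-! ### local injectivity -/

/-- the action of the signs on the directions -/
def tw (a b : ℤ) (X : Fin 3 → ℂ) : Fin 3 → ℂ := ![(-1) ^ a * X 0, (-1) ^ b * X 1, X 2]

theorem linD_eq (N : ℕ) (γ : Gam) (X : Fin 3 → ℂ) : linD N γ X = zetaN N ^ γ.k • tw γ.a γ.b X := by
  ext i
  fin_cases i <;> simp [linD, tw, mult] <;> ring

theorem tw_zero (X : Fin 3 → ℂ) : tw 0 0 X = X := by
  ext i
  fin_cases i <;> simp [tw]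

theorem tw_smul (a b : ℤ) (c : ℂ) (X : Fin 3 → ℂ) : tw a b (c • X) = c • tw a b X := by
  ext i
  fin_cases i <;> simp [tw] <;> ring

theorem linV_castSucc (N : ℕ) (γ : Gam) (y : V 4) (i : Fin 3) :
    linV N γ y i.castSucc = linD N γ (fun m => y m.castSucc) i := by
  fin_cases i <;> rfl

theorem linV_three (N : ℕ) (γ : Gam) (y : V 4) : linV N γ y 3 = y 3 + γ.tr := rfl

theorem dir_self (j : Fin 3) (u : V 4) : dir j u j = 1 := by simp [dir]

theorem tr_eq {γ δ : Gam} (h : ‖γ.tr - δ.tr‖ < 1) : γ.a = δ.a ∧ γ.b = δ.b :=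
  gau_eq_of_norm_lt h

theorem tr_zero {γ : Gam} (h : ‖γ.tr‖ < 1) : γ.a = 0 ∧ γ.b = 0 := by
  have := gau_eq_of_norm_lt (a := γ.a) (b := γ.b) (c := 0) (d := 0) (by
    simpa [Gam.tr] using h)
  exact this

/-- `u` is determined by its direction, `u_j` and `u_3` -/
theorem ext_exc {j : Fin 3} {u u' : V 4} (h : dir j u = dir j u') (hj : u j.castSucc = u' j.castSucc)
    (h3 : u 3 = u' 3) : u = u' := by
  have key : ∀ i : Fin 3, u i.castSucc = u' i.castSucc := by
    intro i
    by_cases hi : i = j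
    · rw [hi]; exact hj
    · have := congrFun h i
      simpa [dir, hi] using this
  ext i
  fin_cases i
  · exact key 0
  · exact key 1
  · exact key 2
  · exact h3

theorem liftx_exc0 (r : ℕ) (hr : 0 < r) (j : Fin 3) {u : V 4} (hu : u j.castSucc = 0) :
    liftx r j u = ![0, 0, 0, u 3] := by
  have h0 : u j.castSucc ^ (1 / (r : ℂ)) = 0 := (root_eq_zero hr).2 hu
  have key : ∀ i : Fin 3, liftx r j u i.castSucc = 0 := by
    intro i; rw [liftx_castSucc, h0, zero_mul]
  ext i
  fin_cases i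
  · exact key 0
  · exact key 1
  · exact key 2
  · exact liftx_three r j u

theorem excMap_linV {r : ℕ} {j : Fin 3} {γ : Gam} (ha : γ.a = 0) (hb : γ.b = 0)
    (hz : (zetaN B.N ^ γ.k) ^ r = 1) {y : V 4} :
    excMap r j (linV B.N γ y) = excMap r j y := by
  have hz0 : zetaN B.N ^ γ.k ≠ 0 := pow_ne_zero _ (zetaN_ne_zero _)
  have key : ∀ i : Fin 3, linV B.N γ y i.castSucc = zetaN B.N ^ γ.k * y i.castSucc := by
    intro i
    rw [linV_castSucc, linD_eq, ha, hb, tw_zero]; rfl
  have k3 : linV B.N γ y 3 = y 3 := by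
    rw [linV_three]; simp [Gam.tr, ha, hb]
  ext i
  unfold excMap
  by_cases hi : i = j.castSucc
  · rw [if_pos hi, if_pos hi, key, mul_pow, hz, one_mul]
  · rw [if_neg hi, if_neg hi]
    by_cases h3 : i = 3
    · rw [if_pos h3, if_pos h3, k3]
    · rw [if_neg h3, if_neg h3, key]
      obtain ⟨m, rfl⟩ : ∃ m : Fin 3, i = m.castSucc := by
        refine ⟨⟨i.1, ?_⟩, rfl⟩
        have := i.2
        have h4 : i.1 ≠ 3 := fun h => h3 (Fin.ext h)
        omega
      rw [key]
      exact mul_div_mul_left _ _ hz0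

theorem stab_of_actQ {q : Qt B} {γ : Gam} (ha : γ.a = 0) (hb : γ.b = 0) (h : actQ γ q = q) :
    Stab q γ.k := by
  obtain ⟨z0, z1, σ⟩ := q
  simp only [actQ, mult, ha, hb, zpow_zero, one_mul, Prod.mk.injEq] at h
  obtain ⟨h0, h1, h2⟩ := h
  refine ⟨h2, ?_, ?_⟩
  · have : (zetaN B.N ^ γ.k - 1) * z0 = -γ.l0 := by linear_combination h0
    rw [this]; exact Eis.neg_mem γ.h0
  · have : (zetaN B.N ^ γ.k - 1) * z1 = -γ.l1 := by linear_combination h1
    rw [this]; exact Eis.neg_mem γ.h1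

theorem zeta_pow_ro {q : Qt B} {k : ℕ} (h : Stab q k) : (zetaN B.N ^ k) ^ ro q = 1 := by
  obtain ⟨m, rfl⟩ := (stab_iff q k).1 h
  rw [← pow_mul, mul_right_comm, k0_mul_ro, pow_mul, zetaN_pow_self B.N_pos, one_pow]

/-- two equivalent points over the exceptional divisor or near it -/
theorem exc_rel {q q' : Qt B} {j j' : Fin 3} {u u' : V 4} (hu : u ∈ chU (Sum.inr (q, j)))
    (hu' : u' ∈ chU (Sum.inr (q', j')))
    (h : chπ (Sum.inr (q, j)) u = chπ (Sum.inr (q', j')) u') :
    ∃ γ : Gam, actQ γ q = q' ∧ u' 3 = u 3 + γ.tr ∧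
      (∃ c : ℂ, dir j' u' = c • linD B.N γ (dir j u)) ∧
      (u j.castSucc = 0 ↔ u' j'.castSucc = 0) ∧
      (u j.castSucc ≠ 0 → linV B.N γ (liftx (ro q) j u) = liftx (ro q') j' u') := by
  by_cases h0 : u j.castSucc = 0
  · by_cases h0' : u' j'.castSucc = 0
    · rw [chπ_exc0 q j h0, chπ_exc0 q' j' h0', ptB_eq] at h
      obtain ⟨γ, c, _, h⟩ := h
      simp only [Prod.mk.injEq] at h
      exact ⟨γ, h.1.symm, h.2.2, ⟨c, h.2.1⟩, by simp [h0, h0'], fun h1 => absurd h0 h1⟩
    · rw [chπ_exc0 q j h0, chπ_exc q' j' h0'] at h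
      exact absurd h.symm (ptA_ne_ptB _ _)
  · by_cases h0' : u' j'.castSucc = 0
    · rw [chπ_exc q j h0, chπ_exc0 q' j' h0'] at h
      exact absurd h (ptA_ne_ptB _ _)
    · rw [chπ_exc q j h0, chπ_exc q' j' h0', ptA_eq] at h
      obtain ⟨γ, h⟩ := h
      have hE := E3_liftx_lt (ro_pos q) (by norm_num) hu.2
      have hE' := E3_liftx_lt (ro_pos q') (by norm_num) hu'.2
      obtain ⟨g1, g2⟩ := RA_posq hu.1 hu'.1 hE hE' γ h
      refine ⟨γ, g1, ?_, ?_, by simp [h0, h0'], fun _ => g2⟩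
      · have := congrFun g2 3
        rw [linV_three, liftx_three, liftx_three] at this
        exact this.symm
      · have r0 : u j.castSucc ^ (1 / (ro q : ℂ)) ≠ 0 := fun h => h0 ((root_eq_zero (ro_pos q)).1 h)
        have r0' : u' j'.castSucc ^ (1 / (ro q' : ℂ)) ≠ 0 :=
          fun h => h0' ((root_eq_zero (ro_pos q')).1 h)
        refine ⟨u j.castSucc ^ (1 / (ro q : ℂ)) / u' j'.castSucc ^ (1 / (ro q' : ℂ)), ?_⟩
        ext i
        have := congrFun g2 i.castSucc
        rw [linV_castSucc, liftx_castSucc] at this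
        have e1 : (fun m : Fin 3 => liftx (ro q) j u m.castSucc) =
            (u j.castSucc ^ (1 / (ro q : ℂ))) • dir j u := by
          ext m; rw [liftx_castSucc]; rfl
        rw [e1, linD_smul] at this
        simp only [Pi.smul_apply, smul_eq_mul] at this ⊢
        field_simp
        linear_combination -this

/-- the exceptional charts are injective as long as the last coordinate varies by less than `1` -/
theorem injOn_exc (q : Qt B) (j : Fin 3) {A : Set (V 4)} (hA : A ⊆ chU (Sum.inr (q, j)))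
    (h3 : ∀ u ∈ A, ∀ u' ∈ A, ‖u 3 - u' 3‖ < 1) : Set.InjOn (chπ (Sum.inr (q, j))) A := by
  intro u hu u' hu' h
  obtain ⟨γ, g1, g2, ⟨c, g3⟩, g4, g5⟩ := exc_rel (hA hu) (hA hu') h
  have htr : ‖γ.tr‖ < 1 := by
    have e : γ.tr = u' 3 - u 3 := by rw [g2]; ring
    rw [e]; exact h3 u' hu' u hu
  obtain ⟨ha, hb⟩ := tr_zero htr
  by_cases h0 : u j.castSucc = 0
  · rw [linD_eq, ha, hb, tw_zero] at g3
    have h1 := congrFun g3 j
    simp only [dir_self, Pi.smul_apply, smul_eq_mul, mul_one] at h1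
    rw [smul_smul, ← h1, one_smul] at g3
    refine ext_exc g3.symm ?_ ?_
    · rw [h0, g4.1 h0]
    · rw [g2]; simp [Gam.tr, ha, hb]
  · have h0' : u' j.castSucc ≠ 0 := fun h => h0 (g4.2 h)
    have g6 := g5 h0
    rw [← excMap_liftx (ro_pos q) h0, ← excMap_liftx (ro_pos q) h0', ← g6]
    exact (excMap_linV ha hb (zeta_pow_ro (stab_of_actQ ha hb g1))).symm

theorem not_mem_CC {i : B.κ} {z : V 4} (hz : z ∈ chU (Sum.inl i : Ix B)) {k : ℕ}
    (hk : ¬ B.N ∣ k) : (posA i z, posA i z) ∉ CC B k 0 0 := by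
  rintro ⟨h1, h2, h3⟩
  simp only [posA] at h1 h2 h3
  obtain ⟨σ, hσ⟩ := B.free _ _ h3 hk
  apply hz.2
  refine ⟨σ, hσ, Or.inr ⟨k, hk, ?_, ?_, ?_⟩⟩
  · rw [hσ, s_iter_ch _ _ zero_mem_half, mul_zero] at h3
    exact (p_ch_inj zero_mem_half zero_mem_half h3).1
  · simp only [posA]
    have e : (zetaN B.N ^ k - 1) * z 0 = -(z 0 - mult B.N k 0 * z 0) := by simp [mult]; ring
    rw [e]; exact Eis.neg_mem h1
  · simp only [posA]
    have e : (zetaN B.N ^ k - 1) * z 1 = -(z 1 - mult B.N k 0 * z 1) := by simp [mult]; ring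
    rw [e]; exact Eis.neg_mem h2

theorem locinj_inl (i : B.κ) (z : V 4) (hz : z ∈ chU (Sum.inl i : Ix B)) :
    ∃ W ∈ 𝓝 z, Set.InjOn (chπ (Sum.inl i : Ix B)) (W ∩ chU (Sum.inl i : Ix B)) := by
  have hc : ContinuousAt (posA i) z := continuousAt_posA hz.1
  -- avoid all `CC k 0 0`, `0 < k < N`
  have h1 : ∀ᶠ y in 𝓝 (z, z), ∀ k ∈ (Finset.range B.N : Finset ℕ), ¬ B.N ∣ k →
      (posA i y.1, posA i y.2) ∉ CC B k 0 0 := by
    rw [Filter.eventually_all_finset]
    intro k _
    by_cases hk : B.N ∣ k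
    · exact Filter.Eventually.of_forall fun y h => absurd hk h
    · have h2 : ContinuousAt (fun y : V 4 × V 4 => (posA i y.1, posA i y.2)) (z, z) := by
        apply ContinuousAt.prodMk
        · exact ContinuousAt.comp (f := Prod.fst) (x := (z, z)) hc continuousAt_fst
        · exact ContinuousAt.comp (f := Prod.snd) (x := (z, z)) hc continuousAt_snd
      have h3 := h2.eventually ((isClosed_CC k 0 0).isOpen_compl.mem_nhds (not_mem_CC hz hk))
      filter_upwards [h3] with y hy _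
      exact hy
  rw [nhds_prod_eq] at h1
  obtain ⟨W1, hW1, W2, hW2, hW12⟩ := Filter.mem_prod_iff.1 h1
  obtain ⟨W, hW, hW'⟩ : ∃ W ∈ 𝓝 z, ∀ y ∈ W, ∀ y' ∈ W, ∀ k ∈ (Finset.range B.N : Finset ℕ),
      ¬ B.N ∣ k → (posA i y, posA i y') ∉ CC B k 0 0 :=
    ⟨W1 ∩ W2, Filter.inter_mem hW1 hW2, fun y hy y' hy' =>
      hW12 (show (y, y') ∈ W1 ×ˢ W2 from ⟨hy.1, hy'.2⟩)⟩
  refine ⟨W ∩ Metric.ball z (1 / 2), Filter.inter_mem hW (Metric.ball_mem_nhds _ (by norm_num)), ?_⟩
  rintro y ⟨⟨hy, hyb⟩, hyU⟩ y' ⟨⟨hy', hyb'⟩, hyU'⟩ h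
  rw [chπ_inl, chπ_inl, ptA_eq] at h
  obtain ⟨γ, h⟩ := h
  have hd : dist y y' < 1 := by
    calc dist y y' ≤ dist y z + dist y' z := dist_triangle_right _ _ _
      _ < 1 := by
        have := Metric.mem_ball.1 hyb
        have := Metric.mem_ball.1 hyb'
        linarith
  have hdi : ∀ m : Fin 4, ‖y' m - y m‖ < 1 := by
    intro m
    rw [← dist_eq_norm, dist_comm]
    exact lt_of_le_of_lt (dist_le_pi_dist y y' m) hd
  simp only [actA, posA, Prod.mk.injEq] at h
  obtain ⟨e0, e1, e2, e3⟩ := h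
  have htr : ‖γ.tr‖ < 1 := by
    have e : γ.tr = y' 3 - y 3 := by rw [← e3]; ring
    rw [e]; exact hdi 3
  obtain ⟨ha, hb⟩ := tr_zero htr
  have hCC : (posA i y, posA i y') ∈ CC B (γ.k % B.N) 0 0 := by
    have hm : mult B.N (γ.k % B.N) 0 = mult B.N γ.k 0 := by unfold mult; rw [← zetaN_pow_mod]
    refine ⟨?_, ?_, ?_⟩
    · simp only [posA]
      rw [hm, ← e0, ha, add_sub_cancel_left]; exact γ.h0
    · simp only [posA]
      rw [hm, ← e1, hb, add_sub_cancel_left]; exact γ.h1
    · simp only [posA]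
      rw [← s_iter_mod]; exact e2
  by_cases hk : B.N ∣ γ.k % B.N
  · have hk0 : γ.k % B.N = 0 := Nat.eq_zero_of_dvd_of_lt hk (Nat.mod_lt _ B.N_pos)
    rw [hk0] at hCC
    obtain ⟨f0, f1, f2⟩ := hCC
    simp only [posA, mult_zero, one_mul, Function.iterate_zero, id] at f0 f1 f2
    ext m
    fin_cases m
    · exact (sub_eq_zero.1 (eq_zero_of_mem_of_norm_lt f0 (hdi 0))).symm
    · exact (sub_eq_zero.1 (eq_zero_of_mem_of_norm_lt f1 (hdi 1))).symm
    · exact B.p_inj i hyU.1 hyU'.1 f2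
    · show y 3 = y' 3
      rw [← e3]; simp [Gam.tr, ha, hb]
  · exact absurd hCC (hW' y hy y' hy' (γ.k % B.N) (Finset.mem_range.2 (Nat.mod_lt _ B.N_pos)) hk)

theorem locinj_chπ (i : Ix B) (z : V 4) (hz : z ∈ chU i) :
    ∃ W ∈ 𝓝 z, Set.InjOn (chπ i) (W ∩ chU i) := by
  rcases i with i | ⟨q, j⟩
  · exact locinj_inl i z hz
  · refine ⟨Metric.ball z (1 / 2), Metric.ball_mem_nhds _ (by norm_num), ?_⟩
    refine injOn_exc q j Set.inter_subset_right ?_
    rintro u ⟨hu, _⟩ u' ⟨hu', _⟩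
    rw [← dist_eq_norm]
    calc dist (u 3) (u' 3) ≤ dist u u' := dist_le_pi_dist u u' 3
      _ ≤ dist u z + dist u' z := dist_triangle_right _ _ _
      _ < 1 := by
        have := Metric.mem_ball.1 hu
        have := Metric.mem_ball.1 hu'
        linarith

/-! ### separation -/

/-- the point of the space before the blow-up -/
def pos : Ix B → V 4 → XA B
  | Sum.inl i => posA i
  | Sum.inr (q, j) => fun u => posq q (liftx (ro q) j u)

theorem chπ_RA {i j : Ix B} {a b : V 4} (ha : a ∈ chU i) (hb : b ∈ chU j)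
    (h : chπ i a = chπ j b) : RA (pos i a) (pos j b) := by
  rcases i with i | ⟨q, i⟩
  · rcases j with j | ⟨q', j⟩
    · exact ptA_eq.1 h
    · by_cases h0 : b j.castSucc = 0
      · rw [chπ_exc0 q' j h0] at h
        exact absurd h (ptA_ne_ptB _ _)
      · rw [chπ_exc q' j h0] at h
        exact ptA_eq.1 h
  · rcases j with j | ⟨q', j⟩
    · by_cases h0 : a i.castSucc = 0
      · rw [chπ_exc0 q i h0] at h
        exact absurd h.symm (ptA_ne_ptB _ _)
      · rw [chπ_exc q i h0] at h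
        exact ptA_eq.1 h
    · obtain ⟨γ, g1, g2, _, g4, g5⟩ := exc_rel ha hb h
      refine ⟨γ, ?_⟩
      have hE := E3_liftx_lt (ro_pos q) (by norm_num) ha.2
      have n2 := norm_lt_eighth hE 2
      have b2 : liftx (ro q) i a 2 ∈ Metric.ball (0 : ℂ) (1 / 2) := by
        rw [mem_ball_zero_iff]
        have : ‖liftx (ro q) i a 2‖ < 1 / 8 := n2
        linarith
      show actA γ (posq q (liftx (ro q) i a)) = posq q' (liftx (ro q') j b)
      rw [actA_posq γ q b2, g1]
      congr 1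
      by_cases h0 : a i.castSucc = 0
      · rw [liftx_exc0 _ (ro_pos q) i h0, liftx_exc0 _ (ro_pos q') j (g4.1 h0), g2]
        ext m
        fin_cases m <;> simp [linV]
      · exact g5 h0

theorem continuousAt_posq {q : Qt B} {x : V 4} (hx : x 2 ∈ Metric.ball (0 : ℂ) (1 / 2)) :
    ContinuousAt (posq q) x := by
  have h1 : ContinuousAt (B.p (B.ch q.2.2)) (x 2) := by
    apply (B.p_cont _).continuousAt
    rw [B.D_ch]
    exact Metric.isOpen_ball.mem_nhds hx
  have h2 : ContinuousAt (fun y : V 4 => B.p (B.ch q.2.2) (y 2)) x :=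
    ContinuousAt.comp (f := fun y : V 4 => y 2) h1 (continuous_apply 2).continuousAt
  unfold posq
  exact (continuous_const.add (continuous_apply 0)).continuousAt.prodMk
    ((continuous_const.add (continuous_apply 1)).continuousAt.prodMk
      (h2.prodMk (continuous_apply 3).continuousAt))

/-- the point with direction `dir j u`, `j`-th coordinate `f` and last coordinate `u 3` -/
def gsec (j : Fin 3) (f : ℂ) (u : V 4) : V 4 := fun i =>
  if i = 3 then u 3 else if i = j.castSucc then f else f * u i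

theorem gsec_j (j : Fin 3) (f : ℂ) (u : V 4) : gsec j f u j.castSucc = f := by
  simp [gsec, castSucc_ne_three]

theorem liftx_eq_gsec (r : ℕ) (j : Fin 3) (u : V 4) :
    liftx r j u = gsec j (u j.castSucc ^ (1 / (r : ℂ))) u := rfl

theorem continuousAt_gsec (j : Fin 3) {f : V 4 → ℂ} {z : V 4} (hf : ContinuousAt f z) :
    ContinuousAt (fun u => gsec j (f u) u) z := by
  unfold gsec
  refine continuousAt_pi.2 fun i => ?_
  split_ifs
  · exact (continuous_apply 3).continuousAt
  · exact hf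
  · exact hf.mul (continuous_apply i).continuousAt

theorem excMap_gsec {r : ℕ} {j : Fin 3} {u : V 4} {f : ℂ} (hf : f ≠ 0)
    (h : f ^ r = u j.castSucc) : excMap r j (gsec j f u) = u := by
  ext i
  unfold excMap
  by_cases hi : i = j.castSucc
  · subst hi
    rw [if_pos rfl, gsec_j, h]
  · rw [if_neg hi]
    by_cases h3 : i = 3
    · subst h3; rw [if_pos rfl]; simp [gsec]
    · rw [if_neg h3, gsec_j]
      simp only [gsec, if_neg h3, if_neg hi]
      field_simp

theorem continuous_E3 : Continuous E3 := by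
  unfold E3
  exact ((Complex.continuous_normSq.comp (continuous_apply 0)).add
    (Complex.continuous_normSq.comp (continuous_apply 1))).add
    (Complex.continuous_normSq.comp (continuous_apply 2))

theorem near_pos (i : Ix B) {z : V 4} (hz : z ∈ chU i) {O : Set (XA B)} (hO : O ∈ 𝓝 (pos i z)) :
    ∀ᶠ a in 𝓝 z, a ∈ chU i → ∃ x ∈ O, RA (pos i a) x := by
  rcases i with i | ⟨q, j⟩
  · have hc : ContinuousAt (posA i) z := continuousAt_posA hz.1
    filter_upwards [hc.eventually hO] with a ha _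
    exact ⟨_, ha, RA.equiv.refl _⟩
  · have hr := ro_pos q
    have hE := E3_liftx_lt (ro_pos q) (by norm_num) hz.2
    have n2 := norm_lt_eighth hE 2
    have b2 : liftx (ro q) j z 2 ∈ Metric.ball (0 : ℂ) (1 / 2) := by
      rw [mem_ball_zero_iff]
      have : ‖liftx (ro q) j z 2‖ < 1 / 8 := n2
      linarith
    have hp : ContinuousAt (posq q) (liftx (ro q) j z) := continuousAt_posq b2
    have hre : 0 < (1 / (ro q : ℂ)).re := by
      have : (1 / (ro q : ℂ)) = ((1 / (ro q : ℝ) : ℝ) : ℂ) := by push_cast; rfl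
      rw [this, Complex.ofReal_re]
      have : (0 : ℝ) < ro q := by exact_mod_cast hr
      positivity
    by_cases h0 : z j.castSucc = 0
    · -- `liftx` is continuous at `z`
      have hf : ContinuousAt (fun u : V 4 => u j.castSucc ^ (1 / (ro q : ℂ))) z := by
        apply ContinuousAt.comp (f := fun u : V 4 => u j.castSucc)
          (g := fun v : ℂ => v ^ (1 / (ro q : ℂ)))
        · apply Complex.continuousAt_cpow_const_of_re_pos _ hre
          left; rw [h0]; simp
        · exact (continuous_apply _).continuousAt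
      have hl : ContinuousAt (liftx (ro q) j) z := continuousAt_gsec j hf
      have hc : ContinuousAt (fun u => posq q (liftx (ro q) j u)) z :=
        ContinuousAt.comp (f := liftx (ro q) j) hp hl
      filter_upwards [hc.eventually hO] with a ha _
      exact ⟨_, ha, RA.equiv.refl _⟩
    · set v0 := z j.castSucc with hv0
      set f : V 4 → ℂ := fun u => v0 ^ (1 / (ro q : ℂ)) * (u j.castSucc / v0) ^ (1 / (ro q : ℂ))
        with hf
      have hfz : f z = v0 ^ (1 / (ro q : ℂ)) := by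
        simp only [hf]
        rw [← hv0, div_self h0, Complex.one_cpow, mul_one]
      have hfz0 : f z ≠ 0 := by
        rw [hfz]
        exact fun h => h0 ((root_eq_zero hr).1 h)
      have hfc : ContinuousAt f z := by
        simp only [hf]
        apply ContinuousAt.mul continuousAt_const
        apply ContinuousAt.comp (f := fun u : V 4 => u j.castSucc / v0)
          (g := fun v : ℂ => v ^ (1 / (ro q : ℂ)))
        · apply Complex.continuousAt_cpow_const_of_re_pos _ hre
          left; rw [← hv0, div_self h0]; simp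
        · exact ((continuous_apply _).div_const _).continuousAt
      have hg : ContinuousAt (fun u => gsec j (f u) u) z := continuousAt_gsec j hfc
      have hgz : gsec j (f z) z = liftx (ro q) j z := by rw [hfz, liftx_eq_gsec]
      have hc : ContinuousAt (fun u => posq q (gsec j (f u) u)) z := by
        apply ContinuousAt.comp (f := fun u => gsec j (f u) u) (g := posq q) _ hg
        rw [hgz]; exact hp
      have e1 : ∀ᶠ u in 𝓝 z, f u ≠ 0 := hfc.eventually_ne hfz0
      have e2 : ∀ᶠ u in 𝓝 z, E3 (gsec j (f u) u) < 1 / 64 := by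
        have : ContinuousAt (fun u => E3 (gsec j (f u) u)) z :=
          ContinuousAt.comp (f := fun u => gsec j (f u) u) continuous_E3.continuousAt hg
        refine this.eventually_lt_const ?_
        show E3 (gsec j (f z) z) < 1 / 64
        rw [hgz]; exact hE
      have e3 : ∀ᶠ u in 𝓝 z, posq q (gsec j (f u) u) ∈ O := by
        refine hc.eventually ?_
        show O ∈ 𝓝 (posq q (gsec j (f z) z))
        rw [hgz]; exact hO
      filter_upwards [e1, e2, e3] with u a1 a2 a3 _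
      refine ⟨_, a3, ?_⟩
      have hpow : f u ^ ro q = u j.castSucc := by
        simp only [hf]
        rw [mul_pow, root_pow hr, root_pow hr]
        field_simp
      have hu0 : u j.castSucc ≠ 0 := by
        rw [← hpow]; exact pow_ne_zero _ a1
      have h1 := chπ_excMap (q := q) (j := j) (y := gsec j (f u) u) (by rw [gsec_j]; exact a1) a2
      rw [excMap_gsec a1 hpow, chπ_exc q j hu0, ptA_eq] at h1
      exact h1

theorem specA_pos_inr {q : Qt B} {j : Fin 3} {u : V 4} (hu : u ∈ chU (Sum.inr (q, j))) :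
    SpecA (pos (Sum.inr (q, j)) u) ↔ u j.castSucc = 0 := by
  have hE := E3_liftx_lt (ro_pos q) (by norm_num) hu.2
  show SpecA (posq q (liftx (ro q) j u)) ↔ _
  rw [specA_posq hu.1 hE, E3_liftx_eq_zero (ro_pos q)]

/-- closed set of parallel directions -/
def Par (a b : ℤ) (j j' : Fin 3) : Set (V 4 × V 4) :=
  {x | ∀ m, dir j' x.2 m * tw a b (dir j x.1) j' = tw a b (dir j x.1) m}

theorem continuous_dir (j m : Fin 3) : Continuous fun u : V 4 => dir j u m := by
  unfold dir
  split_ifs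
  · exact continuous_const
  · exact continuous_apply _

theorem continuous_tw (a b : ℤ) (j m : Fin 3) : Continuous fun u : V 4 => tw a b (dir j u) m := by
  fin_cases m
  · exact continuous_const.mul (continuous_dir j 0)
  · exact continuous_const.mul (continuous_dir j 1)
  · exact continuous_dir j 2

theorem isClosed_Par (a b : ℤ) (j j' : Fin 3) : IsClosed (Par a b j j') := by
  unfold Par
  rw [Set.ofPred_forall]
  refine isClosed_iInter fun m => isClosed_eq ?_ ?_
  · exact ((continuous_dir j' m).comp continuous_snd).mul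
      ((continuous_tw a b j j').comp continuous_fst)
  · exact (continuous_tw a b j m).comp continuous_fst

theorem mem_Par {a b : ℤ} {j j' : Fin 3} {u u' : V 4} {c : ℂ}
    (h : dir j' u' = c • tw a b (dir j u)) : (u, u') ∈ Par a b j j' := by
  have h1 := congrFun h j'
  rw [dir_self] at h1
  intro m
  have h2 := congrFun h m
  simp only [Pi.smul_apply, smul_eq_mul] at h1 h2 ⊢
  rw [h2]
  linear_combination (-(tw a b (dir j u) m)) * h1

theorem exists_of_mem_Par {a b : ℤ} {j j' : Fin 3} {u u' : V 4}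
    (h : (u, u') ∈ Par a b j j') : ∃ c : ℂ, c ≠ 0 ∧ dir j' u' = c • tw a b (dir j u) := by
  have h0 : tw a b (dir j u) j' ≠ 0 := by
    intro h0
    have h1 : tw a b (dir j u) j = 0 := by
      have := h j
      simp only at this
      rw [h0, mul_zero] at this
      exact this.symm
    have hne : ∀ a : ℤ, ((-1 : ℂ)) ^ a ≠ 0 := fun a => zpow_ne_zero _ (by norm_num)
    have h2 := dir_self j u
    fin_cases j
    · simp only [tw] at h1
      have : (-1 : ℂ) ^ a * dir 0 u 0 = 0 := h1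
      rw [dir_self, mul_one] at this
      exact hne a this
    · have : (-1 : ℂ) ^ b * dir 1 u 1 = 0 := h1
      rw [dir_self, mul_one] at this
      exact hne b this
    · have : dir 2 u 2 = 0 := h1
      rw [dir_self] at this
      exact one_ne_zero this
  refine ⟨(tw a b (dir j u) j')⁻¹, inv_ne_zero h0, ?_⟩
  ext m
  have := h m
  simp only at this
  simp only [Pi.smul_apply, smul_eq_mul]
  rw [← this]
  field_simp

/-- separation of two exceptional points over equivalent special points -/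
theorem sep_exc {q q' : Qt B} {j j' : Fin 3} {z w : V 4} (hz0 : z j.castSucc = 0)
    (hw0 : w j'.castSucc = 0)
    (h : chπ (Sum.inr (q, j)) z ≠ chπ (Sum.inr (q', j')) w) {γ : Gam} (g1 : actQ γ q = q')
    (g2 : w 3 = z 3 + γ.tr) :
    ∃ A ∈ 𝓝 z, ∃ B' ∈ 𝓝 w, ∀ a ∈ A ∩ chU (Sum.inr (q, j)), ∀ b ∈ B' ∩ chU (Sum.inr (q', j')),
      chπ (Sum.inr (q, j)) a ≠ chπ (Sum.inr (q', j')) b := by
  have hnot : (z, w) ∉ Par γ.a γ.b j j' := by
    intro hp
    obtain ⟨c, hc, hc'⟩ := exists_of_mem_Par hp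
    apply h
    rw [chπ_exc0 q j hz0, chπ_exc0 q' j' hw0, ptB_eq]
    have hz : zetaN B.N ^ γ.k ≠ 0 := pow_ne_zero _ (zetaN_ne_zero _)
    refine ⟨γ, c * (zetaN B.N ^ γ.k)⁻¹, mul_ne_zero hc (inv_ne_zero hz), ?_⟩
    simp only
    rw [g1, ← g2, linD_eq, smul_smul, mul_assoc, inv_mul_cancel₀ hz, mul_one, hc']
  have h1 := (isClosed_Par γ.a γ.b j j').isOpen_compl.mem_nhds hnot
  rw [nhds_prod_eq] at h1
  obtain ⟨W1, hW1, W2, hW2, hW12⟩ := Filter.mem_prod_iff.1 h1
  refine ⟨W1 ∩ Metric.ball z (1 / 2), Filter.inter_mem hW1 (Metric.ball_mem_nhds _ (by norm_num)),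
    W2 ∩ Metric.ball w (1 / 2), Filter.inter_mem hW2 (Metric.ball_mem_nhds _ (by norm_num)), ?_⟩
  rintro a ⟨⟨ha1, ha2⟩, ha3⟩ b ⟨⟨hb1, hb2⟩, hb3⟩ hab
  obtain ⟨δ, d1, d2, ⟨c, d3⟩, d4, d5⟩ := exc_rel ha3 hb3 hab
  have htr : ‖δ.tr - γ.tr‖ < 1 := by
    have e : δ.tr - γ.tr = (b 3 - w 3) - (a 3 - z 3) := by rw [d2, g2]; ring
    rw [e]
    have n1 : ‖b 3 - w 3‖ < 1 / 2 := by
      rw [← dist_eq_norm]
      exact lt_of_le_of_lt (dist_le_pi_dist b w 3) (Metric.mem_ball.1 hb2)
    have n2 : ‖a 3 - z 3‖ < 1 / 2 := by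
      rw [← dist_eq_norm]
      exact lt_of_le_of_lt (dist_le_pi_dist a z 3) (Metric.mem_ball.1 ha2)
    calc _ ≤ ‖b 3 - w 3‖ + ‖a 3 - z 3‖ := norm_sub_le _ _
      _ < 1 := by linarith
  obtain ⟨ea, eb⟩ := tr_eq htr
  refine hW12 (show (a, b) ∈ W1 ×ˢ W2 from ⟨ha1, hb1⟩) ?_
  rw [linD_eq, ea, eb, smul_smul] at d3
  exact mem_Par d3

/-- separation of points with inequivalent positions -/
theorem sep_of_not_RA (i j : Ix B) (z w : V 4) (hz : z ∈ chU i) (hw : w ∈ chU j)
    (h : ¬ RA (pos i z) (pos j w)) :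
    ∃ A ∈ 𝓝 z, ∃ B' ∈ 𝓝 w, ∀ a ∈ A ∩ chU i, ∀ b ∈ B' ∩ chU j, chπ i a ≠ chπ j b := by
  have h1 := (isClosed_RA (B := B)).isOpen_compl.mem_nhds
    (show (pos i z, pos j w) ∈ {x : XA B × XA B | RA x.1 x.2}ᶜ from h)
  rw [nhds_prod_eq] at h1
  obtain ⟨O1, hO1, O2, hO2, hO12⟩ := Filter.mem_prod_iff.1 h1
  refine ⟨_, near_pos i hz hO1, _, near_pos j hw hO2, ?_⟩
  rintro a ⟨ha, ha'⟩ b ⟨hb, hb'⟩ hab
  obtain ⟨x, hx, hx'⟩ := ha ha'
  obtain ⟨y, hy, hy'⟩ := hb hb'
  refine hO12 (show (x, y) ∈ O1 ×ˢ O2 from ⟨hx, hy⟩) ?_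
  exact RA.equiv.trans (RA.equiv.symm hx') (RA.equiv.trans (chπ_RA ha' hb' hab) hy')

theorem sep_chπ (i j : Ix B) (z w : V 4) (hz : z ∈ chU i) (hw : w ∈ chU j)
    (h : chπ i z ≠ chπ j w) :
    ∃ A ∈ 𝓝 z, ∃ B' ∈ 𝓝 w, ∀ a ∈ A ∩ chU i, ∀ b ∈ B' ∩ chU j, chπ i a ≠ chπ j b := by
  by_cases hR : RA (pos i z) (pos j w)
  · -- both points are exceptional
    have hspec := specA_iff_of_RA hR
    rcases i with i | ⟨q, i⟩
    · have h1 : ¬ SpecA (pos (Sum.inl i : Ix B) z) := hz.2
      rcases j with j | ⟨q', j⟩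
      · exact absurd (ptA_eq.2 hR) h
      · rw [hspec, specA_pos_inr hw] at h1
        rw [chπ_exc q' j h1] at h
        exact absurd (ptA_eq.2 hR) h
    · rcases j with j | ⟨q', j⟩
      · have h1 : ¬ SpecA (pos (Sum.inl j : Ix B) w) := hw.2
        rw [← hspec, specA_pos_inr hz] at h1
        rw [chπ_exc q i h1] at h
        exact absurd (ptA_eq.2 hR) h
      · rw [specA_pos_inr hz, specA_pos_inr hw] at hspec
        by_cases h0 : z i.castSucc = 0
        · obtain ⟨γ, hγ⟩ := hR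
          have hE := E3_liftx_lt (ro_pos q) (by norm_num) hz.2
          have hE' := E3_liftx_lt (ro_pos q') (by norm_num) hw.2
          obtain ⟨g1, g2⟩ := RA_posq hz.1 hw.1 hE hE' γ hγ
          refine sep_exc h0 (hspec.1 h0) h g1 ?_
          have := congrFun g2 3
          rw [linV_three, liftx_three, liftx_three] at this
          exact this.symm
        · have h0' : w j.castSucc ≠ 0 := fun h1 => h0 (hspec.2 h1)
          rw [chπ_exc q i h0, chπ_exc q' j h0'] at h
          exact absurd (ptA_eq.2 hR) h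
  · exact sep_of_not_RA i j z w hz hw hR

end

end GK
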