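import Pool.Agent.GK.SpaceTrans
import Pool.Agent.GK.SpaceSep
import Pool.Agent.GK.SpaceCpt

/-!
# The manifold `M(𝔅)`
-/

open scoped ContDiff Topology
open MeasureTheory

namespace GK

noncomputable section

theorem isOpen_chU_inter {B : BaseCurve} {i : Ix B} {z : V 4} (hz : z ∈ chU i) : chU i ∈ 𝓝 z :=
  (isOpen_chU i).mem_nhds hz

/-- special points exist -/
theorem exists_spec (B : BaseCurve) : ∃ q : Qt B, Spec q := by
  obtain ⟨σ, hσ⟩ := B.exists_main
  exact ⟨(0, 0, σ), Or.inl ⟨hσ, Eis.zero_mem, Eis.zero_mem⟩⟩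

/-- the presentation of `M(𝔅)` -/
def preM (B : BaseCurve) : PrePres 4 where
  M := Pt B
  ι := Ix B
  U := chU
  isOpen_U := isOpen_chU
  π := chπ
  ne := by
    obtain ⟨q, hq⟩ := exists_spec B
    refine ⟨Sum.inr (q, 0), 0, hq, ?_⟩
    simp only [excDom, Set.mem_setOf_eq]
    have : (0 : V 4) (Fin.castSucc 0) = 0 := rfl
    rw [this, map_zero, zero_mul]
    positivity
  trans := trans_chπ
  locinj := by
    intro i z hz
    obtain ⟨W, hW, hinj⟩ := locinj_chπ i z hz
    exact ⟨W ∩ chU i, Filter.inter_mem hW (isOpen_chU_inter hz), hinj⟩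
  sep := by
    intro i j z w hz hw h
    obtain ⟨A, hA, B', hB, hAB⟩ := sep_chπ i j z w hz hw h
    exact ⟨A ∩ chU i, Filter.inter_mem hA (isOpen_chU_inter hz), B' ∩ chU j,
      Filter.inter_mem hB (isOpen_chU_inter hw), hAB⟩
  cpt := cpt_chπ

/-- the presentation of `M(𝔅)` -/
def presM (B : BaseCurve) : Pres 4 := (preM B).toPres

theorem presM_U (B : BaseCurve) (i : Ix B) : (presM B).U i = chU i := rfl

theorem proj_eq_iff {B : BaseCurve} {i j : Ix B} {z w : V 4} (hz : z ∈ chU i) (hw : w ∈ chU j) :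
    (presM B).proj i z = (presM B).proj j w ↔ chπ i z = chπ j w :=
  (preM B).pt_eq_iff hz hw

instance (B : BaseCurve) : Nonempty (presM B).Mfd := inferInstanceAs (Nonempty (preM B).pts)

end

end GK
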