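import Pool.Agent.GK.Charts

/-!
# Module SpaceTrans: coordinate changes of `M(𝔅)`

Elementary moves: `move1` (between regular charts), `move2` (from the regular chart `ch σ` to the
exceptional chart `(q, j)`).
-/

open scoped ContDiff Topology
open MeasureTheory

namespace GK

noncomputable section

variable {B : BaseCurve}

/-- coordinate change between regular charts -/
def move1 (N : ℕ) (γ : Gam) (h : ℂ → ℂ) (y : V 4) : V 4 :=
  ![mult N γ.k γ.a * y 0 + γ.l0, mult N γ.k γ.b * y 1 + γ.l1, h (y 2), y 3 + γ.tr]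

/-- the centre of the special point `q` in the chart `ch σ` -/
def cen (q : Qt B) : V 4 := ![q.1, q.2.1, 0, 0]

/-- coordinate change from the regular chart to an exceptional chart -/
def move2 (q : Qt B) (j : Fin 3) (y : V 4) : V 4 := excMap (ro q) j (y - cen q)

theorem st_apply_analyticAt (i : Fin 4) (y : V 4) : AnalyticAt ℂ (fun z : V 4 => z i) y :=
  (ContinuousLinearMap.proj (R := ℂ) (φ := fun _ : Fin 4 => ℂ) i).analyticAt y

theorem analyticAt_move1 {N : ℕ} {γ : Gam} {h : ℂ → ℂ} {y : V 4} (hh : AnalyticAt ℂ h (y 2)) :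
    AnalyticAt ℂ (move1 N γ h) y := by
  apply AnalyticAt.pi
  intro i
  fin_cases i
  · exact (analyticAt_const.mul (st_apply_analyticAt 0 y)).add analyticAt_const
  · exact (analyticAt_const.mul (st_apply_analyticAt 1 y)).add analyticAt_const
  · exact AnalyticAt.fun_comp (g := h) (f := fun z : V 4 => z 2) hh (st_apply_analyticAt 2 y)
  · exact (st_apply_analyticAt 3 y).add analyticAt_const

theorem move1_chπ {i j : B.κ} {γ : Gam} {h : ℂ → ℂ} {y : V 4}
    (hh : ContinuousAt h (y 2))
    (he : ∀ᶠ x in 𝓝 (y 2), B.p j (h x) = B.s^[γ.k] (B.p i x)) :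
    ∀ᶠ z in 𝓝 y, chπ (Sum.inl j : Ix B) (move1 B.N γ h z) = chπ (Sum.inl i) z := by
  have h2 : ∀ᶠ z : V 4 in 𝓝 y, B.p j (h (z 2)) = B.s^[γ.k] (B.p i (z 2)) :=
    (continuous_apply (2 : Fin 4)).continuousAt.eventually he
  filter_upwards [h2] with z hz
  rw [chπ_inl, chπ_inl, ptA_eq]
  apply RA.equiv.symm
  refine ⟨γ, ?_⟩
  show (mult B.N γ.k γ.a * z 0 + γ.l0, mult B.N γ.k γ.b * z 1 + γ.l1, B.s^[γ.k] (B.p i (z 2)),
    z 3 + γ.tr) = _
  rw [← hz]
  rfl

theorem exists_move1 {i j : B.κ} {y y' : V 4} (hy : y 2 ∈ B.D i) (hy' : y' 2 ∈ B.D j)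
    (h : chπ (Sum.inl i : Ix B) y = chπ (Sum.inl j) y') :
    ∃ (γ : Gam) (h : ℂ → ℂ), AnalyticAt ℂ h (y 2) ∧ h (y 2) = y' 2 ∧
      (∀ᶠ x in 𝓝 (y 2), B.p j (h x) = B.s^[γ.k] (B.p i x)) ∧ move1 B.N γ h y = y' := by
  rw [chπ_inl, chπ_inl, ptA_eq] at h
  obtain ⟨γ, hγ⟩ := h
  simp only [actA, posA, Prod.mk.injEq] at hγ
  obtain ⟨h0, h1, h2, h3⟩ := hγ
  obtain ⟨g, g1, g2, g3⟩ := B.hol i j γ.k (y 2) (y' 2) hy hy' h2.symm
  refine ⟨γ, g, g1, g2, g3, ?_⟩
  ext l
  fin_cases l
  · exact h0
  · exact h1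
  · exact g2
  · exact h3

theorem st_excMap_analyticAt {r : ℕ} {j : Fin 3} {x : V 4} (hx : x j.castSucc ≠ 0) :
    AnalyticAt ℂ (excMap r j) x := by
  apply AnalyticAt.pi
  intro i
  by_cases h1 : i = j.castSucc
  · simp only [excMap, if_pos h1]
    exact (st_apply_analyticAt _ x).pow r
  · by_cases h2 : i = 3
    · simp only [excMap, if_neg h1, if_pos h2]
      exact st_apply_analyticAt _ x
    · simp only [excMap, if_neg h1, if_neg h2]
      exact (st_apply_analyticAt _ x).div (st_apply_analyticAt _ x) hx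

theorem analyticAt_move2 {q : Qt B} {j : Fin 3} {y : V 4} (hy : (y - cen q) j.castSucc ≠ 0) :
    AnalyticAt ℂ (move2 q j) y := by
  apply AnalyticAt.fun_comp (g := excMap (ro q) j) (f := fun y : V 4 => y - cen q)
    (st_excMap_analyticAt hy)
  exact analyticAt_id.sub analyticAt_const

theorem st_posA_eq (q : Qt B) (y : V 4) :
    posA (B.ch q.2.2) y = posq q (y - cen q) := by
  simp only [posA, posq, cen, Prod.mk.injEq, Pi.sub_apply]
  refine ⟨?_, ?_, ?_, ?_⟩
  · simp
  · simp
  · simp
  · simp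

theorem move2_mem {q : Qt B} (hq : Spec q) {j : Fin 3} {y : V 4}
    (hy : (y - cen q) j.castSucc ≠ 0) (hE : E3 (y - cen q) < 1 / 64) :
    move2 q j y ∈ chU (Sum.inr (q, j)) ∧ y ∈ chU (Sum.inl (B.ch q.2.2)) ∧
      chπ (Sum.inr (q, j)) (move2 q j y) = chπ (Sum.inl (B.ch q.2.2)) y := by
  refine ⟨⟨hq, excMap_mem (ro_pos q) hy hE⟩, ⟨?_, ?_⟩, ?_⟩
  · rw [B.D_ch, mem_ball_zero_iff]
    have h2 := norm_lt_eighth hE 2
    have h3 : (y - cen q) (Fin.castSucc 2) = y 2 := by
      simp [cen]
    rw [h3] at h2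
    linarith
  · rw [st_posA_eq, specA_posq hq hE]
    intro h0
    apply hy
    have h1 : Complex.normSq ((y - cen q) j.castSucc) ≤ E3 (y - cen q) := by
      rw [E3_eq]
      exact Finset.single_le_sum (f := fun i : Fin 3 => Complex.normSq ((y - cen q) i.castSucc))
        (fun i _ => Complex.normSq_nonneg _) (Finset.mem_univ j)
    rw [h0] at h1
    exact Complex.normSq_eq_zero.1 (le_antisymm h1 (Complex.normSq_nonneg _))
  · rw [move2, chπ_excMap hy hE, chπ_inl, st_posA_eq]

/-- a generic point of an exceptional chart comes from a regular chart -/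
theorem exists_move2 {q : Qt B} (hq : Spec q) {j : Fin 3} {u : V 4}
    (hu : u ∈ chU (Sum.inr (q, j))) (hj : u j.castSucc ≠ 0) :
    ∃ y : V 4, E3 (y - cen q) < 1 / 64 ∧ (y - cen q) j.castSucc ≠ 0 ∧ move2 q j y = u := by
  have e : cen q + liftx (ro q) j u - cen q = liftx (ro q) j u := by
    rw [add_sub_cancel_left]
  refine ⟨cen q + liftx (ro q) j u, ?_, ?_, ?_⟩
  · rw [e]
    exact E3_liftx_lt (ro_pos q) (by norm_num) hu.2
  · rw [e, liftx_j]
    exact fun h => hj ((root_eq_zero (ro_pos q)).1 h)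
  · rw [move2, e]
    exact excMap_liftx (ro_pos q) hj

/-- germ of a coordinate change -/
def TrST (i : Ix B) (z : V 4) (j : Ix B) (w : V 4) : Prop :=
  ∃ h : V 4 → V 4, AnalyticAt ℂ h z ∧ h z = w ∧ ∀ᶠ z' in 𝓝 z, chπ j (h z') = chπ i z'

theorem TrST.refl (i : Ix B) (z : V 4) : TrST i z i z :=
  ⟨fun x => x, analyticAt_id, rfl, Filter.Eventually.of_forall fun _ => rfl⟩

theorem TrST.comp {i j k : Ix B} {z w v : V 4} (h1 : TrST i z j w) (h2 : TrST j w k v) :
    TrST i z k v := by
  obtain ⟨f, f1, f2, f3⟩ := h1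
  obtain ⟨g, g1, g2, g3⟩ := h2
  subst f2
  refine ⟨fun x => g (f x), AnalyticAt.fun_comp g1 f1, g2, ?_⟩
  have h3 := f1.continuousAt.eventually g3
  filter_upwards [h3, f3] with x a1 a2
  rw [a1, a2]

theorem TrST.eq {i j : Ix B} {z w : V 4} (h : TrST i z j w) : chπ j w = chπ i z := by
  obtain ⟨f, _, f2, f3⟩ := h
  rw [← f2]
  exact f3.self_of_nhds

/-- the local inverse of `excMap` -/
def st_inv (r : ℕ) (j : Fin 3) (a : ℂ) (u : V 4) : V 4 := fun i =>
  if i = 3 then u 3 else if i = j.castSucc then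
    a ^ (1 / (r : ℂ)) * (u j.castSucc / a) ^ (1 / (r : ℂ)) else
    a ^ (1 / (r : ℂ)) * (u j.castSucc / a) ^ (1 / (r : ℂ)) * u i

theorem st_inv_self {r : ℕ} {j : Fin 3} {u : V 4} (hu : u j.castSucc ≠ 0) :
    st_inv r j (u j.castSucc) u = liftx r j u := by
  ext i
  simp only [st_inv, liftx, div_self hu, Complex.one_cpow, mul_one]

theorem st_inv_analyticAt {r : ℕ} {j : Fin 3} {u : V 4} (hu : u j.castSucc ≠ 0) :
    AnalyticAt ℂ (st_inv r j (u j.castSucc)) u := by
  have h1 : AnalyticAt ℂ (fun z : V 4 => u j.castSucc ^ (1 / (r : ℂ)) *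
      (z j.castSucc / u j.castSucc) ^ (1 / (r : ℂ))) u := by
    apply analyticAt_const.mul
    apply AnalyticAt.cpow
    · exact (st_apply_analyticAt _ u).div analyticAt_const hu
    · exact analyticAt_const
    · rw [div_self hu]; exact Complex.one_mem_slitPlane
  apply AnalyticAt.pi
  intro i
  by_cases h3 : i = 3
  · simp only [st_inv, if_pos h3]
    exact st_apply_analyticAt _ u
  · by_cases hj : i = j.castSucc
    · simp only [st_inv, if_neg h3, if_pos hj]
      exact h1
    · simp only [st_inv, if_neg h3, if_neg hj]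
      exact h1.mul (st_apply_analyticAt _ u)

theorem st_excMap_inv {r : ℕ} (hr : 0 < r) {j : Fin 3} {a : ℂ} (ha : a ≠ 0) {u : V 4}
    (hu : u j.castSucc ≠ 0) :
    st_inv r j a u j.castSucc ≠ 0 ∧ excMap r j (st_inv r j a u) = u := by
  have hg : a ^ (1 / (r : ℂ)) * (u j.castSucc / a) ^ (1 / (r : ℂ)) ≠ 0 :=
    mul_ne_zero (fun h => ha ((root_eq_zero hr).1 h))
      (fun h => (div_ne_zero hu ha) ((root_eq_zero hr).1 h))
  have e1 : st_inv r j a u j.castSucc =
      a ^ (1 / (r : ℂ)) * (u j.castSucc / a) ^ (1 / (r : ℂ)) := by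
    simp only [st_inv, if_neg (castSucc_ne_three j), if_pos]
  refine ⟨by rw [e1]; exact hg, ?_⟩
  ext i
  by_cases hj : i = j.castSucc
  · subst hj
    simp only [excMap, if_pos]
    rw [e1, mul_pow, root_pow hr, root_pow hr]
    field_simp
  · by_cases h3 : i = 3
    · simp only [excMap, if_neg hj, if_pos h3]
      subst h3
      simp [st_inv]
    · simp only [excMap, if_neg hj, if_neg h3]
      rw [e1]
      simp only [st_inv, if_neg h3, if_neg hj]
      exact mul_div_cancel_left₀ _ hg

theorem st_exc_reg {q : Qt B} {j : Fin 3} {u : V 4} (hu : u ∈ chU (Sum.inr (q, j)))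
    (hj : u j.castSucc ≠ 0) :
    TrST (Sum.inr (q, j)) u (Sum.inl (B.ch q.2.2)) (cen q + liftx (ro q) j u) := by
  have hr := ro_pos q
  have hA := st_inv_analyticAt (r := ro q) hj
  refine ⟨fun z => cen q + st_inv (ro q) j (u j.castSucc) z, analyticAt_const.add hA, ?_, ?_⟩
  · show cen q + st_inv (ro q) j (u j.castSucc) u = _
    rw [st_inv_self hj]
  · have hE0 : E3 (st_inv (ro q) j (u j.castSucc) u) < 1 / 64 := by
      rw [st_inv_self hj]; exact E3_liftx_lt hr (by norm_num) hu.2
    have hcE : Continuous E3 := by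
      unfold E3
      fun_prop
    have hE : ∀ᶠ z in 𝓝 u, E3 (st_inv (ro q) j (u j.castSucc) z) < 1 / 64 :=
      (hcE.continuousAt.comp (f := st_inv (ro q) j (u j.castSucc)) hA.continuousAt).eventually
        (Iio_mem_nhds hE0)
    have h0 : ∀ᶠ z : V 4 in 𝓝 u, z j.castSucc ≠ 0 :=
      (continuous_apply j.castSucc).continuousAt.eventually (isOpen_ne.mem_nhds hj)
    filter_upwards [hE, h0] with z a1 a2
    obtain ⟨b1, b2⟩ := st_excMap_inv hr hj a2
    have b3 := chπ_excMap (q := q) b1 a1
    rw [b2] at b3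
    rw [b3, chπ_inl, st_posA_eq, add_sub_cancel_left]

theorem st_reg_exc {q : Qt B} (hq : Spec q) {j : Fin 3} {y : V 4}
    (hy : (y - cen q) j.castSucc ≠ 0) (hE : E3 (y - cen q) < 1 / 64) :
    TrST (Sum.inl (B.ch q.2.2)) y (Sum.inr (q, j)) (move2 q j y) := by
  refine ⟨move2 q j, analyticAt_move2 hy, rfl, ?_⟩
  have hcE : Continuous fun z : V 4 => E3 (z - cen q) := by
    unfold E3
    fun_prop
  have h1 : ∀ᶠ z in 𝓝 y, E3 (z - cen q) < 1 / 64 := hcE.continuousAt.eventually
    (Iio_mem_nhds hE)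
  have hc0 : Continuous fun z : V 4 => (z - cen q) j.castSucc := by fun_prop
  have h0 : ∀ᶠ z : V 4 in 𝓝 y, (z - cen q) j.castSucc ≠ 0 :=
    hc0.continuousAt.eventually (isOpen_ne.mem_nhds hy)
  filter_upwards [h1, h0] with z a1 a2
  exact (move2_mem hq a2 a1).2.2

/-- every point of a chart that is not exceptional also lies in a regular chart -/
theorem st_reg_of {i : Ix B} {z : V 4} (hz : z ∈ chU i) {x : XA B} (h : chπ i z = ptA x) :
    ∃ (k : B.κ) (y : V 4), y 2 ∈ B.D k ∧ TrST i z (Sum.inl k) y ∧ TrST (Sum.inl k) y i z := by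
  rcases i with k | ⟨q, j⟩
  · exact ⟨k, z, hz.1, TrST.refl _ _, TrST.refl _ _⟩
  · have hj : z j.castSucc ≠ 0 := by
      intro h0
      rw [chπ_exc0 q j h0] at h
      exact ptA_ne_ptB _ _ h.symm
    have hq : Spec q := hz.1
    have e : cen q + liftx (ro q) j z - cen q = liftx (ro q) j z := by
      rw [add_sub_cancel_left]
    have h1 : (cen q + liftx (ro q) j z - cen q) j.castSucc ≠ 0 := by
      rw [e, liftx_j]
      exact fun h => hj ((root_eq_zero (ro_pos q)).1 h)
    have h2 : E3 (cen q + liftx (ro q) j z - cen q) < 1 / 64 := by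
      rw [e]
      exact E3_liftx_lt (ro_pos q) (by norm_num) hz.2
    have h3 : move2 q j (cen q + liftx (ro q) j z) = z := by
      rw [move2, e]; exact excMap_liftx (ro_pos q) hj
    refine ⟨B.ch q.2.2, cen q + liftx (ro q) j z, (move2_mem hq h1 h2).2.1.1, ?_, ?_⟩
    · exact st_exc_reg hz hj
    · have := st_reg_exc hq h1 h2
      rwa [h3] at this

/-- the change of coordinates between exceptional charts at exceptional points -/
def st_exc (N : ℕ) (γ : Gam) (r : ℕ) (j j' : Fin 3) (u : V 4) : V 4 := fun i =>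
  if i = j'.castSucc then
    u j.castSucc * linV N γ (fun l => if l = j.castSucc then 1 else u l) j'.castSucc ^ r
  else excMap r j' (linV N γ (fun l => if l = j.castSucc then 1 else u l)) i

theorem st_linV_castSucc (N : ℕ) (γ : Gam) (j : Fin 3) (u : V 4) (i : Fin 3) :
    linV N γ (fun l => if l = j.castSucc then 1 else u l) i.castSucc =
      linD N γ (dir j u) i := by
  fin_cases i <;> fin_cases j <;> simp [linV, linD, dir]

theorem st_linV_analyticAt (N : ℕ) (γ : Gam) (j : Fin 3) (u : V 4) :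
    AnalyticAt ℂ (fun z : V 4 => linV N γ (fun l => if l = j.castSucc then 1 else z l)) u := by
  have h : ∀ l : Fin 4, AnalyticAt ℂ (fun z : V 4 => if l = j.castSucc then (1 : ℂ) else z l) u := by
    intro l
    by_cases hl : l = j.castSucc
    · simp only [if_pos hl]; exact analyticAt_const
    · simp only [if_neg hl]; exact st_apply_analyticAt l u
  apply AnalyticAt.pi
  intro i
  fin_cases i
  · exact analyticAt_const.mul (h 0)
  · exact analyticAt_const.mul (h 1)
  · exact analyticAt_const.mul (h 2)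
  · exact (h 3).add analyticAt_const

theorem st_exc_analyticAt (N : ℕ) (γ : Gam) (r : ℕ) (j j' : Fin 3) {u : V 4}
    (hu : linD N γ (dir j u) j' ≠ 0) :
    AnalyticAt ℂ (st_exc N γ r j j') u := by
  have hL := st_linV_analyticAt N γ j u
  rw [← st_linV_castSucc] at hu
  have hE := AnalyticAt.fun_comp (g := excMap r j')
    (f := fun z : V 4 => linV N γ (fun l => if l = j.castSucc then 1 else z l))
    (st_excMap_analyticAt hu) hL
  have hcomp : ∀ l : Fin 4, AnalyticAt ℂ (fun z : V 4 =>
      linV N γ (fun l => if l = j.castSucc then 1 else z l) l) u := fun l =>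
    (analyticAt_pi_iff.1 hL) l
  have hcompE : ∀ l : Fin 4, AnalyticAt ℂ (fun z : V 4 =>
      excMap r j' (linV N γ (fun l => if l = j.castSucc then 1 else z l)) l) u := fun l =>
    (analyticAt_pi_iff.1 hE) l
  apply AnalyticAt.pi
  intro i
  by_cases hi : i = j'.castSucc
  · simp only [st_exc, if_pos hi]
    exact (st_apply_analyticAt _ u).mul ((hcomp _).pow r)
  · simp only [st_exc, if_neg hi]
    exact hcompE i

theorem st_E3_linV (N : ℕ) (γ : Gam) (x : V 4) : E3 (linV N γ x) = E3 x := by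
  have hm : ∀ k a, Complex.normSq (mult N k a) = 1 := fun k a => by
    rw [Complex.normSq_eq_norm_sq, norm_mult]; norm_num
  have hz : Complex.normSq (zetaN N ^ γ.k) = 1 := by
    rw [Complex.normSq_eq_norm_sq, norm_pow, norm_zetaN]; norm_num
  show Complex.normSq (mult N γ.k γ.a * x 0) + Complex.normSq (mult N γ.k γ.b * x 1) +
    Complex.normSq (zetaN N ^ γ.k * x 2) = _
  rw [Complex.normSq_mul, Complex.normSq_mul, Complex.normSq_mul, hm, hm, hz]
  simp [E3]

theorem st_exc_lift (N : ℕ) (γ : Gam) {r : ℕ} (hr : 0 < r) (j j' : Fin 3) {u : V 4}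
    (hu : u j.castSucc ≠ 0) (hL : linD N γ (dir j u) j' ≠ 0) :
    linV N γ (liftx r j u) j'.castSucc ≠ 0 ∧
      excMap r j' (linV N γ (liftx r j u)) = st_exc N γ r j j' u := by
  set w := u j.castSucc ^ (1 / (r : ℂ)) with hw
  have hw0 : w ≠ 0 := fun h => hu ((root_eq_zero hr).1 h)
  have hwr : w ^ r = u j.castSucc := root_pow hr _
  set L := linV N γ (fun l => if l = j.castSucc then 1 else u l) with hLdef
  have hLj : L j'.castSucc ≠ 0 := by
    rw [hLdef, st_linV_castSucc]; exact hL
  have key : ∀ i : Fin 3, linV N γ (liftx r j u) i.castSucc = w * L i.castSucc := by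
    intro i
    have h1 : linV N γ (liftx r j u) i.castSucc =
        linD N γ (fun l : Fin 3 => liftx r j u l.castSucc) i := by
      fin_cases i <;> simp [linV, linD]
    rw [h1, hLdef, st_linV_castSucc]
    have h2 : (fun l : Fin 3 => liftx r j u l.castSucc) = w • dir j u := by
      funext l
      rw [liftx_castSucc]; rfl
    rw [h2, linD_smul]; rfl
  have key3 : linV N γ (liftx r j u) 3 = L 3 := by
    show liftx r j u 3 + γ.tr = (if (3 : Fin 4) = j.castSucc then 1 else u 3) + γ.tr
    rw [liftx_three, if_neg (castSucc_ne_three j).symm]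
  refine ⟨?_, ?_⟩
  · rw [key]; exact mul_ne_zero hw0 hLj
  · funext i
    by_cases hi : i = j'.castSucc
    · simp only [excMap, st_exc, if_pos hi]
      rw [key, mul_pow, hwr]
    · by_cases h3 : i = 3
      · subst h3
        simp only [excMap, st_exc, if_neg hi, if_pos]
        exact key3
      · simp only [excMap, st_exc, if_neg hi, if_neg h3]
        obtain ⟨i', rfl⟩ : ∃ i' : Fin 3, i = i'.castSucc := by
          fin_cases i
          · exact ⟨0, rfl⟩
          · exact ⟨1, rfl⟩
          · exact ⟨2, rfl⟩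
          · exact absurd rfl h3
        rw [key, key]
        exact mul_div_mul_left _ _ hw0

theorem st_isOpen_excDom (r : ℕ) (ρ : ℝ) (j : Fin 3) : IsOpen (excDom r ρ j) := by
  apply isOpen_lt _ continuous_const
  have h1 : Continuous fun u : V 4 => excNorm j u := by
    unfold excNorm
    apply continuous_const.add
    apply continuous_finsetSum
    intro i _
    split_ifs
    · exact continuous_const
    · exact Complex.continuous_normSq.comp (continuous_apply i.castSucc)
  exact (Complex.continuous_normSq.comp (continuous_apply j.castSucc)).mul (h1.pow r)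

theorem st_exc_exc {q q' : Qt B} {j j' : Fin 3} {u u' : V 4} (hu : u ∈ chU (Sum.inr (q, j)))
    (hu0 : u j.castSucc = 0) (hu0' : u' j'.castSucc = 0)
    (h : RB (q, dir j u, u 3) (q', dir j' u', u' 3)) :
    TrST (Sum.inr (q, j)) u (Sum.inr (q', j')) u' := by
  obtain ⟨γ, c, hc, hγ⟩ := h
  simp only [Prod.mk.injEq] at hγ
  obtain ⟨g1, g2, g3⟩ := hγ
  subst g1
  have hr := ro_pos q
  have hc1 : c * linD B.N γ (dir j u) j' = 1 := by
    have := congrFun g2 j'
    have h1 : dir j' u' j' = 1 := by simp [dir]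
    rw [h1] at this
    exact this.symm
  have hL : linD B.N γ (dir j u) j' ≠ 0 := by
    intro h0
    rw [h0, mul_zero] at hc1
    exact zero_ne_one hc1
  have hceq : c = (linD B.N γ (dir j u) j')⁻¹ := eq_inv_of_mul_eq_one_left hc1
  have hA := st_exc_analyticAt B.N γ (ro q) j j' hL
  refine ⟨st_exc B.N γ (ro q) j j', hA, ?_, ?_⟩
  · funext i
    by_cases hi : i = j'.castSucc
    · simp only [st_exc, if_pos hi]
      rw [hu0, zero_mul, hi, hu0']
    · by_cases h3 : i = 3
      · subst h3
        simp only [excMap, st_exc, if_neg hi, if_pos]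
        show (if (3 : Fin 4) = j.castSucc then 1 else u 3) + γ.tr = _
        rw [if_neg (castSucc_ne_three j).symm, g3]
      · simp only [excMap, st_exc, if_neg hi, if_neg h3]
        obtain ⟨i', rfl⟩ : ∃ i' : Fin 3, i = i'.castSucc := by
          fin_cases i
          · exact ⟨0, rfl⟩
          · exact ⟨1, rfl⟩
          · exact ⟨2, rfl⟩
          · exact absurd rfl h3
        have hne : i' ≠ j' := fun h => hi (by rw [h])
        rw [st_linV_castSucc, st_linV_castSucc]
        have := congrFun g2 i'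
        have h1 : dir j' u' i' = u' i'.castSucc := by simp [dir, hne]
        rw [h1, Pi.smul_apply, smul_eq_mul, hceq] at this
        rw [this]
        field_simp
  · have hdom : ∀ᶠ z in 𝓝 u, z ∈ excDom (ro q) (1 / 64) j :=
      (st_isOpen_excDom (ro q) (1 / 64) j).mem_nhds hu.2
    have hcL : Continuous fun z : V 4 => linD B.N γ (dir j z) j' := by
      have h1 : (fun z : V 4 => linD B.N γ (dir j z) j') = fun z : V 4 =>
          linV B.N γ (fun l => if l = j.castSucc then 1 else z l) j'.castSucc := by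
        funext z
        rw [st_linV_castSucc]
      rw [h1]
      rw [continuous_iff_continuousAt]
      intro z
      exact ((analyticAt_pi_iff.1 (st_linV_analyticAt B.N γ j z)) j'.castSucc).continuousAt
    have hL' : ∀ᶠ z : V 4 in 𝓝 u, linD B.N γ (dir j z) j' ≠ 0 :=
      hcL.continuousAt.eventually (isOpen_ne.mem_nhds hL)
    filter_upwards [hdom, hL'] with z a1 a2
    by_cases hz : z j.castSucc = 0
    · rw [chπ_exc0 q j hz]
      have hz' : st_exc B.N γ (ro q) j j' z j'.castSucc = 0 := by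
        simp only [st_exc, if_pos]
        rw [hz, zero_mul]
      rw [chπ_exc0 _ j' hz', ptB_eq]
      apply RB.equiv.symm
      refine ⟨γ, (linD B.N γ (dir j z) j')⁻¹, inv_ne_zero a2, ?_⟩
      simp only [Prod.mk.injEq, true_and]
      refine ⟨?_, ?_⟩
      · funext i
        by_cases hi : i = j'
        · subst hi
          rw [Pi.smul_apply, smul_eq_mul, inv_mul_cancel₀ a2]
          simp [dir]
        · have hne : i.castSucc ≠ j'.castSucc := fun h' => hi (Fin.castSucc_injective _ h')
          simp only [dir, if_neg hi]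
          simp only [st_exc, excMap, if_neg hne, if_neg (castSucc_ne_three i)]
          rw [st_linV_castSucc, st_linV_castSucc, Pi.smul_apply, smul_eq_mul]
          show _ = (linD B.N γ (dir j z) j')⁻¹ * linD B.N γ (dir j z) i
          rw [div_eq_inv_mul]
      · simp only [st_exc, excMap, if_neg (castSucc_ne_three j').symm, if_pos]
        show (if (3 : Fin 4) = j.castSucc then 1 else z 3) + γ.tr = _
        rw [if_neg (castSucc_ne_three j).symm]
    · obtain ⟨b1, b2⟩ := st_exc_lift B.N γ hr j j' hz a2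
      rw [chπ_exc q j hz, ← b2]
      have hE := E3_liftx_lt hr (by norm_num) a1
      have hE' : E3 (linV B.N γ (liftx (ro q) j z)) < 1 / 64 := by rw [st_E3_linV]; exact hE
      have b3 := chπ_excMap (q := actQ γ q) (j := j') b1 hE'
      rw [ro_act] at b3
      rw [b3, ptA_eq]
      apply RA.equiv.symm
      refine ⟨γ, ?_⟩
      apply actA_posq
      rw [mem_ball_zero_iff]
      have h2 := norm_lt_eighth hE 2
      have h3 : liftx (ro q) j z (Fin.castSucc 2) = liftx (ro q) j z 2 := rfl
      rw [h3] at h2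
      linarith

/-- coordinate changes exist -/
theorem trans_chπ (i j : Ix B) (z w : V 4) (hz : z ∈ chU i) (hw : w ∈ chU j)
    (h : chπ i z = chπ j w) :
    ∃ h : V 4 → V 4, AnalyticAt ℂ h z ∧ h z = w ∧ ∀ᶠ z' in 𝓝 z, chπ j (h z') = chπ i z' := by
  change TrST i z j w
  have main : ∀ x : XA B, chπ i z = ptA x → TrST i z j w := by
    intro x hx
    obtain ⟨k, y, y1, y2, y3⟩ := st_reg_of hz hx
    obtain ⟨k', y', y1', y2', y3'⟩ := st_reg_of hw (h.symm.trans hx)
    have e : chπ (Sum.inl k : Ix B) y = chπ (Sum.inl k') y' := by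
      rw [y2.eq, y2'.eq]; exact h
    obtain ⟨γ, g, g1, g2, g3, g4⟩ := exists_move1 y1 y1' e
    have hT : TrST (Sum.inl k : Ix B) y (Sum.inl k') y' :=
      ⟨move1 B.N γ g, analyticAt_move1 g1, g4, move1_chπ g1.continuousAt g3⟩
    exact (y2.comp hT).comp y3'
  rcases i with k | ⟨q, l⟩
  · exact main _ (chπ_inl k z)
  · by_cases h1 : z l.castSucc = 0
    · rcases j with k' | ⟨q', l'⟩
      · rw [chπ_exc0 q l h1, chπ_inl] at h
        exact absurd h.symm (ptA_ne_ptB _ _)
      · by_cases h2 : w l'.castSucc = 0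
        · rw [chπ_exc0 q l h1, chπ_exc0 q' l' h2, ptB_eq] at h
          exact st_exc_exc hz h1 h2 h
        · rw [chπ_exc0 q l h1, chπ_exc q' l' h2] at h
          exact absurd h.symm (ptA_ne_ptB _ _)
    · exact main _ (chπ_exc q l h1)

end

end GK
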