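import Pool.Agent.GK.AnnBall
import Pool.Agent.GK.ConfH

/-! # Module TotalFormula: the total scalar curvature of Gauduchon metrics on `M(𝔅)` -/

open scoped ContDiff Topology ComplexOrder
open MeasureTheory

namespace GK

noncomputable section

variable {B : BaseCurve}

theorem ro_main {σ : B.Sp} (h : B.main σ) : ro ((0, 0, σ) : Qt B) = B.N := by
  have h1 : Stab ((0, 0, σ) : Qt B) 1 := by
    refine ⟨?_, ?_, ?_⟩
    · simpa using B.main_fix σ h
    · simp [Eis.zero_mem]
    · simp [Eis.zero_mem]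
  have h2 : k0 ((0, 0, σ) : Qt B) = 1 := Nat.dvd_one.1 ((stab_iff _ _).1 h1)
  have h3 := k0_mul_ro ((0, 0, σ) : Qt B)
  rw [h2, one_mul] at h3
  exact h3

namespace TF

theorem fderiv_coord {F : ℂ → ℝ} {w : V 4} (hF : DifferentiableAt ℝ F (w 2)) (v : V 4) :
    fderiv ℝ (fun y : V 4 => ((F (y 2) : ℝ) : ℂ)) w v = ((fderiv ℝ F (w 2) (v 2) : ℝ) : ℂ) := by
  have h1 : HasFDerivAt (fun y : V 4 => y 2)
      (ContinuousLinearMap.proj (R := ℝ) (φ := fun _ : Fin 4 => ℂ) 2) w :=
    (ContinuousLinearMap.proj (R := ℝ) (φ := fun _ : Fin 4 => ℂ) 2).hasFDerivAt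
  have h2 : HasFDerivAt (fun y : V 4 => F (y 2))
      ((fderiv ℝ F (w 2)).comp (ContinuousLinearMap.proj (R := ℝ) (φ := fun _ : Fin 4 => ℂ) 2)) w :=
    HasFDerivAt.comp w hF.hasFDerivAt h1
  have h3 : HasFDerivAt (fun y : V 4 => ((F (y 2) : ℝ) : ℂ)) (Complex.ofRealCLM.comp
      ((fderiv ℝ F (w 2)).comp (ContinuousLinearMap.proj (R := ℝ) (φ := fun _ : Fin 4 => ℂ) 2))) w :=
    HasFDerivAt.comp w Complex.ofRealCLM.hasFDerivAt h2
  rw [h3.fderiv]
  rfl

theorem single_ne {k : Fin 4} (hk : k ≠ 2) (c : ℂ) : (Pi.single k c : V 4) 2 = 0 := by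
  rw [Pi.single_apply, if_neg (Ne.symm hk)]

theorem single_two (c : ℂ) : (Pi.single 2 c : V 4) 2 = c := by
  rw [Pi.single_apply, if_pos rfl]

theorem levi_coord {F : ℂ → ℝ} {y : V 4} (hF : ContDiffAt ℝ 2 F (y 2)) (h0 : lap F (y 2) = 0) :
    levi (fun w : V 4 => ((F (w 2) : ℝ) : ℂ)) y = 0 := by
  have hd : ∀ᶠ u in 𝓝 (y 2), DifferentiableAt ℝ F u :=
    eventually_differentiableAt (N := 2) (by norm_num) hF
  have hd' : ∀ᶠ w : V 4 in 𝓝 y, DifferentiableAt ℝ F (w 2) :=
    (continuous_apply (2 : Fin 4)).continuousAt.eventually hd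
  have hf1 : ContDiffAt ℝ 1 (fderiv ℝ F) (y 2) := hF.fderiv_right (by norm_num)
  have hda : ∀ c : ℂ, DifferentiableAt ℝ (fun u => fderiv ℝ F u c) (y 2) := fun c =>
    (hf1.differentiableAt (by norm_num)).clm_apply (differentiableAt_const c)
  have hfd : ∀ c v : ℂ, fderiv ℝ (fun u => fderiv ℝ F u c) (y 2) v =
      fderiv ℝ (fderiv ℝ F) (y 2) v c := by
    intro c v
    have h1 : HasFDerivAt (fun u => fderiv ℝ F u c)
        ((ContinuousLinearMap.apply ℝ ℝ c).comp (fderiv ℝ (fderiv ℝ F) (y 2))) (y 2) :=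
      (ContinuousLinearMap.apply ℝ ℝ c).hasFDerivAt.comp (y 2)
        (hf1.differentiableAt (by norm_num)).hasFDerivAt
    rw [h1.fderiv]
    rfl
  have hsymm : fderiv ℝ (fun u => fderiv ℝ F u Complex.I) (y 2) 1 =
      fderiv ℝ (fun u => fderiv ℝ F u 1) (y 2) Complex.I := by
    rw [hfd, hfd]
    exact (hF.isSymmSndFDerivAt (by simp)) 1 Complex.I
  ext j k
  simp only [levi, Matrix.of_apply, Matrix.zero_apply]
  have hev : (fun w => dB k (fun w : V 4 => ((F (w 2) : ℝ) : ℂ)) w) =ᶠ[𝓝 y]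
      fun w : V 4 => (((fderiv ℝ F (w 2) ((Pi.single k 1 : V 4) 2) : ℝ) : ℂ) +
        Complex.I * ((fderiv ℝ F (w 2) ((Pi.single k Complex.I : V 4) 2) : ℝ) : ℂ)) / 2 := by
    filter_upwards [hd'] with w hw
    simp only [dB]
    rw [fderiv_coord hw, fderiv_coord hw]
  rw [dZ_congr hev j]
  by_cases hk : k = 2
  · subst hk
    rw [single_two, single_two]
    have h1 : ∀ c v, fderiv ℝ (fun w : V 4 => ((fderiv ℝ F (w 2) c : ℝ) : ℂ)) y v =
        ((fderiv ℝ (fun u => fderiv ℝ F u c) (y 2) (v 2) : ℝ) : ℂ) := fun c v =>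
      fderiv_coord (F := fun u => fderiv ℝ F u c) (hda c) v
    have h2 : ∀ c : ℂ, DifferentiableAt ℝ (fun w : V 4 => ((fderiv ℝ F (w 2) c : ℝ) : ℂ)) y := by
      intro c
      have h3 : DifferentiableAt ℝ (fun w : V 4 => w 2) y :=
        (ContinuousLinearMap.proj (R := ℝ) (φ := fun _ : Fin 4 => ℂ) 2).differentiableAt
      have h3' : DifferentiableAt ℝ (fun w : V 4 => fderiv ℝ F (w 2) c) y :=
        DifferentiableAt.fun_comp' (g := fun u => fderiv ℝ F u c) (f := fun w : V 4 => w 2) y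
          (hda c) h3
      exact Complex.ofRealCLM.differentiableAt.comp y h3'
    have h4 : ∀ v, fderiv ℝ (fun w : V 4 => (((fderiv ℝ F (w 2) 1 : ℝ) : ℂ) +
        Complex.I * ((fderiv ℝ F (w 2) Complex.I : ℝ) : ℂ)) / 2) y v =
        (((fderiv ℝ (fun u => fderiv ℝ F u 1) (y 2) (v 2) : ℝ) : ℂ) +
          Complex.I * ((fderiv ℝ (fun u => fderiv ℝ F u Complex.I) (y 2) (v 2) : ℝ) : ℂ)) / 2 := by
      intro v
      have h5 : HasFDerivAt (fun w : V 4 => (((fderiv ℝ F (w 2) 1 : ℝ) : ℂ) +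
          Complex.I * ((fderiv ℝ F (w 2) Complex.I : ℝ) : ℂ)) / 2)
          ((2 : ℂ)⁻¹ • ((fderiv ℝ (fun w : V 4 => ((fderiv ℝ F (w 2) 1 : ℝ) : ℂ)) y) +
            Complex.I • (fderiv ℝ (fun w : V 4 => ((fderiv ℝ F (w 2) Complex.I : ℝ) : ℂ)) y))) y := by
        have h6 := ((h2 1).hasFDerivAt.add ((h2 Complex.I).hasFDerivAt.const_smul Complex.I)).const_smul
          (2 : ℂ)⁻¹
        refine h6.congr_of_eventuallyEq (Filter.Eventually.of_forall fun w => ?_)
        simp only [Pi.add_apply, Pi.smul_apply, smul_eq_mul]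
        ring
      rw [h5.fderiv]
      simp only [smul_apply, add_apply, smul_eq_mul, h1]
      ring
    unfold dZ
    rw [h4, h4]
    by_cases hj : j = 2
    · subst hj
      rw [single_two, single_two, hsymm]
      have h7 : fderiv ℝ (fun u => fderiv ℝ F u 1) (y 2) 1 =
          -(fderiv ℝ (fun u => fderiv ℝ F u Complex.I) (y 2) Complex.I) := by
        unfold lap at h0
        linarith
      rw [h7]
      push_cast
      ring_nf
      simp only [Complex.I_sq]
      ring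
    · rw [single_ne hj, single_ne hj]
      simp
  · rw [single_ne hk, single_ne hk]
    simp only [map_zero, Complex.ofReal_zero, mul_zero, add_zero, zero_div]
    exact dZ_const 0 y j

/-- the logarithm of the metric in the regular charts -/
theorem log_hReg (D : MetricData B) (f : Qt B → ℝ → ℝ) {i : B.κ} {y : V 4} (hy : y 2 ∈ B.D i) :
    Real.log (hReg D f i y) = Real.log (D.H i (y 2)) + SF (θc f) (posA i y) := by
  unfold hReg
  rw [Real.log_mul (D.H_pos i _ hy).ne' (Real.exp_pos _).ne', Real.log_exp]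

theorem log_eventually {D : MetricData B} {f : Qt B → ℝ → ℝ} {h : (presM B).Conf}
    (hh : ∀ i, ∀ y ∈ chU (Sum.inl i : Ix B), h.h (Sum.inl i) y = hReg D f i y) {i : B.κ} {y : V 4}
    (hy : y ∈ chU (Sum.inl i : Ix B)) :
    (fun w => ((Real.log (h.h (Sum.inl i) w) : ℝ) : ℂ)) =ᶠ[𝓝 y]
      fun w => ((Real.log (D.H i (w 2)) + SF (θc f) (posA i w) : ℝ) : ℂ) := by
  filter_upwards [(isOpen_chU (Sum.inl i : Ix B)).mem_nhds hy] with w hw
  rw [hh i w hw, log_hReg D f hw.1]

theorem continuousAt_posA {i : B.κ} {y : V 4} (hy : y 2 ∈ B.D i) :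
    ContinuousAt (posA (B := B) i) y := by
  have h2 : ContinuousAt (fun w : V 4 => B.p i (w 2)) y :=
    ContinuousAt.comp (f := fun w : V 4 => w 2) (g := B.p i)
      ((B.p_cont i).continuousAt ((B.isOpen_D i).mem_nhds hy))
      (continuous_apply (2 : Fin 4)).continuousAt
  exact (continuous_apply (0 : Fin 4)).continuousAt.prodMk
    ((continuous_apply (1 : Fin 4)).continuousAt.prodMk
      (h2.prodMk (continuous_apply (3 : Fin 4)).continuousAt))

/-- away from the balls only `H` contributes -/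
theorem levi_away {D : MetricData B} {f : Qt B → ℝ → ℝ} {P : ℝ} (hf : IsCutFam f P)
    {h : (presM B).Conf}
    (hh : ∀ i, ∀ y ∈ chU (Sum.inl i : Ix B), h.h (Sum.inl i) y = hReg D f i y) {i : B.κ} {y : V 4}
    (hy : y ∈ chU (Sum.inl i : Ix B))
    (ha : ∀ (q : Qt B) (x : V 4), Spec q → E3 x ≤ P → posq q x ≠ posA i y) :
    levi (fun w => ((Real.log (h.h (Sum.inl i) w) : ℝ) : ℂ)) y =
      levi (fun w => ((Real.log (D.H i (w 2)) : ℝ) : ℂ)) y := by
  apply levi_congr
  have h1 : ∀ᶠ x in 𝓝 (posA i y), SF (θc f) x = 0 := by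
    apply SF_eventually_zero hf.P_lt ?_ ha
    intro q hq x hx
    unfold θc
    rw [hf.right q hq x hx, mul_zero]
  have h2 : ∀ᶠ w in 𝓝 y, SF (θc f) (posA i w) = 0 := (continuousAt_posA hy.1).eventually h1
  filter_upwards [log_eventually hh hy, h2] with w hw hw2
  rw [hw, hw2, add_zero]

theorem cen_two (q : Qt B) (y : V 4) : (y - cen q) 2 = y 2 := by simp [cen]

theorem continuous_E3_sub (q : Qt B) : Continuous fun y : V 4 => E3 (y - cen q) := by
  simp only [E3_eq, Complex.normSq_apply]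
  fun_prop

theorem mem_chU_of_ball {q : Qt B} (hq : Spec q) {y : V 4} (h0 : 0 < E3 (y - cen q))
    (h1 : E3 (y - cen q) < 1 / 64) : y ∈ chU (Sum.inl (B.ch q.2.2) : Ix B) := by
  refine ⟨?_, ?_⟩
  · rw [B.D_ch, mem_ball_zero_iff]
    have h2 := norm_lt_eighth h1 2
    have h3 : (y - cen q) (Fin.castSucc 2) = y 2 := cen_two q y
    rw [h3] at h2
    linarith
  · rw [st_posA_eq, specA_posq hq h1]
    exact h0.ne'

/-- near the special points only the cut-off contributes -/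
theorem levi_ball {D : MetricData B} {f : Qt B → ℝ → ℝ}
    {h : (presM B).Conf}
    (hh : ∀ i, ∀ y ∈ chU (Sum.inl i : Ix B), h.h (Sum.inl i) y = hReg D f i y) {q : Qt B}
    (hq : Spec q) {y : V 4} (h0 : 0 < E3 (y - cen q)) (h1 : E3 (y - cen q) < 1 / 64) :
    levi (fun w => ((Real.log (h.h (Sum.inl (B.ch q.2.2)) w) : ℝ) : ℂ)) y =
      (((ro q : ℝ) - 3 : ℝ) : ℂ) •
        levi (fun w => ((f q (Real.log (E3 (w - cen q))) : ℝ) : ℂ)) y := by
  have hy := mem_chU_of_ball hq h0 h1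
  have hE : ∀ᶠ w in 𝓝 y, E3 (w - cen q) < 1 / 64 :=
    (continuous_E3_sub q).continuousAt.eventually_lt continuousAt_const h1
  have hev : (fun w => ((Real.log (h.h (Sum.inl (B.ch q.2.2)) w) : ℝ) : ℂ)) =ᶠ[𝓝 y]
      fun w => (((ro q : ℝ) - 3 : ℝ) : ℂ) * ((f q (Real.log (E3 (w - cen q))) : ℝ) : ℂ) := by
    filter_upwards [log_eventually hh hy, hE] with w hw hw2
    rw [hw, st_posA_eq, SF_posq _ hq hw2]
    have h2 := norm_lt_eighth hw2 2
    have h3 : (w - cen q) (Fin.castSucc 2) = w 2 := cen_two q w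
    rw [h3] at h2
    rw [D.H_center _ _ (by linarith), Real.log_one, zero_add]
    simp only [θc]
    push_cast
    ring
  rw [levi_congr hev]
  ext j k
  simp only [levi, Matrix.of_apply, Matrix.smul_apply, smul_eq_mul]
  have hB : ∀ (c : ℂ) (F : V 4 → ℂ) (w : V 4), dB k (fun w => c * F w) w = c * dB k F w := by
    intro c F w
    have : (fun w => c * F w) = c • F := rfl
    unfold dB
    rw [this, fderiv_const_smul_field]
    simp only [Pi.smul_apply, smul_apply, smul_eq_mul]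
    ring
  have hZ : ∀ (c : ℂ) (F : V 4 → ℂ) (w : V 4), dZ j (fun w => c * F w) w = c * dZ j F w := by
    intro c F w
    have : (fun w => c * F w) = c • F := rfl
    unfold dZ
    rw [this, fderiv_const_smul_field]
    simp only [Pi.smul_apply, smul_apply, smul_eq_mul]
    ring
  simp only [hB]
  rw [hZ]

theorem contDiffAt_logH (D : MetricData B) {i : B.κ} {w : ℂ} (hw : w ∈ B.D i) :
    ContDiffAt ℝ 2 (fun u => Real.log (D.H i u)) w :=
  (((D.H_smooth i).contDiffAt ((B.isOpen_D i).mem_nhds hw)).of_le two_le_infty).log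
    (D.H_pos i w hw).ne'

/-- away from the annuli `H` is flat -/
theorem levi_flat (D : MetricData B) {i : B.κ} {y : V 4} (hy : y 2 ∈ B.D i)
    (ha : ∀ (σ : B.Sp) (w : ℂ), 1 / 8 ≤ ‖w‖ → ‖w‖ < 1 / 2 → B.p i (y 2) ≠ B.p (B.ch σ) w) :
    levi (fun w : V 4 => ((Real.log (D.H i (w 2)) : ℝ) : ℂ)) y = 0 := by
  by_cases hc : ∃ (σ : B.Sp) (w : ℂ), ‖w‖ < 1 / 2 ∧ B.p i (y 2) = B.p (B.ch σ) w
  · obtain ⟨σ, w, hw, hp⟩ := hc
    have hw8 : ‖w‖ < 1 / 8 := by
      by_contra hge
      exact ha σ w (not_lt.1 hge) hw hp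
    have hwD : w ∈ B.D (B.ch σ) := by rw [B.D_ch, mem_ball_zero_iff]; exact hw
    obtain ⟨k, k1, k2, k3⟩ := B.hol i (B.ch σ) 0 (y 2) w hy hwD hp.symm
    have e1 : ∀ᶠ u in 𝓝 (y 2), AnalyticAt ℂ k u := k1.eventually_analyticAt
    have e2 : ∀ᶠ u in 𝓝 (y 2), ‖k u‖ < 1 / 7 := by
      have : ContinuousAt (fun u => ‖k u‖) (y 2) := k1.continuousAt.norm
      exact this.eventually_lt continuousAt_const (by rw [k2]; linarith)
    have e3 : ∀ᶠ u in 𝓝 (y 2), u ∈ B.D i := (B.isOpen_D i).mem_nhds hy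
    have e4 : ∀ᶠ u in 𝓝 (y 2), D.H i u = Complex.normSq (deriv k u) := by
      filter_upwards [e1, e2, e3, k3.eventually_nhds] with u a1 a2 a3 a4
      have hk : k u ∈ B.D (B.ch σ) := by rw [B.D_ch, mem_ball_zero_iff]; linarith
      rw [D.H_trans i (B.ch σ) 0 u (k u) a3 hk a4.self_of_nhds k a1 rfl a4, D.H_center σ _ a2,
        mul_one]
    have e5 : ∀ᶠ w' : V 4 in 𝓝 y, D.H i (w' 2) = Complex.normSq (deriv k (w' 2)) :=
      (continuous_apply (2 : Fin 4)).continuousAt.eventually e4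
    have h0 : deriv k (y 2) ≠ 0 := by
      intro h0
      have h1 := e4.self_of_nhds
      rw [h0, map_zero] at h1
      exact (D.H_pos i _ hy).ne' h1
    have h1 : AnalyticAt ℂ (fun w' : V 4 => deriv k (w' 2)) y :=
      AnalyticAt.fun_comp (g := deriv k) (f := fun z : V 4 => z 2) k1.deriv
        (st_apply_analyticAt 2 y)
    rw [← levi_log_normSq h1 h0]
    apply levi_congr
    filter_upwards [e5] with w' hw'
    rw [hw']
  · apply levi_coord (contDiffAt_logH D hy)
    apply D.H_flat i _ hy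
    rintro σ ⟨w, hw, hp⟩
    apply hc
    refine ⟨σ, w, ?_, hp.symm⟩
    rw [mem_closedBall_zero_iff] at hw
    linarith

end TF

theorem total_formula (R : Reps B) (D : MetricData B) {f : Qt B → ℝ → ℝ} {P : ℝ}
    (hf : IsCutFam f P) (g : HermitianMetric 4 (presM B).Mfd) (hG : g.IsGauduchon) {W : B.Sp → ℝ}
    (hW : ∀ (σ : B.Sp) (w : ℂ), 1 / 8 ≤ ‖w‖ → ‖w‖ < 1 / 2 →
      fibVol (locG g (0, 0, σ)) w = W σ) :
    g.total = ∑ σ ∈ R.R3, (-16 * Real.pi * D.ord / B.N * W σ +
        16 * ((B.N : ℝ) - 3) / B.N * flux (f (0, 0, σ)) (locG g (0, 0, σ))) +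
      ∑ q ∈ R.R2, 16 * ((ro q : ℝ) - 3) / ro q * flux (f q) (locG g q) := by
  classical
  obtain ⟨h, hh⟩ := exists_conf D hf
  obtain ⟨φ, hφc, hφ, htot⟩ := (presM B).total_eq g hG h
  have hφ' : ∀ (i : B.κ) (y : V 4), y ∈ chU (Sum.inl i : Ix B) →
      φ ((presM B).proj (Sum.inl i) y) = -(∑ j, ∑ k, (((presM B).ofMetric g).g (Sum.inl i) y)⁻¹ k j *
        levi (fun w => ((Real.log (h.h (Sum.inl i) w) : ℝ) : ℂ)) y j k).re := fun i y hy =>
    hφ (Sum.inl i) y hy
  have hdens : ∀ (σ : B.Sp) (y : V 4), y ∈ chU (Sum.inl (B.ch σ) : Ix B) →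
      dens g φ σ y = -16 * (∑ j, ∑ k, (((presM B).ofMetric g).g (Sum.inl (B.ch σ)) y).adjugate k j *
        levi (fun w => ((Real.log (h.h (Sum.inl (B.ch σ)) w) : ℝ) : ℂ)) y j k).re := by
    intro σ y hy
    unfold dens
    rw [hφ' _ y hy, neg_mul, StokesAux.lapl_mul_det
      (((presM B).ofMetric g).posDef (Sum.inl (B.ch σ)) y hy)]
    norm_num
  have hdec := decomposition R g φ hφc ?_ ?_
  rotate_left
  · -- away from the balls and the annuli
    intro i y hy hb ha
    rw [hφ' i y hy, TF.levi_away hf hh hy ?_, TF.levi_flat D hy.1 ha]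
    · simp
    · intro q x hq hx
      exact (hb q x hq (lt_of_le_of_lt hx hf.P_lt)).symm
  · -- special points which are not invariant
    intro q y hq hT h0 h1
    have h3 : ro q = 3 := by
      by_contra h3
      exact hT (ro_ne_three_TS hq h3)
    have e1 : cen q + y - cen q = y := by abel
    have h0' : 0 < E3 (cen q + y - cen q) := by rw [e1]; exact h0
    have h1' : E3 (cen q + y - cen q) < 1 / 64 := by rw [e1]; exact h1
    rw [hφ' _ _ (TF.mem_chU_of_ball hq h0' h1'), TF.levi_ball hh hq h0' h1', h3]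
    simp
  -- annuli
  have hann : ∀ σ : B.Sp, ∫ y in pA σ, dens g φ σ y = -16 * (W σ / ro ((0, 0, σ) : Qt B) *
      ∫ w in Metric.ball (0 : ℂ) (1 / 2), lap (fun u => Real.log (D.H (B.ch σ) u)) w) := by
    intro σ
    rw [← ann_integral D g σ (hW σ), ← integral_const_mul]
    apply integral_congr_ae
    have hsub : pA σ ⊆ {y : V 4 | 1 / 8 ≤ ‖y 2‖ ∧ ‖y 2‖ < 1 / 2} := fun y hy =>
      ⟨hy.2.2.2.1, hy.2.2.2.2.1⟩
    have hms : MeasurableSet {y : V 4 | 1 / 8 ≤ ‖y 2‖ ∧ ‖y 2‖ < 1 / 2} := by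
      apply MeasurableSet.inter
      · exact measurableSet_le measurable_const (measurable_pi_apply 2).norm
      · exact measurableSet_lt (measurable_pi_apply 2).norm measurable_const
    refine ae_mono (Measure.restrict_mono hsub le_rfl) ?_
    filter_upwards [ae_restrict_mem hms] with y hy
    have hyb : y 2 ∈ Metric.ball (0 : ℂ) (1 / 2) := by rw [mem_ball_zero_iff]; exact hy.2
    have hyU : y ∈ chU (Sum.inl (B.ch σ) : Ix B) := by
      refine ⟨by rw [B.D_ch]; exact hyb, ?_⟩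
      rintro ⟨τ, hτ, -⟩
      have h1 : y 2 = 0 := (p_ch_inj hyb zero_mem_half hτ).2
      have h2 := hy.1
      rw [h1, norm_zero] at h2
      norm_num at h2
    rw [hdens σ y hyU, TF.levi_away hf hh hyU ?_]
    intro q x hq hx hpos
    have hx' : E3 x < 1 / 64 := lt_of_le_of_lt hx hf.P_lt
    have h2 := norm_lt_eighth hx' 2
    have e2 : (2 : Fin 3).castSucc = 2 := rfl
    rw [e2] at h2
    have hxb : x 2 ∈ Metric.ball (0 : ℂ) (1 / 2) := by rw [mem_ball_zero_iff]; linarith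
    have h3 : B.p (B.ch q.2.2) (x 2) = B.p (B.ch σ) (y 2) := congrArg (fun z : XA B => z.2.2.1) hpos
    have h4 := (p_ch_inj hxb hyb h3).2
    rw [h4] at h2
    linarith [hy.1]
  -- balls
  have hball : ∀ q : Qt B, Spec q → ∫ y in pB q, dens g φ q.2.2 y =
      16 * ((ro q : ℝ) - 3) / ro q * flux (f q) (locG g q) := by
    intro q hq
    have e0 : 16 * ((ro q : ℝ) - 3) / ro q * flux (f q) (locG g q) =
        (-16 * ((ro q : ℝ) - 3)) * (-(flux (f q) (locG g q)) / ro q) := by ring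
    rw [e0, ← ball_integral g hq (hf.cut q hq), ← integral_const_mul]
    apply integral_congr_ae
    have hsub : pB q ⊆ {y : V 4 | E3 (y - cen q) < 1 / 64 ∧ y 2 ≠ 0} := fun y hy =>
      ⟨hy.1, hy.2.1.1⟩
    have hms : MeasurableSet {y : V 4 | E3 (y - cen q) < 1 / 64 ∧ y 2 ≠ 0} := by
      apply IsOpen.measurableSet
      exact (isOpen_lt (TF.continuous_E3_sub q) continuous_const).inter
        (isOpen_ne_fun (continuous_apply (2 : Fin 4)) continuous_const)
    refine ae_mono (Measure.restrict_mono hsub le_rfl) ?_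
    filter_upwards [ae_restrict_mem hms] with y hy
    have h0 : 0 < E3 (y - cen q) := by
      have h1 : Complex.normSq ((y - cen q) 2) ≤ E3 (y - cen q) := by
        have a0 := Complex.normSq_nonneg ((y - cen q) 0)
        have a1 := Complex.normSq_nonneg ((y - cen q) 1)
        unfold E3
        linarith
      have h2 : 0 < Complex.normSq ((y - cen q) 2) := by
        rw [TF.cen_two]; exact Complex.normSq_pos.2 hy.2
      linarith
    rw [hdens q.2.2 y (TF.mem_chU_of_ball hq h0 hy.1), TF.levi_ball hh hq h0 hy.1, mul_assoc]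
    congr 1
    rw [← Complex.re_ofReal_mul, Finset.mul_sum]
    congr 1
    refine Finset.sum_congr rfl fun j _ => ?_
    rw [Finset.mul_sum]
    refine Finset.sum_congr rfl fun k _ => ?_
    rw [Matrix.smul_apply, smul_eq_mul]
    ring
  have hspec : ∀ σ, B.main σ → Spec ((0, 0, σ) : Qt B) := fun σ hσ =>
    Or.inl ⟨hσ, Eis.zero_mem, Eis.zero_mem⟩
  -- the main points are representatives
  have hR : R.R3 ⊆ R.R1 := by
    intro σ hσ
    rw [R.mem_R3] at hσ
    obtain ⟨τ, hτ, k, hk⟩ := R.R1_surj σ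
    have h1 : τ = σ := by
      have h2 := sσ_iter_mul k τ
      rw [hk, main_iter hσ] at h2
      exact h2.symm
    rw [← h1]
    exact hτ
  rw [htot, hdec, Finset.sum_add_distrib]
  congr 1
  · congr 1
    · rw [← Finset.sum_subset hR]
      · refine Finset.sum_congr rfl fun σ hσ => ?_
        rw [R.mem_R3] at hσ
        rw [hann, D.H_mass_main σ hσ, ro_main hσ]
        ring
      · intro σ _ hσ
        rw [R.mem_R3] at hσ
        rw [hann, D.H_mass σ hσ]
        ring
    · refine Finset.sum_congr rfl fun σ hσ => ?_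
      rw [R.mem_R3] at hσ
      rw [hball (0, 0, σ) (hspec σ hσ), ro_main hσ]
  · refine Finset.sum_congr rfl fun q hq => ?_
    exact hball q (R.R2_spec q hq).1

end

end GK
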