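import Pool.Agent.GK.Piola

/-!
# Module Volume

Analyticity of the transition maps, existence of the volume measure of a Hermitian metric on a
compact complex manifold, change of variables, invariance of the Chern scalar curvature.
-/

set_option autoImplicit false

open scoped ContDiff Manifold Topology ComplexOrder
open MeasureTheory

namespace GK

noncomputable section

section Prelim

variable {n : ℕ} {M : Type*} [TopologicalSpace M]

/-- the real Jacobian determinant of a transition map -/
theorem det_fderiv_transition {h : V n → V n} {z : V n} (hh : DifferentiableAt ℂ h z) :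
    (fderiv ℝ h z).det = Complex.normSq (jac h z).det := by
  have h1 : fderiv ℝ h z = (fderiv ℂ h z).restrictScalars ℝ :=
    DifferentiableAt.fderiv_restrictScalars ℝ hh
  have h2 : (jac h z).det = LinearMap.det (fderiv ℂ h z : V n →ₗ[ℂ] V n) := by
    rw [← LinearMap.det_toMatrix']
    congr 1
  rw [h1, h2, ← Algebra.norm_complex_apply, ← LinearMap.det_restrictScalars]
  rfl

/-- the reverse transition map is locally inverse to the transition map -/
theorem transition_comp_eventuallyEq {e e' : OpenPartialHomeomorph M (V n)} {z : V n}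
    (hz : z ∈ (e.symm.trans e').source) :
    (fun w => (e'.symm.trans e) ((e.symm.trans e') w)) =ᶠ[𝓝 z] fun w => w := by
  filter_upwards [(e.symm.trans e').open_source.mem_nhds hz] with w hw
  simp only [OpenPartialHomeomorph.trans_source, OpenPartialHomeomorph.symm_source,
    Set.mem_inter_iff, Set.mem_preimage] at hw
  simp [e'.left_inv hw.2, e.right_inv hw.1]

theorem transition_mem {e e' : OpenPartialHomeomorph M (V n)} {z : V n}
    (hz : z ∈ (e.symm.trans e').source) : (e.symm.trans e') z ∈ (e'.symm.trans e).source := by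
  simp only [OpenPartialHomeomorph.trans_source, OpenPartialHomeomorph.symm_source,
    Set.mem_inter_iff, Set.mem_preimage] at hz
  simp [e'.left_inv hz.2, e'.map_source hz.2, e.map_target hz.1]

/-- measurability of the trace of a preimage -/
theorem measurableSet_inter_preimage {X Y : Type*} [TopologicalSpace X] [MeasurableSpace X]
    [OpensMeasurableSpace X] [TopologicalSpace Y] [MeasurableSpace Y] [BorelSpace Y]
    {f : X → Y} {s : Set X} (hf : ContinuousOn f s) (hs : MeasurableSet s) {B : Set Y}
    (hB : MeasurableSet B) : MeasurableSet (s ∩ f ⁻¹' B) := by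
  have h1 : Measurable (fun x : s => f x) := (continuousOn_iff_continuous_domRestrict.1 hf).measurable
  have h2 : s ∩ f ⁻¹' B = Subtype.val '' ((fun x : s => f x) ⁻¹' B) := by
    ext x
    constructor
    · rintro ⟨hx, hxB⟩
      exact ⟨⟨x, hx⟩, hxB, rfl⟩
    · rintro ⟨⟨y, hy⟩, hyB, rfl⟩
      exact ⟨hy, hyB⟩
  rw [h2]
  exact hs.subtype_image (h1 hB)

theorem image_symm_eq {e : OpenPartialHomeomorph M (V n)} {A : Set (V n)} (hA : A ⊆ e.target) :
    e.symm '' A = e.source ∩ e ⁻¹' A := by
  ext x
  constructor
  · rintro ⟨z, hz, rfl⟩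
    refine ⟨e.map_target (hA hz), ?_⟩
    simp only [Set.mem_preimage]
    rwa [e.right_inv (hA hz)]
  · rintro ⟨hx, hxA⟩
    exact ⟨e x, hxA, e.left_inv hx⟩

theorem measurableSet_image_symm {e : OpenPartialHomeomorph M (V n)} {A : Set (V n)}
    (hA : MeasurableSet A) (hAe : A ⊆ e.target) : @MeasurableSet M (borel M) (e.symm '' A) := by
  let _ : MeasurableSpace M := borel M
  have _ : BorelSpace M := ⟨rfl⟩
  rw [image_symm_eq hAe]
  exact measurableSet_inter_preimage e.continuousOn e.open_source.measurableSet hA

theorem inter_preimage_image_symm {e : OpenPartialHomeomorph M (V n)} {A : Set (V n)}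
    (hAe : A ⊆ e.target) : e.target ∩ e.symm ⁻¹' (e.symm '' A) = A := by
  ext z
  constructor
  · rintro ⟨hz, w, hw, hwz⟩
    have : w = z := e.symm.injOn (hAe hw) hz hwz
    rwa [← this]
  · intro hz
    exact ⟨hAe hz, z, hz, rfl⟩

end Prelim

section Volume

variable {n : ℕ} {M : Type} [TopologicalSpace M] 
  [ChartedSpace (V n) M] 

section Transition
variable [IsManifold 𝓘(ℂ, V n) ω M]

/-- transition maps are analytic -/
theorem transition_analyticAt {e e' : OpenPartialHomeomorph M (V n)} (he : e ∈ atlas (V n) M)
    (he' : e' ∈ atlas (V n) M) {z : V n} (hz : z ∈ (e.symm.trans e').source) :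
    AnalyticAt ℂ (e.symm.trans e') z := by
  have h := HasGroupoid.compatible (G := contDiffGroupoid ω 𝓘(ℂ, V n)) he he'
  rw [contDiffGroupoid, mem_groupoid_of_pregroupoid] at h
  have h1 : ContDiffOn ℂ ω (e.symm.trans e') (e.symm.trans e').source := by
    have := h.1
    simpa [contDiffPregroupoid] using this
  have h2 : ContDiffAt ℂ ω (e.symm.trans e') z :=
    h1.contDiffAt ((e.symm.trans e').open_source.mem_nhds hz)
  exact h2.analyticAt

theorem isUnit_det_jac_transition {e e' : OpenPartialHomeomorph M (V n)} (he : e ∈ atlas (V n) M)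
    (he' : e' ∈ atlas (V n) M) {z : V n} (hz : z ∈ (e.symm.trans e').source) :
    IsUnit (jac (e.symm.trans e') z).det := by
  have h1 := (transition_analyticAt he he' hz).differentiableAt
  have h2 := (transition_analyticAt he' he (transition_mem hz)).differentiableAt
  have h3 := jac_comp h2 h1
  rw [jac_congr (transition_comp_eventuallyEq hz), jac_id] at h3
  have h4 := congrArg Matrix.det h3
  rw [Matrix.det_one, Matrix.det_mul] at h4
  exact IsUnit.of_mul_eq_one_right _ h4.symm


end Transition

namespace HermitianMetric

variable (g : HermitianMetric n M)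

/-- the density of the volume in a chart -/
def dens (e : OpenPartialHomeomorph M (V n)) (z : V n) : ENNReal :=
  ENNReal.ofReal (2 ^ n * (g.g e z).det.re)

theorem dens_def (e : OpenPartialHomeomorph M (V n)) (z : V n) :
    g.dens e z = ENNReal.ofReal (2 ^ n * (g.g e z).det.re) := rfl

theorem continuousOn_det {e : OpenPartialHomeomorph M (V n)} (he : e ∈ atlas (V n) M) :
    ContinuousOn (fun z => 2 ^ n * (g.g e z).det.re) e.target := by
  have h1 : ContinuousOn (fun z => (g.g e z).det) e.target := by
    have : (fun z => (g.g e z).det) = fun z => ∑ σ : Equiv.Perm (Fin n),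
        ((Equiv.Perm.sign σ : ℤ) : ℂ) * ∏ i, g.g e z (σ i) i := by
      funext z
      rw [Matrix.det_apply']
    rw [this]
    refine continuousOn_finsetSum _ fun σ _ => continuousOn_const.mul
      (continuousOn_finsetProd _ fun i _ => (g.smooth e he (σ i) i).continuousOn)
  exact continuousOn_const.mul (Complex.continuous_re.comp_continuousOn h1)

theorem continuousOn_dens {e : OpenPartialHomeomorph M (V n)} (he : e ∈ atlas (V n) M) :
    ContinuousOn (g.dens e) e.target :=
  ENNReal.continuous_ofReal.comp_continuousOn (g.continuousOn_det he)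

variable [IsManifold 𝓘(ℂ, V n) ω M]

theorem dens_transition {e e' : OpenPartialHomeomorph M (V n)} (he : e ∈ atlas (V n) M)
    (he' : e' ∈ atlas (V n) M) {z : V n} (hz : z ∈ (e.symm.trans e').source) :
    g.dens e z = ENNReal.ofReal |(fderiv ℝ (e.symm.trans e') z).det| *
      g.dens e' ((e.symm.trans e') z) := by
  rw [det_fderiv_transition (transition_analyticAt he he' hz).differentiableAt,
    abs_of_nonneg (Complex.normSq_nonneg _), dens, dens,
    ← ENNReal.ofReal_mul (Complex.normSq_nonneg _), g.compat e he e' he' z hz, det_pull]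
  congr 1
  rw [Complex.re_ofReal_mul]
  ring

theorem setLIntegral_transition {e e' : OpenPartialHomeomorph M (V n)} (he : e ∈ atlas (V n) M)
    (he' : e' ∈ atlas (V n) M) {A : Set (V n)} (hA : MeasurableSet A)
    (hAe : A ⊆ (e.symm.trans e').source) :
    ∫⁻ z in (e.symm.trans e') '' A, g.dens e' z = ∫⁻ z in A, g.dens e z := by
  have h := lintegral_image_eq_lintegral_abs_det_fderiv_mul (MeasureSpace.volume : Measure (V n)) hA
    (f := (e.symm.trans e')) (f' := fun z => fderiv ℝ (e.symm.trans e') z)
    (fun z hz => ((transition_analyticAt he he' (hAe hz)).differentiableAt.restrictScalars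
      ℝ).hasFDerivAt.hasFDerivWithinAt)
    ((e.symm.trans e').injOn.mono hAe) (g.dens e')
  rw [h]
  refine setLIntegral_congr_fun hA fun z hz => ?_
  rw [← g.dens_transition he he' (hAe hz)]

/-- the volume measure of a single chart, as a measure on `M` -/
def chartMeasure (e : OpenPartialHomeomorph M (V n)) : @Measure M (borel M) :=
  @Measure.map _ _ _ (borel M) e.symm
    (((MeasureSpace.volume : Measure (V n)).restrict e.target).withDensity (g.dens e))

omit [IsManifold 𝓘(ℂ, V n) ω M] in
theorem chartMeasure_apply {e : OpenPartialHomeomorph M (V n)} {B : Set M}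
    (hB : @MeasurableSet M (borel M) B) :
    g.chartMeasure e B = ∫⁻ z in e.target ∩ e.symm ⁻¹' B, g.dens e z := by
  let _ : MeasurableSpace M := borel M
  have _ : BorelSpace M := ⟨rfl⟩
  have hae : AEMeasurable e.symm
      (((MeasureSpace.volume : Measure (V n)).restrict e.target).withDensity (g.dens e)) :=
    (e.continuousOn_symm.aemeasurable e.open_target.measurableSet).mono_ac
      (withDensity_absolutelyContinuous _ _)
  rw [chartMeasure, Measure.map_apply_of_aemeasurable hae hB, withDensity_apply',
    Measure.restrict_restrict' e.open_target.measurableSet, Set.inter_comm]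

theorem chartMeasure_congr {e e' : OpenPartialHomeomorph M (V n)} (he : e ∈ atlas (V n) M)
    (he' : e' ∈ atlas (V n) M) {B : Set M} (hB : @MeasurableSet M (borel M) B)
    (h1 : B ⊆ e.source) (h2 : B ⊆ e'.source) : g.chartMeasure e B = g.chartMeasure e' B := by
  let _ : MeasurableSpace M := borel M
  have _ : BorelSpace M := ⟨rfl⟩
  rw [g.chartMeasure_apply hB, g.chartMeasure_apply hB]
  have hA : MeasurableSet (e.target ∩ e.symm ⁻¹' B) :=
    measurableSet_inter_preimage e.continuousOn_symm e.open_target.measurableSet hB
  have hAe : e.target ∩ e.symm ⁻¹' B ⊆ (e.symm.trans e').source := by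
    rintro z ⟨hz, hzB⟩
    rw [OpenPartialHomeomorph.trans_source]
    exact ⟨hz, h2 hzB⟩
  have himg : (e.symm.trans e') '' (e.target ∩ e.symm ⁻¹' B) = e'.target ∩ e'.symm ⁻¹' B := by
    ext w
    constructor
    · rintro ⟨z, ⟨hz, hzB⟩, rfl⟩
      refine ⟨e'.map_source (h2 hzB), ?_⟩
      simp only [OpenPartialHomeomorph.coe_trans, Function.comp_apply, Set.mem_preimage]
      rw [e'.left_inv (h2 hzB)]
      exact hzB
    · rintro ⟨hw, hwB⟩
      refine ⟨e (e'.symm w), ⟨e.map_source (h1 hwB), ?_⟩, ?_⟩
      · simp only [Set.mem_preimage]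
        rw [e.left_inv (h1 hwB)]
        exact hwB
      · simp only [OpenPartialHomeomorph.coe_trans, Function.comp_apply]
        rw [e.left_inv (h1 hwB), e'.right_inv hw]
  rw [← himg, g.setLIntegral_transition he he' hA hAe]

variable [CompactSpace M]

theorem exists_isVolume : ∃ μ : @Measure M (borel M), g.IsVolume μ := by
  let _ : MeasurableSpace M := borel M
  have _ : BorelSpace M := ⟨rfl⟩
  rcases isEmpty_or_nonempty M with hM | hM
  · refine ⟨0, ?_⟩
    intro e he A hA hAe
    have h0 : A = ∅ := by
      rw [Set.eq_empty_iff_forall_notMem]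
      intro z hz
      exact hM.elim (e.symm z)
    subst h0
    simp
  · obtain ⟨t, ht⟩ := (isCompact_univ (X := M)).elim_finite_subcover
      (fun x : M => (chartAt (V n) x).source) (fun x => (chartAt (V n) x).open_source)
      (fun x _ => Set.mem_iUnion.2 ⟨x, mem_chart_source (V n) x⟩)
    have htne : (t : Set M).Nonempty := by
      obtain ⟨x⟩ := hM
      have hx := ht (Set.mem_univ x)
      simp only [Set.mem_iUnion] at hx
      obtain ⟨y, hy, _⟩ := hx
      exact ⟨y, hy⟩
    obtain ⟨f, hf⟩ := (t.countable_toSet).exists_eq_range htne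
    set c : ℕ → OpenPartialHomeomorph M (V n) := fun i => chartAt (V n) (f i) with hc
    have hcat : ∀ i, c i ∈ atlas (V n) M := fun i => chart_mem_atlas _ _
    set S : ℕ → Set M := disjointed (fun i => (c i).source) with hS
    have hSm : ∀ i, MeasurableSet (S i) :=
      MeasurableSet.disjointed (fun i => (c i).open_source.measurableSet)
    have hSsub : ∀ i, S i ⊆ (c i).source := fun i => disjointed_subset _ _
    have hSdisj : Pairwise (Function.onFun Disjoint S) := disjoint_disjointed _
    have hSU : ⋃ i, S i = Set.univ := by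
      rw [hS, iUnion_disjointed, Set.eq_univ_iff_forall]
      intro x
      have hx := ht (Set.mem_univ x)
      simp only [Set.mem_iUnion] at hx
      obtain ⟨y, hy, hxy⟩ := hx
      have hy' : y ∈ (t : Set M) := hy
      rw [hf] at hy'
      obtain ⟨i, rfl⟩ := hy'
      exact Set.mem_iUnion.2 ⟨i, hxy⟩
    refine ⟨Measure.sum (fun i => (g.chartMeasure (c i)).restrict (S i)), ?_⟩
    intro e he A hA hAe
    have hB : MeasurableSet (e.symm '' A) := measurableSet_image_symm hA hAe
    have hBe : e.symm '' A ⊆ e.source := by
      rw [image_symm_eq hAe]; exact Set.inter_subset_left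
    rw [Measure.sum_apply _ hB]
    have h1 : ∀ i, ((g.chartMeasure (c i)).restrict (S i)) (e.symm '' A) =
        g.chartMeasure e (e.symm '' A ∩ S i) := by
      intro i
      rw [Measure.restrict_apply hB]
      exact g.chartMeasure_congr (hcat i) he (hB.inter (hSm i))
        (Set.inter_subset_right.trans (hSsub i)) (Set.inter_subset_left.trans hBe)
    simp_rw [h1]
    rw [← measure_iUnion (fun i j hij => ((hSdisj hij).mono Set.inter_subset_right
      Set.inter_subset_right)) (fun i => hB.inter (hSm i)), ← Set.inter_iUnion, hSU,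
      Set.inter_univ, g.chartMeasure_apply hB, inter_preimage_image_symm hAe]
    rfl

/-- existence of the volume measure -/
theorem isVolume_volume : g.IsVolume g.volume := by
  have h := g.exists_isVolume
  rw [HermitianMetric.volume, dif_pos h]
  exact h.choose_spec

omit [IsManifold 𝓘(ℂ, V n) ω M] in
theorem isFiniteMeasure_of_isVolume
    {μ : @Measure M (borel M)} (hμ : g.IsVolume μ) : @IsFiniteMeasure M (borel M) μ := by
  let _ : MeasurableSpace M := borel M
  have _ : BorelSpace M := ⟨rfl⟩
  refine ⟨(isCompact_univ (X := M)).measure_lt_top_of_nhdsWithin fun x _ => ?_⟩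
  rw [nhdsWithin_univ]
  set e := chartAt (V n) x with he
  have hea : e ∈ atlas (V n) M := chart_mem_atlas _ _
  have hxs : x ∈ e.source := mem_chart_source (V n) x
  obtain ⟨K, hK, hKe, hKc⟩ := local_compact_nhds (e.open_target.mem_nhds (e.map_source hxs))
  refine ⟨e.symm '' K, ?_, ?_⟩
  · rw [image_symm_eq hKe]
    exact Filter.inter_mem (e.open_source.mem_nhds hxs) ((e.continuousAt hxs).preimage_mem_nhds hK)
  · rw [hμ e hea K hKc.measurableSet hKe]
    exact (((g.continuousOn_det hea).mono hKe).integrableOn_compact hKc).lintegral_lt_top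

omit [IsManifold 𝓘(ℂ, V n) ω M] [CompactSpace M] [ChartedSpace (V n) M] [TopologicalSpace M] in
theorem chernScal_congr {G G' : V n → Matrix (Fin n) (Fin n) ℂ} {z : V n}
    (h : G =ᶠ[𝓝 z] G') : chernScal G z = chernScal G' z := by
  have h1 : (fun w => ((Real.log (G w).det.re : ℝ) : ℂ)) =ᶠ[𝓝 z]
      fun w => ((Real.log (G' w).det.re : ℝ) : ℂ) := by
    filter_upwards [h] with w hw
    rw [hw]
  rw [chernScal, chernScal, h.eq_of_nhds, levi_congr h1]

omit [CompactSpace M] in
/-- the scalar curvature can be computed in any chart -/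
theorem scal_eq {e : OpenPartialHomeomorph M (V n)}
    (he : e ∈ atlas (V n) M) {z : V n} (hz : z ∈ e.target) :
    g.scal (e.symm z) = chernScal (g.g e) z := by
  set e' := chartAt (V n) (e.symm z) with he'
  have hea : e' ∈ atlas (V n) M := chart_mem_atlas _ _
  have hs : e.symm z ∈ e'.source := mem_chart_source (V n) (e.symm z)
  have hzs : z ∈ (e.symm.trans e').source := by
    rw [OpenPartialHomeomorph.trans_source]
    exact ⟨hz, hs⟩
  have ht : (e.symm.trans e') z ∈ e'.target := e'.map_source hs
  have hev : g.g e =ᶠ[𝓝 z]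
      fun w => pull (jac (e.symm.trans e') w) (g.g e' ((e.symm.trans e') w)) := by
    filter_upwards [(e.symm.trans e').open_source.mem_nhds hzs] with w hw
    exact g.compat e he e' hea w hw
  rw [chernScal_congr hev, chernScal_pull (transition_analyticAt he hea hzs)
    (isUnit_det_jac_transition he hea hzs)
    (fun j k => (g.smooth e' hea j k).contDiffAt (e'.open_target.mem_nhds ht)) ?_]
  · rfl
  · filter_upwards [e'.open_target.mem_nhds ht] with w hw
    exact g.posDef e' hea w hw

omit [IsManifold 𝓘(ℂ, V n) ω M] [CompactSpace M] in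
/-- change of variables -/
theorem setIntegral_chart
    {μ : @Measure M (borel M)} (hμ : g.IsVolume μ) {e : OpenPartialHomeomorph M (V n)}
    (he : e ∈ atlas (V n) M) {A : Set (V n)} (hA : MeasurableSet A) (hAe : A ⊆ e.target)
    (F : M → ℝ) :
    @integral M ℝ _ _ (borel M) (@Measure.restrict M (borel M) μ (e.symm '' A)) F =
      ∫ z in A, F (e.symm z) * (2 ^ n * (g.g e z).det.re) := by
  let _ : MeasurableSpace M := borel M
  have _ : BorelSpace M := ⟨rfl⟩
  set ν : Measure (V n) :=
    ((MeasureSpace.volume : Measure (V n)).restrict A).withDensity (g.dens e) with hν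
  have hAEM : AEMeasurable (g.dens e) ((MeasureSpace.volume : Measure (V n)).restrict A) :=
    ((g.continuousOn_dens he).mono hAe).aemeasurable hA
  -- the chart as a measurable embedding of the subtype
  set φ : A → M := fun a => e.symm a with hφ
  have hφe : MeasurableEmbedding φ := by
    refine ⟨?_, ?_, ?_⟩
    · intro a b hab
      exact Subtype.ext (e.symm.injOn (hAe a.2) (hAe b.2) hab)
    · exact (continuousOn_iff_continuous_domRestrict.1
        (e.continuousOn_symm.mono hAe)).measurable
    · intro s hs
      have h1 : φ '' s = e.symm '' (Subtype.val '' s) := by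
        rw [Set.image_image]
      rw [h1]
      apply measurableSet_image_symm (hA.subtype_image hs)
      rintro _ ⟨a, _, rfl⟩
      exact hAe a.2
  have hmap : μ.restrict (e.symm '' A) = Measure.map φ (Measure.comap Subtype.val ν) := by
    ext B hB
    rw [Measure.map_apply hφe.measurable hB, Measure.restrict_apply hB,
      Measure.comap_apply _ Subtype.val_injective
        (fun s hs => hA.subtype_image hs) _ (hφe.measurable hB)]
    have h1 : B ∩ e.symm '' A = e.symm '' (A ∩ e.symm ⁻¹' B) := by
      rw [Set.image_inter_preimage, Set.inter_comm]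
    have h2 : (Subtype.val '' (φ ⁻¹' B) : Set (V n)) = A ∩ e.symm ⁻¹' B := by
      ext z
      constructor
      · rintro ⟨a, ha, rfl⟩
        exact ⟨a.2, ha⟩
      · rintro ⟨hz, hzB⟩
        exact ⟨⟨z, hz⟩, hzB, rfl⟩
    have hm : MeasurableSet (A ∩ e.symm ⁻¹' B) :=
      measurableSet_inter_preimage (e.continuousOn_symm.mono hAe) hA hB
    rw [h1, h2, hμ e he _ hm (Set.inter_subset_left.trans hAe), hν, withDensity_apply _ hm,
      Measure.restrict_restrict hm,
      Set.inter_eq_left.2 (Set.inter_subset_left (s := A) (t := e.symm ⁻¹' B))]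
    rfl
  have hνA : ν.restrict A = ν := by
    rw [hν, restrict_withDensity hA, Measure.restrict_restrict hA, Set.inter_self]
  rw [hmap, hφe.integral_map, integral_subtype_comap hA (fun z => F (e.symm z)), hνA, hν,
    integral_withDensity_eq_integral_toReal_smul₀ hAEM
      (Filter.Eventually.of_forall fun z => ENNReal.ofReal_lt_top)]
  refine setIntegral_congr_fun hA fun z hz => ?_
  have hpos : 0 ≤ 2 ^ n * (g.g e z).det.re := by
    have := (g.posDef e he z (hAe hz)).det_pos
    have h2 : 0 ≤ (g.g e z).det.re := (Complex.le_def.1 this.le).1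
    positivity
  simp only [dens, ENNReal.toReal_ofReal hpos, smul_eq_mul]
  ring

end HermitianMetric

end Volume
end
end GK
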